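import Pool.Agent.Lib.MP_c69b6d_co.F.Core

/-! Pivots, codes, bases, reachability. -/

namespace Pool.Agent.Lib.MP_c69b6d_co.F

open Finset

variable {K : Type} [Field K]

namespace Disp

@[simp] theorem pivot_Z (D : Disp K) (x y : ℕ) : (D.pivot x y).Z = D.Z := by
  unfold pivot; split_ifs <;> rfl

theorem pivot_of_zero {D : Disp K} {x y : ℕ} (h : D.S x y = 0) : D.pivot x y = D := by
  unfold pivot; rw [dif_pos h]

theorem pivot_row {D : Disp K} {x y : ℕ} (h : D.S x y ≠ 0) (i : ℕ) :
    (D.pivot x y).row i = if i = x ∨ i = y then !D.row i else D.row i := by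
  unfold pivot; rw [dif_neg h]

theorem pivot_S {D : Disp K} {x y : ℕ} (h : D.S x y ≠ 0) (i j : ℕ) :
    (D.pivot x y).S i j = pS D.S x y i j := by
  unfold pivot; rw [dif_neg h]

theorem pivot_S_gen {D : Disp K} {x y i j : ℕ} (h : D.S x y ≠ 0) (hix : i ≠ x) (hiy : i ≠ y)
    (hjx : j ≠ x) (hjy : j ≠ y) :
    (D.pivot x y).S i j =
      D.S i j - D.S i y * D.S x j / D.S x y - D.S i x * D.S y j / D.S y x := by
  rw [pivot_S h]; simp only [pS, hix, hiy, hjx, hjy, if_false]

theorem pivot_comm (D : Disp K) (x y : ℕ) : D.pivot x y = D.pivot y x := by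
  by_cases h : D.S x y = 0
  · rw [pivot_of_zero h, pivot_of_zero (by rw [D.skew, h, neg_zero])]
  · have h' := S_ne_symm h
    have hxy := ne_of_S h
    refine ext' (by simp) (funext fun i => ?_) (funext fun i => funext fun j => ?_)
    · rw [pivot_row h, pivot_row h']; simp only [or_comm]
    · rw [pivot_S h, pivot_S h']
      unfold pS
      split_ifs <;> first | rfl | ring1 | (subst_vars; contradiction)

theorem pivot_S_ne {D : Disp K} {x y : ℕ} (h : D.S x y ≠ 0) : (D.pivot x y).S x y ≠ 0 := by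
  rw [pivot_S h]; simp [pS, h]

theorem pivot_pivot (D : Disp K) (x y : ℕ) : (D.pivot x y).pivot x y = D := by
  by_cases h : D.S x y = 0
  · rw [pivot_of_zero h, pivot_of_zero h]
  · have h' := pivot_S_ne h
    have hxy := ne_of_S h
    have hyx := hxy.symm
    have e := D.skew y x
    refine ext' (by simp) (funext fun i => ?_) (funext fun i => funext fun j => ?_)
    · rw [pivot_row h', pivot_row h]; split_ifs <;> simp
    · rw [pivot_S h', show (D.pivot x y).S = pS D.S x y from
        funext fun i => funext fun j => pivot_S h i j]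
      by_cases h1 : i = x
      · subst h1
        by_cases h4 : j = y
        · subst h4; simp [pS]
        · by_cases h3 : j = i
          · subst h3; simp [pS, h4, D.bip j j rfl]
          · simp only [pS, h3, h4, hyx, if_true, if_false]; rw [e]; field_simp
      · by_cases h2 : i = y
        · subst h2
          by_cases h3 : j = x
          · subst h3; simp [pS, h1]
          · by_cases h4 : j = i
            · subst h4; simp [pS, h3, D.bip j j rfl]
            · simp only [pS, h1, h3, h4, if_true, if_false]; rw [e]; field_simp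
        · by_cases h3 : j = x
          · subst h3
            simp only [pS, h1, h2, hyx, if_true, if_false]; rw [e, D.skew i j]; field_simp
          · by_cases h4 : j = y
            · subst h4
              simp only [pS, h1, h2, h3, if_true, if_false]; rw [e, D.skew i j]; field_simp
            · simp only [pS, h1, h2, h3, h4, hyx, if_true, if_false]
              rw [e, D.skew x i, D.skew y i]; field_simp; ring

theorem flip_pivot (D : Disp K) (x y : ℕ) : (D.pivot x y).flip = D.flip.pivot x y := by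
  by_cases h : D.S x y = 0
  · rw [pivot_of_zero h, pivot_of_zero (D := D.flip) h]
  · refine ext' (by simp [flip]) (funext fun i => ?_) (funext fun i => funext fun j => ?_)
    · rw [pivot_row (D := D.flip) h]; simp only [flip, pivot_row h]; split_ifs <;> rfl
    · rw [pivot_S (D := D.flip) h]; exact pivot_S h i j

@[simp] theorem flip_flip (D : Disp K) : D.flip.flip = D := ext' rfl (funext fun i => by simp [flip]) rfl

theorem restrict_pivot (D : Disp K) (U : Finset ℕ) (x y : ℕ) :
    (D.pivot x y).restrict U = (D.restrict U).pivot x y := by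
  by_cases h : D.S x y = 0
  · rw [pivot_of_zero h, pivot_of_zero (D := D.restrict U) h]
  · refine ext' (by simp [restrict]) (funext fun i => ?_) (funext fun i => funext fun j => ?_)
    · rw [pivot_row (D := D.restrict U) h]; exact pivot_row h i
    · rw [pivot_S (D := D.restrict U) h]; exact pivot_S h i j

theorem scale_pivot (D : Disp K) {ε : ℕ → K} (hε : ∀ i, ε i * ε i = 1) (x y : ℕ) :
    (D.pivot x y).scale ε = (D.scale ε).pivot x y := by
  have h0 : ∀ i, ε i ≠ 0 := fun i => left_ne_zero_of_mul_eq_one (hε i)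
  have hi : ∀ i, (ε i)⁻¹ = ε i := fun i => inv_eq_of_mul_eq_one_left (hε i)
  by_cases h : D.S x y = 0
  · rw [pivot_of_zero h, pivot_of_zero (D := D.scale ε) (by simp [scale, h])]
  · have h' : (D.scale ε).S x y ≠ 0 := mul_ne_zero (mul_ne_zero (h0 x) (h0 y)) h
    have h2 := S_ne_symm h
    have hx := h0 x
    have hy := h0 y
    refine ext' (by simp [scale]) (funext fun i => ?_) (funext fun i => funext fun j => ?_)
    · rw [pivot_row h']; exact pivot_row h i
    · rw [pivot_S h']
      simp only [scale, pivot_S h, pS]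
      split_ifs with a1 a2 a3 a4 a5 a6 a7 a8
      · subst a1 a2; simp only [div_eq_mul_inv, mul_inv, hi]; ring
      · ring
      · subst a1; simp only [div_eq_mul_inv, mul_inv, hi]
        linear_combination (-(ε i * ε j * D.S y j * (D.S y i)⁻¹)) * hε y
      · subst a4 a5; simp only [div_eq_mul_inv, mul_inv, hi]; ring
      · ring
      · subst a4; simp only [div_eq_mul_inv, mul_inv, hi]
        linear_combination (-(ε i * ε j * D.S x j * (D.S x i)⁻¹)) * hε x
      · subst a7; simp only [div_eq_mul_inv, mul_inv, hi]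
        linear_combination (ε i * ε j * D.S y i * (D.S y j)⁻¹) * hε y
      · subst a8; simp only [div_eq_mul_inv, mul_inv, hi]
        linear_combination (ε i * ε j * D.S x i * (D.S x j)⁻¹) * hε x
      · field_simp

/-- the graph-swap lemma: a vector `u` supported on `X ∋ x, y` and its image, read after the
pivot. -/
theorem swap_vec {D : Disp K} {x y : ℕ} (h : D.S x y ≠ 0) {X : Finset ℕ} (hx : x ∈ X)
    (hy : y ∈ X) (u : ℕ → K) :
    let u' : ℕ → K := fun i => if i = x ∨ i = y then ∑ k ∈ X, u k * D.S k i else u i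
    ∀ j, ∑ k ∈ X, u' k * (D.pivot x y).S k j =
      if j = x ∨ j = y then u j else ∑ k ∈ X, u k * D.S k j := by
  intro u' j
  have hxy := ne_of_S h
  have hyx := hxy.symm
  have e := D.skew y x
  have hy' : y ∈ X.erase x := mem_erase.2 ⟨hyx, hy⟩
  have sp : ∀ f : ℕ → K, ∑ k ∈ X, f k = f x + f y + ∑ k ∈ (X.erase x).erase y, f k := fun f => by
    rw [add_assoc, add_sum_erase _ _ hy', add_sum_erase _ _ hx]
  have ne : ∀ k ∈ (X.erase x).erase y, k ≠ x ∧ k ≠ y := fun k hk =>
    ⟨(mem_erase.1 (mem_erase.1 hk).2).1, (mem_erase.1 hk).1⟩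
  have ux : u' x = u y * D.S y x + ∑ k ∈ (X.erase x).erase y, u k * D.S k x := by
    simp only [u', true_or, if_true]; rw [sp, D.bip x x rfl]; ring
  have uy : u' y = u x * D.S x y + ∑ k ∈ (X.erase x).erase y, u k * D.S k y := by
    simp only [u', or_true, if_true]; rw [sp, D.bip y y rfl]; ring
  rw [sp, ux, uy]
  by_cases h1 : j = x
  · subst h1
    have : ∑ k ∈ (X.erase j).erase y, u' k * (D.pivot j y).S k j =
        (∑ k ∈ (X.erase j).erase y, u k * D.S k y) * (D.S y j)⁻¹ := by
      rw [sum_mul]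
      refine sum_congr rfl fun k hk => ?_
      simp only [u', pivot_S h, pS, (ne k hk).1, (ne k hk).2, or_self, if_true, if_false]
      rw [D.skew y k]; ring
    rw [this]
    simp only [pivot_S h, pS, hxy, hyx, true_or, if_true, if_false]
    rw [e]; field_simp; ring
  · by_cases h2 : j = y
    · subst h2
      have : ∑ k ∈ (X.erase x).erase j, u' k * (D.pivot x j).S k j =
          (∑ k ∈ (X.erase x).erase j, u k * D.S k x) * (D.S x j)⁻¹ := by
        rw [sum_mul]
        refine sum_congr rfl fun k hk => ?_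
        simp only [u', pivot_S h, pS, (ne k hk).1, (ne k hk).2, h1, or_self, if_true, if_false]
        rw [D.skew x k]; ring
      rw [this]
      simp only [pivot_S h, pS, h1, or_true, if_true, if_false]
      rw [e]; field_simp; ring
    · have : ∑ k ∈ (X.erase x).erase y, u' k * (D.pivot x y).S k j =
          ∑ k ∈ (X.erase x).erase y, u k * D.S k j
          - (∑ k ∈ (X.erase x).erase y, u k * D.S k y) * (D.S x j / D.S x y)
          - (∑ k ∈ (X.erase x).erase y, u k * D.S k x) * (D.S y j / D.S y x) := by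
        rw [sum_mul, sum_mul, ← sum_sub_distrib, ← sum_sub_distrib]
        refine sum_congr rfl fun k hk => ?_
        simp only [u', pivot_S h, pS, (ne k hk).1, (ne k hk).2, h1, h2, or_self, if_false]
        ring
      rw [this, if_neg (by simp [h1, h2]), sp fun k => u k * D.S k j]
      simp only [pivot_S h, pS, h1, h2, hyx, if_true, if_false]
      rw [e]; field_simp; ring

theorem ReachIn.ind {U : Finset ℕ} {D E : Disp K} {P : Disp K → Prop} (h : ReachIn U D E)
    (h0 : P D) (h1 : ∀ E x y, x ∈ U → y ∈ U → E.S x y ≠ 0 → ReachIn U D E → P E → P (E.pivot x y)) :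
    P E := by
  induction h with
  | refl => exact h0
  | tail a b ih =>
    obtain ⟨x, hx, y, hy, h, rfl⟩ := b
    exact h1 _ x y hx hy h a ih

theorem sum_row {D : Disp K} (X : Finset ℕ) (c : ℕ → K) {j : ℕ} (hr : D.row j = false) :
    ∑ i ∈ X, c i * D.S i j = ∑ i ∈ X, (if D.row i = true then c i else 0) * D.S i j :=
  sum_congr rfl fun i _ => by
    cases h : D.row i
    · rw [D.bip i j (h.trans hr.symm), mul_zero, mul_zero]
    · rfl

theorem code_le {D : Disp K} {x y : ℕ} (hx : x ∈ D.Z) (hy : y ∈ D.Z) :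
    D.code ≤ (D.pivot x y).code := by
  by_cases h : D.S x y = 0
  · rw [pivot_of_zero h]
  intro c hc
  have key : ∀ i ∈ D.Z, ∑ k ∈ D.Z, (if D.row k = true then c k else 0) * D.S k i =
      if D.row i = true then 0 else c i := fun i hi => by
    cases hr : D.row i
    · rw [← sum_row _ _ hr, ← hc.2 i hi hr]; rfl
    · refine sum_eq_zero fun k _ => ?_
      cases hk : D.row k
      · simp
      · rw [D.bip k i (hk.trans hr.symm), mul_zero]
  refine ⟨by simpa using hc.1, fun j hj hr => ?_⟩
  rw [pivot_Z] at hj ⊢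
  have sw := swap_vec h hx hy (fun k => if D.row k = true then c k else 0) j
  rw [sum_row _ _ hr, sum_congr rfl (g := fun k => (if k = x ∨ k = y then ∑ l ∈ D.Z,
    (if D.row l = true then c l else 0) * D.S l k else if D.row k = true then c k else 0) *
      (D.pivot x y).S k j) fun k hk => ?_, sw]
  · rw [pivot_row h] at hr
    rw [key j hj]
    split_ifs at hr ⊢ <;> simp_all
  · rw [pivot_row h, key k hk]
    by_cases h1 : k = x ∨ k = y
    · rw [if_pos h1, if_pos h1]; cases D.row k <;> rfl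
    · rw [if_neg h1, if_neg h1]

theorem ReachIn.refl (U : Finset ℕ) (D : Disp K) : ReachIn U D D := Relation.ReflTransGen.refl

theorem ReachIn.trans {U : Finset ℕ} {D E G : Disp K} (h : ReachIn U D E) (h' : ReachIn U E G) :
    ReachIn U D G := Relation.ReflTransGen.trans h h'

theorem ReachIn.single {U : Finset ℕ} {D : Disp K} {x y : ℕ} (hx : x ∈ U) (hy : y ∈ U) :
    ReachIn U D (D.pivot x y) := by
  by_cases h : D.S x y = 0
  · rw [pivot_of_zero h]; exact ReachIn.refl U D
  · exact Relation.ReflTransGen.single ⟨x, hx, y, hy, h, rfl⟩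

theorem ReachIn.mono {U V : Finset ℕ} {D E : Disp K} (h : ReachIn U D E) (hUV : U ⊆ V) :
    ReachIn V D E := h.ind (P := fun E => ReachIn V D E) (ReachIn.refl _ _)
  fun _ _ _ hx hy _ _ ih => ih.trans (ReachIn.single (hUV hx) (hUV hy))

theorem ReachIn.symm {U : Finset ℕ} {D E : Disp K} (h : ReachIn U D E) : ReachIn U E D := by
  refine h.ind (P := fun E => ReachIn U E D) (ReachIn.refl U D) fun E x y hx hy _ _ ih => ?_
  have := ReachIn.single (D := E.pivot x y) hx hy
  rw [pivot_pivot] at this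
  exact this.trans ih

theorem ReachIn.Z_eq {U : Finset ℕ} {D E : Disp K} (h : ReachIn U D E) : E.Z = D.Z :=
  h.ind (P := fun E => E.Z = D.Z) rfl fun E x y _ _ _ _ ih => by rw [pivot_Z, ih]

theorem ReachIn.row_eq {U : Finset ℕ} {D E : Disp K} (h : ReachIn U D E) {i : ℕ} (hi : i ∉ U) :
    E.row i = D.row i :=
  h.ind (P := fun E => E.row i = D.row i) rfl fun E x y hx hy h _ ih => by
    rw [pivot_row h, if_neg (by rintro (rfl | rfl) <;> contradiction), ih]

theorem ReachIn.flip {U : Finset ℕ} {D E : Disp K} (h : ReachIn U D E) :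
    ReachIn U D.flip E.flip :=
  h.ind (P := fun E => ReachIn U D.flip E.flip) (ReachIn.refl _ _) fun E x y hx hy _ _ ih => by
    rw [flip_pivot]; exact ih.trans (ReachIn.single hx hy)

theorem ReachIn.restrict {U : Finset ℕ} {D E : Disp K} (h : ReachIn U D E) (V : Finset ℕ) :
    ReachIn U (D.restrict V) (E.restrict V) :=
  h.ind (P := fun E => ReachIn U (D.restrict V) (E.restrict V)) (ReachIn.refl _ _)
    fun E x y hx hy _ _ ih => by rw [restrict_pivot]; exact ih.trans (ReachIn.single hx hy)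

/-- pivots of a restriction lift to the whole display. -/
theorem ReachIn.lift {U V : Finset ℕ} {D E : Disp K} (h : ReachIn U (D.restrict V) E) :
    ∃ G, ReachIn U D G ∧ E = G.restrict V :=
  h.ind (P := fun E => ∃ G, ReachIn U D G ∧ E = G.restrict V) ⟨D, ReachIn.refl _ _, rfl⟩
    fun E x y hx hy _ _ ⟨G, h1, h2⟩ =>
      ⟨G.pivot x y, h1.trans (ReachIn.single hx hy), by rw [restrict_pivot, h2]⟩

theorem ReachIn.scale {U : Finset ℕ} {D E : Disp K} (h : ReachIn U D E) {ε : ℕ → K}
    (hε : ∀ i, ε i * ε i = 1) : ReachIn U (D.scale ε) (E.scale ε) :=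
  h.ind (P := fun E => ReachIn U (D.scale ε) (E.scale ε)) (ReachIn.refl _ _)
    fun E x y hx hy _ _ ih => by rw [scale_pivot _ hε]; exact ih.trans (ReachIn.single hx hy)

theorem ReachIn.reach {U : Finset ℕ} {D E : Disp K} (h : ReachIn U D E) (hU : U ⊆ D.Z) :
    D.Reach E := h.mono hU

theorem Reach.refl (D : Disp K) : D.Reach D := ReachIn.refl _ _

theorem Reach.trans {D E G : Disp K} (h : D.Reach E) (h' : E.Reach G) : D.Reach G :=
  ReachIn.trans h (ReachIn.Z_eq h ▸ h')

theorem Reach.symm {D E : Disp K} (h : D.Reach E) : E.Reach D := by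
  unfold Reach; rw [ReachIn.Z_eq h]; exact ReachIn.symm h

theorem Reach.Z_eq {D E : Disp K} (h : D.Reach E) : E.Z = D.Z := ReachIn.Z_eq h

theorem Reach.flip {D E : Disp K} (h : D.Reach E) : D.flip.Reach E.flip := ReachIn.flip h

theorem Reach.code_eq {D E : Disp K} (h : D.Reach E) : E.code = D.code :=
  ReachIn.ind (P := fun E => E.code = D.code) h rfl fun E x y hx hy _ hr ih => by
    rw [← hr.Z_eq] at hx hy
    rw [← ih]
    refine le_antisymm ?_ (code_le hx hy)
    have := code_le (D := E.pivot x y) (x := x) (y := y) (by simpa using hx) (by simpa using hy)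
    rwa [pivot_pivot] at this

theorem Reach.flip_code_eq {D E : Disp K} (h : D.Reach E) : E.flip.code = D.flip.code :=
  h.flip.code_eq

theorem Reach.card_B {D E : Disp K} (h : D.Reach E) : E.B.card = D.B.card :=
  ReachIn.ind (P := fun E => E.B.card = D.B.card) h rfl fun E x y hx hy h hr ih => by
    rw [← hr.Z_eq] at hx hy
    rw [← ih]
    refine card_equiv (Equiv.swap x y) fun i => ?_
    have := row_ne_of_S h
    simp only [B, mem_filter, pivot_Z, pivot_row h]
    by_cases h1 : i = x
    · subst h1; revert this; cases h1 : E.row i <;> simp [hx, hy]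
    · by_cases h2 : i = y
      · subst h2; revert this; cases h2 : E.row i <;> simp [hx, hy]
      · simp [h1, h2, Equiv.swap_apply_of_ne_of_ne h1 h2]

theorem Reach.base_iff {D E : Disp K} (h : D.Reach E) (F : Finset ℕ) : E.Base F ↔ D.Base F := by
  unfold Base; rw [h.Z_eq, h.card_B, h.code_eq]

theorem mem_B {D : Disp K} {i : ℕ} : i ∈ D.B ↔ i ∈ D.Z ∧ D.row i = true := mem_filter

theorem flip_B (D : Disp K) : D.flip.B = D.Z \ D.B := by
  ext i; simp only [mem_B, mem_sdiff, flip]; cases D.row i <;> simp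

theorem mem_flip_code {D : Disp K} {d : ℕ → K} : d ∈ D.flip.code ↔ (∀ i, i ∉ D.Z → d i = 0) ∧
    ∀ i ∈ D.Z, D.row i = true → d i = ∑ j ∈ D.Z, d j * D.S j i := by
  simp [mem_code, flip]

/-- a codeword is determined by its values on the rows. -/
theorem code_zero {D : Disp K} {c : ℕ → K} (hc : c ∈ D.code) (h : ∀ i ∈ D.B, c i = 0) :
    c = 0 := by
  funext j
  by_cases hj : j ∈ D.Z
  · cases hr : D.row j
    · rw [hc.2 j hj hr]
      refine sum_eq_zero fun i hi => ?_
      cases hr' : D.row i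
      · rw [D.bip i j (hr'.trans hr.symm), mul_zero]
      · rw [h i (mem_B.2 ⟨hi, hr'⟩), zero_mul]
    · exact h j (mem_B.2 ⟨hj, hr⟩)
  · exact hc.1 j hj

theorem exists_code (D : Disp K) (v : ℕ → K) : ∃ c ∈ D.code, ∀ i ∈ D.B, c i = v i := by
  refine ⟨fun j => if j ∈ D.Z then if D.row j = true then v j else
    ∑ i ∈ D.Z, (if D.row i = true then v i else 0) * D.S i j else 0,
    ⟨fun i hi => if_neg hi, fun j hj hr => ?_⟩, fun i hi => by simp [mem_B.1 hi]⟩
  rw [sum_row _ _ hr]
  simp only [hj, hr, if_true, Bool.false_eq_true, if_false]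
  exact sum_congr rfl fun i hi => by split_ifs <;> rfl

/-- the codeword of the row `i`. -/
theorem row_word {D : Disp K} {i : ℕ} (hi : i ∈ D.Z) (hr : D.row i = true) :
    (fun j => if j = i then 1 else if j ∈ D.Z then D.S i j else 0) ∈ D.code := by
  refine ⟨fun j hj => by simp [hj, show j ≠ i from fun e => hj (e ▸ hi)], fun j hj hr' => ?_⟩
  have hji : j ≠ i := fun e => by rw [e, hr] at hr'; cases hr'
  rw [sum_row _ _ hr', sum_eq_single_of_mem i hi]
  · simp [hj, hji, hr]
  · intro k hk hki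
    cases h : D.row k
    · simp
    · simp [hki, D.bip i k (hr.trans h.symm)]

/-- the dual codeword of the column `j`. -/
theorem col_word {D : Disp K} {j : ℕ} (hj : j ∈ D.Z) (hr : D.row j = false) :
    (fun i => if i = j then 1 else if i ∈ D.Z then D.S j i else 0) ∈ D.flip.code :=
  row_word (D := D.flip) hj (by simp [flip, hr])

theorem orth {D : Disp K} {c d : ℕ → K} (hc : c ∈ D.code) (hd : d ∈ D.flip.code) :
    ∑ i ∈ D.Z, c i * d i = 0 := by
  have e : ∀ i ∈ D.Z, c i * d i = (if D.row i = true then c i else 0) * d i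
      + c i * (if D.flip.row i = true then d i else 0) := fun i _ => by
    cases h : D.row i <;> simp [flip, h]
  have e1 : ∀ i ∈ D.Z, (if D.row i = true then c i else 0) * d i = ∑ j ∈ D.Z,
      (if D.row i = true then c i else 0) * ((if D.flip.row j = true then d j else 0) * D.S j i) :=
    fun i hi => by
      cases h : D.row i
      · simp
      · rw [← mul_sum, hd.2 i hi (by simp [flip, h]), sum_row (D := D.flip) _ _ (by simp [flip, h])]
        rfl
  have e2 : ∀ j ∈ D.Z, c j * (if D.flip.row j = true then d j else 0) = ∑ i ∈ D.Z,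
      ((if D.row i = true then c i else 0) * D.S i j) * (if D.flip.row j = true then d j else 0) :=
    fun j hj => by
      cases h : D.row j
      · rw [← sum_mul, hc.2 j hj h, sum_row _ _ h]
      · simp [flip, h]
  rw [sum_congr rfl e, sum_add_distrib, sum_congr rfl e1, sum_congr rfl e2, sum_comm,
    ← sum_add_distrib]
  refine sum_eq_zero fun j _ => ?_
  rw [← sum_add_distrib]
  exact sum_eq_zero fun i _ => by rw [D.skew j i]; ring

theorem base_B (D : Disp K) : D.Base D.B := ⟨filter_subset _ _, rfl, fun _ hc h => code_zero hc h⟩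

theorem indep_of_rows {D : Disp K} {I : Finset ℕ} (h : I ⊆ D.B) : D.Indep I :=
  fun _ hd h0 => code_zero hd fun i hi => h0 i fun hI => by
    rw [flip_B] at hi; exact (mem_sdiff.1 hi).2 (h hI)

/-- an independent set can be moved into the rows. -/
theorem reach_rows {D : Disp K} {I : Finset ℕ} (hI : I ⊆ D.Z) (h : D.Indep I) :
    ∃ E, ReachIn ((I \ D.B) ∪ (D.B \ I)) D E ∧ I ⊆ E.B := by
  induction hn : (I \ D.B).card generalizing D with
  | zero => exact ⟨D, ReachIn.refl _ _, sdiff_eq_empty_iff_subset.1 (card_eq_zero.1 hn)⟩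
  | succ n ih =>
    obtain ⟨y, hy⟩ : (I \ D.B).Nonempty := card_pos.1 (by omega)
    obtain ⟨hyI, hyB⟩ := mem_sdiff.1 hy
    have hyZ := hI hyI
    have hyr : D.row y = false := by simpa [mem_B, hyZ] using hyB
    obtain ⟨x, hxI, hx⟩ : ∃ x, x ∉ I ∧
        (if x = y then 1 else if x ∈ D.Z then D.S y x else 0) ≠ 0 := by
      by_contra hc
      push Not at hc
      simpa using congrFun (h _ (col_word hyZ hyr) hc) y
    have hxy : x ≠ y := fun e => hxI (e ▸ hyI)
    rw [if_neg hxy] at hx
    have hxZ : x ∈ D.Z := by by_contra hc; exact hx (if_neg hc)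
    rw [if_pos hxZ] at hx
    have hxr : D.row x = true := by simpa [hyr] using row_ne_of_S hx
    have hB : ∀ i, i ∈ (D.pivot y x).B ↔ i = y ∨ (i ≠ x ∧ i ∈ D.B) := fun i => by
      rw [mem_B, mem_B, pivot_Z, pivot_row hx]
      by_cases h1 : i = y
      · simp [h1, hyZ, hyr]
      · by_cases h2 : i = x <;> simp [h1, h2, hxr, hxy]
    have hr : D.Reach (D.pivot y x) := ReachIn.single hyZ hxZ
    obtain ⟨E, h1, h2⟩ := ih (D := D.pivot y x) (by simpa using hI)
      (by unfold Indep; rw [hr.flip_code_eq]; exact h) (by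
        rw [show I \ (D.pivot y x).B = (I \ D.B).erase y by
          ext i
          simp only [mem_sdiff, mem_erase, hB]
          by_cases h2 : i = x <;> simp [h2, hxI]; tauto, card_erase_of_mem hy, hn]; rfl)
    refine ⟨E, (ReachIn.single (mem_union_left _ hy) (mem_union_right _
      (mem_sdiff.2 ⟨mem_B.2 ⟨hxZ, hxr⟩, hxI⟩))).trans (h1.mono fun i => ?_), h2⟩
    simp only [mem_union, mem_sdiff, hB]
    rintro (⟨a, b⟩ | ⟨rfl | a, b⟩)
    · exact Or.inl ⟨a, fun c => b (Or.inr ⟨fun e => hxI (e ▸ a), c⟩)⟩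
    · exact absurd hyI b
    · exact Or.inr ⟨a.2, b⟩

/-- a coindependent set can be moved into the columns. -/
theorem reach_cols {D : Disp K} {J : Finset ℕ} (hJ : J ⊆ D.Z) (h : D.flip.Indep J) :
    ∃ E, ReachIn ((J ∩ D.B) ∪ ((D.Z \ D.B) \ J)) D E ∧ Disjoint J E.B := by
  obtain ⟨E, h1, h2⟩ := reach_rows (D := D.flip) hJ h
  have h3 := h1.flip
  rw [flip_flip, flip_B] at h3
  refine ⟨E.flip, h3.mono fun i => ?_, ?_⟩
  · simp only [mem_union, mem_sdiff, mem_inter]
    have := @hJ i
    tauto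
  · rw [flip_B]
    exact disjoint_left.2 fun i hi hi' => (mem_sdiff.1 hi').2 (h2 hi)

theorem reach_base {D : Disp K} {F : Finset ℕ} (h : D.Base F) :
    ∃ E, ReachIn ((F \ D.B) ∪ (D.B \ F)) D E ∧ E.B = F := by
  obtain ⟨E, h1, h2⟩ := reach_cols (D := D) (J := D.Z \ F) sdiff_subset fun d hd h0 => by
    rw [flip_flip] at hd
    exact h.2.2 d hd fun i hi => h0 i fun hi' => (mem_sdiff.1 hi').2 hi
  have h3 : ReachIn ((F \ D.B) ∪ (D.B \ F)) D E := h1.mono fun i => by
    simp only [mem_union, mem_sdiff, mem_inter]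
    tauto
  have h4 : D.Reach E := h3.reach (union_subset (sdiff_subset.trans h.1)
    (sdiff_subset.trans (filter_subset _ _)))
  refine ⟨E, h3, eq_of_subset_of_card_le (fun i hi => ?_) (by rw [h4.card_B, h.2.1])⟩
  by_contra hc
  exact disjoint_left.1 h2 (mem_sdiff.2 ⟨h4.Z_eq ▸ (mem_B.1 hi).1, hc⟩) hi

theorem base_iff_indep {D : Disp K} {F : Finset ℕ} :
    D.Base F ↔ F ⊆ D.Z ∧ F.card = D.B.card ∧ D.Indep F := by
  have hs : F ⊆ D.Z → (F \ D.B) ∪ (D.B \ F) ⊆ D.Z := fun h =>
    union_subset (sdiff_subset.trans h) (sdiff_subset.trans (filter_subset _ _))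
  refine ⟨fun h => ⟨h.1, h.2.1, ?_⟩, fun ⟨h1, h2, h3⟩ => ?_⟩
  · obtain ⟨E, h1, h2⟩ := reach_base h
    unfold Indep
    rw [← (h1.reach (hs h.1)).flip_code_eq]
    exact indep_of_rows h2.ge
  · obtain ⟨E, h4, h5⟩ := reach_rows h1 h3
    have h6 := h4.reach (hs h1)
    rw [← h6.base_iff, eq_of_subset_of_card_le h5 (by rw [h6.card_B, h2])]
    exact base_B E

theorem base_flip {D : Disp K} {F : Finset ℕ} (hF : F ⊆ D.Z) :
    D.flip.Base (D.Z \ F) ↔ D.Base F := by
  have h1 := card_le_card hF
  have h3 : D.B ⊆ D.Z := filter_subset _ _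
  have h2 := card_le_card h3
  rw [base_iff_indep, flip_B, card_sdiff_of_subset hF, card_sdiff_of_subset h3]
  unfold Indep Base
  rw [flip_flip]
  refine ⟨fun ⟨_, a, b⟩ => ⟨hF, by omega,
    fun c hc h => b c hc fun i hi => ?_⟩, fun ⟨_, a, b⟩ => ⟨sdiff_subset, by rw [a],
    fun c hc h => b c hc fun i hi => h i fun hi' => (mem_sdiff.1 hi').2 hi⟩⟩
  by_cases hZ : i ∈ D.Z
  · exact h i (by simpa [hZ] using hi)
  · exact hc.1 i hZ

/-- a display is determined by its code and its basis. -/
theorem same_of_code {D E : Disp K} (hZ : E.Z = D.Z) (hB : E.B = D.B) (hc : E.code = D.code) :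
    Same D E := by
  have hr : ∀ i ∈ D.Z, E.row i = D.row i := fun i hi => by
    have : i ∈ E.B ↔ i ∈ D.B := by rw [hB]
    rw [mem_B, mem_B, hZ] at this
    exact Bool.eq_iff_iff.2 (by simpa [hi] using this)
  have hs : ∀ i ∈ D.Z, D.row i = true → ∀ j ∈ D.Z, E.S i j = D.S i j := fun i hi h j hj => by
    have h1 := row_word (D := E) (hZ ▸ hi) ((hr i hi).trans h)
    rw [hc, hZ] at h1
    have h2 := congrFun (code_zero (sub_mem h1 (row_word hi h)) fun k hk => by
      have := mem_B.1 hk
      simp [D.bip i k (h.trans this.2.symm),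
        E.bip i k (((hr i hi).trans h).trans ((hr k this.1).trans this.2).symm)]) j
    by_cases hji : j = i
    · rw [hji, D.bip i i rfl, E.bip i i rfl]
    · simpa [hji, hj, sub_eq_zero] using h2
  refine ⟨hZ, hr, fun i hi j hj => ?_⟩
  cases h : D.row i
  · cases h' : D.row j
    · rw [D.bip i j (h.trans h'.symm), E.bip i j (by rw [hr i hi, hr j hj, h, h'])]
    · rw [D.skew, E.skew, hs j hj h' i hi]
  · exact hs i hi h j hj

theorem mem_code_restrict {D : Disp K} {U : Finset ℕ} (hU : U ⊆ D.Z) {c : ℕ → K} :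
    c ∈ (D.restrict U).code ↔ ∃ c' ∈ D.code, (∀ i ∈ D.B, i ∉ U → c' i = 0) ∧
      c = fun i => if i ∈ U then c' i else 0 := by
  have key : ∀ c' ∈ D.code, (∀ i ∈ D.B, i ∉ U → c' i = 0) →
      (fun i => if i ∈ U then c' i else 0) ∈ (D.restrict U).code := fun c' hc h => by
    refine ⟨fun i hi => if_neg hi, fun j hj hr => ?_⟩
    change j ∈ U at hj
    change _ = ∑ i ∈ U, _ * D.S i j
    beta_reduce
    rw [if_pos hj, hc.2 j (hU hj) hr, ← sum_subset hU fun i hi hiU => ?_]
    · exact sum_congr rfl fun i hi => by rw [if_pos hi]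
    · cases hr' : D.row i
      · rw [D.bip i j (hr'.trans (show D.row j = false from hr).symm), mul_zero]
      · rw [h i (mem_B.2 ⟨hi, hr'⟩) hiU, zero_mul]
  refine ⟨fun hc => ?_, fun ⟨c', h1, h2, h3⟩ => h3 ▸ key c' h1 h2⟩
  obtain ⟨c', h1, h2⟩ := exists_code D c
  have h3 : ∀ i ∈ D.B, i ∉ U → c' i = 0 := fun i hi hiU => (h2 i hi).trans (hc.1 i hiU)
  refine ⟨c', h1, h3, sub_eq_zero.1 (code_zero (sub_mem hc (key c' h1 h3)) fun i hi => ?_)⟩
  have h4 : i ∈ U ∧ D.row i = true := mem_B.1 hi
  simp [h4.1, h2 i (mem_B.2 ⟨hU h4.1, h4.2⟩)]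

theorem mem_code_restrict_of_supp {D : Disp K} {U : Finset ℕ} (hU : U ⊆ D.Z) {c : ℕ → K}
    (hc : c ∈ D.code) (h : ∀ i, i ∉ U → c i = 0) : c ∈ (D.restrict U).code :=
  (mem_code_restrict hU).2 ⟨c, hc, fun i _ => h i, funext fun i => by
    split_ifs with hi
    · rfl
    · exact h i hi⟩

/-- a codeword of a restriction which omits only rows on which ... : if all omitted elements are
rows, codewords of the restriction are codewords. -/
theorem mem_code_of_restrict {D : Disp K} {U : Finset ℕ} (hU : U ⊆ D.Z)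
    (hr : ∀ i ∈ D.Z, i ∉ U → D.row i = true) {c : ℕ → K} (hc : c ∈ (D.restrict U).code) :
    c ∈ D.code := by
  refine ⟨fun i hi => hc.1 i fun h => hi (hU h), fun j hj h => ?_⟩
  have hjU : j ∈ U := by by_contra h'; rw [hr j hj h'] at h; cases h
  rw [hc.2 j hjU h]
  exact sum_subset hU fun i _ hi => by rw [hc.1 i hi, zero_mul]

theorem flip_restrict (D : Disp K) (U : Finset ℕ) : (D.restrict U).flip = D.flip.restrict U := rfl

theorem restrict_restrict (D : Disp K) (U V : Finset ℕ) :
    (D.restrict U).restrict V = D.restrict V := rfl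

theorem restrict_self (D : Disp K) : D.restrict D.Z = D := rfl

theorem mem_code_scale {D : Disp K} {ε : ℕ → K} (hε : ∀ i, ε i * ε i = 1) {c : ℕ → K} :
    c ∈ (D.scale ε).code ↔ (fun i => ε i * c i) ∈ D.code := by
  have h0 : ∀ i, ε i ≠ 0 := fun i => left_ne_zero_of_mul_eq_one (hε i)
  refine and_congr (forall₂_congr fun i _ => by simp [h0 i]) (forall₃_congr fun j _ _ => ?_)
  have : ∑ i ∈ D.Z, c i * (ε i * ε j * D.S i j) = ε j * ∑ i ∈ D.Z, ε i * c i * D.S i j := by
    rw [mul_sum]; exact sum_congr rfl fun i _ => by ring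
  change c j = ∑ i ∈ D.Z, c i * (ε i * ε j * D.S i j) ↔ ε j * c j = _
  rw [this]
  exact ⟨fun h => by rw [h, ← mul_assoc, hε, one_mul], fun h => by rw [← h, ← mul_assoc, hε, one_mul]⟩

theorem flip_scale (D : Disp K) (ε : ℕ → K) : (D.scale ε).flip = D.flip.scale ε := rfl

theorem base_scale {D : Disp K} {ε : ℕ → K} (hε : ∀ i, ε i * ε i = 1) (F : Finset ℕ) :
    (D.scale ε).Base F ↔ D.Base F := by
  have h0 : ∀ i, ε i ≠ 0 := fun i => left_ne_zero_of_mul_eq_one (hε i)
  have h1 : ∀ c : ℕ → K, (fun i => ε i * c i) = 0 → c = 0 := fun c h => funext fun i =>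
    (mul_eq_zero.1 (congrFun h i)).resolve_left (h0 i)
  refine and_congr Iff.rfl (and_congr Iff.rfl ⟨fun h c hc hF => h1 c (h _ ?_ ?_), fun h c hc hF =>
    h1 c (h _ ((mem_code_scale hε).1 hc) ?_)⟩)
  · rw [mem_code_scale hε]
    simpa only [← mul_assoc, hε, one_mul] using hc
  · exact fun i hi => by rw [hF i hi, mul_zero]
  · exact fun i hi => by rw [hF i hi, mul_zero]

/-! `Agree` and `Same`. -/

theorem Agree.refl (D : Disp K) (X : Finset ℕ) : Agree D D X := ⟨fun _ _ => rfl, fun _ _ _ _ => rfl⟩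

theorem Agree.symm {D E : Disp K} {X : Finset ℕ} (h : Agree D E X) : Agree E D X :=
  ⟨fun i hi => (h.1 i hi).symm, fun i hi j hj => (h.2 i hi j hj).symm⟩

theorem Agree.trans {D E G : Disp K} {X : Finset ℕ} (h : Agree D E X) (h' : Agree E G X) :
    Agree D G X :=
  ⟨fun i hi => (h'.1 i hi).trans (h.1 i hi), fun i hi j hj => (h'.2 i hi j hj).trans (h.2 i hi j hj)⟩

theorem Agree.mono {D E : Disp K} {X Y : Finset ℕ} (h : Agree D E X) (hY : Y ⊆ X) :
    Agree D E Y :=
  ⟨fun i hi => h.1 i (hY hi), fun i hi j hj => h.2 i (hY hi) j (hY hj)⟩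

theorem Agree.pivot {D E : Disp K} {X : Finset ℕ} (h : Agree D E X) {x y : ℕ} (hx : x ∈ X)
    (hy : y ∈ X) : Agree (D.pivot x y) (E.pivot x y) X := by
  have e := h.2 x hx y hy
  by_cases h0 : D.S x y = 0
  · rwa [pivot_of_zero h0, pivot_of_zero (e.trans h0)]
  · have h1 : E.S x y ≠ 0 := e ▸ h0
    refine ⟨fun i hi => by rw [pivot_row h0, pivot_row h1, h.1 i hi], fun i hi j hj => ?_⟩
    rw [pivot_S h0, pivot_S h1]
    unfold pS
    rw [e, h.2 y hy x hx, h.2 i hi j hj, h.2 i hi x hx, h.2 i hi y hy, h.2 x hx j hj, h.2 y hy j hj,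
      h.2 x hx i hi, h.2 y hy i hi]

theorem Agree.reachIn {D E D' : Disp K} {X U : Finset ℕ} (h : Agree D E X) (hU : U ⊆ X)
    (hr : ReachIn U D D') : ∃ E', ReachIn U E E' ∧ Agree D' E' X :=
  hr.ind (P := fun D' => ∃ E', ReachIn U E E' ∧ Agree D' E' X) ⟨E, ReachIn.refl _ _, h⟩
    fun _ x y hx hy _ _ ⟨G, h1, h2⟩ =>
      ⟨G.pivot x y, h1.trans (ReachIn.single hx hy), h2.pivot (hU hx) (hU hy)⟩

theorem agree_addEl (D : Disp K) {n : ℕ} {X : Finset ℕ} (hn : n ∉ X) (r : Bool) (v : ℕ → K) :
    Agree D (D.addEl n r v) X := by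
  have : ∀ i ∈ X, i ≠ n := fun i hi e => hn (e ▸ hi)
  exact ⟨fun i hi => by simp [addEl, this i hi], fun i hi j hj => by
    simp [addEl, this i hi, this j hj]⟩

theorem Same.refl (D : Disp K) : Same D D := ⟨rfl, Agree.refl _ _⟩

theorem Same.symm {D E : Disp K} (h : Same D E) : Same E D := ⟨h.1.symm, h.1 ▸ h.2.symm⟩

theorem Same.trans {D E G : Disp K} (h : Same D E) (h' : Same E G) : Same D G :=
  ⟨h'.1.trans h.1, h.2.trans (h.1 ▸ h'.2)⟩

theorem Same.B_eq {D E : Disp K} (h : Same D E) : E.B = D.B := by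
  unfold B; rw [h.1]; exact filter_congr fun i hi => by rw [h.2.1 i hi]

theorem Same.code_eq {D E : Disp K} (h : Same D E) : E.code = D.code := by
  ext c
  rw [mem_code, mem_code, h.1]
  refine and_congr Iff.rfl (forall₂_congr fun j hj => ?_)
  rw [h.2.1 j hj, sum_congr rfl fun i hi => by rw [h.2.2 i hi j hj]]

theorem Same.flip {D E : Disp K} (h : Same D E) : Same D.flip E.flip :=
  ⟨h.1, fun i hi => congrArg (fun b => !b) (h.2.1 i hi), h.2.2⟩

theorem Same.base_iff {D E : Disp K} (h : Same D E) (F : Finset ℕ) : E.Base F ↔ D.Base F := by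
  unfold Base; rw [h.1, h.B_eq, h.code_eq]

theorem Agree.same {D E : Disp K} {X : Finset ℕ} (h : Agree D E X) :
    Same (D.restrict X) (E.restrict X) := ⟨rfl, h⟩

theorem NoW4.restrict {D : Disp K} (h : NoW4 D D.Z) {U : Finset ℕ} (hU : U ⊆ D.Z) :
    NoW4 (D.restrict U) U := by
  intro E hE r hr s hs c hc d hd
  obtain ⟨G, h1, rfl⟩ := hE.lift
  exact h G (h1.mono hU) r (hU hr) s (hU hs) c (hU hc) d (hU hd)

theorem NoW4.same {D E : Disp K} (h : NoW4 D D.Z) (hs : Same D E) : NoW4 E E.Z := by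
  intro E' hE r hr s hs' c hc d hd
  obtain ⟨G, h1, h2⟩ := hs.symm.2.reachIn subset_rfl hE
  have := h G (hs.1 ▸ h1) r (hs.1 ▸ hr) s (hs.1 ▸ hs') c (hs.1 ▸ hc) d (hs.1 ▸ hd)
  unfold W4 at this ⊢
  rwa [h2.2 r hr c hc, h2.2 r hr d hd, h2.2 s hs' c hc, h2.2 s hs' d hd] at this

end Disp

end Pool.Agent.Lib.MP_c69b6d_co.F
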