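import Pool.Agent.Lib.MP_c69b6d_co.F.Api1

/-! Embeddings, minors, parallel pairs, valid marks. -/

namespace Pool.Agent.Lib.MP_c69b6d_co.F

open Finset

variable {K : Type} [Field K]

namespace Disp

theorem Emb.ne {L D : Disp K} {φ : ℕ → ℕ} {ε : ℕ → K} (h : Emb L D φ ε) {i : ℕ} (hi : i ∈ L.Z) :
    ε i ≠ 0 := fun e => by simpa [e] using h.sq i hi

theorem Emb.pivot {L D : Disp K} {φ : ℕ → ℕ} {ε : ℕ → K} (h : Emb L D φ ε) {x y : ℕ}
    (hx : x ∈ L.Z) (hy : y ∈ L.Z) : Emb (L.pivot x y) (D.pivot (φ x) (φ y)) φ ε := by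
  have ij : ∀ i ∈ L.Z, ∀ j ∈ L.Z, (φ i = φ j ↔ i = j) := fun i hi j hj => h.inj.eq_iff hi hj
  by_cases h0 : L.S x y = 0
  · have h1 : D.S (φ x) (φ y) = 0 := by rw [h.ent x hx y hy, h0, mul_zero]
    rw [Disp.pivot, Disp.pivot, dif_pos h0, dif_pos h1]
    exact h
  have h1 : D.S (φ x) (φ y) ≠ 0 := by
    rw [h.ent x hx y hy]
    exact mul_ne_zero (mul_ne_zero (h.ne hx) (h.ne hy)) h0
  have h2 := S_ne_symm h0
  refine ⟨by rw [pivot_Z]; exact h.inj, fun i hi => ?_, fun i hi => ?_, fun i hi => ?_,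
    fun i hi j hj => ?_⟩
  · rw [pivot_Z] at hi ⊢; exact h.mem i hi
  · rw [pivot_Z] at hi
    rw [pivot_row h0, pivot_row h1, h.row i hi]
    simp only [ij i hi x hx, ij i hi y hy]
  · rw [pivot_Z] at hi; exact h.sq i hi
  · rw [pivot_Z] at hi hj
    rw [pivot_S h0, pivot_S h1]
    have ex := mul_self_eq_one_iff.1 (h.sq x hx)
    have ey := mul_self_eq_one_iff.1 (h.sq y hy)
    unfold pS
    simp only [ij i hi x hx, ij i hi y hy, ij j hj x hx, ij j hj y hy, h.ent _ hi _ hj,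
      h.ent _ hi _ hx, h.ent _ hi _ hy, h.ent _ hx _ hi, h.ent _ hy _ hi, h.ent _ hx _ hj,
      h.ent _ hy _ hj, h.ent _ hx _ hy, h.ent _ hy _ hx]
    split_ifs <;> subst_vars <;> rcases ex with e1 | e1 <;> rcases ey with e2 | e2 <;>
      simp only [e1, e2] <;> field_simp

theorem Emb.reachIn {L L' D : Disp K} {φ : ℕ → ℕ} {ε : ℕ → K} (h : Emb L D φ ε) {U : Finset ℕ}
    (hU : U ⊆ L.Z) (hr : ReachIn U L L') :
    ∃ D', ReachIn (U.image φ) D D' ∧ Emb L' D' φ ε := by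
  induction hr with
  | refl => exact ⟨D, ReachIn.refl _ _, h⟩
  | tail h1 h2 ih =>
    obtain ⟨D1, k1, k2⟩ := ih
    obtain ⟨x, hx, y, hy, -, rfl⟩ := h2
    have e := ReachIn.Z_eq h1
    exact ⟨_, k1.trans (ReachIn.single (mem_image_of_mem φ hx) (mem_image_of_mem φ hy)),
      k2.pivot (e ▸ hU hx) (e ▸ hU hy)⟩

theorem Emb.reachIn_back {L D D' : Disp K} {φ : ℕ → ℕ} {ε : ℕ → K} (h : Emb L D φ ε)
    {U : Finset ℕ} (hU : U ⊆ L.Z) (hr : ReachIn (U.image φ) D D') :
    ∃ L', ReachIn U L L' ∧ Emb L' D' φ ε := by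
  induction hr with
  | refl => exact ⟨L, ReachIn.refl _ _, h⟩
  | tail h1 h2 ih =>
    obtain ⟨L1, k1, k2⟩ := ih
    obtain ⟨x', hx', y', hy', -, rfl⟩ := h2
    obtain ⟨x, hx, rfl⟩ := mem_image.1 hx'
    obtain ⟨y, hy, rfl⟩ := mem_image.1 hy'
    have e := ReachIn.Z_eq k1
    exact ⟨_, k1.trans (ReachIn.single hx hy), k2.pivot (e ▸ hU hx) (e ▸ hU hy)⟩

theorem Emb.comp {L D E : Disp K} {φ ψ : ℕ → ℕ} {ε δ : ℕ → K} (h : Emb L D φ ε)
    (h' : Emb D E ψ δ) : Emb L E (fun i => ψ (φ i)) (fun i => ε i * δ (φ i)) := by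
  refine ⟨fun i hi j hj e => h.inj hi hj (h'.inj (h.mem i hi) (h.mem j hj) e),
    fun i hi => h'.mem _ (h.mem i hi), fun i hi => by rw [h'.row _ (h.mem i hi), h.row i hi],
    fun i hi => ?_, fun i hi j hj => ?_⟩
  · linear_combination δ (φ i) * δ (φ i) * h.sq i hi + h'.sq _ (h.mem i hi)
  · rw [h'.ent _ (h.mem i hi) _ (h.mem j hj), h.ent i hi j hj]; ring

theorem Emb.flip {L D : Disp K} {φ : ℕ → ℕ} {ε : ℕ → K} (h : Emb L D φ ε) :
    Emb L.flip D.flip φ ε :=
  ⟨h.inj, h.mem, fun i hi => congrArg (fun b => !b) (h.row i hi), h.sq, h.ent⟩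

theorem Emb.restrict {L D : Disp K} {φ : ℕ → ℕ} {ε : ℕ → K} (h : Emb L D φ ε) {U : Finset ℕ}
    (hU : U ⊆ L.Z) : Emb (L.restrict U) D φ ε :=
  ⟨h.inj.mono hU, fun i hi => h.mem i (hU hi), fun i hi => h.row i (hU hi),
    fun i hi => h.sq i (hU hi), fun i hi j hj => h.ent i (hU hi) j (hU hj)⟩

theorem Emb.restrict_right {L D : Disp K} {φ : ℕ → ℕ} {ε : ℕ → K} (h : Emb L D φ ε)
    {U : Finset ℕ} (hU : ∀ i ∈ L.Z, φ i ∈ U) : Emb L (D.restrict U) φ ε :=
  ⟨h.inj, hU, h.row, h.sq, h.ent⟩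

theorem emb_of_agree {L D : Disp K} (hZ : L.Z ⊆ D.Z) (h : Agree L D L.Z) :
    Emb L D id (fun _ => 1) :=
  ⟨fun _ _ _ _ e => e, fun _ hi => hZ hi, h.1, fun _ _ => one_mul 1,
    fun i hi j hj => by simpa using h.2 i hi j hj⟩

theorem emb_scale (D : Disp K) {ε : ℕ → K} (hε : ∀ i, ε i * ε i = 1) :
    Emb D (D.scale ε) id ε :=
  ⟨fun _ _ _ _ e => e, fun _ hi => hi, fun _ _ => rfl, fun i _ => hε i, fun _ _ _ _ => rfl⟩

/-- the signs of an embedding can be removed by rescaling the target. -/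
theorem Emb.unsign {L D : Disp K} {φ : ℕ → ℕ} {ε : ℕ → K} (h : Emb L D φ ε) :
    ∃ δ : ℕ → K, (∀ i, δ i * δ i = 1) ∧ Emb L (D.scale δ) φ (fun _ => 1) := by
  classical
  have hl : ∀ i ∈ L.Z, Function.invFunOn φ L.Z (φ i) = i := fun i hi =>
    h.inj.leftInvOn_invFunOn hi
  refine ⟨fun j => if j ∈ L.Z.image φ then ε (Function.invFunOn φ L.Z j) else 1, fun j => ?_,
    h.inj, h.mem, h.row, fun _ _ => one_mul 1, fun i hi j hj => ?_⟩
  · by_cases hj : j ∈ L.Z.image φ
    · obtain ⟨i, hi, rfl⟩ := mem_image.1 hj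
      simp only [hj, if_true, hl i hi, h.sq i hi]
    · simp [hj]
  · simp only [scale, mem_image_of_mem φ hi, mem_image_of_mem φ hj, if_true, hl i hi, hl j hj,
      h.ent i hi j hj]
    linear_combination ε j * ε j * L.S i j * h.sq i hi + L.S i j * h.sq j hj

/-- an embedding extends to a new element. -/
theorem Emb.addEl {L D : Disp K} {φ : ℕ → ℕ} {ε : ℕ → K} (h : Emb L D φ ε) {n v : ℕ}
    (hn : n ∉ L.Z) (hv : v ∈ D.Z) (hv' : ∀ i ∈ L.Z, φ i ≠ v) {s : K} (hs : s * s = 1)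
    {u : ℕ → K} (hu : ∀ i ∈ L.Z, L.row i ≠ D.row v → D.S (φ i) v = ε i * s * u i) :
    Emb (L.addEl n (D.row v) u) D (Function.update φ n v) (Function.update ε n s) := by
  have up : ∀ i ∈ L.Z, Function.update φ n v i = φ i ∧ Function.update ε n s i = ε i ∧ i ≠ n :=
    fun i hi => by
      have e : i ≠ n := fun e => hn (e ▸ hi)
      exact ⟨Function.update_of_ne e _ _, Function.update_of_ne e _ _, e⟩
  have cs : ∀ i ∈ (L.addEl n (D.row v) u).Z, i = n ∨ i ∈ L.Z := fun i hi => mem_insert.1 hi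
  have key : ∀ j ∈ L.Z, D.S (φ j) v = ε j * s * if L.row j = D.row v then 0 else u j :=
    fun j hj => by
      split_ifs with e
      · rw [D.bip _ _ ((h.row j hj).trans e), mul_zero]
      · exact hu j hj e
  refine ⟨fun i hi j hj e => ?_, fun i hi => ?_, fun i hi => ?_, fun i hi => ?_,
    fun i hi j hj => ?_⟩
  · rcases cs i hi with ei | hi <;> rcases cs j hj with ej | hj
    · rw [ei, ej]
    · rw [ei, Function.update_self, (up j hj).1] at e; exact absurd e.symm (hv' j hj)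
    · rw [ej, Function.update_self, (up i hi).1] at e; exact absurd e (hv' i hi)
    · rw [(up i hi).1, (up j hj).1] at e; exact h.inj hi hj e
  · rcases cs i hi with rfl | hi
    · rwa [Function.update_self]
    · rw [(up i hi).1]; exact h.mem i hi
  · rcases cs i hi with rfl | hi
    · simp [Disp.addEl]
    · simp [Disp.addEl, (up i hi).2.2, h.row i hi]
  · rcases cs i hi with rfl | hi
    · rwa [Function.update_self]
    · rw [(up i hi).2.1]; exact h.sq i hi
  · rcases cs i hi with ei | hi <;> rcases cs j hj with ej | hj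
    · simp [ei, ej, Disp.addEl, D.bip v v rfl]
    · simp only [ei, Disp.addEl, Function.update_self, (up j hj).1, (up j hj).2.1, (up j hj).2.2,
        if_true, false_or]
      rw [D.skew, key j hj]
      split_ifs <;> ring
    · simp only [ej, Disp.addEl, Function.update_self, (up i hi).1, (up i hi).2.1,
        (up i hi).2.2, if_true, if_false]
      exact key i hi
    · simp only [Disp.addEl, (up i hi).1, (up i hi).2.1, (up i hi).2.2, (up j hj).1,
        (up j hj).2.1, (up j hj).2.2, if_false]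
      exact h.ent i hi j hj

theorem Emb.card_le {L D : Disp K} {φ : ℕ → ℕ} {ε : ℕ → K} (h : Emb L D φ ε) :
    L.Z.card ≤ D.Z.card :=
  card_le_card_of_injOn φ h.mem h.inj

theorem Emb.image_eq {L D : Disp K} {φ : ℕ → ℕ} {ε : ℕ → K} (h : Emb L D φ ε)
    (hc : D.Z.card ≤ L.Z.card) : L.Z.image φ = D.Z :=
  eq_of_subset_of_card_le (image_subset_iff.2 h.mem) (by rwa [card_image_of_injOn h.inj])

/-- the inverse of a bijective embedding. -/
theorem Emb.inv {L D : Disp K} {φ : ℕ → ℕ} {ε : ℕ → K} (h : Emb L D φ ε)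
    (hc : D.Z.card ≤ L.Z.card) :
    ∃ ψ δ, Emb D L ψ δ ∧ (∀ i ∈ L.Z, ψ (φ i) = i) ∧ ∀ j ∈ D.Z, φ (ψ j) = j := by
  have hl : ∀ i ∈ L.Z, Function.invFunOn φ L.Z (φ i) = i := fun i hi =>
    h.inj.leftInvOn_invFunOn hi
  have im : ∀ j ∈ D.Z, ∃ i ∈ L.Z, φ i = j := fun j hj => mem_image.1 (h.image_eq hc ▸ hj)
  refine ⟨Function.invFunOn φ L.Z, fun j => ε (Function.invFunOn φ L.Z j),
    ⟨fun i hi j hj e => ?_, fun j hj => ?_, fun j hj => ?_, fun j hj => ?_,
      fun i hi j hj => ?_⟩, hl, fun j hj => ?_⟩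
  · obtain ⟨a, ha, rfl⟩ := im i hi
    obtain ⟨b, hb, rfl⟩ := im j hj
    rw [hl a ha, hl b hb] at e
    rw [e]
  · obtain ⟨a, ha, rfl⟩ := im j hj
    rwa [hl a ha]
  · obtain ⟨a, ha, rfl⟩ := im j hj
    rw [hl a ha, h.row a ha]
  · obtain ⟨a, ha, rfl⟩ := im j hj
    rw [hl a ha, h.sq a ha]
  · obtain ⟨a, ha, rfl⟩ := im i hi
    obtain ⟨b, hb, rfl⟩ := im j hj
    rw [hl a ha, hl b hb, h.ent a ha b hb]
    linear_combination -(ε b * ε b * L.S a b * h.sq a ha + L.S a b * h.sq b hb)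
  · obtain ⟨a, ha, rfl⟩ := im j hj
    rw [hl a ha]

/-- a codeword supported on the image pulls back. -/
theorem Emb.code_pull {L D : Disp K} {φ : ℕ → ℕ} {ε : ℕ → K} (h : Emb L D φ ε) {c : ℕ → K}
    (hc : c ∈ D.code) (hs : ∀ j ∈ D.B, j ∉ L.Z.image φ → c j = 0) :
    (fun i => if i ∈ L.Z then ε i * c (φ i) else 0) ∈ L.code := by
  refine mem_code.2 ⟨fun i hi => if_neg hi, fun j hj hr => ?_⟩
  have hr' : D.row (φ j) = false := (h.row j hj).trans hr
  have e1 := (mem_code.1 hc).2 _ (h.mem j hj) hr'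
  rw [← sum_subset (image_subset_iff.2 h.mem) (fun k hk hk' => by
    cases e : D.row k
    · rw [D.bip k _ (e.trans hr'.symm), mul_zero]
    · rw [hs k (mem_B.2 ⟨hk, e⟩) hk', zero_mul]), sum_image h.inj] at e1
  rw [if_pos hj, e1, mul_sum]
  refine sum_congr rfl fun i hi => ?_
  rw [if_pos hi, h.ent i hi j hj]
  linear_combination c (φ i) * ε i * L.S i j * h.sq j hj

/-- supports pull back. -/
theorem Emb.pull_supp {L D : Disp K} {φ : ℕ → ℕ} {ε : ℕ → K} (h : Emb L D φ ε) {c : ℕ → K}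
    (hc : c ∈ D.code) {T : Finset ℕ} (hT : T ⊆ L.Z) (hs : Supp c (T.image φ)) :
    ∃ w ∈ L.code, Supp w T := by
  refine ⟨_, h.code_pull hc fun j _ hn => ?_, fun i => ?_⟩
  · by_contra n
    exact hn (image_subset_image hT ((hs j).1 n))
  · by_cases hi : i ∈ L.Z
    · rw [if_pos hi, mul_ne_zero_iff, and_iff_right (h.ne hi), hs, mem_image]
      exact ⟨fun ⟨j, hj, e⟩ => h.inj (hT hj) hi e ▸ hj, fun k => ⟨i, k, rfl⟩⟩
    · simpa [hi] using fun k => hi (hT k)

/-- a codeword pushes forward to a codeword which vanishes on the rows outside the image. -/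
theorem Emb.code_push {L D : Disp K} {φ : ℕ → ℕ} {ε : ℕ → K} (h : Emb L D φ ε) {c : ℕ → K}
    (hc : c ∈ L.code) : ∃ c' ∈ D.code, (∀ j ∈ D.B, j ∉ L.Z.image φ → c' j = 0) ∧
      ∀ i ∈ L.Z, c' (φ i) = ε i * c i := by
  classical
  have hl : ∀ i ∈ L.Z, Function.invFunOn φ L.Z (φ i) = i := fun i hi =>
    h.inj.leftInvOn_invFunOn hi
  obtain ⟨c', h1, h2⟩ := exists_code D (fun j => if j ∈ L.Z.image φ then
    ε (Function.invFunOn φ L.Z j) * c (Function.invFunOn φ L.Z j) else 0)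
  have h3 : ∀ j ∈ D.B, j ∉ L.Z.image φ → c' j = 0 := fun j hj hn => by rw [h2 j hj, if_neg hn]
  refine ⟨c', h1, h3, fun i hi => ?_⟩
  have h4 := code_zero (L.code.sub_mem (h.code_pull h1 h3) hc) fun k hk => by
    have hk' := mem_B.1 hk
    rw [Pi.sub_apply, if_pos hk'.1,
      h2 _ (mem_B.2 ⟨h.mem k hk'.1, (h.row k hk'.1).trans hk'.2⟩),
      if_pos (mem_image_of_mem φ hk'.1), hl k hk'.1]
    linear_combination c k * h.sq k hk'.1
  have h5 := congrFun h4 i
  rw [Pi.sub_apply, if_pos hi, Pi.zero_apply] at h5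
  linear_combination ε i * h5 - c' (φ i) * h.sq i hi

theorem Emb.base_iff {L D : Disp K} {φ : ℕ → ℕ} {ε : ℕ → K} (h : Emb L D φ ε)
    (hc : D.Z.card ≤ L.Z.card) {F : Finset ℕ} (hF : F ⊆ L.Z) :
    D.Base (F.image φ) ↔ L.Base F := by
  have im := h.image_eq hc
  have eB : D.B = L.B.image φ := by
    ext j
    rw [mem_B, ← im, mem_image, mem_image]
    constructor
    · rintro ⟨⟨i, hi, rfl⟩, e⟩
      exact ⟨i, mem_B.2 ⟨hi, (h.row i hi).symm.trans e⟩, rfl⟩
    · rintro ⟨i, hi, rfl⟩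
      rw [mem_B] at hi
      exact ⟨⟨i, hi.1, rfl⟩, (h.row i hi.1).trans hi.2⟩
  have c1 : (F.image φ).card = F.card := card_image_of_injOn (h.inj.mono hF)
  have c2 : D.B.card = L.B.card := by
    rw [eB]; exact card_image_of_injOn (h.inj.mono fun i hi => (mem_B.1 hi).1)
  constructor
  · rintro ⟨-, h2, h3⟩
    refine ⟨hF, by omega, fun c hc' h0 => ?_⟩
    obtain ⟨c', k1, -, k2⟩ := h.code_push hc'
    have k3 := h3 c' k1 fun j hj => by
      obtain ⟨i, hi, rfl⟩ := mem_image.1 hj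
      rw [k2 i (hF hi), h0 i hi, mul_zero]
    funext i
    by_cases hi : i ∈ L.Z
    · have := k2 i hi
      rw [k3] at this
      exact (mul_eq_zero.1 this.symm).resolve_left (h.ne hi)
    · exact (mem_code.1 hc').1 i hi
  · rintro ⟨-, h2, h3⟩
    refine ⟨image_subset_iff.2 fun i hi => h.mem i (hF hi), by omega, fun c hc' h0 => ?_⟩
    have k3 := h3 _ (h.code_pull hc' fun j hj hn => absurd (im ▸ (mem_B.1 hj).1) hn)
      fun i hi => by rw [if_pos (hF hi), h0 _ (mem_image_of_mem φ hi), mul_zero]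
    funext j
    by_cases hj : j ∈ D.Z
    · obtain ⟨i, hi, rfl⟩ := mem_image.1 (im ▸ hj)
      have := congrFun k3 i
      rw [if_pos hi] at this
      exact (mul_eq_zero.1 this).resolve_left (h.ne hi)
    · exact (mem_code.1 hc').1 j hj

/-- an isomorphism of codes is shown by a suitable display. -/
theorem emb_of_code {L D : Disp K} {φ : ℕ → ℕ} {ε : ℕ → K} (hinj : Set.InjOn φ L.Z)
    (him : L.Z.image φ = D.Z) (hε : ∀ i ∈ L.Z, ε i * ε i = 1)
    (hc : ∀ c, c ∈ L.code ↔ ∃ c' ∈ D.code, c = fun i => if i ∈ L.Z then ε i * c' (φ i) else 0) :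
    ∃ E, D.Reach E ∧ Emb L E φ ε := by
  have ne : ∀ i ∈ L.Z, ε i ≠ 0 := fun i hi e => by simpa [e] using hε i hi
  have mem : ∀ i ∈ L.Z, φ i ∈ D.Z := fun i hi => him ▸ mem_image_of_mem φ hi
  have hF : L.B.image φ ⊆ D.Z := image_subset_iff.2 fun i hi => mem i (mem_B.1 hi).1
  have ind : D.Indep (L.B.image φ) := fun d hd h0 => by
    funext j
    by_cases hj : j ∈ L.B.image φ
    swap
    · exact h0 j hj
    obtain ⟨i, hi, rfl⟩ := mem_image.1 hj
    have hi' := mem_B.1 hi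
    obtain ⟨c', k1, k2⟩ := (hc _).1 (row_word hi'.1 hi'.2)
    have k3 := orth k1 hd
    rw [sum_eq_single (φ i) (fun j _ n => ?_) (fun n => absurd (mem i hi'.1) n)] at k3
    · have k4 := congrFun k2 i
      rw [if_pos rfl, if_pos hi'.1] at k4
      have : c' (φ i) ≠ 0 := fun e => by simp [e] at k4
      exact (mul_eq_zero.1 k3).resolve_left this
    · by_cases hj : j ∈ L.B.image φ
      · obtain ⟨k, hk, rfl⟩ := mem_image.1 hj
        have hk' := mem_B.1 hk
        have k4 := congrFun k2 k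
        rw [if_neg (fun e => n (by rw [e])), if_pos hk'.1, if_pos hk'.1,
          L.bip i k (hi'.2.trans hk'.2.symm)] at k4
        rw [(mul_eq_zero.1 k4.symm).resolve_left (ne k hk'.1), zero_mul]
      · rw [h0 j hj, mul_zero]
  obtain ⟨E, h1, h2⟩ := reach_rows hF ind
  have hr : D.Reach E := h1.reach (union_subset (sdiff_subset.trans hF)
    (sdiff_subset.trans fun i hi => (mem_B.1 hi).1))
  have eZ := hr.Z_eq
  have pull : ∀ c' ∈ E.code, (fun i => if i ∈ L.Z then ε i * c' (φ i) else 0) ∈ L.code :=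
    fun c' h => (hc _).2 ⟨c', hr.code_eq ▸ h, rfl⟩
  have row : ∀ i ∈ L.Z, E.row (φ i) = L.row i := fun i hi => by
    cases e : L.row i
    · by_contra n
      have n' : E.row (φ i) = true := by simpa using n
      have k1 := code_zero (pull _ (row_word (eZ ▸ mem i hi) n')) fun k hk => by
        have hk' := mem_B.1 hk
        have k2 : φ k ≠ φ i := fun e' => by
          rw [hinj hk'.1 hi e', e] at hk'
          exact absurd hk'.2 (by simp)
        rw [if_pos hk'.1, if_neg k2, if_pos (eZ ▸ mem k hk'.1),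
          E.bip _ _ (n'.trans (mem_B.1 (h2 (mem_image_of_mem φ hk))).2.symm), mul_zero]
      have k3 := congrFun k1 i
      rw [if_pos hi, if_pos rfl, mul_one] at k3
      exact ne i hi k3
    · exact (mem_B.1 (h2 (mem_image_of_mem φ (mem_B.2 ⟨hi, e⟩)))).2
  have rc : ∀ i ∈ L.Z, ∀ j ∈ L.Z, L.row i = true → L.row j = false →
      E.S (φ i) (φ j) = ε i * ε j * L.S i j := fun i hi j hj ri rj => by
    have k1 := code_zero (L.code.sub_mem (pull _ (row_word (eZ ▸ mem i hi) ((row i hi).trans ri)))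
      (L.code.smul_mem (ε i) (row_word hi ri))) fun k hk => by
        have hk' := mem_B.1 hk
        simp only [Pi.sub_apply, Pi.smul_apply, smul_eq_mul, hk'.1, if_true]
        by_cases e : k = i
        · simp [e]
        · rw [if_neg e, if_neg (fun e' => e (hinj hk'.1 hi e')), if_pos (eZ ▸ mem k hk'.1),
            L.bip i k (ri.trans hk'.2.symm),
            E.bip _ _ (by rw [row i hi, row k hk'.1, ri, hk'.2])]
          simp
    have e : j ≠ i := fun e => by rw [e, ri] at rj; exact absurd rj (by simp)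
    have k2 := congrFun k1 j
    simp only [Pi.sub_apply, Pi.smul_apply, smul_eq_mul, hj, if_true, Pi.zero_apply] at k2
    rw [if_neg e, if_neg (fun e' => e (hinj hj hi e')), if_pos (eZ ▸ mem j hj)] at k2
    linear_combination ε j * k2 - E.S (φ i) (φ j) * hε j hj
  refine ⟨E, hr, hinj, fun i hi => eZ ▸ mem i hi, row, hε, fun i hi j hj => ?_⟩
  by_cases e : L.row i = L.row j
  · rw [L.bip i j e, E.bip _ _ (by rw [row i hi, row j hj, e]), mul_zero]
  · cases ri : L.row i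
    · rw [E.skew, L.skew, rc j hj i hi (by simpa [ri] using e) ri]; ring
    · exact rc i hi j hj ri (by simpa [ri] using e)

theorem Emb.minor {L D : Disp K} {φ : ℕ → ℕ} {ε : ℕ → K} (h : Emb L D φ ε) : Minor L D :=
  ⟨D, φ, ε, Reach.refl D, h⟩

theorem Minor.refl (D : Disp K) : Minor D D :=
  (emb_of_agree subset_rfl (Agree.refl D _)).minor

theorem Minor.trans {L D E : Disp K} (h : Minor L D) (h' : Minor D E) : Minor L E := by
  obtain ⟨D', φ, ε, h1, h2⟩ := h
  obtain ⟨E', ψ, δ, h3, h4⟩ := h'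
  obtain ⟨E'', h5, h6⟩ := h4.reachIn subset_rfl h1
  exact ⟨E'', _, _, h3.trans (h5.reach (image_subset_iff.2 h4.mem)), h2.comp h6⟩

theorem Reach.minor {D E : Disp K} (h : D.Reach E) : Minor E D :=
  ⟨E, _, _, h, emb_of_agree subset_rfl (Agree.refl E _)⟩

theorem minor_restrict {D : Disp K} {U : Finset ℕ} (hU : U ⊆ D.Z) : Minor (D.restrict U) D :=
  ((emb_of_agree subset_rfl (Agree.refl D _)).restrict hU).minor

theorem Same.minor {D E : Disp K} (h : Same D E) : Minor E D :=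
  (emb_of_agree h.1.subset (h.1 ▸ h.2.symm)).minor

theorem minor_scale (D : Disp K) {ε : ℕ → K} (hε : ∀ i, ε i * ε i = 1) :
    Minor D (D.scale ε) ∧ Minor (D.scale ε) D := by
  refine ⟨(emb_scale D hε).minor, Emb.minor (φ := id) (ε := ε) ⟨fun _ _ _ _ e => e,
    fun _ hi => hi, fun _ _ => rfl, fun i _ => hε i, fun i _ j _ => ?_⟩⟩
  simp only [scale, id]
  linear_combination -(ε j * ε j * D.S i j * hε i + D.S i j * hε j)

theorem Minor.flip {L D : Disp K} (h : Minor L D) : Minor L.flip D.flip := by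
  obtain ⟨E, φ, ε, h1, h2⟩ := h
  exact ⟨E.flip, φ, ε, h1.flip, h2.flip⟩

theorem Minor.card_le {L D : Disp K} (h : Minor L D) : L.Z.card ≤ D.Z.card := by
  obtain ⟨E, φ, ε, h1, h2⟩ := h
  exact h1.Z_eq ▸ h2.card_le

theorem Free.minor {𝓛 : List (Disp K)} {L D : Disp K} (h : Free 𝓛 D) (hm : Minor L D) :
    Free 𝓛 L :=
  fun N hN k => h N hN (k.trans hm)

theorem Has.minor {𝓛 : List (Disp K)} {L D : Disp K} (h : Has 𝓛 L) (hm : Minor L D) :
    Has 𝓛 D := by
  obtain ⟨N, hN, k⟩ := h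
  exact ⟨N, hN, k.trans hm⟩

theorem NoW4.emb {R R' : Disp K} {φ : ℕ → ℕ} {ε : ℕ → K} (h : NoW4 R' R'.Z) (he : Emb R R' φ ε) :
    NoW4 R R.Z := by
  intro E hE r hr s hs c hc d hd ⟨k1, k2, k3, k4, k5⟩
  obtain ⟨E', h1, h2⟩ := he.reachIn subset_rfl hE
  refine h E' (h1.mono (image_subset_iff.2 he.mem)) _ (he.mem r hr) _ (he.mem s hs) _
    (he.mem c hc) _ (he.mem d hd) ?_
  rw [← hE.Z_eq] at hr hs hc hd
  have nr := h2.ne hr
  have ns := h2.ne hs
  have nc := h2.ne hc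
  have nd := h2.ne hd
  rw [W4, h2.ent r hr c hc, h2.ent r hr d hd, h2.ent s hs c hc, h2.ent s hs d hd]
  refine ⟨by simp [*], by simp [*], by simp [*], by simp [*], fun e => k5 ?_⟩
  exact mul_left_cancel₀ (mul_ne_zero (mul_ne_zero nr ns) (mul_ne_zero nc nd))
    (by linear_combination e)

theorem Par.mem {D : Disp K} {u v : ℕ} (h : D.Par u v) : u ∈ D.Z ∧ v ∈ D.Z := by
  obtain ⟨-, d, hd, hs⟩ := h
  have k : ∀ i, i ∈ ({u, v} : Finset ℕ) → i ∈ D.Z := fun i hi => by
    by_contra n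
    exact (hs i).2 hi ((mem_flip_code.1 hd).1 i n)
  exact ⟨k u (by simp), k v (by simp)⟩

theorem Par.symm {D : Disp K} {u v : ℕ} (h : D.Par u v) : D.Par v u := by
  obtain ⟨h1, d, hd, hs⟩ := h
  exact ⟨h1.symm, d, hd, pair_comm u v ▸ hs⟩

/-- two proportional columns. -/
theorem par_of_cols {D : Disp K} {u v : ℕ} (huv : u ≠ v) (hu : u ∈ D.Z) (hv : v ∈ D.Z)
    (ru : D.row u = false) (rv : D.row v = false) {s : K} (hs : s ≠ 0)
    (h : ∀ i ∈ D.Z, D.S i u = s * D.S i v) : D.Par u v := by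
  refine ⟨huv, _, D.flip.code.sub_mem (col_word hu ru) (D.flip.code.smul_mem s (col_word hv rv)),
    fun i => ?_⟩
  simp only [Pi.sub_apply, Pi.smul_apply, smul_eq_mul, mem_insert, mem_singleton]
  by_cases e1 : i = u
  · simp [e1, huv, D.bip v u (rv.trans ru.symm)]
  by_cases e2 : i = v
  · simp [e2, huv.symm, D.bip u v (ru.trans rv.symm), hs]
  by_cases e3 : i ∈ D.Z
  · simp [e1, e2, e3, D.skew u i, D.skew v i, h i e3]
  · simp [e1, e2, e3]

/-- a column whose only nonzero entry is in the row `u`. -/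
theorem par_of_unit {D : Disp K} {u v : ℕ} (hu : u ∈ D.Z) (hv : v ∈ D.Z) (rv : D.row v = false)
    (h : D.S u v ≠ 0) (h0 : ∀ i ∈ D.Z, i ≠ u → D.S i v = 0) : D.Par u v := by
  refine ⟨ne_of_S h, _, col_word hv rv, fun i => ?_⟩
  simp only [mem_insert, mem_singleton]
  by_cases e2 : i = v
  · simp [e2]
  by_cases e1 : i = u
  · simp [e1, ne_of_S h, hu, S_ne_symm h]
  by_cases e3 : i ∈ D.Z
  · simp [e1, e2, e3, D.skew v i, h0 i e3 e1]
  · simp [e1, e2, e3]

/-- the shape of a parallel pair with a column `v`. -/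
theorem Par.cases {D : Disp K} {u v : ℕ} (h : D.Par u v) (rv : D.row v = false) :
    (D.row u = false ∧ ∃ s, s ≠ 0 ∧ ∀ i ∈ D.Z, D.S i u = s * D.S i v) ∨
    (D.row u = true ∧ D.S u v ≠ 0 ∧ ∀ i ∈ D.Z, i ≠ u → D.S i v = 0) := by
  have hm := h.mem
  obtain ⟨huv, d, hd, hs⟩ := h
  have du : d u ≠ 0 := (hs u).2 (by simp)
  have dv : d v ≠ 0 := (hs v).2 (by simp)
  have d0 : ∀ i, i ≠ u → i ≠ v → d i = 0 := fun i n1 n2 => by
    by_contra n
    simpa [n1, n2] using (hs i).1 n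
  have key : ∀ i ∈ D.Z, D.row i = true → d i = -(d u * D.S i u) - d v * D.S i v :=
    fun i hi ri => by
      rw [(mem_flip_code.1 hd).2 i hi ri, sum_eq_add_of_mem u v hm.1 hm.2 huv
        (fun k _ hk => by rw [d0 k hk.1 hk.2, zero_mul]), D.skew u i, D.skew v i]
      ring
  have nv : ∀ i, D.row i = true → i ≠ v := fun i ri e => by
    rw [e, rv] at ri; exact absurd ri (by simp)
  cases ru : D.row u
  · refine Or.inl ⟨rfl, -(d v / d u), by simp [du, dv], fun i hi => ?_⟩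
    cases ri : D.row i
    · rw [D.bip i u (ri.trans ru.symm), D.bip i v (ri.trans rv.symm), mul_zero]
    · have k := key i hi ri
      rw [d0 i (fun e => by rw [e, ru] at ri; exact absurd ri (by simp)) (nv i ri)] at k
      field_simp
      linear_combination k
  · refine Or.inr ⟨rfl, fun e => ?_, fun i hi n => ?_⟩
    · have k := key u hm.1 ru
      rw [e, D.bip u u rfl] at k
      exact du (by simpa using k)
    · cases ri : D.row i
      · exact D.bip i v (ri.trans rv.symm)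
      · have k := key i hi ri
        rw [d0 i n (nv i ri), D.bip i u (ri.trans ru.symm)] at k
        exact (mul_eq_zero.1 (by linear_combination k)).resolve_left dv

end Disp

namespace Disp

/-- the transposition of a parallel pair is an automorphism. -/
theorem Par.swap_emb {D : Disp F3} {u v : ℕ} (h : D.Par u v) :
    ∃ E ε, D.Reach E ∧ Emb D E (Equiv.swap u v) ε := by
  have hm := h.mem
  obtain ⟨huv, d, hd, hs⟩ := h
  have du : d u ≠ 0 := (hs u).2 (by simp)
  have dv : d v ≠ 0 := (hs v).2 (by simp)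
  have d0 : ∀ i, i ≠ u → i ≠ v → d i = 0 := fun i n1 n2 => by
    by_contra n
    simpa [n1, n2] using (hs i).1 n
  have sq : ∀ s : F3, s ≠ 0 → s * s = 1 := by decide
  have mem : ∀ i ∈ D.Z, Equiv.swap u v i ∈ D.Z := fun i hi => by
    rw [Equiv.swap_apply_def]
    split_ifs
    exacts [hm.2, hm.1, hi]
  have key : ∀ c ∈ D.code, (fun i => if i ∈ D.Z then (if i = u ∨ i = v then -(d u * d v) else 1) *
      c (Equiv.swap u v i) else 0) = c := fun c hc => by
    have k := orth hc hd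
    rw [sum_eq_add_of_mem u v hm.1 hm.2 huv
      (fun k _ hk => by rw [d0 k hk.1 hk.2, mul_zero])] at k
    funext i
    by_cases e1 : i = u
    · simp only [e1, hm.1, true_or, if_true, Equiv.swap_apply_left]
      linear_combination c u * sq _ du - d u * k
    by_cases e2 : i = v
    · simp only [e2, hm.2, or_true, if_true, Equiv.swap_apply_right]
      linear_combination c v * sq _ dv - d v * k
    by_cases e3 : i ∈ D.Z
    · simp [e1, e2, e3, Equiv.swap_apply_of_ne_of_ne e1 e2]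
    · simp [e3, (mem_code.1 hc).1 i e3]
  obtain ⟨E, h1, h2⟩ := emb_of_code (L := D) (D := D) (φ := Equiv.swap u v)
    (ε := fun i => if i = u ∨ i = v then -(d u * d v) else 1) (Equiv.injective _).injOn
    (eq_of_subset_of_card_le (image_subset_iff.2 mem)
      (by rw [card_image_of_injective _ (Equiv.injective _)]))
    (fun i _ => by
      split_ifs
      · exact sq _ (by simp [du, dv])
      · exact one_mul 1)
    (fun c => ⟨fun hc => ⟨c, hc, (key c hc).symm⟩,
      fun ⟨c', hc', e⟩ => by rw [e, key c' hc']; exact hc'⟩)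
  exact ⟨E, _, h1, h2⟩

/-- valid marks pull back along embeddings. -/
theorem Valid.emb {𝓛 : List (Disp F3)} {L D E : Disp F3} {φ : ℕ → ℕ} {ε : ℕ → F3}
    (hr : D.Reach E) (h : Emb L E φ ε) {T : Finset ℕ} (hT : T ⊆ L.Z)
    (hv : Valid 𝓛 D (T.image φ)) : Valid 𝓛 L T := by
  rcases hv with ⟨e, -, he⟩ | ⟨G, a, ⟨ha, hG, ra, ag, b, c, p, n1, n2, n3, eT, -, ⟨w, hw, sw⟩,
    d, hd, sd⟩, hfree⟩
  · obtain ⟨i, hi, ei⟩ := mem_image.1 (he ▸ mem_singleton_self e)
    refine Or.inl ⟨i, hT hi, eq_singleton_iff_unique_mem.2 ⟨hi, fun j hj => ?_⟩⟩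
    exact h.inj (hT hj) (hT hi) (by
      rw [ei]; exact mem_singleton.1 (he ▸ mem_image_of_mem φ hj))
  obtain ⟨G', g1, g2⟩ := ag.reachIn subset_rfl hr
  have sub : D.Z ⊆ G.Z := hG ▸ subset_insert a D.Z
  have g3 : G.Reach G' := g1.reach sub
  have mem : ∀ i ∈ L.Z, φ i ∈ D.Z := fun i hi => hr.Z_eq ▸ h.mem i hi
  have h' : Emb L G' φ ε := ⟨h.inj, fun i hi => g3.Z_eq ▸ sub (mem i hi),
    fun i hi => (g2.1 _ (mem i hi)).trans (h.row i hi), h.sq,
    fun i hi j hj => (g2.2 _ (mem i hi) _ (mem j hj)).trans (h.ent i hi j hj)⟩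
  obtain ⟨a', ha'⟩ := Infinite.exists_notMem_finset L.Z
  have h2 := h'.addEl (v := a) (s := 1) (u := fun i => ε i * G'.S (φ i) a) ha'
    (by rw [g3.Z_eq, hG]; exact mem_insert_self _ _) (fun i hi e => ha (e ▸ mem i hi))
    (one_mul 1) (fun i hi _ => by linear_combination -(G'.S (φ i) a * h.sq i hi))
  have up : ∀ i ∈ L.Z, Function.update φ a' a i = φ i := fun i hi =>
    Function.update_of_ne (fun e : i = a' => ha' (e ▸ hi)) _ _
  obtain ⟨b0, hb0, rfl⟩ := mem_image.1 (show b ∈ T.image φ by simp [eT])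
  obtain ⟨c0, hc0, rfl⟩ := mem_image.1 (show c ∈ T.image φ by simp [eT])
  obtain ⟨p0, hp0, rfl⟩ := mem_image.1 (show p ∈ T.image φ by simp [eT])
  have eT0 : T = {b0, c0, p0} := by
    ext i
    simp only [mem_insert, mem_singleton]
    constructor
    · intro hi
      have k := mem_image_of_mem φ hi
      rw [eT] at k
      simp only [mem_insert, mem_singleton] at k
      exact k.imp (h.inj (hT hi) (hT hb0)) (Or.imp (h.inj (hT hi) (hT hc0)) (h.inj (hT hi) (hT hp0)))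
    · rintro (rfl | rfl | rfl) <;> assumption
  refine Or.inr ⟨_, a', ⟨ha', rfl, ?_, agree_addEl L ha' _ _, b0, c0, p0,
    fun e => n1 (by rw [e]), fun e => n2 (by rw [e]), fun e => n3 (by rw [e]), eT0, hT,
    h2.pull_supp (g3.code_eq ▸ hw) ?_ ?_,
    h2.flip.pull_supp (g3.flip_code_eq ▸ hd) (hT.trans (subset_insert _ _)) ?_⟩,
    hfree.minor ⟨G', _, _, g3, h2⟩⟩
  · simp [Disp.addEl, g1.row_eq ha, ra]
  · exact insert_subset_insert _ (insert_subset (hT hb0) (singleton_subset_iff.2 (hT hc0)))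
  · rwa [image_insert, image_insert, image_singleton, Function.update_self, up _ (hT hb0),
      up _ (hT hc0)]
  · rwa [image_congr (g := φ) fun i hi => up i (hT hi)]

theorem Valid.subset {𝓛 : List (Disp F3)} {D : Disp F3} {T : Finset ℕ} (h : Valid 𝓛 D T) :
    T ⊆ D.Z := by
  rcases h with ⟨e, he, rfl⟩ | ⟨G, a, ⟨-, -, -, -, b, c, p, -, -, -, -, k, -⟩, -⟩
  · exact singleton_subset_iff.2 he
  · exact k

theorem Valid.tri {𝓛 : List (Disp F3)} {D : Disp F3} {T : Finset ℕ} (h : Valid 𝓛 D T) :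
    (∃ e ∈ D.Z, T = {e}) ∨ D.Tri T := by
  rcases h with h | ⟨G, a, ⟨-, hG, -, ag, b, c, p, n1, n2, n3, eT, k, -, d, hd, sd⟩, -⟩
  · exact Or.inl h
  refine Or.inr ⟨by rw [eT]; exact card_eq_three.2 ⟨b, c, p, n1, n2, n3, rfl⟩, d, ?_, sd⟩
  have h1 := mem_code_restrict_of_supp (D := G.flip) (U := D.Z) (hG ▸ subset_insert a D.Z) hd
    fun i hi => by
      by_contra n
      exact hi (k ((sd i).1 n))
  rw [← flip_restrict, ag.same.flip.code_eq, restrict_self] at h1
  exact h1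

end Disp

end Pool.Agent.Lib.MP_c69b6d_co.F
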