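import Pool.Agent.Lib.MP_c69b6d_co.F.Api2

/-! The generating polynomial `W` and the inequalities `QF`. -/

namespace Pool.Agent.Lib.MP_c69b6d_co.F

open Finset

variable {K : Type} [Field K]

theorem Iso.mono {T T' : Finset ℕ} {τ : ℕ → ℝ} (h : Iso T τ) (hT : T ⊆ T') : Iso T' τ := by
  obtain ⟨h1, h2, h3⟩ := h
  have e1 : ∑ i ∈ T, τ i = ∑ i ∈ T', τ i := sum_subset hT fun i _ hi => h1 i hi
  have e2 : ∑ i ∈ T, τ i ^ 2 = ∑ i ∈ T', τ i ^ 2 :=
    sum_subset hT fun i _ hi => by rw [h1 i hi]; ring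
  exact ⟨fun i hi => h1 i fun h => hi (hT h), by rw [← e1, ← e2, h2], e1 ▸ h3⟩

theorem QF.symm {P : (ℕ → ℝ) → ℝ} {T T' : Finset ℕ} (h : QF P T T') : QF P T' T := by
  intro y τ τ' h1 h2 a b c d
  have := h y τ' τ h2 h1 a c b fun i => by linarith [d i]
  rw [add_right_comm, mul_comm (P (y + τ))]
  exact this

theorem QF.mono {P : (ℕ → ℝ) → ℝ} {T T' U U' : Finset ℕ} (h : QF P T T') (hU : U ⊆ T)
    (hU' : U' ⊆ T') : QF P U U' :=
  fun y τ τ' h1 h2 => h y τ τ' (h1.mono hU) (h2.mono hU')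

theorem QF.of_pos {P : (ℕ → ℝ) → ℝ} (hP : Continuous P) {T T' : Finset ℕ} (h : QFpos P T T') :
    QF P T T' := by
  intro y τ τ' h1 h2 a b c d
  have hc : Continuous fun s : ℝ => y + fun _ : ℕ => s :=
    continuous_const.add (continuous_pi fun _ => continuous_id)
  have c1 : Continuous fun s : ℝ => P (y + fun _ => s) * P ((y + fun _ => s) + τ + τ') :=
    (hP.comp hc).mul (hP.comp ((hc.add continuous_const).add continuous_const))
  have c2 : Continuous fun s : ℝ => P ((y + fun _ => s) + τ) * P ((y + fun _ => s) + τ') :=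
    (hP.comp (hc.add continuous_const)).mul (hP.comp (hc.add continuous_const))
  have e : (y + fun _ : ℕ => (0 : ℝ)) = y := by funext i; simp
  have t1 := (c1.tendsto 0).mono_left (nhdsWithin_le_nhds (s := Set.Ioi 0))
  have t2 := (c2.tendsto 0).mono_left (nhdsWithin_le_nhds (s := Set.Ioi 0))
  rw [e] at t1 t2
  refine le_of_tendsto_of_tendsto t1 t2 ?_
  filter_upwards [self_mem_nhdsWithin] with s hs
  have hs' : 0 < s := hs
  refine h _ τ τ' h1 h2 (fun i => ?_) (fun i => ?_) (fun i => ?_) (fun i => ?_) <;>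
    simp only [Pi.add_apply] <;> linarith [a i, b i, c i, d i]

theorem QF.congr {P P' : (ℕ → ℝ) → ℝ} {T T' : Finset ℕ} (h : QF P T T')
    (e : ∀ y, (∀ i, 0 ≤ y i) → P' y = P y) : QF P' T T' := by
  intro y τ τ' h1 h2 a b c d
  rw [e y a, e (y + τ) b, e (y + τ') c, e (y + τ + τ') d]
  exact h y τ τ' h1 h2 a b c d

/-- the value at `v` is moved to `u`. -/
theorem Iso.move {T : Finset ℕ} {τ : ℕ → ℝ} {u v : ℕ} (h : Iso T τ) (hv : v ∈ T) (hu : u ∉ T) :
    Iso (insert u (T.erase v)) (τ + Pi.single u (τ v) - Pi.single v (τ v)) := by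
  obtain ⟨h1, h2, h3⟩ := h
  have huv : u ≠ v := fun e => hu (e ▸ hv)
  have hu' : u ∉ T.erase v := fun h => hu (mem_of_mem_erase h)
  have e0 : (τ + Pi.single u (τ v) - Pi.single v (τ v) : ℕ → ℝ) u = τ v := by
    simp [h1 u hu, huv]
  have e : ∀ i ∈ T.erase v, (τ + Pi.single u (τ v) - Pi.single v (τ v) : ℕ → ℝ) i = τ i := by
    intro i hi
    have a1 : i ≠ u := fun e => hu' (e ▸ hi)
    have a2 : i ≠ v := ne_of_mem_erase hi
    simp [a1, a2]
  have e1 : ∑ i ∈ insert u (T.erase v), (τ + Pi.single u (τ v) - Pi.single v (τ v) : ℕ → ℝ) i =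
      ∑ i ∈ T, τ i := by
    rw [sum_insert hu', e0, sum_congr rfl e, add_sum_erase _ _ hv]
  have e2 : ∑ i ∈ insert u (T.erase v),
      (τ + Pi.single u (τ v) - Pi.single v (τ v) : ℕ → ℝ) i ^ 2 = ∑ i ∈ T, τ i ^ 2 := by
    rw [sum_insert hu', e0, sum_congr rfl fun i hi => by rw [e i hi],
      add_sum_erase T (fun i => τ i ^ 2) hv]
  refine ⟨fun i hi => ?_, by rw [e1, e2, h2], e1 ▸ h3⟩
  simp only [mem_insert, mem_erase, not_or, not_and] at hi
  by_cases a2 : i = v
  · subst a2; simp [huv.symm]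
  · simp [hi.1, a2, h1 i (hi.2 a2)]

/-- exchange of a parallel element inside a mark. -/
theorem QF.par {P : (ℕ → ℝ) → ℝ} {T T' : Finset ℕ} {u v : ℕ}
    (hP : ∀ y s, P (y + Pi.single u s - Pi.single v s) = P y) (hv : v ∈ T') (hu : u ∉ T')
    (h : QF P T T') : QF P T (insert u (T'.erase v)) := by
  intro y τ τ' h1 h2 a b c d
  have huv : u ≠ v := fun e => hu (e ▸ hv)
  have hv' : v ∉ insert u (T'.erase v) := by simp [huv.symm]
  have h3 := h2.move (u := v) (v := u) (mem_insert_self _ _) hv'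
  rw [erase_insert (fun h => hu (mem_of_mem_erase h)), insert_erase hv] at h3
  have z : τ' v = 0 := h2.1 v hv'
  obtain ⟨m, m1, m2, m3, m4⟩ : ∃ m, m ≤ y u ∧ m ≤ y u + τ u ∧ 0 ≤ m ∧ 0 ≤ m + τ' u := by
    refine ⟨min (y u) (y u + τ u), min_le_left _ _, min_le_right _ _, le_min (a u) (b u), ?_⟩
    rcases min_choice (y u) (y u + τ u) with e | e <;> rw [e]
    exacts [c u, d u]
  have key := h (y + Pi.single u (-m) - Pi.single v (-m)) τ _ h1 h3
    (fun i => ?_) (fun i => ?_) (fun i => ?_) (fun i => ?_)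
  · have e1 : y + Pi.single u (-m) - Pi.single v (-m) + τ =
        (y + τ) + Pi.single u (-m) - Pi.single v (-m) := by abel
    have e2 : ∀ w : ℕ → ℝ, w + Pi.single u (-m) - Pi.single v (-m) +
        (τ' + Pi.single v (τ' u) - Pi.single u (τ' u)) =
        (w + τ') + Pi.single u (-m - τ' u) - Pi.single v (-m - τ' u) := by
      intro w
      rw [Pi.single_sub, Pi.single_sub]; abel
    rwa [e1, e2, e2, hP, hP, hP, hP] at key
  all_goals
    by_cases a1 : i = u
    · subst a1
      simp [huv]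
      linarith
    · by_cases a2 : i = v
      · subst a2
        simp [a1]
        linarith [a i, b i]
      · simp only [Pi.add_apply, Pi.sub_apply, Pi.single_eq_of_ne a1, Pi.single_eq_of_ne a2]
        linarith [a i, b i, c i, d i]

/-- passage from the simplification. -/
theorem QF.simp {P P' : (ℕ → ℝ) → ℝ} {T T' : Finset ℕ} {u v : ℕ} (huv : u ≠ v)
    (hP : ∀ y, P y = P' (y + Pi.single u (y v) - Pi.single v (y v)))
    (h1 : v ∈ T → u ∉ T) (h2 : v ∈ T' → u ∉ T')
    (h : QF P' (if v ∈ T then insert u (T.erase v) else T)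
      (if v ∈ T' then insert u (T'.erase v) else T')) : QF P T T' := by
  intro y τ τ' i1 i2 a b c d
  have iso : ∀ {T : Finset ℕ} {τ : ℕ → ℝ}, Iso T τ → (v ∈ T → u ∉ T) →
      Iso (if v ∈ T then insert u (T.erase v) else T)
        (τ + Pi.single u (τ v) - Pi.single v (τ v)) := by
    intro T τ i h
    split_ifs with hv
    · exact i.move hv (h hv)
    · rw [i.1 v hv]; simpa using i
  have add : ∀ w z : ℕ → ℝ, (w + z) + Pi.single u ((w + z) v) - Pi.single v ((w + z) v) =
      (w + Pi.single u (w v) - Pi.single v (w v)) + (z + Pi.single u (z v) - Pi.single v (z v)) := by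
    intro w z
    rw [Pi.add_apply, Pi.single_add, Pi.single_add]; abel
  have nn : ∀ w : ℕ → ℝ, (∀ i, 0 ≤ w i) →
      ∀ i, 0 ≤ (w + Pi.single u (w v) - Pi.single v (w v) : ℕ → ℝ) i := by
    intro w hw i
    by_cases a1 : i = u
    · subst a1
      simp [huv]
      linarith [hw i, hw v]
    · by_cases a2 : i = v
      · subst a2
        simp [a1]
      · simpa [a1, a2] using hw i
  have b' := nn (y + τ) b
  have c' := nn (y + τ') c
  have d' := nn (y + τ + τ') d
  rw [add] at b' c'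
  rw [add, add] at d'
  rw [hP y, hP (y + τ), hP (y + τ'), hP (y + τ + τ'), add, add, add]
  exact h _ _ _ (iso i1 h1) (iso i2 h2) (nn y a) b' c' d'

theorem lead_nonneg {a b c : ℝ} (h : ∀ M : ℝ, 0 ≤ M → 0 ≤ a + b * M + c * M ^ 2) : 0 ≤ c := by
  by_contra hc
  have hc' : 0 < -c := by linarith
  obtain ⟨M, h1, h2⟩ : ∃ M : ℝ, 1 ≤ M ∧ |a| + |b| < -c * M := by
    refine ⟨(|a| + |b|) / -c + 1, le_add_of_nonneg_left (by positivity), ?_⟩
    rw [mul_add, mul_div_cancel₀ _ hc'.ne']
    linarith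
  have h3 := h M (by linarith)
  have h4 : a ≤ |a| * M := (le_abs_self a).trans (le_mul_of_one_le_right (abs_nonneg a) h1)
  have h5 : b * M ≤ |b| * M := mul_le_mul_of_nonneg_right (le_abs_self b) (by linarith)
  have h6 : (|a| + |b|) * M < -c * M * M := mul_lt_mul_of_pos_right h2 (by linarith)
  nlinarith

namespace Disp

theorem W_nonneg (D : Disp K) {y : ℕ → ℝ} (hy : ∀ i, 0 ≤ y i) : 0 ≤ D.W y := by
  refine sum_nonneg fun F _ => ?_
  split_ifs
  · exact prod_nonneg fun i _ => hy i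
  · exact le_rfl

theorem W_pos (D : Disp K) {y : ℕ → ℝ} (hy : ∀ i, 0 < y i) : 0 < D.W y := by
  refine sum_pos' (fun F _ => ?_) ⟨D.B, mem_powerset.2 D.base_B.1, ?_⟩
  · split_ifs
    · exact prod_nonneg fun i _ => (hy i).le
    · exact le_rfl
  · rw [if_pos D.base_B]
    exact prod_pos fun i _ => hy i

theorem W_continuous (D : Disp K) : Continuous D.W := by
  refine continuous_finsetSum _ fun F _ => ?_
  split_ifs
  · exact continuous_finsetProd _ fun i _ => continuous_apply i
  · exact continuous_const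

theorem W_congr (D : Disp K) {y z : ℕ → ℝ} (h : ∀ i ∈ D.Z, y i = z i) : D.W y = D.W z := by
  refine sum_congr rfl fun F hF => ?_
  rw [prod_congr rfl fun i hi => h i (mem_powerset.1 hF hi)]

theorem W_ext {D E : Disp K} (hZ : E.Z = D.Z) (h : ∀ F, E.Base F ↔ D.Base F) : E.W = D.W := by
  classical
  funext y
  unfold W
  rw [hZ]
  exact sum_congr rfl fun F _ => if_congr (h F) rfl rfl

theorem Reach.W_eq {D E : Disp K} (h : D.Reach E) : E.W = D.W := W_ext h.Z_eq h.base_iff

theorem Same.W_eq {D E : Disp K} (h : Same D E) : E.W = D.W := W_ext h.1 h.base_iff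

theorem W_scale (D : Disp K) {ε : ℕ → K} (hε : ∀ i, ε i * ε i = 1) : (D.scale ε).W = D.W :=
  W_ext rfl (base_scale hε)

theorem Emb.W_eq {L D : Disp K} {φ : ℕ → ℕ} {ε : ℕ → K} (h : Emb L D φ ε)
    (hc : D.Z.card ≤ L.Z.card) (y : ℕ → ℝ) : D.W y = L.W (fun i => y (φ i)) := by
  classical
  unfold W
  rw [← h.image_eq hc, powerset_image, sum_image]
  · refine sum_congr rfl fun F hF => ?_
    have hF' := mem_powerset.1 hF
    rw [prod_image fun i hi j hj e => h.inj (hF' hi) (hF' hj) e]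
    exact if_congr (h.base_iff hc hF') rfl rfl
  · intro F hF G hG e
    have hF' : F ⊆ L.Z := mem_powerset.1 hF
    have hG' : G ⊆ L.Z := mem_powerset.1 hG
    have key : ∀ {F G : Finset ℕ}, F ⊆ L.Z → G ⊆ L.Z → F.image φ = G.image φ → F ⊆ G := by
      intro F G hF hG e i hi
      obtain ⟨j, hj, e'⟩ := mem_image.1 (e ▸ mem_image_of_mem φ hi)
      exact h.inj (hG hj) (hF hi) e' ▸ hj
    exact Subset.antisymm (key hF' hG' e) (key hG' hF' e.symm)

theorem W_empty {D : Disp K} (h : D.Z = ∅) (y : ℕ → ℝ) : D.W y = 1 := by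
  have hB : D.B = ∅ := subset_empty.1 (h ▸ D.base_B.1)
  unfold W
  rw [h, powerset_empty, sum_singleton, if_pos (hB ▸ D.base_B), prod_empty]

open Classical in
/-- the bases avoiding `n`. -/
noncomputable def Wdel (D : Disp K) (n : ℕ) (y : ℕ → ℝ) : ℝ :=
  ∑ F ∈ (D.Z.erase n).powerset, if D.Base F then ∏ i ∈ F, y i else 0

open Classical in
/-- the bases containing `n`. -/
noncomputable def Wcon (D : Disp K) (n : ℕ) (y : ℕ → ℝ) : ℝ :=
  ∑ F ∈ (D.Z.erase n).powerset, if D.Base (insert n F) then ∏ i ∈ F, y i else 0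

theorem W_split (D : Disp K) {n : ℕ} (hn : n ∈ D.Z) (y : ℕ → ℝ) :
    D.W y = D.Wdel n y + y n * D.Wcon n y := by
  unfold W Wdel Wcon
  conv_lhs => rw [← insert_erase hn]
  rw [sum_powerset_insert (notMem_erase n _), mul_sum]
  refine congrArg _ (sum_congr rfl fun F hF => ?_)
  rw [prod_insert fun h => notMem_erase n _ (mem_powerset.1 hF h), mul_ite, mul_zero]

theorem out_erase {D : Disp K} {n i : ℕ} (hi : i ∈ D.Z) (h : i ∉ D.Z.erase n) : i = n := by
  by_contra e
  exact h (mem_erase.2 ⟨e, hi⟩)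

theorem Wdel_col {D : Disp K} {n : ℕ} (hn : n ∈ D.Z) (hr : D.row n = false) :
    D.Wdel n = (D.restrict (D.Z.erase n)).W := by
  classical
  funext y
  refine sum_congr rfl fun F hF => if_congr ?_ rfl rfl
  have hF' := mem_powerset.1 hF
  have hB : (D.restrict (D.Z.erase n)).B = D.B := by
    ext i
    rw [mem_B, mem_B]
    refine ⟨fun h => ⟨mem_of_mem_erase h.1, h.2⟩, fun h => ⟨mem_erase.2 ⟨?_, h.1⟩, h.2⟩⟩
    rintro rfl
    rw [hr] at h
    cases h.2
  rw [base_iff_indep, base_iff_indep, hB]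
  constructor
  · rintro ⟨-, h2, h3⟩
    refine ⟨hF', h2, fun d hd h => h3 d ?_ h⟩
    refine mem_code_of_restrict (D := D.flip) (erase_subset n _) (fun i hi h => ?_) hd
    rw [out_erase (D := D) hi h]
    simp [flip, hr]
  · rintro ⟨-, h2, h3⟩
    refine ⟨hF'.trans (erase_subset _ _), h2, fun d hd h => h3 d ?_ h⟩
    exact mem_code_restrict_of_supp (D := D.flip) (erase_subset n _) hd
      fun i hi => h i fun h' => hi (hF' h')

theorem Wcon_row {D : Disp K} {n : ℕ} (hn : n ∈ D.Z) (hr : D.row n = true) :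
    D.Wcon n = (D.restrict (D.Z.erase n)).W := by
  classical
  funext y
  refine sum_congr rfl fun F hF => if_congr ?_ rfl rfl
  have hF' := mem_powerset.1 hF
  have hnF : n ∉ F := fun h => notMem_erase n _ (hF' h)
  have hB : D.B = insert n (D.restrict (D.Z.erase n)).B := by
    ext i
    rw [mem_insert, mem_B, mem_B]
    constructor
    · intro h
      by_cases e : i = n
      · exact Or.inl e
      · exact Or.inr ⟨mem_erase.2 ⟨e, h.1⟩, h.2⟩
    · rintro (rfl | h)
      · exact ⟨hn, hr⟩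
      · exact ⟨mem_of_mem_erase h.1, h.2⟩
  have hc : D.B.card = (D.restrict (D.Z.erase n)).B.card + 1 := by
    rw [hB, card_insert_of_notMem fun h => notMem_erase n _ (mem_B.1 h).1]
  unfold Base
  rw [card_insert_of_notMem hnF, hc]
  constructor
  · rintro ⟨-, h2, h3⟩
    refine ⟨hF', by omega, fun c hc h => h3 c ?_ fun i hi => ?_⟩
    · exact mem_code_of_restrict (erase_subset n _) (fun i hi h => out_erase hi h ▸ hr) hc
    · rcases mem_insert.1 hi with rfl | hi
      · exact (mem_code.1 hc).1 _ (notMem_erase _ _)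
      · exact h i hi
  · rintro ⟨-, h2, h3⟩
    refine ⟨insert_subset hn (hF'.trans (erase_subset _ _)), by omega, fun c hc h => h3 c ?_
      fun i hi => h i (mem_insert_of_mem hi)⟩
    refine mem_code_restrict_of_supp (erase_subset n _) hc fun i hi => ?_
    by_cases e : i ∈ D.Z
    · exact h i (out_erase e hi ▸ mem_insert_self _ _)
    · exact (mem_code.1 hc).1 i e

theorem Wdel_coloop {D : Disp K} {n : ℕ} (hn : n ∈ D.Z) (hr : D.row n = true)
    (h0 : ∀ j ∈ D.Z, D.S n j = 0) : D.Wdel n = 0 := by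
  funext y
  refine sum_eq_zero fun F hF => if_neg fun h => ?_
  have := congrFun (h.2.2 _ (row_word hn hr) fun i hi => ?_) n
  · simp at this
  · have hi' := mem_erase.1 (mem_powerset.1 hF hi)
    simp [hi'.1, hi'.2, h0 i hi'.2]

theorem Wcon_loop {D : Disp K} {n : ℕ} (hn : n ∈ D.Z) (hr : D.row n = false)
    (h0 : ∀ j ∈ D.Z, D.S n j = 0) : D.Wcon n = 0 := by
  funext y
  refine sum_eq_zero fun F _ => if_neg fun h => ?_
  have := congrFun ((base_iff_indep.1 h).2.2 _ (col_word hn hr) fun i hi => ?_) n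
  · simp at this
  · have hi' : i ≠ n := fun e => hi (e ▸ mem_insert_self _ _)
    by_cases e : i ∈ D.Z
    · simp [hi', h0 i e]
    · simp [hi', e]

theorem Reach.Wdel_eq {D E : Disp K} (h : D.Reach E) (n : ℕ) : E.Wdel n = D.Wdel n := by
  classical
  funext y
  unfold Wdel
  rw [h.Z_eq]
  exact sum_congr rfl fun F _ => if_congr (h.base_iff F) rfl rfl

theorem Reach.Wcon_eq {D E : Disp K} (h : D.Reach E) (n : ℕ) : E.Wcon n = D.Wcon n := by
  classical
  funext y
  unfold Wcon
  rw [h.Z_eq]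
  exact sum_congr rfl fun F _ => if_congr (h.base_iff _) rfl rfl

theorem Wdel_congr (D : Disp K) (n : ℕ) {y z : ℕ → ℝ} (h : ∀ i ∈ D.Z, i ≠ n → y i = z i) :
    D.Wdel n y = D.Wdel n z := by
  refine sum_congr rfl fun F hF => ?_
  rw [prod_congr rfl fun i hi => h i (mem_erase.1 (mem_powerset.1 hF hi)).2
    (mem_erase.1 (mem_powerset.1 hF hi)).1]

theorem Wcon_congr (D : Disp K) (n : ℕ) {y z : ℕ → ℝ} (h : ∀ i ∈ D.Z, i ≠ n → y i = z i) :
    D.Wcon n y = D.Wcon n z := by
  refine sum_congr rfl fun F hF => ?_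
  rw [prod_congr rfl fun i hi => h i (mem_erase.1 (mem_powerset.1 hF hi)).2
    (mem_erase.1 (mem_powerset.1 hF hi)).1]

theorem Wdel_nonneg (D : Disp K) (n : ℕ) {y : ℕ → ℝ} (hy : ∀ i, 0 ≤ y i) : 0 ≤ D.Wdel n y := by
  refine sum_nonneg fun F _ => ?_
  split_ifs
  · exact prod_nonneg fun i _ => hy i
  · exact le_rfl

theorem Wcon_nonneg (D : Disp K) (n : ℕ) {y : ℕ → ℝ} (hy : ∀ i, 0 ≤ y i) : 0 ≤ D.Wcon n y := by
  refine sum_nonneg fun F _ => ?_
  split_ifs
  · exact prod_nonneg fun i _ => hy i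
  · exact le_rfl

theorem W_flip (D : Disp K) {y : ℕ → ℝ} (hy : ∀ i ∈ D.Z, y i ≠ 0) :
    D.W y = (∏ i ∈ D.Z, y i) * D.flip.W (fun i => (y i)⁻¹) := by
  classical
  unfold W
  rw [mul_sum]
  refine sum_bij' (fun F _ => D.Z \ F) (fun F _ => D.Z \ F) (fun F _ => mem_powerset.2 sdiff_subset)
    (fun F _ => mem_powerset.2 sdiff_subset)
    (fun F hF => Finset.sdiff_sdiff_eq_self (mem_powerset.1 hF))
    (fun F hF => Finset.sdiff_sdiff_eq_self (mem_powerset.1 hF)) fun F hF => ?_
  have hF' := mem_powerset.1 hF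
  rw [mul_ite, mul_zero]
  refine if_congr (base_flip hF').symm ?_ rfl
  rw [← prod_sdiff hF', mul_right_comm, ← prod_mul_distrib,
    prod_congr rfl fun i hi => mul_inv_cancel₀ (hy i (mem_sdiff.1 hi).1), prod_const_one, one_mul]

theorem Par.base_swap {D : Disp K} {u v : ℕ} (h : D.Par u v) {F : Finset ℕ} (hu : u ∉ F)
    (hv : v ∉ F) (hb : D.Base (insert u F)) : D.Base (insert v F) := by
  obtain ⟨h1, h2, h3⟩ := base_iff_indep.1 hb
  have hm := h.mem
  obtain ⟨huv, d, hd, hs⟩ := h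
  refine base_iff_indep.2 ⟨insert_subset hm.2 ((subset_insert _ _).trans h1), ?_,
    fun e he h0 => ?_⟩
  · rw [← h2, card_insert_of_notMem hu, card_insert_of_notMem hv]
  · have du : d u ≠ 0 := (hs u).2 (by simp)
    have dv : d v ≠ 0 := (hs v).2 (by simp)
    have eu : e u = 0 := h0 u (by simp [huv, hu])
    have z := h3 (d v • e - e v • d) (Submodule.sub_mem _ (Submodule.smul_mem _ _ he)
      (Submodule.smul_mem _ _ hd)) fun i hi => by
        simp only [Pi.sub_apply, Pi.smul_apply, smul_eq_mul]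
        by_cases a : i = v
        · subst a; ring
        · simp only [mem_insert, not_or] at hi
          have b1 : e i = 0 := h0 i (by simp [a, hi.2])
          have b2 : d i = 0 := by
            by_contra b
            have := (hs i).1 b
            simp [a, hi.1] at this
          rw [b1, b2]; ring
    have zu := congrFun z u
    simp only [Pi.sub_apply, Pi.smul_apply, smul_eq_mul, eu, Pi.zero_apply, mul_zero, zero_sub,
      neg_eq_zero, mul_eq_zero, du, or_false] at zu
    rw [zu, zero_smul, sub_zero] at z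
    exact (smul_eq_zero.1 z).resolve_left dv

theorem Par.W_eq {D : Disp K} {u v : ℕ} (h : D.Par u v) (y : ℕ → ℝ) (s : ℝ) :
    D.W (y + Pi.single u s - Pi.single v s) = D.W y := by
  classical
  have huv := h.1
  have hv : v ∈ D.Z.erase u := mem_erase.2 ⟨huv.symm, h.mem.2⟩
  have n1 : v ∉ (D.Z.erase u).erase v := notMem_erase _ _
  have n2 : u ∉ insert v ((D.Z.erase u).erase v) := by simp [huv]
  have key : ∀ z : ℕ → ℝ, D.W z = ∑ F ∈ ((D.Z.erase u).erase v).powerset,
      ((if D.Base F then 1 else 0) + (z u + z v) * if D.Base (insert u F) then 1 else 0) *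
        ∏ i ∈ F, z i := by
    intro z
    unfold W
    conv_lhs => rw [← insert_erase h.mem.1, ← insert_erase hv]
    rw [sum_powerset_insert n2, sum_powerset_insert n1, sum_powerset_insert n1, ← sum_add_distrib,
      ← sum_add_distrib, ← sum_add_distrib]
    refine sum_congr rfl fun F hF => ?_
    have a1 : v ∉ F := fun h => n1 (mem_powerset.1 hF h)
    have a2 : u ∉ F := fun h => n2 (mem_insert_of_mem (mem_powerset.1 hF h))
    have a3 : ¬ D.Base (insert u (insert v F)) := by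
      intro hb
      obtain ⟨-, d, hd, hs⟩ := h
      have := (base_iff_indep.1 hb).2.2 d hd fun i hi => by
        by_contra b
        have := (hs i).1 b
        simp only [mem_insert, mem_singleton] at this
        rcases this with rfl | rfl <;> simp at hi
      exact (hs u).2 (by simp) (congrFun this u)
    have a4 : D.Base (insert v F) ↔ D.Base (insert u F) :=
      ⟨h.symm.base_swap a1 a2, h.base_swap a2 a1⟩
    rw [if_neg a3, prod_insert a1, prod_insert a2]
    by_cases b1 : D.Base F <;> by_cases b2 : D.Base (insert u F) <;>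
      simp only [a4, b1, b2, if_true, if_false] <;> ring
  rw [key, key]
  refine sum_congr rfl fun F hF => ?_
  have e1 : (y + Pi.single u s - Pi.single v s : ℕ → ℝ) u +
      (y + Pi.single u s - Pi.single v s : ℕ → ℝ) v = y u + y v := by
    simp [huv, huv.symm]
  rw [e1, prod_congr rfl fun i hi => ?_]
  have a1 : i ≠ v := fun e => n1 (e ▸ mem_powerset.1 hF hi)
  have a2 : i ≠ u := fun e => n2 (mem_insert_of_mem (e ▸ mem_powerset.1 hF hi))
  simp [a1, a2]

theorem Par.W_del {D : Disp K} {u v : ℕ} (h : D.Par u v) (rv : D.row v = false) (y : ℕ → ℝ) :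
    D.W y = (D.restrict (D.Z.erase v)).W (y + Pi.single u (y v) - Pi.single v (y v)) := by
  rw [← h.W_eq y (y v), W_split D h.mem.2, Wdel_col h.mem.2 rv]
  simp [h.1.symm]

theorem QF_single (D : Disp K) (e : ℕ) : QF D.W {e} {e} := by
  intro y τ τ' h1 h2 _ _ _ _
  have z1 : ∀ i, i ≠ e → τ i = 0 := fun i hi => h1.1 i (by simpa using hi)
  have z2 : ∀ i, i ≠ e → τ' i = 0 := fun i hi => h2.1 i (by simpa using hi)
  have p1 : 0 ≤ τ e := by simpa using h1.2.2
  have p2 : 0 ≤ τ' e := by simpa using h2.2.2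
  by_cases he : e ∈ D.Z
  · have key : ∀ z : ℕ → ℝ, (∀ i, i ≠ e → z i = y i) → D.W z = D.Wdel e y + z e * D.Wcon e y := by
      intro z hz
      rw [W_split D he, Wdel_congr D e fun i _ h => hz i h, Wcon_congr D e fun i _ h => hz i h]
    rw [key y fun _ _ => rfl, key (y + τ) fun i h => by simp [z1 i h],
      key (y + τ') fun i h => by simp [z2 i h],
      key (y + τ + τ') fun i h => by simp [z1 i h, z2 i h]]
    simp only [Pi.add_apply]
    nlinarith [mul_nonneg (mul_nonneg p1 p2) (sq_nonneg (D.Wcon e y))]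
  · have key : ∀ z : ℕ → ℝ, (∀ i, i ≠ e → z i = y i) → D.W z = D.W y :=
      fun z hz => W_congr D fun i hi => hz i fun h => he (h ▸ hi)
    rw [key (y + τ) fun i h => by simp [z1 i h], key (y + τ') fun i h => by simp [z2 i h],
      key (y + τ + τ') fun i h => by simp [z1 i h, z2 i h]]

theorem QF_erase {D : Disp K} {T T' : Finset ℕ} {n : ℕ} (hn : n ∈ D.Z) (hT : n ∉ T) (hT' : n ∉ T')
    (h : QF D.W T T') : QF (D.restrict (D.Z.erase n)).W T T' := by
  intro y τ τ' h1 h2 a b c d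
  have z1 := h1.1 n hT
  have z2 := h2.1 n hT'
  have key : ∀ M : ℝ, 0 ≤ M → (D.Wdel n y + M * D.Wcon n y) *
      (D.Wdel n (y + τ + τ') + M * D.Wcon n (y + τ + τ')) ≤
      (D.Wdel n (y + τ) + M * D.Wcon n (y + τ)) * (D.Wdel n (y + τ') + M * D.Wcon n (y + τ')) := by
    intro M hM
    have e : ∀ z z' : ℕ → ℝ, z' n = M → (∀ i, i ≠ n → z' i = z i) →
        D.W z' = D.Wdel n z + M * D.Wcon n z := by
      intro z z' e1 e2
      rw [W_split D hn, e1, Wdel_congr D n fun i _ h => e2 i h, Wcon_congr D n fun i _ h => e2 i h]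
    have := h (Function.update y n M) τ τ' h1 h2 (fun i => ?_) (fun i => ?_) (fun i => ?_)
      (fun i => ?_)
    · rwa [e y _ (by simp) fun i h => by simp [h],
        e (y + τ + τ') _ (by simp [z1, z2]) fun i h => by simp [h],
        e (y + τ) _ (by simp [z1]) fun i h => by simp [h],
        e (y + τ') _ (by simp [z2]) fun i h => by simp [h]] at this
    all_goals
      by_cases e : i = n
      · subst e
        simp [z1, z2, hM]
      · rw [Function.update_of_ne e]
        linarith [a i, b i, c i, d i]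
  cases hr : D.row n
  · rw [← Wdel_col hn hr]
    simpa using key 0 le_rfl
  · rw [← Wcon_row hn hr, ← sub_nonneg]
    refine lead_nonneg (a := D.Wdel n (y + τ) * D.Wdel n (y + τ') -
      D.Wdel n y * D.Wdel n (y + τ + τ'))
      (b := D.Wdel n (y + τ) * D.Wcon n (y + τ') + D.Wcon n (y + τ) * D.Wdel n (y + τ') -
        D.Wdel n y * D.Wcon n (y + τ + τ') - D.Wcon n y * D.Wdel n (y + τ + τ')) fun M hM => ?_
    nlinarith [key M hM]

theorem QF_restrict {D : Disp K} {U T T' : Finset ℕ} (hU : U ⊆ D.Z) (hT : T ⊆ U) (hT' : T' ⊆ U)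
    (h : QF D.W T T') : QF (D.restrict U).W T T' := by
  obtain ⟨k, hk⟩ : ∃ k, (D.Z \ U).card = k := ⟨_, rfl⟩
  induction k generalizing D with
  | zero =>
    have : U = D.Z := Subset.antisymm hU (sdiff_eq_empty_iff_subset.1 (card_eq_zero.1 hk))
    rw [this]
    exact h
  | succ k ih =>
    obtain ⟨n, hn⟩ : (D.Z \ U).Nonempty := card_pos.1 (by omega)
    obtain ⟨h1, h2⟩ := mem_sdiff.1 hn
    refine ih (D := D.restrict (D.Z.erase n)) (fun i hi => mem_erase.2 ⟨fun e => h2 (e ▸ hi), hU hi⟩)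
      (QF_erase h1 (fun h => h2 (hT h)) (fun h => h2 (hT' h)) h) ?_
    change ((D.Z.erase n) \ U).card = k
    rw [erase_sdiff_comm, card_erase_of_mem hn]
    omega

theorem QF_emb {L D E : Disp K} {φ : ℕ → ℕ} {ε : ℕ → K} (hr : D.Reach E) (he : Emb L E φ ε)
    {T T' : Finset ℕ} (hT : T ⊆ L.Z) (hT' : T' ⊆ L.Z) (h : QF D.W (T.image φ) (T'.image φ)) :
    QF L.W T T' := by
  rw [← hr.W_eq] at h
  have h' := QF_restrict (U := L.Z.image φ) (image_subset_iff.2 he.mem) (image_subset_image hT)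
    (image_subset_image hT') h
  have he' := he.restrict_right (U := L.Z.image φ) fun i hi => mem_image_of_mem φ hi
  have hc : (E.restrict (L.Z.image φ)).Z.card ≤ L.Z.card := card_image_le
  obtain ⟨ψ, δ, -, hψ, -⟩ := he'.inv hc
  have iso : ∀ {T : Finset ℕ} {τ : ℕ → ℝ}, T ⊆ L.Z → Iso T τ →
      Iso (T.image φ) fun j => if j ∈ L.Z.image φ then τ (ψ j) else 0 := by
    intro T τ hT i
    have inj : Set.InjOn φ T := fun a ha b hb e => he.inj (hT ha) (hT hb) e
    have e : ∀ a ∈ T, (if φ a ∈ L.Z.image φ then τ (ψ (φ a)) else 0) = τ a := fun a ha => by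
      rw [if_pos (mem_image_of_mem φ (hT ha)), hψ a (hT ha)]
    refine ⟨fun j hj => ?_, ?_, ?_⟩
    · beta_reduce
      split_ifs with h1
      · obtain ⟨a, ha, rfl⟩ := mem_image.1 h1
        rw [hψ a ha]
        exact i.1 a fun h => hj (mem_image_of_mem φ h)
      · rfl
    · rw [sum_image inj, sum_image inj, sum_congr rfl e, i.2.1]
      exact sum_congr rfl fun a ha => congrArg (· ^ 2) (e a ha).symm
    · rw [sum_image inj, sum_congr rfl e]
      exact i.2.2
  intro y τ τ' h1 h2 a b c d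
  have key := h' (fun j => y (ψ j)) _ _ (iso hT h1) (iso hT' h2) (fun j => a _) (fun j => ?_)
    (fun j => ?_) (fun j => ?_)
  · have w : ∀ z z' : ℕ → ℝ, (∀ i ∈ L.Z, z' (φ i) = z i) →
        (E.restrict (L.Z.image φ)).W z' = L.W z := fun z z' h => by
      rw [he'.W_eq hc]
      exact W_congr L h
    rwa [w y _ fun i hi => by rw [hψ i hi],
      w (y + τ + τ') _ fun i hi => by
        simp only [Pi.add_apply, hψ i hi, mem_image_of_mem φ hi, if_true],
      w (y + τ) _ fun i hi => by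
        simp only [Pi.add_apply, hψ i hi, mem_image_of_mem φ hi, if_true],
      w (y + τ') _ fun i hi => by
        simp only [Pi.add_apply, hψ i hi, mem_image_of_mem φ hi, if_true]] at key
  all_goals
    split_ifs
    · linarith [b (ψ j), c (ψ j), d (ψ j)]
    · linarith [a (ψ j)]

theorem QF_par {D : Disp K} {T T' : Finset ℕ} {u v : ℕ} (hp : D.Par u v) (hv : v ∈ T')
    (hu : u ∉ T') (h : QF D.W T T') : QF D.W T (insert u (T'.erase v)) :=
  h.par hp.W_eq hv hu

theorem QF_simp {D : Disp K} {T T' : Finset ℕ} {u v : ℕ} (hp : D.Par u v) (rv : D.row v = false)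
    (h1 : v ∈ T → u ∉ T) (h2 : v ∈ T' → u ∉ T')
    (h : QF (D.restrict (D.Z.erase v)).W (if v ∈ T then insert u (T.erase v) else T)
      (if v ∈ T' then insert u (T'.erase v) else T')) : QF D.W T T' :=
  QF.simp hp.1 (hp.W_del rv) h1 h2 h

theorem Ray.minor {L D : Disp K} (h : D.Ray) (hm : Minor L D) : L.Ray := by
  obtain ⟨E, φ, ε, hr, he⟩ := hm
  intro e h1 f h2
  refine QF_emb hr he (singleton_subset_iff.2 h1) (singleton_subset_iff.2 h2) ?_
  rw [image_singleton, image_singleton]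
  exact h _ (hr.Z_eq ▸ he.mem e h1) _ (hr.Z_eq ▸ he.mem f h2)

/-- the conclusion is invariant under isomorphism. -/
theorem Concl.of_emb {𝓛 : List (Disp F3)} {L D E : Disp F3} {φ : ℕ → ℕ} {ε : ℕ → F3}
    (hr : D.Reach E) (he : Emb L E φ ε) (hc : D.Z.card ≤ L.Z.card) (h : L.Concl 𝓛) :
    D.Concl 𝓛 := by
  obtain ⟨ψ, δ, hi, -, hψ⟩ := he.inv (hr.Z_eq ▸ hc)
  intro T T' v v' hh
  have s1 : T ⊆ E.Z := hr.Z_eq ▸ v.subset
  have s2 : T' ⊆ E.Z := hr.Z_eq ▸ v'.subset
  have val : ∀ {T : Finset ℕ}, T ⊆ E.Z → Valid 𝓛 D T → Valid 𝓛 L (T.image ψ) := by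
    intro T hT v
    refine Valid.emb hr he (image_subset_iff.2 fun i h => hi.mem i (hT h)) ?_
    rwa [image_image, image_congr (f := φ ∘ ψ) (g := id) fun i h => hψ i (hT h), image_id]
  rw [← hr.W_eq]
  refine QF_emb (Reach.refl L) hi s1 s2 (h _ _ (val s1 v) (val s2 v') ?_)
  rcases hh with rfl | hh
  · exact Or.inl rfl
  · refine Or.inr (le_trans (card_le_card ?_) ((card_image_le (f := ψ)).trans hh))
    intro i h
    obtain ⟨a, ha, e1⟩ := mem_image.1 (mem_inter.1 h).1
    obtain ⟨b, hb, e2⟩ := mem_image.1 (mem_inter.1 h).2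
    have := hi.inj (s1 ha) (s2 hb) (e1.trans e2.symm)
    exact mem_image.2 ⟨a, mem_inter.2 ⟨ha, this ▸ hb⟩, e1⟩

theorem Concl.ray {𝓛 : List (Disp K)} {D : Disp K} (h : D.Concl 𝓛) : D.Ray := fun e he f hf =>
  h _ _ (Or.inl ⟨e, he, rfl⟩) (Or.inl ⟨f, hf, rfl⟩)
    (Or.inr ((card_le_card inter_subset_left).trans (card_singleton e).le))

end Disp

end Pool.Agent.Lib.MP_c69b6d_co.F
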