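import Pool.Agent.Lib.MP_c69b6d_co.F.Lam

/-! Blocking walks. -/

namespace Pool.Agent.Lib.MP_c69b6d_co.F

open Finset

variable {K : Type} [Field K]

namespace Disp

theorem Tail.mem {D : Disp K} {k n v : ℕ} {X0 Y0 : Finset ℕ} (h : Tail D k X0 Y0 n v) :
    v ∈ D.Z ∧ v ∉ X0 ∧ v ∉ Y0 := by
  cases h with
  | last _ a b c _ => exact ⟨a, b, c⟩
  | step _ _ _ a b c _ _ _ => exact ⟨a, b, c⟩

theorem lam_union_le {D : Disp K} {k : ℕ} {X0 X1 X2 Y : Finset ℕ} (h0 : k ≤ D.lam X0 Y)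
    (s1 : X0 ⊆ X1) (s2 : X0 ⊆ X2) (h1 : D.lam X1 Y ≤ k) (h2 : D.lam X2 Y ≤ k) :
    D.lam (X1 ∪ X2) Y ≤ k := by
  have h := D.lam_submod X1 Y X2 Y
  rw [inter_self, union_self] at h
  have h3 : D.lam X0 Y ≤ D.lam (X1 ∩ X2) Y := D.lam_mono (subset_inter s1 s2) Subset.rfl
  omega

theorem lam_accL {D : Disp K} {k : ℕ} {X0 Y : Finset ℕ} (h0 : k ≤ D.lam X0 Y)
    (h1 : D.lam X0 Y ≤ k) (P : Finset ℕ) (hP : ∀ v ∈ P, D.lam (insert v X0) Y ≤ k) :
    D.lam (X0 ∪ P) Y ≤ k := by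
  induction P using Finset.induction_on with
  | empty => simpa using h1
  | insert v P _ ih =>
    have e : X0 ∪ insert v P = (X0 ∪ P) ∪ insert v X0 := by
      ext i; simp only [mem_union, mem_insert]; tauto
    rw [e]
    exact lam_union_le h0 subset_union_left (subset_insert _ _)
      (ih fun u hu => hP u (mem_insert_of_mem hu)) (hP v (mem_insert_self _ _))

theorem lam_accR {D : Disp K} {k : ℕ} {X Y0 : Finset ℕ} (h0 : k ≤ D.lam X Y0)
    (h1 : D.lam X Y0 ≤ k) (P : Finset ℕ) (hP : ∀ v ∈ P, D.lam X (insert v Y0) ≤ k) :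
    D.lam X (Y0 ∪ P) ≤ k := by
  rw [lam_symm] at h0 h1 ⊢
  exact lam_accL h0 h1 P fun v hv => by rw [lam_symm]; exact hP v hv

theorem lam_ins2_le {D : Disp K} {k v w : ℕ} {X0 Y : Finset ℕ} (h0 : k ≤ D.lam X0 Y)
    (h1 : D.lam (insert v X0) Y ≤ k) (h2 : D.lam (insert w X0) Y ≤ k) :
    D.lam (insert w (insert v X0)) Y ≤ k := by
  have e : insert w (insert v X0) = insert v X0 ∪ insert w X0 := by
    ext i; simp only [mem_union, mem_insert]; tauto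
  rw [e]
  exact lam_union_le h0 (subset_insert _ _) (subset_insert _ _) h1 h2

theorem exists_blocking {D : Disp K} {k : ℕ} {X0 Y0 : Finset ℕ} (hX : X0 ⊆ D.Z) (hY : Y0 ⊆ D.Z)
    (hd : Disjoint X0 Y0) (hk : D.lam X0 Y0 = k) :
    (∃ X Y, X ∪ Y = D.Z ∧ Disjoint X Y ∧ X0 ⊆ X ∧ Y0 ⊆ Y ∧ D.lam X Y ≤ k) ∨
      ∃ n, D.Blocking k X0 Y0 n := by
  classical
  refine or_iff_not_imp_right.2 fun hno => ?_
  set A : Finset ℕ := D.Z.filter (fun v => ∃ n, Tail D k X0 Y0 n v) with hA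
  set C : Finset ℕ := D.Z \ (X0 ∪ Y0 ∪ A) with hC
  have hA1 : ∀ w ∈ A, D.lam X0 (insert w Y0) ≤ k := by
    intro w hw
    obtain ⟨-, n, hn⟩ := mem_filter.1 hw
    exact not_lt.1 fun h => hno ⟨n, w, h, hn⟩
  have hCm : ∀ v ∈ C, v ∈ D.Z ∧ v ∉ X0 ∧ v ∉ Y0 ∧ v ∉ A := by
    intro v hv
    simp only [hC, mem_sdiff, mem_union, not_or] at hv
    exact ⟨hv.1, hv.2.1.1, hv.2.1.2, hv.2.2⟩
  have hC1 : ∀ v ∈ C, D.lam (insert v X0) Y0 ≤ k := by
    intro v hv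
    obtain ⟨a, b, c, d⟩ := hCm v hv
    exact not_lt.1 fun h => d (mem_filter.2 ⟨a, 0, Tail.last v a b c h⟩)
  have hC2 : ∀ v ∈ C, ∀ w ∈ A, D.lam (insert v X0) (insert w Y0) ≤ k := by
    intro v hv w hw
    obtain ⟨a, b, c, d⟩ := hCm v hv
    obtain ⟨-, n, hn⟩ := mem_filter.1 hw
    exact not_lt.1 fun h => d (mem_filter.2
      ⟨a, n + 1, Tail.step n v w a b c (fun e => d (e ▸ hw)) h hn⟩)
  refine ⟨X0 ∪ C, Y0 ∪ A, ?_, ?_, subset_union_left, subset_union_left, ?_⟩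
  · ext i
    simp only [hC, mem_union, mem_sdiff]
    constructor
    · rintro ((h | h) | (h | h))
      · exact hX h
      · exact h.1
      · exact hY h
      · exact (mem_filter.1 h).1
    · intro h
      tauto
  · rw [disjoint_left]
    intro i hi hi'
    rcases mem_union.1 hi with h | h <;> rcases mem_union.1 hi' with h' | h'
    · exact disjoint_left.1 hd h h'
    · obtain ⟨-, n, hn⟩ := mem_filter.1 h'
      exact hn.mem.2.1 h
    · exact (hCm i h).2.2.1 h'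
    · exact (hCm i h).2.2.2 h'
  · refine lam_accL (hk.ge.trans (D.lam_mono Subset.rfl subset_union_left))
      (lam_accR hk.ge hk.le A hA1) C fun v hv => ?_
    exact lam_accR (hk.ge.trans (D.lam_mono (subset_insert _ _) Subset.rfl)) (hC1 v hv) A (hC2 v hv)

theorem Tail.rev {D : Disp K} {k n v : ℕ} {X0 Y0 : Finset ℕ} (h : Tail D k X0 Y0 n v) :
    ∀ m, Tail D k Y0 X0 m v → D.Blocking k Y0 X0 (m + n) := by
  induction h with
  | last v _ _ _ h => exact fun m hm => ⟨v, by rwa [lam_symm], hm⟩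
  | step n v w _ _ _ hvw h ht ih =>
    intro m hm
    have := ih (m + 1) (Tail.step m w v ht.mem.1 ht.mem.2.2 ht.mem.2.1 hvw.symm
      (by rwa [lam_symm]) hm)
    rwa [show m + 1 + n = m + (n + 1) by ring] at this

theorem Blocking.symm {D : Disp K} {k n : ℕ} {X0 Y0 : Finset ℕ} (h : D.Blocking k X0 Y0 n) :
    D.Blocking k Y0 X0 n := by
  obtain ⟨v, h1, h2⟩ := h
  have := h2.rev 0 (Tail.last v h2.mem.1 h2.mem.2.2 h2.mem.2.1 (by rwa [lam_symm]))
  rwa [zero_add] at this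

theorem disj_ins {X Y : Finset ℕ} {v w : ℕ} (hd : Disjoint X Y) (hv : v ∉ Y) (hw : w ∉ X)
    (hvw : v ≠ w) : Disjoint (insert v X) (insert w Y) := by
  rw [disjoint_insert_left, disjoint_insert_right, mem_insert, not_or]
  exact ⟨⟨hvw, hv⟩, hw, hd⟩

theorem Tail.reachIn {D E : Disp K} {k n v : ℕ} {X0 Y0 U : Finset ℕ} (hd : Disjoint X0 Y0)
    (hU : U ⊆ X0 ∪ Y0) (hr : ReachIn U D E) (h : Tail D k X0 Y0 n v) : Tail E k X0 Y0 n v := by
  induction h with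
  | last v a b c h =>
    refine Tail.last v (by rwa [hr.Z_eq]) b c ?_
    rwa [hr.lam_eq (disjoint_insert_left.2 ⟨c, hd⟩)
      (hU.trans (union_subset_union (subset_insert _ _) Subset.rfl))]
  | step n v w a b c hvw h ht ih =>
    refine Tail.step n v w (by rwa [hr.Z_eq]) b c hvw ?_ ih
    rwa [hr.lam_eq (disj_ins hd c ht.mem.2.1 hvw)
      (hU.trans (union_subset_union (subset_insert _ _) (subset_insert _ _)))]

theorem Blocking.reachIn {D E : Disp K} {k n : ℕ} {X0 Y0 U : Finset ℕ} (hd : Disjoint X0 Y0)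
    (hU : U ⊆ X0 ∪ Y0) (hr : ReachIn U D E) (h : D.Blocking k X0 Y0 n) :
    E.Blocking k X0 Y0 n := by
  obtain ⟨v, h1, h2⟩ := h
  refine ⟨v, ?_, h2.reachIn hd hU hr⟩
  rwa [hr.lam_eq (disjoint_insert_right.2 ⟨h2.mem.2.1, hd⟩)
    (hU.trans (union_subset_union Subset.rfl (subset_insert _ _)))]

/-- the first two elements of a shortest blocking walk. -/
theorem Blocking.cases {D : Disp K} {k n : ℕ} {X0 Y0 : Finset ℕ}
    (h : D.Blocking k X0 Y0 (n + 1)) (hmin : ∀ m ≤ n, ¬ D.Blocking k X0 Y0 m) :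
    ∃ v w, v ∈ D.Z ∧ v ∉ X0 ∧ v ∉ Y0 ∧ w ∈ D.Z ∧ w ∉ X0 ∧ w ∉ Y0 ∧ v ≠ w ∧
      k < D.lam X0 (insert v Y0) ∧ D.lam (insert v X0) Y0 ≤ k ∧ D.lam X0 (insert w Y0) ≤ k ∧
      k < D.lam (insert v X0) (insert w Y0) ∧ Tail D k X0 Y0 n w := by
  obtain ⟨v, h1, h2⟩ := h
  cases h2 with
  | step _ _ w a b c hvw h ht =>
    exact ⟨v, w, a, b, c, ht.mem.1, ht.mem.2.1, ht.mem.2.2, hvw, h1,
      not_lt.1 fun h' => hmin 0 (Nat.zero_le _) ⟨v, h1, Tail.last v a b c h'⟩,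
      not_lt.1 fun h' => hmin n le_rfl ⟨w, h', ht⟩, h, ht⟩

theorem lam_transfer {D E : Disp K} {k p : ℕ} {X0 X1 X0' Y : Finset ℕ}
    (hd : Disjoint X1 Y) (hp : p ∉ Y) (h01 : X0 ⊆ X1) (hr : ReachIn X1 D E) (hX' : X0' ⊆ X1)
    (hk : k ≤ E.lam X0' Y) (hb : D.lam X1 Y ≤ k) (h : k < D.lam (insert p X0) Y) :
    k < E.lam (insert p X0') Y := by
  have s := E.lam_submod (insert p X0') Y X1 Y
  rw [inter_self, union_self] at s
  have e1 : E.lam X1 Y = D.lam X1 Y := hr.lam_eq hd subset_union_left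
  have e2 : E.lam (insert p X1) Y = D.lam (insert p X1) Y :=
    hr.lam_eq (disjoint_insert_left.2 ⟨hp, hd⟩) ((subset_insert _ _).trans subset_union_left)
  have m1 : D.lam (insert p X0) Y ≤ D.lam (insert p X1) Y :=
    D.lam_mono (insert_subset_insert _ h01) Subset.rfl
  have m2 : E.lam (insert p X1) Y ≤ E.lam (insert p X0' ∪ X1) Y :=
    E.lam_mono (insert_subset (mem_union_left _ (mem_insert_self _ _)) subset_union_right)
      Subset.rfl
  have m3 : E.lam X0' Y ≤ E.lam (insert p X0' ∩ X1) Y :=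
    E.lam_mono (subset_inter (subset_insert _ _) hX') Subset.rfl
  omega

theorem Tail.transfer {D E : Disp K} {k n w : ℕ} {X0 X1 Y0 X0' : Finset ℕ} (hd : Disjoint X1 Y0)
    (h01 : X0 ⊆ X1) (hr : ReachIn X1 D E) (hX' : X0' ⊆ X1) (hk : k ≤ E.lam X0' Y0)
    (hb : D.lam X1 Y0 ≤ k) (ht : Tail D k X0 Y0 n w) (hw : w ∉ X1)
    (H : ∀ m < n, ∀ q, Tail D k X0 Y0 m q → q ∉ X1 ∧ D.lam X1 (insert q Y0) ≤ k) :
    Tail E k X0' Y0 n w := by
  induction ht with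
  | last p a b c h =>
    exact Tail.last p (by rwa [hr.Z_eq]) (fun e => hw (hX' e)) c
      (lam_transfer hd c h01 hr hX' hk hb h)
  | step n p q a b c hpq h ht ih =>
    obtain ⟨q1, q2⟩ := H n (Nat.lt_succ_self n) q ht
    refine Tail.step n p q (by rwa [hr.Z_eq]) (fun e => hw (hX' e)) c hpq ?_
      (ih q1 fun m hm => H m (hm.trans (Nat.lt_succ_self n)))
    exact lam_transfer (disjoint_insert_right.2 ⟨q1, hd⟩) (by simp [hpq, c]) h01 hr hX'
      (hk.trans (E.lam_mono Subset.rfl (subset_insert _ _))) q2 h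

/-- shortening by one element. -/
theorem shorten {D E : Disp K} {k n v w : ℕ} {X0 Y0 X0' : Finset ℕ} (hd : Disjoint X0 Y0)
    (hv : v ∈ D.Z) (hvX : v ∉ X0) (hvY : v ∉ Y0) (h1 : k < D.lam X0 (insert v Y0))
    (ht : Tail D k X0 Y0 n w) (hmin : ∀ m ≤ n, ¬ D.Blocking k X0 Y0 m)
    (hr : ReachIn (insert v X0) D E) (hX' : X0' ⊆ insert v X0) (hk : k ≤ E.lam X0' Y0)
    (h2 : k < E.lam X0' (insert w Y0)) : E.Blocking k X0' Y0 n := by
  have hne : ∀ m ≤ n, ∀ q, Tail D k X0 Y0 m q → v ≠ q := by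
    rintro m hm q hq rfl
    exact hmin m hm ⟨v, h1, hq⟩
  have hnm : ∀ m ≤ n, ∀ q, Tail D k X0 Y0 m q → q ∉ insert v X0 := by
    intro m hm q hq
    rw [mem_insert, not_or]
    exact ⟨(hne m hm q hq).symm, hq.mem.2.1⟩
  refine ⟨w, h2, ht.transfer (disjoint_insert_left.2 ⟨hvY, hd⟩) (subset_insert _ _) hr hX' hk
    (not_lt.1 fun h => hmin 0 (Nat.zero_le _) ⟨v, h1, Tail.last v hv hvX hvY h⟩)
    (hnm n le_rfl w ht) fun m hm q hq => ⟨hnm m hm.le q hq, not_lt.1 fun h => ?_⟩⟩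
  exact hmin (m + 1) hm ⟨v, h1, Tail.step m v q hv hvX hvY (hne m hm.le q hq) h hq⟩

end Disp

open Disp

theorem ShX.emb {𝒮 : List (Seed K)} {G E : Disp K} {χ : ℕ → ℕ} {η : ℕ → K} (he : Emb G E χ η)
    {X1 Y0 : Finset ℕ} {t : ℕ} (hX : X1 ⊆ G.Z) (hY : Y0 ⊆ G.Z) (ht : t ∈ G.Z)
    (h : ShX 𝒮 G X1 Y0 t) : ShX 𝒮 E (X1.image χ) (Y0.image χ) (χ t) := by
  obtain ⟨G1, G2, σ, hσ, φ, ε, r1, r2, e, hy, hx, hl⟩ := h
  obtain ⟨E1, s1, e1⟩ := he.reachIn hX r1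
  have z1 : G1.Z = G.Z := r1.Z_eq
  have z2 : G2.Z = G1.Z := r2.Z_eq
  obtain ⟨E2, s2, e2⟩ := e1.reachIn (U := σ.L.Z.image φ)
    (image_subset_iff.2 fun i hi => z2 ▸ e.mem i hi) r2
  have im : ∀ A : Finset ℕ, A.image (fun i => χ (φ i)) = (A.image φ).image χ := fun A => by
    rw [image_image]; rfl
  refine ⟨E1, E2, σ, hσ, _, _, s1, by rwa [im], e.comp e2, by rw [im, hy], ?_, ?_⟩
  · rw [im]
    exact image_subset_image hx
  · rw [im, ← image_insert, e2.lam_eq (by rw [z2, z1]; exact hx.trans hX)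
      (by rw [z2, z1]; exact insert_subset ht hY)]
    exact hl

theorem ShY.emb {𝒮 : List (Seed K)} {G E : Disp K} {χ : ℕ → ℕ} {η : ℕ → K} (he : Emb G E χ η)
    {X0 Y1 : Finset ℕ} {t : ℕ} (hX : X0 ⊆ G.Z) (hY : Y1 ⊆ G.Z) (ht : t ∈ G.Z)
    (h : ShY 𝒮 G X0 Y1 t) : ShY 𝒮 E (X0.image χ) (Y1.image χ) (χ t) := by
  obtain ⟨G1, G2, σ, hσ, φ, ε, r1, r2, e, hx, hy, hl⟩ := h
  obtain ⟨E1, s1, e1⟩ := he.reachIn hY r1
  have z1 : G1.Z = G.Z := r1.Z_eq
  have z2 : G2.Z = G1.Z := r2.Z_eq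
  obtain ⟨E2, s2, e2⟩ := e1.reachIn (U := σ.L.Z.image φ)
    (image_subset_iff.2 fun i hi => z2 ▸ e.mem i hi) r2
  have im : ∀ A : Finset ℕ, A.image (fun i => χ (φ i)) = (A.image φ).image χ := fun A => by
    rw [image_image]; rfl
  refine ⟨E1, E2, σ, hσ, _, _, s1, by rwa [im], e.comp e2, by rw [im, hx], ?_, ?_⟩
  · rw [im]
    exact image_subset_image hy
  · rw [im, ← image_insert, e2.lam_eq (by rw [z2, z1]; exact insert_subset ht hX)
      (by rw [z2, z1]; exact hy.trans hY)]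
    exact hl

/-- replace the test element `z` by an element `t` which spans it on the rows of `X1`. -/
theorem ShX.agree {𝒮 : List (Seed K)} (wf : ∀ σ ∈ 𝒮, σ.L.Z = σ.X0 ∪ σ.Y0) {E E' : Disp K}
    (ha : Agree E' E E.Z) {X1 Y0 : Finset ℕ} {z t : ℕ} (hX : X1 ⊆ E.Z) (hY : Y0 ⊆ E.Z)
    (ht : t ∈ E.Z) (hd : Disjoint X1 Y0) (hz : z ∉ X1) (ht' : t ∉ X1)
    (hl : E'.lam X1 (insert z (insert t Y0)) ≤ E'.lam X1 (insert t Y0))
    (h : ShX 𝒮 E' X1 Y0 z) : ShX 𝒮 E X1 Y0 t := by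
  obtain ⟨G1, G2, σ, hσ, φ, ε, r1, r2, e, hy, hx, h3⟩ := h
  have hU : σ.L.Z.image φ = σ.X0.image φ ∪ Y0 := by rw [wf σ hσ, image_union, hy]
  have hUZ : σ.L.Z.image φ ⊆ E.Z := by rw [hU]; exact union_subset (hx.trans hX) hY
  obtain ⟨E1, s1, a1⟩ := ha.reachIn hX r1
  obtain ⟨E2, s2, a2⟩ := a1.reachIn hUZ r2
  have hm : ∀ i ∈ σ.L.Z, φ i ∈ E.Z := fun i hi => hUZ (mem_image_of_mem φ hi)
  refine ⟨E1, E2, σ, hσ, φ, ε, s1, s2, ⟨e.inj, fun i hi => ?_, fun i hi => ?_, e.sq,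
    fun i hi j hj => ?_⟩, hy, hx, ?_⟩
  · rw [s2.Z_eq, s1.Z_eq]; exact hm i hi
  · rw [a2.1 _ (hm i hi), e.row i hi]
  · rw [a2.2 _ (hm i hi) _ (hm j hj), e.ent i hi j hj]
  · set X' := σ.X0.image φ with hX'
    have d1 : Disjoint X1 (insert t Y0) := disjoint_insert_right.2 ⟨ht', hd⟩
    have d2 : Disjoint X1 (insert z (insert t Y0)) := disjoint_insert_right.2 ⟨hz, d1⟩
    have d3 : Disjoint X1 (insert z Y0) := disjoint_insert_right.2 ⟨hz, hd⟩
    have e1 : E2.lam X' (insert t Y0) = G2.lam X' (insert t Y0) :=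
      lam_congr fun i hi j hj => a2.2 i (hX (hx hi)) j (insert_subset ht hY hj)
    have e2 : G2.lam X' (insert t Y0) = G1.lam X' (insert t Y0) :=
      r2.lam_eq (d1.mono_left hx) (by rw [hU]; exact union_subset_union Subset.rfl (subset_insert _ _))
    have e3 : G2.lam X' (insert z Y0) = G1.lam X' (insert z Y0) :=
      r2.lam_eq (d3.mono_left hx) (by rw [hU]; exact union_subset_union Subset.rfl (subset_insert _ _))
    have e4 : G1.lam X1 (insert t Y0) = E'.lam X1 (insert t Y0) := r1.lam_eq d1 subset_union_left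
    have e5 : G1.lam X1 (insert z (insert t Y0)) = E'.lam X1 (insert z (insert t Y0)) :=
      r1.lam_eq d2 subset_union_left
    have s := G1.lam_submod X1 (insert z (insert t Y0)) X' (insert t Y0)
    rw [union_eq_left.2 hx, inter_eq_right.2 hx, inter_eq_right.2 (subset_insert _ _),
      union_eq_left.2 (subset_insert _ _)] at s
    have m1 : G1.lam X' (insert z Y0) ≤ G1.lam X' (insert z (insert t Y0)) :=
      G1.lam_mono Subset.rfl (insert_subset_insert _ (subset_insert _ _))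
    omega

/-- the data of `ShX` in a usable form. -/
theorem ShX.use {𝒮 : List (Seed K)}
    (wf : ∀ σ ∈ 𝒮, σ.L.Z = σ.X0 ∪ σ.Y0 ∧ σ.L.lam σ.X0 σ.Y0 = 2) {E : Disp K}
    {X1 Y0 : Finset ℕ} {t N : ℕ} (hX : X1 ⊆ E.Z) (hY : Y0 ⊆ E.Z) (hd : Disjoint X1 Y0)
    (ht : t ∉ X1) (h : ShX 𝒮 E X1 Y0 t)
    (H : ∀ E1 X', ReachIn X1 E E1 → X' ⊆ X1 → 2 ≤ E1.lam X' Y0 → 2 < E1.lam X' (insert t Y0) →
      E1.Blocking 2 X' Y0 N) :
    ∃ σ ∈ 𝒮, ∃ E2 φ ε, E.Reach E2 ∧ Emb σ.L E2 φ ε ∧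
      E2.Blocking 2 (σ.X0.image φ) (σ.Y0.image φ) N := by
  obtain ⟨E1, E2, σ, hσ, φ, ε, r1, r2, e, hy, hx, h3⟩ := h
  obtain ⟨w1, w2⟩ := wf σ hσ
  have hU : σ.L.Z.image φ = σ.X0.image φ ∪ Y0 := by rw [w1, image_union, hy]
  rw [hU] at r2
  have l2 : E2.lam (σ.X0.image φ) Y0 = 2 := by
    rw [← hy, e.lam_eq (by rw [w1]; exact subset_union_left) (by rw [w1]; exact subset_union_right),
      w2]
  have d1 : Disjoint (σ.X0.image φ) Y0 := hd.mono_left hx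
  refine ⟨σ, hσ, E2, φ, ε, (r1.reach hX).trans
    (r2.reach (by rw [r1.Z_eq]; exact union_subset (hx.trans hX) hY)), e, ?_⟩
  rw [hy]
  refine (H E1 _ r1 hx ?_ ?_).reachIn d1 Subset.rfl r2
  · rw [← r2.lam_eq d1 Subset.rfl, l2]
  · rw [← r2.lam_eq (disjoint_insert_right.2 ⟨fun h => ht (hx h), d1⟩)
      (union_subset_union Subset.rfl (subset_insert _ _))]
    exact h3

theorem ShY.use {𝒮 : List (Seed K)}
    (wf : ∀ σ ∈ 𝒮, σ.L.Z = σ.X0 ∪ σ.Y0 ∧ σ.L.lam σ.X0 σ.Y0 = 2) {E : Disp K}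
    {X0 Y1 : Finset ℕ} {t N : ℕ} (hX : X0 ⊆ E.Z) (hY : Y1 ⊆ E.Z) (hd : Disjoint Y1 X0)
    (ht : t ∉ Y1) (h : ShY 𝒮 E X0 Y1 t)
    (H : ∀ E1 Y', ReachIn Y1 E E1 → Y' ⊆ Y1 → 2 ≤ E1.lam Y' X0 → 2 < E1.lam Y' (insert t X0) →
      E1.Blocking 2 Y' X0 N) :
    ∃ σ ∈ 𝒮, ∃ E2 φ ε, E.Reach E2 ∧ Emb σ.L E2 φ ε ∧
      E2.Blocking 2 (σ.X0.image φ) (σ.Y0.image φ) N := by
  obtain ⟨E1, E2, σ, hσ, φ, ε, r1, r2, e, hx, hy, h3⟩ := h
  obtain ⟨w1, w2⟩ := wf σ hσ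
  have hU : σ.L.Z.image φ = σ.Y0.image φ ∪ X0 := by rw [w1, image_union, hx, union_comm]
  rw [hU] at r2
  have l2 : E2.lam (σ.Y0.image φ) X0 = 2 := by
    rw [← hx, e.lam_eq (by rw [w1]; exact subset_union_right) (by rw [w1]; exact subset_union_left),
      lam_symm, w2]
  have d1 : Disjoint (σ.Y0.image φ) X0 := hd.mono_left hy
  refine ⟨σ, hσ, E2, φ, ε, (r1.reach hY).trans
    (r2.reach (by rw [r1.Z_eq]; exact union_subset (hy.trans hY) hX)), e, ?_⟩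
  rw [hx]
  refine ((H E1 _ r1 hy ?_ ?_).reachIn d1 Subset.rfl r2).symm
  · rw [← r2.lam_eq d1 Subset.rfl, l2]
  · rw [← r2.lam_eq (disjoint_insert_right.2 ⟨fun h => ht (hy h), d1⟩)
      (union_subset_union Subset.rfl (subset_insert _ _)), lam_symm]
    exact h3

/-- an embedding extends to any further element of the display. -/
theorem exists_emb_addEl {L D : Disp K} {φ : ℕ → ℕ} {ε : ℕ → K} (h : Emb L D φ ε) {n v : ℕ}
    (hn : n ∉ L.Z) (hv : v ∈ D.Z) (hv' : v ∉ L.Z.image φ) :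
    ∃ u χ η, Emb (L.addEl n (D.row v) u) D χ η ∧ χ n = v ∧
      ∀ A : Finset ℕ, n ∉ A → A.image χ = A.image φ := by
  refine ⟨fun i => ε i * D.S (φ i) v, Function.update φ n v, Function.update ε n 1,
    h.addEl hn hv (fun i hi e => hv' (e ▸ mem_image_of_mem φ hi)) (mul_one 1) fun i hi _ => ?_,
    Function.update_self _ _ _, fun A hA => image_congr fun i hi => ?_⟩
  · rw [mul_one, ← mul_assoc, h.sq i hi, one_mul]
  · exact Function.update_of_ne (fun e : i = n => hA (e ▸ hi)) _ _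

/-- a seed minor can be chosen with an induced separation. -/
theorem induced (𝒮 : List (Seed K)) (Bad : Disp K → Prop)
    (hBad : ∀ G D, Minor G D → Bad G → Bad D) {n n' m : ℕ} (h1 : n ≠ n') (h2 : n ≠ m)
    (h3 : n' ≠ m)
    (wf : ∀ σ ∈ 𝒮, σ.L.Z = σ.X0 ∪ σ.Y0 ∧ Disjoint σ.X0 σ.Y0 ∧ σ.L.lam σ.X0 σ.Y0 = 2 ∧
      n ∉ σ.L.Z ∧ n' ∉ σ.L.Z ∧ m ∉ σ.L.Z)
    (s1 : ∀ σ ∈ 𝒮, ∀ r v, 3 ≤ (σ.L.addEl n r v).lam σ.X0 (insert n σ.Y0) →
      3 ≤ (σ.L.addEl n r v).lam (insert n σ.X0) σ.Y0 → Bad (σ.L.addEl n r v))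
    (s2 : ∀ σ ∈ 𝒮, ∀ r v r' v' G, G = (σ.L.addEl n r v).addEl n' r' v' →
      3 ≤ G.lam σ.X0 (insert n σ.Y0) → G.lam (insert n σ.X0) σ.Y0 ≤ 2 →
      G.lam σ.X0 (insert n' σ.Y0) ≤ 2 → 3 ≤ G.lam (insert n σ.X0) (insert n' σ.Y0) →
      Bad G ∨ ShX 𝒮 G (insert n σ.X0) σ.Y0 n' ∨
      (3 ≤ G.lam (insert n' σ.X0) σ.Y0 ∧ ShY 𝒮 G σ.X0 (insert n' σ.Y0) n) ∨
      (G.lam (insert n' σ.X0) σ.Y0 ≤ 2 ∧
        ShX 𝒮 (G.addEl m (!r') (fun i => if i = n' then 1 else 0))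
          (insert n' (insert n σ.X0)) σ.Y0 m))
    {D : Disp K} (hD : ¬ Bad D) {σ : Seed K} (hσ : σ ∈ 𝒮) (hm : Minor σ.L D)
    (hK : ∀ s : K, s ≠ 0 → s * s = 1) :
    ∃ σ' ∈ 𝒮, ∃ E φ ε X Y, D.Reach E ∧ Emb σ'.L E φ ε ∧ X ∪ Y = D.Z ∧ Disjoint X Y ∧
      σ'.X0.image φ ⊆ X ∧ σ'.Y0.image φ ⊆ Y ∧ E.lam X Y ≤ 2 := by
  classical
  by_contra hcon
  have wf2 : ∀ σ ∈ 𝒮, σ.L.Z = σ.X0 ∪ σ.Y0 ∧ σ.L.lam σ.X0 σ.Y0 = 2 :=
    fun σ hσ => ⟨(wf σ hσ).1, (wf σ hσ).2.2.1⟩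
  have basic : ∀ σ ∈ 𝒮, ∀ (E : Disp K) φ ε, Emb σ.L E φ ε → σ.X0.image φ ⊆ E.Z ∧
      σ.Y0.image φ ⊆ E.Z ∧ Disjoint (σ.X0.image φ) (σ.Y0.image φ) ∧
      E.lam (σ.X0.image φ) (σ.Y0.image φ) = 2 := by
    intro σ hσ E φ ε he
    obtain ⟨w1, w2, w3, -⟩ := wf σ hσ
    have hx : σ.X0 ⊆ σ.L.Z := by rw [w1]; exact subset_union_left
    have hy : σ.Y0 ⊆ σ.L.Z := by rw [w1]; exact subset_union_right
    refine ⟨image_subset_iff.2 fun i hi => he.mem i (hx hi),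
      image_subset_iff.2 fun i hi => he.mem i (hy hi), ?_, by rw [he.lam_eq hx hy, w3]⟩
    rw [disjoint_left]
    intro a ha hb
    obtain ⟨i, hi, rfl⟩ := mem_image.1 ha
    obtain ⟨j, hj, e⟩ := mem_image.1 hb
    have := he.inj (hy hj) (hx hi) e
    exact disjoint_left.1 w2 hi (this ▸ hj)
  have hex : ∃ N, ∃ σ ∈ 𝒮, ∃ E φ ε, D.Reach E ∧ Emb σ.L E φ ε ∧
      E.Blocking 2 (σ.X0.image φ) (σ.Y0.image φ) N := by
    obtain ⟨E, φ, ε, hr, he⟩ := hm
    obtain ⟨b1, b2, b3, b4⟩ := basic σ hσ E φ ε he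
    rcases exists_blocking b1 b2 b3 b4 with ⟨X, Y, a1, a2, a3, a4, a5⟩ | ⟨N, hN⟩
    · exact absurd ⟨σ, hσ, E, φ, ε, X, Y, hr, he, a1.trans hr.Z_eq, a2, a3, a4, a5⟩ hcon
    · exact ⟨N, σ, hσ, E, φ, ε, hr, he, hN⟩
  have hspec := Nat.find_spec hex
  have hglob := fun M => @Nat.find_min _ _ hex M
  generalize Nat.find hex = N at hspec hglob
  clear hex hm hσ hcon σ
  obtain ⟨σ, hσ, E, φ, ε, hr, he, hb⟩ := hspec
  have hglob' : ∀ M < N, ¬ ∃ σ ∈ 𝒮, ∃ E2 φ ε, E.Reach E2 ∧ Emb σ.L E2 φ ε ∧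
      E2.Blocking 2 (σ.X0.image φ) (σ.Y0.image φ) M := by
    rintro M hM ⟨σ, hσ, E2, φ, ε, a, b, c⟩
    exact hglob M hM ⟨σ, hσ, E2, φ, ε, hr.trans a, b, c⟩
  have hmin : ∀ M < N, ¬ E.Blocking 2 (σ.X0.image φ) (σ.Y0.image φ) M :=
    fun M hM h => hglob M hM ⟨σ, hσ, E, φ, ε, hr, he, h⟩
  obtain ⟨b1, b2, b3, b4⟩ := basic σ hσ E φ ε he
  obtain ⟨w1, w2, w3, w4, w5, w6⟩ := wf σ hσ
  have hx : σ.X0 ⊆ σ.L.Z := by rw [w1]; exact subset_union_left
  have hy : σ.Y0 ⊆ σ.L.Z := by rw [w1]; exact subset_union_right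
  have hZ : σ.L.Z.image φ = σ.X0.image φ ∪ σ.Y0.image φ := by rw [w1, image_union]
  set X0 := σ.X0.image φ with hX0
  set Y0 := σ.Y0.image φ with hY0
  rcases N with _ | N
  · obtain ⟨v, l1, ht⟩ := hb
    cases ht with
    | last _ a b c l2 =>
      obtain ⟨u, χ, η, e1, c1, i1⟩ := exists_emb_addEl he w4 a (by rw [hZ]; simp [b, c])
      have z1 : (σ.L.addEl n (E.row v) u).Z = insert n σ.L.Z := rfl
      have ix : σ.X0.image χ = X0 := i1 _ fun h => w4 (hx h)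
      have iy : σ.Y0.image χ = Y0 := i1 _ fun h => w4 (hy h)
      refine hD (hBad _ _ ⟨E, χ, η, hr, e1⟩ (s1 σ hσ _ u ?_ ?_))
      · rw [← e1.lam_eq (hx.trans (subset_insert _ _)) (insert_subset_insert _ hy), image_insert,
          ix, iy, c1]
        exact l1
      · rw [← e1.lam_eq (insert_subset_insert _ hx) (hy.trans (subset_insert _ _)), image_insert,
          ix, iy, c1]
        exact l2
  have hmin' : ∀ M ≤ N, ¬ E.Blocking 2 X0 Y0 M := fun M hM => hmin M (Nat.lt_succ_of_le hM)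
  obtain ⟨v, w, v1, v2, v3, u1, u2, u3, hvw, l1, l2, l3, l4, ht⟩ := hb.cases hmin'
  obtain ⟨u, χ1, η1, e1, c1, i1⟩ := exists_emb_addEl he w4 v1 (by rw [hZ]; simp [v2, v3])
  have z1 : (σ.L.addEl n (E.row v) u).Z = insert n σ.L.Z := rfl
  obtain ⟨u', χ, η, e2, c2, i2⟩ := exists_emb_addEl e1 (n := n') (v := w)
    (by rw [z1]; simp [h1.symm, w5]) u1
    (by rw [z1, image_insert, i1 _ w4, c1, hZ]; simp [hvw.symm, u2, u3])
  set G := (σ.L.addEl n (E.row v) u).addEl n' (E.row w) u' with hG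
  have z2 : G.Z = insert n' (insert n σ.L.Z) := rfl
  have ix : σ.X0.image χ = X0 := by rw [i2 _ fun h => w5 (hx h), i1 _ fun h => w4 (hx h)]
  have iy : σ.Y0.image χ = Y0 := by rw [i2 _ fun h => w5 (hy h), i1 _ fun h => w4 (hy h)]
  have c3 : χ n = v := by
    have := i2 {n} (by simp [h1.symm])
    rw [image_singleton, image_singleton, c1] at this
    exact singleton_injective this
  have mn : n ∈ G.Z := by rw [z2]; simp
  have mn' : n' ∈ G.Z := by rw [z2]; simp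
  have gx : σ.X0 ⊆ G.Z := hx.trans ((subset_insert _ _).trans (subset_insert _ _))
  have gy : σ.Y0 ⊆ G.Z := hy.trans ((subset_insert _ _).trans (subset_insert _ _))
  have t1 : G.lam σ.X0 (insert n σ.Y0) = E.lam X0 (insert v Y0) := by
    rw [← e2.lam_eq gx (insert_subset mn gy), image_insert, ix, iy, c3]
  have t2 : G.lam (insert n σ.X0) σ.Y0 = E.lam (insert v X0) Y0 := by
    rw [← e2.lam_eq (insert_subset mn gx) gy, image_insert, ix, iy, c3]
  have t3 : G.lam σ.X0 (insert n' σ.Y0) = E.lam X0 (insert w Y0) := by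
    rw [← e2.lam_eq gx (insert_subset mn' gy), image_insert, ix, iy, c2]
  have t4 : G.lam (insert n σ.X0) (insert n' σ.Y0) = E.lam (insert v X0) (insert w Y0) := by
    rw [← e2.lam_eq (insert_subset mn gx) (insert_subset mn' gy), image_insert, image_insert,
      ix, iy, c2, c3]
  have t5 : G.lam (insert n' σ.X0) σ.Y0 = E.lam (insert w X0) Y0 := by
    rw [← e2.lam_eq (insert_subset mn' gx) gy, image_insert, ix, iy, c2]
  rcases s2 σ hσ _ u _ u' G hG (by rw [t1]; exact l1) (by rw [t2]; exact l2) (by rw [t3]; exact l3)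
    (by rw [t4]; exact l4) with hb | hs | ⟨l5, hs⟩ | ⟨l5, hs⟩
  · exact hD (hBad _ _ ⟨E, χ, η, hr, e2⟩ hb)
  · have hs' := hs.emb e2 (insert_subset mn gx) gy mn'
    rw [image_insert, ix, iy, c2, c3] at hs'
    refine hglob' N (Nat.lt_succ_self N) (hs'.use wf2 (insert_subset v1 b1) b2
      (disjoint_insert_left.2 ⟨v3, b3⟩) (by simp [hvw.symm, u2]) fun E1 X' r hX' k1 k2 => ?_)
    exact shorten b3 v1 v2 v3 l1 ht hmin' r hX' k1 k2
  · have hs' := hs.emb e2 gx (insert_subset mn' gy) mn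
    rw [image_insert, ix, iy, c2, c3] at hs'
    rw [t5] at l5
    refine hglob' 0 (Nat.succ_pos N) (hs'.use wf2 b1 (insert_subset u1 b2)
      (disjoint_insert_left.2 ⟨u2, b3.symm⟩) (by simp [hvw, v3]) fun E1 Y' r hY' k1 k2 => ?_)
    refine shorten b3.symm u1 u3 u2 (by rw [lam_symm]; exact l5)
      (Tail.last v v1 v3 v2 (by rw [lam_symm]; exact l1)) (fun M hM h => ?_) r hY' k1 k2
    exact hmin' M (hM.trans (Nat.zero_le N)) h.symm
  · rw [t5] at l5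
    cases ht with
    | last _ _ _ _ l6 => omega
    | step N _ t _ _ _ hwt l6 ht =>
      have hne : ∀ M ≤ N + 1, ∀ q, Tail E 2 X0 Y0 M q → v ≠ q := by
        rintro M hM q hq rfl
        exact hmin' M hM ⟨v, l1, hq⟩
      have hv2 : ∀ M ≤ N, ∀ q, Tail E 2 X0 Y0 M q → E.lam (insert v X0) (insert q Y0) ≤ 2 :=
        fun M hM q hq => not_lt.1 fun h => hmin' (M + 1) (by omega)
          ⟨v, l1, Tail.step M v q v1 v2 v3 (hne M (by omega) q hq) h hq⟩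
      have hne2 : ∀ M ≤ N, ∀ q, Tail E 2 X0 Y0 M q → w ≠ q := by
        rintro M hM q hq rfl
        have := hv2 M hM w hq
        omega
      have hnm : ∀ M ≤ N, ∀ q, Tail E 2 X0 Y0 M q → q ∉ insert w (insert v X0) := by
        intro M hM q hq
        simp only [mem_insert, not_or]
        exact ⟨(hne2 M hM q hq).symm, (hne M (by omega) q hq).symm, hq.mem.2.1⟩
      obtain ⟨z, hz⟩ := Infinite.exists_notMem_finset E.Z
      set E' := E.addEl z (!E.row w) (fun i => if i = w then η n' else 0) with hE'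
      have ha : Agree E E' E.Z := agree_addEl E hz _ _
      have nz : ∀ i ∈ E.Z, i ≠ z := fun i hi e => hz (e ▸ hi)
      have e2' : Emb G E' χ η := ⟨e2.inj, fun i hi => mem_insert_of_mem (e2.mem i hi),
        fun i hi => by rw [ha.1 _ (e2.mem i hi), e2.row i hi], e2.sq,
        fun i hi j hj => by rw [ha.2 _ (e2.mem i hi) _ (e2.mem j hj), e2.ent i hi j hj]⟩
      have rz : E'.row z = !E.row w := by simp [hE', addEl]
      have sz : ∀ i ∈ E.Z, E'.S i z = if i = w then η n' else 0 := by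
        intro i hi
        by_cases hiw : i = w
        · simp [hE', addEl, nz w u1, hiw]
        · simp [hE', addEl, nz i hi, hiw]
      have mG : m ∉ G.Z := by rw [z2]; simp [h3.symm, h2.symm, w6]
      have e3 := e2'.addEl (n := m) (v := z) mG (mem_insert_self _ _)
        (fun i hi => nz _ (e2.mem i hi)) (mul_one 1) (u := fun i => if i = n' then 1 else 0)
        (fun i hi _ => by
          rw [sz _ (e2.mem i hi)]
          by_cases hi' : i = n'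
          · simp [hi', c2]
          · rw [if_neg hi', if_neg (fun e => hi' (e2.inj hi mn' (e.trans c2.symm))), mul_zero])
      rw [rz] at e3
      have i3 : ∀ A : Finset ℕ, A ⊆ G.Z → A.image (Function.update χ m z) = A.image χ :=
        fun A hA => image_congr fun i hi =>
          Function.update_of_ne (fun e : i = m => mG (e ▸ hA hi)) _ _
      have g1 : insert n' (insert n σ.X0) ⊆ G.Z := insert_subset mn' (insert_subset mn gx)
      have hs' := hs.emb e3 (g1.trans (subset_insert _ _)) (gy.trans (subset_insert _ _))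
        (mem_insert_self _ _)
      rw [i3 _ g1, i3 _ gy, image_insert, image_insert, ix, iy, c2, c3, Function.update_self] at hs'
      have x1 : insert w (insert v X0) ⊆ E.Z := insert_subset u1 (insert_subset v1 b1)
      have d1 : Disjoint (insert w (insert v X0)) Y0 :=
        disjoint_insert_left.2 ⟨u3, disjoint_insert_left.2 ⟨v3, b3⟩⟩
      have ty : insert t Y0 ⊆ E.Z := insert_subset ht.mem.1 b2
      have hs2 : ShX 𝒮 E (insert w (insert v X0)) Y0 t := by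
        refine hs'.agree (fun σ hσ => (wf σ hσ).1) ha.symm x1 b2 ht.mem.1 d1 (fun h => hz (x1 h))
          (hnm N le_rfl t ht) ?_
        have q1 := E'.lam_insert_le (insert v X0) (insert z (insert t Y0)) w
        have q2 : E'.lam (insert v X0) (insert z (insert t Y0)) ≤
            E'.lam (insert v X0) (insert t Y0) := by
          refine lam_insert_le_iff.2 ⟨0, fun i hi => ?_⟩
          have hiw : i ≠ w := by
            rintro rfl
            rcases mem_insert.1 hi with h | h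
            · exact hvw h.symm
            · exact u2 h
          rw [sz i (insert_subset v1 b1 hi), if_neg hiw]
          simp
        have q3 : E'.lam (insert v X0) (insert t Y0) = E.lam (insert v X0) (insert t Y0) :=
          lam_congr fun i hi j hj => ha.2 i (insert_subset v1 b1 hi) j (ty hj)
        have q4 : E'.lam (insert w (insert v X0)) (insert t Y0) =
            E.lam (insert w (insert v X0)) (insert t Y0) :=
          lam_congr fun i hi j hj => ha.2 i (x1 hi) j (ty hj)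
        have q5 : E.lam (insert w X0) (insert t Y0) ≤ E.lam (insert w (insert v X0)) (insert t Y0) :=
          E.lam_mono (insert_subset_insert _ (subset_insert _ _)) Subset.rfl
        have q6 := hv2 N le_rfl t ht
        omega
      refine hglob' N (by omega) (hs2.use wf2 x1 b2 d1 (hnm N le_rfl t ht)
        fun E1 X' r hX' k1 k2 => ⟨t, k2, ?_⟩)
      refine ht.transfer d1 ((subset_insert _ _).trans (subset_insert _ _)) r hX' k1
        (lam_ins2_le b4.ge l2 l5) (hnm N le_rfl t ht) fun M hM q hq => ⟨hnm M hM.le q hq, ?_⟩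
      refine lam_ins2_le (b4.ge.trans (E.lam_mono Subset.rfl (subset_insert _ _)))
        (hv2 M hM.le q hq) (not_lt.1 fun h => hmin' (M + 2) (by omega) ⟨v, l1, ?_⟩)
      exact Tail.step _ v w v1 v2 v3 hvw l4 (Tail.step M w q u1 u2 u3 (hne2 M hM.le q hq) h hq)

end Pool.Agent.Lib.MP_c69b6d_co.F
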