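import Pool.Agent.Lib.MP_c69b6d_co.F.Core

/-! Stage C (excluded minors of ternary matroids): definitions. -/

namespace Pool.Agent.Lib.MP_c69b6d_co.F

open Finset Disp
open scoped symmDiff

/-- the principal part of `A` on `T` is nonsingular. -/
def Disp.Ns {K : Type} [Field K] (A : Disp K) (T : Finset ℕ) : Prop :=
  (A.restrict T).Base (T.filter fun i => A.row i = false)

/-- the support graph of a display. -/
def Disp.nz {K : Type} [Field K] (A : Disp K) (i j : ℕ) : Prop := A.S i j ≠ 0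

/-- a finite base system. -/
structure BS where
  Z : Finset ℕ
  β : Finset ℕ → Prop
  sub : ∀ F, β F → F ⊆ Z
  ne : ∃ F, β F
  ex : ∀ F G, β F → β G → ∀ x ∈ F ∆ G, ∃ y ∈ F ∆ G, (x ∈ F ↔ y ∉ F) ∧ β (F ∆ {x, y})

namespace BS

def dual (M : BS) : BS where
  Z := M.Z
  β := fun F => F ⊆ M.Z ∧ M.β (M.Z \ F)
  sub := fun _ h => h.1
  ne := by
    obtain ⟨F, hF⟩ := M.ne
    exact ⟨M.Z \ F, sdiff_subset, by rwa [Finset.sdiff_sdiff_eq_self (M.sub F hF)]⟩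
  ex := by
    rintro F G ⟨hF, hF'⟩ ⟨hG, hG'⟩ x hx
    have key : ∀ i, i ∈ (M.Z \ F) ∆ (M.Z \ G) ↔ i ∈ F ∆ G := fun i => by
      have h1 := @hF i
      have h2 := @hG i
      simp only [mem_symmDiff, mem_sdiff]
      tauto
    have hZ : ∀ i ∈ F ∆ G, i ∈ M.Z := fun i hi => by
      rcases mem_symmDiff.1 hi with h | h
      exacts [hF h.1, hG h.1]
    obtain ⟨y, hy, h1, h2⟩ := M.ex _ _ hF' hG' x ((key x).2 hx)
    rw [key] at hy
    have hxZ := hZ x hx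
    have hyZ := hZ y hy
    refine ⟨y, hy, ?_, fun i hi => ?_, ?_⟩
    · simp only [mem_sdiff] at h1
      tauto
    · rcases mem_symmDiff.1 hi with h | h
      · exact hF h.1
      · rcases mem_insert.1 h.1 with rfl | h3
        · exact hxZ
        · rw [mem_singleton.1 h3]; exact hyZ
    · have e : M.Z \ (F ∆ {x, y}) = (M.Z \ F) ∆ {x, y} := by
        ext i
        simp only [mem_symmDiff, mem_sdiff, mem_insert, mem_singleton]
        by_cases a : i = x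
        · subst a; tauto
        · by_cases b : i = y
          · subst b; tauto
          · tauto
      rwa [e]

/-- the fundamental graph with respect to `B`. -/
def adj (M : BS) (B : Finset ℕ) (i j : ℕ) : Prop := (i ∈ B ↔ j ∉ B) ∧ M.β (B ∆ {i, j})

/-- `A` represents the minor of `M` shown on `X` by the base `B`. -/
structure Rp (M : BS) (B X : Finset ℕ) (A : Disp F3) : Prop where
  row : ∀ i ∈ X, (A.row i = true ↔ i ∈ B)
  ns : ∀ T ⊆ X, (A.Ns T ↔ M.β (B ∆ T))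

/-- all proper minors are ternary. -/
def Min (M : BS) : Prop := ∀ B, M.β B → ∀ X, X ⊂ M.Z → ∃ A, M.Rp B X A

def Tern (M : BS) : Prop := ∃ B A, M.β B ∧ M.Rp B M.Z A

def IsU25 (M : BS) : Prop := M.Z.card = 5 ∧ ∀ F, M.β F ↔ F ⊆ M.Z ∧ F.card = 2

def IsF7 (M : BS) : Prop :=
  ∃ φ : ZMod 7 → ℕ, Function.Injective φ ∧ univ.image φ = M.Z ∧
    ∀ T : Finset (ZMod 7), M.β (T.image φ) ↔ T.card = 3 ∧ ∀ i, T ≠ {i, i + 1, i + 3}

end BS

/-- connected inside `U`. -/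
def Con (R : ℕ → ℕ → Prop) (U : Finset ℕ) : ℕ → ℕ → Prop :=
  Relation.ReflTransGen fun i j => i ∈ U ∧ j ∈ U ∧ R i j

def Cn (R : ℕ → ℕ → Prop) (U : Finset ℕ) : Prop := ∀ i ∈ U, ∀ j ∈ U, Con R U i j

/-- an induced path `w 0, …, w n` inside `U`. -/
structure IP (R : ℕ → ℕ → Prop) (U : Finset ℕ) (w : ℕ → ℕ) (n : ℕ) : Prop where
  mem : ∀ k ≤ n, w k ∈ U
  adj : ∀ k < n, R (w k) (w (k + 1))
  nadj : ∀ k l, k + 1 < l → l ≤ n → ¬ R (w k) (w l)
  inj : ∀ k l, k < l → l ≤ n → w k ≠ w l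

/-- a deletion pair with a connected remainder. -/
def BS.DPair (M : BS) : Prop :=
  ∃ B u v, M.β B ∧ u ≠ v ∧ u ∈ M.Z ∧ v ∈ M.Z ∧ u ∉ B ∧ v ∉ B ∧
    Cn (M.adj B) ((M.Z.erase u).erase v)

/-- the structure of a minimal non-ternary system with a deletion pair. -/
structure BS.Pth (M : BS) (B : Finset ℕ) (A : Disp F3) (u v : ℕ) (w : ℕ → ℕ) (n : ℕ) : Prop where
  base : M.β B
  uv : u ≠ v
  mu : u ∈ M.Z
  mv : v ∈ M.Z
  nu : u ∉ B
  nv : v ∉ B
  ru : M.Rp B (M.Z.erase u) A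
  rv : M.Rp B (M.Z.erase v) A
  ip : IP A.nz ((M.Z.erase u).erase v) w n
  all : ∀ z ∈ M.Z, z = u ∨ z = v ∨ ∃ k ≤ n, w k = z
  b0 : w 0 ∈ B
  bn : w n ∈ B
  pos : 0 < n
  u0 : A.S (w 0) u ≠ 0
  v0 : A.S (w 0) v ≠ 0
  un : A.S (w n) u ≠ 0
  vn : A.S (w n) v ≠ 0
  inc : M.β (B ∆ {w 0, w n, u, v}) ↔ A.S (w 0) u * A.S (w n) v = A.S (w 0) v * A.S (w n) u

end Pool.Agent.Lib.MP_c69b6d_co.F
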