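import Pool.Agent.Lib.MP_c69b6d_co.F.Api3

/-! Independent sets of displays; uniqueness of the signs for three small displays. -/

namespace Pool.Agent.Lib.MP_c69b6d_co.F

open Finset

variable {K : Type} [Field K]

namespace Disp

theorem Reach.lk_indep {D E : Disp K} (h : D.Reach E) (I : Finset ℕ) : E.Indep I ↔ D.Indep I := by
  unfold Indep
  rw [h.flip_code_eq]

theorem Indep.lk_card {D : Disp K} {I : Finset ℕ} (hI : I ⊆ D.Z) (h : D.Indep I) :
    I.card ≤ D.B.card := by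
  obtain ⟨E, hE, hIE⟩ := reach_rows hI h
  have hr : D.Reach E := hE.reach (union_subset (sdiff_subset.trans hI)
    (sdiff_subset.trans (filter_subset _ _)))
  rw [← hr.card_B]
  exact card_le_card hIE

theorem lk_B (D : Disp K) : D.B ⊆ D.Z := filter_subset _ _

theorem lk_zero {D : Disp K} {d : ℕ → K} (hd : d ∈ D.flip.code)
    (h : ∀ i ∈ D.Z, i ∉ D.B → d i = 0) : d = 0 := by
  refine code_zero hd fun i hi => ?_
  rw [flip_B, mem_sdiff] at hi
  exact h i hi.1 hi.2

theorem lk_restrict {D : Disp K} {U I : Finset ℕ} (hU : U ⊆ D.Z) (hI : I ⊆ U) :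
    (D.restrict U).Indep I ↔ D.Indep (I ∪ (D.B \ U)) := by
  have key : ∀ c : ℕ → K, c ∈ (D.restrict U).flip.code ↔ ∃ c' ∈ D.flip.code,
      (∀ i ∈ D.flip.B, i ∉ U → c' i = 0) ∧ c = fun i => if i ∈ U then c' i else 0 := by
    intro c
    rw [flip_restrict]
    exact mem_code_restrict (D := D.flip) hU
  constructor
  · intro h d hd h0
    have h1 : (fun i => if i ∈ U then d i else 0) = 0 := by
      refine h _ ((key _).2 ⟨d, hd, fun i hi hiU => h0 i ?_, rfl⟩) fun i hi => ?_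
      · rw [flip_B, mem_sdiff] at hi
        simp only [mem_union, mem_sdiff, not_or, not_and]
        exact ⟨fun hh => hiU (hI hh), fun hh => absurd hh hi.2⟩
      · by_cases hiU : i ∈ U
        · rw [if_pos hiU]
          refine h0 i ?_
          simp only [mem_union, mem_sdiff, not_or, not_and, not_not]
          exact ⟨hi, fun _ => hiU⟩
        · rw [if_neg hiU]
    refine lk_zero hd fun i _ hiB => ?_
    by_cases hiU : i ∈ U
    · have := congrFun h1 i
      simpa [hiU] using this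
    · refine h0 i ?_
      simp only [mem_union, mem_sdiff, not_or, not_and]
      exact ⟨fun hh => hiU (hI hh), fun hh => absurd hh hiB⟩
  · intro h d hd h0
    obtain ⟨c, hc, hc0, rfl⟩ := (key _).1 hd
    have h1 : c = 0 := by
      refine h c hc fun i hi => ?_
      simp only [mem_union, mem_sdiff, not_or, not_and, not_not] at hi
      by_cases hiU : i ∈ U
      · have := h0 i hi.1
        simpa [hiU] using this
      · by_cases hiZ : i ∈ D.Z
        · refine hc0 i ?_ hiU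
          rw [flip_B, mem_sdiff]
          exact ⟨hiZ, fun hh => hiU (hi.2 hh)⟩
        · exact (mem_flip_code.1 hc).1 i hiZ
    subst h1
    funext i
    simp

theorem Emb.lk_indep {L D : Disp K} {φ : ℕ → ℕ} {ε : ℕ → K} (h : Emb L D φ ε)
    (him : L.Z.image φ = D.Z) {I : Finset ℕ} (hI : I ⊆ L.Z) :
    D.Indep (I.image φ) ↔ L.Indep I := by
  have hne : ∀ i ∈ L.Z, ε i ≠ 0 := fun i hi h0 => by
    have := h.sq i hi
    rw [h0, mul_zero] at this
    exact zero_ne_one this
  constructor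
  · intro hD d hd h0
    obtain ⟨c, hc, -, hc2⟩ := h.flip.code_push hd
    have h1 : c = 0 := by
      refine hD c hc fun j hj => ?_
      by_cases hjZ : j ∈ D.Z
      · rw [← him, mem_image] at hjZ
        obtain ⟨i, hi, rfl⟩ := hjZ
        rw [hc2 i hi, h0 i fun hh => hj (mem_image_of_mem _ hh), mul_zero]
      · exact (mem_flip_code.1 hc).1 j hjZ
    funext i
    by_cases hi : i ∈ L.Z
    · have := hc2 i hi
      rw [h1] at this
      exact (mul_eq_zero.1 this.symm).resolve_left (hne i hi)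
    · exact (mem_flip_code.1 hd).1 i hi
  · intro hL d hd h0
    have h1 := h.flip.code_pull hd (fun j hj hj' => by
      refine absurd ?_ hj'
      change j ∈ L.Z.image φ
      rw [him]
      exact lk_B D.flip hj)
    have h2 := hL _ h1 (fun i hi => by
      by_cases hiZ : i ∈ L.Z
      · have : φ i ∉ I.image φ := by
          rw [mem_image]
          rintro ⟨k, hk, e⟩
          exact hi (h.inj (hI hk) hiZ e ▸ hk)
        rw [h0 _ this, mul_zero, ite_self]
      · exact if_neg hiZ)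
    funext j
    by_cases hjZ : j ∈ D.Z
    · rw [← him, mem_image] at hjZ
      obtain ⟨i, hi, rfl⟩ := hjZ
      have := congrFun h2 i
      have hi' : i ∈ L.flip.Z := hi
      simp only [if_pos hi', Pi.zero_apply] at this
      exact (mul_eq_zero.1 this).resolve_left (hne i hi)
    · exact (mem_flip_code.1 hd).1 j hjZ

theorem lk_sum {D : Disp K} {J : Finset ℕ} (hJ : J ⊆ D.Z) {d : ℕ → K} {i : ℕ}
    (hi : i ∈ D.B) (h0 : ∀ j ∈ D.Z, j ∉ D.B → j ∉ J → d j = 0) :
    ∑ j ∈ D.Z, d j * D.S j i = ∑ j ∈ J, d j * D.S j i := by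
  symm
  refine sum_subset hJ fun j hj hjJ => ?_
  by_cases hjB : j ∈ D.B
  · rw [D.bip j i ((mem_B.1 hjB).2.trans (mem_B.1 hi).2.symm), mul_zero]
  · rw [h0 j hj hjB hjJ, zero_mul]

theorem lk_exch {D : Disp K} {R J : Finset ℕ} (hR : R ⊆ D.B) (hJ : J ⊆ D.Z)
    (hJB : ∀ j ∈ J, j ∉ D.B) :
    D.Indep ((D.B \ R) ∪ J) ↔
      ∀ u : ℕ → K, (∀ i ∈ R, ∑ j ∈ J, u j * D.S j i = 0) → ∀ j ∈ J, u j = 0 := by
  constructor
  · intro h u hu j hj
    obtain ⟨d, hd, hdv⟩ := exists_code D.flip (fun k => if k ∈ J then u k else 0)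
    have hdv' : ∀ k ∈ D.Z, k ∉ D.B → d k = if k ∈ J then u k else 0 := fun k hk hkB =>
      hdv k (by rw [flip_B, mem_sdiff]; exact ⟨hk, hkB⟩)
    have h1 : d = 0 := by
      refine h d hd fun i hi => ?_
      simp only [mem_union, mem_sdiff, not_or, not_and, not_not] at hi
      by_cases hiZ : i ∈ D.Z
      · by_cases hiB : i ∈ D.B
        · rw [(mem_flip_code.1 hd).2 i hiZ (mem_B.1 hiB).2, lk_sum hJ hiB
            (fun k hk hkB hkJ => by rw [hdv' k hk hkB, if_neg hkJ]), ← hu i (hi.1 hiB)]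
          refine sum_congr rfl fun k hk => ?_
          rw [hdv' k (hJ hk) (hJB k hk), if_pos hk]
        · rw [hdv' i hiZ hiB, if_neg hi.2]
      · exact (mem_flip_code.1 hd).1 i hiZ
    have h2 := hdv' j (hJ hj) (hJB j hj)
    rw [h1, if_pos hj] at h2
    exact h2.symm
  · intro h d hd h0
    have h1 : ∀ k ∈ D.Z, k ∉ D.B → k ∉ J → d k = 0 := fun k _ hkB hkJ => h0 k (by
      simp only [mem_union, mem_sdiff, not_or, not_and]
      exact ⟨fun hh => absurd hh hkB, hkJ⟩)
    have h2 := h d (fun i hi => by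
      have hiB := hR hi
      rw [← lk_sum hJ hiB h1, ← (mem_flip_code.1 hd).2 i (lk_B D hiB) (mem_B.1 hiB).2]
      refine h0 i ?_
      simp only [mem_union, mem_sdiff, not_or, not_and, not_not]
      exact ⟨fun _ => hi, fun hh => hJB i hh hiB⟩)
    refine lk_zero hd fun i hi hiB => ?_
    by_cases hiJ : i ∈ J
    · exact h2 i hiJ
    · exact h1 i hi hiB hiJ

theorem lk_exch1 {D : Disp K} {i j : ℕ} (hi : i ∈ D.B) (hj : j ∈ D.Z) (hjB : j ∉ D.B) :
    D.Indep ((D.B \ {i}) ∪ {j}) ↔ D.S i j ≠ 0 := by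
  rw [lk_exch (by simpa using hi) (by simpa using hj) (by simpa using hjB)]
  simp only [mem_singleton, forall_eq, sum_singleton]
  constructor
  · intro h h0
    have := h (fun _ => 1) (by rw [D.skew, h0]; simp)
    exact one_ne_zero this
  · intro h u hu
    exact (mul_eq_zero.1 hu).resolve_right (S_ne_symm h)

theorem lk_exch2 {D : Disp K} {i i' j j' : ℕ} (hi : i ∈ D.B) (hi' : i' ∈ D.B) (hj : j ∈ D.Z)
    (hj' : j' ∈ D.Z) (hjB : j ∉ D.B) (hjB' : j' ∉ D.B) (hjj : j ≠ j') (h0 : D.S i j ≠ 0) :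
    D.Indep ((D.B \ {i, i'}) ∪ {j, j'}) ↔ D.S i j * D.S i' j' ≠ D.S i j' * D.S i' j := by
  rw [lk_exch (by simp [insert_subset_iff, hi, hi']) (by simp [insert_subset_iff, hj, hj'])
    (by simp [hjB, hjB'])]
  simp only [mem_insert, mem_singleton, forall_eq_or_imp, forall_eq, sum_pair hjj]
  rw [D.skew j i, D.skew j' i, D.skew j i', D.skew j' i']
  constructor
  · intro h e
    have := (h (fun k => if k = j then D.S i j' else - D.S i j) (by
      simp only [if_true, if_neg hjj.symm]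
      exact ⟨by ring, by linear_combination e⟩)).2
    simp only [if_neg hjj.symm, neg_eq_zero] at this
    exact h0 this
  · rintro h u ⟨e1, e2⟩
    have hd : D.S i j * D.S i' j' - D.S i j' * D.S i' j ≠ 0 := sub_ne_zero.2 h
    constructor
    · refine (mul_eq_zero.1 ?_).resolve_right hd
      linear_combination (- D.S i' j') * e1 + D.S i j' * e2
    · refine (mul_eq_zero.1 ?_).resolve_right hd
      linear_combination (D.S i' j) * e1 - D.S i j * e2

/-- the pull back of a display along a relabelling. -/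
def lkPull (E : Disp K) (Z : Finset ℕ) (ψ : ℕ → ℕ) : Disp K :=
  { Z := Z, row := fun i => E.row (ψ i), S := fun i j => E.S (ψ i) (ψ j)
    skew := fun _ _ => E.skew _ _
    bip := fun _ _ h => E.bip _ _ h }

/-- every sign pattern on the support which respects the four-cycles is a coboundary. -/
def LkRigid (L : Disp F3) : Prop :=
  ∀ σ : ℕ → ℕ → F3, (∀ i ∈ L.B, ∀ j ∈ L.Z, L.S i j ≠ 0 → σ i j * σ i j = 1) →
    (∀ i ∈ L.B, ∀ i' ∈ L.B, ∀ j ∈ L.Z, ∀ j' ∈ L.Z, L.S i j ≠ 0 → L.S i j' ≠ 0 → L.S i' j ≠ 0 →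
      L.S i' j' ≠ 0 → σ i j * σ i' j' = σ i j' * σ i' j) →
    ∃ ε : ℕ → F3, (∀ i ∈ L.Z, ε i * ε i = 1) ∧
      ∀ i ∈ L.B, ∀ j ∈ L.Z, L.S i j ≠ 0 → σ i j = ε i * ε j

theorem lk_f3_cyc {a b c d a' b' c' d' : F3} (ha : a ≠ 0) (hb : b ≠ 0) (hc : c ≠ 0) (hd : d ≠ 0)
    (ha' : a' ≠ 0) (hb' : b' ≠ 0) (hc' : c' ≠ 0) (hd' : d' ≠ 0)
    (h : a * d ≠ b * c ↔ a' * d' ≠ b' * c') :
    (a * a') * (d * d') = (b * b') * (c * c') := by
  have key : ∀ x y x' y' : F3, x ≠ 0 → y ≠ 0 → x' ≠ 0 → y' ≠ 0 → (x ≠ y ↔ x' ≠ y') →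
      x * x' = y * y' := by decide
  have := key _ _ _ _ (mul_ne_zero ha hd) (mul_ne_zero hb hc) (mul_ne_zero ha' hd')
    (mul_ne_zero hb' hc') h
  linear_combination this

theorem lk_f3_sq : ∀ a b : F3, a ≠ 0 → b ≠ 0 → (a * b) * (a * b) = 1 := by decide

theorem lk_f3_div : ∀ a b c : F3, b ≠ 0 → a * b = c → a = c * b := by decide

theorem LkRigid.minor {L D : Disp F3} (hL : L.LkRigid) {ψ : ℕ → ℕ} (hinj : Set.InjOn ψ L.Z)
    (him : L.Z.image ψ = D.Z) (hI : ∀ I ⊆ L.Z, D.Indep (I.image ψ) ↔ L.Indep I) :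
    Minor L D := by
  have hmem : ∀ i ∈ L.Z, ψ i ∈ D.Z := fun i hi => him ▸ mem_image_of_mem _ hi
  have hb : D.Base (L.B.image ψ) := by
    have h1 : L.B.image ψ ⊆ D.Z := him ▸ image_subset_image (lk_B L)
    have h2 : D.Indep (L.B.image ψ) := (hI _ (lk_B L)).2 (indep_of_rows subset_rfl)
    refine base_iff_indep.2 ⟨h1, le_antisymm (h2.lk_card h1) ?_, h2⟩
    have h3 : (L.Z.filter (fun i => ψ i ∈ D.B)).image ψ = D.B := by
      ext j
      simp only [mem_image, mem_filter]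
      constructor
      · rintro ⟨i, hi, rfl⟩; exact hi.2
      · intro hj
        have := lk_B D hj
        rw [← him, mem_image] at this
        obtain ⟨i, hi, rfl⟩ := this
        exact ⟨i, ⟨hi, hj⟩, rfl⟩
    have h4 : L.Indep (L.Z.filter (fun i => ψ i ∈ D.B)) := by
      rw [← hI _ (filter_subset _ _), h3]
      exact indep_of_rows subset_rfl
    rw [card_image_of_injOn (hinj.mono (lk_B L)), ← h3]
    exact card_image_le.trans (h4.lk_card (filter_subset _ _))
  obtain ⟨E, hE, hEB⟩ := reach_base hb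
  have hr : D.Reach E := hE.reach (union_subset (sdiff_subset.trans hb.1)
    (sdiff_subset.trans (lk_B D)))
  have hZ := hr.Z_eq
  have hrow : ∀ i ∈ L.Z, E.row (ψ i) = L.row i := by
    intro i hi
    have h1 : ψ i ∈ E.B ↔ i ∈ L.B := by
      rw [hEB, mem_image]
      exact ⟨fun ⟨k, hk, e⟩ => hinj (lk_B L hk) hi e ▸ hk, fun h => ⟨i, h, rfl⟩⟩
    rw [mem_B, mem_B, hZ, and_iff_right (hmem i hi), and_iff_right hi] at h1
    exact Bool.eq_iff_iff.2 h1
  set P := E.lkPull L.Z ψ with hP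
  have he : Emb P E ψ (fun _ => 1) :=
    ⟨hinj, fun i hi => hZ ▸ hmem i hi, fun _ _ => rfl, fun _ _ => mul_one _,
      fun i _ j _ => by simp [hP, lkPull]⟩
  have hPB : P.B = L.B := filter_congr fun i hi => by
    change E.row (ψ i) = true ↔ _
    rw [hrow i hi]
  have hPI : ∀ I ⊆ L.Z, P.Indep I ↔ L.Indep I := fun I hIZ => by
    rw [← he.lk_indep (him.trans hZ.symm) hIZ, hr.lk_indep, hI I hIZ]
  have hcol : ∀ i ∈ L.B, ∀ j, L.S i j ≠ 0 → j ∉ L.B := fun i hi j h hj =>
    h (L.bip i j ((mem_B.1 hi).2.trans (mem_B.1 hj).2.symm))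
  have h1 : ∀ i ∈ L.B, ∀ j ∈ L.Z, j ∉ L.B → (P.S i j ≠ 0 ↔ L.S i j ≠ 0) := by
    intro i hi j hj hjB
    rw [← lk_exch1 hi hj hjB, ← lk_exch1 (D := P) (hPB ▸ hi) hj (hPB ▸ hjB), hPB]
    exact hPI _ (union_subset (sdiff_subset.trans (lk_B L)) (by simpa using hj))
  obtain ⟨ε, hε, hε2⟩ := hL (fun i j => P.S i j * L.S i j)
    (fun i hi j hj h => lk_f3_sq _ _ ((h1 i hi j hj (hcol i hi j h)).2 h) h) (by
      intro i hi i' hi' j hj j' hj' a b c d
      by_cases hjj : j = j'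
      · subst hjj; ring
      have hjB := hcol i hi j a
      have hjB' := hcol i hi j' b
      have a' := (h1 i hi j hj hjB).2 a
      refine lk_f3_cyc a' ((h1 i hi j' hj' hjB').2 b) ((h1 i' hi' j hj hjB).2 c)
        ((h1 i' hi' j' hj' hjB').2 d) a b c d ?_
      rw [← lk_exch2 hi hi' hj hj' hjB hjB' hjj a, ← lk_exch2 (D := P) (hPB ▸ hi)
        (hPB ▸ hi') hj hj' (hPB ▸ hjB) (hPB ▸ hjB') hjj a', hPB]
      exact hPI _ (union_subset (sdiff_subset.trans (lk_B L))
        (by simp [insert_subset_iff, hj, hj'])))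
  have h2 : ∀ i ∈ L.B, ∀ j ∈ L.Z, j ∉ L.B → P.S i j = ε i * ε j * L.S i j := by
    intro i hi j hj hjB
    by_cases h : L.S i j = 0
    · rw [h, mul_zero]
      by_contra hh
      exact (h1 i hi j hj hjB).1 hh h
    · exact lk_f3_div _ _ _ h (hε2 i hi j hj h)
  refine ⟨E, ψ, ε, hr, hinj, he.mem, hrow, hε, fun i hi j hj => ?_⟩
  change P.S i j = _
  by_cases hij : L.row i = L.row j
  · rw [L.bip i j hij, mul_zero]
    exact E.bip _ _ (by rw [hrow i hi, hrow j hj, hij])
  · by_cases hiB : L.row i = true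
    · exact h2 i (mem_B.2 ⟨hi, hiB⟩) j hj fun hh => hij (hiB.trans (mem_B.1 hh).2.symm)
    · have hjB : L.row j = true := by
        revert hij hiB; cases L.row i <;> cases L.row j <;> simp
      rw [P.skew, L.skew, h2 j (mem_B.2 ⟨hj, hjB⟩) i hi fun hh => hiB (mem_B.1 hh).2]
      ring

end Disp

end Pool.Agent.Lib.MP_c69b6d_co.F
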