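import Pool.Agent.Lib.MP_c69b6d_co.F.C0
import Pool.Agent.Lib.MP_c69b6d_co.F.Linka

/-! Stage C: nonsingular principal parts of displays. -/

namespace Pool.Agent.Lib.MP_c69b6d_co.F

open Finset
open scoped symmDiff

namespace Disp

variable {K : Type} [Field K] {A : Disp K}

theorem ns_iff {T X : Finset ℕ} (hT : T ⊆ X) :
    A.Ns T ↔ (A.restrict X).Base ((A.restrict X).B ∆ T) := by
  have hB : ∀ i, i ∈ (A.restrict X).B ↔ i ∈ X ∧ A.row i = true := fun i => mem_B
  have e1 : (A.restrict X).B ∆ T =
      (T.filter fun i => A.row i = false) ∪ ((A.restrict X).B \ T) := by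
    ext i
    have := @hT i
    simp only [mem_symmDiff, mem_union, mem_filter, mem_sdiff, hB]
    cases A.row i <;> simp
    tauto
  have e2 : (A.restrict T).B = (A.restrict X).B ∩ T := by
    ext i
    have := @hT i
    have h2 : i ∈ (A.restrict T).B ↔ i ∈ T ∧ A.row i = true := mem_B
    simp only [mem_inter, hB, h2]
    tauto
  have e3 : Disjoint (T.filter fun i => A.row i = false) ((A.restrict X).B \ T) :=
    disjoint_left.2 fun i hi hi' => (mem_sdiff.1 hi').2 (mem_filter.1 hi).1
  have e4 := card_sdiff_add_card_inter (A.restrict X).B T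
  have e5 : (A.restrict T).Indep (T.filter fun i => A.row i = false) ↔
      (A.restrict X).Indep ((T.filter fun i => A.row i = false) ∪ ((A.restrict X).B \ T)) :=
    lk_restrict (D := A.restrict X) hT (filter_subset _ _)
  unfold Ns
  rw [base_iff_indep, base_iff_indep, e1, e2, card_union_of_disjoint e3, e5]
  refine and_congr (iff_of_true (filter_subset _ _) ?_) (and_congr_left' (by omega))
  exact union_subset ((filter_subset _ _).trans hT) (sdiff_subset.trans (lk_B _))

theorem ns_empty (A : Disp K) : A.Ns ∅ :=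
  ⟨filter_subset _ _, rfl, fun _ hc _ => funext fun i => hc.1 i (notMem_empty i)⟩

theorem Ns.card {T : Finset ℕ} (h : A.Ns T) :
    (T.filter fun i => A.row i = true).card = (T.filter fun i => A.row i = false).card :=
  h.2.1.symm

theorem ns_flip (A : Disp K) (T : Finset ℕ) : A.flip.Ns T ↔ A.Ns T := by
  have e : (T.filter fun i => A.flip.row i = false) = T \ T.filter fun i => A.row i = false := by
    ext i
    have : A.flip.row i = !A.row i := rfl
    simp only [mem_filter, mem_sdiff, this]
    cases A.row i <;> simp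
  unfold Ns
  rw [e]
  exact base_flip (D := A.restrict T) (filter_subset _ _)

theorem ca_ex_row {T : Finset ℕ} (h : A.Ns T) {x : ℕ} (hx : x ∈ T) (hr : A.row x = true) :
    ∃ y ∈ T, A.S x y ≠ 0 := by
  by_contra hn
  have hn' : ∀ y ∈ T, A.S x y = 0 := fun y hy => by
    by_contra h0
    exact hn ⟨y, hy, h0⟩
  have h1 := h.2.2 _ (row_word (D := A.restrict T) hx hr) fun i hi => by
    obtain ⟨hi1, hi2⟩ := mem_filter.1 hi
    have hix : i ≠ x := by
      rintro rfl
      rw [hr] at hi2
      cases hi2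
    rw [if_neg hix, if_pos (show i ∈ (A.restrict T).Z from hi1)]
    exact hn' i hi1
  have h2 := congrFun h1 x
  rw [if_pos rfl] at h2
  exact one_ne_zero h2

theorem Ns.ex {T : Finset ℕ} (h : A.Ns T) {x : ℕ} (hx : x ∈ T) : ∃ y ∈ T, A.S x y ≠ 0 := by
  cases hr : A.row x
  · exact ca_ex_row (A := A.flip) ((ns_flip A T).2 h) hx (by
      change (!A.row x) = true
      rw [hr]
      rfl)
  · exact ca_ex_row h hx hr

theorem ns_pivot {x y : ℕ} (h : A.S x y ≠ 0) (T : Finset ℕ) :
    (A.pivot x y).Ns T ↔ A.Ns (T ∆ {x, y}) := by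
  have hx : x ∈ T ∪ {x, y} := mem_union_right _ (mem_insert_self _ _)
  have hy : y ∈ T ∪ {x, y} := mem_union_right _ (mem_insert_of_mem (mem_singleton_self _))
  have h1 : T ⊆ T ∪ {x, y} := subset_union_left
  have h2 : T ∆ {x, y} ⊆ T ∪ {x, y} := fun i hi => by
    rcases mem_symmDiff.1 hi with h | h
    · exact mem_union_left _ h.1
    · exact mem_union_right _ h.1
  generalize T ∪ {x, y} = X at hx hy h1 h2
  have e : ((A.pivot x y).restrict X).B = (A.restrict X).B ∆ {x, y} := by
    ext i
    have a1 : i ∈ ((A.pivot x y).restrict X).B ↔ i ∈ X ∧ (A.pivot x y).row i = true := mem_B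
    have a2 : i ∈ (A.restrict X).B ↔ i ∈ X ∧ A.row i = true := mem_B
    rw [a1, mem_symmDiff, a2, pivot_row h, mem_insert, mem_singleton]
    by_cases c : i = x ∨ i = y
    · have hi : i ∈ X := by
        rcases c with rfl | rfl
        exacts [hx, hy]
      rw [if_pos c]
      cases A.row i <;> simp [c, hi]
    · rw [if_neg c]
      simp [c]
  have hr : (A.restrict X).Reach ((A.restrict X).pivot x y) := ReachIn.single hx hy
  rw [ns_iff h1, ns_iff h2, e, restrict_pivot, hr.base_iff, symmDiff_assoc, symmDiff_comm T]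

theorem ns_pair (A : Disp K) (i j : ℕ) : A.Ns {i, j} ↔ A.S i j ≠ 0 := by
  refine ⟨fun h => ?_, fun h => ?_⟩
  · obtain ⟨y, hy, h0⟩ := h.ex (mem_insert_self i {j})
    rcases mem_insert.1 hy with rfl | hy'
    · exact absurd (A.bip _ _ rfl) h0
    · rwa [mem_singleton.1 hy'] at h0
  · have h1 := (ns_pivot h ∅).1 (ns_empty _)
    rwa [← bot_eq_empty, bot_symmDiff] at h1

theorem ca_quad {x y u v : ℕ} (hxy : x ≠ y) (huv : u ≠ v) (rx : A.row x = true)
    (ry : A.row y = true) (ru : A.row u = false) (rv : A.row v = false) (h : A.S x u ≠ 0) :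
    A.Ns {x, y, u, v} ↔ A.S x u * A.S y v ≠ A.S x v * A.S y u := by
  have ne : ∀ a b, A.row a = true → A.row b = false → a ≠ b := by
    rintro a b ha hb rfl
    rw [ha] at hb
    cases hb
  have hyu := ne y u ry ru
  have hxv := ne x v rx rv
  have e : ({x, y, u, v} : Finset ℕ) = {y, v} ∆ {x, u} := by
    ext i
    simp only [mem_symmDiff, mem_insert, mem_singleton]
    omega
  rw [e, ← ns_pivot h, ns_pair, pivot_S_gen h hxy.symm hyu hxv.symm huv.symm,
    A.bip y x (ry.trans rx.symm), zero_mul, zero_div, sub_zero, sub_ne_zero, Ne, eq_div_iff h,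
    mul_comm (A.S y v), mul_comm (A.S y u)]

theorem ns_quad {x y u v : ℕ} (hxy : x ≠ y) (huv : u ≠ v) (rx : A.row x = true)
    (ry : A.row y = true) (ru : A.row u = false) (rv : A.row v = false) :
    A.Ns {x, y, u, v} ↔ A.S x u * A.S y v ≠ A.S x v * A.S y u := by
  by_cases h1 : A.S x u = 0
  · by_cases h2 : A.S x v = 0
    · refine iff_of_false (fun h => ?_) (by rw [h1, h2, zero_mul, zero_mul]; exact fun h => h rfl)
      obtain ⟨z, hz, h0⟩ := h.ex (mem_insert_self x _)
      simp only [mem_insert, mem_singleton] at hz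
      rcases hz with rfl | rfl | rfl | rfl
      · exact h0 (A.bip _ _ rfl)
      · exact h0 (A.bip _ _ (rx.trans ry.symm))
      · exact h0 h1
      · exact h0 h2
    · rw [pair_comm u v, ca_quad hxy huv.symm rx ry rv ru h2]
      exact ne_comm
  · exact ca_quad hxy huv rx ry ru rv h1

theorem ns_scale (A : Disp K) {ε : ℕ → K} (hε : ∀ i, ε i * ε i = 1) (T : Finset ℕ) :
    (A.scale ε).Ns T ↔ A.Ns T :=
  base_scale (D := A.restrict T) hε _

theorem Agree.ns {E : Disp K} {T : Finset ℕ} (h : Agree A E T) : E.Ns T ↔ A.Ns T := by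
  have e : (T.filter fun i => E.row i = false) = T.filter fun i => A.row i = false :=
    filter_congr fun i hi => by rw [h.1 i hi]
  unfold Ns
  rw [e]
  exact h.same.base_iff _

end Disp

end Pool.Agent.Lib.MP_c69b6d_co.F
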