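import Pool.Agent.Lib.MP_c69b6d_co.F.CA

/-! Stage C: base systems. -/

namespace Pool.Agent.Lib.MP_c69b6d_co.F

open Finset Disp
open scoped symmDiff

namespace CB

theorem card_swap {F : Finset ℕ} {x y : ℕ} (h : x ∈ F ↔ y ∉ F) : (F ∆ {x, y}).card = F.card := by
  have key : ∀ x y : ℕ, x ∈ F → y ∉ F → (F ∆ {x, y}).card = F.card := fun x y hx hy => by
    have e : F ∆ {x, y} = insert y (F.erase x) := by
      ext i
      simp only [mem_symmDiff, mem_insert, mem_singleton, mem_erase]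
      by_cases a : i = x
      · subst a
        have : i ≠ y := fun e => hy (e ▸ hx)
        tauto
      · by_cases b : i = y
        · subst b; tauto
        · tauto
    rw [e, card_insert_of_notMem (fun h => hy (mem_of_mem_erase h)), card_erase_add_one hx]
  by_cases hx : x ∈ F
  · exact key x y hx (h.1 hx)
  · rw [pair_comm]
    exact key y x (by by_contra hy; exact hx (h.2 hy)) hx

theorem pair_sub {T : Finset ℕ} {x y : ℕ} (hx : x ∈ T) (hy : y ∈ T) : T ∆ {x, y} ⊂ T := by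
  refine ⟨fun i hi => ?_, fun h => ?_⟩
  · simp only [mem_symmDiff, mem_insert, mem_singleton] at hi
    rcases hi with h | ⟨rfl | rfl, -⟩
    exacts [h.1, hx, hy]
  · have := h hx
    simp only [mem_symmDiff, mem_insert, mem_singleton] at this
    tauto

theorem sd_cancel (B T : Finset ℕ) : B ∆ (B ∆ T) = T := symmDiff_symmDiff_cancel_left B T

theorem sd_cancel' (B T : Finset ℕ) : (B ∆ T) ∆ T = B := symmDiff_symmDiff_cancel_right T B

theorem compl_sd {Z B T : Finset ℕ} (hB : B ⊆ Z) (hT : T ⊆ Z) : Z \ ((Z \ B) ∆ T) = B ∆ T := by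
  ext i
  have h1 := @hB i
  have h2 := @hT i
  simp only [mem_symmDiff, mem_sdiff]
  tauto

theorem compl_sub {Z B T : Finset ℕ} (hT : T ⊆ Z) : (Z \ B) ∆ T ⊆ Z := fun i hi => by
  rcases mem_symmDiff.1 hi with h | h
  exacts [(mem_sdiff.1 h.1).1, hT h.1]

end CB

namespace BS

open CB

variable {M : BS} {B X : Finset ℕ} {A : Disp F3}

theorem card_eq {F G : Finset ℕ} (hF : M.β F) (hG : M.β G) : F.card = G.card := by
  induction hn : (F ∆ G).card using Nat.strong_induction_on generalizing F with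
  | _ n ih =>
    rcases (F ∆ G).eq_empty_or_nonempty with h | ⟨x, hx⟩
    · rw [symmDiff_eq_bot.1 h]
    · obtain ⟨y, hy, h1, h2⟩ := M.ex F G hF hG x hx
      rw [← card_swap h1]
      refine ih _ ?_ h2 rfl
      rw [symmDiff_right_comm, ← hn]
      exact card_lt_card (pair_sub hx hy)

theorem adj_symm {i j : ℕ} (h : M.adj B i j) : M.adj B j i :=
  ⟨by have := h.1; tauto, by rw [pair_comm]; exact h.2⟩

theorem adj.mem {i j : ℕ} (hB : M.β B) (h : M.adj B i j) : i ∈ M.Z ∧ j ∈ M.Z := by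
  have key : ∀ k ∈ ({i, j} : Finset ℕ), k ∈ M.Z := fun k hk => by
    by_cases hkB : k ∈ B
    · exact M.sub B hB hkB
    · exact M.sub _ h.2 (mem_symmDiff.2 (Or.inr ⟨hk, hkB⟩))
  exact ⟨key i (by simp), key j (by simp)⟩

theorem adj.ne {i j : ℕ} (h : M.adj B i j) : i ≠ j := by
  rintro rfl
  have := h.1
  tauto

/-- the exchange property in terms of `adj`. -/
theorem ex_adj {T : Finset ℕ} (hB : M.β B) (hT : M.β (B ∆ T)) {x : ℕ} (hx : x ∈ T) :
    ∃ y ∈ T, M.adj B x y := by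
  obtain ⟨y, hy, h⟩ := M.ex B _ hB hT x (by rwa [sd_cancel])
  rw [sd_cancel] at hy
  exact ⟨y, hy, h⟩

theorem card_sides {T : Finset ℕ} (hB : M.β B) (hT : M.β (B ∆ T)) :
    (T.filter fun i => i ∈ B).card = (T.filter fun i => i ∉ B).card := by
  have h := card_eq hB hT
  have e1 : (T.filter fun i => i ∈ B) = B ∩ T := by
    ext i; simp only [mem_filter, mem_inter]; tauto
  have e2 : (T.filter fun i => i ∉ B) = T \ B := by
    ext i; simp only [mem_filter, mem_sdiff]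
  have e3 : (B ∆ T).card = (B \ T).card + (T \ B).card := by
    rw [symmDiff_def, sup_eq_union, card_union_of_disjoint disjoint_sdiff_sdiff]
  have e4 := card_sdiff_add_card_inter B T
  rw [e1, e2]
  omega

/-- a quadruple with a missing edge. -/
theorem quad {a b u v : ℕ} (hB : M.β B) (hab : a ≠ b) (huv : u ≠ v) (ha : a ∈ B) (hb : b ∈ B)
    (hu : u ∉ B) (hv : v ∉ B) (h : ¬ M.adj B a u) :
    M.β (B ∆ {a, b, u, v}) ↔ M.adj B a v ∧ M.adj B b u := by
  have au : a ≠ u := fun e => hu (e ▸ ha)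
  have av : a ≠ v := fun e => hv (e ▸ ha)
  have bu : b ≠ u := fun e => hu (e ▸ hb)
  have bv : b ≠ v := fun e => hv (e ▸ hb)
  constructor
  · intro hq
    constructor
    · obtain ⟨y, hy, h1⟩ := ex_adj hB hq (x := a) (by simp)
      simp only [mem_insert, mem_singleton] at hy
      rcases hy with rfl | rfl | rfl | rfl
      · exact absurd rfl h1.ne
      · exact absurd hb (h1.1.1 ha)
      · exact absurd h1 h
      · exact h1
    · obtain ⟨y, hy, h1⟩ := ex_adj hB hq (x := u) (by simp)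
      simp only [mem_insert, mem_singleton] at hy
      rcases hy with rfl | rfl | rfl | rfl
      · exact absurd (adj_symm h1) h
      · exact adj_symm h1
      · exact absurd rfl h1.ne
      · exact absurd (h1.1.2 hv) hu
  · rintro ⟨h1, h2⟩
    have e : (B ∆ {a, v}) ∆ (B ∆ {b, u}) = {a, b, u, v} := by
      ext i
      simp only [mem_symmDiff, mem_insert, mem_singleton]
      grind
    obtain ⟨y, hy, h3, h4⟩ := M.ex _ _ h1.2 h2.2 u (by rw [e]; simp)
    rw [e] at hy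
    simp only [mem_symmDiff, mem_insert, mem_singleton] at hy h3
    rcases hy with rfl | rfl | rfl | rfl
    · exfalso; grind
    · have e2 : (B ∆ {a, v}) ∆ {u, y} = B ∆ {a, y, u, v} := by
        ext i
        simp only [mem_symmDiff, mem_insert, mem_singleton]
        grind
      rwa [e2] at h4
    · exfalso; grind
    · have e2 : (B ∆ {a, y}) ∆ {u, y} = B ∆ {a, u} := by
        ext i
        simp only [mem_symmDiff, mem_insert, mem_singleton]
        grind
      rw [e2] at h4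
      exact absurd ⟨by tauto, h4⟩ h

theorem Rp.mono {Y : Finset ℕ} (h : M.Rp B X A) (hY : Y ⊆ X) : M.Rp B Y A :=
  ⟨fun i hi => h.row i (hY hi), fun T hT => h.ns T (hT.trans hY)⟩

theorem Rp.agree {E : Disp F3} (h : M.Rp B X A) (ha : Agree A E X) : M.Rp B X E :=
  ⟨fun i hi => by rw [ha.1 i hi]; exact h.row i hi, fun T hT =>
    (Agree.ns ⟨fun i hi => ha.1 i (hT hi), fun i hi j hj => ha.2 i (hT hi) j (hT hj)⟩).trans
      (h.ns T hT)⟩

theorem Rp.scale (h : M.Rp B X A) {ε : ℕ → F3} (hε : ∀ i, ε i * ε i = 1) :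
    M.Rp B X (A.scale ε) :=
  ⟨h.row, fun T hT => (ns_scale A hε T).trans (h.ns T hT)⟩

theorem Rp.adj_iff (h : M.Rp B X A) {i j : ℕ} (hi : i ∈ X) (hj : j ∈ X) :
    A.S i j ≠ 0 ↔ M.adj B i j := by
  have e := (ns_pair A i j).symm.trans (h.ns {i, j} (by
    intro k hk
    rcases mem_insert.1 hk with rfl | hk
    · exact hi
    · rw [mem_singleton.1 hk]; exact hj))
  refine ⟨fun hS => ⟨?_, e.1 hS⟩, fun ha => e.2 ha.2⟩
  have := row_ne_of_S hS
  rw [← h.row i hi, ← h.row j hj]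
  revert this
  cases A.row i <;> cases A.row j <;> simp

theorem Rp.quad (h : M.Rp B X A) {x y u v : ℕ} (hx : x ∈ X) (hy : y ∈ X) (hu : u ∈ X)
    (hv : v ∈ X) (hxy : x ≠ y) (huv : u ≠ v) (bx : x ∈ B) (by' : y ∈ B) (bu : u ∉ B)
    (bv : v ∉ B) : M.β (B ∆ {x, y, u, v}) ↔ A.S x u * A.S y v ≠ A.S x v * A.S y u := by
  refine (h.ns _ ?_).symm.trans (ns_quad hxy huv ((h.row x hx).2 bx) ((h.row y hy).2 by')
    (Bool.eq_false_iff.2 fun e => bu ((h.row u hu).1 e))
    (Bool.eq_false_iff.2 fun e => bv ((h.row v hv).1 e)))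
  intro k hk
  simp only [mem_insert, mem_singleton] at hk
  rcases hk with rfl | rfl | rfl | rfl <;> assumption

theorem Rp.pivot (h : M.Rp B X A) {x y : ℕ} (hx : x ∈ X) (hy : y ∈ X) (hS : A.S x y ≠ 0) :
    M.Rp (B ∆ {x, y}) X (A.pivot x y) := by
  refine ⟨fun i hi => ?_, fun T hT => ?_⟩
  · have := h.row i hi
    rw [pivot_row hS]
    simp only [mem_symmDiff, mem_insert, mem_singleton]
    by_cases c : i = x ∨ i = y
    · rw [if_pos c, ← this]; cases A.row i <;> simp [c]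
    · rw [if_neg c, this]; tauto
  · rw [ns_pivot hS, h.ns, symmDiff_assoc, symmDiff_comm T]
    intro i hi
    simp only [mem_symmDiff, mem_insert, mem_singleton] at hi
    rcases hi with h | ⟨rfl | rfl, -⟩
    exacts [hT h.1, hx, hy]

theorem Rp.flip (hB : B ⊆ M.Z) (hX : X ⊆ M.Z) (h : M.Rp B X A) :
    M.dual.Rp (M.Z \ B) X A.flip := by
  refine ⟨fun i hi => ?_, fun T hT => ?_⟩
  · have := h.row i hi
    have hZ := hX hi
    simp only [Disp.flip, mem_sdiff, ← this]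
    cases A.row i <;> simp [hZ]
  · rw [ns_flip, h.ns T hT]
    show _ ↔ (M.Z \ B) ∆ T ⊆ M.Z ∧ M.β (M.Z \ ((M.Z \ B) ∆ T))
    rw [compl_sd hB (hT.trans hX)]
    exact ⟨fun h => ⟨compl_sub (hT.trans hX), h⟩, fun h => h.2⟩

theorem dual_dual (M : BS) : M.dual.dual = M := by
  have e : M.dual.dual.β = M.β := by
    funext F
    refine propext ⟨fun h => ?_, fun h => ?_⟩
    · have h1 : F ⊆ M.Z := h.1
      have h2 : M.β (M.Z \ (M.Z \ F)) := h.2.2
      rwa [Finset.sdiff_sdiff_eq_self h1] at h2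
    · have h1 := M.sub F h
      refine ⟨h1, sdiff_subset, ?_⟩
      show M.β (M.Z \ (M.Z \ F))
      rwa [Finset.sdiff_sdiff_eq_self h1]
  have k : ∀ N : BS, N.Z = M.Z → N.β = M.β → N = M := by
    intro N h1 h2
    cases N; cases M
    simp only at h1 h2
    subst h1 h2
    rfl
  exact k _ rfl e

theorem dual_base (hB : M.β B) : M.dual.β (M.Z \ B) := by
  refine ⟨sdiff_subset, ?_⟩
  rwa [Finset.sdiff_sdiff_eq_self (M.sub B hB)]

theorem adj_dual (hB : M.β B) (i j : ℕ) : M.dual.adj (M.Z \ B) i j ↔ M.adj B i j := by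
  have key : i ∈ M.Z → j ∈ M.Z → (M.dual.adj (M.Z \ B) i j ↔ M.adj B i j) := fun hi hj => by
    have hT : ({i, j} : Finset ℕ) ⊆ M.Z := by
      intro k hk
      rcases mem_insert.1 hk with rfl | hk
      · exact hi
      · rw [mem_singleton.1 hk]; exact hj
    show (i ∈ M.Z \ B ↔ j ∉ M.Z \ B) ∧ ((M.Z \ B) ∆ {i, j} ⊆ M.Z ∧
      M.β (M.Z \ ((M.Z \ B) ∆ {i, j}))) ↔ (i ∈ B ↔ j ∉ B) ∧ M.β (B ∆ {i, j})
    rw [compl_sd (M.sub B hB) hT]
    have := compl_sub (B := B) hT
    simp only [mem_sdiff]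
    tauto
  refine ⟨fun h => ?_, fun h => ?_⟩
  · have := h.mem (dual_base hB)
    exact (key this.1 this.2).1 h
  · have := h.mem hB
    exact (key this.1 this.2).2 h

theorem Min.dual (h : M.Min) : M.dual.Min := by
  intro B hB X hX
  obtain ⟨A, hA⟩ := h _ hB.2 X hX
  have := Rp.flip (M := M) sdiff_subset hX.1 hA
  rw [Finset.sdiff_sdiff_eq_self hB.1] at this
  exact ⟨_, this⟩

theorem Tern.dual (h : M.Tern) : M.dual.Tern := by
  obtain ⟨B, A, hB, hA⟩ := h
  exact ⟨_, _, dual_base hB, hA.flip (M.sub B hB) Subset.rfl⟩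

/-- a property which forces the right supports and survives pivots forces a representation. -/
theorem of_inv (P : Finset ℕ → Disp F3 → Prop)
    (h1 : ∀ B A, P B A → M.β B ∧ (∀ i ∈ M.Z, (A.row i = true ↔ i ∈ B)) ∧
      ∀ i ∈ M.Z, ∀ j ∈ M.Z, (A.S i j ≠ 0 ↔ M.adj B i j))
    (h2 : ∀ B A x y, P B A → x ∈ M.Z → y ∈ M.Z → A.S x y ≠ 0 → P (B ∆ {x, y}) (A.pivot x y))
    (h : P B A) : M.Rp B M.Z A := by
  refine ⟨(h1 B A h).2.1, fun T hT => ?_⟩
  induction hn : T.card using Nat.strong_induction_on generalizing B A T with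
  | _ n ih =>
    by_cases c : ∃ x ∈ T, ∃ y ∈ T, A.S x y ≠ 0
    · obtain ⟨x, hx, y, hy, hS⟩ := c
      have hs := pair_sub hx hy
      have := ih _ (hn ▸ card_lt_card hs) (h2 B A x y h (hT hx) (hT hy) hS) (T ∆ {x, y})
        (hs.1.trans hT) rfl
      rwa [ns_pivot hS, sd_cancel', symmDiff_comm T, ← symmDiff_assoc, sd_cancel'] at this
    · rcases T.eq_empty_or_nonempty with rfl | ⟨x, hx⟩
      · have e : B ∆ (∅ : Finset ℕ) = B := symmDiff_bot B
        rw [e]
        exact ⟨fun _ => (h1 B A h).1, fun _ => ns_empty A⟩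
      · refine ⟨fun hN => ?_, fun hN => ?_⟩
        · obtain ⟨y, hy, hS⟩ := hN.ex hx
          exact absurd ⟨x, hx, y, hy, hS⟩ c
        · obtain ⟨y, hy, ha⟩ := ex_adj (h1 B A h).1 hN hx
          exact absurd ⟨x, hx, y, hy, ((h1 B A h).2.2 x (hT hx) y (hT hy)).2 ha⟩ c

/-- two displays which agree on `X ∩ Y` can be glued, with prescribed other entries zero. -/
theorem glue {K : Type} [Field K] {D E : Disp K} {X Y : Finset ℕ} (h : Agree D E (X ∩ Y)) :
    ∃ G : Disp K, Agree D G X ∧ Agree E G Y ∧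
      ∀ i j, ¬ (i ∈ X ∧ j ∈ X) → ¬ (i ∈ Y ∧ j ∈ Y) → G.S i j = 0 := by
  have hr : ∀ i ∈ Y, (if i ∈ X then D.row i else E.row i) = E.row i := fun i hi => by
    split_ifs with hX
    · exact (h.1 i (mem_inter.2 ⟨hX, hi⟩)).symm
    · rfl
  refine ⟨⟨D.Z, fun i => if i ∈ X then D.row i else E.row i,
    fun i j => if i ∈ X ∧ j ∈ X then D.S i j else if i ∈ Y ∧ j ∈ Y then E.S i j else 0,
    fun i j => ?_, fun i j hij => ?_⟩, ⟨fun i hi => if_pos hi, fun i hi j hj => if_pos ⟨hi, hj⟩⟩,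
    ⟨hr, fun i hi j hj => ?_⟩, fun i j h1 h2 => ?_⟩
  · simp only [and_comm (a := j ∈ X), and_comm (a := j ∈ Y)]
    split_ifs
    · exact D.skew i j
    · exact E.skew i j
    · exact neg_zero.symm
  · split_ifs with c1 c2
    · simp only [c1.1, c1.2, if_true] at hij
      exact D.bip i j hij
    · rw [hr i c2.1, hr j c2.2] at hij
      exact E.bip i j hij
    · rfl
  · show (if i ∈ X ∧ j ∈ X then D.S i j else if i ∈ Y ∧ j ∈ Y then E.S i j else 0) = _
    by_cases c1 : i ∈ X ∧ j ∈ X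
    · rw [if_pos c1]
      exact (h.2 i (mem_inter.2 ⟨c1.1, hi⟩) j (mem_inter.2 ⟨c1.2, hj⟩)).symm
    · rw [if_neg c1, if_pos ⟨hi, hj⟩]
  · show (if i ∈ X ∧ j ∈ X then D.S i j else if i ∈ Y ∧ j ∈ Y then E.S i j else 0) = _
    rw [if_neg h1, if_neg h2]

end BS

namespace CB

open BS

variable {M : BS} {B X Y : Finset ℕ} {A : Disp F3}

/-- no edge across survives an exchange inside `X`. -/
theorem nadj_step (hd : Disjoint X Y) (hB : M.β B) (hn : ∀ i ∈ X, ∀ j ∈ Y, ¬ M.adj B i j)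
    {x y : ℕ} (hx : x ∈ X) (hy : y ∈ X) : ∀ i ∈ X, ∀ j ∈ Y, ¬ M.adj (B ∆ {x, y}) i j := by
  intro p hp q hq ha
  have h2 := ha.2
  rw [symmDiff_assoc] at h2
  have k : ∀ i ∈ X, i ≠ q := fun i hi e => disjoint_left.1 hd hi (e ▸ hq)
  obtain ⟨z, hz, h3⟩ := ex_adj hB h2 (x := q) (by
    have := k x hx
    have := k y hy
    simp only [mem_symmDiff, mem_insert, mem_singleton]
    grind)
  have := h3.ne
  refine hn z ?_ q hq (adj_symm h3)
  simp only [mem_symmDiff, mem_insert, mem_singleton] at hz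
  grind

theorem base_step (hd : Disjoint X Y) (hB : M.β B) (hn : ∀ i ∈ X, ∀ j ∈ Y, ¬ M.adj B i j)
    {x y : ℕ} (hx : x ∈ X) (hy : y ∈ X) (ha : M.β (B ∆ {x, y})) {T : Finset ℕ} (hT : T ⊆ Y)
    (h : M.β (B ∆ T)) : M.β ((B ∆ {x, y}) ∆ T) := by
  have e : (B ∆ T) ∆ (B ∆ {x, y}) = T ∆ {x, y} := by
    rw [symmDiff_symmDiff_symmDiff_comm, symmDiff_self, bot_symmDiff]
  have k : ∀ i ∈ X, i ∉ T := fun i hi e => disjoint_left.1 hd hi (hT e)
  have kx := k x hx
  obtain ⟨z, hz, h1, h2⟩ := M.ex _ _ h ha x (by rw [e]; simp [mem_symmDiff, kx])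
  rw [e] at hz
  have zx : x ≠ z := by rintro rfl; tauto
  by_cases c : z = y
  · rw [symmDiff_right_comm, ← c]; exact h2
  · exfalso
    have zT : z ∈ T := by
      simp only [mem_symmDiff, mem_insert, mem_singleton] at hz
      grind
    rw [symmDiff_assoc] at h2
    obtain ⟨w, hw, h3⟩ := ex_adj hB h2 (x := x) (by simp [mem_symmDiff, kx])
    have := h3.ne
    refine hn x hx w (hT ?_) h3
    simp only [mem_symmDiff, mem_insert, mem_singleton] at hw
    grind

/-- the invariant of a direct sum. -/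
structure Sum (M : BS) (X Y B : Finset ℕ) (A : Disp F3) : Prop where
  base : M.β B
  rx : M.Rp B X A
  ry : M.Rp B Y A
  zero : ∀ i ∈ X, ∀ j ∈ Y, A.S i j = 0
  nadj : ∀ i ∈ X, ∀ j ∈ Y, ¬ M.adj B i j

theorem Sum.symm (h : Sum M X Y B A) : Sum M Y X B A :=
  ⟨h.base, h.ry, h.rx, fun i hi j hj => by rw [A.skew, h.zero j hj i hi, neg_zero],
    fun i hi j hj a => h.nadj j hj i hi (adj_symm a)⟩

theorem Sum.pivot (hd : Disjoint X Y) (h : Sum M X Y B A) {x y : ℕ} (hx : x ∈ X) (hy : y ∈ X)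
    (hS : A.S x y ≠ 0) : Sum M X Y (B ∆ {x, y}) (A.pivot x y) := by
  have ha := ((h.rx.adj_iff hx hy).1 hS).2
  have hn := nadj_step hd h.base h.nadj hx hy
  have k : ∀ j ∈ Y, j ≠ x ∧ j ≠ y := fun j hj =>
    ⟨fun e => disjoint_left.1 hd hx (e ▸ hj), fun e => disjoint_left.1 hd hy (e ▸ hj)⟩
  have r : M.Rp (B ∆ {x, y}) Y A := by
    refine ⟨fun i hi => ?_, fun T hT => (h.ry.ns T hT).trans ⟨base_step hd h.base h.nadj hx hy ha hT,
      fun h2 => ?_⟩⟩
    · have := k i hi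
      rw [h.ry.row i hi]
      simp only [mem_symmDiff, mem_insert, mem_singleton]
      tauto
    · have := base_step hd ha hn hx hy (by rw [sd_cancel']; exact h.base) hT h2
      rwa [sd_cancel'] at this
  refine ⟨ha, h.rx.pivot hx hy hS, r.agree ⟨fun i hi => ?_, fun i hi j hj => ?_⟩,
    fun i hi j hj => ?_, hn⟩
  · rw [pivot_row hS, if_neg (not_or.2 (k i hi))]
  · rw [pivot_S_gen hS (k i hi).1 (k i hi).2 (k j hj).1 (k j hj).2, h.zero x hx j hj,
      h.zero y hy j hj]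
    simp
  · rw [pivot_S hS]
    simp [pS, (k j hj).1, (k j hj).2, h.zero x hx j hj, h.zero y hy j hj, h.zero i hi j hj]

end CB

namespace BS

open CB

variable {M : BS} {B X : Finset ℕ} {A : Disp F3}

/-- the fundamental graphs of a minimal non-ternary system are connected. -/
theorem cut (hm : M.Min) (hT : ¬ M.Tern) (hB : M.β B) (hX : X ⊆ M.Z) (h1 : X.Nonempty)
    (h2 : (M.Z \ X).Nonempty) : ∃ x ∈ X, ∃ y ∈ M.Z \ X, M.adj B x y := by
  by_contra hc
  obtain ⟨x0, hx0⟩ := h1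
  obtain ⟨y0, hy0⟩ := h2
  obtain ⟨D, hD⟩ := hm B hB X ⟨hX, fun h => (mem_sdiff.1 hy0).2 (h (mem_sdiff.1 hy0).1)⟩
  obtain ⟨E, hE⟩ := hm B hB (M.Z \ X) ⟨sdiff_subset, fun h => (mem_sdiff.1 (h (hX hx0))).2 hx0⟩
  have hd : Disjoint X (M.Z \ X) := disjoint_sdiff
  obtain ⟨G, g1, g2, g3⟩ := glue (D := D) (E := E) (X := X) (Y := M.Z \ X)
    ⟨fun i hi => absurd (mem_inter.1 hi).2 (disjoint_left.1 hd (mem_inter.1 hi).1),
      fun i hi => absurd (mem_inter.1 hi).2 (disjoint_left.1 hd (mem_inter.1 hi).1)⟩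
  have side : ∀ i ∈ M.Z, i ∈ X ∨ i ∈ M.Z \ X := fun i hi => by
    rw [mem_sdiff]; tauto
  refine hT ⟨B, G, hB, of_inv (fun B A => CB.Sum M X (M.Z \ X) B A) (fun B A h => ⟨h.base,
    fun i hi => ?_, fun i hi j hj => ?_⟩) (fun B A x y h hx hy hS => ?_)
    ⟨hB, hD.agree g1, hE.agree g2, fun i hi j hj => g3 i j
      (fun a => (mem_sdiff.1 hj).2 a.2) (fun a => (mem_sdiff.1 a.1).2 hi),
      fun i hi j hj a => hc ⟨i, hi, j, hj, a⟩⟩⟩
  · rcases side i hi with a | a
    exacts [h.rx.row i a, h.ry.row i a]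
  · rcases side i hi with a | a <;> rcases side j hj with b | b
    · exact h.rx.adj_iff a b
    · exact ⟨fun c => absurd (h.zero i a j b) c, fun c => absurd c (h.nadj i a j b)⟩
    · exact ⟨fun c => absurd (h.symm.zero i a j b) c, fun c => absurd c (h.symm.nadj i a j b)⟩
    · exact h.ry.adj_iff a b
  · rcases side x hx with a | a <;> rcases side y hy with b | b
    · exact h.pivot hd a b hS
    · exact absurd (h.zero x a y b) hS
    · exact absurd (h.symm.zero x a y b) hS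
    · exact (h.symm.pivot hd.symm a b hS).symm

/-- a contraction pair is a deletion pair of the dual. -/
theorem cpair (hB : M.β B) {x y : ℕ} (hxy : x ≠ y) (hx : x ∈ B) (hy : y ∈ B)
    (h : Cn (M.adj B) ((M.Z.erase x).erase y)) : M.dual.DPair := by
  have e : M.dual.adj (M.Z \ B) = M.adj B := by
    funext i j
    exact propext (adj_dual hB i j)
  refine ⟨M.Z \ B, x, y, dual_base hB, hxy, M.sub B hB hx, M.sub B hB hy,
    fun a => (mem_sdiff.1 a).2 hx, fun a => (mem_sdiff.1 a).2 hy, ?_⟩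
  rw [e]
  exact h

end BS

end Pool.Agent.Lib.MP_c69b6d_co.F
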