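import Pool.Agent.Lib.MP_c69b6d_co.F.CB

/-! Stage C: graphs and unique representability. -/

namespace Pool.Agent.Lib.MP_c69b6d_co.F

open Finset Disp
open scoped symmDiff

variable {R R' : ℕ → ℕ → Prop} {U V : Finset ℕ}

theorem Con.refl (R : ℕ → ℕ → Prop) (U : Finset ℕ) (i : ℕ) : Con R U i i :=
  Relation.ReflTransGen.refl

theorem Con.trans {i j k : ℕ} (h : Con R U i j) (h' : Con R U j k) : Con R U i k :=
  Relation.ReflTransGen.trans h h'

theorem Con.single {i j : ℕ} (hi : i ∈ U) (hj : j ∈ U) (h : R i j) : Con R U i j :=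
  Relation.ReflTransGen.single ⟨hi, hj, h⟩

theorem Con.symm (hR : ∀ i j, R i j → R j i) {i j : ℕ} (h : Con R U i j) : Con R U j i := by
  unfold Con at h
  induction h with
  | refl => exact Con.refl R U _
  | tail _ h2 ih => exact (Con.single h2.2.1 h2.1 (hR _ _ h2.2.2)).trans ih

theorem Con.mono (hU : U ⊆ V) (hR : ∀ i ∈ U, ∀ j ∈ U, R i j → R' i j) {i j : ℕ}
    (h : Con R U i j) : Con R' V i j := by
  unfold Con at h
  induction h with
  | refl => exact Con.refl R' V _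
  | tail _ h2 ih =>
    exact ih.trans (Con.single (hU h2.1) (hU h2.2.1) (hR _ h2.1 _ h2.2.1 h2.2.2))

theorem Cn.congr (hR : ∀ i ∈ U, ∀ j ∈ U, R i j → R' i j) (h : Cn R U) : Cn R' U :=
  fun i hi j hj => (h i hi j hj).mono Subset.rfl hR

theorem cn_of_root (hR : ∀ i j, R i j → R j i) (r : ℕ) (h : ∀ i ∈ U, Con R U r i) : Cn R U :=
  fun i hi j hj => ((h i hi).symm hR).trans (h j hj)

namespace CC

/-- a walk of length `n` inside `U`. -/
def Wk (R : ℕ → ℕ → Prop) (U : Finset ℕ) (w : ℕ → ℕ) (n : ℕ) : Prop :=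
  (∀ k ≤ n, w k ∈ U) ∧ ∀ k < n, R (w k) (w (k + 1))

theorem wk_of_con {i j : ℕ} (hi : i ∈ U) (h : Con R U i j) :
    ∃ w n, Wk R U w n ∧ w 0 = i ∧ w n = j := by
  unfold Con at h
  induction h with
  | refl => exact ⟨fun _ => i, 0, ⟨fun _ _ => hi, fun k hk => absurd hk (by omega)⟩, rfl, rfl⟩
  | @tail b c _ h2 ih =>
    obtain ⟨w, n, hw, h0, hn⟩ := ih
    refine ⟨fun m => if m ≤ n then w m else c, n + 1, ⟨fun k _ => ?_, fun k hk => ?_⟩, ?_, ?_⟩
    · by_cases e : k ≤ n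
      · simp only [if_pos e]; exact hw.1 k e
      · simp only [if_neg e]; exact h2.2.1
    · have e : k ≤ n := by omega
      by_cases e' : k + 1 ≤ n
      · simp only [if_pos e, if_pos e']; exact hw.2 k (by omega)
      · have e2 : k = n := by omega
        simp only [if_pos e, if_neg e']
        rw [e2, hn]; exact h2.2.2
    · simp only [if_pos (Nat.zero_le n)]; exact h0
    · simp only [if_neg (show ¬ n + 1 ≤ n by omega)]

theorem cut_walk {w : ℕ → ℕ} {n k d : ℕ} (hw : Wk R U w n) (hk : k + d ≤ n)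
    (h1 : k + d < n → R (w k) (w (k + d + 1))) (h2 : k + d = n → w k = w n) :
    ∃ w', Wk R U w' (n - d) ∧ w' 0 = w 0 ∧ w' (n - d) = w n := by
  refine ⟨fun m => if m ≤ k then w m else w (m + d), ⟨fun m hm => ?_, fun m hm => ?_⟩, ?_, ?_⟩
  · by_cases e : m ≤ k
    · simp only [if_pos e]; exact hw.1 m (by omega)
    · simp only [if_neg e]; exact hw.1 _ (by omega)
  · by_cases e : m ≤ k
    · by_cases e' : m + 1 ≤ k
      · simp only [if_pos e, if_pos e']; exact hw.2 m (by omega)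
      · have e2 : m = k := by omega
        simp only [if_pos e, if_neg e']
        rw [e2, show k + 1 + d = k + d + 1 by omega]
        exact h1 (by omega)
    · have e' : ¬ m + 1 ≤ k := by omega
      simp only [if_neg e, if_neg e']
      rw [show m + 1 + d = m + d + 1 by omega]
      exact hw.2 _ (by omega)
  · simp only [if_pos (Nat.zero_le k)]
  · by_cases e : n - d ≤ k
    · simp only [if_pos e]
      rw [show n - d = k by omega]
      exact h2 (by omega)
    · simp only [if_neg e]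
      rw [show n - d + d = n by omega]

theorem shortcut {w : ℕ → ℕ} {n : ℕ} (hw : Wk R U w n) :
    IP R U w n ∨ ∃ w' n', n' < n ∧ Wk R U w' n' ∧ w' 0 = w 0 ∧ w' n' = w n := by
  by_cases h1 : ∀ k l, k + 1 < l → l ≤ n → ¬ R (w k) (w l)
  · by_cases h2 : ∀ k l, k < l → l ≤ n → w k ≠ w l
    · exact Or.inl ⟨hw.1, hw.2, h1, h2⟩
    · right
      simp only [not_forall, not_not] at h2
      obtain ⟨k, l, hkl, hl, e⟩ := h2
      obtain ⟨d, rfl⟩ : ∃ d, l = k + d := ⟨l - k, by omega⟩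
      obtain ⟨w', h⟩ := cut_walk (k := k) (d := d) hw hl
        (fun h => by rw [e]; exact hw.2 _ h) (fun h => by rw [e, h])
      exact ⟨w', n - d, by omega, h⟩
  · right
    simp only [not_forall, not_not] at h1
    obtain ⟨k, l, hkl, hl, e⟩ := h1
    obtain ⟨d, rfl⟩ : ∃ d, l = k + d + 1 := ⟨l - k - 1, by omega⟩
    obtain ⟨w', h⟩ := cut_walk (k := k) (d := d) hw (by omega) (fun _ => e)
      (fun h => absurd h (by omega))
    exact ⟨w', n - d, by omega, h⟩

theorem ip_of_wk (n : ℕ) : ∀ w, Wk R U w n → ∃ w' n', IP R U w' n' ∧ w' 0 = w 0 ∧ w' n' = w n := by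
  induction n using Nat.strong_induction_on with
  | _ n ih =>
    intro w hw
    rcases shortcut hw with h | ⟨w', n', hn, h, h0, h1⟩
    · exact ⟨w, n, h, rfl, rfl⟩
    · obtain ⟨w2, n2, a, b, c⟩ := ih n' hn w' h
      exact ⟨w2, n2, a, b.trans h0, c.trans h1⟩

end CC

theorem Con.ip {i j : ℕ} (hi : i ∈ U) (h : Con R U i j) :
    ∃ w n, IP R U w n ∧ w 0 = i ∧ w n = j := by
  obtain ⟨w, n, hw, h0, hn⟩ := CC.wk_of_con hi h
  obtain ⟨w', n', a, b, c⟩ := CC.ip_of_wk n w hw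
  exact ⟨w', n', a, b.trans h0, c.trans hn⟩

/-- a segment of a walk connects its ends. -/
theorem con_seg {w : ℕ → ℕ} {k l : ℕ} (hkl : k ≤ l) (hm : ∀ m, k ≤ m → m ≤ l → w m ∈ U)
    (ha : ∀ m, k ≤ m → m < l → R (w m) (w (m + 1))) : Con R U (w k) (w l) := by
  induction l, hkl using Nat.le_induction with
  | base => exact Con.refl R U _
  | succ l hl ih =>
    exact (ih (fun m a b => hm m a (by omega)) (fun m a b => ha m a (by omega))).trans
      (Con.single (hm l hl (by omega)) (hm (l + 1) (by omega) le_rfl) (ha l hl (by omega)))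

theorem IP.rev (hR : ∀ i j, R i j → R j i) {w : ℕ → ℕ} {n : ℕ} (h : IP R U w n) :
    IP R U (fun k => w (n - k)) n := by
  refine ⟨fun k _ => h.mem _ (by omega), fun k hk => ?_, fun k l a b c => ?_, fun k l a b => ?_⟩
  · have := h.adj (n - (k + 1)) (by omega)
    rw [show n - (k + 1) + 1 = n - k by omega] at this
    exact hR _ _ this
  · exact h.nadj (n - l) (n - k) (by omega) (by omega) (hR _ _ c)
  · exact (h.inj (n - l) (n - k) (by omega) (by omega)).symm

theorem cn_iff_cut :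
    Cn R U ↔ ∀ X ⊆ U, X.Nonempty → (U \ X).Nonempty → ∃ x ∈ X, ∃ y ∈ U \ X, R x y := by
  classical
  refine ⟨fun h X hX ⟨a, ha⟩ ⟨b, hb⟩ => ?_, fun h i hi j hj => ?_⟩
  · by_contra hn
    have key : ∀ j, Con R U a j → j ∈ X := fun j hj => by
      unfold Con at hj
      induction hj with
      | refl => exact ha
      | tail _ h2 ih =>
        by_contra hc
        exact hn ⟨_, ih, _, mem_sdiff.2 ⟨h2.2.1, hc⟩, h2.2.2⟩
    exact (mem_sdiff.1 hb).2 (key b (h a (hX ha) b (mem_sdiff.1 hb).1))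
  · by_contra hn
    obtain ⟨x, hx, y, hy, hxy⟩ := h (U.filter fun k => Con R U i k) (filter_subset _ _)
      ⟨i, mem_filter.2 ⟨hi, Con.refl R U i⟩⟩
      ⟨j, mem_sdiff.2 ⟨hj, fun hc => hn (mem_filter.1 hc).2⟩⟩
    obtain ⟨hx1, hx2⟩ := mem_filter.1 hx
    obtain ⟨hy1, hy2⟩ := mem_sdiff.1 hy
    exact hy2 (mem_filter.2 ⟨hy1, hx2.trans (Con.single hx1 hy1 hxy)⟩)

theorem nz_symm {K : Type} [Field K] (A : Disp K) (i j : ℕ) (h : A.nz i j) : A.nz j i :=
  S_ne_symm h

namespace CC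

theorem zero_blk {K : Type} [Field K] {P : Disp K} {x y a b : ℕ} (h : P.S x y ≠ 0) (hx : b ≠ x)
    (hy : b ≠ y) (h1 : P.S a b = 0) (h2 : P.S x b = 0) (h3 : P.S y b = 0) :
    (P.pivot x y).S a b = 0 := by
  rw [pivot_S h]
  unfold pS
  simp only [if_neg hx, if_neg hy, h1, h2, h3, zero_div, mul_zero, sub_zero, ite_self]

theorem zero_symm {K : Type} [Field K] {P : Disp K} {a b : ℕ} (h : P.S a b = 0) : P.S b a = 0 := by
  rw [P.skew, h, neg_zero]

end CC

theorem Cn.pivot {K : Type} [Field K] {A : Disp K} (h : Cn A.nz U) {x y : ℕ} (hx : x ∈ U)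
    (hy : y ∈ U) : Cn (A.pivot x y).nz U := by
  by_cases h0 : A.S x y = 0
  · rwa [pivot_of_zero h0]
  have hP := pivot_S_ne h0
  have hA := pivot_pivot A x y
  generalize A.pivot x y = P at hP hA
  subst hA
  rw [cn_iff_cut] at h ⊢
  intro X hX h1 h2
  by_contra hn
  have hz : ∀ a ∈ X, ∀ b ∈ U, b ∉ X → P.S a b = 0 := fun a ha b hb hb' => by
    by_contra hc
    exact hn ⟨a, ha, b, mem_sdiff.2 ⟨hb, hb'⟩, hc⟩
  obtain ⟨a, ha, b, hb, hab⟩ := h X hX h1 h2
  obtain ⟨hb1, hb2⟩ := mem_sdiff.1 hb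
  apply hab
  by_cases cx : x ∈ X
  · have cy : y ∈ X := by
      by_contra hc
      exact hP (hz x cx y hy hc)
    exact CC.zero_blk hP (fun e => hb2 (e ▸ cx)) (fun e => hb2 (e ▸ cy)) (hz a ha b hb1 hb2)
      (hz x cx b hb1 hb2) (hz y cy b hb1 hb2)
  · have cy : y ∉ X := fun hc => hP (CC.zero_symm (hz y hc x hx cx))
    exact CC.zero_symm (CC.zero_blk hP (fun e => cx (e ▸ ha)) (fun e => cy (e ▸ ha))
      (CC.zero_symm (hz a ha b hb1 hb2)) (CC.zero_symm (hz a ha x hx cx))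
      (CC.zero_symm (hz a ha y hy cy)))

namespace CC

/-- the same nonsingular principal parts inside `X`. -/
def Eqv (A A' : Disp F3) (X : Finset ℕ) : Prop :=
  (∀ i ∈ X, A'.row i = A.row i) ∧ ∀ T ⊆ X, (A'.Ns T ↔ A.Ns T)

variable {A A' : Disp F3} {X : Finset ℕ}

theorem Eqv.mono {Y : Finset ℕ} (h : Eqv A A' X) (hY : Y ⊆ X) : Eqv A A' Y :=
  ⟨fun i hi => h.1 i (hY hi), fun T hT => h.2 T (hT.trans hY)⟩

theorem Eqv.nz (h : Eqv A A' X) {i j : ℕ} (hi : i ∈ X) (hj : j ∈ X) :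
    A'.S i j ≠ 0 ↔ A.S i j ≠ 0 := by
  rw [← ns_pair, ← ns_pair]
  refine h.2 _ fun k hk => ?_
  rcases mem_insert.1 hk with rfl | hk
  · exact hi
  · rw [mem_singleton.1 hk]; exact hj

theorem Eqv.zero (h : Eqv A A' X) {i j : ℕ} (hi : i ∈ X) (hj : j ∈ X) (h0 : A.S i j = 0) :
    A'.S i j = 0 := by
  by_contra hc
  exact (h.nz hi hj).1 hc h0

theorem Eqv.scale (h : Eqv A A' X) {ε : ℕ → F3} (hε : ∀ i, ε i * ε i = 1) :
    Eqv (A.scale ε) A' X :=
  ⟨h.1, fun T hT => (h.2 T hT).trans (ns_scale A hε T).symm⟩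

theorem Eqv.pivot (h : Eqv A A' X) {x y : ℕ} (hx : x ∈ X) (hy : y ∈ X) (hS : A.S x y ≠ 0) :
    Eqv (A.pivot x y) (A'.pivot x y) X := by
  have hS' := (h.nz hx hy).2 hS
  refine ⟨fun i hi => by rw [pivot_row hS, pivot_row hS', h.1 i hi], fun T hT => ?_⟩
  rw [ns_pivot hS, ns_pivot hS']
  refine h.2 _ fun i hi => ?_
  rcases mem_symmDiff.1 hi with h | h
  · exact hT h.1
  · rcases mem_insert.1 h.1 with rfl | hk
    · exact hx
    · rw [mem_singleton.1 hk]; exact hy

theorem ns_quad' {x y u v : ℕ} (hxy : x ≠ y) (huv : u ≠ v) (r1 : A.row y = A.row x)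
    (r2 : A.row u ≠ A.row x) (r3 : A.row v ≠ A.row x) :
    A.Ns {x, y, u, v} ↔ A.S x u * A.S y v ≠ A.S x v * A.S y u := by
  cases hr : A.row x
  · rw [hr] at r1 r2 r3
    rw [← ns_flip]
    refine ns_quad (A := A.flip) hxy huv ?_ ?_ ?_ ?_
    · change (!A.row x) = true
      rw [hr]; rfl
    · change (!A.row y) = true
      rw [r1]; rfl
    · change (!A.row u) = false
      revert r2; cases A.row u <;> simp
    · change (!A.row v) = false
      revert r3; cases A.row v <;> simp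
  · rw [hr] at r1 r2 r3
    exact ns_quad hxy huv hr r1 (by revert r2; cases A.row u <;> simp)
      (by revert r3; cases A.row v <;> simp)

theorem Eqv.quad (h : Eqv A A' X) {x y u v : ℕ} (hx : x ∈ X) (hy : y ∈ X) (hu : u ∈ X)
    (hv : v ∈ X) (hxy : x ≠ y) (huv : u ≠ v) (r1 : A.row y = A.row x)
    (r2 : A.row u ≠ A.row x) (r3 : A.row v ≠ A.row x) :
    A'.S x u * A'.S y v ≠ A'.S x v * A'.S y u ↔ A.S x u * A.S y v ≠ A.S x v * A.S y u := by
  rw [← ns_quad' hxy huv r1 r2 r3, ← ns_quad' hxy huv (by rw [h.1 x hx, h.1 y hy]; exact r1)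
    (by rw [h.1 x hx, h.1 u hu]; exact r2) (by rw [h.1 x hx, h.1 v hv]; exact r3)]
  refine h.2 _ fun k hk => ?_
  simp only [mem_insert, mem_singleton] at hk
  rcases hk with rfl | rfl | rfl | rfl
  exacts [hx, hy, hu, hv]

theorem agree_pivot (h : Agree A A' X) {x y : ℕ} (hx : x ∈ X) (hy : y ∈ X) (hS : A.S x y ≠ 0) :
    Agree (A.pivot x y) (A'.pivot x y) X := by
  have hS' : A'.S x y ≠ 0 := by rw [h.2 x hx y hy]; exact hS
  refine ⟨fun i hi => by rw [pivot_row hS, pivot_row hS', h.1 i hi], fun i hi j hj => ?_⟩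
  rw [pivot_S hS, pivot_S hS']
  unfold pS
  rw [h.2 x hx y hy, h.2 y hy x hx, h.2 y hy j hj, h.2 x hx j hj, h.2 y hy i hi, h.2 x hx i hi,
    h.2 i hi j hj, h.2 i hi y hy, h.2 i hi x hx]

theorem f3c : ∀ p : F3, p ≠ 0 → p = 1 ∨ p = -1 := by decide

theorem f3a (p q r s r' s' : F3) (hp : p ≠ 0) (hq : q ≠ 0) (hr : r ≠ 0) (hs : s ≠ 0)
    (hr' : r' ≠ 0) (hs' : s' ≠ 0) (h : p * s' ≠ r' * q ↔ p * s ≠ r * q) : r * r' = s * s' := by
  revert h
  rcases f3c p hp with rfl | rfl <;> rcases f3c q hq with rfl | rfl <;>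
    rcases f3c r hr with rfl | rfl <;> rcases f3c s hs with rfl | rfl <;>
    rcases f3c r' hr' with rfl | rfl <;> rcases f3c s' hs' with rfl | rfl <;> decide

theorem f3b : ∀ p : F3, p ≠ 0 → p * p = 1 := by decide

theorem keep {K : Type} [Field K] {D : Disp K} {x y i j : ℕ} (h : D.S x y ≠ 0) (hix : i ≠ x)
    (hiy : i ≠ y) (hjx : j ≠ x) (hjy : j ≠ y) (h1 : D.S x j = 0) (h2 : D.S y j = 0) :
    (D.pivot x y).S i j = D.S i j := by
  rw [pivot_S_gen h hix hiy hjx hjy, h1, h2, mul_zero, mul_zero, zero_div, zero_div, sub_zero,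
    sub_zero]

theorem pl {z : ℕ} (hz : z ∉ X) (n : ℕ) : ∀ (A A' : Disp F3) (w : ℕ → ℕ),
    Eqv A A' (insert z X) → Agree A A' X → Wk A.nz X w n → A.S (w 0) z ≠ 0 → A.S (w n) z ≠ 0 →
    A.S (w 0) z * A'.S (w 0) z = A.S (w n) z * A'.S (w n) z := by
  induction n using Nat.strong_induction_on with
  | _ n ih =>
    intro A A' w he ha hw h0 hn
    rcases shortcut hw with h | ⟨w', n', hlt, h, e0, e1⟩
    swap
    · have := ih n' hlt A A' w' he ha h (by rwa [e0]) (by rwa [e1])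
      rwa [e0, e1] at this
    have mz : z ∈ insert z X := mem_insert_self z X
    have mw : ∀ k ≤ n, w k ∈ insert z X := fun k hk => mem_insert_of_mem (h.mem k hk)
    have nzw : ∀ k ≤ n, z ≠ w k := fun k hk e => hz (e ▸ h.mem k hk)
    have zr : ∀ k l, k + 1 < l → l ≤ n → A.S (w k) (w l) = 0 := fun k l a b => by
      by_contra hc
      exact h.nadj k l a b hc
    have bo : ∀ a b c : Bool, a ≠ b → a ≠ c → b = c := by decide
    rcases Nat.eq_zero_or_pos n with rfl | hpos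
    · rfl
    have a01 : A.S (w 0) (w 1) ≠ 0 := h.adj 0 hpos
    have r01 := row_ne_of_S a01
    have r0z := row_ne_of_S h0
    have z1 : A.S (w 1) z = 0 := A.bip _ _ (bo _ _ _ r01 r0z)
    have hn2 : 2 ≤ n := by
      by_contra hc
      have e : n = 1 := by omega
      rw [e] at hn
      exact hn z1
    have a12 : A.S (w 1) (w 2) ≠ 0 := h.adj 1 (by omega)
    have r12 := row_ne_of_S a12
    by_cases z2 : A.S (w 2) z = 0
    · have hn3 : 3 ≤ n := by
        by_contra hc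
        have e : n = 2 := by omega
        rw [e] at hn
        exact hn z2
      have m1 := h.mem 1 (by omega)
      have m2 := h.mem 2 hn2
      have a12' : A'.S (w 1) (w 2) ≠ 0 := by rw [ha.2 _ m1 _ m2]; exact a12
      have k1 : ∀ i, i ≠ w 1 → i ≠ w 2 → (A.pivot (w 1) (w 2)).S i z = A.S i z := fun i a b =>
        keep a12 a b (nzw 1 (by omega)) (nzw 2 hn2) z1 z2
      have k2 : ∀ i, i ≠ w 1 → i ≠ w 2 → (A'.pivot (w 1) (w 2)).S i z = A'.S i z := fun i a b =>
        keep a12' a b (nzw 1 (by omega)) (nzw 2 hn2) (he.zero (mw 1 (by omega)) mz z1)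
          (he.zero (mw 2 hn2) mz z2)
      have n01 := h.inj 0 1 (by omega) (by omega)
      have n02 := h.inj 0 2 (by omega) hn2
      have nk1 : ∀ k, 3 ≤ k → k ≤ n → w k ≠ w 1 := fun k a b => (h.inj 1 k (by omega) b).symm
      have nk2 : ∀ k, 3 ≤ k → k ≤ n → w k ≠ w 2 := fun k a b => (h.inj 2 k (by omega) b).symm
      have hwk : Wk (A.pivot (w 1) (w 2)).nz X (fun m => if m = 0 then w 0 else w (m + 2))
          (n - 2) := by
        refine ⟨fun k hk => ?_, fun k hk => ?_⟩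
        · by_cases e : k = 0
          · simp only [if_pos e]; exact h.mem 0 (by omega)
          · simp only [if_neg e]; exact h.mem _ (by omega)
        · simp only [if_neg (Nat.succ_ne_zero k)]
          by_cases e : k = 0
          · subst e
            simp only [if_true]
            change (A.pivot (w 1) (w 2)).S (w 0) (w 3) ≠ 0
            have a23 : A.S (w 2) (w 3) ≠ 0 := h.adj 2 (by omega)
            rw [pivot_S_gen a12 n01 n02 (nk1 3 le_rfl hn3) (nk2 3 le_rfl hn3),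
              zr 0 3 (by omega) hn3, zr 0 2 (by omega) hn2, zero_mul, zero_div, sub_zero, zero_sub]
            exact neg_ne_zero.2 (div_ne_zero (mul_ne_zero a01 a23) (S_ne_symm a12))
          · simp only [if_neg e]
            change (A.pivot (w 1) (w 2)).S (w (k + 2)) (w (k + 2 + 1)) ≠ 0
            rw [keep a12 (nk1 _ (by omega) (by omega)) (nk2 _ (by omega) (by omega))
              (nk1 _ (by omega) (by omega)) (nk2 _ (by omega) (by omega))
              (zr 1 _ (by omega) (by omega)) (zr 2 _ (by omega) (by omega))]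
            exact h.adj _ (by omega)
      have := ih (n - 2) (by omega) _ _ _ (he.pivot (mw 1 (by omega)) (mw 2 hn2) a12)
        (agree_pivot ha m1 m2 a12) hwk
      simp only [if_true, if_neg (show n - 2 ≠ 0 by omega)] at this
      rw [show n - 2 + 2 = n by omega, k1 _ n01 n02, k2 _ n01 n02,
        k1 _ (nk1 n hn3 le_rfl) (nk2 n hn3 le_rfl), k2 _ (nk1 n hn3 le_rfl) (nk2 n hn3 le_rfl)]
        at this
      exact this h0 hn
    · have q := he.quad (mw 0 (by omega)) (mw 2 hn2) (mw 1 (by omega)) mz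
        (h.inj 0 2 (by omega) hn2) (nzw 1 (by omega)).symm (bo _ _ _ r12 r01.symm) r01.symm
        r0z.symm
      rw [ha.2 _ (h.mem 0 (by omega)) _ (h.mem 1 (by omega)),
        ha.2 _ (h.mem 2 hn2) _ (h.mem 1 (by omega))] at q
      have s1 := f3a _ _ _ _ _ _ a01 (S_ne_symm a12) h0 z2
        ((he.nz (mw 0 (by omega)) mz).2 h0) ((he.nz (mw 2 hn2) mz).2 z2) q
      have hwk : Wk A.nz X (fun m => w (m + 2)) (n - 2) :=
        ⟨fun k hk => h.mem _ (by omega), fun k hk => h.adj (k + 2) (by omega)⟩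
      have := ih (n - 2) (by omega) A A' _ he ha hwk
      simp only [zero_add] at this
      rw [show n - 2 + 2 = n by omega] at this
      exact s1.trans (this z2 hn)

theorem step {z : ℕ} (hz : z ∉ X) (he : Eqv A A' (insert z X)) (ha : Agree A A' X) :
    ∃ ε : ℕ → F3, (∀ i, ε i * ε i = 1) ∧ Agree (A.scale ε) A' (insert z X) := by
  classical
  have mz : z ∈ insert z X := mem_insert_self z X
  have PL : ∀ i ∈ X, ∀ j, Con A.nz X i j → A.S i z ≠ 0 → A.S j z ≠ 0 →
      A.S i z * A'.S i z = A.S j z * A'.S j z := fun i hi j hc h1 h2 => by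
    obtain ⟨w, n, hw, rfl, rfl⟩ := wk_of_con hi hc
    exact pl hz n A A' w he ha hw h1 h2
  have hex : ∀ i, ∃ e : F3, e * e = 1 ∧ (∀ j ∈ X, Con A.nz X i j → A.S j z ≠ 0 → i ∈ X →
      e = A.S j z * A'.S j z) ∧
      ((¬ ∃ j ∈ X, Con A.nz X i j ∧ A.S j z ≠ 0 ∧ i ∈ X) → e = 1) := fun i => by
    by_cases hc : ∃ j ∈ X, Con A.nz X i j ∧ A.S j z ≠ 0 ∧ i ∈ X
    · obtain ⟨j, hj, c1, c2, c3⟩ := hc
      refine ⟨A.S j z * A'.S j z,
        f3b _ (mul_ne_zero c2 ((he.nz (mem_insert_of_mem hj) mz).2 c2)),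
        fun k _ d1 d2 _ => PL j hj k ((c1.symm (nz_symm A)).trans d1) c2 d2,
        fun hn => absurd ⟨j, hj, c1, c2, c3⟩ hn⟩
    · exact ⟨1, one_mul 1, fun j hj c1 c2 c3 => absurd ⟨j, hj, c1, c2, c3⟩ hc, fun _ => rfl⟩
  choose ε e1 e2 e3 using hex
  have ez : ε z = 1 := e3 z fun ⟨_, _, _, _, h⟩ => hz h
  have hiz : ∀ i ∈ X, A'.S i z = ε i * ε z * A.S i z := fun i hi => by
    by_cases h0 : A.S i z = 0
    · rw [h0, mul_zero]; exact he.zero (mem_insert_of_mem hi) mz h0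
    · rw [ez, e2 i i hi (Con.refl _ _ _) h0 hi, mul_one, mul_right_comm, f3b _ h0, one_mul]
  refine ⟨ε, e1, he.1, fun i hi j hj => ?_⟩
  change A'.S i j = ε i * ε j * A.S i j
  rcases mem_insert.1 hi with rfl | hi'
  · rcases mem_insert.1 hj with rfl | hj'
    · rw [A.bip _ _ rfl, A'.bip _ _ rfl, mul_zero]
    · rw [A'.skew, hiz j hj', A.skew i j]; ring
  · rcases mem_insert.1 hj with rfl | hj'
    · exact hiz i hi'
    · rw [ha.2 i hi' j hj']
      by_cases h0 : A.S i j = 0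
      · rw [h0, mul_zero]
      · have c : Con A.nz X i j := Con.single hi' hj' h0
        have e : ε i = ε j := by
          by_cases hc : ∃ k ∈ X, Con A.nz X i k ∧ A.S k z ≠ 0 ∧ i ∈ X
          · obtain ⟨k, hk, c1, c2, -⟩ := hc
            rw [e2 i k hk c1 c2 hi', e2 j k hk ((c.symm (nz_symm A)).trans c1) c2 hj']
          · rw [e3 i hc, e3 j fun ⟨k, hk, c1, c2, _⟩ => hc ⟨k, hk, c.trans c1, c2, hi'⟩]
        rw [e, e1, one_mul]

theorem uniq (X : Finset ℕ) : ∀ A A' : Disp F3, Eqv A A' X →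
    ∃ ε : ℕ → F3, (∀ i, ε i * ε i = 1) ∧ Agree (A.scale ε) A' X := by
  induction X using Finset.induction_on with
  | empty =>
    exact fun A A' _ => ⟨fun _ => 1, fun _ => one_mul 1, fun i hi => absurd hi (notMem_empty i),
      fun i hi => absurd hi (notMem_empty i)⟩
  | insert z X hz ih =>
    intro A A' he
    obtain ⟨ε, h1, h2⟩ := ih A A' (he.mono (subset_insert z X))
    obtain ⟨δ, h3, h4⟩ := step hz (he.scale h1) h2
    refine ⟨fun i => δ i * ε i, fun i => ?_, h4.1, fun i hi j hj => ?_⟩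
    · rw [mul_mul_mul_comm, h1, h3, one_mul]
    · rw [h4.2 i hi j hj]
      change δ i * δ j * (ε i * ε j * A.S i j) = δ i * ε i * (δ j * ε j) * A.S i j
      ring

end CC

/-- ternary representations are unique up to signs. -/
theorem BS.Rp.uniq {M : BS} {B X : Finset ℕ} {A A' : Disp F3} (h : M.Rp B X A)
    (h' : M.Rp B X A') : ∃ ε : ℕ → F3, (∀ i, ε i * ε i = 1) ∧ Agree (A.scale ε) A' X :=
  CC.uniq X A A' ⟨fun i hi => Bool.eq_iff_iff.2 ((h'.row i hi).trans (h.row i hi).symm),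
    fun T hT => (h'.ns T hT).trans (h.ns T hT).symm⟩

end Pool.Agent.Lib.MP_c69b6d_co.F
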