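import Pool.Agent.Lib.MP_c69b6d_co.F.CC

/-! Stage C: the structure of a deletion pair. -/

namespace Pool.Agent.Lib.MP_c69b6d_co.F

open Finset Disp
open scoped symmDiff

namespace CE

open BS

/-- a display which is right off `u` and off `v`. -/
structure Pr (M : BS) (u v : ℕ) (B : Finset ℕ) (A : Disp F3) : Prop where
  base : M.β B
  nu : u ∉ B
  nv : v ∉ B
  ru : M.Rp B (M.Z.erase u) A
  rv : M.Rp B (M.Z.erase v) A
  cn : Cn A.nz ((M.Z.erase u).erase v)

variable {M : BS} {u v : ℕ} {B : Finset ℕ} {A : Disp F3}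

theorem subv (M : BS) (u v : ℕ) : (M.Z.erase u).erase v ⊆ M.Z.erase v :=
  erase_subset_erase _ (erase_subset _ _)

theorem Pr.pivot (h : Pr M u v B A) {x y : ℕ} (hx : x ∈ (M.Z.erase u).erase v)
    (hy : y ∈ (M.Z.erase u).erase v) (hS : A.S x y ≠ 0) :
    Pr M u v (B ∆ {x, y}) (A.pivot x y) := by
  have xu := erase_subset _ _ hx
  have yu := erase_subset _ _ hy
  have k : ∀ t, t ∉ B → x ≠ t → y ≠ t → t ∉ B ∆ {x, y} := fun t a b c => by
    simp only [mem_symmDiff, mem_insert, mem_singleton]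
    rintro (e | ⟨e | e, -⟩)
    exacts [a e.1, b e.symm, c e.symm]
  exact ⟨((h.ru.adj_iff xu yu).1 hS).2, k u h.nu (mem_erase.1 xu).1 (mem_erase.1 yu).1,
    k v h.nv (mem_erase.1 hx).1 (mem_erase.1 hy).1, h.ru.pivot xu yu hS,
    h.rv.pivot (subv M u v hx) (subv M u v hy) hS, h.cn.pivot hx hy⟩

theorem Pr.row (h : Pr M u v B A) (huv : u ≠ v) {i : ℕ} (hi : i ∈ M.Z) :
    A.row i = true ↔ i ∈ B := by
  by_cases e : i = u
  · exact h.rv.row i (mem_erase.2 ⟨e ▸ huv, hi⟩)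
  · exact h.ru.row i (mem_erase.2 ⟨e, hi⟩)

theorem exists_pr (hm : M.Min) (hB : M.β B) (hu : u ∈ M.Z) (hv : v ∈ M.Z) (nu : u ∉ B)
    (nv : v ∉ B) (hc : Cn (M.adj B) ((M.Z.erase u).erase v)) : ∃ A, Pr M u v B A := by
  obtain ⟨A1, h1⟩ := hm B hB _ (erase_ssubset hu)
  obtain ⟨A2, h2⟩ := hm B hB _ (erase_ssubset hv)
  obtain ⟨ε, hε, ag⟩ := (h1.mono (erase_subset v _)).uniq (h2.mono (subv M u v))
  obtain ⟨G, g1, g2, -⟩ := glue (X := M.Z.erase u) (Y := M.Z.erase v) (ag.mono fun i hi =>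
    mem_erase.2 ⟨(mem_erase.1 (mem_inter.1 hi).2).1, (mem_inter.1 hi).1⟩)
  have r1 := (h1.scale hε).agree g1
  exact ⟨G, hB, nu, nv, r1, h2.agree g2, hc.congr fun i hi j hj e =>
    (r1.adj_iff (erase_subset _ _ hi) (erase_subset _ _ hj)).2 e⟩

/-- without an incriminating quadruple the display is right. -/
theorem all_ns (huv : u ≠ v)
    (H : ∀ B A a b, Pr M u v B A → a ∈ B → b ∈ B → a ≠ b →
      (A.Ns {a, b, u, v} ↔ M.β (B ∆ {a, b, u, v}))) (n : ℕ) :
    ∀ T ⊆ M.Z, T.card = n → ∀ B A, Pr M u v B A → (A.Ns T ↔ M.β (B ∆ T)) := by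
  induction n using Nat.strong_induction_on with
  | _ n ih =>
  intro T hT hn B A h
  by_cases uT : u ∈ T
  swap
  · exact h.ru.ns T (subset_erase.2 ⟨hT, uT⟩)
  by_cases vT : v ∈ T
  swap
  · exact h.rv.ns T (subset_erase.2 ⟨hT, vT⟩)
  by_cases h1 : ∃ x ∈ (T.erase u).erase v, ∃ y ∈ (T.erase u).erase v, A.S x y ≠ 0
  · obtain ⟨x, hx, y, hy, hS⟩ := h1
    have s : (T.erase u).erase v ⊆ (M.Z.erase u).erase v :=
      erase_subset_erase _ (erase_subset_erase _ hT)
    have xT : x ∈ T := erase_subset _ _ (erase_subset _ _ hx)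
    have yT : y ∈ T := erase_subset _ _ (erase_subset _ _ hy)
    have lt : T ∆ {x, y} ⊂ T := by
      refine ⟨fun i hi => ?_, fun k => ?_⟩
      · rcases mem_symmDiff.1 hi with e | e
        · exact e.1
        · rcases mem_insert.1 e.1 with rfl | e'
          · exact xT
          · rw [mem_singleton.1 e']; exact yT
      · simpa [mem_symmDiff, xT] using k xT
    have k := ih _ (hn ▸ card_lt_card lt) (T ∆ {x, y}) (lt.1.trans hT) rfl _ _
      (h.pivot (s hx) (s hy) hS)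
    rwa [ns_pivot hS, symmDiff_symmDiff_cancel_right, symmDiff_assoc, symmDiff_comm T,
      symmDiff_symmDiff_cancel_left] at k
  push Not at h1
  have mem : ∀ y ∈ T, y ∈ B → y ∈ (T.erase u).erase v := fun y hy e =>
    mem_erase.2 ⟨fun k => h.nv (k ▸ e), mem_erase.2 ⟨fun k => h.nu (k ▸ e), hy⟩⟩
  by_cases h2 : ∃ c ∈ (T.erase u).erase v, c ∉ B
  · obtain ⟨c, hc, cB⟩ := h2
    have cT : c ∈ T := erase_subset _ _ (erase_subset _ _ hc)
    refine iff_of_false (fun k => ?_) fun k => ?_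
    · obtain ⟨y, hy, hS⟩ := k.ex cT
      refine hS (h1 c hc y (mem y hy ?_))
      have e := row_ne_of_S hS
      have e1 := mt (h.row huv (hT cT)).1 cB
      refine (h.row huv (hT hy)).1 ?_
      revert e e1
      cases A.row c <;> cases A.row y <;> simp
    · obtain ⟨y, hy, ha⟩ := ex_adj h.base k cT
      have yB : y ∈ B := by_contra fun e => cB (ha.1.2 e)
      have s : (T.erase u).erase v ⊆ M.Z.erase u :=
        (erase_subset _ _).trans (erase_subset_erase _ hT)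
      exact (h.ru.adj_iff (s hc) (s (mem y hy yB))).2 ha (h1 c hc y (mem y hy yB))
  push Not at h2
  have e1 : (T.filter fun i => i ∉ B) = {u, v} := by
    ext i
    rw [mem_filter, mem_insert, mem_singleton]
    refine ⟨fun k => by_contra fun e => k.2 (h2 i (mem_erase.2 ⟨fun e' => e (Or.inr e'),
      mem_erase.2 ⟨fun e' => e (Or.inl e'), k.1⟩⟩)), ?_⟩
    rintro (rfl | rfl)
    exacts [⟨uT, h.nu⟩, ⟨vT, h.nv⟩]
  by_cases h3 : (T.filter fun i => i ∈ B).card = 2
  · obtain ⟨a, b, hab, e⟩ := card_eq_two.1 h3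
    have e2 : T = {a, b, u, v} := by
      rw [← filter_union_filter_not_eq (fun i => i ∈ B) T, e, e1]
      ext i
      simp only [mem_union, mem_insert, mem_singleton, or_assoc]
    rw [e2]
    exact H B A a b h (mem_filter.1 (e ▸ mem_insert_self a {b})).2
      (mem_filter.1 (e ▸ mem_insert_of_mem (mem_singleton_self b))).2 hab
  · refine iff_of_false (fun k => h3 ?_) fun k => h3 ?_
    · have k1 := k.card
      rw [filter_congr fun i hi => h.row huv (hT hi),
        filter_congr (p := fun i => A.row i = false) (q := fun i => i ∉ B) fun i hi => by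
          rw [← h.row huv (hT hi), Bool.not_eq_true], e1, card_pair huv] at k1
      exact k1
    · rw [card_sides h.base k, e1, card_pair huv]

theorem nz4 {a b : ℕ} (hB : M.β B) (hab : a ≠ b) (huv : u ≠ v) (ha : a ∈ B) (hb : b ∈ B)
    (hu : u ∉ B) (hv : v ∉ B) (h1 : A.S a u ≠ 0 ↔ M.adj B a u) (h2 : A.S a v ≠ 0 ↔ M.adj B a v)
    (h3 : A.S b u ≠ 0 ↔ M.adj B b u)
    (inc : M.β (B ∆ {a, b, u, v}) ↔ A.S a u * A.S b v = A.S a v * A.S b u) : A.S a u ≠ 0 := by
  intro h0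
  rw [quad hB hab huv ha hb hu hv fun k => h1.2 k h0, ← h2, ← h3, h0, zero_mul, eq_comm (a := 0),
    mul_eq_zero] at inc
  tauto

end CE

namespace BS

variable {M : BS}

theorem pth_of_pair (hm : M.Min) (hT : ¬ M.Tern) (h : M.DPair) :
    ∃ B A u v w n, M.Pth B A u v w n := by
  obtain ⟨B0, u, v, hB0, huv, hu, hv, nu0, nv0, hc⟩ := h
  obtain ⟨A0, h0⟩ := CE.exists_pr hm hB0 hu hv nu0 nv0 hc
  obtain ⟨B, A, a, b, h, ha, hb, hab, bad⟩ : ∃ B A a b, CE.Pr M u v B A ∧ a ∈ B ∧ b ∈ B ∧ a ≠ b ∧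
      ¬ (A.Ns {a, b, u, v} ↔ M.β (B ∆ {a, b, u, v})) := by
    by_contra k
    refine hT ⟨B0, A0, hB0, fun i hi => h0.row huv hi, fun T hT =>
      CE.all_ns huv (fun B A a b h1 h2 h3 h4 => ?_) _ T hT rfl B0 A0 h0⟩
    exact by_contra fun e => k ⟨B, A, a, b, h1, h2, h3, h4, e⟩
  have mB : ∀ i ∈ B, i ∈ (M.Z.erase u).erase v := fun i e =>
    mem_erase.2 ⟨fun k => h.nv (k ▸ e), mem_erase.2 ⟨fun k => h.nu (k ▸ e), M.sub B h.base e⟩⟩
  have uv : u ∈ M.Z.erase v := mem_erase.2 ⟨huv, hu⟩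
  have vu : v ∈ M.Z.erase u := mem_erase.2 ⟨huv.symm, hv⟩
  have inc : M.β (B ∆ {a, b, u, v}) ↔ A.S a u * A.S b v = A.S a v * A.S b u := by
    rw [ns_quad hab huv ((h.row huv (M.sub B h.base ha)).2 ha)
      ((h.row huv (M.sub B h.base hb)).2 hb) (Bool.eq_false_iff.2 (mt (h.row huv hu).1 h.nu))
      (Bool.eq_false_iff.2 (mt (h.row huv hv).1 h.nv))] at bad
    tauto
  have au := h.rv.adj_iff (CE.subv M u v (mB a ha)) uv
  have bu := h.rv.adj_iff (CE.subv M u v (mB b hb)) uv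
  have av := h.ru.adj_iff (erase_subset _ _ (mB a ha)) vu
  have bv := h.ru.adj_iff (erase_subset _ _ (mB b hb)) vu
  have s1 : ({b, a, u, v} : Finset ℕ) = {a, b, u, v} := insert_comm _ _ _
  have s2 : ({a, b, v, u} : Finset ℕ) = {a, b, u, v} := by rw [pair_comm v u]
  have s3 : ({b, a, v, u} : Finset ℕ) = {a, b, u, v} := by rw [pair_comm v u, s1]
  have n1 := CE.nz4 h.base hab huv ha hb h.nu h.nv au av bu inc
  have n2 := CE.nz4 h.base hab huv.symm ha hb h.nv h.nu av au bv (by rw [s2, inc, eq_comm])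
  have n3 := CE.nz4 h.base hab.symm huv hb ha h.nu h.nv bu bv au
    (by rw [s1, inc, eq_comm, mul_comm (A.S a v), mul_comm (A.S a u)])
  have n4 := CE.nz4 h.base hab.symm huv.symm hb ha h.nv h.nu bv bu av
    (by rw [s3, inc, mul_comm (A.S a v), mul_comm (A.S a u)])
  obtain ⟨w, n, ip, rfl, rfl⟩ := Con.ip (mB a ha) (h.cn a (mB a ha) b (mB b hb))
  refine ⟨B, A, u, v, w, n, h.base, huv, hu, hv, h.nu, h.nv, h.ru, h.rv, ip, ?_, ha, hb,
    Nat.pos_of_ne_zero fun e => hab (by rw [e]), n1, n2, n3, n4, inc⟩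
  by_contra hall
  obtain ⟨X, hX⟩ : ∃ X : Finset ℕ, ∀ z, z ∈ X ↔ z = u ∨ z = v ∨ ∃ k ≤ n, w k = z :=
    ⟨insert u (insert v ((range (n + 1)).image w)), fun z => by
      simp only [mem_insert, mem_image, mem_range, Nat.lt_succ_iff]⟩
  have XZ : X ⊆ M.Z := fun z hz => by
    rcases (hX z).1 hz with rfl | rfl | ⟨k, hk, rfl⟩
    exacts [hu, hv, erase_subset _ _ (erase_subset _ _ (ip.mem k hk))]
  obtain ⟨E, hE⟩ := hm B h.base X ⟨XZ, fun k => hall fun z hz => (hX z).1 (k hz)⟩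
  obtain ⟨ε, hε, e1⟩ := (h.ru.mono (erase_subset_erase u XZ)).uniq (hE.mono (erase_subset u X))
  obtain ⟨δ, hδ, e2⟩ := (h.rv.mono (erase_subset_erase v XZ)).uniq (hE.mono (erase_subset v X))
  have wX : ∀ k ≤ n, w k ∈ X := fun k hk => (hX _).2 (Or.inr (Or.inr ⟨k, hk, rfl⟩))
  have wu : ∀ k ≤ n, w k ∈ X.erase u := fun k hk =>
    mem_erase.2 ⟨(mem_erase.1 (erase_subset _ _ (ip.mem k hk))).1, wX k hk⟩
  have wv : ∀ k ≤ n, w k ∈ X.erase v := fun k hk =>
    mem_erase.2 ⟨(mem_erase.1 (ip.mem k hk)).1, wX k hk⟩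
  have uX : u ∈ X := (hX _).2 (Or.inl rfl)
  have vX : v ∈ X := (hX _).2 (Or.inr (Or.inl rfl))
  have c : ∀ k ≤ n, ε (w k) * δ (w k) = ε (w 0) * δ (w 0) := by
    intro k
    induction k with
    | zero => exact fun _ => rfl
    | succ k ih =>
      intro hk
      have k1 : E.S _ _ = ε _ * ε _ * A.S _ _ := e1.2 _ (wu k (by omega)) _ (wu (k + 1) hk)
      have k2 : E.S _ _ = δ _ * δ _ * A.S _ _ := e2.2 _ (wv k (by omega)) _ (wv (k + 1) hk)
      have k3 := mul_right_cancel₀ (ip.adj k hk) (k1.symm.trans k2)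
      rw [← ih (by omega)]
      linear_combination (ε (w k) * δ (w (k + 1))) * k3 -
        (ε (w (k + 1)) * δ (w (k + 1))) * hε (w k) + (ε (w k) * δ (w k)) * hδ (w (k + 1))
  have q := hE.quad (wX 0 n.zero_le) (wX n le_rfl) uX vX hab huv ha hb h.nu h.nv
  have a1 : E.S _ _ = δ _ * δ _ * A.S _ _ := e2.2 _ (wv 0 n.zero_le) u (mem_erase.2 ⟨huv, uX⟩)
  have a2 : E.S _ _ = δ _ * δ _ * A.S _ _ := e2.2 _ (wv n le_rfl) u (mem_erase.2 ⟨huv, uX⟩)
  have a3 : E.S _ _ = ε _ * ε _ * A.S _ _ :=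
    e1.2 _ (wu 0 n.zero_le) v (mem_erase.2 ⟨huv.symm, vX⟩)
  have a4 : E.S _ _ = ε _ * ε _ * A.S _ _ := e1.2 _ (wu n le_rfl) v (mem_erase.2 ⟨huv.symm, vX⟩)
  have c1 : δ (w 0) * ε (w n) = ε (w 0) * δ (w n) := by
    linear_combination (δ (w 0) * δ (w n)) * c n le_rfl - (δ (w 0) * ε (w n)) * hδ (w n) +
      (ε (w 0) * δ (w n)) * hδ (w 0)
  have z : δ u * ε v * (ε (w 0) * δ (w n)) ≠ 0 :=
    mul_ne_zero (mul_ne_zero (left_ne_zero_of_mul_eq_one (hδ _)) (left_ne_zero_of_mul_eq_one (hε _)))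
      (mul_ne_zero (left_ne_zero_of_mul_eq_one (hε _)) (left_ne_zero_of_mul_eq_one (hδ _)))
  rw [inc, a1, a2, a3, a4, ← mul_right_inj' z] at q
  refine iff_not_self (q.trans (not_congr (iff_of_eq ?_)))
  congr 1
  · linear_combination (δ u * ε v * A.S (w 0) u * A.S (w n) v) * c1
  · ring

theorem Pth.side {B : Finset ℕ} {A : Disp F3} {u v n : ℕ} {w : ℕ → ℕ} (h : M.Pth B A u v w n)
    {k : ℕ} (hk : k ≤ n) : w k ∈ B ↔ k % 2 = 0 := by
  induction k with
  | zero => exact iff_of_true h.b0 rfl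
  | succ k ih =>
    have k1 := ((h.ru.adj_iff (erase_subset _ _ (h.ip.mem k (by omega)))
      (erase_subset _ _ (h.ip.mem (k + 1) hk))).1 (h.ip.adj k hk)).1
    rw [ih (by omega)] at k1
    rw [← not_iff_not, ← k1]
    omega

theorem Pth.card {B : Finset ℕ} {A : Disp F3} {u v n : ℕ} {w : ℕ → ℕ} (h : M.Pth B A u v w n) :
    M.Z.card = n + 3 ∧ 2 * B.card = n + 2 := by
  have inj : ∀ k ≤ n, ∀ l ≤ n, w k = w l → k = l := fun k hk l hl e => by
    rcases lt_trichotomy k l with c | c | c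
    exacts [absurd e (h.ip.inj k l c hl), c, absurd e.symm (h.ip.inj l k c hk)]
  have ev := (h.side le_rfl).1 h.bn
  constructor
  · have e : (M.Z.erase u).erase v = (range (n + 1)).image w := by
      ext z
      simp only [mem_image, mem_range, Nat.lt_succ_iff]
      refine ⟨fun hz => ?_, ?_⟩
      · obtain ⟨z1, z2⟩ := mem_erase.1 hz
        obtain ⟨z2, z3⟩ := mem_erase.1 z2
        exact ((h.all z z3).resolve_left z2).resolve_left z1
      · rintro ⟨k, hk, rfl⟩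
        exact h.ip.mem k hk
    have c1 := card_erase_add_one h.mu
    have c2 := card_erase_add_one (mem_erase.2 ⟨h.uv.symm, h.mv⟩)
    rw [e, card_image_of_injOn fun k hk l hl => inj k (by simpa [Nat.lt_succ_iff] using hk) l
      (by simpa [Nat.lt_succ_iff] using hl), card_range] at c2
    omega
  · have e : B = (range (n / 2 + 1)).image fun k => w (2 * k) := by
      ext z
      simp only [mem_image, mem_range]
      refine ⟨fun hz => ?_, ?_⟩
      · rcases h.all z (M.sub B h.base hz) with rfl | rfl | ⟨k, hk, rfl⟩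
        · exact absurd hz h.nu
        · exact absurd hz h.nv
        · have := (h.side hk).1 hz
          exact ⟨k / 2, by omega, by rw [show 2 * (k / 2) = k by omega]⟩
      · rintro ⟨k, hk, rfl⟩
        exact (h.side (by omega)).2 (by omega)
    rw [e, card_image_of_injOn fun k hk l hl e => by
      rw [mem_coe, mem_range] at hk hl
      have := inj (2 * k) (by omega) (2 * l) (by omega) e
      omega, card_range]
    omega

theorem not_both (hm : M.Min) (hT : ¬ M.Tern) (h : M.DPair) (h' : M.dual.DPair) : False := by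
  obtain ⟨B, A, u, v, w, n, p⟩ := pth_of_pair hm hT h
  obtain ⟨B', A', u', v', w', n', p'⟩ :=
    pth_of_pair hm.dual (fun k => hT (dual_dual M ▸ k.dual)) h'
  obtain ⟨c1, c2⟩ := p.card
  obtain ⟨c3, c4⟩ := p'.card
  have c5 := card_eq p.base p'.base.2
  have c6 := card_sdiff_add_card_eq_card p'.base.1
  change M.Z.card = _ at c3
  omega

end BS

end Pool.Agent.Lib.MP_c69b6d_co.F
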