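import Pool.Agent.Lib.MP_c69b6d_co.F.CE

/-! Stage C: the two outcomes. -/

namespace Pool.Agent.Lib.MP_c69b6d_co.F

open Finset Disp
open scoped symmDiff

namespace BS

variable {M : BS} {B : Finset ℕ} {A : Disp F3} {u v n : ℕ} {w : ℕ → ℕ}

theorem cf_set {x y i j : ℕ} (h1 : x ≠ i) (h2 : x ≠ j) (h3 : y ≠ i) (h4 : y ≠ j) (B : Finset ℕ) :
    (B ∆ {x, y}) ∆ {i, j} = B ∆ {x, i, y, j} := by
  ext k
  simp only [mem_symmDiff, mem_insert, mem_singleton]
  grind

/-- adjacency after a pivot. -/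
theorem cf_adj {x y i j : ℕ} (hx : x ∈ B) (hy : y ∉ B) (hi : i ∈ B) (hj : j ∉ B) (h1 : x ≠ i)
    (h2 : y ≠ j) (h : M.β (B ∆ {x, i, y, j})) : M.adj (B ∆ {x, y}) i j := by
  have h3 : x ≠ j := fun e => hj (e ▸ hx)
  have h4 : y ≠ i := fun e => hy (e ▸ hi)
  refine ⟨?_, by rwa [cf_set h1 h3 h4 h2]⟩
  simp only [mem_symmDiff, mem_insert, mem_singleton]
  grind

theorem cf_ex {ι : Type} [DecidableEq ι] {φ : ι → ℕ} (hφ : Function.Injective φ) {F G T S : Finset ι}
    (hF : M.β (F.image φ)) (hG : M.β (G.image φ)) (x : ι)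
    (h : x ∈ F ∆ G ∧ ∀ y ∈ F ∆ G, (x ∈ F ↔ y ∉ F) → F ∆ {x, y} = T ∨ F ∆ {x, y} = S)
    (hS : ¬ M.β (S.image φ)) : M.β (T.image φ) := by
  obtain ⟨y, hy, h1, h2⟩ := M.ex _ _ hF hG (φ x)
    (by rw [← image_symmDiff _ _ hφ]; exact mem_image_of_mem _ h.1)
  rw [← image_symmDiff _ _ hφ] at hy
  obtain ⟨z, hz, rfl⟩ := mem_image.1 hy
  rw [hφ.mem_finset_image, hφ.mem_finset_image] at h1
  have e : ({φ x, φ z} : Finset ℕ) = ({x, z} : Finset ι).image φ := by simp
  rw [e, ← image_symmDiff _ _ hφ] at h2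
  rcases h.2 z hz h1 with e | e <;> rw [e] at h2
  · exact h2
  · exact absurd h2 hS

set_option synthInstance.maxSize 4000 in
theorem cf_alg1 : ∀ a : F3, a ≠ 0 → ∀ b : F3, b ≠ 0 → ∀ c : F3, c ≠ 0 → ∀ d : F3, d ≠ 0 →
    ∀ e : F3, e ≠ 0 → ∀ f : F3, f ≠ 0 →
    (c * f = e * d ↔ (a * d ≠ c * b ↔ a * f ≠ e * b)) := by decide +kernel

set_option synthInstance.maxSize 4000 in
theorem cf_alg2 : ∀ ac : F3, ac ≠ 0 → ∀ rc : F3, rc ≠ 0 → ∀ rd : F3, rd ≠ 0 → ∀ bd : F3, bd ≠ 0 →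
    ∀ au : F3, au ≠ 0 → ∀ bu : F3, bu ≠ 0 → ∀ av : F3, av ≠ 0 → ∀ bv : F3, bv ≠ 0 →
    ∀ rv : F3, rc * av = rv * ac → rd * bv = rv * bd → au * bv ≠ av * bu →
    -(ac * rd) * bu = au * bd * rc := by decide +kernel

/-- the incidences between the rows `0, 1, 2` and the columns `3, 4, 5, 6`. -/
def cfE (i j : ZMod 7) : Prop := (i, j) ∉ ([(2, 3), (0, 4), (1, 6)] : List (ZMod 7 × ZMod 7))

instance (i j : ZMod 7) : Decidable (cfE i j) := by unfold cfE; infer_instance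

def cfN (T : Finset (ZMod 7)) : Prop := ∀ i, T ≠ {i, i + 1, i + 3}

instance (T : Finset (ZMod 7)) : Decidable (cfN T) := by unfold cfN; infer_instance

set_option synthInstance.maxSize 4000 in
theorem cf_key : ∀ T : Finset (ZMod 7), T.card = 3 →
    (cfN T ∧ (T = {0, 1, 2} ∨ T = {3, 4, 5} ∨ T = {3, 5, 6} ∨ T = {4, 5, 6})) ∨
    (¬ cfN T ∧ (T = {2, 3, 5} ∨ T = {0, 4, 5} ∨ T = {1, 5, 6} ∨ T = {3, 4, 6})) ∨
    (∃ i ∈ ([0, 1, 2] : List (ZMod 7)), ∃ j ∈ ([3, 4, 5, 6] : List (ZMod 7)),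
      {0, 1, 2} ∆ {i, j} = T ∧ (cfE i j ↔ cfN T)) ∨
    ∃ i ∈ ([0, 1, 2] : List (ZMod 7)), ∃ j ∈ ([3, 4, 5, 6] : List (ZMod 7)), ¬ cfE i j ∧
      ∃ i' ∈ ([0, 1, 2] : List (ZMod 7)), ∃ j' ∈ ([3, 4, 5, 6] : List (ZMod 7)), i ≠ i' ∧ j ≠ j' ∧
        {0, 1, 2} ∆ {i, i', j, j'} = T ∧ (cfE i j' ∧ cfE i' j ↔ cfN T) := by decide +kernel

namespace Pth

theorem swap (h : M.Pth B A u v w n) : M.Pth B A v u w n :=
  { base := h.base, uv := h.uv.symm, mu := h.mv, mv := h.mu, nu := h.nv, nv := h.nu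
    ru := h.rv, rv := h.ru
    ip := by rw [erase_right_comm]; exact h.ip
    all := fun z hz => by have := h.all z hz; tauto
    b0 := h.b0, bn := h.bn, pos := h.pos, u0 := h.v0, v0 := h.u0, un := h.vn, vn := h.un
    inc := by rw [pair_comm v u, h.inc, eq_comm] }

theorem rev (h : M.Pth B A u v w n) : M.Pth B A u v (fun k => w (n - k)) n :=
  { base := h.base, uv := h.uv, mu := h.mu, mv := h.mv, nu := h.nu, nv := h.nv
    ru := h.ru, rv := h.rv
    ip := h.ip.rev (nz_symm A)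
    all := fun z hz => by
      rcases h.all z hz with e | e | ⟨k, hk, e⟩
      · exact Or.inl e
      · exact Or.inr (Or.inl e)
      · exact Or.inr (Or.inr ⟨n - k, by omega, by rw [← e]; congr 1; omega⟩)
    b0 := h.bn
    bn := by simpa using h.b0
    pos := h.pos, u0 := h.un, v0 := h.vn
    un := by simpa using h.u0
    vn := by simpa using h.v0
    inc := by
      simp only [Nat.sub_zero, Nat.sub_self]
      rw [insert_comm, h.inc, mul_comm (A.S (w n) u), mul_comm (A.S (w n) v), eq_comm] }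

theorem mem (h : M.Pth B A u v w n) {k : ℕ} (hk : k ≤ n) : w k ∈ M.Z ∧ w k ≠ u ∧ w k ≠ v := by
  have := h.ip.mem k hk
  simp only [mem_erase] at this
  tauto

theorem ne (h : M.Pth B A u v w n) {k l : ℕ} (hk : k ≤ n) (hl : l ≤ n) (hkl : k ≠ l) :
    w k ≠ w l := by
  rcases lt_or_gt_of_ne hkl with a | a
  · exact h.ip.inj k l a hl
  · exact (h.ip.inj l k a hk).symm

theorem mU (h : M.Pth B A u v w n) {k : ℕ} (hk : k ≤ n) : w k ∈ M.Z.erase u :=
  mem_erase.2 ⟨(h.mem hk).2.1, (h.mem hk).1⟩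

theorem mV (h : M.Pth B A u v w n) {k : ℕ} (hk : k ≤ n) : w k ∈ M.Z.erase v := h.swap.mU hk

theorem vU (h : M.Pth B A u v w n) : v ∈ M.Z.erase u := mem_erase.2 ⟨h.uv.symm, h.mv⟩

theorem step (h : M.Pth B A u v w n) {k : ℕ} (hk : k < n) : M.adj B (w k) (w (k + 1)) :=
  (h.ru.adj_iff (h.mU hk.le) (h.mU hk)).1 (h.ip.adj k hk)

theorem far (h : M.Pth B A u v w n) {k l : ℕ} (hkl : k + 1 < l) (hl : l ≤ n) :
    ¬ M.adj B (w k) (w l) := fun a =>
  h.ip.nadj k l hkl hl ((h.ru.adj_iff (h.mU (by omega)) (h.mU hl)).2 a)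

theorem adjv (h : M.Pth B A u v w n) {k : ℕ} (hk : k ≤ n) :
    A.S (w k) v ≠ 0 ↔ M.adj B (w k) v := h.ru.adj_iff (h.mU hk) h.vU

theorem inB (h : M.Pth B A u v w n) {k : ℕ} (hk : k ≤ n) (e : k % 2 = 0) : w k ∈ B :=
  (h.side hk).2 e

theorem outB (h : M.Pth B A u v w n) {k : ℕ} (hk : k ≤ n) (e : k % 2 = 1) : w k ∉ B := by
  rw [h.side hk]; omega

theorem even (h : M.Pth B A u v w n) : n % 2 = 0 := (h.side le_rfl).1 h.bn

theorem p1 (h : M.Pth B A u v w n) (hu : ∃ m, 0 < m ∧ m < n ∧ M.adj B (w m) u)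
    (hv : ∃ m, 0 < m ∧ m < n ∧ M.adj B (w m) v) : M.dual.DPair := by
  have hp := h.pos
  have inn : ∀ m, 0 < m → m < n → w m ∈ (M.Z.erase (w 0)).erase (w n) := fun m h1 h2 =>
    mem_erase.2 ⟨h.ne h2.le le_rfl h2.ne, mem_erase.2 ⟨h.ne h2.le hp.le h1.ne', (h.mem h2.le).1⟩⟩
  have seg : ∀ m, 0 < m → m < n → Con (M.adj B) ((M.Z.erase (w 0)).erase (w n)) (w 1) (w m) :=
    fun m h1 h2 => con_seg h1 (fun k a b => inn k a (by omega)) fun k _ b => h.step (by omega)
  refine cpair h.base (h.ne hp.le le_rfl hp.ne) h.b0 h.bn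
    (cn_of_root (fun _ _ => adj_symm) (w 1) fun z hz => ?_)
  have hz' := hz
  simp only [mem_erase] at hz'
  rcases h.all z hz'.2.2 with rfl | rfl | ⟨k, hk, rfl⟩
  · obtain ⟨m, h1, h2, h3⟩ := hu
    exact (seg m h1 h2).trans (Con.single (inn m h1 h2) hz h3)
  · obtain ⟨m, h1, h2, h3⟩ := hv
    exact (seg m h1 h2).trans (Con.single (inn m h1 h2) hz h3)
  · refine seg k (Nat.pos_of_ne_zero ?_) (lt_of_le_of_ne hk ?_)
    · rintro rfl; exact hz'.2.1 rfl
    · rintro rfl; exact hz'.1 rfl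

theorem p2 (h : M.Pth B A u v w n) (hn : 4 ≤ n)
    (ht : ∀ t, t = u ∨ t = v → M.β (B ∆ {w 2, w 0, w 1, t}) ∨
      ∃ m, 4 ≤ m ∧ m < n ∧ M.adj B (w m) t) : M.dual.DPair := by
  have b2 : w 2 ∈ B := h.inB (by omega) rfl
  have b1 : w 1 ∉ B := h.outB (by omega) rfl
  have a21 : M.adj B (w 2) (w 1) := adj_symm (h.step (k := 1) (by omega))
  have inn : ∀ m, m ≠ 1 → m < n → w m ∈ (M.Z.erase (w 1)).erase (w n) := fun m h1 h2 =>
    mem_erase.2 ⟨h.ne h2.le le_rfl h2.ne,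
      mem_erase.2 ⟨h.ne h2.le (by omega) h1, (h.mem h2.le).1⟩⟩
  have keep : ∀ m j, 4 ≤ m → m ≤ n → j ≠ w 1 → M.adj B (w m) j → w m ∈ B →
      M.adj (B ∆ {w 2, w 1}) (w m) j := fun m j h1 h2 h3 h4 h5 => by
    have h6 : j ∉ B := h4.1.1 h5
    have h7 : w 2 ≠ w m := h.ne (by omega) h2 (by omega)
    refine cf_adj b2 b1 h5 h6 h7 h3.symm ?_
    rw [insert_comm]
    exact (quad h.base h7.symm h3.symm h5 b2 b1 h6
      fun a => h.far (k := 1) (by omega) h2 (adj_symm a)).2 ⟨h4, a21⟩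
  have a03 : M.adj (B ∆ {w 2, w 1}) (w 0) (w 3) := by
    have h6 : w 3 ∉ B := h.outB (by omega) rfl
    have h7 : w 2 ≠ w 0 := h.ne (by omega) (by omega) (by omega)
    have h8 : w 1 ≠ w 3 := h.ne (by omega) (by omega) (by omega)
    refine cf_adj b2 b1 h.b0 h6 h7 h8 ?_
    rw [insert_comm, pair_comm]
    exact (quad h.base h7.symm h8.symm h.b0 b2 h6 b1 (h.far (by omega) (by omega))).2
      ⟨h.step (by omega), h.step (by omega)⟩
  have seg : ∀ m, 3 ≤ m → m < n →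
      Con (M.adj (B ∆ {w 2, w 1})) ((M.Z.erase (w 1)).erase (w n)) (w 0) (w m) := fun m h1 h2 => by
    refine (Con.single (inn 0 (by omega) (by omega)) (inn 3 (by omega) (by omega)) a03).trans
      (con_seg h1 (fun k a b => inn k (by omega) (by omega)) fun k a b => ?_)
    rcases Nat.mod_two_eq_zero_or_one k with e | e
    · exact keep k _ (by omega) (by omega) (h.ne (by omega) (by omega) (by omega))
        (h.step (by omega)) (h.inB (by omega) e)
    · exact adj_symm (keep (k + 1) _ (by omega) (by omega) (h.ne (by omega) (by omega) (by omega))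
        (adj_symm (h.step (by omega))) (h.inB (by omega) (by omega)))
  have att : ∀ t, t = u ∨ t = v → t ∈ (M.Z.erase (w 1)).erase (w n) →
      Con (M.adj (B ∆ {w 2, w 1})) ((M.Z.erase (w 1)).erase (w n)) (w 0) t := fun t h1 hz => by
    have tB : t ∉ B := by rcases h1 with rfl | rfl; exacts [h.nu, h.nv]
    have t1 : t ≠ w 1 := (mem_erase.1 (mem_erase.1 hz).2).1
    rcases ht t h1 with a | ⟨m, m1, m2, m3⟩
    · exact Con.single (inn 0 (by omega) (by omega)) hz
        (cf_adj b2 b1 h.b0 tB (h.ne (by omega) (by omega) (by omega)) t1.symm a)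
    · exact (seg m (by omega) m2).trans (Con.single (inn m (by omega) m2) hz
        (keep m t m1 m2.le t1 m3 (m3.1.2 tB)))
  have n12 : w 1 ≠ w 2 := h.ne (by omega) (by omega) (by omega)
  have n1n : w 1 ≠ w n := h.ne (by omega) le_rfl (by omega)
  have n2n : w 2 ≠ w n := h.ne (by omega) le_rfl (by omega)
  have hbn := h.bn
  refine cpair a21.2 n1n (by simp [mem_symmDiff, b1]) (by simp [mem_symmDiff, hbn, n1n.symm, n2n.symm])
    (cn_of_root (fun _ _ => adj_symm) (w 0) fun z hz => ?_)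
  have hz' := hz
  simp only [mem_erase] at hz'
  rcases h.all z hz'.2.2 with e | e | ⟨k, hk, rfl⟩
  · exact att z (Or.inl e) hz
  · exact att z (Or.inr e) hz
  · have k1 : k ≠ 1 := by rintro rfl; exact hz'.2.1 rfl
    have kn : k ≠ n := by rintro rfl; exact hz'.1 rfl
    by_cases k0 : k = 0
    · subst k0; exact Con.refl _ _ _
    by_cases k2 : k = 2
    · subst k2
      have n02 : w 0 ≠ w 2 := h.ne (by omega) (by omega) (by omega)
      have n01 : w 0 ≠ w 1 := h.ne (by omega) (by omega) (by omega)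
      have hb0 := h.b0
      have e : (B ∆ {w 2, w 1}) ∆ {w 0, w 2} = B ∆ {w 0, w 1} := by
        ext k
        simp only [mem_symmDiff, mem_insert, mem_singleton]
        grind
      refine Con.single (inn 0 (by omega) (by omega)) hz ⟨?_, ?_⟩
      · simp [mem_symmDiff, hb0, b2, n01, n02]
      · rw [e]; exact (h.step (k := 0) (by omega)).2
    · exact seg k (by omega) (by omega)

/-- the consequences of the failure of `p2`. -/
theorem p3 (h : M.Pth B A u v w n) (hn : 4 ≤ n) (hd : ¬ M.dual.DPair)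
    (hu : ¬ M.adj B (w 2) u) : ¬ M.β (B ∆ {w 2, w 0, w 1, v}) ∧ M.adj B (w 2) v ∧
      ∀ m, 4 ≤ m → m < n → ¬ M.adj B (w m) v := by
  have key : ∀ t, t ∉ B → t ≠ w 1 → M.adj B (w 0) t → ¬ M.adj B (w 2) t →
      M.β (B ∆ {w 2, w 0, w 1, t}) := fun t h1 h2 h3 h4 => by
    rw [pair_comm]
    exact (quad h.base (h.ne (by omega) (by omega) (by omega)) h2 (h.inB (by omega) rfl) h.b0 h1
      (h.outB (by omega) rfl) h4).2 ⟨adj_symm (h.step (k := 1) (by omega)), h3⟩
  have ku := key u h.nu (h.mem (by omega)).2.1.symm ((h.swap.adjv (by omega)).1 h.u0) hu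
  have k1 : ¬ (M.β (B ∆ {w 2, w 0, w 1, v}) ∨ ∃ m, 4 ≤ m ∧ m < n ∧ M.adj B (w m) v) := fun a =>
    hd (h.p2 hn fun t ht => by
      rcases ht with rfl | rfl
      exacts [Or.inl ku, a])
  refine ⟨fun a => k1 (Or.inl a), by_contra fun a => k1 (Or.inl ?_),
    fun m m1 m2 a => k1 (Or.inr ⟨m, m1, m2, a⟩)⟩
  exact key v h.nv (h.mem (by omega)).2.2.symm ((h.adjv (by omega)).1 h.v0) a

theorem img {ι : Type} [Fintype ι] [DecidableEq ι] {φ : ι → ℕ} (h : M.Pth B A u v w n)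
    (hZ : univ.image φ = M.Z) {B0 : Finset ι} (hB : ∀ i, φ i ∈ B ↔ i ∈ B0) : B = B0.image φ := by
  ext z
  rw [mem_image]
  constructor
  · intro hz
    have := M.sub _ h.base hz
    rw [← hZ, mem_image] at this
    obtain ⟨i, -, rfl⟩ := this
    exact ⟨i, (hB i).1 hz, rfl⟩
  · rintro ⟨i, hi, rfl⟩
    exact (hB i).2 hi

theorem u25 (h : M.Pth B A u v w 2) : M.IsU25 := by
  have n01 := h.ne (k := 0) (l := 1) (by omega) (by omega) (by omega)
  have n02 := h.ne (k := 0) (l := 2) (by omega) (by omega) (by omega)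
  have n12 := h.ne (k := 1) (l := 2) (by omega) (by omega) (by omega)
  obtain ⟨z0, u0, v0⟩ := h.mem (k := 0) (by omega)
  obtain ⟨z1, u1, v1⟩ := h.mem (k := 1) (by omega)
  obtain ⟨z2, u2, v2⟩ := h.mem (k := 2) (by omega)
  have uv := h.uv
  let φ : Fin 5 → ℕ := ![w 0, w 2, w 1, u, v]
  have hφ : Function.Injective φ := by
    intro i j e
    fin_cases i <;> fin_cases j <;> first | rfl | (simp [φ] at e; grind)
  have hZ : univ.image φ = M.Z := by
    refine Subset.antisymm (image_subset_iff.2 fun i _ => ?_) fun z hz => ?_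
    · fin_cases i
      exacts [z0, z2, z1, h.mu, h.mv]
    · rcases h.all z hz with rfl | rfl | ⟨k, hk, rfl⟩
      · exact mem_image.2 ⟨3, mem_univ _, rfl⟩
      · exact mem_image.2 ⟨4, mem_univ _, rfl⟩
      · interval_cases k
        exacts [mem_image.2 ⟨0, mem_univ _, rfl⟩, mem_image.2 ⟨2, mem_univ _, rfl⟩,
          mem_image.2 ⟨1, mem_univ _, rfl⟩]
  have b1 : w 1 ∉ B := h.outB (by omega) rfl
  have hB : B = ({0, 1} : Finset (Fin 5)).image φ := h.img hZ fun i => by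
    fin_cases i <;> simp [φ, h.b0, h.bn, b1, h.nu, h.nv]
  have tr : ∀ {S T : Finset (Fin 5)}, {0, 1} ∆ S = T →
      (M.β (B ∆ S.image φ) ↔ M.β (T.image φ)) := fun e => by
    rw [hB, ← image_symmDiff _ _ hφ, e]
  have pr : ∀ {i j : Fin 5} {T : Finset (Fin 5)}, M.adj B (φ i) (φ j) → {0, 1} ∆ {i, j} = T →
      M.β (T.image φ) := fun a e => (tr e).1 (by simpa using a.2)
  have a01 := h.step (k := 0) (by omega)
  have a21 := adj_symm (h.step (k := 1) (by omega))
  have a0u := (h.swap.adjv (by omega)).1 h.u0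
  have a2u := (h.swap.adjv le_rfl).1 h.un
  have a0v := (h.adjv (by omega)).1 h.v0
  have a2v := (h.adjv le_rfl).1 h.vn
  have g01 : M.β (({0, 1} : Finset (Fin 5)).image φ) := hB ▸ h.base
  have g02 := pr (i := 1) (j := 2) (T := {0, 2}) a21 (by decide)
  have g03 := pr (i := 1) (j := 3) (T := {0, 3}) a2u (by decide)
  have g04 := pr (i := 1) (j := 4) (T := {0, 4}) a2v (by decide)
  have g12 := pr (i := 0) (j := 2) (T := {1, 2}) a01 (by decide)
  have g13 := pr (i := 0) (j := 3) (T := {1, 3}) a0u (by decide)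
  have g14 := pr (i := 0) (j := 4) (T := {1, 4}) a0v (by decide)
  have q23 := (tr (S := {0, 1, 2, 3}) (T := {2, 3}) (by decide)).symm.trans
    (by simpa [φ] using h.rv.quad (h.mV (k := 0) (by omega)) (h.mV le_rfl) (h.mV (k := 1) (by omega))
          h.swap.vU n02 u1 h.b0 h.bn b1 h.nu :
      _ ↔ A.S (w 0) (w 1) * A.S (w 2) u ≠ A.S (w 0) u * A.S (w 2) (w 1))
  have q24 := (tr (S := {0, 1, 2, 4}) (T := {2, 4}) (by decide)).symm.trans
    (by simpa [φ] using h.ru.quad (h.mU (k := 0) (by omega)) (h.mU le_rfl) (h.mU (k := 1) (by omega))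
          h.vU n02 v1 h.b0 h.bn b1 h.nv :
      _ ↔ A.S (w 0) (w 1) * A.S (w 2) v ≠ A.S (w 0) v * A.S (w 2) (w 1))
  have q34 := (tr (S := {0, 1, 3, 4}) (T := {3, 4}) (by decide)).symm.trans
    (by simpa [φ] using h.inc : _ ↔ A.S (w 0) u * A.S (w 2) v = A.S (w 0) v * A.S (w 2) u)
  have rel := cf_alg1 _ (h.ip.adj 0 (by omega)) _ (nz_symm A _ _ (h.ip.adj 1 (by omega))) _ h.u0 _ h.un
    _ h.v0 _ h.vn
  rw [← q34, ← q23, ← q24] at rel
  have g23 : M.β (({2, 3} : Finset (Fin 5)).image φ) := by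
    by_contra a
    by_cases b : M.β (({2, 4} : Finset (Fin 5)).image φ)
    · exact a (cf_ex hφ b g03 3 (by decide) fun c => a ((rel.1 c).2 b))
    · exact a (cf_ex hφ (rel.2 (iff_of_false a b)) g02 2 (by decide) b)
  have g24 : M.β (({2, 4} : Finset (Fin 5)).image φ) := by
    by_contra a
    exact a (cf_ex hφ g23 g04 4 (by decide) fun c => a ((rel.1 c).1 g23))
  have g34 := rel.2 (iff_of_true g23 g24)
  refine ⟨h.card.1, fun F => ⟨fun a => ⟨M.sub F a, ?_⟩, fun a => ?_⟩⟩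
  · have := h.card.2
    rw [card_eq a h.base]; omega
  · obtain ⟨T, -, rfl⟩ := subset_image_iff.1 (hZ ▸ a.1)
    have hc := a.2
    rw [card_image_of_injective _ hφ] at hc
    have key : ∀ T : Finset (Fin 5), T.card = 2 → T = {0, 1} ∨ T = {0, 2} ∨ T = {0, 3} ∨
        T = {0, 4} ∨ T = {1, 2} ∨ T = {1, 3} ∨ T = {1, 4} ∨ T = {2, 3} ∨ T = {2, 4} ∨
        T = {3, 4} := by decide +kernel
    rcases key T hc with e | e | e | e | e | e | e | e | e | e <;> rw [e] <;> assumption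

theorem f7 (h : M.Pth B A u v w 4) (hd : ¬ M.dual.DPair) (hu : ¬ M.adj B (w 2) u) : M.IsF7 := by
  obtain ⟨l1, a2v, -⟩ := h.p3 le_rfl hd hu
  obtain ⟨l2, -, -⟩ := h.rev.p3 le_rfl hd hu
  change ¬ M.β (B ∆ {w 2, w 4, w 3, v}) at l2
  have ne : ∀ k ≤ 4, ∀ l ≤ 4, k ≠ l → w k ≠ w l := fun k hk l hl => h.ne hk hl
  have n01 := ne 0 (by omega) 1 (by omega) (by omega)
  have n02 := ne 0 (by omega) 2 (by omega) (by omega)
  have n03 := ne 0 (by omega) 3 (by omega) (by omega)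
  have n04 := ne 0 (by omega) 4 (by omega) (by omega)
  have n12 := ne 1 (by omega) 2 (by omega) (by omega)
  have n13 := ne 1 (by omega) 3 (by omega) (by omega)
  have n14 := ne 1 (by omega) 4 (by omega) (by omega)
  have n23 := ne 2 (by omega) 3 (by omega) (by omega)
  have n24 := ne 2 (by omega) 4 (by omega) (by omega)
  have n34 := ne 3 (by omega) 4 (by omega) (by omega)
  obtain ⟨z0, u0, v0⟩ := h.mem (k := 0) (by omega)
  obtain ⟨z1, u1, v1⟩ := h.mem (k := 1) (by omega)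
  obtain ⟨z2, u2, v2⟩ := h.mem (k := 2) (by omega)
  obtain ⟨z3, u3, v3⟩ := h.mem (k := 3) (by omega)
  obtain ⟨z4, u4, v4⟩ := h.mem (k := 4) (by omega)
  have uv := h.uv
  let ψ : Fin 7 → ℕ := ![w 0, w 2, w 4, w 1, w 3, v, u]
  let φ : ZMod 7 → ℕ := ψ
  have hφ : Function.Injective φ := by
    have : Function.Injective ψ := by
      intro i j e
      fin_cases i <;> fin_cases j <;> first | rfl | (simp [ψ] at e; grind)
    exact this
  have hZ : univ.image φ = M.Z := by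
    refine Subset.antisymm (image_subset_iff.2 fun i _ => ?_) fun z hz => ?_
    · fin_cases i
      exacts [z0, z2, z4, z1, z3, h.mv, h.mu]
    · rcases h.all z hz with rfl | rfl | ⟨k, hk, rfl⟩
      · exact mem_image.2 ⟨6, mem_univ _, rfl⟩
      · exact mem_image.2 ⟨5, mem_univ _, rfl⟩
      · interval_cases k
        exacts [mem_image.2 ⟨0, mem_univ _, rfl⟩, mem_image.2 ⟨3, mem_univ _, rfl⟩,
          mem_image.2 ⟨1, mem_univ _, rfl⟩, mem_image.2 ⟨4, mem_univ _, rfl⟩,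
          mem_image.2 ⟨2, mem_univ _, rfl⟩]
  have b1 : w 1 ∉ B := h.outB (by omega) rfl
  have b2 : w 2 ∈ B := h.inB (by omega) rfl
  have b3 : w 3 ∉ B := h.outB (by omega) rfl
  have hB' : ∀ i, φ i ∈ B ↔ i ∈ ({0, 1, 2} : Finset (ZMod 7)) := fun i => by
    rcases (by decide : ∀ i : ZMod 7, i = 0 ∨ i = 1 ∨ i = 2 ∨ i = 3 ∨ i = 4 ∨ i = 5 ∨ i = 6) i with
      rfl | rfl | rfl | rfl | rfl | rfl | rfl
    exacts [iff_of_true h.b0 (by decide), iff_of_true b2 (by decide), iff_of_true h.bn (by decide),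
      iff_of_false b1 (by decide), iff_of_false b3 (by decide), iff_of_false h.nv (by decide),
      iff_of_false h.nu (by decide)]
  have hB := h.img hZ hB'
  have tr : ∀ {S T : Finset (ZMod 7)}, {0, 1, 2} ∆ S = T →
      (M.β (B ∆ S.image φ) ↔ M.β (T.image φ)) := fun e => by
    rw [hB, ← image_symmDiff _ _ hφ, e]
  have tr4 : ∀ (i i' j j' : ZMod 7) {T : Finset (ZMod 7)}, {0, 1, 2} ∆ {i, i', j, j'} = T →
      (M.β (B ∆ {φ i, φ i', φ j, φ j'}) ↔ M.β (T.image φ)) := fun i i' j j' T e => by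
    rw [← tr e]; simp only [image_insert, image_singleton]
  have a0u := (h.swap.adjv (by omega)).1 h.u0
  have a4u := (h.swap.adjv le_rfl).1 h.un
  have a0v := (h.adjv (by omega)).1 h.v0
  have a4v := (h.adjv le_rfl).1 h.vn
  have hE : ∀ i ∈ ([0, 1, 2] : List (ZMod 7)), ∀ j ∈ ([3, 4, 5, 6] : List (ZMod 7)),
      (M.adj B (φ i) (φ j) ↔ cfE i j) := by
    simp only [List.forall_mem_cons, List.not_mem_nil, false_imp_iff, implies_true, and_true]
    refine ⟨⟨iff_of_true (h.step (k := 0) (by omega)) (by decide),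
      iff_of_false (h.far (k := 0) (l := 3) (by omega) (by omega)) (by decide),
      iff_of_true a0v (by decide), iff_of_true a0u (by decide)⟩,
      ⟨iff_of_true (adj_symm (h.step (k := 1) (by omega))) (by decide),
      iff_of_true (h.step (k := 2) (by omega)) (by decide),
      iff_of_true a2v (by decide), iff_of_false hu (by decide)⟩,
      iff_of_false (fun a => h.far (k := 1) (l := 4) (by omega) le_rfl (adj_symm a)) (by decide),
      iff_of_true (adj_symm (h.step (k := 3) (by omega))) (by decide),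
      iff_of_true a4v (by decide), iff_of_true a4u (by decide)⟩
  have rowB : ∀ i ∈ ([0, 1, 2] : List (ZMod 7)), φ i ∈ B := fun i hi =>
    (hB' i).2 (by simpa using hi)
  have colB : ∀ j ∈ ([3, 4, 5, 6] : List (ZMod 7)), φ j ∉ B := fun j hj => by
    rw [hB']; revert j; decide
  have g2 : ∀ i ∈ ([0, 1, 2] : List (ZMod 7)), ∀ j ∈ ([3, 4, 5, 6] : List (ZMod 7)),
      ∀ T : Finset (ZMod 7), {0, 1, 2} ∆ {i, j} = T → (M.β (T.image φ) ↔ cfE i j) := fun i hi j hj T e => by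
    rw [← tr e, ← hE i hi j hj]
    simp only [image_insert, image_singleton]
    exact ⟨fun a => ⟨iff_of_true (rowB i hi) (colB j hj), a⟩, fun a => a.2⟩
  have g4 : ∀ i ∈ ([0, 1, 2] : List (ZMod 7)), ∀ j ∈ ([3, 4, 5, 6] : List (ZMod 7)), ¬ cfE i j →
      ∀ i' ∈ ([0, 1, 2] : List (ZMod 7)), ∀ j' ∈ ([3, 4, 5, 6] : List (ZMod 7)), i ≠ i' → j ≠ j' →
      ∀ T : Finset (ZMod 7), {0, 1, 2} ∆ {i, i', j, j'} = T → (M.β (T.image φ) ↔ cfE i j' ∧ cfE i' j) :=
    fun i hi j hj a i' hi' j' hj' e1 e2 T e => by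
      rw [← tr4 i i' j j' e, ← hE i hi j' hj', ← hE i' hi' j hj]
      exact quad h.base (hφ.ne e1) (hφ.ne e2) (rowB i hi) (rowB i' hi') (colB j hj) (colB j' hj')
        (by rwa [hE i hi j hj])
  have x235 := mt (tr4 1 0 3 5 (T := {2, 3, 5}) (by decide)).2 l1
  have x045 := mt (tr4 1 2 4 5 (T := {0, 4, 5}) (by decide)).2 l2
  have g034 := (g4 2 (by decide) 3 (by decide) (by decide) 1 (by decide) 4 (by decide) (by decide)
    (by decide) {0, 3, 4} (by decide)).2 (by decide)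
  have g145 := (g4 0 (by decide) 4 (by decide) (by decide) 2 (by decide) 5 (by decide) (by decide)
    (by decide) {1, 4, 5} (by decide)).2 (by decide)
  have g136 := (g4 2 (by decide) 3 (by decide) (by decide) 0 (by decide) 6 (by decide) (by decide)
    (by decide) {1, 3, 6} (by decide)).2 (by decide)
  have g146 := (g4 0 (by decide) 4 (by decide) (by decide) 2 (by decide) 6 (by decide) (by decide)
    (by decide) {1, 4, 6} (by decide)).2 (by decide)
  have g126 := (g2 0 (by decide) 6 (by decide) {1, 2, 6} (by decide)).2 (by decide)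
  have g016 := (g2 2 (by decide) 6 (by decide) {0, 1, 6} (by decide)).2 (by decide)
  have x156 : ¬ M.β (({1, 5, 6} : Finset (ZMod 7)).image φ) := fun g156 => by
    have st : ∀ j : ZMod 7, j ∉ ({0, 1, 6} : Finset (ZMod 7)) →
        M.β ((({0, 1, 6} : Finset (ZMod 7)) ∆ {0, j}).image φ) →
        M.adj (({0, 1, 6} : Finset (ZMod 7)).image φ) (φ 0) (φ j) := fun j hj a =>
      ⟨iff_of_true (mem_image_of_mem _ (by decide)) (by rwa [hφ.mem_finset_image]), by
        rwa [image_symmDiff _ _ hφ, image_insert (a := 0) (s := {j}), image_singleton] at a⟩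
    refine hd (cpair g016 (x := φ 1) (y := φ 6) (hφ.ne (by decide))
      (mem_image_of_mem _ (by decide)) (mem_image_of_mem _ (by decide))
      (cn_of_root (fun _ _ => adj_symm) (φ 0) fun z hz => ?_))
    have m0 : φ 0 ∈ (M.Z.erase (φ 1)).erase (φ 6) :=
      mem_erase.2 ⟨u0, mem_erase.2 ⟨n02, z0⟩⟩
    have hz' := hz
    simp only [mem_erase] at hz'
    obtain ⟨j, -, rfl⟩ := mem_image.1 (hZ ▸ hz'.2.2)
    have key : ∀ j : ZMod 7, j = 0 ∨ j = 1 ∨ j = 6 ∨ (j ∉ ({0, 1, 6} : Finset (ZMod 7)) ∧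
        ∀ T, T = ({0, 1, 6} : Finset (ZMod 7)) ∆ {0, j} → T = {1, 2, 6} ∨ T = {1, 3, 6} ∨
          T = {1, 4, 6} ∨ T = {1, 5, 6}) := by
      simp only [forall_eq]; decide
    rcases key j with rfl | rfl | rfl | ⟨a, b⟩
    · exact Con.refl _ _ _
    · exact absurd rfl hz'.2.1
    · exact absurd rfl hz'.1
    · refine Con.single m0 hz (st j a ?_)
      rcases b _ rfl with e | e | e | e <;> rw [e] <;> assumption
  have s21 : A.S (w 2) (w 1) ≠ 0 := nz_symm A _ _ (h.ip.adj 1 (by omega))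
  have x346 : ¬ M.β (({3, 4, 6} : Finset (ZMod 7)).image φ) := by
    have r := h.rv.row
    have rw0 : A.row (w 0) = true := (r _ (h.mV (by omega))).2 h.b0
    have rw2 : A.row (w 2) = true := (r _ (h.mV (by omega))).2 b2
    have rw4 : A.row (w 4) = true := (r _ (h.mV le_rfl)).2 h.bn
    have rw3 : A.row (w 3) = false := by
      rw [← Bool.not_eq_true, r _ (h.mV (by omega))]; exact b3
    have rwu : A.row u = false := by rw [← Bool.not_eq_true, r _ h.swap.vU]; exact h.nu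
    have e1 : ({0, 1, 2} : Finset (ZMod 7)) ∆ (({0, 2, 4, 6} : Finset (ZMod 7)) ∆ {1, 3}) =
      {3, 4, 6} := by decide
    have e2 : ((({0, 2, 4, 6} : Finset (ZMod 7)) ∆ {1, 3}).image φ) =
        ({w 0, w 4, w 3, u} : Finset ℕ) ∆ {w 2, w 1} := by
      rw [image_symmDiff _ _ hφ]; simp only [image_insert, image_singleton]; rfl
    have sub : ({w 0, w 4, w 3, u} : Finset ℕ) ∆ {w 2, w 1} ⊆ M.Z.erase v := by
      intro z hz
      simp only [mem_symmDiff, mem_insert, mem_singleton] at hz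
      have := h.mu
      rw [mem_erase]
      grind
    rw [← tr e1, e2, ← h.rv.ns _ sub, ← ns_pivot s21, ns_quad n04 u3
      (by rw [pivot_row s21, if_neg (by grind), rw0]) (by rw [pivot_row s21, if_neg (by grind), rw4])
      (by rw [pivot_row s21, if_neg (by grind), rw3]) (by rw [pivot_row s21, if_neg (by grind), rwu]),
      not_not, pivot_S_gen s21 n02 n01 n23.symm n13.symm, pivot_S_gen s21 n24.symm n14.symm u2.symm u1.symm,
      pivot_S_gen s21 n02 n01 u2.symm u1.symm, pivot_S_gen s21 n24.symm n14.symm n23.symm n13.symm,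
      A.bip (w 0) (w 2) (rw0.trans rw2.symm), A.bip (w 4) (w 2) (rw4.trans rw2.symm)]
    have y03 : A.S (w 0) (w 3) = 0 := not_not.1 (h.ip.nadj 0 3 (by omega) (by omega))
    have y41 : A.S (w 4) (w 1) = 0 := not_not.1 fun a =>
      h.ip.nadj 1 4 (by omega) le_rfl (nz_symm A _ _ a)
    have y2u : A.S (w 2) u = 0 := not_not.1 fun a => hu ((h.swap.adjv (by omega)).1 a)
    have q1 := mt (h.ru.quad (h.mU (k := 2) (by omega)) (h.mU (k := 0) (by omega))
      (h.mU (k := 1) (by omega)) h.vU n02.symm v1 b2 h.b0 b1 h.nv).2 l1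
    have q2 := mt (h.ru.quad (h.mU (k := 2) (by omega)) (h.mU le_rfl)
      (h.mU (k := 3) (by omega)) h.vU n24 v3 b2 h.bn b3 h.nv).2 l2
    have q3 := mt (h.inc.symm.trans (tr4 0 2 6 5 (T := {1, 5, 6}) (by decide))).1 x156
    have k : -(A.S (w 0) (w 1) * A.S (w 2) (w 3)) * A.S (w 4) u =
        A.S (w 0) u * A.S (w 4) (w 3) * A.S (w 2) (w 1) := cf_alg2 _ (h.ip.adj 0 (by omega)) _ s21 _ (h.ip.adj 2 (by omega)) _
      (nz_symm A _ _ (h.ip.adj 3 (by omega))) _ h.u0 _ h.un _ h.v0 _ h.vn _ (not_not.1 q1)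
      (not_not.1 q2) q3
    rw [y03, y41, y2u]
    simp only [zero_mul, zero_div, mul_zero, sub_zero, zero_sub]
    rw [← neg_div, div_mul_eq_mul_div, div_eq_iff s21]
    exact k
  have g345 := cf_ex hφ (T := {3, 4, 5}) g034 g145 5 (by decide) x045
  have g356 := cf_ex hφ (T := {3, 5, 6}) g345 g136 6 (by decide) x346
  have g456 := cf_ex hφ (T := {4, 5, 6}) g345 g146 6 (by decide) x346
  have g012 : M.β (({0, 1, 2} : Finset (ZMod 7)).image φ) := hB ▸ h.base
  refine ⟨φ, hφ, hZ, fun T => ?_⟩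
  by_cases hc : T.card = 3
  · rw [and_iff_right hc]
    change _ ↔ cfN T
    rcases cf_key T hc with ⟨a, b⟩ | ⟨a, b⟩ | ⟨i, hi, j, hj, a, b⟩ |
      ⟨i, hi, j, hj, a, i', hi', j', hj', e1, e2, b, c⟩
    · refine iff_of_true ?_ a
      rcases b with e | e | e | e <;> rw [e] <;> assumption
    · refine iff_of_false ?_ a
      rcases b with e | e | e | e <;> rw [e] <;> assumption
    · exact (g2 i hi j hj T a).trans b
    · exact (g4 i hi j hj a i' hi' j' hj' e1 e2 T b).trans c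
  · refine iff_of_false (fun a => hc ?_) fun a => hc a.1
    have := card_eq a g012
    rwa [card_image_of_injective _ hφ, card_image_of_injective _ hφ] at this

theorem core (h : M.Pth B A u v w n) (hn : 4 ≤ n) (hd : ¬ M.dual.DPair)
    (hu : ∀ m, 0 < m → m < n → ¬ M.adj B (w m) u) : M.IsF7 := by
  have he := h.even
  obtain ⟨-, -, a⟩ := h.p3 hn hd (hu 2 (by omega) (by omega))
  obtain ⟨-, b, -⟩ := h.rev.p3 hn hd (hu (n - 2) (by omega) (by omega))
  have e : n = 4 := by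
    by_contra c
    exact a (n - 2) (by omega) (by omega) b
  subst e
  exact h.f7 hd (hu 2 (by omega) (by omega))

theorem classify (h : M.Pth B A u v w n) (hd : ¬ M.dual.DPair) : M.IsU25 ∨ M.IsF7 := by
  have he := h.even
  have hp := h.pos
  by_cases e : n = 2
  · subst e; exact Or.inl h.u25
  refine Or.inr ?_
  by_cases hu : ∃ m, 0 < m ∧ m < n ∧ M.adj B (w m) u
  · exact h.swap.core (by omega) hd fun m a b c => hd (h.p1 hu ⟨m, a, b, c⟩)
  · exact h.core (by omega) hd fun m a b c => hu ⟨m, a, b, c⟩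

end Pth

end BS

end Pool.Agent.Lib.MP_c69b6d_co.F
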