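import Pool.Agent.Lib.MP_c69b6d_co.F.CC

/-! Stage C: existence of a pair. -/

namespace Pool.Agent.Lib.MP_c69b6d_co.F

open Finset Disp
open scoped symmDiff

namespace CG

theorem cn_insert {R : ℕ → ℕ → Prop} (hs : ∀ i j, R i j → R j i) {K : Finset ℕ} (hK : Cn R K)
    {x y : ℕ} (hx : x ∈ K) (h : R x y) : Cn R (insert y K) := by
  refine cn_of_root hs x fun i hi => ?_
  rcases mem_insert.1 hi with rfl | hi
  · exact Con.single (mem_insert_of_mem hx) (mem_insert_self _ _) h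
  · exact (hK x hx i hi).mono (subset_insert _ _) fun _ _ _ _ h => h

theorem sdiff_ne {Z X : Finset ℕ} (h : X.card < Z.card) : (Z \ X).Nonempty := by
  rw [sdiff_nonempty]
  intro h'
  exact absurd (card_le_card h') (by omega)

variable {M : BS} {B : Finset ℕ}

theorem pair_of (hB : M.β B) {x y : ℕ} (hxy : x ≠ y) (hx : x ∈ M.Z) (hy : y ∈ M.Z)
    (hs : x ∈ B ↔ y ∈ B) (h : Cn (M.adj B) ((M.Z.erase x).erase y)) :
    M.DPair ∨ M.dual.DPair := by
  by_cases hb : x ∈ B
  · exact Or.inr (BS.cpair hB hxy hb (hs.1 hb) h)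
  · exact Or.inl ⟨B, x, y, hB, hxy, hx, hy, hb, fun h' => hb (hs.2 h'), h⟩

theorem final (hB : M.β B) {K : Finset ℕ} (hK : Cn (M.adj B) K) {x y z k : ℕ} (hxy : x ≠ y)
    (hxz : x ≠ z) (hyz : y ≠ z) (hx : x ∈ M.Z) (hy : y ∈ M.Z) (hxK : x ∉ K) (hyK : y ∉ K)
    (hs : x ∈ B ↔ y ∈ B) (hk : k ∈ K) (hkz : M.adj B k z)
    (hZ : ∀ i, i ∈ M.Z ↔ i = x ∨ i = y ∨ i = z ∨ i ∈ K) : M.DPair ∨ M.dual.DPair := by
  refine pair_of hB hxy hx hy hs ?_
  have e : (M.Z.erase x).erase y = insert z K := by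
    ext i
    simp only [mem_erase, mem_insert, hZ]
    constructor
    · rintro ⟨h1, h2, h3 | h3 | h3 | h3⟩
      · exact absurd h3 h2
      · exact absurd h3 h1
      · exact Or.inl h3
      · exact Or.inr h3
    · rintro (rfl | h)
      · exact ⟨hyz.symm, hxz.symm, Or.inr (Or.inr (Or.inl rfl))⟩
      · exact ⟨fun e => hyK (e ▸ h), fun e => hxK (e ▸ h), Or.inr (Or.inr (Or.inr h))⟩
  rw [e]
  exact cn_insert (fun _ _ => BS.adj_symm) hK hk hkz

theorem grow (hm : M.Min) (hT : ¬ M.Tern) (hB : M.β B) (n : ℕ) :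
    ∀ (K : Finset ℕ) (x y z : ℕ), M.Z.card - K.card = n → K ⊆ M.Z → Cn (M.adj B) K →
      x ≠ y → x ≠ z → y ≠ z → x ∉ K → y ∉ K → z ∉ K → (∃ k ∈ K, M.adj B k x) →
      (∃ k ∈ K, M.adj B k y) → (∃ k ∈ K, M.adj B k z) → M.DPair ∨ M.dual.DPair := by
  induction n using Nat.strong_induction_on with
  | _ n ih =>
    rintro K x y z hn hKZ hK hxy hxz hyz hx hy hz ⟨kx, hkx, ax⟩ ⟨ky, hky, ay⟩ ⟨kz, hkz, az⟩
    have hs : ∀ i j, M.adj B i j → M.adj B j i := fun _ _ => BS.adj_symm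
    have xZ := (ax.mem hB).2
    have yZ := (ay.mem hB).2
    have zZ := (az.mem hB).2
    have hX : insert x (insert y (insert z K)) ⊆ M.Z :=
      insert_subset xZ (insert_subset yZ (insert_subset zZ hKZ))
    have step : ∀ t, t ∈ M.Z → t ∉ K → M.Z.card - (insert t K).card < n := by
      intro t ht htK
      have h1 := card_le_card (insert_subset ht hKZ)
      rw [card_insert_of_notMem htK] at h1 ⊢
      omega
    by_cases hne : (M.Z \ insert x (insert y (insert z K))).Nonempty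
    · obtain ⟨p, hp, q, hq, hpq⟩ := BS.cut hm hT hB hX (insert_nonempty _ _) hne
      simp only [mem_sdiff, mem_insert, not_or] at hp hq
      obtain ⟨qZ, qx, qy, qz, qK⟩ := hq
      rcases hp with rfl | rfl | rfl | hp
      · refine ih _ (step p xZ hx) (insert p K) q y z rfl (insert_subset xZ hKZ)
          (cn_insert hs hK hkx ax) qy qz hyz ?_ ?_ ?_ ⟨p, mem_insert_self _ _, hpq⟩
          ⟨ky, mem_insert_of_mem hky, ay⟩ ⟨kz, mem_insert_of_mem hkz, az⟩
        · simp [qx, qK]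
        · simp [hxy.symm, hy]
        · simp [hxz.symm, hz]
      · refine ih _ (step p yZ hy) (insert p K) q x z rfl (insert_subset yZ hKZ)
          (cn_insert hs hK hky ay) qx qz hxz ?_ ?_ ?_ ⟨p, mem_insert_self _ _, hpq⟩
          ⟨kx, mem_insert_of_mem hkx, ax⟩ ⟨kz, mem_insert_of_mem hkz, az⟩
        · simp [qy, qK]
        · simp [hxy, hx]
        · simp [hyz.symm, hz]
      · refine ih _ (step p zZ hz) (insert p K) q x y rfl (insert_subset zZ hKZ)
          (cn_insert hs hK hkz az) qx qy hxy ?_ ?_ ?_ ⟨p, mem_insert_self _ _, hpq⟩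
          ⟨kx, mem_insert_of_mem hkx, ax⟩ ⟨ky, mem_insert_of_mem hky, ay⟩
        · simp [qz, qK]
        · simp [hxz, hx]
        · simp [hyz, hy]
      · refine ih _ (step q qZ qK) (insert q K) x y z rfl (insert_subset qZ hKZ)
          (cn_insert hs hK hp hpq) hxy hxz hyz ?_ ?_ ?_ ⟨kx, mem_insert_of_mem hkx, ax⟩
          ⟨ky, mem_insert_of_mem hky, ay⟩ ⟨kz, mem_insert_of_mem hkz, az⟩
        · simp [Ne.symm qx, hx]
        · simp [Ne.symm qy, hy]
        · simp [Ne.symm qz, hz]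
    · rw [sdiff_nonempty, not_not] at hne
      have hZ : ∀ i, i ∈ M.Z ↔ i = x ∨ i = y ∨ i = z ∨ i ∈ K := fun i => by
        rw [← Subset.antisymm hX hne]
        simp only [mem_insert]
      by_cases h1 : x ∈ B ↔ y ∈ B
      · exact final hB hK hxy hxz hyz xZ yZ hx hy h1 hkz az hZ
      · by_cases h2 : x ∈ B ↔ z ∈ B
        · exact final hB hK hxz hxy hyz.symm xZ zZ hx hz h2 hky ay
            (fun i => by rw [hZ]; tauto)
        · exact final hB hK hyz hxy.symm hxz.symm yZ zZ hy hz (by tauto) hkx ax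
            (fun i => by rw [hZ]; tauto)

theorem three (hm : M.Min) (hT : ¬ M.Tern) (hB : M.β B) {c x y z : ℕ} (hxy : x ≠ y)
    (hxz : x ≠ z) (hyz : y ≠ z) (ax : M.adj B c x) (ay : M.adj B c y) (az : M.adj B c z) :
    M.DPair ∨ M.dual.DPair := by
  refine grow hm hT hB _ {c} x y z rfl (singleton_subset_iff.2 (ax.mem hB).1) ?_ hxy hxz hyz
    (by simpa using ax.ne.symm) (by simpa using ay.ne.symm) (by simpa using az.ne.symm)
    ⟨c, mem_singleton_self _, ax⟩ ⟨c, mem_singleton_self _, ay⟩ ⟨c, mem_singleton_self _, az⟩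
  intro i hi j hj
  rw [mem_singleton.1 hi, mem_singleton.1 hj]
  exact Con.refl _ _ _

theorem path5 {R : ℕ → ℕ → Prop} (hs : ∀ i j, R i j → R j i) {Z : Finset ℕ}
    (hcut : ∀ X ⊆ Z, X.Nonempty → (Z \ X).Nonempty → ∃ x ∈ X, ∃ y ∈ Z \ X, R x y)
    (h5 : 5 ≤ Z.card)
    (H3 : ∀ c x y z, x ≠ y → x ≠ z → y ≠ z → R c x → R c y → R c z → False) :
    ∃ a b c d e, R a b ∧ R b c ∧ R c d ∧ R d e ∧ a ≠ c ∧ a ≠ e ∧ c ≠ e ∧ b ≠ d := by
  have p2 : ∃ a ∈ Z, ∃ b ∈ Z, R a b ∧ a ≠ b := by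
    obtain ⟨a, ha⟩ : Z.Nonempty := card_pos.1 (by omega)
    obtain ⟨x, hx, y, hy, h⟩ := hcut {a} (singleton_subset_iff.2 ha) (singleton_nonempty _)
      (sdiff_ne (by rw [card_singleton]; omega))
    simp only [mem_singleton, mem_sdiff] at hx hy
    subst hx
    exact ⟨x, ha, y, hy.1, h, Ne.symm hy.2⟩
  have p3 : ∃ a ∈ Z, ∃ b ∈ Z, ∃ c ∈ Z, R a b ∧ R b c ∧ a ≠ b ∧ a ≠ c ∧ b ≠ c := by
    obtain ⟨a, ha, b, hb, hab, nab⟩ := p2
    obtain ⟨x, hx, y, hy, h⟩ := hcut {a, b} (insert_subset ha (singleton_subset_iff.2 hb))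
      (insert_nonempty _ _) (sdiff_ne (lt_of_le_of_lt card_le_two (by omega)))
    simp only [mem_insert, mem_singleton, mem_sdiff, not_or] at hx hy
    obtain ⟨yZ, ya, yb⟩ := hy
    rcases hx with rfl | rfl
    · exact ⟨y, yZ, x, ha, b, hb, hs _ _ h, hab, ya, yb, nab⟩
    · exact ⟨a, ha, x, hb, y, yZ, hab, h, nab, Ne.symm ya, Ne.symm yb⟩
  have p4 : ∃ a ∈ Z, ∃ b ∈ Z, ∃ c ∈ Z, ∃ d ∈ Z, R a b ∧ R b c ∧ R c d ∧ a ≠ b ∧ a ≠ c ∧ a ≠ d ∧
      b ≠ c ∧ b ≠ d ∧ c ≠ d := by
    obtain ⟨a, ha, b, hb, c, hc, hab, hbc, nab, nac, nbc⟩ := p3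
    obtain ⟨x, hx, y, hy, h⟩ := hcut {a, b, c}
      (insert_subset ha (insert_subset hb (singleton_subset_iff.2 hc)))
      (insert_nonempty _ _) (sdiff_ne (lt_of_le_of_lt card_le_three (by omega)))
    simp only [mem_insert, mem_singleton, mem_sdiff, not_or] at hx hy
    obtain ⟨yZ, ya, yb, yc⟩ := hy
    rcases hx with rfl | rfl | rfl
    · exact ⟨y, yZ, x, ha, b, hb, c, hc, hs _ _ h, hab, hbc, ya, yb, yc, nab, nac, nbc⟩
    · exact (H3 x a c y nac (Ne.symm ya) (Ne.symm yc) (hs _ _ hab) hbc h).elim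
    · exact ⟨a, ha, b, hb, x, hc, y, yZ, hab, hbc, h, nab, nac, Ne.symm ya, nbc, Ne.symm yb,
        Ne.symm yc⟩
  obtain ⟨a, ha, b, hb, c, hc, d, hd, hab, hbc, hcd, nab, nac, nad, nbc, nbd, ncd⟩ := p4
  obtain ⟨x, hx, y, hy, h⟩ := hcut {a, b, c, d}
    (insert_subset ha (insert_subset hb (insert_subset hc (singleton_subset_iff.2 hd))))
    (insert_nonempty _ _) (sdiff_ne (lt_of_le_of_lt card_le_four (by omega)))
  simp only [mem_insert, mem_singleton, mem_sdiff, not_or] at hx hy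
  obtain ⟨yZ, ya, yb, yc, yd⟩ := hy
  rcases hx with rfl | rfl | rfl | rfl
  · exact ⟨y, x, b, c, d, hs _ _ h, hab, hbc, hcd, yb, yd, nbd, nac⟩
  · exact (H3 x a c y nac (Ne.symm ya) (Ne.symm yc) (hs _ _ hab) hbc h).elim
  · exact (H3 x b d y nbd (Ne.symm yb) (Ne.symm yd) (hs _ _ hbc) hcd h).elim
  · exact ⟨a, b, c, x, y, hab, hbc, hcd, h, nac, Ne.symm ya, Ne.symm yc, nbd⟩

theorem quad' (hB : M.β B) {a b u v : ℕ} (hab : a ≠ b) (huv : u ≠ v) (h : ¬ M.adj B a u)
    (hs : a ∈ B ↔ b ∈ B) (h1 : M.adj B a v) (h2 : M.adj B b u) : M.β (B ∆ {a, b, u, v}) := by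
  have s1 := h1.1
  have s2 := h2.1
  by_cases ha : a ∈ B
  · exact (BS.quad hB hab huv ha (hs.1 ha) (by tauto) (by tauto) h).2 ⟨h1, h2⟩
  · have e : ({a, b, u, v} : Finset ℕ) = {u, v, a, b} := by
      ext i
      simp only [mem_insert, mem_singleton]
      tauto
    rw [e]
    exact (BS.quad hB huv hab (by tauto) (by tauto) ha (by tauto)
      (fun h' => h (BS.adj_symm h'))).2 ⟨BS.adj_symm h2, BS.adj_symm h1⟩

theorem big (hm : M.Min) (hT : ¬ M.Tern) (h5 : 5 ≤ M.Z.card) : M.DPair ∨ M.dual.DPair := by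
  by_contra hc
  obtain ⟨B, hB⟩ := M.ne
  have H3 : ∀ c x y z, x ≠ y → x ≠ z → y ≠ z → M.adj B c x → M.adj B c y → M.adj B c z → False :=
    fun c x y z h1 h2 h3 a1 a2 a3 => hc (three hm hT hB h1 h2 h3 a1 a2 a3)
  obtain ⟨a, b, c, d, e, hab, hbc, hcd, hde, nac, nae, nce, nbd⟩ :=
    path5 (fun _ _ => BS.adj_symm) (fun X hX h1 h2 => BS.cut hm hT hB hX h1 h2) h5 H3
  have s1 := hab.1
  have s2 := hbc.1
  have s3 := hcd.1
  have s4 := hde.1
  have nab := hab.ne
  have nbc := hbc.ne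
  have ncd := hcd.ne
  have nde := hde.ne
  have nad : a ≠ d := by
    rintro rfl
    tauto
  have nbe : b ≠ e := by
    rintro rfl
    tauto
  have m1 : ¬ M.adj B a d := fun h =>
    H3 d a c e nac nae nce (BS.adj_symm h) (BS.adj_symm hcd) hde
  have m2 : ¬ M.adj B e b := fun h =>
    H3 b a c e nac nae nce (BS.adj_symm hab) hbc (BS.adj_symm h)
  have q1 := quad' hB nac nbd.symm m1 (by tauto) hab hcd
  have q2 := quad' hB nce.symm nbd m2 (by tauto) (BS.adj_symm hde) (BS.adj_symm hbc)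
  refine hc (three hm hT hbc.2 (c := d) nab nae nbe ⟨?_, ?_⟩ ⟨?_, ?_⟩ ⟨?_, ?_⟩)
  · simp only [mem_symmDiff, mem_insert, mem_singleton, nab, nac, nbd.symm, ncd.symm]
    tauto
  · have e : ({b, c} : Finset ℕ) ∆ {d, a} = {a, c, d, b} := by
      ext i
      simp only [mem_symmDiff, mem_insert, mem_singleton]
      omega
    rwa [symmDiff_assoc, e]
  · simp only [mem_symmDiff, mem_insert, mem_singleton, nbd.symm, ncd.symm]
    tauto
  · have e : ({b, c} : Finset ℕ) ∆ {d, b} = {c, d} := by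
      ext i
      simp only [mem_symmDiff, mem_insert, mem_singleton]
      omega
    rw [symmDiff_assoc, e]
    exact hcd.2
  · simp only [mem_symmDiff, mem_insert, mem_singleton, nbe.symm, nce.symm, nbd.symm, ncd.symm]
    tauto
  · have e' : ({b, c} : Finset ℕ) ∆ {d, e} = {e, c, b, d} := by
      ext i
      simp only [mem_symmDiff, mem_insert, mem_singleton]
      omega
    rwa [symmDiff_assoc, e']

/-- the display with basis `B` and entries `f`. -/
def mkD (B : Finset ℕ) (f : ℕ → ℕ → F3) : Disp F3 where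
  Z := ∅
  row := fun i => decide (i ∈ B)
  S := fun i j => if i ∈ B then (if j ∈ B then 0 else f i j) else (if j ∈ B then - f j i else 0)
  skew := fun i j => by
    by_cases hi : i ∈ B <;> by_cases hj : j ∈ B <;> simp [hi, hj]
  bip := fun i j h => by
    by_cases hi : i ∈ B <;> by_cases hj : j ∈ B <;> simp_all

theorem mkD_S (f : ℕ → ℕ → F3) {i j : ℕ} (hi : i ∈ B) (hj : j ∉ B) : (mkD B f).S i j = f i j := by
  simp [mkD, hi, hj]

theorem tern_of (hB : M.β B) (h4 : M.Z.card ≤ 4) (f : ℕ → ℕ → F3)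
    (hf : ∀ i j, f i j ≠ 0 ↔ M.adj B i j)
    (hq : ∀ a b u v, a ≠ b → u ≠ v → a ∈ B → b ∈ B → u ∉ B → v ∉ B → M.Z = {a, b, u, v} →
      M.adj B a u → M.adj B a v → M.adj B b u → M.adj B b v →
      (f a u * f b v ≠ f a v * f b u ↔ M.β (B ∆ {a, b, u, v}))) : M.Tern := by
  refine ⟨B, mkD B f, hB, fun i _ => by simp [mkD], fun T hT => ?_⟩
  have e1 : (T.filter fun i => (mkD B f).row i = true) = T.filter fun i => i ∈ B :=
    filter_congr fun i _ => by simp [mkD]
  have e2 : (T.filter fun i => (mkD B f).row i = false) = T.filter fun i => i ∉ B :=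
    filter_congr fun i _ => by simp [mkD]
  by_cases hbal : (T.filter fun i => i ∈ B).card = (T.filter fun i => i ∉ B).card
  swap
  · exact ⟨fun h => absurd (e1 ▸ e2 ▸ h.card) hbal, fun h => absurd (BS.card_sides hB h) hbal⟩
  have hsum := card_filter_add_card_filter_not (s := T) fun i => i ∈ B
  have hun := filter_union_filter_not_eq (s := T) fun i => i ∈ B
  have hTc := card_le_card hT
  have hk : (T.filter fun i => i ∈ B).card = 0 ∨ (T.filter fun i => i ∈ B).card = 1 ∨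
      (T.filter fun i => i ∈ B).card = 2 := by omega
  rcases hk with hk | hk | hk
  · have : T = ∅ := card_eq_zero.1 (by omega)
    subst this
    have e : B ∆ (∅ : Finset ℕ) = B := symmDiff_bot B
    rw [e]
    exact ⟨fun _ => hB, fun _ => ns_empty _⟩
  · obtain ⟨i, hi⟩ := card_eq_one.1 hk
    obtain ⟨j, hj⟩ := card_eq_one.1 (hbal ▸ hk)
    have mi : i ∈ T.filter fun i => i ∈ B := hi ▸ mem_singleton_self _
    have mj : j ∈ T.filter fun i => i ∉ B := hj ▸ mem_singleton_self _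
    rw [hi, hj] at hun
    have e : T = {i, j} := by
      rw [← hun]
      rfl
    have bi := (mem_filter.1 mi).2
    have bj := (mem_filter.1 mj).2
    rw [e, ns_pair, mkD_S f bi bj, hf]
    exact ⟨fun h => h.2, fun h => ⟨by tauto, h⟩⟩
  · obtain ⟨a, b, hab, hi⟩ := card_eq_two.1 hk
    obtain ⟨u, v, huv, hj⟩ := card_eq_two.1 (hbal ▸ hk)
    have ma : a ∈ T.filter fun i => i ∈ B := hi ▸ mem_insert_self _ _
    have mb : b ∈ T.filter fun i => i ∈ B := hi ▸ mem_insert_of_mem (mem_singleton_self _)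
    have mu : u ∈ T.filter fun i => i ∉ B := hj ▸ mem_insert_self _ _
    have mv : v ∈ T.filter fun i => i ∉ B := hj ▸ mem_insert_of_mem (mem_singleton_self _)
    have ba := (mem_filter.1 ma).2
    have bb := (mem_filter.1 mb).2
    have bu := (mem_filter.1 mu).2
    have bv := (mem_filter.1 mv).2
    have hZ : T = M.Z := eq_of_subset_of_card_le hT (by omega)
    rw [hi, hj] at hun
    have e : T = {a, b, u, v} := by
      rw [← hun]
      ext i
      simp only [mem_union, mem_insert, mem_singleton]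
      tauto
    rw [e, ns_quad hab huv (by simpa [mkD] using ba) (by simpa [mkD] using bb)
      (by simpa [mkD] using bu) (by simpa [mkD] using bv), mkD_S f ba bu, mkD_S f bb bv,
      mkD_S f ba bv, mkD_S f bb bu]
    have z : ∀ i j, ¬ M.adj B i j → f i j = 0 := fun i j h => by
      by_contra h'
      exact h ((hf i j).1 h')
    by_cases h1 : M.adj B a u
    swap
    · rw [BS.quad hB hab huv ba bb bu bv h1, z _ _ h1, zero_mul, ne_comm, mul_ne_zero_iff, hf, hf]
    by_cases h2 : M.adj B a v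
    swap
    · have e' : ({a, b, u, v} : Finset ℕ) = {a, b, v, u} := by rw [pair_comm u v]
      rw [e', BS.quad hB hab huv.symm ba bb bv bu h2, z _ _ h2, zero_mul, mul_ne_zero_iff, hf, hf]
    by_cases h3 : M.adj B b u
    swap
    · have e' : ({a, b, u, v} : Finset ℕ) = {b, a, u, v} := insert_comm _ _ _
      rw [e', BS.quad hB hab.symm huv bb ba bu bv h3, z _ _ h3, mul_zero, mul_ne_zero_iff, hf, hf,
        and_comm]
    by_cases h4' : M.adj B b v
    swap
    · have e' : ({a, b, u, v} : Finset ℕ) = {b, a, v, u} := by rw [pair_comm u v, insert_comm]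
      rw [e', BS.quad hB hab.symm huv.symm bb ba bv bu h4', z _ _ h4', mul_zero, ne_comm,
        mul_ne_zero_iff, hf, hf, and_comm]
    exact hq a b u v hab huv ba bb bu bv (hZ ▸ e) h1 h2 h3 h4'

theorem small (h4 : M.Z.card ≤ 4) : M.Tern := by
  classical
  obtain ⟨B, hB⟩ := M.ne
  obtain ⟨a0, ha0⟩ : ∃ a0, B.Nonempty → a0 ∈ B := by
    by_cases h : B.Nonempty
    · exact ⟨h.choose, fun _ => h.choose_spec⟩
    · exact ⟨0, fun h' => absurd h' h⟩
  obtain ⟨u0, hu0⟩ : ∃ u0, (M.Z \ B).Nonempty → u0 ∈ M.Z \ B := by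
    by_cases h : (M.Z \ B).Nonempty
    · exact ⟨h.choose, fun _ => h.choose_spec⟩
    · exact ⟨0, fun h' => absurd h' h⟩
  obtain ⟨s, hs0, hs⟩ : ∃ s : F3, s ≠ 0 ∧ (s ≠ 1 ↔ M.β (B ∆ M.Z)) := by
    by_cases h : M.β (B ∆ M.Z)
    · exact ⟨-1, by decide, iff_of_true (by decide) h⟩
    · exact ⟨1, by decide, iff_of_false (by simp) h⟩
  refine tern_of hB h4
    (fun i j => if M.adj B i j then (if i = a0 ∧ j = u0 then s else 1) else 0) ?_ ?_
  · intro i j
    by_cases h : M.adj B i j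
    · simp only [h, if_true, iff_true]
      split_ifs
      · exact hs0
      · exact one_ne_zero
    · simp [h]
  · intro a b u v hab huv ba bb bu bv hZ h1 h2 h3 h4'
    have m1 := ha0 ⟨a, ba⟩
    have m2 := mem_sdiff.1 (hu0 ⟨u, mem_sdiff.2 ⟨(h1.mem hB).2, bu⟩⟩)
    have m3 := M.sub B hB m1
    have m4 := m2.1
    rw [← hZ, ← hs]
    rw [hZ] at m3 m4
    simp only [mem_insert, mem_singleton] at m3 m4
    have c1 : a0 = a ∨ a0 = b := by
      rcases m3 with h | h | h | h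
      · exact Or.inl h
      · exact Or.inr h
      · exact absurd (h ▸ m1) bu
      · exact absurd (h ▸ m1) bv
    have c2 : u0 = u ∨ u0 = v := by
      rcases m4 with h | h | h | h
      · exact absurd (h ▸ ba) m2.2
      · exact absurd (h ▸ bb) m2.2
      · exact Or.inl h
      · exact Or.inr h
    simp only [h1, h2, h3, h4', if_true]
    rcases c1 with rfl | rfl <;> rcases c2 with rfl | rfl <;>
      simp [hab, huv, hab.symm, huv.symm, eq_comm]

end CG

theorem BS.exists_dpair {M : BS} (hm : M.Min) (hT : ¬ M.Tern) : M.DPair ∨ M.dual.DPair :=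
  CG.big hm hT (by
    by_contra h
    exact hT (CG.small (by omega)))

end Pool.Agent.Lib.MP_c69b6d_co.F
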