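import Pool.Agent.Lib.MP_c69b6d_co.F.Linkc

/-! Existence of displays. -/

namespace Pool.Agent.Lib.MP_c69b6d_co.F

open Finset Disp Matroid

variable {α : Type} {lab : α → ℕ} {M : Matroid α} {D : Disp F3}

theorem lk_of_ker {V : Type} [AddCommGroup V] [Module F3 V] (hinj : Function.Injective lab)
    {E0 : Finset α} (hE : (E0 : Set α) = M.E) (hZ : D.Z = E0.image lab) {v : α → V}
    (hv : ∀ I ⊆ M.E, M.Indep I ↔ LinearIndepOn F3 v I)
    (hk : ∀ d : ℕ → F3, (∀ i ∈ D.B, d i = ∑ j ∈ D.Z, d j * D.S j i) ↔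
      ∑ e ∈ E0, d (lab e) • v e = 0) : MRep lab M D := by
  classical
  have hk' : ∀ d : ℕ → F3, d ∈ D.flip.code ↔ (∀ i, i ∉ D.Z → d i = 0) ∧
      ∑ e ∈ E0, d (lab e) • v e = 0 := fun d => by
    rw [mem_flip_code, ← hk]
    simp only [mem_B, and_imp]
  refine ⟨hinj, fun i => by simp [hZ, ← hE], fun I hI => ?_⟩
  have hI' : I ⊆ E0 := by rwa [← hE, coe_subset] at hI
  rw [hv _ hI, linearIndepOn_finset_iff]
  constructor
  · intro h d hd h0
    have h1 := ((hk' d).1 hd).2
    rw [← sum_subset hI' (fun x _ hx => by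
      rw [h0 _ (by rwa [hinj.mem_finset_image]), zero_smul])] at h1
    funext i
    by_cases hi : i ∈ I.image lab
    · obtain ⟨x, hx, rfl⟩ := mem_image.1 hi
      exact h _ h1 x hx
    · exact h0 i hi
  · intro h g hg x hx
    have h0 : ∀ i, i ∉ I.image lab →
        Function.extend lab (fun e => if e ∈ I then g e else 0) 0 i = 0 := fun i hi => by
      by_cases hi' : ∃ a, lab a = i
      · obtain ⟨a, rfl⟩ := hi'
        rw [hinj.extend_apply, if_neg (by rwa [hinj.mem_finset_image] at hi)]
      · rw [Function.extend_apply' _ _ _ hi']; rfl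
    have h1 := h _ ((hk' _).2 ⟨fun i hi => h0 i fun hh => hi (hZ ▸ image_subset_image hI' hh), by
      simp only [hinj.extend_apply]
      rw [← sum_subset hI' (fun x _ hx => by rw [if_neg hx, zero_smul]), ← hg]
      exact sum_congr rfl fun x hx => by rw [if_pos hx]⟩) h0
    have h2 := congrFun h1 (lab x)
    rwa [hinj.extend_apply, if_pos hx] at h2

theorem lk_exists [Fintype α] [Nonempty α] (hT : Ternary M) (hinj : Function.Injective lab) :
    ∃ D, MRep lab M D := by
  classical
  obtain ⟨n, v, hv⟩ := hT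
  obtain ⟨B0, hB0⟩ := M.exists_isBase
  lift B0 to Finset α using Set.toFinite B0
  have hli := linearIndepOn_finset_iff.1 ((hv _ hB0.subset_ground).1 hB0.indep)
  have hex : ∀ e, ∃ c : α → F3, e ∈ M.E → ∑ b ∈ B0, c b • v b = v e := by
    intro e
    by_cases he : e ∈ M.E
    · obtain ⟨c, hc⟩ := (Submodule.mem_span_image_finset_iff_exists_fun' _).1
        (mem_span_base hv hB0.isBasis_ground he)
      exact ⟨c, fun _ => hc⟩
    · exact ⟨0, fun h => absurd h he⟩
  choose c hc using hex
  set g := Function.invFun lab with hg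
  have hgl : ∀ a, g (lab a) = a := Function.leftInverse_invFun hinj
  let r : ℕ → Bool := fun i => decide (i ∈ B0.image lab)
  let D : Disp F3 :=
    { Z := M.E.toFinset.image lab
      row := r
      S := fun i j => if r i = r j then 0 else if r i then c (g j) (g i) else - c (g i) (g j)
      skew := by
        intro i j
        cases h1 : r i <;> cases h2 : r j <;> simp
      bip := by
        intro i j h
        simp [h] }
  have hr : ∀ a, r (lab a) = decide (a ∈ B0) := fun a => by
    simp only [r, hinj.mem_finset_image]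
  have hs : B0 ⊆ M.E.toFinset := fun x hx => Set.mem_toFinset.2 (hB0.subset_ground hx)
  have hB : D.B = B0.image lab := by
    ext i
    rw [mem_B]
    change _ ∧ decide (i ∈ B0.image lab) = true ↔ _
    rw [decide_eq_true_eq]
    exact ⟨fun h => h.2, fun h => ⟨image_subset_image hs h, h⟩⟩
  refine ⟨D, lk_of_ker hinj (Set.coe_toFinset _) rfl hv fun d => ?_⟩
  have e1 : ∑ e ∈ M.E.toFinset, d (lab e) • v e =
      ∑ b ∈ B0, (d (lab b) + ∑ e ∈ M.E.toFinset \ B0, d (lab e) * c e b) • v b := by
    rw [← sum_sdiff hs, add_comm]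
    simp only [add_smul, sum_add_distrib, sum_smul]
    congr 1
    rw [sum_comm]
    refine sum_congr rfl fun e he => ?_
    rw [← hc e (Set.mem_toFinset.1 (mem_sdiff.1 he).1), smul_sum]
    exact sum_congr rfl fun b _ => by rw [mul_smul]
  have e2 : ∀ b ∈ B0, ∑ j ∈ D.Z, d j * D.S j (lab b) =
      - ∑ e ∈ M.E.toFinset \ B0, d (lab e) * c e b := by
    intro b hb
    change ∑ j ∈ M.E.toFinset.image lab, _ = _
    rw [sum_image hinj.injOn, ← sum_sdiff hs, sum_eq_zero (s := B0), add_zero, ← sum_neg_distrib]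
    · refine sum_congr rfl fun e he => ?_
      have := (mem_sdiff.1 he).2
      simp [D, hr, hgl, hb, this]
    · intro e he
      simp [D, hr, hb, he]
  rw [e1, hB]
  constructor
  · intro h
    refine sum_eq_zero fun b hb => ?_
    rw [h _ (mem_image_of_mem _ hb), e2 b hb, neg_add_cancel, zero_smul]
  · intro h i hi
    obtain ⟨b, hb, rfl⟩ := mem_image.1 hi
    rw [e2 b hb, eq_neg_iff_add_eq_zero]
    exact hli _ h b hb

/-- the display `L` shows the columns of `A`; the row `i` is the coordinate `ρ i`. -/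
def LkShows (L : Disp F3) (A : List (List ℕ)) (ρ : ℕ → Fin 5) : Prop :=
  L.Z = univ.image (Fin.val (n := A.length)) ∧
    (∀ i ∈ L.B, ∀ e : Fin A.length, cols A e (ρ i) = if e.1 = i then 1 else L.S i e) ∧
    ∀ k : Fin 5, (∃ i ∈ L.B, ρ i = k) ∨ ∀ e : Fin A.length, cols A e k = 0

instance (L : Disp F3) (A : List (List ℕ)) (ρ : ℕ → Fin 5) : Decidable (LkShows L A ρ) := by
  unfold LkShows; infer_instance

theorem LkShows.rep {L : Disp F3} {A : List (List ℕ)} {ρ : ℕ → Fin 5} (h : LkShows L A ρ)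
    {N : Matroid (Fin A.length)} (hE : N.E = Set.univ)
    (hN : ∀ I, N.Indep I ↔ LinearIndepOn F3 (cols A) I) : MRep Fin.val N L := by
  obtain ⟨hZ, h1, h2⟩ := h
  refine lk_of_ker Fin.val_injective (E0 := univ) (by simp [hE]) hZ (fun I _ => hN I) fun d => ?_
  have e1 : ∀ i ∈ L.B, (∑ e : Fin A.length, d e • cols A e) (ρ i) =
      d i - ∑ j ∈ L.Z, d j * L.S j i := by
    intro i hi
    have hiZ := lk_B L hi
    rw [← sum_ite_eq_of_mem' L.Z i d hiZ, ← sum_sub_distrib, hZ, sum_image Fin.val_injective.injOn,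
      Finset.sum_apply]
    refine sum_congr rfl fun e _ => ?_
    rw [Pi.smul_apply, h1 i hi, smul_eq_mul, L.skew e i]
    by_cases he : e.1 = i
    · simp [he, L.bip i i rfl]
    · simp [he]
  constructor
  · intro h
    funext k
    rcases h2 k with ⟨i, hi, rfl⟩ | hk
    · rw [e1 i hi, ← h i hi, sub_self]; rfl
    · simp [Finset.sum_apply, hk]
  · intro h i hi
    rw [← sub_eq_zero, ← e1 i hi, h]; rfl

theorem MRep.copy [Fintype α] (h : MRep lab M D) {β : Type} [Fintype β] {N : Matroid β}
    (hE : N.E = Set.univ) {φ : β → α} (hφ : Function.Injective φ) (hr : Set.range φ = M.E)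
    (hI : ∀ I, M.Indep (φ '' I) ↔ N.Indep I) : MRep (fun b => lab (φ b)) N D := by
  classical
  refine ⟨h.inj.comp hφ, fun i => by simp [h.gr, ← hr, hE], fun I _ => ?_⟩
  rw [← hI, ← coe_image, h.ind _ (by rw [coe_image, ← hr]; exact Set.image_subset_range _ _),
    image_image]
  rfl

end Pool.Agent.Lib.MP_c69b6d_co.F
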