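import Pool.Agent.Lib.MP_c69b6d_co.F.C0
import Pool.Agent.Lib.MP_c69b6d_co.F.Linkd
import Pool.Agent.Lib.MP_c69b6d_co.Defs9

/-! Stage C: the base system of a matroid. -/

namespace Pool.Agent.Lib.MP_c69b6d_co.F

open Finset Disp Matroid
open scoped symmDiff

namespace CHAux

theorem ns_iff' {K : Type} [Field K] {A : Disp K} {T X : Finset ℕ} (hT : T ⊆ X) :
    A.Ns T ↔ (A.restrict X).Base ((A.restrict X).B ∆ T) := by
  have hB : ∀ Y i, i ∈ (A.restrict Y).B ↔ i ∈ Y ∧ A.row i = true := fun Y i => mem_B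
  have e : (A.restrict X).B ∆ T =
      (T.filter fun i => A.row i = false) ∪ ((A.restrict X).B \ T) := by
    ext i
    have := @hT i
    simp only [mem_symmDiff, mem_union, mem_filter, mem_sdiff, hB]
    cases A.row i <;> simp
    tauto
  have e2 : (A.restrict T).B = (A.restrict X).B ∩ T := by
    ext i
    have := @hT i
    simp only [mem_inter, hB]
    tauto
  have hd : Disjoint (T.filter fun i => A.row i = false) ((A.restrict X).B \ T) :=
    disjoint_sdiff.mono_left (filter_subset _ _)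
  have h1 := lk_restrict (D := A.restrict X) (U := T) (I := T.filter fun i => A.row i = false) hT
    (filter_subset _ _)
  have h2 := card_sdiff_add_card_inter (A.restrict X).B T
  rw [Ns, base_iff_indep, base_iff_indep, e, ← h1, card_union_of_disjoint hd, e2]
  refine ⟨fun h => ⟨union_subset ((filter_subset _ _).trans hT) (sdiff_subset.trans (lk_B _)),
    by omega, h.2.2⟩, fun h => ⟨filter_subset _ _, by omega, h.2.2⟩⟩

variable {α : Type} {lab : α → ℕ} {M : Matroid α} {S : BS}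

/-- the elements with a label in `F`. -/
def pre (lab : α → ℕ) (F : Finset ℕ) : Set α := {e | lab e ∈ F}

theorem mem_pre {F : Finset ℕ} {e : α} : e ∈ pre lab F ↔ lab e ∈ F := Iff.rfl

/-- `S` is the base system of `M`. -/
structure Lk (lab : α → ℕ) (M : Matroid α) (S : BS) : Prop where
  inj : Function.Injective lab
  gr : ∀ i, i ∈ S.Z ↔ ∃ e ∈ M.E, lab e = i
  bs : ∀ F, S.β F ↔ F ⊆ S.Z ∧ M.IsBase (pre lab F)

theorem pre_image (h : Function.Injective lab) (I : Finset α) : pre lab (I.image lab) = I := by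
  ext e
  rw [mem_pre, h.mem_finset_image, mem_coe]

theorem exch {B B' : Set α} (hB : M.IsBase B) (hB' : M.IsBase B') {e : α} (he : e ∈ B ∆ B') :
    ∃ f ∈ B ∆ B', (e ∈ B ↔ f ∉ B) ∧ M.IsBase (B ∆ {e, f}) := by
  rcases Set.mem_symmDiff.1 he with he | he
  · obtain ⟨f, hf, h⟩ := hB.exchange hB' he
    refine ⟨f, Set.mem_symmDiff.2 (Or.inr hf), by simp [he.1, hf.2], ?_⟩
    have : B ∆ {e, f} = insert f (B \ {e}) := by
      ext x
      have h1 := he.1
      have h2 := hf.2
      simp only [Set.mem_symmDiff, Set.mem_insert_iff, Set.mem_sdiff, Set.mem_singleton_iff]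
      grind
    rwa [this]
  · have heE := hB'.subset_ground he.1
    obtain ⟨f, hf, h⟩ := hB.compl_isBase_dual.exchange hB'.compl_isBase_dual (e := e)
      ⟨⟨heE, he.2⟩, fun h => h.2 he.1⟩
    have hfB : f ∈ B := by
      by_contra h
      exact hf.2 ⟨hf.1.1, h⟩
    refine ⟨f, Set.mem_symmDiff.2 (Or.inl ⟨hfB, hf.1.2⟩), by simp [he.2, hfB], ?_⟩
    have : B ∆ {e, f} = M.E \ insert f ((M.E \ B) \ {e}) := by
      ext x
      have h1 := he.2
      have h2 : x ∈ B → x ∈ M.E := fun k => hB.subset_ground k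
      simp only [Set.mem_symmDiff, Set.mem_insert_iff, Set.mem_sdiff, Set.mem_singleton_iff]
      grind
    rw [this]
    exact h.compl_isBase_of_dual

theorem exists_lk [Fintype α] (h : Function.Injective lab) (M : Matroid α) :
    ∃ S, Lk lab M S := by
  classical
  have hZ : ∀ i, i ∈ M.E.toFinset.image lab ↔ ∃ e ∈ M.E, lab e = i := fun i => by simp
  refine ⟨⟨M.E.toFinset.image lab, fun F => F ⊆ M.E.toFinset.image lab ∧ M.IsBase (pre lab F),
    fun _ h => h.1, ?_, ?_⟩, h, hZ, fun _ => Iff.rfl⟩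
  · obtain ⟨B, hB⟩ := M.exists_isBase
    lift B to Finset α using Set.toFinite B
    exact ⟨B.image lab, image_subset_image fun x hx => Set.mem_toFinset.2 (hB.subset_ground hx),
      by rwa [pre_image h]⟩
  · rintro F G ⟨hF, hF'⟩ ⟨hG, hG'⟩ x hx
    have hs : F ∆ G ⊆ M.E.toFinset.image lab := fun i hi => by
      rcases mem_symmDiff.1 hi with h | h
      exacts [hF h.1, hG h.1]
    obtain ⟨e, -, rfl⟩ := (hZ x).1 (hs hx)
    obtain ⟨f, hf, h1, h2⟩ := exch hF' hG' (e := e) (by
      simpa only [Set.mem_symmDiff, mem_pre, mem_symmDiff] using hx)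
    have hf' : lab f ∈ F ∆ G := by simpa only [Set.mem_symmDiff, mem_pre, mem_symmDiff] using hf
    refine ⟨lab f, hf', h1, fun i hi => ?_, ?_⟩
    · rcases mem_symmDiff.1 hi with h | h
      · exact hF h.1
      · rcases mem_insert.1 h.1 with rfl | h3
        · exact hs hx
        · rw [mem_singleton.1 h3]; exact hs hf'
    · have : pre lab (F ∆ {lab e, lab f}) = pre lab F ∆ {e, f} := by
        ext y
        simp only [Set.mem_symmDiff, mem_pre, mem_symmDiff, mem_insert, mem_singleton,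
          Set.mem_insert_iff, Set.mem_singleton_iff, h.eq_iff]
      rwa [this]

theorem Lk.mem (h : Lk lab M S) {e : α} : lab e ∈ S.Z ↔ e ∈ M.E := by
  rw [h.gr]
  exact ⟨fun ⟨x, hx, e⟩ => h.inj e ▸ hx, fun he => ⟨e, he, rfl⟩⟩

theorem Lk.dual (h : Lk lab M S) : Lk lab M✶ S.dual := by
  refine ⟨h.inj, h.gr, fun F => ?_⟩
  change F ⊆ S.Z ∧ S.β (S.Z \ F) ↔ F ⊆ S.Z ∧ _
  refine and_congr_right fun hF => ?_
  have e : pre lab (S.Z \ F) = M.E \ pre lab F := by
    ext x
    simp only [mem_pre, mem_sdiff, Set.mem_sdiff, h.mem]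
  rw [h.bs, and_iff_right sdiff_subset, e,
    dual_isBase_iff (B := pre lab F) fun x hx => h.mem.1 (hF hx)]

theorem Lk.fin [Fintype α] (h : Lk lab M S) {F : Finset ℕ} (hF : F ⊆ S.Z) :
    ∃ I : Finset α, (I : Set α) = pre lab F ∧ I.image lab = F := by
  refine ⟨univ.filter fun e => lab e ∈ F, by ext e; simp [mem_pre], ?_⟩
  ext i
  simp only [mem_image, mem_filter, mem_univ, true_and]
  constructor
  · rintro ⟨x, hx, rfl⟩; exact hx
  · intro hi
    obtain ⟨x, -, rfl⟩ := (h.gr i).1 (hF hi)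
    exact ⟨x, hi, rfl⟩

theorem Lk.base (h : Lk lab M S) (I : Finset α) : S.β (I.image lab) ↔ M.IsBase (I : Set α) := by
  rw [h.bs, pre_image h.inj]
  exact ⟨fun k => k.2, fun k => ⟨image_subset_iff.2 fun x hx => h.mem.2 (k.subset_ground hx), k⟩⟩

theorem Lk.uniform [Fintype α] (h : Lk lab M S) (hS : S.IsU25) : IsUniform M 2 5 := by
  constructor
  · obtain ⟨I, h1, h2⟩ := h.fin (Subset.refl S.Z)
    have : M.E = I := by
      ext x
      rw [h1, mem_pre, h.mem]
    rw [this, Set.ncard_coe_finset, ← card_image_of_injective I h.inj, h2, hS.1]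
  · intro B
    lift B to Finset α using Set.toFinite B
    rw [← h.base, hS.2, Set.ncard_coe_finset, card_image_of_injective B h.inj, image_subset_iff]
    exact and_congr_left fun _ => ⟨fun k x hx => h.mem.1 (k x hx), fun k x hx => h.mem.2 (k hx)⟩

theorem uniform_dual [Fintype α] (h : IsUniform M✶ 2 5) : IsUniform M 3 5 := by
  have h1 : M.E.ncard = 5 := h.1
  refine ⟨h1, fun B => ?_⟩
  have k : B ⊆ M.E → (M.E \ B).ncard + B.ncard = 5 := fun hB => by
    rw [Set.ncard_sdiff_add_ncard_of_subset hB, h1]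
  constructor
  · intro hB
    have := ((h.2 _).1 hB.compl_isBase_dual).2
    have := k hB.subset_ground
    exact ⟨hB.subset_ground, by omega⟩
  · rintro ⟨h2, h3⟩
    have := k h2
    have h4 := ((h.2 (M.E \ B)).2 ⟨Set.sdiff_subset, by omega⟩).compl_isBase_of_dual
    rwa [Set.sdiff_sdiff_cancel_left h2] at h4

theorem Lk.fano (h : Lk lab M S) (hS : S.IsF7) : IsFano M := by
  classical
  obtain ⟨φ, h1, h2, h3⟩ := hS
  have : ∀ i, ∃ e ∈ M.E, lab e = φ i := fun i =>
    (h.gr _).1 (h2 ▸ mem_image_of_mem φ (mem_univ i))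
  choose ψ m e using this
  refine ⟨ψ, fun i j k => h1 (by rw [← e, ← e, k]), ?_, fun T => ?_⟩
  · ext x
    constructor
    · rintro ⟨i, rfl⟩
      exact m i
    · intro hx
      have := h.mem.2 hx
      rw [← h2, mem_image] at this
      obtain ⟨i, -, k⟩ := this
      exact ⟨i, h.inj ((e i).trans k)⟩
  · rw [← h3, ← coe_image, ← h.base, image_image]
    exact Iff.of_eq (congrArg S.β (image_congr fun i _ => e i))

theorem Lk.ternary [Fintype α] (h : Lk lab M S) {n : ℕ} (hn : ∀ e, lab e < n) (hS : S.Tern) :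
    Ternary M := by
  classical
  obtain ⟨B, A, hB, hA⟩ := hS
  have hDB : (A.restrict S.Z).B = B := by
    ext i
    rw [mem_B]
    exact ⟨fun k => (hA.row i k.1).1 k.2, fun k => ⟨S.sub B hB k, (hA.row i (S.sub B hB k)).2 k⟩⟩
  have hb : ∀ F, (A.restrict S.Z).Base F ↔ S.β F := fun F => by
    by_cases hF : F ⊆ S.Z
    · have hT : B ∆ F ⊆ S.Z := fun i hi => by
        rcases mem_symmDiff.1 hi with k | k
        exacts [S.sub B hB k.1, hF k.1]
      have := hA.ns _ hT
      rwa [ns_iff' hT, hDB, symmDiff_symmDiff_cancel_left] at this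
    · exact ⟨fun k => absurd k.1 hF, fun k => absurd (S.sub F k) hF⟩
  let v : α → Fin n → F3 := fun e k =>
    if (k : ℕ) ∈ B then (if lab e = k then 1 else 0) - A.S (lab e) k else 0
  obtain ⟨N, hE, hN⟩ := exists_vecMatroid (K := F3) v
  have hv : ∀ I ⊆ M.E, (N ↾ M.E).Indep I ↔ LinearIndepOn F3 v I := fun I hI => by
    rw [restrict_indep_iff, hN, and_iff_left hI]
  have hZ : S.Z = M.E.toFinset.image lab := by
    ext i
    simp [h.gr]
  have hr : MRep lab (N ↾ M.E) (A.restrict S.Z) := by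
    refine lk_of_ker h.inj (E0 := M.E.toFinset) (Set.coe_toFinset _) hZ hv fun d => ?_
    have key : ∀ k : Fin n, (k : ℕ) ∈ B → (∑ e ∈ M.E.toFinset, d (lab e) • v e) k =
        d k - ∑ j ∈ S.Z, d j * A.S j k := fun k hk => by
      obtain ⟨x, hx, ex⟩ := (h.gr _).1 (S.sub B hB hk)
      rw [Finset.sum_apply, hZ, sum_image h.inj.injOn]
      simp only [v, Pi.smul_apply, smul_eq_mul, if_pos hk, mul_sub, sum_sub_distrib]
      rw [sum_eq_single_of_mem x (Set.mem_toFinset.2 hx) fun y _ hy => by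
        rw [if_neg fun e => hy (h.inj (e.trans ex.symm)), mul_zero], if_pos ex, mul_one, ex]
    rw [hDB]
    constructor
    · intro k
      funext i
      by_cases hi : (i : ℕ) ∈ B
      · rw [key i hi]
        exact sub_eq_zero.2 (k i hi)
      · rw [Finset.sum_apply]
        exact sum_eq_zero fun y _ => by simp [v, hi]
    · intro k i hi
      obtain ⟨x, -, rfl⟩ := (h.gr _).1 (S.sub B hB hi)
      have := key ⟨lab x, hn x⟩ hi
      rw [k] at this
      exact sub_eq_zero.1 this.symm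
  have : N ↾ M.E = M := by
    refine ext_isBase rfl fun F _ => ?_
    lift F to Finset α using Set.toFinite F
    rw [hr.base, hb, h.base]
  exact ⟨n, v, this ▸ hv⟩

theorem base_union [Fintype α] {N : Matroid α} {J B : Set α} (hJ : Disjoint J N.E)
    (hN : ∀ X ⊆ N.E, N.Indep X ↔ M.Indep (X ∪ J)) (hB : B ⊆ N.E) (hb : M.IsBase (B ∪ J))
    {X : Set α} (hX : X ⊆ N.E) : N.IsBase X ↔ M.IsBase (X ∪ J) := by
  have k : ∀ X ⊆ N.E, M.IsBase (X ∪ J) → N.IsBase X := fun X hX h => by
    refine ((hN X hX).2 h.indep).isBase_of_maximal fun Y hY hXY => ?_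
    have := h.eq_of_subset_indep ((hN Y hY.subset_ground).1 hY)
      (Set.union_subset_union_left _ hXY)
    refine hXY.antisymm fun y hy => ?_
    have h2 : y ∈ X ∪ J := this ▸ Or.inl hy
    exact h2.resolve_right fun h3 => Set.disjoint_left.1 hJ h3 (hY.subset_ground hy)
  refine ⟨fun h => ?_, k X hX⟩
  obtain ⟨Y, hY, hXY⟩ := ((hN X hX).1 h.indep).exists_isBase_superset
  have h1 := h.ncard_eq_ncard_of_isBase (k B hB hb)
  have h2 := hY.ncard_eq_ncard_of_isBase hb
  rw [Set.eq_of_subset_of_ncard_le hXY (by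
    rw [h2, Set.ncard_union_eq (hJ.mono_right hB).symm, Set.ncard_union_eq (hJ.mono_right hX).symm,
      h1])]
  exact hY

theorem Lk.min [Fintype α] (h : Lk lab M S) (hm : ∀ N : Matroid α, N <m M → Ternary N) :
    S.Min := by
  intro B hB X hX
  obtain ⟨z, hz, hzX⟩ := exists_of_ssubset hX
  obtain ⟨x, hx, rfl⟩ := (h.gr z).1 hz
  have : Nonempty α := ⟨x⟩
  obtain ⟨hBZ, hB'⟩ := (h.bs B).1 hB
  have hJi : M.Indep (pre lab (B \ X)) := hB'.indep.subset fun y hy => (mem_sdiff.1 hy).1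
  obtain ⟨N, hN, hE, hI⟩ : ∃ N : Matroid α, N ≤m M ∧ N.E = pre lab X ∧
      ∀ Y ⊆ N.E, N.Indep Y ↔ M.Indep (Y ∪ pre lab (B \ X)) := by
    have hE : (M ／ pre lab (B \ X) ＼ (pre lab X)ᶜ).E = pre lab X := by
      ext e
      simp only [delete_ground, contract_ground, Set.mem_sdiff, Set.mem_compl_iff, not_not,
        mem_pre, mem_sdiff]
      exact ⟨fun hh => hh.2, fun hh => ⟨⟨h.mem.1 (hX.subset hh), fun k => k.2 hh⟩, hh⟩⟩
    refine ⟨_, contract_delete_isMinor M _ _, hE, fun Y hY => ?_⟩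
    rw [hE] at hY
    rw [delete_indep_iff, hJi.contract_indep_iff]
    refine ⟨fun hh => hh.1.2, fun hh => ⟨⟨?_, hh⟩, ?_⟩⟩
    · exact Set.disjoint_left.2 fun y hy hyJ => (mem_sdiff.1 hyJ).2 (hY hy)
    · exact Set.disjoint_left.2 fun y hy hyU => hyU (hY hy)
  obtain ⟨D, hD⟩ := lk_exists (hm N (isStrictMinor_iff_isMinor_ne.2 ⟨hN, fun e => hzX (by
    rw [← mem_pre, ← hE, e]; exact hx)⟩)) h.inj
  have hZ : D.Z = X := by
    ext i
    rw [hD.gr, hE]
    constructor
    · rintro ⟨e, he, rfl⟩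
      exact he
    · intro hi
      obtain ⟨e, -, rfl⟩ := (h.gr i).1 (hX.subset hi)
      exact ⟨e, hi, rfl⟩
  have key : ∀ T ⊆ X, D.Base ((B ∩ X) ∆ T) ↔ S.β (B ∆ T) := fun T hT => by
    have s1 : (B ∩ X) ∆ T ⊆ X := fun i hi => by
      rcases mem_symmDiff.1 hi with k | k
      exacts [(mem_inter.1 k.1).2, hT k.1]
    have s2 : B ∆ T ⊆ S.Z := fun i hi => by
      rcases mem_symmDiff.1 hi with k | k
      exacts [hBZ k.1, hX.subset (hT k.1)]
    obtain ⟨I, h1, h2⟩ := h.fin (s1.trans hX.subset)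
    rw [← h2, ← hD.base, h1, h.bs, and_iff_right s2,
      base_union (M := M) (B := pre lab (B ∩ X)) _ hI _ _ (hE ▸ fun y hy => s1 hy)]
    · have : pre lab ((B ∩ X) ∆ T) ∪ pre lab (B \ X) = pre lab (B ∆ T) := by
        ext y
        have := @hT (lab y)
        simp only [Set.mem_union, mem_pre, mem_symmDiff, mem_inter, mem_sdiff]
        tauto
      rw [this]
    · rw [hE]
      exact Set.disjoint_left.2 fun y hy => (mem_sdiff.1 hy).2
    · rw [hE]
      exact fun y hy => (mem_inter.1 hy).2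
    · have : pre lab (B ∩ X) ∪ pre lab (B \ X) = pre lab B := by
        ext y
        simp only [Set.mem_union, mem_pre, mem_inter, mem_sdiff]
        tauto
      rwa [this]
  have hb : D.Base (B ∩ X) := by
    have := (key ∅ (empty_subset _)).2 (by
      rwa [show B ∆ ∅ = B from symmDiff_bot B])
    rwa [show (B ∩ X) ∆ ∅ = B ∩ X from symmDiff_bot _] at this
  obtain ⟨E, hE', hEB⟩ := reach_base hb
  have hr : D.Reach E := hE'.reach (union_subset (sdiff_subset.trans hb.1)
    (sdiff_subset.trans (lk_B D)))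
  have hEZ : E.Z = X := hr.Z_eq.trans hZ
  refine ⟨E, fun i hi => ?_, fun T hT => ?_⟩
  · have : i ∈ E.B ↔ i ∈ B ∩ X := by rw [hEB]
    rwa [mem_B, hEZ, and_iff_right hi, mem_inter, and_iff_left hi] at this
  · rw [ns_iff' hT, ← hEZ, Disp.restrict_self, hEB, hr.base_iff]
    exact key T hT

theorem four_of (four : ∀ S : BS, S.Min → ¬ S.Tern →
    S.IsU25 ∨ S.dual.IsU25 ∨ S.IsF7 ∨ S.dual.IsF7) {α : Type} [Fintype α] (M : Matroid α)
    (hT : ¬ Ternary M) (hm : ∀ N : Matroid α, N <m M → Ternary N) :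
    IsUniform M 2 5 ∨ IsUniform M 3 5 ∨ IsFano M ∨ IsFano M✶ := by
  obtain ⟨S, h⟩ := exists_lk (lab := fun e => (Fintype.equivFin α e : ℕ))
    (Fin.val_injective.comp (Fintype.equivFin α).injective) M
  rcases four S (h.min hm) (fun k => hT (h.ternary (fun e => (Fintype.equivFin α e).2) k)) with
    k | k | k | k
  · exact Or.inl (h.uniform k)
  · exact Or.inr (Or.inl (uniform_dual (h.dual.uniform k)))
  · exact Or.inr (Or.inr (Or.inl (h.fano k)))
  · exact Or.inr (Or.inr (Or.inr (h.dual.fano k)))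

end CHAux

end Pool.Agent.Lib.MP_c69b6d_co.F
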