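import Pool.Agent.Lib.MP_c69b6d_co.F.CF
import Pool.Agent.Lib.MP_c69b6d_co.F.CG
import Pool.Agent.Lib.MP_c69b6d_co.F.Linkd
import Pool.Agent.Lib.MP_c69b6d_co.Defs9
import Pool.Agent.Lib.MP_c69b6d_co.F.CHa

/-! Stage C: minimal non-ternary matroids. -/

namespace Pool.Agent.Lib.MP_c69b6d_co.F

open Finset Disp Matroid
open scoped symmDiff

theorem BS.four {M : BS} (hm : M.Min) (hT : ¬ M.Tern) :
    M.IsU25 ∨ M.dual.IsU25 ∨ M.IsF7 ∨ M.dual.IsF7 := by
  rcases BS.exists_dpair hm hT with h | h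
  · obtain ⟨B, A, u, v, w, n, hp⟩ := BS.pth_of_pair hm hT h
    rcases hp.classify (BS.not_both hm hT h) with h | h
    · exact Or.inl h
    · exact Or.inr (Or.inr (Or.inl h))
  · have hT' : ¬ M.dual.Tern := fun t => hT (M.dual_dual ▸ t.dual)
    obtain ⟨B, A, u, v, w, n, hp⟩ := BS.pth_of_pair hm.dual hT' h
    rcases hp.classify (BS.not_both hm.dual hT' h) with h | h
    · exact Or.inr (Or.inl h)
    · exact Or.inr (Or.inr (Or.inr h))

theorem four_of_min {α : Type} [Fintype α] (M : Matroid α) (hT : ¬ Ternary M)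
    (hm : ∀ N : Matroid α, N <m M → Ternary N) :
    IsUniform M 2 5 ∨ IsUniform M 3 5 ∨ IsFano M ∨ IsFano M✶ :=
  CHAux.four_of (fun _ => BS.four) M hT hm

end Pool.Agent.Lib.MP_c69b6d_co.F
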