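import Pool.Agent.Lib.MP_c69b6d_co.F.Linkd
import Pool.Agent.Lib.MP_c69b6d_co.Defs9

/-! Stage C: the four matroids are minimal non-ternary matroids. -/

namespace Pool.Agent.Lib.MP_c69b6d_co.F

open Finset Disp Matroid

namespace CI

theorem tern_of_lab {α β : Type} {N : Matroid α} {φ : β → α} (hφ : Function.Injective φ)
    (hE : N.E ⊆ Set.range φ) {n : ℕ} (w : β → Fin n → ZMod 3)
    (h : ∀ T : Set β, φ '' T ⊆ N.E → (N.Indep (φ '' T) ↔ LinearIndepOn (ZMod 3) w T)) :
    Ternary N := by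
  refine ⟨n, Function.extend φ w 0, fun I hI => ?_⟩
  obtain ⟨T, rfl⟩ := Set.subset_range_iff_exists_image_eq.1 (hI.trans hE)
  rw [h T hI]
  constructor
  · intro h1
    refine LinearIndepOn.image_of_comp _ _ ?_
    rwa [Function.extend_comp hφ]
  · intro h1
    have := h1.comp_of_image hφ.injOn
    rwa [Function.extend_comp hφ] at this

theorem tern_of_check {α β : Type} [Fintype β] [DecidableEq β] {N : Matroid α} {φ : β → α}
    (hφ : Function.Injective φ) (hE : N.E ⊆ Set.range φ) {n : ℕ} (w : β → Fin n → ZMod 3)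
    (S : β → Prop) (hS : ∀ i, φ i ∈ N.E → S i) (R : Finset β → Prop)
    (hR : ∀ T : Finset β, (∀ i ∈ T, S i) → (N.Indep (φ '' T) ↔ R T))
    (h1 : ∀ c : β → ZMod 3, (∀ i, c i ≠ 0 → S i) → (∀ j, ∑ i, c i * w i j = 0) →
      R (univ.filter fun i => c i ≠ 0) → ∀ i, c i = 0)
    (L : List (β → ZMod 3))
    (h2 : ∀ T : Finset β, (∀ i ∈ T, S i) →
      R T ∨ ∃ c ∈ L, (∀ j, ∑ i ∈ T, c i * w i j = 0) ∧ ∃ i ∈ T, c i ≠ 0) :
    Ternary N := by
  refine tern_of_lab hφ hE w fun T hT => ?_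
  lift T to Finset β using Set.toFinite T
  have hTS : ∀ i ∈ T, S i := fun i hi => hS i (hT ⟨i, hi, rfl⟩)
  rw [linearIndepOn_finset_iff]
  constructor
  · intro hi f hf i hiT
    have hsub : ∀ j, (if j ∈ T then f j else 0) ≠ 0 → j ∈ T := fun j hj => by
      by_contra h0
      exact hj (if_neg h0)
    have := h1 (fun j => if j ∈ T then f j else 0) (fun j hj => hTS j (hsub j hj)) (fun j => by
      have := congrFun hf j
      simp only [Finset.sum_apply, Pi.smul_apply, smul_eq_mul, Pi.zero_apply] at this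
      simp only [ite_mul, zero_mul]
      rw [← Finset.sum_filter]
      simpa using this) (by
      rw [← hR _ (fun j hj => hTS j (hsub j (mem_filter.1 hj).2))]
      exact hi.subset (Set.image_mono fun j hj => hsub j (mem_filter.1 hj).2)) i
    simpa [hiT] using this
  · intro hl
    rcases h2 T hTS with h | ⟨c, -, hc, i, hi, hci⟩
    · exact (hR T hTS).2 h
    · exact absurd (hl c (by funext j; simpa [Finset.sum_apply] using hc j) i hi) hci

theorem minors_of {α : Type} {M : Matroid α}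
    (h : ∀ e ∈ M.E, Ternary (M ＼ {e}) ∧ Ternary (M ／ {e})) (N : Matroid α) (hN : N <m M) :
    Ternary N := by
  obtain ⟨C, D, hC, hD, hCD, rfl⟩ := hN.isMinor.exists_eq_contract_delete_disjoint
  obtain ⟨e, he, heN⟩ := Set.exists_of_ssubset hN.ssubset
  by_cases heC : e ∈ C
  · refine (h e he).2.minor ⟨C, D, ?_⟩
    rw [contract_contract, Set.union_eq_self_of_subset_left (Set.singleton_subset_iff.2 heC)]
  · have heD : e ∈ D := by
      by_contra heD
      exact heN ⟨⟨he, heC⟩, heD⟩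
    refine (h e he).1.minor ⟨C, D, ?_⟩
    rw [← contract_delete_comm _ (Set.disjoint_singleton_right.2 heC), delete_delete,
      Set.union_eq_self_of_subset_left (Set.singleton_subset_iff.2 heD)]

theorem coords {α β : Type} {M : Matroid α} (hT : Ternary M) {φ : β → α}
    (hφ : Function.Injective φ) (hE : ∀ i, φ i ∈ M.E) {r : ℕ} {b : Fin r → β}
    (hb : Function.Injective b) (hB : M.IsBase (φ '' Set.range b)) :
    ∃ u : β → Fin r → ZMod 3, (∀ i, u (b i) = Pi.single i 1) ∧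
      ∀ T : Set β, M.Indep (φ '' T) ↔ LinearIndepOn (ZMod 3) u T := by
  classical
  have : Fact (Nat.Prime 3) := ⟨by norm_num⟩
  obtain ⟨n, v, hv⟩ := hT
  have hli : LinearIndependent (ZMod 3) (v ∘ φ ∘ b) := by
    rw [← linearIndepOn_range_iff (hφ.comp hb), Set.range_comp]
    exact (hv _ hB.subset_ground).1 hB.indep
  let L := Fintype.linearCombination (ZMod 3) (v ∘ φ ∘ b)
  have hL : Function.Injective L := by
    rw [← LinearMap.ker_eq_bot, LinearMap.ker_eq_bot']
    intro x hx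
    funext i
    exact Fintype.linearIndependent_iff.1 hli x (by simpa [L, Fintype.linearCombination_apply] using hx) i
  have hex : ∀ i, ∃ c : Fin r → ZMod 3, L c = v (φ i) := by
    intro i
    have := mem_span_base hv hB.isBasis_ground (hE i)
    rw [← Set.range_comp, ← Set.range_comp, Submodule.mem_span_range_iff_exists_fun] at this
    obtain ⟨c, hc⟩ := this
    exact ⟨c, by simpa [L, Fintype.linearCombination_apply] using hc⟩
  choose u hu using hex
  refine ⟨u, fun i => hL ?_, fun T => ?_⟩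
  · rw [hu]
    simp [L]
  · rw [hv _ (by rintro _ ⟨i, -, rfl⟩; exact hE i),
      ← LinearMap.linearIndepOn_iff_of_injOn L hL.injOn]
    have e : (L ∘ u) = v ∘ φ := funext hu
    rw [e]
    exact ⟨fun h => h.comp_of_image hφ.injOn, fun h => h.image_of_comp _ _⟩

/-- independence of two vectors. -/
def P2 {r : ℕ} (x y : Fin r → ZMod 3) : Prop :=
  ∀ a b : ZMod 3, (∀ j, a * x j + b * y j = 0) → a = 0 ∧ b = 0

/-- independence of three vectors. -/
def P3 {r : ℕ} (x y z : Fin r → ZMod 3) : Prop :=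
  ∀ a b c : ZMod 3, (∀ j, a * x j + b * y j + c * z j = 0) → a = 0 ∧ b = 0 ∧ c = 0

instance {r : ℕ} (x y : Fin r → ZMod 3) : Decidable (P2 x y) := by unfold P2; infer_instance

instance {r : ℕ} (x y z : Fin r → ZMod 3) : Decidable (P3 x y z) := by unfold P3; infer_instance

theorem p2_of {β : Type} [DecidableEq β] {r : ℕ} {u : β → Fin r → ZMod 3} {i j : β} (hij : i ≠ j)
    (h : LinearIndepOn (ZMod 3) u ({i, j} : Finset β)) : P2 (u i) (u j) := by
  intro a b hab
  rw [linearIndepOn_finset_iff] at h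
  have := h (fun k => if k = i then a else b) (by
    funext t
    rw [sum_pair hij]
    simpa [hij.symm] using hab t)
  exact ⟨by simpa using this i (by simp), by simpa [hij.symm] using this j (by simp)⟩

theorem p3_iff {β : Type} [DecidableEq β] {r : ℕ} {u : β → Fin r → ZMod 3} {i j k : β}
    (hij : i ≠ j) (hik : i ≠ k) (hjk : j ≠ k) :
    LinearIndepOn (ZMod 3) u ({i, j, k} : Finset β) ↔ P3 (u i) (u j) (u k) := by
  rw [linearIndepOn_finset_iff]
  have hs : ∀ f : β → ZMod 3, ∑ t ∈ ({i, j, k} : Finset β), f t • u t =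
      f i • u i + f j • u j + f k • u k := fun f => by
    rw [sum_insert (by simp [hij, hik]), sum_pair hjk, add_assoc]
  constructor
  · intro h a b c hab
    have := h (fun t => if t = i then a else if t = j then b else c) (by
      funext t
      rw [hs]
      simpa [hij.symm, hik.symm, hjk.symm] using hab t)
    exact ⟨by simpa using this i (by simp), by simpa [hij.symm] using this j (by simp),
      by simpa [hik.symm, hjk.symm] using this k (by simp)⟩
  · intro h f hf t ht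
    rw [hs] at hf
    obtain ⟨h1, h2, h3⟩ := h (f i) (f j) (f k) fun s => by simpa using congrFun hf s
    simp only [mem_insert, mem_singleton] at ht
    rcases ht with rfl | rfl | rfl <;> assumption

theorem exists_lab {α : Type} [Finite α] {X : Set α} {n : ℕ} (h : X.ncard = n) :
    ∃ φ : Fin n → α, Function.Injective φ ∧ Set.range φ = X := by
  lift X to Finset α using Set.toFinite X
  rw [Set.ncard_coe_finset] at h
  subst h
  refine ⟨fun i => (X.equivFin.symm i : α),
    fun i j h => X.equivFin.symm.injective (Subtype.ext h), ?_⟩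
  ext x
  exact ⟨fun ⟨i, hi⟩ => hi ▸ (X.equivFin.symm i).2, fun hx => ⟨X.equivFin ⟨x, hx⟩, by simp⟩⟩

theorem unif_indep {α : Type} [Finite α] {M : Matroid α} {r n : ℕ} (h : IsUniform M r n)
    (hr : r ≤ n) {I : Set α} (hI : I ⊆ M.E) : M.Indep I ↔ I.ncard ≤ r := by
  constructor
  · intro hi
    obtain ⟨B, hB, hIB⟩ := hi.exists_isBase_superset
    exact ((h.2 B).1 hB).2 ▸ Set.ncard_le_ncard hIB
  · intro hi
    obtain ⟨B, h1, h2, h3⟩ := Set.exists_subsuperset_card_eq hI hi (h.1 ▸ hr)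
    exact ((h.2 B).2 ⟨h2, h3⟩).indep.subset h1

theorem unif_dual {α : Type} [Finite α] {M : Matroid α} (h : IsUniform M 3 5) :
    IsUniform M✶ 2 5 := by
  refine ⟨h.1, fun B => ?_⟩
  rw [dual_isBase_iff', h.2, dual_ground]
  constructor
  · rintro ⟨⟨-, h1⟩, h2⟩
    have h3 := Set.ncard_sdiff_add_ncard_of_subset h2
    rw [h.1] at h3
    exact ⟨h2, by omega⟩
  · rintro ⟨h2, h1⟩
    have h3 := Set.ncard_sdiff_add_ncard_of_subset h2
    rw [h.1] at h3
    exact ⟨⟨Set.sdiff_subset, by omega⟩, h2⟩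

theorem u25_check : ∀ x : Fin 2 → ZMod 3, P2 (Pi.single 0 1) x → P2 (Pi.single 1 1) x →
    ∀ y : Fin 2 → ZMod 3, P2 (Pi.single 0 1) y → P2 (Pi.single 1 1) y → P2 x y →
    ∀ z : Fin 2 → ZMod 3, P2 (Pi.single 0 1) z → P2 (Pi.single 1 1) z → P2 x z → ¬ P2 y z := by
  decide +kernel

/-- minimal non-ternary with at most seven elements. -/
def Good {α : Type} (M : Matroid α) : Prop :=
  ¬ Ternary M ∧ M.E.ncard ≤ 7 ∧ ∀ N : Matroid α, N <m M → Ternary N

theorem Good.of_dual {α : Type} [Fintype α] {M : Matroid α} (h : Good M✶) : Good M :=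
  ⟨fun t => h.1 t.dual, h.2.1, fun N hN => N.dual_dual ▸ (h.2.2 _ (isStrictMinor_dual hN)).dual⟩

theorem good_u25 {α : Type} [Fintype α] {M : Matroid α} (h : IsUniform M 2 5) : Good M := by
  refine ⟨fun hT => ?_, by rw [h.1]; norm_num, minors_of fun e he => ?_⟩
  · obtain ⟨φ, hφ, hE⟩ := exists_lab h.1
    have hE' : ∀ i, φ i ∈ M.E := fun i => hE ▸ Set.mem_range_self i
    have hsub : ∀ T : Set (Fin 5), φ '' T ⊆ M.E := by rintro T _ ⟨i, -, rfl⟩; exact hE' i
    obtain ⟨u, h1, h2⟩ := coords hT hφ hE' (b := ![0, 1]) (by decide) ((h.2 _).2 ⟨hsub _, by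
      rw [Set.ncard_image_of_injective _ hφ, Set.ncard_range_of_injective (by decide)]
      simp⟩)
    have hp : ∀ i j : Fin 5, i ≠ j → P2 (u i) (u j) := fun i j hij => p2_of hij ((h2 _).1 (by
      rw [unif_indep h (by norm_num) (hsub _), Set.ncard_image_of_injective _ hφ,
        Set.ncard_coe_finset]
      exact card_le_two))
    have e0 : u 0 = Pi.single 0 1 := h1 0
    have e1 : u 1 = Pi.single 1 1 := h1 1
    exact u25_check (u 2) (e0 ▸ hp 0 2 (by decide)) (e1 ▸ hp 1 2 (by decide))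
      (u 3) (e0 ▸ hp 0 3 (by decide)) (e1 ▸ hp 1 3 (by decide)) (hp 2 3 (by decide))
      (u 4) (e0 ▸ hp 0 4 (by decide)) (e1 ▸ hp 1 4 (by decide)) (hp 2 4 (by decide))
      (hp 3 4 (by decide))
  · have h4 : (M.E \ {e}).ncard = 4 := by rw [Set.ncard_sdiff_singleton_of_mem he, h.1]
    obtain ⟨φ, hφ, hE⟩ := exists_lab h4
    have hE' : ∀ i, φ i ∈ M.E \ {e} := fun i => hE ▸ Set.mem_range_self i
    have hsub : ∀ T : Set (Fin 4), φ '' T ⊆ M.E := by rintro T _ ⟨i, -, rfl⟩; exact (hE' i).1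
    have hne : ∀ T : Set (Fin 4), e ∉ φ '' T := by rintro T ⟨i, -, hi⟩; exact (hE' i).2 hi
    constructor
    · refine tern_of_check hφ hE.ge ![![1, 0], ![0, 1], ![1, 1], ![1, 2]] (fun _ => True)
        (fun _ _ => trivial) (fun T => T.card ≤ 2) (fun T _ => ?_) (by decide +kernel)
        [![1, 1, 2, 0], ![1, 2, 0, 2], ![1, 0, 1, 1], ![0, 1, 1, 2]] (by decide +kernel)
      rw [deleteElem_indep_iff, and_iff_left (hne _), unif_indep h (by norm_num) (hsub _),
        Set.ncard_image_of_injective _ hφ, Set.ncard_coe_finset]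
    · refine tern_of_check hφ hE.ge ![![1], ![1], ![1], ![1]] (fun _ => True)
        (fun _ _ => trivial) (fun T => T.card + 1 ≤ 2) (fun T _ => ?_) (by decide +kernel)
        [![1, 2, 0, 0], ![1, 0, 2, 0], ![1, 0, 0, 2], ![0, 1, 2, 0], ![0, 1, 0, 2], ![0, 0, 1, 2]]
        (by decide +kernel)
      have hnl : M.IsNonloop e := by
        rw [← indep_singleton, unif_indep h (by norm_num) (Set.singleton_subset_iff.2 he)]
        simp
      rw [hnl.contractElem_indep_iff, and_iff_right (hne _),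
        unif_indep h (by norm_num) (Set.insert_subset he (hsub _)),
        Set.ncard_insert_of_notMem (hne _), Set.ncard_image_of_injective _ hφ,
        Set.ncard_coe_finset]

/-- the independent sets of the Fano matroid. -/
def RF (T : Finset (ZMod 7)) : Prop := T.card ≤ 3 ∧ ∀ i, T ≠ {i, i + 1, i + 3}

instance : DecidablePred RF := fun T => by unfold RF; infer_instance

theorem rf_ext : ∀ T : Finset (ZMod 7), RF T →
    ∃ T' : Finset (ZMod 7), T ⊆ T' ∧ T'.card = 3 ∧ ∀ i, T' ≠ {i, i + 1, i + 3} := by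
  decide +kernel

theorem rf_shift : ∀ k : ZMod 7, ∀ T : Finset (ZMod 7), RF (T.image (· + k)) ↔ RF T := by
  decide +kernel

theorem line_card : ∀ i : ZMod 7, ({i, i + 1, i + 3} : Finset (ZMod 7)).card = 3 := by
  decide +kernel

theorem fano_indep {α : Type} {M : Matroid α} {φ : ZMod 7 → α} (hφ : Function.Injective φ)
    (hE : Set.range φ = M.E)
    (h : ∀ T : Finset (ZMod 7), M.IsBase (φ '' T) ↔ T.card = 3 ∧ ∀ i, T ≠ {i, i + 1, i + 3})
    (T : Finset (ZMod 7)) : M.Indep (φ '' T) ↔ RF T := by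
  constructor
  · intro hi
    obtain ⟨B, hB, hIB⟩ := hi.exists_isBase_superset
    obtain ⟨T', rfl⟩ := Set.subset_range_iff_exists_image_eq.1 (hB.subset_ground.trans hE.ge)
    lift T' to Finset (ZMod 7) using Set.toFinite T'
    obtain ⟨h1, h2⟩ := (h T').1 hB
    have hs : T ⊆ T' := Finset.coe_subset.1 ((Set.image_subset_image_iff hφ).1 hIB)
    refine ⟨h1 ▸ card_le_card hs, fun i hi => h2 i ?_⟩
    rw [← hi]
    exact (eq_of_subset_of_card_le hs (by rw [h1, hi, line_card])).symm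
  · intro hr
    obtain ⟨T', h1, h2⟩ := rf_ext T hr
    exact ((h T').2 h2).indep.subset (Set.image_mono (Finset.coe_subset.2 h1))

set_option synthInstance.maxSize 1024 in
theorem f7_check : ∀ x : Fin 3 → ZMod 3, ¬ P3 (Pi.single 0 1) (Pi.single 1 1) x →
    P3 (Pi.single 0 1) (Pi.single 2 1) x → P3 (Pi.single 1 1) (Pi.single 2 1) x →
    ∀ y : Fin 3 → ZMod 3, ¬ P3 (Pi.single 1 1) (Pi.single 2 1) y →
    P3 (Pi.single 0 1) (Pi.single 1 1) y → P3 (Pi.single 0 1) (Pi.single 2 1) y →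
    ∀ z : Fin 3 → ZMod 3, ¬ P3 (Pi.single 0 1) (Pi.single 2 1) z → ¬ P3 x y z →
    P3 (Pi.single 0 1) (Pi.single 1 1) z → P3 (Pi.single 1 1) (Pi.single 2 1) z →
    ∀ t : Fin 3 → ZMod 3, ¬ P3 (Pi.single 2 1) x t → ¬ P3 (Pi.single 0 1) y t →
    ¬ P3 (Pi.single 1 1) t z → ¬ P3 (Pi.single 1 1) (Pi.single 2 1) t := by
  decide +kernel

def wD : ZMod 7 → Fin 3 → ZMod 3 :=
  ![![0, 0, 0], ![0, 1, 2], ![0, 0, 1], ![1, 0, 0], ![0, 1, 0], ![1, 0, 2], ![1, 2, 0]]

def wC : ZMod 7 → Fin 2 → ZMod 3 :=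
  ![![0, 0], ![1, 0], ![1, 1], ![1, 0], ![0, 1], ![0, 1], ![1, 1]]

def lD : List (ZMod 7 → ZMod 3) :=
  [![0, 1, 1, 0, 2, 0, 0], ![0, 0, 1, 2, 0, 1, 0], ![0, 0, 0, 2, 1, 0, 1], ![0, 1, 0, 0, 0, 2, 1],
    ![0, 1, 1, 2, 0, 0, 1], ![0, 1, 0, 1, 2, 2, 0], ![0, 0, 1, 0, 2, 1, 2]]

def lC : List (ZMod 7 → ZMod 3) :=
  [![0, 1, 0, 2, 0, 0, 0], ![0, 0, 0, 0, 1, 2, 0], ![0, 0, 1, 0, 0, 0, 2],
    ![0, 1, 2, 0, 1, 0, 0], ![0, 1, 2, 0, 0, 1, 0], ![0, 1, 0, 0, 1, 0, 2], ![0, 1, 0, 0, 0, 1, 2],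
    ![0, 0, 2, 1, 1, 0, 0], ![0, 0, 2, 1, 0, 1, 0], ![0, 0, 0, 1, 1, 0, 2], ![0, 0, 0, 1, 0, 1, 2]]

theorem good_fano {α : Type} [Fintype α] {M : Matroid α} (h : IsFano M) : Good M := by
  obtain ⟨φ, hφ, hE, hB⟩ := h
  have hI := fano_indep hφ hE hB
  have hE' : ∀ i, φ i ∈ M.E := fun i => hE ▸ Set.mem_range_self i
  refine ⟨fun hT => ?_, ?_, minors_of fun e he => ?_⟩
  · obtain ⟨u, h1, h2⟩ := coords hT hφ hE' (b := ![0, 1, 2]) (by decide) (by
      have := (hB {2, 1, 0}).2 (by decide +kernel)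
      simpa using this)
    have hp : ∀ i j k : ZMod 7, i ≠ j → i ≠ k → j ≠ k →
        (P3 (u i) (u j) (u k) ↔ RF {i, j, k}) := fun i j k a b c => by
      rw [← p3_iff a b c, ← h2, hI]
    have hy : ∀ i j k : ZMod 7, i ≠ j ∧ i ≠ k ∧ j ≠ k ∧ RF {i, j, k} → P3 (u i) (u j) (u k) :=
      fun i j k a => (hp i j k a.1 a.2.1 a.2.2.1).2 a.2.2.2
    have hn : ∀ i j k : ZMod 7, i ≠ j ∧ i ≠ k ∧ j ≠ k ∧ ¬ RF {i, j, k} → ¬ P3 (u i) (u j) (u k) :=
      fun i j k a b => a.2.2.2 ((hp i j k a.1 a.2.1 a.2.2.1).1 b)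
    have e0 : u 0 = Pi.single 0 1 := h1 0
    have e1 : u 1 = Pi.single 1 1 := h1 1
    have e2 : u 2 = Pi.single 2 1 := h1 2
    have := f7_check
    rw [← e0, ← e1, ← e2] at this
    exact this (u 3) (hn 0 1 3 (by decide +kernel)) (hy 0 2 3 (by decide +kernel))
      (hy 1 2 3 (by decide +kernel)) (u 4) (hn 1 2 4 (by decide +kernel))
      (hy 0 1 4 (by decide +kernel)) (hy 0 2 4 (by decide +kernel)) (u 6)
      (hn 0 2 6 (by decide +kernel)) (hn 3 4 6 (by decide +kernel))
      (hy 0 1 6 (by decide +kernel)) (hy 1 2 6 (by decide +kernel)) (u 5)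
      (hn 2 3 5 (by decide +kernel)) (hn 0 4 5 (by decide +kernel))
      (hn 1 5 6 (by decide +kernel)) (hy 1 2 5 (by decide +kernel))
  · rw [← hE, Set.ncard_range_of_injective hφ]
    simp
  · obtain ⟨k, rfl⟩ : e ∈ Set.range φ := hE ▸ he
    have hψ : Function.Injective fun i => φ (i + k) := hφ.comp (add_left_injective k)
    have hJ : ∀ T : Finset (ZMod 7), M.Indep ((fun i => φ (i + k)) '' T) ↔ RF T := fun T => by
      rw [← rf_shift k T, ← hI, coe_image, Set.image_image]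
    have hR : M.E ⊆ Set.range fun i => φ (i + k) := fun x hx => by
      obtain ⟨i, rfl⟩ : x ∈ Set.range φ := hE ▸ hx
      exact ⟨i - k, by simp⟩
    have hne : ∀ T : Finset (ZMod 7), (∀ i ∈ T, i ≠ 0) → φ k ∉ (fun i => φ (i + k)) '' T := by
      rintro T hT ⟨i, hi, h0⟩
      exact hT i hi (by simpa using hφ h0)
    have hS : ∀ i, φ (i + k) ∈ M.E \ {φ k} → i ≠ 0 := by
      rintro i hi rfl
      exact hi.2 (by simp)
    constructor
    · refine tern_of_check hψ (Set.sdiff_subset.trans hR) wD (fun i => i ≠ 0) hS RF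
        (fun T hT => ?_) (by decide +kernel) lD (by decide +kernel)
      rw [deleteElem_indep_iff, and_iff_left (hne T hT), hJ]
    · refine tern_of_check hψ (Set.sdiff_subset.trans hR) wC (fun i => i ≠ 0) hS
        (fun T => RF (insert 0 T)) (fun T hT => ?_) (by decide +kernel) lC (by decide +kernel)
      have hnl : M.IsNonloop (φ k) := by
        have := (hJ {0}).2 (by decide +kernel)
        rw [← indep_singleton]
        simpa using this
      rw [hnl.contractElem_indep_iff, and_iff_right (hne T hT), ← hJ, coe_insert,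
        Set.image_insert_eq, zero_add]

end CI

theorem min_of_four {α : Type} [Fintype α] (M : Matroid α)
    (h : IsUniform M 2 5 ∨ IsUniform M 3 5 ∨ IsFano M ∨ IsFano M✶) :
    ¬ Ternary M ∧ M.E.ncard ≤ 7 ∧ ∀ N : Matroid α, N <m M → Ternary N := by
  rcases h with h | h | h | h
  · exact CI.good_u25 h
  · exact (CI.good_u25 (CI.unif_dual h)).of_dual
  · exact CI.good_fano h
  · exact (CI.good_fano h).of_dual

theorem ternary_of_copy {α : Type} {M : Matroid α} {A : List (List ℕ)} (h : IsCopy M A) :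
    Ternary M := by
  obtain ⟨φ, hφ, hE, hI⟩ := h
  exact CI.tern_of_lab hφ hE.ge (cols A) fun T _ => hI T

/-- the final assembly. -/
theorem nine (full : ∀ (α : Type) [Fintype α] (M : Matroid α), Ternary M →
      (ExcludedMinor M ↔ ∃ A ∈ [A49, A52, A56, B172, B172d], IsCopy M A))
    (four : ∀ (α : Type) [Fintype α] (M : Matroid α), ¬ Ternary M →
      (∀ N : Matroid α, N <m M → Ternary N) →
      IsUniform M 2 5 ∨ IsUniform M 3 5 ∨ IsFano M ∨ IsFano M✶)
    {α : Type} [Fintype α] (M : Matroid α) :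
    ExcludedMinor M ↔ IsUniform M 2 5 ∨ IsUniform M 3 5 ∨ IsFano M ∨ IsFano M✶ ∨
      ∃ A ∈ [A49, A52, A56, B172, B172d], IsCopy M A := by
  have small : ∀ k : ℕ, ∀ N : Matroid α, N.E.ncard = k → k ≤ 7 → Ternary N → Rayleigh N := by
    intro k
    induction k using Nat.strong_induction_on with
    | _ k ih =>
      intro N hk h7 hT
      by_contra hR
      have hex : ExcludedMinor N := ⟨fun h => hR h.2, fun N' hN' => by
        have hlt : N'.E.ncard < k := hk ▸ Set.ncard_lt_ncard hN'.ssubset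
        exact ⟨hT.minor hN'.isMinor, ih _ hlt N' rfl (by omega) (hT.minor hN'.isMinor)⟩⟩
      obtain ⟨A, hA, φ, hφ, hE, -⟩ := (full α N hT).1 hex
      rw [← hE, Set.ncard_range_of_injective hφ, Nat.card_eq_fintype_card, Fintype.card_fin] at hk
      have : ∀ A ∈ [A49, A52, A56, B172, B172d], 8 ≤ A.length := by decide
      have := this A hA
      omega
  have back : IsUniform M 2 5 ∨ IsUniform M 3 5 ∨ IsFano M ∨ IsFano M✶ → ExcludedMinor M := by
    intro h
    obtain ⟨h1, h2, h3⟩ := min_of_four M h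
    refine ⟨fun h => h1 h.1, fun N hN => ⟨h3 N hN, small _ N rfl ?_ (h3 N hN)⟩⟩
    exact (Set.ncard_lt_ncard hN.ssubset).le.trans h2
  constructor
  · intro h
    by_cases hT : Ternary M
    · exact Or.inr (Or.inr (Or.inr (Or.inr ((full α M hT).1 h))))
    · have := four α M hT fun N hN => (h.2 N hN).1
      tauto
  · rintro (h | h | h | h | ⟨A, hA, h⟩)
    · exact back (Or.inl h)
    · exact back (Or.inr (Or.inl h))
    · exact back (Or.inr (Or.inr (Or.inl h)))
    · exact back (Or.inr (Or.inr (Or.inr h)))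
    · exact (full α M (ternary_of_copy h)).2 ⟨A, hA, h⟩

end Pool.Agent.Lib.MP_c69b6d_co.F
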