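import Pool.Agent.Lib.MP_c69b6d_co.F.Lam

namespace Pool.Agent.Lib.MP_c69b6d_co.F

open Finset Disp

namespace ChainAux

theorem sq3 {s : F3} (h : s ≠ 0) : s * s = 1 := by
  revert s; decide

/-- `U` is the image of an embedding of `L` into a display `E` reached from `D`. -/
def Good (L D E : Disp F3) (U : Finset ℕ) : Prop :=
  D.Reach E ∧ ∃ φ ε, Emb L E φ ε ∧ U = L.Z.image φ

/-- `w` lies outside `U` and vanishes on `U`. -/
def Nul (E : Disp F3) (U : Finset ℕ) (w : ℕ) : Prop :=
  w ∈ E.Z ∧ w ∉ U ∧ ∀ j ∈ U, E.S w j = 0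

/-- `v` lies outside `U` and is a copy of `z` (`a ≠ 0`) or a unit at `z` (`a = 0`). -/
def At (E : Disp F3) (U : Finset ℕ) (v z : ℕ) (a : F3) : Prop :=
  v ∈ E.Z ∧ v ∉ U ∧ z ∈ U ∧ (∀ j ∈ U, j ≠ z → E.S v j = a * E.S z j) ∧
    ((a ≠ 0 ∧ E.row v = E.row z) ∨ (a = 0 ∧ E.S v z ≠ 0))

/-- a walk through null elements which ends in `t`. -/
inductive NTail (E : Disp F3) (U : Finset ℕ) (t : ℕ) : ℕ → ℕ → Prop
  | last (w : ℕ) : Nul E U w → E.S w t ≠ 0 → NTail E U t 0 w
  | step (k w w' : ℕ) : Nul E U w → E.S w w' ≠ 0 → NTail E U t k w' → NTail E U t (k + 1) w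

/-- the standing hypotheses: neither case of the conclusion holds. -/
structure Hyp (L D : Disp F3) (n n' : ℕ) : Prop where
  hL : L.Conn3
  h4 : 4 ≤ L.Z.card
  hn : n ∉ L.Z
  hn' : n' ∉ L.Z
  hnn : n ≠ n'
  n1 : ∀ r v, Minor (L.addEl n r v) D → Deg (L.addEl n r v) L.Z n
  n2 : ∀ z ∈ L.Z, ∀ z' ∈ L.Z, z ≠ z' → ∀ c, Minor (ext2 L n n' z z' c) D → c = cons L z z'

variable {L D E : Disp F3} {U : Finset ℕ} {n n' : ℕ}

theorem NTail.nul {t k w : ℕ} (h : NTail E U t k w) : Nul E U w := by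
  cases h with
  | last _ h _ => exact h
  | step _ _ _ h _ _ => exact h

theorem Good.sub (g : Good L D E U) : U ⊆ E.Z := by
  obtain ⟨_, φ, ε, he, rfl⟩ := g
  intro j hj
  obtain ⟨i, hi, rfl⟩ := mem_image.1 hj
  exact he.mem i hi

theorem Good.card (g : Good L D E U) : U.card = L.Z.card := by
  obtain ⟨_, φ, ε, he, rfl⟩ := g
  exact card_image_of_injOn he.inj

theorem Good.nodep (H : Hyp L D n n') (g : Good L D E U) {z z' : ℕ} (hz : z ∈ U) (hz' : z' ∈ U)
    (hne : z ≠ z') (c : F3) : ¬ ∀ j ∈ U, j ≠ z → j ≠ z' → E.S z j = c * E.S z' j := by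
  intro h
  obtain ⟨_, φ, ε, he, rfl⟩ := g
  obtain ⟨x, hx, rfl⟩ := mem_image.1 hz
  obtain ⟨y, hy, rfl⟩ := mem_image.1 hz'
  have hxy : x ≠ y := fun e => hne (by rw [e])
  have hsub : ({x, y} : Finset ℕ) ⊆ L.Z := by
    intro i hi
    rcases mem_insert.1 hi with rfl | hi
    · exact hx
    · rw [mem_singleton.1 hi]; exact hy
  have hc : ({x, y} : Finset ℕ).card = 2 := card_pair hxy
  have h2 := (H.hL {x, y} hsub).2 (by omega) (by
    rw [card_sdiff_of_subset hsub]; have := H.h4; omega)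
  have h1 : L.lam {x, y} (L.Z \ {x, y}) ≤ 1 := by
    refine lam_le_one (fun i => if i = x then ε x * c * ε y else 1) (fun j => L.S y j) ?_
    intro i hi j hj
    obtain ⟨hjZ, hjn⟩ := mem_sdiff.1 hj
    have hjx : j ≠ x := fun e => hjn (by rw [e]; simp)
    have hjy : j ≠ y := fun e => hjn (by rw [e]; simp)
    rcases mem_insert.1 hi with rfl | hi
    · have e1 := h (φ j) (mem_image_of_mem φ hjZ) (fun e => hjx (he.inj hjZ hx e))
        (fun e => hjy (he.inj hjZ hy e))
      rw [he.ent i hx j hjZ, he.ent y hy j hjZ] at e1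
      have s0 := he.sq i hx
      have sj := he.sq j hjZ
      simp only [if_true]
      linear_combination (ε i * ε j) * e1 - (L.S i j * (ε j * ε j)) * s0 - (L.S i j) * sj +
        (ε i * c * ε y * L.S y j) * sj
    · rw [mem_singleton.1 hi]
      simp only [hxy.symm, if_false, one_mul]
  omega

theorem Good.exists_ne (H : Hyp L D n n') (g : Good L D E U) (z : ℕ) :
    ∃ z' ∈ U, z' ≠ z := by
  have h1 : 1 < U.card := by rw [g.card]; have := H.h4; omega
  exact exists_mem_ne h1 z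

theorem Good.nbr (H : Hyp L D n n') (g : Good L D E U) {z : ℕ} (hz : z ∈ U) :
    ∃ j ∈ U, j ≠ z ∧ E.S z j ≠ 0 := by
  obtain ⟨z', hz', hne⟩ := g.exists_ne H z
  by_contra hc
  refine g.nodep H hz hz' hne.symm 0 ?_
  intro j hj h1 _
  rw [zero_mul]
  by_contra h
  exact hc ⟨j, hj, h1, h⟩

theorem At.not_nul (H : Hyp L D n n') (g : Good L D E U) {v z : ℕ} {a : F3} (h : At E U v z a) :
    ¬ Nul E U v := by
  intro hv
  obtain ⟨_, _, hz, h1, h2⟩ := h
  rcases h2 with ⟨ha, _⟩ | ⟨_, hs⟩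
  · obtain ⟨j, hj, hjz, hs⟩ := g.nbr H hz
    have := h1 j hj hjz
    rw [hv.2.2 j hj] at this
    exact mul_ne_zero ha hs this.symm
  · exact hs (hv.2.2 z hz)

theorem At.uniq (H : Hyp L D n n') (g : Good L D E U) {v z z' : ℕ} {a b : F3}
    (h : At E U v z a) (h' : At E U v z' b) : z = z' := by
  by_contra hne
  obtain ⟨_, _, hz, h1, h2⟩ := h
  obtain ⟨_, _, hz', h1', h2'⟩ := h'
  by_cases ha : a = 0
  · by_cases hb : b = 0
    · rcases h2 with ⟨ha', _⟩ | ⟨_, hs⟩
      · exact ha' ha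
      · apply hs
        rw [h1' z hz hne, hb, zero_mul]
    · refine g.nodep H hz' hz (Ne.symm hne) (b * a) ?_
      intro j hj j1 j2
      have e1 := h1 j hj j2
      have e2 := h1' j hj j1
      have sb := sq3 hb
      linear_combination b * e1 - b * e2 - (E.S z' j) * sb
  · refine g.nodep H hz hz' hne (a * b) ?_
    intro j hj j1 j2
    have e1 := h1 j hj j1
    have e2 := h1' j hj j2
    have sa := sq3 ha
    linear_combination a * e2 - a * e1 - (E.S z j) * sa

theorem addEl_S_old (L : Disp F3) {m i j : ℕ} (r : Bool) (u : ℕ → F3) (hi : i ≠ m) (hj : j ≠ m) :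
    (L.addEl m r u).S i j = L.S i j := by
  simp [addEl, hi, hj]

theorem addEl_row_old (L : Disp F3) {m i : ℕ} (r : Bool) (u : ℕ → F3) (hi : i ≠ m) :
    (L.addEl m r u).row i = L.row i := by
  simp [addEl, hi]

theorem addEl_row_new (L : Disp F3) {m : ℕ} (r : Bool) (u : ℕ → F3) :
    (L.addEl m r u).row m = r := by
  simp [addEl]

theorem addEl_Z (L : Disp F3) {m : ℕ} (r : Bool) (u : ℕ → F3) :
    (L.addEl m r u).Z = insert m L.Z := rfl

theorem Good.deg (H : Hyp L D n n') (g : Good L D E U) {v : ℕ} (hv : v ∈ E.Z) (hvU : v ∉ U) :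
    Nul E U v ∨ ∃ z a, At E U v z a := by
  have g0 := g
  obtain ⟨hr, φ, ε, he, rfl⟩ := g
  have hv' : ∀ i ∈ L.Z, φ i ≠ v := fun i hi e => hvU (e ▸ mem_image_of_mem φ hi)
  have he' := he.addEl H.hn hv hv' (s := 1) (one_mul 1) (u := fun i => ε i * E.S (φ i) v) (by
    intro i hi _
    have := he.sq i hi
    linear_combination -(E.S (φ i) v) * this)
  obtain ⟨x, hx, α, hα⟩ := H.n1 _ _ ⟨E, _, _, hr, he'⟩
  have hxn : x ≠ n := fun e => H.hn (e ▸ hx)
  have key : ∀ j ∈ L.Z.image φ, j ≠ φ x → E.S v j = (α * ε x) * E.S (φ x) j := by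
    intro j hj hjx
    obtain ⟨i, hi, rfl⟩ := mem_image.1 hj
    have hin : i ≠ n := fun e => H.hn (e ▸ hi)
    have e1 := hα i hi (fun e => hjx (by rw [e]))
    have e2 := he'.ent n (mem_insert_self _ _) i (mem_insert_of_mem hi)
    rw [Function.update_self, Function.update_self, Function.update_of_ne hin,
      Function.update_of_ne hin, e1, addEl_S_old L _ _ hxn hin] at e2
    rw [e2, he.ent x hx i hi]
    have := he.sq x hx
    linear_combination -(α * ε i * L.S x i) * this
  by_cases hnul : Nul E (L.Z.image φ) v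
  · exact Or.inl hnul
  right
  have hxU : φ x ∈ L.Z.image φ := mem_image_of_mem φ hx
  by_cases hrow : E.row v = E.row (φ x)
  · refine ⟨φ x, α * ε x, hv, hvU, hxU, key, Or.inl ⟨?_, hrow⟩⟩
    intro h0
    refine hnul ⟨hv, hvU, fun j hj => ?_⟩
    by_cases hjx : j = φ x
    · rw [hjx]; exact E.bip _ _ hrow
    · rw [key j hj hjx, h0, zero_mul]
  · have k0 : ∀ j ∈ L.Z.image φ, j ≠ φ x → E.S v j = 0 := by
      intro j hj hjx
      by_cases hj' : E.row v = E.row j
      · exact E.bip _ _ hj'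
      · have : E.row (φ x) = E.row j := by
          revert hrow hj'
          cases E.row v <;> cases E.row j <;> cases E.row (φ x) <;> simp
        rw [key j hj hjx, E.bip _ _ this, mul_zero]
    refine ⟨φ x, 0, hv, hvU, hxU, fun j hj hjx => by rw [k0 j hj hjx, zero_mul],
      Or.inr ⟨rfl, ?_⟩⟩
    intro h0
    refine hnul ⟨hv, hvU, fun j hj => ?_⟩
    by_cases hjx : j = φ x
    · rw [hjx]; exact h0
    · exact k0 j hj hjx

theorem att_emb {φ : ℕ → ℕ} {ε : ℕ → F3} (he : Emb L E φ ε) {v x : ℕ} {a : F3} (hx : x ∈ L.Z)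
    (h : At E (L.Z.image φ) v (φ x) a) :
    ∃ s : F3, s * s = 1 ∧
      (∀ i ∈ L.Z, L.row i ≠ E.row v → E.S (φ i) v = ε i * s * cpy L x (E.row v) i) ∧
      (L.row x = E.row v → s = a * ε x) ∧ (L.row x ≠ E.row v → a = 0) := by
  obtain ⟨_, _, hz, h1, h2⟩ := h
  have sx := he.sq x hx
  rcases h2 with ⟨ha, hr⟩ | ⟨ha, hs⟩
  · have hr' : L.row x = E.row v := by rw [hr, he.row x hx]
    have sa := sq3 ha
    refine ⟨a * ε x, by linear_combination (ε x * ε x) * sa + sx, ?_, fun _ => rfl,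
      fun h => absurd hr' h⟩
    intro i hi hri
    have hix : φ i ≠ φ x := fun e => hri (by rw [he.inj hi hx e]; exact hr')
    rw [E.skew, h1 (φ i) (mem_image_of_mem φ hi) hix, he.ent x hx i hi, L.skew x i]
    simp only [cpy, hr', if_true]
    ring
  · have hr' : L.row x ≠ E.row v := by
      rw [← he.row x hx]; exact (row_ne_of_S hs).symm
    have ss := sq3 (S_ne_symm hs)
    refine ⟨ε x * E.S (φ x) v, by linear_combination (ε x * ε x) * ss + sx, ?_,
      fun h => absurd h hr', fun _ => ha⟩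
    intro i hi _
    simp only [cpy, hr', if_false]
    by_cases hix : i = x
    · subst hix
      simp only [if_true]
      linear_combination -(E.S (φ i) v) * sx
    · have hix' : φ i ≠ φ x := fun e => hix (he.inj hi hx e)
      rw [E.skew, h1 (φ i) (mem_image_of_mem φ hi) hix', ha]
      simp [hix]

theorem H_cr (H : Hyp L D n n') (g : Good L D E U) {v w z z' : ℕ} {a b : F3}
    (h : At E U v z a) (h' : At E U w z' b) (hne : z ≠ z') (rv : E.row v = false)
    (rw' : E.row w = true) : E.S v w = a * b * E.S z z' := by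
  obtain ⟨hr, φ, ε, he, rfl⟩ := g
  obtain ⟨x, hx, rfl⟩ := mem_image.1 h.2.2.1
  obtain ⟨y, hy, rfl⟩ := mem_image.1 h'.2.2.1
  have hxy : x ≠ y := fun e => hne (by rw [e])
  obtain ⟨s, ss, s1, s2, s3⟩ := att_emb he hx h
  obtain ⟨t, tt, t1, t2, t3⟩ := att_emb he hy h'
  have hv' : ∀ i ∈ L.Z, φ i ≠ v := fun i hi e => h.2.1 (e ▸ mem_image_of_mem φ hi)
  have hw' : ∀ i ∈ L.Z, φ i ≠ w := fun i hi e => h'.2.1 (e ▸ mem_image_of_mem φ hi)
  have hvw : v ≠ w := fun e => by rw [e, rw'] at rv; exact absurd rv (by decide)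
  have he1 := he.addEl H.hn h.1 hv' ss s1
  rw [rv] at he1 s2 s3
  rw [rw'] at t1 t2 t3
  have hn1 : n' ∉ (L.addEl n false (cpy L x false)).Z := by
    rw [addEl_Z]
    intro hm
    rcases mem_insert.1 hm with e | e
    · exact H.hnn e.symm
    · exact H.hn' e
  have he2 := he1.addEl hn1 h'.1 (by
      intro i hi
      rcases mem_insert.1 hi with rfl | hi
      · rw [Function.update_self]; exact hvw
      · have hin : i ≠ n := fun e => H.hn (e ▸ hi)
        rw [Function.update_of_ne hin]; exact hw' i hi) tt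
    (u := fun i => if i = n then s * t * E.S v w else cpy L y true i) (by
      intro i hi hri
      rcases mem_insert.1 hi with rfl | hi
      · rw [Function.update_self, Function.update_self]
        simp only [if_true]
        linear_combination -(E.S v w * (t * t)) * ss - (E.S v w) * tt
      · have hin : i ≠ n := fun e => H.hn (e ▸ hi)
        rw [addEl_row_old L _ _ hin, rw'] at hri
        rw [Function.update_of_ne hin, Function.update_of_ne hin]
        simp only [hin, if_false]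
        exact t1 i hi hri)
  rw [rw'] at he2
  have hc := H.n2 x hx y hy hxy (s * t * E.S v w) ⟨E, _, _, hr, he2⟩
  have e0 : E.S v w = s * t * cons L x y := by
    rw [← hc]
    linear_combination -(E.S v w * (t * t)) * ss - (E.S v w) * tt
  rw [e0, he.ent x hx y hy]
  unfold Disp.cons
  by_cases r1 : L.row x = false
  · by_cases r2 : L.row y = true
    · rw [if_pos ⟨r1, r2⟩, s2 r1, t2 r2]; ring
    · rw [if_neg (fun h => r2 h.2), t3 r2]; ring
  · rw [if_neg (fun h => r1 h.1), s3 r1]; ring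

theorem H_all (H : Hyp L D n n') (g : Good L D E U) {v w z z' : ℕ} {a b : F3}
    (h : At E U v z a) (h' : At E U w z' b) (hne : z ≠ z') : E.S v w = a * b * E.S z z' := by
  by_cases hr : E.row v = E.row w
  · rw [E.bip _ _ hr]
    rcases h.2.2.2.2 with ⟨_, r1⟩ | ⟨ha, _⟩
    · rcases h'.2.2.2.2 with ⟨_, r2⟩ | ⟨hb, _⟩
      · rw [E.bip z z' (by rw [← r1, ← r2, hr]), mul_zero]
      · rw [hb]; ring
    · rw [ha]; ring
  · cases rv : E.row v
    · have rw' : E.row w = true := by
        rw [rv] at hr; revert hr; cases E.row w <;> simp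
      exact H_cr H g h h' hne rv rw'
    · have rw' : E.row w = false := by
        rw [rv] at hr; revert hr; cases E.row w <;> simp
      have := H_cr H g h' h hne.symm rw' rv
      rw [E.skew v w, this, E.skew z' z]; ring

theorem Good.agree (g : Good L D E U) {E2 : Disp F3} (hr : E.Reach E2) (ha : Agree E E2 U) :
    Good L D E2 U := by
  obtain ⟨hr0, φ, ε, he, rfl⟩ := g
  refine ⟨hr0.trans hr, φ, ε, ⟨he.inj, ?_, ?_, he.sq, ?_⟩, rfl⟩
  · intro i hi; rw [hr.Z_eq]; exact he.mem i hi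
  · intro i hi; rw [ha.1 _ (mem_image_of_mem φ hi)]; exact he.row i hi
  · intro i hi j hj
    rw [ha.2 _ (mem_image_of_mem φ hi) _ (mem_image_of_mem φ hj)]; exact he.ent i hi j hj

theorem Good.reemb (g : Good L D E U) {E2 : Disp F3} (hr : E.Reach E2) {z v : ℕ} (hz : z ∈ U)
    (hv : v ∈ E.Z) (hvU : v ∉ U) (ha : Agree E E2 (U.erase z)) (rv : E2.row v = E.row z)
    {s : F3} (hs : s ≠ 0) (h : ∀ j ∈ U, j ≠ z → E2.S v j = s * E.S z j) :
    Good L D E2 (insert v (U.erase z)) := by
  obtain ⟨hr0, φ, ε, he, rfl⟩ := g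
  obtain ⟨x, hx, rfl⟩ := mem_image.1 hz
  have hv' : ∀ i ∈ L.Z, φ i ≠ v := fun i hi e => hvU (e ▸ mem_image_of_mem φ hi)
  have hm : ∀ i ∈ L.Z, i ≠ x → φ i ∈ (L.Z.image φ).erase (φ x) := fun i hi hix =>
    mem_erase.2 ⟨fun e => hix (he.inj hi hx e), mem_image_of_mem φ hi⟩
  have ss := sq3 hs
  refine ⟨hr0.trans hr, Function.update φ x v, Function.update ε x (s * ε x),
    ⟨?_, ?_, ?_, ?_, ?_⟩, ?_⟩
  · intro i hi j hj e
    by_cases hix : i = x
    · by_cases hjx : j = x
      · rw [hix, hjx]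
      · rw [hix, Function.update_self, Function.update_of_ne hjx] at e
        exact absurd e.symm (hv' j hj)
    · by_cases hjx : j = x
      · rw [hjx, Function.update_self, Function.update_of_ne hix] at e
        exact absurd e (hv' i hi)
      · rw [Function.update_of_ne hix, Function.update_of_ne hjx] at e
        exact he.inj hi hj e
  · intro i hi
    rw [hr.Z_eq]
    by_cases hix : i = x
    · rw [hix, Function.update_self]; exact hv
    · rw [Function.update_of_ne hix]; exact he.mem i hi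
  · intro i hi
    by_cases hix : i = x
    · rw [hix, Function.update_self, rv]; exact he.row x hx
    · rw [Function.update_of_ne hix, ha.1 _ (hm i hi hix)]; exact he.row i hi
  · intro i hi
    by_cases hix : i = x
    · rw [hix, Function.update_self]
      have := he.sq x hx
      linear_combination (ε x * ε x) * ss + this
    · rw [Function.update_of_ne hix]; exact he.sq i hi
  · intro i hi j hj
    by_cases hix : i = x
    · by_cases hjx : j = x
      · rw [hix, hjx, E2.bip _ _ rfl, L.bip _ _ rfl, mul_zero]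
      · rw [hix, Function.update_self, Function.update_self, Function.update_of_ne hjx,
          Function.update_of_ne hjx, h _ (mem_image_of_mem φ hj) (mem_erase.1 (hm j hj hjx)).1,
          he.ent x hx j hj]
        ring
    · by_cases hjx : j = x
      · rw [hjx, Function.update_self, Function.update_self, Function.update_of_ne hix,
          Function.update_of_ne hix, E2.skew,
          h _ (mem_image_of_mem φ hi) (mem_erase.1 (hm i hi hix)).1, he.ent x hx i hi, L.skew x i]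
        ring
      · rw [Function.update_of_ne hix, Function.update_of_ne hjx, Function.update_of_ne hix,
          Function.update_of_ne hjx, ha.2 _ (hm i hi hix) _ (hm j hj hjx)]
        exact he.ent i hi j hj
  · ext j
    simp only [mem_insert, mem_image]
    constructor
    · rintro (rfl | hj)
      · exact ⟨x, hx, Function.update_self _ _ _⟩
      · obtain ⟨h1, h2⟩ := mem_erase.1 hj
        obtain ⟨i, hi, rfl⟩ := mem_image.1 h2
        have hix : i ≠ x := fun e => h1 (by rw [e])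
        exact ⟨i, hi, Function.update_of_ne hix _ _⟩
    · rintro ⟨i, hi, rfl⟩
      by_cases hix : i = x
      · left; rw [hix, Function.update_self]
      · right; rw [Function.update_of_ne hix]; exact hm i hi hix

theorem reach_pivot {x y : ℕ} (hx : x ∈ E.Z) (hy : y ∈ E.Z) : E.Reach (E.pivot x y) :=
  ReachIn.single hx hy

theorem pivot_row_ne {x y i : ℕ} (h : E.S x y ≠ 0) (hix : i ≠ x) (hiy : i ≠ y) :
    (E.pivot x y).row i = E.row i := by
  rw [pivot_row h]; simp [hix, hiy]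

theorem pivot_S_y {x y j : ℕ} (h : E.S x y ≠ 0) (hjx : j ≠ x) (hjy : j ≠ y) :
    (E.pivot x y).S y j = E.S x j / E.S x y := by
  rw [pivot_S h]
  have := (ne_of_S h).symm
  simp [pS, this, hjx, hjy]

/-- the path `v - w - t` where `v` is a copy. -/
theorem one_copy (H : Hyp L D n n') (g : Good L D E U) {v w t z z' : ℕ} {a b : F3}
    (h : At E U v z a) (h' : At E U t z' b) (hne : z ≠ z') (ha : a ≠ 0) (hw : Nul E U w)
    (h1 : E.S v w ≠ 0) (h2 : E.S w t ≠ 0) : False := by
  have hr : E.row v = E.row z := by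
    rcases h.2.2.2.2 with ⟨_, r⟩ | ⟨h0, _⟩
    · exact r
    · exact absurd h0 ha
  have g' := g.reemb (Reach.refl E) h.2.2.1 h.1 h.2.1 (Agree.refl E _) hr ha h.2.2.2.1
  have htv : t ≠ v := by
    rintro rfl
    exact hne (h.uniq H g h')
  have hz'm : z' ∈ insert v (U.erase z) :=
    mem_insert_of_mem (mem_erase.2 ⟨hne.symm, h'.2.2.1⟩)
  have a1 : At E (insert v (U.erase z)) w v 0 := by
    refine ⟨hw.1, ?_, mem_insert_self _ _, ?_, Or.inr ⟨rfl, S_ne_symm h1⟩⟩
    · intro hm
      rcases mem_insert.1 hm with e | e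
      · exact ne_of_S h1 e.symm
      · exact hw.2.1 (mem_of_mem_erase e)
    · intro j hj hjv
      rcases mem_insert.1 hj with e | e
      · exact absurd e hjv
      · rw [hw.2.2 j (mem_of_mem_erase e), zero_mul]
  have a2 : At E (insert v (U.erase z)) t z' b := by
    refine ⟨h'.1, ?_, hz'm, ?_, h'.2.2.2.2⟩
    · intro hm
      rcases mem_insert.1 hm with e | e
      · exact htv e
      · exact h'.2.1 (mem_of_mem_erase e)
    · intro j hj hjz
      rcases mem_insert.1 hj with rfl | e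
      · rw [H_all H g h' h hne.symm, E.skew z' j, h.2.2.2.1 z' h'.2.2.1 hne.symm, E.skew z z']
        ring
      · exact h'.2.2.2.1 j (mem_of_mem_erase e) hjz
  have hvz : v ≠ z' := fun e => h.2.1 (e ▸ h'.2.2.1)
  apply h2
  rw [H_all H g' a1 a2 hvz]; ring

/-- the path `v - w - t` where `v` and `t` are units. -/
theorem one_unit (H : Hyp L D n n') (g : Good L D E U) {v w t z z' : ℕ}
    (h : At E U v z 0) (h' : At E U t z' 0) (hne : z ≠ z') (hw : Nul E U w)
    (h1 : E.S v w ≠ 0) (h2 : E.S w t ≠ 0) : False := by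
  have hvz : E.S v z ≠ 0 := by
    rcases h.2.2.2.2 with ⟨r, _⟩ | ⟨_, r⟩
    · exact absurd rfl r
    · exact r
  have htz : E.S t z' ≠ 0 := by
    rcases h'.2.2.2.2 with ⟨r, _⟩ | ⟨_, r⟩
    · exact absurd rfl r
    · exact r
  have hp : E.S z v ≠ 0 := S_ne_symm hvz
  have hz := h.2.2.1
  have hz' := h'.2.2.1
  have v0 : ∀ j ∈ U, j ≠ z → E.S v j = 0 := fun j hj hjz => by
    rw [h.2.2.2.1 j hj hjz, zero_mul]
  have t0 : ∀ j ∈ U, j ≠ z' → E.S t j = 0 := fun j hj hjz => by
    rw [h'.2.2.2.1 j hj hjz, zero_mul]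
  have hUv : ∀ j ∈ U, j ≠ v := fun j hj e => h.2.1 (e ▸ hj)
  have htv : t ≠ v := by
    rintro rfl
    exact hne (h.uniq H g h')
  have htz0 : t ≠ z := fun e => h'.2.1 (e ▸ hz)
  have hwv : w ≠ v := (ne_of_S h1).symm
  have hwz : w ≠ z := fun e => hw.2.1 (e ▸ hz)
  have stv : E.S t v = 0 := by rw [H_all H g h' h hne.symm]; ring
  have stz : E.S t z = 0 := t0 z hz hne
  have rvz : E.row v ≠ E.row z := row_ne_of_S hvz
  have rvw : E.row v ≠ E.row w := row_ne_of_S h1
  have r2v : (E.pivot z v).row v = E.row z := by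
    rw [pivot_row hp]
    simp only [or_true, if_true]
    revert rvz; cases E.row v <;> cases E.row z <;> simp
  have g' := g.reemb (reach_pivot (g.sub hz) h.1) hz h.1 h.2.1 (by
      refine ⟨fun i hi => pivot_row_ne hp (mem_erase.1 hi).1 (hUv i (mem_of_mem_erase hi)), ?_⟩
      intro i hi j hj
      obtain ⟨i1, i2⟩ := mem_erase.1 hi
      obtain ⟨j1, j2⟩ := mem_erase.1 hj
      rw [pivot_S_gen hp i1 (hUv i i2) j1 (hUv j j2), E.skew i v, v0 i i2 i1, v0 j j2 j1]
      simp) r2v (inv_ne_zero hp) (by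
      intro j hj hjz
      rw [pivot_S_y hp hjz (hUv j hj)]
      ring)
  have a1 : At (E.pivot z v) (insert v (U.erase z)) w v (E.S v w) := by
    refine ⟨by rw [pivot_Z]; exact hw.1, ?_, mem_insert_self _ _, ?_, Or.inl ⟨h1, ?_⟩⟩
    · intro hm
      rcases mem_insert.1 hm with e | e
      · exact hwv e
      · exact hw.2.1 (mem_of_mem_erase e)
    · intro j hj hjv
      rcases mem_insert.1 hj with e | e
      · exact absurd e hjv
      · obtain ⟨j1, j2⟩ := mem_erase.1 e
        rw [pivot_S_gen hp hwz hwv j1 hjv, pivot_S_y hp j1 hjv, hw.2.2 j j2, hw.2.2 z hz,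
          E.skew w v]
        ring
    · rw [r2v, pivot_row_ne hp hwz hwv]
      revert rvz rvw; cases E.row v <;> cases E.row z <;> cases E.row w <;> simp
  have tgen : ∀ j, j ≠ z → j ≠ v → (E.pivot z v).S t j = E.S t j := by
    intro j j1 j2
    rw [pivot_S_gen hp htz0 htv j1 j2, stv, stz]; simp
  have a2 : At (E.pivot z v) (insert v (U.erase z)) t z' 0 := by
    refine ⟨by rw [pivot_Z]; exact h'.1, ?_, mem_insert_of_mem (mem_erase.2 ⟨hne.symm, hz'⟩), ?_,
      Or.inr ⟨rfl, ?_⟩⟩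
    · intro hm
      rcases mem_insert.1 hm with e | e
      · exact htv e
      · exact h'.2.1 (mem_of_mem_erase e)
    · intro j hj hjz
      rcases mem_insert.1 hj with rfl | e
      · rw [(E.pivot z j).skew, pivot_S_y hp htz0 htv, E.skew z t, stz]; simp
      · obtain ⟨j1, j2⟩ := mem_erase.1 e
        rw [tgen j j1 (hUv j j2), t0 j j2 hjz, zero_mul]
    · rw [tgen z' hne.symm (hUv z' hz')]; exact htz
  have e := H_all H g' a1 a2 (hUv z' hz').symm
  rw [(E.pivot z v).skew, tgen w hwz hwv, E.skew t w] at e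
  apply h2
  linear_combination e

section NulPivot

variable {x y : ℕ}

theorem nul_piv_S (hx : Nul E U x) (hy : Nul E U y) (h : E.S x y ≠ 0) {u j : ℕ} (hux : u ≠ x)
    (huy : u ≠ y) (hj : j ∈ U) : (E.pivot x y).S u j = E.S u j := by
  rw [pivot_S_gen h hux huy (fun e => hx.2.1 (e ▸ hj)) (fun e => hy.2.1 (e ▸ hj)), hx.2.2 j hj,
    hy.2.2 j hj]
  simp

theorem Good.nul_piv (g : Good L D E U) (hx : Nul E U x) (hy : Nul E U y) (h : E.S x y ≠ 0) :
    Good L D (E.pivot x y) U := by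
  have ux : ∀ i ∈ U, i ≠ x := fun i hi e => hx.2.1 (e ▸ hi)
  have uy : ∀ i ∈ U, i ≠ y := fun i hi e => hy.2.1 (e ▸ hi)
  exact g.agree (reach_pivot hx.1 hy.1) ⟨fun i hi => pivot_row_ne h (ux i hi) (uy i hi),
    fun i hi j hj => nul_piv_S hx hy h (ux i hi) (uy i hi) hj⟩

theorem Nul.nul_piv (hx : Nul E U x) (hy : Nul E U y) (h : E.S x y ≠ 0) {u : ℕ} (hu : Nul E U u)
    (hux : u ≠ x) (huy : u ≠ y) : Nul (E.pivot x y) U u :=
  ⟨by rw [pivot_Z]; exact hu.1, hu.2.1, fun j hj => by
    rw [nul_piv_S hx hy h hux huy hj]; exact hu.2.2 j hj⟩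

theorem At.nul_piv (hx : Nul E U x) (hy : Nul E U y) (h : E.S x y ≠ 0) {v z : ℕ} {a : F3}
    (hv : At E U v z a) (hvx : v ≠ x) (hvy : v ≠ y) : At (E.pivot x y) U v z a := by
  obtain ⟨h1, h2, hz, h3, h4⟩ := hv
  have zx : z ≠ x := fun e => hx.2.1 (e ▸ hz)
  have zy : z ≠ y := fun e => hy.2.1 (e ▸ hz)
  refine ⟨by rw [pivot_Z]; exact h1, h2, hz, ?_, ?_⟩
  · intro j hj hjz
    rw [nul_piv_S hx hy h hvx hvy hj, nul_piv_S hx hy h zx zy hj]
    exact h3 j hj hjz
  · rw [pivot_row_ne h hvx hvy, pivot_row_ne h zx zy, nul_piv_S hx hy h hvx hvy hz]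
    exact h4

theorem NTail.nul_piv (hx : Nul E U x) (hy : Nul E U y) (h : E.S x y ≠ 0) {t m : ℕ}
    (htx : t ≠ x) (hty : t ≠ y) (hxt : E.S x t = 0)
    (hm : ∀ j ≤ m, ∀ u, NTail E U t j u → E.S x u = 0 ∧ u ≠ x) {j u : ℕ} (hu : NTail E U t j u)
    (hj : j ≤ m) : NTail (E.pivot x y) U t j u := by
  have key : ∀ j ≤ m, ∀ u, NTail E U t j u → u ≠ y := by
    intro j hj u hu e
    exact h (e ▸ (hm j hj u hu).1)
  induction hu with
  | last w h1 h2 =>
    have hw := NTail.last w h1 h2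
    obtain ⟨e1, e2⟩ := hm 0 hj w hw
    have e3 := key 0 hj w hw
    refine NTail.last w (Nul.nul_piv hx hy h h1 e2 e3) ?_
    rw [pivot_S_gen h e2 e3 htx hty, hxt, E.skew w x, e1]
    simpa using h2
  | step k w w' h1 h2 h3 ih =>
    have hw := NTail.step k w w' h1 h2 h3
    obtain ⟨e1, e2⟩ := hm _ hj w hw
    have e3 := key _ hj w hw
    obtain ⟨f1, f2⟩ := hm k (by omega) w' h3
    have f3 := key k (by omega) w' h3
    refine NTail.step k w w' (Nul.nul_piv hx hy h h1 e2 e3) ?_ (ih (by omega))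
    rw [pivot_S_gen h e2 e3 f2 f3, f1, E.skew w x, e1]
    simpa using h2

end NulPivot

theorem H2 (H : Hyp L D n n') (k : ℕ) : ∀ (E : Disp F3) (U : Finset ℕ), Good L D E U →
    ∀ (v w t z z' : ℕ) (a b : F3), At E U v z a → At E U t z' b → z ≠ z' → E.S v w ≠ 0 →
      NTail E U t k w → False := by
  induction k using Nat.strong_induction_on with
  | _ k ih =>
  intro E U g v w t z z' a b h h' hne h1 hT
  cases hT with
  | last _ hw h2 =>
    by_cases ha : a = 0
    · by_cases hb : b = 0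
      · subst ha hb
        exact one_unit H g h h' hne hw h1 h2
      · exact one_copy H g h' h hne.symm hb hw (S_ne_symm h2) (S_ne_symm h1)
    · exact one_copy H g h h' hne ha hw h1 h2
  | step k _ y hw h2 hT =>
    have hy := hT.nul
    have nv := h.not_nul H g
    have nt := h'.not_nul H g
    have vw : v ≠ w := fun e => nv (e ▸ hw)
    have vy : v ≠ y := fun e => nv (e ▸ hy)
    have tw : t ≠ w := fun e => nt (e ▸ hw)
    have ty : t ≠ y := fun e => nt (e ▸ hy)
    have g' := g.nul_piv hw hy h2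
    have a1 := At.nul_piv hw hy h2 h vw vy
    have a2 := At.nul_piv hw hy h2 h' tw ty
    have svy : E.S v y = 0 := by
      by_contra hc
      exact ih k (by omega) E U g v y t z z' a b h h' hne hc hT
    have swt : E.S w t = 0 := by
      by_contra hc
      exact ih 0 (by omega) E U g v w t z z' a b h h' hne h1 (NTail.last w hw hc)
    have h2' := S_ne_symm h2
    cases hT with
    | last _ _ h3 =>
      have e1 := H_all H g h h' hne
      have e2 := H_all H g' a1 a2 hne
      have zw : z ≠ w := fun e => hw.2.1 (e ▸ h.2.2.1)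
      have zy : z ≠ y := fun e => hy.2.1 (e ▸ h.2.2.1)
      rw [nul_piv_S hw hy h2 zw zy h'.2.2.1, ← e1, pivot_S_gen h2 vw vy tw ty, svy] at e2
      have e3 : E.S v w * E.S y t / E.S y w = 0 := by linear_combination -e2
      exact div_ne_zero (mul_ne_zero h1 h3) h2' e3
    | step m _ u _ h3 hT =>
      have svu : E.S v u = 0 := by
        by_contra hc
        exact ih m (by omega) E U g v u t z z' a b h h' hne hc hT
      have uw : u ≠ w := fun e => h1 (e ▸ svu)
      have uy : u ≠ y := (ne_of_S h3).symm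
      have hT' := NTail.nul_piv hw hy h2 tw ty swt (m := m) (by
        intro j hj q hq
        constructor
        · by_contra hc
          exact ih (j + 1) (by omega) E U g v w t z z' a b h h' hne h1 (NTail.step j w q hw hc hq)
        · rintro rfl
          exact ih j (by omega) E U g v q t z z' a b h h' hne h1 hq) hT le_rfl
      refine ih m (by omega) _ U g' v u t z z' a b a1 a2 hne ?_ hT'
      rw [pivot_S_gen h2 vw vy uw uy, svy, svu]
      intro e2
      have e3 : E.S v w * E.S y u / E.S y w = 0 := by linear_combination -e2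
      exact div_ne_zero (mul_ne_zero h1 h3) h2' e3

theorem final (H : Hyp L D n n') (hD : D.Conn3) (g : Good L D E U) (hlt : L.Z.card < D.Z.card) :
    False := by
  classical
  have hE : E.Conn3 := hD.reach g.1
  have hZ : E.Z = D.Z := g.1.Z_eq
  have hUc := g.card
  have h4 := H.h4
  by_cases hex : ∃ v z a, At E U v z a
  swap
  · have h1 := (hE U g.sub).1 (card_pos.1 (by omega)) (card_pos.1 (by
      rw [card_sdiff_of_subset g.sub, hZ]; omega))
    have h0 : E.lam U (E.Z \ U) = 0 := by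
      rw [lam_eq_zero_iff]
      intro i hi j hj
      obtain ⟨j1, j2⟩ := mem_sdiff.1 hj
      rcases g.deg H j1 j2 with hn | ⟨z, a, ha⟩
      · rw [E.skew, hn.2.2 i hi, neg_zero]
      · exact absurd ⟨j, z, a, ha⟩ hex
    omega
  obtain ⟨v0, z, a0, h0⟩ := hex
  have hz : z ∈ U := h0.2.2.1
  let C : Finset ℕ := E.Z.filter (fun c => c = z ∨ (∃ a, At E U c z a) ∨
    ∃ k v a, At E U v z a ∧ NTail E U v k c)
  have hC : ∀ c, c ∈ C ↔ c ∈ E.Z ∧ (c = z ∨ (∃ a, At E U c z a) ∨
      ∃ k v a, At E U v z a ∧ NTail E U v k c) := fun c => mem_filter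
  have hsub : C ⊆ E.Z := filter_subset _ _
  have c2 : 2 ≤ C.card := by
    have hne : z ≠ v0 := fun e => h0.2.1 (e ▸ hz)
    rw [← card_pair hne]
    apply card_le_card
    intro i hi
    rcases mem_insert.1 hi with rfl | hi
    · exact (hC _).2 ⟨g.sub hz, Or.inl rfl⟩
    · rw [mem_singleton.1 hi]; exact (hC _).2 ⟨h0.1, Or.inr (Or.inl ⟨a0, h0⟩)⟩
  have c3 : 2 ≤ (E.Z \ C).card := by
    have : U.erase z ⊆ E.Z \ C := by
      intro i hi
      obtain ⟨i1, i2⟩ := mem_erase.1 hi
      refine mem_sdiff.2 ⟨g.sub i2, fun hc => ?_⟩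
      rcases ((hC i).1 hc).2 with e | ⟨a, ha⟩ | ⟨k, v, a, _, hT⟩
      · exact i1 e
      · exact ha.2.1 i2
      · exact hT.nul.2.1 i2
    have h5 := card_le_card this
    rw [card_erase_of_mem hz] at h5
    omega
  have h2 := (hE C hsub).2 c2 c3
  have key : ∀ c ∈ C, ∃ a : F3, ∀ j ∈ E.Z \ C, E.S c j = a * E.S z j := by
    intro c hc
    rcases ((hC c).1 hc).2 with rfl | ⟨a, ha⟩ | ⟨k, v, a, ha, hT⟩
    · exact ⟨1, fun j _ => (one_mul _).symm⟩
    · refine ⟨a, fun j hj => ?_⟩
      obtain ⟨j1, j2⟩ := mem_sdiff.1 hj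
      have jz : j ≠ z := fun e => j2 ((hC j).2 ⟨j1, Or.inl e⟩)
      by_cases hjU : j ∈ U
      · exact ha.2.2.2.1 j hjU jz
      rcases g.deg H j1 hjU with hn | ⟨z', b, hb⟩
      · rw [E.skew z j, hn.2.2 z hz, neg_zero, mul_zero]
        by_contra hs
        exact j2 ((hC j).2 ⟨j1, Or.inr (Or.inr ⟨0, c, a, ha, NTail.last j hn (S_ne_symm hs)⟩)⟩)
      · have hne : z ≠ z' := by
          rintro rfl
          exact j2 ((hC j).2 ⟨j1, Or.inr (Or.inl ⟨b, hb⟩)⟩)
        rw [H_all H g ha hb hne, E.skew z j, hb.2.2.2.1 z hz hne, E.skew z' z]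
        ring
    · refine ⟨0, fun j hj => ?_⟩
      obtain ⟨j1, j2⟩ := mem_sdiff.1 hj
      rw [zero_mul]
      by_cases hjU : j ∈ U
      · exact hT.nul.2.2 j hjU
      by_contra hs
      rcases g.deg H j1 hjU with hn | ⟨z', b, hb⟩
      · exact j2 ((hC j).2 ⟨j1, Or.inr (Or.inr ⟨k + 1, v, a, ha,
          NTail.step k j c hn (S_ne_symm hs) hT⟩)⟩)
      · have hne : z' ≠ z := by
          rintro rfl
          exact j2 ((hC j).2 ⟨j1, Or.inr (Or.inl ⟨b, hb⟩)⟩)
        exact H2 H k E U g j c v z' z b a hb ha hne (S_ne_symm hs) hT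
  choose! u hu using key
  have h1 := lam_le_one (D := E) (X := C) (Y := E.Z \ C) u (fun j => E.S z j) hu
  omega

end ChainAux

/-- the chain lemma. -/
theorem chain {L D : Disp F3} (hL : L.Conn3) (h4 : 4 ≤ L.Z.card) (hD : D.Conn3) (hm : Minor L D)
    (hlt : L.Z.card < D.Z.card) {n n' : ℕ} (hn : n ∉ L.Z) (hn' : n' ∉ L.Z) (hnn : n ≠ n') :
    (∃ r v, ¬ Deg (L.addEl n r v) L.Z n ∧ Minor (L.addEl n r v) D) ∨
    (∃ z ∈ L.Z, ∃ z' ∈ L.Z, z ≠ z' ∧ ∃ c, c ≠ cons L z z' ∧ Minor (ext2 L n n' z z' c) D) := by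
  by_contra hc
  obtain ⟨E, φ, ε, hr, he⟩ := hm
  refine ChainAux.final (n := n) (n' := n') ⟨hL, h4, hn, hn', hnn, ?_, ?_⟩ hD
    (E := E) ⟨hr, φ, ε, he, rfl⟩ hlt
  · intro r v h
    by_contra h'
    exact hc (Or.inl ⟨r, v, h', h⟩)
  · intro z hz z' hz' hne c h
    by_contra h'
    exact hc (Or.inr ⟨z, hz, z', hz', hne, c, h', h⟩)

end Pool.Agent.Lib.MP_c69b6d_co.F
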