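import Pool.Agent.Lib.MP_c69b6d_co.F.Chkc

/-! A checker for sums of squares in Gram form: packed certificates and the obligations. -/

namespace Pool.Agent.Lib.MP_c69b6d_co.F.G

open Finset

/-- the shape with `c` monomials packed in `x`. -/
noncomputable def build (B d c : ℕ) : ℕ → Sp :=
  Nat.rec (motive := fun _ => ℕ → Sp) (fun _ => Sp.e)
    (fun _ r x => push B d (Nat.land x (Nat.sub (Nat.shiftLeft 1 d) 1)) (r (Nat.shiftRight x d))) c

/-- spread at most `2 ^ J` digits of `b` bits to digits of `B` bits. -/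
noncomputable def sprM (B b J : ℕ) : ℕ → ℕ :=
  Nat.rec (motive := fun _ => ℕ → ℕ → ℕ) (fun _ x => x)
    (fun j r tot => (fun M s (r' : ℕ → ℕ) x =>
        (fun lo => r' (Nat.add lo (Nat.shiftLeft (Nat.sub x lo) s))) (Nat.land x M))
      (Nat.mul (Nat.sub (Nat.shiftLeft 1 (Nat.shiftLeft b j)) 1)
        (Nat.div tot (Nat.sub (Nat.shiftLeft 1 (Nat.shiftLeft B (Nat.succ j))) 1)))
      (Nat.shiftLeft (Nat.sub B b) j) (r tot)) J (Nat.sub (Nat.shiftLeft 1 (Nat.shiftLeft B J)) 1)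

/-- read `t` rows: weights of `wb` bits, rows of `rb` bits. -/
noncomputable def rd (wb rb t : ℕ) : ℕ → (RL → ℕ → List RL) → List RL :=
  Nat.rec (motive := fun _ => ℕ → (RL → ℕ → List RL) → List RL) (fun x k => k RL.nil x)
    (fun _ r x k => r (Nat.shiftRight x (Nat.add wb rb)) (fun l x' =>
      k (RL.cons (Nat.land x (Nat.sub (Nat.shiftLeft 1 wb) 1))
        (Nat.land (Nat.shiftRight x wb) (Nat.sub (Nat.shiftLeft 1 rb) 1)) l) x')) t

/-- read the rows of a block. -/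
noncomputable def dec (wb b c : ℕ) : ℕ → List ℕ → List RL :=
  Nat.rec (motive := fun _ => ℕ → List ℕ → List RL) (fun _ _ => [])
    (fun j r x rest => (fun go : ℕ → List ℕ → List RL => Bool.rec (motive := fun _ => List RL)
        (go x rest) (List.rec (motive := fun _ => List RL) (go 1 []) (fun h t _ => go h t) rest)
        (Nat.beq x 0))
      (fun x rest => rd wb (Nat.mul b (Nat.succ j)) (Nat.pred (Nat.land x 65535))
        (Nat.shiftRight x 16) (fun l x' => l :: r x' rest))) c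

/-- a packed block. -/
structure Bk where
  T : ℕ
  W : ℕ
  B : ℕ
  b : ℕ
  J : ℕ
  wb : ℕ
  c : ℕ
  ms : ℕ
  rows : List ℕ

noncomputable def blks (O d : ℕ) (l : List Bk) : TT d :=
  List.rec (motive := fun _ => TT d) (zz O d) (fun q _ r => blk d O q.T q.W q.B q.b
    (sprM q.B q.b q.J) (build q.B d q.c q.ms) (dec q.wb q.b q.c 0 q.rows) r) l

/-- the tree of the sum of all blocks. -/
noncomputable def grps (O d : ℕ) (l : List (List Bk)) : TT d :=
  List.rec (motive := fun _ => TT d) (zz O d) (fun g _ r => add4 O d r (blks O d g)) l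

theorem blks_nonneg (O d : ℕ) (l : List Bk) {y : ℕ → ℝ} (hy : ∀ i, 0 ≤ y i) :
    0 ≤ ev O d (blks O d l) y := by
  induction l with
  | nil => exact (ev_zz O d y).ge
  | cons q l ih => exact ih.trans (blk_spec d O _ _ _ _ _ _ _ _ hy)

theorem grps_nonneg (O d : ℕ) (l : List (List Bk)) (y : ℕ → ℝ) (hy : ∀ i, 0 ≤ y i) :
    0 ≤ ev O d (grps O d l) y := by
  induction l with
  | nil => exact (ev_zz O d y).ge
  | cons g l ih => exact (add_nonneg (blks_nonneg O d g hy) ih).trans (add4_spec O d _ _ hy)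

/-- the bits of `S` at the places `vs`, followed by `E`. -/
noncomputable def cmp (vs : List ℕ) (S E : ℕ) : ℕ :=
  List.rec (motive := fun _ => ℕ) E
    (fun v _ r => Nat.add (Nat.land (Nat.shiftRight S v) 1) (Nat.mul 2 r)) vs

def lv (l : List ℝ) : ℕ → ℝ := fun k => l.getD k 0

theorem lv_nonneg {l : List ℝ} (h : ∀ x ∈ l, 0 ≤ x) (k : ℕ) : 0 ≤ lv l k := by
  unfold lv
  rcases lt_or_ge k l.length with hk | hk
  · rw [List.getD_eq_getElem _ _ hk]; exact h _ (List.getElem_mem hk)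
  · rw [List.getD_eq_default _ _ hk]

theorem mv_cmp (vs : List ℕ) (y : ℕ → ℝ) (ex : List ℝ) (x S E : ℕ) :
    mv (x + vs.length) (lv (vs.map y ++ ex)) (cmp vs S E) =
      (vs.map fun v => if S.testBit v then y v else 1).prod * mv x (lv ex) E := by
  induction vs with
  | nil => simp [cmp]
  | cons v vs ih =>
    have e : cmp (v :: vs) S E = (S >>> v &&& 1) + 2 * cmp vs S E := rfl
    have e1 : up (lv ((v :: vs).map y ++ ex)) = lv (vs.map y ++ ex) := rfl
    have e2 : lv ((v :: vs).map y ++ ex) 0 = y v := rfl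
    have e3 : (cmp (v :: vs) S E % 2 = 1) ↔ S.testBit v = true := by
      rw [e, Nat.and_one_is_mod, Nat.testBit_eq_decide_div_mod_eq, Nat.shiftRight_eq_div_pow,
        decide_eq_true_eq]
      omega
    have e4 : cmp (v :: vs) S E / 2 = cmp vs S E := by
      rw [e, Nat.and_one_is_mod]; omega
    rw [List.length_cons, ← add_assoc, mv, e1, e2, e4, ih, List.map_cons, List.prod_cons, mul_assoc]
    simp only [e3]

/-- the members `S` of `L` with `S &&& U = V`, bits of `V` cleared, compressed. -/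
noncomputable def lst (vs L : List ℕ) (U V E : ℕ) : List ℕ :=
  List.rec (motive := fun _ => List ℕ) [] (fun S _ r => Bool.rec (motive := fun _ => List ℕ) r
    (cmp vs (Nat.xor S V) E :: r) (Nat.beq (Nat.land S U) V)) L

theorem sm_lst {n : ℕ} {vs : List ℕ} (L : List ℕ) {U V K : ℕ} (E x : ℕ) {y : ℕ → ℝ} (ex : List ℝ)
    (h1 : vs.Nodup) (h2 : ∀ v ∈ vs, v < n) (h3 : V &&& U = V)
    (h4 : ∀ i < n, i ∈ vs ∨ (U ||| K).testBit i = true)
    (h5 : ∀ i, K.testBit i = true → i < n ∧ y i = 0) :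
    sm (x + vs.length) (lv (vs.map y ++ ex)) (lst vs L (U ||| K) V E) =
      sm2 n L U V y * mv x (lv ex) E := by
  unfold sm sm2 WL
  have hV : ∀ i, V.testBit i = true → U.testBit i = true := fun i hi => by
    have := congrArg (fun z => z.testBit i) h3
    simp only [Nat.testBit_and, hi, Bool.true_and] at this
    exact this
  induction L with
  | nil => simp [lst]
  | cons S L ih =>
    have e : lst vs (S :: L) (U ||| K) V E = Bool.rec (motive := fun _ => List ℕ)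
      (lst vs L (U ||| K) V E) (cmp vs (S ^^^ V) E :: lst vs L (U ||| K) V E)
      (Nat.beq (S &&& (U ||| K)) V) := rfl
    rw [e, List.filter_cons]
    cases hb : Nat.beq (S &&& (U ||| K)) V
    · have h6 : S &&& (U ||| K) ≠ V := Nat.ne_of_beq_eq_false hb
      simp only [ih]
      split_ifs with h7
      · have h8 : S &&& U = V := by simpa using h7
        obtain ⟨i, hi⟩ : ∃ i, (S &&& (U ||| K)).testBit i ≠ V.testBit i := by
          by_contra hc
          push Not at hc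
          exact h6 (Nat.eq_of_testBit_eq hc)
        rw [← h8] at hi
        simp only [Nat.testBit_and, Nat.testBit_or] at hi
        have h9 : S.testBit i = true ∧ U.testBit i = false ∧ K.testBit i = true := by
          revert hi; cases S.testBit i <;> cases U.testBit i <;> cases K.testBit i <;> simp
        have h10 : (S ^^^ V).testBit i = true := by
          rw [← h8]; simp [h9.1, h9.2.1]
        rw [List.map_cons, List.map_cons, List.sum_cons,
          prod_eq_zero (i := i) (mem_range.2 (h5 i h9.2.2).1) (by rw [if_pos h10, (h5 i h9.2.2).2]),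
          zero_add]
      · rfl
    · have h6 : S &&& (U ||| K) = V := Nat.eq_of_beq_eq_true hb
      have h7 : S &&& U = V := by
        refine Nat.eq_of_testBit_eq fun i => ?_
        have a := congrArg (fun z => z.testBit i) h6
        have b := hV i
        simp only [Nat.testBit_and, Nat.testBit_or] at a ⊢
        revert a b
        cases S.testBit i <;> cases U.testBit i <;> cases K.testBit i <;> cases V.testBit i <;> simp
      rw [if_pos (by simpa using h7)]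
      simp only [List.map_cons, List.sum_cons, ih, add_mul, mv_cmp]
      congr 2
      rw [← List.prod_toFinset _ h1]
      refine prod_subset (fun v hv => mem_range.2 (h2 v (List.mem_toFinset.1 hv))) fun i hi hv => ?_
      have a := (h4 i (mem_range.1 hi)).resolve_left (fun h => hv (List.mem_toFinset.2 h))
      have b := congrArg (fun z => z.testBit i) h6
      simp only [Nat.testBit_and, a, Bool.and_true] at b
      simp [b]

/-- a product `± κ * sm2 U V1 * sm2 U V2 * (extra monomials)`. -/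
structure Tm where
  neg : Bool
  κ : ℕ
  U : ℕ
  V1 : ℕ
  V2 : ℕ
  E1 : ℕ
  E2 : ℕ

noncomputable def Tm.v (n : ℕ) (L : List ℕ) (y : ℕ → ℝ) (x : ℕ) (ex : List ℝ) (q : Tm) : ℝ :=
  (if q.neg then -1 else 1) * q.κ *
    (sm2 n L q.U q.V1 y * sm2 n L q.U q.V2 y * (mv x (lv ex) q.E1 * mv x (lv ex) q.E2))

noncomputable def toPr (vs L : List ℕ) (K : ℕ) (ts : List Tm) : List Pr :=
  List.rec (motive := fun _ => List Pr) [] (fun q _ r => (fun U => Pr.mk q.neg q.κ
    (lst vs L U q.V1 q.E1) (cmp vs 0 q.E2) (lst vs L U q.V2 0)) (Nat.lor q.U K) :: r) ts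

noncomputable def okT (n d x : ℕ) (vs : List ℕ) (K : ℕ) (ts : List Tm) : Bool :=
  Nat.beq d (x + vs.length) && decide vs.Nodup && vs.all (fun v => Nat.blt v n) &&
    ts.all fun q => Nat.beq (q.V1 &&& q.U) q.V1 && Nat.beq (q.V2 &&& q.U) q.V2 &&
      (List.range n).all fun i => vs.contains i || (q.U ||| K).testBit i

theorem tv_toPr {n d x : ℕ} {vs : List ℕ} (L : List ℕ) {K : ℕ} {ts : List Tm}
    (h : okT n d x vs K ts = true) {y : ℕ → ℝ} (ex : List ℝ)
    (h5 : ∀ i, K.testBit i = true → i < n ∧ y i = 0) :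
    tv d (lv (vs.map y ++ ex)) (toPr vs L K ts) = (ts.map (Tm.v n L y x ex)).sum := by
  simp only [okT, Bool.and_eq_true, Nat.beq_eq, decide_eq_true_eq, List.all_eq_true, Nat.blt_eq,
    List.mem_range, Bool.or_eq_true, List.contains_iff_mem] at h
  obtain ⟨⟨⟨rfl, h1⟩, h2⟩, h3⟩ := h
  induction ts with
  | nil => rfl
  | cons q ts ih =>
    have e : toPr vs L K (q :: ts) = Pr.mk q.neg q.κ (lst vs L (q.U ||| K) q.V1 q.E1)
      (cmp vs 0 q.E2) (lst vs L (q.U ||| K) q.V2 0) :: toPr vs L K ts := rfl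
    obtain ⟨⟨a1, a2⟩, a3⟩ := h3 q (by simp)
    have ih' := ih fun q hq => h3 q (by simp [hq])
    unfold tv at ih' ⊢
    rw [e, List.map_cons, List.sum_cons, ih', List.map_cons, List.sum_cons]
    simp only [Pr.v, Tm.v, sm_lst L _ x ex h1 h2 a1 a3 h5, sm_lst L _ x ex h1 h2 a2 a3 h5, mv_cmp,
      mv_zero, Nat.zero_testBit]
    simp
    ring_nf

/-- the side conditions. -/
noncomputable def side (O n d x : ℕ) (vs L : List ℕ) (K : ℕ) (ts : List Tm) (ps : List (ℕ × ℕ)) :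
    Bool :=
  okT n d x vs K ts && sideT O d (toPr vs L K ts) ps

/-- the remainder tree (with the opposite sign). -/
noncomputable def rem (O d : ℕ) (vs L : List ℕ) (K : ℕ) (ts : List Tm) (ps : List (ℕ × ℕ))
    (t : TT d) : TT d :=
  mulP O d (gT O d (toPr vs L K ts)) ps t

theorem sum_nonneg_of {O n d x : ℕ} {vs L : List ℕ} {K : ℕ} {ts : List Tm} {ps : List (ℕ × ℕ)}
    (h0 : side O n d x vs L K ts ps = true) {t : TT d}
    (ht : ∀ y : ℕ → ℝ, (∀ i, 0 ≤ y i) → 0 ≤ ev O d t y)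
    (h : le4p O d [] (rem O d vs L K ts ps t) = true) {y : ℕ → ℝ} (hy : ∀ i, 0 ≤ y i)
    {ex : List ℝ} (hex : ∀ x ∈ ex, 0 ≤ x) (h5 : ∀ i, K.testBit i = true → i < n ∧ y i = 0) :
    0 ≤ (ts.map (Tm.v n L y x ex)).sum := by
  rw [side, Bool.and_eq_true] at h0
  rw [← tv_toPr L h0.1 ex h5]
  refine tv_nonneg h0.2 ht h (lv_nonneg fun z hz => ?_)
  rcases List.mem_append.1 hz with hz | hz
  · obtain ⟨v, -, rfl⟩ := List.mem_map.1 hz
    exact hy v
  · exact hex z hz

/-- the terms of `± Dl i j * (extra monomials)`. -/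
noncomputable def dlT (i j : ℕ) (s : Bool) (E1 E2 : ℕ) : List Tm :=
  if i = j then [⟨s, 1, 2 ^ i, 2 ^ i, 2 ^ i, E1, E2⟩] else
    [⟨s, 1, 2 ^ i ||| 2 ^ j, 2 ^ i, 2 ^ j, E1, E2⟩,
      ⟨!s, 1, 2 ^ i ||| 2 ^ j, 2 ^ i ||| 2 ^ j, 0, E1, E2⟩]

theorem dlT_sum (n : ℕ) (L : List ℕ) (y : ℕ → ℝ) (x : ℕ) (ex : List ℝ) (i j : ℕ) (s : Bool)
    (E1 E2 : ℕ) : ((dlT i j s E1 E2).map (Tm.v n L y x ex)).sum =
      (if s then -1 else 1) * Dl n L i j y * (mv x (lv ex) E1 * mv x (lv ex) E2) := by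
  unfold dlT Dl
  cases s <;> by_cases h : i = j <;>
    simp only [h, Tm.v, List.map_cons, List.map_nil, List.sum_cons, List.sum_nil, if_true,
      Bool.not_true, Bool.not_false, Bool.false_eq_true, if_false] <;> push_cast <;> ring

def iso (t1 t2 t3 : ℕ) : List (ℕ × Bool × ℕ × ℕ) :=
  [(t1, true, 1, 2), (t2, false, 2, 1), (t2, false, 2, 2), (t3, false, 1, 1), (t3, false, 1, 2)]

noncomputable def eeT (e f : ℕ) : List Tm := dlT e f false 0 0

noncomputable def teT (t1 t2 t3 e : ℕ) : List Tm :=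
  (iso t1 t2 t3).flatMap fun p => dlT p.1 e p.2.1 p.2.2.1 p.2.2.2

noncomputable def ttT (t1 t2 t3 s1 s2 s3 : ℕ) : List Tm :=
  (iso t1 t2 t3).flatMap fun p => (iso s1 s2 s3).flatMap fun q =>
    dlT p.1 q.1 (xor p.2.1 q.2.1) (p.2.2.1 + 4 * q.2.2.1) (p.2.2.2 + 4 * q.2.2.2)

noncomputable def ddT (t1 t2 t3 : ℕ) : List Tm :=
  (fun m => [⟨true, 4, m, 2 ^ t1 ||| 2 ^ t2, 0, 0, 0⟩, ⟨false, 2, m, 2 ^ t1, 2 ^ t2, 0, 0⟩,
    ⟨false, 2, m, 2 ^ t1, 2 ^ t3, 0, 0⟩, ⟨false, 2, m, 2 ^ t2, 2 ^ t3, 0, 0⟩,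
    ⟨true, 1, m, 2 ^ t1, 2 ^ t1, 0, 0⟩, ⟨true, 1, m, 2 ^ t2, 2 ^ t2, 0, 0⟩,
    ⟨true, 1, m, 2 ^ t3, 2 ^ t3, 0, 0⟩]) (2 ^ t1 ||| 2 ^ t2 ||| 2 ^ t3)

theorem kill2 {n a b : ℕ} (ha : a < n) (hb : b < n) {y : ℕ → ℝ} (h1 : y a = 0) (h2 : y b = 0) :
    ∀ j, (2 ^ a ||| 2 ^ b).testBit j = true → j < n ∧ y j = 0 := by
  intro j hj
  rw [Nat.testBit_or, Nat.testBit_two_pow, Nat.testBit_two_pow] at hj
  simp only [Bool.or_eq_true, decide_eq_true_eq] at hj
  rcases hj with rfl | rfl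
  · exact ⟨ha, h1⟩
  · exact ⟨hb, h2⟩

section
variable {O n d : ℕ} {vs L : List ℕ} {ps : List (ℕ × ℕ)} {t : TT d}

theorem oblEE_gen {e f : ℕ} (h0 : side O n d 0 vs L 0 (eeT e f) ps = true)
    (ht : ∀ y : ℕ → ℝ, (∀ i, 0 ≤ y i) → 0 ≤ ev O d t y)
    (h : le4p O d [] (rem O d vs L 0 (eeT e f) ps t) = true) (y : ℕ → ℝ) (hy : ∀ i, 0 ≤ y i) :
    0 ≤ Dl n L e f y := by
  have := sum_nonneg_of h0 ht h hy (ex := []) (by simp) (by simp)
  simpa [eeT, dlT_sum, mv] using this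

theorem oblD_gen {t1 t2 t3 : ℕ} (h0 : side O n d 0 vs L 0 (ddT t1 t2 t3) ps = true)
    (ht : ∀ y : ℕ → ℝ, (∀ i, 0 ≤ y i) → 0 ≤ ev O d t y)
    (h : le4p O d [] (rem O d vs L 0 (ddT t1 t2 t3) ps t) = true) : OblD n L t1 t2 t3 := by
  intro y hy
  have := sum_nonneg_of h0 ht h hy (ex := []) (by simp) (by simp)
  simp [ddT, Tm.v, mv] at this
  simp only
  linarith

theorem oblTE_gen {t1 t2 t3 e : ℕ} (h1 : t1 < n ∧ e < n)
    (h0 : side O n d 2 vs L (2 ^ t1 ||| 2 ^ e) (teT t1 t2 t3 e) ps = true)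
    (ht : ∀ y : ℕ → ℝ, (∀ i, 0 ≤ y i) → 0 ≤ ev O d t y)
    (h : le4p O d [] (rem O d vs L (2 ^ t1 ||| 2 ^ e) (teT t1 t2 t3 e) ps t) = true) :
    OblTE n L t1 t2 t3 e := by
  intro y b c hy hb hc h2 h3
  have := sum_nonneg_of h0 ht h hy (ex := [b, c]) (by simp [hb, hc]) (kill2 h1.1 h1.2 h2 h3)
  simp [teT, iso, dlT_sum, mv, lv, up] at this
  unfold isoC
  linarith

theorem oblTT_gen {t1 t2 t3 s1 s2 s3 : ℕ} (h1 : t1 < n ∧ s1 < n)
    (h0 : side O n d 4 vs L (2 ^ t1 ||| 2 ^ s1) (ttT t1 t2 t3 s1 s2 s3) ps = true)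
    (ht : ∀ y : ℕ → ℝ, (∀ i, 0 ≤ y i) → 0 ≤ ev O d t y)
    (h : le4p O d [] (rem O d vs L (2 ^ t1 ||| 2 ^ s1) (ttT t1 t2 t3 s1 s2 s3) ps t) = true) :
    OblTT n L t1 t2 t3 s1 s2 s3 := by
  intro y b c b' c' hy hb hc hb' hc' h2 h3
  have := sum_nonneg_of h0 ht h hy (ex := [b, c, b', c']) (by simp [hb, hc, hb', hc'])
    (kill2 h1.1 h1.2 h2 h3)
  simp [ttT, iso, dlT_sum, mv, lv, up] at this
  unfold isoC
  linarith

end

end Pool.Agent.Lib.MP_c69b6d_co.F.G
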