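import Pool.Agent.Lib.MP_c69b6d_co.F.Obl

/-! A checker for sums of squares in Gram form: trees, shapes and rows. -/

namespace Pool.Agent.Lib.MP_c69b6d_co.F.G

open Finset

inductive N4 (α : Type) : Type
  | z : N4 α
  | n : α → α → α → α → N4 α

/-- trees of coefficients, `d` levels, exponents at most three. -/
def TT (d : ℕ) : Type := Nat.rec (motive := fun _ => Type) ℕ (fun _ α => N4 α) d

/-- shapes: sets of square free monomials. -/
inductive Sp : Type
  | e : Sp
  | n0 : Sp → Sp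
  | n1 : Sp → Sp
  | n : ℕ → ℕ → Sp → Sp → Sp

def up (y : ℕ → ℝ) : ℕ → ℝ := fun i => y (i + 1)

theorem up_nonneg {y : ℕ → ℝ} (hy : ∀ i, 0 ≤ y i) : ∀ i, 0 ≤ up y i := fun _ => hy _

def toN (k : TT 0) : ℕ := k

noncomputable def ev (O : ℕ) : (d : ℕ) → TT d → (ℕ → ℝ) → ℝ
  | 0, k, _ => (toN k : ℝ) - O
  | _ + 1, N4.z, _ => 0
  | d + 1, N4.n a b c e, y => ev O d a (up y) + y 0 * ev O d b (up y) + y 0 ^ 2 * ev O d c (up y) +
      y 0 ^ 3 * ev O d e (up y)

noncomputable def zz (O d : ℕ) : TT d := Nat.rec (motive := fun d => TT d) O (fun _ _ => N4.z) d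

theorem ev_zz (O d : ℕ) (y : ℕ → ℝ) : ev O d (zz O d) y = 0 := by
  cases d with
  | zero => simp [ev, zz, toN]
  | succ d => rfl

theorem n4_spec (O d : ℕ) (t : TT (d + 1)) : ∃ a b c e : TT d,
    (∀ {β : Type} (k : TT d → TT d → TT d → TT d → β), N4.rec (motive := fun _ => β)
      (k (zz O d) (zz O d) (zz O d) (zz O d)) (fun a b c e => k a b c e) t = k a b c e) ∧
    ∀ y, ev O (d + 1) t y = ev O d a (up y) + y 0 * ev O d b (up y) + y 0 ^ 2 * ev O d c (up y) +
      y 0 ^ 3 * ev O d e (up y) := by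
  cases t with
  | z => exact ⟨_, _, _, _, fun _ => rfl, fun y => by simp [ev, ev_zz]⟩
  | n a b c e => exact ⟨a, b, c, e, fun _ => rfl, fun y => rfl⟩

/-- the value of a packed row on a shape. -/
noncomputable def rowv (φ : ℕ → ℝ) : ℕ → (ℕ → ℝ) → Sp → ℕ → ℝ
  | 0, _, _, x => φ x
  | _ + 1, _, Sp.e, _ => 0
  | d + 1, y, Sp.n0 A, x => rowv φ d (up y) A x
  | d + 1, y, Sp.n1 A, x => y 0 * rowv φ d (up y) A x
  | d + 1, y, Sp.n c m A A', x => rowv φ d (up y) A (x &&& m) + y 0 * rowv φ d (up y) A' (x >>> c)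

def Good (O d : ℕ) (φ : ℕ → ℝ) (y : ℕ → ℝ) (s : ℝ) (r : Sp → ℕ → TT d → TT d) : Prop :=
  ∀ S x t, ev O d t y + s * rowv φ d y S x ≤ ev O d (r S x t) y

noncomputable def p0 (α : Type) (o : α) (r : Sp → ℕ → α → α) (S : Sp) (x : ℕ) (t : N4 α) : N4 α :=
  Sp.rec (motive := fun _ => (α : Type) → α → (Sp → ℕ → α → α) → ℕ → N4 α → N4 α)
    (fun _ _ _ _ t => t)
    (fun A _ α o r x t => N4.rec (motive := fun _ => N4 α)
      (N4.n (r A x o) o o o)
      (fun a b d e => N4.n (r A x a) b d e) t)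
    (fun A _ α o r x t => N4.rec (motive := fun _ => N4 α)
      (N4.n o (r A x o) o o)
      (fun a b d e => N4.n a (r A x b) d e) t)
    (fun c m A A' _ _ α o r x t => N4.rec (motive := fun _ => N4 α)
      (N4.n (r A (Nat.land x m) o) (r A' (Nat.shiftRight x c) o) o o)
      (fun a b d e => N4.n (r A (Nat.land x m) a) (r A' (Nat.shiftRight x c) b) d e) t) S α o r x t

noncomputable def p1 (α : Type) (o : α) (r : Sp → ℕ → α → α) (S : Sp) (x : ℕ) (t : N4 α) : N4 α :=
  Sp.rec (motive := fun _ => (α : Type) → α → (Sp → ℕ → α → α) → ℕ → N4 α → N4 α)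
    (fun _ _ _ _ t => t)
    (fun A _ α o r x t => N4.rec (motive := fun _ => N4 α)
      (N4.n o (r A x o) o o)
      (fun a b d e => N4.n a (r A x b) d e) t)
    (fun A _ α o r x t => N4.rec (motive := fun _ => N4 α)
      (N4.n o o (r A x o) o)
      (fun a b d e => N4.n a b (r A x d) e) t)
    (fun c m A A' _ _ α o r x t => N4.rec (motive := fun _ => N4 α)
      (N4.n o (r A (Nat.land x m) o) (r A' (Nat.shiftRight x c) o) o)
      (fun a b d e => N4.n a (r A (Nat.land x m) b) (r A' (Nat.shiftRight x c) d) e) t) S α o r x t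

noncomputable def p2 (α : Type) (o : α) (r : Sp → ℕ → α → α) (S : Sp) (x : ℕ) (t : N4 α) : N4 α :=
  Sp.rec (motive := fun _ => (α : Type) → α → (Sp → ℕ → α → α) → ℕ → N4 α → N4 α)
    (fun _ _ _ _ t => t)
    (fun A _ α o r x t => N4.rec (motive := fun _ => N4 α)
      (N4.n o o (r A x o) o)
      (fun a b d e => N4.n a b (r A x d) e) t)
    (fun A _ α o r x t => N4.rec (motive := fun _ => N4 α)
      (N4.n o o o (r A x o))
      (fun a b d e => N4.n a b d (r A x e)) t)
    (fun c m A A' _ _ α o r x t => N4.rec (motive := fun _ => N4 α)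
      (N4.n o o (r A (Nat.land x m) o) (r A' (Nat.shiftRight x c) o))
      (fun a b d e => N4.n a b (r A (Nat.land x m) d) (r A' (Nat.shiftRight x c) e)) t) S α o r x t

theorem good_p0 {O d : ℕ} {φ : ℕ → ℝ} {y : ℕ → ℝ} (hy : ∀ i, 0 ≤ y i) {s : ℝ}
    {r : Sp → ℕ → TT d → TT d} (h : Good O d φ (up y) s r) :
    Good O (d + 1) φ y (s) (p0 (TT d) (zz O d) r) := by
  intro S x t
  obtain ⟨a, b, c, e, h1, h2⟩ := n4_spec O d t
  have y0 := hy 0
  have y1 : 0 ≤ y 0 ^ 0 := pow_nonneg y0 _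
  have y2 : 0 ≤ y 0 ^ 1 := pow_nonneg y0 _
  cases S with
  | e => exact le_of_eq (by simp [rowv, p0])
  | n0 A =>
    have e1 : p0 (TT d) (zz O d) r (Sp.n0 A) x t = N4.n (r A x a) b c e := h1 (fun a b c e => N4.n (r A x a) b c e)
    have g := mul_le_mul_of_nonneg_left (h A x a) y1
    rw [e1, h2 y]; simp only [ev, rowv]; nlinarith
  | n1 A =>
    have e1 : p0 (TT d) (zz O d) r (Sp.n1 A) x t = N4.n a (r A x b) c e := h1 (fun a b c e => N4.n a (r A x b) c e)
    have g := mul_le_mul_of_nonneg_left (h A x b) y2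
    rw [e1, h2 y]; simp only [ev, rowv]; nlinarith
  | n k m A A' =>
    have e1 : p0 (TT d) (zz O d) r (Sp.n k m A A') x t =
      N4.n (r A (x &&& m) a) (r A' (x >>> k) b) c e := h1 (fun a b c e => N4.n (r A (x &&& m) a) (r A' (x >>> k) b) c e)
    have g := mul_le_mul_of_nonneg_left (h A (x &&& m) a) y1
    have g' := mul_le_mul_of_nonneg_left (h A' (x >>> k) b) y2
    rw [e1, h2 y]; simp only [ev, rowv]; nlinarith

theorem good_p1 {O d : ℕ} {φ : ℕ → ℝ} {y : ℕ → ℝ} (hy : ∀ i, 0 ≤ y i) {s : ℝ}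
    {r : Sp → ℕ → TT d → TT d} (h : Good O d φ (up y) s r) :
    Good O (d + 1) φ y (y 0 * s) (p1 (TT d) (zz O d) r) := by
  intro S x t
  obtain ⟨a, b, c, e, h1, h2⟩ := n4_spec O d t
  have y0 := hy 0
  have y1 : 0 ≤ y 0 ^ 1 := pow_nonneg y0 _
  have y2 : 0 ≤ y 0 ^ 2 := pow_nonneg y0 _
  cases S with
  | e => exact le_of_eq (by simp [rowv, p1])
  | n0 A =>
    have e1 : p1 (TT d) (zz O d) r (Sp.n0 A) x t = N4.n a (r A x b) c e := h1 (fun a b c e => N4.n a (r A x b) c e)
    have g := mul_le_mul_of_nonneg_left (h A x b) y1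
    rw [e1, h2 y]; simp only [ev, rowv]; nlinarith
  | n1 A =>
    have e1 : p1 (TT d) (zz O d) r (Sp.n1 A) x t = N4.n a b (r A x c) e := h1 (fun a b c e => N4.n a b (r A x c) e)
    have g := mul_le_mul_of_nonneg_left (h A x c) y2
    rw [e1, h2 y]; simp only [ev, rowv]; nlinarith
  | n k m A A' =>
    have e1 : p1 (TT d) (zz O d) r (Sp.n k m A A') x t =
      N4.n a (r A (x &&& m) b) (r A' (x >>> k) c) e := h1 (fun a b c e => N4.n a (r A (x &&& m) b) (r A' (x >>> k) c) e)
    have g := mul_le_mul_of_nonneg_left (h A (x &&& m) b) y1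
    have g' := mul_le_mul_of_nonneg_left (h A' (x >>> k) c) y2
    rw [e1, h2 y]; simp only [ev, rowv]; nlinarith

theorem good_p2 {O d : ℕ} {φ : ℕ → ℝ} {y : ℕ → ℝ} (hy : ∀ i, 0 ≤ y i) {s : ℝ}
    {r : Sp → ℕ → TT d → TT d} (h : Good O d φ (up y) s r) :
    Good O (d + 1) φ y (y 0 ^ 2 * s) (p2 (TT d) (zz O d) r) := by
  intro S x t
  obtain ⟨a, b, c, e, h1, h2⟩ := n4_spec O d t
  have y0 := hy 0
  have y1 : 0 ≤ y 0 ^ 2 := pow_nonneg y0 _
  have y2 : 0 ≤ y 0 ^ 3 := pow_nonneg y0 _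
  cases S with
  | e => exact le_of_eq (by simp [rowv, p2])
  | n0 A =>
    have e1 : p2 (TT d) (zz O d) r (Sp.n0 A) x t = N4.n a b (r A x c) e := h1 (fun a b c e => N4.n a b (r A x c) e)
    have g := mul_le_mul_of_nonneg_left (h A x c) y1
    rw [e1, h2 y]; simp only [ev, rowv]; nlinarith
  | n1 A =>
    have e1 : p2 (TT d) (zz O d) r (Sp.n1 A) x t = N4.n a b c (r A x e) := h1 (fun a b c e => N4.n a b c (r A x e))
    have g := mul_le_mul_of_nonneg_left (h A x e) y2
    rw [e1, h2 y]; simp only [ev, rowv]; nlinarith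
  | n k m A A' =>
    have e1 : p2 (TT d) (zz O d) r (Sp.n k m A A') x t =
      N4.n a b (r A (x &&& m) c) (r A' (x >>> k) e) := h1 (fun a b c e => N4.n a b (r A (x &&& m) c) (r A' (x >>> k) e))
    have g := mul_le_mul_of_nonneg_left (h A (x &&& m) c) y1
    have g' := mul_le_mul_of_nonneg_left (h A' (x >>> k) e) y2
    rw [e1, h2 y]; simp only [ev, rowv]; nlinarith

/-- the square free monomial with mask `m`. -/
noncomputable def mv : ℕ → (ℕ → ℝ) → ℕ → ℝ
  | 0, _, _ => 1
  | d + 1, y, m => (if m % 2 = 1 then y 0 else 1) * mv d (up y) (m / 2)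

theorem mv_nonneg (d : ℕ) {y : ℕ → ℝ} (hy : ∀ i, 0 ≤ y i) (m : ℕ) : 0 ≤ mv d y m := by
  induction d generalizing y m with
  | zero => simp [mv]
  | succ d ih =>
    refine mul_nonneg ?_ (ih (up_nonneg hy) _)
    split_ifs
    · exact hy 0
    · exact zero_le_one

theorem mv_pos (d : ℕ) {y : ℕ → ℝ} (hy : ∀ i, 0 < y i) (m : ℕ) : 0 < mv d y m := by
  induction d generalizing y m with
  | zero => simp [mv]
  | succ d ih =>
    refine mul_pos ?_ (ih (fun _ => hy _) _)
    split_ifs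
    · exact hy 0
    · exact zero_lt_one

/-- the test for an odd number. -/
noncomputable def od (m : ℕ) : Bool := Nat.beq (Nat.land m 1) 1

theorem od_true {m : ℕ} (h : od m = true) : m % 2 = 1 := by
  have h1 : m &&& 1 = 1 := Nat.eq_of_beq_eq_true h
  rwa [Nat.and_one_is_mod] at h1

theorem od_false {m : ℕ} (h : od m = false) : ¬ m % 2 = 1 := by
  have h1 : ¬ m &&& 1 = 1 := Nat.ne_of_beq_eq_false h
  rwa [Nat.and_one_is_mod] at h1

theorem shr1 (m : ℕ) : Nat.shiftRight m 1 = m / 2 := Nat.shiftRight_one m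

/-- `lo` or `hi` according to the parity of `T`. -/
noncomputable def sel {β : Type} (T : ℕ) (lo hi : β) : β :=
  Bool.rec (motive := fun _ => β) lo hi (Nat.beq (Nat.land T 1) 1)

theorem sel_cases {β : Type} (T : ℕ) : ((∀ lo hi : β, sel T lo hi = lo) ∧ ¬ T % 2 = 1) ∨
    ((∀ lo hi : β, sel T lo hi = hi) ∧ T % 2 = 1) := by
  cases h : od T
  · refine Or.inl ⟨fun lo hi => ?_, od_false h⟩
    unfold od at h; unfold sel; rw [h]
  · refine Or.inr ⟨fun lo hi => ?_, od_true h⟩
    unfold od at h; unfold sel; rw [h]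

/-- the first monomial of a shape. -/
noncomputable def hv : ℕ → (ℕ → ℝ) → Sp → ℝ
  | 0, _, _ => 1
  | d + 1, y, Sp.e => hv d (up y) Sp.e
  | d + 1, y, Sp.n0 A => hv d (up y) A
  | d + 1, y, Sp.n1 A => y 0 * hv d (up y) A
  | d + 1, y, Sp.n _ _ A _ => hv d (up y) A

/-- the row adder shifted by the first monomial of `S` and by the mask `T`. -/
noncomputable def hdR (β : Type) (O : ℕ) (f : ℕ → ℕ → ℕ) (d : ℕ) :
    Sp → ℕ → ((Sp → ℕ → TT d → TT d) → β) → β :=
  Nat.rec (motive := fun d => Sp → ℕ → ((Sp → ℕ → TT d → TT d) → β) → β)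
    (fun _ _ k => k (fun _ x t => f t x))
    (fun d ih S T k => Sp.rec (motive := fun _ => β)
      (ih Sp.e (Nat.shiftRight T 1) (fun r =>
        sel T (k (p0 (TT d) (zz O d) r)) (k (p1 (TT d) (zz O d) r))))
      (fun A _ => ih A (Nat.shiftRight T 1) (fun r =>
        sel T (k (p0 (TT d) (zz O d) r)) (k (p1 (TT d) (zz O d) r))))
      (fun A _ => ih A (Nat.shiftRight T 1) (fun r =>
        sel T (k (p1 (TT d) (zz O d) r)) (k (p2 (TT d) (zz O d) r))))
      (fun _ _ A _ _ _ => ih A (Nat.shiftRight T 1) (fun r =>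
        sel T (k (p0 (TT d) (zz O d) r)) (k (p1 (TT d) (zz O d) r)))) S) d

theorem good_base {O : ℕ} {f : ℕ → ℕ → ℕ} {φ : ℕ → ℝ} (hf : ∀ k x : ℕ, (k : ℝ) + φ x ≤ f k x)
    (y : ℕ → ℝ) : Good O 0 φ y 1 (fun _ x t => f t x) := by
  intro S x t
  have := hf t x
  simp only [ev, rowv, toN]
  linarith

theorem Good.congr {O d : ℕ} {φ y : ℕ → ℝ} {s s' : ℝ} {r : Sp → ℕ → TT d → TT d}
    (h : Good O d φ y s r) (e : s' = s) : Good O d φ y s' r := e ▸ h

theorem hdR_spec (β : Type) (O : ℕ) {f : ℕ → ℕ → ℕ} {φ : ℕ → ℝ}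
    (hf : ∀ k x : ℕ, (k : ℝ) + φ x ≤ f k x) (d : ℕ) (S : Sp) (T : ℕ) :
    ∃ r, (∀ k, hdR β O f d S T k = k r) ∧
      ∀ y : ℕ → ℝ, (∀ i, 0 ≤ y i) → Good O d φ y (hv d y S * mv d y T) r := by
  induction d generalizing S T with
  | zero => exact ⟨_, fun _ => rfl, fun y _ => (good_base hf y).congr (by simp [hv, mv])⟩
  | succ d ih =>
    have lo : ∀ A S : Sp, (∀ y, hv (d + 1) y S = hv d (up y) A) →
        (∀ k, hdR β O f (d + 1) S T k = hdR β O f d A (Nat.shiftRight T 1) (fun r =>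
          sel T (k (p0 (TT d) (zz O d) r)) (k (p1 (TT d) (zz O d) r)))) →
        ∃ r, (∀ k, hdR β O f (d + 1) S T k = k r) ∧
          ∀ y : ℕ → ℝ, (∀ i, 0 ≤ y i) → Good O (d + 1) φ y (hv (d + 1) y S * mv (d + 1) y T) r := by
      intro A S h1 h2
      obtain ⟨r, h3, h4⟩ := ih A (Nat.shiftRight T 1)
      rcases sel_cases (β := β) T with ⟨h5, h6⟩ | ⟨h5, h6⟩
      · exact ⟨_, fun k => by rw [h2, h3, h5], fun y hy => (good_p0 hy (h4 _ (up_nonneg hy))).congr
          (by rw [h1, mv, if_neg h6, shr1]; ring)⟩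
      · exact ⟨_, fun k => by rw [h2, h3, h5], fun y hy => (good_p1 hy (h4 _ (up_nonneg hy))).congr
          (by rw [h1, mv, if_pos h6, shr1]; ring)⟩
    cases S with
    | e => exact lo Sp.e _ (fun _ => rfl) (fun _ => rfl)
    | n0 A => exact lo A _ (fun _ => rfl) (fun _ => rfl)
    | n c m A A' => exact lo A _ (fun _ => rfl) (fun _ => rfl)
    | n1 A =>
      have h2 : ∀ k, hdR β O f (d + 1) (Sp.n1 A) T k = hdR β O f d A (Nat.shiftRight T 1) (fun r =>
          sel T (k (p1 (TT d) (zz O d) r)) (k (p2 (TT d) (zz O d) r))) := fun _ => rfl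
      obtain ⟨r, h3, h4⟩ := ih A (Nat.shiftRight T 1)
      rcases sel_cases (β := β) T with ⟨h5, h6⟩ | ⟨h5, h6⟩
      · exact ⟨_, fun k => by rw [h2, h3, h5], fun y hy => (good_p1 hy (h4 _ (up_nonneg hy))).congr
          (by rw [hv, mv, if_neg h6, shr1]; ring)⟩
      · exact ⟨_, fun k => by rw [h2, h3, h5], fun y hy => (good_p2 hy (h4 _ (up_nonneg hy))).congr
          (by rw [hv, mv, if_pos h6, shr1]; ring)⟩

def cnt : ℕ → Sp → ℕ
  | 0, _ => 1
  | _ + 1, Sp.e => 0
  | d + 1, Sp.n0 A => cnt d A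
  | d + 1, Sp.n1 A => cnt d A
  | d + 1, Sp.n _ _ A A' => cnt d A + cnt d A'

/-- the `j`-th monomial of a shape. -/
noncomputable def val : ℕ → (ℕ → ℝ) → Sp → ℕ → ℝ
  | 0, _, _, _ => 1
  | _ + 1, _, Sp.e, _ => 0
  | d + 1, y, Sp.n0 A, j => val d (up y) A j
  | d + 1, y, Sp.n1 A, j => y 0 * val d (up y) A j
  | d + 1, y, Sp.n _ _ A A', j =>
    if j < cnt d A then val d (up y) A j else y 0 * val d (up y) A' (j - cnt d A)

def ok (B : ℕ) : ℕ → Sp → Prop
  | 0, _ => True
  | _ + 1, Sp.e => True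
  | d + 1, Sp.n0 A => ok B d A
  | d + 1, Sp.n1 A => ok B d A
  | d + 1, Sp.n c m A A' => c = B * cnt d A ∧ m = 2 ^ c - 1 ∧ 0 < cnt d A ∧ ok B d A ∧ ok B d A'

theorem hv_eq {B d : ℕ} {S : Sp} (h : ok B d S) (h0 : 0 < cnt d S) (y : ℕ → ℝ) :
    hv d y S = val d y S 0 := by
  induction d generalizing S y with
  | zero => rfl
  | succ d ih =>
    cases S with
    | e => simp [cnt] at h0
    | n0 A => exact ih h h0 _
    | n1 A => simp only [hv, val, ih (S := A) h h0]
    | n c m A A' => simp only [hv, val, if_pos h.2.2.1, ih h.2.2.2.1 h.2.2.1]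

/-- remove the first monomial. -/
noncomputable def tl (B : ℕ) (S : Sp) : Sp :=
  Sp.rec (motive := fun _ => Sp) Sp.e (fun _ r => Sp.n0 r) (fun _ r => Sp.n1 r)
    (fun c m _ b ra _ => Bool.rec (motive := fun _ => Sp)
      (Sp.n (Nat.sub c B) (Nat.shiftRight m B) ra b) (Sp.n1 b) (Nat.beq c B)) S

theorem mask_shr (c B : ℕ) : (2 ^ c - 1) >>> B = 2 ^ (c - B) - 1 := by
  refine Nat.eq_of_testBit_eq fun i => ?_
  simp only [Nat.testBit_shiftRight, Nat.testBit_two_pow_sub_one, decide_eq_decide]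
  omega

theorem tl_spec {B d : ℕ} (hB : 0 < B) {S : Sp} (h : ok B d S) (h2 : 2 ≤ cnt d S) :
    ok B d (tl B S) ∧ cnt d (tl B S) + 1 = cnt d S ∧
      ∀ y j, val d y (tl B S) j = val d y S (j + 1) := by
  induction d generalizing S with
  | zero => simp [cnt] at h2
  | succ d ih =>
    cases S with
    | e => simp [cnt] at h2
    | n0 A =>
      obtain ⟨a, b, c⟩ := ih (S := A) h h2
      exact ⟨a, b, fun y j => c _ j⟩
    | n1 A =>
      obtain ⟨a, b, c⟩ := ih (S := A) h h2
      refine ⟨a, b, fun y j => ?_⟩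
      have : tl B (Sp.n1 A) = Sp.n1 (tl B A) := rfl
      rw [this]; simp only [val, c]
    | n c m A A' =>
      obtain ⟨h3, h4, h5, h6, h7⟩ := h
      have e : tl B (Sp.n c m A A') = Bool.rec (motive := fun _ => Sp)
        (Sp.n (c - B) (m >>> B) (tl B A) A') (Sp.n1 A') (Nat.beq c B) := rfl
      rw [e]
      cases hc : Nat.beq c B
      · have h8 : c ≠ B := Nat.ne_of_beq_eq_false hc
        have h9 : 2 ≤ cnt d A := by
          by_contra hh
          have : cnt d A = 1 := by omega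
          rw [this, mul_one] at h3
          exact h8 h3
        obtain ⟨a, b, g⟩ := ih h6 h9
        refine ⟨⟨?_, ?_, by omega, a, h7⟩, by simp only [cnt]; omega, fun y j => ?_⟩
        · rw [h3, ← b, mul_add]; omega
        · rw [h4, mask_shr]
        · simp only [val, g]
          by_cases hj : j < cnt d (tl B A)
          · rw [if_pos hj, if_pos (by omega)]
          · rw [if_neg hj, if_neg (by omega)]
            congr 2; omega
      · have h8 : c = B := Nat.eq_of_beq_eq_true hc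
        have h9 : cnt d A = 1 := by
          rw [h8] at h3
          exact (Nat.eq_of_mul_eq_mul_left hB (by rw [← h3, mul_one])).symm
        refine ⟨h7, by simp only [cnt]; omega, fun y j => ?_⟩
        simp only [val, h9]
        rw [if_neg (by omega), Nat.add_sub_cancel]

/-- the test of the fields of a shape: `B * cnt + 1`, or `0` for a failure. -/
noncomputable def cw (B d : ℕ) : Sp → ℕ :=
  Nat.rec (motive := fun _ => Sp → ℕ) (fun _ => Nat.succ B)
    (fun _ r S => Sp.rec (motive := fun _ => ℕ) 1 (fun A _ => r A) (fun A _ => r A)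
      (fun c m A A' _ _ => (fun v => Bool.rec (motive := fun _ => ℕ) 0 (Nat.add c v)
        (Nat.beq (r A) (Nat.succ c) && Nat.beq (Nat.succ m) (Nat.shiftLeft 1 c) && Nat.ble 1 c &&
          Nat.ble 1 v)) (r A')) S) d

theorem cw_spec {B d : ℕ} {S : Sp} {w : ℕ} (h : cw B d S = w + 1) :
    ok B d S ∧ w = B * cnt d S := by
  induction d generalizing S w with
  | zero =>
    have : B + 1 = w + 1 := h
    exact ⟨trivial, by simp [cnt]; omega⟩
  | succ d ih =>
    cases S with
    | e =>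
      have : 1 = w + 1 := h
      exact ⟨trivial, by simp [cnt]; omega⟩
    | n0 A => exact ih (S := A) h
    | n1 A => exact ih (S := A) h
    | n c m A A' =>
      have e : cw B (d + 1) (Sp.n c m A A') = Bool.rec (motive := fun _ => ℕ) 0 (c + cw B d A')
        (Nat.beq (cw B d A) (c + 1) && Nat.beq (m + 1) (1 <<< c) && Nat.ble 1 c &&
          Nat.ble 1 (cw B d A')) := rfl
      rw [e] at h
      cases hb : (Nat.beq (cw B d A) (c + 1) && Nat.beq (m + 1) (1 <<< c) && Nat.ble 1 c &&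
          Nat.ble 1 (cw B d A'))
      · rw [hb] at h; exact absurd h (by simp)
      · rw [hb] at h
        simp only [Bool.and_eq_true, Nat.beq_eq, Nat.ble_eq, Nat.one_shiftLeft] at hb
        obtain ⟨⟨⟨h1, h2⟩, h3⟩, h4⟩ := hb
        obtain ⟨v, hv⟩ : ∃ v, cw B d A' = v + 1 := ⟨cw B d A' - 1, by omega⟩
        obtain ⟨a1, a2⟩ := ih h1
        obtain ⟨b1, b2⟩ := ih hv
        have h5 : c + cw B d A' = w + 1 := h
        refine ⟨⟨a2, by omega, ?_, a1, b1⟩, ?_⟩
        · rcases Nat.eq_zero_or_pos (cnt d A) with h0 | h0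
          · rw [h0] at a2; omega
          · exact h0
        · simp only [cnt, mul_add]; omega

/-- the digit number `j` in base `2 ^ B`. -/
def dg (B x j : ℕ) : ℕ := (x >>> (B * j)) % 2 ^ B

theorem dg_bit (B x j i : ℕ) :
    (dg B x j).testBit i = (decide (i < B) && x.testBit (B * j + i)) := by
  simp [dg, Nat.testBit_mod_two_pow, Nat.testBit_shiftRight]

theorem dg_lt (B x j : ℕ) : dg B x j < 2 ^ B := Nat.mod_lt _ (by positivity)

theorem dg_zero (B x : ℕ) : dg B x 0 = x % 2 ^ B := by simp [dg]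

theorem dg_shr (B x a j : ℕ) : dg B (x >>> (B * a)) j = dg B x (a + j) := by
  unfold dg; rw [← Nat.shiftRight_add, mul_add]

theorem dg_mod (B x : ℕ) {a j : ℕ} (h : j < a) : dg B (x % 2 ^ (B * a)) j = dg B x j := by
  refine Nat.eq_of_testBit_eq fun i => ?_
  simp only [dg_bit, Nat.testBit_mod_two_pow]
  by_cases hi : i < B
  · have : B * j + i < B * a := by nlinarith
    simp [this]
  · simp [hi]

theorem dg_and_le (B x m j : ℕ) : dg B (x &&& m) j ≤ dg B m j := by
  have : dg B (x &&& m) j = dg B x j &&& dg B m j := by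
    refine Nat.eq_of_testBit_eq fun i => ?_
    simp only [dg_bit, Nat.testBit_and]
    cases decide (i < B) <;> simp
  rw [this]; exact Nat.and_le_right

theorem rowv_eq {B d : ℕ} {S : Sp} (h : ok B d S) (φ y : ℕ → ℝ) {x : ℕ}
    (hx : x < 2 ^ (B * cnt d S)) :
    rowv φ d y S x = ∑ j ∈ range (cnt d S), φ (dg B x j) * val d y S j := by
  induction d generalizing S y x with
  | zero =>
    simp only [cnt, mul_one] at hx
    simp [rowv, cnt, val, dg_zero, Nat.mod_eq_of_lt hx]
  | succ d ih =>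
    cases S with
    | e => simp [rowv, cnt]
    | n0 A => exact ih (S := A) h _ hx
    | n1 A =>
      simp only [rowv, cnt, val, ih (S := A) h _ hx, mul_sum]
      exact sum_congr rfl fun j _ => by ring
    | n c m A A' =>
      obtain ⟨h3, h4, h5, h6, h7⟩ := h
      have e1 : x &&& m = x % 2 ^ (B * cnt d A) := by
        rw [h4, Nat.and_two_pow_sub_one_eq_mod, h3]
      have e2 : x >>> c < 2 ^ (B * cnt d A') := by
        rw [Nat.shiftRight_eq_div_pow, Nat.div_lt_iff_lt_mul (by positivity), ← pow_add, h3]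
        simp only [cnt, mul_add] at hx
        rwa [add_comm]
      simp only [rowv, cnt, val, sum_range_add]
      rw [ih h7 _ e2, e1, ih h6 _ (Nat.mod_lt _ (by positivity)), mul_sum]
      congr 1
      · exact sum_congr rfl fun j hj => by rw [if_pos (mem_range.1 hj), dg_mod _ _ (mem_range.1 hj)]
      · refine sum_congr rfl fun j _ => ?_
        rw [if_neg (by omega), Nat.add_sub_cancel_left, h3, dg_shr]; ring

/-- packing of digits. -/
def pk (B c : ℕ) (z : ℕ → ℕ) : ℕ := ∑ j ∈ range c, z j * 2 ^ (B * j)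

theorem pk_succ' (B c : ℕ) (z : ℕ → ℕ) :
    pk B (c + 1) z = z 0 + 2 ^ B * pk B c (fun j => z (j + 1)) := by
  unfold pk
  rw [sum_range_succ', mul_sum, add_comm]
  simp only [mul_zero, pow_zero, mul_one, mul_add, pow_add]
  congr 1
  exact sum_congr rfl fun j _ => by ring

theorem pk_succ (B c : ℕ) (z : ℕ → ℕ) : pk B (c + 1) z = pk B c z + z c * 2 ^ (B * c) :=
  sum_range_succ _ _

theorem pk_congr {B c : ℕ} {z z' : ℕ → ℕ} (h : ∀ j < c, z j = z' j) : pk B c z = pk B c z' :=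
  sum_congr rfl fun j hj => by rw [h j (mem_range.1 hj)]

theorem pk_lt {B c : ℕ} {z : ℕ → ℕ} (h : ∀ j < c, z j < 2 ^ B) : pk B c z < 2 ^ (B * c) := by
  induction c with
  | zero => simp [pk]
  | succ c ih =>
    have h1 := ih fun j hj => h j (by omega)
    have h2 := Nat.mul_le_mul_right (2 ^ (B * c)) (Nat.succ_le_of_lt (h c (by omega)))
    rw [pk_succ, mul_add, mul_one, pow_add]
    simp only [Nat.succ_mul] at h2
    nlinarith

theorem pk_shr {B c : ℕ} {z : ℕ → ℕ} (h : z 0 < 2 ^ B) :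
    pk B (c + 1) z >>> B = pk B c (fun j => z (j + 1)) := by
  rw [pk_succ', Nat.shiftRight_eq_div_pow, Nat.add_mul_div_left _ _ (by positivity),
    Nat.div_eq_of_lt h, zero_add]

theorem dg_pk {B c : ℕ} {z : ℕ → ℕ} (h : ∀ j < c, z j < 2 ^ B) {j : ℕ} (hj : j < c) :
    dg B (pk B c z) j = z j := by
  induction c generalizing z j with
  | zero => omega
  | succ c ih =>
    cases j with
    | zero => rw [dg_zero, pk_succ', Nat.add_mul_mod_self_left, Nat.mod_eq_of_lt (h 0 hj)]
    | succ j =>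
      have := dg_shr B (pk B (c + 1) z) 1 j
      rw [mul_one, pk_shr (h 0 (by omega)), ih (fun i hi => h (i + 1) (by omega)) (by omega),
        add_comm 1 j] at this
      exact this.symm

theorem pk_dg {B c x : ℕ} (h : x < 2 ^ (B * c)) : pk B c (dg B x) = x := by
  induction c generalizing x with
  | zero => simp [pk] at h ⊢; omega
  | succ c ih =>
    have h1 : x >>> B < 2 ^ (B * c) := by
      rw [Nat.shiftRight_eq_div_pow, Nat.div_lt_iff_lt_mul (by positivity), ← pow_add]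
      rwa [mul_add, mul_one] at h
    have h2 : (fun j => dg B x (j + 1)) = dg B (x >>> B) := by
      funext j
      have := dg_shr B x 1 j
      rw [mul_one, add_comm] at this
      exact this.symm
    rw [pk_succ', h2, ih h1, dg_zero, Nat.shiftRight_eq_div_pow, Nat.mod_add_div]

theorem pk_add (B c : ℕ) (z z' : ℕ → ℕ) :
    pk B c z + pk B c z' = pk B c (fun j => z j + z' j) := by
  simp only [pk, add_mul, sum_add_distrib]

theorem pk_mul (B c k : ℕ) (z : ℕ → ℕ) : k * pk B c z = pk B c (fun j => k * z j) := by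
  simp only [pk, mul_sum, mul_assoc]

theorem pk_sub {B c : ℕ} {z z' : ℕ → ℕ} (h : ∀ j < c, z' j ≤ z j) :
    pk B c z - pk B c z' = pk B c (fun j => z j - z' j) := by
  have : pk B c z = pk B c (fun j => z j - z' j) + pk B c z' := by
    rw [pk_add]; exact pk_congr fun j hj => by have := h j hj; omega
  omega

end Pool.Agent.Lib.MP_c69b6d_co.F.G
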