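import Pool.Agent.Lib.MP_c69b6d_co.F.Chka

/-! A checker for sums of squares in Gram form: the blocks. -/

namespace Pool.Agent.Lib.MP_c69b6d_co.F.G

open Finset

/-- lists of weighted rows. -/
inductive RL : Type
  | nil : RL
  | cons : ℕ → ℕ → RL → RL

noncomputable def accum (mB h : ℕ) (act : RL) (Z0 : ℕ) : ℕ :=
  RL.rec (motive := fun _ => ℕ) Z0 (fun w N _ r => (fun u => Bool.rec (motive := fun _ => ℕ)
    (Nat.sub r (Nat.mul (Nat.mul w (Nat.sub h u)) N))
    (Nat.add r (Nat.mul (Nat.mul w (Nat.sub u h)) N)) (Nat.ble h u)) (Nat.land N mB)) act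

noncomputable def shR (B : ℕ) (act : RL) : RL :=
  RL.rec (motive := fun _ => RL) RL.nil (fun w N _ r => RL.cons w (Nat.shiftRight N B) r) act

noncomputable def addNew (g : ℕ → ℕ) (new act : RL) : RL :=
  RL.rec (motive := fun _ => RL) act (fun w x _ r => RL.cons w (g x) r) new

noncomputable def ws (a : RL) : ℕ :=
  RL.rec (motive := fun _ => ℕ) 0 (fun w _ _ s => Nat.add w s) a

noncomputable def wsum (rs : List RL) : ℕ :=
  List.rec (motive := fun _ => ℕ) 0 (fun a _ r => Nat.add (ws a) r) rs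

def rowsOK (B β h c : ℕ) : RL → Prop
  | RL.nil => True
  | RL.cons _ N r => N < 2 ^ (B * (c + 1)) ∧ (∀ j ≤ c, dg B N j ≤ β) ∧ dg B N c = h ∧
      rowsOK B β h c r

def gs (B h : ℕ) : RL → ℕ → ℤ
  | RL.nil, _ => 0
  | RL.cons w N r, j => w * (((dg B N 0 : ℤ) - h) * dg B N j) + gs B h r j

theorem gs_bound {B β h c : ℕ} (hh : h ≤ β) {act : RL} (ha : rowsOK B β h c act) {j : ℕ}
    (hj : j ≤ c) : |gs B h act j| ≤ (ws act * β ^ 2 : ℕ) := by
  induction act with
  | nil => simp [gs, ws]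
  | cons w N r ih =>
    obtain ⟨-, h2, -, h4⟩ := ha
    have e : ws (RL.cons w N r) = w + ws r := rfl
    have a0 : (dg B N 0 : ℤ) ≤ β := by exact_mod_cast h2 0 (by omega)
    have aj : (dg B N j : ℤ) ≤ β := by exact_mod_cast h2 j hj
    have ah : (h : ℤ) ≤ β := by exact_mod_cast hh
    have b1 : |((dg B N 0 : ℤ) - h)| ≤ β := by
      rw [abs_le]; constructor <;> omega
    have b2 : |(((dg B N 0 : ℤ) - h) * dg B N j)| ≤ (β : ℤ) ^ 2 := by
      rw [abs_mul, sq, Nat.abs_cast]
      exact mul_le_mul b1 aj (by positivity) (by positivity)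
    have b3 : |(w : ℤ) * (((dg B N 0 : ℤ) - h) * dg B N j)| ≤ w * (β : ℤ) ^ 2 := by
      rw [abs_mul, Nat.abs_cast]
      exact mul_le_mul_of_nonneg_left b2 (by positivity)
    have := ih h4
    rw [gs, e]
    refine (abs_add_le _ _).trans ?_
    push_cast at this ⊢
    linarith

theorem accum_spec {B β h c H : ℕ} (hh : h ≤ β) {act : RL} (ha : rowsOK B β h c act)
    (hH : ws act * β ^ 2 ≤ H) : ∃ z : ℕ → ℕ,
      accum (2 ^ B - 1) h act (pk B (c + 1) fun _ => H) = pk B (c + 1) z ∧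
      ∀ j ≤ c, (z j : ℤ) = H + gs B h act j := by
  induction act with
  | nil => exact ⟨fun _ => H, rfl, fun j _ => by simp [gs]⟩
  | cons w N r ih =>
    have e : ws (RL.cons w N r) = w + ws r := rfl
    have hb := fun j (hj : j ≤ c) => gs_bound hh ha hj
    obtain ⟨h1, h2, h3, h4⟩ := ha
    obtain ⟨z, hz, hz2⟩ := ih h4 (le_trans (Nat.mul_le_mul_right _ (by omega)) hH)
    have e2 : accum (2 ^ B - 1) h (RL.cons w N r) (pk B (c + 1) fun _ => H) =
      Bool.rec (motive := fun _ => ℕ)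
        (accum (2 ^ B - 1) h r (pk B (c + 1) fun _ => H) - w * (h - (N &&& (2 ^ B - 1))) * N)
        (accum (2 ^ B - 1) h r (pk B (c + 1) fun _ => H) + w * ((N &&& (2 ^ B - 1)) - h) * N)
        (Nat.ble h (N &&& (2 ^ B - 1))) := rfl
    rw [e2, Nat.and_two_pow_sub_one_eq_mod, ← dg_zero, hz]
    have e3 : ∀ k, k * N = pk B (c + 1) (fun j => k * dg B N j) := fun k => by
      rw [← pk_mul, pk_dg h1]
    cases hc : Nat.ble h (dg B N 0)
    · have h5 : dg B N 0 ≤ h := by
        have : ¬ h ≤ dg B N 0 := fun hx => by rw [Nat.ble_eq_true_of_le hx] at hc; cases hc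
        omega
      have h6 : ∀ j ≤ c, ((w * (h - dg B N 0) * dg B N j : ℕ) : ℤ) =
          z j - (H + gs B h (RL.cons w N r) j) := fun j hj => by
        rw [hz2 j hj, gs]; push_cast [Nat.cast_sub h5]; ring
      have h7 : ∀ j ≤ c, w * (h - dg B N 0) * dg B N j ≤ z j := fun j hj => by
        have a := h6 j hj
        have b := (abs_le.1 (hb j hj)).1
        have g : ((ws (RL.cons w N r) * β ^ 2 : ℕ) : ℤ) ≤ H := by exact_mod_cast hH
        omega
      refine ⟨fun j => z j - w * (h - dg B N 0) * dg B N j, ?_, fun j hj => ?_⟩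
      · simp only [e3 (w * (h - dg B N 0))]
        exact pk_sub fun j hj => h7 j (by omega)
      · simp only [Nat.cast_sub (h7 j hj), h6 j hj]; ring
    · have h5 : h ≤ dg B N 0 := Nat.le_of_ble_eq_true hc
      refine ⟨fun j => z j + w * (dg B N 0 - h) * dg B N j, ?_, fun j hj => ?_⟩
      · simp only [e3 (w * (dg B N 0 - h))]
        exact pk_add _ _ _ _
      · simp only [gs]; push_cast [Nat.cast_sub h5]; rw [hz2 j hj]; ring

/-- the quadratic form of the rows. -/
noncomputable def qf (B h c : ℕ) (v : ℕ → ℝ) : RL → ℝ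
  | RL.nil => 0
  | RL.cons w N r => w * (∑ j ∈ range c, ((dg B N j : ℝ) - h) * v j) ^ 2 + qf B h c v r

theorem shR_ok {B β h c : ℕ} {act : RL} (ha : rowsOK B β h (c + 1) act) :
    rowsOK B β h c (shR B act) ∧ ws (shR B act) = ws act := by
  induction act with
  | nil => exact ⟨trivial, rfl⟩
  | cons w N r ih =>
    obtain ⟨h1, h2, h3, h4⟩ := ha
    have e := fun j => dg_shr B N 1 j
    simp only [mul_one] at e
    refine ⟨⟨?_, fun j hj => ?_, ?_, (ih h4).1⟩, ?_⟩
    · change N >>> B < _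
      rw [Nat.shiftRight_eq_div_pow, Nat.div_lt_iff_lt_mul (by positivity), ← pow_add]
      rwa [mul_add B (c + 1), mul_one] at h1
    · change dg B (N >>> B) j ≤ β
      rw [e]; exact h2 _ (by omega)
    · change dg B (N >>> B) c = h
      rw [e, add_comm]; exact h3
    · change w + ws (shR B r) = w + ws r
      rw [(ih h4).2]

theorem qf_step {B β h c : ℕ} {act : RL} (ha : rowsOK B β h (c + 1) act) (v : ℕ → ℝ) :
    qf B h (c + 1) v act = v 0 * (((gs B h act 0 : ℝ) - gs B h act (c + 1)) * v 0 +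
      ∑ j ∈ range c, 2 * ((gs B h act (j + 1) : ℝ) - gs B h act (c + 1)) * v (j + 1)) +
      qf B h c (fun j => v (j + 1)) (shR B act) := by
  induction act with
  | nil => simp [qf, gs, shR]
  | cons w N r ih =>
    obtain ⟨h1, h2, h3, h4⟩ := ha
    have e := fun j => dg_shr B N 1 j
    simp only [mul_one] at e
    have e2 : qf B h c (fun j => v (j + 1)) (shR B (RL.cons w N r)) =
      w * (∑ j ∈ range c, ((dg B (N >>> B) j : ℝ) - h) * v (j + 1)) ^ 2 +
        qf B h c (fun j => v (j + 1)) (shR B r) := rfl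
    rw [e2, qf, ih h4, sum_range_succ']
    simp only [e, gs, h3, add_comm 1]
    push_cast
    have e3 : ∑ j ∈ range c, 2 * ((w : ℝ) * (((dg B N 0 : ℝ) - h) * dg B N (j + 1)) +
        gs B h r (j + 1) - (w * (((dg B N 0 : ℝ) - h) * h) + gs B h r (c + 1))) * v (j + 1) =
      2 * w * ((dg B N 0 : ℝ) - h) * ∑ j ∈ range c, ((dg B N (j + 1) : ℝ) - h) * v (j + 1) +
        ∑ j ∈ range c, 2 * ((gs B h r (j + 1) : ℝ) - gs B h r (c + 1)) * v (j + 1) := by
      rw [mul_sum, ← sum_add_distrib]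
      exact sum_congr rfl fun j _ => by ring
    rw [e3]; ring

theorem addNew_ok {B β h c : ℕ} {g : ℕ → ℕ}
    (hg : ∀ x, g x < 2 ^ (B * (c + 1)) ∧ (∀ j ≤ c, dg B (g x) j ≤ β) ∧ dg B (g x) c = h)
    {act : RL} (ha : rowsOK B β h c act) (new : RL) (v : ℕ → ℝ) :
    rowsOK B β h c (addNew g new act) ∧ ws (addNew g new act) = ws new + ws act ∧
      qf B h c v act ≤ qf B h c v (addNew g new act) := by
  induction new with
  | nil => exact ⟨ha, (zero_add _).symm, le_rfl⟩
  | cons w x r ih =>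
    obtain ⟨a, b, d⟩ := ih
    refine ⟨⟨(hg x).1, (hg x).2.1, (hg x).2.2, a⟩, ?_, ?_⟩
    · change w + ws (addNew g r act) = w + ws r + ws act
      omega
    · change _ ≤ w * _ ^ 2 + qf B h c v (addNew g r act)
      exact le_add_of_nonneg_of_le (by positivity) d

theorem new_row {B β h c mb : ℕ} (h1 : mb ≤ β) (h2 : h ≤ β) (h3 : β < 2 ^ B) (x : ℕ) :
    (x &&& mb * pk B c fun _ => 1) + h <<< (B * c) < 2 ^ (B * (c + 1)) ∧
    (∀ j ≤ c, dg B ((x &&& mb * pk B c fun _ => 1) + h <<< (B * c)) j ≤ β) ∧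
    dg B ((x &&& mb * pk B c fun _ => 1) + h <<< (B * c)) c = h := by
  rw [pk_mul]
  set a := x &&& pk B c fun _ => mb * 1 with ha
  have b1 : ∀ j < c, (fun _ : ℕ => mb * 1) j < 2 ^ B := fun _ _ => by simp only [mul_one]; omega
  have b2 : a < 2 ^ (B * c) := lt_of_le_of_lt Nat.and_le_right (pk_lt b1)
  have b3 : a + h <<< (B * c) = pk B (c + 1) (fun j => if j < c then dg B a j else h) := by
    rw [pk_succ, if_neg (lt_irrefl c), Nat.shiftLeft_eq,
      pk_congr (z' := dg B a) (fun j hj => if_pos hj), pk_dg b2]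
  have b4 : ∀ j < c + 1, (fun j => if j < c then dg B a j else h) j ≤ β := by
    intro j _
    simp only
    split_ifs with hj
    · refine (dg_and_le B x _ j).trans ?_
      rw [dg_pk b1 hj]; omega
    · exact h2
  have b5 : ∀ j < c + 1, (fun j => if j < c then dg B a j else h) j < 2 ^ B :=
    fun j hj => lt_of_le_of_lt (b4 j hj) h3
  rw [b3]
  refine ⟨pk_lt b5, fun j hj => ?_, ?_⟩
  · rw [dg_pk b5 (by omega)]; exact b4 j (by omega)
  · rw [dg_pk b5 (by omega)]; exact if_neg (lt_irrefl c)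

noncomputable def loop (d O W B mB mb h H : ℕ) (spr : ℕ → ℕ) (T : ℕ) (rs : List RL) :
    Sp → RL → ℕ → ℕ → TT d → TT d :=
  List.rec (motive := fun _ => Sp → RL → ℕ → ℕ → TT d → TT d) (fun _ _ _ _ t => t)
    (fun new _ r S act cB On t =>
      (fun act' => (fun Z => (fun top => (fun tw =>
        hdR (TT d) O (fun k x => Nat.sub (Nat.add k (Nat.mul W x)) tw) d S T (fun g => g S
          (Nat.sub (Nat.add (Nat.mul 2 (Nat.sub Z (Nat.shiftLeft top cB))) top) (Nat.land Z mB))
          (r (tl B S) (shR B act') (Nat.sub cB B) (Nat.shiftRight On B) t)))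
        (Nat.mul W (Nat.mul 2 top))) (Nat.shiftRight Z cB))
        (accum mB h act' (Nat.mul H (Nat.add On (Nat.shiftLeft 1 cB)))))
      ((fun lm ht => addNew (fun x => Nat.add (Nat.land (spr x) lm) ht) new act)
        (Nat.mul mb On) (Nat.shiftLeft h cB))) rs

theorem tsub_ge (a b : ℕ) : (a : ℝ) - b ≤ ((a - b : ℕ) : ℝ) := by
  rcases le_total b a with h | h
  · rw [Nat.cast_sub h]
  · have : (a : ℝ) ≤ b := by exact_mod_cast h
    have : (0 : ℝ) ≤ ((a - b : ℕ) : ℝ) := Nat.cast_nonneg _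
    linarith

theorem loop_spec {d O W B β mb h H : ℕ} (spr : ℕ → ℕ) (T : ℕ) (h1 : mb ≤ β) (h2 : h ≤ β)
    (h3 : β < 2 ^ B) (h4 : 4 * H < 2 ^ B) (hB : 0 < B) {y : ℕ → ℝ} (hy : ∀ i, 0 ≤ y i)
    (rs : List RL) (S : Sp) (act : RL) (v : ℕ → ℝ) (t : TT d)
    (hS : rs.length = 0 ∨ (ok B d S ∧ cnt d S = rs.length ∧ ∀ j, val d y S j = v j))
    (ha : rowsOK B β h rs.length act) (hw : (ws act + wsum rs) * β ^ 2 ≤ H) :
    ev O d t y + W * mv d y T * qf B h rs.length v act ≤
      ev O d (loop d O W B (2 ^ B - 1) mb h H spr T rs S act (B * rs.length)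
        (pk B rs.length fun _ => 1) t) y := by
  induction rs generalizing S act v with
  | nil =>
    have : qf B h 0 v act = 0 := by
      clear ha hw
      induction act with
      | nil => rfl
      | cons w N r ih => simp [qf, ih]
    simp only [List.length_nil, this, mul_zero, add_zero]
    exact le_rfl
  | cons new rs ih =>
    obtain ⟨s1, s2, s3⟩ := hS.resolve_left (by simp)
    rw [List.length_cons] at *
    set c := rs.length with hc
    set g : ℕ → ℕ := fun x => (spr x &&& mb * pk B (c + 1) fun _ => 1) + h <<< (B * (c + 1)) with hg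
    obtain ⟨a1, a2, a3⟩ := addNew_ok (g := g) (fun x => new_row h1 h2 h3 (spr x)) ha new v
    set act' := addNew g new act with hact
    have ew : wsum (new :: rs) = ws new + wsum rs := rfl
    have w1 : ws act' * β ^ 2 ≤ H := le_trans (Nat.mul_le_mul_right _ (by omega)) hw
    obtain ⟨z, z1, z2⟩ := accum_spec h2 a1 w1
    have z3 : ∀ j ≤ c + 1, z j ≤ 2 * H := fun j hj => by
      have a := z2 j hj
      have b := (abs_le.1 (gs_bound h2 a1 hj)).2
      have g : ((ws act' * β ^ 2 : ℕ) : ℤ) ≤ H := by exact_mod_cast w1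
      omega
    have z4 : ∀ j < c + 1 + 1, z j < 2 ^ B := fun j hj => by have := z3 j (by omega); omega
    have one : 1 < 2 ^ B := Nat.one_lt_two_pow hB.ne'
    have e0 : H * ((pk B (c + 1) fun _ => 1) + 1 <<< (B * (c + 1))) =
        pk B (c + 1 + 1) fun _ => H := by
      rw [Nat.shiftLeft_eq, ← pk_succ B (c + 1) (fun _ => 1), pk_mul]; simp
    have e1 : pk B (c + 1 + 1) z >>> (B * (c + 1)) = z (c + 1) := by
      rw [pk_succ, Nat.shiftRight_eq_div_pow, Nat.add_mul_div_right _ _ (by positivity),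
        Nat.div_eq_of_lt (pk_lt fun j hj => z4 j (by omega)), zero_add]
    have e2 : pk B (c + 1 + 1) z - z (c + 1) <<< (B * (c + 1)) = pk B (c + 1) z := by
      rw [pk_succ, Nat.shiftLeft_eq, Nat.add_sub_cancel]
    have e3 : pk B (c + 1 + 1) z &&& (2 ^ B - 1) = z 0 := by
      rw [Nat.and_two_pow_sub_one_eq_mod, ← dg_zero, dg_pk z4 (by omega)]
    set z' : ℕ → ℕ := fun j => if j = 0 then z 0 + z (c + 1) else 2 * z j with hz'
    have e4 : 2 * pk B (c + 1) z + z (c + 1) - z 0 = pk B (c + 1) z' := by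
      rw [pk_succ', pk_succ', pk_congr (z := fun j => z' (j + 1)) (z' := fun j => 2 * z (j + 1))
        (fun j _ => by simp [hz']), ← pk_mul]
      simp only [hz', if_true]
      rw [mul_left_comm]; omega
    have z5 : ∀ j < c + 1, z' j < 2 ^ B := fun j hj => by
      have := z3 j (by omega); have := z3 0 (by omega); have := z3 (c + 1) le_rfl
      simp only [hz']; split_ifs <;> omega
    have e5 : B * (c + 1) - B = B * c := by rw [mul_add]; omega
    have e6 : (pk B (c + 1) fun _ => 1) >>> B = pk B c fun _ => 1 := pk_shr one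
    obtain ⟨r, r1, r2⟩ := hdR_spec (TT d) O
      (f := fun k x => k + W * x - W * (2 * z (c + 1)))
      (φ := fun x => (W : ℝ) * x - W * (2 * z (c + 1)))
      (fun k x => by
        have := tsub_ge (k + W * x) (W * (2 * z (c + 1)))
        push_cast at this; linarith) d S T
    have e : loop d O W B (2 ^ B - 1) mb h H spr T (new :: rs) S act (B * (c + 1))
        (pk B (c + 1) fun _ => 1) t =
      (fun Z => (fun top => hdR (TT d) O (fun k x => k + W * x - W * (2 * top)) d S T (fun g => g S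
          (2 * (Z - top <<< (B * (c + 1))) + top - (Z &&& (2 ^ B - 1)))
          (loop d O W B (2 ^ B - 1) mb h H spr T rs (tl B S) (shR B act') (B * (c + 1) - B)
            ((pk B (c + 1) fun _ => 1) >>> B) t))) (Z >>> (B * (c + 1))))
        (accum (2 ^ B - 1) h act' (H * ((pk B (c + 1) fun _ => 1) + 1 <<< (B * (c + 1))))) := rfl
    rw [e]
    simp only [e0, z1, e1, e2, e3, e4, e5, e6, r1]
    refine le_trans ?_ (r2 y hy S _ _)
    have ih' := ih (tl B S) (shR B act') (fun j => v (j + 1)) (by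
      rcases Nat.eq_zero_or_pos c with h0 | h0
      · exact Or.inl h0
      · obtain ⟨t1, t2, t3⟩ := tl_spec hB s1 (by omega)
        exact Or.inr ⟨t1, by omega, fun j => by rw [t3, s3]⟩) (shR_ok a1).1
      (by rw [(shR_ok a1).2]; exact le_trans (Nat.mul_le_mul_right _ (by omega)) hw)
    refine le_trans ?_ (add_le_add_left ih' _)
    rw [rowv_eq s1 _ _ (by rw [s2]; exact pk_lt z5), hv_eq s1 (by omega), s2, sum_range_succ']
    have q := qf_step a1 v
    have zr : ∀ j ≤ c + 1, (z j : ℝ) = H + gs B h act' j := fun j hj => by exact_mod_cast z2 j hj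
    have e7 : ∑ j ∈ range c, ((W : ℝ) * (dg B (pk B (c + 1) z') (j + 1) : ℕ) - W * (2 * z (c + 1))) *
        val d y S (j + 1) =
        W * ∑ j ∈ range c, 2 * ((gs B h act' (j + 1) : ℝ) - gs B h act' (c + 1)) * v (j + 1) := by
      rw [mul_sum]
      refine sum_congr rfl fun j hj => ?_
      have hj' := mem_range.1 hj
      rw [dg_pk z5 (by omega), s3]
      simp only [hz', Nat.add_one_ne_zero, if_false]
      push_cast
      rw [zr _ (by omega), zr _ le_rfl]; ring
    rw [e7, dg_pk z5 (by omega), s3]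
    simp only [hz', if_true]
    push_cast
    rw [zr 0 (by omega), zr _ le_rfl]
    have m0 : 0 ≤ (W : ℝ) * mv d y T := mul_nonneg (Nat.cast_nonneg _) (mv_nonneg d hy T)
    have m1 := mul_le_mul_of_nonneg_left a3 m0
    rw [q] at m1
    linarith

noncomputable def ones (B c : ℕ) : ℕ :=
  Nat.rec (motive := fun _ => ℕ) 0 (fun _ r => Nat.add 1 (Nat.shiftLeft r B)) c

theorem ones_eq (B c : ℕ) : ones B c = pk B c fun _ => 1 := by
  induction c with
  | zero => rfl
  | succ c ih =>
    have : ones B (c + 1) = 1 + ones B c <<< B := rfl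
    rw [this, ih, pk_succ', Nat.shiftLeft_eq, mul_comm]

noncomputable def len (rs : List RL) : ℕ :=
  List.rec (motive := fun _ => ℕ) 0 (fun _ _ r => Nat.succ r) rs

theorem len_eq (rs : List RL) : len rs = rs.length := by
  induction rs with
  | nil => rfl
  | cons a rs ih => exact congrArg Nat.succ ih

/-- add the block `W * y ^ T * (sum of the weighted squares of the rows)`. -/
noncomputable def blk (d O T W B b : ℕ) (spr : ℕ → ℕ) (S : Sp) (rs : List RL) (t : TT d) : TT d :=
  (fun c β => (fun H => Bool.rec (motive := fun _ => TT d) t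
    (loop d O W B (Nat.sub (Nat.shiftLeft 1 B) 1) (Nat.sub β 1) (Nat.shiftRight β 1) H spr T rs S
      RL.nil (Nat.mul B c) (ones B c) t)
    (Nat.beq (cw B d S) (Nat.succ (Nat.mul B c)) && Nat.ble (Nat.succ b) B &&
      Nat.ble (Nat.succ (Nat.mul 4 H)) (Nat.shiftLeft 1 B)))
    (Nat.mul (wsum rs) (Nat.mul β β))) (len rs) (Nat.shiftLeft 1 b)

theorem blk_spec (d O T W B b : ℕ) (spr : ℕ → ℕ) (S : Sp) (rs : List RL) (t : TT d) {y : ℕ → ℝ}
    (hy : ∀ i, 0 ≤ y i) : ev O d t y ≤ ev O d (blk d O T W B b spr S rs t) y := by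
  have e : blk d O T W B b spr S rs t = Bool.rec (motive := fun _ => TT d) t
    (loop d O W B (1 <<< B - 1) (1 <<< b - 1) ((1 <<< b) >>> 1) (wsum rs * (1 <<< b * 1 <<< b))
      spr T rs S RL.nil (B * len rs) (ones B (len rs)) t)
    (Nat.beq (cw B d S) (B * len rs + 1) && Nat.ble (b + 1) B &&
      Nat.ble (4 * (wsum rs * (1 <<< b * 1 <<< b)) + 1) (1 <<< B)) := rfl
  rw [e]
  cases hc : (Nat.beq (cw B d S) (B * len rs + 1) && Nat.ble (b + 1) B &&
      Nat.ble (4 * (wsum rs * (1 <<< b * 1 <<< b)) + 1) (1 <<< B))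
  · exact le_rfl
  · simp only [Bool.and_eq_true, Nat.beq_eq, Nat.ble_eq, Nat.one_shiftLeft, len_eq] at hc
    obtain ⟨⟨h1, h2⟩, h3⟩ := hc
    obtain ⟨s1, s2⟩ := cw_spec h1
    have hB : 0 < B := by omega
    have := loop_spec (d := d) (O := O) (W := W) (β := 2 ^ b) (mb := 2 ^ b - 1) (h := 2 ^ b >>> 1)
      (H := wsum rs * (2 ^ b * 2 ^ b)) spr T (Nat.sub_le _ _) (Nat.shiftRight_le _ _)
      (Nat.pow_lt_pow_right (by norm_num) (by omega)) (by omega) hB hy rs S RL.nil (val d y S) t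
      (Or.inr ⟨s1, (Nat.eq_of_mul_eq_mul_left hB s2).symm, fun _ => rfl⟩) trivial
      (by rw [sq]; simp [ws])
    simp only [qf, mul_zero, add_zero] at this
    simp only [Nat.one_shiftLeft, len_eq, ones_eq]
    exact this

end Pool.Agent.Lib.MP_c69b6d_co.F.G
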