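import Pool.Agent.Lib.MP_c69b6d_co.F.Chkb

/-! A checker for sums of squares in Gram form: the target polynomial and the final test. -/

namespace Pool.Agent.Lib.MP_c69b6d_co.F.G

open Finset

noncomputable def and4 (a b c e : Bool) : Bool :=
  Bool.rec (motive := fun _ => Bool) false (Bool.rec (motive := fun _ => Bool) false
    (Bool.rec (motive := fun _ => Bool) false e c) b) a

theorem and4_iff {a b c e : Bool} :
    and4 a b c e = true ↔ a = true ∧ b = true ∧ c = true ∧ e = true := by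
  cases a <;> cases b <;> cases c <;> cases e <;> simp [and4]

/-- all leaves are at most `O`. -/
noncomputable def le4 (O : ℕ) (d : ℕ) : TT d → Bool :=
  Nat.rec (motive := fun d => TT d → Bool) (fun k => Nat.ble k O)
    (fun _ r t => N4.rec (motive := fun _ => Bool) true (fun a b c e =>
      Bool.rec (motive := fun _ => Bool) false (Bool.rec (motive := fun _ => Bool) false
        (Bool.rec (motive := fun _ => Bool) false (r e) (r c)) (r b)) (r a)) t) d

theorem le4_n (O d : ℕ) (a b c e : TT d) : le4 O (d + 1) (N4.n a b c e) =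
    and4 (le4 O d a) (le4 O d b) (le4 O d c) (le4 O d e) := rfl

theorem le4_spec {O d : ℕ} {t : TT d} (h : le4 O d t = true) {y : ℕ → ℝ} (hy : ∀ i, 0 ≤ y i) :
    ev O d t y ≤ 0 := by
  induction d generalizing y with
  | zero =>
    have : toN t ≤ O := Nat.le_of_ble_eq_true h
    simp only [ev, sub_nonpos]; exact_mod_cast this
  | succ d ih =>
    cases t with
    | z => exact le_rfl
    | n a b c e =>
      rw [le4_n, and4_iff] at h
      have y0 := hy 0
      have := ih h.1 (up_nonneg hy)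
      have := mul_nonpos_of_nonneg_of_nonpos y0 (ih h.2.1 (up_nonneg hy))
      have := mul_nonpos_of_nonneg_of_nonpos (pow_nonneg y0 2) (ih h.2.2.1 (up_nonneg hy))
      have := mul_nonpos_of_nonneg_of_nonpos (pow_nonneg y0 3) (ih h.2.2.2 (up_nonneg hy))
      simp only [ev]; linarith

noncomputable def pick {α : Type} (i : ℕ) (a b c e : α) : α :=
  Nat.rec (motive := fun _ => α) a (fun i _ => Nat.rec (motive := fun _ => α) b
    (fun i _ => Nat.rec (motive := fun _ => α) c (fun _ _ => e) i) i) i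

/-- the test `le4` for the subtree at the path `p`. -/
noncomputable def le4p (O : ℕ) (d : ℕ) : List ℕ → TT d → Bool :=
  Nat.rec (motive := fun d => List ℕ → TT d → Bool) (fun _ k => le4 O 0 k)
    (fun d r p t => List.rec (motive := fun _ => Bool) (le4 O (Nat.succ d) t)
      (fun i p' _ => N4.rec (motive := fun _ => Bool) true
        (fun a b c e => r p' (pick i a b c e)) t) p) d

theorem le4p_nil (O d : ℕ) (t : TT d) : le4p O d [] t = le4 O d t := by
  cases d <;> rfl

theorem le4p_split {O d : ℕ} {t : TT d} (p : List ℕ) (h0 : le4p O d (p ++ [0]) t = true)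
    (h1 : le4p O d (p ++ [1]) t = true) (h2 : le4p O d (p ++ [2]) t = true)
    (h3 : le4p O d (p ++ [3]) t = true) : le4p O d p t = true := by
  induction d generalizing p with
  | zero => exact h0
  | succ d ih =>
    cases t with
    | z => cases p <;> rfl
    | n a b c e =>
      cases p with
      | nil =>
        rw [le4p_nil, le4_n, and4_iff, ← le4p_nil, ← le4p_nil, ← le4p_nil, ← le4p_nil]
        exact ⟨h0, h1, h2, h3⟩
      | cons i p => exact ih (t := pick i a b c e) p h0 h1 h2 h3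

/-- `t + k * y ^ X * g`. -/
noncomputable def shAdd (O k kO : ℕ) (d : ℕ) : ℕ → TT d → TT d → TT d :=
  Nat.rec (motive := fun d => ℕ → TT d → TT d → TT d)
    (fun _ (g t : ℕ) => Nat.sub (Nat.add t (Nat.mul k g)) kO)
    (fun d r X g t => N4.rec (motive := fun _ => N4 (TT d)) t (fun g0 g1 g2 g3 =>
      (fun (o : TT d) (r' : TT d → TT d → TT d) => Bool.rec (motive := fun _ => N4 (TT d))
        (N4.rec (motive := fun _ => N4 (TT d)) (N4.n (r' g0 o) (r' g1 o) (r' g2 o) (r' g3 o))
          (fun a b c e => N4.n (r' g0 a) (r' g1 b) (r' g2 c) (r' g3 e)) t)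
        (N4.rec (motive := fun _ => N4 (TT d)) (N4.n o (r' g0 o) (r' g1 o) (r' g2 o))
          (fun a b c e => N4.n a (r' g0 b) (r' g1 c) (r' g2 e)) t)
        (Nat.beq (Nat.land X 1) 1)) (zz O d) (r (Nat.shiftRight X 1))) g) d

/-- no positive term with an exponent three. -/
noncomputable def chk3 (O : ℕ) (d : ℕ) : TT d → Bool :=
  Nat.rec (motive := fun d => TT d → Bool) (fun _ => true)
    (fun d r t => N4.rec (motive := fun _ => Bool) true
      (fun a b c e => and4 (r a) (r b) (r c) (le4 O d e)) t) d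

theorem chk3_n (O d : ℕ) (a b c e : TT d) : chk3 O (d + 1) (N4.n a b c e) =
    and4 (chk3 O d a) (chk3 O d b) (chk3 O d c) (le4 O d e) := rfl

theorem chk3_of_le4 {O d : ℕ} {t : TT d} (h : le4 O d t = true) : chk3 O d t = true := by
  induction d with
  | zero => rfl
  | succ d ih =>
    cases t with
    | z => rfl
    | n a b c e =>
      rw [le4_n, and4_iff] at h
      rw [chk3_n, and4_iff]
      exact ⟨ih h.1, ih h.2.1, ih h.2.2.1, h.2.2.2⟩

theorem shAdd_spec (O k d X : ℕ) (g t : TT d) (h : X = 0 ∨ chk3 O d g = true) {y : ℕ → ℝ}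
    (hy : ∀ i, 0 ≤ y i) :
    ev O d t y + k * mv d y X * ev O d g y ≤ ev O d (shAdd O k (k * O) d X g t) y := by
  induction d generalizing X y with
  | zero =>
    have := tsub_ge (toN t + k * toN g) (k * O)
    have e : toN (shAdd O k (k * O) 0 X g t) = toN t + k * toN g - k * O := rfl
    simp only [ev, mv, e]
    push_cast at this; linarith
  | succ d ih =>
    cases g with
    | z => exact le_of_eq (by simp [ev, shAdd])
    | n g0 g1 g2 g3 =>
      obtain ⟨a, b, c, e, h1, h2⟩ := n4_spec O d t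
      have y0 := hy 0
      have y2 := pow_nonneg y0 2
      have y3 := pow_nonneg y0 3
      have h3 : (X / 2 = 0 ∨ chk3 O d g0 = true) ∧ (X / 2 = 0 ∨ chk3 O d g1 = true) ∧
          (X / 2 = 0 ∨ chk3 O d g2 = true) ∧ (X = 0 ∨ le4 O d g3 = true) := by
        rcases h with h | h
        · simp [h]
        · rw [chk3_n, and4_iff] at h
          exact ⟨Or.inr h.1, Or.inr h.2.1, Or.inr h.2.2.1, Or.inr h.2.2.2⟩
      have u := up_nonneg hy
      have e0 : ∀ q, od X = q → shAdd O k (k * O) (d + 1) X (N4.n g0 g1 g2 g3) t =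
        (fun (o : TT d) (r' : TT d → TT d → TT d) => Bool.rec (motive := fun _ => N4 (TT d))
        (N4.rec (motive := fun _ => N4 (TT d)) (N4.n (r' g0 o) (r' g1 o) (r' g2 o) (r' g3 o))
          (fun a b c e => N4.n (r' g0 a) (r' g1 b) (r' g2 c) (r' g3 e)) t)
        (N4.rec (motive := fun _ => N4 (TT d)) (N4.n o (r' g0 o) (r' g1 o) (r' g2 o))
          (fun a b c e => N4.n a (r' g0 b) (r' g1 c) (r' g2 e)) t) q) (zz O d)
          (shAdd O k (k * O) d (X / 2)) := by
        rintro q rfl; rw [← shr1]; rfl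
      cases hq : od X
      · have e1 := (e0 _ hq).trans (h1 (fun a b c e => N4.n (shAdd O k (k * O) d (X / 2) g0 a)
          (shAdd O k (k * O) d (X / 2) g1 b) (shAdd O k (k * O) d (X / 2) g2 c)
          (shAdd O k (k * O) d (X / 2) g3 e)))
        have i0 := ih (X / 2) g0 a h3.1 u
        have i1 := mul_le_mul_of_nonneg_left (ih (X / 2) g1 b h3.2.1 u) y0
        have i2 := mul_le_mul_of_nonneg_left (ih (X / 2) g2 c h3.2.2.1 u) y2
        have i3 := mul_le_mul_of_nonneg_left (ih (X / 2) g3 e (h3.2.2.2.imp (fun h => by simp [h])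
          chk3_of_le4) u) y3
        rw [e1, h2 y]; simp only [ev, mv, if_neg (od_false hq)]; nlinarith
      · have e1 := (e0 _ hq).trans (h1 (fun a b c e => N4.n a (shAdd O k (k * O) d (X / 2) g0 b)
          (shAdd O k (k * O) d (X / 2) g1 c) (shAdd O k (k * O) d (X / 2) g2 e)))
        have hX := od_true hq
        have i1 := mul_le_mul_of_nonneg_left (ih (X / 2) g0 b h3.1 u) y0
        have i2 := mul_le_mul_of_nonneg_left (ih (X / 2) g1 c h3.2.1 u) y2
        have i3 := mul_le_mul_of_nonneg_left (ih (X / 2) g2 e h3.2.2.1 u) y3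
        have i4 := mul_nonpos_of_nonneg_of_nonpos (mul_nonneg (mul_nonneg (Nat.cast_nonneg k)
          (mv_nonneg d u (X / 2))) (pow_nonneg y0 4))
          (le4_spec (h3.2.2.2.resolve_left (by omega)) u)
        rw [e1, h2 y]; simp only [ev, mv, if_pos hX]; nlinarith

theorem mv_zero (d : ℕ) (y : ℕ → ℝ) : mv d y 0 = 1 := by
  induction d generalizing y with
  | zero => rfl
  | succ d ih => simp [mv, ih]

/-- the sum of two trees. -/
noncomputable def add4 (O d : ℕ) (g t : TT d) : TT d := shAdd O 1 O d 0 g t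

theorem add4_spec (O d : ℕ) (g t : TT d) {y : ℕ → ℝ} (hy : ∀ i, 0 ≤ y i) :
    ev O d t y + ev O d g y ≤ ev O d (add4 O d g t) y := by
  have := shAdd_spec O 1 d 0 g t (Or.inl rfl) hy
  rwa [mv_zero, Nat.cast_one, one_mul, one_mul, one_mul] at this

/-- put the monomial `m` into a shape (in front, with fields for digits of `B` bits). -/
noncomputable def push (B d : ℕ) : ℕ → Sp → Sp :=
  Nat.rec (motive := fun _ => ℕ → Sp → Sp) (fun _ S => S)
    (fun _ r m S => Bool.rec (motive := fun _ => Sp)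
      (Sp.rec (motive := fun _ => Sp) (Sp.n0 (r (Nat.shiftRight m 1) Sp.e))
        (fun A _ => Sp.n0 (r (Nat.shiftRight m 1) A))
        (fun A _ => Sp.n B (Nat.sub (Nat.shiftLeft 1 B) 1) (r (Nat.shiftRight m 1) Sp.e) A)
        (fun c _ A A' _ _ => (fun c' => Sp.n c' (Nat.sub (Nat.shiftLeft 1 c') 1)
          (r (Nat.shiftRight m 1) A) A') (Nat.add c B)) S)
      (Sp.rec (motive := fun _ => Sp) (Sp.n1 (r (Nat.shiftRight m 1) Sp.e))
        (fun A _ => Sp.n 0 0 A (r (Nat.shiftRight m 1) Sp.e))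
        (fun A _ => Sp.n1 (r (Nat.shiftRight m 1) A))
        (fun c k A A' _ _ => Sp.n c k A (r (Nat.shiftRight m 1) A')) S)
      (Nat.beq (Nat.land m 1) 1)) d

/-- the sum of the monomials of a shape. -/
noncomputable def sv : ℕ → (ℕ → ℝ) → Sp → ℝ
  | 0, _, _ => 1
  | _ + 1, _, Sp.e => 0
  | d + 1, y, Sp.n0 A => sv d (up y) A
  | d + 1, y, Sp.n1 A => y 0 * sv d (up y) A
  | d + 1, y, Sp.n _ _ A A' => sv d (up y) A + y 0 * sv d (up y) A'

theorem rowv_const (κ : ℝ) (d : ℕ) (y : ℕ → ℝ) (S : Sp) (x : ℕ) :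
    rowv (fun _ => κ) d y S x = κ * sv d y S := by
  induction d generalizing y S x with
  | zero => simp [rowv, sv]
  | succ d ih => cases S <;> simp only [rowv, sv, ih] <;> ring

theorem push_even (B d : ℕ) {m : ℕ} (h : od m = false) (S : Sp) : push B (d + 1) m S =
    Sp.rec (motive := fun _ => Sp) (Sp.n0 (push B d (m / 2) Sp.e))
      (fun A _ => Sp.n0 (push B d (m / 2) A))
      (fun A _ => Sp.n B (1 <<< B - 1) (push B d (m / 2) Sp.e) A)
      (fun c _ A A' _ _ => Sp.n (c + B) (1 <<< (c + B) - 1) (push B d (m / 2) A) A') S := by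
  unfold od at h
  rw [← shr1]
  conv_lhs => unfold push
  simp only [h]
  rfl

theorem push_odd (B d : ℕ) {m : ℕ} (h : od m = true) (S : Sp) : push B (d + 1) m S =
    Sp.rec (motive := fun _ => Sp) (Sp.n1 (push B d (m / 2) Sp.e))
      (fun A _ => Sp.n 0 0 A (push B d (m / 2) Sp.e))
      (fun A _ => Sp.n1 (push B d (m / 2) A))
      (fun c k A A' _ _ => Sp.n c k A (push B d (m / 2) A')) S := by
  unfold od at h
  rw [← shr1]
  conv_lhs => unfold push
  simp only [h]
  rfl

theorem push_single (B d m : ℕ) : cnt d (push B d m Sp.e) = 1 ∧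
    ∀ y, sv d y (push B d m Sp.e) = mv d y m ∧ hv d y (push B d m Sp.e) = mv d y m := by
  induction d generalizing m with
  | zero => exact ⟨rfl, fun _ => ⟨rfl, rfl⟩⟩
  | succ d ih =>
    cases h : od m
    · rw [push_even B d h]
      exact ⟨(ih _).1, fun y => by simp [sv, hv, mv, od_false h, (ih _).2]⟩
    · rw [push_odd B d h]
      exact ⟨(ih _).1, fun y => by simp [sv, hv, mv, od_true h, (ih _).2]⟩

theorem push_spec (B d m : ℕ) (S : Sp) : cnt d (push B d m S) = cnt d S ∨
    (cnt d (push B d m S) = cnt d S + 1 ∧ ∀ y, sv d y (push B d m S) = sv d y S + mv d y m) := by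
  induction d generalizing m S with
  | zero => exact Or.inl rfl
  | succ d ih =>
    have s := push_single B d (m / 2)
    cases h : od m
    · have h' := od_false h
      rw [push_even B d h]
      cases S with
      | e => exact Or.inr ⟨s.1, fun y => by simp [sv, mv, h', s.2]⟩
      | n0 A => exact (ih (m / 2) A).imp id fun g => ⟨g.1, fun y => by simp [sv, mv, h', g.2]⟩
      | n1 A =>
        exact Or.inr ⟨by simp only [cnt, s.1]; omega, fun y => by simp [sv, mv, h', s.2]; ring⟩
      | n c k A A' =>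
        exact (ih (m / 2) A).imp (fun g => by simp only [cnt, g])
          fun g => ⟨by simp only [cnt, g.1]; omega, fun y => by simp [sv, mv, h', g.2]; ring⟩
    · have h' := od_true h
      rw [push_odd B d h]
      cases S with
      | e => exact Or.inr ⟨s.1, fun y => by simp [sv, mv, h', s.2]⟩
      | n0 A => exact Or.inr ⟨by simp only [cnt, s.1], fun y => by simp [sv, mv, h', s.2]⟩
      | n1 A =>
        exact (ih (m / 2) A).imp id fun g => ⟨g.1, fun y => by simp [sv, mv, h', g.2]; ring⟩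
      | n c k A A' =>
        exact (ih (m / 2) A').imp (fun g => by simp only [cnt, g])
          fun g => ⟨by simp only [cnt, g.1]; omega, fun y => by simp [sv, mv, h', g.2]; ring⟩

noncomputable def mkS (d : ℕ) (ms : List ℕ) : Sp :=
  List.rec (motive := fun _ => Sp) Sp.e (fun m _ r => push 1 d m r) ms

noncomputable def cntK (d : ℕ) : Sp → ℕ :=
  Nat.rec (motive := fun _ => Sp → ℕ) (fun _ => 1)
    (fun _ r S => Sp.rec (motive := fun _ => ℕ) 0 (fun A _ => r A) (fun A _ => r A)
      (fun _ _ A A' _ _ => Nat.add (r A) (r A')) S) d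

theorem cntK_eq (d : ℕ) (S : Sp) : cntK d S = cnt d S := by
  induction d generalizing S with
  | zero => rfl
  | succ d ih =>
    cases S with
    | e => rfl
    | n0 A => exact ih A
    | n1 A => exact ih A
    | n c m A A' => exact congrArg₂ (· + ·) (ih A) (ih A')

/-- the sum of the monomials with masks in a list. -/
noncomputable def sm (d : ℕ) (y : ℕ → ℝ) (ms : List ℕ) : ℝ := (ms.map (mv d y)).sum

theorem mkS_spec (d : ℕ) (ms : List ℕ) : cnt (d + 1) (mkS (d + 1) ms) ≤ ms.length ∧
    (cnt (d + 1) (mkS (d + 1) ms) = ms.length →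
      ∀ y, sv (d + 1) y (mkS (d + 1) ms) = sm (d + 1) y ms) := by
  induction ms with
  | nil => exact ⟨le_rfl, fun _ _ => rfl⟩
  | cons m ms ih =>
    have e : mkS (d + 1) (m :: ms) = push 1 (d + 1) m (mkS (d + 1) ms) := rfl
    rw [e, List.length_cons]
    rcases push_spec 1 (d + 1) m (mkS (d + 1) ms) with h | h
    · exact ⟨by omega, fun h2 => by omega⟩
    · refine ⟨by omega, fun h2 y => ?_⟩
      rw [h.2, ih.2 (by omega), sm, sm, List.map_cons, List.sum_cons, add_comm]

/-- add `κ * (sum of as) * y ^ E * (sum of S)`. -/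
noncomputable def fAdd (O d : ℕ) (f : ℕ → ℕ → ℕ) (S : Sp) (E : ℕ) (as : List ℕ) (t : TT d) :
    TT d :=
  List.rec (motive := fun _ => TT d) t
    (fun m _ r => hdR (TT d) O f d (push 1 d m Sp.e) E (fun g => g S 0 r)) as

theorem fAdd_spec {O d : ℕ} {f : ℕ → ℕ → ℕ} {κ : ℝ} (hf : ∀ k x : ℕ, (k : ℝ) + κ ≤ f k x) (S : Sp)
    (E : ℕ) (as : List ℕ) (t : TT d) {y : ℕ → ℝ} (hy : ∀ i, 0 ≤ y i) :
    ev O d t y + κ * (sm d y as * mv d y E * sv d y S) ≤ ev O d (fAdd O d f S E as t) y := by
  induction as with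
  | nil => simp [sm, fAdd]
  | cons m as ih =>
    obtain ⟨r, r1, r2⟩ := hdR_spec (TT d) O (φ := fun _ => κ) hf d (push 1 d m Sp.e) E
    have e : fAdd O d f S E (m :: as) t = hdR (TT d) O f d (push 1 d m Sp.e) E
      (fun g => g S 0 (fAdd O d f S E as t)) := rfl
    have := r2 y hy S 0 (fAdd O d f S E as t)
    rw [rowv_const, ((push_single 1 d m).2 y).2] at this
    rw [e, r1]
    simp only [sm, List.map_cons, List.sum_cons] at ih ⊢
    linarith

/-- a product `± κ * (sum of as) * y ^ E * (sum of bs)`. -/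
structure Pr where
  neg : Bool
  κ : ℕ
  as : List ℕ
  E : ℕ
  bs : List ℕ

noncomputable def Pr.v (d : ℕ) (y : ℕ → ℝ) (q : Pr) : ℝ :=
  (if q.neg then -1 else 1) * q.κ * (sm d y q.as * mv d y q.E * sm d y q.bs)

/-- the target polynomial. -/
noncomputable def tv (d : ℕ) (y : ℕ → ℝ) (qs : List Pr) : ℝ := (qs.map (Pr.v d y)).sum

/-- the tree of minus the target. -/
noncomputable def gT (O d : ℕ) (qs : List Pr) : TT d :=
  List.rec (motive := fun _ => TT d) (zz O d) (fun q _ r => fAdd O d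
    (Bool.rec (motive := fun _ => ℕ → ℕ → ℕ) (fun k _ => Nat.sub k q.κ) (fun k _ => Nat.add k q.κ)
      q.neg) (mkS d q.bs) q.E q.as r) qs

noncomputable def okQ (d : ℕ) (qs : List Pr) : Bool :=
  qs.all fun q => Nat.beq (cntK d (mkS d q.bs)) q.bs.length

theorem gT_spec (O d : ℕ) (qs : List Pr) (h : okQ (d + 1) qs = true) {y : ℕ → ℝ}
    (hy : ∀ i, 0 ≤ y i) : -tv (d + 1) y qs ≤ ev O (d + 1) (gT O (d + 1) qs) y := by
  induction qs with
  | nil => simp [tv, gT, ev_zz]
  | cons q qs ih =>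
    rw [okQ, List.all_cons, Bool.and_eq_true, Nat.beq_eq, cntK_eq] at h
    have h1 := (mkS_spec d q.bs).2 h.1 y
    have h2 := ih h.2
    have e : gT O (d + 1) (q :: qs) = fAdd O (d + 1) (Bool.rec (motive := fun _ => ℕ → ℕ → ℕ)
      (fun k _ => k - q.κ) (fun k _ => k + q.κ) q.neg) (mkS (d + 1) q.bs) q.E q.as
      (gT O (d + 1) qs) := rfl
    rw [e]
    simp only [tv, List.map_cons, List.sum_cons, Pr.v] at h2 ⊢
    cases q.neg
    · have := fAdd_spec (O := O) (f := fun k _ => k - q.κ) (κ := -q.κ)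
        (fun k _ => tsub_ge k q.κ) (mkS (d + 1) q.bs) q.E q.as (gT O (d + 1) qs) hy
      rw [h1] at this
      simp only [Bool.false_eq_true, if_false]; linarith
    · have := fAdd_spec (O := O) (f := fun k _ => k + q.κ) (κ := q.κ)
        (fun k _ => by push_cast; exact le_rfl) (mkS (d + 1) q.bs) q.E q.as (gT O (d + 1) qs) hy
      rw [h1] at this
      simp only [if_true]; linarith

/-- multiply by the multiplier, a list of pairs (coefficient, mask). -/
noncomputable def mulP (O d : ℕ) (g : TT d) (ps : List (ℕ × ℕ)) (t : TT d) : TT d :=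
  List.rec (motive := fun _ => TT d) t
    (fun p _ r => shAdd O p.1 (Nat.mul p.1 O) d p.2 g r) ps

noncomputable def pv (d : ℕ) (y : ℕ → ℝ) (ps : List (ℕ × ℕ)) : ℝ :=
  (ps.map fun p => (p.1 : ℝ) * mv d y p.2).sum

theorem pv_nonneg (d : ℕ) {y : ℕ → ℝ} (hy : ∀ i, 0 ≤ y i) (ps : List (ℕ × ℕ)) :
    0 ≤ pv d y ps :=
  List.sum_nonneg fun x hx => by
    obtain ⟨p, -, rfl⟩ := List.mem_map.1 hx
    exact mul_nonneg (Nat.cast_nonneg _) (mv_nonneg d hy _)

theorem mulP_spec (O d : ℕ) (g : TT d) (ps : List (ℕ × ℕ)) (t : TT d)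
    (h : (∀ p ∈ ps, p.2 = 0) ∨ chk3 O d g = true) {y : ℕ → ℝ} (hy : ∀ i, 0 ≤ y i) :
    ev O d t y + pv d y ps * ev O d g y ≤ ev O d (mulP O d g ps t) y := by
  induction ps with
  | nil => simp [pv, mulP]
  | cons p ps ih =>
    have h1 := ih (h.imp (fun h q hq => h q (by simp [hq])) id)
    have h2 := shAdd_spec O p.1 d p.2 g (mulP O d g ps t) (h.imp (fun h => h p (by simp)) id) hy
    have e : mulP O d g (p :: ps) t = shAdd O p.1 (p.1 * O) d p.2 g (mulP O d g ps t) := rfl
    rw [e]
    simp only [pv, List.map_cons, List.sum_cons] at h1 ⊢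
    linarith

theorem mv_cont (d : ℕ) (y : ℕ → ℝ) (m : ℕ) :
    Continuous fun x : ℝ => mv d (fun i => y i + x) m := by
  induction d generalizing y m with
  | zero => exact continuous_const
  | succ d ih =>
    refine Continuous.mul ?_ (ih (up y) (m / 2))
    split_ifs
    · exact continuous_const.add continuous_id
    · exact continuous_const

theorem tv_cont (d : ℕ) (y : ℕ → ℝ) (qs : List Pr) :
    Continuous fun x : ℝ => tv d (fun i => y i + x) qs :=
  continuous_list_sum qs fun q _ => continuous_const.mul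
    (((continuous_list_sum _ fun m _ => mv_cont d y m).mul (mv_cont d y _)).mul
      (continuous_list_sum _ fun m _ => mv_cont d y m))

theorem tv_nonneg_of_pos {d : ℕ} {qs : List Pr}
    (h : ∀ y : ℕ → ℝ, (∀ i, 0 < y i) → 0 ≤ tv d y qs) {y : ℕ → ℝ} (hy : ∀ i, 0 ≤ y i) :
    0 ≤ tv d y qs := by
  have h2 : Filter.Tendsto (fun x : ℝ => tv d (fun i => y i + x) qs) (nhdsWithin 0 (Set.Ioi 0))
      (nhds (tv d (fun i => y i + 0) qs)) :=
    ((tv_cont d y qs).tendsto 0).mono_left nhdsWithin_le_nhds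
  have h3 := ge_of_tendsto h2 (eventually_nhdsWithin_of_forall fun x hx =>
    h _ fun i => add_pos_of_nonneg_of_pos (hy i) hx)
  simpa using h3

/-- the side conditions on the target and on the multiplier. -/
noncomputable def sideT (O d : ℕ) (qs : List Pr) (ps : List (ℕ × ℕ)) : Bool :=
  Nat.ble 1 d && okQ d qs && Nat.ble 1 (ps.headD (0, 0)).1 &&
    (ps.all (fun p => Nat.beq p.2 0) || chk3 O d (gT O d qs))

theorem tv_nonneg {O d : ℕ} {qs : List Pr} {ps : List (ℕ × ℕ)} (h0 : sideT O d qs ps = true)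
    {t : TT d} (ht : ∀ y : ℕ → ℝ, (∀ i, 0 ≤ y i) → 0 ≤ ev O d t y)
    (h : le4p O d [] (mulP O d (gT O d qs) ps t) = true) {y : ℕ → ℝ} (hy : ∀ i, 0 ≤ y i) :
    0 ≤ tv d y qs := by
  refine tv_nonneg_of_pos (fun y hp => ?_) hy
  have hy : ∀ i, 0 ≤ y i := fun i => (hp i).le
  simp only [sideT, Bool.and_eq_true, Bool.or_eq_true, Nat.ble_eq, List.all_eq_true,
    Nat.beq_eq] at h0
  obtain ⟨⟨⟨h1, h2⟩, h3⟩, h4⟩ := h0
  obtain ⟨d, rfl⟩ : ∃ e, d = e + 1 := ⟨d - 1, by omega⟩
  rw [le4p_nil] at h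
  have a1 := (mulP_spec O _ _ ps t h4 hy).trans (le4_spec h hy)
  have a2 := mul_le_mul_of_nonneg_left (gT_spec O d qs h2 hy) (pv_nonneg (d + 1) hy ps)
  have a3 : 0 < pv (d + 1) y ps := by
    cases ps with
    | nil => simp at h3
    | cons p ps =>
      have : (0 : ℝ) < p.1 := by exact_mod_cast h3
      exact add_pos_of_pos_of_nonneg (mul_pos this (mv_pos _ hp _)) (pv_nonneg (d + 1) hy ps)
  have a4 := ht y hy
  exact nonneg_of_mul_nonneg_right (a := pv (d + 1) y ps) (by linarith) a3

end Pool.Agent.Lib.MP_c69b6d_co.F.G
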