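import Pool.Agent.Lib.MP_c69b6d_co.F.CkD

/-! Bit level lemmas. -/

namespace Pool.Agent.Lib.MP_c69b6d_co.F

open Finset Disp

theorem cnd_true {α : Type} (x y : α) : cnd true x y = x := rfl

theorem cnd_false {α : Type} (x y : α) : cnd false x y = y := rfl

theorem cnd_eq {α : Type} (b : Bool) (x y : α) : cnd b x y = if b = true then x else y := by
  cases b <;> rfl

theorem andB_eq (a b : Bool) : andB a b = (a && b) := by cases a <;> rfl

theorem orB_eq (a b : Bool) : orB a b = (a || b) := by cases a <;> rfl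

theorem andB_iff {a b : Bool} : andB a b = true ↔ a = true ∧ b = true := by
  rw [andB_eq, Bool.and_eq_true]

theorem orB_iff {a b : Bool} : orB a b = true ↔ a = true ∨ b = true := by
  rw [orB_eq, Bool.or_eq_true]

theorem allLt_iff {n : ℕ} {f : ℕ → Bool} : allLt n f = true ↔ ∀ i < n, f i = true := by
  induction n with
  | zero => exact ⟨fun _ i hi => absurd hi (Nat.not_lt_zero i), fun _ => rfl⟩
  | succ n ih =>
    change andB (f n) (allLt n f) = true ↔ _
    rw [andB_iff, ih, Nat.forall_lt_succ_right, and_comm]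

theorem allL_iff {l : List ℕ} {f : ℕ → Bool} : allL l f = true ↔ ∀ i ∈ l, f i = true := by
  induction l with
  | nil => exact ⟨fun _ i hi => absurd hi List.not_mem_nil, fun _ => rfl⟩
  | cons a l ih =>
    change andB (f a) (allL l f) = true ↔ _
    rw [andB_iff, ih, List.forall_mem_cons]

theorem anyL_iff {l : List ℕ} {f : ℕ → Bool} : anyL l f = true ↔ ∃ i ∈ l, f i = true := by
  induction l with
  | nil => exact ⟨fun h => absurd h Bool.false_ne_true, fun ⟨i, hi, _⟩ => absurd hi List.not_mem_nil⟩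
  | cons a l ih =>
    change orB (f a) (anyL l f) = true ↔ _
    rw [orB_iff, ih]
    simp

theorem bit_eq (i : ℕ) : bit i = 2 ^ i := Nat.one_shiftLeft i

theorem testBit_bit (i j : ℕ) : (bit i).testBit j = decide (i = j) := by
  rw [bit_eq, Nat.testBit_two_pow]

theorem tb_eq (x i : ℕ) : tb x i = x.testBit i := by
  change Nat.beq ((x >>> i) &&& 1) 1 = _
  rw [Nat.and_one_is_mod, Nat.testBit_eq_decide_div_mod_eq, Nat.shiftRight_eq_div_pow,
    Bool.eq_iff_iff, Nat.beq_eq, decide_eq_true_iff]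

theorem mem_fs {U i : ℕ} : i ∈ fs U ↔ i < 32 ∧ U.testBit i = true := by
  rw [fs, mem_filter, mem_range]

theorem testBit_cD (k : ℕ) : cD.testBit k = decide (k % 32 = 0 ∧ k < 1024) := by
  by_cases h : k < 1024
  · have e : ∀ k < 1024, cD.testBit k = decide (k % 32 = 0 ∧ k < 1024) := by decide +kernel
    exact e k h
  · have e : cD < 2 ^ 1024 := by decide +kernel
    rw [Nat.testBit_lt_two_pow (e.trans_le (Nat.pow_le_pow_right two_pos (not_lt.1 h)))]
    simp [h]

theorem testBit_cF (k : ℕ) : cF.testBit k = decide (k < 32) := Nat.testBit_two_pow_sub_one 32 k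

theorem testBit_colP (P j k : ℕ) :
    (colP P j).testBit k = (decide (k % 32 = 0 ∧ k < 1024) && P.testBit (k + j)) := by
  change ((P >>> j) &&& cD).testBit k = _
  rw [Nat.testBit_and, Nat.testBit_shiftRight, testBit_cD, Bool.and_comm, Nat.add_comm]

theorem testBit_rowP (P i k : ℕ) :
    (rowP P i).testBit k = (decide (k < 32) && P.testBit (32 * i + k)) := by
  change ((P >>> (32 * i)) &&& cF).testBit k = _
  rw [Nat.testBit_and, Nat.testBit_shiftRight, testBit_cF, Bool.and_comm]

theorem ck_lt {v n b : ℕ} (hv : v < 2 ^ n) (hb : v.testBit b = true) : b < n := by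
  by_contra h
  rw [Nat.testBit_lt_two_pow (hv.trans_le (Nat.pow_le_pow_right two_pos (not_lt.1 h)))] at hb
  exact Bool.false_ne_true hb

theorem ck_sum (s : Finset ℕ) (k : ℕ) : (∑ i ∈ s, 2 ^ i).testBit k = true ↔ k ∈ s := by
  rw [← Nat.mem_bitIndices, ← List.mem_toFinset, toFinset_bitIndices_sum_two_pow]

/-- a product without carries. -/
theorem ck_mul {u v : ℕ} (h : ∀ a b a' b', u.testBit a = true → v.testBit b = true →
    u.testBit a' = true → v.testBit b' = true → a + b = a' + b' → a = a') (k : ℕ) :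
    (u * v).testBit k = true ↔ ∃ a b, u.testBit a = true ∧ v.testBit b = true ∧ a + b = k := by
  have e : u * v = ∑ i ∈ (u.bitIndices.toFinset ×ˢ v.bitIndices.toFinset).image
      (fun x => x.1 + x.2), 2 ^ i := by
    rw [sum_image]
    · conv_lhs => rw [← sum_toFinset_bitIndices_two_pow u, ← sum_toFinset_bitIndices_two_pow v]
      rw [sum_mul_sum, sum_product]
      simp only [pow_add]
    · rintro ⟨a, b⟩ hx ⟨a', b'⟩ hy e
      simp only [coe_product, Set.mem_prod, mem_coe, List.mem_toFinset, Nat.mem_bitIndices]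
        at hx hy
      have e' : a + b = a' + b' := e
      have := h a b a' b' hx.1 hx.2 hy.1 hy.2 e'
      exact Prod.ext this (by simp only; omega)
  rw [e, ck_sum]
  simp only [mem_image, mem_product, List.mem_toFinset, Nat.mem_bitIndices, Prod.exists, and_assoc]

theorem testBit_cS (k : ℕ) : cS.testBit k = decide (k % 31 = 0 ∧ k < 961) := by
  by_cases h : k < 961
  · have e : ∀ k < 961, cS.testBit k = decide (k % 31 = 0 ∧ k < 961) := by decide +kernel
    exact e k h
  · have e : cS < 2 ^ 961 := by decide +kernel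
    rw [Nat.testBit_lt_two_pow (e.trans_le (Nat.pow_le_pow_right two_pos (not_lt.1 h)))]
    simp [h]

/-- the outer product. -/
theorem testBit_outer {u v : ℕ} (hu : ∀ k, u.testBit k = true → k % 32 = 0) (hv : v < 2 ^ 32)
    (k : ℕ) : (u * v).testBit k = (u.testBit (32 * (k / 32)) && v.testBit (k % 32)) := by
  have hv' : ∀ b, v.testBit b = true → b < 32 := fun b hb => ck_lt hv hb
  rw [Bool.eq_iff_iff, Bool.and_eq_true, ck_mul fun a b a' b' ha hb ha' hb' e => by
    have := hu a ha; have := hu a' ha'; have := hv' b hb; have := hv' b' hb'; omega]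
  constructor
  · rintro ⟨a, b, ha, hb, rfl⟩
    have := hu a ha
    have := hv' b hb
    rw [show 32 * ((a + b) / 32) = a by omega, show (a + b) % 32 = b by omega]
    exact ⟨ha, hb⟩
  · rintro ⟨ha, hb⟩
    exact ⟨_, _, ha, hb, Nat.div_add_mod k 32⟩

theorem testBit_spr {p : ℕ} (hp : p < 2 ^ 31) (k : ℕ) :
    (spr p).testBit k = (decide (k % 32 = 0) && p.testBit (k / 32)) := by
  change ((p * cS) &&& cD).testBit k = _
  have hp' : ∀ b, p.testBit b = true → b < 31 := fun b hb => ck_lt hp hb
  rw [Nat.testBit_and, testBit_cD, Bool.eq_iff_iff, Bool.and_eq_true, Bool.and_eq_true,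
    ck_mul fun a b a' b' ha hb ha' hb' e => by
      rw [testBit_cS, decide_eq_true_iff] at hb hb'
      have := hp' a ha; have := hp' a' ha'; omega]
  simp only [testBit_cS, decide_eq_true_iff]
  constructor
  · rintro ⟨⟨a, b, ha, hb, rfl⟩, h⟩
    have := hp' a ha
    rw [show (a + b) / 32 = a by omega]
    exact ⟨h.1, ha⟩
  · rintro ⟨h, ha⟩
    have := hp' _ ha
    exact ⟨⟨k / 32, 31 * (k / 32), ha, by omega, by omega⟩, by omega⟩

theorem testBit_cmp {q : ℕ} (hq : ∀ k, q.testBit k = true → k % 32 = 0 ∧ k < 992) (k : ℕ) :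
    (cmp q).testBit k = q.testBit (32 * k) := by
  change (((q * cS) >>> 930) &&& (2 ^ 31 - 1)).testBit k = _
  rw [Nat.testBit_and, Nat.testBit_shiftRight, Nat.testBit_two_pow_sub_one, Bool.eq_iff_iff,
    Bool.and_eq_true,
    ck_mul fun a b a' b' ha hb ha' hb' e => by
      rw [testBit_cS, decide_eq_true_iff] at hb hb'
      have := hq a ha; have := hq a' ha'; omega]
  simp only [testBit_cS, decide_eq_true_iff]
  constructor
  · rintro ⟨⟨a, b, ha, hb, e⟩, h⟩
    have := hq a ha
    rw [show 32 * k = a by omega]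
    exact ha
  · intro ha
    have := hq _ ha
    exact ⟨⟨32 * k, 31 * (30 - k), ha, by omega, by omega⟩, by omega⟩

theorem ck_disj {p m : ℕ} : p &&& m = 0 ↔ ∀ k, (p.testBit k && m.testBit k) = false := by
  constructor
  · intro h k; rw [← Nat.testBit_and, h, Nat.zero_testBit]
  · intro h
    exact Nat.eq_of_testBit_eq fun k => by rw [Nat.testBit_and, h, Nat.zero_testBit]

theorem testBit_addP (xl xh yl yh k : ℕ) : (addP xl xh yl yh).testBit k =
    (((xl.testBit k || yh.testBit k) ^^ (xh.testBit k || yl.testBit k)) ^^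
      (xh.testBit k || yh.testBit k)) := by
  change (((xl ||| yh) ^^^ (xh ||| yl)) ^^^ (xh ||| yh)).testBit k = _
  simp only [Nat.testBit_xor, Nat.testBit_or]

theorem testBit_addM (xl xh yl yh k : ℕ) : (addM xl xh yl yh).testBit k =
    (((xl.testBit k || yh.testBit k) ^^ (xh.testBit k || yl.testBit k)) ^^
      (xl.testBit k || yl.testBit k)) := by
  change (((xl ||| yh) ^^^ (xh ||| yl)) ^^^ (xl ||| yl)).testBit k = _
  simp only [Nat.testBit_xor, Nat.testBit_or]

theorem val_add {xl xh yl yh : ℕ} (hx : xl &&& xh = 0) (hy : yl &&& yh = 0) (k : ℕ) :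
    val (addP xl xh yl yh) (addM xl xh yl yh) k = val xl xh k + val yl yh k := by
  have h1 := ck_disj.1 hx k
  have h2 := ck_disj.1 hy k
  simp only [val, testBit_addP, testBit_addM]
  revert h1 h2
  cases xl.testBit k <;> cases xh.testBit k <;> cases yl.testBit k <;> cases yh.testBit k <;>
    decide

theorem add_disj {xl xh yl yh : ℕ} (hx : xl &&& xh = 0) (hy : yl &&& yh = 0) :
    addP xl xh yl yh &&& addM xl xh yl yh = 0 := by
  refine ck_disj.2 fun k => ?_
  have h1 := ck_disj.1 hx k
  have h2 := ck_disj.1 hy k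
  rw [testBit_addP, testBit_addM]
  revert h1 h2
  cases xl.testBit k <;> cases xh.testBit k <;> cases yl.testBit k <;> cases yh.testBit k <;>
    decide

theorem val_swap {p m : ℕ} (h : p &&& m = 0) (k : ℕ) : val m p k = - val p m k := by
  have h1 := ck_disj.1 h k
  simp only [val]
  revert h1
  cases p.testBit k <;> cases m.testBit k <;> decide

theorem val_ne_zero {p m k : ℕ} : val p m k ≠ 0 ↔ (p ||| m).testBit k = true := by
  simp only [val, Nat.testBit_or]
  cases p.testBit k <;> cases m.testBit k <;> decide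

theorem testBit_vp (u k : ℕ) : (vp u).testBit k = (u.testBit k && decide (k < 32)) := by
  change (u &&& cF).testBit k = _
  rw [Nat.testBit_and, testBit_cF]

theorem testBit_vm (u k : ℕ) : (vm u).testBit k = u.testBit (32 + k) :=
  Nat.testBit_shiftRight u

theorem testBit_vmk (p m k : ℕ) :
    (vmk p m).testBit k = (p.testBit k || (decide (k ≥ 32) && m.testBit (k - 32))) := by
  change (p ||| (m <<< 32)).testBit k = _
  rw [Nat.testBit_or, Nat.testBit_shiftLeft]

theorem vp_lt (u : ℕ) : vp u < 2 ^ 32 :=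
  Nat.lt_pow_two_of_testBit _ fun k hk => by rw [testBit_vp]; simp [not_lt.2 hk]

theorem vp_vmk {p m : ℕ} (hp : p < 2 ^ 32) : vp (vmk p m) = p := by
  refine Nat.eq_of_testBit_eq fun k => ?_
  rw [testBit_vp, testBit_vmk]
  by_cases h : k < 32
  · simp [h]
  · cases e : p.testBit k
    · simp [h]
    · exact absurd (ck_lt hp e) h

theorem vm_vmk {p m : ℕ} (hp : p < 2 ^ 32) : vm (vmk p m) = m := by
  refine Nat.eq_of_testBit_eq fun k => ?_
  rw [testBit_vm, testBit_vmk]
  cases e : p.testBit (32 + k)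
  · simp
  · exact absurd (ck_lt hp e) (by omega)

theorem von_of {K u : ℕ} (h : vonB K u = true) : VOn K u := by
  obtain ⟨h1, h2⟩ := andB_iff.1 h
  refine ⟨Nat.eq_of_beq_eq_true h1, fun i hi => ?_⟩
  have e : (vp u ||| vm u) &&& (K &&& cF) = vp u ||| vm u := Nat.eq_of_beq_eq_true h2
  rw [← e, Nat.testBit_and, Nat.testBit_and, testBit_cF] at hi
  simp only [Bool.and_eq_true, decide_eq_true_iff] at hi
  exact ⟨hi.2.2, hi.2.1⟩

theorem VOn.mono {K K' u : ℕ} (h : VOn K u) (hK : ∀ i, K.testBit i = true → K'.testBit i = true) :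
    VOn K' u := ⟨h.1, fun i hi => ⟨(h.2 i hi).1, hK i (h.2 i hi).2⟩⟩

theorem VOn.zero_off {K u i : ℕ} (h : VOn K u) (hi : K.testBit i = false) : vec u i = 0 := by
  by_contra e
  rw [(h.2 i (val_ne_zero.1 e)).2] at hi
  exact Bool.false_ne_true hi.symm

theorem VOn.inj {K u w : ℕ} (hu : VOn K u) (hw : VOn K w)
    (h : ∀ i < 32, K.testBit i = true → vec u i = vec w i) : u = w := by
  have key : ∀ i, (vp u).testBit i = (vp w).testBit i ∧ (vm u).testBit i = (vm w).testBit i := by
    intro i
    have h1 := ck_disj.1 hu.1 i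
    have h2 := ck_disj.1 hw.1 i
    have h3 : vec u i = vec w i := by
      by_cases k : i < 32 ∧ K.testBit i = true
      · exact h i k.1 k.2
      · have a : vec u i = 0 := by
          by_contra e; exact k (hu.2 i (val_ne_zero.1 e))
        have b : vec w i = 0 := by
          by_contra e; exact k (hw.2 i (val_ne_zero.1 e))
        rw [a, b]
    simp only [vec, val] at h3
    revert h1 h2 h3
    cases (vp u).testBit i <;> cases (vm u).testBit i <;> cases (vp w).testBit i <;>
      cases (vm w).testBit i <;> decide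
  refine Nat.eq_of_testBit_eq fun i => ?_
  by_cases k : i < 32
  · have := (key i).1
    rw [testBit_vp, testBit_vp] at this
    simpa [k] using this
  · have := (key (i - 32)).2
    rwa [testBit_vm, testBit_vm, show 32 + (i - 32) = i by omega] at this

theorem von_zero (K : ℕ) : VOn K 0 := ⟨rfl, fun i hi => by
  rw [show vp 0 ||| vm 0 = 0 from rfl, Nat.zero_testBit] at hi
  exact absurd hi Bool.false_ne_true⟩

theorem vec_zero (i : ℕ) : vec 0 i = 0 := by
  simp [vec, val, show vp 0 = 0 from rfl, show vm 0 = 0 from rfl]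

theorem vp_bit {z : ℕ} (hz : z < 32) : vp (bit z) = bit z :=
  Nat.eq_of_testBit_eq fun k => by
    rw [testBit_vp, testBit_bit]
    by_cases h : z = k
    · simp [← h, hz]
    · simp [h]

theorem vm_bit {z : ℕ} (hz : z < 32) : vm (bit z) = 0 :=
  Nat.eq_of_testBit_eq fun k => by
    rw [testBit_vm, testBit_bit, Nat.zero_testBit, decide_eq_false (by omega)]

theorem von_bit {K z : ℕ} (hz : z < 32) (h : K.testBit z = true) : VOn K (bit z) := by
  refine ⟨by rw [vm_bit hz, Nat.and_zero], fun i hi => ?_⟩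
  rw [vp_bit hz, vm_bit hz, Nat.or_zero, testBit_bit, decide_eq_true_iff] at hi
  exact hi ▸ ⟨hz, h⟩

theorem vec_bit {z : ℕ} (hz : z < 32) (i : ℕ) : vec (bit z) i = if i = z then 1 else 0 := by
  simp only [vec, val, vp_bit hz, vm_bit hz, testBit_bit, Nat.zero_testBit, decide_eq_true_iff]
  by_cases h : i = z
  · simp [h]
  · simp [h, Ne.symm h]

theorem VOn.vm_lt {K u : ℕ} (h : VOn K u) : vm u < 2 ^ 32 :=
  Nat.lt_pow_two_of_testBit _ fun k hk => by
    cases e : (vm u).testBit k
    · rfl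
    · exact absurd (h.2 k (by rw [Nat.testBit_or, e, Bool.or_true])).1 (not_lt.2 hk)

theorem VOn.neg {K u : ℕ} (h : VOn K u) : VOn K (vneg u) := by
  unfold VOn vneg
  rw [vp_vmk h.vm_lt, vm_vmk h.vm_lt, Nat.and_comm, Nat.or_comm]
  exact h

theorem VOn.vec_neg {K u : ℕ} (h : VOn K u) (i : ℕ) : vec (vneg u) i = - vec u i := by
  unfold vec vneg
  rw [vp_vmk h.vm_lt, vm_vmk h.vm_lt, val_swap h.1]

theorem ck_add_or {xl xh yl yh k : ℕ}
    (h : (addP xl xh yl yh ||| addM xl xh yl yh).testBit k = true) :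
    (xl ||| xh).testBit k = true ∨ (yl ||| yh).testBit k = true := by
  simp only [Nat.testBit_or, testBit_addP, testBit_addM] at h ⊢
  revert h
  cases xl.testBit k <;> cases xh.testBit k <;> cases yl.testBit k <;> cases yh.testBit k <;>
    decide

theorem VOn.addP_lt {K u w : ℕ} (hu : VOn K u) (hw : VOn K w) :
    addP (vp u) (vm u) (vp w) (vm w) < 2 ^ 32 :=
  Nat.lt_pow_two_of_testBit _ fun k hk => by
    cases e : (addP (vp u) (vm u) (vp w) (vm w)).testBit k
    · rfl
    · rcases ck_add_or (k := k) (by rw [Nat.testBit_or, e, Bool.true_or]) with h | h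
      exacts [absurd (hu.2 k h).1 (not_lt.2 hk), absurd (hw.2 k h).1 (not_lt.2 hk)]

theorem VOn.add {K u w : ℕ} (hu : VOn K u) (hw : VOn K w) : VOn K (vadd u w) := by
  unfold VOn vadd
  rw [vp_vmk (hu.addP_lt hw), vm_vmk (hu.addP_lt hw)]
  refine ⟨add_disj hu.1 hw.1, fun i hi => ?_⟩
  rcases ck_add_or hi with k | k
  exacts [hu.2 i k, hw.2 i k]

theorem VOn.vec_add {K u w : ℕ} (hu : VOn K u) (hw : VOn K w) (i : ℕ) :
    vec (vadd u w) i = vec u i + vec w i := by
  unfold vec vadd
  rw [vp_vmk (hu.addP_lt hw), vm_vmk (hu.addP_lt hw), val_add hu.1 hw.1]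

theorem VOn.sm {K u : ℕ} (h : VOn K u) (c : ℕ) : VOn K (vsm c u) := by
  unfold vsm
  rw [cnd_eq, cnd_eq]
  split_ifs
  exacts [h, h.neg, von_zero K]

theorem VOn.vec_sm {K u c : ℕ} (h : VOn K u) (hc : c < 3) (i : ℕ) :
    vec (vsm c u) i = (c : F3) * vec u i := by
  interval_cases c
  · rw [show vsm 0 u = 0 from rfl, vec_zero]; simp
  · rw [show vsm 1 u = u from rfl]; simp
  · rw [show vsm 2 u = vneg u from rfl, h.vec_neg, show ((2 : ℕ) : F3) = -1 by decide, neg_one_mul]

theorem vp_vres (U u : ℕ) : vp (vres U u) = vp u &&& U :=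
  vp_vmk (Nat.and_le_left.trans_lt (vp_lt u))

theorem vm_vres (U u : ℕ) : vm (vres U u) = vm u &&& U :=
  vm_vmk (Nat.and_le_left.trans_lt (vp_lt u))

theorem VOn.res {K u : ℕ} (h : VOn K u) (U : ℕ) : VOn (K &&& U) (vres U u) := by
  unfold VOn
  rw [vp_vres, vm_vres]
  refine ⟨ck_disj.2 fun k => ?_, fun i hi => ?_⟩
  · have := ck_disj.1 h.1 k
    simp only [Nat.testBit_and]
    revert this
    cases (vp u).testBit k <;> cases (vm u).testBit k <;> cases U.testBit k <;> decide
  · rw [← Nat.and_or_distrib_right, Nat.testBit_and, Bool.and_eq_true] at hi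
    rw [Nat.testBit_and, hi.2, (h.2 i hi.1).2]
    exact ⟨(h.2 i hi.1).1, rfl⟩

theorem VOn.vec_res {K u : ℕ} (h : VOn K u) (U i : ℕ) :
    vec (vres U u) i = if U.testBit i = true then vec u i else 0 := by
  simp only [vec, val, vp_vres, vm_vres, Nat.testBit_and]
  cases U.testBit i <;> simp

theorem pmEq_sound {K u w : ℕ} (hw : VOn K w) (h : pmEq u w = true) :
    ∃ s : F3, s * s = 1 ∧ ∀ i, vec u i = s * vec w i := by
  rcases orB_iff.1 h with e | e
  · exact ⟨1, one_mul 1, fun i => by rw [Nat.eq_of_beq_eq_true e, one_mul]⟩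
  · exact ⟨-1, by decide, fun i => by rw [Nat.eq_of_beq_eq_true e, hw.vec_neg, neg_one_mul]⟩

theorem pmEq_complete {K u w : ℕ} (hu : VOn K u) (hw : VOn K w) {s : F3} (hs : s * s = 1)
    (h : ∀ i < 32, K.testBit i = true → vec u i = s * vec w i) : pmEq u w = true := by
  have e : ∀ s : F3, s * s = 1 → s = 1 ∨ s = -1 := by decide
  refine orB_iff.2 ?_
  rcases e s hs with rfl | rfl
  · exact Or.inl (Nat.beq_eq ▸ hu.inj hw fun i hi k => by rw [h i hi k, one_mul])
  · exact Or.inr (Nat.beq_eq ▸ hu.inj hw.neg fun i hi k => by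
      rw [h i hi k, hw.vec_neg, neg_one_mul])

theorem f3_cases (c : F3) : ∃ k < 3, c = (k : ℕ) := ⟨c.val, ZMod.val_lt c, (ZMod.natCast_zmod_val c).symm⟩

end Pool.Agent.Lib.MP_c69b6d_co.F
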