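import Pool.Agent.Lib.MP_c69b6d_co.F.Ck0
import Pool.Agent.Lib.MP_c69b6d_co.F.Api2

/-! Soundness of the packed operations. -/

namespace Pool.Agent.Lib.MP_c69b6d_co.F

open Finset Disp

namespace CkA

theorem tb_land (a b k : ℕ) : (Nat.land a b).testBit k = (a.testBit k && b.testBit k) :=
  Nat.testBit_and a b k

theorem tb_lor (a b k : ℕ) : (Nat.lor a b).testBit k = (a.testBit k || b.testBit k) :=
  Nat.testBit_or a b k

theorem tb_xor (a b k : ℕ) : (Nat.xor a b).testBit k = (a.testBit k ^^ b.testBit k) :=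
  Nat.testBit_xor a b k

theorem tb_shl (a n k : ℕ) :
    (Nat.shiftLeft a n).testBit k = (decide (k ≥ n) && a.testBit (k - n)) :=
  Nat.testBit_shiftLeft a

theorem tb_shr (a n k : ℕ) : (Nat.shiftRight a n).testBit k = a.testBit (n + k) :=
  Nat.testBit_shiftRight a

theorem and_zero_iff {a b : ℕ} :
    a &&& b = 0 ↔ ∀ k, a.testBit k = true → b.testBit k = true → False := by
  constructor
  · intro h k h1 h2
    have := Nat.testBit_and a b k
    rw [h, h1, h2, Nat.zero_testBit] at this
    exact Bool.false_ne_true this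
  · intro h
    apply Nat.eq_of_testBit_eq
    intro k
    rw [Nat.testBit_and, Nat.zero_testBit]
    have := h k
    revert this
    cases a.testBit k <;> cases b.testBit k <;> simp

theorem and_self_iff' {a b : ℕ} : a &&& b = a ↔ ∀ k, a.testBit k = true → b.testBit k = true := by
  constructor
  · intro h k h1
    have := Nat.testBit_and a b k
    rw [h, h1] at this
    simpa using this
  · intro h
    apply Nat.eq_of_testBit_eq
    intro k
    rw [Nat.testBit_and]
    have := h k
    revert this
    cases a.testBit k <;> cases b.testBit k <;> simp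

theorem lt_pow_iff {a n : ℕ} : a < 2 ^ n ↔ ∀ k, a.testBit k = true → k < n := by
  constructor
  · intro h k hk
    by_contra hn
    have : a < 2 ^ k := lt_of_lt_of_le h (Nat.pow_le_pow_right (by norm_num) (by omega))
    rw [Nat.testBit_lt_two_pow this] at hk
    exact Bool.false_ne_true hk
  · intro h
    apply Nat.lt_pow_two_of_testBit
    intro i hi
    by_contra hne
    have := h i (by simpa using hne)
    omega

/-- the invariant in terms of bits. -/
structure WFb (C : CD) : Prop where
  z : ∀ k, C.zm.testBit k = true → k < 31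
  r : ∀ k, C.rm.testBit k = true → C.zm.testBit k = true
  d : ∀ k, C.P.testBit k = true → C.M.testBit k = true → False
  s : ∀ k, C.P.testBit k = true ∨ C.M.testBit k = true →
    C.rm.testBit (k / 32) = true ∧ C.zm.testBit (k % 32) = true ∧ C.rm.testBit (k % 32) = false

theorem wf_iff {C : CD} : C.WF ↔ WFb C := by
  constructor
  · rintro ⟨h1, h2, h3, h4⟩
    refine ⟨lt_pow_iff.1 h1, ?_, and_zero_iff.1 h3, fun k hk => h4 k ?_⟩
    · exact and_self_iff'.1 h2
    · rw [Nat.testBit_or]; simpa using hk
  · intro h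
    refine ⟨lt_pow_iff.2 h.z, and_self_iff'.2 h.r, and_zero_iff.2 h.d, fun k hk => h.s k ?_⟩
    rw [Nat.testBit_or] at hk; simpa using hk

theorem WFb.s' {C : CD} (h : WFb C) {i j : ℕ} (hj : j < 32)
    (hk : C.P.testBit (32 * i + j) = true ∨ C.M.testBit (32 * i + j) = true) :
    C.rm.testBit i = true ∧ C.zm.testBit j = true ∧ C.rm.testBit j = false := by
  have := h.s _ hk
  rwa [show (32 * i + j) / 32 = i by omega, show (32 * i + j) % 32 = j by omega] at this

theorem WFb.off {C : CD} (h : WFb C) {i j : ℕ} (hj : j < 32)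
    (hn : C.rm.testBit i = false ∨ C.zm.testBit j = false ∨ C.rm.testBit j = true) :
    C.P.testBit (32 * i + j) = false ∧ C.M.testBit (32 * i + j) = false := by
  by_contra hc
  have hk : C.P.testBit (32 * i + j) = true ∨ C.M.testBit (32 * i + j) = true := by
    revert hc
    cases C.P.testBit (32 * i + j) <;> cases C.M.testBit (32 * i + j) <;> simp
  obtain ⟨a, b, c⟩ := h.s' hj hk
  rw [a, b, c] at hn
  simp at hn

theorem val_congr {p m p' m' k k' : ℕ} (h1 : p.testBit k = p'.testBit k')
    (h2 : m.testBit k = m'.testBit k') : val p m k = val p' m' k' := by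
  unfold val; rw [h1, h2]

theorem val_off {p m k : ℕ} (h : p.testBit k = false ∧ m.testBit k = false) : val p m k = 0 := by
  unfold val; rw [h.1, h.2]; simp

theorem tb_outer {p q : ℕ} (hp : p < 2 ^ 31) (hq : q < 2 ^ 32) (k : ℕ) :
    (Nat.mul (spr p) q).testBit k = (p.testBit (k / 32) && q.testBit (k % 32)) := by
  have hu : ∀ k, (spr p).testBit k = true → k % 32 = 0 := by
    intro k hk
    rw [testBit_spr hp] at hk
    simp only [Bool.and_eq_true, decide_eq_true_eq] at hk
    exact hk.1
  have := testBit_outer hu hq k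
  rw [testBit_spr hp, show 32 * (k / 32) / 32 = k / 32 by omega] at this
  simpa using this

theorem tb_col {q n : ℕ} (hq : q < 2 ^ 31) (hn : n < 32) (k : ℕ) :
    (Nat.shiftLeft (spr q) n).testBit k = (decide (k % 32 = n) && q.testBit (k / 32)) := by
  rw [tb_shl, testBit_spr hq]
  by_cases h : k % 32 = n
  · rw [show (k - n) / 32 = k / 32 by omega]
    have h1 : k ≥ n := by omega
    have h2 : (k - n) % 32 = 0 := by omega
    simp [h, h1, h2]
  · by_cases h1 : k ≥ n
    · have h2 : ¬ (k - n) % 32 = 0 := by omega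
      simp [h, h2]
    · simp [h, h1]

theorem tb_row {q : ℕ} (hq : q < 2 ^ 32) (n k : ℕ) :
    (Nat.shiftLeft q (Nat.mul 32 n)).testBit k = (decide (k / 32 = n) && q.testBit (k % 32)) := by
  rw [tb_shl, show Nat.mul 32 n = 32 * n from rfl]
  by_cases h : k / 32 = n
  · rw [show k - 32 * n = k % 32 by omega]
    have h1 : k ≥ 32 * n := by omega
    simp [h, h1]
  · by_cases h1 : k ≥ 32 * n
    · have h2 : q.testBit (k - 32 * n) = false := by
        by_contra hne
        have := lt_pow_iff.1 hq _ (by simpa using hne)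
        omega
      simp [h, h2]
    · simp [h, h1]

theorem tb_cc {P j : ℕ} (hP : ∀ k, P.testBit k = true → k / 32 < 31) (hj : j < 32) (i : ℕ) :
    (cmp (colP P j)).testBit i = (decide (i < 32) && P.testBit (32 * i + j)) := by
  rw [testBit_cmp, testBit_colP]
  · have : (32 * i % 32 = 0 ∧ 32 * i < 1024) ↔ i < 32 := by omega
    simp only [this]
  · intro k hk
    rw [testBit_colP] at hk
    simp only [Bool.and_eq_true, decide_eq_true_eq] at hk
    have := hP _ hk.2
    omega

theorem cc_lt {P j : ℕ} (hP : ∀ k, P.testBit k = true → k / 32 < 31) (hj : j < 32) :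
    cmp (colP P j) < 2 ^ 32 := by
  rw [lt_pow_iff]
  intro k hk
  rw [tb_cc hP hj] at hk
  simp only [Bool.and_eq_true, decide_eq_true_eq] at hk
  exact hk.1

theorem rowP_lt (P i : ℕ) : rowP P i < 2 ^ 32 := by
  rw [lt_pow_iff]
  intro k hk
  rw [testBit_rowP] at hk
  simp only [Bool.and_eq_true, decide_eq_true_eq] at hk
  exact hk.1

theorem tb_trP_aux {P : ℕ} (hP : ∀ k, P.testBit k = true → k / 32 < 31) (m : ℕ) (hm : m ≤ 31)
    (k : ℕ) : (Nat.rec (motive := fun _ => ℕ) 0
      (fun j r => Nat.lor (Nat.shiftLeft (cmp (colP P j)) (Nat.mul 32 j)) r) m).testBit k =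
      (decide (k / 32 < m) && P.testBit (32 * (k % 32) + k / 32)) := by
  induction m with
  | zero => simp
  | succ m ih =>
    change (Nat.lor _ _).testBit k = _
    rw [tb_lor, ih (by omega), tb_row (cc_lt hP (by omega)), tb_cc hP (by omega)]
    have h0 : k % 32 < 32 := Nat.mod_lt _ (by norm_num)
    by_cases h : k / 32 = m
    · have h1 : k / 32 < m + 1 := by omega
      have h2 : ¬ k / 32 < m := by omega
      simp [h, h0]
    · have h1 : (k / 32 < m + 1) ↔ k / 32 < m := by omega
      simp [h, h1]

theorem tb_trP {P : ℕ} (hP : ∀ k, P.testBit k = true → k / 32 < 31) (k : ℕ) :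
    (CD.trP P).testBit k = (decide (k / 32 < 31) && P.testBit (32 * (k % 32) + k / 32)) :=
  tb_trP_aux hP 31 le_rfl k

theorem WFb.hP {C : CD} (h : WFb C) : ∀ k, C.P.testBit k = true → k / 32 < 31 :=
  fun k hk => h.z _ (h.r _ (h.s k (Or.inl hk)).1)

theorem WFb.hM {C : CD} (h : WFb C) : ∀ k, C.M.testBit k = true → k / 32 < 31 :=
  fun k hk => h.z _ (h.r _ (h.s k (Or.inr hk)).1)

theorem land_one (x : ℕ) : Nat.land x 1 = if x.testBit 0 = true then 1 else 0 := by
  change x &&& 1 = _
  rw [Nat.and_one_is_mod, Nat.testBit_zero]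
  rcases Nat.mod_two_eq_zero_or_one x with h | h <;> simp [h]

theorem sN_eq (C : CD) (i j : ℕ) : C.sN i j =
    (if (C.P.testBit (32 * i + j) || C.M.testBit (32 * j + i)) = true then 1 else 0) +
      2 * (if (C.M.testBit (32 * i + j) || C.P.testBit (32 * j + i)) = true then 1 else 0) := by
  unfold CD.sN
  rw [land_one, land_one, tb_lor, tb_lor, tb_shr, tb_shr, tb_shr, tb_shr]
  rfl

end CkA

open CkA

namespace CD

variable {C : CD} {D : Disp F3}

theorem wf_of (h : C.wfB = true) : C.WF := by
  unfold wfB at h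
  simp only [andB_iff, Nat.beq_eq] at h
  obtain ⟨h1, h2, h3, h4⟩ := h
  have hz : ∀ k, C.zm.testBit k = true → k < 31 := by
    intro k hk
    by_contra hn
    have := tb_shr C.zm 31 (k - 31)
    rw [h1, show 31 + (k - 31) = k by omega, hk, Nat.zero_testBit] at this
    exact Bool.false_ne_true this
  have hr : ∀ k, C.rm.testBit k = true → C.zm.testBit k = true := and_self_iff'.1 h2
  refine wf_iff.2 ⟨hz, hr, and_zero_iff.1 h3, fun k hk => ?_⟩
  have h5 := and_self_iff'.1 h4 k (by rw [tb_lor]; simpa using hk)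
  rw [tb_outer (lt_pow_iff.2 fun k hk => hz k (hr k hk)) (lt_pow_iff.2 fun k hk => by
    rw [tb_xor] at hk
    have := hr k
    have h6 : C.zm.testBit k = true := by
      revert hk this
      cases C.zm.testBit k <;> cases C.rm.testBit k <;> simp
    have := hz k h6
    omega), tb_xor] at h5
  have := hr (k % 32)
  revert h5 this
  cases C.rm.testBit (k / 32) <;> cases C.zm.testBit (k % 32) <;> cases C.rm.testBit (k % 32) <;>
    simp

theorem rep_self (h : C.WF) : Rep C C.toDisp := ⟨h, Same.refl _⟩

theorem eq_of_eqB {E : CD} (h : eqB C E = true) : C = E := by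
  unfold eqB at h
  simp only [andB_iff, Nat.beq_eq] at h
  obtain ⟨h1, h2, h3, h4⟩ := h
  cases C; cases E
  simp only at h1 h2 h3 h4
  subst h1 h2 h3 h4
  rfl

theorem toDisp_Z (C : CD) : C.toDisp.Z = fs C.zm := rfl

theorem Rep.same {E : Disp F3} (h : Rep C D) (hs : Same D E) : Rep C E := ⟨h.1, h.2.trans hs⟩

theorem Rep.unique {E : Disp F3} (h : Rep C D) (h' : Rep C E) : Same D E := h.2.symm.trans h'.2

theorem Rep.Z_eq (h : Rep C D) : D.Z = fs C.zm := h.2.1

theorem Rep.mem (h : Rep C D) {i : ℕ} : i ∈ D.Z ↔ C.zm.testBit i = true := by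
  rw [h.Z_eq, mem_fs]
  exact ⟨fun a => a.2, fun a => ⟨by have := (wf_iff.1 h.1).z i a; omega, a⟩⟩

theorem Rep.lt (h : Rep C D) {i : ℕ} (hi : i ∈ D.Z) : i < 31 := (wf_iff.1 h.1).z i (h.mem.1 hi)

theorem Rep.row (h : Rep C D) {i : ℕ} (hi : i ∈ D.Z) : D.row i = C.rm.testBit i :=
  h.2.2.1 i (h.2.1 ▸ hi)

theorem Rep.mem_of_rm (h : Rep C D) {i : ℕ} (hi : C.rm.testBit i = true) :
    i ∈ D.Z ∧ D.row i = true := by
  have := h.mem.2 ((wf_iff.1 h.1).r i hi)
  exact ⟨this, (h.row this).trans hi⟩

theorem Rep.side (h : Rep C D) (r : Bool) (i : ℕ) :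
    (C.side r).testBit i = true ↔ i ∈ D.Z ∧ D.row i ≠ r := by
  cases r
  · change C.rm.testBit i = true ↔ _
    constructor
    · intro hi
      have := h.mem_of_rm hi
      exact ⟨this.1, by rw [this.2]; simp⟩
    · rintro ⟨h1, h2⟩
      rw [← h.row h1]; simpa using h2
  · change (Nat.xor C.zm C.rm).testBit i = true ↔ _
    rw [tb_xor]
    constructor
    · intro hi
      have h0 := (wf_iff.1 h.1).r i
      have h1 : C.zm.testBit i = true ∧ C.rm.testBit i = false := by
        revert hi h0
        cases C.zm.testBit i <;> cases C.rm.testBit i <;> simp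
      have h2 := h.mem.2 h1.1
      exact ⟨h2, by rw [h.row h2, h1.2]; simp⟩
    · rintro ⟨h1, h2⟩
      rw [h.mem.1 h1, ← h.row h1]; simpa using h2

theorem Rep.ent (h : Rep C D) {i j : ℕ} (hi : i ∈ D.Z) (hj : j ∈ D.Z) (ri : D.row i = true) :
    D.S i j = val C.P C.M (32 * i + j) := by
  have e := h.2.2.2 i (h.2.1 ▸ hi) j (h.2.1 ▸ hj)
  have r1 : C.rm.testBit i = true := (h.row hi).symm.trans ri
  rw [e]
  change (if C.rm.testBit i = C.rm.testBit j then 0
    else if C.rm.testBit i then C.ent i j else - C.ent j i) = _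
  by_cases hr : C.rm.testBit j = true
  · rw [r1, hr, if_pos rfl]
    exact (val_off ((wf_iff.1 h.1).off (by have := h.lt hj; omega) (Or.inr (Or.inr hr)))).symm
  · rw [if_neg (by rw [r1]; exact fun e => hr e.symm), if_pos r1]
    rfl

/-- construction of a representation from the entries. -/
theorem rep_of (hw : C.WF) (hZ : ∀ i, i ∈ D.Z ↔ C.zm.testBit i = true)
    (hr : ∀ i ∈ D.Z, D.row i = C.rm.testBit i)
    (he : ∀ i ∈ D.Z, ∀ j ∈ D.Z, D.row i = true → D.row j = false →
      D.S i j = val C.P C.M (32 * i + j)) : Rep C D := by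
  have e : D.Z = C.toDisp.Z := by
    ext i
    rw [toDisp_Z, mem_fs, hZ]
    exact ⟨fun a => ⟨by have := (wf_iff.1 hw).z i a; omega, a⟩, fun a => a.2⟩
  refine ⟨hw, e, fun i hi => hr i (e ▸ hi), fun i hi j hj => ?_⟩
  rw [← e] at hi hj
  change _ = (if C.rm.testBit i = C.rm.testBit j then 0
    else if C.rm.testBit i then C.ent i j else - C.ent j i)
  rw [← hr i hi, ← hr j hj]
  by_cases h0 : D.row i = D.row j
  · rw [if_pos h0]; exact D.bip i j h0
  · rw [if_neg h0]
    by_cases h1 : D.row i = true
    · rw [if_pos h1]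
      exact he i hi j hj h1 (by revert h0; rw [h1]; cases D.row j <;> simp)
    · rw [if_neg h1, D.skew i j]
      have h2 : D.row i = false := by simpa using h1
      rw [he j hj i hi (by revert h0; rw [h2]; cases D.row j <;> simp) h2]
      rfl

theorem Rep.sN_aux (h : Rep C D) {i j : ℕ} (hi : i ∈ D.Z) (hj : j ∈ D.Z) :
    D.S i j = (C.sN i j : F3) ∧ C.sN i j < 3 := by
  have w := wf_iff.1 h.1
  have li : i < 32 := by have := h.lt hi; omega
  have lj : j < 32 := by have := h.lt hj; omega
  rw [sN_eq]
  by_cases ri : D.row i = true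
  · have o := w.off (i := j) li (Or.inr (Or.inr ((h.row hi).symm.trans ri)))
    have d := w.d (32 * i + j)
    rw [h.ent hi hj ri, o.1, o.2]
    unfold val
    revert d
    cases C.P.testBit (32 * i + j) <;> cases C.M.testBit (32 * i + j) <;> simp
    decide
  · have ri' : D.row i = false := by simpa using ri
    have o := w.off (i := i) lj (Or.inl ((h.row hi).symm.trans ri'))
    rw [o.1, o.2]
    by_cases rj : D.row j = true
    · have d := w.d (32 * j + i)
      rw [D.skew i j, h.ent hj hi rj]
      unfold val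
      revert d
      cases C.P.testBit (32 * j + i) <;> cases C.M.testBit (32 * j + i) <;> simp
      decide
    · have rj' : D.row j = false := by simpa using rj
      have o' := w.off (i := j) li (Or.inl ((h.row hj).symm.trans rj'))
      rw [o'.1, o'.2, D.bip i j (ri'.trans rj'.symm)]
      simp

theorem Rep.sN (h : Rep C D) {i j : ℕ} (hi : i ∈ D.Z) (hj : j ∈ D.Z) :
    D.S i j = (C.sN i j : F3) := (h.sN_aux hi hj).1

theorem Rep.sN_lt (h : Rep C D) {i j : ℕ} (hi : i ∈ D.Z) (hj : j ∈ D.Z) : C.sN i j < 3 :=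
  (h.sN_aux hi hj).2

theorem Rep.res (h : Rep C D) {U : ℕ} {W : Finset ℕ}
    (hW : ∀ i, i ∈ W ↔ i ∈ D.Z ∧ U.testBit i = true) : Rep (C.res U) (D.restrict W) := by
  have w := wf_iff.1 h.1
  have hK : ∀ k, (Nat.mul (spr (Nat.land C.rm U)) (Nat.land C.zm U)).testBit k =
      ((C.rm.testBit (k / 32) && U.testBit (k / 32)) &&
        (C.zm.testBit (k % 32) && U.testBit (k % 32))) := by
    intro k
    rw [tb_outer, tb_land, tb_land]
    · refine lt_pow_iff.2 fun k hk => ?_
      rw [tb_land, Bool.and_eq_true] at hk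
      exact w.z k (w.r k hk.1)
    · refine lt_pow_iff.2 fun k hk => ?_
      rw [tb_land, Bool.and_eq_true] at hk
      have := w.z k hk.1
      omega
  have ez : ∀ k, (C.res U).zm.testBit k = (C.zm.testBit k && U.testBit k) := fun k => tb_land _ _ k
  have er : ∀ k, (C.res U).rm.testBit k = (C.rm.testBit k && U.testBit k) := fun k => tb_land _ _ k
  have eP : ∀ k, (C.res U).P.testBit k = (C.P.testBit k &&
      ((C.rm.testBit (k / 32) && U.testBit (k / 32)) &&
        (C.zm.testBit (k % 32) && U.testBit (k % 32)))) := fun k => by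
    rw [← hK]; exact tb_land _ _ k
  have eM : ∀ k, (C.res U).M.testBit k = (C.M.testBit k &&
      ((C.rm.testBit (k / 32) && U.testBit (k / 32)) &&
        (C.zm.testBit (k % 32) && U.testBit (k % 32)))) := fun k => by
    rw [← hK]; exact tb_land _ _ k
  refine rep_of (wf_iff.2 ⟨fun k hk => ?_, fun k hk => ?_, fun k h1 h2 => ?_, fun k hk => ?_⟩)
    (fun i => ?_) (fun i hi => ?_) fun i hi j hj ri rj => ?_
  · rw [ez, Bool.and_eq_true] at hk
    exact w.z k hk.1
  · rw [er, Bool.and_eq_true] at hk
    rw [ez, w.r k hk.1, hk.2]; rfl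
  · rw [eP, Bool.and_eq_true] at h1
    rw [eM, Bool.and_eq_true] at h2
    exact w.d k h1.1 h2.1
  · rw [eP, eM] at hk
    simp only [Bool.and_eq_true] at hk
    have h1 := w.s k (hk.imp (fun a => a.1) fun a => a.1)
    have h2 : U.testBit (k / 32) = true ∧ U.testBit (k % 32) = true := by
      rcases hk with a | a
      · exact ⟨a.2.1.2, a.2.2.2⟩
      · exact ⟨a.2.1.2, a.2.2.2⟩
    rw [er, ez, er, h1.1, h1.2.1, h1.2.2, h2.1, h2.2]
    simp
  · change i ∈ W ↔ _
    rw [hW, ez, h.mem, Bool.and_eq_true]
  · have := (hW i).1 hi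
    change D.row i = _
    rw [er, this.2, h.row this.1, Bool.and_true]
  · have a := (hW i).1 hi
    have b := (hW j).1 hj
    have lj := h.lt b.1
    change D.S i j = _
    change D.row i = true at ri
    have e1 : (32 * i + j) / 32 = i := by omega
    have e2 : (32 * i + j) % 32 = j := by omega
    rw [h.ent a.1 b.1 ri]
    apply val_congr
    · rw [eP, e1, e2, ← h.row a.1, ri, a.2, b.2, h.mem.1 b.1]; simp
    · rw [eM, e1, e2, ← h.row a.1, ri, a.2, b.2, h.mem.1 b.1]; simp

theorem Rep.addC (h : Rep C D) {n u K : ℕ} (hn : n < 31) (hn' : n ∉ D.Z) (hu : VOn K u)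
    {v : ℕ → F3} (hv : ∀ i ∈ D.Z, D.row i = true → v i = vec u i) :
    Rep (C.addC n u) (D.addEl n false v) := by
  have w := wf_iff.1 h.1
  have zn : C.zm.testBit n = false := by simpa [h.mem] using hn'
  have rn : C.rm.testBit n = false := by
    by_contra hc
    have := w.r n (by simpa using hc)
    rw [zn] at this
    exact Bool.false_ne_true this
  have hq : ∀ p, Nat.land p C.rm < 2 ^ 31 := fun p => lt_pow_iff.2 fun k hk => by
    rw [tb_land, Bool.and_eq_true] at hk
    exact w.z k (w.r k hk.2)
  have ez : ∀ k, (C.addC n u).zm.testBit k = (C.zm.testBit k || decide (n = k)) := fun k => by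
    rw [← testBit_bit]; exact tb_lor _ _ k
  have er : (C.addC n u).rm = C.rm := rfl
  have eP : ∀ k, (C.addC n u).P.testBit k = (C.P.testBit k ||
      (decide (k % 32 = n) && ((vp u).testBit (k / 32) && C.rm.testBit (k / 32)))) := fun k => by
    rw [← tb_land, ← tb_col (hq _) (by omega)]; exact tb_lor _ _ k
  have eM : ∀ k, (C.addC n u).M.testBit k = (C.M.testBit k ||
      (decide (k % 32 = n) && ((vm u).testBit (k / 32) && C.rm.testBit (k / 32)))) := fun k => by
    rw [← tb_land, ← tb_col (hq _) (by omega)]; exact tb_lor _ _ k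
  have old : ∀ k, C.P.testBit k = true ∨ C.M.testBit k = true → k % 32 ≠ n := by
    intro k hk e
    have := (w.s k hk).2.1
    rw [e, zn] at this
    exact Bool.false_ne_true this
  refine rep_of (wf_iff.2 ⟨fun k hk => ?_, fun k hk => ?_, fun k h1 h2 => ?_, fun k hk => ?_⟩)
    (fun i => ?_) (fun i hi => ?_) fun i hi j hj ri rj => ?_
  · rw [ez] at hk
    simp only [Bool.or_eq_true, decide_eq_true_eq] at hk
    rcases hk with hk | rfl
    · exact w.z k hk
    · exact hn
  · rw [ez, w.r k hk]; rfl
  · rw [eP] at h1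
    rw [eM] at h2
    simp only [Bool.or_eq_true, Bool.and_eq_true, decide_eq_true_eq] at h1 h2
    rcases h1 with a | a <;> rcases h2 with b | b
    · exact w.d k a b
    · exact old k (Or.inl a) b.1
    · exact old k (Or.inr b) a.1
    · exact and_zero_iff.1 hu.1 _ a.2.1 b.2.1
  · rw [eP, eM] at hk
    simp only [Bool.or_eq_true, Bool.and_eq_true, decide_eq_true_eq] at hk
    rw [er, ez]
    by_cases ho : C.P.testBit k = true ∨ C.M.testBit k = true
    · have := w.s k ho
      rw [this.1, this.2.1, this.2.2]; simp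
    · have a : k % 32 = n ∧ C.rm.testBit (k / 32) = true := by
        rcases hk with (a | a) | (a | a)
        · exact absurd (Or.inl a) ho
        · exact ⟨a.1, a.2.2⟩
        · exact absurd (Or.inr a) ho
        · exact ⟨a.1, a.2.2⟩
      rw [a.1, a.2, rn]; simp
  · change i ∈ insert n D.Z ↔ _
    rw [ez, mem_insert, h.mem]
    simp only [Bool.or_eq_true, decide_eq_true_eq]
    exact ⟨fun a => a.symm.imp id Eq.symm, fun a => a.symm.imp Eq.symm id⟩
  · change (if i = n then false else D.row i) = C.rm.testBit i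
    by_cases e : i = n
    · rw [if_pos e, e, rn]
    · rw [if_neg e]
      exact h.row ((mem_insert.1 hi).resolve_left e)
  · change (if i = n then false else D.row i) = true at ri
    have e : i ≠ n := by
      rintro rfl
      rw [if_pos rfl] at ri
      exact Bool.false_ne_true ri
    rw [if_neg e] at ri
    have hi' : i ∈ D.Z := (mem_insert.1 hi).resolve_left e
    change (if i = n then _ else if j = n then (if D.row i = false then 0 else v i)
      else D.S i j) = _
    rw [if_neg e]
    by_cases e' : j = n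
    · have o := w.off (i := i) (j := n) (by omega) (Or.inr (Or.inl zn))
      have e1 : (32 * i + n) / 32 = i := by omega
      have e2 : (32 * i + n) % 32 = n := by omega
      rw [if_pos e', ri, if_neg (by simp), hv i hi' ri, e']
      apply val_congr
      · rw [eP, o.1, e1, e2, ← h.row hi', ri]; simp
      · rw [eM, o.2, e1, e2, ← h.row hi', ri]; simp
    · have hj' : j ∈ D.Z := (mem_insert.1 hj).resolve_left e'
      have lj := h.lt hj'
      have e2 : ¬ (32 * i + j) % 32 = n := by omega
      rw [if_neg e', h.ent hi' hj' ri]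
      apply val_congr
      · rw [eP, decide_eq_false e2]; simp
      · rw [eM, decide_eq_false e2]; simp

theorem Rep.addR (h : Rep C D) {n u K : ℕ} (hn : n < 31) (hn' : n ∉ D.Z) (hu : VOn K u)
    {v : ℕ → F3} (hv : ∀ i ∈ D.Z, D.row i = false → v i = vec u i) :
    Rep (C.addR n u) (D.addEl n true v) := by
  have w := wf_iff.1 h.1
  have zn : C.zm.testBit n = false := by simpa [h.mem] using hn'
  have rn : C.rm.testBit n = false := by
    by_contra hc
    have := w.r n (by simpa using hc)
    rw [zn] at this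
    exact Bool.false_ne_true this
  have hx : ∀ k, (C.zm.testBit k ^^ C.rm.testBit k) = true →
      C.zm.testBit k = true ∧ C.rm.testBit k = false := by
    intro k hk
    have := w.r k
    revert hk this
    cases C.zm.testBit k <;> cases C.rm.testBit k <;> simp
  have hq : ∀ p, Nat.land p (Nat.xor C.zm C.rm) < 2 ^ 32 := fun p => lt_pow_iff.2 fun k hk => by
    rw [tb_land, Bool.and_eq_true, tb_xor] at hk
    have := w.z k (hx k hk.2).1
    omega
  have ez : ∀ k, (C.addR n u).zm.testBit k = (C.zm.testBit k || decide (n = k)) := fun k => by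
    rw [← testBit_bit]; exact tb_lor _ _ k
  have er : ∀ k, (C.addR n u).rm.testBit k = (C.rm.testBit k || decide (n = k)) := fun k => by
    rw [← testBit_bit]; exact tb_lor _ _ k
  have eP : ∀ k, (C.addR n u).P.testBit k = (C.P.testBit k || (decide (k / 32 = n) &&
      ((vm u).testBit (k % 32) && (C.zm.testBit (k % 32) ^^ C.rm.testBit (k % 32))))) :=
    fun k => by rw [← tb_xor, ← tb_land, ← tb_row (hq _)]; exact tb_lor _ _ k
  have eM : ∀ k, (C.addR n u).M.testBit k = (C.M.testBit k || (decide (k / 32 = n) &&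
      ((vp u).testBit (k % 32) && (C.zm.testBit (k % 32) ^^ C.rm.testBit (k % 32))))) :=
    fun k => by rw [← tb_xor, ← tb_land, ← tb_row (hq _)]; exact tb_lor _ _ k
  have old : ∀ k, C.P.testBit k = true ∨ C.M.testBit k = true → k / 32 ≠ n := by
    intro k hk e
    have := (w.s k hk).1
    rw [e, rn] at this
    exact Bool.false_ne_true this
  have nz : ∀ k, C.zm.testBit k = true → ¬ n = k := by
    rintro k hk rfl
    rw [zn] at hk
    exact Bool.false_ne_true hk
  refine rep_of (wf_iff.2 ⟨fun k hk => ?_, fun k hk => ?_, fun k h1 h2 => ?_, fun k hk => ?_⟩)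
    (fun i => ?_) (fun i hi => ?_) fun i hi j hj ri rj => ?_
  · rw [ez] at hk
    simp only [Bool.or_eq_true, decide_eq_true_eq] at hk
    rcases hk with hk | rfl
    · exact w.z k hk
    · exact hn
  · rw [er] at hk
    rw [ez]
    simp only [Bool.or_eq_true, decide_eq_true_eq] at hk ⊢
    exact hk.imp (w.r k) id
  · rw [eP] at h1
    rw [eM] at h2
    simp only [Bool.or_eq_true, Bool.and_eq_true, decide_eq_true_eq] at h1 h2
    rcases h1 with a | a <;> rcases h2 with b | b
    · exact w.d k a b
    · exact old k (Or.inl a) b.1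
    · exact old k (Or.inr b) a.1
    · exact and_zero_iff.1 hu.1 _ b.2.1 a.2.1
  · rw [eP, eM] at hk
    rw [er, ez, er]
    by_cases ho : C.P.testBit k = true ∨ C.M.testBit k = true
    · have := w.s k ho
      rw [this.1, this.2.1, this.2.2, decide_eq_false (nz _ this.2.1)]; simp
    · have a : k / 32 = n ∧ (C.zm.testBit (k % 32) ^^ C.rm.testBit (k % 32)) = true := by
        simp only [Bool.or_eq_true, Bool.and_eq_true, decide_eq_true_eq] at hk
        rcases hk with (a | a) | (a | a)
        · exact absurd (Or.inl a) ho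
        · exact ⟨a.1, a.2.2⟩
        · exact absurd (Or.inr a) ho
        · exact ⟨a.1, a.2.2⟩
      have b := hx _ a.2
      rw [a.1, b.1, b.2, decide_eq_false (nz _ b.1)]; simp
  · change i ∈ insert n D.Z ↔ _
    rw [ez, mem_insert, h.mem]
    simp only [Bool.or_eq_true, decide_eq_true_eq]
    exact ⟨fun a => a.symm.imp id Eq.symm, fun a => a.symm.imp Eq.symm id⟩
  · change (if i = n then true else D.row i) = _
    rw [er]
    by_cases e : i = n
    · rw [if_pos e, e]; simp
    · rw [if_neg e, h.row ((mem_insert.1 hi).resolve_left e), decide_eq_false (Ne.symm e)]; simp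
  · change (if j = n then true else D.row j) = false at rj
    have e' : j ≠ n := by
      rintro rfl
      rw [if_pos rfl] at rj
      exact Bool.false_ne_true rj.symm
    rw [if_neg e'] at rj
    have hj' : j ∈ D.Z := (mem_insert.1 hj).resolve_left e'
    have lj := h.lt hj'
    have e1 : (32 * i + j) / 32 = i := by omega
    have e2 : (32 * i + j) % 32 = j := by omega
    change (if i = n then (if j = n ∨ D.row j = true then 0 else - v j) else if j = n then _
      else D.S i j) = _
    by_cases e : i = n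
    · have o := w.off (i := i) (j := j) (by omega) (Or.inl (by rw [e]; exact rn))
      rw [if_pos e, if_neg (by simp [e', rj]), hv j hj' rj]
      change - val (vp u) (vm u) j = _
      rw [← val_swap hu.1]
      apply val_congr
      · rw [eP, o.1, e1, e2, ← h.row hj', rj, h.mem.1 hj']; simp [e]
      · rw [eM, o.2, e1, e2, ← h.row hj', rj, h.mem.1 hj']; simp [e]
    · have hi' : i ∈ D.Z := (mem_insert.1 hi).resolve_left e
      change (if i = n then true else D.row i) = true at ri
      rw [if_neg e] at ri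
      rw [if_neg e, if_neg e', h.ent hi' hj' ri]
      apply val_congr
      · rw [eP, e1, decide_eq_false e]; simp
      · rw [eM, e1, decide_eq_false e]; simp

theorem Rep.add (h : Rep C D) {n u K : ℕ} {r : Bool} (hn : n < 31) (hn' : n ∉ D.Z) (hu : VOn K u)
    {v : ℕ → F3} (hv : ∀ i ∈ D.Z, D.row i ≠ r → v i = vec u i) :
    Rep (C.add n r u) (D.addEl n r v) := by
  cases r
  · exact h.addC hn hn' hu fun i hi ri => hv i hi (by rw [ri]; simp)
  · exact h.addR hn hn' hu fun i hi ri => hv i hi (by rw [ri]; simp)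

theorem Rep.scl (h : Rep C D) {E : ℕ} {ε : ℕ → F3}
    (hε : ∀ i ∈ D.Z, ε i = if E.testBit i = true then -1 else 1) :
    Rep (C.scl E) (D.scale ε) := by
  have w := wf_iff.1 h.1
  obtain ⟨K, hK⟩ : ∃ K, K = Nat.xor (Nat.mul (spr (Nat.land E C.zm)) cF)
    (Nat.mul cD (Nat.land E C.zm)) := ⟨_, rfl⟩
  have eS : C.scl E = C.sclK K := by rw [hK]; rfl
  have hq : Nat.land E C.zm < 2 ^ 31 := lt_pow_iff.2 fun k hk => by
    rw [tb_land, Bool.and_eq_true] at hk
    exact w.z k hk.2
  have eK : ∀ i ∈ D.Z, ∀ j ∈ D.Z, K.testBit (32 * i + j) = (E.testBit i ^^ E.testBit j) := by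
    intro i hi j hj
    have li := h.lt hi
    have lj := h.lt hj
    have e1 : (32 * i + j) / 32 = i := by omega
    have e2 : (32 * i + j) % 32 = j := by omega
    have hD : ∀ k, cD.testBit k = true → k % 32 = 0 := by
      intro k hk
      rw [testBit_cD, decide_eq_true_eq] at hk
      exact hk.1
    have o := testBit_outer hD (lt_trans hq (by norm_num)) (32 * i + j)
    have hF : cF < 2 ^ 32 := by unfold cF; norm_num
    rw [hK, tb_xor, tb_outer hq hF, show Nat.mul cD (Nat.land E C.zm) = cD * Nat.land E C.zm from rfl,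
      o, e1, e2, tb_land, tb_land, testBit_cF, testBit_cD, h.mem.1 hi, h.mem.1 hj,
      decide_eq_true (by omega : j < 32),
      decide_eq_true (by omega : 32 * i % 32 = 0 ∧ 32 * i < 1024)]
    simp
  have eP : ∀ k, (C.sclK K).P.testBit k =
      (C.P.testBit k ^^ ((C.P.testBit k || C.M.testBit k) && K.testBit k)) := fun k => by
    rw [← tb_lor, ← tb_land]; exact tb_xor _ _ k
  have eM : ∀ k, (C.sclK K).M.testBit k =
      (C.M.testBit k ^^ ((C.P.testBit k || C.M.testBit k) && K.testBit k)) := fun k => by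
    rw [← tb_lor, ← tb_land]; exact tb_xor _ _ k
  rw [eS]
  refine rep_of (wf_iff.2 ⟨w.z, w.r, fun k h1 h2 => ?_, fun k hk => ?_⟩)
    (fun i => h.mem) (fun i hi => h.row hi) fun i hi j hj ri rj => ?_
  · rw [eP] at h1
    rw [eM] at h2
    have := w.d k
    revert h1 h2 this
    cases C.P.testBit k <;> cases C.M.testBit k <;> cases K.testBit k <;> simp
  · rw [eP, eM] at hk
    apply w.s k
    revert hk
    cases C.P.testBit k <;> cases C.M.testBit k <;> cases K.testBit k <;> simp
  · change ε i * ε j * D.S i j = _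
    rw [h.ent hi hj ri, hε i hi, hε j hj]
    unfold val
    rw [eP, eM, eK i hi j hj]
    have := w.d (32 * i + j)
    revert this
    cases C.P.testBit (32 * i + j) <;> cases C.M.testBit (32 * i + j) <;> cases E.testBit i <;>
      cases E.testBit j <;> simp

theorem Rep.flp (h : Rep C D) : Rep C.flp D.flip := by
  have w := wf_iff.1 h.1
  have er : ∀ k, C.flp.rm.testBit k = (C.zm.testBit k ^^ C.rm.testBit k) := fun k => tb_xor _ _ k
  have eP : ∀ k, C.flp.P.testBit k =
      (decide (k / 32 < 31) && C.M.testBit (32 * (k % 32) + k / 32)) := tb_trP w.hM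
  have eM : ∀ k, C.flp.M.testBit k =
      (decide (k / 32 < 31) && C.P.testBit (32 * (k % 32) + k / 32)) := tb_trP w.hP
  refine rep_of (wf_iff.2 ⟨w.z, fun k hk => ?_, fun k h1 h2 => ?_, fun k hk => ?_⟩)
    (fun i => h.mem) (fun i hi => ?_) fun i hi j hj ri rj => ?_
  · rw [er] at hk
    change C.zm.testBit k = true
    have := w.r k
    revert hk this
    cases C.zm.testBit k <;> cases C.rm.testBit k <;> simp
  · rw [eP, Bool.and_eq_true] at h1
    rw [eM, Bool.and_eq_true] at h2
    exact w.d _ h2.2 h1.2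
  · rw [eP, eM] at hk
    simp only [Bool.and_eq_true, decide_eq_true_eq] at hk
    have l : k / 32 < 32 := by rcases hk with a | a <;> have := a.1 <;> omega
    have s := w.s' (i := k % 32) l (hk.symm.imp (fun a => a.2) fun a => a.2)
    change _ ∧ C.zm.testBit (k % 32) = true ∧ _
    rw [er, er, s.1, s.2.1, s.2.2, w.r _ s.1]; simp
  · change (!D.row i) = _
    rw [er, h.mem.1 hi, h.row hi]; simp
  · change (!D.row j) = false at rj
    have rj' : D.row j = true := by simpa using rj
    have li := h.lt hi
    have lj := h.lt hj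
    have e1 : (32 * i + j) / 32 = i := by omega
    have e2 : (32 * i + j) % 32 = j := by omega
    change D.S i j = _
    rw [D.skew i j, h.ent hj hi rj', ← val_swap h.1.2.2.1]
    apply val_congr
    · rw [eP, e1, e2, decide_eq_true li]; simp
    · rw [eM, e1, e2, decide_eq_true li]; simp

theorem Rep.cpy_aux (h : Rep C D) {z : ℕ} (hz : z ∈ D.Z) (r : Bool) :
    VOn (C.side r) (C.cpyV z r) ∧ ∀ i ∈ D.Z, cpy D z r i = vec (C.cpyV z r) i := by
  have w := wf_iff.1 h.1
  have lz : z < 32 := by have := h.lt hz; omega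
  by_cases hr : D.row z = r
  · have rz : C.rm.testBit z = r := (h.row hz).symm.trans hr
    cases r
    · have e : C.cpyV z false = vmk (cmp (colP C.P z)) (cmp (colP C.M z)) := by
        unfold cpyV
        rw [tb_eq, rz, cnd_false, cnd_false]
      have l := cc_lt w.hP lz
      rw [e]
      refine ⟨⟨?_, fun i hi => ?_⟩, fun i hi => ?_⟩
      · rw [vp_vmk l, vm_vmk l, and_zero_iff]
        intro k h1 h2
        rw [tb_cc w.hP lz, Bool.and_eq_true] at h1
        rw [tb_cc w.hM lz, Bool.and_eq_true] at h2
        exact w.d _ h1.2 h2.2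
      · rw [vp_vmk l, vm_vmk l, Nat.testBit_or, tb_cc w.hP lz, tb_cc w.hM lz] at hi
        simp only [Bool.or_eq_true, Bool.and_eq_true, decide_eq_true_eq] at hi
        exact ⟨hi.elim (fun a => a.1) fun a => a.1,
          (w.s' lz (hi.imp (fun a => a.2) fun a => a.2)).1⟩
      · have li : i < 32 := by have := h.lt hi; omega
        unfold cpy vec
        rw [if_pos hr, vp_vmk l, vm_vmk l]
        have e2 : val (cmp (colP C.P z)) (cmp (colP C.M z)) i = val C.P C.M (32 * i + z) := by
          apply val_congr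
          · rw [tb_cc w.hP lz, decide_eq_true li]; simp
          · rw [tb_cc w.hM lz, decide_eq_true li]; simp
        rw [e2]
        by_cases ri : D.row i = true
        · exact h.ent hi hz ri
        · have ri' : D.row i = false := by simpa using ri
          rw [D.bip i z (ri'.trans hr.symm),
            val_off (w.off lz (Or.inl ((h.row hi).symm.trans ri')))]
    · have e : C.cpyV z true = vmk (rowP C.M z) (rowP C.P z) := by
        unfold cpyV
        rw [tb_eq, rz, cnd_true, cnd_true]
      have l := rowP_lt C.M z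
      rw [e]
      refine ⟨⟨?_, fun i hi => ?_⟩, fun i hi => ?_⟩
      · rw [vp_vmk l, vm_vmk l, and_zero_iff]
        intro k h1 h2
        rw [testBit_rowP, Bool.and_eq_true] at h1 h2
        exact w.d _ h2.2 h1.2
      · rw [vp_vmk l, vm_vmk l, Nat.testBit_or, testBit_rowP, testBit_rowP] at hi
        simp only [Bool.or_eq_true, Bool.and_eq_true, decide_eq_true_eq] at hi
        have li : i < 32 := hi.elim (fun a => a.1) fun a => a.1
        have s := w.s' li (hi.symm.imp (fun a => a.2) fun a => a.2)
        refine ⟨li, ?_⟩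
        change (Nat.xor C.zm C.rm).testBit i = true
        rw [tb_xor, s.2.1, s.2.2]; rfl
      · have li : i < 32 := by have := h.lt hi; omega
        unfold cpy vec
        rw [if_pos hr, vp_vmk l, vm_vmk l, D.skew i z, h.ent hz hi hr, ← val_swap h.1.2.2.1]
        apply val_congr
        · rw [testBit_rowP, decide_eq_true li]; simp
        · rw [testBit_rowP, decide_eq_true li]; simp
  · have e : C.cpyV z r = bit z := by
      have rz := h.row hz
      unfold cpyV
      rw [tb_eq, ← rz]
      cases r
      · rw [cnd_false, show D.row z = true by simpa using hr, cnd_true]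
      · rw [cnd_true, show D.row z = false by simpa using hr, cnd_false]
    rw [e]
    refine ⟨von_bit lz ((h.side r z).2 ⟨hz, hr⟩), fun i _ => ?_⟩
    unfold cpy
    rw [if_neg hr, vec_bit lz]

theorem Rep.cpy_on (h : Rep C D) {z : ℕ} (hz : z ∈ D.Z) (r : Bool) :
    VOn (C.side r) (C.cpyV z r) := (h.cpy_aux hz r).1

theorem Rep.cpy_eq (h : Rep C D) {z : ℕ} (hz : z ∈ D.Z) (r : Bool) {i : ℕ} (hi : i ∈ D.Z) :
    cpy D z r i = vec (C.cpyV z r) i := (h.cpy_aux hz r).2 i hi

end CD

end Pool.Agent.Lib.MP_c69b6d_co.F
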