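import Pool.Agent.Lib.MP_c69b6d_co.F.CkA

/-! Soundness of pivots and of minor certificates. -/

namespace Pool.Agent.Lib.MP_c69b6d_co.F

open Finset Disp

/-- the planes of an outer product. -/
theorem ckb_outer {cp cm rp rm : ℕ} (h1 : ∀ k, cp.testBit k = true → k % 32 = 0)
    (h2 : ∀ k, cm.testBit k = true → k % 32 = 0) (h3 : rp < 2 ^ 32) (h4 : rm < 2 ^ 32)
    (d1 : cp &&& cm = 0) (d2 : rp &&& rm = 0) :
    (cp * rp ||| cm * rm) &&& (cp * rm ||| cm * rp) = 0 ∧
      ∀ i j, j < 32 → val (cp * rp ||| cm * rm) (cp * rm ||| cm * rp) (32 * i + j) =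
        val cp cm (32 * i) * val rp rm j := by
  refine ⟨ck_disj.2 fun k => ?_, fun i j hj => ?_⟩
  · have e1 := ck_disj.1 d1 (32 * (k / 32))
    have e2 := ck_disj.1 d2 (k % 32)
    simp only [Nat.testBit_or, testBit_outer h1 h3, testBit_outer h1 h4, testBit_outer h2 h3,
      testBit_outer h2 h4]
    revert e1 e2
    cases cp.testBit (32 * (k / 32)) <;> cases cm.testBit (32 * (k / 32)) <;>
      cases rp.testBit (k % 32) <;> cases rm.testBit (k % 32) <;> decide
  · have e1 := ck_disj.1 d1 (32 * i)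
    have e2 := ck_disj.1 d2 j
    have a : (32 * i + j) / 32 = i := by omega
    have b : (32 * i + j) % 32 = j := by omega
    simp only [val, Nat.testBit_or, testBit_outer h1 h3, testBit_outer h1 h4, testBit_outer h2 h3,
      testBit_outer h2 h4, a, b]
    revert e1 e2
    cases cp.testBit (32 * i) <;> cases cm.testBit (32 * i) <;>
      cases rp.testBit j <;> cases rm.testBit j <;> decide

/-- clearing two entries. -/
theorem ckb_clear {p m k1 k2 : ℕ} (d : p &&& m = 0) (h1 : val p m k1 = 1) (h2 : val p m k2 = -1) :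
    (p ^^^ bit k1) &&& (m ^^^ bit k2) = 0 ∧
      ∀ k, val (p ^^^ bit k1) (m ^^^ bit k2) k = if k = k1 ∨ k = k2 then 0 else val p m k := by
  have e1 := ck_disj.1 d k1
  have e2 := ck_disj.1 d k2
  have a1 : p.testBit k1 = true ∧ m.testBit k1 = false := by
    simp only [val] at h1
    revert e1 h1
    cases p.testBit k1 <;> cases m.testBit k1 <;> decide
  have a2 : p.testBit k2 = false ∧ m.testBit k2 = true := by
    simp only [val] at h2
    revert e2 h2
    cases p.testBit k2 <;> cases m.testBit k2 <;> decide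
  have ne : k1 ≠ k2 := fun e => by
    rw [e, a2.1] at a1
    exact Bool.false_ne_true a1.1
  refine ⟨ck_disj.2 fun k => ?_, fun k => ?_⟩
  · rw [Nat.testBit_xor, Nat.testBit_xor, testBit_bit, testBit_bit]
    by_cases c1 : k1 = k
    · subst c1; simp [a1.1]
    · by_cases c2 : k2 = k
      · subst c2; simp [a2.2]
      · simpa [c1, c2] using ck_disj.1 d k
  · simp only [val, Nat.testBit_xor, testBit_bit]
    by_cases c1 : k = k1
    · subst c1; simp [a1.1, a1.2, ne.symm]
    · by_cases c2 : k = k2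
      · subst c2; simp [a2.1, a2.2, ne]
      · simp [c1, c2, Ne.symm c1, Ne.symm c2]

theorem ckb_land31 (c : ℕ) : Nat.land c 31 = c % 32 := Nat.and_two_pow_sub_one_eq_mod c 5

theorem ckb_land15 (c : ℕ) : Nat.land c 15 = c % 16 := Nat.and_two_pow_sub_one_eq_mod c 4

theorem ckb_phi (F i : ℕ) : Nat.land (Nat.shiftRight F (Nat.mul 6 i)) 31 = phi F i := ckb_land31 _

theorem ckb_phi_lt (F i : ℕ) : phi F i < 32 := Nat.mod_lt _ (by norm_num)

theorem ckb_sgn (F i : ℕ) : tb (Nat.shiftRight F (Nat.mul 6 i)) 5 = F.testBit (6 * i + 5) := by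
  rw [tb_eq]; exact Nat.testBit_shiftRight F

theorem ckb_xor_bit (A i j : ℕ) :
    (Nat.xor A (bit i)).testBit j = (A.testBit j ^^ decide (i = j)) := by
  rw [← testBit_bit]; exact Nat.testBit_xor A (bit i) j

namespace CD

variable {C : CD} {D : Disp F3}

theorem WF.ne (hw : C.WF) {i j : ℕ} (hj : j < 32) (h : val C.P C.M (32 * i + j) ≠ 0) :
    C.rm.testBit i = true ∧ C.zm.testBit j = true ∧ C.rm.testBit j = false := by
  have e := hw.2.2.2 _ (val_ne_zero.1 h)
  rwa [show (32 * i + j) / 32 = i by omega, show (32 * i + j) % 32 = j by omega] at e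

theorem WF.zm_of_rm (hw : C.WF) {i : ℕ} (h : C.rm.testBit i = true) : C.zm.testBit i = true := by
  rw [← hw.2.1, Nat.testBit_and, Bool.and_eq_true] at h
  exact h.2

theorem WF.zero (hw : C.WF) {i j : ℕ} (hj : j < 32)
    (h : C.rm.testBit i = false ∨ C.rm.testBit j = true) : val C.P C.M (32 * i + j) = 0 := by
  by_contra e
  have k := hw.ne hj e
  rcases h with h | h
  · rw [h] at k; exact Bool.false_ne_true k.1
  · rw [h] at k; exact Bool.false_ne_true k.2.2.symm

theorem WF.bits (hw : C.WF) {k : ℕ} (h : val C.P C.M k = 0) :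
    C.P.testBit k = false ∧ C.M.testBit k = false := by
  have e : ¬ (C.P ||| C.M).testBit k = true := fun e => val_ne_zero.2 e h
  rw [Nat.testBit_or] at e
  revert e
  cases C.P.testBit k <;> cases C.M.testBit k <;> decide

theorem WF.col (hw : C.WF) {y : ℕ} (hy : y < 32) (i : ℕ) :
    (colP C.P y).testBit (32 * i) = C.P.testBit (32 * i + y) ∧
      (colP C.M y).testBit (32 * i) = C.M.testBit (32 * i + y) := by
  rw [testBit_colP, testBit_colP]
  by_cases hi : i < 32
  · rw [decide_eq_true (by omega)]; simp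
  · have e : C.rm.testBit i = false := by
      cases e : C.rm.testBit i
      · rfl
      · exact absurd (ck_lt hw.1 (hw.zm_of_rm e)) (by omega)
    have k := hw.bits (hw.zero hy (Or.inl e))
    rw [k.1, k.2]; simp

theorem pivK_val (hw : C.WF) {x y wp wm : ℕ} (d : wp &&& wm = 0)
    (h1 : val C.P C.M (33 * y) + val wp wm (33 * y) = 1)
    (h2 : val C.P C.M (33 * x) + val wp wm (33 * x) = -1) :
    (pivK C x y wp wm).P &&& (pivK C x y wp wm).M = 0 ∧
      ∀ k, val (pivK C x y wp wm).P (pivK C x y wp wm).M k =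
        if k = 33 * y ∨ k = 33 * x then 0 else val C.P C.M k + val wp wm k := by
  have k := ckb_clear (add_disj hw.2.2.1 d) ((val_add hw.2.2.1 d _).trans h1)
    ((val_add hw.2.2.1 d _).trans h2)
  refine ⟨k.1, fun t => (k.2 t).trans ?_⟩
  rw [val_add hw.2.2.1 d]

theorem piv_zm (C : CD) (x y : ℕ) : (C.piv x y).zm = C.zm := by
  unfold piv pivW pivV
  cases tb (rowP C.P x) y <;> rfl

theorem piv_rm (C : CD) (x y : ℕ) : (C.piv x y).rm = C.rm ^^^ (bit x ||| bit y) := by
  unfold piv pivW pivV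
  cases tb (rowP C.P x) y <;> rfl

/-- the entries of the packed pivot. -/
theorem piv_val (hw : C.WF) {x y : ℕ} (hx : x < 32) (hy : y < 32)
    (ha : val C.P C.M (32 * x + y) ≠ 0) :
    (C.piv x y).P &&& (C.piv x y).M = 0 ∧ ∀ i j, j < 32 →
      val (C.piv x y).P (C.piv x y).M (32 * i + j) =
        if (i = y ∧ j = y) ∨ (i = x ∧ j = x) then 0 else
          val C.P C.M (32 * i + j) - val C.P C.M (32 * x + y) *
            (val C.P C.M (32 * i + y) - if i = y then 1 else 0) *
            (val C.P C.M (32 * x + j) + if j = x then 1 else 0) := by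
  obtain ⟨rx, zy, ry⟩ := hw.ne hy ha
  have ne : x ≠ y := fun e => by rw [e, ry] at rx; exact Bool.false_ne_true rx
  have vy := hw.zero hy (i := y) (Or.inl ry)
  have vx := hw.zero hx (i := x) (Or.inr rx)
  have by' := hw.bits vy
  have bx := hw.bits vx
  have s1 : ∀ k, (colP C.P y).testBit k = true → k % 32 = 0 := fun k h => by
    rw [testBit_colP, Bool.and_eq_true, decide_eq_true_iff] at h; exact h.1.1
  have s2 : ∀ k, (colP C.M y ||| bit (32 * y)).testBit k = true → k % 32 = 0 := fun k h => by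
    rw [Nat.testBit_or, testBit_colP, testBit_bit, Bool.or_eq_true, Bool.and_eq_true,
      decide_eq_true_iff, decide_eq_true_iff] at h
    omega
  have s3 : rowP C.P x ||| bit x < 2 ^ 32 := Nat.lt_pow_two_of_testBit _ fun k hk => by
    rw [Nat.testBit_or, testBit_rowP, testBit_bit, decide_eq_false (by omega),
      decide_eq_false (by omega)]
    rfl
  have s4 : rowP C.M x < 2 ^ 32 := Nat.lt_pow_two_of_testBit _ fun k hk => by
    rw [testBit_rowP, decide_eq_false (by omega)]
    rfl
  have d1 : colP C.P y &&& (colP C.M y ||| bit (32 * y)) = 0 := ck_disj.2 fun k => by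
    rw [Nat.testBit_or, testBit_colP, testBit_colP, testBit_bit]
    by_cases e : 32 * y = k
    · subst e; simp [by'.1]
    · have := ck_disj.1 hw.2.2.1 (k + y)
      revert this
      cases C.P.testBit (k + y) <;> cases C.M.testBit (k + y) <;> simp [e]
  have d2 : (rowP C.P x ||| bit x) &&& rowP C.M x = 0 := ck_disj.2 fun k => by
    rw [Nat.testBit_or, testBit_rowP, testBit_rowP, testBit_bit]
    by_cases e : x = k
    · subst e; simp [bx.2]
    · have := ck_disj.1 hw.2.2.1 (32 * x + k)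
      revert this
      cases C.P.testBit (32 * x + k) <;> cases C.M.testBit (32 * x + k) <;> simp [e]
  have u2 : ∀ i, val (colP C.P y) (colP C.M y ||| bit (32 * y)) (32 * i) =
      val C.P C.M (32 * i + y) - if i = y then 1 else 0 := fun i => by
    simp only [val, Nat.testBit_or, (hw.col hy i).1, (hw.col hy i).2, testBit_bit]
    by_cases e : i = y
    · subst e; simp [by'.1, by'.2]
    · simp [e, Ne.symm e]
  have v2 : ∀ j, j < 32 → val (rowP C.P x ||| bit x) (rowP C.M x) j =
      val C.P C.M (32 * x + j) + if j = x then 1 else 0 := fun j hj => by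
    simp only [val, Nat.testBit_or, testBit_rowP, testBit_bit]
    by_cases e : j = x
    · subst e; simp [bx.1, bx.2]
    · simp [e, Ne.symm e, hj]
  obtain ⟨d, hv⟩ := ckb_outer s1 s2 s3 s4 d1 d2
  have hs : tb (rowP C.P x) y = C.P.testBit (32 * x + y) := by
    rw [tb_eq, testBit_rowP, decide_eq_true hy, Bool.true_and]
  have e33 : ∀ t, 33 * t = 32 * t + t := fun t => by omega
  have cond : ∀ i j, j < 32 → ((32 * i + j = 33 * y ∨ 32 * i + j = 33 * x) ↔
      ((i = y ∧ j = y) ∨ (i = x ∧ j = x))) := fun i j hj => by omega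
  unfold piv pivW pivV
  rw [hs]
  cases e : C.P.testBit (32 * x + y)
  · have a : val C.P C.M (32 * x + y) = -1 := by
      revert ha
      simp only [val, e]
      cases C.M.testBit (32 * x + y) <;> decide
    have k := pivK_val hw (x := x) (y := y) d
      (by rw [e33, hv y y hy, u2, v2 y hy, vy, a, if_pos rfl, if_neg ne.symm]; decide)
      (by rw [e33, hv x x hx, u2, v2 x hx, vx, a, if_pos rfl, if_neg ne]; decide)
    refine ⟨k.1, fun i j hj => (k.2 _).trans ?_⟩
    rw [hv i j hj, u2, v2 j hj, a]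
    refine if_congr (cond i j hj) rfl (by ring)
  · have a : val C.P C.M (32 * x + y) = 1 := by simp only [val, e, if_true]
    have d' := (Nat.and_comm _ _).trans d
    have k := pivK_val hw (x := x) (y := y) d'
      (by rw [e33, val_swap d, hv y y hy, u2, v2 y hy, vy, a, if_pos rfl, if_neg ne.symm]; decide)
      (by rw [e33, val_swap d, hv x x hx, u2, v2 x hx, vx, a, if_pos rfl, if_neg ne]; decide)
    refine ⟨k.1, fun i j hj => (k.2 _).trans ?_⟩
    rw [val_swap d, hv i j hj, u2, v2 j hj, a]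
    refine if_congr (cond i j hj) rfl (by ring)

theorem piv_rm_bit (C : CD) {x y : ℕ} (ne : x ≠ y) (i : ℕ) : (C.piv x y).rm.testBit i =
    if i = x ∨ i = y then !C.rm.testBit i else C.rm.testBit i := by
  rw [piv_rm, Nat.testBit_xor, Nat.testBit_or, testBit_bit, testBit_bit]
  by_cases e1 : i = x
  · subst e1; simp
  · by_cases e2 : i = y
    · subst e2; simp
    · simp [e1, e2, Ne.symm e1, Ne.symm e2]

theorem piv_wf (hw : C.WF) {x y : ℕ} (hx : x < 32) (hy : y < 32)
    (ha : val C.P C.M (32 * x + y) ≠ 0) : (C.piv x y).WF := by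
  obtain ⟨rx, zy, ry⟩ := hw.ne hy ha
  have ne : x ≠ y := fun e => by rw [e, ry] at rx; exact Bool.false_ne_true rx
  have sq : ∀ a : F3, a ≠ 0 → a * a = 1 := by decide
  have aa := sq _ ha
  obtain ⟨d, hv⟩ := piv_val hw hx hy ha
  refine ⟨by rw [piv_zm]; exact hw.1, Nat.eq_of_testBit_eq fun i => ?_, d, fun k hk => ?_⟩
  · rw [Nat.testBit_and, piv_zm]
    cases e : (C.piv x y).rm.testBit i
    · rfl
    · rw [piv_rm_bit C ne] at e
      by_cases e1 : i = x
      · rw [e1, hw.zm_of_rm rx]; rfl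
      · by_cases e2 : i = y
        · rw [e2, zy]; rfl
        · rw [if_neg (by tauto)] at e
          rw [hw.zm_of_rm e]; rfl
  · have hj : k % 32 < 32 := Nat.mod_lt _ (by norm_num)
    have h0 := val_ne_zero.2 hk
    rw [← Nat.div_add_mod k 32, hv _ _ hj] at h0
    generalize k / 32 = i at h0 ⊢
    generalize k % 32 = j at h0 hj ⊢
    have c0 : ¬ ((i = y ∧ j = y) ∨ (i = x ∧ j = x)) := fun c => h0 (if_pos c)
    rw [if_neg c0] at h0
    have ix : i ≠ x := by
      rintro rfl
      have jx : j ≠ i := fun e => c0 (Or.inr ⟨rfl, e⟩)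
      rw [if_neg ne, if_neg jx, sub_zero, add_zero, aa, one_mul, sub_self] at h0
      exact h0 rfl
    have jy : j ≠ y := by
      rintro rfl
      have iy : i ≠ j := fun e => c0 (Or.inl ⟨e, rfl⟩)
      rw [if_neg iy, if_neg ne.symm, sub_zero, add_zero, mul_right_comm, aa, one_mul,
        sub_self] at h0
      exact h0 rfl
    have r1 : ∀ t, t < 32 → val C.P C.M (32 * i + t) ≠ 0 → (C.piv x y).rm.testBit i = true :=
      fun t ht h => by
        have k := (hw.ne ht h).1
        have iy : i ≠ y := fun e => by rw [e, ry] at k; exact Bool.false_ne_true k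
        rw [piv_rm_bit C ne, if_neg (by tauto), k]
    have r2 : ∀ t, val C.P C.M (32 * t + j) ≠ 0 →
        (C.piv x y).zm.testBit j = true ∧ (C.piv x y).rm.testBit j = false := fun t h => by
      have k := (hw.ne hj h).2
      have jx : j ≠ x := fun e => by rw [e, rx] at k; exact Bool.false_ne_true k.2.symm
      rw [piv_zm, piv_rm_bit C ne, if_neg (by tauto)]
      exact k
    by_cases z : val C.P C.M (32 * i + j) = 0
    · rw [z, zero_sub, neg_ne_zero, mul_ne_zero_iff, mul_ne_zero_iff] at h0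
      obtain ⟨⟨-, h1⟩, h2⟩ := h0
      refine ⟨?_, ?_⟩
      · by_cases iy : i = y
        · rw [piv_rm_bit C ne, if_pos (Or.inr iy), iy, ry]; rfl
        · rw [if_neg iy, sub_zero] at h1
          exact r1 y hy h1
      · by_cases jx : j = x
        · rw [piv_zm, piv_rm_bit C ne, if_pos (Or.inl jx), jx, rx, hw.zm_of_rm rx]
          exact ⟨rfl, rfl⟩
        · rw [if_neg jx, add_zero] at h2
          exact r2 x h2
    · exact ⟨r1 j hj z, r2 i z⟩

theorem Rep.piv (h : Rep C D) {U x y : ℕ} (hx : x < 32) (hy : y < 32)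
    (ok : C.pivOK U x y = true) : x ∈ D.Z ∧ y ∈ D.Z ∧ D.row x = true ∧ D.row y = false ∧
      D.S x y ≠ 0 ∧ x ∈ fs U ∧ y ∈ fs U ∧ Rep (C.piv x y) (D.pivot x y) := by
  obtain ⟨o1, o2⟩ := andB_iff.1 ok
  obtain ⟨o2, o3⟩ := andB_iff.1 o2
  rw [tb_eq] at o1 o2 o3
  have hw := h.1
  have ha : val C.P C.M (32 * x + y) ≠ 0 := by
    have e : (rowP C.P x ||| rowP C.M x).testBit y = true := o1
    rw [Nat.testBit_or, testBit_rowP, testBit_rowP, decide_eq_true hy, Bool.true_and,
      Bool.true_and, ← Nat.testBit_or] at e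
    exact val_ne_zero.2 e
  obtain ⟨rx, zy, ry⟩ := hw.ne hy ha
  have ne : x ≠ y := fun e => by rw [e, ry] at rx; exact Bool.false_ne_true rx
  obtain ⟨mx, dx⟩ := h.mem_of_rm rx
  have my : y ∈ D.Z := h.mem.2 zy
  have dy : D.row y = false := (h.row my).trans ry
  have sxy : D.S x y = val C.P C.M (32 * x + y) := h.ent mx my dx
  have hS : D.S x y ≠ 0 := sxy ▸ ha
  have sq : ∀ a : F3, a ≠ 0 → a * a = 1 := by decide
  have iv : ∀ a : F3, a ≠ 0 → a⁻¹ = a := fun a k => inv_eq_of_mul_eq_one_left (sq a k)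
  refine ⟨mx, my, dx, dy, hS, mem_fs.2 ⟨hx, o2⟩, mem_fs.2 ⟨hy, o3⟩,
    rep_of (piv_wf hw hx hy ha) (fun i => ?_) (fun i hi => ?_) fun i hi j hj ri rj => ?_⟩
  · rw [pivot_Z, piv_zm]; exact h.mem
  · rw [pivot_Z] at hi
    rw [pivot_row hS, piv_rm_bit C ne, h.row hi]
  · rw [pivot_Z] at hi hj
    rw [pivot_row hS] at ri rj
    have hj' : j < 32 := (h.lt hj).trans (by norm_num)
    have ix : i ≠ x := by
      rintro rfl
      rw [if_pos (Or.inl rfl), dx] at ri
      exact Bool.false_ne_true ri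
    have jy : j ≠ y := by
      rintro rfl
      rw [if_pos (Or.inr rfl), dy] at rj
      exact Bool.false_ne_true rj.symm
    rw [(piv_val hw hx hy ha).2 i j hj', if_neg (by tauto), pivot_S hS, ← sxy,
      ← h.ent mx hj dx]
    unfold pS
    rw [if_neg ix]
    by_cases iy : i = y
    · subst iy
      rw [if_pos rfl, if_pos rfl, hw.zero hj' (Or.inl ry), hw.zero hy (Or.inl ry)]
      by_cases jx : j = x
      · subst jx
        rw [if_pos rfl, if_pos rfl, D.bip j j rfl, D.skew i j, neg_div_neg_eq, one_div, iv _ hS]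
        ring
      · rw [if_neg jx, if_neg jx, if_neg jy, div_eq_mul_inv, iv _ hS]
        ring
    · rw [if_neg (by tauto)] at ri
      rw [if_neg iy, if_neg iy, ← h.ent hi hj ri, ← h.ent hi my ri]
      by_cases jx : j = x
      · subst jx
        rw [if_pos rfl, if_pos rfl, D.bip j j rfl, D.bip i j (ri.trans dx.symm), D.skew y i,
          D.skew y j, neg_div_neg_eq, div_eq_mul_inv, iv _ hS]
        ring
      · rw [if_neg jx, if_neg jx, if_neg jy, D.bip i x (ri.trans dx.symm), div_eq_mul_inv,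
          iv _ hS]
        ring

theorem pivs_sound {U n N : ℕ} {k : CD → ℕ → Bool} (h : Rep C D) (ok : pivs U n k C N = true) :
    ∃ E D' N', ReachIn (fs U ∩ D.Z) D D' ∧ Rep E D' ∧ E.zm = C.zm ∧ N' = N >>> (10 * n) ∧
      k E N' = true := by
  induction n generalizing C D N with
  | zero => exact ⟨C, D, N, ReachIn.refl _ _, h, rfl, rfl, ok⟩
  | succ n ih =>
    obtain ⟨o1, o2⟩ := andB_iff.1 ok
    have lt : ∀ c, Nat.land c 31 < 32 := fun c => by
      rw [ckb_land31]; exact Nat.mod_lt _ (by norm_num)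
    obtain ⟨mx, my, -, -, -, ux, uy, r⟩ := h.piv (lt _) (lt _) o1
    obtain ⟨E, D', N', k1, k2, k3, k4, k5⟩ := ih r o2
    rw [pivot_Z] at k1
    refine ⟨E, D', N', (ReachIn.single (mem_inter.2 ⟨ux, mx⟩) (mem_inter.2 ⟨uy, my⟩)).trans k1,
      k2, k3.trans (piv_zm _ _ _), k4.trans ?_, k5⟩
    rw [show 10 * (n + 1) = 10 + 10 * n by omega, Nat.shiftRight_add]
    rfl

/-- a free label is used only once. -/
theorem free_step {φ : ℕ → ℕ} {A0 A i : ℕ} {Q : ℕ → Prop} (h0 : A0.testBit i = true)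
    (h : A.testBit (φ i) = true) (q : Q i)
    (k1 : ∀ t, (Nat.xor A0 (bit i)).testBit t = true →
      (Nat.xor A (bit (φ i))).testBit (φ t) = true ∧ Q t)
    (k2 : ∀ t t', (Nat.xor A0 (bit i)).testBit t = true → (Nat.xor A0 (bit i)).testBit t' = true →
      φ t = φ t' → t = t') :
    (∀ t, A0.testBit t = true → A.testBit (φ t) = true ∧ Q t) ∧
      ∀ t t', A0.testBit t = true → A0.testBit t' = true → φ t = φ t' → t = t' := by
  have a : ∀ t, A0.testBit t = true → t ≠ i → (Nat.xor A0 (bit i)).testBit t = true :=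
    fun t ht e => by rw [ckb_xor_bit, ht, decide_eq_false (Ne.symm e)]; rfl
  have b : ∀ t, A0.testBit t = true → t ≠ i → φ i ≠ φ t := fun t ht e e' => by
    have := (k1 t (a t ht e)).1
    rw [ckb_xor_bit, ← e', h, decide_eq_true rfl] at this
    exact Bool.false_ne_true this
  refine ⟨fun t ht => ?_, fun t t' ht ht' e => ?_⟩
  · by_cases e : t = i
    · rw [e]; exact ⟨h, q⟩
    · have := k1 t (a t ht e)
      rw [ckb_xor_bit, decide_eq_false (b t ht e), Bool.xor_false] at this
      exact this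
  · by_cases e1 : t = i
    · by_contra n
      exact b t' ht' (fun e2 => n (e1.trans e2.symm)) (e1 ▸ e)
    · by_cases e2 : t' = i
      · exact absurd (e2 ▸ e.symm) (b t ht e1)
      · exact k2 t t' (a t ht e1) (a t' ht' e2) e

theorem embR_sound {T : CD} (hT : T.P &&& T.M = 0) {F P M : ℕ} {l : RL} {A0 A : ℕ}
    (h : RL.ok T l A0 = true) (ok : embR F P M l A = true) :
    (∀ t, A0.testBit t = true → A.testBit (phi F t) = true ∧
      ∀ j, j < 32 → val P M (32 * phi F t + j) = eps F t * val T.P T.M (32 * t + j)) ∧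
      ∀ t t', A0.testBit t = true → A0.testBit t' = true → phi F t = phi F t' → t = t' := by
  induction l generalizing A0 A with
  | nil =>
    have e : A0 = 0 := Nat.eq_of_beq_eq_true h
    subst e
    exact ⟨fun t ht => absurd ht (by simp), fun t _ ht => absurd ht (by simp)⟩
  | cons i p m l ih =>
    obtain ⟨h1, h2⟩ := andB_iff.1 h
    obtain ⟨h2, h3⟩ := andB_iff.1 h2
    obtain ⟨h3, h4⟩ := andB_iff.1 h3
    obtain ⟨o1, o2⟩ := andB_iff.1 ok
    obtain ⟨o2, o3⟩ := andB_iff.1 o2
    rw [ckb_phi] at o1 o3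
    rw [tb_eq] at h1 o1
    have ep : rowP T.P i = p := Nat.eq_of_beq_eq_true h2
    have em : rowP T.M i = m := Nat.eq_of_beq_eq_true h3
    obtain ⟨k1, k2⟩ := ih h4 o3
    refine free_step (φ := phi F) h1 o1 (fun j hj => ?_) k1 k2
    have bt : ∀ {X Y a b : ℕ}, rowP X a = rowP Y b →
        X.testBit (32 * a + j) = Y.testBit (32 * b + j) := fun {X Y a b} e => by
      have := congrArg (fun z => z.testBit j) e
      simpa only [testBit_rowP, decide_eq_true hj, Bool.true_and] using this
    unfold embR1 at o2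
    rw [ckb_phi, ckb_sgn, ← ep, ← em] at o2
    unfold eps
    cases s : F.testBit (6 * i + 5)
    · rw [s] at o2
      obtain ⟨a, b⟩ := andB_iff.1 o2
      simp only [val, bt (Nat.eq_of_beq_eq_true a), bt (Nat.eq_of_beq_eq_true b)]
      simp
    · rw [s] at o2
      obtain ⟨a, b⟩ := andB_iff.1 o2
      rw [if_pos rfl, neg_one_mul, ← val_swap hT]
      simp only [val, bt (Nat.eq_of_beq_eq_true a), bt (Nat.eq_of_beq_eq_true b)]

theorem shl_bit {Q c j0 : ℕ} (h0 : j0 < 32) (P i : ℕ) {j : ℕ} (hj : j < 32) :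
    (Nat.lor P (Nat.shiftLeft (colP Q c) j0)).testBit (32 * i + j) =
      (P.testBit (32 * i + j) || (decide (j0 = j) && (colP Q c).testBit (32 * i))) := by
  change (P ||| (colP Q c <<< j0)).testBit _ = _
  rw [Nat.testBit_or, Nat.testBit_shiftLeft]
  by_cases e : j0 = j
  · subst e
    simp
  · rw [decide_eq_false e, Bool.false_and, testBit_colP]
    by_cases g : 32 * i + j ≥ j0
    · rw [decide_eq_false (p := (32 * i + j - j0) % 32 = 0 ∧ _) (by omega)]
      simp
    · simp [g]

theorem embC_sound (C : CD) {F : ℕ} {k : ℕ → ℕ → Bool} {l : List ℕ} {A0 A P M : ℕ}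
    (h : colsOK l A0 = true) (lt : ∀ j, A0.testBit j = true → j < 32)
    (ok : embC C F k l A P M = true) :
    ((∀ t, A0.testBit t = true → A.testBit (phi F t) = true ∧ True) ∧
      ∀ t t', A0.testBit t = true → A0.testBit t' = true → phi F t = phi F t' → t = t') ∧
    ∃ P' M', k P' M' = true ∧ ∀ i j, j < 32 →
      P'.testBit (32 * i + j) = (P.testBit (32 * i + j) || (A0.testBit j &&
        (colP (if F.testBit (6 * j + 5) then C.M else C.P) (phi F j)).testBit (32 * i))) ∧
      M'.testBit (32 * i + j) = (M.testBit (32 * i + j) || (A0.testBit j &&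
        (colP (if F.testBit (6 * j + 5) then C.P else C.M) (phi F j)).testBit (32 * i))) := by
  induction l generalizing A0 A P M with
  | nil =>
    have e : A0 = 0 := Nat.eq_of_beq_eq_true h
    subst e
    exact ⟨⟨fun t ht => absurd ht (by simp), fun t _ ht => absurd ht (by simp)⟩, P, M, ok,
      fun i j _ => by simp⟩
  | cons j0 l ih =>
    obtain ⟨h1, h2⟩ := andB_iff.1 h
    obtain ⟨o1, o2⟩ := andB_iff.1 ok
    rw [ckb_phi] at o1 o2
    rw [tb_eq] at h1 o1
    rw [ckb_sgn] at o2
    have l0 := lt j0 h1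
    have lt' : ∀ j, (Nat.xor A0 (bit j0)).testBit j = true → j < 32 := fun j hj => by
      by_cases e : j0 = j
      · exact e ▸ l0
      · rw [ckb_xor_bit, decide_eq_false e, Bool.xor_false] at hj
        exact lt j hj
    have o3 : embC C F k l (Nat.xor A (bit (phi F j0)))
        (Nat.lor P (Nat.shiftLeft (colP (if F.testBit (6 * j0 + 5) then C.M else C.P)
          (phi F j0)) j0))
        (Nat.lor M (Nat.shiftLeft (colP (if F.testBit (6 * j0 + 5) then C.P else C.M)
          (phi F j0)) j0)) = true := by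
      revert o2
      cases F.testBit (6 * j0 + 5) <;> exact id
    obtain ⟨⟨k1, k2⟩, P', M', k3, k4⟩ := ih h2 lt' o3
    refine ⟨free_step (φ := phi F) h1 o1 trivial k1 k2, P', M', k3, fun i j hj => ?_⟩
    rw [(k4 i j hj).1, (k4 i j hj).2, shl_bit l0 _ _ hj, shl_bit l0 _ _ hj, ckb_xor_bit]
    by_cases e : j0 = j
    · subst e
      simp [h1]
    · simp [e]

theorem emb_sound {T : Tg} {F : ℕ} (hT : T.ok = true) (h : Rep C D) (ok : emb T C F = true) :
    Emb T.C.toDisp D (phi F) (eps F) := by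
  obtain ⟨t1, t2⟩ := andB_iff.1 hT
  obtain ⟨t2, t3⟩ := andB_iff.1 t2
  have tw := wf_of t1
  have tr := rep_self tw
  have hw := h.1
  have cs : ∀ j, (Nat.xor T.C.zm T.C.rm).testBit j = true ↔
      j ∈ T.C.toDisp.Z ∧ T.C.toDisp.row j ≠ true := tr.side true
  have ds : ∀ j, (Nat.xor C.zm C.rm).testBit j = true ↔ j ∈ D.Z ∧ D.row j ≠ true := h.side true
  obtain ⟨⟨c1, c2⟩, P', M', c3, c4⟩ := embC_sound C t3
    (fun j hj => (tr.lt ((cs j).1 hj).1).trans (by norm_num)) ok
  obtain ⟨r1, r2⟩ := embR_sound tw.2.2.1 t2 c3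
  have rw' : ∀ i, T.C.toDisp.row i = true → phi F i ∈ D.Z ∧ D.row (phi F i) = true :=
    fun i hi => h.mem_of_rm (r1 i hi).1
  have cl : ∀ i ∈ T.C.toDisp.Z, T.C.toDisp.row i = false →
      phi F i ∈ D.Z ∧ D.row (phi F i) = false := fun i hi e => by
    have k := (ds _).1 (c1 i ((cs i).2 ⟨hi, by simp [e]⟩)).1
    exact ⟨k.1, by simpa using k.2⟩
  have row : ∀ i ∈ T.C.toDisp.Z, D.row (phi F i) = T.C.toDisp.row i := fun i hi => by
    cases e : T.C.toDisp.row i
    exacts [(cl i hi e).2, (rw' i e).2]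
  have sq : ∀ i, eps F i * eps F i = 1 := fun i => by
    unfold eps
    split_ifs <;> decide
  have rc : ∀ i ∈ T.C.toDisp.Z, ∀ j ∈ T.C.toDisp.Z, T.C.toDisp.row i = true →
      T.C.toDisp.row j = false →
      D.S (phi F i) (phi F j) = eps F i * eps F j * T.C.toDisp.S i j := fun i hi j hj ei ej => by
    have hj' : j < 32 := (tr.lt hj).trans (by norm_num)
    have a := (r1 i ei).2 j hj'
    have b := c4 (phi F i) j hj'
    rw [(cs j).2 ⟨hj, by simp [ej]⟩] at b
    simp only [Nat.zero_testBit, Bool.false_or, Bool.true_and] at b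
    have col := hw.col (ckb_phi_lt F j) (phi F i)
    have c : val P' M' (32 * phi F i + j) = eps F j * val C.P C.M (32 * phi F i + phi F j) := by
      unfold eps
      cases s : F.testBit (6 * j + 5)
      · rw [s] at b
        simp only [Bool.false_eq_true, if_false] at b
        simp only [val, b.1, b.2, col.1, col.2]
        simp
      · rw [s] at b
        simp only [if_true] at b
        rw [if_pos rfl, neg_one_mul, ← val_swap hw.2.2.1]
        simp only [val, b.1, b.2, col.1, col.2]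
    rw [h.ent (rw' i ei).1 (cl j hj ej).1 (rw' i ei).2, tr.ent hi hj ei]
    linear_combination eps F j * a - eps F j * c -
      val C.P C.M (32 * phi F i + phi F j) * sq j
  refine ⟨fun i hi j hj e => ?_, fun i hi => ?_, row, fun i _ => sq i, fun i hi j hj => ?_⟩
  · have e' : T.C.toDisp.row i = T.C.toDisp.row j := by rw [← row i hi, ← row j hj, e]
    cases ei : T.C.toDisp.row i
    · exact c2 i j ((cs i).2 ⟨hi, by simp [ei]⟩) ((cs j).2 ⟨hj, by simp [← e', ei]⟩) e
    · exact r2 i j ei (e' ▸ ei :) e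
  · cases e : T.C.toDisp.row i
    exacts [(cl i hi e).1, (rw' i e).1]
  · by_cases e : T.C.toDisp.row i = T.C.toDisp.row j
    · rw [D.bip _ _ (by rw [row i hi, row j hj, e]), T.C.toDisp.bip _ _ e, mul_zero]
    · cases ei : T.C.toDisp.row i
      · have ej : T.C.toDisp.row j = true := by simpa [ei] using e
        rw [D.skew, rc j hj i hi ej ei, T.C.toDisp.skew i j]
        ring
      · exact rc i hi j hj ei (by simpa [ei] using e)

theorem mnr_emb {T : Tg} {N : ℕ} (hT : T.ok = true) (h : Rep C D) (ok : mnr T C N = true) :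
    ∃ E F, D.Reach E ∧ F = N >>> (4 + 10 * (N % 16)) ∧ Emb T.C.toDisp E (phi F) (eps F) := by
  obtain ⟨E, D', F, k1, k2, -, k4, k5⟩ := pivs_sound h ok
  refine ⟨D', F, k1.reach inter_subset_right, k4.trans ?_, emb_sound hT k2 k5⟩
  rw [ckb_land15, Nat.shiftRight_add]
  rfl

theorem mnr_sound {T : Tg} {N : ℕ} (hT : T.ok = true) (h : Rep C D) (ok : mnr T C N = true) :
    Minor T.C.toDisp D := by
  obtain ⟨E, F, k1, -, k2⟩ := mnr_emb hT h ok
  exact ⟨E, _, _, k1, k2⟩

end CD

theorem Tg.wf {T : Tg} (h : T.ok = true) : T.C.WF := CD.wf_of (andB_iff.1 h).1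

theorem Tg.rep {T : Tg} (h : T.ok = true) : T.C.Rep T.C.toDisp := CD.rep_self (Tg.wf h)

theorem Tb.get_ok {t : Tb} (h : t.ok = true) (k : ℕ) : (t.get k).ok = true := by
  induction t generalizing k with
  | leaf T => exact h
  | node l r ihl ihr =>
    obtain ⟨h1, h2⟩ := andB_iff.1 h
    change (cnd (Nat.beq (Nat.land k 1) 1) (r.get (Nat.shiftRight k 1))
      (l.get (Nat.shiftRight k 1))).ok = true
    cases Nat.beq (Nat.land k 1) 1
    exacts [ihl h1 _, ihr h2 _]

theorem bad_sound {t : Tb} {b N : ℕ} {C : CD} {D : Disp F3} (ht : t.ok = true) (h : C.Rep D)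
    (ok : CD.bad t b C N = true) : BadT t b D := by
  obtain ⟨o1, o2⟩ := andB_iff.1 ok
  exact ⟨_, Nat.blt_eq.mp o1, CD.mnr_sound (Tb.get_ok ht _) h o2⟩

theorem BadT.minor {t : Tb} {b : ℕ} (G D : Disp F3) (hm : Minor G D) (h : BadT t b G) :
    BadT t b D := by
  obtain ⟨k, hk, m⟩ := h
  exact ⟨k, hk, m.trans hm⟩

theorem BadT.mono {t : Tb} {b b' : ℕ} {G : Disp F3} (h : BadT t b G) (hb : b ≤ b') :
    BadT t b' G := by
  obtain ⟨k, hk, m⟩ := h
  exact ⟨k, hk.trans_le hb, m⟩

/-- the table of the duals. -/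
theorem BadT.flip {t t' : Tb} {b : ℕ} (ht : t.ok = true)
    (h : allLt b (fun k => CD.eqB (t.get k).C.flp (t'.get k).C) = true) {G : Disp F3}
    (hb : BadT t' b G) : BadT t b G.flip := by
  obtain ⟨k, hk, m⟩ := hb
  rw [← CD.eq_of_eqB (allLt_iff.1 h k hk)] at m
  have := ((Tg.rep (Tb.get_ok ht k)).flp.2.minor.trans m).flip
  rw [Disp.flip_flip] at this
  exact ⟨k, hk, this⟩

end Pool.Agent.Lib.MP_c69b6d_co.F
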