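import Pool.Agent.Lib.MP_c69b6d_co.F.Defs2

/-! Packed operations on concrete displays (definitions). -/

namespace Pool.Agent.Lib.MP_c69b6d_co.F

open Finset Disp

/-- the sum of `2 ^ (32 * i)` for `i < 32`. -/
def cD : ℕ := 0x100000001000000010000000100000001000000010000000100000001000000010000000100000001000000010000000100000001000000010000000100000001000000010000000100000001000000010000000100000001000000010000000100000001000000010000000100000001000000010000000100000001

def cF : ℕ := 0xffffffff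

/-- conditional. -/
noncomputable def cnd {α : Type} (b : Bool) (x y : α) : α := Bool.rec (motive := fun _ => α) y x b

noncomputable def andB (a b : Bool) : Bool := Bool.rec (motive := fun _ => Bool) false b a

noncomputable def orB (a b : Bool) : Bool := Bool.rec (motive := fun _ => Bool) b true a

/-- `2 ^ i`. -/
def bit (i : ℕ) : ℕ := Nat.shiftLeft 1 i

/-- bit test. -/
def tb (x i : ℕ) : Bool := Nat.beq (Nat.land (Nat.shiftRight x i) 1) 1

/-- column `j` of a plane, spread at the positions `32 * i`. -/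
def colP (P j : ℕ) : ℕ := Nat.land (Nat.shiftRight P j) cD

/-- row `i` of a plane. -/
def rowP (P i : ℕ) : ℕ := Nat.land (Nat.shiftRight P (Nat.mul 32 i)) cF

/-- the two planes of a sum over `F3`. -/
def addP (xl xh yl yh : ℕ) : ℕ :=
  Nat.xor (Nat.xor (Nat.lor xl yh) (Nat.lor xh yl)) (Nat.lor xh yh)

def addM (xl xh yl yh : ℕ) : ℕ :=
  Nat.xor (Nat.xor (Nat.lor xl yh) (Nat.lor xh yl)) (Nat.lor xl yl)

/-- the entry of a vector given by two planes. -/
def val (p m i : ℕ) : F3 := if p.testBit i then 1 else if m.testBit i then -1 else 0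

/-- the finite set of a mask. -/
def fs (U : ℕ) : Finset ℕ := (range 32).filter (fun i => U.testBit i)

/-- the sum of `2 ^ (31 * i)` for `i < 31`. -/
def cS : ℕ := 0x40000000800000010000000200000004000000080000001000000020000000400000008000000100000002000000040000000800000010000000200000004000000080000001000000020000000400000008000000100000002000000040000000800000010000000200000004000000080000001

/-- spread the bits of `p < 2 ^ 31` to the positions `32 * i`. -/
def spr (p : ℕ) : ℕ := Nat.land (Nat.mul p cS) cD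

/-- collect the bits at the positions `32 * i`, `i < 31`. -/
def cmp (q : ℕ) : ℕ := Nat.land (Nat.shiftRight (Nat.mul q cS) 930) 0x7fffffff

/-- the planes of a packed vector. -/
def vp (u : ℕ) : ℕ := Nat.land u cF

def vm (u : ℕ) : ℕ := Nat.shiftRight u 32

/-- a packed vector `p + 2 ^ 32 * m`. -/
def vec (u : ℕ) : ℕ → F3 := fun i => val (vp u) (vm u) i

def vmk (p m : ℕ) : ℕ := Nat.lor p (Nat.shiftLeft m 32)

def vneg (u : ℕ) : ℕ := vmk (vm u) (vp u)

def vadd (u w : ℕ) : ℕ := vmk (addP (vp u) (vm u) (vp w) (vm w)) (addM (vp u) (vm u) (vp w) (vm w))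

/-- a packed vector is well formed and supported on the mask `K`. -/
def VOn (K u : ℕ) : Prop :=
  vp u &&& vm u = 0 ∧ ∀ i, (vp u ||| vm u).testBit i = true → i < 32 ∧ K.testBit i = true

noncomputable def vonB (K u : ℕ) : Bool :=
  andB (Nat.beq (Nat.land (vp u) (vm u)) 0)
    (Nat.beq (Nat.land (Nat.lor (vp u) (vm u)) (Nat.land K cF)) (Nat.lor (vp u) (vm u)))

/-- the part of `u` on the mask `K`. -/
def vres (K u : ℕ) : ℕ := vmk (Nat.land (vp u) K) (Nat.land (vm u) K)

/-- the multiple of `u` by `c` (`0`, `1` or `2`). -/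
noncomputable def vsm (c u : ℕ) : ℕ := cnd (Nat.beq c 1) u (cnd (Nat.beq c 2) (vneg u) 0)

/-- `u = w` or `u = -w`. -/
noncomputable def pmEq (u w : ℕ) : Bool := orB (Nat.beq u w) (Nat.beq u (vneg w))

/-- lists of rows of a target: label and the two planes. -/
inductive RL : Type
  | nil : RL
  | cons : ℕ → ℕ → ℕ → RL → RL

/-- a target: a display with the list of its columns and the list of its rows. -/
structure Tg where
  C : CD
  cols : List ℕ
  rows : RL

/-- a table of targets. -/
inductive Tb : Type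
  | leaf : Tg → Tb
  | node : Tb → Tb → Tb

noncomputable def Tb.get (t : Tb) : ℕ → Tg :=
  Tb.rec (motive := fun _ => ℕ → Tg) (fun T _ => T)
    (fun _ _ l r k => cnd (Nat.beq (Nat.land k 1) 1) (r (Nat.shiftRight k 1)) (l (Nat.shiftRight k 1))) t

/-- the map and the signs coded by `F`. -/
def phi (F : ℕ) : ℕ → ℕ := fun i => (F >>> (6 * i)) % 32

def eps (F : ℕ) : ℕ → F3 := fun i => if F.testBit (6 * i + 5) then -1 else 1

/-- all `i < n`. -/
noncomputable def allLt (n : ℕ) (f : ℕ → Bool) : Bool :=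
  Nat.rec (motive := fun _ => Bool) true (fun i r => andB (f i) r) n

noncomputable def allL (l : List ℕ) (f : ℕ → Bool) : Bool :=
  List.rec (motive := fun _ => Bool) true (fun i _ r => andB (f i) r) l

noncomputable def anyL (l : List ℕ) (f : ℕ → Bool) : Bool :=
  List.rec (motive := fun _ => Bool) false (fun i _ r => orB (f i) r) l

namespace CD

/-- the invariant of the packed form. -/
def WF (C : CD) : Prop :=
  C.zm < 2 ^ 31 ∧ C.rm &&& C.zm = C.rm ∧ C.P &&& C.M = 0 ∧
    ∀ k, (C.P ||| C.M).testBit k = true →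
      C.rm.testBit (k / 32) = true ∧ C.zm.testBit (k % 32) = true ∧ C.rm.testBit (k % 32) = false

noncomputable def wfB (C : CD) : Bool :=
  andB (Nat.beq (Nat.shiftRight C.zm 31) 0) (andB (Nat.beq (Nat.land C.rm C.zm) C.rm)
    (andB (Nat.beq (Nat.land C.P C.M) 0)
      (Nat.beq (Nat.land (Nat.lor C.P C.M) (Nat.mul (spr C.rm) (Nat.xor C.zm C.rm)))
        (Nat.lor C.P C.M))))

/-- `C` represents `D`. -/
def Rep (C : CD) (D : Disp F3) : Prop := C.WF ∧ Same C.toDisp D

/-- the mask of the elements which are not on the side `r`. -/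
noncomputable def side (C : CD) (r : Bool) : ℕ := cnd r (Nat.xor C.zm C.rm) C.rm

noncomputable def eqB (C E : CD) : Bool :=
  andB (Nat.beq C.zm E.zm) (andB (Nat.beq C.rm E.rm) (andB (Nat.beq C.P E.P) (Nat.beq C.M E.M)))

def pivK (C : CD) (x y wp wm : ℕ) : CD :=
  ⟨C.zm, Nat.xor C.rm (Nat.lor (bit x) (bit y)),
    Nat.xor (addP C.P C.M wp wm) (bit (Nat.mul 33 y)),
    Nat.xor (addM C.P C.M wp wm) (bit (Nat.mul 33 x))⟩

noncomputable def pivV (C : CD) (x y a b : ℕ) (s : Bool) : CD :=
  cnd s (pivK C x y a b) (pivK C x y b a)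

noncomputable def pivW (C : CD) (x y cp cm rp rm : ℕ) (s : Bool) : CD :=
  pivV C x y (Nat.lor (Nat.mul cp rm) (Nat.mul cm rp)) (Nat.lor (Nat.mul cp rp) (Nat.mul cm rm)) s

/-- the pivot on the row `x` and the column `y`. -/
noncomputable def piv (C : CD) (x y : ℕ) : CD :=
  pivW C x y (colP C.P y) (Nat.lor (colP C.M y) (bit (Nat.mul 32 y)))
    (Nat.lor (rowP C.P x) (bit x)) (rowP C.M x) (tb (rowP C.P x) y)

/-- the pivot on `x, y` is admissible inside the mask `U`. -/
noncomputable def pivOK (C : CD) (U x y : ℕ) : Bool :=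
  andB (tb (Nat.lor (rowP C.P x) (rowP C.M x)) y) (andB (tb U x) (tb U y))

/-- perform `n` packed pivots inside `U` and continue with `k`. -/
noncomputable def pivs (U n : ℕ) (k : CD → ℕ → Bool) : CD → ℕ → Bool :=
  Nat.rec (motive := fun _ => CD → ℕ → Bool) k
    (fun _ r C N => andB (pivOK C U (Nat.land N 31) (Nat.land (Nat.shiftRight N 5) 31))
      (r (piv C (Nat.land N 31) (Nat.land (Nat.shiftRight N 5) 31)) (Nat.shiftRight N 10))) n

def resK (C : CD) (z r K : ℕ) : CD := ⟨z, r, Nat.land C.P K, Nat.land C.M K⟩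

/-- restriction to the mask `U`. -/
def res (C : CD) (U : ℕ) : CD :=
  resK C (Nat.land C.zm U) (Nat.land C.rm U)
    (Nat.mul (spr (Nat.land C.rm U)) (Nat.land C.zm U))

/-- a new column `n`. -/
def addC (C : CD) (n u : ℕ) : CD :=
  ⟨Nat.lor C.zm (bit n), C.rm, Nat.lor C.P (Nat.shiftLeft (spr (Nat.land (vp u) C.rm)) n),
    Nat.lor C.M (Nat.shiftLeft (spr (Nat.land (vm u) C.rm)) n)⟩

/-- a new row `n`. -/
def addR (C : CD) (n u : ℕ) : CD :=
  ⟨Nat.lor C.zm (bit n), Nat.lor C.rm (bit n),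
    Nat.lor C.P (Nat.shiftLeft (Nat.land (vm u) (Nat.xor C.zm C.rm)) (Nat.mul 32 n)),
    Nat.lor C.M (Nat.shiftLeft (Nat.land (vp u) (Nat.xor C.zm C.rm)) (Nat.mul 32 n))⟩

noncomputable def add (C : CD) (n : ℕ) (r : Bool) (u : ℕ) : CD := cnd r (addR C n u) (addC C n u)

/-- change the signs of the elements in the mask `E`. -/
def sclK (C : CD) (K : ℕ) : CD :=
  ⟨C.zm, C.rm, Nat.xor C.P (Nat.land (Nat.lor C.P C.M) K), Nat.xor C.M (Nat.land (Nat.lor C.P C.M) K)⟩

def scl (C : CD) (E : ℕ) : CD :=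
  sclK C (Nat.xor (Nat.mul (spr (Nat.land E C.zm)) cF) (Nat.mul cD (Nat.land E C.zm)))

/-- the packed vector `cpy L z r`. -/
noncomputable def cpyV (C : CD) (z : ℕ) (r : Bool) : ℕ :=
  cnd r (cnd (tb C.rm z) (vmk (rowP C.M z) (rowP C.P z)) (bit z))
    (cnd (tb C.rm z) (bit z) (vmk (cmp (colP C.P z)) (cmp (colP C.M z))))

/-- transposition of a plane. -/
noncomputable def trP (P : ℕ) : ℕ :=
  Nat.rec (motive := fun _ => ℕ) 0
    (fun j r => Nat.lor (Nat.shiftLeft (cmp (colP P j)) (Nat.mul 32 j)) r) 31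

/-- the dual display. -/
noncomputable def flp (C : CD) : CD := ⟨C.zm, Nat.xor C.zm C.rm, trP C.M, trP C.P⟩

/-- the entry `S i j` as a natural number. -/
def sN (C : CD) (i j : ℕ) : ℕ :=
  Nat.add (Nat.land (Nat.lor (Nat.shiftRight C.P (Nat.add (Nat.mul 32 i) j))
      (Nat.shiftRight C.M (Nat.add (Nat.mul 32 j) i))) 1)
    (Nat.mul 2 (Nat.land (Nat.lor (Nat.shiftRight C.M (Nat.add (Nat.mul 32 i) j))
      (Nat.shiftRight C.P (Nat.add (Nat.mul 32 j) i))) 1))

noncomputable def embR1 (P M p m c : ℕ) : Bool :=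
  cnd (tb c 5) (andB (Nat.beq (rowP P (Nat.land c 31)) m) (Nat.beq (rowP M (Nat.land c 31)) p))
    (andB (Nat.beq (rowP P (Nat.land c 31)) p) (Nat.beq (rowP M (Nat.land c 31)) m))

noncomputable def embR2 (P M p m c A : ℕ) (r : ℕ → Bool) : Bool :=
  andB (tb A (Nat.land c 31)) (andB (embR1 P M p m c) (r (Nat.xor A (bit (Nat.land c 31)))))

/-- compare the rows; `A` is the mask of the rows which are still free. -/
noncomputable def embR (F P M : ℕ) (l : RL) : ℕ → Bool :=
  RL.rec (motive := fun _ => ℕ → Bool) (fun _ => true)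
    (fun i p m _ r A => embR2 P M p m (Nat.shiftRight F (Nat.mul 6 i)) A r) l

noncomputable def embC1 (j a b A P M : ℕ) (s : Bool) (r : ℕ → ℕ → ℕ → Bool) : Bool :=
  cnd s (r A (Nat.lor P (Nat.shiftLeft b j)) (Nat.lor M (Nat.shiftLeft a j)))
    (r A (Nat.lor P (Nat.shiftLeft a j)) (Nat.lor M (Nat.shiftLeft b j)))

noncomputable def embC2 (C : CD) (j c A P M : ℕ) (r : ℕ → ℕ → ℕ → Bool) : Bool :=
  andB (tb A (Nat.land c 31))
    (embC1 j (colP C.P (Nat.land c 31)) (colP C.M (Nat.land c 31)) (Nat.xor A (bit (Nat.land c 31)))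
      P M (tb c 5) r)

/-- gather the columns. -/
noncomputable def embC (C : CD) (F : ℕ) (k : ℕ → ℕ → Bool) (l : List ℕ) : ℕ → ℕ → ℕ → Bool :=
  List.rec (motive := fun _ => ℕ → ℕ → ℕ → Bool) (fun _ P M => k P M)
    (fun j _ r A P M => embC2 C j (Nat.shiftRight F (Nat.mul 6 j)) A P M r) l

/-- `T` embeds into `C` along `phi F` with the signs `eps F`. -/
noncomputable def emb (T : Tg) (C : CD) (F : ℕ) : Bool :=
  embC C F (fun P M => embR F P M T.rows C.rm) T.cols (Nat.xor C.zm C.rm) 0 0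

/-- a minor certificate: number of pivots (4 bits), pivots (10 bits each), embedding. -/
noncomputable def mnr (T : Tg) (C : CD) (N : ℕ) : Bool :=
  pivs C.zm (Nat.land N 15) (fun E F => emb T E F) C (Nat.shiftRight N 4)

/-- a certificate for a minor among the first `b` entries of a table (index in 8 bits). -/
noncomputable def bad (t : Tb) (b : ℕ) (C : CD) (N : ℕ) : Bool :=
  andB (Nat.blt (Nat.land N 255) b) (mnr (t.get (Nat.land N 255)) C (Nat.shiftRight N 8))

end CD

noncomputable def RL.ok (C : CD) (l : RL) : ℕ → Bool :=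
  RL.rec (motive := fun _ => ℕ → Bool) (fun A => Nat.beq A 0)
    (fun i p m _ r A => andB (tb A i) (andB (Nat.beq (rowP C.P i) p) (andB (Nat.beq (rowP C.M i) m)
      (r (Nat.xor A (bit i)))))) l

noncomputable def colsOK (l : List ℕ) : ℕ → Bool :=
  List.rec (motive := fun _ => ℕ → Bool) (fun A => Nat.beq A 0)
    (fun j _ r A => andB (tb A j) (r (Nat.xor A (bit j)))) l

noncomputable def Tg.ok (T : Tg) : Bool :=
  andB T.C.wfB (andB (RL.ok T.C T.rows T.C.rm) (colsOK T.cols (Nat.xor T.C.zm T.C.rm)))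

noncomputable def Tb.ok (t : Tb) : Bool :=
  Tb.rec (motive := fun _ => Bool) (fun T => T.ok) (fun _ _ l r => andB l r) t

/-- one of the first `b` entries of the table is a minor. -/
def BadT (t : Tb) (b : ℕ) (G : Disp F3) : Prop := ∃ k < b, Minor (t.get k).C.toDisp G

end Pool.Agent.Lib.MP_c69b6d_co.F
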