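import Pool.Agent.Lib.MP_c69b6d_co.F.CkD

/-! Checkers for covers and seeds (definitions). -/

namespace Pool.Agent.Lib.MP_c69b6d_co.F

open Finset Disp CD

noncomputable def notB (a : Bool) : Bool := Bool.rec (motive := fun _ => Bool) true false a

noncomputable def anyLt (n : ℕ) (f : ℕ → Bool) : Bool :=
  Nat.rec (motive := fun _ => Bool) false (fun i r => orB (f i) r) n

/-- `l` has length `n` and `f i (l i)` holds for all `i`. -/
noncomputable def allI (n : ℕ) (l : List ℕ) (f : ℕ → ℕ → Bool) : Bool :=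
  List.rec (motive := fun _ => ℕ → Bool) (fun i => Nat.beq i n)
    (fun x _ r i => andB (f i x) (r (Nat.succ i))) l 0

noncomputable def memL (x : ℕ) (l : List ℕ) : Bool := anyL l (fun y => Nat.beq x y)

/-- take the head of a list. -/
noncomputable def pop (l : List ℕ) (k : ℕ → List ℕ → Bool) : Bool :=
  List.rec (motive := fun _ => Bool) false (fun x t _ => k x t) l

/-- put the value `c` at the free position `k`. -/
noncomputable def vset (u k c : ℕ) : ℕ :=
  cnd (Nat.beq c 1) (Nat.lor u (bit k)) (cnd (Nat.beq c 2) (Nat.lor u (bit (Nat.add k 32))) u)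

/-- one pattern: it is kept (item `0`) or it is bad. -/
noncomputable def cov1 (t : Tb) (b : ℕ) (C : CD) (r : Bool) (w : ℕ) (k : List ℕ → List ℕ → Bool)
    (its A : List ℕ) : Bool :=
  pop its (fun i its' => cnd (Nat.beq i 0) (pop A (fun a A' => andB (Nat.beq a w) (k its' A')))
    (andB (bad t b (C.add 24 r w) i) (k its' A)))

/-- one step of a cover: `C` arises by adding the element `k`. -/
noncomputable def covStep (t : Tb) (b : ℕ) (C : CD) (r : Bool) (k : ℕ) (A0 its A : List ℕ) : Bool :=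
  andB (allL A (vonB (C.side r)))
    (List.rec (motive := fun _ => List ℕ → List ℕ → Bool) (fun _ _ => true)
      (fun u _ rec => cov1 t b C r u (cnd (tb (C.side r) k)
        (cov1 t b C r (Nat.lor u (bit k)) (cnd (Nat.beq u 0) rec
          (cov1 t b C r (Nat.lor u (bit (Nat.add k 32))) rec))) rec)) A0 its A)

/-- a chain of steps `(k, items, list)`, starting from the mask `U`. -/
noncomputable def covChain (t : Tb) (b : ℕ) (C : CD) (r : Bool) (Af : List ℕ)
    (st : List (ℕ × List ℕ × List ℕ)) : ℕ → List ℕ → Bool :=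
  List.rec (motive := fun _ => ℕ → List ℕ → Bool)
    (fun U A => andB (Nat.beq U C.zm) (allL A (fun u => memL u Af)))
    (fun s _ rec U A => andB (tb (Nat.xor C.zm U) s.1) (andB (tb C.zm s.1)
      (andB (covStep t b (C.res (Nat.lor U (bit s.1))) r s.1 A s.2.1 s.2.2)
        (rec (Nat.lor U (bit s.1)) s.2.2)))) st

/-- a complete cover. -/
noncomputable def covAll (t : Tb) (b : ℕ) (C : CD) (r : Bool) (Af : List ℕ)
    (st : List (ℕ × List ℕ × List ℕ)) : Bool :=
  covChain t b C r Af st (C.side (notB r)) [0]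

noncomputable def delK (s0b s0c s1b s1c sib sic s0j s1j sij : ℕ) : Bool :=
  Nat.beq (Nat.mod (Nat.mul (Nat.add (Nat.mul s0b s1c) (Nat.mul 2 (Nat.mul s0c s1b))) sij) 3)
    (Nat.mod (Nat.add (Nat.mul sib (Nat.add (Nat.mul s1c s0j) (Nat.mul 2 (Nat.mul s0c s1j))))
      (Nat.mul sic (Nat.add (Nat.mul s0b s1j) (Nat.mul 2 (Nat.mul s1b s0j))))) 3)

/-- the entry `(i, j)` of the Schur complement vanishes. -/
noncomputable def delZ (C : CD) (x y b c i j : ℕ) : Bool :=
  delK (C.sN x b) (C.sN x c) (C.sN y b) (C.sN y c) (C.sN i b) (C.sN i c) (C.sN x j) (C.sN y j)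
    (C.sN i j)

noncomputable def detNZ (C : CD) (x y b c : ℕ) : Bool :=
  notB (Nat.beq (Nat.mod (Nat.mul (C.sN x b) (C.sN y c)) 3) (Nat.mod (Nat.mul (C.sN x c) (C.sN y b)) 3))

def phiN (F i : ℕ) : ℕ := Nat.land (Nat.shiftRight F (Nat.mul 6 i)) 31

/-- the mask of the image of `lo, …, lo + n - 1`. -/
noncomputable def imR (F lo n : ℕ) : ℕ :=
  Nat.rec (motive := fun _ => ℕ) 0 (fun i r => Nat.lor (bit (phiN F (Nat.add lo i))) r) n

/-- the sizes `nx` and `ny` of the two sides of the seed `k` (4 bits each). -/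
def nxOf (NX k : ℕ) : ℕ := Nat.land (Nat.shiftRight NX (Nat.mul 8 k)) 15

def nyOf (NX k : ℕ) : ℕ := Nat.land (Nat.shiftRight NX (Nat.add (Nat.mul 8 k) 4)) 15

/-- the mask of `lo, …, lo + n - 1`. -/
def rng (lo n : ℕ) : ℕ := Nat.shiftLeft (Nat.pred (bit n)) lo

def seedOf (C : CD) (nx ny : ℕ) : Seed F3 := ⟨C.toDisp, fs (rng 0 nx), fs (rng nx ny)⟩

/-- the seeds with the indices `lo, …, lo + n - 1`. -/
noncomputable def seeds (t : Tb) (NX lo n : ℕ) : List (Seed F3) :=
  (List.range' lo n).map fun k => seedOf (t.get k).C (nxOf NX k) (nyOf NX k)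

noncomputable def shEnd (T : Tg) (nx ny : ℕ) (xs : Bool) (U1 U0 e i U2 : ℕ) (G : CD) (F : ℕ) : Bool :=
  andB (emb T G F) (andB (Nat.beq T.C.zm (rng 0 (Nat.add nx ny)))
    (andB (Nat.beq (Nat.lor (imR F 0 nx) (imR F nx ny)) U2) (andB (tb G.zm e)
      (andB (Nat.ble 2 nx) (andB (Nat.ble 3 ny)
        (andB (detNZ G (phiN F 0) (phiN F 1) (phiN F (Nat.add nx 1)) (phiN F (Nat.add nx 2)))
          (cnd xs
            (andB (Nat.beq (imR F nx ny) U0) (andB (Nat.beq (Nat.land (imR F 0 nx) U1) (imR F 0 nx))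
              (andB (Nat.blt i nx) (notB (delZ G (phiN F 0) (phiN F 1) (phiN F (Nat.add nx 1))
                (phiN F (Nat.add nx 2)) (phiN F i) e)))))
            (andB (Nat.beq (imR F 0 nx) U0) (andB (Nat.beq (Nat.land (imR F nx ny) U1) (imR F nx ny))
              (andB (Nat.blt i ny) (notB (delZ G (phiN F 0) (phiN F 1) (phiN F (Nat.add nx 1))
                (phiN F (Nat.add nx 2)) e (phiN F (Nat.add nx i))))))))))))))

/-- `ShX` (if `xs`) or `ShY`: index (8 bits), witness (4 bits), image mask (32 bits), two groups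
of pivots, embedding. -/
noncomputable def shB (t : Tb) (NX lo n : ℕ) (xs : Bool) (U1 U0 e : ℕ) (G : CD) (N : ℕ) : Bool :=
  andB (Nat.ble lo (Nat.land N 255)) (andB (Nat.blt (Nat.land N 255) (Nat.add lo n))
    (pivs U1 (Nat.land (Nat.shiftRight N 44) 15)
      (fun G1 N1 => pivs (Nat.land (Nat.shiftRight N 12) cF) (Nat.land N1 15)
        (shEnd (t.get (Nat.land N 255)) (nxOf NX (Nat.land N 255)) (nyOf NX (Nat.land N 255)) xs U1 U0 e
          (Nat.land (Nat.shiftRight N 8) 15) (Nat.land (Nat.shiftRight N 12) cF))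
        G1 (Nat.shiftRight N1 4)) G (Nat.shiftRight N 48)))

/-- `24` lies outside the span on the `X0` side. -/
noncomputable def inB (G : CD) (nx e : ℕ) : Bool :=
  anyLt nx (fun i => notB (delZ G 0 1 (Nat.add nx 1) (Nat.add nx 2) i e))

noncomputable def outB (G : CD) (nx ny e : ℕ) : Bool :=
  anyLt ny (fun j => notB (delZ G 0 1 (Nat.add nx 1) (Nat.add nx 2) e (Nat.add nx j)))

/-- the conclusion `S2C`; the kind is in the two low bits. -/
noncomputable def s2B (t : Tb) (b NX lo n nx ny : ℕ) (r' : Bool) (G : CD) (N : ℕ) : Bool :=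
  cnd (tb N 1)
    (cnd (tb N 0)
      (andB (notB (outB G nx ny 25))
        (shB t NX lo n true (Nat.lor (rng 0 nx) 0x3000000) (rng nx ny) 26
          (G.add 26 (notB r') 0x2000000) (Nat.shiftRight N 2)))
      (andB (outB G nx ny 25)
        (shB t NX lo n false (Nat.lor (rng nx ny) 0x2000000) (rng 0 nx) 24 G (Nat.shiftRight N 2))))
    (cnd (tb N 0)
      (shB t NX lo n true (Nat.lor (rng 0 nx) 0x1000000) (rng nx ny) 25 G (Nat.shiftRight N 2))
      (bad t b G (Nat.shiftRight N 2)))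

noncomputable def a3one (t : Tb) (b NX lo n nx ny : ℕ) (r' : Bool) (G : CD) (k : List ℕ → Bool)
    (its : List ℕ) : Bool :=
  cnd (delZ G 0 1 (Nat.add nx 1) (Nat.add nx 2) 24 25) (k its)
    (pop its (fun i its' => andB (s2B t b NX lo n nx ny r' G i) (k its')))

noncomputable def a3in (t : Tb) (b NX lo n nx ny : ℕ) (r' : Bool) (G : CD) (k : List ℕ → Bool)
    (A' : List ℕ) : List ℕ → Bool :=
  List.rec (motive := fun _ => List ℕ → Bool) k
    (fun u _ rec => a3one t b NX lo n nx ny r' (G.add 25 r' u)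
      (a3one t b NX lo n nx ny r' (G.add 25 r' (Nat.lor u 0x1000000))
        (a3one t b NX lo n nx ny r' (G.add 25 r' (Nat.lor u 0x100000000000000)) rec))) A'

/-- the condition `a3` for the side `r`. -/
noncomputable def a3B (t : Tb) (b NX lo n nx ny : ℕ) (C : CD) (r : Bool) (A A' : List ℕ) :
    List ℕ → Bool :=
  List.rec (motive := fun _ => List ℕ → Bool) (fun _ => true)
    (fun u _ rec => a3in t b NX lo n nx ny (notB r) (C.add 24 r u) rec A') A

/-- the conditions `a1` and `a2` for the side `r`. -/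
noncomputable def a12B (C : CD) (nx ny : ℕ) (r : Bool) (A A' : List ℕ) : Bool :=
  andB (allL A (fun u => andB (vonB (C.side r) u)
      (andB (inB (C.add 24 r u) nx 24) (notB (outB (C.add 24 r u) nx ny 24)))))
    (allL A' (fun u => andB (vonB (C.side r) u) (notB (inB (C.add 24 r u) nx 24))))

/-- the elementary conditions on a seed. -/
noncomputable def basicB (C : CD) (nx ny : ℕ) : Bool :=
  andB C.wfB (andB (Nat.beq C.zm (rng 0 (Nat.add nx ny))) (andB (Nat.ble 2 nx) (andB (Nat.ble 4 ny)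
    (andB (Nat.ble (Nat.add nx ny) 24) (andB (detNZ C 0 1 (Nat.add nx 1) (Nat.add nx 2))
      (allLt nx (fun i => notB (outB C nx ny i))))))))

noncomputable def basic2B (C : CD) (nx : ℕ) : Bool :=
  andB (tb C.rm 0) (andB (tb C.rm 1) (andB (Nat.beq (C.sN nx (Nat.add nx 1)) 1)
    (andB (Nat.beq (C.sN nx (Nat.add nx 2)) 1) (andB (Nat.beq (C.sN nx (Nat.add nx 3)) 0)
      (andB (Nat.beq (C.sN 0 (Nat.add nx 3))
          (Nat.mod (Nat.add (C.sN 0 (Nat.add nx 1)) (Nat.mul 2 (C.sN 0 (Nat.add nx 2)))) 3))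
        (Nat.beq (C.sN 1 (Nat.add nx 3))
          (Nat.mod (Nat.add (C.sN 1 (Nat.add nx 1)) (Nat.mul 2 (C.sN 1 (Nat.add nx 2)))) 3)))))))

/-- the packed point `pt`. -/
noncomputable def ptV (C : CD) (nx α β : ℕ) : ℕ :=
  vres (rng 0 nx) (vadd (vsm α (C.cpyV (Nat.add nx 1) false)) (vsm β (C.cpyV (Nat.add nx 2) false)))

noncomputable def vd1C (C : CD) (nx t1 t2 t3 t4 t : ℕ) : CD :=
  ((((C.res (rng 0 nx)).addR 24 0).addC 25 (vset (ptV C nx t1 t2) 24 1)).addC 26
    (vset (ptV C nx t3 t4) 24 1)).addC 27 (vset (ptV C nx 1 1) 24 t)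

noncomputable def vd2C (G : CD) (kb kc : ℕ) : CD := G.addR 28 (vset (vset 0x8000000 25 kb) 26 kc)

noncomputable def vrot (t : Tb) (b : ℕ) (C : CD) (nx t1 t2 t3 t4 : ℕ) (l1 l2 l3 : List ℕ) : Bool :=
  andB (allI 2 l1 (fun i N => bad t b (vd1C C nx t1 t2 t3 t4 (Nat.succ i)) N))
    (andB (allI 9 l2 (fun i N => orB (Nat.beq i 0)
        (bad t b (vd2C (vd1C C nx t1 t2 t3 t4 0) (Nat.mod i 3) (Nat.div i 3)) N)))
      (allI 27 l3 (fun i N => orB (Nat.beq i (Nat.mul 4 (Nat.mod i 3)))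
        (bad t b ((vd2C (vd1C C nx t1 t2 t3 t4 0) 0 0).addC 29
          (vset (vset (ptV C nx (Nat.mod i 3) (Nat.mod (Nat.div i 3) 3)) 24 (Nat.div i 9)) 28 1)) N))))

/-- the condition `VOK`. -/
noncomputable def vokB (t : Tb) (b : ℕ) (C : CD) (nx : ℕ) (l : List (List ℕ)) : Bool :=
  andB (vrot t b C nx 1 0 0 1 (l.getD 0 []) (l.getD 1 []) (l.getD 2 []))
    (andB (vrot t b C nx 1 0 1 2 (l.getD 3 []) (l.getD 4 []) (l.getD 5 []))
      (vrot t b C nx 0 1 2 1 (l.getD 6 []) (l.getD 7 []) (l.getD 8 [])))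

/-- the vector with the base three digits of the number at the positions in `cs`. -/
noncomputable def vecOf (cs : List ℕ) : ℕ → ℕ :=
  List.rec (motive := fun _ => ℕ → ℕ) (fun _ => 0)
    (fun j _ r i => vset (r (Nat.div i 3)) j (Nat.mod i 3)) cs

def vN (u j : ℕ) : ℕ :=
  Nat.add (Nat.land (Nat.shiftRight u j) 1) (Nat.mul 2 (Nat.land (Nat.shiftRight u (Nat.add j 32)) 1))

noncomputable def dotL (cs : List ℕ) (u w : ℕ) : ℕ :=
  Nat.mod (List.rec (motive := fun _ => ℕ) 0 (fun j _ r => Nat.add (Nat.mul (vN u j) (vN w j)) r) cs) 3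

/-- the row `i` as a packed vector. -/
def rowV (C : CD) (i : ℕ) : ℕ := vmk (rowP C.P i) (rowP C.M i)

noncomputable def rowZ (C : CD) (nx ny : ℕ) (cs Ar : List ℕ) (z y s' : ℕ) : Bool :=
  andB (notB (Nat.beq y 0))
    (andB (Nat.beq (dotL cs (rowV C 0) y) (Nat.mod (Nat.mul s' (C.sN 0 (Nat.add nx 2))) 3))
      (andB (Nat.beq (dotL cs (rowV C 1) y) (Nat.mod (Nat.mul s' (C.sN 1 (Nat.add nx 2))) 3))
        (andB (allL cs (fun j => orB (notB (Nat.beq (vN z j) 0)) (Nat.beq (vN y j) 0)))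
          (andB (allLt ny (fun i => orB (notB (Nat.beq (dotL cs (rowV C (Nat.add nx i)) z) 0))
              (Nat.beq (dotL cs (rowV C (Nat.add nx i)) y) 0)))
            (allL Ar (fun v => orB (notB (Nat.beq (dotL cs v z) 0)) (Nat.beq (dotL cs v y) 0)))))))

noncomputable def rowS (C : CD) (nx : ℕ) (cs : List ℕ) (z s : ℕ) : Bool :=
  andB (Nat.beq (dotL cs (rowV C 0) z)
      (Nat.mod (Nat.mul s (Nat.add (C.sN 0 (Nat.add nx 1)) (C.sN 0 (Nat.add nx 2)))) 3))
    (Nat.beq (dotL cs (rowV C 1) z)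
      (Nat.mod (Nat.mul s (Nat.add (C.sN 1 (Nat.add nx 1)) (C.sN 1 (Nat.add nx 2)))) 3))

/-- the condition `RowOK`: `cs` are the columns of `Y0`, `Ar` the allowed rows, `lv` the
certificates for the other rows and `ly` the witnesses `3 * y + s'`. -/
noncomputable def rowB (t : Tb) (b : ℕ) (C : CD) (nx ny : ℕ) (cs Ar lv ly : List ℕ) : Bool :=
  andB (colsOK cs (Nat.land (rng nx ny) (C.side true)))
    (andB (allI (Nat.pow 3 cs.length) lv (fun i N => cnd (Nat.beq N 0) (memL (vecOf cs i) Ar)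
        (bad t b (C.addR 24 (vecOf cs i)) N)))
      (allI (Nat.pow 3 cs.length) ly (fun i N =>
        orB (notB (orB (rowS C nx cs (vecOf cs i) 1) (rowS C nx cs (vecOf cs i) 2)))
          (rowZ C nx ny cs Ar (vecOf cs i) (vecOf cs (Nat.div N 3)) (Nat.mod N 3)))))

/-- the data for `TameOK`. -/
structure TD where
  a : ℕ
  lV : List (List ℕ)
  cs : List ℕ
  Ar : List ℕ
  lv : List ℕ
  ly : List ℕ

noncomputable def tameB (t : Tb) (b : ℕ) (C : CD) (nx ny : ℕ) (d : TD) : Bool :=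
  andB (basicB C nx ny) (andB (tb C.rm 0) (andB (tb C.rm 1) (andB (Nat.blt d.a ny)
    (andB (notB (Nat.beq (C.sN (Nat.add nx d.a) (Nat.add nx 1)) 0))
      (andB (notB (Nat.beq (C.sN (Nat.add nx d.a) (Nat.add nx 2)) 0))
        (andB (vokB t b C nx d.lV) (rowB t b C nx ny d.cs d.Ar d.lv d.ly)))))))

/-- the dual orientation: `C2` is the dual seed, `N` the two pivots. -/
noncomputable def dualB (C : CD) (nx N : ℕ) (C2 : CD) : Bool :=
  pivs (Nat.lor 3 (rng (Nat.add nx 1) 2)) 2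
    (fun E _ => andB (notB (tb E.rm 0)) (andB (notB (tb E.rm 1))
      (eqB (E.flp.scl (bit (Nat.add nx 1))) C2))) C N

/-- an option code `9 * z + 3 * α + β`, where `z = 31` stands for a new element. -/
noncomputable def extC (E C : CD) (nx o N : ℕ) : CD :=
  cnd (Nat.beq (Nat.div o 9) 31) (E.addC N (ptV C nx (Nat.mod (Nat.div o 3) 3) (Nat.mod o 3))) E

noncomputable def nmC (o N : ℕ) : ℕ := cnd (Nat.beq (Nat.div o 9) 31) N (Nat.div o 9)

noncomputable def starC (E : CD) (n b c g : ℕ) : CD :=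
  E.addR n (vadd (E.cpyV b true) (vsm g (E.cpyV c true)))

noncomputable def v4c (a1 b1 a2 b2 g : ℕ) : Bool :=
  andB (notB (Nat.beq (Nat.mod (Nat.mul a1 b2) 3) (Nat.mod (Nat.mul a2 b1) 3)))
    (orB (Nat.beq a1 b1) (orB (Nat.beq a2 b2)
      (Nat.beq (Nat.mod (Nat.add (Nat.mul g a1) b2) 3) (Nat.mod (Nat.add (Nat.mul g b1) a2) 3))))

noncomputable def v4one (t : Tb) (C : CD) (nx o1 o2 g N : ℕ) : Bool :=
  orB (notB (v4c (Nat.mod (Nat.div o1 3) 3) (Nat.mod o1 3) (Nat.mod (Nat.div o2 3) 3) (Nat.mod o2 3) g))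
    (bad t 5 (starC (extC (extC (C.res (rng 0 (Nat.add nx 3))) C nx o1 24) C nx o2 25) 26
      (nmC o1 24) (nmC o2 25) g) N)

/-- the condition `V4OK`: `O` lists the options which name an old element. -/
noncomputable def v4B (t : Tb) (C : CD) (nx : ℕ) (O l : List ℕ) : Bool :=
  andB (allLt (Nat.mul 9 nx) (fun o => orB (memL o O)
      (notB (Nat.beq (vres (rng 0 nx) (C.cpyV (Nat.div o 9) false))
        (ptV C nx (Nat.mod (Nat.div o 3) 3) (Nat.mod o 3))))))
    (andB (allL O (fun o => Nat.blt o (Nat.mul 9 nx)))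
      (allI (Nat.mul 2 (Nat.mul (Nat.add O.length 4) (Nat.add O.length 4))) l (fun i N =>
        v4one t C nx
          ((282 :: 280 :: 284 :: 283 :: O).getD (Nat.mod (Nat.div i 2) (Nat.add O.length 4)) 0)
          ((282 :: 280 :: 284 :: 283 :: O).getD (Nat.div (Nat.div i 2) (Nat.add O.length 4)) 0)
          (Nat.succ (Nat.mod i 2)) N)))

/-- the condition `hasN`. -/
noncomputable def hasNB (tN : Tb) (C : CD) (nx N : ℕ) : Bool :=
  bad tN 3 (C.res (Nat.lor (rng 0 nx) (rng (Nat.add nx 1) 3))) N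

end Pool.Agent.Lib.MP_c69b6d_co.F
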