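import Pool.Agent.Lib.MP_c69b6d_co.F.Core

/-! Definitions for the finite checks.  The labels `24, …, 29` are used for new elements. -/

namespace Pool.Agent.Lib.MP_c69b6d_co.F

open Finset Disp

/-- the row `n'` of `ext2` after `z` has been replaced by `n`. -/
def pat1 (L : Disp F3) (z z' : ℕ) (c : F3) : ℕ → F3 :=
  fun i => if L.row z = false then (if i = z then c else cpy L z' true i)
    else cpy L z' true i + c * L.S i z

/-- the column `n` of `ext2` after `z'` has been replaced by `n'`. -/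
def pat2 (L : Disp F3) (z z' : ℕ) (c : F3) : ℕ → F3 :=
  fun i => if L.row z' = true then (if i = z' then -c else cpy L z false i)
    else cpy L z false i - c * L.S i z'

/-- `G` is bad or contains a larger member. -/
def Up (Bad : Disp F3 → Prop) (𝓜 : List (Disp F3)) (L G : Disp F3) : Prop :=
  Bad G ∨ ∃ L' ∈ 𝓜, L.Z.card < L'.Z.card ∧ Minor L' G

/-- every non-bad extension on side `r` is, up to sign, in the list `A`. -/
def Cover (Bad : Disp F3 → Prop) (L : Disp F3) (n : ℕ) (r : Bool) (A : List (ℕ → F3)) : Prop :=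
  ∀ v, Bad (L.addEl n r v) ∨
    ∃ u ∈ A, ∃ s : F3, s * s = 1 ∧ ∀ i ∈ L.Z, L.row i ≠ r → v i = s * u i

/-- the star on `b, c`: a new row `n` forming a triad with `b` and `c`. -/
def star (E : Disp F3) (n b c : ℕ) (g : F3) : Disp F3 :=
  E.addEl n true (fun j => cpy E b true j + g * cpy E c true j)

/-- every valid mark is an element or a member of `𝒯`. -/
def ValidIn (𝓛 : List (Disp F3)) (D : Disp F3) (𝒯 : List (Finset ℕ)) : Prop :=
  ∀ T, Valid 𝓛 D T → Obj D.Z 𝒯 T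

/-- `T = {b, c, p}` carries no admissible star on `b, c`. -/
def NoStar (𝓛 : List (Disp F3)) (D : Disp F3) (n b c p : ℕ) : Prop :=
  ∀ sb sc : F3, sb * sb = 1 → sc * sc = 1 → (∀ i ∈ D.Z, D.row i = true →
    cpy D p false i = sb * cpy D b false i + sc * cpy D c false i) →
    Has 𝓛 (star D n b c (-(sb * sc)))

/-- the mark `T` with `v` replaced by `u`. -/
def repl (u v : ℕ) (T : Finset ℕ) : Finset ℕ := if v ∈ T then insert u (T.erase v) else T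

/-- the point `α q_b + β q_c` of the guts line, read on `X0`. -/
def pt (L : Disp F3) (X0 : Finset ℕ) (b c : ℕ) (α β : F3) : ℕ → F3 :=
  fun i => if i ∈ X0 then α * L.S i b + β * L.S i c else 0

/-- `X0`, a row `24`, columns `25, 26` adjacent to it, and a column `27` of the fourth type. -/
def vd1 (L : Disp F3) (X0 : Finset ℕ) (b c : ℕ) (τ : F3 × F3 × F3 × F3) (t : F3) : Disp F3 :=
  ((((L.restrict X0).addEl 24 true (fun _ => 0)).addEl 25 false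
    (Function.update (pt L X0 b c τ.1 τ.2.1) 24 1)).addEl 26 false
    (Function.update (pt L X0 b c τ.2.2.1 τ.2.2.2) 24 1)).addEl 27 false
    (Function.update (pt L X0 b c 1 1) 24 t)

def vd2 (L : Disp F3) (X0 : Finset ℕ) (b c : ℕ) (τ : F3 × F3 × F3 × F3) (kb kc : F3) : Disp F3 :=
  (vd1 L X0 b c τ 0).addEl 28 true
    (fun j => if j = 27 then 1 else if j = 25 then kb else if j = 26 then kc else 0)

def vd3 (L : Disp F3) (X0 : Finset ℕ) (b c : ℕ) (τ : F3 × F3 × F3 × F3) (l1 l2 t : F3) :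
    Disp F3 :=
  (vd2 L X0 b c τ 0 0).addEl 29 false
    (Function.update (Function.update (pt L X0 b c l1 l2) 24 t) 28 1)

/-- the three normalised pairs of tame types. -/
def rots : List (F3 × F3 × F3 × F3) := [(1, 0, 0, 1), (1, 0, 1, -1), (0, 1, -1, 1)]

/-- the patterns V1, V2, V3 are bad. -/
def VOK (Bad : Disp F3 → Prop) (L : Disp F3) (X0 : Finset ℕ) (b c : ℕ) : Prop :=
  ∀ τ ∈ rots, (∀ t, t ≠ 0 → Bad (vd1 L X0 b c τ t)) ∧
    (∀ kb kc, (kb ≠ 0 ∨ kc ≠ 0) → Bad (vd2 L X0 b c τ kb kc)) ∧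
    ∀ l1 l2 t, (t ≠ 0 ∨ l1 ≠ l2) → Bad (vd3 L X0 b c τ l1 l2 t)

/-- the fourth point is not realised as long as only rows are added to `Y0`. -/
def RowOK (Bad : Disp F3 → Prop) (L : Disp F3) (Y0 : Finset ℕ) (x1 x2 b c : ℕ) : Prop :=
  ∀ (z : ℕ → F3) (s : F3), s ≠ 0 →
    ∑ j ∈ Y0, L.S x1 j * z j = s * (L.S x1 b + L.S x1 c) →
    ∑ j ∈ Y0, L.S x2 j * z j = s * (L.S x2 b + L.S x2 c) →
    ∃ (y : ℕ → F3) (s' : F3), (∃ j ∈ Y0, L.row j = false ∧ y j ≠ 0) ∧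
      ∑ j ∈ Y0, L.S x1 j * y j = s' * L.S x1 c ∧ ∑ j ∈ Y0, L.S x2 j * y j = s' * L.S x2 c ∧
      (∀ j ∈ Y0, L.row j = false → z j = 0 → y j = 0) ∧
      (∀ i ∈ Y0, ∑ j ∈ Y0, L.S i j * z j = 0 → L.row i = true → ∑ j ∈ Y0, L.S i j * y j = 0) ∧
      ∀ v : ℕ → F3, (∀ j, ¬ (j ∈ Y0 ∧ L.row j = false) → v j = 0) →
        Bad (L.addEl 24 true v) ∨ (∑ j ∈ Y0, v j * z j = 0 → ∑ j ∈ Y0, v j * y j = 0)

/-- the finite conditions which make the `Y` side tame. -/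
def TameOK (Bad : Disp F3 → Prop) (L : Disp F3) (X0 Y0 : Finset ℕ) (x1 x2 b c : ℕ) : Prop :=
  L.S x1 b * L.S x2 c - L.S x1 c * L.S x2 b ≠ 0 ∧ (∃ a ∈ Y0, L.S a b ≠ 0 ∧ L.S a c ≠ 0) ∧
    VOK Bad L X0 b c ∧ RowOK Bad L Y0 x1 x2 b c

/-- add the new column `N` at the point `(α, β)`, unless an old element is named. -/
def extO (E L : Disp F3) (X0 : Finset ℕ) (b c : ℕ) (o : Option ℕ) (N : ℕ) (α β : F3) : Disp F3 :=
  match o with
  | some _ => E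
  | none => E.addEl N false (pt L X0 b c α β)

/-- the admissible choices of an element of the guts line. -/
def OptOK (L : Disp F3) (X0 : Finset ℕ) (b c : ℕ) (o : Option ℕ) (α β : F3) : Prop :=
  match o with
  | some z => z ∈ X0 ∧ ∀ i ∈ X0, L.row i = true → cpy L z false i = α * L.S i b + β * L.S i c
  | none => (α, β) ∈ ([(1, 0), (0, 1), (1, -1), (1, 1)] : List (F3 × F3))

/-- the patterns V4. -/
def V4OK (𝓛 : List (Disp F3)) (L : Disp F3) (X0 : Finset ℕ) (a b c : ℕ) : Prop :=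
  ∀ (o1 o2 : Option ℕ) (α1 β1 α2 β2 g : F3), OptOK L X0 b c o1 α1 β1 → OptOK L X0 b c o2 α2 β2 →
    α1 * β2 ≠ α2 * β1 → g * g = 1 → (α1 = β1 ∨ α2 = β2 ∨ g * α1 - α2 = g * β1 - β2) →
    Has 𝓛 (star (extO (extO (L.restrict (X0 ∪ {a, b, c})) L X0 b c o1 24 α1 β1)
      L X0 b c o2 25 α2 β2) 26 (o1.getD 24) (o2.getD 25) g)

/-- the conditions on a single seed; `x1 = 0` and `x2 = 1`. -/
structure SeedOK (𝓛 𝓝 : List (Disp F3)) (Bad : Disp F3 → Prop) (σ : Seed F3) (a b c p : ℕ) :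
    Prop where
  hZ : σ.L.Z = σ.X0 ∪ σ.Y0
  disj : Disjoint σ.X0 σ.Y0
  small : ∀ i ∈ σ.L.Z, i < 24
  m0 : 0 ∈ σ.X0
  m1 : 1 ∈ σ.X0
  ma : a ∈ σ.Y0
  mb : b ∈ σ.Y0
  mc : c ∈ σ.Y0
  mp : p ∈ σ.Y0
  r0 : σ.L.row 0 = true
  r1 : σ.L.row 1 = true
  det : σ.L.S 0 b * σ.L.S 1 c - σ.L.S 0 c * σ.L.S 1 b ≠ 0
  lam2 : σ.L.lam σ.X0 σ.Y0 ≤ 2
  ab : σ.L.S a b = 1
  ac : σ.L.S a c = 1
  ap : σ.L.S a p = 0
  p0 : σ.L.S 0 p = σ.L.S 0 b - σ.L.S 0 c
  p1 : σ.L.S 1 p = σ.L.S 1 b - σ.L.S 1 c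
  hasN : Has 𝓝 (σ.L.restrict (σ.X0 ∪ {b, c, p}))
  v4 : V4OK 𝓛 σ.L σ.X0 a b c
  tame : TameOK Bad σ.L σ.X0 σ.Y0 0 1 b c ∨
    ∃ L' L2 : Disp F3, ReachIn {0, 1, b, c} σ.L L' ∧ L'.row 0 = false ∧ L'.row 1 = false ∧
      Same (L'.flip.scale (fun i => if i = b then -1 else 1)) L2 ∧
      TameOK (fun G => Bad G.flip) L2 σ.X0 σ.Y0 0 1 b c

/-- the conclusion of the hypothesis `s2` of `induced`. -/
def S2C (𝒮 : List (Seed F3)) (Bad : Disp F3 → Prop) (σ : Seed F3) (r' : Bool) (G : Disp F3) :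
    Prop :=
  Bad G ∨ ShX 𝒮 G (insert 24 σ.X0) σ.Y0 25 ∨
    (3 ≤ G.lam (insert 25 σ.X0) σ.Y0 ∧ ShY 𝒮 G σ.X0 (insert 25 σ.Y0) 24) ∨
    (G.lam (insert 25 σ.X0) σ.Y0 ≤ 2 ∧
      ShX 𝒮 (G.addEl 26 (!r') (fun i => if i = 25 then 1 else 0))
        (insert 25 (insert 24 σ.X0)) σ.Y0 26)

/-- the blocking conditions for a seed in terms of covers; `A r` are the patterns with
`3 ≤ lam X0 (insert 24 Y0)` possible, `A' r` are the others. -/
structure BlockOK (𝒮 : List (Seed F3)) (Bad : Disp F3 → Prop) (σ : Seed F3) (b c : ℕ)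
    (A A' : Bool → List (ℕ → F3)) : Prop where
  cov : ∀ r, Cover Bad σ.L 24 r (A r ++ A' r)
  a1 : ∀ r, ∀ u ∈ A r, (σ.L.addEl 24 r u).lam (insert 24 σ.X0) σ.Y0 ≤ 2 ∧
    3 ≤ (σ.L.addEl 24 r u).lam σ.X0 (insert 24 σ.Y0)
  a2 : ∀ r, ∀ u ∈ A' r, (σ.L.addEl 24 r u).lam σ.X0 (insert 24 σ.Y0) ≤ 2
  a3 : ∀ r, ∀ u ∈ A r, ∀ u' ∈ A' (!r), ∀ (e : F3) (G : Disp F3),
    G = (σ.L.addEl 24 r u).addEl 25 (!r) (Function.update u' 24 e) →
    (G.S 0 b * G.S 1 c - G.S 0 c * G.S 1 b) * G.S 24 25 ≠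
      G.S 24 b * (G.S 1 c * G.S 0 25 - G.S 0 c * G.S 1 25) +
        G.S 24 c * (G.S 0 b * G.S 1 25 - G.S 1 b * G.S 0 25) → S2C 𝒮 Bad σ (!r) G

end Pool.Agent.Lib.MP_c69b6d_co.F
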