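import Pool.Agent.Lib.MP_c69b6d_co.F.Chain
import Pool.Agent.Lib.MP_c69b6d_co.F.Defs2

/-! Closure under the chain lemma. -/

namespace Pool.Agent.Lib.MP_c69b6d_co.F

open Finset Disp

/-- replacing `z` by a copy `n` of it. -/
theorem clos_emb_swap {L G : Disp F3} {z n : ℕ} (hn : n ∉ L.Z) (hnG : n ∈ G.Z)
    (hZ : ∀ i ∈ L.Z, i ∈ G.Z) (hr : ∀ i ∈ L.Z, i ≠ z → G.row i = L.row i)
    (hrn : G.row n = L.row z)
    (hS : ∀ i ∈ L.Z, ∀ j ∈ L.Z, i ≠ z → j ≠ z → G.S i j = L.S i j)
    (hSn : ∀ i ∈ L.Z, i ≠ z → G.S i n = L.S i z) :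
    Emb L G (Function.update id z n) (fun _ => 1) := by
  have e1 : Function.update id z n z = n := Function.update_self ..
  have e2 : ∀ i, i ≠ z → Function.update id z n i = i := fun i hi => Function.update_of_ne hi ..
  refine ⟨fun i hi j hj e => ?_, fun i hi => ?_, fun i hi => ?_, fun _ _ => one_mul 1,
    fun i hi j hj => ?_⟩
  · by_cases h1 : i = z <;> by_cases h2 : j = z
    · rw [h1, h2]
    · rw [h1, e1, e2 j h2] at e; exact absurd (e ▸ hj) hn
    · rw [h2, e1, e2 i h1] at e; exact absurd (e ▸ hi) hn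
    · rwa [e2 i h1, e2 j h2] at e
  · by_cases h1 : i = z
    · rw [h1, e1]; exact hnG
    · rw [e2 i h1]; exact hZ i hi
  · by_cases h1 : i = z
    · rw [h1, e1]; exact hrn
    · rw [e2 i h1]; exact hr i hi h1
  · rw [one_mul, one_mul]
    by_cases h1 : i = z <;> by_cases h2 : j = z
    · rw [h1, h2, e1, G.bip n n rfl, L.bip z z rfl]
    · rw [h1, e1, e2 j h2, G.skew, hSn j hj h2, L.skew z j]
    · rw [h2, e1, e2 i h1, hSn i hi h1]
    · rw [e2 i h1, e2 j h2, hS i hi j hj h1 h2]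

section ext

variable {L : Disp F3} {n n' z z' : ℕ} {c : F3}

theorem clos_Z : (ext2 L n n' z z' c).Z = insert n' (insert n L.Z) := rfl

theorem clos_row {i : ℕ} (h : i ≠ n) (h' : i ≠ n') : (ext2 L n n' z z' c).row i = L.row i := by
  simp [ext2, addEl, h, h']

theorem clos_row_n (hnn : n ≠ n') : (ext2 L n n' z z' c).row n = false := by
  simp [ext2, addEl, hnn]

theorem clos_row_n' : (ext2 L n n' z z' c).row n' = true := by
  simp [ext2, addEl]

theorem clos_S {i j : ℕ} (h : i ≠ n) (h' : i ≠ n') (k : j ≠ n) (k' : j ≠ n') :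
    (ext2 L n n' z z' c).S i j = L.S i j := by
  simp [ext2, addEl, h, h', k, k']

theorem clos_S_n (hnn : n ≠ n') {i : ℕ} (h : i ≠ n) (h' : i ≠ n') :
    (ext2 L n n' z z' c).S i n = if L.row i = false then 0 else cpy L z false i := by
  simp [ext2, addEl, h, h', hnn]

theorem clos_S_n' {i : ℕ} (h : i ≠ n) (h' : i ≠ n') :
    (ext2 L n n' z z' c).S i n' = if L.row i = true then 0 else cpy L z' true i := by
  simp [ext2, addEl, h, h']

theorem clos_S_nn (hnn : n ≠ n') : (ext2 L n n' z z' c).S n n' = c := by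
  simp [ext2, addEl, hnn]

end ext

theorem minor_pat1 {L : Disp F3} {n n' z z' m : ℕ} (hn : n ∉ L.Z) (hn' : n' ∉ L.Z) (hnn : n ≠ n')
    (hm : m ∉ L.Z) (hz : z ∈ L.Z) (hz' : z' ∈ L.Z) (hzz : z ≠ z') (c : F3) :
    Minor (L.addEl m true (pat1 L z z' c)) (ext2 L n n' z z' c) := by
  have a : ∀ i ∈ L.Z, i ≠ n := fun i hi e => hn (e ▸ hi)
  have a' : ∀ i ∈ L.Z, i ≠ n' := fun i hi e => hn' (e ▸ hi)
  have e1 : Function.update id z n z = n := Function.update_self ..
  have e2 : ∀ i, i ≠ z → Function.update id z n i = i := fun i hi => Function.update_of_ne hi ..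
  have e3 : ∀ i ∈ L.Z, Function.update id z n i ≠ n' := fun i hi => by
    by_cases h1 : i = z
    · rw [h1, e1]; exact hnn
    · rw [e2 i h1]; exact a' i hi
  have mZ : ∀ i ∈ L.Z, i ∈ (ext2 L n n' z z' c).Z := fun i hi => by simp [clos_Z, hi]
  have mn : n ∈ (ext2 L n n' z z' c).Z := by simp [clos_Z]
  have mn' : n' ∈ (ext2 L n n' z z' c).Z := by simp [clos_Z]
  cases hr : L.row z
  · have h1 : Emb L (ext2 L n n' z z' c) (Function.update id z n) (fun _ => 1) :=
      clos_emb_swap hn mn mZ (fun i hi _ => clos_row (a i hi) (a' i hi))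
        (by rw [clos_row_n hnn, hr])
        (fun i hi j hj _ _ => clos_S (a i hi) (a' i hi) (a j hj) (a' j hj))
        (fun i hi _ => by
          rw [clos_S_n hnn (a i hi) (a' i hi)]
          split_ifs with h
          · rw [L.bip i z (h.trans hr.symm)]
          · simp [cpy, hr])
    have h2 := h1.addEl (u := pat1 L z z' c) hm mn' e3 (one_mul 1) (fun i hi hri => by
      rw [clos_row_n'] at hri
      by_cases h : i = z
      · rw [h, e1, clos_S_nn hnn]; simp [pat1, hr]
      · rw [e2 i h, clos_S_n' (a i hi) (a' i hi), if_neg hri]; simp [pat1, hr, h])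
    rw [clos_row_n'] at h2
    exact h2.minor
  · have u : ∀ i ∈ L.Z, i ≠ z → (ext2 L n n' z z' c).S i n = 0 := fun i hi h => by
      rw [clos_S_n hnn (a i hi) (a' i hi)]; simp [cpy, hr, h]
    have p : (ext2 L n n' z z' c).S z n = 1 := by
      rw [clos_S_n hnn (a z hz) (a' z hz)]; simp [cpy, hr]
    have p' : (ext2 L n n' z z' c).S n z = -1 := by rw [Disp.skew, p]
    have p0 : (ext2 L n n' z z' c).S z n ≠ 0 := by rw [p]; exact one_ne_zero
    have rn' : ((ext2 L n n' z z' c).pivot z n).row n' = true := by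
      rw [pivot_row p0, if_neg (by rintro (e | e); exacts [a' z hz e.symm, hnn e.symm]),
        clos_row_n']
    have h1 : Emb L ((ext2 L n n' z z' c).pivot z n) (Function.update id z n) (fun _ => 1) :=
      clos_emb_swap hn (by rw [pivot_Z]; exact mn) (fun i hi => by rw [pivot_Z]; exact mZ i hi)
        (fun i hi h => by
          rw [pivot_row p0, if_neg (by rintro (e | e); exacts [h e, a i hi e]),
            clos_row (a i hi) (a' i hi)])
        (by rw [pivot_row p0, if_pos (Or.inr rfl), clos_row_n hnn, hr]; rfl)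
        (fun i hi j hj h k => by
          rw [pivot_S_gen p0 h (a i hi) k (a j hj), u i hi h, Disp.skew _ n j, u j hj k,
            clos_S (a i hi) (a' i hi) (a j hj) (a' j hj)]
          simp)
        (fun i hi h => by
          rw [pivot_S p0]
          simp only [pS, h, a i hi, (a z hz).symm, if_false, if_true, p,
            clos_S (a z hz) (a' z hz) (a i hi) (a' i hi)]
          rw [L.skew i z]; simp)
    have h2 := h1.addEl (u := pat1 L z z' c) hm (by rw [pivot_Z]; exact mn') e3 (one_mul 1)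
      (fun i hi hri => by
        rw [rn'] at hri
        have h : i ≠ z := fun e => hri (e ▸ hr)
        rw [e2 i h, pivot_S_gen p0 h (a i hi) (a' z hz).symm hnn.symm, u i hi h, p',
          clos_S_nn hnn, clos_S_n' (a i hi) (a' i hi), if_neg hri,
          clos_S (a i hi) (a' i hi) (a z hz) (a' z hz)]
        simp only [pat1, hr, Bool.true_eq_false, if_false]
        field_simp
        ring)
    rw [rn'] at h2
    exact ⟨_, _, _, ReachIn.single (mZ z hz) mn, h2⟩

theorem minor_pat2 {L : Disp F3} {n n' z z' m : ℕ} (hn : n ∉ L.Z) (hn' : n' ∉ L.Z) (hnn : n ≠ n')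
    (hm : m ∉ L.Z) (hz : z ∈ L.Z) (hz' : z' ∈ L.Z) (hzz : z ≠ z') (c : F3) :
    Minor (L.addEl m false (pat2 L z z' c)) (ext2 L n n' z z' c) := by
  have a : ∀ i ∈ L.Z, i ≠ n := fun i hi e => hn (e ▸ hi)
  have a' : ∀ i ∈ L.Z, i ≠ n' := fun i hi e => hn' (e ▸ hi)
  have e1 : Function.update id z' n' z' = n' := Function.update_self ..
  have e2 : ∀ i, i ≠ z' → Function.update id z' n' i = i :=
    fun i hi => Function.update_of_ne hi ..
  have e3 : ∀ i ∈ L.Z, Function.update id z' n' i ≠ n := fun i hi => by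
    by_cases h1 : i = z'
    · rw [h1, e1]; exact hnn.symm
    · rw [e2 i h1]; exact a i hi
  have mZ : ∀ i ∈ L.Z, i ∈ (ext2 L n n' z z' c).Z := fun i hi => by simp [clos_Z, hi]
  have mn : n ∈ (ext2 L n n' z z' c).Z := by simp [clos_Z]
  have mn' : n' ∈ (ext2 L n n' z z' c).Z := by simp [clos_Z]
  have q : (ext2 L n n' z z' c).S n' n = -c := by rw [Disp.skew, clos_S_nn hnn]
  cases hr : L.row z'
  · have u : ∀ i ∈ L.Z, i ≠ z' → (ext2 L n n' z z' c).S i n' = 0 := fun i hi h => by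
      rw [clos_S_n' (a i hi) (a' i hi)]; simp [cpy, hr, h]
    have p : (ext2 L n n' z z' c).S z' n' = 1 := by
      rw [clos_S_n' (a z' hz') (a' z' hz')]; simp [cpy, hr]
    have p' : (ext2 L n n' z z' c).S n' z' = -1 := by rw [Disp.skew, p]
    have p0 : (ext2 L n n' z z' c).S z' n' ≠ 0 := by rw [p]; exact one_ne_zero
    have rn : ((ext2 L n n' z z' c).pivot z' n').row n = false := by
      rw [pivot_row p0, if_neg (by rintro (e | e); exacts [a z' hz' e.symm, hnn e]),
        clos_row_n hnn]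
    have h1 : Emb L ((ext2 L n n' z z' c).pivot z' n') (Function.update id z' n') (fun _ => 1) :=
      clos_emb_swap hn' (by rw [pivot_Z]; exact mn') (fun i hi => by rw [pivot_Z]; exact mZ i hi)
        (fun i hi h => by
          rw [pivot_row p0, if_neg (by rintro (e | e); exacts [h e, a' i hi e]),
            clos_row (a i hi) (a' i hi)])
        (by rw [pivot_row p0, if_pos (Or.inr rfl), clos_row_n', hr]; rfl)
        (fun i hi j hj h k => by
          rw [pivot_S_gen p0 h (a' i hi) k (a' j hj), u i hi h, Disp.skew _ n' j, u j hj k,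
            clos_S (a i hi) (a' i hi) (a j hj) (a' j hj)]
          simp)
        (fun i hi h => by
          rw [pivot_S p0]
          simp only [pS, h, a' i hi, (a' z' hz').symm, if_false, if_true, p,
            clos_S (a z' hz') (a' z' hz') (a i hi) (a' i hi)]
          rw [L.skew i z']; simp)
    have h2 := h1.addEl (u := pat2 L z z' c) hm (by rw [pivot_Z]; exact mn) e3 (one_mul 1)
      (fun i hi hri => by
        rw [rn] at hri
        have h : i ≠ z' := fun e => hri (e ▸ hr)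
        rw [e2 i h, pivot_S_gen p0 h (a' i hi) (a z' hz').symm hnn, u i hi h, p', q,
          clos_S_n hnn (a i hi) (a' i hi), if_neg hri,
          clos_S (a i hi) (a' i hi) (a z' hz') (a' z' hz')]
        simp only [pat2, hr, Bool.false_eq_true, if_false]
        field_simp
        ring)
    rw [rn] at h2
    exact ⟨_, _, _, ReachIn.single (mZ z' hz') mn', h2⟩
  · have h1 : Emb L (ext2 L n n' z z' c) (Function.update id z' n') (fun _ => 1) :=
      clos_emb_swap hn' mn' mZ (fun i hi _ => clos_row (a i hi) (a' i hi))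
        (by rw [clos_row_n', hr])
        (fun i hi j hj _ _ => clos_S (a i hi) (a' i hi) (a j hj) (a' j hj))
        (fun i hi _ => by
          rw [clos_S_n' (a i hi) (a' i hi)]
          split_ifs with h
          · rw [L.bip i z' (h.trans hr.symm)]
          · simp [cpy, hr])
    have h2 := h1.addEl (u := pat2 L z z' c) hm mn e3 (one_mul 1) (fun i hi hri => by
      rw [clos_row_n hnn] at hri
      by_cases h : i = z'
      · rw [h, e1, q]; simp [pat2, hr]
      · rw [e2 i h, clos_S_n hnn (a i hi) (a' i hi), if_neg hri]; simp [pat2, hr, h])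
    rw [clos_row_n hnn] at h2
    exact h2.minor

theorem closure (Bad : Disp F3 → Prop) (hBad : ∀ G D, Minor G D → Bad G → Bad D)
    (𝓜 : List (Disp F3)) {n n' : ℕ} (hnn : n ≠ n')
    (wf : ∀ L ∈ 𝓜, L.Conn3 ∧ 4 ≤ L.Z.card ∧ n ∉ L.Z ∧ n' ∉ L.Z)
    (h1 : ∀ L ∈ 𝓜, ∀ r v, ¬ Deg (L.addEl n r v) L.Z n → Up Bad 𝓜 L (L.addEl n r v))
    (h2 : ∀ L ∈ 𝓜, ∀ z ∈ L.Z, ∀ z' ∈ L.Z, z ≠ z' → ∀ c, c ≠ cons L z z' →
      ¬ Deg (L.addEl n true (pat1 L z z' c)) L.Z n ∨
      ¬ Deg (L.addEl n false (pat2 L z z' c)) L.Z n ∨ Up Bad 𝓜 L (ext2 L n n' z z' c))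
    {D : Disp F3} (hD : D.Conn3) (hb : ¬ Bad D) (hM : Has 𝓜 D) :
    ∃ L ∈ 𝓜, Minor L D ∧ D.Z.card ≤ L.Z.card := by
  have up : ∀ L G, Up Bad 𝓜 L G → Minor G D →
      ∃ L' ∈ 𝓜, L.Z.card < L'.Z.card ∧ Minor L' D := by
    rintro L G (h | ⟨L', m, h, h'⟩) hG
    · exact absurd (hBad _ _ hG h) hb
    · exact ⟨L', m, h, h'.trans hG⟩
  have step : ∀ L ∈ 𝓜, Minor L D → L.Z.card < D.Z.card →
      ∃ L' ∈ 𝓜, L.Z.card < L'.Z.card ∧ Minor L' D := by
    intro L hL hm hlt
    obtain ⟨w1, w2, w3, w4⟩ := wf L hL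
    rcases chain w1 w2 hD hm hlt w3 w4 hnn with ⟨r, v, k1, k2⟩ | ⟨z, hz, z', hz', hzz, c, k1, k2⟩
    · exact up _ _ (h1 L hL r v k1) k2
    · rcases h2 L hL z hz z' hz' hzz c k1 with k | k | k
      · exact up _ _ (h1 L hL _ _ k) ((minor_pat1 w3 w4 hnn w3 hz hz' hzz c).trans k2)
      · exact up _ _ (h1 L hL _ _ k) ((minor_pat2 w3 w4 hnn w3 hz hz' hzz c).trans k2)
      · exact up _ _ k k2
  have key : ∀ k, ∀ L ∈ 𝓜, Minor L D → D.Z.card ≤ L.Z.card + k →
      ∃ L ∈ 𝓜, Minor L D ∧ D.Z.card ≤ L.Z.card := by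
    intro k
    induction k with
    | zero => exact fun L hL hm h => ⟨L, hL, hm, h⟩
    | succ k ih =>
      intro L hL hm h
      by_cases hlt : L.Z.card < D.Z.card
      · obtain ⟨L', m, k1, k2⟩ := step L hL hm hlt
        exact ih L' m k2 (by omega)
      · exact ⟨L, hL, hm, not_lt.1 hlt⟩
  obtain ⟨L, hL, hm⟩ := hM
  exact key D.Z.card L hL hm (Nat.le_add_left _ _)

/-- a change of sign of the new element. -/
theorem emb_addEl_sign {L : Disp F3} {n : ℕ} (hn : n ∉ L.Z) {r : Bool} {u v : ℕ → F3} {s : F3}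
    (hs : s * s = 1) (h : ∀ i ∈ L.Z, L.row i ≠ r → v i = s * u i) :
    Emb (L.addEl n r u) (L.addEl n r v) id (fun i => if i = n then s else 1) := by
  refine ⟨fun _ _ _ _ e => e, fun _ hi => hi, fun _ _ => rfl, fun i _ => ?_, fun i hi j hj => ?_⟩
  · split_ifs
    · exact hs
    · exact one_mul 1
  · have m : ∀ i ∈ (L.addEl n r u).Z, i ≠ n → i ∈ L.Z := fun i hi k =>
      (mem_insert.1 hi).resolve_left k
    by_cases h1 : i = n <;> by_cases h2 : j = n
    · simp [addEl, h1, h2]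
    · by_cases h3 : L.row j = r
      · simp [addEl, h1, h2, h3]
      · simp [addEl, h1, h2, h3, h j (m j hj h2) h3]
    · by_cases h3 : L.row i = r
      · simp [addEl, h1, h2, h3]
      · simp [addEl, h1, h2, h3, h i (m i hi h1) h3]
    · simp [addEl, h1, h2]

/-- degeneracy in terms of the entries. -/
theorem deg_iff {L : Disp F3} {n : ℕ} (hn : n ∉ L.Z) {r : Bool} {v : ℕ → F3} :
    Deg (L.addEl n r v) L.Z n ↔
      ∃ z ∈ L.Z, ∃ α : F3, ∀ i ∈ L.Z, L.row i ≠ r → v i = α * cpy L z r i := by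
  have a : ∀ i ∈ L.Z, i ≠ n := fun i hi e => hn (e ▸ hi)
  have s1 : ∀ j ∈ L.Z, (L.addEl n r v).S n j = if L.row j = r then 0 else - v j :=
    fun j hj => by simp [addEl, a j hj]
  have s2 : ∀ i ∈ L.Z, ∀ j ∈ L.Z, (L.addEl n r v).S i j = L.S i j :=
    fun i hi j hj => by simp [addEl, a i hi, a j hj]
  have bb : ∀ x y : Bool, x ≠ r → y ≠ r → x = y := by cases r <;> decide
  constructor
  · rintro ⟨z, hz, α, h⟩
    by_cases hr : L.row z = r
    · refine ⟨z, hz, α, fun i hi k => ?_⟩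
      have e := h i hi (fun e => k (e ▸ hr))
      rw [s1 i hi, s2 z hz i hi, if_neg k, L.skew z i] at e
      simp only [cpy, hr, if_true]
      linear_combination -e
    · refine ⟨z, hz, v z, fun i hi k => ?_⟩
      by_cases hi' : i = z
      · simp [cpy, hr, hi']
      · have e := h i hi hi'
        rw [s1 i hi, s2 z hz i hi, if_neg k, L.bip z i (bb _ _ hr k)] at e
        simp only [cpy, hr, hi', if_false]
        linear_combination -e
  · rintro ⟨z, hz, α, h⟩
    by_cases hr : L.row z = r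
    · refine ⟨z, hz, α, fun j hj _ => ?_⟩
      rw [s1 j hj, s2 z hz j hj]
      split_ifs with k
      · rw [L.bip z j (hr.trans k.symm), mul_zero]
      · rw [h j hj k, L.skew z j]; simp [cpy, hr]
    · refine ⟨z, hz, 0, fun j hj hj' => ?_⟩
      rw [s1 j hj, zero_mul]
      split_ifs with k
      · rfl
      · rw [h j hj k]; simp [cpy, hr, hj']

theorem deg_sign {L : Disp F3} {n : ℕ} (hn : n ∉ L.Z) {r : Bool} {u v : ℕ → F3} {s : F3}
    (hs : s * s = 1) (h : ∀ i ∈ L.Z, L.row i ≠ r → v i = s * u i)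
    (hd : Deg (L.addEl n r u) L.Z n) : Deg (L.addEl n r v) L.Z n := by
  obtain ⟨z, hz, α, k⟩ := (deg_iff hn).1 hd
  exact (deg_iff hn).2 ⟨z, hz, s * α, fun i hi e => by rw [h i hi e, k i hi e, mul_assoc]⟩

theorem cover_nil (Bad : Disp F3 → Prop) {L : Disp F3} (n : ℕ) {r : Bool}
    (h : ∀ i ∈ L.Z, L.row i = r) : Cover Bad L n r [fun _ => 0] :=
  fun _ => Or.inr ⟨_, List.mem_singleton.2 rfl, 1, one_mul 1, fun i hi k => absurd (h i hi) k⟩

/-- a cover of `L` with `k` removed extends to `L`. -/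
theorem cover_step {Bad : Disp F3 → Prop} (hBad : ∀ G D, Minor G D → Bad G → Bad D)
    {L L0 : Disp F3} {n k : ℕ} (hn : n ∉ L.Z) (hZ : L.Z = insert k L0.Z) (ha : Agree L0 L L0.Z)
    {r : Bool} {A0 A : List (ℕ → F3)} (h0 : Cover Bad L0 n r A0)
    (h : ∀ u ∈ A0, ∀ c : F3, (L.row k = r → c = 0) → Bad (L.addEl n r (Function.update u k c)) ∨
      ∃ u' ∈ A, ∃ s : F3, s * s = 1 ∧
        ∀ i ∈ L.Z, L.row i ≠ r → Function.update u k c i = s * u' i) :
    Cover Bad L n r A := by
  intro v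
  have sub : ∀ i ∈ L0.Z, i ∈ L.Z := fun i hi => hZ ▸ mem_insert_of_mem hi
  rcases h0 v with hb | ⟨u, hu, s, hs, e⟩
  · refine Or.inl (hBad _ _ (emb_of_agree ?_ ⟨fun i hi => ?_, fun i hi j hj => ?_⟩).minor hb)
    · exact insert_subset_insert _ sub
    · by_cases h1 : i = n
      · simp [addEl, h1]
      · simp [addEl, h1, ha.1 i ((mem_insert.1 hi).resolve_left h1)]
    · by_cases h1 : i = n <;> by_cases h2 : j = n
      · simp [addEl, h1, h2]
      · simp [addEl, h1, h2, ha.1 j ((mem_insert.1 hj).resolve_left h2)]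
      · simp [addEl, h1, h2, ha.1 i ((mem_insert.1 hi).resolve_left h1)]
      · simp [addEl, h1, h2, ha.2 i ((mem_insert.1 hi).resolve_left h1) j
          ((mem_insert.1 hj).resolve_left h2)]
  · have e' : ∀ i ∈ L.Z, L.row i ≠ r →
        v i = s * Function.update u k (if L.row k = r then 0 else s * v k) i := fun i hi hr => by
      by_cases h1 : i = k
      · subst h1
        rw [Function.update_self, if_neg hr, ← mul_assoc, hs, one_mul]
      · have hi0 : i ∈ L0.Z := (mem_insert.1 (hZ ▸ hi)).resolve_left h1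
        rw [Function.update_of_ne h1]
        exact e i hi0 (by rwa [← ha.1 i hi0])
    rcases h u hu (if L.row k = r then 0 else s * v k) (fun hr => if_pos hr) with
      hb | ⟨u', hu', s', hs', e''⟩
    · exact Or.inl (hBad _ _ (emb_addEl_sign hn hs e').minor hb)
    · refine Or.inr ⟨u', hu', s * s', ?_, fun i hi hr => ?_⟩
      · rw [mul_mul_mul_comm, hs, hs', one_mul]
      · rw [e' i hi hr, e'' i hi hr, mul_assoc]

/-- the hypothesis `h1` of `closure` from a cover. -/
theorem up_of_cover {Bad : Disp F3 → Prop} (hBad : ∀ G D, Minor G D → Bad G → Bad D)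
    {𝓜 : List (Disp F3)} {L : Disp F3} {n : ℕ} (hn : n ∉ L.Z) {r : Bool} {A : List (ℕ → F3)}
    (hc : Cover Bad L n r A)
    (h : ∀ u ∈ A, Deg (L.addEl n r u) L.Z n ∨ Up Bad 𝓜 L (L.addEl n r u)) (v : ℕ → F3)
    (hv : ¬ Deg (L.addEl n r v) L.Z n) : Up Bad 𝓜 L (L.addEl n r v) := by
  rcases hc v with hb | ⟨u, hu, s, hs, e⟩
  · exact Or.inl hb
  · have m := (emb_addEl_sign hn hs e).minor
    rcases h u hu with k | k | ⟨L', k1, k2, k3⟩
    · exact absurd (deg_sign hn hs e k) hv
    · exact Or.inl (hBad _ _ m k)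
    · exact Or.inr ⟨L', k1, k2, k3.trans m⟩

end Pool.Agent.Lib.MP_c69b6d_co.F
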