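import Pool.Agent.Lib.MP_c69b6d_co.F.CkE
import Pool.Agent.Lib.MP_c69b6d_co.F.CkB
import Pool.Agent.Lib.MP_c69b6d_co.F.Clos

/-! Soundness of the cover checkers and of the rank tests. -/

namespace Pool.Agent.Lib.MP_c69b6d_co.F

open Finset Disp CD

theorem notB_eq (a : Bool) : notB a = !a := by cases a <;> rfl

theorem anyLt_iff {n : ℕ} {f : ℕ → Bool} : anyLt n f = true ↔ ∃ i < n, f i = true := by
  induction n with
  | zero => exact ⟨fun h => absurd h Bool.false_ne_true, fun ⟨i, hi, _⟩ => absurd hi (Nat.not_lt_zero i)⟩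
  | succ n ih =>
    change orB (f n) (anyLt n f) = true ↔ _
    rw [orB_iff, ih]
    constructor
    · rintro (h | ⟨i, hi, h⟩)
      · exact ⟨n, Nat.lt_succ_self n, h⟩
      · exact ⟨i, Nat.lt_succ_of_lt hi, h⟩
    · rintro ⟨i, hi, h⟩
      rcases Nat.lt_succ_iff_lt_or_eq.1 hi with e | e
      · exact Or.inr ⟨i, e, h⟩
      · exact Or.inl (e ▸ h)

theorem allI_aux {n : ℕ} {f : ℕ → ℕ → Bool} (l : List ℕ) : ∀ j : ℕ,
    List.rec (motive := fun _ => ℕ → Bool) (fun i => Nat.beq i n)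
      (fun x _ r i => andB (f i x) (r (Nat.succ i))) l j = true →
    ∀ i, j ≤ i → i < n → ∃ x, f i x = true := by
  induction l with
  | nil =>
    intro j h i hj hi
    have e : j = n := Nat.eq_of_beq_eq_true h
    omega
  | cons x t ih =>
    intro j h i hj hi
    obtain ⟨h1, h2⟩ := andB_iff.1 h
    rcases Nat.eq_or_lt_of_le hj with e | e
    · exact ⟨x, e ▸ h1⟩
    · exact ih _ h2 i e hi

theorem allI_sound {n : ℕ} {l : List ℕ} {f : ℕ → ℕ → Bool} (h : allI n l f = true) :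
    ∀ i < n, ∃ x, f i x = true := fun i hi => allI_aux l 0 h i (Nat.zero_le i) hi

theorem memL_iff {x : ℕ} {l : List ℕ} : memL x l = true ↔ x ∈ l := by
  unfold memL
  rw [anyL_iff]
  constructor
  · rintro ⟨i, hi, h⟩
    exact Nat.eq_of_beq_eq_true h ▸ hi
  · intro h
    exact ⟨x, h, Nat.beq_refl x⟩

theorem pop_iff {l : List ℕ} {k : ℕ → List ℕ → Bool} :
    pop l k = true ↔ ∃ x t, l = x :: t ∧ k x t = true := by
  cases l with
  | nil => exact ⟨fun h => absurd h Bool.false_ne_true, fun ⟨_, _, h, _⟩ => by cases h⟩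
  | cons a l =>
    refine ⟨fun h => ⟨a, l, rfl, h⟩, ?_⟩
    rintro ⟨x, t, h, h'⟩
    cases h
    exact h'

theorem vp_or_bit {u k : ℕ} (hk : k < 32) (i : ℕ) :
    (vp (u ||| bit k)).testBit i = ((vp u).testBit i || decide (k = i)) := by
  rw [testBit_vp, testBit_vp, Nat.testBit_or, testBit_bit]
  by_cases e : k = i
  · subst e; simp [hk]
  · simp [e]

theorem vm_or_bit {u k : ℕ} (hk : k < 32) (i : ℕ) :
    (vm (u ||| bit k)).testBit i = (vm u).testBit i := by
  rw [testBit_vm, testBit_vm, Nat.testBit_or, testBit_bit, decide_eq_false (by omega), Bool.or_false]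

theorem vp_or_bit' (u k i : ℕ) : (vp (u ||| bit (k + 32))).testBit i = (vp u).testBit i := by
  rw [testBit_vp, testBit_vp, Nat.testBit_or, testBit_bit]
  by_cases e : i < 32
  · rw [decide_eq_false (by omega : ¬ k + 32 = i), Bool.or_false]
  · simp [e]

theorem vm_or_bit' (u k i : ℕ) :
    (vm (u ||| bit (k + 32))).testBit i = ((vm u).testBit i || decide (k = i)) := by
  rw [testBit_vm, testBit_vm, Nat.testBit_or, testBit_bit]
  by_cases e : k = i
  · subst e; simp [Nat.add_comm]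
  · rw [decide_eq_false (by omega : ¬ k + 32 = 32 + i), decide_eq_false e]

theorem vset_spec {K u k c : ℕ} (h : VOn K u) (hk : k < 32) (h0 : vec u k = 0) (hc : c < 3) :
    VOn (K ||| bit k) (vset u k c) ∧ vec (vset u k c) = Function.update (vec u) k (c : F3) := by
  have hz : (vp u ||| vm u).testBit k = false := by
    cases e : (vp u ||| vm u).testBit k
    · rfl
    · exact absurd h0 (val_ne_zero.2 e)
  rw [Nat.testBit_or, Bool.or_eq_false_iff] at hz
  have hd := ck_disj.1 h.1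
  have hs : ∀ i, ((vp u).testBit i || (vm u).testBit i) = true → i < 32 ∧ K.testBit i = true :=
    fun i hi => h.2 i (by rw [Nat.testBit_or]; exact hi)
  interval_cases c
  · change VOn (K ||| bit k) u ∧ vec u = _
    refine ⟨h.mono fun i hi => by rw [Nat.testBit_or, hi, Bool.true_or], ?_⟩
    rw [Nat.cast_zero, ← h0, Function.update_eq_self]
  · change VOn (K ||| bit k) (u ||| bit k) ∧ vec (u ||| bit k) = _
    refine ⟨⟨ck_disj.2 fun i => ?_, fun i hi => ?_⟩, funext fun i => ?_⟩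
    · rw [vp_or_bit hk, vm_or_bit hk]
      by_cases e : k = i
      · subst e; rw [hz.2, Bool.and_false]
      · rw [decide_eq_false e, Bool.or_false, hd]
    · rw [Nat.testBit_or, vp_or_bit hk, vm_or_bit hk] at hi
      rw [Nat.testBit_or, testBit_bit]
      by_cases e : k = i
      · subst e; simp [hk]
      · rw [decide_eq_false e, Bool.or_false] at hi ⊢
        exact hs i hi
    · by_cases e : i = k
      · subst e
        rw [Function.update_self]
        simp [vec, val, vp_or_bit hk]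
      · rw [Function.update_of_ne e]
        simp only [vec, val, vp_or_bit hk, vm_or_bit hk, decide_eq_false (Ne.symm e), Bool.or_false]
  · change VOn (K ||| bit k) (u ||| bit (k + 32)) ∧ vec (u ||| bit (k + 32)) = _
    refine ⟨⟨ck_disj.2 fun i => ?_, fun i hi => ?_⟩, funext fun i => ?_⟩
    · rw [vp_or_bit', vm_or_bit']
      by_cases e : k = i
      · subst e; rw [hz.1, Bool.false_and]
      · rw [decide_eq_false e, Bool.or_false, hd]
    · rw [Nat.testBit_or, vp_or_bit', vm_or_bit'] at hi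
      rw [Nat.testBit_or, testBit_bit]
      by_cases e : k = i
      · subst e; simp [hk]
      · rw [decide_eq_false e, Bool.or_false] at hi ⊢
        exact hs i hi
    · by_cases e : i = k
      · subst e
        rw [Function.update_self]
        simp only [vec, val, vp_or_bit', vm_or_bit', hz.1, hz.2, decide_true, Bool.false_or]
        decide
      · rw [Function.update_of_ne e]
        simp only [vec, val, vp_or_bit', vm_or_bit', decide_eq_false (Ne.symm e), Bool.or_false]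

theorem testBit_rng (lo n i : ℕ) : (rng lo n).testBit i = decide (lo ≤ i ∧ i < lo + n) := by
  change ((bit n - 1) <<< lo).testBit i = _
  rw [Nat.testBit_shiftLeft, bit_eq, Nat.testBit_two_pow_sub_one, Bool.eq_iff_iff,
    Bool.and_eq_true, decide_eq_true_iff, decide_eq_true_iff, decide_eq_true_iff]
  omega

theorem phiN_eq (F i : ℕ) : phiN F i = phi F i :=
  Nat.and_two_pow_sub_one_eq_mod (F >>> (6 * i)) 5

theorem phi_lt (F i : ℕ) : phi F i < 32 := Nat.mod_lt _ (by norm_num)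

theorem testBit_imR (F lo n j : ℕ) :
    (imR F lo n).testBit j = true ↔ ∃ i < n, phi F (lo + i) = j := by
  induction n with
  | zero =>
    change (0 : ℕ).testBit j = true ↔ _
    simp
  | succ n ih =>
    change (bit (phiN F (lo + n)) ||| imR F lo n).testBit j = true ↔ _
    rw [Nat.testBit_or, Bool.or_eq_true, ih, testBit_bit, decide_eq_true_iff, phiN_eq]
    constructor
    · rintro (h | ⟨i, hi, h⟩)
      · exact ⟨n, Nat.lt_succ_self n, h⟩
      · exact ⟨i, Nat.lt_succ_of_lt hi, h⟩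
    · rintro ⟨i, hi, h⟩
      rcases Nat.lt_succ_iff_lt_or_eq.1 hi with e | e
      · exact Or.inr ⟨i, e, h⟩
      · exact Or.inl (e ▸ h)

theorem mem_fs_rng {lo n i : ℕ} (h : lo + n ≤ 32) : i ∈ fs (rng lo n) ↔ lo ≤ i ∧ i < lo + n := by
  rw [mem_fs, testBit_rng, decide_eq_true_iff]
  omega

theorem fs_imR (F : ℕ) {lo n : ℕ} (h : lo + n ≤ 32) :
    fs (imR F lo n) = (fs (rng lo n)).image (phi F) := by
  ext j
  rw [mem_fs, testBit_imR, mem_image]
  constructor
  · rintro ⟨_, i, hi, e⟩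
    exact ⟨lo + i, (mem_fs_rng h).2 ⟨by omega, by omega⟩, e⟩
  · rintro ⟨i, hi, e⟩
    obtain ⟨h1, h2⟩ := (mem_fs_rng h).1 hi
    refine ⟨e ▸ phi_lt F i, i - lo, by omega, ?_⟩
    rw [Nat.add_sub_cancel' h1, e]

theorem Cover.mono {Bad : Disp F3 → Prop} {L : Disp F3} {n : ℕ} {r : Bool} {A A' : List (ℕ → F3)}
    (h : Cover Bad L n r A) (hA : ∀ u ∈ A, u ∈ A') : Cover Bad L n r A' := fun v =>
  (h v).imp id fun ⟨u, hu, e⟩ => ⟨u, hA u hu, e⟩

/-- the pattern `w` is kept or it has a certificate. -/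
def CovOK (t : Tb) (b : ℕ) (C : CD) (r : Bool) (w : ℕ) (A : List ℕ) : Prop :=
  w ∈ A ∨ ∃ N, bad t b (C.add 24 r w) N = true

theorem CovOK.mono {t : Tb} {b : ℕ} {C : CD} {r : Bool} {w : ℕ} {A A' : List ℕ}
    (h : CovOK t b C r w A) (hA : ∀ x ∈ A, x ∈ A') : CovOK t b C r w A' :=
  Or.imp (hA w) id h

theorem cov1_spec {t : Tb} {b : ℕ} {C : CD} {r : Bool} {w : ℕ} {k : List ℕ → List ℕ → Bool}
    {its A : List ℕ} (h : cov1 t b C r w k its A = true) :
    CovOK t b C r w A ∧ ∃ its' A', (∀ x ∈ A', x ∈ A) ∧ k its' A' = true := by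
  obtain ⟨i, its', -, h⟩ := pop_iff.1 h
  rw [cnd_eq] at h
  split_ifs at h
  · obtain ⟨a, A', rfl, h⟩ := pop_iff.1 h
    obtain ⟨h1, h2⟩ := andB_iff.1 h
    have e : a = w := Nat.eq_of_beq_eq_true h1
    exact ⟨Or.inl (e ▸ List.mem_cons_self), its', A', fun x hx => List.mem_cons_of_mem _ hx, h2⟩
  · obtain ⟨h1, h2⟩ := andB_iff.1 h
    exact ⟨Or.inr ⟨i, h1⟩, its', A, fun x hx => hx, h2⟩

theorem covRec_spec {t : Tb} {b : ℕ} {C : CD} {r : Bool} {k : ℕ} (s : Bool) (A0 : List ℕ) :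
    ∀ its A : List ℕ, List.rec (motive := fun _ => List ℕ → List ℕ → Bool) (fun _ _ => true)
      (fun u _ rec => cov1 t b C r u (cnd s
        (cov1 t b C r (Nat.lor u (bit k)) (cnd (Nat.beq u 0) rec
          (cov1 t b C r (Nat.lor u (bit (Nat.add k 32))) rec))) rec)) A0 its A = true →
    ∀ u ∈ A0, CovOK t b C r u A ∧ (s = true → CovOK t b C r (u ||| bit k) A ∧
      (u ≠ 0 → CovOK t b C r (u ||| bit (k + 32)) A)) := by
  induction A0 with
  | nil => intro its A _ u hu; exact absurd hu List.not_mem_nil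
  | cons a l ih =>
    intro its A h
    have tail : ∀ its' A', (∀ x ∈ A', x ∈ A) →
        List.rec (motive := fun _ => List ℕ → List ℕ → Bool) (fun _ _ => true)
          (fun u _ rec => cov1 t b C r u (cnd s
            (cov1 t b C r (Nat.lor u (bit k)) (cnd (Nat.beq u 0) rec
              (cov1 t b C r (Nat.lor u (bit (Nat.add k 32))) rec))) rec)) l its' A' = true →
        ∀ u ∈ l, CovOK t b C r u A ∧ (s = true → CovOK t b C r (u ||| bit k) A ∧
          (u ≠ 0 → CovOK t b C r (u ||| bit (k + 32)) A)) := by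
      intro its' A' hA h' u hu
      obtain ⟨p1, p2⟩ := ih its' A' h' u hu
      exact ⟨p1.mono hA, fun e => ⟨(p2 e).1.mono hA, fun e' => ((p2 e).2 e').mono hA⟩⟩
    obtain ⟨q1, its1, A1, s1, h1⟩ := cov1_spec h
    rw [List.forall_mem_cons]
    cases s
    · exact ⟨⟨q1, fun e' => absurd e' Bool.false_ne_true⟩, tail its1 A1 s1 h1⟩
    · obtain ⟨q2, its2, A2, s2, h2⟩ := cov1_spec h1
      cases e0 : Nat.beq a 0
      · rw [e0, cnd_false] at h2
        obtain ⟨q3, its3, A3, s3, h3⟩ := cov1_spec h2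
        exact ⟨⟨q1, fun _ => ⟨q2.mono s1, fun _ => q3.mono fun x hx => s1 x (s2 x hx)⟩⟩,
          tail its3 A3 (fun x hx => s1 x (s2 x (s3 x hx))) h3⟩
      · rw [e0, cnd_true] at h2
        exact ⟨⟨q1, fun _ => ⟨q2.mono s1, fun e' => absurd (Nat.eq_of_beq_eq_true e0) e'⟩⟩,
          tail its2 A2 (fun x hx => s1 x (s2 x hx)) h2⟩

theorem CovOK.concl {Bad : Disp F3 → Prop} (hBad : ∀ G D, Minor G D → Bad G → Bad D)
    {t : Tb} {b : ℕ} (ht : t.ok = true) (hB : ∀ G, BadT t b G → Bad G) {C : CD}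
    {D : Disp F3} (h : C.Rep D) (h24 : 24 ∉ D.Z) {r : Bool} {w K : ℕ} {A : List ℕ}
    (ok : CovOK t b C r w A) (hw : VOn K w) {s : F3} (hs : s * s = 1) {v : ℕ → F3}
    (hv : ∀ i, v i = s * vec w i) :
    Bad (D.addEl 24 r v) ∨ ∃ u' ∈ A.map vec, ∃ s : F3, s * s = 1 ∧
      ∀ i ∈ D.Z, D.row i ≠ r → v i = s * u' i := by
  rcases ok with e | ⟨N, e⟩
  · exact Or.inr ⟨vec w, List.mem_map_of_mem e, s, hs, fun i _ _ => hv i⟩
  · refine Or.inl (hBad _ _ (emb_addEl_sign h24 hs (u := vec w) fun i _ _ => hv i).minor ?_)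
    exact hB _ (bad_sound ht (h.add (by norm_num) h24 hw fun _ _ _ => rfl) e)

theorem covStep_sound {Bad : Disp F3 → Prop} (hBad : ∀ G D, Minor G D → Bad G → Bad D)
    {t : Tb} {b : ℕ} (ht : t.ok = true) (hB : ∀ G, BadT t b G → Bad G) {C C0 : CD}
    {D D0 : Disp F3} (h : C.Rep D) (h0 : C0.Rep D0) {k : ℕ} (hk : k ∉ D0.Z)
    (hZ : D.Z = insert k D0.Z) (ha : Agree D0 D D0.Z) (h24 : 24 ∉ D.Z) {r : Bool}
    {A0 its A : List ℕ} (hA0 : ∀ u ∈ A0, VOn (C0.side r) u) (hc : Cover Bad D0 24 r (A0.map vec))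
    (ok : covStep t b C r k A0 its A = true) :
    (∀ u ∈ A, VOn (C.side r) u) ∧ Cover Bad D 24 r (A.map vec) := by
  obtain ⟨ok1, ok2⟩ := andB_iff.1 ok
  refine ⟨fun u hu => von_of (allL_iff.1 ok1 u hu), cover_step hBad h24 hZ ha hc ?_⟩
  intro u' hu' c hrc
  obtain ⟨u, hu, rfl⟩ := List.mem_map.1 hu'
  obtain ⟨p0, p1⟩ := covRec_spec _ A0 its A ok2 u hu
  have hkZ : k ∈ D.Z := hZ ▸ mem_insert_self k _
  have hk32 : k < 32 := (h.lt hkZ).trans (by norm_num)
  have hv := hA0 u hu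
  have hu0 : vec u k = 0 := by
    refine hv.zero_off ?_
    cases e : (C0.side r).testBit k
    · rfl
    · exact absurd ((h0.side r k).1 e).1 hk
  obtain ⟨c, hc3, rfl⟩ := f3_cases c
  have sp := vset_spec hv hk32 hu0 hc3
  have side : (c : F3) ≠ 0 → tb (C.side r) k = true := fun e => by
    rw [tb_eq]
    exact (h.side r k).2 ⟨hkZ, fun e' => e (hrc e')⟩
  interval_cases c
  · exact p0.concl hBad ht hB h h24 sp.1 (one_mul 1) fun i => by rw [← sp.2, one_mul]; rfl
  · exact (p1 (side (by decide))).1.concl hBad ht hB h h24 sp.1 (one_mul 1) fun i => by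
      rw [← sp.2, one_mul]; rfl
  · by_cases e : u = 0
    · have sp1 := vset_spec hv hk32 hu0 (c := 1) (by norm_num)
      refine (p1 (side (by decide))).1.concl hBad ht hB h h24 sp1.1 (s := -1) (by decide)
        fun i => ?_
      have e1 : vec (u ||| bit k) = Function.update (vec u) k ((1 : ℕ) : F3) := sp1.2
      rw [e1]
      subst e
      by_cases e' : i = k
      · subst e'
        rw [Function.update_self, Function.update_self]
        decide
      · rw [Function.update_of_ne e', Function.update_of_ne e', vec_zero, mul_zero]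
    · exact ((p1 (side (by decide))).2 e).concl hBad ht hB h h24 sp.1 (one_mul 1) fun i => by
        rw [← sp.2, one_mul]; rfl

theorem covChain_sound {Bad : Disp F3 → Prop} (hBad : ∀ G D, Minor G D → Bad G → Bad D)
    {t : Tb} {b : ℕ} (ht : t.ok = true) (hB : ∀ G, BadT t b G → Bad G) {C : CD} {D : Disp F3}
    (h : C.Rep D) (h24 : 24 ∉ D.Z) {r : Bool} {Af : List ℕ} (st : List (ℕ × List ℕ × List ℕ)) :
    ∀ (U : ℕ) (A : List ℕ), (∀ u ∈ A, VOn ((C.res U).side r) u) →
      Cover Bad (D.restrict (D.Z.filter fun i => U.testBit i = true)) 24 r (A.map vec) →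
      covChain t b C r Af st U A = true → Cover Bad D 24 r (Af.map vec) := by
  induction st with
  | nil =>
    intro U A _ hc ok
    obtain ⟨o1, o2⟩ := andB_iff.1 ok
    have e : U = C.zm := Nat.eq_of_beq_eq_true o1
    have e' : (D.Z.filter fun i => U.testBit i = true) = D.Z :=
      filter_true_of_mem fun i hi => e ▸ h.mem.1 hi
    rw [e', restrict_self] at hc
    refine hc.mono fun u hu => ?_
    obtain ⟨w, hw, rfl⟩ := List.mem_map.1 hu
    exact List.mem_map_of_mem (memL_iff.1 (allL_iff.1 o2 w hw))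
  | cons s st ih =>
    intro U A hA hc ok
    obtain ⟨o1, ok⟩ := andB_iff.1 ok
    obtain ⟨o2, ok⟩ := andB_iff.1 ok
    obtain ⟨o3, o4⟩ := andB_iff.1 ok
    rw [tb_eq] at o1 o2
    have o1' : (C.zm ^^^ U).testBit s.1 = true := o1
    rw [Nat.testBit_xor, o2] at o1'
    have hU : U.testBit s.1 = false := by
      revert o1'; cases U.testBit s.1 <;> decide
    have hkZ : s.1 ∈ D.Z := h.mem.2 o2
    have r0 := h.res (U := U) (W := D.Z.filter fun i => U.testBit i = true) fun i => mem_filter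
    have r1 := h.res (U := U ||| bit s.1)
      (W := D.Z.filter fun i => (U ||| bit s.1).testBit i = true) fun i => mem_filter
    have hZ : (D.Z.filter fun i => (U ||| bit s.1).testBit i = true) =
        insert s.1 (D.Z.filter fun i => U.testBit i = true) := by
      ext i
      rw [mem_insert, mem_filter, mem_filter, Nat.testBit_or, Bool.or_eq_true, testBit_bit,
        decide_eq_true_iff]
      constructor
      · rintro ⟨a, e | e⟩
        · exact Or.inr ⟨a, e⟩
        · exact Or.inl e.symm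
      · rintro (e | ⟨a, e⟩)
        · exact ⟨e ▸ hkZ, Or.inr e.symm⟩
        · exact ⟨a, Or.inl e⟩
    have key := covStep_sound hBad ht hB r1 r0 (k := s.1)
      (fun e => by
        have := (mem_filter.1 e).2
        rw [hU] at this
        exact Bool.false_ne_true this)
      hZ ⟨fun _ _ => rfl, fun _ _ _ _ => rfl⟩ (fun e => h24 (mem_filter.1 e).1) hA hc o3
    exact ih _ _ key.1 key.2 o4

theorem covAll_sound {Bad : Disp F3 → Prop} (hBad : ∀ G D, Minor G D → Bad G → Bad D)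
    {t : Tb} {b : ℕ} (ht : t.ok = true) (hB : ∀ G, BadT t b G → Bad G) {C : CD} {D : Disp F3}
    (h : C.Rep D) (h24 : 24 ∉ D.Z) {r : Bool} {Af : List ℕ} {st : List (ℕ × List ℕ × List ℕ)}
    (ok : covAll t b C r Af st = true) : Cover Bad D 24 r (Af.map vec) := by
  refine covChain_sound hBad ht hB h h24 st _ [0] (fun u hu => ?_) ?_ ok
  · rw [List.mem_singleton.1 hu]
    exact von_zero _
  · have e : List.map vec [0] = [fun _ => 0] := by
      rw [List.map_singleton, show vec 0 = fun _ => 0 from funext vec_zero]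
    rw [e]
    refine cover_nil Bad 24 fun i hi => ?_
    have e1 := ((h.side _ i).1 (mem_filter.1 hi).2).2
    rw [notB_eq] at e1
    change D.row i = r
    revert e1
    cases D.row i <;> cases r <;> decide

theorem beq_mod_three (x y : ℕ) : Nat.beq (x % 3) (y % 3) = true ↔ (x : F3) = (y : F3) := by
  rw [Nat.beq_eq, ZMod.natCast_eq_natCast_iff']

theorem delZ_iff {C : CD} {D : Disp F3} (h : C.Rep D) {x y b c i j : ℕ} (hx : x ∈ D.Z)
    (hy : y ∈ D.Z) (hb : b ∈ D.Z) (hc : c ∈ D.Z) (hi : i ∈ D.Z) (hj : j ∈ D.Z) :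
    delZ C x y b c i j = true ↔ (D.S x b * D.S y c - D.S x c * D.S y b) * D.S i j =
      D.S i b * (D.S y c * D.S x j - D.S x c * D.S y j) +
        D.S i c * (D.S x b * D.S y j - D.S y b * D.S x j) := by
  rw [h.sN hx hb, h.sN hy hc, h.sN hx hc, h.sN hy hb, h.sN hi hj, h.sN hi hb, h.sN hi hc,
    h.sN hx hj, h.sN hy hj]
  change Nat.beq (((C.sN x b * C.sN y c + 2 * (C.sN x c * C.sN y b)) * C.sN i j) % 3)
    ((C.sN i b * (C.sN y c * C.sN x j + 2 * (C.sN x c * C.sN y j)) +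
      C.sN i c * (C.sN x b * C.sN y j + 2 * (C.sN y b * C.sN x j))) % 3) = true ↔ _
  rw [beq_mod_three]
  push_cast
  rw [show (2 : F3) = -1 by decide]
  constructor <;> intro e <;> linear_combination e

theorem detNZ_iff {C : CD} {D : Disp F3} (h : C.Rep D) {x y b c : ℕ} (hx : x ∈ D.Z)
    (hy : y ∈ D.Z) (hb : b ∈ D.Z) (hc : c ∈ D.Z) :
    detNZ C x y b c = true ↔ D.S x b * D.S y c - D.S x c * D.S y b ≠ 0 := by
  rw [h.sN hx hb, h.sN hy hc, h.sN hx hc, h.sN hy hb]
  change notB (Nat.beq ((C.sN x b * C.sN y c) % 3) ((C.sN x c * C.sN y b) % 3)) = true ↔ _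
  rw [notB_eq, Bool.not_eq_true', ← Bool.not_eq_true, beq_mod_three, sub_ne_zero]
  push_cast
  rfl

/-- the content of `basicB`. -/
theorem basic_sound {C : CD} {nx ny : ℕ} (h : basicB C nx ny = true) :
    C.WF ∧ C.zm = rng 0 (nx + ny) ∧ 2 ≤ nx ∧ 4 ≤ ny ∧ nx + ny ≤ 24 ∧
      (∀ i, i ∈ C.toDisp.Z ↔ i < nx + ny) ∧
      C.toDisp.Z = fs (rng 0 nx) ∪ fs (rng nx ny) ∧ Disjoint (fs (rng 0 nx)) (fs (rng nx ny)) ∧
      C.toDisp.S 0 (nx + 1) * C.toDisp.S 1 (nx + 2) -
        C.toDisp.S 0 (nx + 2) * C.toDisp.S 1 (nx + 1) ≠ 0 ∧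
      C.toDisp.lam (fs (rng 0 nx)) (fs (rng nx ny)) ≤ 2 := by
  obtain ⟨h1, h⟩ := andB_iff.1 h
  obtain ⟨h2, h⟩ := andB_iff.1 h
  obtain ⟨h3, h⟩ := andB_iff.1 h
  obtain ⟨h4, h⟩ := andB_iff.1 h
  obtain ⟨h5, h⟩ := andB_iff.1 h
  obtain ⟨h6, h7⟩ := andB_iff.1 h
  have w := wf_of h1
  have z : C.zm = rng 0 (nx + ny) := Nat.eq_of_beq_eq_true h2
  have a3 : 2 ≤ nx := Nat.le_of_ble_eq_true h3
  have a4 : 4 ≤ ny := Nat.le_of_ble_eq_true h4
  have a5 : nx + ny ≤ 24 := Nat.le_of_ble_eq_true h5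
  have hm : ∀ i, i ∈ C.toDisp.Z ↔ i < nx + ny := fun i => by
    rw [toDisp_Z, z, mem_fs_rng (by omega)]
    omega
  have mX : ∀ i, i ∈ fs (rng 0 nx) ↔ i < nx := fun i => by
    rw [mem_fs_rng (by omega)]
    omega
  have mY : ∀ i, i ∈ fs (rng nx ny) ↔ nx ≤ i ∧ i < nx + ny := fun i => mem_fs_rng (by omega)
  have rp := rep_self w
  have hd : C.toDisp.S 0 (nx + 1) * C.toDisp.S 1 (nx + 2) -
      C.toDisp.S 0 (nx + 2) * C.toDisp.S 1 (nx + 1) ≠ 0 :=
    (detNZ_iff rp ((hm _).2 (by omega)) ((hm _).2 (by omega)) ((hm _).2 (by omega))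
      ((hm _).2 (by omega))).1 h6
  refine ⟨w, z, a3, a4, a5, hm, ?_, ?_, hd, ?_⟩
  · ext i
    rw [hm, mem_union, mX, mY]
    omega
  · rw [disjoint_left]
    intro i hi hi'
    rw [mX] at hi
    rw [mY] at hi'
    omega
  · rw [lam_le_two_iff ((mX 0).2 (by omega)) ((mX 1).2 (by omega)) ((mY (nx + 1)).2 (by omega))
      ((mY (nx + 2)).2 (by omega)) hd]
    intro i hi j hj
    rw [mX] at hi
    rw [mY] at hj
    have e := allLt_iff.1 h7 i hi
    rw [notB_eq, Bool.not_eq_true', ← Bool.not_eq_true] at e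
    refine (delZ_iff rp ((hm _).2 (by omega)) ((hm _).2 (by omega)) ((hm _).2 (by omega))
      ((hm _).2 (by omega)) ((hm _).2 (by omega)) ((hm _).2 (by omega))).1 ?_
    by_contra e'
    refine e (anyLt_iff.2 ⟨j - nx, by omega, ?_⟩)
    have e2 : Nat.add nx (j - nx) = j := Nat.add_sub_cancel' hj.1
    rw [e2, notB_eq, Bool.not_eq_true', ← Bool.not_eq_true]
    exact e'

end Pool.Agent.Lib.MP_c69b6d_co.F
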