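import Pool.Agent.Lib.MP_c69b6d_co.F.CkF

/-! Soundness of the blocking checker. -/

namespace Pool.Agent.Lib.MP_c69b6d_co.F

open Finset Disp CD

theorem ckg_notB {a : Bool} : notB a = true ↔ ¬ a = true := by cases a <;> simp [notB_eq]

theorem ckg_lor (a b : ℕ) : fs (Nat.lor a b) = fs a ∪ fs b := by
  ext i
  have : (Nat.lor a b).testBit i = (a.testBit i || b.testBit i) := Nat.testBit_or a b i
  simp only [mem_union, mem_fs, this, Bool.or_eq_true]
  tauto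

theorem ckg_bit {k : ℕ} (hk : k < 32) : fs (bit k) = {k} := by
  ext i
  simp only [mem_fs, testBit_bit, decide_eq_true_iff, mem_singleton]
  omega

theorem ckg_ins (a : ℕ) {k : ℕ} (hk : k < 32) : fs (Nat.lor a (bit k)) = insert k (fs a) := by
  rw [ckg_lor, ckg_bit hk, union_comm, insert_eq]

theorem ckg_rng {lo n i : ℕ} : i ∈ fs (rng lo n) ↔ i < 32 ∧ lo ≤ i ∧ i < lo + n := by
  rw [mem_fs, testBit_rng, decide_eq_true_iff]

theorem ckg_land {a b : ℕ} (h : Nat.land a b = a) : fs a ⊆ fs b := fun i hi => by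
  have e : (Nat.land a b).testBit i = (a.testBit i && b.testBit i) := Nat.testBit_and a b i
  rw [mem_fs] at hi ⊢
  rw [h, hi.2, Bool.true_and] at e
  exact ⟨hi.1, e.symm⟩

/-- a nonzero entry of the Schur complement. -/
theorem ckg_lam3 {C : CD} {G : Disp F3} (h : C.Rep G) {X Y : Finset ℕ} (hX : X ⊆ G.Z)
    (hY : Y ⊆ G.Z) {x y b c i j : ℕ} (hx : x ∈ X) (hy : y ∈ X) (hb : b ∈ Y) (hc : c ∈ Y)
    (hd : G.S x b * G.S y c - G.S x c * G.S y b ≠ 0) (hi : i ∈ X) (hj : j ∈ Y)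
    (hz : ¬ delZ C x y b c i j = true) : 3 ≤ G.lam X Y := by
  by_contra h3
  exact hz ((delZ_iff h (hX hx) (hX hy) (hY hb) (hY hc) (hX hi) (hY hj)).2
    ((lam_le_two_iff hx hy hb hc hd).1 (by omega) i hi j hj))

/-- the common part of `shB_X` and `shB_Y`. -/
theorem ckg_sh {t : Tb} (ht : t.ok = true) {NX lo n U1 U0 e N : ℕ} {xs : Bool} {C : CD}
    {G : Disp F3} (h : C.Rep G) (ok : shB t NX lo n xs U1 U0 e C N = true) :
    ∃ G1 G2 : Disp F3, ∃ σ ∈ seeds t NX lo n, ∃ (φ : ℕ → ℕ) (ε : ℕ → F3), ReachIn (fs U1) G G1 ∧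
      ReachIn (σ.L.Z.image φ) G1 G2 ∧ Emb σ.L G2 φ ε ∧
      (xs = true → σ.Y0.image φ = fs U0 ∧ σ.X0.image φ ⊆ fs U1 ∧
        3 ≤ G2.lam (σ.X0.image φ) (insert e (fs U0))) ∧
      (xs = false → σ.X0.image φ = fs U0 ∧ σ.Y0.image φ ⊆ fs U1 ∧
        3 ≤ G2.lam (insert e (fs U0)) (σ.Y0.image φ)) := by
  unfold shB at ok
  generalize Nat.land N 255 = k at ok
  generalize Nat.land (Nat.shiftRight N 12) cF = U2 at ok
  generalize Nat.land (Nat.shiftRight N 8) 15 = i at ok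
  rw [andB_iff, andB_iff, Nat.ble_eq, Nat.blt_eq] at ok
  obtain ⟨k1, k2, ok⟩ := ok
  obtain ⟨E1, G1, N1, r1, h1, -, -, ok⟩ := pivs_sound h ok
  obtain ⟨E2, G2, F, r2, h2, -, -, ok⟩ := pivs_sound h1 ok
  have hx15 : nxOf NX k ≤ 15 := Nat.and_le_right
  have hy15 : nyOf NX k ≤ 15 := Nat.and_le_right
  have hσ : seedOf (t.get k).C (nxOf NX k) (nyOf NX k) ∈ seeds t NX lo n :=
    List.mem_map.2 ⟨k, List.mem_range'_1.2 ⟨k1, k2⟩, rfl⟩
  have hT := Tb.get_ok ht k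
  generalize nxOf NX k = nx at ok hx15 hσ
  generalize nyOf NX k = ny at ok hy15 hσ
  generalize t.get k = T at ok hσ hT
  unfold shEnd at ok
  simp only [andB_iff, Nat.beq_eq, Nat.ble_eq, phiN_eq, tb_eq, Nat.add_eq] at ok
  obtain ⟨he, hz, hU2, hez, hnx, hny, hd, ok⟩ := ok
  have emb := emb_sound hT h2 he
  have eX := fs_imR F (show 0 + nx ≤ 32 by omega)
  have eY := fs_imR F (show nx + ny ≤ 32 by omega)
  have hZ : T.C.toDisp.Z = fs (rng 0 nx) ∪ fs (rng nx ny) := by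
    rw [toDisp_Z, hz]
    ext j
    simp only [mem_union, ckg_rng]
    omega
  have sX : (fs (rng 0 nx)).image (phi F) ⊆ G2.Z :=
    image_subset_iff.2 fun j hj => emb.mem j (hZ ▸ mem_union_left _ hj)
  have sY : (fs (rng nx ny)).image (phi F) ⊆ G2.Z :=
    image_subset_iff.2 fun j hj => emb.mem j (hZ ▸ mem_union_right _ hj)
  have mX : ∀ j, j < nx → phi F j ∈ (fs (rng 0 nx)).image (phi F) := fun j hj =>
    mem_image_of_mem _ (ckg_rng.2 (by omega))
  have mY : ∀ j, j < ny → phi F (nx + j) ∈ (fs (rng nx ny)).image (phi F) := fun j hj =>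
    mem_image_of_mem _ (ckg_rng.2 (by omega))
  have he' : e ∈ G2.Z := h2.mem.2 hez
  have hd' := (detNZ_iff h2 (sX (mX 0 (by omega))) (sX (mX 1 (by omega))) (sY (mY 1 (by omega)))
    (sY (mY 2 (by omega)))).1 hd
  refine ⟨G1, G2, _, hσ, phi F, eps F, r1.mono inter_subset_left, r2.mono ?_, emb, ?_, ?_⟩
  · change _ ⊆ T.C.toDisp.Z.image (phi F)
    rw [hZ, image_union, ← eX, ← eY, ← ckg_lor, hU2]
    exact inter_subset_left
  · rintro rfl
    simp only [cnd_true, andB_iff, Nat.beq_eq, Nat.blt_eq, ckg_notB] at ok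
    obtain ⟨o1, o2, o3, o4⟩ := ok
    have e0 : (fs (rng nx ny)).image (phi F) = fs U0 := by rw [← eY, o1]
    refine ⟨e0, eX ▸ ckg_land o2, ?_⟩
    rw [← e0]
    exact ckg_lam3 h2 sX (insert_subset he' sY) (mX 0 (by omega)) (mX 1 (by omega))
      (mem_insert_of_mem (mY 1 (by omega))) (mem_insert_of_mem (mY 2 (by omega))) hd' (mX i o3)
      (mem_insert_self _ _) o4
  · rintro rfl
    simp only [cnd_false, andB_iff, Nat.beq_eq, Nat.blt_eq, ckg_notB] at ok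
    obtain ⟨o1, o2, o3, o4⟩ := ok
    have e0 : (fs (rng 0 nx)).image (phi F) = fs U0 := by rw [← eX, o1]
    refine ⟨e0, eY ▸ ckg_land o2, ?_⟩
    rw [← e0]
    exact ckg_lam3 h2 (insert_subset he' sX) sY (mem_insert_of_mem (mX 0 (by omega)))
      (mem_insert_of_mem (mX 1 (by omega))) (mY 1 (by omega)) (mY 2 (by omega)) hd'
      (mem_insert_self _ _) (mY i o3) o4

theorem shB_X {t : Tb} (ht : t.ok = true) {NX lo n U1 U0 e N : ℕ} {C : CD} {G : Disp F3}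
    (h : C.Rep G) (ok : shB t NX lo n true U1 U0 e C N = true) :
    ShX (seeds t NX lo n) G (fs U1) (fs U0) e := by
  obtain ⟨G1, G2, σ, hσ, φ, ε, a1, a2, a3, a4, -⟩ := ckg_sh ht h ok
  exact ⟨G1, G2, σ, hσ, φ, ε, a1, a2, a3, a4 rfl⟩

theorem shB_Y {t : Tb} (ht : t.ok = true) {NX lo n U1 U0 e N : ℕ} {C : CD} {G : Disp F3}
    (h : C.Rep G) (ok : shB t NX lo n false U1 U0 e C N = true) :
    ShY (seeds t NX lo n) G (fs U0) (fs U1) e := by
  obtain ⟨G1, G2, σ, hσ, φ, ε, a1, a2, a3, -, a4⟩ := ckg_sh ht h ok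
  exact ⟨G1, G2, σ, hσ, φ, ε, a1, a2, a3, a4 rfl⟩

/-- a display which contains the separation of a seed. -/
structure CkgExt (nx ny : ℕ) (E : CD) (G : Disp F3) : Prop where
  rep : E.Rep G
  hx : 2 ≤ nx
  hy : 4 ≤ ny
  hs : nx + ny ≤ 24
  mem : ∀ i < nx + ny, i ∈ G.Z
  det : G.S 0 (nx + 1) * G.S 1 (nx + 2) - G.S 0 (nx + 2) * G.S 1 (nx + 1) ≠ 0
  lam : G.lam (fs (rng 0 nx)) (fs (rng nx ny)) ≤ 2

namespace CkgExt

variable {nx ny : ℕ} {E : CD} {G : Disp F3}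

theorem mX (h : CkgExt nx ny E G) {i : ℕ} : i ∈ fs (rng 0 nx) ↔ i < nx := by
  have := h.hs
  rw [ckg_rng]
  omega

theorem mY (h : CkgExt nx ny E G) {i : ℕ} : i ∈ fs (rng nx ny) ↔ nx ≤ i ∧ i < nx + ny := by
  have := h.hs
  rw [ckg_rng]
  omega

theorem sX (h : CkgExt nx ny E G) : fs (rng 0 nx) ⊆ G.Z := fun i hi =>
  h.mem i (by have := h.mX.1 hi; omega)

theorem sY (h : CkgExt nx ny E G) : fs (rng nx ny) ⊆ G.Z := fun i hi => h.mem i (h.mY.1 hi).2

theorem m0 (h : CkgExt nx ny E G) : 0 ∈ fs (rng 0 nx) := h.mX.2 (by have := h.hx; omega)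

theorem m1 (h : CkgExt nx ny E G) : 1 ∈ fs (rng 0 nx) := h.mX.2 (by have := h.hx; omega)

theorem mb (h : CkgExt nx ny E G) : nx + 1 ∈ fs (rng nx ny) := h.mY.2 (by have := h.hy; omega)

theorem mc (h : CkgExt nx ny E G) : nx + 2 ∈ fs (rng nx ny) := h.mY.2 (by have := h.hy; omega)

theorem add (h : CkgExt nx ny E G) {m u K : ℕ} {r : Bool} (hm : m < 31) (hm' : m ∉ G.Z)
    (hu : VOn K u) {v : ℕ → F3} (hv : ∀ i ∈ G.Z, G.row i ≠ r → v i = vec u i) :
    CkgExt nx ny (E.add m r u) (G.addEl m r v) := by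
  have ag := (agree_addEl G hm' r v).2
  refine ⟨h.rep.add hm hm' hu hv, h.hx, h.hy, h.hs, fun i hi => mem_insert_of_mem (h.mem i hi), ?_,
    (lam_congr fun i hi j hj => ag i (h.sX hi) j (h.sY hj)).trans_le h.lam⟩
  rw [ag _ (h.sX h.m0) _ (h.sY h.mb), ag _ (h.sX h.m1) _ (h.sY h.mc),
    ag _ (h.sX h.m0) _ (h.sY h.mc), ag _ (h.sX h.m1) _ (h.sY h.mb)]
  exact h.det

theorem in_pos (h : CkgExt nx ny E G) {e : ℕ} (he : e ∈ G.Z) (ok : inB E nx e = true) :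
    3 ≤ G.lam (fs (rng 0 nx)) (insert e (fs (rng nx ny))) := by
  obtain ⟨i, hi, o⟩ := anyLt_iff.1 ok
  exact ckg_lam3 h.rep h.sX (insert_subset he h.sY) h.m0 h.m1 (mem_insert_of_mem h.mb)
    (mem_insert_of_mem h.mc) h.det (h.mX.2 hi) (mem_insert_self _ _) (ckg_notB.1 o)

theorem out_pos (h : CkgExt nx ny E G) {e : ℕ} (he : e ∈ G.Z) (ok : outB E nx ny e = true) :
    3 ≤ G.lam (insert e (fs (rng 0 nx))) (fs (rng nx ny)) := by
  obtain ⟨i, hi, o⟩ := anyLt_iff.1 ok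
  exact ckg_lam3 h.rep (insert_subset he h.sX) h.sY (mem_insert_of_mem h.m0)
    (mem_insert_of_mem h.m1) h.mb h.mc h.det (mem_insert_self _ _)
    (h.mY.2 ⟨Nat.le_add_right _ _, Nat.add_lt_add_left hi _⟩) (ckg_notB.1 o)

theorem in_neg (h : CkgExt nx ny E G) {e : ℕ} (he : e ∈ G.Z) (ok : notB (inB E nx e) = true) :
    G.lam (fs (rng 0 nx)) (insert e (fs (rng nx ny))) ≤ 2 := by
  refine (lam_le_two_iff h.m0 h.m1 (mem_insert_of_mem h.mb) (mem_insert_of_mem h.mc) h.det).2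
    fun i hi j hj => ?_
  rcases mem_insert.1 hj with rfl | hj
  · refine (delZ_iff h.rep (h.sX h.m0) (h.sX h.m1) (h.sY h.mb) (h.sY h.mc) (h.sX hi) he).1 ?_
    by_contra hz
    exact ckg_notB.1 ok (anyLt_iff.2 ⟨i, h.mX.1 hi, ckg_notB.2 hz⟩)
  · exact (lam_le_two_iff h.m0 h.m1 h.mb h.mc h.det).1 h.lam i hi j hj

theorem out_neg (h : CkgExt nx ny E G) {e : ℕ} (he : e ∈ G.Z)
    (ok : notB (outB E nx ny e) = true) :
    G.lam (insert e (fs (rng 0 nx))) (fs (rng nx ny)) ≤ 2 := by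
  refine (lam_le_two_iff (mem_insert_of_mem h.m0) (mem_insert_of_mem h.m1) h.mb h.mc h.det).2
    fun i hi j hj => ?_
  rcases mem_insert.1 hi with rfl | hi
  · refine (delZ_iff h.rep (h.sX h.m0) (h.sX h.m1) (h.sY h.mb) (h.sY h.mc) he (h.sY hj)).1 ?_
    by_contra hz
    obtain ⟨k, rfl⟩ := Nat.exists_eq_add_of_le (h.mY.1 hj).1
    exact ckg_notB.1 ok (anyLt_iff.2 ⟨k, by have := (h.mY.1 hj).2; omega, ckg_notB.2 hz⟩)
  · exact (lam_le_two_iff h.m0 h.m1 h.mb h.mc h.det).1 h.lam i hi j hj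

end CkgExt

theorem ckg_s2 {Bad : Disp F3 → Prop} {t : Tb} {b : ℕ} (ht : t.ok = true)
    (hB : ∀ G, BadT t b G → Bad G) {NX lo n nx ny N : ℕ} {C E : CD} {G : Disp F3} {r' : Bool}
    (h : CkgExt nx ny E G) (h25 : 25 ∈ G.Z) (h26 : 26 ∉ G.Z)
    (ok : s2B t b NX lo n nx ny r' E N = true) :
    S2C (seeds t NX lo n) Bad (seedOf C nx ny) r' G := by
  unfold s2B at ok
  have e24 : ∀ a, fs (Nat.lor a 0x1000000) = insert 24 (fs a) := fun a => ckg_ins a (k := 24) (by omega)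
  have e25 : ∀ a, fs (Nat.lor a 0x2000000) = insert 25 (fs a) := fun a => ckg_ins a (k := 25) (by omega)
  have e3 : ∀ a, fs (Nat.lor a 0x3000000) = insert 25 (insert 24 (fs a)) := fun a => by
    rw [← e24, ← e25]
    exact congrArg fs (Nat.or_assoc a 0x1000000 0x2000000).symm
  cases h1 : tb N 1 <;> cases h0 : tb N 0 <;>
    simp only [h1, h0, cnd_true, cnd_false, andB_iff] at ok
  · exact Or.inl (hB _ (bad_sound ht h.rep ok))
  · exact Or.inr (Or.inl (e24 _ ▸ shB_X ht h.rep ok))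
  · exact Or.inr (Or.inr (Or.inl ⟨h.out_pos h25 ok.1, e25 _ ▸ shB_Y ht h.rep ok.2⟩))
  · refine Or.inr (Or.inr (Or.inr ⟨h.out_neg h25 ok.1, ?_⟩))
    have hr : (E.add 26 (!r') (bit 25)).Rep (G.addEl 26 (!r') fun i => if i = 25 then 1 else 0) :=
      h.rep.add (K := bit 25) (by omega) h26 (von_bit (by omega) (by simp [testBit_bit]))
        fun i _ _ => (vec_bit (by omega) i).symm
    have := ok.2
    rw [notB_eq] at this
    exact e3 _ ▸ shB_X ht hr this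

theorem ckg_one {t : Tb} {b NX lo n nx ny : ℕ} {r' : Bool} {E : CD} {k : List ℕ → Bool}
    {its : List ℕ} (ok : a3one t b NX lo n nx ny r' E k its = true) :
    (delZ E 0 1 (nx + 1) (nx + 2) 24 25 = true ∨ ∃ i, s2B t b NX lo n nx ny r' E i = true) ∧
      ∃ l, k l = true := by
  unfold a3one at ok
  rw [cnd_eq] at ok
  split_ifs at ok with hz
  · exact ⟨Or.inl hz, its, ok⟩
  · obtain ⟨i, l, -, o⟩ := pop_iff.1 ok
    exact ⟨Or.inr ⟨i, (andB_iff.1 o).1⟩, l, (andB_iff.1 o).2⟩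

theorem ckg_in {t : Tb} {b NX lo n nx ny : ℕ} {r' : Bool} {E : CD} {k : List ℕ → Bool}
    {A' its : List ℕ} (ok : a3in t b NX lo n nx ny r' E k A' its = true) :
    (∀ u ∈ A', ∀ c < 3, delZ (E.add 25 r' (vset u 24 c)) 0 1 (nx + 1) (nx + 2) 24 25 = true ∨
      ∃ i, s2B t b NX lo n nx ny r' (E.add 25 r' (vset u 24 c)) i = true) ∧ ∃ l, k l = true := by
  induction A' generalizing its with
  | nil => exact ⟨fun _ h => absurd h List.not_mem_nil, its, ok⟩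
  | cons u A' ih =>
    obtain ⟨a0, l0, o0⟩ := ckg_one (E := E.add 25 r' (vset u 24 0)) ok
    obtain ⟨a1, l1, o1⟩ := ckg_one (E := E.add 25 r' (vset u 24 1)) o0
    obtain ⟨a2, l2, o2⟩ := ckg_one (E := E.add 25 r' (vset u 24 2)) o1
    obtain ⟨a3, o3⟩ := ih o2
    refine ⟨List.forall_mem_cons.2 ⟨fun c hc => ?_, a3⟩, o3⟩
    obtain rfl | rfl | rfl : c = 0 ∨ c = 1 ∨ c = 2 := by omega
    exacts [a0, a1, a2]

theorem ckg_a3 {t : Tb} {b NX lo n nx ny : ℕ} {r : Bool} {C : CD} {A A' its : List ℕ}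
    (ok : a3B t b NX lo n nx ny C r A A' its = true) :
    ∀ w ∈ A, ∀ u ∈ A', ∀ c < 3,
      delZ ((C.add 24 r w).add 25 (!r) (vset u 24 c)) 0 1 (nx + 1) (nx + 2) 24 25 = true ∨
      ∃ i, s2B t b NX lo n nx ny (!r) ((C.add 24 r w).add 25 (!r) (vset u 24 c)) i = true := by
  induction A generalizing its with
  | nil => exact fun _ h => absurd h List.not_mem_nil
  | cons w A ih =>
    obtain ⟨a, l, o⟩ := ckg_in (E := C.add 24 r w) (r' := notB r) ok
    rw [notB_eq] at a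
    exact List.forall_mem_cons.2 ⟨a, ih o⟩

theorem block_sound {Bad : Disp F3 → Prop} (hBad : ∀ G D, Minor G D → Bad G → Bad D)
    {t : Tb} {b : ℕ} (ht : t.ok = true) (hB : ∀ G, BadT t b G → Bad G) {NX lo n nx ny : ℕ} {C : CD}
    (h0 : basicB C nx ny = true) {A0 A0' A1 A1' i0 i1 : List ℕ}
    {s0 s1 : List (ℕ × List ℕ × List ℕ)}
    (c0 : covAll t b C false (A0 ++ A0') s0 = true) (c1 : covAll t b C true (A1 ++ A1') s1 = true)
    (p0 : a12B C nx ny false A0 A0' = true) (p1 : a12B C nx ny true A1 A1' = true)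
    (q0 : a3B t b NX lo n nx ny C false A0 A1' i0 = true)
    (q1 : a3B t b NX lo n nx ny C true A1 A0' i1 = true) :
    ∃ A A', BlockOK (seeds t NX lo n) Bad (seedOf C nx ny) (nx + 1) (nx + 2) A A' := by
  obtain ⟨wf, -, hx, hy, hs, hZ, -, -, hd, hl⟩ := basic_sound h0
  have hE : CkgExt nx ny C C.toDisp := ⟨rep_self wf, hx, hy, hs, fun i hi => (hZ i).2 hi, hd, hl⟩
  have nZ : ∀ i, 24 ≤ i → i ∉ C.toDisp.Z := fun i hi h => by have := (hZ i).1 h; omega
  have cc : ∀ r, Cover Bad C.toDisp 24 r ((cond r A1 A0 ++ cond r A1' A0').map vec) := fun r => by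
    cases r
    exacts [covAll_sound hBad ht hB hE.rep (nZ _ le_rfl) c0,
      covAll_sound hBad ht hB hE.rep (nZ _ le_rfl) c1]
  have pp : ∀ r, a12B C nx ny r (cond r A1 A0) (cond r A1' A0') = true := fun r => by
    cases r
    exacts [p0, p1]
  have qq : ∀ r, ∃ l, a3B t b NX lo n nx ny C r (cond r A1 A0) (cond (!r) A1' A0') l = true :=
    fun r => by
      cases r
      exacts [⟨_, q0⟩, ⟨_, q1⟩]
  have pa : ∀ r, ∀ w ∈ cond r A1 A0, vonB (C.side r) w = true ∧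
      inB (C.add 24 r w) nx 24 = true ∧ notB (outB (C.add 24 r w) nx ny 24) = true :=
    fun r w hw => by simpa only [andB_iff] using allL_iff.1 (andB_iff.1 (pp r)).1 w hw
  have pb : ∀ r, ∀ w ∈ cond r A1' A0', vonB (C.side r) w = true ∧
      notB (inB (C.add 24 r w) nx 24) = true :=
    fun r w hw => andB_iff.1 (allL_iff.1 (andB_iff.1 (pp r)).2 w hw)
  have ex : ∀ r w, vonB (C.side r) w = true →
      CkgExt nx ny (C.add 24 r w) (C.toDisp.addEl 24 r (vec w)) := fun r w hw =>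
    hE.add (by omega) (nZ _ le_rfl) (von_of hw) fun _ _ _ => rfl
  refine ⟨fun r => (cond r A1 A0).map vec, fun r => (cond r A1' A0').map vec, fun r => ?_,
    fun r u hu => ?_, fun r u hu => ?_, fun r u hu u' hu' e G hG hne => ?_⟩
  · rw [← List.map_append]
    exact cc r
  · obtain ⟨w, hw, rfl⟩ := List.mem_map.1 hu
    obtain ⟨a1, a2, a3⟩ := pa r w hw
    exact ⟨(ex r w a1).out_neg (mem_insert_self _ _) a3, (ex r w a1).in_pos (mem_insert_self _ _) a2⟩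
  · obtain ⟨w, hw, rfl⟩ := List.mem_map.1 hu
    obtain ⟨a1, a2⟩ := pb r w hw
    exact (ex r w a1).in_neg (mem_insert_self _ _) a2
  · obtain ⟨w, hw, rfl⟩ := List.mem_map.1 hu
    obtain ⟨w', hw', rfl⟩ := List.mem_map.1 hu'
    obtain ⟨c, hc, rfl⟩ := f3_cases e
    obtain ⟨l, o⟩ := qq r
    have v1 := von_of (pb _ w' hw').1
    have z24 : vec w' 24 = 0 := v1.zero_off (Bool.eq_false_iff.2 fun h =>
      nZ 24 le_rfl ((hE.rep.side _ 24).1 h).1)
    obtain ⟨v2, v3⟩ := vset_spec v1 (by omega) z24 hc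
    have n25 : 25 ∉ (C.toDisp.addEl 24 r (vec w)).Z := fun h => by
      rcases mem_insert.1 h with h | h
      exacts [by omega, nZ 25 (by omega) h]
    have h2 : CkgExt nx ny ((C.add 24 r w).add 25 (!r) (vset w' 24 c)) G := by
      rw [hG]
      exact (ex r w (pa r w hw).1).add (by omega) n25 v2 fun i _ _ => by rw [v3]
    have hGZ : G.Z = insert 25 (insert 24 C.toDisp.Z) := by rw [hG]; rfl
    have m25 : 25 ∈ G.Z := hGZ ▸ mem_insert_self _ _
    have m24 : 24 ∈ G.Z := hGZ ▸ mem_insert_of_mem (mem_insert_self _ _)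
    have n26 : 26 ∉ G.Z := fun h => by
      rw [hGZ, mem_insert, mem_insert] at h
      rcases h with h | h | h
      exacts [by omega, by omega, nZ 26 (by omega) h]
    rcases ckg_a3 o w hw w' hw' c hc with hz | ⟨i, hi⟩
    · exact absurd ((delZ_iff h2.rep (h2.sX h2.m0) (h2.sX h2.m1) (h2.sY h2.mb) (h2.sY h2.mc)
        m24 m25).1 hz) hne
    · exact ckg_s2 ht hB h2 m25 n26 hi

end Pool.Agent.Lib.MP_c69b6d_co.F
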