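import Pool.Agent.Lib.MP_c69b6d_co.F.CkF

/-! Soundness of the tameness checker. -/

namespace Pool.Agent.Lib.MP_c69b6d_co.F

open Finset Disp CD

theorem ptV_spec {C : CD} {D : Disp F3} (h : C.Rep D) {nx α β : ℕ} (hb : nx + 1 ∈ D.Z)
    (hc : nx + 2 ∈ D.Z) (rb : D.row (nx + 1) = false) (rc : D.row (nx + 2) = false) (hα : α < 3)
    (hβ : β < 3) : VOn (C.rm &&& rng 0 nx) (ptV C nx α β) ∧
      ∀ i ∈ D.Z, vec (ptV C nx α β) i = pt D (fs (rng 0 nx)) (nx + 1) (nx + 2) α β i := by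
  have h1 := (h.cpy_on hb false).sm α
  have h2 := (h.cpy_on hc false).sm β
  refine ⟨(h1.add h2).res (rng 0 nx), fun i hi => ?_⟩
  have e := (h1.add h2).vec_res (rng 0 nx) i
  rw [h1.vec_add h2, (h.cpy_on hb false).vec_sm hα, (h.cpy_on hc false).vec_sm hβ,
    ← h.cpy_eq hb false hi, ← h.cpy_eq hc false hi] at e
  refine e.trans ?_
  have := h.lt hi
  simp only [pt, cpy, rb, rc, if_true, mem_fs, show i < 32 by omega, true_and]

theorem ckh_cols_bc {C : CD} {nx ny : ℕ} (h0 : basicB C nx ny = true) (r0 : tb C.rm 0 = true)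
    (r1 : tb C.rm 1 = true) :
    C.toDisp.row (nx + 1) = false ∧ C.toDisp.row (nx + 2) = false := by
  obtain ⟨-, -, -, -, -, -, -, -, hd, -⟩ := basic_sound h0
  rw [tb_eq] at r0 r1
  have a0 : C.toDisp.row 0 = true := r0
  have a1 : C.toDisp.row 1 = true := r1
  constructor
  · by_contra e
    rw [Bool.not_eq_false] at e
    rw [C.toDisp.bip _ _ (a0.trans e.symm), C.toDisp.bip 1 (nx + 1) (a1.trans e.symm)] at hd
    simp at hd
  · by_contra e
    rw [Bool.not_eq_false] at e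
    rw [C.toDisp.bip 0 (nx + 2) (a0.trans e.symm), C.toDisp.bip 1 (nx + 2) (a1.trans e.symm)] at hd
    simp at hd

theorem ckh_pt {C : CD} {nx ny : ℕ} (h0 : basicB C nx ny = true) (r0 : tb C.rm 0 = true)
    (r1 : tb C.rm 1 = true) {α β : ℕ} (hα : α < 3) (hβ : β < 3) :
    VOn (C.rm &&& rng 0 nx) (ptV C nx α β) ∧
      vec (ptV C nx α β) = pt C.toDisp (fs (rng 0 nx)) (nx + 1) (nx + 2) α β ∧
      ∀ i, 24 ≤ i → vec (ptV C nx α β) i = 0 := by
  obtain ⟨rb, rc⟩ := ckh_cols_bc h0 r0 r1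
  obtain ⟨w, -, h1, h2, h3, hZ, -⟩ := basic_sound h0
  obtain ⟨k1, k2⟩ := ptV_spec (rep_self w) ((hZ _).2 (by omega)) ((hZ _).2 (by omega)) rb rc hα hβ
  have z : ∀ i, nx ≤ i → vec (ptV C nx α β) i = 0 := fun i hi => k1.zero_off (by
    rw [Nat.testBit_and, testBit_rng, decide_eq_false (by omega), Bool.and_false])
  refine ⟨k1, funext fun i => ?_, fun i hi => z i (by omega)⟩
  by_cases hi : i < nx
  · exact k2 i ((hZ i).2 (by omega))
  · rw [z i (not_lt.1 hi), pt, if_neg]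
    rw [mem_fs, testBit_rng, decide_eq_true_iff]
    omega

theorem ckh_vd1 {C : CD} {nx ny : ℕ} (h0 : basicB C nx ny = true) (r0 : tb C.rm 0 = true)
    (r1 : tb C.rm 1 = true) {t1 t2 t3 t4 s : ℕ} (h1 : t1 < 3) (h2 : t2 < 3) (h3 : t3 < 3)
    (h4 : t4 < 3) (hs : s < 3) : (vd1C C nx t1 t2 t3 t4 s).Rep
      (vd1 C.toDisp (fs (rng 0 nx)) (nx + 1) (nx + 2) (t1, t2, t3, t4) s) ∧
      ∀ i ∈ (vd1 C.toDisp (fs (rng 0 nx)) (nx + 1) (nx + 2) (t1, t2, t3, t4) s).Z, i < 28 := by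
  obtain ⟨a1, a2, a3⟩ := ckh_pt h0 r0 r1 h1 h2
  obtain ⟨b1, b2, b3⟩ := ckh_pt h0 r0 r1 h3 h4
  obtain ⟨c1, c2, c3⟩ := ckh_pt h0 r0 r1 (α := 1) (β := 1) (by decide) (by decide)
  obtain ⟨a4, a5⟩ := vset_spec (c := 1) a1 (by decide) (a3 24 le_rfl) (by decide)
  obtain ⟨b4, b5⟩ := vset_spec (c := 1) b1 (by decide) (b3 24 le_rfl) (by decide)
  obtain ⟨c4, c5⟩ := vset_spec c1 (by decide) (c3 24 le_rfl) hs
  obtain ⟨w, -, k1, k2, k3, hZ, -⟩ := basic_sound h0
  have m : ∀ i, i ∈ fs (rng 0 nx) ↔ i < nx := fun i => by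
    rw [mem_fs, testBit_rng, decide_eq_true_iff]; omega
  have p0 : (C.res (rng 0 nx)).Rep (C.toDisp.restrict (fs (rng 0 nx))) :=
    (rep_self w).res fun i => by rw [m, hZ, testBit_rng, decide_eq_true_iff]; omega
  have p1 := p0.addR (n := 24) (by decide) (by
    simp only [Disp.restrict, m]; omega) (von_zero 0) (v := fun _ => 0) fun i _ _ => (vec_zero i).symm
  have p2 := p1.addC (n := 25) (by decide) (by
    simp only [Disp.addEl, Disp.restrict, mem_insert, m]; omega) a4 (v := _) fun _ _ _ => rfl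
  have p3 := p2.addC (n := 26) (by decide) (by
    simp only [Disp.addEl, Disp.restrict, mem_insert, m]; omega) b4 (v := _) fun _ _ _ => rfl
  have p4 := p3.addC (n := 27) (by decide) (by
    simp only [Disp.addEl, Disp.restrict, mem_insert, m]; omega) c4 (v := _) fun _ _ _ => rfl
  rw [a5, b5, c5, a2, b2, c2] at p4
  refine ⟨p4, fun i hi => ?_⟩
  simp only [vd1, Disp.addEl, Disp.restrict, mem_insert, m] at hi
  omega

theorem ckh_vd2 {G : CD} {E : Disp F3} (h : G.Rep E) (hZ : ∀ i ∈ E.Z, i < 28) {kb kc : ℕ}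
    (hb : kb < 3) (hc : kc < 3) : (vd2C G kb kc).Rep (E.addEl 28 true
      (fun j => if j = 27 then 1 else if j = 25 then (kb : F3) else if j = 26 then (kc : F3) else 0)) := by
  have a1 : VOn (bit 27) (bit 27) := von_bit (by decide) (by decide)
  obtain ⟨a2, a3⟩ := vset_spec (k := 25) a1 (by decide) (by rw [vec_bit (by decide)]; simp) hb
  obtain ⟨a4, a5⟩ := vset_spec (k := 26) a2 (by decide)
    (by rw [a3, Function.update_of_ne (by decide), vec_bit (by decide)]; simp) hc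
  refine h.addR (by decide) (fun e => absurd (hZ _ e) (by decide)) a4 fun i _ _ => ?_
  refine Eq.symm ((congrFun a5 i).trans ?_)
  rw [a3]
  simp only [Function.update_apply, vec_bit (show 27 < 32 by decide)]
  split_ifs <;> first | rfl | omega

theorem ckh_vrot {Bad : Disp F3 → Prop} {t : Tb} {b : ℕ} (ht : t.ok = true)
    (hB : ∀ G, BadT t b G → Bad G) {C : CD} {nx ny : ℕ} (h0 : basicB C nx ny = true)
    (r0 : tb C.rm 0 = true) (r1 : tb C.rm 1 = true) {t1 t2 t3 t4 : ℕ} (h1 : t1 < 3) (h2 : t2 < 3)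
    (h3 : t3 < 3) (h4 : t4 < 3) {l1 l2 l3 : List ℕ}
    (ok : vrot t b C nx t1 t2 t3 t4 l1 l2 l3 = true) :
    (∀ s, s ≠ 0 → Bad (vd1 C.toDisp (fs (rng 0 nx)) (nx + 1) (nx + 2) (t1, t2, t3, t4) s)) ∧
    (∀ kb kc, (kb ≠ 0 ∨ kc ≠ 0) →
      Bad (vd2 C.toDisp (fs (rng 0 nx)) (nx + 1) (nx + 2) (t1, t2, t3, t4) kb kc)) ∧
    ∀ m1 m2 s, (s ≠ 0 ∨ m1 ≠ m2) →
      Bad (vd3 C.toDisp (fs (rng 0 nx)) (nx + 1) (nx + 2) (t1, t2, t3, t4) m1 m2 s) := by
  obtain ⟨o1, o2⟩ := andB_iff.1 ok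
  obtain ⟨o2, o3⟩ := andB_iff.1 o2
  obtain ⟨p0, z0⟩ := ckh_vd1 h0 r0 r1 h1 h2 h3 h4 (s := 0) (by decide)
  refine ⟨fun s hs => ?_, fun kb kc hk => ?_, fun m1 m2 s hs => ?_⟩
  · obtain ⟨k, hk, rfl⟩ := f3_cases s
    obtain ⟨k, rfl⟩ := Nat.exists_eq_succ_of_ne_zero (n := k) fun e => hs (by simp [e])
    obtain ⟨N, hN⟩ := allI_sound o1 k (by omega)
    exact hB _ (bad_sound ht (ckh_vd1 h0 r0 r1 h1 h2 h3 h4 hk).1 hN)
  · obtain ⟨x, hx, rfl⟩ := f3_cases kb
    obtain ⟨y, hy, rfl⟩ := f3_cases kc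
    obtain ⟨N, hN⟩ := allI_sound o2 (x + 3 * y) (by omega)
    rcases orB_iff.1 hN with e | e
    · have e := Nat.eq_of_beq_eq_true e
      obtain rfl : x = 0 := by omega
      obtain rfl : y = 0 := by omega
      simp at hk
    · rw [show Nat.mod (x + 3 * y) 3 = x by change (x + 3 * y) % 3 = x; omega,
        show Nat.div (x + 3 * y) 3 = y by change (x + 3 * y) / 3 = y; omega] at e
      exact hB _ (bad_sound ht (ckh_vd2 p0 z0 hx hy) e)
  · obtain ⟨x, hx, rfl⟩ := f3_cases m1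
    obtain ⟨y, hy, rfl⟩ := f3_cases m2
    obtain ⟨k, hk, rfl⟩ := f3_cases s
    obtain ⟨N, hN⟩ := allI_sound o3 (x + 3 * y + 9 * k) (by omega)
    rw [show Nat.mod (x + 3 * y + 9 * k) 3 = x by change (x + 3 * y + 9 * k) % 3 = x; omega,
      show Nat.mod (Nat.div (x + 3 * y + 9 * k) 3) 3 = y by
        change (x + 3 * y + 9 * k) / 3 % 3 = y; omega,
      show Nat.div (x + 3 * y + 9 * k) 9 = k by change (x + 3 * y + 9 * k) / 9 = k; omega] at hN
    rcases orB_iff.1 hN with e | e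
    · have e : x + 3 * y + 9 * k = 4 * x := Nat.eq_of_beq_eq_true e
      obtain rfl : k = 0 := by omega
      obtain rfl : x = y := by omega
      simp at hs
    · obtain ⟨a1, a2, a3⟩ := ckh_pt h0 r0 r1 hx hy
      obtain ⟨a4, a5⟩ := vset_spec a1 (by decide) (a3 24 le_rfl) hk
      obtain ⟨a6, a7⟩ := vset_spec (k := 28) (c := 1) a4 (by decide)
        (by rw [a5, Function.update_of_ne (by decide), a3 28 (by decide)]) (by decide)
      have p := (ckh_vd2 p0 z0 (kb := 0) (kc := 0) (by decide) (by decide)).addC (n := 29)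
        (by decide) (fun q => by
          rcases mem_insert.1 q with q | q
          · exact absurd q (by decide)
          · exact absurd (z0 _ q) (by decide)) a6 (v := _) fun _ _ _ => rfl
      rw [a7, a5, a2] at p
      exact hB _ (bad_sound ht p e)

theorem vok_sound {Bad : Disp F3 → Prop} {t : Tb} {b : ℕ} (ht : t.ok = true)
    (hB : ∀ G, BadT t b G → Bad G) {C : CD} {nx ny : ℕ} (h0 : basicB C nx ny = true)
    (r0 : tb C.rm 0 = true) (r1 : tb C.rm 1 = true) {l : List (List ℕ)}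
    (ok : vokB t b C nx l = true) : VOK Bad C.toDisp (fs (rng 0 nx)) (nx + 1) (nx + 2) := by
  obtain ⟨h1, h2⟩ := andB_iff.1 ok
  obtain ⟨h2, h3⟩ := andB_iff.1 h2
  intro τ hτ
  simp only [rots, List.mem_cons, List.not_mem_nil, or_false] at hτ
  rcases hτ with rfl | rfl | rfl
  · exact ckh_vrot ht hB h0 r0 r1 (by decide) (by decide) (by decide) (by decide) h1
  · exact ckh_vrot ht hB h0 r0 r1 (by decide) (by decide) (by decide) (by decide) h2
  · exact ckh_vrot ht hB h0 r0 r1 (by decide) (by decide) (by decide) (by decide) h3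

theorem ckh_cols {l : List ℕ} {A : ℕ} (h : colsOK l A = true) :
    l.Nodup ∧ ∀ j, j ∈ l ↔ A.testBit j = true := by
  induction l generalizing A with
  | nil =>
    have : A = 0 := Nat.eq_of_beq_eq_true h
    simp [this]
  | cons j l ih =>
    obtain ⟨h1, h2⟩ := andB_iff.1 (show andB (tb A j) (colsOK l (A ^^^ bit j)) = true from h)
    rw [tb_eq] at h1
    obtain ⟨n, m⟩ := ih h2
    have e : ∀ i, i ∈ l ↔ (A.testBit i ^^ decide (j = i)) = true := fun i => by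
      rw [m, Nat.testBit_xor, testBit_bit]
    refine ⟨List.nodup_cons.2 ⟨by rw [e]; simp [h1], n⟩, fun i => ?_⟩
    rw [List.mem_cons, e]
    by_cases k : j = i
    · simp [← k, h1]
    · simp [k, Ne.symm k]

theorem ckh_vecOf {cs : List ℕ} (hn : cs.Nodup) (h : ∀ j ∈ cs, j < 32) (i : ℕ) :
    (∃ K, VOn K (vecOf cs i)) ∧ ∀ j, j ∉ cs → vec (vecOf cs i) j = 0 := by
  induction cs generalizing i with
  | nil => exact ⟨⟨0, von_zero 0⟩, fun j _ => vec_zero j⟩
  | cons a cs ih =>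
    obtain ⟨⟨K, h1⟩, h2⟩ := ih hn.of_cons (fun j hj => h j (List.mem_cons_of_mem _ hj)) (i / 3)
    obtain ⟨h3, h4⟩ := vset_spec h1 (h a List.mem_cons_self) (h2 a (List.nodup_cons.1 hn).1)
      (Nat.mod_lt i (by decide : 0 < 3))
    refine ⟨⟨_, h3⟩, fun j hj => ?_⟩
    rw [List.mem_cons, not_or] at hj
    exact (congrFun h4 j).trans ((Function.update_of_ne hj.1 _ _).trans (h2 j hj.2))

theorem ckh_surj {cs : List ℕ} (hn : cs.Nodup) (h : ∀ j ∈ cs, j < 32) (z : ℕ → F3) :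
    ∃ i < 3 ^ cs.length, ∀ j ∈ cs, vec (vecOf cs i) j = z j := by
  induction cs with
  | nil => exact ⟨0, Nat.one_pos, fun j hj => absurd hj List.not_mem_nil⟩
  | cons a cs ih =>
    have h' : ∀ j ∈ cs, j < 32 := fun j hj => h j (List.mem_cons_of_mem _ hj)
    obtain ⟨i, hi, e⟩ := ih hn.of_cons h'
    obtain ⟨k, hk, ek⟩ := f3_cases (z a)
    obtain ⟨⟨K, h1⟩, h2⟩ := ckh_vecOf hn.of_cons h' i
    obtain ⟨-, h4⟩ := vset_spec h1 (h a List.mem_cons_self) (h2 a (List.nodup_cons.1 hn).1) hk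
    refine ⟨k + 3 * i, by rw [List.length_cons, pow_succ]; omega, fun j hj => ?_⟩
    change vec (vset (vecOf cs ((k + 3 * i) / 3)) a ((k + 3 * i) % 3)) j = _
    rw [show (k + 3 * i) / 3 = i by omega, show (k + 3 * i) % 3 = k by omega, h4]
    by_cases q : j = a
    · rw [q, Function.update_self, ek]
    · rw [Function.update_of_ne q, e j ((List.mem_cons.1 hj).resolve_left q)]

theorem ckh_vN {K u j : ℕ} (h : VOn K u) (hj : j < 32) : (vN u j : F3) = vec u j ∧ vN u j < 3 := by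
  have e : ∀ i : ℕ, (u >>> i) &&& 1 = if u.testBit i = true then 1 else 0 := fun i => by
    rw [Nat.and_one_is_mod, Nat.testBit_eq_decide_div_mod_eq, Nat.shiftRight_eq_div_pow]
    simp only [decide_eq_true_iff]
    split_ifs <;> omega
  have d := ck_disj.1 h.1 j
  have e' : vN u j = ((u >>> j) &&& 1) + 2 * ((u >>> (j + 32)) &&& 1) := rfl
  rw [e', e, e, Nat.add_comm j 32]
  simp only [vec, val, testBit_vp, testBit_vm, hj, decide_true, Bool.and_true] at d ⊢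
  revert d
  cases u.testBit j <;> cases u.testBit (32 + j) <;> decide

theorem ckh_dot_lt (cs : List ℕ) (u w : ℕ) : dotL cs u w < 3 := Nat.mod_lt _ (by decide)

theorem ckh_dot {K K' u w : ℕ} (hu : VOn K u) (hw : VOn K' w) {cs : List ℕ}
    (h : ∀ j ∈ cs, j < 32) : (dotL cs u w : F3) = (cs.map fun j => vec u j * vec w j).sum := by
  refine (ZMod.natCast_mod _ 3).trans ?_
  induction cs with
  | nil => rfl
  | cons a cs ih =>
    rw [List.map_cons, List.sum_cons, ← ih fun j hj => h j (List.mem_cons_of_mem _ hj),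
      ← (ckh_vN hu (h a List.mem_cons_self)).1, ← (ckh_vN hw (h a List.mem_cons_self)).1,
      ← Nat.cast_mul, ← Nat.cast_add]
    rfl

theorem ckh_beq {a x : ℕ} (ha : a < 3) : Nat.beq a (Nat.mod x 3) = true ↔ (a : F3) = (x : F3) := by
  rw [Nat.beq_eq, ZMod.natCast_eq_natCast_iff', Nat.mod_eq_of_lt ha]
  rfl

theorem ckh_imp {a x : ℕ} (ha : a < 3) (h : orB (notB (Nat.beq a 0)) (Nat.beq x 0) = true)
    (e : (a : F3) = 0) : (x : F3) = 0 := by
  have : a = 0 := by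
    revert e; interval_cases a <;> decide
  subst this
  rw [show x = 0 from Nat.eq_of_beq_eq_true h, Nat.cast_zero]

theorem ckh_rowV {C : CD} (w : C.WF) (i : ℕ) :
    VOn cF (rowV C i) ∧ ∀ j < 32, vec (rowV C i) j = val C.P C.M (32 * i + j) := by
  have l : rowP C.P i < 2 ^ 32 := Nat.lt_pow_two_of_testBit _ fun k hk => by
    rw [testBit_rowP, decide_eq_false (not_lt.2 hk), Bool.false_and]
  unfold VOn vec rowV
  rw [vp_vmk l, vm_vmk l]
  refine ⟨⟨ck_disj.2 fun k => ?_, fun k hk => ?_⟩, fun j hj => ?_⟩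
  · have := ck_disj.1 w.2.2.1 (32 * i + k)
    rw [testBit_rowP, testBit_rowP]
    revert this
    cases C.P.testBit (32 * i + k) <;> cases C.M.testBit (32 * i + k) <;> simp
  · have : k < 32 := by
      by_contra q
      simp [Nat.testBit_or, testBit_rowP, q] at hk
    exact ⟨this, by rw [testBit_cF, decide_eq_true this]⟩
  · simp [val, testBit_rowP, hj]

theorem row_sound {Bad : Disp F3 → Prop} {t : Tb} {b : ℕ} (ht : t.ok = true)
    (hB : ∀ G, BadT t b G → Bad G) {C : CD} {nx ny : ℕ} (h0 : basicB C nx ny = true)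
    (r0 : tb C.rm 0 = true) (r1 : tb C.rm 1 = true) {cs Ar lv ly : List ℕ}
    (ok : rowB t b C nx ny cs Ar lv ly = true) :
    RowOK Bad C.toDisp (fs (rng nx ny)) 0 1 (nx + 1) (nx + 2) := by
  obtain ⟨rb, rc⟩ := ckh_cols_bc h0 r0 r1
  obtain ⟨w, -, k1, k2, k3, hZ, -⟩ := basic_sound h0
  have hR := rep_self w
  obtain ⟨o1, o2⟩ := andB_iff.1 ok
  obtain ⟨o2, o3⟩ := andB_iff.1 o2
  obtain ⟨nd, mc⟩ := ckh_cols o1
  have m : ∀ i, i ∈ fs (rng nx ny) ↔ nx ≤ i ∧ i < nx + ny := fun i => by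
    rw [mem_fs, testBit_rng, decide_eq_true_iff]; omega
  have mc' : ∀ j, j ∈ cs ↔ j ∈ fs (rng nx ny) ∧ C.toDisp.row j = false := fun j => by
    rw [mc]
    change (rng nx ny &&& C.side true).testBit j = true ↔ _
    rw [Nat.testBit_and, Bool.and_eq_true, hR.side, testBit_rng, decide_eq_true_iff, m, hZ,
      ne_eq, Bool.not_eq_true]
    exact ⟨fun h => ⟨h.1, h.2.2⟩, fun h => ⟨h.1, h.1.2, h.2⟩⟩
  have lt : ∀ j ∈ cs, j < 32 := fun j hj => (mem_fs.1 ((mc' j).1 hj).1).1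
  have dot : ∀ {K K' u v : ℕ} {f g : ℕ → F3}, VOn K u → VOn K' v → (∀ j ∈ cs, vec u j = f j) →
      (∀ j ∈ cs, vec v j = g j) → (∀ j, C.toDisp.row j = true → f j = 0) →
      (dotL cs u v : F3) = ∑ j ∈ fs (rng nx ny), f j * g j := by
    intro K K' u v f g hu hv e1 e2 e3
    rw [ckh_dot hu hv lt, ← List.sum_toFinset _ nd]
    refine (sum_congr rfl fun j hj => ?_).trans (sum_subset (fun j hj => ?_) fun j hj hj' => ?_)
    · rw [e1 j (List.mem_toFinset.1 hj), e2 j (List.mem_toFinset.1 hj)]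
    · exact ((mc' j).1 (List.mem_toFinset.1 hj)).1
    · rw [e3 j (by
        by_contra q
        exact hj' (List.mem_toFinset.2 ((mc' j).2 ⟨hj, Bool.not_eq_true _ ▸ q⟩))), zero_mul]
  have rdot : ∀ {K v i : ℕ} {g : ℕ → F3}, i < nx + ny → C.toDisp.row i = true → VOn K v →
      (∀ j ∈ cs, vec v j = g j) →
      (dotL cs (rowV C i) v : F3) = ∑ j ∈ fs (rng nx ny), C.toDisp.S i j * g j := by
    intro K v i g hi ri hv e
    refine dot (ckh_rowV w i).1 hv (fun j hj => ?_) e fun j q => C.toDisp.bip _ _ (ri.trans q.symm)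
    rw [(ckh_rowV w i).2 j (lt j hj),
      hR.ent ((hZ i).2 hi) ((hZ j).2 ((m j).1 ((mc' j).1 hj).1).2) ri]
  have s0b := hR.sN ((hZ 0).2 (by omega)) ((hZ (nx + 1)).2 (by omega))
  have s0c := hR.sN ((hZ 0).2 (by omega)) ((hZ (nx + 2)).2 (by omega))
  have s1b := hR.sN ((hZ 1).2 (by omega)) ((hZ (nx + 1)).2 (by omega))
  have s1c := hR.sN ((hZ 1).2 (by omega)) ((hZ (nx + 2)).2 (by omega))
  rw [tb_eq] at r0 r1
  intro z s hs e0 e1
  obtain ⟨i, hi, ei⟩ := ckh_surj nd lt z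
  obtain ⟨⟨K, vz⟩, -⟩ := ckh_vecOf nd lt i
  obtain ⟨N, hN⟩ := allI_sound o3 i hi
  obtain ⟨⟨K', vy⟩, y0⟩ := ckh_vecOf nd lt (N / 3)
  have hS : ∀ k : ℕ, s = k → rowS C nx cs (vecOf cs i) k = true := fun k hk => by
    refine andB_iff.2 ⟨(ckh_beq (ckh_dot_lt _ _ _)).2 ?_, (ckh_beq (ckh_dot_lt _ _ _)).2 ?_⟩
    · rw [rdot (by omega) r0 vz ei, e0, s0b, s0c, hk]
      rw [← Nat.cast_add, ← Nat.cast_mul]; rfl
    · rw [rdot (by omega) r1 vz ei, e1, s1b, s1c, hk]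
      rw [← Nat.cast_add, ← Nat.cast_mul]; rfl
  have hZ' : rowZ C nx ny cs Ar (vecOf cs i) (vecOf cs (N / 3)) (N % 3) = true := by
    refine (orB_iff.1 hN).resolve_left ?_
    rw [notB_eq, Bool.not_eq_true', Bool.not_eq_false, orB_iff]
    have : ∀ s : F3, s ≠ 0 → s = (1 : ℕ) ∨ s = (2 : ℕ) := by decide
    exact (this s hs).imp (hS 1) (hS 2)
  obtain ⟨q1, q2⟩ := andB_iff.1 hZ'
  obtain ⟨q2, q3⟩ := andB_iff.1 q2
  obtain ⟨q3, q4⟩ := andB_iff.1 q3
  obtain ⟨q4, q5⟩ := andB_iff.1 q4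
  obtain ⟨q5, q6⟩ := andB_iff.1 q5
  refine ⟨vec (vecOf cs (N / 3)), ((N % 3 : ℕ) : F3), ?_, ?_, ?_, fun j hj rj zj => ?_,
    fun a ha za ra => ?_, fun v hv => ?_⟩
  · by_contra q
    push Not at q
    have : vecOf cs (N / 3) = 0 := vy.inj (von_zero K') fun j _ _ => by
      rw [vec_zero]
      by_cases hj : j ∈ cs
      · exact q j ((mc' j).1 hj).1 ((mc' j).1 hj).2
      · exact y0 j hj
    rw [this] at q1
    exact Bool.false_ne_true q1
  · rw [← rdot (by omega) r0 vy fun _ _ => rfl, (ckh_beq (ckh_dot_lt _ _ _)).1 q2, s0c]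
    exact Nat.cast_mul _ _
  · rw [← rdot (by omega) r1 vy fun _ _ => rfl, (ckh_beq (ckh_dot_lt _ _ _)).1 q3, s1c]
    exact Nat.cast_mul _ _
  · have hj' := (mc' j).2 ⟨hj, rj⟩
    have := ckh_imp (ckh_vN vz (lt j hj')).2 (allL_iff.1 q4 j hj')
    rw [(ckh_vN vz (lt j hj')).1, (ckh_vN vy (lt j hj')).1, ei j hj'] at this
    exact this zj
  · obtain ⟨a, rfl⟩ := Nat.exists_eq_add_of_le ((m a).1 ha).1
    have ha' := ((m _).1 ha).2
    have := ckh_imp (ckh_dot_lt _ _ _) (allLt_iff.1 q5 a (by omega))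
    exact (rdot ha' ra vy fun _ _ => rfl).symm.trans (this ((rdot ha' ra vz ei).trans za))
  · obtain ⟨n, hn, en⟩ := ckh_surj nd lt v
    obtain ⟨⟨K'', vv⟩, v0⟩ := ckh_vecOf nd lt n
    obtain ⟨M, hM⟩ := allI_sound o2 n hn
    have rv : ∀ j, C.toDisp.row j = true → v j = 0 := fun j q => hv j fun p => by
      rw [q] at p; exact Bool.false_ne_true p.2.symm
    rw [cnd_eq] at hM
    split_ifs at hM
    · have := ckh_imp (ckh_dot_lt _ _ _) (allL_iff.1 q6 _ (memL_iff.1 hM))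
      rw [dot vv vz en ei rv, dot vv vy en (fun _ _ => rfl) rv] at this
      exact Or.inr this
    · refine Or.inl (hB _ (bad_sound ht (hR.addR (by decide) (by rw [hZ]; omega) vv
        fun j _ _ => ?_) hM))
      by_cases hj : j ∈ cs
      · exact (en j hj).symm
      · rw [v0 j hj, hv j fun p => hj ((mc' j).2 p)]

theorem tame_sound {Bad : Disp F3 → Prop} {t : Tb} {b : ℕ} (ht : t.ok = true)
    (hB : ∀ G, BadT t b G → Bad G) {C : CD} {nx ny : ℕ} {d : TD}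
    (ok : tameB t b C nx ny d = true) :
    TameOK Bad C.toDisp (fs (rng 0 nx)) (fs (rng nx ny)) 0 1 (nx + 1) (nx + 2) := by
  obtain ⟨h0, o⟩ := andB_iff.1 ok
  obtain ⟨r0, o⟩ := andB_iff.1 o
  obtain ⟨r1, o⟩ := andB_iff.1 o
  obtain ⟨o1, o⟩ := andB_iff.1 o
  obtain ⟨o2, o⟩ := andB_iff.1 o
  obtain ⟨o3, o⟩ := andB_iff.1 o
  obtain ⟨o4, o5⟩ := andB_iff.1 o
  obtain ⟨w, -, k1, k2, k3, hZ, -, -, hd, -⟩ := basic_sound h0
  have hR := rep_self w
  have ha : d.a < ny := Nat.blt_eq.mp o1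
  have key : ∀ j < nx + ny, notB (Nat.beq (C.sN (nx + d.a) j) 0) = true →
      C.toDisp.S (nx + d.a) j ≠ 0 := fun j hj q e => by
    have m1 := (hZ (nx + d.a)).2 (by omega)
    have m2 := (hZ j).2 hj
    have := ckh_imp (x := 1) (hR.sN_lt m1 m2) (orB_iff.2 (Or.inl q)) ((hR.sN m1 m2).symm.trans e)
    exact absurd this (by decide)
  refine ⟨hd, ⟨nx + d.a, ?_, key _ (by omega) o2, key _ (by omega) o3⟩,
    vok_sound ht hB h0 r0 r1 o4, row_sound ht hB h0 r0 r1 o5⟩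
  rw [mem_fs, testBit_rng, decide_eq_true_iff]
  omega

end Pool.Agent.Lib.MP_c69b6d_co.F
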