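import Pool.Agent.Lib.MP_c69b6d_co.F.CkH

/-! Soundness of the seed checker. -/

namespace Pool.Agent.Lib.MP_c69b6d_co.F

open Finset Disp CD

theorem starC_rep {C : CD} {D : Disp F3} (h : C.Rep D) {n b c g : ℕ} (hn : n < 31) (hn' : n ∉ D.Z)
    (hb : b ∈ D.Z) (hc : c ∈ D.Z) (hg : g < 3) : (starC C n b c g).Rep (star D n b c g) := by
  refine h.addR hn hn' ((h.cpy_on hb true).add ((h.cpy_on hc true).sm g)) fun i hi _ => ?_
  rw [(h.cpy_on hb true).vec_add ((h.cpy_on hc true).sm g), (h.cpy_on hc true).vec_sm hg,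
    h.cpy_eq hb true hi, h.cpy_eq hc true hi]

namespace CkI

theorem mem_rng {lo n i : ℕ} (h : lo + n ≤ 32) : i ∈ fs (rng lo n) ↔ lo ≤ i ∧ i < lo + n := by
  rw [mem_fs, testBit_rng, decide_eq_true_eq]
  omega

/-- the code of an option. -/
def code (o : Option ℕ) (α β : F3) : ℕ := 9 * o.getD 31 + 3 * α.val + β.val

theorem val_lt (α : F3) : α.val < 3 := ZMod.val_lt α

theorem code_div (o : Option ℕ) (α β : F3) : Nat.div (code o α β) 9 = o.getD 31 := by
  have := val_lt α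
  have := val_lt β
  change (9 * o.getD 31 + 3 * α.val + β.val) / 9 = _
  omega

theorem code_fst (o : Option ℕ) (α β : F3) : Nat.mod (Nat.div (code o α β) 3) 3 = α.val := by
  have := val_lt α
  have := val_lt β
  change (9 * o.getD 31 + 3 * α.val + β.val) / 3 % 3 = _
  omega

theorem code_snd (o : Option ℕ) (α β : F3) : Nat.mod (code o α β) 3 = β.val := by
  have := val_lt α
  have := val_lt β
  change (9 * o.getD 31 + 3 * α.val + β.val) % 3 = _
  omega

theorem v4c_of : ∀ α1 β1 α2 β2 g : F3, α1 * β2 ≠ α2 * β1 →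
    (α1 = β1 ∨ α2 = β2 ∨ g * α1 - α2 = g * β1 - β2) →
    v4c α1.val β1.val α2.val β2.val g.val = true := by
  decide +kernel

theorem cols {D : Disp F3} {b c : ℕ} (r0 : D.row 0 = true) (r1 : D.row 1 = true)
    (hd : D.S 0 b * D.S 1 c - D.S 0 c * D.S 1 b ≠ 0) : D.row b = false ∧ D.row c = false := by
  constructor
  · by_contra h
    rw [Bool.not_eq_false] at h
    exact hd (by rw [D.bip 0 b (r0.trans h.symm), D.bip 1 b (r1.trans h.symm)]; simp)
  · by_contra h
    rw [Bool.not_eq_false] at h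
    exact hd (by rw [D.bip 0 c (r0.trans h.symm), D.bip 1 c (r1.trans h.symm)]; simp)

theorem ext_rep {C E : CD} {D G : Disp F3} (h : C.Rep D) (hE : E.Rep G) {nx N : ℕ}
    (hnx : nx ≤ 24) (hb : nx + 1 ∈ D.Z) (hc : nx + 2 ∈ D.Z) (rb : D.row (nx + 1) = false)
    (rc : D.row (nx + 2) = false) (hN : N < 31) (hN' : N ∉ G.Z)
    (hG : ∀ i ∈ G.Z, G.row i = true → i ∈ D.Z) (hX : fs (rng 0 nx) ⊆ G.Z) {o : Option ℕ} {α β : F3}
    (ho : OptOK D (fs (rng 0 nx)) (nx + 1) (nx + 2) o α β) {G' : Disp F3}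
    (hG' : G' = extO G D (fs (rng 0 nx)) (nx + 1) (nx + 2) o N α β) :
    (extC E C nx (code o α β) N).Rep G' ∧ (∀ i ∈ G'.Z, G'.row i = true → i ∈ D.Z) ∧
      G.Z ⊆ G'.Z ∧ G'.Z ⊆ insert N G.Z ∧ o.getD N ∈ G'.Z ∧ nmC (code o α β) N = o.getD N := by
  subst hG'
  rw [extC, nmC, code_div, code_fst, code_snd]
  cases o with
  | some z =>
    have hz : z < nx := by simpa using ((mem_rng (by omega)).1 ho.1).2
    have e : Nat.beq ((some z).getD 31) 31 = false := by
      rw [← Bool.not_eq_true, Nat.beq_eq]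
      change z ≠ 31
      omega
    rw [e]
    exact ⟨hE, hG, Subset.rfl, subset_insert _ _, hX ho.1, rfl⟩
  | none =>
    obtain ⟨p1, p2⟩ := ptV_spec h hb hc rb rc (val_lt α) (val_lt β)
    refine ⟨hE.addC hN hN' p1 fun i hi hr => ?_, fun i hi hr => ?_, subset_insert _ _, Subset.rfl,
      mem_insert_self _ _, rfl⟩
    · rw [p2 i (hG i hi hr), ZMod.natCast_zmod_val, ZMod.natCast_zmod_val]
    · by_cases e : i = N
      · simp [extO, addEl, e] at hr
      · exact hG i ((mem_insert.1 hi).resolve_left e) (by simpa [extO, addEl, e] using hr)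

theorem code_mem {C : CD} {D : Disp F3} (h : C.Rep D) {nx : ℕ} (hnx : nx ≤ 24)
    (hX : fs (rng 0 nx) ⊆ D.Z) (hb : nx + 1 ∈ D.Z) (hc : nx + 2 ∈ D.Z)
    (rb : D.row (nx + 1) = false) (rc : D.row (nx + 2) = false) {O : List ℕ}
    (ok : allLt (Nat.mul 9 nx) (fun o => orB (memL o O)
      (notB (Nat.beq (vres (rng 0 nx) (C.cpyV (Nat.div o 9) false))
        (ptV C nx (Nat.mod (Nat.div o 3) 3) (Nat.mod o 3))))) = true) {o : Option ℕ} {α β : F3}
    (ho : OptOK D (fs (rng 0 nx)) (nx + 1) (nx + 2) o α β) :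
    code o α β ∈ 282 :: 280 :: 284 :: 283 :: O := by
  cases o with
  | none =>
    have h1 : ∀ α β : F3, (α, β) ∈ ([(1, 0), (0, 1), (1, -1), (1, 1)] : List (F3 × F3)) →
        code none α β ∈ [282, 280, 284, 283] := by decide +kernel
    exact List.mem_append_left O (h1 α β ho)
  | some z =>
    have hz : z < nx := by simpa using ((mem_rng (by omega)).1 ho.1).2
    have h1 := allLt_iff.1 ok (code (some z) α β) (by
      have := val_lt α
      have := val_lt β
      change 9 * z + 3 * α.val + β.val < 9 * nx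
      omega)
    rw [orB_iff, memL_iff, code_div, code_fst, code_snd] at h1
    refine List.mem_append_right [282, 280, 284, 283] (h1.resolve_right ?_)
    obtain ⟨p1, p2⟩ := ptV_spec h hb hc rb rc (val_lt α) (val_lt β)
    have q1 := h.cpy_on (hX ho.1) false
    have e : vres (rng 0 nx) (C.cpyV z false) = ptV C nx α.val β.val := by
      refine (q1.res (rng 0 nx)).inj p1 fun i hi hK => ?_
      rw [Nat.testBit_and, Bool.and_eq_true] at hK
      obtain ⟨m1, m2⟩ := (h.side false i).1 hK.1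
      have m3 : i ∈ fs (rng 0 nx) := mem_fs.2 ⟨hi, hK.2⟩
      rw [q1.vec_res, if_pos hK.2, p2 i m1, ← h.cpy_eq (hX ho.1) false m1,
        ho.2 i m3 (by simpa using m2), pt, if_pos m3, ZMod.natCast_zmod_val, ZMod.natCast_zmod_val]
    change ¬ notB (Nat.beq (vres (rng 0 nx) (C.cpyV z false)) _) = true
    rw [e, Nat.beq_refl]
    decide

theorem exists_getD {x : ℕ} {l : List ℕ} (h : x ∈ l) : ∃ k < l.length, l.getD k 0 = x := by
  obtain ⟨k, hk, e⟩ := List.getElem_of_mem h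
  exact ⟨k, hk, by rw [List.getD_eq_getElem _ _ hk, e]⟩

theorem cast_sub {a b c : ℕ} (h : Nat.beq a (Nat.mod (Nat.add b (Nat.mul 2 c)) 3) = true) :
    (a : F3) = b - c := by
  rw [Nat.eq_of_beq_eq_true h]
  change (((b + 2 * c) % 3 : ℕ) : F3) = _
  rw [ZMod.natCast_mod, sub_eq_add_neg, ← neg_one_mul (c : F3)]
  push_cast
  rfl

end CkI

open CkI

theorem v4_sound {𝓛 : List (Disp F3)} {t : Tb} (ht : t.ok = true)
    (hL : ∀ G, BadT t 5 G → Has 𝓛 G) {C : CD} {nx ny : ℕ} (h0 : basicB C nx ny = true)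
    (r0 : tb C.rm 0 = true) (r1 : tb C.rm 1 = true) {O l : List ℕ} (ok : v4B t C nx O l = true) :
    V4OK 𝓛 C.toDisp (fs (rng 0 nx)) nx (nx + 1) (nx + 2) := by
  obtain ⟨hw, -, h2, h4, h24, hZ, -, -, hd, -⟩ := basic_sound h0
  have h := rep_self hw
  rw [tb_eq] at r0 r1
  obtain ⟨rb, rc⟩ := cols (D := C.toDisp) r0 r1 hd
  have hb : nx + 1 ∈ C.toDisp.Z := (hZ _).2 (by omega)
  have hc : nx + 2 ∈ C.toDisp.Z := (hZ _).2 (by omega)
  have hX : fs (rng 0 nx) ⊆ C.toDisp.Z := fun i hi => (hZ _).2 (by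
    have := (mem_rng (by omega)).1 hi
    omega)
  intro o1 o2 α1 β1 α2 β2 g ho1 ho2 hne hg hor
  rw [v4B, andB_iff, andB_iff] at ok
  obtain ⟨ok1, -, ok3⟩ := ok
  obtain ⟨k1, hk1, e1⟩ := exists_getD (code_mem h (by omega) hX hb hc rb rc ok1 ho1)
  obtain ⟨k2, hk2, e2⟩ := exists_getD (code_mem h (by omega) hX hb hc rb rc ok1 ho2)
  change _ < O.length + 4 at hk1 hk2
  obtain ⟨s, hs, es⟩ := (by decide : ∀ g : F3, g * g = 1 → ∃ s < 2, g.val = s + 1) g hg
  obtain ⟨N, hN⟩ := allI_sound ok3 (2 * (k1 + (O.length + 4) * k2) + s) (by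
    change _ < 2 * ((O.length + 4) * (O.length + 4))
    have := Nat.mul_le_mul_left (O.length + 4) (Nat.succ_le_of_lt hk2)
    rw [Nat.mul_succ] at this
    omega)
  have a1 : Nat.div (2 * (k1 + (O.length + 4) * k2) + s) 2 = k1 + (O.length + 4) * k2 := by
    change _ / 2 = _
    omega
  have a2 : Nat.succ (Nat.mod (2 * (k1 + (O.length + 4) * k2) + s) 2) = g.val := by
    change _ % 2 + 1 = _
    omega
  have a3 : Nat.mod (k1 + (O.length + 4) * k2) (Nat.add O.length 4) = k1 := by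
    change _ % (O.length + 4) = _
    rw [Nat.add_mul_mod_self_left, Nat.mod_eq_of_lt hk1]
  have a4 : Nat.div (k1 + (O.length + 4) * k2) (Nat.add O.length 4) = k2 := by
    change _ / (O.length + 4) = _
    rw [Nat.add_mul_div_left _ _ (by omega), Nat.div_eq_of_lt hk1, Nat.zero_add]
  rw [a1, a2, a3, a4, e1, e2, v4one, code_fst, code_fst, code_snd, code_snd,
    v4c_of _ _ _ _ _ hne hor] at hN
  have hW : ∀ i, i ∈ fs (rng 0 nx) ∪ {nx, nx + 1, nx + 2} ↔ i < nx + 3 := fun i => by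
    simp only [mem_union, mem_insert, mem_singleton, mem_rng (show 0 + nx ≤ 32 by omega)]
    omega
  have hE : (C.res (rng 0 (nx + 3))).Rep
      (C.toDisp.restrict (fs (rng 0 nx) ∪ {nx, nx + 1, nx + 2})) := h.res fun i => by
    rw [hW, hZ, testBit_rng, decide_eq_true_eq]
    omega
  obtain ⟨x1, x2, x3, x4, x5, x6⟩ := ext_rep h hE (N := 24) (by omega) hb hc rb rc (by norm_num)
    (fun hi => by have := (hW _).1 hi; omega)
    (fun i hi _ => (hZ _).2 (by have := (hW _).1 hi; omega)) subset_union_left ho1 rfl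
  obtain ⟨y1, -, y3, y4, y5, y6⟩ := ext_rep h x1 (N := 25) (by omega) hb hc rb rc (by norm_num)
    (fun hi => by
      rcases mem_insert.1 (x4 hi) with e | e
      · omega
      · have := (hW _).1 e
        omega) x2 (subset_union_left.trans x3) ho2 rfl
  rw [x6, y6] at hN
  have hr := starC_rep y1 (n := 26) (by norm_num) (fun hi => by
    rcases mem_insert.1 (y4 hi) with e | e
    · omega
    · rcases mem_insert.1 (x4 e) with e | e
      · omega
      · have := (hW _).1 e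
        omega) (y3 x5) y5 (val_lt g)
  rw [ZMod.natCast_zmod_val] at hr
  exact hL _ (bad_sound ht hr hN)

theorem dual_sound {C C2 : CD} (hC : C.WF) {nx N : ℕ} (hb : nx + 1 ∈ C.toDisp.Z)
    (h0 : 0 ∈ C.toDisp.Z) (h1 : 1 ∈ C.toDisp.Z) (ok : dualB C nx N C2 = true) :
    ∃ L' : Disp F3, ReachIn {0, 1, nx + 1, nx + 2} C.toDisp L' ∧ L'.row 0 = false ∧
      L'.row 1 = false ∧ Same (L'.flip.scale (fun i => if i = nx + 1 then -1 else 1)) C2.toDisp := by
  obtain ⟨E, D', N', p1, p2, -, -, p3⟩ := pivs_sound (rep_self hC) ok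
  rw [andB_iff, andB_iff, notB_eq, notB_eq, tb_eq, tb_eq, Bool.not_eq_true', Bool.not_eq_true']
    at p3
  refine ⟨D', p1.mono fun i hi => ?_, (p2.row (p1.Z_eq ▸ h0)).trans p3.1,
    (p2.row (p1.Z_eq ▸ h1)).trans p3.2.1, ?_⟩
  · have h3 : (3 ||| rng (nx + 1) 2).testBit i = true := (mem_fs.1 (mem_inter.1 hi).1).2
    rw [Nat.testBit_or, Bool.or_eq_true, testBit_rng, show 3 = 2 ^ 2 - 1 by norm_num,
      Nat.testBit_two_pow_sub_one, decide_eq_true_eq, decide_eq_true_eq] at h3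
    simp only [mem_insert, mem_singleton]
    omega
  · rw [← eq_of_eqB p3.2.2]
    refine (p2.flp.scl fun i _ => ?_).2.symm
    simp only [testBit_bit, decide_eq_true_eq, Nat.add_eq, @eq_comm _ i]

theorem seed_sound {𝓛 𝓝 : List (Disp F3)} {Bad : Disp F3 → Prop} {t t' tN : Tb} {b : ℕ}
    (ht : t.ok = true) (ht' : t'.ok = true) (hN : tN.ok = true)
    (hL : ∀ G, BadT t 5 G → Has 𝓛 G) (hN' : ∀ G, BadT tN 3 G → Has 𝓝 G)
    (hB : ∀ G, BadT t b G → Bad G) (hB' : ∀ G, BadT t' b G → Bad G.flip)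
    {C : CD} {nx ny : ℕ} (h0 : basicB C nx ny = true) (h1 : basic2B C nx = true) {N : ℕ}
    (h2 : hasNB tN C nx N = true) {O l : List ℕ} (h3 : v4B t C nx O l = true)
    (h4 : (∃ d, tameB t b C nx ny d = true) ∨
      ∃ N2 C2 d, dualB C nx N2 C2 = true ∧ tameB t' b C2 nx ny d = true) :
    SeedOK 𝓛 𝓝 Bad (seedOf C nx ny) nx (nx + 1) (nx + 2) (nx + 3) := by
  obtain ⟨hw, -, a2, a4, a24, hZ, hU, hD, hd, hl⟩ := basic_sound h0
  have h := rep_self hw
  simp only [basic2B, andB_iff] at h1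
  obtain ⟨r0, r1, e1, e2, e3, e4, e5⟩ := h1
  have m : ∀ i < nx + 4, i ∈ C.toDisp.Z := fun i hi => (hZ i).2 (by omega)
  have mX : ∀ i < 2, i ∈ fs (rng 0 nx) := fun i hi => (mem_rng (by omega)).2 (by omega)
  have mY : ∀ i < 4, nx + i ∈ fs (rng nx ny) := fun i hi => (mem_rng (by omega)).2 (by omega)
  have sN : ∀ i < nx + 4, ∀ j < nx + 4, C.toDisp.S i j = (C.sN i j : F3) :=
    fun i hi j hj => h.sN (m i hi) (m j hj)
  refine ⟨hU, hD, fun i hi => ((hZ i).1 hi).trans_le a24, mX 0 (by norm_num), mX 1 (by norm_num),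
    mY 0 (by norm_num), mY 1 (by norm_num), mY 2 (by norm_num), mY 3 (by norm_num),
    (tb_eq _ _).symm.trans r0, (tb_eq _ _).symm.trans r1, hd, hl,
    (sN _ (by omega) _ (by omega)).trans (congrArg _ (Nat.eq_of_beq_eq_true e1) |>.trans ?_),
    (sN _ (by omega) _ (by omega)).trans (congrArg _ (Nat.eq_of_beq_eq_true e2) |>.trans ?_),
    (sN _ (by omega) _ (by omega)).trans (congrArg _ (Nat.eq_of_beq_eq_true e3) |>.trans ?_),
    ?_, ?_, hN' _ (bad_sound hN (h.res fun i => ?_) h2), v4_sound ht hL h0 r0 r1 h3, ?_⟩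
  · exact Nat.cast_one
  · exact Nat.cast_one
  · exact Nat.cast_zero
  · change C.toDisp.S _ _ = C.toDisp.S _ _ - C.toDisp.S _ _
    rw [sN _ (by omega) _ (by omega), sN _ (by omega) _ (by omega), sN _ (by omega) _ (by omega)]
    exact cast_sub e4
  · change C.toDisp.S _ _ = C.toDisp.S _ _ - C.toDisp.S _ _
    rw [sN _ (by omega) _ (by omega), sN _ (by omega) _ (by omega), sN _ (by omega) _ (by omega)]
    exact cast_sub e5
  · change i ∈ fs (rng 0 nx) ∪ {nx + 1, nx + 2, nx + 3} ↔ i ∈ C.toDisp.Z ∧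
      (rng 0 nx ||| rng (nx + 1) 3).testBit i = true
    simp only [mem_union, mem_insert, mem_singleton, mem_rng (show 0 + nx ≤ 32 by omega), hZ,
      Nat.testBit_or, Bool.or_eq_true, testBit_rng, decide_eq_true_eq]
    omega
  · rcases h4 with ⟨d, hd⟩ | ⟨N2, C2, d, d1, d2⟩
    · exact Or.inl (tame_sound ht hB hd)
    · obtain ⟨L', p1, p2, p3, p4⟩ := dual_sound hw (m _ (by omega)) (m _ (by omega))
        (m _ (by omega)) d1
      exact Or.inr ⟨L', C2.toDisp, p1, p2, p3, p4, tame_sound ht' hB' d2⟩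

end Pool.Agent.Lib.MP_c69b6d_co.F
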