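import Pool.Agent.Lib.MP_c69b6d_co.F.CkE

/-! Checkers for the closure lists and for the rules of `Cl` (definitions). -/

namespace Pool.Agent.Lib.MP_c69b6d_co.F

open Finset Disp CD

/-- the data of a member: size, kind (`0` empty, `1` auxiliary, `2` root, `3` child), parent,
new vector and its side, the two covers, the valid triangles. -/
structure MD where
  n : ℕ
  kind : ℕ
  par : ℕ
  r : Bool
  w : ℕ
  A0 : List ℕ
  A1 : List ℕ
  T : List ℕ

inductive Tr (α : Type) : Type
  | leaf : α → Tr α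
  | node : Tr α → Tr α → Tr α

noncomputable def Tr.get {α : Type} (t : Tr α) : ℕ → α :=
  Tr.rec (motive := fun _ => ℕ → α) (fun T _ => T)
    (fun _ _ l r k => cnd (Nat.beq (Nat.land k 1) 1) (r (Nat.shiftRight k 1)) (l (Nat.shiftRight k 1))) t

/-- all entries of `l` pass the test, the first one with the index `lo`. -/
noncomputable def allFrom {α : Type} (l : List α) (f : ℕ → α → Bool) : ℕ → Bool :=
  List.rec (motive := fun _ => ℕ → Bool) (fun _ => true)
    (fun x _ r i => andB (f i x) (r (Nat.succ i))) l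

/-- `u` is degenerate. -/
noncomputable def degB (C : CD) (n : ℕ) (r : Bool) (u : ℕ) : Bool :=
  orB (Nat.beq u 0) (anyLt n (fun z => pmEq u (C.cpyV z r)))

/-- a hash table of the degenerate vectors. -/
noncomputable def degH (C : CD) (n : ℕ) (r : Bool) : ℕ :=
  Nat.rec (motive := fun _ => ℕ) 1 (fun z H => Nat.lor (Nat.lor (bit (Nat.mod (C.cpyV z r) 1021))
    (bit (Nat.mod (vneg (C.cpyV z r)) 1021))) H) n

noncomputable def ndB (C : CD) (n : ℕ) (r : Bool) (H u : ℕ) : Bool :=
  orB (notB (tb H (Nat.mod u 1021))) (notB (degB C n r u))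

noncomputable def c3one (C : CD) (X Y i i' j j' : ℕ) : Bool :=
  andB (tb X i) (andB (tb Y j)
    (cnd (orB (Nat.beq (Nat.land X (Nat.pred X)) 0) (Nat.beq (Nat.land Y (Nat.pred Y)) 0))
      (notB (Nat.beq (C.sN i j) 0)) (andB (tb X i') (andB (tb Y j') (detNZ C i i' j j')))))

/-- 3-connectivity, with one witness for each subset. -/
noncomputable def conn3B (C : CD) (n : ℕ) (l : List ℕ) : Bool :=
  allI (bit n) l (fun X N => orB (Nat.beq X 0) (orB (Nat.beq X C.zm)
    (c3one C X (Nat.xor C.zm X) (Nat.land N 31) (Nat.land (Nat.shiftRight N 5) 31)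
      (Nat.land (Nat.shiftRight N 10) 31) (Nat.shiftRight N 15))))

noncomputable def noStar1 (t : Tb) (C : CD) (l : List ℕ) (b c p g : ℕ) : Bool :=
  orB (notB (pmEq (C.cpyV p false) (vadd (C.cpyV b false) (vsm (Nat.sub 3 g) (C.cpyV c false)))))
    (anyL l (fun N => andB (Nat.beq (Nat.land N 1023) (Nat.add b (Nat.mul 32 c)))
      (bad t 5 (starC C 24 b c g) (Nat.shiftRight N 10))))

noncomputable def noStarB (t : Tb) (C : CD) (l : List ℕ) (b c p : ℕ) : Bool :=
  andB (noStar1 t C l b c p 1) (noStar1 t C l b c p 2)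

noncomputable def nv3 (t : Tb) (C : CD) (l : List ℕ) (b c p : ℕ) : Bool :=
  andB (noStarB t C l b c p) (andB (noStarB t C l c p b) (noStarB t C l p b c))

def mask3 (a b c : ℕ) : ℕ := Nat.lor (bit a) (Nat.lor (bit b) (bit c))

noncomputable def nvK (t : Tb) (C : CD) (l : List ℕ) (m b c p : ℕ) : Bool :=
  andB (Nat.beq m (mask3 b c p)) (andB (Nat.beq (Nat.land m C.zm) m)
    (andB (Nat.blt c b) (andB (Nat.blt p c) (nv3 t C l b c p))))

/-- the triangle with the mask `m` is not valid. -/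
noncomputable def nvB (t : Tb) (C : CD) (l : List ℕ) (m : ℕ) : Bool :=
  nvK t C l m (Nat.log2 m) (Nat.log2 (Nat.xor m (bit (Nat.log2 m))))
    (Nat.log2 (Nat.xor (Nat.xor m (bit (Nat.log2 m))) (bit (Nat.log2 (Nat.xor m (bit (Nat.log2 m)))))))

noncomputable def val2 (t : Tb) (C : CD) (T l : List ℕ) (k u v w : ℕ) : Bool :=
  orB (notB (pmEq w (C.cpyV v false))) (orB (memL (mask3 k u v) T) (nv3 t C l k v u))

/-- the step for valid triangles; `k` is the last element. -/
noncomputable def valStep (t : Tb) (C : CD) (k : ℕ) (T0 T l : List ℕ) : Bool :=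
  andB (allL T0 (fun m => orB (memL m T) (nvB t C l m)))
    (allLt k (fun v => allLt v (fun u =>
      andB (val2 t C T l k u v (vadd (C.cpyV k false) (C.cpyV u false)))
        (val2 t C T l k u v (vadd (C.cpyV k false) (vneg (C.cpyV u false)))))))

/-- the items for the inherited part of a member. -/
structure MI where
  i0 : List ℕ
  i1 : List ℕ
  lv : List ℕ
  c3 : List ℕ

noncomputable def memK (t : Tb) (b : ℕ) (C C0 : CD) (d d0 : MD) (x : MI) : Bool :=
  andB (Nat.beq d.n (Nat.succ d0.n)) (andB (Nat.ble d.n 24) (andB (vonB (C0.side d.r) d.w)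
    (andB (eqB C (C0.add d0.n d.r d.w))
      (andB (covStep t b C false d0.n d0.A0 x.i0 d.A0) (andB (covStep t b C true d0.n d0.A1 x.i1 d.A1)
        (andB (valStep t C d0.n d0.T d.T x.lv)
          (cnd (Nat.beq d.kind 3) (andB (Nat.ble 2 d0.kind) (notB (degB C0 d0.n d.r d.w)))
            (cnd (Nat.beq d.kind 2) (andB (Nat.ble 4 d.n) (conn3B C d.n x.c3))
              (Nat.beq d.kind 1)))))))))

/-- the inherited part of the member `k`. -/
noncomputable def memB (t : Tb) (b : ℕ) (tm : Tb) (td : Tr MD) (k : ℕ) (x : MI) : Bool :=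
  cnd (Nat.beq (td.get k).kind 0)
    (andB (Nat.beq (td.get k).n 0) (andB (Nat.beq (tm.get k).C.zm 0)
      (andB (memL 0 (td.get k).A0) (andB (memL 0 (td.get k).A1)
        (andB (allL (td.get k).A0 (fun u => Nat.beq u 0)) (allL (td.get k).A1 (fun u => Nat.beq u 0)))))))
    (andB (Nat.blt (td.get k).par k)
      (memK t b (tm.get k).C (tm.get (td.get k).par).C (td.get k) (td.get (td.get k).par) x))

/-- what is known about the member `k`. -/
def MemP (𝓛 : List (Disp F3)) (Bad : Disp F3 → Prop) (C : CD) (d : MD) : Prop :=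
  C.zm = rng 0 d.n ∧ d.n ≤ 24 ∧ (∀ u ∈ d.A0, VOn (C.side false) u) ∧
    (∀ u ∈ d.A1, VOn (C.side true) u) ∧ Cover Bad C.toDisp 24 false (d.A0.map vec) ∧
    Cover Bad C.toDisp 24 true (d.A1.map vec) ∧ ValidIn 𝓛 C.toDisp (d.T.map fs) ∧
    (2 ≤ d.kind → C.toDisp.Conn3 ∧ 4 ≤ d.n)

/-- a larger member (index in 9 bits, between `lo` and `hi`) is a minor. -/
noncomputable def upB (tm : Tb) (td : Tr MD) (lo hi n : ℕ) (G : CD) (N : ℕ) : Bool :=
  andB (Nat.ble lo (Nat.land N 511)) (andB (Nat.blt (Nat.land N 511) hi)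
    (andB (Nat.blt n (td.get (Nat.land N 511)).n) (mnr (tm.get (Nat.land N 511)) G (Nat.shiftRight N 9))))

noncomputable def upL (tm : Tb) (td : Tr MD) (lo hi n : ℕ) (C : CD) (r : Bool) (A : List ℕ) :
    List ℕ → Bool :=
  List.rec (motive := fun _ => List ℕ → Bool) (fun _ => true)
    (fun u _ rec l => cnd (degB C n r u) (rec l)
      (pop l (fun N l' => andB (upB tm td lo hi n (C.add 24 r u) N) (rec l')))) A

noncomputable def ex1 (t : Tb) (b : ℕ) (tm : Tb) (td : Tr MD) (lo hi n : ℕ) (G : CD) (N : ℕ) : Bool :=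
  cnd (tb N 0) (upB tm td lo hi n G (Nat.shiftRight N 1)) (bad t b G (Nat.shiftRight N 1))

noncomputable def ex2 (t : Tb) (b : ℕ) (tm : Tb) (td : Tr MD) (lo hi n : ℕ) (C : CD) (H0 H1 : ℕ)
    (l : List ℕ) (z z' e : ℕ) : Bool :=
  orB (ndB C n true H1 (vadd (C.cpyV z' true) (vsm e (C.cpyV z true))))
    (orB (ndB C n false H0 (vadd (C.cpyV z false) (vsm (Nat.sub 3 e) (C.cpyV z' false))))
      (anyL l (fun N => andB (Nat.beq (Nat.land N 4095) (Nat.add z (Nat.add (Nat.mul 32 z') (Nat.mul 1024 e))))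
        (ex1 t b tm td lo hi n ((C.addC 24 (C.cpyV z false)).addR 25
          (vset (C.cpyV z' true) 24 (Nat.mod (Nat.add (vN (C.cpyV z' true) z) e) 3)))
          (Nat.shiftRight N 12)))))

/-- the items for the closure part of a member. -/
structure MU where
  u0 : List ℕ
  u1 : List ℕ
  H0 : ℕ
  H1 : ℕ
  ex : List ℕ

noncomputable def cloK (t : Tb) (b : ℕ) (tm : Tb) (td : Tr MD) (lo hi : ℕ) (C : CD) (d : MD) (x : MU) :
    Bool :=
  andB (Nat.ble 2 d.kind) (andB (upL tm td lo hi d.n C false d.A0 x.u0)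
    (andB (upL tm td lo hi d.n C true d.A1 x.u1)
      (andB (Nat.beq x.H0 (degH C d.n false)) (andB (Nat.beq x.H1 (degH C d.n true))
        (allLt d.n (fun z => allLt d.n (fun z' => orB (Nat.beq z z')
          (andB (ex2 t b tm td lo hi d.n C x.H0 x.H1 x.ex z z' 1)
            (ex2 t b tm td lo hi d.n C x.H0 x.H1 x.ex z z' 2)))))))))

/-- the closure part of the member `k`. -/
noncomputable def cloB (t : Tb) (b : ℕ) (tm : Tb) (td : Tr MD) (lo hi k : ℕ) (x : MU) : Bool :=
  cloK t b tm td lo hi (tm.get k).C (td.get k) x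

/-- the members with indices in `[lo, hi)`. -/
noncomputable def mems (tm : Tb) (lo hi : ℕ) : List (Disp F3) :=
  (List.range' lo (hi - lo)).map fun k => (tm.get k).C.toDisp

/-! Programs for `Cl`. -/

noncomputable def mapL (f : ℕ → ℕ) (l : List ℕ) : List ℕ :=
  List.rec (motive := fun _ => List ℕ) [] (fun x _ r => f x :: r) l

noncomputable def parB (C : CD) (u v : ℕ) : Bool :=
  andB (notB (Nat.beq u v)) (andB (tb C.zm u) (andB (tb C.zm v)
    (pmEq (C.cpyV u false) (C.cpyV v false))))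

noncomputable def compB (m m' : ℕ) : Bool :=
  orB (Nat.beq m m') (Nat.beq (Nat.land (Nat.land m m') (Nat.pred (Nat.land m m'))) 0)

noncomputable def replM (u v m : ℕ) : ℕ := cnd (tb m v) (Nat.lor (Nat.xor m (bit v)) (bit u)) m

noncomputable def simpB (C : CD) (T : List ℕ) (u v : ℕ) : Bool :=
  andB (parB C u v) (andB (notB (tb C.rm v))
    (andB (allL T (fun m => notB (andB (tb m u) (tb m v))))
      (allL T (fun m => allL T (fun m' => orB (notB (compB m m')) (compB (replM u v m) (replM u v m')))))))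

noncomputable def triadB (C : CD) (a b c : ℕ) : Bool :=
  andB (notB (Nat.beq b c)) (andB (Nat.blt b 32) (andB (Nat.blt c 32) (andB (tb C.rm a)
    (Nat.beq (rowV C a) (Nat.lor (bit b) (bit c))))))

noncomputable def wyeC (C : CD) (a b c : ℕ) : CD :=
  (C.res (Nat.xor C.zm (bit a))).addC a (vadd (C.cpyV b false) (vneg (C.cpyV c false)))

noncomputable def wyeT (H : CD) (a b c m x : ℕ) : Bool :=
  orB (andB (Nat.beq m (mask3 x b c)) (parB H x a))
    (orB (andB (Nat.beq m (mask3 x a b)) (parB H x b)) (andB (Nat.beq m (mask3 x a c)) (parB H x c)))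

noncomputable def wyeB (C : CD) (T : List ℕ) (a b c x1 x2 : ℕ) : Bool :=
  andB (triadB C a b c) (andB (tb C.zm x1) (andB (tb C.zm x2) (andB (notB (Nat.beq x1 a))
    (andB (notB (Nat.beq x2 a)) (andB (detNZ C x1 x2 b c)
      (allL T (fun m => cnd (Nat.beq (Nat.land m (mask3 a b c)) 0) (Nat.beq (Nat.land m C.zm) m)
        (andB (notB (tb (mask3 a b c) (Nat.log2 (Nat.xor m (Nat.land m (mask3 a b c))))))
          (wyeT (wyeC C a b c) a b c m (Nat.log2 (Nat.xor m (Nat.land m (mask3 a b c)))))))))))))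

/-- the triple coded in the low 15 bits. -/
def trp (N : ℕ) : ℕ × ℕ × ℕ :=
  (Nat.land N 31, Nat.land (Nat.shiftRight N 5) 31, Nat.land (Nat.shiftRight N 10) 31)

def trpM (N : ℕ) : ℕ := mask3 (trp N).1 (trp N).2.1 (trp N).2.2

noncomputable def wy1 (N : ℕ) (k : CD → Bool) (G : CD) : Bool :=
  andB (triadB G (trp N).1 (trp N).2.1 (trp N).2.2) (k (wyeC G (trp N).1 (trp N).2.1 (trp N).2.2))

/-- successive exchanges: triple (15 bits), signs (32 bits), pivots. -/
noncomputable def wyesB (l : List ℕ) (k : CD → Bool) : CD → Bool :=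
  List.rec (motive := fun _ => CD → Bool) k
    (fun N _ r C => pivs C.zm (Nat.land (Nat.shiftRight N 47) 15)
      (fun G _ => wy1 N r (G.scl (Nat.land (Nat.shiftRight N 15) cF))) C (Nat.shiftRight N 51)) l

noncomputable def disjL (l : List ℕ) : ℕ → Bool :=
  List.rec (motive := fun _ => ℕ → Bool) (fun _ => true)
    (fun m _ r U => andB (Nat.beq (Nat.land m U) 0) (r (Nat.lor m U))) l

noncomputable def mkTg (C : CD) : Tg :=
  ⟨C, Nat.rec (motive := fun _ => List ℕ) []
      (fun j r => cnd (tb (Nat.xor C.zm C.rm) j) (j :: r) r) 31,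
    Nat.rec (motive := fun _ => RL) RL.nil
      (fun i r => cnd (tb C.rm i) (RL.cons i (rowP C.P i) (rowP C.M i) r) r) 31⟩

noncomputable def imM (F m : ℕ) : ℕ :=
  Nat.rec (motive := fun _ => ℕ) 0 (fun i r => cnd (tb m i) (Nat.lor (bit (phiN F i)) r) r) 31

/-- the last step: an embedding into the state `j < s`. -/
noncomputable def endB (ts : Tb) (tt : Tr (List ℕ)) (s : ℕ) (C : CD) (T : List ℕ) (j N : ℕ) : Bool :=
  andB (Nat.blt j s) (andB (mkTg C).ok (andB (mnr (mkTg C) (ts.get j).C N)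
    (allL T (fun m => andB (Nat.beq (Nat.land m C.zm) m)
      (memL (imM (Nat.shiftRight N (Nat.add 4 (Nat.mul 10 (Nat.mod N 16)))) m) (tt.get j))))))

noncomputable def opB (o : ℕ) (a : List ℕ) (k : CD → List ℕ → Bool) (C : CD) (T : List ℕ) : Bool :=
  cnd (Nat.beq o 0) (pivs C.zm (a.getD 0 0) (fun G _ => k G T) C (a.getD 1 0))
    (cnd (Nat.beq o 1) (k (C.scl (a.getD 0 0)) T)
      (cnd (Nat.beq o 2) (andB (simpB C T (a.getD 0 0) (a.getD 1 0))
          (k (C.res (Nat.xor C.zm (bit (a.getD 1 0)))) (mapL (replM (a.getD 0 0) (a.getD 1 0)) T)))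
        (cnd (Nat.beq o 3)
          (andB (wyeB C T (a.getD 0 0) (a.getD 1 0) (a.getD 2 0) (a.getD 3 0) (a.getD 4 0))
            (k (wyeC C (a.getD 0 0) (a.getD 1 0) (a.getD 2 0))
              (mask3 (a.getD 0 0) (a.getD 1 0) (a.getD 2 0) :: mapL (fun m =>
                cnd (Nat.beq (Nat.land m (mask3 (a.getD 0 0) (a.getD 1 0) (a.getD 2 0))) 0) m
                  (mask3 (a.getD 0 0) (a.getD 1 0) (a.getD 2 0))) T)))
          (andB (disjL (mapL trpM a) 0) (andB (allL T (fun m => memL m (mapL trpM a)))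
            (wyesB a (fun H => k H (mapL trpM a)) C.flp))))))

/-- a program: steps `(code, arguments)`, then an embedding into the state `j`. -/
structure PG where
  ops : List (ℕ × List ℕ)
  j : ℕ
  N : ℕ

noncomputable def runB (ts : Tb) (tt : Tr (List ℕ)) (s : ℕ) (p : PG) : CD → List ℕ → Bool :=
  List.rec (motive := fun _ => CD → List ℕ → Bool) (fun C T => endB ts tt s C T p.j p.N)
    (fun x _ r => opB x.1 x.2 r) p.ops

noncomputable def stB (ts : Tb) (tt : Tr (List ℕ)) (s : ℕ) (p : PG) : Bool :=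
  runB ts tt s p (ts.get s).C (tt.get s)

/-- the claim for a display with a list of triangle masks. -/
def ClP (C : CD) (T : List ℕ) : Prop := Cl C.toDisp.W C.toDisp.Z (T.map fs)

/-! The list of bases. -/

noncomputable def blK (e pre : ℕ) (rec : CD → ℕ → (List ℕ → Bool) → List ℕ → Bool) (C : CD)
    (k : List ℕ → Bool) : List ℕ → Bool :=
  cnd (tb C.rm e)
    (cnd (Nat.beq (Nat.lor (rowP C.P e) (rowP C.M e)) 0)
      (rec (C.res (rng 0 e)) (Nat.lor pre (bit e)) k)
      (rec ((C.piv e (Nat.log2 (Nat.lor (rowP C.P e) (rowP C.M e)))).res (rng 0 e)) pre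
        (rec (C.res (rng 0 e)) (Nat.lor pre (bit e)) k)))
    (cnd (Nat.beq (Nat.lor (colP C.P e) (colP C.M e)) 0) (rec (C.res (rng 0 e)) pre k)
      (rec (C.res (rng 0 e)) pre
        (rec ((C.piv (Nat.div (Nat.log2 (Nat.lor (colP C.P e) (colP C.M e))) 32) e).res (rng 0 e))
          (Nat.lor pre (bit e)) k)))

noncomputable def blR (n : ℕ) : CD → ℕ → (List ℕ → Bool) → List ℕ → Bool :=
  Nat.rec (motive := fun _ => CD → ℕ → (List ℕ → Bool) → List ℕ → Bool)
    (fun _ pre k l => pop l (fun x l' => andB (Nat.beq x pre) (k l')))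
    (fun e rec C pre k => blK e pre rec C k) n

/-- `L` is the list of the bases. -/
noncomputable def blB (n : ℕ) (C : CD) (L : List ℕ) : Bool :=
  andB C.wfB (andB (Nat.beq C.zm (rng 0 n)) (blR n C 0 (fun l => notB (pop l (fun _ _ => true))) L))

end Pool.Agent.Lib.MP_c69b6d_co.F
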