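import Pool.Agent.Lib.MP_c69b6d_co.F.Api2

/-! The rank function `lam` and 3-connectivity. -/

namespace Pool.Agent.Lib.MP_c69b6d_co.F

open Finset

variable {K : Type} [Field K]

namespace Disp

/-- the left kernel of `S[X, Y]`, as functions supported on `X`. -/
def kr (D : Disp K) (X Y : Finset ℕ) : Submodule K (ℕ → K) where
  carrier := {u | (∀ i, i ∉ X → u i = 0) ∧ ∀ j ∈ Y, ∑ i ∈ X, u i * D.S i j = 0}
  add_mem' := by
    rintro a b ⟨a1, a2⟩ ⟨b1, b2⟩
    refine ⟨fun i hi => by simp [a1 i hi, b1 i hi], fun j hj => ?_⟩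
    simp only [Pi.add_apply, add_mul, sum_add_distrib, a2 j hj, b2 j hj, add_zero]
  zero_mem' := ⟨fun _ _ => rfl, fun j _ => by simp⟩
  smul_mem' := by
    rintro k a ⟨a1, a2⟩
    refine ⟨fun i hi => by simp [a1 i hi], fun j hj => ?_⟩
    simp only [Pi.smul_apply, smul_eq_mul, mul_assoc, ← mul_sum, a2 j hj, mul_zero]

theorem mem_kr {D : Disp K} {X Y : Finset ℕ} {u : ℕ → K} : u ∈ D.kr X Y ↔
    (∀ i, i ∉ X → u i = 0) ∧ ∀ j ∈ Y, ∑ i ∈ X, u i * D.S i j = 0 := Iff.rfl

/-- extension by zero. -/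
def extZ (K : Type) [Field K] (X : Finset ℕ) : (X → K) →ₗ[K] (ℕ → K) where
  toFun := fun u i => if h : i ∈ X then u ⟨i, h⟩ else 0
  map_add' := by
    intro a b; funext i
    by_cases h : i ∈ X <;> simp [h]
  map_smul' := by
    intro k a; funext i
    by_cases h : i ∈ X <;> simp [h]

theorem extZ_apply (X : Finset ℕ) (u : X → K) (i : ℕ) :
    extZ K X u i = if h : i ∈ X then u ⟨i, h⟩ else 0 := rfl

theorem extZ_inj (X : Finset ℕ) : Function.Injective (extZ K X) := by
  intro a b h
  funext i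
  have := congrFun h i.1
  simpa [extZ_apply, i.2] using this

theorem kr_eq_map (D : Disp K) (X Y : Finset ℕ) :
    D.kr X Y = (LinearMap.ker (Matrix.of fun (i : X) (j : Y) => D.S i j).transpose.mulVecLin).map
      (extZ K X) := by
  ext u
  rw [mem_kr, Submodule.mem_map]
  constructor
  · rintro ⟨h1, h2⟩
    refine ⟨fun i => u i, ?_, ?_⟩
    · rw [LinearMap.mem_ker]
      funext j
      have := h2 j.1 j.2
      rw [← sum_coe_sort] at this
      simpa [Matrix.mulVec, dotProduct, Matrix.vecMul, mul_comm] using this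
    · funext i
      rw [extZ_apply]
      by_cases h : i ∈ X
      · simp [h]
      · simp [h, h1 i h]
  · rintro ⟨w, hw, rfl⟩
    refine ⟨fun i hi => by simp [extZ_apply, hi], fun j hj => ?_⟩
    rw [LinearMap.mem_ker] at hw
    have := congrFun hw ⟨j, hj⟩
    rw [← sum_coe_sort]
    simpa [Matrix.mulVec, dotProduct, Matrix.vecMul, mul_comm, extZ_apply] using this

instance kr_fin (D : Disp K) (X Y : Finset ℕ) : FiniteDimensional K (D.kr X Y) := by
  rw [kr_eq_map]; infer_instance

theorem lam_add_kr (D : Disp K) (X Y : Finset ℕ) :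
    D.lam X Y + Module.finrank K (D.kr X Y) = X.card := by
  have h := LinearMap.finrank_range_add_finrank_ker
    (Matrix.of fun (i : X) (j : Y) => D.S i j).transpose.mulVecLin
  rw [kr_eq_map, ← (Submodule.equivMapOfInjective _ (extZ_inj X) _).finrank_eq]
  unfold lam
  rw [← Matrix.rank_transpose]
  simpa [Matrix.rank] using h

theorem sum_ext_of_supp {X X' : Finset ℕ} (h : X ⊆ X') {u : ℕ → K} (hu : ∀ i, i ∉ X → u i = 0)
    (f : ℕ → K) : ∑ i ∈ X', u i * f i = ∑ i ∈ X, u i * f i :=
  (sum_subset h fun i _ hi => by rw [hu i hi, zero_mul]).symm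

theorem kr_le (D : Disp K) {X X' Y Y' : Finset ℕ} (hX : X ⊆ X') (hY : Y' ⊆ Y) :
    D.kr X Y ≤ D.kr X' Y' := by
  rintro u ⟨h1, h2⟩
  refine ⟨fun i hi => h1 i fun h => hi (hX h), fun j hj => ?_⟩
  rw [sum_ext_of_supp hX h1]
  exact h2 j (hY hj)

theorem lam_le_of_mul {L D : Disp K} {X Y X' Y' : Finset ℕ} (P Q : ℕ → ℕ → K)
    (h : ∀ i ∈ X, ∀ j ∈ Y, L.S i j = ∑ j' ∈ Y', (∑ i' ∈ X', P i i' * D.S i' j') * Q j' j) :
    L.lam X Y ≤ D.lam X' Y' := by
  unfold lam
  have e : (Matrix.of fun (i : X) (j : Y) => L.S i j) =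
      (Matrix.of fun (i : X) (i' : X') => P i i') * (Matrix.of fun (i : X') (j : Y') => D.S i j) *
        (Matrix.of fun (j' : Y') (j : Y) => Q j' j) := by
    ext i j
    simp only [Matrix.mul_apply, Matrix.of_apply]
    rw [h i.1 i.2 j.1 j.2, ← sum_coe_sort]
    refine sum_congr rfl fun j' _ => ?_
    rw [← sum_coe_sort]
  rw [e]
  exact (Matrix.rank_mul_le_left _ _).trans (Matrix.rank_mul_le_right _ _)

theorem lam_le_of_map {L D : Disp K} {X Y X' Y' : Finset ℕ} (f g : ℕ → ℕ) (a b : ℕ → K)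
    (hf : ∀ i ∈ X, f i ∈ X') (hg : ∀ j ∈ Y, g j ∈ Y')
    (h : ∀ i ∈ X, ∀ j ∈ Y, L.S i j = a i * b j * D.S (f i) (g j)) :
    L.lam X Y ≤ D.lam X' Y' := by
  refine lam_le_of_mul (fun i i' => if i' = f i then a i else 0)
    (fun j' j => if j' = g j then b j else 0) fun i hi j hj => ?_
  simp only [ite_mul, zero_mul, mul_ite, mul_zero, sum_ite_eq', hf i hi, hg j hj, if_true]
  rw [h i hi j hj]; ring

theorem lam_symm_le (D : Disp K) (X Y : Finset ℕ) : D.lam X Y ≤ D.lam Y X := by
  unfold lam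
  have e : (Matrix.of fun (i : X) (j : Y) => D.S i j) =
      (Matrix.of fun (i : Y) (j : X) => D.S i j).transpose * (-1 : Matrix Y Y K) := by
    ext i j
    simp only [Matrix.mul_neg, Matrix.mul_one, Matrix.neg_apply, Matrix.transpose_apply,
      Matrix.of_apply]
    exact D.skew i j
  rw [e]
  exact (Matrix.rank_mul_le_left _ _).trans (Matrix.rank_transpose _).le

theorem lam_symm (D : Disp K) (X Y : Finset ℕ) : D.lam X Y = D.lam Y X :=
  le_antisymm (D.lam_symm_le X Y) (D.lam_symm_le Y X)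

theorem lam_mono (D : Disp K) {X X' Y Y' : Finset ℕ} (hX : X ⊆ X') (hY : Y ⊆ Y') :
    D.lam X Y ≤ D.lam X' Y' :=
  lam_le_of_map id id (fun _ => 1) (fun _ => 1) (fun _ h => hX h) (fun _ h => hY h)
    fun i _ j _ => by simp

theorem lam_submod (D : Disp K) (X1 Y1 X2 Y2 : Finset ℕ) :
    D.lam (X1 ∪ X2) (Y1 ∩ Y2) + D.lam (X1 ∩ X2) (Y1 ∪ Y2) ≤ D.lam X1 Y1 + D.lam X2 Y2 := by
  have h1 := D.lam_add_kr X1 Y1
  have h2 := D.lam_add_kr X2 Y2
  have h3 := D.lam_add_kr (X1 ∪ X2) (Y1 ∩ Y2)
  have h4 := D.lam_add_kr (X1 ∩ X2) (Y1 ∪ Y2)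
  have h5 := card_union_add_card_inter X1 X2
  have h6 := Submodule.finrank_sup_add_finrank_inf_eq (D.kr X1 Y1) (D.kr X2 Y2)
  have h7 : D.kr X1 Y1 ⊔ D.kr X2 Y2 ≤ D.kr (X1 ∪ X2) (Y1 ∩ Y2) :=
    sup_le (D.kr_le subset_union_left inter_subset_left)
      (D.kr_le subset_union_right inter_subset_right)
  have h8 : D.kr X1 Y1 ⊓ D.kr X2 Y2 ≤ D.kr (X1 ∩ X2) (Y1 ∪ Y2) := by
    rintro u ⟨⟨a1, a2⟩, ⟨b1, b2⟩⟩
    have hs : ∀ i, i ∉ X1 ∩ X2 → u i = 0 := by
      intro i hi
      by_cases h : i ∈ X1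
      · exact b1 i fun h' => hi (mem_inter.2 ⟨h, h'⟩)
      · exact a1 i h
    refine ⟨hs, fun j hj => ?_⟩
    rcases mem_union.1 hj with hj | hj
    · rw [← sum_ext_of_supp inter_subset_left hs]; exact a2 j hj
    · rw [← sum_ext_of_supp inter_subset_right hs]; exact b2 j hj
  have h9 := Submodule.finrank_mono h7
  have h10 := Submodule.finrank_mono h8
  omega

theorem lam_insert_le (D : Disp K) (X Y : Finset ℕ) (v : ℕ) :
    D.lam (insert v X) Y ≤ D.lam X Y + 1 := by
  have h1 := D.lam_add_kr X Y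
  have h2 := D.lam_add_kr (insert v X) Y
  have h3 := Submodule.finrank_mono (D.kr_le (subset_insert v X) (Subset.refl Y))
  have h4 := card_insert_le v X
  omega

theorem lam_congr {D E : Disp K} {X Y : Finset ℕ} (h : ∀ i ∈ X, ∀ j ∈ Y, E.S i j = D.S i j) :
    E.lam X Y = D.lam X Y := by
  unfold lam
  have e : (Matrix.of fun (i : X) (j : Y) => E.S i j) =
      (Matrix.of fun (i : X) (j : Y) => D.S i j) := by
    ext i j
    exact h i.1 i.2 j.1 j.2
  rw [e]

@[simp] theorem lam_restrict (D : Disp K) (U X Y : Finset ℕ) :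
    (D.restrict U).lam X Y = D.lam X Y := rfl

@[simp] theorem lam_flip (D : Disp K) (X Y : Finset ℕ) : D.flip.lam X Y = D.lam X Y := rfl

theorem lam_scale (D : Disp K) {ε : ℕ → K} (hε : ∀ i, ε i * ε i = 1) (X Y : Finset ℕ) :
    (D.scale ε).lam X Y = D.lam X Y := by
  refine le_antisymm (lam_le_of_map id id ε ε (fun _ h => h) (fun _ h => h) fun i _ j _ => rfl)
    (lam_le_of_map id id ε ε (fun _ h => h) (fun _ h => h) fun i _ j _ => ?_)
  change D.S i j = ε i * ε j * (ε i * ε j * D.S i j)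
  linear_combination (-(D.S i j) * ε j * ε j) * hε i - D.S i j * hε j

theorem kr_pivot_le (D : Disp K) {X Y : Finset ℕ} (hXY : Disjoint X Y) {x y : ℕ}
    (hx : x ∈ X ∪ Y) (hy : y ∈ X ∪ Y) (h : D.S x y ≠ 0) :
    Module.finrank K (D.kr X Y) ≤ Module.finrank K ((D.pivot x y).kr X Y) := by
  set X' : Finset ℕ := insert x (insert y X) with hX'
  have hXX : X ⊆ X' := (subset_insert y X).trans (subset_insert x _)
  have hx' : x ∈ X' := mem_insert_self _ _
  have hy' : y ∈ X' := mem_insert_of_mem (mem_insert_self _ _)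
  let f : (ℕ → K) →ₗ[K] (ℕ → K) :=
    { toFun := fun u i => if i = x ∨ i = y then ∑ k ∈ X', u k * D.S k i else u i
      map_add' := by
        intro a b; funext i
        by_cases hi : i = x ∨ i = y
        · simp only [hi, if_true, Pi.add_apply, add_mul, sum_add_distrib]
        · simp only [hi, if_false, Pi.add_apply]
      map_smul' := by
        intro c a; funext i
        by_cases hi : i = x ∨ i = y
        · simp only [hi, if_true, Pi.smul_apply, smul_eq_mul, mul_assoc, ← mul_sum,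
            RingHom.id_apply]
        · simp only [hi, if_false, Pi.smul_apply, RingHom.id_apply] }
  have hf : ∀ u i, f u i = if i = x ∨ i = y then ∑ k ∈ X', u k * D.S k i else u i :=
    fun _ _ => rfl
  have sw : ∀ u j, ∑ k ∈ X', f u k * (D.pivot x y).S k j =
      if j = x ∨ j = y then u j else ∑ k ∈ X', u k * D.S k j :=
    fun u j => swap_vec h hx' hy' u j
  have finj : Function.Injective f := by
    rw [injective_iff_map_eq_zero]
    intro u hu
    funext i
    by_cases hi : i = x ∨ i = y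
    · have := sw u i
      rw [hu, if_pos hi] at this
      simpa using this.symm
    · have := congrFun hu i
      rw [hf, if_neg hi] at this
      exact this
  have hle : (D.kr X Y).map f ≤ (D.pivot x y).kr X Y := by
    rintro _ ⟨u, ⟨h1, h2⟩, rfl⟩
    have hs : ∀ i, i ∉ X → f u i = 0 := by
      intro i hi
      rw [hf]
      by_cases hc : i = x ∨ i = y
      · rw [if_pos hc, sum_ext_of_supp hXX h1]
        apply h2
        rcases hc with rfl | rfl
        · exact (mem_union.1 hx).resolve_left hi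
        · exact (mem_union.1 hy).resolve_left hi
      · rw [if_neg hc]; exact h1 i hi
    refine ⟨hs, fun j hj => ?_⟩
    rw [← sum_ext_of_supp hXX hs, sw]
    by_cases hc : j = x ∨ j = y
    · rw [if_pos hc]
      exact h1 j fun hjX => disjoint_left.1 hXY hjX hj
    · rw [if_neg hc, sum_ext_of_supp hXX h1]
      exact h2 j hj
  rw [(Submodule.equivMapOfInjective f finj _).finrank_eq]
  exact Submodule.finrank_mono hle

theorem lam_pivot (D : Disp K) {X Y : Finset ℕ} (hXY : Disjoint X Y) {x y : ℕ} (hx : x ∈ X ∪ Y)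
    (hy : y ∈ X ∪ Y) : (D.pivot x y).lam X Y = D.lam X Y := by
  by_cases h : D.S x y = 0
  · unfold pivot; rw [dif_pos h]
  · have h1 := D.kr_pivot_le hXY hx hy h
    have h2 := (D.pivot x y).kr_pivot_le hXY hx hy (pivot_S_ne h)
    rw [pivot_pivot] at h2
    have h3 := D.lam_add_kr X Y
    have h4 := (D.pivot x y).lam_add_kr X Y
    omega

theorem ReachIn.lam_eq {U X Y : Finset ℕ} {D E : Disp K} (h : ReachIn U D E) (hXY : Disjoint X Y)
    (hU : U ⊆ X ∪ Y) : E.lam X Y = D.lam X Y := by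
  induction h with
  | refl => rfl
  | tail _ h2 ih =>
    obtain ⟨x, hx, y, hy, -, rfl⟩ := h2
    rw [lam_pivot _ hXY (hU hx) (hU hy), ih]

theorem Emb.lam_eq {L D : Disp K} {φ : ℕ → ℕ} {ε : ℕ → K} (h : Emb L D φ ε) {X Y : Finset ℕ}
    (hX : X ⊆ L.Z) (hY : Y ⊆ L.Z) : D.lam (X.image φ) (Y.image φ) = L.lam X Y := by
  apply le_antisymm
  · have cX : ∀ i, ∃ k, i ∈ X.image φ → k ∈ X ∧ φ k = i := by
      intro i
      by_cases hi : i ∈ X.image φ
      · obtain ⟨k, hk, e⟩ := mem_image.1 hi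
        exact ⟨k, fun _ => ⟨hk, e⟩⟩
      · exact ⟨0, fun h' => absurd h' hi⟩
    have cY : ∀ i, ∃ k, i ∈ Y.image φ → k ∈ Y ∧ φ k = i := by
      intro i
      by_cases hi : i ∈ Y.image φ
      · obtain ⟨k, hk, e⟩ := mem_image.1 hi
        exact ⟨k, fun _ => ⟨hk, e⟩⟩
      · exact ⟨0, fun h' => absurd h' hi⟩
    choose f hf using cX
    choose g hg using cY
    refine lam_le_of_map f g (fun i => ε (f i)) (fun j => ε (g j)) (fun i hi => (hf i hi).1)
      (fun j hj => (hg j hj).1) fun i hi j hj => ?_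
    have := h.ent (f i) (hX (hf i hi).1) (g j) (hY (hg j hj).1)
    rwa [(hf i hi).2, (hg j hj).2] at this
  · refine lam_le_of_map φ φ ε ε (fun i hi => mem_image_of_mem φ hi)
      (fun j hj => mem_image_of_mem φ hj) fun i hi j hj => ?_
    rw [h.ent i (hX hi) j (hY hj)]
    linear_combination (-(L.S i j) * ε j * ε j) * h.sq i (hX hi) - L.S i j * h.sq j (hY hj)

theorem lam_le_of_fac {D : Disp K} {X Y : Finset ℕ} {m : ℕ} (u v : Fin m → ℕ → K)
    (h : ∀ i ∈ X, ∀ j ∈ Y, D.S i j = ∑ k, u k i * v k j) : D.lam X Y ≤ m := by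
  unfold lam
  have e : (Matrix.of fun (i : X) (j : Y) => D.S i j) =
      (Matrix.of fun (i : X) (k : Fin m) => u k i) * (Matrix.of fun (k : Fin m) (j : Y) => v k j) := by
    ext i j
    simp only [Matrix.mul_apply, Matrix.of_apply]
    exact h i.1 i.2 j.1 j.2
  rw [e]
  refine (Matrix.rank_mul_le_left _ _).trans ?_
  simpa using Matrix.rank_le_card_width (Matrix.of fun (i : X) (k : Fin m) => u k i)

/-- linearly independent rows give a lower bound. -/
theorem card_le_lam {D : Disp K} {X0 X Y : Finset ℕ} (hX : X0 ⊆ X)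
    (h : ∀ u : ℕ → K, (∀ j ∈ Y, ∑ i ∈ X0, u i * D.S i j = 0) → ∀ i ∈ X0, u i = 0) :
    X0.card ≤ D.lam X Y := by
  have h1 := D.lam_add_kr X0 Y
  have h2 : D.kr X0 Y = ⊥ := by
    rw [eq_bot_iff]
    rintro u ⟨a1, a2⟩
    rw [Submodule.mem_bot]
    funext i
    by_cases hi : i ∈ X0
    · exact h u a2 i hi
    · exact a1 i hi
  rw [h2, finrank_bot] at h1
  have h3 := D.lam_mono hX (Subset.refl Y)
  omega

theorem lam_eq_zero_iff {D : Disp K} {X Y : Finset ℕ} :
    D.lam X Y = 0 ↔ ∀ i ∈ X, ∀ j ∈ Y, D.S i j = 0 := by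
  constructor
  · intro h i hi j hj
    by_contra hne
    have := card_le_lam (D := D) (Y := Y) (singleton_subset_iff.2 hi) fun u hu k hk => by
      have e := hu j hj
      rw [sum_singleton] at e
      rw [mem_singleton.1 hk]
      exact (mul_eq_zero.1 e).resolve_right hne
    rw [card_singleton] at this
    omega
  · intro h
    have := lam_le_of_fac (D := D) (X := X) (Y := Y) (m := 0) (fun _ _ => 0) (fun _ _ => 0)
      fun i hi j hj => by simp [h i hi j hj]
    omega

theorem lam_le_one {D : Disp K} {X Y : Finset ℕ} (u v : ℕ → K)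
    (h : ∀ i ∈ X, ∀ j ∈ Y, D.S i j = u i * v j) : D.lam X Y ≤ 1 :=
  lam_le_of_fac (m := 1) (fun _ => u) (fun _ => v) fun i hi j hj => by simp [h i hi j hj]

theorem lam_le_two {D : Disp K} {X Y : Finset ℕ} (u v u' v' : ℕ → K)
    (h : ∀ i ∈ X, ∀ j ∈ Y, D.S i j = u i * v j + u' i * v' j) : D.lam X Y ≤ 2 :=
  lam_le_of_fac (m := 2) ![u, u'] ![v, v'] fun i hi j hj => by
    simp [h i hi j hj, Fin.sum_univ_two]

/-- if the rows of `X` (of `D`, read on `Y`) are combinations of the rows of `X'` (of `E`). -/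
theorem lam_le_of_rows {D E : Disp K} {X X' Y : Finset ℕ}
    (h : ∀ i ∈ X, ∃ a : ℕ → K, ∀ j ∈ Y, D.S i j = ∑ k ∈ X', a k * E.S k j) :
    D.lam X Y ≤ E.lam X' Y := by
  have c : ∀ i, ∃ a : ℕ → K, i ∈ X → ∀ j ∈ Y, D.S i j = ∑ k ∈ X', a k * E.S k j := by
    intro i
    by_cases hi : i ∈ X
    · obtain ⟨a, ha⟩ := h i hi
      exact ⟨a, fun _ => ha⟩
    · exact ⟨0, fun h' => absurd h' hi⟩
  choose P hP using c
  refine lam_le_of_mul P (fun j' j => if j' = j then 1 else 0) fun i hi j hj => ?_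
  simp only [mul_ite, mul_one, mul_zero, sum_ite_eq', hj, if_true]
  exact hP i hi j hj

theorem det_two_of_lam {D : Disp K} {X Y : Finset ℕ} (h : D.lam X Y ≤ 1) {i i' j j' : ℕ}
    (hi : i ∈ X) (hi' : i' ∈ X) (hj : j ∈ Y) (hj' : j' ∈ Y) :
    D.S i j * D.S i' j' = D.S i j' * D.S i' j := by
  by_contra hne
  have hii : i ≠ i' := by
    rintro rfl
    exact hne (mul_comm _ _)
  have hd : D.S i j * D.S i' j' - D.S i j' * D.S i' j ≠ 0 := sub_ne_zero.2 hne
  have hs : ({i, i'} : Finset ℕ) ⊆ X := insert_subset hi (singleton_subset_iff.2 hi')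
  have := card_le_lam (D := D) (Y := Y) hs fun u hu k hk => by
    have e1 := hu j hj
    have e2 := hu j' hj'
    rw [sum_pair hii] at e1 e2
    rcases mem_insert.1 hk with rfl | hk
    · apply (mul_eq_zero.1 (?_ : u k * _ = 0)).resolve_right hd
      linear_combination D.S i' j' * e1 - D.S i' j * e2
    · rw [mem_singleton.1 hk]
      apply (mul_eq_zero.1 (?_ : u i' * _ = 0)).resolve_right hd
      linear_combination D.S i j * e2 - D.S i j' * e1
  rw [card_pair hii] at this
  omega

theorem lam_le_one_of_det {D : Disp K} {X Y : Finset ℕ}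
    (h : ∀ i ∈ X, ∀ i' ∈ X, ∀ j ∈ Y, ∀ j' ∈ Y, D.S i j * D.S i' j' = D.S i j' * D.S i' j) :
    D.lam X Y ≤ 1 := by
  by_cases h0 : ∀ i ∈ X, ∀ j ∈ Y, D.S i j = 0
  · rw [lam_eq_zero_iff.2 h0]; exact zero_le_one
  · push Not at h0
    obtain ⟨i0, hi0, j0, hj0, hne⟩ := h0
    refine lam_le_one (fun i => D.S i j0 / D.S i0 j0) (fun j => D.S i0 j) fun i hi j hj => ?_
    have := h i hi i0 hi0 j hj j0 hj0
    field_simp
    linear_combination this

/-- Schur complement with respect to a nonsingular `2 × 2` block. -/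
theorem lam_le_two_iff {D : Disp K} {X Y : Finset ℕ} {x1 x2 b c : ℕ} (h1 : x1 ∈ X) (h2 : x2 ∈ X)
    (hb : b ∈ Y) (hc : c ∈ Y) (hd : D.S x1 b * D.S x2 c - D.S x1 c * D.S x2 b ≠ 0) :
    D.lam X Y ≤ 2 ↔ ∀ i ∈ X, ∀ j ∈ Y,
      (D.S x1 b * D.S x2 c - D.S x1 c * D.S x2 b) * D.S i j =
        D.S i b * (D.S x2 c * D.S x1 j - D.S x1 c * D.S x2 j) +
        D.S i c * (D.S x1 b * D.S x2 j - D.S x2 b * D.S x1 j) := by
  constructor
  · intro h i hi j hj
    by_contra hne
    have h12 : x1 ≠ x2 := by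
      rintro rfl
      exact hd (by ring)
    have hi1 : i ≠ x1 := by
      rintro rfl
      exact hne (by ring)
    have hi2 : i ≠ x2 := by
      rintro rfl
      exact hne (by ring)
    have hn : i ∉ ({x1, x2} : Finset ℕ) := by simp [hi1, hi2]
    have hs : ({i, x1, x2} : Finset ℕ) ⊆ X :=
      insert_subset hi (insert_subset h1 (singleton_subset_iff.2 h2))
    have hΔ := sub_ne_zero.2 hne
    have := card_le_lam (D := D) (Y := Y) hs fun u hu k hk => by
      have e1 := hu b hb
      have e2 := hu c hc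
      have e3 := hu j hj
      rw [sum_insert hn, sum_pair h12] at e1 e2 e3
      have u0 : u i = 0 := by
        apply (mul_eq_zero.1 (?_ : u i * _ = 0)).resolve_right hΔ
        linear_combination (D.S x1 b * D.S x2 c - D.S x1 c * D.S x2 b) * e3 -
          (D.S x2 c * D.S x1 j - D.S x1 c * D.S x2 j) * e1 -
          (D.S x1 b * D.S x2 j - D.S x2 b * D.S x1 j) * e2
      rw [u0] at e1 e2
      rcases mem_insert.1 hk with rfl | hk
      · exact u0
      · rcases mem_insert.1 hk with rfl | hk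
        · apply (mul_eq_zero.1 (?_ : u k * _ = 0)).resolve_right hd
          linear_combination D.S x2 c * e1 - D.S x2 b * e2
        · rw [mem_singleton.1 hk]
          apply (mul_eq_zero.1 (?_ : u x2 * _ = 0)).resolve_right hd
          linear_combination D.S x1 b * e2 - D.S x1 c * e1
    rw [card_insert_of_notMem hn, card_pair h12] at this
    omega
  · intro h
    refine lam_le_two (fun i => D.S i b / (D.S x1 b * D.S x2 c - D.S x1 c * D.S x2 b))
      (fun j => D.S x2 c * D.S x1 j - D.S x1 c * D.S x2 j)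
      (fun i => D.S i c / (D.S x1 b * D.S x2 c - D.S x1 c * D.S x2 b))
      (fun j => D.S x1 b * D.S x2 j - D.S x2 b * D.S x1 j) fun i hi j hj => ?_
    have := h i hi j hj
    rw [div_mul_eq_mul_div, div_mul_eq_mul_div, ← add_div, eq_div_iff hd]
    linear_combination this

/-- the rank grows iff a left kernel vector does not kill the new column. -/
theorem lam_lt_insert_iff {D : Disp K} {X Y : Finset ℕ} {t : ℕ} :
    D.lam X Y < D.lam X (insert t Y) ↔ ∃ u : ℕ → K, (∀ j ∈ Y, ∑ i ∈ X, u i * D.S i j = 0) ∧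
      ∑ i ∈ X, u i * D.S i t ≠ 0 := by
  have h1 := D.lam_add_kr X Y
  have h2 := D.lam_add_kr X (insert t Y)
  have hle := D.kr_le (Subset.refl X) (subset_insert t Y)
  constructor
  · intro h
    by_contra hn
    push Not at hn
    have : D.kr X Y ≤ D.kr X (insert t Y) := by
      rintro u ⟨a1, a2⟩
      refine ⟨a1, fun j hj => ?_⟩
      rcases mem_insert.1 hj with rfl | hj
      · exact hn u a2
      · exact a2 j hj
    have := Submodule.finrank_mono this
    omega
  · rintro ⟨u, a2, a3⟩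
    have e : ∀ j, ∑ i ∈ X, (if i ∈ X then u i else 0) * D.S i j = ∑ i ∈ X, u i * D.S i j :=
      fun j => sum_congr rfl fun i hi => by rw [if_pos hi]
    have hlt : D.kr X (insert t Y) < D.kr X Y := by
      refine lt_of_le_of_ne hle fun he => ?_
      have m : (fun i => if i ∈ X then u i else 0) ∈ D.kr X Y :=
        ⟨fun i hi => if_neg hi, fun j hj => by rw [e]; exact a2 j hj⟩
      rw [← he] at m
      have := m.2 t (mem_insert_self _ _)
      rw [e] at this
      exact a3 this
    have := Submodule.finrank_lt_finrank_of_lt hlt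
    omega

theorem lam_insert_le_iff {D : Disp K} {X Y : Finset ℕ} {t : ℕ} :
    D.lam X (insert t Y) ≤ D.lam X Y ↔
      ∃ a : ℕ → K, ∀ i ∈ X, D.S i t = ∑ j ∈ Y, a j * D.S i j := by
  rw [D.lam_symm X (insert t Y), D.lam_symm X Y]
  constructor
  · intro h
    by_cases ht : t ∈ Y
    · exact ⟨fun j => if j = t then 1 else 0, fun i _ => by simp [ht]⟩
    · have h1 := D.lam_add_kr Y X
      have h2 := D.lam_add_kr (insert t Y) X
      rw [card_insert_of_notMem ht] at h2
      have hn : ¬ D.kr (insert t Y) X ≤ D.kr Y X := fun hle => by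
        have := Submodule.finrank_mono hle
        omega
      obtain ⟨u, ⟨a1, a2⟩, hu⟩ := SetLike.not_le_iff_exists.1 hn
      have ut : u t ≠ 0 := by
        intro h0
        apply hu
        have hs : ∀ i, i ∉ Y → u i = 0 := by
          intro i hi
          by_cases e : i = t
          · rw [e]; exact h0
          · exact a1 i (by simp [e, hi])
        refine ⟨hs, fun j hj => ?_⟩
        rw [← sum_ext_of_supp (subset_insert t Y) hs]
        exact a2 j hj
      refine ⟨fun j => - u j / u t, fun i hi => ?_⟩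
      have e := a2 i hi
      rw [sum_insert ht] at e
      have e' : ∑ j ∈ Y, -u j / u t * D.S i j = (∑ j ∈ Y, u j * D.S j i) / u t := by
        rw [sum_div]
        refine sum_congr rfl fun j _ => ?_
        rw [D.skew i j]; ring
      rw [e', eq_div_iff ut, D.skew i t]
      linear_combination -e
  · rintro ⟨a, ha⟩
    refine lam_le_of_rows fun j hj => ?_
    rcases mem_insert.1 hj with rfl | hj
    · refine ⟨a, fun i hi => ?_⟩
      rw [D.skew j i, ha i hi, ← sum_neg_distrib]
      refine sum_congr rfl fun k _ => ?_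
      rw [D.skew i k]; ring
    · exact ⟨fun k => if k = j then 1 else 0, fun i _ => by simp [hj]⟩

theorem Conn3.reach {D E : Disp K} (h : D.Conn3) (hr : D.Reach E) : E.Conn3 := by
  intro X hX
  rw [hr.Z_eq] at hX ⊢
  rw [ReachIn.lam_eq hr disjoint_sdiff (by rw [union_sdiff_of_subset hX])]
  exact h X hX

theorem Conn3.flip {D : Disp K} (h : D.Conn3) : D.flip.Conn3 := h

theorem Conn3.scale {D : Disp K} (h : D.Conn3) {ε : ℕ → K} (hε : ∀ i, ε i * ε i = 1) :
    (D.scale ε).Conn3 := by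
  intro X hX
  rw [lam_scale D hε]
  exact h X hX

theorem Conn3.emb {L D : Disp K} {φ : ℕ → ℕ} {ε : ℕ → K} (he : Emb L D φ ε)
    (hc : D.Z.card ≤ L.Z.card) : L.Conn3 ↔ D.Conn3 := by
  have him := he.image_eq hc
  have key : ∀ X ⊆ L.Z, (L.Z \ X).image φ = D.Z \ X.image φ := by
    intro X hX
    rw [← him]
    exact image_sdiff_of_injOn he.inj hX
  have hcard : ∀ X ⊆ L.Z, (X.image φ).card = X.card := fun X hX =>
    card_image_of_injOn (he.inj.mono (coe_subset.2 hX))
  have equiv : ∀ X ⊆ L.Z, (((X.image φ).Nonempty → (D.Z \ X.image φ).Nonempty →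
      1 ≤ D.lam (X.image φ) (D.Z \ X.image φ)) ∧
      (2 ≤ (X.image φ).card → 2 ≤ (D.Z \ X.image φ).card →
        2 ≤ D.lam (X.image φ) (D.Z \ X.image φ))) ↔
      ((X.Nonempty → (L.Z \ X).Nonempty → 1 ≤ L.lam X (L.Z \ X)) ∧
        (2 ≤ X.card → 2 ≤ (L.Z \ X).card → 2 ≤ L.lam X (L.Z \ X))) := by
    intro X hX
    rw [← key X hX, he.lam_eq hX sdiff_subset, hcard X hX, hcard _ sdiff_subset, image_nonempty,
      image_nonempty]
  constructor
  · intro h X' hX'
    have e : (L.Z.filter fun i => φ i ∈ X').image φ = X' := by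
      ext j
      simp only [mem_image, mem_filter]
      constructor
      · rintro ⟨i, ⟨-, hi⟩, rfl⟩; exact hi
      · intro hj
        have := hX' hj
        rw [← him] at this
        obtain ⟨i, hi, rfl⟩ := mem_image.1 this
        exact ⟨i, ⟨hi, hj⟩, rfl⟩
    rw [← e]
    exact (equiv _ (filter_subset _ _)).2 (h _ (filter_subset _ _))
  · intro h X hX
    refine (equiv X hX).1 (h _ ?_)
    rw [← him]
    exact image_subset_image hX

theorem Conn3.exists_ne {D : Disp K} (h : D.Conn3) (h2 : 2 ≤ D.Z.card) {i : ℕ} (hi : i ∈ D.Z) :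
    ∃ j ∈ D.Z, D.S i j ≠ 0 := by
  by_contra hn
  push Not at hn
  have hs : ({i} : Finset ℕ) ⊆ D.Z := singleton_subset_iff.2 hi
  have h1 := (h {i} hs).1 (singleton_nonempty i) (by
    rw [← card_pos, card_sdiff_of_subset hs, card_singleton]; omega)
  have h0 : D.lam {i} (D.Z \ {i}) = 0 := lam_eq_zero_iff.2 fun k hk j hj => by
    rw [mem_singleton.1 hk]; exact hn j (sdiff_subset hj)
  omega

/-- a parallel pair does not consist of two rows. -/
theorem Par.col {D : Disp K} {u v : ℕ} (h : D.Par u v) : D.row u = false ∨ D.row v = false := by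
  by_contra hn
  push Not at hn
  obtain ⟨-, d, hd, hs⟩ := h
  have h0 : d = 0 := code_zero hd fun i hi => by
    by_contra hne
    have hi' := (mem_B.1 hi).2
    have := (hs i).1 hne
    simp only [mem_insert, mem_singleton] at this
    change (!D.row i) = true at hi'
    rcases this with rfl | rfl
    · exact hn.1 (by simpa using hi')
    · exact hn.2 (by simpa using hi')
  exact (hs u).2 (mem_insert_self _ _) (by rw [h0]; rfl)

theorem Conn3.not_par_col {D : Disp K} (h : D.Conn3) (h4 : 4 ≤ D.Z.card) {u v : ℕ}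
    (rv : D.row v = false) : ¬ D.Par u v := by
  intro hp
  have hs : ({u, v} : Finset ℕ) ⊆ D.Z := insert_subset hp.mem.1 (singleton_subset_iff.2 hp.mem.2)
  have h1 := (h {u, v} hs).2 (by rw [card_pair hp.1]) (by
    rw [card_sdiff_of_subset hs, card_pair hp.1]; omega)
  have h2 : D.lam {u, v} (D.Z \ {u, v}) ≤ 1 := by
    rcases hp.cases rv with ⟨-, s, -, hs'⟩ | ⟨-, -, h0⟩
    · refine lam_le_one (fun i => if i = v then 1 else s) (fun j => D.S v j) fun i hi j hj => ?_
      by_cases e : i = v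
      · simp [e]
      · have : i = u := by simpa [e] using hi
        rw [if_neg e, this, D.skew u j, hs' j (sdiff_subset hj), D.skew j v]; ring
    · refine lam_le_one (fun i => if i = v then 0 else 1) (fun j => D.S u j) fun i hi j hj => ?_
      by_cases e : i = v
      · have hju : j ≠ u := by
          rintro rfl
          exact (mem_sdiff.1 hj).2 (mem_insert_self _ _)
        rw [if_pos e, e, D.skew v j, h0 j (sdiff_subset hj) hju]; ring
      · have : i = u := by simpa [e] using hi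
        rw [if_neg e, this, one_mul]
  omega

theorem Conn3.not_par {D : Disp K} (h : D.Conn3) (h4 : 4 ≤ D.Z.card) (u v : ℕ) :
    ¬ D.Par u v := by
  intro hp
  rcases hp.col with r | r
  · exact h.not_par_col h4 r hp.symm
  · exact h.not_par_col h4 r hp

/-- a nondegenerate single element extension of a 3-connected display is 3-connected. -/
theorem Conn3.addEl {L : Disp K} (h : L.Conn3) (h4 : 4 ≤ L.Z.card) {n : ℕ} (hn : n ∉ L.Z)
    {r : Bool} {v : ℕ → K} (hd : ¬ Deg (L.addEl n r v) L.Z n) : (L.addEl n r v).Conn3 := by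
  have hag := agree_addEl L hn r v
  have hZ : (L.addEl n r v).Z = insert n L.Z := rfl
  set G := L.addEl n r v with hG
  have key : ∀ A ⊆ L.Z, ((L.Z \ A).Nonempty → 1 ≤ G.lam (insert n A) (L.Z \ A)) ∧
      (A.Nonempty → 2 ≤ (L.Z \ A).card → 2 ≤ G.lam (insert n A) (L.Z \ A)) := by
    intro A hA
    have e : G.lam A (L.Z \ A) = L.lam A (L.Z \ A) :=
      lam_congr fun i hi j hj => hag.2 i (hA hi) j (sdiff_subset hj)
    have m : G.lam A (L.Z \ A) ≤ G.lam (insert n A) (L.Z \ A) :=
      G.lam_mono (subset_insert n A) (Subset.refl _)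
    constructor
    · intro hB
      rcases A.eq_empty_or_nonempty with rfl | hAne
      · by_contra hlt
        have h0 : G.lam (insert n ∅) (L.Z \ ∅) = 0 := by omega
        obtain ⟨z, hz⟩ := hB
        refine hd ⟨z, sdiff_subset hz, 0, fun j hj _ => ?_⟩
        rw [lam_eq_zero_iff.1 h0 n (mem_insert_self _ _) j (by simpa using hj), zero_mul]
      · have := (h A hA).1 hAne hB
        omega
    · intro hAne hB
      by_cases h2 : 2 ≤ A.card
      · have := (h A hA).2 h2 hB
        omega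
      · have h1 : A.card = 1 := by
          have := card_pos.2 hAne
          omega
        obtain ⟨z, rfl⟩ := card_eq_one.1 h1
        have hz : z ∈ L.Z := singleton_subset_iff.1 hA
        by_contra hlt
        have hle : G.lam (insert n {z}) (L.Z \ {z}) ≤ 1 := by omega
        obtain ⟨j0, hj0, hne⟩ := h.exists_ne (by omega) hz
        have hj0z : j0 ≠ z := (ne_of_S hne).symm
        rw [← hag.2 z hz j0 hj0] at hne
        refine hd ⟨z, hz, G.S n j0 / G.S z j0, fun j hj hjz => ?_⟩
        have := det_two_of_lam hle (mem_insert_self n {z})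
          (mem_insert_of_mem (mem_singleton_self z))
          (mem_sdiff.2 ⟨hj, by simpa using hjz⟩) (mem_sdiff.2 ⟨hj0, by simpa using hj0z⟩)
        field_simp
        linear_combination this
  have key2 : ∀ X ⊆ G.Z, n ∈ X → (X.Nonempty → (G.Z \ X).Nonempty → 1 ≤ G.lam X (G.Z \ X)) ∧
      (2 ≤ X.card → 2 ≤ (G.Z \ X).card → 2 ≤ G.lam X (G.Z \ X)) := by
    intro X hX hnX
    have hA : X.erase n ⊆ L.Z := by
      intro i hi
      have := hX (mem_of_mem_erase hi)
      rw [hZ] at this
      exact (mem_insert.1 this).resolve_left (ne_of_mem_erase hi)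
    have e : G.Z \ X = L.Z \ X.erase n := by
      rw [hZ]
      ext i
      simp only [mem_sdiff, mem_insert, mem_erase]
      constructor
      · rintro ⟨rfl | h1, h2⟩
        · exact absurd hnX h2
        · exact ⟨h1, fun h3 => h2 h3.2⟩
      · rintro ⟨h1, h2⟩
        refine ⟨Or.inr h1, fun h3 => h2 ⟨?_, h3⟩⟩
        rintro rfl
        exact hn h1
    have k := key _ hA
    rw [insert_erase hnX, ← e] at k
    refine ⟨fun _ => k.1, fun h2 => k.2 ?_⟩
    rw [← card_pos, card_erase_of_mem hnX]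
    omega
  intro X hX
  by_cases hnX : n ∈ X
  · exact key2 X hX hnX
  · have k := key2 (G.Z \ X) sdiff_subset (mem_sdiff.2 ⟨by rw [hZ]; exact mem_insert_self _ _, hnX⟩)
    rw [Finset.sdiff_sdiff_eq_self hX, G.lam_symm] at k
    exact ⟨fun a b => k.1 b a, fun a b => k.2 b a⟩

theorem Par.reach {D E : Disp K} {u v : ℕ} (h : D.Par u v) (hr : D.Reach E) : E.Par u v := by
  obtain ⟨h1, d, hd, hs⟩ := h
  exact ⟨h1, d, by rw [hr.flip_code_eq]; exact hd, hs⟩

/-- a parallel pair inside the image of an embedding pulls back. -/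
theorem Emb.par_pull {L D : Disp K} {φ : ℕ → ℕ} {ε : ℕ → K} (h : Emb L D φ ε) {i j : ℕ}
    (hi : i ∈ L.Z) (hj : j ∈ L.Z) (hp : D.Par (φ i) (φ j)) : L.Par i j := by
  obtain ⟨h1, d, hd, hs⟩ := hp
  refine ⟨fun e => h1 (by rw [e]), _, h.flip.code_pull hd fun k _ hk => ?_, fun k => ?_⟩
  · by_contra hne
    apply hk
    have := (hs k).1 hne
    simp only [mem_insert, mem_singleton] at this
    rcases this with rfl | rfl
    · exact mem_image_of_mem φ hi
    · exact mem_image_of_mem φ hj
  · change (if k ∈ L.Z then ε k * d (φ k) else 0) ≠ 0 ↔ _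
    by_cases hk : k ∈ L.Z
    · have hε : ε k ≠ 0 := left_ne_zero_of_mul_eq_one (h.sq k hk)
      rw [if_pos hk, mul_ne_zero_iff, hs (φ k)]
      simp only [mem_insert, mem_singleton]
      constructor
      · rintro ⟨-, e | e⟩
        · exact Or.inl (h.inj hk hi e)
        · exact Or.inr (h.inj hk hj e)
      · rintro (rfl | rfl)
        · exact ⟨hε, Or.inl rfl⟩
        · exact ⟨hε, Or.inr rfl⟩
    · rw [if_neg hk]
      simp only [ne_eq, not_true_eq_false, mem_insert, mem_singleton, false_iff, not_or]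
      exact ⟨fun e => hk (e ▸ hi), fun e => hk (e ▸ hj)⟩

theorem minor_del_col {N E E' : Disp K} {φ : ℕ → ℕ} {ε : ℕ → K} (hr : E.Reach E')
    (he : Emb N E' φ ε) {v : ℕ} (hv : ∀ i ∈ N.Z, φ i ≠ v) (rv : E.row v = false)
    (rv' : E'.row v = false) : Minor N (E.restrict (E.Z.erase v)) := by
  have hZ := hr.Z_eq
  have hU : E.Z.erase v ⊆ E.Z := erase_subset _ _
  have hU' : E.Z.erase v ⊆ E'.Z := by rw [hZ]; exact hU
  have vac : ∀ G : Disp K, G.Z = E.Z → G.row v = false → ∀ c' : ℕ → K,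
      ∀ i ∈ G.B, i ∉ E.Z.erase v → c' i = 0 := by
    intro G hG rG c' i hi hn
    exfalso
    obtain ⟨h1, h2⟩ := mem_B.1 hi
    apply hn
    rw [mem_erase, ← hG]
    refine ⟨?_, h1⟩
    rintro rfl
    rw [rG] at h2
    exact Bool.false_ne_true h2
  have hcode : (E'.restrict (E.Z.erase v)).code = (E.restrict (E.Z.erase v)).code := by
    ext c
    rw [mem_code_restrict hU, mem_code_restrict hU', hr.code_eq]
    constructor
    · rintro ⟨c', h1, -, h2⟩
      exact ⟨c', h1, vac E rfl rv c', h2⟩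
    · rintro ⟨c', h1, -, h2⟩
      exact ⟨c', h1, vac E' hZ rv' c', h2⟩
  obtain ⟨G, hG, heG⟩ := emb_of_code (L := E'.restrict (E.Z.erase v))
    (D := E.restrict (E.Z.erase v)) (φ := id) (ε := fun _ => 1) (Set.injOn_id _)
    (image_id) (fun _ _ => mul_one _) fun c => by
      rw [hcode]
      have ex : ∀ c' ∈ (E.restrict (E.Z.erase v)).code, (fun i =>
          if i ∈ (E'.restrict (E.Z.erase v)).Z then (1 : K) * c' (id i) else 0) = c' := by
        intro c' hc'
        funext i
        by_cases hi : i ∈ (E'.restrict (E.Z.erase v)).Z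
        · rw [if_pos hi, one_mul, id]
        · rw [if_neg hi]; exact (hc'.1 i hi).symm
      constructor
      · intro hc
        exact ⟨c, hc, (ex c hc).symm⟩
      · rintro ⟨c', hc', e⟩
        rw [e, ex c' hc']; exact hc'
  have he2 : Emb N (E'.restrict (E.Z.erase v)) φ ε := he.restrict_right fun i hi =>
    mem_erase.2 ⟨hv i hi, by rw [← hZ]; exact he.mem i hi⟩
  exact ⟨G, _, _, hG, he2.comp heG⟩

theorem minor_del_par_aux {N E E' : Disp K} {φ : ℕ → ℕ} {ε : ℕ → K} (hN : N.Conn3)
    (h4 : 4 ≤ N.Z.card) (hr : E.Reach E') (he : Emb N E' φ ε) {u v : ℕ} (hp : E.Par u v)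
    (hv : ∀ i ∈ N.Z, φ i ≠ v) (rv : E.row v = false) : Minor N (E.restrict (E.Z.erase v)) := by
  by_cases rv' : E'.row v = false
  · exact minor_del_col hr he hv rv rv'
  · have hp' := hp.reach hr
    have ru : E'.row u = false := hp'.col.resolve_right rv'
    rcases hp'.symm.cases ru with ⟨h1, -⟩ | ⟨h1, h2, h3⟩
    · exact absurd h1 rv'
    · have hu : ∀ i ∈ N.Z, φ i ≠ u := by
        intro i hi e
        obtain ⟨j, hj, hne⟩ := hN.exists_ne (by omega) hi
        have h5 := he.ent i hi j hj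
        rw [e, E'.skew u, h3 (φ j) (he.mem j hj) (hv j hj), neg_zero] at h5
        exact mul_ne_zero (mul_ne_zero (left_ne_zero_of_mul_eq_one (he.sq i hi))
          (left_ne_zero_of_mul_eq_one (he.sq j hj))) hne h5.symm
      have hr2 : E'.Reach (E'.pivot v u) := ReachIn.single hp'.mem.2 hp'.mem.1
      refine minor_del_col (hr.trans hr2) (φ := φ) (ε := ε) ⟨he.inj, ?_, ?_, he.sq, ?_⟩ hv rv ?_
      · intro i hi
        rw [pivot_Z]; exact he.mem i hi
      · intro i hi
        rw [pivot_row h2, if_neg (by simp [hv i hi, hu i hi])]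
        exact he.row i hi
      · intro i hi j hj
        rw [pivot_S_gen h2 (hv i hi) (hu i hi) (hv j hj) (hu j hj),
          h3 (φ i) (he.mem i hi) (hv i hi), E'.skew u (φ j), h3 (φ j) (he.mem j hj) (hv j hj),
          he.ent i hi j hj]
        simp
      · rw [pivot_row h2, if_pos (Or.inl rfl), h1]; rfl

/-- a 3-connected minor survives the deletion of one element of a parallel pair. -/
theorem minor_del_par {N E : Disp F3} (hN : N.Conn3) (h4 : 4 ≤ N.Z.card) (hm : Minor N E)
    {u v : ℕ} (hp : E.Par u v) (rv : E.row v = false) :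
    Minor N (E.restrict (E.Z.erase v)) := by
  obtain ⟨E', φ, ε, hr, he⟩ := hm
  by_cases hv : ∀ i ∈ N.Z, φ i ≠ v
  · exact minor_del_par_aux hN h4 hr he hp hv rv
  · push Not at hv
    obtain ⟨j, hj, ej⟩ := hv
    have hp' := hp.reach hr
    have hu : ∀ i ∈ N.Z, φ i ≠ u := by
      intro i hi e
      exact hN.not_par h4 i j (he.par_pull hi hj (by rw [e, ej]; exact hp'))
    obtain ⟨E2, δ, hr2, he2⟩ := hp'.swap_emb
    refine minor_del_par_aux hN h4 (hr.trans hr2) (he.comp he2) hp (fun i hi e => ?_) rv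
    apply hu i hi
    have := congrArg (Equiv.swap u v) e
    rwa [Equiv.swap_apply_self, Equiv.swap_apply_right] at this

end Disp

end Pool.Agent.Lib.MP_c69b6d_co.F
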