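import Pool.Agent.Lib.MP_c69b6d_co.F.Rulesa
import Pool.Agent.Lib.MP_c69b6d_co.F.Lam
import Pool.Agent.Lib.MP_c69b6d_co.F.Defs2

/-! Rules for `Cl` and for valid marks. -/

namespace Pool.Agent.Lib.MP_c69b6d_co.F

open Finset Disp

namespace Rul

theorem sq3 : ∀ {s : F3}, s ≠ 0 → s * s = 1 := by decide

theorem code_cpy {D : Disp F3} {w : ℕ → F3} (hw : w ∈ D.code) {j : ℕ} (hj : j ∈ D.Z)
    (rj : D.row j = false) : ∑ i ∈ D.Z, w i * cpy D i true j = 0 := by
  have e : ∀ i ∈ D.Z, w i * cpy D i true j = (if i = j then w i else 0) - w i * D.S i j := by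
    intro i _
    unfold cpy
    by_cases r : D.row i = true
    · have : i ≠ j := by rintro rfl; rw [r] at rj; exact absurd rj (by decide)
      rw [if_pos r, if_neg this, D.skew j i]; ring
    · have r' : D.row i = D.row j := by rw [rj]; simpa using r
      rw [if_neg r, D.bip i j r']
      by_cases k : i = j
      · simp [k]
      · simp [k, Ne.symm k]
  rw [sum_congr rfl e, sum_sub_distrib, sum_ite_eq', if_pos hj, ← (mem_code.1 hw).2 j hj rj,
    sub_self]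

theorem flip_cpy {D : Disp F3} {d : ℕ → F3} (hd : d ∈ D.flip.code) {i : ℕ} (hi : i ∈ D.Z)
    (ri : D.row i = true) : ∑ j ∈ D.Z, d j * cpy D j false i = 0 := by
  have e : ∀ j ∈ D.Z, d j * cpy D j false i = (if j = i then d j else 0) - d j * D.S j i := by
    intro j _
    unfold cpy
    by_cases r : D.row j = false
    · have : j ≠ i := by rintro rfl; rw [r] at ri; exact absurd ri (by decide)
      rw [if_pos r, if_neg this, D.skew i j]; ring
    · have r' : D.row j = D.row i := by rw [ri]; simpa using r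
      rw [if_neg r, D.bip j i r']
      by_cases k : j = i
      · simp [k]
      · simp [k, Ne.symm k]
  rw [sum_congr rfl e, sum_sub_distrib, sum_ite_eq', if_pos hi, ← (mem_flip_code.1 hd).2 i hi ri,
    sub_self]

theorem sum_supp {Z : Finset ℕ} {w : ℕ → F3} {a b c : ℕ} (hs : Supp w {a, b, c}) (ha : a ∈ Z)
    (hb : b ∈ Z) (hc : c ∈ Z) (hab : a ≠ b) (hac : a ≠ c) (hbc : b ≠ c) (f : ℕ → F3) :
    ∑ i ∈ Z, w i * f i = w a * f a + w b * f b + w c * f c := by
  have hT : ({a, b, c} : Finset ℕ) ⊆ Z := by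
    intro j hj
    simp only [mem_insert, mem_singleton] at hj
    rcases hj with rfl | rfl | rfl
    exacts [ha, hb, hc]
  rw [← sum_subset hT (fun j _ hj => by
    have : w j = 0 := by
      by_contra h
      exact hj ((hs j).1 h)
    rw [this, zero_mul]), sum_insert (by simp [hab, hac]), sum_pair hbc, add_assoc]

theorem cpy_agree {D G : Disp F3} {X : Finset ℕ} (h : Agree D G X) {z i : ℕ} (hz : z ∈ X)
    (hi : i ∈ X) (r : Bool) : cpy G z r i = cpy D z r i := by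
  unfold cpy
  rw [h.1 z hz, h.2 i hi z hz]

theorem not_free {𝓛 : List (Disp F3)} {G : Disp F3} (h : Has 𝓛 G) : ¬ Free 𝓛 G := by
  obtain ⟨L, hL, hm⟩ := h
  exact fun hf => hf L hL hm

theorem star_minor {D : Disp F3} {n : ℕ} (hn : n ∉ D.Z) (b c : ℕ) {g : F3} (hg : g * g = 1) :
    Minor (star D n b c g) (star D n c b g) := by
  have h0 : Emb D (star D n c b g) id (fun _ => 1) :=
    emb_of_agree (subset_insert _ _) (agree_addEl D hn _ _)
  have hr : (star D n c b g).row n = true := by simp [star, addEl]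
  have h1 := h0.addEl (v := n) hn (mem_insert_self _ _) (fun i hi e => hn (by rwa [← e])) hg
    (u := fun j => cpy D b true j + g * cpy D c true j) (fun i hi ri => by
      have i1 : i ≠ n := by rintro rfl; exact hn hi
      rw [hr] at ri
      simp only [star, addEl, id, i1, if_false, if_true, if_neg ri]
      linear_combination (-cpy D c true i) * hg)
  rw [hr] at h1
  exact h1.minor

theorem noStar_swap {𝓛 : List (Disp F3)} {D : Disp F3} {n b c p : ℕ} (hn : n ∉ D.Z)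
    (h : NoStar 𝓛 D n b c p) : NoStar 𝓛 D n c b p := by
  intro sc sb hc hb e
  have k := h sb sc hb hc (fun i hi ri => by rw [e i hi ri]; ring)
  rw [mul_comm sc sb]
  exact k.minor (star_minor hn b c (by linear_combination sb * sb * hc + hb))

theorem card_single_inter (e : ℕ) (T : Finset ℕ) : (({e} : Finset ℕ) ∩ T).card ≤ 1 :=
  (card_le_card inter_subset_left).trans (by simp)

end Rul

open Rul

/-- a triad through a new row is a star. -/
theorem emb_star {E G : Disp F3} {a b c n : ℕ} {w : ℕ → F3} (ha : a ∉ E.Z) (hn : n ∉ E.Z)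
    (hZ : G.Z = insert a E.Z) (hr : G.row a = true) (hag : Agree E G E.Z) (hb : b ∈ E.Z)
    (hc : c ∈ E.Z) (hbc : b ≠ c) (hw : w ∈ G.code) (hs : Supp w {a, b, c}) :
    ∃ s : F3, Emb (star E n b c (w b * w c)) G (Function.update id n a)
      (Function.update (fun _ => 1) n s) := by
  have sub : E.Z ⊆ G.Z := by rw [hZ]; exact subset_insert _ _
  have aZ : a ∈ G.Z := by rw [hZ]; exact mem_insert_self _ _
  have hab : a ≠ b := by rintro rfl; exact ha hb
  have hac : a ≠ c := by rintro rfl; exact ha hc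
  have qa : w a * w a = 1 := sq3 ((hs a).2 (by simp))
  have qb : w b * w b = 1 := sq3 ((hs b).2 (by simp))
  have h0 : Emb E G id (fun _ => 1) := emb_of_agree sub hag
  have h1 := h0.addEl (v := a) hn aZ (fun i hi e => ha (by rwa [← e])) (s := -(w a * w b))
    (by linear_combination w b * w b * qa + qb)
    (u := fun j => cpy E b true j + w b * w c * cpy E c true j) (fun i hi ri => by
      have r1 : G.row i = false := by
        rw [hag.1 i hi]; rw [hr] at ri; simpa using ri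
      have k := code_cpy hw (sub hi) r1
      rw [sum_supp hs aZ (sub hb) (sub hc) hab hac hbc, cpy_agree hag hb hi, cpy_agree hag hc hi,
        cpy, if_pos hr] at k
      simp only [id]
      linear_combination w a * k - G.S i a * qa + w a * w c * cpy E c true i * qb)
  rw [hr] at h1
  exact ⟨_, h1⟩

/-- the shape of a valid triangle. -/
theorem valid_star {𝓛 : List (Disp F3)} {D : Disp F3} {T : Finset ℕ} (h : Valid 𝓛 D T) {n : ℕ}
    (hn : n ∉ D.Z) : (∃ e ∈ D.Z, T = {e}) ∨ ∃ (b c p : ℕ) (sb sc : F3), b ∈ D.Z ∧ c ∈ D.Z ∧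
      p ∈ D.Z ∧ b ≠ c ∧ b ≠ p ∧ c ≠ p ∧ T = {b, c, p} ∧ sb * sb = 1 ∧ sc * sc = 1 ∧
      (∀ i ∈ D.Z, D.row i = true →
        cpy D p false i = sb * cpy D b false i + sc * cpy D c false i) ∧
      Free 𝓛 (star D n b c (-(sb * sc))) := by
  rcases h with h | ⟨G, a, ⟨ha, hZ, hr, hag, b, c, p, hbc, hbp, hcp, rfl, hT, ⟨w, hw, sw⟩,
    d, hd, sd⟩, hf⟩
  · exact Or.inl h
  have sub : D.Z ⊆ G.Z := by rw [hZ]; exact subset_insert _ _
  have aZ : a ∈ G.Z := by rw [hZ]; exact mem_insert_self _ _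
  have hb : b ∈ D.Z := hT (by simp)
  have hc : c ∈ D.Z := hT (by simp)
  have hp : p ∈ D.Z := hT (by simp)
  have hab : a ≠ b := by rintro rfl; exact ha hb
  have hac : a ≠ c := by rintro rfl; exact ha hc
  have qb : d b * d b = 1 := sq3 ((sd b).2 (by simp))
  have qc : d c * d c = 1 := sq3 ((sd c).2 (by simp))
  have qp : d p * d p = 1 := sq3 ((sd p).2 (by simp))
  have wc : w c * w c = 1 := sq3 ((sw c).2 (by simp))
  have da : d a = 0 := by
    by_contra k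
    exact ha (hT ((sd a).1 k))
  have o := orth hw hd
  rw [sum_supp sw aZ (sub hb) (sub hc) hab hac hbc, da] at o
  refine Or.inr ⟨b, c, p, -(d b * d p), -(d c * d p), hb, hc, hp, hbc, hbp, hcp, rfl,
    by linear_combination d p * d p * qb + qp, by linear_combination d p * d p * qc + qp,
    fun i hi ri => ?_, ?_⟩
  · have k := flip_cpy hd (sub hi) (by rw [hag.1 i hi, ri])
    rw [sum_supp sd (sub hb) (sub hc) (sub hp) hbc hbp hcp, cpy_agree hag hb hi,
      cpy_agree hag hc hi, cpy_agree hag hp hi] at k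
    linear_combination d p * k - cpy D p false i * qp
  · obtain ⟨s, he⟩ := emb_star ha hn hZ hr hag hb hc hbc hw sw
    have e : -(-(d b * d p) * -(d c * d p)) = w b * w c := by
      linear_combination (-(d b * d c)) * qp - w c * d b * o + w b * w c * qb + d b * d c * wc
    rw [e]
    exact hf.minor he.minor

theorem concl_of_cl {𝓛 : List (Disp F3)} {D : Disp F3} {𝒯 : List (Finset ℕ)}
    (h : Cl D.W D.Z 𝒯) (hv : ValidIn 𝓛 D 𝒯) : D.Concl 𝓛 :=
  fun T T' h1 h2 hc => h T T' (hv T h1) (hv T' h2) hc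

/-- no admissible star at all (the star on `b, c` is isomorphic to the star on `c, b`). -/
theorem not_valid {𝓛 : List (Disp F3)} {D : Disp F3} {n b c p : ℕ} (hn : n ∉ D.Z) (h1 : b ≠ c)
    (h2 : b ≠ p) (h3 : c ≠ p) (s1 : NoStar 𝓛 D n b c p) (s2 : NoStar 𝓛 D n c p b)
    (s3 : NoStar 𝓛 D n p b c) : ¬ Valid 𝓛 D {b, c, p} := by
  intro hv
  rcases valid_star hv hn with ⟨e, -, he⟩ | ⟨b', c', p', sb, sc, -, -, -, k1, k2, k3, hT, q1, q2,
    hrel, hf⟩
  · have m1 : b ∈ ({e} : Finset ℕ) := by rw [← he]; simp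
    have m2 : c ∈ ({e} : Finset ℕ) := by rw [← he]; simp
    rw [mem_singleton] at m1 m2
    exact h1 (m1.trans m2.symm)
  have key : NoStar 𝓛 D n b' c' p' := by
    have m1 : b' ∈ ({b, c, p} : Finset ℕ) := by rw [hT]; simp
    have m2 : c' ∈ ({b, c, p} : Finset ℕ) := by rw [hT]; simp
    have m3 : p' ∈ ({b, c, p} : Finset ℕ) := by rw [hT]; simp
    simp only [mem_insert, mem_singleton] at m1 m2 m3
    have t1 := noStar_swap hn s1
    have t2 := noStar_swap hn s2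
    have t3 := noStar_swap hn s3
    rcases m1 with rfl | rfl | rfl <;> rcases m2 with rfl | rfl | rfl <;>
      rcases m3 with rfl | rfl | rfl <;> first | contradiction | assumption
  exact not_free (key sb sc q1 q2 hrel) hf

/-- valid triangles through `k` satisfy a linear relation. -/
theorem valid_rel {𝓛 : List (Disp F3)} {D : Disp F3} {T : Finset ℕ} (h : Valid 𝓛 D T) {k : ℕ}
    (hk : k ∈ T) : T = {k} ∨ ∃ (u v : ℕ) (s t : F3), u ∈ D.Z ∧ v ∈ D.Z ∧ u < v ∧ u ≠ k ∧ v ≠ k ∧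
      T = {k, u, v} ∧ s * s = 1 ∧ t * t = 1 ∧
      ∀ i ∈ D.Z, D.row i = true → cpy D k false i + s * cpy D u false i = t * cpy D v false i := by
  have hs := h.subset
  rcases h.tri with ⟨e, -, rfl⟩ | ⟨h3, d, hd, sd⟩
  · rw [mem_singleton] at hk
    exact Or.inl (by rw [hk])
  have c2 : (T.erase k).card = 2 := by rw [card_erase_of_mem hk, h3]
  have key : ∀ u v, u < v → T.erase k = {u, v} → ∃ (u v : ℕ) (s t : F3), u ∈ D.Z ∧ v ∈ D.Z ∧
      u < v ∧ u ≠ k ∧ v ≠ k ∧ T = {k, u, v} ∧ s * s = 1 ∧ t * t = 1 ∧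
      ∀ i ∈ D.Z, D.row i = true →
        cpy D k false i + s * cpy D u false i = t * cpy D v false i := by
    intro u v huv e
    have mu : u ∈ T.erase k := by rw [e]; simp
    have mv : v ∈ T.erase k := by rw [e]; simp
    rw [mem_erase] at mu mv
    have eT : T = {k, u, v} := by rw [← e, insert_erase hk]
    have qk : d k * d k = 1 := sq3 ((sd k).2 hk)
    have qu : d u * d u = 1 := sq3 ((sd u).2 mu.2)
    have qv : d v * d v = 1 := sq3 ((sd v).2 mv.2)
    refine ⟨u, v, d k * d u, -(d k * d v), hs mu.2, hs mv.2, huv, mu.1, mv.1, eT,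
      by linear_combination d u * d u * qk + qu, by linear_combination d v * d v * qk + qv,
      fun i hi ri => ?_⟩
    have r := flip_cpy hd hi ri
    rw [eT] at sd
    rw [sum_supp sd (hs hk) (hs mu.2) (hs mv.2) mu.1.symm mv.1.symm huv.ne] at r
    linear_combination d k * r - cpy D k false i * qk
  obtain ⟨u, v, huv, e⟩ := card_eq_two.1 c2
  rcases lt_or_gt_of_ne huv with l | l
  · exact Or.inr (key u v l e)
  · exact Or.inr (key v u l (e.trans (pair_comm u v)))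

theorem validIn_step {𝓛 : List (Disp F3)} {D D0 : Disp F3} {k : ℕ} (hZ : D.Z = insert k D0.Z)
    (ha : Agree D0 D D0.Z) {𝒯0 𝒯 : List (Finset ℕ)} (h0 : ValidIn 𝓛 D0 𝒯0)
    (h1 : ∀ T ∈ 𝒯0, T ∈ 𝒯 ∨ ¬ Valid 𝓛 D T)
    (h2 : ∀ u ∈ D.Z, ∀ v ∈ D.Z, u < v → u ≠ k → v ≠ k → ∀ s t : F3, s * s = 1 → t * t = 1 →
      (∀ i ∈ D.Z, D.row i = true →
        cpy D k false i + s * cpy D u false i = t * cpy D v false i) →
      {k, u, v} ∈ 𝒯 ∨ ¬ Valid 𝓛 D {k, u, v}) : ValidIn 𝓛 D 𝒯 := by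
  intro T hv
  have sub : D0.Z ⊆ D.Z := by rw [hZ]; exact subset_insert _ _
  by_cases hk : k ∈ T
  · rcases valid_rel hv hk with rfl | ⟨u, v, s, t, hu, hv', l, n1, n2, rfl, q1, q2, r⟩
    · exact Or.inl ⟨k, hv.subset hk, rfl⟩
    · exact Or.inr ((h2 u hu v hv' l n1 n2 s t q1 q2 r).resolve_right (not_not.2 hv))
  · have hT : T ⊆ D0.Z := by
      intro i hi
      have := hv.subset hi
      rw [hZ, mem_insert] at this
      exact this.resolve_left (by rintro rfl; exact hk hi)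
    have := Valid.emb (Reach.refl D) (emb_of_agree sub ha) hT (by rwa [image_id])
    rcases h0 T this with ⟨e, he, rfl⟩ | m
    · exact Or.inl ⟨e, sub he, rfl⟩
    · exact Or.inr ((h1 T m).resolve_right (not_not.2 hv))

theorem validIn_empty {𝓛 : List (Disp F3)} {D : Disp F3} (h : D.Z = ∅) : ValidIn 𝓛 D [] := by
  intro T hv
  have hs := hv.subset
  rcases hv.tri with k | ⟨h3, -⟩
  · exact Or.inl k
  · rw [h, subset_empty] at hs
    rw [hs] at h3
    simp at h3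

theorem cl_emb {L E E' : Disp F3} {φ : ℕ → ℕ} {ε : ℕ → F3} {𝒯 𝒯' : List (Finset ℕ)}
    (hr : E.Reach E') (he : Emb L E' φ ε) (hT : ∀ T ∈ 𝒯, T ⊆ L.Z ∧ T.image φ ∈ 𝒯')
    (h : Cl E.W E.Z 𝒯') : Cl L.W L.Z 𝒯 := by
  have key : ∀ T, Obj L.Z 𝒯 T → T ⊆ L.Z ∧ Obj E.Z 𝒯' (T.image φ) := by
    rintro T (⟨e, m, rfl⟩ | m)
    · refine ⟨singleton_subset_iff.2 m, Or.inl ⟨φ e, ?_, image_singleton _ _⟩⟩
      rw [← hr.Z_eq]; exact he.mem e m
    · exact ⟨(hT T m).1, Or.inr (hT T m).2⟩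
  intro T T' o1 o2 hc
  obtain ⟨s1, k1⟩ := key T o1
  obtain ⟨s2, k2⟩ := key T' o2
  refine QF_emb hr he s1 s2 (h _ _ k1 k2 ?_)
  rcases hc with rfl | hc
  · exact Or.inl rfl
  · refine Or.inr ?_
    rw [← image_inter_of_injOn T T' (he.inj.mono (by
      rw [← coe_union]; exact coe_subset.2 (union_subset s1 s2)))]
    exact card_image_le.trans hc

theorem cl_simp {D : Disp F3} {u v : ℕ} (hp : D.Par u v) (rv : D.row v = false)
    {𝒯 𝒯' : List (Finset ℕ)} (h1 : ∀ T ∈ 𝒯, (v ∈ T → u ∉ T) ∧ repl u v T ∈ 𝒯')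
    (h2 : ∀ T ∈ 𝒯, ∀ T' ∈ 𝒯, Compat T T' → Compat (repl u v T) (repl u v T'))
    (h : Cl (D.restrict (D.Z.erase v)).W (D.Z.erase v) 𝒯') : Cl D.W D.Z 𝒯 := by
  have huv : u ≠ v := hp.1
  have one : ∀ e ∈ D.Z, ∃ e' ∈ D.Z.erase v, repl u v {e} = {e'} := by
    intro e he
    by_cases k : v = e
    · subst k
      exact ⟨u, mem_erase.2 ⟨huv, hp.mem.1⟩, by simp [repl]⟩
    · exact ⟨e, mem_erase.2 ⟨Ne.symm k, he⟩, by simp [repl, k]⟩
  have key : ∀ T, Obj D.Z 𝒯 T → (v ∈ T → u ∉ T) ∧ Obj (D.Z.erase v) 𝒯' (repl u v T) := by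
    rintro T (⟨e, m, rfl⟩ | m)
    · refine ⟨fun k1 k2 => ?_, Or.inl (one e m)⟩
      rw [mem_singleton] at k1 k2
      exact huv (k2.trans k1.symm)
    · exact ⟨(h1 T m).1, Or.inr (h1 T m).2⟩
  intro T T' o1 o2 hc
  obtain ⟨s1, k1⟩ := key T o1
  obtain ⟨s2, k2⟩ := key T' o2
  refine QF_simp hp rv s1 s2 (h (repl u v T) (repl u v T') k1 k2 ?_)
  rcases o1 with ⟨e, m, rfl⟩ | m
  · obtain ⟨e', -, q⟩ := one e m
    rw [q]; exact Or.inr (card_single_inter _ _)
  rcases o2 with ⟨e, m', rfl⟩ | m'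
  · obtain ⟨e', -, q⟩ := one e m'
    rw [q]; exact Or.inr (by rw [inter_comm]; exact card_single_inter _ _)
  exact h2 T m T' m' hc

/-- the delta-wye rule. -/
theorem cl_wye {G : Disp F3} {a b c : ℕ} (ha : a ∈ G.Z) (hb : b ∈ G.Z) (hc : c ∈ G.Z)
    (hbc : b ≠ c) (ra : G.row a = true) (sb : G.S a b = 1) (sc : G.S a c = 1)
    (h0 : ∀ j ∈ G.Z, j ≠ b → j ≠ c → G.S a j = 0)
    {x1 x2 : ℕ} (h1 : x1 ∈ G.Z) (h2 : x2 ∈ G.Z) (n1 : x1 ≠ a) (n2 : x2 ≠ a)
    (hq : G.S x1 b * G.S x2 c ≠ G.S x1 c * G.S x2 b)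
    {𝒯 𝒯' : List (Finset ℕ)} (hm : ({a, b, c} : Finset ℕ) ∈ 𝒯')
    (hT : ∀ T ∈ 𝒯, (T ⊆ G.Z ∧ a ∉ T ∧ b ∉ T ∧ c ∉ T ∧ T ∈ 𝒯') ∨
      ∃ x, x ≠ a ∧ x ≠ b ∧ x ≠ c ∧ ((T = {x, b, c} ∧ (wye G a b c).Par x a) ∨
        (T = {x, a, b} ∧ (wye G a b c).Par x b) ∨ (T = {x, a, c} ∧ (wye G a b c).Par x c)))
    (h : Cl (wye G a b c).W G.Z 𝒯') : Cl G.W G.Z 𝒯 := by
  have t : Shp.Triad G a b c := ⟨ha, hb, hc, hbc, ra, sb, sc, h0⟩
  have hab := t.hab
  have hac := t.hac
  obtain ⟨H2, Wa, Wb, Wc, H0, hf⟩ := triForm_W hab hac hbc t.tri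
  have hQ : ∀ y : ℕ → ℝ, y a + y b + y c ≠ 0 →
      G.W y = (y a + y b + y c) * (wye G a b c).W (Rul.sub a b c y) :=
    fun y hy => W_wye ha hb hc hbc ra sb sc h0 hy
  have key : ∀ T, Obj G.Z 𝒯 T → (a ∉ T ∧ b ∉ T ∧ c ∉ T ∧ Obj G.Z 𝒯' T) ∨
      ∀ τ, Iso T τ → Mv (wye G a b c).W a b c τ := by
    rintro T (⟨e, m, rfl⟩ | m)
    · by_cases k : e = a ∨ e = b ∨ e = c
      · exact Or.inr (mv_single hab hac hbc k)
      · simp only [not_or] at k
        exact Or.inl ⟨by simpa using Ne.symm k.1, by simpa using Ne.symm k.2.1,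
          by simpa using Ne.symm k.2.2, Or.inl ⟨e, m, rfl⟩⟩
    · rcases hT T m with ⟨-, k1, k2, k3, k4⟩ | ⟨x, xa, xb, xc, ⟨rfl, hp⟩ | ⟨rfl, hp⟩ | ⟨rfl, hp⟩⟩
      · exact Or.inl ⟨k1, k2, k3, Or.inr k4⟩
      · exact Or.inr (mv_a hab hac hbc xa xb xc hp.W_eq)
      · exact Or.inr (mv_b hab hac hbc xa xb xc hp.W_eq)
      · exact Or.inr (mv_c hab hac hbc xa xb xc hp.W_eq)
  have mix : ∀ T T', a ∉ T → b ∉ T → c ∉ T → Obj G.Z 𝒯' T →
      (∀ τ, Iso T' τ → Mv (wye G a b c).W a b c τ) → QF G.W T T' := by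
    intro T T' k1 k2 k3 k4 m
    refine QF.of_pos G.W_continuous (out_in hab hac hbc hf hQ k1 k2 k3
      (h _ _ k4 (Or.inr hm) (Or.inr ?_)) m)
    have : T ∩ {a, b, c} = ∅ := by
      refine eq_empty_of_forall_notMem fun i hi => ?_
      simp only [mem_inter, mem_insert, mem_singleton] at hi
      rcases hi with ⟨hi, rfl | rfl | rfl⟩ <;> contradiction
    rw [this]; simp
  intro T T' o1 o2 hc
  rcases key T o1 with ⟨k1, k2, k3, k4⟩ | m <;> rcases key T' o2 with ⟨l1, l2, l3, l4⟩ | m'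
  · exact QF.of_pos G.W_continuous (out_out hab hac hbc hQ k1 k2 k3 l1 l2 l3 (h _ _ k4 l4 hc))
  · exact mix T T' k1 k2 k3 k4 m'
  · exact (mix T' T l1 l2 l3 l4 m).symm
  · exact QF.of_pos G.W_continuous (in_in hab hac hbc hf hQ
      (h _ _ (Or.inr hm) (Or.inr hm) (Or.inl rfl)) m m')

end Pool.Agent.Lib.MP_c69b6d_co.F
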