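import Pool.Agent.Lib.MP_c69b6d_co.F.CkJ
import Pool.Agent.Lib.MP_c69b6d_co.F.CkI
import Pool.Agent.Lib.MP_c69b6d_co.F.Rules

/-! Soundness of the inherited part of the member checker. -/

namespace Pool.Agent.Lib.MP_c69b6d_co.F

open Finset Disp CD

namespace CkK

theorem notB_iff {a : Bool} : notB a = true ↔ ¬ a = true := by cases a <;> simp [notB_eq]

theorem mem_rng {C : CD} {D : Disp F3} (h : C.Rep D) {n : ℕ} (hn : C.zm = rng 0 n) {i : ℕ} :
    i ∈ D.Z ↔ i < n := by
  rw [h.mem, hn, testBit_rng]; simp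

theorem one_bit {X i j : ℕ} (h : Nat.land X (Nat.pred X) = 0) (hi : X.testBit i = true)
    (hj : X.testBit j = true) : i = j := by
  have key : ∀ i j, i < j → X.testBit i = true → X.testBit j = true → False := by
    intro i j l hi hj
    have r0 : X % 2 ^ j ≠ 0 := by
      intro e
      have := Nat.testBit_mod_two_pow X j i
      rw [e, hi] at this
      simp [l] at this
    have hp : 0 < 2 ^ j := Nat.two_pow_pos j
    have e : (X - 1) / 2 ^ j = X / 2 ^ j := by
      have h1 := Nat.div_add_mod X (2 ^ j)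
      have h2 := Nat.mod_lt X hp
      refine Nat.div_eq_of_lt_le ?_ ?_
      · rw [mul_comm]; omega
      · rw [add_mul, mul_comm]; omega
    have b : (X - 1).testBit j = true := by
      rw [Nat.testBit_eq_decide_div_mod_eq] at hj ⊢
      rwa [e]
    have : (X &&& (X - 1)).testBit j = true := by rw [Nat.testBit_and, hj, b]; rfl
    have h' : X &&& (X - 1) = 0 := h
    rw [h'] at this
    simp at this
  rcases lt_trichotomy i j with l | l | l
  · exact (key i j l hi hj).elim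
  · exact l
  · exact (key j i l hj hi).elim

theorem exists_mask (S : Finset ℕ) : ∃ X : ℕ, ∀ i, X.testBit i = true ↔ i ∈ S := by
  induction S using Finset.induction_on with
  | empty => exact ⟨0, by simp⟩
  | insert a S _ ih =>
    obtain ⟨X, hX⟩ := ih
    refine ⟨bit a ||| X, fun i => ?_⟩
    rw [Nat.testBit_or, testBit_bit, Bool.or_eq_true, hX, mem_insert, decide_eq_true_iff, eq_comm]

theorem card_le_one_of {S : Finset ℕ} {X : ℕ} (hX : ∀ i, X.testBit i = true ↔ i ∈ S)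
    (h : Nat.land X (Nat.pred X) = 0) : S.card ≤ 1 :=
  card_le_one.2 fun a ha b hb => one_bit h ((hX a).2 ha) ((hX b).2 hb)

theorem testBit_mask3 (a b c i : ℕ) :
    (mask3 a b c).testBit i = true ↔ i = a ∨ i = b ∨ i = c := by
  have e : mask3 a b c = bit a ||| (bit b ||| bit c) := rfl
  rw [e, Nat.testBit_or, Nat.testBit_or, testBit_bit, testBit_bit, testBit_bit]
  simp only [Bool.or_eq_true, decide_eq_true_iff]
  omega

theorem unit3 : ∀ s : F3, s * s = 1 → s = 1 ∨ s = -1 := by decide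

theorem side_false {C : CD} {D : Disp F3} (h : C.Rep D) {i : ℕ}
    (hi : (C.side false).testBit i = true) : i ∈ D.Z ∧ D.row i = true := by
  have := (h.side false i).1 hi
  exact ⟨this.1, by simpa using this.2⟩

theorem noStar_sound {𝓛 : List (Disp F3)} {t : Tb} (ht : t.ok = true)
    (hL : ∀ G, BadT t 5 G → Has 𝓛 G) {C : CD} {D : Disp F3} (h : C.Rep D) (h24 : 24 ∉ D.Z)
    {l : List ℕ} {b c p : ℕ} (hb : b ∈ D.Z) (hc : c ∈ D.Z) (hp : p ∈ D.Z)
    (ok : noStarB t C l b c p = true) : NoStar 𝓛 D 24 b c p := by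
  intro sb sc qb qc rel
  have key : ∀ g : ℕ, g = 1 ∨ g = 2 → (g : F3) = -(sb * sc) → noStar1 t C l b c p g = true →
      Has 𝓛 (star D 24 b c (-(sb * sc))) := by
    intro g hg e k
    have g3 : g < 3 := by omega
    have g4 : Nat.sub 3 g < 3 := by rcases hg with rfl | rfl <;> decide
    have e2 : ((Nat.sub 3 g : ℕ) : F3) = sb * sc := by
      have : ((Nat.sub 3 g : ℕ) : F3) = -(g : F3) := by rcases hg with rfl | rfl <;> decide
      rw [this, e, neg_neg]
    rcases orB_iff.1 k with k | k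
    · refine absurd ?_ (notB_iff.1 k)
      have ob := h.cpy_on hb false
      have oc := h.cpy_on hc false
      refine pmEq_complete (h.cpy_on hp false) (ob.add (oc.sm _)) qb fun i _ hi => ?_
      obtain ⟨m, r⟩ := side_false h hi
      rw [ob.vec_add (oc.sm _), oc.vec_sm g4, e2, ← h.cpy_eq hb false m, ← h.cpy_eq hc false m,
        ← h.cpy_eq hp false m, rel i m r]
      linear_combination (-(sc * cpy D c false i)) * qb
    · obtain ⟨N, -, k⟩ := anyL_iff.1 k
      rw [← e]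
      exact hL _ (bad_sound ht (starC_rep h (by norm_num) h24 hb hc g3) (andB_iff.1 k).2)
  obtain ⟨k1, k2⟩ := andB_iff.1 ok
  rcases unit3 (-(sb * sc)) (by linear_combination sb * sb * qc + qb) with e | e
  · exact key 1 (Or.inl rfl) (by rw [e]; rfl) k1
  · exact key 2 (Or.inr rfl) (by rw [e]; rfl) k2

theorem validIn_mono {𝓛 : List (Disp F3)} {D : Disp F3} {𝒯 : List (Finset ℕ)}
    (h : ValidIn 𝓛 D []) : ValidIn 𝓛 D 𝒯 := by
  intro T hT
  rcases h T hT with k | k
  · exact Or.inl k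
  · simp at k

end CkK

open CkK

theorem allFrom_sound {α : Type} {l : List α} {f : ℕ → α → Bool} {lo : ℕ}
    (h : allFrom l f lo = true) : ∀ k, lo ≤ k → k < lo + l.length → ∃ x, f k x = true := by
  induction l generalizing lo with
  | nil => intro k h1 h2; simp at h2; omega
  | cons x l ih =>
    have h' : andB (f lo x) (allFrom l f (lo + 1)) = true := h
    obtain ⟨k1, k2⟩ := andB_iff.1 h'
    intro k h1 h2
    rcases h1.eq_or_lt with rfl | h1
    · exact ⟨x, k1⟩
    · exact ih k2 k h1 (by rw [List.length_cons] at h2; omega)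

theorem fs_mask3 {a b c : ℕ} (ha : a < 32) (hb : b < 32) (hc : c < 32) :
    fs (mask3 a b c) = {a, b, c} := by
  ext i
  rw [mem_fs, testBit_mask3, mem_insert, mem_insert, mem_singleton]
  constructor
  · exact fun h => h.2
  · intro h; exact ⟨by omega, h⟩

theorem CkK.degB_of {C : CD} {D : Disp F3} (h : C.Rep D) {n : ℕ} (hn : C.zm = rng 0 n) {r : Bool}
    {u m : ℕ} (hu : VOn (C.side r) u) (hm : m ∉ D.Z) {v : ℕ → F3}
    (hv : ∀ i ∈ D.Z, D.row i ≠ r → v i = vec u i) (hd : Deg (D.addEl m r v) D.Z m) :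
    degB C n r u = true := by
  obtain ⟨z, hz, α, e⟩ := (deg_iff hm).1 hd
  refine orB_iff.2 ?_
  by_cases h0 : α = 0
  · refine Or.inl (Nat.beq_eq ▸ hu.inj (von_zero _) fun i _ hi => ?_)
    obtain ⟨m1, m2⟩ := (h.side r i).1 hi
    rw [vec_zero, ← hv i m1 m2, e i m1 m2, h0, zero_mul]
  · refine Or.inr (anyLt_iff.2 ⟨z, (mem_rng h hn).1 hz,
      pmEq_complete hu (h.cpy_on hz r) (Rul.sq3 h0) fun i _ hi => ?_⟩)
    obtain ⟨m1, m2⟩ := (h.side r i).1 hi
    rw [← hv i m1 m2, e i m1 m2, h.cpy_eq hz r m1]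

theorem degB_iff {C : CD} {D : Disp F3} (h : C.Rep D) {n : ℕ} (hn : C.zm = rng 0 n) (h0 : 0 < n)
    {r : Bool} {u m : ℕ} (hu : VOn (C.side r) u) (hm : m ∉ D.Z) {v : ℕ → F3}
    (hv : ∀ i ∈ D.Z, D.row i ≠ r → v i = vec u i) :
    degB C n r u = true ↔ Deg (D.addEl m r v) D.Z m := by
  refine ⟨fun k => (deg_iff hm).2 ?_, CkK.degB_of h hn hu hm hv⟩
  rcases orB_iff.1 k with k | k
  · rw [Nat.beq_eq] at k
    refine ⟨0, (mem_rng h hn).2 h0, 0, fun i m1 m2 => ?_⟩
    rw [hv i m1 m2, k, vec_zero, zero_mul]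
  · obtain ⟨z, hz, k⟩ := anyLt_iff.1 k
    have mz := (mem_rng h hn).2 hz
    obtain ⟨s, -, e⟩ := pmEq_sound (h.cpy_on mz r) k
    refine ⟨z, mz, s, fun i m1 m2 => ?_⟩
    rw [hv i m1 m2, e, h.cpy_eq mz r m1]

theorem conn3_sound {C : CD} {D : Disp F3} (h : C.Rep D) {n : ℕ} (hn : C.zm = rng 0 n)
    {l : List ℕ} (ok : conn3B C n l = true) : D.Conn3 := by
  intro S hS
  obtain ⟨X, hX⟩ := exists_mask S
  have hlt : X < bit n := by
    rw [bit_eq]
    refine Nat.lt_pow_two_of_testBit X fun i hi => ?_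
    by_contra k
    have := (mem_rng h hn).1 (hS ((hX i).1 (by simpa using k)))
    omega
  have hY : ∀ i, (Nat.xor C.zm X).testBit i = true ↔ i ∈ D.Z \ S := by
    intro i
    have e : Nat.xor C.zm X = C.zm ^^^ X := rfl
    rw [e, Nat.testBit_xor, mem_sdiff, h.mem, ← hX]
    have : X.testBit i = true → C.zm.testBit i = true := fun k => h.mem.1 (hS ((hX i).1 k))
    revert this
    cases C.zm.testBit i <;> cases X.testBit i <;> simp
  obtain ⟨N, k⟩ := allI_sound ok X hlt
  rcases orB_iff.1 k with k | k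
  · rw [Nat.beq_eq] at k
    have : S = ∅ := eq_empty_of_forall_notMem fun i hi => by
      have := (hX i).2 hi
      rw [k] at this
      simp at this
    subst this
    exact ⟨fun k => by simp at k, fun k => by simp at k⟩
  rcases orB_iff.1 k with k | k
  · rw [Nat.beq_eq] at k
    have : D.Z \ S = ∅ := eq_empty_of_forall_notMem fun i hi => by
      rw [mem_sdiff, h.mem, ← hX, k] at hi
      exact hi.2 hi.1
    rw [this]
    exact ⟨fun _ k => by simp at k, fun _ k => by simp at k⟩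
  generalize Nat.land N 31 = i at k
  generalize Nat.land (Nat.shiftRight N 5) 31 = i' at k
  generalize Nat.land (Nat.shiftRight N 10) 31 = j at k
  generalize Nat.shiftRight N 15 = j' at k
  obtain ⟨k1, k⟩ := andB_iff.1 k
  obtain ⟨k2, k⟩ := andB_iff.1 k
  rw [tb_eq] at k1 k2
  have mi := (hX i).1 k1
  have mj := (hY j).1 k2
  have mj' := (mem_sdiff.1 mj).1
  rw [cnd_eq] at k
  split_ifs at k with c
  · have e : D.S i j ≠ 0 := by
      have a1 := h.sN_lt (hS mi) mj'
      have a2 : C.sN i j ≠ 0 := fun e => notB_iff.1 k (Nat.beq_eq ▸ e)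
      rw [h.sN (hS mi) mj']
      have : C.sN i j = 1 ∨ C.sN i j = 2 := by omega
      rcases this with e | e <;> rw [e] <;> decide
    refine ⟨fun _ _ => ?_, fun c1 c2 => ?_⟩
    · by_contra q
      exact e (lam_eq_zero_iff.1 (by omega) i mi j mj)
    · rcases orB_iff.1 c with c | c <;> rw [Nat.beq_eq] at c
      · have := card_le_one_of hX c; omega
      · have := card_le_one_of hY c; omega
  · obtain ⟨k3, k⟩ := andB_iff.1 k
    obtain ⟨k4, k⟩ := andB_iff.1 k
    rw [tb_eq] at k3 k4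
    have ni := (hX i').1 k3
    have nj := (hY j').1 k4
    have e := (detNZ_iff h (hS mi) (hS ni) mj' (mem_sdiff.1 nj).1).1 k
    have : 2 ≤ D.lam S (D.Z \ S) := by
      by_contra q
      exact e (sub_eq_zero.2 (det_two_of_lam (by omega) mi ni mj nj))
    exact ⟨fun _ _ => by omega, fun _ _ => this⟩

theorem nv3_sound {𝓛 : List (Disp F3)} {t : Tb} (ht : t.ok = true)
    (hL : ∀ G, BadT t 5 G → Has 𝓛 G) {C : CD} {D : Disp F3} (h : C.Rep D) (h24 : 24 ∉ D.Z)
    {l : List ℕ} {b c p : ℕ} (hb : b ∈ D.Z) (hc : c ∈ D.Z) (hp : p ∈ D.Z) (h1 : b ≠ c) (h2 : b ≠ p)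
    (h3 : c ≠ p) (ok : nv3 t C l b c p = true) : ¬ Valid 𝓛 D {b, c, p} := by
  obtain ⟨k1, k⟩ := andB_iff.1 ok
  obtain ⟨k2, k3⟩ := andB_iff.1 k
  exact not_valid h24 h1 h2 h3 (noStar_sound ht hL h h24 hb hc hp k1)
    (noStar_sound ht hL h h24 hc hp hb k2) (noStar_sound ht hL h h24 hp hb hc k3)

theorem CkK.nvK_sound {𝓛 : List (Disp F3)} {t : Tb} (ht : t.ok = true)
    (hL : ∀ G, BadT t 5 G → Has 𝓛 G) {C : CD} {D : Disp F3} (h : C.Rep D) (h24 : 24 ∉ D.Z)
    {l : List ℕ} {m b c p : ℕ} (ok : nvK t C l m b c p = true) : ¬ Valid 𝓛 D (fs m) := by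
  obtain ⟨k1, k⟩ := andB_iff.1 ok
  obtain ⟨k2, k⟩ := andB_iff.1 k
  obtain ⟨k3, k⟩ := andB_iff.1 k
  obtain ⟨k4, k5⟩ := andB_iff.1 k
  rw [Nat.beq_eq] at k1 k2
  rw [Nat.blt_eq] at k3 k4
  have mem : ∀ i, i = b ∨ i = c ∨ i = p → i ∈ D.Z := by
    intro i hi
    have e : m &&& C.zm = m := k2
    have q : m.testBit i = true := by rw [k1]; exact (testBit_mask3 b c p i).2 hi
    rw [← e, Nat.testBit_and, Bool.and_eq_true] at q
    exact h.mem.2 q.2
  have hb := mem b (by simp)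
  have hc := mem c (by simp)
  have hp := mem p (by simp)
  have lb := h.lt hb
  rw [k1, fs_mask3 (by omega) (by omega) (by omega)]
  exact nv3_sound ht hL h h24 hb hc hp (by omega) (by omega) (by omega) k5

theorem valStep_sound {𝓛 : List (Disp F3)} {t : Tb} (ht : t.ok = true)
    (hL : ∀ G, BadT t 5 G → Has 𝓛 G) {C : CD} {D D0 : Disp F3} (h : C.Rep D) {k : ℕ} (hk : k < 24)
    (hn : C.zm = rng 0 (k + 1)) (hZ : D.Z = insert k D0.Z) (ha : Agree D0 D D0.Z)
    {T0 T l : List ℕ} (h0 : ValidIn 𝓛 D0 (T0.map fs)) (ok : valStep t C k T0 T l = true) :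
    ValidIn 𝓛 D (T.map fs) := by
  have h24 : 24 ∉ D.Z := fun q => by have := (mem_rng h hn).1 q; omega
  have mk : k ∈ D.Z := (mem_rng h hn).2 (by omega)
  obtain ⟨k1, k2⟩ := andB_iff.1 ok
  refine validIn_step hZ ha h0 (fun S hS => ?_) (fun u hu v hv luv n1 n2 s s' q1 q2 rel => ?_)
  · obtain ⟨m, hm, rfl⟩ := List.mem_map.1 hS
    rcases orB_iff.1 (allL_iff.1 k1 m hm) with q | q
    · exact Or.inl (List.mem_map_of_mem (memL_iff.1 q))
    · exact Or.inr (CkK.nvK_sound ht hL h h24 q)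
  · have lv : v < k := by have := (mem_rng h hn).1 hv; omega
    obtain ⟨a1, a2⟩ := andB_iff.1 (allLt_iff.1 (allLt_iff.1 k2 v lv) u luv)
    have ok' := h.cpy_on mk false
    have ou := h.cpy_on hu false
    have key : ∀ w, VOn (C.side false) w →
        (∀ i, vec w i = vec (C.cpyV k false) i + s * vec (C.cpyV u false) i) →
        val2 t C T l k u v w = true → {k, u, v} ∈ T.map fs ∨ ¬ Valid 𝓛 D {k, u, v} := by
      intro w ow e q
      rcases orB_iff.1 q with q | q
      · refine absurd ?_ (notB_iff.1 q)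
        refine pmEq_complete ow (h.cpy_on hv false) q2 fun i _ hi => ?_
        obtain ⟨m, r⟩ := side_false h hi
        rw [e, ← h.cpy_eq mk false m, ← h.cpy_eq hu false m, ← h.cpy_eq hv false m, rel i m r]
      rcases orB_iff.1 q with q | q
      · refine Or.inl ?_
        rw [← fs_mask3 (by omega) (by omega) (by omega)]
        exact List.mem_map_of_mem (memL_iff.1 q)
      · refine Or.inr ?_
        rw [pair_comm u v]
        exact nv3_sound ht hL h h24 mk hv hu n2.symm n1.symm (by omega) q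
    rcases unit3 s q1 with e | e
    · exact key _ (ok'.add ou) (fun i => by rw [ok'.vec_add ou, e, one_mul]) a1
    · exact key _ (ok'.add ou.neg) (fun i => by rw [ok'.vec_add ou.neg, ou.vec_neg, e]; ring) a2

theorem CkK.memK_sound {𝓛 : List (Disp F3)} {Bad : Disp F3 → Prop}
    (hBad : ∀ G D, Minor G D → Bad G → Bad D) {t : Tb} {b : ℕ} (ht : t.ok = true)
    (hL : ∀ G, BadT t 5 G → Has 𝓛 G) (hB : ∀ G, BadT t b G → Bad G) {C C0 : CD}
    (h : C.Rep C.toDisp) (h0 : C0.Rep C0.toDisp) {d d0 : MD} {x : MI} (p0 : MemP 𝓛 Bad C0 d0)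
    (ok : memK t b C C0 d d0 x = true) : MemP 𝓛 Bad C d := by
  obtain ⟨z0, n0, a0, a1, c0, c1, v0, t0⟩ := p0
  obtain ⟨k1, k⟩ := andB_iff.1 ok
  obtain ⟨k2, k⟩ := andB_iff.1 k
  obtain ⟨k3, k⟩ := andB_iff.1 k
  obtain ⟨k4, k⟩ := andB_iff.1 k
  obtain ⟨k5, k⟩ := andB_iff.1 k
  obtain ⟨k6, k⟩ := andB_iff.1 k
  obtain ⟨k7, k8⟩ := andB_iff.1 k
  rw [Nat.beq_eq] at k1
  rw [Nat.ble_eq] at k2
  have k1' : d.n = d0.n + 1 := k1
  have hw := von_of k3
  have nm : d0.n ∉ C0.toDisp.Z := fun q => by have := (mem_rng h0 z0).1 q; omega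
  have r1 : C.Rep (C0.toDisp.addEl d0.n d.r (vec d.w)) := by
    rw [eq_of_eqB k4]
    exact h0.add (by omega) nm hw fun _ _ _ => rfl
  have sm : Same (C0.toDisp.addEl d0.n d.r (vec d.w)) C.toDisp := r1.unique h
  have hZ : C.toDisp.Z = insert d0.n C0.toDisp.Z := sm.1
  have ag : Agree C0.toDisp C.toDisp C0.toDisp.Z :=
    (agree_addEl _ nm _ _).trans (sm.2.mono (subset_insert _ _))
  have zz : C.zm = rng 0 d.n := by
    refine Nat.eq_of_testBit_eq fun i => ?_
    rw [Bool.eq_iff_iff, ← h.mem, hZ, mem_insert, mem_rng h0 z0, testBit_rng, decide_eq_true_iff]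
    omega
  have h24 : 24 ∉ C.toDisp.Z := fun q => by have := (mem_rng h zz).1 q; omega
  obtain ⟨b0, e0⟩ := covStep_sound hBad ht hB h h0 nm hZ ag h24 a0 c0 k5
  obtain ⟨b1, e1⟩ := covStep_sound hBad ht hB h h0 nm hZ ag h24 a1 c1 k6
  refine ⟨zz, k2, b0, b1, e0, e1,
    valStep_sound ht hL h (by omega) (by rw [zz, k1']) hZ ag v0 k7, fun q => ?_⟩
  rw [cnd_eq, cnd_eq] at k8
  split_ifs at k8 with c3 c2
  · obtain ⟨q1, q2⟩ := andB_iff.1 k8
    rw [Nat.ble_eq] at q1
    obtain ⟨cn, n4⟩ := t0 q1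
    have cd : 4 ≤ C0.toDisp.Z.card := by
      have : C0.toDisp.Z = range d0.n := by ext i; rw [mem_rng h0 z0, mem_range]
      rw [this, card_range]; exact n4
    have := cn.addEl cd nm (r := d.r) (v := vec d.w)
      (fun hd => notB_iff.1 q2 (CkK.degB_of h0 z0 hw nm (fun _ _ _ => rfl) hd))
    exact ⟨(Conn3.emb (emb_of_agree sm.1.ge sm.2) (by rw [sm.1])).1 this, by omega⟩
  · obtain ⟨q1, q2⟩ := andB_iff.1 k8
    rw [Nat.ble_eq] at q1
    exact ⟨conn3_sound h zz q2, q1⟩
  · rw [Nat.beq_eq] at k8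
    omega

theorem mem_sound {𝓛 : List (Disp F3)} {Bad : Disp F3 → Prop}
    (hBad : ∀ G D, Minor G D → Bad G → Bad D) {t : Tb} {b : ℕ} (ht : t.ok = true)
    (hL : ∀ G, BadT t 5 G → Has 𝓛 G) (hB : ∀ G, BadT t b G → Bad G) {tm : Tb} (hm : tm.ok = true)
    {td : Tr MD} {N : ℕ} (ok : ∀ k < N, ∃ x, memB t b tm td k x = true) :
    ∀ k < N, MemP 𝓛 Bad (tm.get k).C (td.get k) := by
  intro k
  induction k using Nat.strong_induction_on with
  | _ k ih =>
    intro hk
    obtain ⟨x, q⟩ := ok k hk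
    have h := Tg.rep (Tb.get_ok hm k)
    rw [memB, cnd_eq] at q
    split_ifs at q with c
    · rw [Nat.beq_eq] at c
      obtain ⟨k1, q⟩ := andB_iff.1 q
      obtain ⟨k2, q⟩ := andB_iff.1 q
      obtain ⟨k3, q⟩ := andB_iff.1 q
      obtain ⟨k4, q⟩ := andB_iff.1 q
      obtain ⟨k5, k6⟩ := andB_iff.1 q
      rw [Nat.beq_eq] at k1 k2
      have zz : (tm.get k).C.zm = rng 0 (td.get k).n := by rw [k1, k2]; rfl
      have hZ : (tm.get k).C.toDisp.Z = ∅ := eq_empty_of_forall_notMem fun i hi => by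
        have := (mem_rng h zz).1 hi
        omega
      have on : ∀ (A : List ℕ) (K : ℕ), allL A (fun u => Nat.beq u 0) = true → ∀ u ∈ A, VOn K u := by
        intro A K hA u hu
        have := allL_iff.1 hA u hu
        rw [Nat.beq_eq] at this
        rw [this]; exact von_zero K
      have cov : ∀ (A : List ℕ) (r : Bool), memL 0 A = true →
          Cover Bad (tm.get k).C.toDisp 24 r (A.map vec) := by
        intro A r hA
        refine Cover.mono (cover_nil Bad 24 (fun i hi => by rw [hZ] at hi; simp at hi)) ?_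
        intro u hu
        rw [List.mem_singleton] at hu
        exact List.mem_map.2 ⟨0, memL_iff.1 hA, by rw [hu]; exact funext vec_zero⟩
      exact ⟨zz, by omega, on _ _ k5, on _ _ k6, cov _ _ k3, cov _ _ k4,
        validIn_mono (validIn_empty hZ), fun q => by omega⟩
    · obtain ⟨k1, k2⟩ := andB_iff.1 q
      rw [Nat.blt_eq] at k1
      exact CkK.memK_sound hBad ht hL hB h (Tg.rep (Tb.get_ok hm _)) (ih _ k1 (by omega)) k2

end Pool.Agent.Lib.MP_c69b6d_co.F
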