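import Pool.Agent.Lib.MP_c69b6d_co.F.CkK

/-! Soundness of the closure checker. -/

namespace Pool.Agent.Lib.MP_c69b6d_co.F

open Finset Disp CD

namespace CkL

theorem tb_or (a b i : ℕ) : tb (Nat.lor a b) i = (tb a i || tb b i) := by
  rw [tb_eq, tb_eq, tb_eq]; exact Nat.testBit_or a b i

theorem tb_bit (i : ℕ) : tb (bit i) i = true := by rw [tb_eq, testBit_bit]; simp

theorem degH_zero (C : CD) (n : ℕ) (r : Bool) : tb (degH C n r) 0 = true := by
  induction n with
  | zero => exact (by decide +kernel : tb 1 0 = true)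
  | succ n ih =>
    change tb (Nat.lor _ (degH C n r)) 0 = true
    rw [tb_or, ih, Bool.or_true]

theorem degH_mem (C : CD) (r : Bool) {n z : ℕ} (hz : z < n) :
    tb (degH C n r) (Nat.mod (C.cpyV z r) 1021) = true ∧
      tb (degH C n r) (Nat.mod (vneg (C.cpyV z r)) 1021) = true := by
  induction n with
  | zero => omega
  | succ n ih =>
    have e : degH C (n + 1) r = Nat.lor (Nat.lor (bit (Nat.mod (C.cpyV n r) 1021))
      (bit (Nat.mod (vneg (C.cpyV n r)) 1021))) (degH C n r) := rfl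
    rw [e]
    simp only [tb_or]
    rcases Nat.lt_succ_iff_lt_or_eq.1 hz with h | rfl
    · simp [(ih h).1, (ih h).2]
    · simp [tb_bit]

end CkL

open CkL

theorem ndB_sound {C : CD} {n : ℕ} {r : Bool} {u : ℕ} (ok : ndB C n r (degH C n r) u = true) :
    degB C n r u = false := by
  rw [ndB, orB_iff, CkK.notB_iff, CkK.notB_iff] at ok
  rw [← Bool.not_eq_true]
  intro h
  rcases ok with ok | ok
  · apply ok
    rw [degB, orB_iff, anyLt_iff] at h
    rcases h with h | ⟨z, hz, h⟩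
    · rw [Nat.beq_eq] at h; subst h; exact degH_zero C n r
    · rw [pmEq, orB_iff, Nat.beq_eq, Nat.beq_eq] at h
      rcases h with h | h <;> rw [h]
      exacts [(degH_mem C r hz).1, (degH_mem C r hz).2]
  · exact ok h

namespace CkL

variable {𝓛 : List (Disp F3)} {Bad : Disp F3 → Prop} {t : Tb} {b : ℕ} {tm : Tb} {td : Tr MD}
  {lo hi : ℕ}

theorem card_eq {C : CD} (hw : C.WF) {n : ℕ} (hn : C.zm = rng 0 n) : C.toDisp.Z.card = n := by
  have : C.toDisp.Z = range n := by
    ext i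
    rw [CkK.mem_rng (rep_self hw) hn, mem_range]
  rw [this, card_range]

theorem upB_sound (hm : tm.ok = true) (hP : ∀ k < hi, MemP 𝓛 Bad (tm.get k).C (td.get k))
    {L G : Disp F3} {n N : ℕ} (hL : L.Z.card = n) {E : CD} (h : E.Rep G)
    (ok : upB tm td lo hi n E N = true) : Up Bad (mems tm lo hi) L G := by
  simp only [upB, andB_iff, Nat.ble_eq, Nat.blt_eq] at ok
  obtain ⟨h1, h2, h3, h4⟩ := ok
  refine Or.inr ⟨_, List.mem_map.2 ⟨_, List.mem_range'_1.2 ⟨h1, by omega⟩, rfl⟩, ?_,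
    mnr_sound (Tb.get_ok hm _) h h4⟩
  rw [hL, card_eq (Tg.wf (Tb.get_ok hm _)) (hP _ h2).1]
  exact h3

theorem upL_sound {n : ℕ} {C : CD} {r : Bool} {A : List ℕ} :
    ∀ {l : List ℕ}, upL tm td lo hi n C r A l = true → ∀ u ∈ A,
      degB C n r u = true ∨ ∃ N, upB tm td lo hi n (C.add 24 r u) N = true := by
  induction A with
  | nil => intro l _ u hu; cases hu
  | cons a A ih =>
    intro l ok u hu
    have e : upL tm td lo hi n C r (a :: A) l = cnd (degB C n r a) (upL tm td lo hi n C r A l)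
      (pop l (fun N l' => andB (upB tm td lo hi n (C.add 24 r a) N)
        (upL tm td lo hi n C r A l'))) := rfl
    rw [e, cnd_eq] at ok
    split_ifs at ok with hd
    · rcases List.mem_cons.1 hu with rfl | hu
      · exact Or.inl hd
      · exact ih ok u hu
    · obtain ⟨N, l', -, ok⟩ := pop_iff.1 ok
      rw [andB_iff] at ok
      rcases List.mem_cons.1 hu with rfl | hu
      · exact Or.inr ⟨N, ok.1⟩
      · exact ih ok.2 u hu

theorem up_side (hBad : ∀ G D, Minor G D → Bad G → Bad D) (hm : tm.ok = true)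
    (hP : ∀ k < hi, MemP 𝓛 Bad (tm.get k).C (td.get k)) {C : CD} (hw : C.WF) {n : ℕ}
    (hn : C.zm = rng 0 n) (h0 : 0 < n) (h24 : n ≤ 24) {r : Bool} {A l : List ℕ}
    (hA : ∀ u ∈ A, VOn (C.side r) u) (hc : Cover Bad C.toDisp 24 r (A.map vec))
    (ok : upL tm td lo hi n C r A l = true) (v : ℕ → F3)
    (hv : ¬ Deg (C.toDisp.addEl 24 r v) C.toDisp.Z 24) :
    Up Bad (mems tm lo hi) C.toDisp (C.toDisp.addEl 24 r v) := by
  have h := rep_self hw
  have n24 : 24 ∉ C.toDisp.Z := by rw [CkK.mem_rng h hn]; omega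
  refine up_of_cover hBad n24 hc (fun u' hu' => ?_) v hv
  obtain ⟨u, hu, rfl⟩ := List.mem_map.1 hu'
  rcases upL_sound ok u hu with hd | ⟨N, hN⟩
  · exact Or.inl ((degB_iff h hn h0 (hA u hu) n24 fun _ _ _ => rfl).1 hd)
  · exact Or.inr (upB_sound hm hP (card_eq hw hn)
      (h.add (by omega) n24 (hA u hu) fun _ _ _ => rfl) hN)

theorem cpy_cons {L : Disp F3} {z z' : ℕ} (hzz : z ≠ z') : cpy L z' true z = cons L z z' := by
  unfold cpy Disp.cons
  cases h1 : L.row z <;> cases h2 : L.row z' <;> simp [hzz]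
  exact L.bip _ _ (h1.trans h2.symm)

theorem pat1_eq {L : Disp F3} {z z' : ℕ} (hzz : z ≠ z') (e : F3) (i : ℕ) :
    pat1 L z z' (cons L z z' + e) i = cpy L z' true i + e * cpy L z true i := by
  unfold pat1
  cases h1 : L.row z
  · by_cases hi : i = z
    · subst hi
      rw [cpy_cons hzz]
      simp [cpy, h1]
    · simp [cpy, h1, hi]
  · simp [cpy, Disp.cons, h1]

theorem pat2_eq {L : Disp F3} {z z' : ℕ} (hzz : z ≠ z') (e : F3) (i : ℕ) :
    pat2 L z z' (cons L z z' + e) i = cpy L z false i + -e * cpy L z' false i := by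
  unfold pat2
  cases h1 : L.row z'
  · simp [cpy, Disp.cons, h1, sub_eq_add_neg]
  · by_cases hi : i = z'
    · subst hi
      cases h2 : L.row z
      · simp [cpy, Disp.cons, h1, h2, L.skew i z, add_comm]
      · simp [cpy, Disp.cons, h1, h2, hzz.symm]
    · simp [cpy, h1, hi]

theorem ex2_sound (ht : t.ok = true) (hB : ∀ G, BadT t b G → Bad G) (hm : tm.ok = true)
    (hP : ∀ k < hi, MemP 𝓛 Bad (tm.get k).C (td.get k)) {C : CD} (hw : C.WF) {n : ℕ}
    (hn : C.zm = rng 0 n) (h24 : n ≤ 24) {l : List ℕ} {z z' e : ℕ} (hz : z < n) (hz' : z' < n)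
    (hzz : z ≠ z') (he0 : 0 < e) (he : e < 3)
    (ok : ex2 t b tm td lo hi n C (degH C n false) (degH C n true) l z z' e = true) :
    ¬ Deg (C.toDisp.addEl 24 true (pat1 C.toDisp z z' (cons C.toDisp z z' + e))) C.toDisp.Z 24 ∨
      ¬ Deg (C.toDisp.addEl 24 false (pat2 C.toDisp z z' (cons C.toDisp z z' + e))) C.toDisp.Z 24 ∨
      Up Bad (mems tm lo hi) C.toDisp (ext2 C.toDisp 24 25 z z' (cons C.toDisp z z' + e)) := by
  have h := rep_self hw
  have mem : ∀ {i}, i ∈ C.toDisp.Z ↔ i < n := CkK.mem_rng h hn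
  have n24 : 24 ∉ C.toDisp.Z := by rw [mem]; omega
  have mz := mem.2 hz
  have mz' := mem.2 hz'
  rw [ex2, orB_iff, orB_iff, anyL_iff] at ok
  rcases ok with ok | ok | ⟨N, -, ok⟩
  · refine Or.inl fun hd => ?_
    have := ndB_sound ok
    rw [CkK.degB_of h hn ((h.cpy_on mz' true).add ((h.cpy_on mz true).sm e)) n24
      (fun i hi _ => ?_) hd] at this
    · cases this
    · rw [pat1_eq hzz, (h.cpy_on mz' true).vec_add ((h.cpy_on mz true).sm e),
        (h.cpy_on mz true).vec_sm he, h.cpy_eq mz true hi, h.cpy_eq mz' true hi]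
  · refine Or.inr (Or.inl fun hd => ?_)
    have := ndB_sound ok
    rw [CkK.degB_of h hn ((h.cpy_on mz false).add ((h.cpy_on mz' false).sm _)) n24
      (fun i hi _ => ?_) hd] at this
    · cases this
    · have e3 : ((Nat.sub 3 e : ℕ) : F3) = -(e : F3) := by interval_cases e <;> decide
      rw [pat2_eq hzz, (h.cpy_on mz false).vec_add ((h.cpy_on mz' false).sm _),
        (h.cpy_on mz' false).vec_sm (show Nat.sub 3 e < 3 from Nat.sub_lt (by omega) he0), e3,
        h.cpy_eq mz false hi, h.cpy_eq mz' false hi]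
  · refine Or.inr (Or.inr ?_)
    rw [andB_iff] at ok
    have r1 := h.addC (n := 24) (by omega) n24 (h.cpy_on mz false)
      (v := cpy C.toDisp z false) fun i hi _ => h.cpy_eq mz false hi
    have v0 : vec (C.cpyV z' true) 24 = 0 := (h.cpy_on mz' true).zero_off (by
      rw [← Bool.not_eq_true, h.side]; exact fun hh => n24 hh.1)
    obtain ⟨w1, w2⟩ := vset_spec (h.cpy_on mz' true) (k := 24)
      (c := Nat.mod (Nat.add (vN (C.cpyV z' true) z) e) 3) (by omega) v0 (Nat.mod_lt _ (by omega))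
    have n25 : 25 ∉ (C.toDisp.addEl 24 false (cpy C.toDisp z false)).Z := by
      change 25 ∉ insert 24 C.toDisp.Z
      rw [mem_insert, mem]; omega
    have r2 : CD.Rep _ (ext2 C.toDisp 24 25 z z' (cons C.toDisp z z' + e)) :=
      r1.addR (n := 25) (by omega) n25 w1 fun i hi _ => by
        rw [w2]
        by_cases h1 : i = 24
        · subst h1
          rw [if_pos rfl, Function.update_self, ← cpy_cons hzz, h.cpy_eq mz' true mz,
            ← (ckh_vN (h.cpy_on mz' true) (show z < 32 by omega)).1]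
          change _ = (((vN (C.cpyV z' true) z + e) % 3 : ℕ) : ZMod 3)
          rw [ZMod.natCast_mod]; push_cast; rfl
        · rw [if_neg h1, Function.update_of_ne h1]
          exact h.cpy_eq mz' true ((mem_insert.1 hi).resolve_left h1)
    have ok2 := ok.2
    rw [ex1, cnd_eq] at ok2
    split_ifs at ok2
    · exact upB_sound hm hP (card_eq hw hn) r2 ok2
    · exact Or.inl (hB _ (bad_sound ht r2 ok2))

end CkL

theorem clo_sound {𝓛 : List (Disp F3)} {Bad : Disp F3 → Prop}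
    (hBad : ∀ G D, Minor G D → Bad G → Bad D) {t : Tb} {b : ℕ} (ht : t.ok = true)
    (hB : ∀ G, BadT t b G → Bad G) {tm : Tb} (hm : tm.ok = true) {td : Tr MD} {lo hi : ℕ}
    (hP : ∀ k < hi, MemP 𝓛 Bad (tm.get k).C (td.get k))
    (ok : ∀ k, lo ≤ k → k < hi → ∃ x, cloB t b tm td lo hi k x = true)
    {D : Disp F3} (hD : D.Conn3) (hb : ¬ Bad D) (hM : Has (mems tm lo hi) D) :
    ∃ k, lo ≤ k ∧ k < hi ∧ Minor (tm.get k).C.toDisp D ∧
      D.Z.card ≤ (tm.get k).C.toDisp.Z.card := by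
  have mm : ∀ L ∈ mems tm lo hi, ∃ k, lo ≤ k ∧ k < hi ∧ L = (tm.get k).C.toDisp := by
    intro L hL
    obtain ⟨k, hk, rfl⟩ := List.mem_map.1 hL
    rw [List.mem_range'_1] at hk
    exact ⟨k, hk.1, by omega, rfl⟩
  have hw : ∀ k, (tm.get k).C.WF := fun k => Tg.wf (Tb.get_ok hm k)
  suffices h : ∃ L ∈ mems tm lo hi, Minor L D ∧ D.Z.card ≤ L.Z.card by
    obtain ⟨L, hL, h1, h2⟩ := h
    obtain ⟨k, k1, k2, rfl⟩ := mm L hL
    exact ⟨k, k1, k2, h1, h2⟩
  refine closure Bad hBad (mems tm lo hi) (n := 24) (n' := 25) (by omega)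
    (fun L hL => ?_) (fun L hL r v hv => ?_) (fun L hL z hz z' hz' hzz c hc => ?_) hD hb hM
  all_goals
    obtain ⟨k, k1, k2, rfl⟩ := mm L hL
    obtain ⟨x, hx⟩ := ok k k1 k2
    simp only [cloB, cloK, andB_iff, Nat.ble_eq, Nat.beq_eq, allLt_iff, orB_iff] at hx
    obtain ⟨x1, x2, x3, x4, x5, x6⟩ := hx
    obtain ⟨p1, p2, p3, p4, p5, p6, -, p7⟩ := hP k k2
    have mem : ∀ {i}, i ∈ (tm.get k).C.toDisp.Z ↔ i < (td.get k).n :=
      CkK.mem_rng (rep_self (hw k)) p1
    have h4 := (p7 x1).2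
  · refine ⟨(p7 x1).1, by rw [card_eq (hw k) p1]; exact h4, ?_, ?_⟩ <;> rw [mem] <;> omega
  · cases r
    · exact up_side hBad hm hP (hw k) p1 (by omega) p2 p3 p5 x2 v hv
    · exact up_side hBad hm hP (hw k) p1 (by omega) p2 p4 p6 x3 v hv
  · rw [x4, x5] at x6
    have a := (x6 z (mem.1 hz) z' (mem.1 hz')).resolve_left hzz
    have key : ∀ c k : F3, c ≠ k → c = k + ((1 : ℕ) : F3) ∨ c = k + ((2 : ℕ) : F3) := by decide
    rcases key c _ hc with rfl | rfl
    · exact ex2_sound ht hB hm hP (hw k) p1 p2 (mem.1 hz) (mem.1 hz') hzz (by omega) (by omega) a.1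
    · exact ex2_sound ht hB hm hP (hw k) p1 p2 (mem.1 hz) (mem.1 hz') hzz (by omega) (by omega) a.2

end Pool.Agent.Lib.MP_c69b6d_co.F
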