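import Pool.Agent.Lib.MP_c69b6d_co.F.CkK

/-! Soundness of the programs for `Cl`. -/

namespace Pool.Agent.Lib.MP_c69b6d_co.F

open Finset Disp CD

theorem Cl.mono {P : (ℕ → ℝ) → ℝ} {Z : Finset ℕ} {𝒯 𝒯' : List (Finset ℕ)} (h : Cl P Z 𝒯')
    (hT : ∀ T ∈ 𝒯, T ∈ 𝒯') : Cl P Z 𝒯 :=
  fun T T' h1 h2 hc => h T T' (h1.imp id (hT T)) (h2.imp id (hT T')) hc

theorem notB_iff {a : Bool} : notB a = true ↔ a = false := by cases a <;> decide

theorem ckm_ne {u v : ℕ} (h : notB (Nat.beq u v) = true) : u ≠ v :=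
  Nat.ne_of_beq_eq_false (notB_iff.1 h)

theorem mapL_eq (f : ℕ → ℕ) (l : List ℕ) : mapL f l = l.map f := by
  induction l with
  | nil => rfl
  | cons x l ih => exact congrArg (List.cons (f x)) ih

theorem parB_sound {C : CD} {D : Disp F3} (h : C.Rep D) {u v : ℕ} (ok : parB C u v = true) :
    D.Par u v := by
  obtain ⟨o1, o2⟩ := andB_iff.1 ok
  obtain ⟨o2, o3⟩ := andB_iff.1 o2
  obtain ⟨o3, o4⟩ := andB_iff.1 o3
  rw [tb_eq] at o2 o3
  have ne := ckm_ne o1
  have hu := h.mem.2 o2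
  have hv := h.mem.2 o3
  obtain ⟨s, hs, e⟩ := pmEq_sound (h.cpy_on hv false) o4
  have s0 : s ≠ 0 := left_ne_zero_of_mul_eq_one hs
  have k : ∀ i ∈ D.Z, cpy D u false i = s * cpy D v false i := fun i hi => by
    rw [h.cpy_eq hu false hi, h.cpy_eq hv false hi, e]
  unfold cpy at k
  cases ru : D.row u <;> cases rv : D.row v <;> simp only [ru, rv, if_true, Bool.true_eq_false,
    if_false] at k
  · exact par_of_cols ne hu hv ru rv s0 k
  · refine (par_of_unit hv hu ru ?_ fun i hi n => ?_).symm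
    · rw [k v hv, if_pos rfl, mul_one]; exact s0
    · rw [k i hi, if_neg n, mul_zero]
  · refine par_of_unit hu hv rv (fun z => ?_) fun i hi n => ?_
    · have := k u hu
      rw [if_pos rfl, z, mul_zero] at this
      exact one_ne_zero this
    · have := k i hi
      rw [if_neg n] at this
      exact (mul_eq_zero.1 this.symm).resolve_left s0
  · have := k u hu
    rw [if_pos rfl, if_neg ne, mul_zero] at this
    exact absurd this one_ne_zero

theorem rep_erase {C : CD} {D : Disp F3} (h : C.Rep D) {a : ℕ} (ha : a ∈ D.Z) :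
    (C.res (Nat.xor C.zm (bit a))).Rep (D.restrict (D.Z.erase a)) := by
  refine h.res fun i => ?_
  rw [mem_erase, ckb_xor_bit]
  by_cases e : i = a
  · subst e; simp [h.mem.1 ha]
  · rw [decide_eq_false (Ne.symm e), Bool.xor_false, ← h.mem]
    tauto

theorem triadB_sound {C : CD} {D : Disp F3} (h : C.Rep D) {a b c : ℕ} (ok : triadB C a b c = true) :
    a ∈ D.Z ∧ b ∈ D.Z ∧ c ∈ D.Z ∧ b ≠ c ∧ D.row a = true ∧ D.S a b = 1 ∧ D.S a c = 1 ∧
      (∀ j ∈ D.Z, j ≠ b → j ≠ c → D.S a j = 0) ∧ (wyeC C a b c).Rep (wye D a b c) := by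
  obtain ⟨o1, o2⟩ := andB_iff.1 ok
  obtain ⟨o2, o3⟩ := andB_iff.1 o2
  obtain ⟨o3, o4⟩ := andB_iff.1 o3
  obtain ⟨o4, o5⟩ := andB_iff.1 o4
  rw [tb_eq] at o4
  have ne := ckm_ne o1
  have hb : b < 32 := Nat.blt_eq.mp o2
  have hc : c < 32 := Nat.blt_eq.mp o3
  have e : vmk (rowP C.P a) (rowP C.M a) = bit b ||| bit c := Nat.eq_of_beq_eq_true o5
  obtain ⟨ma, ra⟩ := h.mem_of_rm o4
  have key : ∀ j, j < 32 → val C.P C.M (32 * a + j) = if j = b ∨ j = c then 1 else 0 := by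
    intro j hj
    have e1 := congrArg (fun z => z.testBit j) e
    have e2 := congrArg (fun z => z.testBit (32 + j)) e
    simp only [testBit_vmk, testBit_rowP, Nat.testBit_or, testBit_bit, hj, decide_true,
      Bool.true_and, Nat.add_sub_cancel_left] at e1 e2
    rw [decide_eq_false (p := j ≥ 32) (by omega), Bool.false_and, Bool.or_false] at e1
    rw [decide_eq_false (p := 32 + j < 32) (by omega), decide_eq_true (p := 32 + j ≥ 32) (by omega),
      decide_eq_false (p := b = 32 + j) (by omega), decide_eq_false (p := c = 32 + j) (by omega)]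
      at e2
    simp only [Bool.false_and, Bool.false_or, Bool.true_and] at e2
    simp only [val, e1, e2, Bool.or_eq_true, decide_eq_true_iff, eq_comm (a := j)]
    simp
  have vb : val C.P C.M (32 * a + b) = 1 := by rw [key b hb, if_pos (Or.inl rfl)]
  have vc : val C.P C.M (32 * a + c) = 1 := by rw [key c hc, if_pos (Or.inr rfl)]
  obtain ⟨-, zb, rb⟩ := h.1.ne hb (vb ▸ one_ne_zero)
  obtain ⟨-, zc, rc⟩ := h.1.ne hc (vc ▸ one_ne_zero)
  have mb := h.mem.2 zb
  have mc := h.mem.2 zc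
  refine ⟨ma, mb, mc, ne, ra, (h.ent ma mb ra).trans vb, (h.ent ma mc ra).trans vc,
    fun j hj n1 n2 => ?_, ?_⟩
  · rw [h.ent ma hj ra, key j ((h.lt hj).trans (by norm_num)), if_neg (by tauto)]
  · refine (rep_erase h ma).addC (h.lt ma) (notMem_erase a D.Z)
      ((h.cpy_on mb false).add (h.cpy_on mc false).neg) fun i hi _ => ?_
    obtain ⟨n, hi⟩ := mem_erase.1 hi
    rw [if_neg n, (h.cpy_on mb false).vec_add (h.cpy_on mc false).neg, (h.cpy_on mc false).vec_neg,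
      ← h.cpy_eq mb false hi, ← h.cpy_eq mc false hi, sub_eq_add_neg]
    unfold cpy
    rw [if_pos ((h.row mb).trans rb), if_pos ((h.row mc).trans rc)]

theorem wye_Z {D : Disp F3} {a : ℕ} (ha : a ∈ D.Z) (b c : ℕ) : (wye D a b c).Z = D.Z :=
  insert_erase ha

theorem ckm_sq (E i : ℕ) : (if E.testBit i = true then (-1 : F3) else 1) *
    (if E.testBit i = true then (-1 : F3) else 1) = 1 := by
  split_ifs <;> decide

theorem wyes_sound {l : List ℕ} {k : CD → Bool} {C : CD} {D : Disp F3} (h : C.Rep D)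
    (ok : wyesB l k C = true) :
    ∃ E H, Wyes (l.map trp) D H ∧ E.Rep H ∧ H.Z = D.Z ∧ k E = true := by
  induction l generalizing C D with
  | nil => exact ⟨C, D, Wyes.nil D, h, rfl, ok⟩
  | cons N l ih =>
    obtain ⟨E1, D1, N', k1, k2, -, -, k5⟩ := pivs_sound h ok
    obtain ⟨o1, o2⟩ := andB_iff.1 k5
    have r := k2.scl (E := Nat.land (Nat.shiftRight N 15) cF) (fun i _ => rfl)
    obtain ⟨t1, t2, t3, t4, t5, t6, t7, t8, t9⟩ := triadB_sound r o1
    obtain ⟨E, H, w1, w2, w3, w4⟩ := ih t9 o2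
    refine ⟨E, H, Wyes.cons _ _ _ _ D D1 _ H _ (k1.reach inter_subset_right) (ckm_sq _)
      (Same.refl _) t1 t2 t3 t4 t5 t6 t7 t8 w1, w2, ?_, w4⟩
    rw [w3, wye_Z t1]
    exact k1.Z_eq

/-- the mask has no bits beyond the labels. -/
def Bd (m : ℕ) : Prop := ∀ i, m.testBit i = true → i < 32

theorem Bd.of_sub {C : CD} (hw : C.WF) {m : ℕ} (h : m &&& C.zm = m) {i : ℕ}
    (hi : m.testBit i = true) : C.zm.testBit i = true ∧ i < 31 := by
  rw [← h, Nat.testBit_and, Bool.and_eq_true] at hi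
  exact ⟨hi.2, ck_lt hw.1 hi.2⟩

theorem testBit_mask3 (a b c i : ℕ) :
    (mask3 a b c).testBit i = true ↔ i = a ∨ i = b ∨ i = c := by
  change (bit a ||| (bit b ||| bit c)).testBit i = true ↔ _
  simp only [Nat.testBit_or, testBit_bit, Bool.or_eq_true, decide_eq_true_iff, eq_comm (a := i)]

theorem bd_mask3 {a b c : ℕ} (ha : a < 32) (hb : b < 32) (hc : c < 32) : Bd (mask3 a b c) :=
  fun i hi => by rcases (testBit_mask3 a b c i).1 hi with e | e | e <;> omega

theorem fs_and (m m' : ℕ) : fs (m &&& m') = fs m ∩ fs m' := by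
  ext i
  rw [mem_inter, mem_fs, mem_fs, mem_fs, Nat.testBit_and, Bool.and_eq_true]
  tauto

theorem card_fs_le {x : ℕ} (h : x &&& (x - 1) = 0) : (fs x).card ≤ 1 := by
  by_cases z : x = 0
  · subst z
    exact card_le_one.2 fun a ha => absurd (mem_fs.1 ha).2 (by simp)
  · obtain ⟨k, rfl⟩ := (Nat.and_sub_one_eq_zero_iff_isPowerOfTwo z).1 h
    refine card_le_one.2 fun a ha b hb => ?_
    have e1 := (mem_fs.1 ha).2
    have e2 := (mem_fs.1 hb).2
    rw [Nat.testBit_two_pow, decide_eq_true_iff] at e1 e2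
    omega

theorem and_pred_of_card {x : ℕ} (hx : Bd x) (h : (fs x).card ≤ 1) : x &&& (x - 1) = 0 := by
  by_cases z : x = 0
  · subst z; rfl
  · obtain ⟨k, hk⟩ := Nat.exists_testBit_of_ne_zero z
    refine (Nat.and_sub_one_eq_zero_iff_isPowerOfTwo z).2 ⟨k, Nat.eq_of_testBit_eq fun i => ?_⟩
    rw [Nat.testBit_two_pow]
    by_cases e : k = i
    · rw [← e, hk, decide_eq_true rfl]
    · rw [decide_eq_false e]
      cases t : x.testBit i
      · rfl
      · exact absurd (card_le_one.1 h k (mem_fs.2 ⟨hx k hk, hk⟩) i (mem_fs.2 ⟨hx i t, t⟩)) e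

theorem compB_sound {m m' : ℕ} (h : compB m m' = true) : Compat (fs m) (fs m') := by
  rcases orB_iff.1 h with e | e
  · exact Or.inl (congrArg fs (Nat.eq_of_beq_eq_true e))
  · exact Or.inr (fs_and m m' ▸ card_fs_le (Nat.eq_of_beq_eq_true e))

theorem compB_complete {m m' : ℕ} (hm : Bd m) (h : Compat (fs m) (fs m')) :
    fs m = fs m' ∨ compB m m' = true := by
  refine h.imp id fun e => orB_iff.2 (Or.inr ?_)
  rw [← fs_and] at e
  have := and_pred_of_card (fun i hi => hm i (by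
    rw [Nat.testBit_and, Bool.and_eq_true] at hi; exact hi.1)) e
  exact Nat.beq_eq ▸ this

theorem testBit_replM (u v m i : ℕ) : (replM u v m).testBit i = true ↔
    if m.testBit v = true then (i = u ∨ (i ≠ v ∧ m.testBit i = true)) else m.testBit i = true := by
  unfold replM
  rw [cnd_eq, tb_eq]
  split_ifs with e
  · change (Nat.xor m (bit v) ||| bit u).testBit i = true ↔ _
    rw [Nat.testBit_or, ckb_xor_bit, testBit_bit, Bool.or_eq_true, decide_eq_true_iff]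
    by_cases n : i = v
    · subst n; simp [e, eq_comm]
    · rw [decide_eq_false (Ne.symm n), Bool.xor_false, eq_comm (a := u)]
      tauto
  · rfl

theorem fs_replM {u v : ℕ} (hu : u < 32) (hv : v < 32) (m : ℕ) :
    fs (replM u v m) = repl u v (fs m) := by
  ext i
  unfold repl
  rw [mem_fs, testBit_replM]
  by_cases e : m.testBit v = true
  · rw [if_pos e, if_pos (mem_fs.2 ⟨hv, e⟩), mem_insert, mem_erase, mem_fs]
    constructor
    · rintro ⟨a, b | b⟩
      exacts [Or.inl b, Or.inr ⟨b.1, a, b.2⟩]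
    · rintro (b | b)
      exacts [⟨b ▸ hu, Or.inl b⟩, ⟨b.2.1, Or.inr ⟨b.1, b.2.2⟩⟩]
  · rw [if_neg e, if_neg fun k => e (mem_fs.1 k).2, mem_fs]

theorem bd_of_replM {u v m : ℕ} (hv : v < 32) (h : Bd (replM u v m)) : Bd m := fun i hi => by
  by_cases n : i = v
  · exact n ▸ hv
  · refine h i ((testBit_replM u v m i).2 ?_)
    split_ifs
    exacts [Or.inr ⟨n, hi⟩, hi]

theorem disjL_sound {l : List ℕ} {U : ℕ} (h : disjL l U = true) :
    (∀ m ∈ l, m &&& U = 0) ∧ l.Pairwise (fun m m' => m' &&& m = 0) := by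
  induction l generalizing U with
  | nil => exact ⟨fun m hm => absurd hm List.not_mem_nil, List.Pairwise.nil⟩
  | cons m l ih =>
    obtain ⟨o1, o2⟩ := andB_iff.1 h
    obtain ⟨k1, k2⟩ := ih o2
    have k3 : ∀ m' ∈ l, m' &&& m = 0 ∧ m' &&& U = 0 := fun m' hm => by
      have e : m' &&& (m ||| U) = 0 := k1 m' hm
      rwa [Nat.and_or_distrib_left, Nat.or_eq_zero_iff] at e
    refine ⟨fun m' hm => ?_, List.Pairwise.cons (fun m' hm => (k3 m' hm).1) k2⟩
    rcases List.mem_cons.1 hm with e | e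
    · rw [e]; exact Nat.eq_of_beq_eq_true o1
    · exact (k3 m' e).2

theorem trp_lt (N : ℕ) : (trp N).1 < 32 ∧ (trp N).2.1 < 32 ∧ (trp N).2.2 < 32 := by
  have lt : ∀ c, Nat.land c 31 < 32 := fun c => by
    rw [ckb_land31]; exact Nat.mod_lt _ (by norm_num)
  exact ⟨lt _, lt _, lt _⟩

/-- the claim together with the bound on the masks. -/
def ClB (D : Disp F3) (T : List ℕ) : Prop := Cl D.W D.Z (T.map fs) ∧ ∀ m ∈ T, Bd m

theorem simp_sound {C : CD} {D : Disp F3} (h : C.Rep D) {T : List ℕ} {u v : ℕ}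
    (ok : simpB C T u v = true) (hk : ClB (D.restrict (D.Z.erase v)) (mapL (replM u v) T)) :
    ClB D T := by
  obtain ⟨o1, o2⟩ := andB_iff.1 ok
  obtain ⟨o2, o3⟩ := andB_iff.1 o2
  obtain ⟨o3, o4⟩ := andB_iff.1 o3
  have hp := parB_sound h o1
  have hu : u < 32 := (h.lt hp.mem.1).trans (by norm_num)
  have hv : v < 32 := (h.lt hp.mem.2).trans (by norm_num)
  rw [notB_iff, tb_eq] at o2
  rw [mapL_eq] at hk
  have bd : ∀ m ∈ T, Bd m := fun m hm => bd_of_replM hv (hk.2 _ (List.mem_map_of_mem hm))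
  refine ⟨cl_simp hp ((h.row hp.mem.2).trans o2) (fun S hS => ?_) (fun S hS S' hS' hc => ?_) hk.1,
    bd⟩
  · obtain ⟨m, hm, rfl⟩ := List.mem_map.1 hS
    refine ⟨fun a b => ?_, ?_⟩
    · have := allL_iff.1 o3 m hm
      rw [notB_iff, tb_eq, tb_eq, (mem_fs.1 a).2, (mem_fs.1 b).2] at this
      exact Bool.false_ne_true this.symm
    · rw [← fs_replM hu hv]
      exact List.mem_map_of_mem (List.mem_map_of_mem hm)
  · obtain ⟨m, hm, rfl⟩ := List.mem_map.1 hS
    obtain ⟨m', hm', rfl⟩ := List.mem_map.1 hS'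
    rcases compB_complete (bd m hm) hc with e | e
    · rw [e]; exact Or.inl rfl
    · rcases orB_iff.1 (allL_iff.1 (allL_iff.1 o4 m hm) m' hm') with k | k
      · rw [notB_iff, e] at k
        exact absurd k.symm Bool.false_ne_true
      · rw [← fs_replM hu hv, ← fs_replM hu hv]
        exact compB_sound k

theorem wye_sound {C : CD} {D : Disp F3} (h : C.Rep D) {T : List ℕ} {a b c x1 x2 : ℕ}
    (ok : wyeB C T a b c x1 x2 = true)
    (hk : ClB (wye D a b c) (mask3 a b c :: mapL (fun m =>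
      cnd (Nat.beq (Nat.land m (mask3 a b c)) 0) m (mask3 a b c)) T)) : ClB D T := by
  obtain ⟨o1, o2⟩ := andB_iff.1 ok
  obtain ⟨o2, o3⟩ := andB_iff.1 o2
  obtain ⟨o3, o4⟩ := andB_iff.1 o3
  obtain ⟨o4, o5⟩ := andB_iff.1 o4
  obtain ⟨o5, o6⟩ := andB_iff.1 o5
  obtain ⟨o6, o7⟩ := andB_iff.1 o6
  rw [tb_eq] at o2 o3
  obtain ⟨t1, t2, t3, t4, t5, t6, t7, t8, t9⟩ := triadB_sound h o1
  have lt : ∀ i ∈ D.Z, i < 32 := fun i hi => (h.lt hi).trans (by norm_num)
  have m1 := h.mem.2 o2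
  have m2 := h.mem.2 o3
  have e3 := fs_mask3 (lt a t1) (lt b t2) (lt c t3)
  rw [mapL_eq] at hk
  have key : ∀ m ∈ T, Bd m ∧ ((fs m ⊆ D.Z ∧ a ∉ fs m ∧ b ∉ fs m ∧ c ∉ fs m ∧
      fs m ∈ (mask3 a b c :: T.map (fun m =>
        cnd (Nat.beq (Nat.land m (mask3 a b c)) 0) m (mask3 a b c))).map fs) ∨
      ∃ x, x ≠ a ∧ x ≠ b ∧ x ≠ c ∧ ((fs m = {x, b, c} ∧ (wye D a b c).Par x a) ∨
        (fs m = {x, a, b} ∧ (wye D a b c).Par x b) ∨
        (fs m = {x, a, c} ∧ (wye D a b c).Par x c))) := by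
    intro m hm
    have q := allL_iff.1 o7 m hm
    cases z : Nat.beq (Nat.land m (mask3 a b c)) 0
    · rw [z] at q
      obtain ⟨q1, q2⟩ := andB_iff.1 q
      generalize Nat.log2 (Nat.xor m (Nat.land m (mask3 a b c))) = x at q1 q2
      rw [notB_iff, tb_eq, ← Bool.not_eq_true, testBit_mask3, not_or, not_or] at q1
      have lx : ∀ y, (wye D a b c).Par x y → x < 32 := fun y p => lt x (wye_Z t1 b c ▸ p.mem.1)
      rcases orB_iff.1 q2 with q | q
      · obtain ⟨r1, r2⟩ := andB_iff.1 q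
        have p := parB_sound t9 r2
        rw [Nat.eq_of_beq_eq_true r1]
        exact ⟨bd_mask3 (lx _ p) (lt b t2) (lt c t3), Or.inr ⟨x, q1.1, q1.2.1, q1.2.2,
          Or.inl ⟨fs_mask3 (lx _ p) (lt b t2) (lt c t3), p⟩⟩⟩
      rcases orB_iff.1 q with q | q
      · obtain ⟨r1, r2⟩ := andB_iff.1 q
        have p := parB_sound t9 r2
        rw [Nat.eq_of_beq_eq_true r1]
        exact ⟨bd_mask3 (lx _ p) (lt a t1) (lt b t2), Or.inr ⟨x, q1.1, q1.2.1, q1.2.2,
          Or.inr (Or.inl ⟨fs_mask3 (lx _ p) (lt a t1) (lt b t2), p⟩)⟩⟩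
      · obtain ⟨r1, r2⟩ := andB_iff.1 q
        have p := parB_sound t9 r2
        rw [Nat.eq_of_beq_eq_true r1]
        exact ⟨bd_mask3 (lx _ p) (lt a t1) (lt c t3), Or.inr ⟨x, q1.1, q1.2.1, q1.2.2,
          Or.inr (Or.inr ⟨fs_mask3 (lx _ p) (lt a t1) (lt c t3), p⟩)⟩⟩
    · rw [z] at q
      have q' : m &&& C.zm = m := Nat.eq_of_beq_eq_true q
      have z' : m &&& mask3 a b c = 0 := Nat.eq_of_beq_eq_true z
      have n : ∀ i, (i = a ∨ i = b ∨ i = c) → i ∉ fs m := fun i hi k => by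
        have := ck_disj.1 z' i
        rw [(mem_fs.1 k).2, (testBit_mask3 a b c i).2 hi] at this
        exact Bool.false_ne_true this.symm
      refine ⟨fun i hi => (Bd.of_sub h.1 q' hi).2.trans (by norm_num),
        Or.inl ⟨fun i hi => h.mem.2 (Bd.of_sub h.1 q' (mem_fs.1 hi).2).1, n a (Or.inl rfl),
          n b (Or.inr (Or.inl rfl)), n c (Or.inr (Or.inr rfl)), ?_⟩⟩
      refine List.mem_map_of_mem (List.mem_cons_of_mem _ (List.mem_map.2 ⟨m, hm, ?_⟩))
      rw [z]; rfl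
  refine ⟨cl_wye t1 t2 t3 t4 t5 t6 t7 t8 m1 m2 (ckm_ne o4) (ckm_ne o5)
    (sub_ne_zero.1 ((detNZ_iff h m1 m2 t2 t3).1 o6)) ?_ (fun S hS => ?_) (wye_Z t1 b c ▸ hk.1),
    fun m hm => (key m hm).1⟩
  · rw [← e3]
    exact List.mem_map_of_mem List.mem_cons_self
  · obtain ⟨m, hm, rfl⟩ := List.mem_map.1 hS
    exact (key m hm).2

theorem sharp_sound {D H : Disp F3} {a T : List ℕ} (o1 : disjL (mapL trpM a) 0 = true)
    (o2 : allL T (fun m => memL m (mapL trpM a)) = true) (hw : Wyes (a.map trp) D.flip H)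
    (hZ : H.Z = D.Z) (hk : ClB H (mapL trpM a)) : ClB D T := by
  have e : (mapL trpM a).map fs =
      (a.map trp).map fun t => ({t.1, t.2.1, t.2.2} : Finset ℕ) := by
    rw [mapL_eq, List.map_map, List.map_map]
    exact List.map_congr_left fun N _ => fs_mask3 (trp_lt N).1 (trp_lt N).2.1 (trp_lt N).2.2
  have sub : ∀ m ∈ T, m ∈ mapL trpM a := fun m hm => memL_iff.1 (allL_iff.1 o2 m hm)
  refine ⟨(cl_sharp hw ?_ (e ▸ hZ ▸ hk.1)).mono fun S hS => ?_, fun m hm => hk.2 m (sub m hm)⟩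
  · rw [← e]
    refine List.pairwise_map.2 ((disjL_sound o1).2.imp fun {m m'} z => ?_)
    rw [disjoint_iff_inter_eq_empty, inter_comm, ← fs_and, z]
    exact eq_empty_of_forall_notMem fun i hi => absurd (mem_fs.1 hi).2 (by simp)
  · obtain ⟨m, hm, rfl⟩ := List.mem_map.1 hS
    rw [← e]
    exact List.mem_map_of_mem (sub m hm)

theorem op_sound {o : ℕ} {a : List ℕ} {k : CD → List ℕ → Bool}
    (hk : ∀ C D T, C.Rep D → k C T = true → ClB D T) {C : CD} {D : Disp F3}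
    {T : List ℕ} (h : C.Rep D) (ok : opB o a k C T = true) : ClB D T := by
  unfold opB at ok
  cases e0 : Nat.beq o 0
  swap
  · rw [e0, cnd_true] at ok
    obtain ⟨E, D', N', k1, k2, -, -, k5⟩ := pivs_sound h ok
    have r := hk E D' T k2 k5
    have k6 := k1.reach inter_subset_right
    exact ⟨k6.W_eq ▸ k6.Z_eq ▸ r.1, r.2⟩
  rw [e0, cnd_false] at ok
  cases e1 : Nat.beq o 1
  swap
  · rw [e1, cnd_true] at ok
    have r := hk _ _ T (h.scl (fun i _ => rfl)) ok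
    exact ⟨W_scale D (ckm_sq _) ▸ r.1, r.2⟩
  rw [e1, cnd_false] at ok
  cases e2 : Nat.beq o 2
  swap
  · rw [e2, cnd_true] at ok
    obtain ⟨o1, o2⟩ := andB_iff.1 ok
    exact simp_sound h o1 (hk _ _ _ (rep_erase h (parB_sound h (andB_iff.1 o1).1).mem.2) o2)
  rw [e2, cnd_false] at ok
  cases e3 : Nat.beq o 3
  swap
  · rw [e3, cnd_true] at ok
    obtain ⟨o1, o2⟩ := andB_iff.1 ok
    exact wye_sound h o1
      (hk _ _ _ (triadB_sound h (andB_iff.1 o1).1).2.2.2.2.2.2.2.2 o2)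
  rw [e3, cnd_false] at ok
  obtain ⟨o1, o2⟩ := andB_iff.1 ok
  obtain ⟨o2, o3⟩ := andB_iff.1 o2
  obtain ⟨E, H, w1, w2, w3, w4⟩ := wyes_sound h.flp o3
  exact sharp_sound o1 o2 w1 w3 (hk E H _ w2 w4)

theorem testBit_imM (F m k : ℕ) :
    (imM F m).testBit k = true ↔ ∃ i < 31, m.testBit i = true ∧ phi F i = k := by
  unfold imM
  generalize 31 = n
  induction n with
  | zero => simp
  | succ n ih =>
    change (cnd (tb m n) (bit (phiN F n) ||| _) _).testBit k = true ↔ _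
    rw [cnd_eq, tb_eq, phiN_eq, Nat.exists_lt_succ_right, ← ih]
    split_ifs with e
    · rw [Nat.testBit_or, testBit_bit, Bool.or_eq_true, decide_eq_true_iff, or_comm]
      simp only [e, true_and]
    · simp [e]

theorem fs_imM (F : ℕ) {m : ℕ} (h : ∀ i, m.testBit i = true → i < 31) :
    fs (imM F m) = (fs m).image (phi F) := by
  ext k
  rw [mem_fs, testBit_imM, mem_image]
  constructor
  · rintro ⟨-, i, hi, a, b⟩
    exact ⟨i, mem_fs.2 ⟨by omega, a⟩, b⟩
  · rintro ⟨i, hi, rfl⟩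
    exact ⟨ckb_phi_lt F i, i, h i (mem_fs.1 hi).2, (mem_fs.1 hi).2, rfl⟩

theorem end_bd {ts : Tb} {tt : Tr (List ℕ)} {s j N : ℕ} {C : CD} {T : List ℕ} (h : C.WF)
    (ok : endB ts tt s C T j N = true) : ∀ m ∈ T, Bd m := fun m hm i hi => by
  have q := (andB_iff.1 (allL_iff.1 (andB_iff.1 (andB_iff.1 (andB_iff.1 ok).2).2).2 m hm)).1
  exact (Bd.of_sub h (Nat.eq_of_beq_eq_true q) hi).2.trans (by norm_num)

theorem end_sound {ts : Tb} (hs : ts.ok = true) {tt : Tr (List ℕ)} {s j N : ℕ}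
    (hj : ∀ j < s, ClP (ts.get j).C (tt.get j)) {C : CD} {D : Disp F3} {T : List ℕ} (h : C.Rep D)
    (ok : endB ts tt s C T j N = true) : Cl D.W D.Z (T.map fs) := by
  obtain ⟨o1, o2⟩ := andB_iff.1 ok
  obtain ⟨o2, o3⟩ := andB_iff.1 o2
  obtain ⟨o3, o4⟩ := andB_iff.1 o3
  obtain ⟨E, F, k1, k2, k3⟩ := mnr_emb o2 (Tg.rep (Tb.get_ok hs j)) o3
  rw [h.2.W_eq, h.2.1]
  refine cl_emb k1 k3 (fun S hS => ?_) (hj j (Nat.blt_eq.mp o1))
  obtain ⟨m, hm, rfl⟩ := List.mem_map.1 hS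
  obtain ⟨q1, q2⟩ := andB_iff.1 (allL_iff.1 o4 m hm)
  have q : m &&& C.zm = m := Nat.eq_of_beq_eq_true q1
  refine ⟨fun i hi => (rep_self h.1).mem.2 (Bd.of_sub h.1 q (mem_fs.1 hi).2).1, ?_⟩
  rw [← fs_imM F fun i hi => (Bd.of_sub h.1 q hi).2, k2]
  exact List.mem_map_of_mem (memL_iff.1 q2)

theorem run_sound {ts : Tb} (hs : ts.ok = true) {tt : Tr (List ℕ)} {s : ℕ}
    (hj : ∀ j < s, ClP (ts.get j).C (tt.get j)) (p : PG) :
    ∀ C D T, C.Rep D → runB ts tt s p C T = true → ClB D T := by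
  obtain ⟨ops, j, N⟩ := p
  induction ops with
  | nil => exact fun C D T h ok => ⟨end_sound hs hj h ok, end_bd h.1 ok⟩
  | cons x l ih => exact fun C D T h ok => op_sound ih h ok

theorem st_sound {ts : Tb} (hs : ts.ok = true) {tt : Tr (List ℕ)} {lo hi : ℕ}
    (h0 : ∀ j < lo, ClP (ts.get j).C (tt.get j))
    (ok : ∀ s, lo ≤ s → s < hi → ∃ p, stB ts tt s p = true) :
    ∀ j < hi, ClP (ts.get j).C (tt.get j) := by
  intro j
  induction j using Nat.strong_induction_on with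
  | _ j ih =>
    intro hj
    rcases lt_or_ge j lo with e | e
    · exact h0 j e
    · obtain ⟨p, hp⟩ := ok j e hj
      exact (run_sound hs (fun i hi => ih i hi (hi.trans hj)) p _ _ _
        (Tg.rep (Tb.get_ok hs j)) hp).1

end Pool.Agent.Lib.MP_c69b6d_co.F
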