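import Pool.Agent.Lib.MP_c69b6d_co.F.CkJ
import Pool.Agent.Lib.MP_c69b6d_co.F.CkF
import Pool.Agent.Lib.MP_c69b6d_co.F.Api3

/-! Soundness of the list of bases. -/

namespace Pool.Agent.Lib.MP_c69b6d_co.F

open Finset Disp CD

/-- the weight of a mask. -/
noncomputable def blW (n : ℕ) (y : ℕ → ℝ) (S : ℕ) : ℝ :=
  ∏ i ∈ range n, if S.testBit i then y i else 1

theorem blW_bit {n e pre : ℕ} (y : ℕ → ℝ) (he : e < n) (h : pre.testBit e = false) :
    blW n y (Nat.lor pre (bit e)) = y e * blW n y pre := by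
  unfold blW
  have hm : e ∈ range n := mem_range.2 he
  rw [← mul_prod_erase _ _ hm, ← mul_prod_erase _ _ hm]
  have t : ∀ i, (Nat.lor pre (bit e)).testBit i = (pre.testBit i || decide (e = i)) := fun i => by
    rw [← testBit_bit]
    exact Nat.testBit_or _ _ _
  have e1 : ∏ i ∈ (range n).erase e, (if (Nat.lor pre (bit e)).testBit i then y i else 1) =
      ∏ i ∈ (range n).erase e, (if pre.testBit i then y i else 1) :=
    prod_congr rfl fun i hi => by
      rw [t, decide_eq_false (ne_of_mem_erase hi).symm, Bool.or_false]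
  rw [e1, t, h]
  simp

/-- what one call of the recursion guarantees. -/
def BlP (n : ℕ) (y : ℕ → ℝ) (e : ℕ) (rec : CD → ℕ → (List ℕ → Bool) → List ℕ → Bool) : Prop :=
  ∀ (C : CD) (D : Disp F3) (pre : ℕ) (k : List ℕ → Bool) (l : List ℕ), C.Rep D →
    D.Z = range e → (∀ i < e, pre.testBit i = false) → rec C pre k l = true →
    ∃ l1 l2, l = l1 ++ l2 ∧ k l2 = true ∧ (l1.map (blW n y)).sum = blW n y pre * D.W y

theorem blK_sound {n e : ℕ} {y : ℕ → ℝ} (he : e < n)
    {rec : CD → ℕ → (List ℕ → Bool) → List ℕ → Bool} (H : BlP n y e rec) :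
    BlP n y (e + 1) (fun C pre k => blK e pre rec C k) := by
  intro C D pre k l h hZ hp ok
  have me : e ∈ D.Z := by rw [hZ]; exact mem_range.2 (Nat.lt_succ_self e)
  have e31 : e < 32 := (h.lt me).trans (by decide)
  have er : D.Z.erase e = range e := by
    rw [hZ, range_add_one, erase_insert notMem_range_self]
  have hp0 : ∀ i < e, pre.testBit i = false := fun i hi => hp i (Nat.lt_succ_of_lt hi)
  have hp1 : ∀ i < e, (Nat.lor pre (bit e)).testBit i = false := fun i hi => by
    have : (Nat.lor pre (bit e)).testBit i = (pre.testBit i || (bit e).testBit i) :=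
      Nat.testBit_or _ _ _
    rw [this, hp0 i hi, testBit_bit, decide_eq_false hi.ne']
    rfl
  have w1 := blW_bit y he (hp e (Nat.lt_succ_self e))
  have res : ∀ {C' : CD} {D' : Disp F3}, C'.Rep D' → D'.Z = D.Z →
      (C'.res (rng 0 e)).Rep (D'.restrict (D'.Z.erase e)) ∧
        (D'.restrict (D'.Z.erase e)).Z = range e := fun {C' D'} h' hZ' => by
    refine ⟨h'.res fun i => ?_, ?_⟩
    · rw [hZ', er, hZ, testBit_rng, mem_range, mem_range, decide_eq_true_iff]
      omega
    · change D'.Z.erase e = range e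
      rw [hZ', er]
  have two : ∀ {C1 C2 : CD} {D1 D2 : Disp F3}, C1.Rep D1 → D1.Z = D.Z → C2.Rep D2 → D2.Z = D.Z →
      D.Wdel e = (D1.restrict (D1.Z.erase e)).W → D.Wcon e = (D2.restrict (D2.Z.erase e)).W →
      rec (C1.res (rng 0 e)) pre (rec (C2.res (rng 0 e)) (Nat.lor pre (bit e)) k) l = true →
      ∃ l1 l2, l = l1 ++ l2 ∧ k l2 = true ∧ (l1.map (blW n y)).sum = blW n y pre * D.W y :=
    fun {C1 C2 D1 D2} h1 z1 h2 z2 d1 d2 ok => by
      obtain ⟨l1, l2, rfl, ok2, s1⟩ := H _ _ _ _ _ (res h1 z1).1 (res h1 z1).2 hp0 ok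
      obtain ⟨l3, l4, rfl, ok4, s3⟩ := H _ _ _ _ _ (res h2 z2).1 (res h2 z2).2 hp1 ok2
      refine ⟨l1 ++ l3, l4, (List.append_assoc _ _ _).symm, ok4, ?_⟩
      rw [List.map_append, List.sum_append, s1, s3, w1, D.W_split me, d1, d2]
      ring
  have piv : ∀ {x z : ℕ}, x < 32 → z < 32 → (C.P ||| C.M).testBit (32 * x + z) = true →
      x ∈ D.Z ∧ z ∈ D.Z ∧ D.S x z ≠ 0 ∧ (C.piv x z).Rep (D.pivot x z) ∧ D.Reach (D.pivot x z) :=
    fun {x z} hx hz ht => by
      have pk : C.pivOK cF x z = true := by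
        unfold pivOK
        rw [andB_iff, andB_iff, tb_eq, tb_eq, tb_eq, testBit_cF, testBit_cF]
        refine ⟨?_, decide_eq_true hx, decide_eq_true hz⟩
        have : (Nat.lor (rowP C.P x) (rowP C.M x)).testBit z =
            ((rowP C.P x).testBit z || (rowP C.M x).testBit z) := Nat.testBit_or _ _ _
        rw [this, testBit_rowP, testBit_rowP, decide_eq_true hz, Bool.true_and, Bool.true_and,
          ← Nat.testBit_or]
        exact ht
      obtain ⟨a1, a2, -, -, a5, -, -, a8⟩ := h.piv hx hz pk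
      exact ⟨a1, a2, a5, a8, ReachIn.single a1 a2⟩
  have rowT : ∀ i j, (Nat.lor (rowP C.P i) (rowP C.M i)).testBit j =
      (decide (j < 32) && (C.P ||| C.M).testBit (32 * i + j)) := fun i j => by
    have : (Nat.lor (rowP C.P i) (rowP C.M i)).testBit j =
        ((rowP C.P i).testBit j || (rowP C.M i).testBit j) := Nat.testBit_or _ _ _
    rw [this, testBit_rowP, testBit_rowP, Nat.testBit_or, Bool.and_or_distrib_left]
  have colT : ∀ j q, (Nat.lor (colP C.P j) (colP C.M j)).testBit q =
      (decide (q % 32 = 0 ∧ q < 1024) && (C.P ||| C.M).testBit (q + j)) := fun j q => by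
    have : (Nat.lor (colP C.P j) (colP C.M j)).testBit q =
        ((colP C.P j).testBit q || (colP C.M j).testBit q) := Nat.testBit_or _ _ _
    rw [this, testBit_colP, testBit_colP, Nat.testBit_or, Bool.and_or_distrib_left]
  beta_reduce at ok
  unfold blK at ok
  have re : D.row e = tb C.rm e := by rw [tb_eq]; exact h.row me
  cases hr : tb C.rm e with
  | true =>
    rw [hr] at re
    rw [hr, cnd_true] at ok
    cases h0 : Nat.beq (Nat.lor (rowP C.P e) (rowP C.M e)) 0 with
    | true =>
      rw [h0, cnd_true] at ok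
      have z0 := Nat.eq_of_beq_eq_true h0
      obtain ⟨l1, l2, e1, ok2, s1⟩ := H _ _ _ _ _ (res h rfl).1 (res h rfl).2 hp1 ok
      refine ⟨l1, l2, e1, ok2, ?_⟩
      have c0 : D.Wdel e = 0 := Wdel_coloop me re fun j hj => by
        by_contra hne
        rw [h.ent me hj re] at hne
        have := rowT e j
        rw [z0, val_ne_zero.1 hne, decide_eq_true ((h.lt hj).trans (by decide) : j < 32)] at this
        simp at this
      rw [s1, w1, D.W_split me, c0, Wcon_row me re]
      simp only [Pi.zero_apply]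
      ring
    | false =>
      rw [h0, cnd_false] at ok
      have z0 := Nat.ne_of_beq_eq_false h0
      have t := Nat.testBit_log2 z0
      rw [rowT, Bool.and_eq_true, decide_eq_true_iff] at t
      obtain ⟨a1, a2, a3, a4, a5⟩ := piv e31 t.1 t.2
      refine two a4 (pivot_Z _ _ _) h rfl ?_ (Wcon_row me re) ok
      rw [← a5.Wdel_eq]
      refine Wdel_col (by rw [pivot_Z]; exact me) ?_
      rw [pivot_row a3, if_pos (Or.inl rfl), re]
      rfl
  | false =>
    rw [hr] at re
    rw [hr, cnd_false] at ok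
    cases h0 : Nat.beq (Nat.lor (colP C.P e) (colP C.M e)) 0 with
    | true =>
      rw [h0, cnd_true] at ok
      have z0 := Nat.eq_of_beq_eq_true h0
      obtain ⟨l1, l2, e1, ok2, s1⟩ := H _ _ _ _ _ (res h rfl).1 (res h rfl).2 hp0 ok
      refine ⟨l1, l2, e1, ok2, ?_⟩
      have c0 : D.Wcon e = 0 := Wcon_loop me re fun j hj => by
        by_contra hne
        have rj : D.row j = true := by
          have := row_ne_of_S hne
          rw [re] at this
          simpa using this
        have hne' := S_ne_symm hne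
        rw [h.ent hj me rj] at hne'
        have := colT e (32 * j)
        have j31 := h.lt hj
        rw [z0, val_ne_zero.1 hne', decide_eq_true (by omega)] at this
        simp at this
      rw [s1, D.W_split me, c0, Wdel_col me re]
      simp only [Pi.zero_apply]
      ring
    | false =>
      rw [h0, cnd_false] at ok
      have z0 := Nat.ne_of_beq_eq_false h0
      have t := Nat.testBit_log2 z0
      rw [colT, Bool.and_eq_true, decide_eq_true_iff] at t
      generalize Nat.log2 (Nat.lor (colP C.P e) (colP C.M e)) = q at t ok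
      have q1 : Nat.div q 32 = q / 32 := rfl
      have q2 : 32 * (q / 32) = q := by omega
      rw [q1] at ok
      obtain ⟨a1, a2, a3, a4, a5⟩ := piv (x := q / 32) (by omega) e31 (by rw [q2]; exact t.2)
      refine two h rfl a4 (pivot_Z _ _ _) (Wdel_col me re) ?_ ok
      rw [← a5.Wcon_eq]
      refine Wcon_row (by rw [pivot_Z]; exact me) ?_
      rw [pivot_row a3, if_pos (Or.inr rfl), re]
      rfl

theorem blR_sound (n : ℕ) (y : ℕ → ℝ) : ∀ e ≤ n, BlP n y e (blR e) := by
  intro e
  induction e with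
  | zero =>
    intro _ C D pre k l _ hZ _ ok
    obtain ⟨x, t, rfl, ok⟩ := pop_iff.1 ok
    obtain ⟨o1, o2⟩ := andB_iff.1 ok
    refine ⟨[x], t, rfl, o2, ?_⟩
    rw [Nat.eq_of_beq_eq_true o1, W_empty (hZ.trans range_zero)]
    simp
  | succ e ih => exact fun he => blK_sound he (ih (Nat.le_of_succ_le he))

theorem bl_sound {n : ℕ} {C : CD} {L : List ℕ} (ok : blB n C L = true) :
    C.toDisp.W = WL n L ∧ C.toDisp.Z = range n := by
  obtain ⟨o1, ok⟩ := andB_iff.1 ok
  obtain ⟨o2, o3⟩ := andB_iff.1 ok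
  have h := rep_self (wf_of o1)
  have hZ : C.toDisp.Z = range n := by
    ext i
    rw [h.mem, Nat.eq_of_beq_eq_true o2, testBit_rng, mem_range, decide_eq_true_iff]
    omega
  refine ⟨funext fun y => ?_, hZ⟩
  obtain ⟨l1, l2, rfl, k2, s⟩ := blR_sound n y n le_rfl C _ 0 _ L h hZ
    (fun i _ => Nat.zero_testBit i) o3
  have e2 : l2 = [] := by
    cases l2 with
    | nil => rfl
    | cons x t => exact absurd k2 (by rw [notB_eq, pop_iff.2 ⟨x, t, rfl, rfl⟩]; decide)
  have w0 : blW n y 0 = 1 := by simp [blW]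
  rw [w0, one_mul] at s
  rw [e2, List.append_nil, ← s]
  rfl

end Pool.Agent.Lib.MP_c69b6d_co.F
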