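import Mathlib

namespace Pool.Agent.Lib.MP_c69b6d_co.F

open Finset

abbrev F3 := ZMod 3

/-- A display: a standard representation `[I | A]`, stored as a skew bipartite array. -/
structure Disp (K : Type) [Field K] where
  Z : Finset ℕ
  row : ℕ → Bool
  S : ℕ → ℕ → K
  skew : ∀ i j, S i j = - S j i
  bip : ∀ i j, row i = row j → S i j = 0

variable {K : Type} [Field K]

namespace Disp

@[ext] theorem ext' {D E : Disp K} (h1 : D.Z = E.Z) (h2 : D.row = E.row) (h3 : D.S = E.S) :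
    D = E := by
  cases D; cases E; simp only at h1 h2 h3; subst h1 h2 h3; rfl

/-- the entries after a pivot on `x, y`. -/
noncomputable def pS (S : ℕ → ℕ → K) (x y i j : ℕ) : K :=
  if i = x then (if j = y then -1 / S x y else if j = x then 0 else S y j / S y x)
  else if i = y then (if j = x then -1 / S y x else if j = y then 0 else S x j / S x y)
  else if j = x then -(S y i / S y x)
  else if j = y then -(S x i / S x y)
  else S i j - S i y * S x j / S x y - S i x * S y j / S y x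

theorem ne_of_S {D : Disp K} {x y : ℕ} (h : D.S x y ≠ 0) : x ≠ y := by
  rintro rfl; exact h (D.bip x x rfl)

theorem row_ne_of_S {D : Disp K} {x y : ℕ} (h : D.S x y ≠ 0) : D.row x ≠ D.row y :=
  fun e => h (D.bip x y e)

theorem S_ne_symm {D : Disp K} {x y : ℕ} (h : D.S x y ≠ 0) : D.S y x ≠ 0 := by
  rw [D.skew]; exact neg_ne_zero.2 h

theorem pS_skew (D : Disp K) {x y : ℕ} (h : D.S x y ≠ 0) (i j : ℕ) :
    pS D.S x y i j = - pS D.S x y j i := by
  have hxy := ne_of_S h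
  have hyx := hxy.symm
  have e := D.skew y x
  unfold pS
  by_cases h1 : i = x
  · subst h1
    by_cases h4 : j = y
    · subst h4; simp only [hyx, if_true, if_false]; rw [e]; field_simp
    · by_cases h3 : j = i
      · subst h3; simp [h4]
      · simp [h3, h4]
  · by_cases h2 : i = y
    · subst h2
      by_cases h3 : j = x
      · subst h3; simp only [h1, if_true, if_false]; rw [e]; field_simp
      · by_cases h4 : j = i
        · subst h4; simp [h3]
        · simp [h1, h3, h4]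
    · by_cases h3 : j = x
      · subst h3; simp [h1, h2]
      · by_cases h4 : j = y
        · subst h4; simp [h1, h2, h3]
        · simp only [h1, h2, h3, h4, if_false]
          rw [D.skew j i, D.skew j y, D.skew j x, D.skew x i, D.skew y i, e]
          field_simp
          ring

theorem pS_bip (D : Disp K) {x y : ℕ} (h : D.S x y ≠ 0) (i j : ℕ)
    (hij : (if i = x ∨ i = y then !D.row i else D.row i) =
      (if j = x ∨ j = y then !D.row j else D.row j)) : pS D.S x y i j = 0 := by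
  have hxy := ne_of_S h
  have hyx := hxy.symm
  have hr := row_ne_of_S h
  have k : ∀ a b c : Bool, a ≠ b → (!a) = c → b = c := by decide
  have k2 : ∀ a b : Bool, a ≠ b → (!a) ≠ (!b) := by decide
  have k3 : ∀ a b c : Bool, a ≠ b → c ≠ a → c = b := by decide
  unfold pS
  by_cases h1 : i = x
  · subst h1
    by_cases h4 : j = y
    · subst h4; simp only [true_or, or_true, if_true] at hij; exact absurd hij (k2 _ _ hr)
    · by_cases h3 : j = i
      · simp [h3, hxy]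
      · simp only [h3, h4, true_or, or_self, if_true, if_false] at hij ⊢
        rw [D.bip y j (k _ _ _ hr hij)]; simp
  · by_cases h2 : i = y
    · subst h2
      by_cases h3 : j = x
      · subst h3; simp only [true_or, or_true, if_true] at hij; exact absurd hij (k2 _ _ hr.symm)
      · by_cases h4 : j = i
        · simp [h4, h1]
        · simp only [h1, h3, h4, or_true, or_self, if_true, if_false] at hij ⊢
          rw [D.bip x j (k _ _ _ hr.symm hij)]; simp
    · by_cases h3 : j = x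
      · subst h3
        simp only [h1, h2, true_or, or_self, if_true, if_false] at hij ⊢
        rw [D.bip y i (k _ _ _ hr hij.symm)]; simp
      · by_cases h4 : j = y
        · subst h4
          simp only [h1, h2, h3, or_true, or_self, if_true, if_false] at hij ⊢
          rw [D.bip x i (k _ _ _ hr.symm hij.symm)]; simp
        · simp only [h1, h2, h3, h4, or_self, if_false] at hij ⊢
          rw [D.bip i j hij]
          by_cases hx : D.row i = D.row x
          · rw [D.bip i x hx, D.bip x j (hx.symm.trans hij)]; simp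
          · have hy : D.row i = D.row y := k3 _ _ _ hr hx
            rw [D.bip i y hy, D.bip y j (hy.symm.trans hij)]; simp

open Classical in
/-- the pivot on the pair `x, y` (the identity if the entry vanishes). -/
noncomputable def pivot (D : Disp K) (x y : ℕ) : Disp K :=
  if h : D.S x y = 0 then D else
  { Z := D.Z
    row := fun i => if i = x ∨ i = y then !D.row i else D.row i
    S := pS D.S x y
    skew := pS_skew D h
    bip := pS_bip D h }

/-- restriction to `W`: rows outside `W` are contracted, columns outside `W` are deleted. -/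
def restrict (D : Disp K) (W : Finset ℕ) : Disp K := { D with Z := W }

/-- the dual display. -/
def flip (D : Disp K) : Disp K :=
  { Z := D.Z, row := fun i => !D.row i, S := D.S, skew := D.skew
    bip := fun i j h => D.bip i j (by revert h; cases D.row i <;> cases D.row j <;> simp) }

/-- rescaling by `ε`. -/
def scale (D : Disp K) (ε : ℕ → K) : Disp K :=
  { Z := D.Z, row := D.row, S := fun i j => ε i * ε j * D.S i j
    skew := fun i j => by rw [D.skew i j]; ring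
    bip := fun i j h => by rw [D.bip i j h]; ring }

/-- add (or overwrite) the element `n`, as a row if `r`, with entries `v` on the other side. -/
def addEl (D : Disp K) (n : ℕ) (r : Bool) (v : ℕ → K) : Disp K :=
  { Z := insert n D.Z
    row := fun i => if i = n then r else D.row i
    S := fun i j => if i = n then (if j = n ∨ D.row j = r then 0 else - v j)
      else if j = n then (if D.row i = r then 0 else v i) else D.S i j
    skew := by
      intro i j
      by_cases h1 : i = n <;> by_cases h2 : j = n <;> simp [h1, h2]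
      · split_ifs <;> simp
      · split_ifs <;> simp
      · exact D.skew i j
    bip := by
      intro i j h
      by_cases h1 : i = n <;> by_cases h2 : j = n <;> simp only [h1, h2, if_true, if_false] at h ⊢
      · simp
      · simp [h]
      · simp [h]
      · exact D.bip i j h }

/-- the basis shown by the display. -/
def B (D : Disp K) : Finset ℕ := D.Z.filter (fun i => D.row i = true)

/-- the row space of `[I | A]`, as functions vanishing off `Z`. -/
def code (D : Disp K) : Submodule K (ℕ → K) where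
  carrier := {c | (∀ i, i ∉ D.Z → c i = 0) ∧
    ∀ j ∈ D.Z, D.row j = false → c j = ∑ i ∈ D.Z, c i * D.S i j}
  add_mem' := by
    rintro a b ⟨a1, a2⟩ ⟨b1, b2⟩
    refine ⟨fun i hi => by simp [a1 i hi, b1 i hi], fun j hj hr => ?_⟩
    simp only [Pi.add_apply, add_mul, sum_add_distrib, ← a2 j hj hr, ← b2 j hj hr]
  zero_mem' := ⟨fun _ _ => rfl, fun j _ _ => by simp⟩
  smul_mem' := by
    rintro k a ⟨a1, a2⟩
    refine ⟨fun i hi => by simp [a1 i hi], fun j hj hr => ?_⟩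
    simp only [Pi.smul_apply, smul_eq_mul, mul_assoc, ← mul_sum, ← a2 j hj hr]

theorem mem_code {D : Disp K} {c : ℕ → K} : c ∈ D.code ↔ (∀ i, i ∉ D.Z → c i = 0) ∧
    ∀ j ∈ D.Z, D.row j = false → c j = ∑ i ∈ D.Z, c i * D.S i j := Iff.rfl

/-- bases of the represented matroid. -/
def Base (D : Disp K) (F : Finset ℕ) : Prop :=
  F ⊆ D.Z ∧ F.card = D.B.card ∧ ∀ c ∈ D.code, (∀ i ∈ F, c i = 0) → c = 0

open Classical in
/-- the basis generating polynomial. -/
noncomputable def W (D : Disp K) (y : ℕ → ℝ) : ℝ :=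
  ∑ F ∈ D.Z.powerset, if D.Base F then ∏ i ∈ F, y i else 0

/-- reachability by pivots on nonzero entries with both indices in `U`. -/
def ReachIn (U : Finset ℕ) : Disp K → Disp K → Prop :=
  Relation.ReflTransGen (fun D E => ∃ x ∈ U, ∃ y ∈ U, D.S x y ≠ 0 ∧ E = D.pivot x y)

def Reach (D E : Disp K) : Prop := ReachIn D.Z D E

/-- the rank of `S[X, Y]`. -/
noncomputable def lam (D : Disp K) (X Y : Finset ℕ) : ℕ :=
  (Matrix.of fun (i : X) (j : Y) => D.S i j).rank

def Conn3 (D : Disp K) : Prop :=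
  ∀ X ⊆ D.Z, (X.Nonempty → (D.Z \ X).Nonempty → 1 ≤ D.lam X (D.Z \ X)) ∧
    (2 ≤ X.card → 2 ≤ (D.Z \ X).card → 2 ≤ D.lam X (D.Z \ X))

/-- `L` is, up to signs, the part of `D` on the image of `φ`. -/
structure Emb (L D : Disp K) (φ : ℕ → ℕ) (ε : ℕ → K) : Prop where
  inj : Set.InjOn φ L.Z
  mem : ∀ i ∈ L.Z, φ i ∈ D.Z
  row : ∀ i ∈ L.Z, D.row (φ i) = L.row i
  sq : ∀ i ∈ L.Z, ε i * ε i = 1
  ent : ∀ i ∈ L.Z, ∀ j ∈ L.Z, D.S (φ i) (φ j) = ε i * ε j * L.S i j

def Minor (L D : Disp K) : Prop := ∃ E φ ε, D.Reach E ∧ Emb L E φ ε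

/-- `D` and `E` coincide on `X`. -/
def Agree (D E : Disp K) (X : Finset ℕ) : Prop :=
  (∀ i ∈ X, E.row i = D.row i) ∧ ∀ i ∈ X, ∀ j ∈ X, E.S i j = D.S i j

/-- `c` has support exactly `T`. -/
def Supp (c : ℕ → K) (T : Finset ℕ) : Prop := ∀ i, c i ≠ 0 ↔ i ∈ T

/-- `T` is a triangle: a three element set which supports a word of the dual code. -/
def Tri (D : Disp K) (T : Finset ℕ) : Prop := T.card = 3 ∧ ∃ d ∈ D.flip.code, Supp d T

/-- `u, v` is a parallel pair. -/
def Par (D : Disp K) (u v : ℕ) : Prop := u ≠ v ∧ ∃ d ∈ D.flip.code, Supp d {u, v}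

/-- `I` is independent: it supports no nonzero word of the dual code. -/
def Indep (D : Disp K) (I : Finset ℕ) : Prop :=
  ∀ d ∈ D.flip.code, (∀ i, i ∉ I → d i = 0) → d = 0

/-- same ground set and same entries on it. -/
def Same (D E : Disp K) : Prop := E.Z = D.Z ∧ Agree D E D.Z

/-- a displayed `U_{2,4}`. -/
def W4 (D : Disp K) (r s c d : ℕ) : Prop :=
  D.S r c ≠ 0 ∧ D.S r d ≠ 0 ∧ D.S s c ≠ 0 ∧ D.S s d ≠ 0 ∧ D.S r c * D.S s d ≠ D.S r d * D.S s c

/-- no display reached by pivots in `U` shows a `U_{2,4}`. -/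
def NoW4 (D : Disp K) (U : Finset ℕ) : Prop :=
  ∀ E, ReachIn U D E → ∀ r ∈ D.Z, ∀ s ∈ D.Z, ∀ c ∈ D.Z, ∀ d ∈ D.Z, ¬ E.W4 r s c d

/-- `v` is attached to `z` with respect to `U`. -/
def Att (D : Disp K) (U : Finset ℕ) (v z : ℕ) (α : K) : Prop :=
  ∀ j ∈ U, j ≠ z → D.S v j = α * D.S z j

/-- `v` is degenerate with respect to `U` (null, or in series or parallel with an element). -/
def Deg (D : Disp K) (U : Finset ℕ) (v : ℕ) : Prop := ∃ z ∈ U, ∃ α, Att D U v z α

/-- the entries of a new element on side `r` which is in series or parallel with `z`. -/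
def cpy (L : Disp K) (z : ℕ) (r : Bool) : ℕ → K :=
  fun i => if L.row z = r then L.S i z else if i = z then 1 else 0

/-- the consistent value of the entry between the two new elements of `ext2`. -/
def cons (L : Disp K) (z z' : ℕ) : K := if L.row z = false ∧ L.row z' = true then L.S z z' else 0

/-- add a column `n` parallel to `z` and a row `n'` in series with `z'`, joined by the entry `c`. -/
def ext2 (L : Disp K) (n n' z z' : ℕ) (c : K) : Disp K :=
  (L.addEl n false (cpy L z false)).addEl n' true (fun i => if i = n then c else cpy L z' true i)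

/-- the tail of a blocking walk, with `n` further steps after `v`. -/
inductive Tail (D : Disp K) (k : ℕ) (X0 Y0 : Finset ℕ) : ℕ → ℕ → Prop
  | last (v : ℕ) : v ∈ D.Z → v ∉ X0 → v ∉ Y0 → k < D.lam (insert v X0) Y0 → Tail D k X0 Y0 0 v
  | step (n v w : ℕ) : v ∈ D.Z → v ∉ X0 → v ∉ Y0 → v ≠ w →
      k < D.lam (insert v X0) (insert w Y0) → Tail D k X0 Y0 n w → Tail D k X0 Y0 (n + 1) v

/-- a blocking walk with `n + 1` elements. -/
def Blocking (D : Disp K) (k : ℕ) (X0 Y0 : Finset ℕ) (n : ℕ) : Prop :=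
  ∃ v, k < D.lam X0 (insert v Y0) ∧ Tail D k X0 Y0 n v

/-- the fourth point of the line through `t1, t2` is realised. -/
def Real4 (R : Disp K) (t1 t2 : ℕ) : Prop :=
  ∃ d ∈ R.flip.code, d t1 ≠ 0 ∧ d t2 = d t1 ∧
    ∀ d' ∈ R.flip.code, d' t1 = 0 → (∀ i, d i = 0 → d' i = 0) → d' = 0

/-- normal form of an exact 3-separation `(X, Y)` of `D`; `R` is the `Y`-side together with the
triangle `t1, t2, t3` on the guts line. -/
structure NF (D R : Disp K) (X Y : Finset ℕ) (q1 q2 : ℕ → K) (t1 t2 t3 : ℕ) : Prop where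
  dZ : D.Z = X ∪ Y
  disj : Disjoint X Y
  rZ : R.Z = Y ∪ {t1, t2, t3}
  n1 : t1 ∉ Y
  n2 : t2 ∉ Y
  n3 : t3 ∉ Y
  n12 : t1 ≠ t2
  agree : Agree D R Y
  r1 : R.row t1 = true
  r2 : R.row t2 = true
  s13 : R.S t1 t3 = 1
  s23 : R.S t2 t3 = -1
  s3 : ∀ j ∈ Y, R.S j t3 = 0
  ent : ∀ i ∈ X, ∀ j ∈ Y, D.S i j = q1 i * R.S t1 j + q2 i * R.S t2 j
  qrow : ∀ i ∈ X, D.row i = false → q1 i = 0 ∧ q2 i = 0
  ind : ∃ x1 ∈ X, ∃ x2 ∈ X, q1 x1 * q2 x2 ≠ q1 x2 * q2 x1

/-- the columns `ρ1, ρ2, ρ3` of `X` are the three tame points of the guts line. -/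
structure Rho (D : Disp K) (X : Finset ℕ) (q1 q2 : ℕ → K) (ρ1 ρ2 ρ3 : ℕ) : Prop where
  m1 : ρ1 ∈ X
  m2 : ρ2 ∈ X
  m3 : ρ3 ∈ X
  c1 : D.row ρ1 = false
  c2 : D.row ρ2 = false
  c3 : D.row ρ3 = false
  e1 : ∀ i ∈ X, D.S i ρ1 = q1 i
  e2 : ∀ i ∈ X, D.S i ρ2 = q2 i
  e3 : ∀ i ∈ X, D.S i ρ3 = q1 i - q2 i

/-- the forbidden patterns V1, V2, V3. -/
def VPat (D R : Disp K) (Y : Finset ℕ) (t1 t2 : ℕ) : Prop :=
  ∃ a ∈ Y, ∃ b ∈ Y, ∃ c ∈ Y, ∃ h ∈ Y, D.S a b ≠ 0 ∧ D.S a c ≠ 0 ∧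
    R.S t1 b ≠ R.S t2 b ∧ R.S t1 c ≠ R.S t2 c ∧ R.S t1 b * R.S t2 c ≠ R.S t1 c * R.S t2 b ∧
    D.S a b * R.S t1 c - D.S a c * R.S t1 b ≠ D.S a b * R.S t2 c - D.S a c * R.S t2 b ∧
    R.S t1 h ≠ 0 ∧ R.S t2 h = R.S t1 h ∧
    (D.S a h ≠ 0 ∨ ∃ r ∈ Y, D.S a h = 0 ∧ D.S r h ≠ 0 ∧ (D.S r b ≠ 0 ∨ D.S r c ≠ 0 ∨
      ∃ q ∈ Y, D.S r b = 0 ∧ D.S r c = 0 ∧ D.S r q ≠ 0 ∧ (D.S a q ≠ 0 ∨ R.S t1 q ≠ R.S t2 q)))

/-- `G` is `D` with an extra row `a` such that `a, b, c` is a triad and `T = {b, c, p}` is a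
triangle of `G`. -/
def Star (G : Disp K) (a : ℕ) (D : Disp K) (T : Finset ℕ) : Prop :=
  a ∉ D.Z ∧ G.Z = insert a D.Z ∧ G.row a = true ∧ Agree D G D.Z ∧
    ∃ b c p, b ≠ c ∧ b ≠ p ∧ c ≠ p ∧ T = {b, c, p} ∧ T ⊆ D.Z ∧
      (∃ w ∈ G.code, Supp w {a, b, c}) ∧ ∃ d ∈ G.flip.code, Supp d T

/-- no member of `𝓛` is a minor. -/
def Free (𝓛 : List (Disp K)) (D : Disp K) : Prop := ∀ L ∈ 𝓛, ¬ Minor L D

/-- some member of `𝓛` is a minor. -/
def Has (𝓛 : List (Disp K)) (D : Disp K) : Prop := ∃ L ∈ 𝓛, Minor L D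

/-- a valid mark: an element, or a triangle which carries a star without creating a member
of `𝓛`. -/
def Valid (𝓛 : List (Disp K)) (D : Disp K) (T : Finset ℕ) : Prop :=
  (∃ e ∈ D.Z, T = {e}) ∨ ∃ G a, Star G a D T ∧ Free 𝓛 G

/-- `z` lies on the guts line, at the point `α q_b + β q_c`. -/
def OnLine (E : Disp K) (X Y : Finset ℕ) (b c z : ℕ) (α β : K) : Prop :=
  (E.row z = false ∧ (∀ i ∈ X, E.S i z = α * E.S i b + β * E.S i c) ∧ ∀ r ∈ Y, E.S r z = 0) ∨
  (z ∈ X ∧ E.row z = true ∧ ∀ i ∈ X, E.row i = true →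
    α * E.S i b + β * E.S i c = if i = z then 1 else 0)

/-- no star on a triangle of the guts line through the fourth point. -/
def NoV4 (𝓛 : List (Disp K)) (E : Disp K) (X Y : Finset ℕ) (b c : ℕ) : Prop :=
  ∀ (G : Disp K) (a1 b1 c1 : ℕ) (w : ℕ → K) (α1 β1 α2 β2 : K), a1 ∉ E.Z → G.Z = insert a1 E.Z →
    G.row a1 = true → Agree E G E.Z → w ∈ G.code → Supp w {a1, b1, c1} → b1 ∈ E.Z → c1 ∈ E.Z →
    b1 ≠ c1 →
    OnLine E X Y b c b1 α1 β1 → OnLine E X Y b c c1 α2 β2 → α1 * β2 ≠ α2 * β1 →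
    (α1 = β1 ∨ α2 = β2 ∨ w c1 * α1 - w b1 * α2 = w c1 * β1 - w b1 * β2) → ¬ Free 𝓛 G

/-- the decomposition used in the induction step. -/
structure Dec (𝓛 𝓝 : List (Disp K)) (E R : Disp K) (X Y : Finset ℕ) (a b c p t1 t2 t3 : ℕ) :
    Prop where
  nf : NF E R X Y (fun i => E.S i b) (fun i => E.S i c) t1 t2 t3
  ma : a ∈ Y
  mb : b ∈ Y
  mc : c ∈ Y
  mp : p ∈ Y
  b1 : R.S t1 b = 1
  b2 : R.S t2 b = 0
  c1 : R.S t1 c = 0
  c2 : R.S t2 c = 1
  p1 : R.S t1 p = 1
  p2 : R.S t2 p = -1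
  ab : E.S a b = 1
  ac : E.S a c = 1
  ap : E.S a p = 0
  reg : NoW4 R R.Z
  hasN : Has 𝓝 (E.restrict (X ∪ {b, c, p}))
  v4 : NoV4 𝓛 E X Y b c

end Disp

/-- a small display with an exact 3-separation. -/
structure Seed (K : Type) [Field K] where
  L : Disp K
  X0 : Finset ℕ
  Y0 : Finset ℕ

/-- re-seeding on the `X` side. -/
def ShX (𝒮 : List (Seed K)) (G : Disp K) (X1 Y0 : Finset ℕ) (t : ℕ) : Prop :=
  ∃ G1 G2 : Disp K, ∃ σ ∈ 𝒮, ∃ (φ : ℕ → ℕ) (ε : ℕ → K), Disp.ReachIn X1 G G1 ∧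
    Disp.ReachIn (σ.L.Z.image φ) G1 G2 ∧ Disp.Emb σ.L G2 φ ε ∧ σ.Y0.image φ = Y0 ∧
    σ.X0.image φ ⊆ X1 ∧ 3 ≤ G2.lam (σ.X0.image φ) (insert t Y0)

/-- re-seeding on the `Y` side. -/
def ShY (𝒮 : List (Seed K)) (G : Disp K) (X0 Y1 : Finset ℕ) (t : ℕ) : Prop :=
  ∃ G1 G2 : Disp K, ∃ σ ∈ 𝒮, ∃ (φ : ℕ → ℕ) (ε : ℕ → K), Disp.ReachIn Y1 G G1 ∧
    Disp.ReachIn (σ.L.Z.image φ) G1 G2 ∧ Disp.Emb σ.L G2 φ ε ∧ σ.X0.image φ = X0 ∧
    σ.Y0.image φ ⊆ Y1 ∧ 3 ≤ G2.lam (insert t X0) (σ.Y0.image φ)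

/-- an isotropic direction supported on `T`. -/
def Iso (T : Finset ℕ) (τ : ℕ → ℝ) : Prop :=
  (∀ i, i ∉ T → τ i = 0) ∧ (∑ i ∈ T, τ i) ^ 2 = ∑ i ∈ T, τ i ^ 2 ∧ 0 ≤ ∑ i ∈ T, τ i

/-- the Rayleigh inequality for isotropic moves on `T` and on `T'`. -/
def QF (P : (ℕ → ℝ) → ℝ) (T T' : Finset ℕ) : Prop :=
  ∀ y τ τ' : ℕ → ℝ, Iso T τ → Iso T' τ' → (∀ i, 0 ≤ y i) → (∀ i, 0 ≤ y i + τ i) →
    (∀ i, 0 ≤ y i + τ' i) → (∀ i, 0 ≤ y i + τ i + τ' i) →
    P y * P (y + τ + τ') ≤ P (y + τ) * P (y + τ')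

/-- the same with positive corners. -/
def QFpos (P : (ℕ → ℝ) → ℝ) (T T' : Finset ℕ) : Prop :=
  ∀ y τ τ' : ℕ → ℝ, Iso T τ → Iso T' τ' → (∀ i, 0 < y i) → (∀ i, 0 < y i + τ i) →
    (∀ i, 0 < y i + τ' i) → (∀ i, 0 < y i + τ i + τ' i) →
    P y * P (y + τ + τ') ≤ P (y + τ) * P (y + τ')

/-- the Rayleigh property. -/
def Disp.Ray (D : Disp K) : Prop := ∀ e ∈ D.Z, ∀ f ∈ D.Z, QF D.W {e} {f}

/-- compatible marks. -/
def Compat (T T' : Finset ℕ) : Prop := T = T' ∨ (T ∩ T').card ≤ 1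

/-- the conclusion of the main induction. -/
def Disp.Concl (𝓛 : List (Disp K)) (D : Disp K) : Prop :=
  ∀ T T', D.Valid 𝓛 T → D.Valid 𝓛 T' → Compat T T' → QF D.W T T'

/-- an element of `Z` or a member of `𝒯`. -/
def Obj (Z : Finset ℕ) (𝒯 : List (Finset ℕ)) (T : Finset ℕ) : Prop := (∃ e ∈ Z, T = {e}) ∨ T ∈ 𝒯

/-- all inequalities for the elements of `Z` and the triangles in `𝒯`. -/
def Cl (P : (ℕ → ℝ) → ℝ) (Z : Finset ℕ) (𝒯 : List (Finset ℕ)) : Prop :=
  ∀ T T', Obj Z 𝒯 T → Obj Z 𝒯 T' → Compat T T' → QF P T T'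

/-- the second elementary symmetric function of the coordinates in `T`. -/
noncomputable def e2 (T : Finset ℕ) (y : ℕ → ℝ) : ℝ := ((∑ i ∈ T, y i) ^ 2 - ∑ i ∈ T, y i ^ 2) / 2

/-- the generating polynomial of a list of bit masks. -/
noncomputable def WL (n : ℕ) (L : List ℕ) (y : ℕ → ℝ) : ℝ :=
  (L.map fun S => ∏ i ∈ range n, if S.testBit i then y i else 1).sum

/-- a concrete display: masks of the ground set and of the rows, and the bit planes of the entries
`1` and `-1` (bit `32 * i + j` for the row `i` and the column `j`). -/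
structure CD where
  zm : ℕ
  rm : ℕ
  P : ℕ
  M : ℕ

def CD.ent (C : CD) (i j : ℕ) : F3 :=
  if C.P.testBit (32 * i + j) then 1 else if C.M.testBit (32 * i + j) then -1 else 0

def CD.toDisp (C : CD) : Disp F3 where
  Z := (range 32).filter (fun i => C.zm.testBit i)
  row := fun i => C.rm.testBit i
  S := fun i j => if C.rm.testBit i = C.rm.testBit j then 0
    else if C.rm.testBit i then C.ent i j else - C.ent j i
  skew := by
    intro i j
    cases h1 : C.rm.testBit i <;> cases h2 : C.rm.testBit j <;> simp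
  bip := by
    intro i j h
    simp [h]

end Pool.Agent.Lib.MP_c69b6d_co.F
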