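import Pool.Agent.Lib.MP_c69b6d_co.Defs
import Pool.Agent.Lib.MP_c69b6d_co.F.Core

namespace Pool.Agent.Lib.MP_c69b6d_co

/-- the non-Fano matroid. -/
def F7m : List (List ℕ) := [[1, 0, 0], [0, 1, 0], [0, 0, 1], [1, 1, 0], [1, 0, 1], [0, 1, 1], [1, 1, 1]]

/-- the dual of the non-Fano matroid. -/
def F7md : List (List ℕ) := [[2, 2, 0, 2], [2, 0, 2, 2], [0, 2, 2, 2], [1, 0, 0, 0], [0, 1, 0, 0], [0, 0, 1, 0], [0, 0, 0, 1]]

/-- the matroid `P₈`. -/
def P8 : List (List ℕ) := [[1, 0, 0, 0], [0, 1, 0, 0], [0, 0, 1, 0], [0, 0, 0, 1], [0, 1, 1, 2], [1, 0, 1, 1], [1, 1, 0, 1], [2, 1, 1, 0]]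

/-- `M` is isomorphic to the vector matroid over `GF(3)` of the list of columns `A`. -/
def IsCopy {α : Type} (M : Matroid α) (A : List (List ℕ)) : Prop :=
  ∃ φ : Fin A.length → α, Function.Injective φ ∧ Set.range φ = M.E ∧
    ∀ I, M.Indep (φ '' I) ↔ LinearIndepOn (ZMod 3) (cols A) I

namespace F

def cA49 : CD := ⟨255, 120, 0x80000000000000000000000080000000000000000000000000, 0x7000000060000000500000003000000000000000000000000⟩

def cA52 : CD := ⟨255, 120, 0x8000000080000000000000000000000000, 0x7000000060000000500000003000000000000000000000000⟩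

def cA56 : CD := ⟨255, 120, 0x80000000000000000000000080000000000000000000000000, 0x7000000860000008500000003000000000000000000000000⟩

def cB172 : CD := ⟨1023, 248, 0x10200000100000001000000000000000300000000000000000000000000, 0x20100000207000000060000020500000003000000000000000000000000⟩

def cB172d : CD := ⟨1023, 31, 0x220000000e00000018000000180000000e0, 0x1c000000100000002400000000000000300⟩

def cF7m : CD := ⟨127, 7, 0x700000006800000058, 0x0⟩

def cF7md : CD := ⟨127, 120, 0x0, 0x7000000060000000500000003000000000000000000000000⟩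

def cP8 : CD := ⟨255, 15, 0x60000000b0000000d000000060, 0x10000000000000000000000080⟩

/-- displays of the five excluded minors (labelled as the columns of `A49`, ...). -/
def L5 : List (Disp F3) :=
  [cA49.toDisp, cA52.toDisp, cA56.toDisp, cB172.toDisp, cB172d.toDisp]

/-- displays of the non-Fano matroid, its dual and `P₈`. -/
def NL : List (Disp F3) := [cF7m.toDisp, cF7md.toDisp, cP8.toDisp]

end F

end Pool.Agent.Lib.MP_c69b6d_co
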