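import Pool.Agent.Lib.MP_c69b6d_co.F.Block

set_option synthInstance.maxSize 4096

namespace Pool.Agent.Lib.MP_c69b6d_co.F

open Finset Disp

namespace LemU

theorem div3 (x y : F3) : x / y = x * y := by
  rw [div_eq_mul_inv]
  congr 1
  by_cases h : y = 0
  · simp [h]
  · have : ∀ y : F3, y ≠ 0 → y * y = 1 := by decide
    exact (eq_inv_of_mul_eq_one_left (this y h)).symm

variable {E : Disp F3} {r s c d v : ℕ}

theorem sw1 (h : E.W4 r s c d) : E.W4 s r c d :=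
  ⟨h.2.2.1, h.2.2.2.1, h.1, h.2.1, fun e => h.2.2.2.2 (by linear_combination -e)⟩

theorem sw2 (h : E.W4 r s c d) : E.W4 r s d c :=
  ⟨h.2.1, h.1, h.2.2.2.1, h.2.2.1, h.2.2.2.2.symm⟩

theorem tr (h : E.W4 r s c d) : E.W4 c d r s :=
  ⟨S_ne_symm h.1, S_ne_symm h.2.2.1, S_ne_symm h.2.1, S_ne_symm h.2.2.2.1, fun e => h.2.2.2.2 (by
    rw [E.skew c r, E.skew d s, E.skew c s, E.skew d r] at e; linear_combination e)⟩

theorem ne12 (h : E.W4 r s c d) : r ≠ s := by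
  rintro rfl; exact h.2.2.2.2 (mul_comm _ _)

theorem row_same {x y z : ℕ} (h : E.S x z ≠ 0) (h' : E.S y z ≠ 0) : E.row x = E.row y := by
  have a := row_ne_of_S h
  have b := row_ne_of_S h'
  revert a b
  cases E.row x <;> cases E.row y <;> cases E.row z <;> simp

theorem zero_same {x y z : ℕ} (h : E.S x z ≠ 0) (h' : E.S y z ≠ 0) : E.S x y = 0 :=
  E.bip _ _ (row_same h h')

theorem S_x {x y i : ℕ} (h : E.S x y ≠ 0) (h1 : i ≠ x) (h2 : i ≠ y) :
    (E.pivot x y).S i x = -(E.S y i * E.S y x) := by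
  rw [pivot_S h, pS, if_neg h1, if_neg h2, if_pos rfl, div3]

theorem S_gen {x y i j : ℕ} (h : E.S x y ≠ 0) (h1 : i ≠ x) (h2 : i ≠ y) (h3 : j ≠ x)
    (h4 : j ≠ y) : (E.pivot x y).S i j =
      E.S i j - E.S i y * E.S x j * E.S x y - E.S i x * E.S y j * E.S y x := by
  rw [pivot_S_gen h h1 h2 h3 h4, div3, div3]

theorem piv (h : E.W4 r s c d) : (E.pivot r c).W4 c s r d := by
  have n1 := ne12 h
  have n2 := ne12 (tr h)
  have n3 := ne_of_S h.1
  have e1 : (E.pivot r c).S c r = -1 * E.S c r := by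
    rw [pivot_S h.1, pS, if_neg n3.symm, if_pos rfl, if_pos rfl, div3]
  have e2 : (E.pivot r c).S c d = E.S r d * E.S r c := by
    rw [pivot_S h.1, pS, if_neg n3.symm, if_pos rfl, if_neg (ne_of_S h.2.1).symm, if_neg n2.symm,
      div3]
  unfold W4 at h ⊢
  rw [e1, e2, S_x h.1 n1.symm (ne_of_S h.2.2.1),
    S_gen h.1 n1.symm (ne_of_S h.2.2.1) (ne_of_S h.2.1).symm n2.symm,
    zero_same h.2.2.1 h.1, E.skew c r, E.skew c s]
  revert h
  generalize E.S r c = a, E.S r d = b, E.S s c = e, E.S s d = f, E.S c d = g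
  revert a b e f g
  decide

/-- a unit at `c` replaces `c` after a pivot. -/
theorem unit (h : E.W4 r s c d) (hr : v ≠ r) (hs : v ≠ s) (h1 : E.S v c ≠ 0) (h2 : E.S v d = 0) :
    (E.pivot v c).W4 r s v d := by
  have n2 := ne12 (tr h)
  have n3 : d ≠ v := by
    rintro rfl
    exact h1 (zero_same (tr h).2.2.1 (tr h).1)
  unfold W4 at h ⊢
  rw [S_x h1 hr.symm (ne_of_S h.1), S_x h1 hs.symm (ne_of_S h.2.2.1),
    S_gen h1 hr.symm (ne_of_S h.1) n3 n2.symm, S_gen h1 hs.symm (ne_of_S h.2.2.1) n3 n2.symm,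
    h2, zero_same h.1 h1, zero_same h.2.2.1 h1, E.skew c r, E.skew c s, E.skew c v]
  revert h h1
  generalize E.S r c = a, E.S r d = b, E.S s c = e, E.S s d = f, E.S c d = g, E.S v c = k
  revert a b e f g k
  decide

theorem swap (h : E.W4 r s c d) (h1 : E.S v c ≠ 0 ∨ E.S v d ≠ 0) :
    E.W4 v s c d ∨ E.W4 r v c d ∨ (E.S v c ≠ 0 ∧ E.S v d = 0) ∨ (E.S v d ≠ 0 ∧ E.S v c = 0) := by
  unfold W4 at h ⊢
  revert h h1
  generalize E.S r c = a, E.S r d = b, E.S s c = e, E.S s d = f, E.S v d = g, E.S v c = k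
  revert a b e f g k
  decide

/-- two elements of a displayed `U_{2,4}` can be made its rows. -/
theorem rows2 {Z : Finset ℕ} (h : E.W4 r s c d) (hr : r ∈ Z) (hs : s ∈ Z) (hc : c ∈ Z)
    (hd : d ∈ Z) {T : Finset ℕ} (h1 : r ∈ T) (h2 : s ∈ T ∨ c ∈ T ∨ d ∈ T) :
    ∃ E' p q c' d', ReachIn Z E E' ∧ p ∈ T ∧ q ∈ T ∧ c' ∈ Z ∧ d' ∈ Z ∧ E'.row p = true ∧
      E'.W4 p q c' d' := by
  have k1 : ∀ {E : Disp F3} {r s c d : ℕ}, E.W4 r s c d → r ∈ Z → s ∈ Z → c ∈ Z → d ∈ Z → r ∈ T →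
      c ∈ T → ∃ E' p q c' d', ReachIn Z E E' ∧ p ∈ T ∧ q ∈ T ∧ c' ∈ Z ∧ d' ∈ Z ∧
        E'.row p = true ∧ E'.W4 p q c' d' := by
    intro E r s c d h hr hs hc hd h1 h2
    by_cases e : E.row r = true
    · refine ⟨_, r, c, s, d, ReachIn.single hs hc, h1, h2, hs, hd, ?_, sw1 (piv (sw1 h))⟩
      rw [pivot_row h.2.2.1, if_neg (by simp [ne12 h, ne_of_S h.1]), e]
    · refine ⟨_, c, r, d, s, ReachIn.single hd hr, h2, h1, hd, hs, ?_, sw1 (piv (sw1 (tr h)))⟩
      have := row_ne_of_S h.1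
      rw [pivot_row (S_ne_symm h.2.1), if_neg (by simp [ne12 (tr h), (ne_of_S h.1).symm])]
      revert e this
      cases E.row r <;> cases E.row c <;> simp
  rcases h2 with h2 | h2 | h2
  · by_cases e : E.row r = true
    · exact ⟨E, r, s, c, d, ReachIn.refl _ _, h1, h2, hc, hd, e, h⟩
    · obtain ⟨E', p, q, c', d', a, b⟩ := k1 (sw1 (piv h)) hs hc hr hd h2 h1
      exact ⟨E', p, q, c', d', (ReachIn.single hr hc).trans a, b⟩
  · exact k1 h hr hs hc hd h1 h2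
  · exact k1 (sw2 h) hr hs hd hc h1 h2

theorem engine {R : Disp F3} {T : Finset ℕ} {k : ℕ} (P : Disp F3 → Finset ℕ → Prop)
    (hT : T ⊆ R.Z)
    (h0 : ∀ E Y0, P E Y0 → R.Reach E ∧ Y0 ⊆ R.Z ∧ Disjoint Y0 T ∧ E.lam T Y0 = k ∧
      ∀ B, Y0 ⊆ B → B ⊆ R.Z → Disjoint B T → k < R.lam (R.Z \ B) B)
    (hs : ∀ E Y0, P E Y0 → ∀ z ∈ R.Z, z ∉ Y0 → z ∉ T → k < E.lam (insert z T) Y0 →
      ∃ E' Y0', P E' Y0' ∧ ReachIn (insert z Y0) E E' ∧ Y0' ⊆ insert z Y0 ∧
        ∀ A, T ⊆ A → Disjoint A (insert z Y0) → E.lam A Y0 ≤ k → k < E.lam A (insert z Y0) →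
          k < E'.lam A Y0') (E : Disp F3) (Y0 : Finset ℕ) : ¬ P E Y0 := by
  have main : ∀ n E Y0, P E Y0 → ¬ E.Blocking k Y0 T n := by
    intro n
    induction n using Nat.strong_induction_on with
    | _ n ih =>
      intro E Y0 hP hb
      obtain ⟨a1, -, a3, a4, -⟩ := h0 E Y0 hP
      rcases n with _ | n
      · obtain ⟨v, b1, b2⟩ := hb
        cases b2 with
        | last _ c1 c2 c3 c4 =>
          obtain ⟨E', Y0', d1, -, -, d4⟩ := hs E Y0 hP v (a1.Z_eq ▸ c1) c2 c3 (E.lam_symm _ _ ▸ b1)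
          have := d4 T Subset.rfl (disjoint_insert_right.2 ⟨c3, a3.symm⟩) a4.le
            (E.lam_symm _ _ ▸ c4)
          have := (h0 E' Y0' d1).2.2.2.1
          omega
      · have hmin : ∀ m ≤ n, ¬ E.Blocking k Y0 T m := fun m hm => ih m (by omega) E Y0 hP
        obtain ⟨v, w, c1, c2, c3, -, c5, -, c7, c8, -, c10, c11, c12⟩ := hb.cases hmin
        obtain ⟨E', Y0', d1, d2, d3, d4⟩ := hs E Y0 hP v (a1.Z_eq ▸ c1) c2 c3 (E.lam_symm _ _ ▸ c8)
        have e1 := d4 (insert w T) (subset_insert _ _) (by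
          simp only [disjoint_insert_left, disjoint_insert_right, mem_insert, not_or]
          exact ⟨⟨c7, c3⟩, c5, a3.symm⟩) (E.lam_symm _ _ ▸ c10) (E.lam_symm _ _ ▸ c11)
        exact ih n (by omega) E' Y0' d1 (shorten a3 c1 c2 c3 c8 c12 hmin d2 d3
          (E'.lam_symm _ _ ▸ (h0 E' Y0' d1).2.2.2.1.ge) (E'.lam_symm _ _ ▸ e1))
  intro hP
  obtain ⟨a1, a2, a3, a4, a5⟩ := h0 E Y0 hP
  rcases exists_blocking (a1.Z_eq ▸ a2) (a1.Z_eq ▸ hT) a3 (E.lam_symm _ _ ▸ a4) with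
    ⟨X, Y, b1, b2, b3, b4, b5⟩ | ⟨n, hn⟩
  · rw [a1.Z_eq] at b1
    have c1 := a5 X b3 (b1 ▸ subset_union_left) (b2.mono_right b4)
    have c2 : R.Z \ X = Y := by rw [← b1, union_sdiff_cancel_left b2]
    rw [c2, lam_symm, ← ReachIn.lam_eq a1 b2 b1.ge] at c1
    omega
  · exact main n E Y0 hP hn

/-- the hypotheses of `lemmaU` which describe the triangle. -/
structure Hyp (R : Disp F3) (Y : Finset ℕ) (t1 t2 t3 : ℕ) : Prop where
  hZ : R.Z = Y ∪ {t1, t2, t3}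
  n1 : t1 ∉ Y
  n2 : t2 ∉ Y
  n3 : t3 ∉ Y
  n12 : t1 ≠ t2
  s13 : R.S t1 t3 = 1
  s23 : R.S t2 t3 = -1
  s3 : ∀ j ∈ Y, R.S j t3 = 0
  c3 : R.row t3 = false
  h4 : ¬ Real4 (R.restrict (Y ∪ {t1, t2})) t1 t2

variable {R : Disp F3} {Y : Finset ℕ} {t1 t2 t3 : ℕ}

theorem Hyp.word (H : Hyp R Y t1 t2 t3) : ∃ d0 ∈ R.flip.code, d0 t1 = -1 ∧ d0 t2 = 1 ∧
    d0 t3 = 1 ∧ ∀ i, i ∉ ({t1, t2, t3} : Finset ℕ) → d0 i = 0 := by
  have n13 : t1 ≠ t3 := ne_of_S (D := R) (by rw [H.s13]; decide)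
  have n23 : t2 ≠ t3 := ne_of_S (D := R) (by rw [H.s23]; decide)
  refine ⟨_, col_word (j := t3) (by simp [H.hZ]) H.c3, ?_, ?_, if_pos rfl, fun i hi => ?_⟩
  · simp only [H.hZ, n13, R.skew t3 t1, H.s13]; simp
  · simp only [H.hZ, n23, R.skew t3 t2, H.s23]; simp
  · simp only [mem_insert, mem_singleton, not_or] at hi
    simp only [hi.2.2, if_false]
    split_ifs with h
    · rw [R.skew, H.s3 i (by simpa [H.hZ, hi] using h), neg_zero]
    · rfl

/-- a dual word which vanishes on the columns is zero. -/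
theorem zero_cols {e : ℕ → F3} (he : e ∈ E.flip.code)
    (h : ∀ i ∈ E.Z, E.row i = false → e i = 0) : e = 0 :=
  code_zero he fun i hi => h i (mem_B.1 hi).1 (by simpa [Disp.flip] using (mem_B.1 hi).2)

theorem Hyp.three (H : Hyp R Y t1 t2 t3) (hE : R.Reach E) {p q : ℕ}
    (hp : p ∈ ({t1, t2, t3} : Finset ℕ)) (hq : q ∈ ({t1, t2, t3} : Finset ℕ)) (hc : c ∈ R.Z)
    (hd : d ∈ R.Z) (rp : E.row p = true) (h : E.W4 p q c d) : False := by
  obtain ⟨d0, m0, e1, e2, e3, e4⟩ := H.word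
  have n13 : t1 ≠ t3 := ne_of_S (D := R) (by rw [H.s13]; decide)
  have n23 : t2 ≠ t3 := ne_of_S (D := R) (by rw [H.s23]; decide)
  have n12 := H.n12
  have rq : E.row q = true := row_same h.1 h.2.2.1 ▸ rp
  have hZ := hE.Z_eq
  have hC := hE.flip_code_eq
  have nz : ∀ i ∈ ({t1, t2, t3} : Finset ℕ), d0 i * d0 i = 1 := by
    intro i hi
    simp only [mem_insert, mem_singleton] at hi
    rcases hi with rfl | rfl | rfl <;> simp [e1, e2, e3]
  obtain ⟨k, hk, hk'⟩ : ∃ k ∈ ({t1, t2, t3} : Finset ℕ), k ≠ p ∧ k ≠ q ∧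
      ∀ i ∈ ({t1, t2, t3} : Finset ℕ), i = p ∨ i = q ∨ i = k := by
    have := ne12 h
    simp only [mem_insert, mem_singleton] at hp hq ⊢
    by_cases a : t1 ≠ p ∧ t1 ≠ q
    · exact ⟨t1, by simp, a.1, a.2, fun i hi => by omega⟩
    by_cases b : t2 ≠ p ∧ t2 ≠ q
    · exact ⟨t2, by simp, b.1, b.2, fun i hi => by omega⟩
    · exact ⟨t3, by simp, by omega, by omega, fun i hi => by omega⟩
  have z0 : ∀ i, E.row i = false → i ≠ k → d0 i = 0 := fun i hi hik => e4 i fun hT => by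
    rcases hk'.2.2 i hT with rfl | rfl | rfl
    · simp [rp] at hi
    · simp [rq] at hi
    · exact hik rfl
  obtain ⟨w, hw, w1, w2, w3⟩ : ∃ w ∈ E.Z, E.S w p ≠ 0 ∧ E.S w q ≠ 0 ∧
      E.S w p * d0 q ≠ E.S w q * d0 p := by
    have h' := tr h
    have : E.S c p * d0 q ≠ E.S c q * d0 p ∨ E.S d p * d0 q ≠ E.S d q * d0 p := by
      have a := nz p hp
      unfold W4 at h'
      revert h' a
      generalize E.S c p = a, E.S c q = b, E.S d p = e, E.S d q = f, d0 p = g, d0 q = k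
      revert a b e f g k
      decide
    rcases this with a | a
    · exact ⟨c, hZ ▸ hc, h'.1, h'.2.1, a⟩
    · exact ⟨d, hZ ▸ hd, h'.2.2.1, h'.2.2.2.1, a⟩
  have rw' : E.row w = false := by
    have := row_ne_of_S w1
    revert this rp
    cases E.row w <;> cases E.row p <;> simp
  have hT : ∀ i ∈ ({t1, t2, t3} : Finset ℕ), i ∈ E.Z := fun i hi => by
    rw [hZ, H.hZ]; exact mem_union_right _ hi
  obtain ⟨u, mu, u0, up, uq, uc⟩ : ∃ u ∈ E.flip.code, u w = 1 ∧ u p = E.S w p ∧ u q = E.S w q ∧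
      ∀ i, E.row i = false → i ≠ w → u i = 0 :=
    ⟨_, col_word hw rw', if_pos rfl, by simp [(ne_of_S w1).symm, hT p hp],
      by simp [(ne_of_S w2).symm, hT q hq], fun i hi hiw => by
        simp [hiw, E.bip w i (rw'.trans hi.symm)]⟩
  rw [← hC] at m0
  have rk : E.row k = false := by
    by_contra a
    have := zero_cols m0 fun i _ hi => z0 i hi fun e => a (e ▸ hi)
    simp [this] at e3
  have wk : w ≠ k := by
    rintro rfl
    have a := zero_cols (sub_mem mu (Submodule.smul_mem _ (d0 w) m0)) fun i _ hi => by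
      by_cases e : i = w
      · simp [e, u0, nz w hk]
      · simp [uc i hi e, z0 i hi e]
    have b := congrFun a p
    have c := congrFun a q
    simp only [Pi.sub_apply, Pi.smul_apply, smul_eq_mul, Pi.zero_apply, up, uq] at b c
    exact w3 (by linear_combination d0 q * b - d0 p * c)
  have uk := uc k rk wk.symm
  have key : u t1 + u t3 ≠ 0 ∧ u t2 - u t3 = u t1 + u t3 := by
    rw [← up, ← uq] at w3
    rw [← up] at w1
    rw [← uq] at w2
    obtain ⟨a, b, -⟩ := hk'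
    have := ne12 h
    simp only [mem_insert, mem_singleton] at hp hq hk
    rcases hp with rfl | rfl | rfl <;> rcases hq with rfl | rfl | rfl <;>
      rcases hk with rfl | rfl | rfl <;> first
      | contradiction
      | (simp only [e1, e2, e3] at w3
         rw [uk]
         revert w1 w2 w3
         generalize u p = x, u q = y
         revert x y
         decide)
  have hU : Y ∪ {t1, t2} ⊆ R.flip.Z := by
    change _ ⊆ R.Z
    rw [H.hZ]
    exact union_subset_union_right (by simp [insert_subset_iff])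
  have m1 := sub_mem mu (Submodule.smul_mem _ (u t3) m0)
  refine H.h4 ⟨u - u t3 • d0, ?_, by simpa [e1] using key.1, by simpa [e1, e2] using key.2,
    fun d' hd' a1 a2 => ?_⟩
  · rw [flip_restrict]
    refine mem_code_restrict_of_supp hU (hC ▸ m1) fun i hi => ?_
    by_cases e : i = t3
    · simp [e, e3]
    · refine m1.1 i fun a => hi ?_
      change i ∈ E.Z at a
      rw [hZ, H.hZ] at a
      simpa [e] using a
  · rw [flip_restrict] at hd'
    have m2 : d' ∈ E.flip.code := hC ▸ mem_code_of_restrict hU (fun i hi hi' => by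
      have : i = t3 := by
        change i ∈ R.Z at hi
        rw [H.hZ] at hi
        simp only [mem_union, mem_insert, mem_singleton] at hi hi'
        tauto
      simp [this, Disp.flip, H.c3]) hd'
    have a := zero_cols (sub_mem (sub_mem m2 (Submodule.smul_mem _ (d' w) mu))
      (Submodule.smul_mem _ (d' k * d0 k) m0)) fun i _ hi => by
        by_cases e : i = w
        · simp [e, u0, z0 w rw' wk]
        by_cases e' : i = k
        · simp [e', uk, mul_assoc, nz k hk]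
        · simp [uc i hi e, z0 i hi e', a2 i (by simp [uc i hi e, z0 i hi e'])]
    have b := congrFun a t1
    have c := congrFun a t3
    simp only [Pi.sub_apply, Pi.smul_apply, smul_eq_mul, Pi.zero_apply, a1, e1, e3,
      a2 t3 (by simp [e3])] at b c
    have f : d' w = 0 := (mul_eq_zero.1 (show d' w * (u t1 + u t3) = 0 by
      linear_combination -b - c)).resolve_right key.1
    have g : d' k * d0 k = 0 := by rw [f] at c; linear_combination -c
    simpa [f, g] using a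

theorem Hyp.two (H : Hyp R Y t1 t2 t3) (hE : R.Reach E) (h : E.W4 r s c d) (hr : r ∈ R.Z)
    (hs : s ∈ R.Z) (hc : c ∈ R.Z) (hd : d ∈ R.Z) (h1 : r ∈ ({t1, t2, t3} : Finset ℕ))
    (h2 : s ∈ ({t1, t2, t3} : Finset ℕ) ∨ c ∈ ({t1, t2, t3} : Finset ℕ) ∨
      d ∈ ({t1, t2, t3} : Finset ℕ)) : False := by
  obtain ⟨E', p, q, c', d', a1, a2, a3, a4, a5, a6, a7⟩ := rows2 h hr hs hc hd h1 h2
  exact H.three (ReachIn.trans hE a1) a2 a3 a4 a5 a6 a7

theorem lt_lam {A B : Finset ℕ} {i i' j j' : ℕ} (hi : i ∈ A) (hi' : i' ∈ A) (hj : j ∈ B)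
    (hj' : j' ∈ B) (h : E.S i j * E.S i' j' ≠ E.S i j' * E.S i' j) : 1 < E.lam A B :=
  not_le.1 fun e => h (det_two_of_lam e hi hi' hj hj')

theorem pos_lam {A B : Finset ℕ} : 0 < E.lam A B ↔ ∃ i ∈ A, ∃ j ∈ B, E.S i j ≠ 0 := by
  rw [Nat.pos_iff_ne_zero, Ne, lam_eq_zero_iff]
  push Not
  rfl

/-- the row of `a` on `s, c, d` is a multiple of the row of `r`. -/
def Mul (E : Disp F3) (r s c d a : ℕ) : Prop :=
  ∀ j ∈ ({s, c, d} : Finset ℕ), E.S a j = E.S a c * E.S r c * E.S r j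

/-- the conclusion of a swap which keeps `r`. -/
def Sw (E : Disp F3) (r s c d v : ℕ) : Prop :=
  ∃ E' s' c' d', ReachIn {v, s, c, d} E E' ∧ E'.W4 r s' c' d' ∧
    ({s', c', d'} : Finset ℕ) ⊆ {v, s, c, d} ∧ v ∈ ({s', c', d'} : Finset ℕ) ∧
    ∀ a, a ∉ ({v, s, c, d} : Finset ℕ) → Mul E r s c d a →
      E.S a v ≠ E.S a c * E.S r c * E.S r v →
      ∃ j ∈ ({s', c', d'} : Finset ℕ), ∃ j' ∈ ({s', c', d'} : Finset ℕ),
        E'.S a j * E'.S r j' ≠ E'.S a j' * E'.S r j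

theorem Mul.iff : Mul E r s c d v ↔ E.S v s = E.S v c * E.S r c * E.S r s ∧
    E.S v c = E.S v c * E.S r c * E.S r c ∧ E.S v d = E.S v c * E.S r c * E.S r d := by
  simp only [Mul, mem_insert, mem_singleton, forall_eq_or_imp, forall_eq]

theorem swap1 (h : E.W4 r s c d) (hr : v ≠ r) (hs : v ≠ s) (hc : v ≠ c) (hd : v ≠ d)
    (hm : ¬ Mul E r s c d v) : Sw E r s c d v := by
  have z1 := zero_same h.1 h.2.2.1
  have hrc := h.1
  have hrd := h.2.1
  by_cases h1 : E.S v c ≠ 0 ∨ E.S v d ≠ 0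
  · have z2 : E.S v s = 0 := h1.elim (zero_same · h.2.2.1) (zero_same · h.2.2.2.1)
    have z3 : E.S r v = 0 := h1.elim (zero_same h.1) (zero_same h.2.1)
    by_cases h2 : E.W4 r v c d
    · refine ⟨E, v, c, d, ReachIn.refl _ _, h2, by simp [insert_subset_iff], by simp,
        fun a _ _ ha => ⟨v, by simp, c, by simp, ?_⟩⟩
      rw [z3] at ha ⊢
      simpa [hrc] using ha
    rcases swap h h1 with h3 | h3 | h3 | h3
    · refine (hm (Mul.iff.2 ?_)).elim
      unfold W4 at h2 h3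
      rw [z1, z2]
      revert h2 h3 hrc hrd
      generalize E.S r c = a, E.S r d = b, E.S s c = e, E.S s d = f, E.S v d = g, E.S v c = k
      revert a b e f g k
      decide
    · exact (h2 h3).elim
    · have h4 := unit h hr hs h3.1 h3.2
      refine ⟨_, s, v, d, ReachIn.single (by simp) (by simp), h4, by simp [insert_subset_iff],
        by simp, fun a a1 a2 a3 => ⟨s, by simp, d, by simp, ?_⟩⟩
      simp only [mem_insert, mem_singleton, not_or] at a1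
      rw [z3, mul_zero] at a3
      have a4 := zero_same a3 (S_ne_symm h3.1)
      rw [zero_same h4.1 h4.2.2.1, mul_zero, S_gen h3.1 a1.1 a1.2.2.1 hs.symm
        (ne_of_S h.2.2.1), (Mul.iff.1 a2).1, a4]
      simpa [a3, S_ne_symm h.2.2.1, S_ne_symm h3.1] using h4.2.1
    · have h4 := sw2 (unit (sw2 h) hr hs h3.1 h3.2)
      refine ⟨_, s, c, v, ReachIn.single (by simp) (by simp), h4, by simp [insert_subset_iff],
        by simp, fun a a1 a2 a3 => ⟨s, by simp, c, by simp, ?_⟩⟩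
      simp only [mem_insert, mem_singleton, not_or] at a1
      rw [z3, mul_zero] at a3
      have a4 := zero_same a3 (S_ne_symm h3.1)
      rw [zero_same h4.1 h4.2.2.1, mul_zero, S_gen h3.1 a1.1 a1.2.2.2 hs.symm
        (ne_of_S h.2.2.2.1), (Mul.iff.1 a2).1, a4, z1]
      simpa [a3, S_ne_symm h.2.2.2.1, S_ne_symm h3.1] using h4.1
  · simp only [not_or, not_not] at h1
    have h2 : E.S v s ≠ 0 := fun e => hm (Mul.iff.2 (by simp [e, h1.1, h1.2]))
    rcases swap (tr h) (Or.inr h2) with h3 | h3 | h3 | h3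
    · refine ⟨E, s, v, d, ReachIn.refl _ _, tr h3, by simp [insert_subset_iff], by simp,
        fun a _ a2 a3 => ⟨v, by simp, d, by simp, fun e => a3 ?_⟩⟩
      rw [(Mul.iff.1 a2).2.2] at e
      exact mul_right_cancel₀ hrd (by linear_combination e)
    · refine ⟨E, s, c, v, ReachIn.refl _ _, tr h3, by simp [insert_subset_iff], by simp,
        fun a _ a2 a3 => ⟨v, by simp, c, by simp, fun e => a3 ?_⟩⟩
      rw [(Mul.iff.1 a2).2.1] at e
      exact mul_right_cancel₀ hrc (by linear_combination e)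
    · exact (h2 h3.2).elim
    · have h4 := tr (sw2 (unit (sw2 (tr h)) hc hd h3.1 h3.2))
      refine ⟨_, v, c, d, ReachIn.single (by simp) (by simp), h4, by simp [insert_subset_iff],
        by simp, fun a a1 a2 a3 => ⟨c, by simp, d, by simp, ?_⟩⟩
      simp only [mem_insert, mem_singleton, not_or] at a1
      have z3 : E.S r v = 0 := by rw [E.skew, h3.2, neg_zero]
      rw [z3, mul_zero] at a3
      have n1 := (ne_of_S h.2.2.1).symm
      have n2 := (ne_of_S h.2.2.2.1).symm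
      have b2 := (Mul.iff.1 a2).2.2
      have b3 := S_ne_symm h2
      rw [S_gen h2 a1.1 a1.2.1 hc.symm n1, S_gen h2 a1.1 a1.2.1 hd.symm n2,
        S_gen h2 hr.symm (ne12 h) hc.symm n1, S_gen h2 hr.symm (ne12 h) hd.symm n2, h1.1, h1.2,
        z3, b2]
      simp only [mul_zero, zero_mul, sub_zero]
      unfold W4 at h
      revert h a3 b3
      generalize E.S r c = a, E.S r d = b, E.S s c = e, E.S s d = f, E.S a v = g, E.S s v = k,
        E.S a c = l
      revert a b e f g k l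
      decide

theorem Hyp.one (H : Hyp R Y t1 t2 t3)
    (hc1 : ∀ B ⊆ Y, 2 ≤ B.card → 2 ≤ R.lam (R.Z \ B) B) (hE : R.Reach E) (h : E.W4 r s c d)
    (hs : s ∈ R.Z) (hc : c ∈ R.Z) (hd : d ∈ R.Z) (h1 : r ∈ ({t1, t2, t3} : Finset ℕ)) : False := by
  set T : Finset ℕ := {t1, t2, t3}
  have hT : T ⊆ R.Z := by rw [H.hZ]; exact subset_union_right
  let P : Disp F3 → Finset ℕ → Prop := fun E Y0 => R.Reach E ∧ Y0 ⊆ R.Z ∧
    ∃ s c d, E.W4 r s c d ∧ Y0 = {s, c, d}
  have dis : ∀ {E : Disp F3} {s c d : ℕ}, R.Reach E → ({s, c, d} : Finset ℕ) ⊆ R.Z →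
      E.W4 r s c d → Disjoint {s, c, d} T := fun a b e => by
    simp only [insert_subset_iff, singleton_subset_iff] at b
    have := H.two a e (hT h1) b.1 b.2.1 b.2.2 h1
    simp only [disjoint_insert_left, disjoint_singleton_left]
    tauto
  have nxt : ∀ {E E' : Disp F3} {v s c d : ℕ}, R.Reach E → ({s, c, d} : Finset ℕ) ⊆ R.Z →
      v ∈ R.Z → ReachIn {v, s, c, d} E E' → R.Reach E' := fun a b e f =>
    ReachIn.trans a (f.mono (insert_subset e b))
  have mul : ∀ {E : Disp F3} {s c d : ℕ}, R.Reach E → ({s, c, d} : Finset ℕ) ⊆ R.Z →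
      E.W4 r s c d → ∀ t ∈ T, Mul E r s c d t := by
    intro E s c d a b e t ht
    by_contra hm
    have f := disjoint_right.1 (dis a b e) ht
    simp only [mem_insert, mem_singleton, not_or] at f
    have g : t ≠ r := by
      rintro rfl
      refine hm fun j _ => ?_
      have : ∀ x y : F3, x ≠ 0 → y = x * x * y := by decide
      exact this _ _ e.1
    obtain ⟨E', s', c', d', k1, k2, k3, k4, -⟩ := swap1 e g f.1 f.2.1 f.2.2 hm
    exact disjoint_left.1 (dis (nxt a b (hT ht) k1) (k3.trans (insert_subset (hT ht) b)) k2) k4 ht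
  refine engine (k := 1) P hT ?_ ?_ E {s, c, d}
    ⟨hE, by simp [insert_subset_iff, hs, hc, hd], s, c, d, h, rfl⟩
  · rintro E _ ⟨a, b, s, c, d, e, rfl⟩
    refine ⟨a, b, dis a b e, le_antisymm (lam_le_one (fun i => E.S i c * E.S r c) (E.S r)
      (mul a b e)) (pos_lam.2 ⟨r, h1, c, by simp, e.1⟩), fun B f g k => hc1 B (fun i hi => ?_)
      (one_lt_card.2 ⟨c, f (by simp), d, f (by simp), ne12 (tr e)⟩)⟩
    exact (mem_union.1 (H.hZ ▸ g hi)).resolve_right (disjoint_left.1 k hi)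
  · rintro E _ ⟨a, b, s, c, d, e, rfl⟩ z z1 z2 z3 z4
    simp only [mem_insert, mem_singleton, not_or] at z2
    obtain ⟨E', s', c', d', k1, k2, k3, -, k5⟩ := swap1 (v := z) e (fun f => z3 (f ▸ h1)) z2.1
      z2.2.1 z2.2.2 fun hm => not_le.2 z4 (lam_le_one (fun i => E.S i c * E.S r c) (E.S r)
        (forall_mem_insert _ _ _ |>.2 ⟨hm, mul a b e⟩))
    refine ⟨E', _, ⟨nxt a b z1 k1, k3.trans (insert_subset z1 b), s', c', d', k2, rfl⟩, k1, k3,
      fun A A1 A2 A3 A4 => ?_⟩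
    have m : ∀ i ∈ A, Mul E r s c d i := fun i hi j hj => by
      have f := det_two_of_lam A3 hi (A1 h1) hj (show c ∈ _ by simp)
      have : ∀ x : F3, x ≠ 0 → x * x = 1 := by decide
      linear_combination E.S r c * f - E.S i j * this _ e.1
    by_contra hn
    refine not_le.2 A4 (lam_le_one (fun i => E.S i c * E.S r c) (E.S r) fun i hi => ?_)
    refine (forall_mem_insert _ _ _).2 ⟨?_, m i hi⟩
    by_contra f
    obtain ⟨j, hj, j', hj', g⟩ := k5 i (disjoint_left.1 A2 hi) (m i hi) f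
    exact hn (lt_lam hi (A1 h1) hj hj' g)

/-- the conclusion of a swap. -/
def Sw0 (E : Disp F3) (N : Finset ℕ) (v : ℕ) : Prop :=
  ∃ E' s' c' d', ReachIn (insert v N) E E' ∧ E'.W4 v s' c' d' ∧ ({s', c', d'} : Finset ℕ) ⊆ N ∧
    ∀ a, a ∉ insert v N → (∀ j ∈ N, E.S a j = 0) → E.S a v ≠ 0 →
      ∃ j ∈ ({v, s', c', d'} : Finset ℕ), E'.S a j ≠ 0

theorem swap0 {N : Finset ℕ} (h : E.W4 r s c d) (hN : ∀ j, j ∈ N ↔ j = r ∨ j = s ∨ j = c ∨ j = d)
    (hv : v ∉ N) (h1 : ∃ j ∈ N, E.S v j ≠ 0) : Sw0 E N v := by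
  have k1 : ∀ {r s c d : ℕ}, E.W4 r s c d → r ∈ N → s ∈ N → c ∈ N → d ∈ N → E.S v c ≠ 0 →
      E.S v d = 0 → Sw0 E N v := by
    intro r s c d h hr hs hc hd h1 h2
    have n1 : v ≠ r := fun e => hv (e ▸ hr)
    refine ⟨_, d, r, s, ReachIn.single (by simp) (mem_insert_of_mem hc),
      tr (unit h n1 (fun e => hv (e ▸ hs)) h1 h2), by simp [insert_subset_iff, hr, hs, hd],
      fun a a1 a2 a3 => ⟨r, by simp, ?_⟩⟩
    rw [S_gen h1 (fun e => a1 (by simp [e])) (fun e => a1 (by simp [e, hc])) n1.symm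
      (ne_of_S h.1), a2 r hr, a2 c hc]
    simp [a3, S_ne_symm h.1, S_ne_symm h1]
  have k2 : ∀ {r s c d : ℕ}, E.W4 r s c d → r ∈ N → s ∈ N → c ∈ N → d ∈ N →
      E.S v c ≠ 0 ∨ E.S v d ≠ 0 → Sw0 E N v := by
    intro r s c d h hr hs hc hd h1
    rcases swap h h1 with h3 | h3 | h3 | h3
    · exact ⟨E, s, c, d, ReachIn.refl _ _, h3, by simp [insert_subset_iff, hs, hc, hd],
        fun a _ _ a3 => ⟨v, by simp, a3⟩⟩
    · exact ⟨E, r, c, d, ReachIn.refl _ _, sw1 h3, by simp [insert_subset_iff, hr, hc, hd],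
        fun a _ _ a3 => ⟨v, by simp, a3⟩⟩
    · exact k1 h hr hs hc hd h3.1 h3.2
    · exact k1 (sw2 h) hr hs hd hc h3.1 h3.2
  have hr := (hN r).2 (by simp)
  have hs := (hN s).2 (by simp)
  have hc := (hN c).2 (by simp)
  have hd := (hN d).2 (by simp)
  obtain ⟨j, hj, h1⟩ := h1
  rcases (hN j).1 hj with rfl | rfl | rfl | rfl
  · exact k2 (tr h) hc hd hr hs (Or.inl h1)
  · exact k2 (tr h) hc hd hr hs (Or.inr h1)
  · exact k2 h hr hs hc hd (Or.inl h1)
  · exact k2 h hr hs hc hd (Or.inr h1)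

theorem Hyp.zero (H : Hyp R Y t1 t2 t3) (hc0 : ∀ B ⊆ Y, B.Nonempty → 1 ≤ R.lam (R.Z \ B) B)
    (hc1 : ∀ B ⊆ Y, 2 ≤ B.card → 2 ≤ R.lam (R.Z \ B) B) (hE : R.Reach E) (h : E.W4 r s c d)
    (hr : r ∈ R.Z) (hs : s ∈ R.Z) (hc : c ∈ R.Z) (hd : d ∈ R.Z) : False := by
  set T : Finset ℕ := {t1, t2, t3}
  have hT : T ⊆ R.Z := by rw [H.hZ]; exact subset_union_right
  let P : Disp F3 → Finset ℕ → Prop := fun E Y0 => R.Reach E ∧ Y0 ⊆ R.Z ∧
    ∃ r s c d, E.W4 r s c d ∧ Y0 = {r, s, c, d}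
  have dis : ∀ {E : Disp F3} {r s c d : ℕ}, R.Reach E → ({r, s, c, d} : Finset ℕ) ⊆ R.Z →
      E.W4 r s c d → Disjoint {r, s, c, d} T := fun a b e => by
    simp only [insert_subset_iff, singleton_subset_iff] at b
    simp only [disjoint_insert_left, disjoint_singleton_left]
    exact ⟨H.one hc1 a e b.2.1 b.2.2.1 b.2.2.2, H.one hc1 a (sw1 e) b.1 b.2.2.1 b.2.2.2,
      H.one hc1 a (tr e) b.2.2.2 b.1 b.2.1, H.one hc1 a (sw1 (tr e)) b.2.2.1 b.1 b.2.1⟩
  have nxt : ∀ {E E' : Disp F3} {v : ℕ} {N : Finset ℕ}, R.Reach E → N ⊆ R.Z →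
      v ∈ R.Z → ReachIn (insert v N) E E' → R.Reach E' := fun a b e f =>
    ReachIn.trans a (f.mono (insert_subset e b))
  have nul : ∀ {E : Disp F3} {r s c d : ℕ}, R.Reach E → ({r, s, c, d} : Finset ℕ) ⊆ R.Z →
      E.W4 r s c d → ∀ t ∈ T, ∀ j ∈ ({r, s, c, d} : Finset ℕ), E.S t j = 0 := by
    intro E r s c d a b e t ht j hj
    by_contra hm
    obtain ⟨E', s', c', d', k1, k2, k3, -⟩ :=
      swap0 e (by simp) (disjoint_right.1 (dis a b e) ht) ⟨j, hj, hm⟩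
    exact disjoint_left.1 (dis (nxt a b (hT ht) k1) (insert_subset (hT ht) (k3.trans b)) k2)
      (by simp) ht
  refine engine (k := 0) P hT ?_ ?_ E {r, s, c, d}
    ⟨hE, by simp [insert_subset_iff, hr, hs, hc, hd], r, s, c, d, h, rfl⟩
  · rintro E _ ⟨a, b, r, s, c, d, e, rfl⟩
    refine ⟨a, b, dis a b e, lam_eq_zero_iff.2 (nul a b e), fun B f g k => hc0 B (fun i hi => ?_)
      ⟨r, f (by simp)⟩⟩
    exact (mem_union.1 (H.hZ ▸ g hi)).resolve_right (disjoint_left.1 k hi)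
  · rintro E _ ⟨a, b, r, s, c, d, e, rfl⟩ z z1 z2 - z4
    obtain ⟨i, hi, j, hj, z5⟩ := pos_lam.1 z4
    obtain rfl : i = z := (mem_insert.1 hi).resolve_right fun f => z5 (nul a b e i f j hj)
    obtain ⟨E', s', c', d', k1, k2, k3, k5⟩ := swap0 e (by simp) z2 ⟨j, hj, z5⟩
    refine ⟨E', _, ⟨nxt a b z1 k1, insert_subset z1 (k3.trans b), i, s', c', d', k2, rfl⟩, k1,
      insert_subset_insert _ k3, fun A _ A2 A3 A4 => ?_⟩
    obtain ⟨x, hx, y, hy, f⟩ := pos_lam.1 A4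
    have m := lam_eq_zero_iff.1 (Nat.le_zero.1 A3) x hx
    obtain rfl : y = i := (mem_insert.1 hy).resolve_right fun g => f (m y g)
    exact pos_lam.2 ⟨x, hx, k5 x (disjoint_left.1 A2 hx) m f⟩

end LemU

/-- if the fourth point is not realised then `R` has no `U_{2,4}` minor. -/
theorem lemmaU {R : Disp F3} {Y : Finset ℕ} {t1 t2 t3 : ℕ} (hZ : R.Z = Y ∪ {t1, t2, t3})
    (n1 : t1 ∉ Y) (n2 : t2 ∉ Y) (n3 : t3 ∉ Y) (n12 : t1 ≠ t2) (r1 : R.row t1 = true)
    (r2 : R.row t2 = true) (s13 : R.S t1 t3 = 1) (s23 : R.S t2 t3 = -1)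
    (s3 : ∀ j ∈ Y, R.S j t3 = 0)
    (hc0 : ∀ B ⊆ Y, B.Nonempty → 1 ≤ R.lam (R.Z \ B) B)
    (hc1 : ∀ B ⊆ Y, 2 ≤ B.card → 2 ≤ R.lam (R.Z \ B) B)
    (h4 : ¬ Real4 (R.restrict (Y ∪ {t1, t2})) t1 t2) : NoW4 R R.Z := by
  have c3 : R.row t3 = false := by
    have := row_ne_of_S (D := R) (x := t1) (y := t3) (by rw [s13]; decide)
    rw [r1] at this
    simpa using this
  exact fun E hE r hr s hs c hc d hd h => LemU.Hyp.zero
    ⟨hZ, n1, n2, n3, n12, s13, s23, s3, c3, h4⟩ hc0 hc1 hE h hr hs hc hd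

/-- the version used for a normal form of a 3-connected display. -/
theorem noW4_of_nf {D R : Disp F3} {X Y : Finset ℕ} {q1 q2 : ℕ → F3} {t1 t2 t3 : ℕ}
    (hD : D.Conn3) (nf : NF D R X Y q1 q2 t1 t2 t3)
    (h4 : ¬ Real4 (R.restrict (Y ∪ {t1, t2})) t1 t2) : NoW4 R R.Z := by
  obtain ⟨x1, m1, x2, m2, hx⟩ := nf.ind
  have k1 : ∀ B ⊆ Y, D.lam (D.Z \ B) B ≤ R.lam (R.Z \ B) B := fun B hB => by
    refine lam_le_of_rows fun i hi => ?_
    rw [nf.dZ, mem_sdiff, mem_union] at hi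
    rcases hi.1 with h | h
    · refine ⟨fun k => (if k = t1 then q1 i else 0) + if k = t2 then q2 i else 0, fun j hj => ?_⟩
      have a1 : t1 ∈ R.Z \ B := by simpa [nf.rZ] using fun e => nf.n1 (hB e)
      have a2 : t2 ∈ R.Z \ B := by simpa [nf.rZ] using fun e => nf.n2 (hB e)
      simp only [add_mul, ite_mul, zero_mul, sum_add_distrib, sum_ite_eq', a1, a2, if_true]
      exact nf.ent i h j (hB hj)
    · refine ⟨fun k => if k = i then 1 else 0, fun j hj => ?_⟩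
      have a1 : i ∈ R.Z \ B := by simp [nf.rZ, h, hi.2]
      simp only [ite_mul, zero_mul, one_mul, sum_ite_eq', a1, if_true]
      exact (nf.agree.2 i h j (hB hj)).symm
  have k2 : ∀ B ⊆ Y, D.Z \ (D.Z \ B) = B := fun B hB =>
    Finset.sdiff_sdiff_eq_self (by rw [nf.dZ]; exact hB.trans subset_union_right)
  have k3 : ∀ B ⊆ Y, ∀ x ∈ X, x ∈ D.Z \ B := fun B hB x hx => by
    simpa [nf.dZ, hx] using fun e => disjoint_left.1 nf.disj hx (hB e)
  refine lemmaU nf.rZ nf.n1 nf.n2 nf.n3 nf.n12 nf.r1 nf.r2 nf.s13 nf.s23 nf.s3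
    (fun B hB h => le_trans ?_ (k1 B hB)) (fun B hB h => le_trans ?_ (k1 B hB)) h4
  · have := (hD (D.Z \ B) sdiff_subset).1 ⟨x1, k3 B hB x1 m1⟩
    rw [k2 B hB] at this
    exact this h
  · have := (hD (D.Z \ B) sdiff_subset).2 (one_lt_card.2 ⟨x1, k3 B hB x1 m1, x2, k3 B hB x2 m2,
      by rintro rfl; exact hx rfl⟩)
    rw [k2 B hB] at this
    exact this h

end Pool.Agent.Lib.MP_c69b6d_co.F
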