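import Pool.Agent.Lib.MP_c69b6d_co.F.Lam

namespace Pool.Agent.Lib.MP_c69b6d_co.F

open Finset Disp

namespace NFD

variable {K : Type} [Field K]

/-- the entries after the two pivots on `(x1, b)` and `(x2, c)`. -/
structure DP (D E : Disp K) (x1 x2 b c : ℕ) (Δ : K) : Prop where
  reach : ReachIn {x1, x2, b, c} D E
  row : ∀ i, E.row i = if i = x1 ∨ i = x2 ∨ i = b ∨ i = c then !D.row i else D.row i
  e1b : Δ * E.S x1 b = - D.S x2 c
  e1c : Δ * E.S x1 c = D.S x2 b
  e2b : Δ * E.S x2 b = D.S x1 c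
  e2c : Δ * E.S x2 c = - D.S x1 b
  eb : ∀ j, j ≠ x1 → j ≠ x2 → j ≠ b → j ≠ c →
    Δ * E.S b j = D.S x2 c * D.S x1 j - D.S x1 c * D.S x2 j
  ec : ∀ j, j ≠ x1 → j ≠ x2 → j ≠ b → j ≠ c →
    Δ * E.S c j = D.S x1 b * D.S x2 j - D.S x2 b * D.S x1 j
  e1 : ∀ j, j ≠ x1 → j ≠ x2 → j ≠ b → j ≠ c →
    Δ * E.S x1 j = D.S x2 c * D.S j b - D.S x2 b * D.S j c
  e2 : ∀ j, j ≠ x1 → j ≠ x2 → j ≠ b → j ≠ c →
    Δ * E.S x2 j = D.S x1 b * D.S j c - D.S x1 c * D.S j b
  eg : ∀ i j, i ≠ x1 → i ≠ x2 → i ≠ b → i ≠ c → j ≠ x1 → j ≠ x2 → j ≠ b → j ≠ c →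
    E.S i j = D.S i j - D.S i b * E.S b j - D.S i c * E.S c j
      + D.S j b * E.S b i + D.S j c * E.S c i

theorem dp_of_ne {D : Disp K} {x1 x2 b c : ℕ} (r1 : D.row x1 = true) (r2 : D.row x2 = true)
    (rb : D.row b = false) (rc : D.row c = false) (ha : D.S x1 b ≠ 0)
    (hq : D.S x1 b * D.S x2 c - D.S x1 c * D.S x2 b ≠ 0) :
    DP D ((D.pivot x1 b).pivot x2 c) x1 x2 b c (D.S x1 b * D.S x2 c - D.S x1 c * D.S x2 b) := by
  have n12 : x1 ≠ x2 := by
    rintro rfl; apply hq; ring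
  have nbc : b ≠ c := by
    rintro rfl; apply hq; ring
  have n1b : x1 ≠ b := by rintro rfl; simp [r1] at rb
  have n1c : x1 ≠ c := by rintro rfl; simp [r1] at rc
  have n2b : x2 ≠ b := by rintro rfl; simp [r2] at rb
  have n2c : x2 ≠ c := by rintro rfl; simp [r2] at rc
  have z12 : D.S x1 x2 = 0 := D.bip _ _ (r1.trans r2.symm)
  have z21 : D.S x2 x1 = 0 := D.bip _ _ (r2.trans r1.symm)
  have zbc : D.S b c = 0 := D.bip _ _ (rb.trans rc.symm)
  have zcb : D.S c b = 0 := D.bip _ _ (rc.trans rb.symm)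
  have sb1 : D.S b x1 = - D.S x1 b := D.skew _ _
  have sb2 : D.S b x2 = - D.S x2 b := D.skew _ _
  have sc1 : D.S c x1 = - D.S x1 c := D.skew _ _
  have sc2 : D.S c x2 = - D.S x2 c := D.skew _ _
  have k1 : (D.pivot x1 b).S x2 c = (D.S x1 b * D.S x2 c - D.S x1 c * D.S x2 b) / D.S x1 b := by
    rw [pivot_S_gen ha n12.symm n2b n1c.symm nbc.symm, z21]
    field_simp
    ring
  have h2 : (D.pivot x1 b).S x2 c ≠ 0 := by
    rw [k1]; exact div_ne_zero hq ha
  have k2 : (D.pivot x1 b).S c x2 = -((D.S x1 b * D.S x2 c - D.S x1 c * D.S x2 b) / D.S x1 b) := by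
    rw [Disp.skew, k1]
  generalize hΔ : D.S x1 b * D.S x2 c - D.S x1 c * D.S x2 b = Δ at hq k1 k2
  have hd : D.S x2 c = (Δ + D.S x1 c * D.S x2 b) / D.S x1 b := by
    rw [← hΔ]; field_simp; ring
  refine ⟨?_, ?_, ?_, ?_, ?_, ?_, ?_, ?_, ?_, ?_, ?_⟩
  · exact (ReachIn.single (by simp) (by simp)).trans (ReachIn.single (by simp) (by simp))
  · intro i
    rw [pivot_row h2, pivot_row ha]
    by_cases a1 : i = x1
    · subst a1; simp [n12, n1c]
    · by_cases a2 : i = x2
      · subst a2; simp [a1, n2b]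
      · by_cases a3 : i = b
        · subst a3; simp [a2, nbc]
        · by_cases a4 : i = c
          · subst a4; simp [a1, a3]
          · simp [a1, a2, a3, a4]
  · rw [pivot_S_gen h2 n12 n1c n2b.symm nbc, k1, k2]
    simp only [pivot_S ha, pS, n12, n12.symm, n1b, n1b.symm, n1c, n1c.symm, n2b, n2b.symm, n2c,
      n2c.symm, nbc, nbc.symm, if_true, if_false, z12, z21, zbc, zcb, sb1, sb2, sc1, sc2]
    rw [hd]; field_simp; ring
  · rw [pivot_S h2]
    simp only [pS, n12, n12.symm, n1b, n1b.symm, n1c, n1c.symm, n2b, n2b.symm, n2c,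
      n2c.symm, nbc, nbc.symm, if_true, if_false, k1, k2]
    simp only [pivot_S ha, pS, n12, n12.symm, n1b, n1b.symm, n1c, n1c.symm, n2b, n2b.symm, n2c,
      n2c.symm, nbc, nbc.symm, if_true, if_false, z12, z21, zbc, zcb, sb1, sb2, sc1, sc2]
    field_simp
  · rw [pivot_S h2]
    simp only [pS, n12, n12.symm, n1b, n1b.symm, n1c, n1c.symm, n2b, n2b.symm, n2c,
      n2c.symm, nbc, nbc.symm, if_true, if_false, k1, k2]
    simp only [pivot_S ha, pS, n12, n12.symm, n1b, n1b.symm, n1c, n1c.symm, n2b, n2b.symm, n2c,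
      n2c.symm, nbc, nbc.symm, if_true, if_false, z12, z21, zbc, zcb, sb1, sb2, sc1, sc2]
    field_simp
  · rw [pivot_S h2]
    simp only [pS, n12, n12.symm, n1b, n1b.symm, n1c, n1c.symm, n2b, n2b.symm, n2c,
      n2c.symm, nbc, nbc.symm, if_true, if_false, k1, k2]
    field_simp
  · intro j a1 a2 a3 a4
    rw [pivot_S_gen h2 n2b.symm nbc a2 a4, k1, k2]
    simp only [pivot_S ha, pS, n12, n12.symm, n1b, n1b.symm, n1c, n1c.symm, n2b, n2b.symm, n2c,
      n2c.symm, nbc, nbc.symm, if_true, if_false, z12, z21, zbc, zcb, sb1, sb2, sc1, sc2,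
      a1, a2, a3, a4]
    rw [hd]; field_simp; ring
  · intro j a1 a2 a3 a4
    rw [pivot_S h2]
    simp only [pS, n12, n12.symm, n1b, n1b.symm, n1c, n1c.symm, n2b, n2b.symm, n2c,
      n2c.symm, nbc, nbc.symm, if_true, if_false, k1, k2, a1, a2, a3, a4]
    simp only [pivot_S ha, pS, n12, n12.symm, n1b, n1b.symm, n1c, n1c.symm, n2b, n2b.symm, n2c,
      n2c.symm, nbc, nbc.symm, if_true, if_false, z12, z21, zbc, zcb, sb1, sb2, sc1, sc2,
      a1, a2, a3, a4]
    field_simp; ring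
  · intro j a1 a2 a3 a4
    rw [pivot_S_gen h2 n12 n1c a2 a4, k1, k2]
    simp only [pivot_S ha, pS, n12, n12.symm, n1b, n1b.symm, n1c, n1c.symm, n2b, n2b.symm, n2c,
      n2c.symm, nbc, nbc.symm, if_true, if_false, z12, z21, zbc, zcb, sb1, sb2, sc1, sc2,
      a1, a2, a3, a4]
    rw [hd, D.skew j b, D.skew j c]; field_simp; ring
  · intro j a1 a2 a3 a4
    rw [pivot_S h2]
    simp only [pS, n12, n12.symm, n1b, n1b.symm, n1c, n1c.symm, n2b, n2b.symm, n2c,
      n2c.symm, nbc, nbc.symm, if_true, if_false, k1, k2, a1, a2, a3, a4]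
    simp only [pivot_S ha, pS, n12, n12.symm, n1b, n1b.symm, n1c, n1c.symm, n2b, n2b.symm, n2c,
      n2c.symm, nbc, nbc.symm, if_true, if_false, z12, z21, zbc, zcb, sb1, sb2, sc1, sc2,
      a1, a2, a3, a4]
    rw [D.skew j b, D.skew j c]; field_simp; ring
  · intro i j i1 i2 i3 i4 a1 a2 a3 a4
    rw [pivot_S_gen h2 i2 i4 a2 a4, pivot_S_gen h2 n2b.symm nbc a2 a4,
      pivot_S_gen h2 n2b.symm nbc i2 i4, pivot_S h2 c j, pivot_S h2 c i]
    simp only [pS, n12, n12.symm, n1b, n1b.symm, n1c, n1c.symm, n2b, n2b.symm, n2c,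
      n2c.symm, nbc, nbc.symm, if_true, if_false, k1, k2, a1, a2, a3, a4, i1, i2, i3, i4]
    simp only [pivot_S ha, pS, n12, n12.symm, n1b, n1b.symm, n1c, n1c.symm, n2b, n2b.symm, n2c,
      n2c.symm, nbc, nbc.symm, if_true, if_false, z12, z21, zbc, zcb, sb1, sb2, sc1, sc2,
      a1, a2, a3, a4, i1, i2, i3, i4]
    rw [D.skew j b, D.skew j c, D.skew i x1, D.skew i x2, D.skew i b, D.skew i c]
    field_simp; ring

theorem DP.swap {D E : Disp K} {x1 x2 b c : ℕ} {Δ : K} (h : DP D E x2 x1 b c Δ) :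
    DP D E x1 x2 b c (-Δ) := by
  refine ⟨?_, ?_, ?_, ?_, ?_, ?_, ?_, ?_, ?_, ?_, ?_⟩
  · exact h.reach.mono (by intro i; simp only [mem_insert, mem_singleton]; tauto)
  · intro i; rw [h.row]; simp only [or_left_comm]
  · linear_combination -h.e2b
  · linear_combination -h.e2c
  · linear_combination -h.e1b
  · linear_combination -h.e1c
  · intro j a1 a2 a3 a4; linear_combination -h.eb j a2 a1 a3 a4
  · intro j a1 a2 a3 a4; linear_combination -h.ec j a2 a1 a3 a4
  · intro j a1 a2 a3 a4; linear_combination -h.e2 j a2 a1 a3 a4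
  · intro j a1 a2 a3 a4; linear_combination -h.e1 j a2 a1 a3 a4
  · intro i j i1 i2 i3 i4 a1 a2 a3 a4; exact h.eg i j i2 i1 i3 i4 a2 a1 a3 a4

theorem dp_exists {D : Disp K} {x1 x2 b c : ℕ} (r1 : D.row x1 = true) (r2 : D.row x2 = true)
    (rb : D.row b = false) (rc : D.row c = false)
    (hq : D.S x1 b * D.S x2 c - D.S x1 c * D.S x2 b ≠ 0) :
    ∃ E, DP D E x1 x2 b c (D.S x1 b * D.S x2 c - D.S x1 c * D.S x2 b) := by
  by_cases ha : D.S x1 b = 0
  · have h2 : D.S x2 b ≠ 0 := by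
      intro h; apply hq; rw [ha, h]; ring
    have hq' : D.S x2 b * D.S x1 c - D.S x2 c * D.S x1 b ≠ 0 := by
      intro h; apply hq; linear_combination -h
    have := (dp_of_ne r2 r1 rb rc h2 hq').swap
    have e : -(D.S x2 b * D.S x1 c - D.S x2 c * D.S x1 b) =
        D.S x1 b * D.S x2 c - D.S x1 c * D.S x2 b := by ring
    rw [e] at this
    exact ⟨_, this⟩
  · exact ⟨_, dp_of_ne r1 r2 rb rc ha hq⟩

/-- a circuit word with equal values at `t1, t2` gives a cocircuit word with opposite values. -/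
theorem cocirc {R : Disp K} {t1 t2 : ℕ} (n12 : t1 ≠ t2) (h : Real4 R t1 t2) :
    ∃ c ∈ R.code, c t1 ≠ 0 ∧ c t2 = - c t1 ∧
      ∀ c' ∈ R.code, c' t1 = 0 → (∀ i, c i = 0 → c' i = 0) → c' = 0 := by
  classical
  obtain ⟨d, hd, d1, d2, hmin⟩ := h
  have hZ : ∀ i, d i ≠ 0 → i ∈ R.Z := fun i hi => by
    by_contra hn; exact hi ((mem_flip_code.1 hd).1 i hn)
  set I : Finset ℕ := (R.Z.filter (fun i => d i ≠ 0)).erase t1 with hI
  have hIZ : I ⊆ R.Z := fun i hi => (mem_filter.1 (mem_erase.1 hi).2).1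
  have hind : R.Indep I := by
    intro d' hd' h0
    refine hmin d' hd' (h0 _ (by simp [hI])) (fun i hi => h0 i ?_)
    simp [hI, hi]
  obtain ⟨E, hE, hIB⟩ := reach_rows hIZ hind
  have hr : R.Reach E := hE.reach (by
    intro i hi
    rcases mem_union.1 hi with hi | hi
    · exact hIZ (mem_sdiff.1 hi).1
    · exact (mem_B.1 (mem_sdiff.1 hi).1).1)
  have hZE : E.Z = R.Z := hr.Z_eq
  have hdE : d ∈ E.flip.code := by rw [hr.flip_code_eq]; exact hd
  have m2 : t2 ∈ I := by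
    have : d t2 ≠ 0 := by rw [d2]; exact d1
    simp [hI, n12.symm, this, hZ _ this]
  have b2 := mem_B.1 (hIB m2)
  have hw := row_word b2.1 b2.2
  set w : ℕ → K := fun j => if j = t2 then 1 else if j ∈ E.Z then E.S t2 j else 0 with hwdef
  have wrow : ∀ i ∈ E.B, i ≠ t2 → w i = 0 := by
    intro i hi hne
    have := mem_B.1 hi
    simp [hwdef, hne, E.bip t2 i (b2.2.trans this.2.symm)]
  have w2 : w t2 = 1 := by simp [hwdef]
  have m1 : t1 ∈ E.Z := by rw [hZE]; exact hZ _ d1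
  have ho := orth hw hdE
  have hsum : ∑ i ∈ E.Z, w i * d i = w t1 * d t1 + w t2 * d t2 := by
    rw [← sum_pair (f := fun i => w i * d i) n12]
    symm
    apply sum_subset
    · intro i hi
      rcases mem_insert.1 hi with rfl | hi
      · exact m1
      · rw [mem_singleton.1 hi]; exact b2.1
    · intro i hi hn
      simp only [mem_insert, mem_singleton, not_or] at hn
      by_cases hdi : d i = 0
      · simp [hdi]
      · have : i ∈ I := by simp [hI, hn.1, hdi, hZ _ hdi]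
        rw [wrow i (hIB this) hn.2]; simp
  have w1 : w t1 = -1 := by
    rw [hsum, w2, d2] at ho
    have : (w t1 + 1) * d t1 = 0 := by linear_combination ho
    rcases mul_eq_zero.1 this with h | h
    · linear_combination h
    · exact absurd h d1
  refine ⟨w, by rw [← hr.code_eq]; exact hw, by rw [w1]; simp, by rw [w1, w2]; simp, ?_⟩
  intro c' hc' c1 hs
  have hcE : c' ∈ E.code := by rw [hr.code_eq]; exact hc'
  have hz : c' - c' t2 • w = 0 := by
    apply code_zero (E.code.sub_mem hcE (E.code.smul_mem _ hw))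
    intro i hi
    by_cases hne : i = t2
    · subst hne; simp [w2]
    · simp [wrow i hi hne, hs i (wrow i hi hne)]
  have e1 := congrFun hz t1
  simp only [Pi.sub_apply, Pi.smul_apply, smul_eq_mul, Pi.zero_apply, w1, c1] at e1
  have e2 : c' t2 = 0 := by linear_combination e1
  rw [e2, zero_smul, sub_zero] at hz
  exact hz

theorem sq_one {s : F3} (h : s ≠ 0) : s * s = 1 := by
  revert s; decide

end NFD

open NFD

/-- existence of a normal form for an exact 3-separation. -/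
theorem exists_nf {D : Disp F3} {X Y : Finset ℕ} (hZ : D.Z = X ∪ Y) (hd : Disjoint X Y)
    (hl : D.lam X Y ≤ 2) {x1 x2 b c : ℕ} (h1 : x1 ∈ X) (h2 : x2 ∈ X) (hb : b ∈ Y) (hc : c ∈ Y)
    (r1 : D.row x1 = true) (r2 : D.row x2 = true)
    (hq : D.S x1 b * D.S x2 c - D.S x1 c * D.S x2 b ≠ 0) :
    ∃ R t1 t2 t3, NF D R X Y (fun i => D.S i b) (fun i => D.S i c) t1 t2 t3 ∧
      (∀ j ∈ Y, (D.S x1 b * D.S x2 c - D.S x1 c * D.S x2 b) * R.S t1 j =
        D.S x2 c * D.S x1 j - D.S x1 c * D.S x2 j) ∧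
      (∀ j ∈ Y, (D.S x1 b * D.S x2 c - D.S x1 c * D.S x2 b) * R.S t2 j =
        D.S x1 b * D.S x2 j - D.S x2 b * D.S x1 j) := by
  have hent := (lam_le_two_iff h1 h2 hb hc hq).1 hl
  have hsq := sq_one hq
  have rb : D.row b = false := by
    by_contra h
    have h' : D.row b = true := by simpa using h
    apply hq
    rw [D.bip x1 b (r1.trans h'.symm), D.bip x2 b (r2.trans h'.symm)]; ring
  have rc : D.row c = false := by
    by_contra h
    have h' : D.row c = true := by simpa using h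
    apply hq
    rw [D.bip x1 c (r1.trans h'.symm), D.bip x2 c (r2.trans h'.symm)]; ring
  generalize hΔ : D.S x1 b * D.S x2 c - D.S x1 c * D.S x2 b = Δ at hq hent hsq
  set N := Y.sup id with hN
  have hlt : ∀ j ∈ Y, j ≤ N := fun j hj => le_sup (f := id) hj
  have y1 : ∀ j ∈ Y, j ≠ N + 1 := fun j hj => by have := hlt j hj; omega
  have y2 : ∀ j ∈ Y, j ≠ N + 2 := fun j hj => by have := hlt j hj; omega
  have y3 : ∀ j ∈ Y, j ≠ N + 3 := fun j hj => by have := hlt j hj; omega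
  let v1 : ℕ → F3 := fun j => -(Δ * (D.S x2 c * D.S x1 j - D.S x1 c * D.S x2 j))
  let v2 : ℕ → F3 := fun j => -(Δ * (D.S x1 b * D.S x2 j - D.S x2 b * D.S x1 j))
  let v3 : ℕ → F3 := fun i => if i = N + 1 then 1 else if i = N + 2 then -1 else 0
  let R : Disp F3 := (((D.restrict Y).addEl (N + 1) true v1).addEl (N + 2) true v2).addEl
    (N + 3) false v3
  have s1 : ∀ j ∈ Y, R.S (N + 1) j = Δ * (D.S x2 c * D.S x1 j - D.S x1 c * D.S x2 j) := by
    intro j hj
    by_cases hr : D.row j = true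
    · simp [R, addEl, Disp.restrict, y1 j hj, y2 j hj, y3 j hj, hr, D.bip x1 j (r1.trans hr.symm),
        D.bip x2 j (r2.trans hr.symm)]
    · simp [R, addEl, Disp.restrict, y1 j hj, y2 j hj, y3 j hj, hr, v1]
  have s2 : ∀ j ∈ Y, R.S (N + 2) j = Δ * (D.S x1 b * D.S x2 j - D.S x2 b * D.S x1 j) := by
    intro j hj
    by_cases hr : D.row j = true
    · simp [R, addEl, Disp.restrict, y1 j hj, y2 j hj, y3 j hj, hr, D.bip x1 j (r1.trans hr.symm),
        D.bip x2 j (r2.trans hr.symm)]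
    · simp [R, addEl, Disp.restrict, y1 j hj, y2 j hj, y3 j hj, hr, v2]
  refine ⟨R, N + 1, N + 2, N + 3, ⟨hZ, hd, ?_, fun h => y1 _ h rfl, fun h => y2 _ h rfl,
    fun h => y3 _ h rfl, by omega, ⟨?_, ?_⟩, ?_, ?_, ?_, ?_, ?_, ?_, ?_, ?_⟩, ?_, ?_⟩
  · ext i; simp [R, addEl, Disp.restrict]; tauto
  · intro i hi; simp [R, addEl, Disp.restrict, y1 i hi, y2 i hi, y3 i hi]
  · intro i hi j hj
    simp [R, addEl, Disp.restrict, y1 i hi, y2 i hi, y3 i hi, y1 j hj, y2 j hj, y3 j hj]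
  · simp [R, addEl]
  · simp [R, addEl]
  · simp [R, addEl, v3]
  · simp [R, addEl, v3]
  · intro j hj; simp [R, addEl, v3, y1 j hj, y2 j hj, y3 j hj]
  · intro i hi j hj
    rw [s1 j hj, s2 j hj]
    linear_combination Δ * hent i hi j hj - D.S i j * hsq
  · intro i hi hr
    exact ⟨D.bip i b (hr.trans rb.symm), D.bip i c (hr.trans rc.symm)⟩
  · refine ⟨x1, h1, x2, h2, fun h => hq ?_⟩
    rw [← hΔ]; linear_combination h
  · intro j hj; rw [s1 j hj, ← mul_assoc, hsq, one_mul]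
  · intro j hj; rw [s2 j hj, ← mul_assoc, hsq, one_mul]

/-- the dual normal form. -/
theorem nf_dual {D R : Disp F3} {X Y : Finset ℕ} {t1 t2 t3 x1 x2 b c : ℕ}
    (nf : NF D R X Y (fun i => D.S i b) (fun i => D.S i c) t1 t2 t3) (h1 : x1 ∈ X) (h2 : x2 ∈ X)
    (hb : b ∈ Y) (hc : c ∈ Y) (b1 : R.S t1 b = 1) (b2 : R.S t2 b = 0) (c1 : R.S t1 c = 0)
    (c2 : R.S t2 c = 1) (hq : D.S x1 b * D.S x2 c - D.S x1 c * D.S x2 b ≠ 0) :
    ∃ D' D2 R2, ReachIn {x1, x2, b, c} D D' ∧ D'.B = insert b (insert c ((D.B.erase x1).erase x2)) ∧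
      D2 = D'.flip.scale (fun i => if i = b then -1 else 1) ∧
      NF D2 R2 X Y (fun i => D2.S i b) (fun i => D2.S i c) t1 t2 t3 ∧
      (Real4 (R.restrict (Y ∪ {t1, t2})) t1 t2 → Real4 (R2.restrict (Y ∪ {t1, t2})) t1 t2) := by
  have flse : ∀ a : Bool, true ≠ a → a = false := by decide
  have Rb : R.row b = false := flse _ (by
    rw [← nf.r1]; exact row_ne_of_S (by rw [b1]; exact one_ne_zero))
  have Rc : R.row c = false := flse _ (by
    rw [← nf.r2]; exact row_ne_of_S (by rw [c2]; exact one_ne_zero))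
  have rb : D.row b = false := by rw [← nf.agree.1 b hb]; exact Rb
  have rc : D.row c = false := by rw [← nf.agree.1 c hc]; exact Rc
  have r1 : D.row x1 = true := by
    by_contra h
    have h' : D.row x1 = false := by simpa using h
    apply hq
    rw [D.bip x1 b (h'.trans rb.symm), D.bip x1 c (h'.trans rc.symm)]; ring
  have r2 : D.row x2 = true := by
    by_contra h
    have h' : D.row x2 = false := by simpa using h
    apply hq
    rw [D.bip x2 b (h'.trans rb.symm), D.bip x2 c (h'.trans rc.symm)]; ring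
  have nbc : b ≠ c := by
    rintro rfl; rw [b1] at c1; exact one_ne_zero c1
  have n13 : t1 ≠ t3 := ne_of_S (D := R) (by rw [nf.s13]; exact one_ne_zero)
  have n23 : t2 ≠ t3 := ne_of_S (D := R) (by rw [nf.s23]; exact neg_ne_zero.2 one_ne_zero)
  have n12 := nf.n12
  have xy : ∀ i ∈ X, ∀ j ∈ Y, i ≠ j := fun i hi j hj e =>
    (disjoint_left.1 nf.disj hi) (e ▸ hj)
  have yt1 : ∀ j ∈ Y, j ≠ t1 := fun j hj e => nf.n1 (e ▸ hj)
  have yt2 : ∀ j ∈ Y, j ≠ t2 := fun j hj e => nf.n2 (e ▸ hj)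
  have yt3 : ∀ j ∈ Y, j ≠ t3 := fun j hj e => nf.n3 (e ▸ hj)
  obtain ⟨D', dp⟩ := dp_exists r1 r2 rb rc hq
  obtain ⟨R', rp⟩ := dp_exists (D := R) (x1 := t1) (x2 := t2) nf.r1 nf.r2 Rb Rc
    (by rw [b1, b2, c1, c2]; simp)
  have hΔR : R.S t1 b * R.S t2 c - R.S t1 c * R.S t2 b = 1 := by rw [b1, b2, c1, c2]; simp
  rw [hΔR] at rp
  have hent := nf.ent
  have hag := nf.agree.2
  -- entries of `R'`
  have p1b : R'.S t1 b = -1 := by have := rp.e1b; rwa [one_mul, c2] at this
  have p1c : R'.S t1 c = 0 := by have := rp.e1c; rwa [one_mul, b2] at this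
  have p2b : R'.S t2 b = 0 := by have := rp.e2b; rwa [one_mul, c1] at this
  have p2c : R'.S t2 c = -1 := by have := rp.e2c; rwa [one_mul, b1] at this
  have pb : ∀ j ∈ Y, j ≠ b → j ≠ c → R'.S b j = R.S t1 j := by
    intro j hj a3 a4
    have := rp.eb j (yt1 j hj) (yt2 j hj) a3 a4
    rw [c2, c1] at this; linear_combination this
  have pc : ∀ j ∈ Y, j ≠ b → j ≠ c → R'.S c j = R.S t2 j := by
    intro j hj a3 a4
    have := rp.ec j (yt1 j hj) (yt2 j hj) a3 a4
    rw [b1, b2] at this; linear_combination this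
  have p1 : ∀ j ∈ Y, j ≠ b → j ≠ c → R'.S t1 j = D.S j b := by
    intro j hj a3 a4
    have := rp.e1 j (yt1 j hj) (yt2 j hj) a3 a4
    rw [c2, b2, hag j hj b hb] at this; linear_combination this
  have p2 : ∀ j ∈ Y, j ≠ b → j ≠ c → R'.S t2 j = D.S j c := by
    intro j hj a3 a4
    have := rp.e2 j (yt1 j hj) (yt2 j hj) a3 a4
    rw [b1, c1, hag j hj c hc] at this; linear_combination this
  -- entries of `D'`
  have y1 : ∀ j ∈ Y, j ≠ x1 := fun j hj => (xy x1 h1 j hj).symm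
  have y2 : ∀ j ∈ Y, j ≠ x2 := fun j hj => (xy x2 h2 j hj).symm
  have qb : ∀ j ∈ Y, j ≠ b → j ≠ c → D'.S b j = R.S t1 j := by
    intro j hj a3 a4
    have := dp.eb j (y1 j hj) (y2 j hj) a3 a4
    rw [hent x1 h1 j hj, hent x2 h2 j hj] at this
    apply mul_left_cancel₀ hq
    linear_combination this
  have qc : ∀ j ∈ Y, j ≠ b → j ≠ c → D'.S c j = R.S t2 j := by
    intro j hj a3 a4
    have := dp.ec j (y1 j hj) (y2 j hj) a3 a4
    rw [hent x1 h1 j hj, hent x2 h2 j hj] at this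
    apply mul_left_cancel₀ hq
    linear_combination this
  have rowY : ∀ j ∈ Y, R'.row j = D'.row j := by
    intro j hj
    rw [rp.row, dp.row, nf.agree.1 j hj]
    simp [y1 j hj, y2 j hj, yt1 j hj, yt2 j hj]
  have Db : D'.row b = true := by rw [dp.row]; simp [rb]
  have Dc : D'.row c = true := by rw [dp.row]; simp [rc]
  have half : ∀ i, (i = b ∨ i = c) → ∀ j ∈ Y, R'.S i j = D'.S i j := by
    intro i hi j hj
    have hiY : i ∈ Y := by rcases hi with rfl | rfl <;> assumption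
    have hir : D'.row i = true := by rcases hi with rfl | rfl <;> assumption
    by_cases a : j = b ∨ j = c
    · have hjr : D'.row j = true := by rcases a with rfl | rfl <;> assumption
      rw [D'.bip i j (hir.trans hjr.symm), R'.bip i j (by rw [rowY i hiY, rowY j hj, hir, hjr])]
    · rw [not_or] at a
      rcases hi with rfl | rfl
      · rw [pb j hj a.1 a.2, qb j hj a.1 a.2]
      · rw [pc j hj a.1 a.2, qc j hj a.1 a.2]
  have entY : ∀ i ∈ Y, ∀ j ∈ Y, R'.S i j = D'.S i j := by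
    intro i hi j hj
    by_cases a : i = b ∨ i = c
    · exact half i a j hj
    · by_cases a' : j = b ∨ j = c
      · rw [R'.skew, D'.skew, half j a' i hi]
      · rw [not_or] at a a'
        rw [rp.eg i j (yt1 i hi) (yt2 i hi) a.1 a.2 (yt1 j hj) (yt2 j hj) a'.1 a'.2,
          dp.eg i j (y1 i hi) (y2 i hi) a.1 a.2 (y1 j hj) (y2 j hj) a'.1 a'.2,
          half b (Or.inl rfl) j hj, half b (Or.inl rfl) i hi, half c (Or.inr rfl) j hj,
          half c (Or.inr rfl) i hi, hag i hi j hj, hag i hi b hb, hag i hi c hc, hag j hj b hb,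
          hag j hj c hc]
  have entX : ∀ i ∈ X, ∀ j ∈ Y, D'.S i j = -(D'.S i b * R'.S t1 j) - D'.S i c * R'.S t2 j := by
    intro i hi j hj
    by_cases a3 : j = b
    · subst a3; rw [p1b, p2b]; ring
    by_cases a4 : j = c
    · subst a4; rw [p1c, p2c]; ring
    rw [p1 j hj a3 a4, p2 j hj a3 a4]
    by_cases i1 : i = x1
    · subst i1
      apply mul_left_cancel₀ hq
      linear_combination dp.e1 j (y1 j hj) (y2 j hj) a3 a4 + D.S j b * dp.e1b + D.S j c * dp.e1c
    by_cases i2 : i = x2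
    · subst i2
      apply mul_left_cancel₀ hq
      linear_combination dp.e2 j (y1 j hj) (y2 j hj) a3 a4 + D.S j b * dp.e2b + D.S j c * dp.e2c
    rw [dp.eg i j i1 i2 (xy i hi b hb) (xy i hi c hc) (y1 j hj) (y2 j hj) a3 a4, qb j hj a3 a4,
      qc j hj a3 a4, hent i hi j hj, D'.skew i b, D'.skew i c]
    ring
  let ε : ℕ → F3 := fun i => if i = b ∨ i = t2 then -1 else 1
  have hε : ∀ i, ε i * ε i = 1 := by
    intro i; simp only [ε]; split_ifs <;> simp
  let G : Disp F3 := (R'.restrict (Y ∪ {t1, t2})).flip.scale ε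
  let v3 : ℕ → F3 := fun i => if i = t1 then 1 else if i = t2 then -1 else 0
  let R2 : Disp F3 := G.addEl t3 false v3
  have R1r : R'.row t1 = false := by rw [rp.row]; simp [nf.r1]
  have R2r : R'.row t2 = false := by rw [rp.row]; simp [nf.r2]
  have t1b : t1 ≠ b := (yt1 b hb).symm
  refine ⟨D', _, R2, dp.reach, ?_, rfl, ⟨?_, nf.disj, ?_, nf.n1, nf.n2, nf.n3, n12, ⟨?_, ?_⟩,
    ?_, ?_, ?_, ?_, ?_, ?_, ?_, ?_⟩, ?_⟩
  · ext i
    have hZ' : D'.Z = X ∪ Y := by rw [dp.reach.Z_eq, nf.dZ]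
    simp only [mem_B, mem_insert, mem_erase, hZ', nf.dZ, mem_union]
    by_cases a3 : i = b
    · subst a3; simp [hb, Db]
    by_cases a4 : i = c
    · subst a4; simp [hc, Dc]
    rw [dp.row]
    by_cases i1 : i = x1
    · subst i1; simp [r1, a3, a4]
    by_cases i2 : i = x2
    · subst i2; simp [r2, a3, a4]
    simp [a3, a4, i1, i2]
  · show D'.Z = X ∪ Y
    rw [dp.reach.Z_eq, nf.dZ]
  · ext i; simp [R2, G, addEl, Disp.scale, Disp.flip, Disp.restrict]; tauto
  · intro i hi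
    simp [R2, G, addEl, Disp.scale, Disp.flip, Disp.restrict, yt3 i hi, rowY i hi]
  · intro i hi j hj
    simp [R2, G, ε, addEl, Disp.scale, Disp.flip, Disp.restrict, yt3 i hi, yt3 j hj, yt2 i hi, yt2 j hj,
      entY i hi j hj]
  · simp [R2, G, addEl, Disp.scale, Disp.flip, Disp.restrict, n13, R1r]
  · simp [R2, G, addEl, Disp.scale, Disp.flip, Disp.restrict, n23, R2r]
  · simp [R2, G, v3, addEl, Disp.scale, Disp.flip, Disp.restrict, n13, R1r]
  · simp [R2, G, v3, addEl, Disp.scale, Disp.flip, Disp.restrict, n23, R2r, n12.symm]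
  · intro j hj
    simp [R2, G, v3, addEl, Disp.scale, Disp.flip, Disp.restrict, yt1 j hj, yt2 j hj, yt3 j hj]
  · intro i hi j hj
    have e := entX i hi j hj
    by_cases a3 : j = b
    · subst a3
      simp [R2, G, ε, addEl, Disp.scale, Disp.flip, Disp.restrict, n13, n23, yt3 j hj, yt2 j hj,
        xy i hi j hj, nbc.symm, t1b, n12, p1b, p2b]
    · simp only [R2, G, ε, addEl, Disp.scale, Disp.flip, Disp.restrict, n13, n23, yt3 j hj, yt2 j hj,
        xy i hi b hb, nbc.symm, t1b, n12, a3, if_true, if_false, or_true, or_self]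
      linear_combination e
  · intro i hi hr
    constructor
    · exact Disp.bip _ i b (by rw [hr]; simp [Disp.scale, Disp.flip, Db])
    · exact Disp.bip _ i c (by rw [hr]; simp [Disp.scale, Disp.flip, Dc])
  · refine ⟨x1, h1, x2, h2, fun h => hq ?_⟩
    simp only [Disp.scale, Disp.flip, xy x1 h1 b hb, xy x2 h2 b hb, nbc.symm, if_true,
      if_false] at h
    have e0 : D'.S x1 b * D'.S x2 c - D'.S x2 b * D'.S x1 c = 0 := by linear_combination -h
    have e1 := dp.e1b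
    have e2 := dp.e1c
    have e3 := dp.e2b
    have e4 := dp.e2c
    set Δ := D.S x1 b * D.S x2 c - D.S x1 c * D.S x2 b with hΔ
    have e5 : (Δ * D'.S x1 b) * (Δ * D'.S x2 c) - (Δ * D'.S x2 b) * (Δ * D'.S x1 c) = 0 := by
      linear_combination Δ * Δ * e0
    rw [e1, e2, e3, e4] at e5
    linear_combination e5 + hΔ
  · intro h4
    obtain ⟨w, hw, w1, w2, hmin⟩ := cocirc n12 h4
    have hr : (R.restrict (Y ∪ {t1, t2})).Reach (R'.restrict (Y ∪ {t1, t2})) :=
      (rp.reach.restrict _).reach (by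
        intro i hi
        simp only [mem_insert, mem_singleton] at hi
        rcases hi with rfl | rfl | rfl | rfl <;> simp [Disp.restrict, hb, hc])
    have hs : Same G (R2.restrict (Y ∪ {t1, t2})) := by
      have hn : t3 ∉ Y ∪ {t1, t2} := by simp [nf.n3, n13.symm, n23.symm]
      have := (agree_addEl G hn false v3).same
      rwa [show G.restrict (Y ∪ {t1, t2}) = G from restrict_self G] at this
    have hcode : ∀ d : ℕ → F3, d ∈ (R2.restrict (Y ∪ {t1, t2})).flip.code ↔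
        (fun i => ε i * d i) ∈ (R.restrict (Y ∪ {t1, t2})).code := by
      intro d
      rw [hs.flip.code_eq]
      simp only [G]
      rw [flip_scale, Disp.flip_flip, mem_code_scale hε, hr.code_eq]
    have hε0 : ∀ i, ε i ≠ 0 := fun i h => by have := hε i; rw [h] at this; simp at this
    have ε1 : ε t1 = 1 := by simp [ε, t1b, n12]
    have ε2 : ε t2 = -1 := by simp [ε]
    refine ⟨fun i => ε i * w i, ?_, ?_, ?_, ?_⟩
    · rw [hcode]
      have : (fun i => ε i * (ε i * w i)) = w := by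
        funext i; rw [← mul_assoc, hε, one_mul]
      rw [this]; exact hw
    · exact mul_ne_zero (hε0 _) w1
    · show ε t2 * w t2 = ε t1 * w t1
      rw [ε1, ε2, w2]; ring
    · intro d' hd' d1 hs'
      have := hmin _ ((hcode d').1 hd') (by show ε t1 * d' t1 = 0; rw [d1, mul_zero])
        (fun i hi => by
          show ε i * d' i = 0
          rw [hs' i (by show ε i * w i = 0; rw [hi, mul_zero]), mul_zero])
      funext i
      have hi := congrFun this i
      exact (mul_eq_zero.1 hi).resolve_left (hε0 i)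

end Pool.Agent.Lib.MP_c69b6d_co.F
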