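import Pool.Agent.Lib.MP_c69b6d_co.F.Api2
import Pool.Agent.Lib.MP_c69b6d_co.F.Defs2

/-! The patterns V1, V2, V3 as embedded displays. -/

namespace Pool.Agent.Lib.MP_c69b6d_co.F

open Finset Disp

namespace T2a

theorem addEl2 {L D : Disp F3} {φ : ℕ → ℕ} {ε : ℕ → F3} (h : Emb L D φ ε) {n v : ℕ} {r : Bool}
    (hn : n ∉ L.Z) (hv : v ∈ D.Z) (hr : D.row v = r) {s : F3} (hs : s * s = 1) {u : ℕ → F3}
    (hu : ∀ i ∈ L.Z, φ i ≠ v ∧ (D.row (φ i) ≠ r → D.S (φ i) v = ε i * s * u i)) :
    Emb (L.addEl n r u) D (Function.update φ n v) (Function.update ε n s) := by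
  subst hr
  exact h.addEl hn hv (fun i hi => (hu i hi).1) hs
    (fun i hi hne => (hu i hi).2 (by rw [h.row i hi]; exact hne))

/-- the data shared by the three patterns. -/
structure Ctx (L E : Disp F3) (X0 Y : Finset ℕ) (φ : ℕ → ℕ) (b c : ℕ) (T1 T2 : ℕ → F3) :
    Prop where
  e0 : Emb (L.restrict X0) E φ (fun _ => 1)
  small : ∀ i ∈ X0, i < 24
  nY : ∀ i ∈ X0, φ i ∉ Y
  sub : Y ⊆ E.Z
  ent : ∀ i ∈ X0, ∀ j ∈ Y, E.S (φ i) j = T1 j * L.S i b + T2 j * L.S i c
  zr : ∀ j ∈ Y, E.row j = true → T1 j = 0 ∧ T2 j = 0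

/-- four updates. -/
def up4 {α : Type} (f : ℕ → α) (a b c h : α) : ℕ → α :=
  Function.update (Function.update (Function.update (Function.update f 24 a) 25 b) 26 c) 27 h

theorem up4_lt {α : Type} (f : ℕ → α) (a b c h : α) {i : ℕ} (hi : i < 24) :
    up4 f a b c h i = f i := by
  unfold up4
  rw [Function.update_of_ne (by omega), Function.update_of_ne (by omega),
    Function.update_of_ne (by omega), Function.update_of_ne (by omega)]

theorem up4_24 {α : Type} (f : ℕ → α) (a b c h : α) : up4 f a b c h 24 = a := by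
  simp [up4]

theorem up4_25 {α : Type} (f : ℕ → α) (a b c h : α) : up4 f a b c h 25 = b := by
  simp [up4]

theorem up4_26 {α : Type} (f : ℕ → α) (a b c h : α) : up4 f a b c h 26 = c := by
  simp [up4]

theorem up4_27 {α : Type} (f : ℕ → α) (a b c h : α) : up4 f a b c h 27 = h := by
  simp [up4]

variable {L E : Disp F3} {X0 Y : Finset ℕ} {φ : ℕ → ℕ} {b c : ℕ} {T1 T2 : ℕ → F3}

theorem Ctx.ne (K : Ctx L E X0 Y φ b c T1 T2) {i j : ℕ} (hi : i ∈ X0) (hj : j ∈ Y) : φ i ≠ j :=
  fun e => K.nY i hi (e ▸ hj)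

theorem Ctx.zero (K : Ctx L E X0 Y φ b c T1 T2) {i j : ℕ} (hi : i ∈ X0) (hj : j ∈ Y)
    (hr : E.row j = true) : E.S (φ i) j = 0 := by
  rw [K.ent i hi j hj, (K.zr j hj hr).1, (K.zr j hj hr).2]; ring

theorem Ctx.col (K : Ctx L E X0 Y φ b c T1 T2) {i j : ℕ} (hi : i ∈ X0) (hj : j ∈ Y) {s α β : F3}
    (h1 : T1 j = s * α) (h2 : T2 j = s * β) : E.S (φ i) j = 1 * s * pt L X0 b c α β i := by
  rw [K.ent i hi j hj, h1, h2]; simp only [pt, hi, if_true]; ring

theorem ne_of_row {E : Disp F3} {i j : ℕ} (hi : E.row i = true) (hj : E.row j = false) : i ≠ j := by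
  rintro rfl; rw [hi] at hj; exact absurd hj (by decide)

theorem emb_vd1 (K : Ctx L E X0 Y φ b c T1 T2) {a b' c' h : ℕ} (ma : a ∈ Y) (mb : b' ∈ Y)
    (mc : c' ∈ Y) (mh : h ∈ Y) (ra : E.row a = true) (rb : E.row b' = false)
    (rc : E.row c' = false) (rh : E.row h = false) (bc : b' ≠ c') (bh : b' ≠ h) (ch : c' ≠ h)
    {τ : F3 × F3 × F3 × F3} {t ea eb ec eh : F3} (sa : ea * ea = 1) (sb : eb * eb = 1)
    (sc : ec * ec = 1) (sh : eh * eh = 1) (b1 : T1 b' = eb * τ.1) (b2 : T2 b' = eb * τ.2.1)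
    (c1 : T1 c' = ec * τ.2.2.1) (c2 : T2 c' = ec * τ.2.2.2) (h1 : T1 h = eh * 1)
    (h2 : T2 h = eh * 1) (ab : E.S a b' = ea * eb * 1) (ac : E.S a c' = ea * ec * 1)
    (ah : E.S a h = ea * eh * t) :
    Emb (vd1 L X0 b c τ t) E (up4 φ a b' c' h) (up4 (fun _ => 1) ea eb ec eh) := by
  have s24 : ∀ n, 24 ≤ n → n ∉ X0 := fun n hn hm => by have := K.small n hm; omega
  have e1 := addEl2 (r := true) (u := fun _ => 0) K.e0 (n := 24) (s24 24 le_rfl) (K.sub ma) ra sa
    (fun i hi => ⟨K.ne hi ma, fun _ => by rw [K.zero hi ma ra]; ring⟩)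
  have e2 := addEl2 (r := false) (u := Function.update (pt L X0 b c τ.1 τ.2.1) 24 1) e1 (n := 25)
    (by
      intro hm
      rcases mem_insert.1 hm with hm | hm
      · omega
      · exact s24 25 (by omega) hm) (K.sub mb) rb sb (by
      intro i hi
      rcases mem_insert.1 hi with rfl | hi
      · simp only [Function.update_self]
        exact ⟨ne_of_row ra rb, fun _ => ab⟩
      · have hi' : i ∈ X0 := hi
        have n24 : i ≠ 24 := by have := K.small i hi'; omega
        simp only [Function.update_of_ne n24]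
        exact ⟨K.ne hi' mb, fun _ => K.col hi' mb b1 b2⟩)
  have e3 := addEl2 (r := false) (u := Function.update (pt L X0 b c τ.2.2.1 τ.2.2.2) 24 1) e2
    (n := 26) (by
      intro hm
      rcases mem_insert.1 hm with hm | hm
      · omega
      rcases mem_insert.1 hm with hm | hm
      · omega
      · exact s24 26 (by omega) hm) (K.sub mc) rc sc (by
      intro i hi
      rcases mem_insert.1 hi with rfl | hi
      · simp only [Function.update_self]
        exact ⟨bc, fun hne => absurd rb hne⟩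
      rcases mem_insert.1 hi with rfl | hi
      · simp only [Function.update_self, Function.update_of_ne (show (24 : ℕ) ≠ 25 by omega)]
        exact ⟨ne_of_row ra rc, fun _ => ac⟩
      · have hi' : i ∈ X0 := hi
        have n24 : i ≠ 24 := by have := K.small i hi'; omega
        have n25 : i ≠ 25 := by have := K.small i hi'; omega
        simp only [Function.update_of_ne n24, Function.update_of_ne n25]
        exact ⟨K.ne hi' mc, fun _ => K.col hi' mc c1 c2⟩)
  exact addEl2 (r := false) (u := Function.update (pt L X0 b c 1 1) 24 t) e3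
    (n := 27) (by
      intro hm
      rcases mem_insert.1 hm with hm | hm
      · omega
      rcases mem_insert.1 hm with hm | hm
      · omega
      rcases mem_insert.1 hm with hm | hm
      · omega
      · exact s24 27 (by omega) hm) (K.sub mh) rh sh (by
      intro i hi
      rcases mem_insert.1 hi with rfl | hi
      · simp only [Function.update_self]
        exact ⟨ch, fun hne => absurd rc hne⟩
      rcases mem_insert.1 hi with rfl | hi
      · simp only [Function.update_self, Function.update_of_ne (show (25 : ℕ) ≠ 26 by omega)]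
        exact ⟨bh, fun hne => absurd rb hne⟩
      rcases mem_insert.1 hi with rfl | hi
      · simp only [Function.update_self, Function.update_of_ne (show (24 : ℕ) ≠ 25 by omega),
          Function.update_of_ne (show (24 : ℕ) ≠ 26 by omega)]
        exact ⟨ne_of_row ra rh, fun _ => ah⟩
      · have hi' : i ∈ X0 := hi
        have n24 : i ≠ 24 := by have := K.small i hi'; omega
        have n25 : i ≠ 25 := by have := K.small i hi'; omega
        have n26 : i ≠ 26 := by have := K.small i hi'; omega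
        simp only [Function.update_of_ne n24, Function.update_of_ne n25, Function.update_of_ne n26]
        exact ⟨K.ne hi' mh, fun _ => K.col hi' mh h1 h2⟩)

theorem mem_vd1 {τ : F3 × F3 × F3 × F3} {t : F3} {i : ℕ} (hi : i ∈ (vd1 L X0 b c τ t).Z) :
    i = 27 ∨ i = 26 ∨ i = 25 ∨ i = 24 ∨ i ∈ X0 := by
  have : i ∈ insert 27 (insert 26 (insert 25 (insert 24 X0))) := hi
  simpa only [mem_insert] using this

theorem emb_vd2 (K : Ctx L E X0 Y φ b c T1 T2) {a b' c' h r : ℕ} {τ : F3 × F3 × F3 × F3}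
    {ea eb ec eh er kb kc : F3}
    (e1 : Emb (vd1 L X0 b c τ 0) E (up4 φ a b' c' h) (up4 (fun _ => 1) ea eb ec eh))
    (mr : r ∈ Y) (ra : E.row a = true) (rb : E.row b' = false)
    (rc : E.row c' = false) (rh : E.row h = false) (rr : E.row r = true) (ar : a ≠ r)
    (sr : er * er = 1) (hr : E.S h r = eh * er * 1) (br : E.S b' r = eb * er * kb)
    (cr : E.S c' r = ec * er * kc) :
    Emb (vd2 L X0 b c τ kb kc) E (Function.update (up4 φ a b' c' h) 28 r)
      (Function.update (up4 (fun _ => 1) ea eb ec eh) 28 er) := by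
  refine addEl2 (r := true) e1 (n := 28) ?_ (K.sub mr) rr sr ?_
  · intro hm
    rcases mem_vd1 hm with hm | hm | hm | hm | hm
    · omega
    · omega
    · omega
    · omega
    · have := K.small _ hm; omega
  · intro i hi
    rcases mem_vd1 hi with rfl | rfl | rfl | rfl | hi
    · rw [up4_27, up4_27]
      exact ⟨(ne_of_row rr rh).symm, fun _ => by simpa using hr⟩
    · rw [up4_26, up4_26]
      exact ⟨(ne_of_row rr rc).symm, fun _ => by simpa using cr⟩
    · rw [up4_25, up4_25]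
      exact ⟨(ne_of_row rr rb).symm, fun _ => by simpa using br⟩
    · rw [up4_24, up4_24]
      exact ⟨ar, fun hne => absurd ra hne⟩
    · have hs := K.small i hi
      rw [up4_lt _ _ _ _ _ hs, up4_lt _ _ _ _ _ hs]
      refine ⟨K.ne hi mr, fun _ => ?_⟩
      rw [K.zero hi mr rr, if_neg (by omega), if_neg (by omega), if_neg (by omega)]
      ring

theorem emb_vd3 (K : Ctx L E X0 Y φ b c T1 T2) {a b' c' h r q : ℕ} {τ : F3 × F3 × F3 × F3}
    {ea eb ec eh er eq l1 l2 t : F3}
    (e2 : Emb (vd2 L X0 b c τ 0 0) E (Function.update (up4 φ a b' c' h) 28 r)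
      (Function.update (up4 (fun _ => 1) ea eb ec eh) 28 er))
    (mq : q ∈ Y) (ra : E.row a = true) (rb : E.row b' = false)
    (rc : E.row c' = false) (rh : E.row h = false) (rr : E.row r = true) (rq : E.row q = false)
    (bq : b' ≠ q) (cq : c' ≠ q) (hq : h ≠ q) (sq : eq * eq = 1)
    (q1 : T1 q = eq * l1) (q2 : T2 q = eq * l2) (rq' : E.S r q = er * eq * 1)
    (aq : E.S a q = ea * eq * t) :
    Minor (vd3 L X0 b c τ l1 l2 t) E := by
  refine (addEl2 (r := false) e2 (n := 29) ?_ (K.sub mq) rq sq ?_).minor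
  · intro hm
    rcases mem_insert.1 hm with hm | hm
    · omega
    rcases mem_vd1 hm with hm | hm | hm | hm | hm
    · omega
    · omega
    · omega
    · omega
    · have := K.small _ hm; omega
  · intro i hi
    rcases mem_insert.1 hi with rfl | hi
    · simp only [Function.update_self]
      exact ⟨ne_of_row rr rq, fun _ => rq'⟩
    rcases mem_vd1 hi with rfl | rfl | rfl | rfl | hi
    · simp only [Function.update_of_ne (show (27 : ℕ) ≠ 28 by omega), up4_27]
      exact ⟨hq, fun hne => absurd rh hne⟩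
    · simp only [Function.update_of_ne (show (26 : ℕ) ≠ 28 by omega), up4_26]
      exact ⟨cq, fun hne => absurd rc hne⟩
    · simp only [Function.update_of_ne (show (25 : ℕ) ≠ 28 by omega), up4_25]
      exact ⟨bq, fun hne => absurd rb hne⟩
    · simp only [Function.update_of_ne (show (24 : ℕ) ≠ 28 by omega), up4_24,
        Function.update_self]
      exact ⟨ne_of_row ra rq, fun _ => aq⟩
    · have hs := K.small i hi
      have n24 : i ≠ 24 := by omega
      have n28 : i ≠ 28 := by omega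
      simp only [Function.update_of_ne n24, Function.update_of_ne n28, up4_lt _ _ _ _ _ hs]
      exact ⟨K.ne hi mq, fun _ => K.col hi mq q1 q2⟩

theorem sq_of_ne : ∀ s : F3, s ≠ 0 → s * s = 1 := by decide

/-- the normalisation of a pair of tame types. -/
theorem rot_cases : ∀ sb sc b1 b2 c1 c2 : F3, sb ≠ 0 → sc ≠ 0 → b1 ≠ b2 → c1 ≠ c2 →
    b1 * c2 ≠ c1 * b2 → sb * c1 - sc * b1 ≠ sb * c2 - sc * b2 →
    ∃ e : F3, e * e = 1 ∧
      ((e * sb * b1, e * sb * b2, e * sc * c1, e * sc * c2) ∈ rots ∨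
        (e * sc * c1, e * sc * c2, e * sb * b1, e * sb * b2) ∈ rots) := by
  decide +kernel

/-- the normalised form of the patterns. -/
theorem bad_core {Bad : Disp F3 → Prop} (hBad : ∀ G D, Minor G D → Bad G → Bad D)
    (K : Ctx L E X0 Y φ b c T1 T2) (ok : VOK Bad L X0 b c) {a b' c' h : ℕ} (ma : a ∈ Y)
    (mb : b' ∈ Y) (mc : c' ∈ Y) (mh : h ∈ Y) (ab : E.S a b' ≠ 0) (ac : E.S a c' ≠ 0)
    (tb : T1 b' ≠ T2 b') (tc : T1 c' ≠ T2 c') (tbc : T1 b' * T2 c' ≠ T1 c' * T2 b')
    (h1 : T1 h ≠ 0) (h2 : T2 h = T1 h) {e : F3} (se : e * e = 1)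
    (hτ : (e * E.S a b' * T1 b', e * E.S a b' * T2 b', e * E.S a c' * T1 c',
      e * E.S a c' * T2 c') ∈ rots)
    (alt : E.S a h ≠ 0 ∨ ∃ r ∈ Y, E.S a h = 0 ∧ E.S r h ≠ 0 ∧ (E.S r b' ≠ 0 ∨ E.S r c' ≠ 0 ∨
      ∃ q ∈ Y, E.S r b' = 0 ∧ E.S r c' = 0 ∧ E.S r q ≠ 0 ∧ (E.S a q ≠ 0 ∨ T1 q ≠ T2 q))) :
    Bad E := by
  have colT : ∀ j ∈ Y, (T1 j ≠ T2 j ∨ T1 j ≠ 0) → E.row j = false := by
    intro j hj hne
    cases hr : E.row j
    · rfl
    · obtain ⟨z1, z2⟩ := K.zr j hj hr
      rcases hne with hne | hne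
      · exact absurd (z1.trans z2.symm) hne
      · exact absurd z1 hne
  have opp1 : ∀ i j, E.S i j ≠ 0 → E.row j = false → E.row i = true := by
    intro i j hne hj
    have := row_ne_of_S hne
    rw [hj] at this
    simpa using this
  have opp2 : ∀ i j, E.S i j ≠ 0 → E.row i = true → E.row j = false := by
    intro i j hne hj
    have := row_ne_of_S hne
    rw [hj] at this
    simpa using this
  have rb := colT b' mb (Or.inl tb)
  have rc := colT c' mc (Or.inl tc)
  have rh := colT h mh (Or.inr h1)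
  have ra := opp1 a b' ab rb
  have bc : b' ≠ c' := by rintro rfl; exact tbc rfl
  have bh : b' ≠ h := by rintro rfl; exact tb h2.symm
  have ch : c' ≠ h := by rintro rfl; exact tc h2.symm
  have sab := sq_of_ne _ ab
  have sac := sq_of_ne _ ac
  have sh := sq_of_ne _ h1
  obtain ⟨v1, v2, v3⟩ := ok _ hτ
  have E1 : ∀ t, E.S a h = e * T1 h * t → Emb (vd1 L X0 b c (e * E.S a b' * T1 b',
      e * E.S a b' * T2 b', e * E.S a c' * T1 c', e * E.S a c' * T2 c') t) E (up4 φ a b' c' h)
      (up4 (fun _ => 1) e (e * E.S a b') (e * E.S a c') (T1 h)) := by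
    intro t ht
    refine emb_vd1 K ma mb mc mh ra rb rc rh bc bh ch se ?_ ?_ sh ?_ ?_ ?_ ?_ ?_ ?_ ?_ ?_ ht
    · linear_combination (E.S a b' * E.S a b') * se + sab
    · linear_combination (E.S a c' * E.S a c') * se + sac
    · linear_combination (-(T1 b' * E.S a b' * E.S a b')) * se - T1 b' * sab
    · linear_combination (-(T2 b' * E.S a b' * E.S a b')) * se - T2 b' * sab
    · linear_combination (-(T1 c' * E.S a c' * E.S a c')) * se - T1 c' * sac
    · linear_combination (-(T2 c' * E.S a c' * E.S a c')) * se - T2 c' * sac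
    · ring
    · rw [h2]; ring
    · linear_combination (-E.S a b') * se
    · linear_combination (-E.S a c') * se
  have e0 : e ≠ 0 := by rintro rfl; simp at se
  rcases alt with ah | ⟨r, mr, ah, hr, alt⟩
  · refine hBad _ _ (E1 (e * T1 h * E.S a h) ?_).minor (v1 _ ?_)
    · linear_combination (-(E.S a h * T1 h * T1 h)) * se - E.S a h * sh
    · exact mul_ne_zero (mul_ne_zero e0 h1) ah
  have rr := opp1 r h hr rh
  have ar : a ≠ r := by rintro rfl; exact hr ah
  have hr' : E.S h r ≠ 0 := S_ne_symm hr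
  have shr := sq_of_ne _ hr'
  have ser : (T1 h * E.S h r) * (T1 h * E.S h r) = 1 := by
    linear_combination (E.S h r * E.S h r) * sh + shr
  have er0 : T1 h * E.S h r ≠ 0 := mul_ne_zero h1 hr'
  have E2 : ∀ kb kc, E.S b' r = e * E.S a b' * (T1 h * E.S h r) * kb →
      E.S c' r = e * E.S a c' * (T1 h * E.S h r) * kc →
      Emb (vd2 L X0 b c (e * E.S a b' * T1 b',
        e * E.S a b' * T2 b', e * E.S a c' * T1 c', e * E.S a c' * T2 c') kb kc) E
        (Function.update (up4 φ a b' c' h) 28 r)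
        (Function.update (up4 (fun _ => 1) e (e * E.S a b') (e * E.S a c') (T1 h)) 28
          (T1 h * E.S h r)) := by
    intro kb kc hkb hkc
    refine emb_vd2 K (E1 0 (by rw [ah]; ring)) mr ra rb rc rh rr ar ser ?_ hkb hkc
    linear_combination (-E.S h r) * sh
  have unit : ∀ x y : F3, x ≠ 0 → y = x * (x * y) := by decide
  have eb0 : e * E.S a b' * (T1 h * E.S h r) ≠ 0 := mul_ne_zero (mul_ne_zero e0 ab) er0
  have ec0 : e * E.S a c' * (T1 h * E.S h r) ≠ 0 := mul_ne_zero (mul_ne_zero e0 ac) er0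
  by_cases hbc : E.S r b' ≠ 0 ∨ E.S r c' ≠ 0
  · refine hBad _ _ (E2 _ _ (unit _ _ eb0) (unit _ _ ec0)).minor (v2 _ _ ?_)
    rcases hbc with hb | hc
    · exact Or.inl (mul_ne_zero eb0 (S_ne_symm hb))
    · exact Or.inr (mul_ne_zero ec0 (S_ne_symm hc))
  obtain ⟨q, mq, rb0, rc0, rq0, alt⟩ : ∃ q ∈ Y, E.S r b' = 0 ∧ E.S r c' = 0 ∧ E.S r q ≠ 0 ∧
      (E.S a q ≠ 0 ∨ T1 q ≠ T2 q) := by
    rcases alt with alt | alt | alt
    · exact absurd (Or.inl alt) hbc
    · exact absurd (Or.inr alt) hbc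
    · exact alt
  have rq := opp2 r q rq0 rr
  have bq : b' ≠ q := by rintro rfl; exact rq0 rb0
  have cq : c' ≠ q := by rintro rfl; exact rq0 rc0
  have hq : h ≠ q := by
    rintro rfl
    rcases alt with alt | alt
    · exact alt ah
    · exact alt h2.symm
  have eq0 : T1 h * E.S h r * E.S r q ≠ 0 := mul_ne_zero er0 rq0
  have e2 := E2 0 0 (by rw [E.skew, rb0]; ring) (by rw [E.skew, rc0]; ring)
  refine hBad _ _ (emb_vd3 K e2 mq ra rb rc rh rr rq bq cq hq (sq_of_ne _ eq0) (unit _ _ eq0)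
    (unit _ _ eq0) ?_ (unit _ _ (mul_ne_zero e0 eq0))) (v3 _ _ _ ?_)
  · linear_combination (-E.S r q) * ser
  · rcases alt with alt | alt
    · exact Or.inl (mul_ne_zero (mul_ne_zero e0 eq0) alt)
    · exact Or.inr (fun hh => alt (mul_left_cancel₀ eq0 hh))

theorem bad_of_vpat {Bad : Disp F3 → Prop} (hBad : ∀ G D, Minor G D → Bad G → Bad D)
    {R : Disp F3} {t1 t2 : ℕ} (K : Ctx L E X0 Y φ b c (R.S t1) (R.S t2)) (ok : VOK Bad L X0 b c)
    (hv : VPat E R Y t1 t2) : Bad E := by
  obtain ⟨a, ma, b', mb, c', mc, h, mh, ab, ac, tb, tc, tbc, td, h1, h2, alt⟩ := hv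
  obtain ⟨e, se, hτ | hτ⟩ := rot_cases _ _ _ _ _ _ ab ac tb tc tbc td
  · exact bad_core hBad K ok ma mb mc mh ab ac tb tc tbc h1 h2 se hτ alt
  · refine bad_core hBad K ok ma mc mb mh ac ab tc tb tbc.symm h1 h2 se hτ ?_
    rcases alt with alt | ⟨r, mr, z, hr, alt⟩
    · exact Or.inl alt
    · refine Or.inr ⟨r, mr, z, hr, ?_⟩
      rcases alt with alt | alt | ⟨q, mq, z1, z2, alt⟩
      · exact Or.inr (Or.inl alt)
      · exact Or.inl alt
      · exact Or.inr (Or.inr ⟨q, mq, z2, z1, alt⟩)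

end T2a

end Pool.Agent.Lib.MP_c69b6d_co.F
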