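import Pool.Agent.Lib.MP_c69b6d_co.F.Tame
import Pool.Agent.Lib.MP_c69b6d_co.F.Defs2
import Pool.Agent.Lib.MP_c69b6d_co.F.Tame2a

/-! Tameness from finite conditions. -/

namespace Pool.Agent.Lib.MP_c69b6d_co.F

open Finset Disp

namespace T2a

theorem solve2 {p q r s A B u v : F3} (hd : p * s - q * r ≠ 0) (h1 : p * A + q * B = p * u + q * v)
    (h2 : r * A + s * B = r * u + s * v) : A = u ∧ B = v := by
  constructor
  · apply mul_left_cancel₀ hd
    linear_combination s * h1 - q * h2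
  · apply mul_left_cancel₀ hd
    linear_combination p * h2 - r * h1

/-- the fourth point is not realised on `Y0` and the rows of `Y`. -/
theorem row_part {Bad : Disp F3 → Prop} (hBad : ∀ G D, Minor G D → Bad G → Bad D)
    {L D R : Disp F3} {X0 Y0 X Y : Finset ℕ} {φ : ℕ → ℕ} {x1 x2 b c t1 t2 t3 : ℕ}
    (hZ : L.Z = X0 ∪ Y0) (small : ∀ i ∈ L.Z, i < 24) (m1 : x1 ∈ X0) (m2 : x2 ∈ X0) (mb : b ∈ Y0)
    (mc : c ∈ Y0) (det : L.S x1 b * L.S x2 c - L.S x1 c * L.S x2 b ≠ 0)
    (ok : RowOK Bad L Y0 x1 x2 b c) (hb : ¬ Bad D)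
    (he : Emb L D φ (fun _ => 1)) (hX : X0.image φ ⊆ X) (hY : Y0.image φ ⊆ Y)
    (nf : NF D R X Y (fun i => D.S i (φ b)) (fun i => D.S i (φ c)) t1 t2 t3) :
    ¬ Real4 (R.restrict (Y0.image φ ∪ Y.filter (fun i => D.row i = true) ∪ {t1, t2})) t1 t2 := by
  have xz : ∀ i ∈ X0, i ∈ L.Z := fun i hi => by rw [hZ]; exact mem_union_left _ hi
  have yz : ∀ i ∈ Y0, i ∈ L.Z := fun i hi => by rw [hZ]; exact mem_union_right _ hi
  have xX : ∀ i ∈ X0, φ i ∈ X := fun i hi => hX (mem_image_of_mem φ hi)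
  have yY : ∀ i ∈ Y0, φ i ∈ Y := fun i hi => hY (mem_image_of_mem φ hi)
  have ent : ∀ i ∈ L.Z, ∀ j ∈ L.Z, D.S (φ i) (φ j) = L.S i j := fun i hi j hj => by
    rw [he.ent i hi j hj]; ring
  have typ : ∀ i ∈ X0, ∀ j ∈ Y0,
      L.S i j = L.S i b * R.S t1 (φ j) + L.S i c * R.S t2 (φ j) := by
    intro i hi j hj
    have := nf.ent (φ i) (xX i hi) (φ j) (yY j hj)
    simp only [ent i (xz i hi) j (yz j hj), ent i (xz i hi) b (yz b mb),
      ent i (xz i hi) c (yz c mc)] at this
    exact this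
  set U := Y0.image φ ∪ Y.filter (fun i => D.row i = true) ∪ {t1, t2} with hU
  have imU : Y0.image φ ⊆ U := fun i hi => mem_union_left _ (mem_union_left _ hi)
  have t1U : t1 ∈ U := mem_union_right _ (by simp)
  have t2U : t2 ∈ U := mem_union_right _ (by simp)
  have casesU : ∀ i ∈ U, i ∈ Y0.image φ ∨ (i ∈ Y ∧ D.row i = true) ∨ i = t1 ∨ i = t2 := by
    intro i hi
    rcases mem_union.1 hi with hi | hi
    · rcases mem_union.1 hi with hi | hi
      · exact Or.inl hi
      · exact Or.inr (Or.inl (mem_filter.1 hi))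
    · exact Or.inr (Or.inr (by simpa using hi))
  have rowU : ∀ i ∈ U, i ∉ Y0.image φ → R.row i = true := by
    intro i hi hn
    rcases casesU i hi with h | h | rfl | rfl
    · exact absurd h hn
    · rw [nf.agree.1 i h.1]; exact h.2
    · exact nf.r1
    · exact nf.r2
  have word : ∀ e ∈ (R.restrict U).flip.code, ∀ i ∈ U, R.row i = true →
      e i = ∑ j ∈ Y0, e (φ j) * R.S (φ j) i := by
    intro e hc i hi hr
    have h1 : e i = ∑ j ∈ U, e j * R.S j i := (mem_flip_code.1 hc).2 i hi hr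
    rw [h1, ← sum_subset imU (fun j hj hn => by
      rw [R.bip j i ((rowU j hj hn).trans hr.symm)]; ring)]
    exact sum_image (fun x hx y hy e => he.inj (yz x hx) (yz y hy) e)
  have rowR : ∀ j ∈ Y0, R.row (φ j) = L.row j := fun j hj => by
    rw [nf.agree.1 _ (yY j hj), he.row j (yz j hj)]
  have comb : ∀ (z : ℕ → F3), ∀ i ∈ X0, ∑ j ∈ Y0, L.S i j * z j =
      L.S i b * (-∑ j ∈ Y0, z j * R.S (φ j) t1) + L.S i c * (-∑ j ∈ Y0, z j * R.S (φ j) t2) := by
    intro z i hi
    rw [← sum_neg_distrib, ← sum_neg_distrib, mul_sum, mul_sum, ← sum_add_distrib]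
    refine sum_congr rfl (fun j hj => ?_)
    rw [typ i hi j hj, R.skew (φ j) t1, R.skew (φ j) t2]; ring
  rintro ⟨d, hd, d1, d2, hmin⟩
  have w1 := word d hd t1 t1U nf.r1
  have w2 := word d hd t2 t2U nf.r2
  obtain ⟨y, s', ⟨j0, mj0, rj0, yj0⟩, y1, y2, yz0, yrow, yv⟩ := ok (fun j => d (φ j)) (-d t1)
    (neg_ne_zero.2 d1) (by rw [comb _ x1 m1, ← w1, ← w2, d2]; ring)
    (by rw [comb _ x2 m2, ← w1, ← w2, d2]; ring)
  obtain ⟨d', hd', hv⟩ := exists_code (R.restrict U).flip
    (fun k => y (Function.invFunOn φ (Y0 : Set ℕ) k))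
  have injY : Set.InjOn φ (Y0 : Set ℕ) := fun x hx y hy e => he.inj (yz x hx) (yz y hy) e
  have dy : ∀ j ∈ Y0, L.row j = false → d' (φ j) = y j := by
    intro j hj hr
    rw [hv (φ j) (mem_B.2 ⟨imU (mem_image_of_mem φ hj), by
      show (!R.row (φ j)) = true
      rw [rowR j hj, hr]; rfl⟩)]
    show y (Function.invFunOn φ (Y0 : Set ℕ) (φ j)) = y j
    rw [injY.leftInvOn_invFunOn hj]
  have word' : ∀ i ∈ U, R.row i = true → d' i = ∑ j ∈ Y0, y j * R.S (φ j) i := by
    intro i hi hr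
    rw [word d' hd' i hi hr]
    refine sum_congr rfl (fun j hj => ?_)
    cases hj' : L.row j
    · rw [dy j hj hj']
    · rw [R.bip (φ j) i (by rw [rowR j hj, hj', hr])]; ring
  have d't1 : d' t1 = 0 := by
    have := (solve2 (u := 0) (v := s') det (by rw [← comb y x1 m1, y1]; ring)
      (by rw [← comb y x2 m2, y2]; ring)).1
    rw [word' t1 t1U nf.r1]
    exact neg_eq_zero.1 this
  have key : ∀ i, d i = 0 → d' i = 0 := by
    intro i hi
    by_cases hiU : i ∈ U
    swap
    · exact (mem_flip_code.1 hd').1 i hiU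
    by_cases him : i ∈ Y0.image φ
    · obtain ⟨j, hj, rfl⟩ := mem_image.1 him
      cases hr : L.row j
      · rw [dy j hj hr]; exact yz0 j hj hr hi
      · have hr' : R.row (φ j) = true := by rw [rowR j hj, hr]
        have flipS : ∀ z : ℕ → F3, ∑ k ∈ Y0, z k * R.S (φ k) (φ j) =
            -∑ k ∈ Y0, L.S j k * z k := by
          intro z
          rw [← sum_neg_distrib]
          refine sum_congr rfl (fun k hk => ?_)
          rw [nf.agree.2 _ (yY k hk) _ (yY j hj), ent k (yz k hk) j (yz j hj), L.skew k j]; ring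
        rw [word' _ hiU hr', flipS, yrow j hj ?_ hr, neg_zero]
        have := word d hd _ hiU hr'
        rw [hi, flipS] at this
        exact neg_eq_zero.1 this.symm
    rcases casesU i hiU with h | ⟨mi, ri⟩ | rfl | rfl
    · exact absurd h him
    · have hr' : R.row i = true := rowU i hiU him
      have sumv : ∀ z : ℕ → F3,
          ∑ k ∈ Y0, (if k ∈ Y0 ∧ L.row k = false then D.S (φ k) i else 0) * z k =
            ∑ k ∈ Y0, z k * R.S (φ k) i := by
        intro z
        refine sum_congr rfl (fun k hk => ?_)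
        rw [nf.agree.2 _ (yY k hk) _ mi]
        cases hk' : L.row k
        · rw [if_pos ⟨hk, rfl⟩]; ring
        · rw [if_neg (by simp), D.bip (φ k) i (by rw [he.row k (yz k hk), hk', ri])]; ring
      rcases yv (fun k => if k ∈ Y0 ∧ L.row k = false then D.S (φ k) i else 0)
        (fun k hk => if_neg hk) with hbad | himp
      · refine absurd (hBad _ _ (addEl2 (s := 1) he (fun hm => ?_) (v := i) ?_ ri (by ring)
          (fun k hk => ⟨?_, fun hne => ?_⟩)).minor hbad) hb
        · have := small _ hm; omega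
        · rw [nf.dZ]; exact mem_union_right _ mi
        · rintro rfl
          rw [hZ] at hk
          rcases mem_union.1 hk with hk | hk
          · exact disjoint_left.1 nf.disj (xX k hk) mi
          · exact him (mem_image_of_mem φ hk)
        · have hk' : D.row (φ k) = false := by simpa using hne
          by_cases hk0 : k ∈ Y0
          · rw [if_pos ⟨hk0, by rw [← he.row k hk]; exact hk'⟩]; ring
          · have hk1 : k ∈ X0 := by
              rw [hZ] at hk
              exact (mem_union.1 hk).resolve_right hk0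
            obtain ⟨z1, z2⟩ := nf.qrow _ (xX k hk1) hk'
            rw [if_neg (fun hh => hk0 hh.1), nf.ent _ (xX k hk1) i mi, z1, z2]; ring
      · rw [word' i hiU hr', ← sumv]
        apply himp
        rw [sumv, ← word d hd i hiU hr']
        exact hi
    · exact d't1
    · exact absurd (d2 ▸ hi) d1
  have := congrFun (hmin d' hd' d't1 key) (φ j0)
  rw [dy j0 mj0 rj0] at this
  exact yj0 this

end T2a

/-- tameness from the finite conditions. -/
theorem tame' {Bad : Disp F3 → Prop} (hBad : ∀ G D, Minor G D → Bad G → Bad D)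
    {L D R : Disp F3} {X0 Y0 X Y : Finset ℕ} {φ : ℕ → ℕ} {x1 x2 b c t1 t2 t3 : ℕ}
    (hZ : L.Z = X0 ∪ Y0) (small : ∀ i ∈ L.Z, i < 24) (m1 : x1 ∈ X0) (m2 : x2 ∈ X0) (mb : b ∈ Y0)
    (mc : c ∈ Y0)
    (ok : TameOK Bad L X0 Y0 x1 x2 b c) (hD : D.Conn3) (hb : ¬ Bad D)
    (he : Emb L D φ (fun _ => 1)) (hX : X0.image φ ⊆ X) (hY : Y0.image φ ⊆ Y)
    (nf : NF D R X Y (fun i => D.S i (φ b)) (fun i => D.S i (φ c)) t1 t2 t3)
    (hmin : ∀ h ∈ Y, h ∉ Y0.image φ → 3 ≤ D.lam (insert h X) (Y.erase h)) :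
    ¬ Real4 (R.restrict (Y ∪ {t1, t2})) t1 t2 := by
  obtain ⟨det, ⟨a, ma, ab, ac⟩, vok, rok⟩ := ok
  have xz : ∀ i ∈ X0, i ∈ L.Z := fun i hi => by rw [hZ]; exact mem_union_left _ hi
  have yz : ∀ i ∈ Y0, i ∈ L.Z := fun i hi => by rw [hZ]; exact mem_union_right _ hi
  have xX : ∀ i ∈ X0, φ i ∈ X := fun i hi => hX (mem_image_of_mem φ hi)
  have yY : ∀ i ∈ Y0, φ i ∈ Y := fun i hi => hY (mem_image_of_mem φ hi)
  have ent : ∀ i ∈ L.Z, ∀ j ∈ L.Z, D.S (φ i) (φ j) = L.S i j := fun i hi j hj => by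
    rw [he.ent i hi j hj]; ring
  have typ : ∀ i ∈ X0, ∀ j ∈ Y0,
      L.S i j = L.S i b * R.S t1 (φ j) + L.S i c * R.S t2 (φ j) := by
    intro i hi j hj
    have := nf.ent (φ i) (xX i hi) (φ j) (yY j hj)
    simp only [ent i (xz i hi) j (yz j hj), ent i (xz i hi) b (yz b mb),
      ent i (xz i hi) c (yz c mc)] at this
    exact this
  obtain ⟨b1, b2⟩ := T2a.solve2 (u := 1) (v := 0) det (by rw [← typ x1 m1 b mb]; ring)
    (by rw [← typ x2 m2 b mb]; ring)
  obtain ⟨c1, c2⟩ := T2a.solve2 (u := 0) (v := 1) det (by rw [← typ x1 m1 c mc]; ring)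
    (by rw [← typ x2 m2 c mc]; ring)
  refine tame hD nf hY (mem_image_of_mem φ ma) (mem_image_of_mem φ mb) (mem_image_of_mem φ mc)
    (by rw [ent a (yz a ma) b (yz b mb)]; exact ab) (by rw [ent a (yz a ma) c (yz c mc)]; exact ac)
    (by rw [b1, b2, c1, c2]; decide) hmin
    (T2a.row_part hBad hZ small m1 m2 mb mc det rok hb he hX hY nf) ?_
  intro D' R' hr hag nf' hv
  have K : T2a.Ctx L D' X0 Y φ b c (R'.S t1) (R'.S t2) :=
    { e0 :=
        { inj := fun x hx y hy e => he.inj (xz x hx) (xz y hy) e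
          mem := fun i hi => by rw [hr.Z_eq]; exact he.mem i (xz i hi)
          row := fun i hi => by rw [hag.1 _ (xX i hi)]; exact he.row i (xz i hi)
          sq := fun i _ => by ring
          ent := fun i hi j hj => by
            rw [hag.2 _ (xX i hi) _ (xX j hj)]; exact he.ent i (xz i hi) j (xz j hj) }
      small := fun i hi => small i (xz i hi)
      nY := fun i hi => disjoint_left.1 nf.disj (xX i hi)
      sub := by rw [nf'.dZ]; exact subset_union_right
      ent := fun i hi j hj => by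
        have := nf'.ent _ (xX i hi) j hj
        simp only [ent i (xz i hi) b (yz b mb), ent i (xz i hi) c (yz c mc)] at this
        rw [this]; ring
      zr := fun j hj hrow => by
        have h1 : R'.row j = true := by rw [nf'.agree.1 j hj]; exact hrow
        exact ⟨R'.bip _ _ (nf'.r1.trans h1.symm), R'.bip _ _ (nf'.r2.trans h1.symm)⟩ }
  exact hb (hBad _ _ hr.minor (T2a.bad_of_vpat hBad K vok hv))

end Pool.Agent.Lib.MP_c69b6d_co.F
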