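import Pool.Agent.Lib.MP_c69b6d_co.F.Rules

/-! The patterns V4. -/

namespace Pool.Agent.Lib.MP_c69b6d_co.F

open Finset Disp

namespace V4Aux

theorem sq3 {s : F3} (h : s ≠ 0) : s * s = 1 := by
  revert s; decide

theorem norm_pt (α β : F3) (h : ¬ (α = 0 ∧ β = 0)) : ∃ s α' β' : F3, s * s = 1 ∧ α = s * α' ∧
    β = s * β' ∧ (α', β') ∈ ([(1, 0), (0, 1), (1, -1), (1, 1)] : List (F3 × F3)) := by
  revert α β; decide

theorem cpy_emb {L E : Disp F3} {ψ : ℕ → ℕ} {ε : ℕ → F3} (he : Emb L E ψ ε) {z i : ℕ}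
    (hz : z ∈ L.Z) (hi : i ∈ L.Z) (r : Bool) :
    cpy E (ψ z) r (ψ i) = ε i * ε z * cpy L z r i := by
  unfold cpy
  rw [he.row z hz]
  by_cases h : L.row z = r
  · rw [if_pos h, if_pos h]; exact he.ent i hi z hz
  · rw [if_neg h, if_neg h]
    by_cases hiz : i = z
    · subst hiz
      rw [if_pos rfl, if_pos rfl, he.sq i hi, one_mul]
    · rw [if_neg hiz, if_neg (fun e => hiz (he.inj hi hz e)), mul_zero]

/-- one element of the guts line is read on the small display. -/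
theorem one {L E L1 : Disp F3} {X0 Y0 X Y : Finset ℕ} {φ ψ : ℕ → ℕ} {ε : ℕ → F3}
    {x1 x2 a b c : ℕ} (hZ : L.Z = X0 ∪ Y0) (m1 : x1 ∈ X0)
    (m2 : x2 ∈ X0) (ma : a ∈ Y0) (mb : b ∈ Y0) (mc : c ∈ Y0) (r1 : L.row x1 = true)
    (r2 : L.row x2 = true)
    (det : L.S x1 b * L.S x2 c - L.S x1 c * L.S x2 b ≠ 0) (ab : L.S a b ≠ 0) (ac : L.S a c ≠ 0)
    (he : Emb L E φ (fun _ => 1)) (hX : X0.image φ ⊆ X) (hY : Y0.image φ ⊆ Y)
    (he1 : Emb L1 E ψ ε) {N z1 : ℕ} (hN : N ∉ L1.Z) (hW : X0 ∪ {a, b, c} ⊆ L1.Z)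
    (hψ : ∀ i ∈ X0 ∪ {a, b, c}, ψ i = φ i ∧ ε i = 1)
    (hrest : ∀ i ∈ L1.Z, i ∉ X0 ∪ {a, b, c} → L1.row i = false ∧ ψ i ≠ z1)
    (hz1 : z1 ∈ E.Z) {α β : F3} (h0 : ¬ (α = 0 ∧ β = 0))
    (hl : OnLine E X Y (φ b) (φ c) z1 α β) :
    ∃ (o : Option ℕ) (s α' β' : F3) (ψ' : ℕ → ℕ) (ε' : ℕ → F3), OptOK L X0 b c o α' β' ∧
      s * s = 1 ∧ α = s * α' ∧ β = s * β' ∧ Emb (extO L1 L X0 b c o N α' β') E ψ' ε' ∧
      (∀ i ∈ L1.Z, i ∈ (extO L1 L X0 b c o N α' β').Z ∧ ψ' i = ψ i ∧ ε' i = ε i) ∧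
      o.getD N ∈ (extO L1 L X0 b c o N α' β').Z ∧ ψ' (o.getD N) = z1 ∧ ε' (o.getD N) = s ∧
      ∀ i ∈ (extO L1 L X0 b c o N α' β').Z, i ∈ L1.Z ∨
        (i = N ∧ (extO L1 L X0 b c o N α' β').row i = false ∧ ψ' i = z1) := by
  have lx : ∀ i ∈ X0, i ∈ L.Z := fun i hi => by rw [hZ]; exact mem_union_left _ hi
  have ly : ∀ i ∈ Y0, i ∈ L.Z := fun i hi => by rw [hZ]; exact mem_union_right _ hi
  have ent : ∀ i ∈ L.Z, ∀ j ∈ L.Z, E.S (φ i) (φ j) = L.S i j := fun i hi j hj => by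
    rw [he.ent i hi j hj]; ring
  have fx : ∀ i ∈ X0, φ i ∈ X := fun i hi => hX (mem_image_of_mem φ hi)
  have fy : ∀ i ∈ Y0, φ i ∈ Y := fun i hi => hY (mem_image_of_mem φ hi)
  by_cases hin : ∃ z ∈ X0, φ z = z1
  · obtain ⟨z, hz, rfl⟩ := hin
    have hz' : z ∈ X0 ∪ {a, b, c} := mem_union_left _ hz
    refine ⟨some z, 1, α, β, ψ, ε, ⟨hz, ?_⟩, one_mul 1, (one_mul α).symm, (one_mul β).symm, he1,
      fun i hi => ⟨hi, rfl, rfl⟩, hW hz', (hψ z hz').1, (hψ z hz').2, fun i hi => Or.inl hi⟩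
    intro i hi ri
    unfold cpy
    rcases hl with ⟨h1, h2, _⟩ | ⟨_, h1, h2⟩
    · rw [he.row z (lx z hz)] at h1
      rw [if_pos h1, ← ent i (lx i hi) z (lx z hz), h2 _ (fx i hi), ent i (lx i hi) b (ly b mb),
        ent i (lx i hi) c (ly c mc)]
    · rw [he.row z (lx z hz)] at h1
      have h3 := h2 _ (fx i hi) (by rw [he.row i (lx i hi)]; exact ri)
      rw [ent i (lx i hi) b (ly b mb), ent i (lx i hi) c (ly c mc)] at h3
      rw [if_neg (by rw [h1]; decide), h3]
      by_cases hiz : i = z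
      · rw [if_pos hiz, if_pos (by rw [hiz])]
      · rw [if_neg hiz, if_neg (fun e => hiz (he.inj (lx i hi) (lx z hz) e))]
  · have hin' : ∀ z ∈ X0, φ z ≠ z1 := fun z hz e => hin ⟨z, hz, e⟩
    rcases hl with ⟨h1, h2, h3⟩ | ⟨_, _, h2⟩
    swap
    · exfalso
      have e1 := h2 _ (fx x1 m1) (by rw [he.row x1 (lx x1 m1)]; exact r1)
      have e2 := h2 _ (fx x2 m2) (by rw [he.row x2 (lx x2 m2)]; exact r2)
      rw [if_neg (hin' x1 m1), ent x1 (lx _ m1) b (ly b mb), ent x1 (lx _ m1) c (ly c mc)] at e1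
      rw [if_neg (hin' x2 m2), ent x2 (lx _ m2) b (ly b mb), ent x2 (lx _ m2) c (ly c mc)] at e2
      apply h0
      constructor
      · apply mul_left_cancel₀ det
        linear_combination L.S x2 c * e1 - L.S x1 c * e2
      · apply mul_left_cancel₀ det
        linear_combination L.S x1 b * e2 - L.S x2 b * e1
    obtain ⟨s, α', β', ss, e1, e2, hm⟩ := norm_pt α β h0
    have rb : L.row b = false := by
      by_contra hb
      have hb' : L.row b = true := by revert hb; cases L.row b <;> simp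
      apply det
      rw [L.bip x1 b (by rw [r1, hb']), L.bip x2 b (by rw [r2, hb'])]; ring
    have ra : L.row a = true := by
      have := row_ne_of_S ab
      rw [rb] at this
      revert this; cases L.row a <;> simp
    have sa := h3 _ (fy a ma)
    have hne : ∀ i ∈ L1.Z, ψ i ≠ z1 := by
      intro i hi
      by_cases hi' : i ∈ X0 ∪ {a, b, c}
      · rw [(hψ i hi').1]
        rcases mem_union.1 hi' with h | h
        · exact hin' i h
        · intro e
          rcases mem_insert.1 h with rfl | h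
          · rw [← e, he.row i (ly i ma), ra] at h1
            exact absurd h1 (by decide)
          · rcases mem_insert.1 h with rfl | h
            · rw [← e, ent a (ly a ma) i (ly i mb)] at sa
              exact ab sa
            · rw [← e, mem_singleton.1 h, ent a (ly a ma) c (ly c mc)] at sa
              exact ac sa
      · exact (hrest i hi hi').2
    have he2 := he1.addEl hN hz1 hne ss (u := pt L X0 b c α' β') (by
      intro i hi ri
      by_cases hi' : i ∈ X0 ∪ {a, b, c}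
      · rw [(hψ i hi').1, (hψ i hi').2]
        unfold pt
        by_cases hi0 : i ∈ X0
        · rw [if_pos hi0, h2 _ (fx i hi0), ent i (lx i hi0) b (ly b mb),
            ent i (lx i hi0) c (ly c mc), e1, e2]
          ring
        · have hiy : i ∈ Y0 := by
            rcases mem_union.1 hi' with h | h
            · exact absurd h hi0
            · rcases mem_insert.1 h with rfl | h
              · exact ma
              · rcases mem_insert.1 h with rfl | h
                · exact mb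
                · rw [mem_singleton.1 h]; exact mc
          rw [if_neg hi0, h3 _ (fy i hiy), mul_zero]
      · rw [(hrest i hi hi').1, h1] at ri
        exact absurd rfl ri)
    rw [h1] at he2
    refine ⟨none, s, α', β', _, _, hm, ss, e1, e2, he2, fun i hi => ?_, mem_insert_self _ _,
      Function.update_self _ _ _, Function.update_self _ _ _, fun i hi => ?_⟩
    · have hiN : i ≠ N := fun e => hN (e ▸ hi)
      exact ⟨mem_insert_of_mem hi, Function.update_of_ne hiN _ _, Function.update_of_ne hiN _ _⟩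
    · rcases mem_insert.1 hi with rfl | hi
      · exact Or.inr ⟨rfl, by simp [extO, addEl], Function.update_self _ _ _⟩
      · exact Or.inl hi

end V4Aux

open V4Aux in
theorem noV4_of_ok {𝓛 : List (Disp F3)} {L E : Disp F3} {X0 Y0 X Y : Finset ℕ} {φ : ℕ → ℕ}
    {x1 x2 a b c : ℕ} (hZ : L.Z = X0 ∪ Y0) (small : ∀ i ∈ L.Z, i < 24) (m1 : x1 ∈ X0)
    (m2 : x2 ∈ X0) (ma : a ∈ Y0) (mb : b ∈ Y0) (mc : c ∈ Y0) (r1 : L.row x1 = true)
    (r2 : L.row x2 = true)
    (det : L.S x1 b * L.S x2 c - L.S x1 c * L.S x2 b ≠ 0) (ab : L.S a b ≠ 0) (ac : L.S a c ≠ 0)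
    (ok : V4OK 𝓛 L X0 a b c) (he : Emb L E φ (fun _ => 1)) (hE : E.Z = X ∪ Y)
    (hd : Disjoint X Y) (hX : X0.image φ ⊆ X) (hY : Y0.image φ ⊆ Y) :
    NoV4 𝓛 E X Y (φ b) (φ c) := by
  intro G a1 b1 c1 w α1 β1 α2 β2 ha1 hGZ rG hag hw hs hb1 hc1 hbc l1 l2 hdet hcase hF
  have hW : X0 ∪ {a, b, c} ⊆ L.Z := by
    rw [hZ]
    refine union_subset_union_right ?_
    intro i h
    rcases mem_insert.1 h with rfl | h
    · exact ma
    · rcases mem_insert.1 h with rfl | h
      · exact mb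
      · rw [mem_singleton.1 h]; exact mc
  have sm : ∀ i ∈ X0 ∪ {a, b, c}, i < 24 := fun i hi => small i (hW hi)
  obtain ⟨o1, s1, α1', β1', ψ1, ε1, k1, ss1, a1e, b1e, he1, p1, q1, t1, u1, v1⟩ :=
    one (L1 := L.restrict (X0 ∪ {a, b, c})) (N := 24) hZ m1 m2 ma mb mc r1 r2 det ab ac he hX hY
      (he.restrict hW) (fun h => absurd (sm 24 h) (by omega)) Subset.rfl
      (fun i _ => ⟨rfl, rfl⟩) (fun i hi hi' => absurd hi hi') hb1
      (fun h => hdet (by rw [h.1, h.2]; ring)) l1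
  have sm1 : ∀ i ∈ (extO (L.restrict (X0 ∪ {a, b, c})) L X0 b c o1 24 α1' β1').Z, i < 25 := by
    intro i hi
    rcases v1 i hi with h | ⟨h, _⟩
    · have := sm i h; omega
    · omega
  obtain ⟨o2, s2, α2', β2', ψ2, ε2, k2, ss2, a2e, b2e, he2, p2, q2, t2, u2, v2⟩ :=
    one (N := 25) hZ m1 m2 ma mb mc r1 r2 det ab ac he hX hY he1
      (fun h => absurd (sm1 25 h) (by omega)) (fun i hi => (p1 i hi).1)
      (fun i hi => (p1 i hi).2) (fun i hi hi' => by
        rcases v1 i hi with h | ⟨_, h1, h2⟩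
        · exact absurd h hi'
        · exact ⟨h1, by rw [h2]; exact hbc⟩) hc1
      (fun h => hdet (by rw [h.1, h.2]; ring)) l2
  obtain ⟨q1', t1', u1'⟩ := p2 _ q1
  rw [t1] at t1'
  rw [u1] at u1'
  have wb : w b1 ≠ 0 := (hs b1).2 (by simp)
  have wc : w c1 ≠ 0 := (hs c1).2 (by simp)
  have wb2 := sq3 wb
  have wc2 := sq3 wc
  have s1n : s1 ≠ 0 := fun e => by rw [e, mul_zero] at ss1; exact zero_ne_one ss1
  have s2n : s2 ≠ 0 := fun e => by rw [e, mul_zero] at ss2; exact zero_ne_one ss2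
  have hH := ok o1 o2 α1' β1' α2' β2' (w b1 * w c1 * s1 * s2) k1 k2
    (fun e => hdet (by rw [a1e, b1e, a2e, b2e]; linear_combination (s1 * s2) * e))
    (sq3 (mul_ne_zero (mul_ne_zero (mul_ne_zero wb wc) s1n) s2n)) (by
      rcases hcase with h | h | h
      · left
        rw [a1e, b1e] at h
        exact mul_left_cancel₀ s1n h
      · right; left
        rw [a2e, b2e] at h
        exact mul_left_cancel₀ s2n h
      · right; right
        rw [a1e, b1e, a2e, b2e] at h
        linear_combination (w b1 * s2) * h + (s2 * s2 * (α2' - β2')) * wb2 + (α2' - β2') * ss2)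
  set L2 := extO (extO (L.restrict (X0 ∪ {a, b, c})) L X0 b c o1 24 α1' β1') L X0 b c o2 25
    α2' β2' with hL2
  have n26 : 26 ∉ L2.Z := by
    intro h
    rcases v2 26 h with h | ⟨h, _⟩
    · have := sm1 26 h; omega
    · omega
  obtain ⟨n, hn⟩ := Infinite.exists_notMem_finset E.Z
  obtain ⟨s, hs'⟩ := emb_star ha1 hn hGZ rG hag hb1 hc1 hbc hw hs
  have ss : s * s = 1 := by
    have := hs'.sq n (mem_insert_self _ _)
    rwa [Function.update_self] at this
  have heG : Emb L2 G ψ2 ε2 := by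
    refine ⟨he2.inj, fun i hi => ?_, fun i hi => ?_, he2.sq, fun i hi j hj => ?_⟩
    · rw [hGZ]; exact mem_insert_of_mem (he2.mem i hi)
    · rw [hag.1 _ (he2.mem i hi)]; exact he2.row i hi
    · rw [hag.2 _ (he2.mem i hi) _ (he2.mem j hj)]; exact he2.ent i hi j hj
  have he3 := heG.addEl n26 (v := a1) (by rw [hGZ]; exact mem_insert_self _ _)
    (fun i hi e => ha1 (e ▸ he2.mem i hi)) (s := s * s1)
    (by linear_combination (s1 * s1) * ss + ss1)
    (u := fun j => cpy L2 (o1.getD 24) true j +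
      (w b1 * w c1 * s1 * s2) * cpy L2 (o2.getD 25) true j) (by
      intro i hi ri
      have hj := he2.mem i hi
      have hjn : ψ2 i ≠ n := fun e => hn (e ▸ hj)
      have e := hs'.ent (ψ2 i) (mem_insert_of_mem hj) n (mem_insert_self _ _)
      rw [Function.update_self, Function.update_self, Function.update_of_ne hjn,
        Function.update_of_ne hjn] at e
      have rj : ¬ E.row (ψ2 i) = true := by
        rw [he2.row i hi, ← rG]; exact ri
      have e' : (star E n b1 c1 (w b1 * w c1)).S (ψ2 i) n =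
          cpy E b1 true (ψ2 i) + w b1 * w c1 * cpy E c1 true (ψ2 i) := by
        simp only [star, addEl, hjn, if_false, if_true, rj, Bool.false_eq_true]
      have c1' := cpy_emb he2 q1' hi true
      have c2' := cpy_emb he2 q2 hi true
      rw [t1', u1'] at c1'
      rw [t2, u2] at c2'
      rw [e', c1', c2'] at e
      rw [show G.S (ψ2 i) a1 = G.S (id (ψ2 i)) a1 from rfl, e]
      linear_combination
        -(s * ε2 i * w b1 * w c1 * s2 * cpy L2 (o2.getD 25) true i) * ss1)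
  rw [rG] at he3
  obtain ⟨M, hM, hm⟩ := hH.minor he3.minor
  exact hF M hM hm

end Pool.Agent.Lib.MP_c69b6d_co.F
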