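import Pool.Agent.Lib.MP_c69b6d_co.F.Ind
import Pool.Agent.Lib.MP_c69b6d_co.F.Tame2
import Pool.Agent.Lib.MP_c69b6d_co.F.V4
import Pool.Agent.Lib.MP_c69b6d_co.F.LemU
import Pool.Agent.Lib.MP_c69b6d_co.F.NFDual

/-! From seeds to decompositions. -/

namespace Pool.Agent.Lib.MP_c69b6d_co.F

open Finset Disp

/-- a separation with a smallest `Y` side. -/
theorem exists_min_sep (E : Disp F3) {A B X1 Y1 : Finset ℕ} (hd : Disjoint X1 Y1) (hA : A ⊆ X1)
    (hB : B ⊆ Y1) (hl : E.lam X1 Y1 ≤ 2) :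
    ∃ X Y, X ∪ Y = X1 ∪ Y1 ∧ Disjoint X Y ∧ A ⊆ X ∧ B ⊆ Y ∧ E.lam X Y ≤ 2 ∧
      ∀ h ∈ Y, h ∉ B → 3 ≤ E.lam (insert h X) (Y.erase h) := by
  induction hn : Y1.card using Nat.strong_induction_on generalizing X1 Y1 with
  | _ n ih =>
    by_cases hc : ∀ h ∈ Y1, h ∉ B → 3 ≤ E.lam (insert h X1) (Y1.erase h)
    · exact ⟨X1, Y1, rfl, hd, hA, hB, hl, hc⟩
    · simp only [not_forall, not_le] at hc
      obtain ⟨h, h1, h2, h3⟩ := hc
      have hd' : Disjoint (insert h X1) (Y1.erase h) := by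
        rw [disjoint_insert_left]
        exact ⟨notMem_erase h Y1, hd.mono_right (erase_subset h Y1)⟩
      have hB' : B ⊆ Y1.erase h := fun i hi => mem_erase.2 ⟨fun e => h2 (e ▸ hi), hB hi⟩
      obtain ⟨X, Y, e, r⟩ := ih (Y1.erase h).card (hn ▸ card_erase_lt_of_mem h1) hd'
        (hA.trans (subset_insert h X1)) hB' (by omega) rfl
      refine ⟨X, Y, e.trans ?_, r⟩
      ext i
      simp only [mem_union, mem_insert, mem_erase]
      by_cases hi : i = h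
      · subst hi; simp [h1]
      · simp [hi]

/-- tameness through the dual normal form. -/
theorem tame_dual {Bad : Disp F3 → Prop} (hBad : ∀ G D, Minor G D → Bad G → Bad D)
    {L L' L2 E R : Disp F3} {X0 Y0 X Y : Finset ℕ} {φ : ℕ → ℕ} {x1 x2 b c t1 t2 t3 : ℕ}
    (hZ : L.Z = X0 ∪ Y0) (small : ∀ i ∈ L.Z, i < 24) (m1 : x1 ∈ X0) (m2 : x2 ∈ X0) (mb : b ∈ Y0)
    (mc : c ∈ Y0) (hr : ReachIn {x1, x2, b, c} L L') (r1 : L'.row x1 = false)
    (r2 : L'.row x2 = false) (hs : Same (L'.flip.scale (fun i => if i = b then -1 else 1)) L2)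
    (ok : TameOK (fun G => Bad G.flip) L2 X0 Y0 x1 x2 b c) (hE : E.Conn3) (hb : ¬ Bad E)
    (he : Emb L E φ (fun _ => 1)) (hX : X0.image φ ⊆ X) (hY : Y0.image φ ⊆ Y)
    (nf : NF E R X Y (fun i => E.S i (φ b)) (fun i => E.S i (φ c)) t1 t2 t3)
    (b1 : R.S t1 (φ b) = 1) (b2 : R.S t2 (φ b) = 0) (c1 : R.S t1 (φ c) = 0)
    (c2 : R.S t2 (φ c) = 1)
    (hq : E.S (φ x1) (φ b) * E.S (φ x2) (φ c) - E.S (φ x1) (φ c) * E.S (φ x2) (φ b) ≠ 0)
    (hmin : ∀ h ∈ Y, h ∉ Y0.image φ → 3 ≤ E.lam (insert h X) (Y.erase h)) :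
    ¬ Real4 (R.restrict (Y ∪ {t1, t2})) t1 t2 := by
  have h1 : φ x1 ∈ X := hX (mem_image_of_mem φ m1)
  have h2 : φ x2 ∈ X := hX (mem_image_of_mem φ m2)
  have hb' : φ b ∈ Y := hY (mem_image_of_mem φ mb)
  have hc' : φ c ∈ Y := hY (mem_image_of_mem φ mc)
  have zb : b ∈ L.Z := hZ ▸ mem_union_right _ mb
  have zc : c ∈ L.Z := hZ ▸ mem_union_right _ mc
  have hU : ({x1, x2, b, c} : Finset ℕ) ⊆ L.Z := by
    intro i hi
    simp only [mem_insert, mem_singleton] at hi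
    rcases hi with rfl | rfl | rfl | rfl
    · exact hZ ▸ mem_union_left _ m1
    · exact hZ ▸ mem_union_left _ m2
    · exact zb
    · exact zc
  obtain ⟨D', D2, R2, hr', hB, hD2, nf2, h4⟩ := nf_dual nf h1 h2 hb' hc' b1 b2 c1 c2 hq
  have hU' : ({φ x1, φ x2, φ b, φ c} : Finset ℕ) ⊆ X ∪ Y := by
    intro i hi
    simp only [mem_insert, mem_singleton] at hi
    rcases hi with rfl | rfl | rfl | rfl
    · exact mem_union_left _ h1
    · exact mem_union_left _ h2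
    · exact mem_union_right _ hb'
    · exact mem_union_right _ hc'
  have hR : E.Reach D' := hr'.reach (nf.dZ ▸ hU')
  have hη : ∀ i : ℕ, (if i = φ b then (-1 : F3) else 1) * (if i = φ b then -1 else 1) = 1 := by
    intro i; split_ifs <;> simp
  obtain ⟨L'', hr'', he''⟩ := he.reachIn_back hU (D' := D') (by
    simpa only [image_insert, image_singleton] using hr')
  have q1 : L.Reach L' := hr.reach hU
  have q2 : L.Reach L'' := hr''.reach hU
  have hsub : L'.B ⊆ L''.B := by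
    intro i hi
    rw [mem_B] at hi ⊢
    have hz : i ∈ L''.Z := by rw [q2.Z_eq, ← q1.Z_eq]; exact hi.1
    refine ⟨hz, ?_⟩
    by_cases hu : i ∈ ({x1, x2, b, c} : Finset ℕ)
    · rw [← he''.row i hz]
      refine (mem_B.1 ?_).2
      rw [hB]
      simp only [mem_insert, mem_singleton] at hu
      rcases hu with rfl | rfl | rfl | rfl
      · rw [r1] at hi; exact absurd hi.2 (by decide)
      · rw [r2] at hi; exact absurd hi.2 (by decide)
      · exact mem_insert_self _ _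
      · exact mem_insert_of_mem (mem_insert_self _ _)
    · rw [hr''.row_eq hu, ← hr.row_eq hu]; exact hi.2
  have hsame : Same L' L'' := same_of_code (q2.Z_eq.trans q1.Z_eq.symm)
    (eq_of_subset_of_card_le hsub (by rw [q1.card_B, q2.card_B])).symm
    (q2.code_eq.trans q1.code_eq.symm)
  have z2 : L2.Z = L'.Z := hs.1
  have z3 : L2.Z = L''.Z := z2.trans hsame.1.symm
  have z4 : L2.Z = L.Z := z2.trans q1.Z_eq
  have hif : ∀ i ∈ L2.Z, (if φ i = φ b then (-1 : F3) else 1) = if i = b then -1 else 1 := by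
    intro i hi
    by_cases e : i = b
    · simp [e]
    · rw [if_neg e, if_neg fun e' => e (he.inj (z4 ▸ hi : i ∈ L.Z) zb e')]
  have he2 : Emb L2 D2 φ (fun _ => 1) := by
    subst hD2
    refine ⟨z3 ▸ he''.inj, fun i hi => he''.mem i (z3 ▸ hi), fun i hi => ?_, fun _ _ => by simp,
      fun i hi j hj => ?_⟩
    · have e1 := he''.row i (z3 ▸ hi)
      have e2 := hsame.2.1 i (z2 ▸ hi)
      have e3 := hs.2.1 i (z2 ▸ hi)
      change (!D'.row (φ i)) = L2.row i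
      rw [e1, e2, e3]; rfl
    · have e1 := he''.ent i (z3 ▸ hi) j (z3 ▸ hj)
      have e2 := hsame.2.2 i (z2 ▸ hi) j (z2 ▸ hj)
      have e3 := hs.2.2 i (z2 ▸ hi) j (z2 ▸ hj)
      change (if φ i = φ b then (-1 : F3) else 1) * (if φ j = φ b then -1 else 1) *
        D'.S (φ i) (φ j) = 1 * 1 * L2.S i j
      rw [e1, e2, e3, hif i hi, hif j hj]
      change _ = 1 * 1 * ((if i = b then (-1 : F3) else 1) * (if j = b then -1 else 1) * L'.S i j)
      ring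
  refine fun h => tame' (Bad := fun G => Bad G.flip) (fun G D hm hG => hBad _ _ hm.flip hG)
    (z4.trans hZ) (fun i hi => small i (z4 ▸ hi)) m1 m2 mb mc ok ?_ ?_ he2 hX hY nf2 ?_ (h4 h)
  · rw [hD2]; exact (hE.reach hR).flip.scale hη
  · rw [hD2, flip_scale, Disp.flip_flip]
    exact fun hG => hb (hBad _ _ ((minor_scale D' hη).2.trans hR.minor) hG)
  · intro g hg hg'
    rw [hD2, lam_scale _ hη, lam_flip, hr'.lam_eq]
    · exact hmin g hg hg'
    · rw [disjoint_insert_left]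
      exact ⟨notMem_erase g Y, nf.disj.mono_right (erase_subset g Y)⟩
    · refine hU'.trans fun i hi => ?_
      simp only [mem_union, mem_insert, mem_erase] at hi ⊢
      by_cases e : i = g
      · simp [e]
      · simpa [e] using hi

theorem decomp {𝒮 : List (Seed F3)} {𝓛 𝓝 : List (Disp F3)} {Bad : Disp F3 → Prop}
    (hBad : ∀ G D, Minor G D → Bad G → Bad D)
    (ok : ∀ σ ∈ 𝒮, ∃ a b c p A A', SeedOK 𝓛 𝓝 Bad σ a b c p ∧ BlockOK 𝒮 Bad σ b c A A')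
    {D : Disp F3} (h3 : D.Conn3) (hD : ¬ Bad D) {σ : Seed F3} (hσ : σ ∈ 𝒮) (hm : Minor σ.L D) :
    ∃ (E0 : Disp F3) (δ : ℕ → F3) (R : Disp F3) (X Y : Finset ℕ) (a b c p t1 t2 t3 : ℕ),
      D.Reach E0 ∧ (∀ i, δ i * δ i = 1) ∧ Dec 𝓛 𝓝 (E0.scale δ) R X Y a b c p t1 t2 t3 := by
  obtain ⟨σ', hσ', E0, φ, ε, X1, Y1, hr, he0, hXY, hd1, hX1, hY1, hl1⟩ :=
    induced' hBad ok hD hσ hm
  obtain ⟨a, b, c, p, -, -, so, -⟩ := ok σ' hσ'
  obtain ⟨δ, hδ, he⟩ := he0.unsign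
  rw [← lam_scale E0 hδ] at hl1
  have hE : (E0.scale δ).Conn3 := (h3.reach hr).scale hδ
  have hb : ¬ Bad (E0.scale δ) :=
    fun hG => hD (hBad _ _ ((minor_scale E0 hδ).2.trans hr.minor) hG)
  have hZ0 : (E0.scale δ).Z = X1 ∪ Y1 := hr.Z_eq.trans hXY.symm
  refine ⟨E0, δ, ?_⟩
  suffices h : ∃ (R : Disp F3) (X Y : Finset ℕ) (a b c p t1 t2 t3 : ℕ),
      Dec 𝓛 𝓝 (E0.scale δ) R X Y a b c p t1 t2 t3 by
    obtain ⟨R, X, Y, a, b, c, p, t1, t2, t3, h⟩ := h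
    exact ⟨R, X, Y, a, b, c, p, t1, t2, t3, hr, hδ, h⟩
  generalize E0.scale δ = E at he hl1 hE hb hZ0
  obtain ⟨X, Y, e, hd, hX, hY, hl, hmin⟩ := exists_min_sep E hd1 hX1 hY1 hl1
  have hZ : E.Z = X ∪ Y := hZ0.trans e.symm
  have zx : ∀ i ∈ σ'.X0, i ∈ σ'.L.Z := fun i hi => so.hZ ▸ mem_union_left _ hi
  have zy : ∀ i ∈ σ'.Y0, i ∈ σ'.L.Z := fun i hi => so.hZ ▸ mem_union_right _ hi
  have ent : ∀ i ∈ σ'.L.Z, ∀ j ∈ σ'.L.Z, E.S (φ i) (φ j) = σ'.L.S i j := fun i hi j hj => by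
    rw [he.ent i hi j hj]; simp
  have z0 := zx 0 so.m0
  have z1 := zx 1 so.m1
  have za := zy a so.ma
  have zb := zy b so.mb
  have zc := zy c so.mc
  have zp := zy p so.mp
  have iy : ∀ i ∈ σ'.Y0, φ i ∈ Y := fun i hi => hY (mem_image_of_mem φ hi)
  have hq : E.S (φ 0) (φ b) * E.S (φ 1) (φ c) - E.S (φ 0) (φ c) * E.S (φ 1) (φ b) ≠ 0 := by
    rw [ent 0 z0 b zb, ent 1 z1 c zc, ent 0 z0 c zc, ent 1 z1 b zb]; exact so.det
  obtain ⟨R, t1, t2, t3, nf, f1, f2⟩ := exists_nf hZ hd hl (hX (mem_image_of_mem φ so.m0))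
    (hX (mem_image_of_mem φ so.m1)) (iy b so.mb) (iy c so.mc) ((he.row 0 z0).trans so.r0)
    ((he.row 1 z1).trans so.r1) hq
  have p0 : E.S (φ 0) (φ p) = E.S (φ 0) (φ b) - E.S (φ 0) (φ c) := by
    rw [ent 0 z0 p zp, ent 0 z0 b zb, ent 0 z0 c zc]; exact so.p0
  have p1 : E.S (φ 1) (φ p) = E.S (φ 1) (φ b) - E.S (φ 1) (φ c) := by
    rw [ent 1 z1 p zp, ent 1 z1 b zb, ent 1 z1 c zc]; exact so.p1
  have b1 : R.S t1 (φ b) = 1 := mul_left_cancel₀ hq (by rw [f1 _ (iy b so.mb)]; ring)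
  have b2 : R.S t2 (φ b) = 0 := mul_left_cancel₀ hq (by rw [f2 _ (iy b so.mb)]; ring)
  have c1 : R.S t1 (φ c) = 0 := mul_left_cancel₀ hq (by rw [f1 _ (iy c so.mc)]; ring)
  have c2 : R.S t2 (φ c) = 1 := mul_left_cancel₀ hq (by rw [f2 _ (iy c so.mc)]; ring)
  have d1 : R.S t1 (φ p) = 1 := mul_left_cancel₀ hq (by rw [f1 _ (iy p so.mp), p0, p1]; ring)
  have d2 : R.S t2 (φ p) = -1 := mul_left_cancel₀ hq (by rw [f2 _ (iy p so.mp), p0, p1]; ring)
  refine ⟨R, X, Y, φ a, φ b, φ c, φ p, t1, t2, t3, nf, iy a so.ma, iy b so.mb, iy c so.mc,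
    iy p so.mp, b1, b2, c1, c2, d1, d2, (ent a za b zb).trans so.ab, (ent a za c zc).trans so.ac,
    (ent a za p zp).trans so.ap, noW4_of_nf hE nf ?_, so.hasN.minor ?_, ?_⟩
  · rcases so.tame with ht | ⟨L', L2, hr', r0, r1, hs, ht⟩
    · exact tame' hBad so.hZ so.small so.m0 so.m1 so.mb so.mc ht hE hb he hX hY nf hmin
    · exact tame_dual hBad so.hZ so.small so.m0 so.m1 so.mb so.mc hr' r0 r1 hs ht hE hb he hX hY
        nf b1 b2 c1 c2 hq hmin
  · have hU : σ'.X0 ∪ {b, c, p} ⊆ σ'.L.Z := by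
      intro i hi
      simp only [mem_union, mem_insert, mem_singleton] at hi
      rcases hi with hi | rfl | rfl | rfl
      · exact zx i hi
      · exact zb
      · exact zc
      · exact zp
    refine ((he.restrict hU).restrict_right fun i hi => ?_).minor
    change i ∈ σ'.X0 ∪ {b, c, p} at hi
    simp only [mem_union, mem_insert, mem_singleton] at hi ⊢
    rcases hi with hi | rfl | rfl | rfl
    · exact Or.inl (hX (mem_image_of_mem φ hi))
    · simp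
    · simp
    · simp
  · exact noV4_of_ok so.hZ so.small so.m0 so.m1 so.ma so.mb so.mc so.r0 so.r1 so.det
      (by rw [so.ab]; exact one_ne_zero) (by rw [so.ac]; exact one_ne_zero) so.v4 he hZ hd hX hY

end Pool.Agent.Lib.MP_c69b6d_co.F
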