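import Pool.Agent.Lib.MP_c69b6d_co.F.CkG
import Pool.Agent.Lib.MP_c69b6d_co.F.CkI
import Pool.Agent.Lib.MP_c69b6d_co.F.Sda
import Pool.Agent.Lib.MP_c69b6d_co.F.Sdb
import Pool.Agent.Lib.MP_c69b6d_co.F.Data

/-! The seeds satisfy the conditions of the decomposition theorem. -/

namespace Pool.Agent.Lib.MP_c69b6d_co.F

open Finset Disp CD

set_option maxRecDepth 100000

theorem has_of_bad {t : Tb} {b : ℕ} {l : List CD}
    (h : allLt b (fun k => eqB (t.get k).C (l.getD k ⟨0, 0, 0, 0⟩)) = true) (hl : b ≤ l.length)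
    (G : Disp F3) (hb : BadT t b G) : Has (l.map CD.toDisp) G := by
  obtain ⟨k, hk, hm⟩ := hb
  have e := CD.eq_of_eqB (allLt_iff.1 h k hk)
  refine ⟨_, List.mem_map.2 ⟨(t.get k).C, ?_, rfl⟩, hm⟩
  rw [e, List.getD_eq_getElem _ _ (lt_of_lt_of_le hk hl)]
  exact List.getElem_mem _

theorem bad_L5 (G : Disp F3) (h : BadT tabB 5 G) : Has L5 G :=
  has_of_bad (l := [cA49, cA52, cA56, cB172, cB172d]) (by decide +kernel) le_rfl G h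

theorem bad_NL (G : Disp F3) (h : BadT tabN 3 G) : Has NL G :=
  has_of_bad (l := [cF7m, cF7md, cP8]) (by decide +kernel) le_rfl G h

theorem bad_flip {b : ℕ} (hb : b ≤ 43) (G : Disp F3) (h : BadT tabF b G) : BadT tabB b G.flip :=
  BadT.flip tabB_ok (allLt_iff.2 fun k hk => allLt_iff.1 tab_flip k (lt_of_lt_of_le hk hb)) h

/-- the conditions on the seed `σ` of the level `(b, lo, n)`. -/
def SB (b lo n : ℕ) (σ : Seed F3) : Prop :=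
  ∃ a b' c p A A', SeedOK L5 NL (BadT tabB b) σ a b' c p ∧
    BlockOK (seeds tabB NX lo n) (BadT tabB b) σ b' c A A'

def SK (b lo n k : ℕ) : Prop := SB b lo n (seedOf (tabB.get k).C (nxOf NX k) (nyOf NX k))

theorem sk_of {b lo n nx ny k : ℕ} {C : CD}
    (h : andB (Nat.ble b 43) (andB (eqB (tabB.get k).C C)
      (andB (Nat.beq (nxOf NX k) nx) (Nat.beq (nyOf NX k) ny))) = true)
    (ba : basicB C nx ny = true) (bb : basic2B C nx = true) {N : ℕ}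
    (hn : hasNB tabN C nx N = true) {O l : List ℕ} (vf : v4B tabB C nx O l = true)
    (tm : (∃ d, tameB tabB b C nx ny d = true) ∨
      ∃ N2 C2 d, dualB C nx N2 C2 = true ∧ tameB tabF b C2 nx ny d = true)
    {A0 A0' A1 A1' i0 i1 : List ℕ} {s0 s1 : List (ℕ × List ℕ × List ℕ)}
    (c0 : covAll tabB b C false (A0 ++ A0') s0 = true)
    (c1 : covAll tabB b C true (A1 ++ A1') s1 = true)
    (p0 : a12B C nx ny false A0 A0' = true) (p1 : a12B C nx ny true A1 A1' = true)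
    (q0 : a3B tabB b NX lo n nx ny C false A0 A1' i0 = true)
    (q1 : a3B tabB b NX lo n nx ny C true A1 A0' i1 = true) : SK b lo n k := by
  simp only [andB_iff, Nat.ble_eq, Nat.beq_eq] at h
  obtain ⟨hb, hC, hx, hy⟩ := h
  unfold SK
  rw [CD.eq_of_eqB hC, hx, hy]
  obtain ⟨A, A', hB⟩ := block_sound (Bad := BadT tabB b) BadT.minor tabB_ok (fun _ h => h) ba c0 c1
    p0 p1 q0 q1
  exact ⟨_, _, _, _, A, A', seed_sound tabB_ok tabF_ok tabN_ok bad_L5 bad_NL (fun _ h => h)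
    (bad_flip hb) ba bb hn vf tm, hB⟩

theorem sb_all {b lo n : ℕ} (h : ∀ k, lo ≤ k → k < lo + n → SK b lo n k) :
    ∀ σ ∈ seeds tabB NX lo n, SB b lo n σ := by
  intro σ hσ
  obtain ⟨k, hk, rfl⟩ := List.mem_map.1 hσ
  rw [List.mem_range'_1] at hk
  exact h k hk.1 hk.2

theorem sk5 : SK 5 5 16 5 :=
  sk_of (by decide +kernel) ba5 bb5 hn5 vf5 (Or.inl ⟨_, tm5⟩)
    cv5_0 cv5_1 pa5_0 pa5_1 qa5_0 qa5_1

theorem sk6 : SK 5 5 16 6 :=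
  sk_of (by decide +kernel) ba6 bb6 hn6 vf6 (Or.inl ⟨_, tm6⟩)
    cv6_0 cv6_1 pa6_0 pa6_1 qa6_0 qa6_1

theorem sk7 : SK 5 5 16 7 :=
  sk_of (by decide +kernel) ba7 bb7 hn7 vf7 (Or.inl ⟨_, tm7⟩)
    cv7_0 cv7_1 pa7_0 pa7_1 qa7_0 qa7_1

theorem sk8 : SK 5 5 16 8 :=
  sk_of (by decide +kernel) ba8 bb8 hn8 vf8 (Or.inl ⟨_, tm8⟩)
    cv8_0 cv8_1 pa8_0 pa8_1 qa8_0 qa8_1

theorem sk9 : SK 5 5 16 9 :=
  sk_of (by decide +kernel) ba9 bb9 hn9 vf9 (Or.inl ⟨_, tm9⟩)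
    cv9_0 cv9_1 pa9_0 pa9_1 qa9_0 qa9_1

theorem sk10 : SK 5 5 16 10 :=
  sk_of (by decide +kernel) ba10 bb10 hn10 vf10 (Or.inl ⟨_, tm10⟩)
    cv10_0 cv10_1 pa10_0 pa10_1 qa10_0 qa10_1

theorem sk11 : SK 5 5 16 11 :=
  sk_of (by decide +kernel) ba11 bb11 hn11 vf11 (Or.inr ⟨_, _, _, du11, tm11⟩)
    cv11_0 cv11_1 pa11_0 pa11_1 qa11_0 qa11_1

theorem sk12 : SK 5 5 16 12 :=
  sk_of (by decide +kernel) ba12 bb12 hn12 vf12 (Or.inl ⟨_, tm12⟩)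
    cv12_0 cv12_1 pa12_0 pa12_1 qa12_0 qa12_1

theorem sk13 : SK 5 5 16 13 :=
  sk_of (by decide +kernel) ba13 bb13 hn13 vf13 (Or.inl ⟨_, tm13⟩)
    cv13_0 cv13_1 pa13_0 pa13_1 qa13_0 qa13_1

theorem sk14 : SK 5 5 16 14 :=
  sk_of (by decide +kernel) ba14 bb14 hn14 vf14 (Or.inl ⟨_, tm14⟩)
    cv14_0 cv14_1 pa14_0 pa14_1 qa14_0 qa14_1

theorem sk15 : SK 5 5 16 15 :=
  sk_of (by decide +kernel) ba15 bb15 hn15 vf15 (Or.inr ⟨_, _, _, du15, tm15⟩)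
    cv15_0 cv15_1 pa15_0 pa15_1 qa15_0 qa15_1

theorem sk16 : SK 5 5 16 16 :=
  sk_of (by decide +kernel) ba16 bb16 hn16 vf16 (Or.inr ⟨_, _, _, du16, tm16⟩)
    cv16_0 cv16_1 pa16_0 pa16_1 qa16_0 qa16_1

theorem sk17 : SK 5 5 16 17 :=
  sk_of (by decide +kernel) ba17 bb17 hn17 vf17 (Or.inr ⟨_, _, _, du17, tm17⟩)
    cv17_0 cv17_1 pa17_0 pa17_1 qa17_0 qa17_1

theorem sk18 : SK 5 5 16 18 :=
  sk_of (by decide +kernel) ba18 bb18 hn18 vf18 (Or.inl ⟨_, tm18⟩)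
    cv18_0 cv18_1 pa18_0 pa18_1 qa18_0 qa18_1

theorem sk19 : SK 5 5 16 19 :=
  sk_of (by decide +kernel) ba19 bb19 hn19 vf19 (Or.inl ⟨_, tm19⟩)
    cv19_0 cv19_1 pa19_0 pa19_1 qa19_0 qa19_1

theorem sk20 : SK 5 5 16 20 :=
  sk_of (by decide +kernel) ba20 bb20 hn20 vf20 (Or.inr ⟨_, _, _, du20, tm20⟩)
    cv20_0 cv20_1 pa20_0 pa20_1 qa20_0 qa20_1

theorem lvl0 : ∀ σ ∈ seeds tabB NX 5 16, SB 5 5 16 σ := sb_all fun k h1 h2 => by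
  interval_cases k
  exacts [sk5, sk6, sk7, sk8, sk9, sk10, sk11, sk12, sk13, sk14, sk15, sk16, sk17, sk18, sk19, sk20]

theorem sk21 : SK 21 21 6 21 :=
  sk_of (by decide +kernel) ba21 bb21 hn21 vf21 (Or.inl ⟨_, tm21⟩)
    cv21_0 cv21_1 pa21_0 pa21_1 qa21_0 qa21_1

theorem sk22 : SK 21 21 6 22 :=
  sk_of (by decide +kernel) ba22 bb22 hn22 vf22 (Or.inl ⟨_, tm22⟩)
    cv22_0 cv22_1 pa22_0 pa22_1 qa22_0 qa22_1

theorem sk23 : SK 21 21 6 23 :=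
  sk_of (by decide +kernel) ba23 bb23 hn23 vf23 (Or.inl ⟨_, tm23⟩)
    cv23_0 cv23_1 pa23_0 pa23_1 qa23_0 qa23_1

theorem sk24 : SK 21 21 6 24 :=
  sk_of (by decide +kernel) ba24 bb24 hn24 vf24 (Or.inr ⟨_, _, _, du24, tm24⟩)
    cv24_0 cv24_1 pa24_0 pa24_1 qa24_0 qa24_1

theorem sk25 : SK 21 21 6 25 :=
  sk_of (by decide +kernel) ba25 bb25 hn25 vf25 (Or.inl ⟨_, tm25⟩)
    cv25_0 cv25_1 pa25_0 pa25_1 qa25_0 qa25_1

theorem sk26 : SK 21 21 6 26 :=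
  sk_of (by decide +kernel) ba26 bb26 hn26 vf26 (Or.inl ⟨_, tm26⟩)
    cv26_0 cv26_1 pa26_0 pa26_1 qa26_0 qa26_1

theorem lvl1 : ∀ σ ∈ seeds tabB NX 21 6, SB 21 21 6 σ := sb_all fun k h1 h2 => by
  interval_cases k
  exacts [sk21, sk22, sk23, sk24, sk25, sk26]

theorem sk29 : SK 29 29 4 29 :=
  sk_of (by decide +kernel) ba29 bb29 hn29 vf29 (Or.inl ⟨_, tm29⟩)
    cv29_0 cv29_1 pa29_0 pa29_1 qa29_0 qa29_1

theorem sk30 : SK 29 29 4 30 :=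
  sk_of (by decide +kernel) ba30 bb30 hn30 vf30 (Or.inr ⟨_, _, _, du30, tm30⟩)
    cv30_0 cv30_1 pa30_0 pa30_1 qa30_0 qa30_1

theorem sk31 : SK 29 29 4 31 :=
  sk_of (by decide +kernel) ba31 bb31 hn31 vf31 (Or.inl ⟨_, tm31⟩)
    cv31_0 cv31_1 pa31_0 pa31_1 qa31_0 qa31_1

theorem sk32 : SK 29 29 4 32 :=
  sk_of (by decide +kernel) ba32 bb32 hn32 vf32 (Or.inr ⟨_, _, _, du32, tm32⟩)
    cv32_0 cv32_1 pa32_0 pa32_1 qa32_0 qa32_1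

theorem lvl2 : ∀ σ ∈ seeds tabB NX 29 4, SB 29 29 4 σ := sb_all fun k h1 h2 => by
  interval_cases k
  exacts [sk29, sk30, sk31, sk32]

theorem sk33 : SK 33 33 10 33 :=
  sk_of (by decide +kernel) ba33 bb33 hn33 vf33 (Or.inl ⟨_, tm33⟩)
    cv33_0 cv33_1 pa33_0 pa33_1 qa33_0 qa33_1

theorem sk34 : SK 33 33 10 34 :=
  sk_of (by decide +kernel) ba34 bb34 hn34 vf34 (Or.inl ⟨_, tm34⟩)
    cv34_0 cv34_1 pa34_0 pa34_1 qa34_0 qa34_1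

theorem sk35 : SK 33 33 10 35 :=
  sk_of (by decide +kernel) ba35 bb35 hn35 vf35 (Or.inl ⟨_, tm35⟩)
    cv35_0 cv35_1 pa35_0 pa35_1 qa35_0 qa35_1

theorem sk36 : SK 33 33 10 36 :=
  sk_of (by decide +kernel) ba36 bb36 hn36 vf36 (Or.inl ⟨_, tm36⟩)
    cv36_0 cv36_1 pa36_0 pa36_1 qa36_0 qa36_1

theorem sk37 : SK 33 33 10 37 :=
  sk_of (by decide +kernel) ba37 bb37 hn37 vf37 (Or.inl ⟨_, tm37⟩)
    cv37_0 cv37_1 pa37_0 pa37_1 qa37_0 qa37_1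

theorem sk38 : SK 33 33 10 38 :=
  sk_of (by decide +kernel) ba38 bb38 hn38 vf38 (Or.inl ⟨_, tm38⟩)
    cv38_0 cv38_1 pa38_0 pa38_1 qa38_0 qa38_1

theorem sk39 : SK 33 33 10 39 :=
  sk_of (by decide +kernel) ba39 bb39 hn39 vf39 (Or.inl ⟨_, tm39⟩)
    cv39_0 cv39_1 pa39_0 pa39_1 qa39_0 qa39_1

theorem sk40 : SK 33 33 10 40 :=
  sk_of (by decide +kernel) ba40 bb40 hn40 vf40 (Or.inl ⟨_, tm40⟩)
    cv40_0 cv40_1 pa40_0 pa40_1 qa40_0 qa40_1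

theorem sk41 : SK 33 33 10 41 :=
  sk_of (by decide +kernel) ba41 bb41 hn41 vf41 (Or.inr ⟨_, _, _, du41, tm41⟩)
    cv41_0 cv41_1 pa41_0 pa41_1 qa41_0 qa41_1

theorem sk42 : SK 33 33 10 42 :=
  sk_of (by decide +kernel) ba42 bb42 hn42 vf42 (Or.inr ⟨_, _, _, du42, tm42⟩)
    cv42_0 cv42_1 pa42_0 pa42_1 qa42_0 qa42_1

theorem lvl3 : ∀ σ ∈ seeds tabB NX 33 10, SB 33 33 10 σ := sb_all fun k h1 h2 => by
  interval_cases k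
  exacts [sk33, sk34, sk35, sk36, sk37, sk38, sk39, sk40, sk41, sk42]

end Pool.Agent.Lib.MP_c69b6d_co.F
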