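import Pool.Agent.Lib.MP_c69b6d_co.F.MemK
import Pool.Agent.Lib.MP_c69b6d_co.F.MemF

namespace Pool.Agent.Lib.MP_c69b6d_co.F

open CD

set_option maxRecDepth 100000

def ms0 : Tg := ⟨⟨511, 7, 0x30000000c0000001c0, 0x480000012800000018⟩, [3, 4, 5, 6, 7, 8], RL.cons 0 448 24 (RL.cons 1 192 296 (RL.cons 2 48 72 (RL.nil)))⟩

def ms1 : Tg := ⟨⟨511, 15, 0xc0000001a0000001f000000070, 0x130000000400000000000000080⟩, [4, 5, 6, 7, 8], RL.cons 0 112 128 (RL.cons 1 496 0 (RL.cons 2 416 64 (RL.cons 3 192 304 (RL.nil))))⟩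

def ms2 : Tg := ⟨⟨511, 15, 0x1800000002000000110, 0xd00000004000000150000000e0⟩, [4, 5, 6, 7, 8], RL.cons 0 272 224 (RL.cons 1 32 336 (RL.cons 2 384 64 (RL.cons 3 0 208 (RL.nil))))⟩

def ms3 : Tg := ⟨⟨1023, 39, 0x1000000000000000000000000880000000000000150, 0xc00000000000000000000003000000025800000208⟩, [3, 4, 6, 7, 8, 9], RL.cons 0 336 520 (RL.cons 1 0 600 (RL.cons 2 136 768 (RL.cons 5 256 192 (RL.nil))))⟩

def ms4 : Tg := ⟨⟨1023, 15, 0x210000000000000032000000040, 0x40000003200000009000000180⟩, [4, 5, 6, 7, 8, 9], RL.cons 0 64 384 (RL.cons 1 800 144 (RL.cons 2 0 800 (RL.cons 3 528 64 (RL.nil))))⟩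

def ms7 : Tg := ⟨⟨1023, 143, 0x20000000000000000000000000000000220000003300000005000000040, 0x10000000000000000000000000000000140000000000000030000000220⟩, [4, 5, 6, 8, 9], RL.cons 0 64 544 (RL.cons 1 80 768 (RL.cons 2 816 0 (RL.cons 3 544 320 (RL.cons 7 512 256 (RL.nil)))))⟩

def ms8 : Tg := ⟨⟨2047, 31, 0x60000000420000006e000000720000000c0, 0x1a000000340000000000000000000000320⟩, [5, 6, 7, 8, 9, 10], RL.cons 0 192 800 (RL.cons 1 1824 0 (RL.cons 2 1760 0 (RL.cons 3 1056 832 (RL.cons 4 1536 416 (RL.nil)))))⟩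

def ms9 : Tg := ⟨⟨4095, 39, 0x5c00000000000000000000001080000044000000358, 0x200000000000000000000000e9000000a0800000880⟩, [3, 4, 6, 7, 8, 9, 10, 11], RL.cons 0 856 2176 (RL.cons 1 1088 2568 (RL.cons 2 264 3728 (RL.cons 5 1472 512 (RL.nil))))⟩

def ms10 : Tg := ⟨⟨4095, 63, 0xdc00000014000000700000009000000048000000440, 0xe0000000880000002c000000a4000000380⟩, [6, 7, 8, 9, 10, 11], RL.cons 0 1088 896 (RL.cons 1 1152 2624 (RL.cons 2 2304 704 (RL.cons 3 1792 2176 (RL.cons 4 320 3584 (RL.cons 5 3520 0 (RL.nil))))))⟩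

def ms11 : Tg := ⟨⟨8191, 7, 0x9400000008800000218, 0x14b000001b30000015c0⟩, [3, 4, 5, 6, 7, 8, 9, 10, 11, 12], RL.cons 0 536 5568 (RL.cons 1 136 6960 (RL.cons 2 2368 5296 (RL.nil)))⟩

def ms12 : Tg := ⟨⟨8191, 63, 0x160000000440000015c00000080000000200000009c0, 0xc00000038000000000000006c000001c4000000200⟩, [6, 7, 8, 9, 10, 11, 12], RL.cons 0 2496 512 (RL.cons 1 512 7232 (RL.cons 2 2048 1728 (RL.cons 3 5568 0 (RL.cons 4 1088 896 (RL.cons 5 5632 192 (RL.nil))))))⟩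

def ms13 : Tg := ⟨⟨4095, 63, 0xac000000a800000020000000e000000010000000000, 0x1000000014000000500000000c000000a40000000c0⟩, [6, 7, 8, 9, 10, 11], RL.cons 0 0 192 (RL.cons 1 256 2624 (RL.cons 2 3584 192 (RL.cons 3 512 1280 (RL.cons 4 2688 320 (RL.cons 5 2752 256 (RL.nil))))))⟩

def ms14 : Tg := ⟨⟨4095, 23, 0x2000000000000006680000048000000980, 0x140000000000000090000000b2000000268⟩, [3, 5, 6, 7, 8, 9, 10, 11], RL.cons 0 2432 616 (RL.cons 1 1152 2848 (RL.cons 2 1640 2304 (RL.cons 4 32 320 (RL.nil))))⟩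

def xs0 : Tg := ⟨⟨1023, 551, 0x188000000000000000000000000000001400000000000000000000000c00000010800000050, 0x40000000000000000000000000000000880000000000000000000000100000009000000188⟩, [3, 4, 6, 7, 8], RL.cons 0 80 392 (RL.cons 1 264 144 (RL.cons 2 192 16 (RL.cons 5 320 136 (RL.cons 9 392 64 (RL.nil)))))⟩

def xs1 : Tg := ⟨⟨2047, 263, 0x68000000618000000a8, 0xa00000000000000000000000000000000000000000000000700000000000000240⟩, [3, 4, 5, 6, 7, 9, 10], RL.cons 0 168 576 (RL.cons 1 1560 0 (RL.cons 2 1664 112 (RL.cons 8 0 160 (RL.nil))))⟩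

def xs2 : Tg := ⟨⟨4095, 1555, 0xe00000000000000000000000000000000000000000000000600000000000000000000000c80000088c, 0x90400000140000000000000000000000000000000000000098400000000000000000000012400000120⟩, [2, 3, 5, 6, 7, 8, 11], RL.cons 0 2188 288 (RL.cons 1 200 292 (RL.cons 4 96 2436 (RL.cons 9 0 320 (RL.cons 10 224 2308 (RL.nil)))))⟩

def tsS : Tb := Tb.node (Tb.node (Tb.node (Tb.node (Tb.node (Tb.node (Tb.node (Tb.node (Tb.leaf ms0) (Tb.leaf mF120)) (Tb.node (Tb.leaf mF56) (Tb.leaf mF182))) (Tb.node (Tb.node (Tb.leaf mF24) (Tb.leaf mF150)) (Tb.node (Tb.leaf mF88) (Tb.leaf mF214)))) (Tb.node (Tb.node (Tb.node (Tb.leaf mK20) (Tb.leaf mF134)) (Tb.node (Tb.leaf mF72) (Tb.leaf mF198))) (Tb.node (Tb.node (Tb.leaf mF40) (Tb.leaf mF166)) (Tb.node (Tb.leaf mF104) (Tb.leaf mF230))))) (Tb.node (Tb.node (Tb.node (Tb.node (Tb.leaf ms10) (Tb.leaf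 xs2)) (Tb.node (Tb.leaf mF64) (Tb.leaf mF190))) (Tb.node (Tb.node (Tb.leaf mF32) (Tb.leaf mF158)) (Tb.node (Tb.leaf mF96) (Tb.leaf mF222)))) (Tb.node (Tb.node (Tb.node (Tb.leaf mK27) (Tb.leaf mF142)) (Tb.node (Tb.leaf mF80) (Tb.leaf mF206))) (Tb.node (Tb.node (Tb.leaf mF48) (Tb.leaf mF174)) (Tb.node (Tb.leaf mF111) (Tb.leaf mF238)))))) (Tb.node (Tb.node (Tb.node (Tb.node (Tb.node (Tb.leaf ms4) (Tb.leaf mF124)) (Tb.node (Tb.leaf mF60) (Tb.leaf mF186))) (Tb.node (Tb.node (Tb.leaf mF28) (Tb.leaf mF154)) (Tb.node (Tb.leaf mF92) (Tb.leaf mF218)))) (Tb.node (Tb.node (Tb.node (Tb.leaf mK23) (Tb.leaf mF138)) (Tb.node (Tb.leaf mF76) (Tb.leaf mF202))) (Tb.node (Tb.node (Tb.leaf mF44) (Tb.leaf mF170)) (Tb.node (Tb.leaf mF108) (Tb.leaf mF234))))) (Tb.node (Tb.node (Tb.node (Tb.node (Tb.leaf ms14) (Tb.leaf mF130)) (Tb.node (Tb.leaf mF68) (Tb.leaf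 mF194))) (Tb.node (Tb.node (Tb.leaf mF36) (Tb.leaf mF162)) (Tb.node (Tb.leaf mF100) (Tb.leaf mF226)))) (Tb.node (Tb.node (Tb.node (Tb.leaf mF20) (Tb.leaf mF146)) (Tb.node (Tb.leaf mF84) (Tb.leaf mF210))) (Tb.node (Tb.node (Tb.leaf mF52) (Tb.leaf mF178)) (Tb.node (Tb.leaf mF116) (Tb.leaf mF242))))))) (Tb.node (Tb.node (Tb.node (Tb.node (Tb.node (Tb.node (Tb.leaf ms2) (Tb.leaf mF122)) (Tb.node (Tb.leaf mF58) (Tb.leaf mF184))) (Tb.node (Tb.node (Tb.leaf mF26) (Tb.leaf mF152)) (Tb.node (Tb.leaf mF90) (Tb.leaf mF216)))) (Tb.node (Tb.node (Tb.node (Tb.leaf mK22) (Tb.leaf mF136)) (Tb.node (Tb.leaf mF74) (Tb.leaf mF200))) (Tb.node (Tb.node (Tb.leaf mF42) (Tb.leaf mF168)) (Tb.node (Tb.leaf mF106) (Tb.leaf mF232))))) (Tb.node (Tb.node (Tb.node (Tb.node (Tb.leaf ms12) (Tb.leaf mF128)) (Tb.node (Tb.leaf mF66) (Tb.leaf mF192))) (Tb.node (Tb.node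 (Tb.leaf mF34) (Tb.leaf mF160)) (Tb.node (Tb.leaf mF98) (Tb.leaf mF224)))) (Tb.node (Tb.node (Tb.node (Tb.leaf mK29) (Tb.leaf mF144)) (Tb.node (Tb.leaf mF82) (Tb.leaf mF208))) (Tb.node (Tb.node (Tb.leaf mF50) (Tb.leaf mF176)) (Tb.node (Tb.leaf mF114) (Tb.leaf mF240)))))) (Tb.node (Tb.node (Tb.node (Tb.node (Tb.node (Tb.leaf ms8) (Tb.leaf mF126)) (Tb.node (Tb.leaf mF62) (Tb.leaf mF188))) (Tb.node (Tb.node (Tb.leaf mF30) (Tb.leaf mF156)) (Tb.node (Tb.leaf mF94) (Tb.leaf mF220)))) (Tb.node (Tb.node (Tb.node (Tb.leaf mK25) (Tb.leaf mF140)) (Tb.node (Tb.leaf mF78) (Tb.leaf mF204))) (Tb.node (Tb.node (Tb.leaf mF46) (Tb.leaf mF172)) (Tb.node (Tb.leaf mF113) (Tb.leaf mF236))))) (Tb.node (Tb.node (Tb.node (Tb.node (Tb.leaf mK18) (Tb.leaf mF132)) (Tb.node (Tb.leaf mF70) (Tb.leaf mF196))) (Tb.node (Tb.node (Tb.leaf mF38) (Tb.leaf mF164)) (Tb.node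 (Tb.leaf mF102) (Tb.leaf mF228)))) (Tb.node (Tb.node (Tb.node (Tb.leaf mF22) (Tb.leaf mF148)) (Tb.node (Tb.leaf mF86) (Tb.leaf mF212))) (Tb.node (Tb.node (Tb.leaf mF54) (Tb.leaf mF180)) (Tb.leaf mF118))))))) (Tb.node (Tb.node (Tb.node (Tb.node (Tb.node (Tb.node (Tb.node (Tb.leaf ms1) (Tb.leaf mF121)) (Tb.node (Tb.leaf mF57) (Tb.leaf mF183))) (Tb.node (Tb.node (Tb.leaf mF25) (Tb.leaf mF151)) (Tb.node (Tb.leaf mF89) (Tb.leaf mF215)))) (Tb.node (Tb.node (Tb.node (Tb.leaf mK21) (Tb.leaf mF135)) (Tb.node (Tb.leaf mF73) (Tb.leaf mF199))) (Tb.node (Tb.node (Tb.leaf mF41) (Tb.leaf mF167)) (Tb.node (Tb.leaf mF105) (Tb.leaf mF231))))) (Tb.node (Tb.node (Tb.node (Tb.node (Tb.leaf ms11) (Tb.leaf mF127)) (Tb.node (Tb.leaf mF65) (Tb.leaf mF191))) (Tb.node (Tb.node (Tb.leaf mF33) (Tb.leaf mF159)) (Tb.node (Tb.leaf mF97) (Tb.leaf mF223)))) (Tb.node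 (Tb.node (Tb.node (Tb.leaf mK28) (Tb.leaf mF143)) (Tb.node (Tb.leaf mF81) (Tb.leaf mF207))) (Tb.node (Tb.node (Tb.leaf mF49) (Tb.leaf mF175)) (Tb.node (Tb.leaf mF112) (Tb.leaf mF239)))))) (Tb.node (Tb.node (Tb.node (Tb.node (Tb.node (Tb.leaf ms7) (Tb.leaf mF125)) (Tb.node (Tb.leaf mF61) (Tb.leaf mF187))) (Tb.node (Tb.node (Tb.leaf mF29) (Tb.leaf mF155)) (Tb.node (Tb.leaf mF93) (Tb.leaf mF219)))) (Tb.node (Tb.node (Tb.node (Tb.leaf mK24) (Tb.leaf mF139)) (Tb.node (Tb.leaf mF77) (Tb.leaf mF203))) (Tb.node (Tb.node (Tb.leaf mF45) (Tb.leaf mF171)) (Tb.node (Tb.leaf mF109) (Tb.leaf mF235))))) (Tb.node (Tb.node (Tb.node (Tb.node (Tb.leaf mK17) (Tb.leaf mF131)) (Tb.node (Tb.leaf mF69) (Tb.leaf mF195))) (Tb.node (Tb.node (Tb.leaf mF37) (Tb.leaf mF163)) (Tb.node (Tb.leaf mF101) (Tb.leaf mF227)))) (Tb.node (Tb.node (Tb.node (Tb.leaf mF21)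 (Tb.leaf mF147)) (Tb.node (Tb.leaf mF85) (Tb.leaf mF211))) (Tb.node (Tb.node (Tb.leaf mF53) (Tb.leaf mF179)) (Tb.node (Tb.leaf mF117) (Tb.leaf mF243))))))) (Tb.node (Tb.node (Tb.node (Tb.node (Tb.node (Tb.node (Tb.leaf ms3) (Tb.leaf mF123)) (Tb.node (Tb.leaf mF59) (Tb.leaf mF185))) (Tb.node (Tb.node (Tb.leaf mF27) (Tb.leaf mF153)) (Tb.node (Tb.leaf mF91) (Tb.leaf mF217)))) (Tb.node (Tb.node (Tb.node (Tb.leaf xs0) (Tb.leaf mF137)) (Tb.node (Tb.leaf mF75) (Tb.leaf mF201))) (Tb.node (Tb.node (Tb.leaf mF43) (Tb.leaf mF169)) (Tb.node (Tb.leaf mF107) (Tb.leaf mF233))))) (Tb.node (Tb.node (Tb.node (Tb.node (Tb.leaf ms13) (Tb.leaf mF129)) (Tb.node (Tb.leaf mF67) (Tb.leaf mF193))) (Tb.node (Tb.node (Tb.leaf mF35) (Tb.leaf mF161)) (Tb.node (Tb.leaf mF99) (Tb.leaf mF225)))) (Tb.node (Tb.node (Tb.node (Tb.leaf mK30) (Tb.leaf mF145)) (Tb.node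 (Tb.leaf mF83) (Tb.leaf mF209))) (Tb.node (Tb.node (Tb.leaf mF51) (Tb.leaf mF177)) (Tb.node (Tb.leaf mF115) (Tb.leaf mF241)))))) (Tb.node (Tb.node (Tb.node (Tb.node (Tb.node (Tb.leaf ms9) (Tb.leaf xs1)) (Tb.node (Tb.leaf mF63) (Tb.leaf mF189))) (Tb.node (Tb.node (Tb.leaf mF31) (Tb.leaf mF157)) (Tb.node (Tb.leaf mF95) (Tb.leaf mF221)))) (Tb.node (Tb.node (Tb.node (Tb.leaf mK26) (Tb.leaf mF141)) (Tb.node (Tb.leaf mF79) (Tb.leaf mF205))) (Tb.node (Tb.node (Tb.leaf mF47) (Tb.leaf mF173)) (Tb.node (Tb.leaf mF110) (Tb.leaf mF237))))) (Tb.node (Tb.node (Tb.node (Tb.node (Tb.leaf mK19) (Tb.leaf mF133)) (Tb.node (Tb.leaf mF71) (Tb.leaf mF197))) (Tb.node (Tb.node (Tb.leaf mF39) (Tb.leaf mF165)) (Tb.node (Tb.leaf mF103) (Tb.leaf mF229)))) (Tb.node (Tb.node (Tb.node (Tb.leaf mF23) (Tb.leaf mF149)) (Tb.node (Tb.leaf mF87) (Tb.leaf mF213))) (Tb.node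 (Tb.node (Tb.leaf mF55) (Tb.leaf mF181)) (Tb.leaf mF119)))))))

def ttS : Tr (List ℕ) := Tr.node (Tr.node (Tr.node (Tr.node (Tr.node (Tr.node (Tr.node (Tr.node (Tr.leaf [385, 386, 140, 280, 296, 200]) (Tr.leaf [224, 772])) (Tr.node (Tr.leaf []) (Tr.leaf [164, 784, 6145]))) (Tr.node (Tr.node (Tr.leaf []) (Tr.leaf [388, 1104, 1792])) (Tr.node (Tr.leaf [224]) (Tr.leaf [224])))) (Tr.node (Tr.node (Tr.node (Tr.leaf []) (Tr.leaf [164, 784, 3136])) (Tr.node (Tr.leaf [164]) (Tr.leaf [224, 388, 584, 2128, 3328, 8322, 10241, 12800]))) (Tr.node (Tr.node (Tr.leaf []) (Tr.leaf [164, 784])) (Tr.node (Tr.leaf [164, 784]) (Tr.leaf [388, 642, 8264, 12800]))))) (Tr.node (Tr.node (Tr.node (Tr.node (Tr.leaf []) (Tr.leaf [38, 324, 1184, 2084])) (Tr.node (Tr.leaf []) (Tr.leaf [164, 3074]))) (Tr.node (Tr.node (Tr.leaf []) (Tr.leaf [])) (Tr.node (Tr.leaf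 []) (Tr.leaf [164, 784, 6145])))) (Tr.node (Tr.node (Tr.node (Tr.leaf []) (Tr.leaf [])) (Tr.node (Tr.leaf [336]) (Tr.leaf [164, 784, 6145, 24578]))) (Tr.node (Tr.node (Tr.leaf [224]) (Tr.leaf [])) (Tr.node (Tr.leaf []) (Tr.leaf [164, 784, 3080, 12289, 49216, 196610])))))) (Tr.node (Tr.node (Tr.node (Tr.node (Tr.node (Tr.leaf [131, 73, 289, 38, 26, 552]) (Tr.leaf [162, 273, 584, 3076])) (Tr.node (Tr.leaf []) (Tr.leaf [164, 784, 6208]))) (Tr.node (Tr.node (Tr.leaf []) (Tr.leaf [])) (Tr.node (Tr.leaf []) (Tr.leaf [164, 784, 3080, 12289, 49216])))) (Tr.node (Tr.node (Tr.node (Tr.leaf []) (Tr.leaf [164])) (Tr.node (Tr.leaf []) (Tr.leaf [164, 784, 3080, 12289]))) (Tr.node (Tr.node (Tr.leaf [224, 336, 388]) (Tr.leaf [584, 642, 2128, 2561, 3328])) (Tr.node (Tr.leaf [164]) (Tr.leaf [164, 784, 6145, 49154]))))) (Tr.node (Tr.node (Tr.node (Tr.node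 (Tr.leaf []) (Tr.leaf [164, 784, 3080])) (Tr.node (Tr.leaf [164, 784]) (Tr.leaf [224, 388, 642, 2128]))) (Tr.node (Tr.node (Tr.leaf [164]) (Tr.leaf [164, 784])) (Tr.node (Tr.leaf [162, 273]) (Tr.leaf [224, 388, 642, 2128, 3328, 10241, 32840, 37376,
  57344])))) (Tr.node (Tr.node (Tr.node (Tr.leaf []) (Tr.leaf [224, 388, 584])) (Tr.node (Tr.leaf []) (Tr.leaf [224, 2128, 3328, 8264, 10241, 12800]))) (Tr.node (Tr.node (Tr.leaf []) (Tr.leaf [224, 1104])) (Tr.node (Tr.leaf [224]) (Tr.leaf []))))))) (Tr.node (Tr.node (Tr.node (Tr.node (Tr.node (Tr.node (Tr.leaf [56]) (Tr.leaf [])) (Tr.node (Tr.leaf []) (Tr.leaf [164, 784, 6145]))) (Tr.node (Tr.node (Tr.leaf []) (Tr.leaf [])) (Tr.node (Tr.leaf []) (Tr.leaf [388, 642])))) (Tr.node (Tr.node (Tr.node (Tr.leaf []) (Tr.leaf [164, 784])) (Tr.node (Tr.leaf []) (Tr.leaf []))) (Tr.node (Tr.node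 (Tr.leaf []) (Tr.leaf [])) (Tr.node (Tr.leaf [164]) (Tr.leaf [164, 784, 3080, 12289, 49216]))))) (Tr.node (Tr.node (Tr.node (Tr.node (Tr.leaf []) (Tr.leaf [])) (Tr.node (Tr.leaf [164]) (Tr.leaf [224, 2128, 3328]))) (Tr.node (Tr.node (Tr.leaf [162, 164, 289, 352, 392, 400]) (Tr.leaf [164, 784, 6145])) (Tr.node (Tr.leaf []) (Tr.leaf [164, 784, 6208])))) (Tr.node (Tr.node (Tr.node (Tr.leaf []) (Tr.leaf [224, 388, 642])) (Tr.node (Tr.leaf [224, 276, 522]) (Tr.leaf [164, 784, 6208]))) (Tr.node (Tr.node (Tr.leaf [224]) (Tr.leaf [])) (Tr.node (Tr.leaf [224, 388, 1104, 1792]) (Tr.leaf [164, 784, 6145, 49154])))))) (Tr.node (Tr.node (Tr.node (Tr.node (Tr.node (Tr.leaf []) (Tr.leaf [162, 273])) (Tr.node (Tr.leaf [162, 273]) (Tr.leaf [164, 784, 3073, 12290]))) (Tr.node (Tr.node (Tr.leaf []) (Tr.leaf [224, 772, 3080])) (Tr.node (Tr.leaf [])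 (Tr.leaf [164, 784, 3080, 12289])))) (Tr.node (Tr.node (Tr.node (Tr.leaf []) (Tr.leaf [])) (Tr.node (Tr.leaf [224, 336, 388, 584, 642, 769]) (Tr.leaf [164, 784, 3080]))) (Tr.node (Tr.node (Tr.leaf []) (Tr.leaf [224])) (Tr.node (Tr.leaf []) (Tr.leaf [224, 2128]))))) (Tr.node (Tr.node (Tr.node (Tr.node (Tr.leaf []) (Tr.leaf [164, 784])) (Tr.node (Tr.leaf [164]) (Tr.leaf [388, 642, 2128, 3328]))) (Tr.node (Tr.node (Tr.leaf [164]) (Tr.leaf [164, 784, 3073])) (Tr.node (Tr.leaf [164]) (Tr.leaf [224, 388, 642, 2128, 8264, 12800, 34048, 40961,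
  51200])))) (Tr.node (Tr.node (Tr.node (Tr.leaf []) (Tr.leaf [224, 1104, 1792])) (Tr.node (Tr.leaf [224, 896]) (Tr.leaf [224, 388, 642, 2128, 8264, 12800]))) (Tr.node (Tr.node (Tr.leaf []) (Tr.leaf [164, 784, 3080, 12289])) (Tr.leaf [224, 388]))))))) (Tr.node (Tr.node (Tr.node (Tr.node (Tr.node (Tr.node (Tr.node (Tr.leaf [289, 52]) (Tr.leaf [])) (Tr.node (Tr.leaf []) (Tr.leaf [164, 784, 6145]))) (Tr.node (Tr.node (Tr.leaf []) (Tr.leaf [])) (Tr.node (Tr.leaf [224]) (Tr.leaf [224, 2128])))) (Tr.node (Tr.node (Tr.node (Tr.leaf []) (Tr.leaf [164, 784])) (Tr.node (Tr.leaf []) (Tr.leaf []))) (Tr.node (Tr.node (Tr.leaf []) (Tr.leaf [164, 3074])) (Tr.node (Tr.leaf [164, 784]) (Tr.leaf []))))) (Tr.node (Tr.node (Tr.node (Tr.node (Tr.leaf []) (Tr.leaf [])) (Tr.node (Tr.leaf [164]) (Tr.leaf [224, 388, 642, 2128, 3328, 8264, 10241, 12800])))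 (Tr.node (Tr.node (Tr.leaf [162, 273]) (Tr.leaf [164, 784, 3080])) (Tr.node (Tr.leaf []) (Tr.leaf [164, 784, 6145, 24578])))) (Tr.node (Tr.node (Tr.node (Tr.leaf []) (Tr.leaf [224, 388, 584, 642, 2128, 2561, 3328])) (Tr.node (Tr.leaf []) (Tr.leaf [164, 784, 6145]))) (Tr.node (Tr.node (Tr.leaf []) (Tr.leaf [584])) (Tr.node (Tr.leaf [224, 388, 584, 642]) (Tr.leaf [164, 784, 3080, 12289, 49216])))))) (Tr.node (Tr.node (Tr.node (Tr.node (Tr.node (Tr.leaf []) (Tr.leaf [162, 273, 584])) (Tr.node (Tr.leaf [162, 273]) (Tr.leaf [164, 784]))) (Tr.node (Tr.node (Tr.leaf [262, 352]) (Tr.leaf [224, 772, 3088])) (Tr.node (Tr.leaf []) (Tr.leaf [164, 784, 3080, 12289])))) (Tr.node (Tr.node (Tr.node (Tr.leaf []) (Tr.leaf [164, 1538])) (Tr.node (Tr.leaf []) (Tr.leaf [164, 784, 3080, 12289]))) (Tr.node (Tr.node (Tr.leaf [224, 276]) (Tr.leaf [224, 388,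 584, 2128, 3328])) (Tr.node (Tr.leaf []) (Tr.leaf [224, 2128, 3328, 10241, 65608, 70144, 106496]))))) (Tr.node (Tr.node (Tr.node (Tr.node (Tr.leaf [296]) (Tr.leaf [164, 784])) (Tr.node (Tr.leaf [164]) (Tr.leaf [388, 642, 3328]))) (Tr.node (Tr.node (Tr.leaf [164]) (Tr.leaf [164, 784])) (Tr.node (Tr.leaf [352]) (Tr.leaf [388, 642, 3328, 10241])))) (Tr.node (Tr.node (Tr.node (Tr.leaf []) (Tr.leaf [])) (Tr.node (Tr.leaf []) (Tr.leaf [224, 388, 642, 2128, 3328, 10241]))) (Tr.node (Tr.node (Tr.leaf []) (Tr.leaf [])) (Tr.node (Tr.leaf [388]) (Tr.leaf [224, 388, 642, 2128, 8264, 34048, 51200, 135680,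
  163841, 204800]))))))) (Tr.node (Tr.node (Tr.node (Tr.node (Tr.node (Tr.node (Tr.leaf [19, 524]) (Tr.leaf [])) (Tr.node (Tr.leaf [162, 273, 584]) (Tr.leaf [164, 784, 6208]))) (Tr.node (Tr.node (Tr.leaf [224]) (Tr.leaf [])) (Tr.node (Tr.leaf [224]) (Tr.leaf [224, 1104, 4356, 6272, 17152, 25600])))) (Tr.node (Tr.node (Tr.node (Tr.leaf [200, 296]) (Tr.leaf [164, 3074])) (Tr.node (Tr.leaf []) (Tr.leaf [224, 1104, 4356, 6272]))) (Tr.node (Tr.node (Tr.leaf []) (Tr.leaf [224, 388, 642, 2128, 3328])) (Tr.node (Tr.leaf [164, 1538]) (Tr.leaf [164, 784, 3080, 12289]))))) (Tr.node (Tr.node (Tr.node (Tr.node (Tr.leaf []) (Tr.leaf [164])) (Tr.node (Tr.leaf [164, 896]) (Tr.leaf [224, 388, 642]))) (Tr.node (Tr.node (Tr.leaf []) (Tr.leaf [164, 784, 6208])) (Tr.node (Tr.leaf [162, 273, 584]) (Tr.leaf [224, 2128, 3328, 10241])))) (Tr.node (Tr.node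 (Tr.node (Tr.leaf []) (Tr.leaf [584, 642])) (Tr.node (Tr.leaf [224, 276]) (Tr.leaf [164, 784, 6208]))) (Tr.node (Tr.node (Tr.leaf []) (Tr.leaf [224, 1104, 1792, 4356, 6272])) (Tr.node (Tr.leaf []) (Tr.leaf [224, 2128, 65608, 70144, 106496])))))) (Tr.node (Tr.node (Tr.node (Tr.node (Tr.node (Tr.leaf [21, 2058, 416, 1600]) (Tr.leaf [22, 88, 164, 448, 592, 1044])) (Tr.node (Tr.leaf [162, 164, 352]) (Tr.leaf [164, 784, 3073]))) (Tr.node (Tr.node (Tr.leaf []) (Tr.leaf [])) (Tr.node (Tr.leaf []) (Tr.leaf [164, 784, 6145, 49154])))) (Tr.node (Tr.node (Tr.node (Tr.leaf []) (Tr.leaf [])) (Tr.node (Tr.leaf [224, 388]) (Tr.leaf [164, 784, 6145]))) (Tr.node (Tr.node (Tr.leaf [224]) (Tr.leaf [388, 642])) (Tr.node (Tr.leaf []) (Tr.leaf [224, 388, 642, 2128, 8264, 34048, 51200]))))) (Tr.node (Tr.node (Tr.node (Tr.node (Tr.leaf [296, 704]) (Tr.leaf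 [164, 784, 3073])) (Tr.node (Tr.leaf [164, 770]) (Tr.leaf [584, 642, 2128]))) (Tr.node (Tr.node (Tr.leaf [164]) (Tr.leaf [164, 784, 3136])) (Tr.node (Tr.leaf [164, 784]) (Tr.leaf [224, 388, 642, 2128, 8264])))) (Tr.node (Tr.node (Tr.node (Tr.leaf [162, 164]) (Tr.leaf [388, 1792])) (Tr.node (Tr.leaf [224, 772]) (Tr.leaf [388, 642, 3328, 8264, 10241, 12800]))) (Tr.node (Tr.node (Tr.leaf []) (Tr.leaf [164, 784, 3080])) (Tr.leaf [])))))))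

theorem tsS_ok : tsS.ok = true := by decide +kernel

def progs : List PG := [⟨[], 2, 0x249a70e81620400⟩, ⟨[(1, [128]), (3, [3, 6, 7, 5, 2])], 1, 0x2221009c58e604c21⟩, ⟨[(4, [0x408000008020a3, 0xd21390000004024e6]), (2, [3, 7])], 1, 0xa040208a3967046308a02⟩, ⟨[], 12, 0xa6898416a862007390a12⟩, ⟨[], 11, 0x9470461288898ca509212⟩, ⟨[(4, [])], 16, 0xc1802925a66a070⟩, ⟨[(0, [1, 105]), (1, [256]), (3, [5, 8, 9, 3, 1]), (2, [3, 8])], 1, 0x200122027963981308a02⟩, ⟨[(1, [128]), (3, [3, 6, 7, 9, 2])], 19, 0x2481c61440c20400⟩,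
  ⟨[], 12, 0x2619a8144aa39c008e11⟩, ⟨[], 11, 0x5086107048aca0c9511222⟩, ⟨[(4, [])], 22, 0x90c1802905aa6a070⟩, ⟨[(4, [])], 21, 0x90c1802925aa6a070⟩, ⟨[], 12, 0x2b2619a8144aa39c008e11⟩, ⟨[], 11, 0x940ac7181129888a83509012⟩, ⟨[(4, [])], 12, 0x290638802a790b20615411⟩, ⟨[], 0, 0x68c1025902284802⟩,
  ⟨[(4, [])], 28, 0x61440c20400⟩, ⟨[], 1, 0x241a70a80e101021⟩, ⟨[], 0, 0x238671649a200c11⟩, ⟨[(1, [32]), (3, [7, 5, 6, 2, 0])], 31, 0x788590398004c21⟩, ⟨[], 7, 0x99801410e70925384603⟩, ⟨[], 7, 0x4187a6314204801⟩, ⟨[(4, [0x1018a7])], 31, 0x788590398004c21⟩, ⟨[(0, [1, 71]), (3, [5, 1, 7, 6, 4])], 35, 0x1619848c01c2094062⟩,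
  ⟨[], 1, 0x1472209a390204801⟩, ⟨[], 6, 0x8e716622912201231⟩, ⟨[(0, [2, 0x2a082]), (1, [260]), (3, [1, 2, 8, 5, 4])], 2, 0xe81e606094408c31⟩, ⟨[(4, [])], 38, 0x280638021679060⟩, ⟨[], 7, 0x1c90ea2210a614c11⟩, ⟨[], 0, 0x23a269c51218020⟩, ⟨[(1, [32]), (3, [8, 5, 6, 2, 0])], 0, 0x3a261c51218020⟩, ⟨[(1, [16]), (3, [8, 4, 6, 2, 1])], 41, 0x1c41688468020c611⟩,
  ⟨[(0, [1, 136]), (3, [2, 7, 8, 4, 1]), (2, [7, 5])], 31, 0x870c000614110821⟩, ⟨[], 3, 0xe09a422786214601⟩, ⟨[], 7, 0x9e01a4a638a504e01⟩, ⟨[], 6, 0x28a650470e4982484c32⟩, ⟨[(0, [2, 0x29c88]), (3, [2, 7, 8, 5, 4])], 46, 0x1c5a261018a00cc8208613⟩, ⟨[(0, [1, 168]), (1, [272]), (3, [2, 4, 8, 7, 0])], 44, 0x8881849c394004821⟩, ⟨[(1, [32]), (3, [7, 5, 6, 8, 2])], 47, 0x20788590398004c21⟩, ⟨[], 4, 0x8c19270a6248380832⟩,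
  ⟨[(4, [0x1018a7, 0x540800000882082])], 41, 0x481209461c308611⟩, ⟨[(1, [4]), (3, [8, 2, 7, 6, 5])], 52, 0x81c61440e20400⟩, ⟨[(0, [1, 40]), (1, [256]), (3, [5, 7, 8, 6, 3]), (2, [6, 7])], 35, 0x94018710308100251⟩, ⟨[(4, [0x1018a7])], 0, 0x280e61c51218020⟩, ⟨[(4, [])], 48, 0x81c61440c20400⟩, ⟨[(0, [1, 8]), (1, [256]), (3, [4, 2, 8, 6, 5])], 53, 0x90718508320100041⟩, ⟨[(0, [1, 72]), (3, [4, 0, 8, 7, 6])], 58, 0x26903205040887094062⟩, ⟨[(0, [1, 40]), (1, [1]), (3, [5, 0, 8, 7, 6])], 56, 0x52009840e1887114062⟩,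
  ⟨[], 5, 0x281091a59e388101071⟩, ⟨[(4, [])], 6, 0x3840884a681a51d231⟩, ⟨[], 6, 0x2651e82860c20040⟩, ⟨[], 6, 0x218e716622912201231⟩, ⟨[], 8, 0x9699e62889030810⟩, ⟨[(4, [])], 63, 0xa298e18a01c51840⟩, ⟨[], 7, 0xa6b20a1e31a21410⟩, ⟨[], 9, 0xc79a5202024049488802⟩,
  ⟨[(1, [8]), (3, [9, 3, 6, 2, 1])], 67, 0x2481c61448c20400⟩, ⟨[], 7, 0x32001a41e986214601⟩, ⟨[(1, [320]), (3, [9, 6, 8, 2, 0]), (2, [9, 5])], 0, 0x9c3a060051218020⟩, ⟨[(1, [144]), (3, [9, 4, 7, 2, 1])], 71, 0x9491e62028648c0208612⟩, ⟨[(1, [16]), (3, [8, 4, 6, 9, 2])], 70, 0x291c806494382218c11⟩, ⟨[(0, [1, 137]), (1, [520]), (3, [0, 3, 9, 8, 1])], 69, 0x1a489a48e782214611⟩, ⟨[(0, [1, 136]), (3, [2, 7, 8, 4, 1]), (2, [9, 2]), (2, [7, 5])], 31, 0x788518010300100821⟩, ⟨[(4, [0x138800000401c45, 0x48800001802504]), (2, [5, 4])], 52, 0x1468849c08488c0094062⟩,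
  ⟨[(0, [1, 137]), (1, [32]), (3, [2, 5, 9, 8, 4]), (2, [7, 5])], 45, 0x2220718010394100821⟩, ⟨[(0, [1, 136]), (3, [2, 7, 8, 9, 4]), (2, [7, 5])], 46, 0x88851801031c100821⟩, ⟨[], 3, 0x290e09a422786214601⟩, ⟨[(0, [2, 0x22069]), (3, [1, 8, 9, 4, 3])], 3, 0x899288069410c7388c02⟩, ⟨[], 6, 0x91482a11878e409011⟩, ⟨[], 10, 0x9e48c1248a82985390c12⟩, ⟨[(0, [2, 0x22069]), (3, [0, 8, 9, 4, 3])], 80, 0x279492211a402308c8208613⟩, ⟨[(0, [1, 169]), (1, [520]), (3, [1, 3, 9, 8, 0])], 74, 0x252469280c200704c21⟩,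
  ⟨[(0, [1, 168]), (1, [272]), (3, [2, 4, 8, 9, 7])], 73, 0x99469280831c004c21⟩, ⟨[], 4, 0x8e50019c2908989380832⟩, ⟨[(1, [4]), (3, [9, 2, 8, 6, 5]), (2, [9, 7])], 52, 0x1c80061440e20400⟩, ⟨[(1, [2]), (3, [9, 1, 7, 6, 5])], 4, 0x8e50019c2908189380832⟩, ⟨[(4, [])], 10, 0x1031e1a292a2946390c12⟩, ⟨[(4, [0x1018a7, 0x540800000882082, 0x248800001042461])], 67, 0x2689670448e01820⟩, ⟨[(4, [0x1018a7, 0x540800000882082])], 67, 0xa039670661090020⟩, ⟨[(1, [4]), (3, [8, 2, 7, 9, 5])], 88, 0x92061c58a112300e6110233⟩,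
  ⟨[(1, [4]), (3, [8, 2, 7, 9, 6])], 87, 0x91c62048a01630506114033⟩, ⟨[(0, [1, 40]), (1, [256]), (3, [5, 7, 8, 6, 3]), (2, [9, 5]), (2, [6, 7])], 35, 0x794018010308100251⟩, ⟨[(4, [0x1018a7, 0x448800000802502]), (2, [5, 2])], 0, 0x5a0718304002408801⟩, ⟨[(0, [1, 40]), (1, [256]), (3, [5, 7, 8, 9, 6]), (2, [6, 7])], 56, 0x894018710308100251⟩, ⟨[(0, [2, 41990]), (1, [512]), (3, [5, 6, 9, 8, 4]), (2, [7, 6])], 55, 0x9481c01840c2040094062⟩, ⟨[(4, [])], 81, 0x2481c61440c20400⟩, ⟨[(0, [1, 9]), (1, [512]), (3, [3, 1, 9, 8, 6])], 91, 0x242471850c204800041⟩, ⟨[(0, [1, 72]), (3, [4, 0, 8, 9, 7])], 99, 0x9070e2a46220045114062⟩,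
  ⟨[(4, [])], 68, 0x2481c61440c20400⟩, ⟨[(4, [])], 6, 0x5a418e08a41caa060⟩, ⟨[], 6, 0x212651e82860c20040⟩, ⟨[], 8, 0x25ae99e62889030810⟩, ⟨[(4, [])], 104, 0x91a2aa10c02251c40⟩, ⟨[], 9, 0x2472a896408318100c21⟩, ⟨[], 7, 0xc6908a4788a84500621⟩, ⟨[(1, [8]), (3, [9, 3, 6, 10, 2])], 107, 0xa2481c61448c20400⟩,
  ⟨[(1, [320]), (3, [9, 6, 8, 2, 0]), (2, [9, 5])], 71, 0x99c52220068048c1208602⟩, ⟨[(0, [1, 138]), (1, [1032]), (3, [0, 3, 10, 9, 8])], 108, 0x6aa489a48e782214611⟩, ⟨[(0, [1, 138]), (3, [2, 7, 10, 8, 4]), (2, [7, 5])], 76, 0x8892051801031c100821⟩, ⟨[(0, [1, 138]), (1, [32]), (3, [2, 5, 10, 8, 4]), (2, [7, 5])], 76, 0x20788918014390004a81⟩, ⟨[(4, [0x138800000401c45, 0x48800001802504]), (2, [5, 4])], 4, 0x698e81850020041ce3300813⟩, ⟨[(0, [1, 137]), (1, [32]), (3, [2, 5, 9, 10, 8]), (2, [7, 5])], 78, 0x26220718010394100821⟩, ⟨[(0, [1,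 136]), (3, [2, 7, 8, 9, 4]), (2, [7, 5])], 3, 0x9218e99801678a021021⟩, ⟨[(0, [1, 136]), (3, [2, 7, 8, 10, 9]), (2, [7, 5])], 80, 0x2090870c000614110821⟩,
  ⟨[], 10, 0x291061431caac8881491032⟩, ⟨[(4, [])], 10, 0x9c50a4868a4a8e018c11⟩, ⟨[(4, [])], 118, 0x91ca2061050c20010⟩, ⟨[(0, [1, 169]), (1, [520]), (3, [1, 3, 9, 10, 8])], 110, 0x2652869280c200704c21⟩, ⟨[(1, [4]), (3, [10, 2, 8, 6, 5]), (2, [10, 7])], 4, 0x50e0021887108a46380832⟩, ⟨[(1, [4]), (3, [9, 2, 8, 6, 5]), (2, [9, 7]), (2, [10, 8])], 52, 0x81c00061440e20400⟩, ⟨[(1, [2]), (3, [10, 1, 7, 6, 5])], 121, 0x92881c61440c28400⟩, ⟨[(0, [1, 42]), (1, [1024]), (3, [5, 7, 10, 6, 3]), (2, [6, 7])], 87, 0x94920018710308100251⟩,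
  ⟨[(1, [4]), (3, [9, 2, 8, 10, 5]), (2, [9, 7])], 88, 0xa689809c29419200ce6110233⟩, ⟨[(1, [4]), (3, [9, 2, 8, 10, 6]), (2, [9, 7])], 87, 0x267980a029009610d06114033⟩, ⟨[(4, [])], 117, 0x9c98a8146103a8101071⟩, ⟨[(0, [1, 42]), (1, [1024]), (3, [8, 2, 10, 6, 4]), (2, [9, 2])], 95, 0xa0908718510300100281⟩, ⟨[(4, [])], 106, 0xa2481c61440c20400⟩, ⟨[], 8, 0x8c51a91caa2b9220400⟩, ⟨[], 9, 0xa039ea2c41662628400⟩, ⟨[], 7, 0x9021ab2291e32a01410⟩,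
  ⟨[(0, [2, 0x22c6a]), (1, [1024]), (3, [2, 10, 11, 4, 3])], 7, 0xaa99e4ae88e29660400⟩, ⟨[(4, [0x238800000001c25, 0x140800000002004])], 7, 0xa07109ae08e68a584a0⟩, ⟨[(1, [160]), (3, [8, 5, 7, 2, 0]), (2, [7, 6]), (2, [2, 8])], 0, 0x1a50080010e41e200e11⟩, ⟨[(0, [1, 74]), (1, [1024]), (3, [4, 7, 10, 2, 1]), (2, [5, 4])], 135, 0x2892071851000c20400⟩, ⟨[(0, [1, 139]), (1, [32]), (3, [2, 5, 11, 10, 1])], 136, 0x2ca2481c61440c20400⟩, ⟨[(0, [1, 107]), (1, [32]), (3, [1, 5, 11, 3, 2])], 136, 0x84a2481c69440eb080590612⟩, ⟨[(0, [1, 138]), (1, [1032]), (3, [0, 3, 10, 11, 9])], 134, 0xa12b2458e79a884200c01⟩, ⟨[(4, [0x138800000401c45, 0x48800001802504, 0x458800004002d43]), (2, [4, 3]), (2, [4, 5])], 4, 0x1e1a251a902002388448c812⟩,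
  ⟨[(0, [1, 139]), (1, [32]), (3, [2, 5, 11, 10, 4]), (2, [7, 5])], 111, 0x828788918014390004a81⟩, ⟨[(0, [1, 138]), (3, [2, 7, 10, 11, 4]), (2, [7, 5])], 113, 0xa8892051801031c100821⟩, ⟨[(4, [0x138800000401c45, 0x48800001802504, 0x258800004002d40]), (2, [2, 0]), (2, [5, 4])], 4, 0x9c1a63a0614008010030c812⟩, ⟨[(4, [0x138800000401c45, 0x48800001802504, 0x258800006002d46]), (2, [5, 4]), (2, [2, 6]), (2, [10, 8])], 52, 0x1080809401c0066803094042⟩, ⟨[(0, [1, 138]), (1, [32]), (3, [2, 5, 10, 11, 8]), (2, [7, 5])], 112, 0x2a20788918014390004a81⟩, ⟨[(0, [1, 138]), (1, [32]), (3, [2, 5, 10, 11, 4]), (2, [7, 5])], 113, 0xa88920718010394100821⟩, ⟨[(0, [1, 137]), (1, [32]), (3, [2, 5, 9, 10, 8]), (2, [7, 5])], 115, 0xa26220718010394100821⟩, ⟨[(0, [1, 137]), (1, [32]), (3, [2, 5, 9, 11, 10]), (2, [7, 5])], 116, 0xa26220718010394100821⟩,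
  ⟨[(0, [1, 136]), (3, [2, 7, 8, 11, 4]), (2, [7, 5])], 115, 0x20788904300418a140284892⟩, ⟨[], 10, 0x2a1449e9a26b2b8e205241⟩, ⟨[], 10, 0x29092050ca1eb1a004c31⟩, ⟨[(0, [2, 0x2ac6a]), (1, [3072]), (3, [0, 10, 11, 9, 8])], 139, 0x279692881840c100b08821⟩, ⟨[(1, [4]), (3, [10, 2, 8, 6, 5]), (2, [10, 7]), (2, [11, 8])], 4, 0xc58000218841c9a06380832⟩, ⟨[(1, [2]), (3, [11, 1, 9, 6, 5]), (2, [11, 7])], 121, 0x1ca2480061440c28400⟩, ⟨[(1, [2]), (3, [11, 1, 7, 6, 5]), (2, [11, 9])], 121, 0x24a0081c61440c28400⟩, ⟨[(1, [4]), (3, [10, 2, 8, 6, 5]), (2, [10, 7])], 121, 0x2a1882401c58620e400e6110233⟩,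
  ⟨[(4, [])], 10, 0x29a258848e72ea86600c31⟩, ⟨[(1, [4]), (3, [9, 2, 8, 11, 6]), (2, [10, 8])], 122, 0x99aa0289c29419200ce6110233⟩, ⟨[(1, [4]), (3, [9, 2, 8, 11, 5]), (2, [9, 7]), (2, [10, 8])], 88, 0x92060001c58a112300e6110233⟩, ⟨[(1, [4]), (3, [9, 2, 8, 11, 6]), (2, [9, 7]), (2, [10, 8])], 87, 0x91c60002048a01630506114033⟩, ⟨[(1, [2]), (3, [10, 1, 7, 11, 6])], 156, 0xb9aaa27a410238a51126094043⟩, ⟨[(1, [2]), (3, [10, 1, 7, 11, 6])], 154, 0xa9aba67a020248650d06114033⟩, ⟨[(1, [4]), (3, [9, 2, 8, 11, 6])], 158, 0xb26a9a89c29419200ce6110233⟩, ⟨[(4, [])], 150, 0x2482ca1c61440c20400⟩,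
  ⟨[(4, [0x1018a7, 0x448800000802502, 0x258800004002d44]), (2, [8, 4]), (2, [2, 5]), (2, [10, 7])], 0, 0x252060c08400241e200e11⟩, ⟨[(4, [0x1018a7, 0x448800000802502, 0x4286b]), (2, [5, 2]), (2, [11, 7]), (2, [10, 8])], 0, 0x289e600094304002210801⟩, ⟨[(4, [])], 131, 0x2ca2481c61440c20400⟩, ⟨[], 9, 0x27109b2a968ae60e20400⟩, ⟨[(0, [1, 140]), (1, [32]), (3, [2, 5, 12, 10, 4]), (2, [7, 5])], 140, 0x88b28920718010394100821⟩, ⟨[(0, [1, 138]), (3, [2, 7, 10, 11, 8]), (2, [7, 5])], 143, 0x26808ba870c000614110821⟩, ⟨[(0, [1, 138]), (3, [2, 7, 10, 11, 8]), (2, [7, 5])], 144, 0x1aa2078842c014324004a81⟩, ⟨[(0, [1, 139]), (1, [32]), (3, [2, 5, 11, 12, 10]), (2, [7, 5])], 141, 0xac828788918014390004a81⟩,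
  ⟨[(0, [1, 139]), (1, [32]), (3, [2, 5, 11, 12, 4]), (2, [7, 5])], 142, 0x2e228920718010394100821⟩, ⟨[(0, [1, 172]), (3, [8, 4, 12, 10, 5]), (2, [9, 4])], 143, 0xa0b28910718500308100a81⟩, ⟨[(4, [0x138800000401c45, 0x48800001802504, 0x258800006002d46]), (2, [5, 4]), (2, [2, 6]), (2, [10, 8])], 4, 0x1205a401800c090088738c812⟩, ⟨[(0, [1, 138]), (1, [32]), (3, [2, 5, 10, 12, 11]), (2, [7, 5])], 146, 0x2ea20788918014390004a81⟩, ⟨[(0, [1, 137]), (1, [32]), (3, [2, 5, 9, 12, 8]), (2, [7, 5])], 149, 0x2ca26220718010394100821⟩, ⟨[], 10, 0x22284a479463082c38400⟩, ⟨[(1, [4]), (3, [10, 2, 8, 6, 5]), (2, [10, 7]), (2, [11, 8])], 121, 0xa2472000061431210800⟩, ⟨[(1, [2]), (3, [12, 1, 7, 6, 5]), (2, [12, 9])], 153, 0x92ca0081c61440c28400⟩,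
  ⟨[(1, [4]), (3, [10, 2, 8, 6, 5]), (2, [10, 7]), (2, [11, 8])], 121, 0xa891880001c58620e400e6110233⟩, ⟨[(0, [1, 44]), (1, [4096]), (3, [5, 7, 12, 11, 6]), (2, [6, 7])], 154, 0x94b28920018710308100251⟩, ⟨[(1, [2]), (3, [11, 1, 9, 12, 6]), (2, [11, 7])], 156, 0x2e7aa6a00a410238a51126094043⟩, ⟨[(1, [1]), (3, [12, 0, 9, 6, 4])], 180, 0x2bb2aa689e69648e28400⟩, ⟨[(0, [1, 12]), (1, [4096]), (3, [3, 9, 12, 6, 4]), (2, [6, 9])], 155, 0x8cb28020718510908100031⟩, ⟨[(4, [])], 10, 0x291ca8849463082c38400⟩, ⟨[(1, [4]), (3, [9, 2, 8, 11, 6]), (2, [10, 8]), (2, [12, 9])], 122, 0xa899800289c29419200ce6110233⟩, ⟨[(0, [1, 12]), (1, [4096]), (3, [4, 10, 12, 6, 3]), (2, [6, 10])], 158, 0x90b00920718528308100041⟩,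
  ⟨[(4, [])], 9, 0x27109b2a968ae60e20400⟩, ⟨[(4, [0x138800000401c45, 0x48800001802504, 0x458800004002d43, 0x268800010003580]), (2, [2, 0]), (2, [4, 3]), (2, [4, 5]), (2, [12, 10])], 4, 0x81690048661c08c080200e11⟩, ⟨[(0, [1, 140]), (1, [32]), (3, [2, 5, 12, 13, 10]), (2, [7, 5])], 169, 0x2c20b28788918014390004a81⟩, ⟨[(0, [1, 141]), (1, [32]), (3, [2, 5, 13, 11, 10]), (2, [7, 5])], 170, 0x2230b28920718010394100821⟩, ⟨[(0, [1, 138]), (3, [2, 7, 10, 13, 8]), (2, [7, 5])], 174, 0xc2ca8892051801031c100821⟩, ⟨[(0, [2, 0x22c6d]), (1, [2048]), (3, [0, 11, 13, 10, 3]), (2, [12, 11])], 170, 0x2c02aa689e69648e284b22c602⟩, ⟨[(0, [1, 141]), (1, [32]), (3, [2, 5, 13, 11, 10]), (2, [7, 5])], 171, 0x81ab28788930014390004a81⟩, ⟨[(0, [1, 138]), (3, [2, 7, 10, 13, 11]), (2, [7, 5])], 175, 0xc1aa2078842c014324004a81⟩,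
  ⟨[(0, [1, 139]), (1, [32]), (3, [2, 5, 11, 13, 12]), (2, [7, 5])], 173, 0xcac828788918014390004a81⟩, ⟨[(4, [0x138800000401c45, 0x48800001802504, 0x258800004002d40, 0x468800018003581]), (2, [2, 0]), (2, [8, 1]), (2, [4, 5]), (2, [12, 10])], 4, 0x299680248e718084200000c31⟩, ⟨[(0, [2, 0x2286d]), (1, [1024]), (3, [0, 10, 13, 12, 3]), (2, [11, 10])], 174, 0x2cac0a689e69648e284a228602⟩, ⟨[(0, [2, 0x2286d]), (3, [1, 10, 13, 12, 3]), (2, [11, 10])], 177, 0x84c2c02481c61440c2280228612⟩, ⟨[(1, [2]), (3, [12, 1, 9, 6, 5]), (2, [12, 7]), (2, [13, 9])], 153, 0x2472ca0080061440c28400⟩, ⟨[(1, [4]), (3, [10, 2, 8, 13, 6]), (2, [11, 8])], 179, 0x2b269e9008aca9009610d66114033⟩, ⟨[(1, [2]), (3, [12, 1, 9, 6, 5]), (2, [12, 7])], 180, 0xc2c7089a001841432a0044a1⟩, ⟨[(1, [2]), (3, [12, 1, 9, 6, 5]), (2, [12, 7])], 180, 0x2a48b269c0ac02a48631566114033⟩,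
  ⟨[(1, [4]), (3, [10, 2, 8, 13, 5]), (2, [10, 7]), (2, [11, 8])], 155, 0x2aae6a67000a009028e11506114033⟩, ⟨[(1, [4]), (3, [10, 2, 8, 13, 6]), (2, [10, 7]), (2, [11, 8])], 156, 0xbaa69e8000a418c09621126094043⟩, ⟨[(1, [2]), (3, [12, 1, 7, 6, 5]), (2, [12, 9])], 180, 0x2988b009e9ac02a48631566114033⟩, ⟨[(1, [4]), (3, [10, 2, 8, 6, 5]), (2, [10, 7]), (2, [11, 8])], 153, 0xba891880001c58620e400e6110233⟩, ⟨[(1, [2]), (3, [11, 1, 9, 13, 6])], 204, 0xd0a7b26a48aca0248650d66114033⟩, ⟨[(1, [2]), (3, [11, 1, 7, 13, 12])], 207, 0x2a926b0b9e9a000ad8631506114033⟩, ⟨[(0, [1, 43]), (1, [2048]), (3, [5, 7, 11, 6, 3]), (2, [12, 5]), (2, [6, 7])], 158, 0x2ca9070a80060050c9001124042⟩, ⟨[(0, [1, 142]), (1, [32]), (3, [2, 5, 14, 12, 10]), (2, [7, 5])], 190, 0x88d30b28920718010394100821⟩,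
  ⟨[(0, [1, 174]), (3, [8, 4, 14, 12, 10]), (2, [9, 4])], 190, 0xa0d30b28910718500308100a81⟩, ⟨[(0, [1, 140]), (1, [32]), (3, [2, 5, 12, 14, 13]), (2, [7, 5])], 191, 0xdb0aa481e2ae0005903981300aa2⟩, ⟨[(0, [1, 141]), (1, [32]), (3, [2, 5, 13, 14, 10]), (2, [7, 5])], 193, 0x36230b28920718010394100821⟩, ⟨[(0, [1, 138]), (3, [2, 7, 10, 13, 8]), (2, [7, 5])], 198, 0x34c2ca8892051801031c100821⟩, ⟨[(0, [2, 0x22c6e]), (1, [2048]), (3, [0, 11, 14, 13, 3]), (2, [12, 11])], 193, 0xb6c02aa689e69648e284b22c602⟩, ⟨[(0, [1, 141]), (1, [32]), (3, [2, 5, 13, 14, 10]), (2, [7, 5])], 195, 0xb481ab28788930014390004a81⟩, ⟨[(0, [1, 141]), (1, [32]), (3, [2, 5, 13, 14, 11]), (2, [7, 5])], 196, 0x36230b28920718010394100821⟩, ⟨[(1, [2]), (3, [12, 1, 9, 14, 6]), (2, [13, 9])], 201, 0xa69edb00a48aca0248650d66114033⟩,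
  ⟨[(1, [4]), (3, [10, 2, 8, 6, 5]), (2, [10, 7]), (2, [11, 8])], 180, 0x3070892e80001840c580a044a1⟩, ⟨[(1, [2]), (3, [12, 1, 9, 6, 5]), (2, [12, 7]), (2, [13, 9])], 180, 0xa6a48b009c0ac02a48631566114033⟩, ⟨[(1, [2]), (3, [12, 1, 9, 14, 6]), (2, [12, 7]), (2, [13, 9])], 181, 0x3269eba80a00a410238a51126094043⟩, ⟨[(0, [1, 45]), (1, [8192]), (3, [5, 7, 13, 12, 6]), (2, [6, 7])], 203, 0x36530b28920018710308100251⟩, ⟨[(0, [1, 14]), (1, [16384]), (3, [4, 11, 14, 6, 3]), (2, [6, 11])], 202, 0x90d3002892071852c308100041⟩, ⟨[(1, [2]), (3, [12, 1, 9, 14, 6]), (2, [12, 7])], 207, 0x342a48b269c0ac02a48631566114033⟩, ⟨[(1, [4]), (3, [9, 2, 8, 13, 11]), (2, [14, 8]), (2, [12, 9])], 187, 0x2a918520002730b8a11230186110233⟩, ⟨[(4, [0x138800000401c45, 0x48800001802504, 0x458800004002d43, 0x268800010003580, 0x878800060003dc6]), (2, [2, 0]), (2, [4,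 3]), (2, [4, 5]), (2, [2, 6]), (2, [12, 10]), (2, [8, 14])], 4, 0x9c0205a401219800230200800⟩,
  ⟨[(0, [1, 142]), (1, [32]), (3, [2, 5, 14, 15, 10]), (2, [7, 5])], 213, 0xe88d30b28920718010394100821⟩, ⟨[(0, [2, 0x2306f]), (1, [4096]), (3, [0, 12, 15, 14, 3]), (2, [13, 12])], 212, 0x2eb40aeaa689e69648e284c230602⟩, ⟨[(0, [1, 141]), (1, [32]), (3, [2, 5, 13, 14, 10]), (2, [7, 5])], 216, 0xe36230b28920718010394100821⟩, ⟨[(0, [2, 0x22c6f]), (1, [2048]), (3, [0, 11, 15, 14, 3]), (2, [12, 11])], 215, 0x2eb6c02aa689e69648e284b22c602⟩, ⟨[(0, [2, 0x22c6f]), (1, [2048]), (3, [0, 11, 15, 13, 3]), (2, [12, 11])], 216, 0x2eb6c02aa689e69648e284b22c602⟩, ⟨[(0, [1, 141]), (1, [32]), (3, [2, 5, 13, 15, 14]), (2, [7, 5])], 219, 0xeb481ab28788930014390004a81⟩, ⟨[(1, [1]), (3, [15, 0, 13, 6, 4]), (2, [15, 11])], 220, 0xaeeb6c02aa689e69648e28400⟩, ⟨[(1,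 [1]), (3, [14, 0, 13, 6, 4]), (2, [14, 11]), (2, [15, 13])], 201, 0xb6b02c02aa689e69648e28400⟩,
  ⟨[(1, [4]), (3, [10, 2, 8, 15, 5]), (2, [10, 7]), (2, [11, 8])], 202, 0x302a2d2c61c00090e084494a4a846094044⟩, ⟨[(1, [2]), (3, [12, 1, 9, 6, 5]), (2, [12, 7]), (2, [13, 9])], 201, 0x9c29ad22100902b00a92c8c55b046094034⟩, ⟨[(1, [2]), (3, [12, 1, 9, 15, 6]), (2, [12, 7])], 222, 0x2ca89188b8d2c01c58a190300e6110233⟩, ⟨[(1, [2]), (3, [12, 1, 9, 15, 6]), (2, [12, 7]), (2, [13, 9])], 207, 0xd0a6a48b009c0ac02a48631566114033⟩, ⟨[(1, [1]), (3, [14, 0, 11, 15, 6])], 235, 0xf2e12869489e936c0e0b8211ae098043⟩, ⟨[(0, [1, 176]), (3, [8, 4, 16, 14, 10]), (2, [9, 4])], 228, 0xa0f38d30b28910718500308100a81⟩, ⟨[(0, [2, 0x23070]), (1, [4096]), (3, [0, 12, 16, 15, 3]), (2, [13, 12])], 229, 0xbeeb40aeaa689e69648e284c230602⟩, ⟨[(0, [1, 141]), (1, [32]), (3, [2,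 5, 13, 16, 10]), (2, [7, 5])], 231, 0xb4cac83ee28788918014390004a81⟩,
  ⟨[(1, [1]), (3, [15, 0, 13, 6, 4]), (2, [15, 11]), (2, [16, 13])], 220, 0x2daee02c02aa689e69648e28400⟩, ⟨[(0, [1, 16]), (1, [65536]), (3, [4, 11, 16, 15, 6]), (2, [6, 11])], 235, 0x90f38d3002892071852c308100041⟩, ⟨[(1, [4]), (3, [10, 2, 8, 14, 6]), (2, [10, 7]), (2, [15, 8])], 222, 0xa8db08b8918b0001c58620e400e6110233⟩, ⟨[(4, [0x138800000401c45, 0x48800001802504, 0x458800004002d43, 0x268800010003580, 0x878800060003dc6, 0xa88800180004601]), (2, [2, 0]), (2, [8, 1]), (2, [4, 3]), (2, [4, 5]), (2, [2, 6]), (2, [10, 12]), (2, [8, 14]),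
  (2, [10, 16])], 4, 0x20070280091640460000c000000a21⟩, ⟨[(0, [2, 0x23071]), (1, [4096]), (3, [0, 12, 17, 16, 3]), (2, [13, 12])], 242, 0x3429a2b02db2fb859079a088128ca1⟩, ⟨[(0, [2, 0x22c71]), (1, [2048]), (3, [0, 11, 17, 16, 3]), (2, [12, 11])], 244, 0x86d32bc0f00a1e22461050e800e2b8612⟩, ⟨[(1, [1]), (3, [15, 0, 13, 17, 6]), (2, [16, 13])], 245, 0x2f19088094d3272682ea80406e0d6e118033⟩, ⟨[(1, [1]), (3, [15, 0, 13, 17, 6])], 251, 0x10689032b9499e8b6a46fb810dae118033⟩,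
  ⟨[(1, [2]), (3, [12, 1, 9, 16, 6]), (2, [12, 7]), (2, [17, 9])], 238, 0xdb0fa89188b802c01c58a190300e6110233⟩]

theorem progs_ok : allFrom progs (stB tsS ttS) 13 = true := by decide +kernel

theorem progs_len : progs.length = 241 := by decide +kernel

end Pool.Agent.Lib.MP_c69b6d_co.F
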