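import Pool.Agent.Lib.MP_c69b6d_co.F.CkL
import Pool.Agent.Lib.MP_c69b6d_co.F.CkM
import Pool.Agent.Lib.MP_c69b6d_co.F.FinA
import Pool.Agent.Lib.MP_c69b6d_co.F.MemKa
import Pool.Agent.Lib.MP_c69b6d_co.F.MemFa
import Pool.Agent.Lib.MP_c69b6d_co.F.MemFb
import Pool.Agent.Lib.MP_c69b6d_co.F.Sta

/-! The two closure lists. -/

namespace Pool.Agent.Lib.MP_c69b6d_co.F

open Finset Disp CD

set_option maxRecDepth 100000

def AllIn {α : Type} (f : ℕ → α → Bool) (lo hi : ℕ) : Prop :=
  ∀ k, lo ≤ k → k < hi → ∃ x, f k x = true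

theorem AllIn.of {α : Type} {l : List α} {f : ℕ → α → Bool} {a b : ℕ} (h : allFrom l f a = true)
    (hl : Nat.beq (a + l.length) b = true) : AllIn f a b := by
  rw [Nat.beq_eq] at hl
  exact hl ▸ allFrom_sound h

theorem AllIn.app {α : Type} {f : ℕ → α → Bool} {a b c : ℕ} (h : AllIn f a b) (h' : AllIn f b c) :
    AllIn f a c := fun k h1 h2 => if hk : k < b then h k h1 hk else h' k (not_lt.1 hk) h2

/-- the member `k` is the state `s`. -/
noncomputable def lnkB (tm : Tb) (td : Tr MD) (k s : ℕ) : Bool :=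
  andB (Nat.blt s 254) (andB (eqB (tm.get k).C (tsS.get s).C)
    (allL (td.get k).T (fun m => memL m (ttS.get s))))

/-- all the states are settled. -/
def States : Prop := ∀ j < 254, ClP (tsS.get j).C (ttS.get j)

theorem mem_concl (hS : States) {Bad : Disp F3 → Prop} {tm : Tb} {td : Tr MD} {k s : ℕ}
    (hP : MemP L5 Bad (tm.get k).C (td.get k)) (h : lnkB tm td k s = true) :
    (tm.get k).C.toDisp.Concl L5 := by
  simp only [lnkB, andB_iff, Nat.blt_eq, allL_iff, memL_iff] at h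
  obtain ⟨hs, he, hT⟩ := h
  have c := hS s hs
  rw [← CD.eq_of_eqB he] at c
  refine concl_of_cl (Cl.mono c fun T hT' => ?_) hP.2.2.2.2.2.2.1
  obtain ⟨m, hm, rfl⟩ := List.mem_map.1 hT'
  exact List.mem_map.2 ⟨m, hT m hm, rfl⟩

theorem clos_concl (hS : States) {b : ℕ} {tm : Tb} (hm : tm.ok = true) {td : Tr MD} {lo hi : ℕ}
    (hP : ∀ k < hi, MemP L5 (BadT tabB b) (tm.get k).C (td.get k))
    (hU : AllIn (cloB tabB b tm td lo hi) lo hi) (hl : AllIn (lnkB tm td) lo hi)
    {D : Disp F3} (hD : D.Conn3) (hb : ¬ BadT tabB b D) {k : ℕ} (h1 : lo ≤ k) (h2 : k < hi)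
    (hk : Minor (tm.get k).C.toDisp D) : D.Concl L5 := by
  have hM : Has (mems tm lo hi) D :=
    ⟨_, List.mem_map.2 ⟨k, List.mem_range'_1.2 ⟨h1, by omega⟩, rfl⟩, hk⟩
  obtain ⟨j, j1, j2, ⟨E, φ, ε, hr, he⟩, hc⟩ :=
    clo_sound BadT.minor tabB_ok (fun _ h => h) hm hP hU hD hb hM
  obtain ⟨s, hs⟩ := hl j j1 j2
  exact Concl.of_emb hr he hc (mem_concl hS (hP j j2) hs)

theorem allIK : AllIn (memB tabB 27 tmK tdK) 0 31 :=
  (AllIn.of cIK0 (b := 16) (by decide +kernel)).app <|
    (AllIn.of cIK16 (b := 31) (by decide +kernel))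

theorem allUK : AllIn (cloB tabB 27 tmK tdK 17 31) 17 31 :=
  (AllIn.of cUK17 (b := 31) (by decide +kernel))

def lnK : List ℕ := [13, 14, 15, 16, 17, 18, 20, 21,
  22, 23, 24, 25, 26, 27]

theorem allLK : AllIn (lnkB tmK tdK) 17 31 :=
  AllIn.of (l := lnK) (by decide +kernel) (by decide +kernel)

theorem mpK : ∀ k < 31, MemP L5 (BadT tabB 27) (tmK.get k).C (tdK.get k) :=
  mem_sound BadT.minor tabB_ok bad_L5 (fun _ h => h) tmK_ok fun k hk => allIK k (Nat.zero_le k) hk

theorem allIF : AllIn (memB tabB 43 tmF tdF) 0 244 :=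
  (AllIn.of cIF0 (b := 16) (by decide +kernel)).app <|
    (AllIn.of cIF16 (b := 32) (by decide +kernel)).app <|
    (AllIn.of cIF32 (b := 48) (by decide +kernel)).app <|
    (AllIn.of cIF48 (b := 64) (by decide +kernel)).app <|
    (AllIn.of cIF64 (b := 80) (by decide +kernel)).app <|
    (AllIn.of cIF80 (b := 96) (by decide +kernel)).app <|
    (AllIn.of cIF96 (b := 112) (by decide +kernel)).app <|
    (AllIn.of cIF112 (b := 128) (by decide +kernel)).app <|
    (AllIn.of cIF128 (b := 144) (by decide +kernel)).app <|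
    (AllIn.of cIF144 (b := 160) (by decide +kernel)).app <|
    (AllIn.of cIF160 (b := 176) (by decide +kernel)).app <|
    (AllIn.of cIF176 (b := 192) (by decide +kernel)).app <|
    (AllIn.of cIF192 (b := 208) (by decide +kernel)).app <|
    (AllIn.of cIF208 (b := 224) (by decide +kernel)).app <|
    (AllIn.of cIF224 (b := 240) (by decide +kernel)).app <|
    (AllIn.of cIF240 (b := 244) (by decide +kernel))

theorem allUF : AllIn (cloB tabB 43 tmF tdF 20 244) 20 244 :=
  (AllIn.of cUF20 (b := 36) (by decide +kernel)).app <|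
    (AllIn.of cUF36 (b := 52) (by decide +kernel)).app <|
    (AllIn.of cUF52 (b := 68) (by decide +kernel)).app <|
    (AllIn.of cUF68 (b := 84) (by decide +kernel)).app <|
    (AllIn.of cUF84 (b := 100) (by decide +kernel)).app <|
    (AllIn.of cUF100 (b := 116) (by decide +kernel)).app <|
    (AllIn.of cUF116 (b := 132) (by decide +kernel)).app <|
    (AllIn.of cUF132 (b := 148) (by decide +kernel)).app <|
    (AllIn.of cUF148 (b := 164) (by decide +kernel)).app <|
    (AllIn.of cUF164 (b := 180) (by decide +kernel)).app <|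
    (AllIn.of cUF180 (b := 196) (by decide +kernel)).app <|
    (AllIn.of cUF196 (b := 212) (by decide +kernel)).app <|
    (AllIn.of cUF212 (b := 228) (by decide +kernel)).app <|
    (AllIn.of cUF228 (b := 244) (by decide +kernel))

def lnF : List ℕ := [28, 29, 30, 31, 32, 33, 34, 35,
  36, 37, 38, 39, 40, 41, 42, 43,
  44, 45, 46, 47, 48, 49, 50, 51,
  52, 53, 54, 55, 56, 57, 58, 59,
  60, 61, 62, 63, 64, 65, 66, 67,
  68, 69, 70, 71, 72, 73, 74, 75,
  76, 77, 78, 79, 80, 81, 82, 83,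
  84, 85, 86, 87, 88, 89, 90, 91,
  92, 93, 94, 95, 96, 97, 98, 99,
  100, 101, 102, 103, 104, 105, 106, 107,
  108, 109, 110, 111, 112, 113, 114, 115,
  116, 117, 119, 120, 121, 118, 122, 123,
  124, 125, 126, 127, 128, 129, 130, 131,
  132, 133, 134, 137, 138, 139, 140, 141,
  142, 143, 144, 145, 146, 147, 148, 149,
  150, 151, 152, 153, 154, 155, 156, 157,
  158, 159, 160, 161, 162, 163, 164, 165,
  166, 167, 168, 169, 170, 171, 172, 173,
  174, 175, 176, 177, 178, 179, 180, 181,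
  182, 183, 184, 185, 186, 187, 188, 189,
  190, 191, 192, 193, 194, 195, 196, 197,
  198, 199, 200, 201, 202, 203, 204, 205,
  206, 207, 208, 209, 210, 211, 212, 213,
  214, 215, 216, 217, 218, 219, 220, 221,
  222, 223, 224, 225, 226, 227, 228, 229,
  230, 231, 232, 233, 234, 235, 236, 237,
  238, 239, 240, 241, 242, 243, 244, 245,
  246, 247, 248, 249, 250, 251, 252, 253]

theorem allLF : AllIn (lnkB tmF tdF) 20 244 :=
  AllIn.of (l := lnF) (by decide +kernel) (by decide +kernel)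

theorem mpF : ∀ k < 244, MemP L5 (BadT tabB 43) (tmF.get k).C (tdF.get k) :=
  mem_sound BadT.minor tabB_ok bad_L5 (fun _ h => h) tmF_ok fun k hk => allIF k (Nat.zero_le k) hk

theorem closK (hS : States) {D : Disp F3} (hD : D.Conn3) (hb : ¬ BadT tabB 27 D) {k : ℕ}
    (h1 : 27 ≤ k) (h2 : k < 29) (hk : Minor (tabB.get k).C.toDisp D) : D.Concl L5 := by
  have e : (tabB.get k).C = (tmK.get (k - 10)).C := by
    interval_cases k <;> exact CD.eq_of_eqB (by decide +kernel)
  rw [e] at hk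
  exact clos_concl hS tmK_ok mpK allUK allLK hD hb (by omega) (by omega) hk

theorem NL_mem {N : Disp F3} (h : N ∈ NL) : ∃ k, 20 ≤ k ∧ k < 23 ∧ N = (tmF.get k).C.toDisp := by
  have e0 : cF7m = (tmF.get 20).C := CD.eq_of_eqB (by decide +kernel)
  have e1 : cF7md = (tmF.get 21).C := CD.eq_of_eqB (by decide +kernel)
  have e2 : cP8 = (tmF.get 22).C := CD.eq_of_eqB (by decide +kernel)
  simp only [NL, List.mem_cons, List.not_mem_nil, or_false] at h
  rcases h with rfl | rfl | rfl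
  · exact ⟨20, by omega, by omega, by rw [e0]⟩
  · exact ⟨21, by omega, by omega, by rw [e1]⟩
  · exact ⟨22, by omega, by omega, by rw [e2]⟩

theorem closF (hS : States) {D : Disp F3} (hD : D.Conn3) (hb : ¬ BadT tabB 43 D) (hN : Has NL D) :
    D.Concl L5 := by
  obtain ⟨N, h, hk⟩ := hN
  obtain ⟨k, h1, h2, rfl⟩ := NL_mem h
  exact clos_concl hS tmF_ok mpF allUF allLF hD hb h1 (by omega) hk

theorem NL_conn : ∀ N ∈ NL, N.Conn3 ∧ 4 ≤ N.Z.card := by
  intro N h
  obtain ⟨k, h1, h2, rfl⟩ := NL_mem h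
  have a : 2 ≤ (tdF.get k).kind ∧ 4 ≤ (tmF.get k).C.toDisp.Z.card := by
    interval_cases k <;> decide +kernel
  exact ⟨((mpF k (by omega)).2.2.2.2.2.2.2 a.1).1, a.2⟩

end Pool.Agent.Lib.MP_c69b6d_co.F
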