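import Pool.Agent.Lib.MP_c69b6d_co.F.Stepc

/-! The induction step, part d: classification of the valid marks. -/

namespace Pool.Agent.Lib.MP_c69b6d_co.F

open Finset Disp

namespace StepAux

/-- a mark which is controlled by a mark on the regular side. -/
def YM (D : Disp F3) (Y : Finset ℕ) (ρ : Fin 3 → ℕ) (T : Finset ℕ) : Prop :=
  ∃ T0, MarkY D Y (ρ 0) (ρ 1) (ρ 2) T0 ∧ ∀ T1, QF D.W T1 T0 → QF D.W T1 T

theorem no_w4 {R : Disp F3} {t1 t2 t3 j : ℕ} (h1 : R.S t1 t3 = 1) (h2 : R.S t2 t3 = -1)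
    (h : R.S t1 j = R.S t2 j) (hw : ¬ R.W4 t1 t2 t3 j) : R.S t1 j = 0 := by
  by_contra h0
  apply hw
  refine ⟨by rw [h1]; exact one_ne_zero, h0, by rw [h2]; decide, h ▸ h0, ?_⟩
  rw [h1, h2, ← h]
  revert h0
  generalize R.S t1 j = s
  revert s
  decide

theorem vec_ne {D : Disp F3} {i e : ℕ} (h : i ≠ e) : vec D i e = D.S i e := by
  rw [vec, if_neg h, zero_add]

theorem vec_self (D : Disp F3) (i : ℕ) : vec D i i = 1 := by
  rw [vec, if_pos rfl, D.bip i i rfl, add_zero]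

variable {𝓛 𝓝 : List (Disp F3)} {E R D : Disp F3} {X Y : Finset ℕ} {a b c p t1 t2 t3 : ℕ}
  {ρ : Fin 3 → ℕ}

namespace Ctx

variable (C : Ctx 𝓛 𝓝 E R D X Y a b c p t1 t2 t3 ρ)
include C

theorem ne_XY {i j : ℕ} (hi : i ∈ X) (hj : j ∈ Y) : i ≠ j := fun e => C.XY hi (e ▸ hj)

theorem tri_D {T : Finset ℕ} (h : E.Tri T) : D.Tri T := by
  obtain ⟨h3, d, hd, hs⟩ := h
  refine ⟨h3, d, mem_flip_code.2 ⟨fun i hi => ?_, fun i hi hr => ?_⟩, hs⟩
  · exact (mem_flip_code.1 hd).1 i fun h => hi (C.ZD h)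
  · have hi' : i ∈ E.Z := by
      rcases C.cases_D hi with h | h | ⟨k, rfl⟩
      · exact C.XZ h
      · exact C.YZ h
      · rw [C.rr] at hr; cases hr
    have hT := supp_sub hd hs
    rw [(mem_flip_code.1 hd).2 i hi' ((C.Drow hi').symm.trans hr), sum_supp hT hs,
      sum_supp (fun j hj => C.ZD (hT hj)) hs]
    exact sum_congr rfl fun j hj => by rw [C.DS (hT hj) hi']

theorem vec_YX {r x : ℕ} (hr : r ∈ Y) (h : E.row r = true) (hx : x ∈ X) : vec E r x = 0 := by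
  rw [vec_ne (C.ne_XY hx hr).symm, E.skew, C.XYrow hx hr h, neg_zero]

theorem no_XXY {x x' y : ℕ} {d : ℕ → F3} (hx : x ∈ X) (hx' : x' ∈ X) (hy : y ∈ Y) (hne : x ≠ x')
    (hd : d ∈ E.flip.code) (hs : Supp d {x, x', y}) : False := by
  have dy : d y ≠ 0 := (hs y).2 (by simp)
  have rel := fun i => flip_rel (i := i) hne (C.ne_XY hx hy) (C.ne_XY hx' hy) hd hs
  cases hr : E.row y
  · obtain ⟨r, hr', h0⟩ := C.ng y hy hr
    have rr : E.row r = true := by
      have := row_ne_of_S h0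
      rw [hr] at this
      simpa using this
    have := rel r (C.YZ hr') rr
    rw [C.vec_YX hr' rr hx, C.vec_YX hr' rr hx', vec_ne (ne_of_S h0)] at this
    exact mul_ne_zero dy h0 (by linear_combination this)
  · have := rel y (C.YZ hy) hr
    rw [C.vec_YX hy hr hx, C.vec_YX hy hr hx', vec_self] at this
    exact dy (by linear_combination this)

theorem RZ {j : ℕ} (hj : j ∈ Y) : j ∈ R.Z := by rw [C.nf.rZ]; exact mem_union_left _ hj

theorem RZt : t1 ∈ R.Z ∧ t2 ∈ R.Z ∧ t3 ∈ R.Z := by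
  rw [C.nf.rZ]; simp

theorem no4 {j : ℕ} (hj : j ∈ Y) (h : R.S t1 j = R.S t2 j) : R.S t1 j = 0 :=
  no_w4 C.nf.s13 C.nf.s23 h
    (C.reg R (ReachIn.refl _ _) _ C.RZt.1 _ C.RZt.2.1 _ C.RZt.2.2 _ (C.RZ hj))

theorem no4' {y y' r : ℕ} (hy : y ∈ Y) (hy' : y' ∈ Y) (hr : r ∈ Y) (rr : E.row r = true)
    (hne : y ≠ y') (hne' : y ≠ r) (h0 : E.S r y' ≠ 0) {s : F3} (hs : E.S r y = s * E.S r y')
    (h : R.S t1 y - s * R.S t1 y' = R.S t2 y - s * R.S t2 y') : R.S t1 y - s * R.S t1 y' = 0 := by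
  have e1 : R.S r y' = E.S r y' := C.nf.agree.2 r hr y' hy'
  have e2 : R.S r y = E.S r y := C.nf.agree.2 r hr y hy
  have h0' : R.S r y' ≠ 0 := e1 ▸ h0
  have n1 : ∀ j ∈ Y, t1 ≠ j := fun j hj e => C.nf.n1 (e ▸ hj)
  have n2 : ∀ j ∈ Y, t2 ≠ j := fun j hj e => C.nf.n2 (e ▸ hj)
  have n3 : ∀ j ∈ Y, t3 ≠ j := fun j hj e => C.nf.n3 (e ▸ hj)
  have a1 : (R.pivot r y').S t1 t3 = 1 := by
    rw [pivot_S_gen h0' (n1 r hr) (n1 y' hy') (n3 r hr) (n3 y' hy'), C.nf.s3 r hr,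
      C.nf.s3 y' hy', C.nf.s13]
    simp
  have a2 : (R.pivot r y').S t2 t3 = -1 := by
    rw [pivot_S_gen h0' (n2 r hr) (n2 y' hy') (n3 r hr) (n3 y' hy'), C.nf.s3 r hr,
      C.nf.s3 y' hy', C.nf.s23]
    simp
  have a3 : (R.pivot r y').S t1 y = R.S t1 y - s * R.S t1 y' := by
    rw [pivot_S_gen h0' (n1 r hr) (n1 y' hy') hne' hne, (C.ty_row hr rr).1, e1, e2, hs]
    field_simp
    ring
  have a4 : (R.pivot r y').S t2 y = R.S t2 y - s * R.S t2 y' := by
    rw [pivot_S_gen h0' (n2 r hr) (n2 y' hy') hne' hne, (C.ty_row hr rr).2, e1, e2, hs]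
    field_simp
    ring
  rw [← a3]
  exact no_w4 a1 a2 (by rw [a3, a4, h]) (C.reg _ (ReachIn.single (C.RZ hr) (C.RZ hy')) _ C.RZt.1 _
    C.RZt.2.1 _ C.RZt.2.2 _ (C.RZ hy))

theorem mate_XYY {x y y' : ℕ} {d : ℕ → F3} (hx : x ∈ X) (hy : y ∈ Y) (hy' : y' ∈ Y)
    (hne : y ≠ y') (hd : d ∈ E.flip.code) (hs : Supp d {x, y, y'}) :
    ∃ k, Mate E X b c k x := by
  have dx : d x ≠ 0 := (hs x).2 (by simp)
  have dy : d y ≠ 0 := (hs y).2 (by simp)
  have dy' : d y' ≠ 0 := (hs y').2 (by simp)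
  have rel := fun i => flip_rel (i := i) (C.ne_XY hx hy) (C.ne_XY hx hy') hne hd hs
  have l : Ln E X b c x (-d x * (d y * R.S t1 y + d y' * R.S t1 y'))
      (-d x * (d y * R.S t2 y + d y' * R.S t2 y')) := by
    intro i hi hr
    have := rel i (C.XZ hi) hr
    rw [vec_ne (C.ne_XY hi hy), vec_ne (C.ne_XY hi hy'), C.ent hi hy, C.ent hi hy'] at this
    linear_combination d x * this - vec E i x * sq1 _ dx
  have nz := C.ln_ne hx l
  rcases pt_cases (-d x * (d y * R.S t1 y + d y' * R.S t1 y'))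
    (-d x * (d y * R.S t2 y + d y' * R.S t2 y')) with h | h | ⟨k, s, h0, h1, h2⟩
  · exact absurd h nz
  · exfalso
    apply nz
    have h' : d y * R.S t1 y + d y' * R.S t1 y' = d y * R.S t2 y + d y' * R.S t2 y' :=
      mul_left_cancel₀ (neg_ne_zero.2 dx) h
    suffices hz : d y * R.S t1 y + d y' * R.S t1 y' = 0 by
      rw [← h', hz]; simp
    cases r1 : E.row y <;> cases r2 : E.row y'
    · obtain ⟨r, hr, h0⟩ := C.ng y' hy' r2
      have rr : E.row r = true := by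
        have := row_ne_of_S h0
        rw [r2] at this
        simpa using this
      have ry : y ≠ r := fun e => by rw [← e, r1] at rr; cases rr
      have := rel r (C.YZ hr) rr
      rw [C.vec_YX hr rr hx, vec_ne ry.symm, vec_ne (ne_of_S h0)] at this
      have k := C.no4' hy hy' hr rr hne ry h0 (s := -(d y * d y'))
        (by linear_combination d y * this - E.S r y * sq1 _ dy)
        (by linear_combination d y * h' - (R.S t1 y - R.S t2 y) * sq1 _ dy)
      linear_combination d y * k - d y' * R.S t1 y' * sq1 _ dy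
    · obtain ⟨z1, z2⟩ := C.ty_row hy' r2
      rw [z1, z2, mul_zero, add_zero, add_zero] at h'
      rw [z1, C.no4 hy (mul_left_cancel₀ dy h')]; simp
    · obtain ⟨z1, z2⟩ := C.ty_row hy r1
      rw [z1, z2, mul_zero, zero_add, zero_add] at h'
      rw [z1, C.no4 hy' (mul_left_cancel₀ dy' h')]; simp
    · rw [(C.ty_row hy r1).1, (C.ty_row hy' r2).1]; simp
  · exact ⟨k, hx, s, h0, h1 ▸ h2 ▸ l⟩

theorem ym_XYY {x y y' : ℕ} (hx : x ∈ X) (hy : y ∈ Y) (hy' : y' ∈ Y) (hne : y ≠ y')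
    (h : E.Tri {x, y, y'}) : YM D Y ρ {x, y, y'} := by
  have hD := C.tri_D h
  obtain ⟨-, d, hd, hs⟩ := h
  obtain ⟨k, hk⟩ := C.mate_XYY hx hy hy' hne hd hs
  have hp : D.Par x (ρ k) := C.mate_par hk (Subset.refl _) (C.ZD (C.XZ hx)) (C.rhoD k)
  have hρ : ρ k ∉ ({x, y, y'} : Finset ℕ) := fun h => C.fresh k (supp_sub hd hs h)
  have hxρ : x ≠ ρ k := hp.1
  refine ⟨insert (ρ k) (({x, y, y'} : Finset ℕ).erase x), ⟨?_, Or.inr
    (tri_par hp hD (mem_insert_self _ _) hρ)⟩, fun T1 h1 => ?_⟩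
  · intro i hi
    simp only [mem_insert, mem_erase, mem_singleton] at hi
    rcases hi with rfl | ⟨h1, h2 | rfl | rfl⟩
    · rw [← img3]
      exact mem_union_right _ (mem_image_of_mem _ (mem_univ _))
    · exact absurd h2 h1
    · exact mem_union_left _ hy
    · exact mem_union_left _ hy'
  · have := QF_par hp (mem_insert_self _ _) (by simp [hxρ]) h1
    rwa [erase_insert (fun h => hρ (mem_of_mem_erase h)), insert_erase (mem_insert_self _ _)]
      at this

theorem classify {T : Finset ℕ} (h : Valid 𝓛 E T) : T ⊆ X ∨ YM D Y ρ T := by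
  rcases h.tri with ⟨e, he, rfl⟩ | ht
  · rcases C.cases_Z he with h | h
    · exact Or.inl (singleton_subset_iff.2 h)
    · exact Or.inr ⟨{e}, ⟨singleton_subset_iff.2 (mem_union_left _ h), Or.inl (card_singleton _)⟩,
        fun _ h => h⟩
  · obtain ⟨u, v, z, huv, huz, hvz, rfl⟩ := card_eq_three.1 ht.1
    have hsub := h.subset
    have p1 : ({u, v, z} : Finset ℕ) = {u, z, v} := by rw [pair_comm]
    have p2 : ({u, v, z} : Finset ℕ) = {v, u, z} := by rw [insert_comm]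
    have p3 : ({u, v, z} : Finset ℕ) = {v, z, u} := by rw [insert_comm, pair_comm]
    have p4 : ({u, v, z} : Finset ℕ) = {z, u, v} := by rw [pair_comm, insert_comm]
    have ht' := ht
    obtain ⟨-, d, hd, hs⟩ := ht'
    rcases C.cases_Z (hsub (show u ∈ _ by simp)) with hu | hu <;>
      rcases C.cases_Z (hsub (show v ∈ _ by simp)) with hv | hv <;>
      rcases C.cases_Z (hsub (show z ∈ _ by simp)) with hz | hz
    · exact Or.inl (insert_subset hu (insert_subset hv (singleton_subset_iff.2 hz)))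
    · exact (C.no_XXY hu hv hz huv hd hs).elim
    · exact (C.no_XXY hu hz hv huz hd (p1 ▸ hs)).elim
    · exact Or.inr (C.ym_XYY hu hv hz hvz ht)
    · exact (C.no_XXY hv hz hu hvz hd (p3 ▸ hs)).elim
    · rw [p2] at ht ⊢
      exact Or.inr (C.ym_XYY hv hu hz huz ht)
    · rw [p4] at ht ⊢
      exact Or.inr (C.ym_XYY hz hu hv huv ht)
    · exact Or.inr ⟨_, ⟨(insert_subset hu (insert_subset hv (singleton_subset_iff.2 hz))).trans
        subset_union_left, Or.inr (C.tri_D ht)⟩, fun _ h => h⟩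

theorem compat_full {n : Fin 3 → ℕ} (hn : Naming E X b c ρ n)
    (hf : ∀ k x, Mate E X b c k x → n k = x) {T : Finset ℕ} (hT : T ⊆ X) (h : Valid 𝓛 E T) :
    Compat T (univ.image n) := by
  by_contra hc
  simp only [Compat, not_or, not_le] at hc
  obtain ⟨hne, h2⟩ := hc
  rcases h with ⟨e, -, rfl⟩ | ⟨G, a1, ⟨ha1, hGZ, hra, hag, b1, c1, p1, hbc, hbp, hcp, hTe, hTZ,
    ⟨w, hw, hsw⟩, d, hd, hsd⟩, hG⟩
  · have := card_le_card (inter_subset_left (s₁ := ({e} : Finset ℕ)) (s₂ := univ.image n))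
    rw [card_singleton] at this
    omega
  have h3 : T.card = 3 := card_eq_three.2 ⟨b1, c1, p1, hbc, hbp, hcp, hTe⟩
  have rel : ∀ {u v z : ℕ}, u ≠ v → u ≠ z → v ≠ z → T = {u, v, z} → ∀ i ∈ X, E.row i = true →
      d u * vec E i u + d v * vec E i v + d z * vec E i z = 0 := by
    intro u v z huv huz hvz e i hi hr
    have hv : ∀ t ∈ T, vec G i t = vec E i t := fun t ht => by
      unfold vec
      rw [hag.2 i (C.XZ hi) t (hTZ ht)]
    have := flip_rel (i := i) huv huz hvz hd (e ▸ hsd) (hGZ ▸ mem_insert_of_mem (C.XZ hi))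
      ((hag.1 i (C.XZ hi)).trans hr)
    rwa [hv u (by simp [e]), hv v (by simp [e]), hv z (by simp [e])] at this
  have nm : ∀ t ∈ T ∩ univ.image n, ∃ α β, Ln E X b c t α β := by
    intro t ht
    obtain ⟨h1, h2⟩ := mem_inter.1 ht
    obtain ⟨k, -, rfl⟩ := mem_image.1 h2
    rcases hn k with e | ⟨-, s, -, l⟩
    · exact absurd (e ▸ hT h1) (C.rho_X k)
    · exact ⟨_, _, l⟩
  have all : ∀ t ∈ T, ∃ α β, Ln E X b c t α β := by
    obtain ⟨u, hu, v, hv, huv⟩ := one_lt_card.1 h2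
    intro z hz
    by_cases e1 : u = z
    · exact e1 ▸ nm u hu
    by_cases e2 : v = z
    · exact e2 ▸ nm v hv
    obtain ⟨α, β, l⟩ := nm u hu
    obtain ⟨α', β', l'⟩ := nm v hv
    have e : T = {u, v, z} := by
      symm
      refine eq_of_subset_of_card_le (insert_subset (mem_inter.1 hu).1
        (insert_subset (mem_inter.1 hv).1 (singleton_subset_iff.2 hz))) ?_
      rw [h3, card_eq_three.2 ⟨u, v, z, huv, e1, e2, rfl⟩]
    have dz : d z ≠ 0 := (hsd z).2 hz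
    refine ⟨-d z * (d u * α + d v * α'), -d z * (d u * β + d v * β'), fun i hi hr => ?_⟩
    have := rel huv e1 e2 e i hi hr
    rw [l i hi hr, l' i hi hr] at this
    linear_combination d z * this - vec E i z * sq1 _ dz
  have mb : b1 ∈ T := by simp [hTe]
  have mc : c1 ∈ T := by simp [hTe]
  have mp : p1 ∈ T := by simp [hTe]
  obtain ⟨α1, β1, l1⟩ := all b1 mb
  obtain ⟨α2, β2, l2⟩ := all c1 mc
  obtain ⟨α3, β3, l3⟩ := all p1 mp
  refine C.v4 G a1 b1 c1 w α1 β1 α2 β2 ha1 hGZ hra hag hw hsw (hTZ mb) (hTZ mc) hbc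
    (C.ln_onLine (hT mb) l1) (C.ln_onLine (hT mc) l2) (C.ln_indep (hT mb) (hT mc) hbc l1 l2) ?_ hG
  by_contra hno
  simp only [not_or] at hno
  obtain ⟨n1, n2, n3⟩ := hno
  have n3' : α3 ≠ β3 := by
    intro e
    apply n3
    obtain ⟨k1, k2⟩ := C.ind (α := d b1 * α1 + d c1 * α2 + d p1 * α3)
      (β := d b1 * β1 + d c1 * β2 + d p1 * β3) fun i hi hr => by
        have := rel hbc hbp hcp hTe i hi hr
        rw [l1 i hi hr, l2 i hi hr, l3 i hi hr] at this
        linear_combination this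
    have o := orth hw hd
    have wp : w p1 = 0 := by
      by_contra h0
      have := (hsw p1).1 h0
      simp only [mem_insert, mem_singleton] at this
      rcases this with e | e | e
      · exact ha1 (e ▸ hTZ mp)
      · exact hbp e.symm
      · exact hcp e.symm
    rw [sum_congr rfl fun i _ => mul_comm (w i) (d i), sum_supp (supp_sub hd hsd) hsd, hTe,
      sum_insert (by simp [hbc, hbp]), sum_insert (by simp [hcp]), sum_singleton, wp] at o
    have db : d b1 ≠ 0 := (hsd b1).2 mb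
    rw [e] at k1
    linear_combination (d b1 * w c1) * (k1 - k2) - d b1 * (α2 - β2) * o +
      (w b1 * (α2 - β2) - w c1 * (α1 - β1)) * sq1 _ db
  have tame : ∀ {t : ℕ} {α β : F3}, t ∈ T → Ln E X b c t α β → α ≠ β → t ∈ univ.image n := by
    intro t α β ht l hne
    rcases pt_cases α β with h | h | ⟨k, s, h0, rfl, rfl⟩
    · exact absurd h (C.ln_ne (hT ht) l)
    · exact absurd h hne
    · exact mem_image.2 ⟨k, mem_univ _, hf k t ⟨hT ht, s, h0, l⟩⟩
  apply hne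
  refine eq_of_subset_of_card_le ?_ ?_
  · rw [hTe]
    exact insert_subset (tame mb l1 n1) (insert_subset (tame mc l2 n2)
      (singleton_subset_iff.2 (tame mp l3 n3')))
  · rw [h3]
    exact card_image_le.trans (by simp)

theorem concl (hN : ∀ N ∈ 𝓝, N.Conn3 ∧ 4 ≤ N.Z.card)
    (IH : ∀ D : Disp F3, D.Z.card < E.Z.card → D.Conn3 → Has 𝓝 D → Free 𝓛 D → D.Concl 𝓛) :
    E.Concl 𝓛 := by
  obtain ⟨n, hn, hf⟩ := C.exists_full
  have hc := C.concl_full hN IH hn hf
  intro T T' v v' h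
  have key : QF D.W T T' := by
    rcases C.classify v with h1 | ⟨T0, m0, h1⟩ <;> rcases C.classify v' with h2 | ⟨T1, m1, h2⟩
    · exact C.qf_XX hn hf hc h1 h2 v v' h
    · exact h2 _ (C.qf_XY hn hf hc h1 v (C.compat_full hn hf h1 v) m1)
    · exact (h1 _ (C.qf_XY hn hf hc h2 v' (C.compat_full hn hf h2 v') m0)).symm
    · exact (h1 _ (h2 _ (C.qf_YY hn hf hc m0 m1)).symm).symm
  have h2 := QF_restrict (U := E.Z) (fun i hi => C.ZD hi) v.subset v'.subset key
  have hs : Same E (D.restrict E.Z) := ⟨rfl, C.ag⟩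
  rwa [hs.W_eq] at h2

end Ctx

end StepAux

end Pool.Agent.Lib.MP_c69b6d_co.F
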