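import Pool.Agent.Lib.MP_c69b6d_co.F.ThmA
import Pool.Agent.Lib.MP_c69b6d_co.F.Lam
import Pool.Agent.Lib.MP_c69b6d_co.F.Stepd

namespace Pool.Agent.Lib.MP_c69b6d_co.F

open Finset Disp

namespace StepAux

/-- all indices outside the ground set become columns with the entries `f`. -/
def extCols (E : Disp F3) (Z : Finset ℕ) (f : ℕ → ℕ → F3)
    (hf : ∀ i j, E.row i = false → f i j = 0) : Disp F3 where
  Z := Z
  row := fun i => if i ∈ E.Z then E.row i else false
  S := fun i j => if i ∈ E.Z then (if j ∈ E.Z then E.S i j else f i j)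
    else if j ∈ E.Z then - f j i else 0
  skew := by
    intro i j
    by_cases h1 : i ∈ E.Z <;> by_cases h2 : j ∈ E.Z <;> simp only [h1, h2, if_true, if_false]
    · exact E.skew i j
    · rw [neg_neg]
    · rw [neg_zero]
  bip := by
    intro i j h
    by_cases h1 : i ∈ E.Z <;> by_cases h2 : j ∈ E.Z <;> simp only [h1, h2, if_true, if_false] at h ⊢
    · exact E.bip i j h
    · exact hf i j h
    · rw [hf j i h.symm, neg_zero]

theorem exists_ctx {𝓛 𝓝 : List (Disp F3)} {E R : Disp F3} {X Y : Finset ℕ}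
    {a b c p t1 t2 t3 : ℕ} (dec : Dec 𝓛 𝓝 E R X Y a b c p t1 t2 t3) (hE : E.Conn3)
    (hF : Free 𝓛 E) : ∃ R' D X' Y' ρ, Ctx 𝓛 𝓝 E R' D X' Y' a b c p t1 t2 t3 ρ := by
  classical
  have nf := dec.nf
  have col : ∀ {t j : ℕ}, j ∈ Y → R.row t = true → R.S t j ≠ 0 → E.row j = false := by
    intro t j hj ht h
    have := row_ne_of_S h
    rw [ht, nf.agree.1 j hj] at this
    simpa using this.symm
  have rb : E.row b = false := col dec.mb nf.r1 (by rw [dec.b1]; exact one_ne_zero)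
  have rc : E.row c = false := col dec.mc nf.r2 (by rw [dec.c2]; exact one_ne_zero)
  have rp : E.row p = false := col dec.mp nf.r1 (by rw [dec.p1]; exact one_ne_zero)
  have ra : E.row a = true := by
    have := row_ne_of_S (D := E) (x := a) (y := b) (by rw [dec.ab]; exact one_ne_zero)
    rw [rb] at this
    simpa using this
  have qc : ∀ i, E.row i = false → E.S i b = 0 ∧ E.S i c = 0 := fun i h =>
    ⟨E.bip _ _ (by rw [h, rb]), E.bip _ _ (by rw [h, rc])⟩
  obtain ⟨G, hG⟩ : ∃ G : Finset ℕ, ∀ j, j ∈ G ↔ j ∈ Y ∧ E.row j = false ∧ ∀ r ∈ Y, E.S r j = 0 :=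
    ⟨Y.filter (fun j => E.row j = false ∧ ∀ r ∈ Y, E.S r j = 0), fun j => mem_filter⟩
  have XZ : ∀ i ∈ X ∪ G, i ∈ E.Z := by
    intro i hi
    rw [nf.dZ]
    rcases mem_union.1 hi with h | h
    · exact mem_union_left _ h
    · exact mem_union_right _ ((hG i).1 h).1
  have YZ : ∀ i ∈ Y, i ∈ E.Z := fun i hi => by rw [nf.dZ]; exact mem_union_right _ hi
  have rowG : ∀ {r : ℕ}, E.row r = true → r ∉ G := fun hr h => by
    rw [((hG _).1 h).2.1] at hr; cases hr
  obtain ⟨ρ, hρ, hinj⟩ : ∃ ρ : Fin 3 → ℕ, (∀ k, ρ k ∉ E.Z) ∧ Function.Injective ρ := by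
    refine ⟨fun k => E.Z.sup id + 1 + k, fun k h => ?_, fun k l h => ?_⟩
    · have := le_sup (f := id) h
      simp only [id] at this
      omega
    · exact Fin.ext (by simpa using h)
  refine ⟨R.restrict ((Y \ G) ∪ {t1, t2, t3}), extCols E (E.Z ∪ univ.image ρ)
    (fun i j => if i ∈ X ∪ G then Function.extend ρ al 0 j * E.S i b +
      Function.extend ρ be 0 j * E.S i c else 0)
    (fun i j h => by rw [(qc i h).1, (qc i h).2]; simp), X ∪ G, Y \ G, ρ,
    ⟨?_, ?_, rfl, fun h => nf.n1 (mem_sdiff.1 h).1, fun h => nf.n2 (mem_sdiff.1 h).1,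
      fun h => nf.n3 (mem_sdiff.1 h).1, nf.n12, nf.agree.mono sdiff_subset, nf.r1, nf.r2, nf.s13,
      nf.s23, fun j hj => nf.s3 j (mem_sdiff.1 hj).1, ?_, fun i _ h => qc i h, ?_⟩,
    mem_sdiff.2 ⟨dec.ma, rowG ra⟩, mem_sdiff.2 ⟨dec.mb, fun h => ?_⟩,
    mem_sdiff.2 ⟨dec.mc, fun h => ?_⟩, YZ p dec.mp, ra, rb, rc, rp, ?_, ?_, ?_, ?_, dec.ab, dec.ac,
    dec.ap, ?_, ?_, ⟨X, subset_union_left, fun h => disjoint_left.1 nf.disj h dec.mp, dec.hasN⟩,
    ?_, hE, hF, hρ, hinj, rfl, ⟨?_, ?_⟩, ?_, ?_, ?_⟩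
  · rw [nf.dZ, union_assoc, union_sdiff_of_subset fun i hi => ((hG i).1 hi).1]
  · rw [disjoint_left]
    intro i hi hy
    rcases mem_union.1 hi with h | h
    · exact disjoint_left.1 nf.disj h (mem_sdiff.1 hy).1
    · exact (mem_sdiff.1 hy).2 h
  · intro i hi j hj
    rcases mem_union.1 hi with h | h
    · exact nf.ent i h j (mem_sdiff.1 hj).1
    · obtain ⟨-, h1, h2⟩ := (hG i).1 h
      rw [E.skew i j, h2 j (mem_sdiff.1 hj).1, (qc i h1).1, (qc i h1).2]; simp
  · obtain ⟨x1, h1, x2, h2, hd⟩ := nf.ind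
    exact ⟨x1, mem_union_left _ h1, x2, mem_union_left _ h2, hd⟩
  · have := ((hG b).1 h).2.2 a dec.ma
    rw [dec.ab] at this
    exact one_ne_zero this
  · have := ((hG c).1 h).2.2 a dec.ma
    rw [dec.ac] at this
    exact one_ne_zero this
  · intro i hi
    rcases mem_union.1 hi with h | h
    · have := nf.ent i h p dec.mp
      rw [dec.p1, dec.p2] at this
      rw [this]; ring
    · have h1 := ((hG i).1 h).2.1
      rw [(qc i h1).1, (qc i h1).2, E.bip i p (by rw [h1, rp])]; simp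
  · intro e
    have := dec.b1
    rw [e, dec.c1] at this
    exact zero_ne_one this
  · intro e
    have := dec.b2
    rw [e, dec.p2] at this
    exact absurd this (by decide)
  · intro e
    have := dec.c1
    rw [e, dec.p1] at this
    exact one_ne_zero this
  · refine dec.reg.restrict ?_
    rw [nf.rZ]
    exact union_subset_union sdiff_subset (Subset.refl _)
  · intro j hj hr
    obtain ⟨h1, h2⟩ := mem_sdiff.1 hj
    rw [hG] at h2
    push Not at h2
    obtain ⟨r, hr', h0⟩ := h2 h1 hr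
    refine ⟨r, mem_sdiff.2 ⟨hr', rowG ?_⟩, h0⟩
    have := row_ne_of_S h0
    rw [hr] at this
    simpa using this
  · have tr : ∀ {z : ℕ} {α β : F3}, OnLine E (X ∪ G) (Y \ G) b c z α β →
        OnLine E X Y b c z α β := by
      rintro z α β (⟨h1, h2, h3⟩ | ⟨h1, h2, h3⟩)
      · refine Or.inl ⟨h1, fun i hi => h2 i (mem_union_left _ hi), fun r hr => ?_⟩
        by_cases h : r ∈ G
        · exact E.bip _ _ (by rw [((hG r).1 h).2.1, h1])
        · exact h3 r (mem_sdiff.2 ⟨hr, h⟩)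
      · exact Or.inr ⟨(mem_union.1 h1).resolve_right (rowG h2), h2,
          fun i hi => h3 i (mem_union_left _ hi)⟩
    intro G' a1 b1 c1 w α1 β1 α2 β2 h1 h2 h3 h4 h5 h6 h7 h8 h9 l1 l2
    exact dec.v4 G' a1 b1 c1 w α1 β1 α2 β2 h1 h2 h3 h4 h5 h6 h7 h8 h9 (tr l1) (tr l2)
  · intro i hi
    simp only [extCols, hi, if_true]
  · intro i hi j hj
    simp only [extCols, hi, hj, if_true]
  · intro k
    simp only [extCols, hρ k, if_false]
  · intro k i hi
    simp only [extCols, XZ i hi, hρ k, hi, if_true, if_false, hinj.extend_apply]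
  · intro k i hi
    have : i ∉ X ∪ G := fun h => by
      rcases mem_union.1 h with h | h
      · exact disjoint_left.1 nf.disj h (mem_sdiff.1 hi).1
      · exact (mem_sdiff.1 hi).2 h
    simp only [extCols, YZ i (mem_sdiff.1 hi).1, hρ k, this, if_true, if_false]

end StepAux

/-- the induction step. -/
theorem step {𝓛 𝓝 : List (Disp F3)} (hN : ∀ N ∈ 𝓝, N.Conn3 ∧ 4 ≤ N.Z.card)
    {E R : Disp F3} {X Y : Finset ℕ} {a b c p t1 t2 t3 : ℕ}
    (dec : Dec 𝓛 𝓝 E R X Y a b c p t1 t2 t3) (hE : E.Conn3) (hF : Free 𝓛 E)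
    (IH : ∀ D : Disp F3, D.Z.card < E.Z.card → D.Conn3 → Has 𝓝 D → Free 𝓛 D → D.Concl 𝓛) :
    E.Concl 𝓛 := by
  obtain ⟨R', D, X', Y', ρ, C⟩ := StepAux.exists_ctx dec hE hF
  exact C.concl hN IH

end Pool.Agent.Lib.MP_c69b6d_co.F
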