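import Pool.Agent.Lib.MP_c69b6d_co.F.FinB
import Pool.Agent.Lib.MP_c69b6d_co.F.Decomp
import Pool.Agent.Lib.MP_c69b6d_co.F.Step

/-! The main induction. -/

namespace Pool.Agent.Lib.MP_c69b6d_co.F

open Finset Disp CD

set_option maxRecDepth 100000

theorem bad_split {a b : ℕ} {D : Disp F3} (h : BadT tabB b D) (h' : ¬ BadT tabB a D) :
    ∃ k, a ≤ k ∧ k < b ∧ Minor (tabB.get k).C.toDisp D := by
  obtain ⟨k, hk, hm⟩ := h
  exact ⟨k, not_lt.1 fun h1 => h' ⟨k, h1, hm⟩, hk, hm⟩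

theorem level {b n : ℕ} (ok : ∀ σ ∈ seeds tabB NX b n, SB b b n σ) {D : Disp F3} (h3 : D.Conn3)
    (hF : Free L5 D)
    (IH : ∀ G : Disp F3, G.Z.card < D.Z.card → G.Conn3 → Has NL G → Free L5 G → G.Concl L5)
    (hb : ¬ BadT tabB b D) (hb' : BadT tabB (b + n) D) : D.Concl L5 := by
  obtain ⟨k, h1, h2, hk⟩ := bad_split hb' hb
  have hσ : seedOf (tabB.get k).C (nxOf NX k) (nyOf NX k) ∈ seeds tabB NX b n :=
    List.mem_map.2 ⟨k, List.mem_range'_1.2 ⟨h1, h2⟩, rfl⟩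
  obtain ⟨E, δ, R, X, Y, a, b', c, p, t1, t2, t3, hr, hδ, dec⟩ := decomp BadT.minor ok h3 hb hσ hk
  have hZ : (E.scale δ).Z = D.Z := hr.Z_eq
  have hc := step NL_conn dec ((h3.reach hr).scale hδ)
    (hF.minor ((minor_scale E hδ).2.trans hr.minor)) (by rw [hZ]; exact IH)
  have he : Emb (E.scale δ) E id δ :=
    ⟨Set.injOn_id _, fun _ h => h, fun _ _ => rfl, fun i _ => hδ i, fun i _ j _ => by
      show E.S i j = δ i * δ j * (δ i * δ j * E.S i j)
      linear_combination (-(δ j * δ j) * E.S i j) * hδ i - E.S i j * hδ j⟩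
  exact Concl.of_emb hr he (by rw [hZ]) hc

theorem main_concl (hS : States) (n : ℕ) :
    ∀ D : Disp F3, D.Z.card = n → D.Conn3 → Has NL D → Free L5 D → D.Concl L5 := by
  induction n using Nat.strong_induction_on with
  | _ n ih =>
  intro D hn h3 hN hF
  have IH : ∀ G : Disp F3, G.Z.card < D.Z.card → G.Conn3 → Has NL G → Free L5 G → G.Concl L5 :=
    fun G h => ih _ (hn ▸ h) G rfl
  have b5 : ¬ BadT tabB 5 D := fun h => by
    obtain ⟨L, hL, hm⟩ := bad_L5 D h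
    exact hF L hL hm
  by_cases b21 : BadT tabB 21 D
  · exact level lvl0 h3 hF IH b5 b21
  by_cases b27 : BadT tabB 27 D
  · exact level lvl1 h3 hF IH b21 b27
  by_cases b29 : BadT tabB 29 D
  · obtain ⟨k, h1, h2, hk⟩ := bad_split b29 b27
    exact closK hS h3 b27 h1 h2 hk
  by_cases b33 : BadT tabB 33 D
  · exact level lvl2 h3 hF IH b29 b33
  by_cases b43 : BadT tabB 43 D
  · exact level lvl3 h3 hF IH b33 b43
  exact closF hS h3 b43 hN

theorem main_of (hS : States) (D : Disp F3) (h3 : D.Conn3) (hN : Has NL D) (hF : Free L5 D) :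
    D.Ray := (main_concl hS _ D rfl h3 hN hF).ray

end Pool.Agent.Lib.MP_c69b6d_co.F
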