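import Pool.Agent.Lib.MP_c69b6d_co.F.Link

/-! The final assembly: from the two stages to all ternary matroids. -/

namespace Pool.Agent.Lib.MP_c69b6d_co.F

open Finset Disp Matroid

/-- the two stages give the Rayleigh property of every display without one of the five minors. -/
theorem ray_all (mainA : ∀ D : Disp F3, D.Conn3 → Has NL D → Free L5 D → D.Ray)
    (stageB : ∀ D : Disp F3, Free NL D → D.Ray) : ∀ D : Disp F3, Free L5 D → D.Ray := by
  have key : ∀ (n : ℕ) (D : Disp F3), D.Z.card = n → Free L5 D → D.Ray := by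
    intro n
    induction n using Nat.strong_induction_on with
    | _ n ih =>
    intro D hn hF
    by_cases hC : D.Conn3
    · by_cases hN : Has NL D
      · exact mainA D hC hN hF
      · exact stageB D fun L hL hm => hN ⟨L, hL, hm⟩
    · exact ray_of_not_conn3 hC fun U hU =>
        ih _ (hn ▸ card_lt_card hU) _ rfl (hF.minor (minor_restrict hU.subset))
  exact fun D => key _ D rfl

/-- the same when the second stage is only known for 3-connected displays. -/
theorem ray_all' (mainA : ∀ D : Disp F3, D.Conn3 → Has NL D → Free L5 D → D.Ray)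
    (stageB : ∀ D : Disp F3, D.Conn3 → Free NL D → D.Ray) : ∀ D : Disp F3, Free L5 D → D.Ray := by
  have key : ∀ (n : ℕ) (D : Disp F3), D.Z.card = n → Free L5 D → D.Ray := by
    intro n
    induction n using Nat.strong_induction_on with
    | _ n ih =>
    intro D hn hF
    by_cases hC : D.Conn3
    · by_cases hN : Has NL D
      · exact mainA D hC hN hF
      · exact stageB D hC fun L hL hm => hN ⟨L, hL, hm⟩
    · exact ray_of_not_conn3 hC fun U hU =>
        ih _ (hn ▸ card_lt_card hU) _ rfl (hF.minor (minor_restrict hU.subset))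
  exact fun D => key _ D rfl

/-- from displays to matroids, full version. -/
theorem link_full (main : ∀ D : Disp F3, Free L5 D → D.Ray)
    {α : Type} [Fintype α] (M : Matroid α) (hT : Ternary M) :
    ExcludedMinor M ↔ ∃ A ∈ [A49, A52, A56, B172, B172d], IsCopy M A := by
  rcases isEmpty_or_nonempty α with hα | hα
  · refine iff_of_false (fun h => h.1 ⟨hT, fun _ _ e => hα.elim e⟩) ?_
    rintro ⟨A, hA, φ, -⟩
    have hpos : 0 < A.length :=
      (by decide : ∀ A ∈ [A49, A52, A56, B172, B172d], 0 < A.length) A hA
    exact hα.elim (φ ⟨0, hpos⟩)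
  obtain ⟨D, h⟩ := lk_exists (lab := fun a => (Fintype.equivFin α a : ℕ)) hT
    (Fin.val_injective.comp (Fintype.equivFin α).injective)
  rw [h.excl_iff hT]
  constructor
  · intro hD
    by_cases hH : Has L5 D
    · exact lk_copy h hD hH
    · exact absurd (main D fun L hL hm => hH ⟨L, hL, hm⟩) hD.1
  · rintro ⟨A, hA, φ, hφ, hr, hI⟩
    obtain ⟨V, hV, hVI, hVT, hVE⟩ := lk_five A hA
    exact ((h.copy hV hφ hr fun I => (hI I).trans (hVI I).symm).excl_iff hVT).1 hVE

end Pool.Agent.Lib.MP_c69b6d_co.F
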