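import Pool.Agent.Lib.MP_c69b6d_co.F.Block
import Pool.Agent.Lib.MP_c69b6d_co.F.Clos

/-! Induced separations from covers. -/

namespace Pool.Agent.Lib.MP_c69b6d_co.F

open Finset Disp

theorem ind_S_old (L : Disp F3) {m i j : ℕ} (r : Bool) (u : ℕ → F3) (hi : i ≠ m) (hj : j ≠ m) :
    (L.addEl m r u).S i j = L.S i j := by
  simp [addEl, hi, hj]

theorem ind_row_old (L : Disp F3) {m i : ℕ} (r : Bool) (u : ℕ → F3) (hi : i ≠ m) :
    (L.addEl m r u).row i = L.row i := by
  simp [addEl, hi]

theorem ind_row_new (L : Disp F3) {m : ℕ} (r : Bool) (u : ℕ → F3) :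
    (L.addEl m r u).row m = r := by
  simp [addEl]

/-- an identity embedding extends to a new element on both sides. -/
theorem ind_emb_add {G' G : Disp F3} {ε : ℕ → F3} (h : Emb G' G id ε) (n : ℕ)
    {r : Bool} {u v : ℕ → F3} {s : F3} (hs : s * s = 1)
    (huv : ∀ i ∈ G'.Z, G'.row i ≠ r → v i = ε i * s * u i) :
    Emb (G'.addEl n r u) (G.addEl n r v) id (fun i => if i = n then s else ε i) := by
  have m : ∀ i ∈ (G'.addEl n r u).Z, i ≠ n → i ∈ G'.Z := fun i hi k =>
    (mem_insert.1 hi).resolve_left k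
  have hr : ∀ i ∈ G'.Z, G.row i = G'.row i := fun i hi => h.row i hi
  refine ⟨fun _ _ _ _ e => e, fun i hi => ?_, fun i hi => ?_, fun i hi => ?_,
    fun i hi j hj => ?_⟩
  · rcases mem_insert.1 hi with k | k
    · exact mem_insert.2 (Or.inl k)
    · exact mem_insert.2 (Or.inr (h.mem i k))
  · by_cases h1 : i = n
    · simp [addEl, h1]
    · simp [addEl, h1, hr i (m i hi h1)]
  · by_cases h1 : i = n
    · simp [h1, hs]
    · simp [h1, h.sq i (m i hi h1)]
  · by_cases h1 : i = n <;> by_cases h2 : j = n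
    · simp [addEl, h1, h2]
    · by_cases h3 : G'.row j = r
      · simp [addEl, h1, h2, h3, hr j (m j hj h2)]
      · simp only [addEl, id, h1, h2, h3, hr j (m j hj h2), huv j (m j hj h2) h3, if_true,
          if_false, or_self]
        ring
    · by_cases h3 : G'.row i = r
      · simp [addEl, h1, h2, h3, hr i (m i hi h1)]
      · simp only [addEl, id, h1, h2, h3, hr i (m i hi h1), huv i (m i hi h1) h3, if_true,
          if_false]
    · have := h.ent i (m i hi h1) j (m j hj h2)
      simp only [id] at this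
      simp only [addEl, id, h1, h2, if_false, this]

theorem ind_lam {G' G : Disp F3} {ε : ℕ → F3} (h : Emb G' G id ε) {X Y : Finset ℕ}
    (hX : X ⊆ G'.Z) (hY : Y ⊆ G'.Z) : G.lam X Y = G'.lam X Y := by
  have := h.lam_eq hX hY
  rwa [image_id, image_id] at this

/-- the only entry of the Schur complement which can be nonzero. -/
theorem ind_schur {G : Disp F3} {X Y : Finset ℕ} {x1 x2 b c v w : ℕ} (h1 : x1 ∈ X) (h2 : x2 ∈ X)
    (hb : b ∈ Y) (hc : c ∈ Y) (hd : G.S x1 b * G.S x2 c - G.S x1 c * G.S x2 b ≠ 0)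
    (k2 : G.lam (insert v X) Y ≤ 2) (k3 : G.lam X (insert w Y) ≤ 2)
    (k4 : 3 ≤ G.lam (insert v X) (insert w Y)) :
    (G.S x1 b * G.S x2 c - G.S x1 c * G.S x2 b) * G.S v w ≠
      G.S v b * (G.S x2 c * G.S x1 w - G.S x1 c * G.S x2 w) +
        G.S v c * (G.S x1 b * G.S x2 w - G.S x2 b * G.S x1 w) := by
  intro e
  have q2 := (lam_le_two_iff (mem_insert_of_mem h1) (mem_insert_of_mem h2) hb hc hd).1 k2
  have q3 := (lam_le_two_iff h1 h2 (mem_insert_of_mem hb) (mem_insert_of_mem hc) hd).1 k3
  have q4 : G.lam (insert v X) (insert w Y) ≤ 2 := by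
    refine (lam_le_two_iff (mem_insert_of_mem h1) (mem_insert_of_mem h2) (mem_insert_of_mem hb)
      (mem_insert_of_mem hc) hd).2 fun i hi j hj => ?_
    rcases mem_insert.1 hj with rfl | hj'
    · rcases mem_insert.1 hi with rfl | hi'
      · exact e
      · exact q3 i hi' j hj
    · exact q2 i hi j hj'
  omega

/-- the conclusion of the second hypothesis does not depend on the signs. -/
theorem ind_s2c {𝒮 : List (Seed F3)} {Bad : Disp F3 → Prop}
    (hBad : ∀ G D, Minor G D → Bad G → Bad D) {σ : Seed F3} {r' : Bool} {G' G : Disp F3}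
    {ε : ℕ → F3} (h : Emb G' G id ε) (hX : σ.X0 ⊆ G'.Z) (hY : σ.Y0 ⊆ G'.Z) (h24 : 24 ∈ G'.Z)
    (h25 : 25 ∈ G'.Z) (H : S2C 𝒮 Bad σ r' G') : S2C 𝒮 Bad σ r' G := by
  have l : G.lam (insert 25 σ.X0) σ.Y0 = G'.lam (insert 25 σ.X0) σ.Y0 :=
    ind_lam h (insert_subset h25 hX) hY
  rcases H with H | H | ⟨H1, H⟩ | ⟨H1, H⟩
  · exact Or.inl (hBad _ _ h.minor H)
  · have := ShX.emb h (insert_subset h24 hX) hY h25 H
    rw [image_id, image_id] at this
    exact Or.inr (Or.inl this)
  · have := ShY.emb h hX (insert_subset h25 hY) h24 H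
    rw [image_id, image_id] at this
    exact Or.inr (Or.inr (Or.inl ⟨l ▸ H1, this⟩))
  · have e := ind_emb_add h 26 (r := !r') (u := fun i => if i = 25 then 1 else 0)
      (v := fun i => if i = 25 then 1 else 0) (h.sq 25 h25) (fun i _ _ => by
        by_cases k : i = 25
        · simp [k, h.sq 25 h25]
        · simp [k])
    have := ShX.emb e ((insert_subset h25 (insert_subset h24 hX)).trans (subset_insert _ _))
      (hY.trans (subset_insert _ _)) (mem_insert_self _ _) H
    rw [image_id, image_id] at this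
    exact Or.inr (Or.inr (Or.inr ⟨l ▸ H1, this⟩))

/-- the display is part of any extension by a new element. -/
theorem ind_sub (L : Disp F3) {n : ℕ} (hn : n ∉ L.Z) (r : Bool) (v : ℕ → F3) :
    Emb L (L.addEl n r v) id (fun _ => 1) :=
  emb_of_agree (subset_insert _ _) (agree_addEl L hn r v)

theorem induced' {𝒮 : List (Seed F3)} {𝓛 𝓝 : List (Disp F3)} {Bad : Disp F3 → Prop}
    (hBad : ∀ G D, Minor G D → Bad G → Bad D)
    (ok : ∀ σ ∈ 𝒮, ∃ a b c p A A', SeedOK 𝓛 𝓝 Bad σ a b c p ∧ BlockOK 𝒮 Bad σ b c A A')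
    {D : Disp F3} (hD : ¬ Bad D) {σ : Seed F3} (hσ : σ ∈ 𝒮) (hm : Minor σ.L D) :
    ∃ σ' ∈ 𝒮, ∃ E φ ε X Y, D.Reach E ∧ Emb σ'.L E φ ε ∧ X ∪ Y = D.Z ∧ Disjoint X Y ∧
      σ'.X0.image φ ⊆ X ∧ σ'.Y0.image φ ⊆ Y ∧ E.lam X Y ≤ 2 := by
  have big : ∀ τ ∈ 𝒮, ∀ n, 24 ≤ n → n ∉ τ.L.Z := fun τ hτ n hn k => by
    obtain ⟨a, b, c, p, A, A', so, -⟩ := ok τ hτ
    have := so.small n k
    omega
  refine induced 𝒮 Bad hBad (n := 24) (n' := 25) (m := 26) (by decide) (by decide) (by decide)
    (fun τ hτ => ?_) (fun τ hτ r v k1 k2 => ?_) (fun τ hτ r v r' v' G hG k1 k2 k3 k4 => ?_)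
    hD hσ hm (by decide)
  · obtain ⟨a, b, c, p, A, A', so, -⟩ := ok τ hτ
    refine ⟨so.hZ, so.disj, le_antisymm so.lam2 ?_, big τ hτ _ le_rfl, big τ hτ _ (by decide),
      big τ hτ _ (by decide)⟩
    by_contra k
    exact so.det (sub_eq_zero.2 (det_two_of_lam (by omega) so.m0 so.m1 so.mb so.mc))
  · obtain ⟨a, b, c, p, A, A', so, bo⟩ := ok τ hτ
    have n24 := big τ hτ 24 le_rfl
    have hX : τ.X0 ⊆ τ.L.Z := by rw [so.hZ]; exact subset_union_left
    have hY : τ.Y0 ⊆ τ.L.Z := by rw [so.hZ]; exact subset_union_right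
    rcases bo.cov r v with h | ⟨u, hu, s, hs, huv⟩
    · exact h
    · exfalso
      have e := emb_addEl_sign n24 hs huv
      rcases List.mem_append.1 hu with hu | hu
      · have := (bo.a1 r u hu).1
        rw [← ind_lam e (insert_subset_insert _ hX) (hY.trans (subset_insert _ _))] at this
        omega
      · have := bo.a2 r u hu
        rw [← ind_lam e (hX.trans (subset_insert _ _)) (insert_subset_insert _ hY)] at this
        omega
  · obtain ⟨a, b, c, p, A, A', so, bo⟩ := ok τ hτ
    change S2C 𝒮 Bad τ r' G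
    have n24 := big τ hτ 24 le_rfl
    have n25 := big τ hτ 25 (by decide)
    have hX : τ.X0 ⊆ τ.L.Z := by rw [so.hZ]; exact subset_union_left
    have hY : τ.Y0 ⊆ τ.L.Z := by rw [so.hZ]; exact subset_union_right
    have n25' : ∀ r u, 25 ∉ (τ.L.addEl 24 r u).Z := fun r u k =>
      (mem_insert.1 k).elim (by decide) n25
    have ne24 : ∀ i ∈ τ.L.Z, i ≠ 24 := fun i hi k => n24 (k ▸ hi)
    have ne25 : ∀ i ∈ τ.L.Z, i ≠ 25 := fun i hi k => n25 (k ▸ hi)
    have old : ∀ (r : Bool) (u : ℕ → F3) (r' : Bool) (u' : ℕ → F3), ∀ i ∈ τ.L.Z, ∀ j ∈ τ.L.Z,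
        ((τ.L.addEl 24 r u).addEl 25 r' u').S i j = τ.L.S i j := fun r u r' u' i hi j hj => by
      rw [ind_S_old _ _ _ (ne25 i hi) (ne25 j hj), ind_S_old _ _ _ (ne24 i hi) (ne24 j hj)]
    have oldr : ∀ i ∈ τ.L.Z, G.row i = τ.L.row i := fun i hi => by
      rw [hG, ind_row_old _ _ _ (ne25 i hi), ind_row_old _ _ _ (ne24 i hi)]
    have r25 : G.row 25 = r' := by rw [hG, ind_row_new]
    have r24 : G.row 24 = r := by rw [hG, ind_row_old _ _ _ (by decide), ind_row_new]
    have det : ∀ (r : Bool) (u : ℕ → F3) (r' : Bool) (u' : ℕ → F3) (H : Disp F3),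
        H = (τ.L.addEl 24 r u).addEl 25 r' u' → H.S 0 b * H.S 1 c - H.S 0 c * H.S 1 b ≠ 0 :=
      fun r u r' u' H hH => by
        rw [hH, old _ _ _ _ _ (hX so.m0) _ (hY so.mb), old _ _ _ _ _ (hX so.m1) _ (hY so.mc),
          old _ _ _ _ _ (hX so.m0) _ (hY so.mc), old _ _ _ _ _ (hX so.m1) _ (hY so.mb)]
        exact so.det
    -- the first new element
    have e1 : Emb (τ.L.addEl 24 r v) G id (fun _ => 1) := hG ▸ ind_sub _ (n25' r v) r' v'
    rcases bo.cov r v with h | ⟨u, hu, s, hs, huv⟩
    · exact Or.inl (hBad _ _ e1.minor h)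
    have e2 := emb_addEl_sign n24 hs huv
    have hu1 : u ∈ A r := by
      refine (List.mem_append.1 hu).resolve_right fun hu => ?_
      have := bo.a2 r u hu
      rw [← ind_lam e2 (hX.trans (subset_insert _ _)) (insert_subset_insert _ hY),
        ← ind_lam e1 (hX.trans (subset_insert _ _)) (insert_subset_insert _ hY)] at this
      omega
    -- the second new element, read at the label `24`
    have e0 : Emb τ.L G id (fun _ => 1) := by
      have := (ind_sub τ.L n24 r v).comp e1
      simp only [mul_one] at this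
      exact this
    have m25 : 25 ∈ G.Z := by rw [hG]; exact mem_insert_self _ _
    have e3 := e0.addEl n24 m25 (fun i hi => ne25 i hi) (s := 1) (one_mul 1) (u := v')
      (fun i hi hri => by
        rw [r25] at hri
        simp [hG, addEl, ne25 i hi, ne24 i hi, hri])
    rw [r25] at e3
    rcases bo.cov r' v' with h | ⟨u', hu', s', hs', huv'⟩
    · exact Or.inl (hBad _ _ e3.minor h)
    have e4 := emb_addEl_sign n24 hs' huv'
    have hu2 : u' ∈ A' r' := by
      refine (List.mem_append.1 hu').resolve_left fun hu' => ?_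
      have := (bo.a1 r' u' hu').2
      have im : ∀ W ⊆ τ.L.Z, W.image (Function.update id 24 25) = W := fun W hW => by
        rw [image_congr (g := id) fun i hi => Function.update_of_ne (ne24 i (hW hi)) _ _, image_id]
      rw [← ind_lam e4 (hX.trans (subset_insert _ _)) (insert_subset_insert _ hY),
        ← e3.lam_eq (hX.trans (subset_insert _ _)) (insert_subset_insert _ hY), image_insert,
        im _ hX, im _ hY, Function.update_self] at this
      omega
    -- the two new elements are on different sides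
    have hrr : r' = !r := by
      by_contra hne
      have hrr : r' = r := by revert hne; cases r <;> cases r' <;> simp
      have sch := ind_schur so.m0 so.m1 so.mb so.mc (det _ _ _ _ G hG) k2 k3 k4
      apply sch
      rw [G.bip 24 25 (by rw [r24, r25, hrr])]
      cases r with
      | true =>
        rw [G.bip 0 25 (by rw [r25, hrr, oldr _ (hX so.m0), so.r0]),
          G.bip 1 25 (by rw [r25, hrr, oldr _ (hX so.m1), so.r1])]
        ring
      | false =>
        have col : ∀ j, (τ.L.S 0 j ≠ 0 ∨ τ.L.S 1 j ≠ 0) → τ.L.row j = false := fun j hj => by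
          by_contra k
          have k' : τ.L.row j = true := by simpa using k
          rcases hj with hj | hj
          · exact hj (τ.L.bip _ _ (so.r0.trans k'.symm))
          · exact hj (τ.L.bip _ _ (so.r1.trans k'.symm))
        have cb : τ.L.row b = false := col b (by
          by_contra k
          rw [not_or, not_not, not_not] at k
          exact so.det (by rw [k.1, k.2]; ring))
        have cc : τ.L.row c = false := col c (by
          by_contra k
          rw [not_or, not_not, not_not] at k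
          exact so.det (by rw [k.1, k.2]; ring))
        rw [G.bip 24 b (by rw [r24, oldr _ (hY so.mb), cb]),
          G.bip 24 c (by rw [r24, oldr _ (hY so.mc), cc])]
        ring
    subst hrr
    have e5 := ind_emb_add e2 25 (r := !r) (u := Function.update u' 24 (s * s' * v' 24))
      (v := v') hs' (fun i hi hri => by
        rcases mem_insert.1 hi with k | k
        · subst k
          simp only [if_true, Function.update_self]
          linear_combination (-(s' * s') * v' 24) * hs - v' 24 * hs'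
        · rw [ind_row_old _ _ _ (ne24 i k)] at hri
          simp only [ne24 i k, if_false, Function.update_of_ne (ne24 i k), one_mul]
          exact huv' i k hri)
    rw [← hG] at e5
    set G' := (τ.L.addEl 24 r u).addEl 25 (!r) (Function.update u' 24 (s * s' * v' 24)) with hG'
    have sub : τ.L.Z ⊆ G'.Z := (subset_insert _ _).trans (subset_insert _ _)
    have p24 : 24 ∈ G'.Z := mem_insert_of_mem (mem_insert_self _ _)
    have p25 : 25 ∈ G'.Z := mem_insert_self _ _
    rw [ind_lam e5 (insert_subset p24 (hX.trans sub)) (hY.trans sub)] at k2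
    rw [ind_lam e5 (hX.trans sub) (insert_subset p25 (hY.trans sub))] at k3
    rw [ind_lam e5 (insert_subset p24 (hX.trans sub)) (insert_subset p25 (hY.trans sub))] at k4
    exact ind_s2c hBad e5 (hX.trans sub) (hY.trans sub) p24 p25
      (bo.a3 r u hu1 u' hu2 _ G' hG'
        (ind_schur so.m0 so.m1 so.mb so.mc (det _ _ _ _ G' hG') k2 k3 k4))

end Pool.Agent.Lib.MP_c69b6d_co.F
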