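import Pool.Agent.Lib.MP_c69b6d_co.F.TwoSum
import Pool.Agent.Lib.MP_c69b6d_co.F.Linkd
import Pool.Agent.Lib.MP_c69b6d_co.ExB172d

namespace Pool.Agent.Lib.MP_c69b6d_co.F

open Finset Disp Matroid

theorem lk_shows_five : ∀ L ∈ L5, ∃ A ∈ [A49, A52, A56, B172, B172d], ∃ ρ, LkShows L A ρ := by
  intro L hL
  simp only [L5, List.mem_cons, List.not_mem_nil, or_false] at hL
  rcases hL with rfl | rfl | rfl | rfl | rfl
  · exact ⟨A49, by simp, fun i => Fin.ofNat 5 (i - 3), by decide +kernel⟩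
  · exact ⟨A52, by simp, fun i => Fin.ofNat 5 (i - 3), by decide +kernel⟩
  · exact ⟨A56, by simp, fun i => Fin.ofNat 5 (i - 3), by decide +kernel⟩
  · exact ⟨B172, by simp, fun i => Fin.ofNat 5 (i - 3), by decide +kernel⟩
  · exact ⟨B172d, by simp, fun i => Fin.ofNat 5 (4 - i), by decide +kernel⟩

theorem lk_shows_three : ∀ A ∈ [F7m, F7md, P8], ∃ L ∈ NL, L.LkRigid ∧ ∃ ρ, LkShows L A ρ := by
  intro A hA
  simp only [List.mem_cons, List.not_mem_nil, or_false] at hA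
  rcases hA with rfl | rfl | rfl
  · exact ⟨cF7m.toDisp, by simp [NL], lk_rigid_F7m, fun i => Fin.ofNat 5 i, by decide +kernel⟩
  · exact ⟨cF7md.toDisp, by simp [NL], lk_rigid_F7md, fun i => Fin.ofNat 5 (i - 3), by decide +kernel⟩
  · exact ⟨cP8.toDisp, by simp [NL], lk_rigid_P8, fun i => Fin.ofNat 5 i, by decide +kernel⟩

theorem lk_five : ∀ A ∈ [A49, A52, A56, B172, B172d], ∃ N : Matroid (Fin A.length),
    N.E = Set.univ ∧ (∀ I, N.Indep I ↔ LinearIndepOn F3 (cols A) I) ∧ Ternary N ∧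
      ExcludedMinor N := by
  have key : ∀ (A : List (List ℕ)) (N : Matroid (Fin A.length)),
      (∀ I, N.Indep I ↔ LinearIndepOn F3 (cols A) I) → Ternary N :=
    fun A N h => ⟨5, cols A, fun I _ => h I⟩
  intro A hA
  simp only [List.mem_cons, List.not_mem_nil, or_false] at hA
  rcases hA with rfl | rfl | rfl | rfl | rfl
  · obtain ⟨N, h1, h2, -, -, h3⟩ := exA49; exact ⟨N, h1, h2, key _ N h2, h3⟩
  · obtain ⟨N, h1, h2, -, -, h3⟩ := exA52; exact ⟨N, h1, h2, key _ N h2, h3⟩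
  · obtain ⟨N, h1, h2, -, -, h3⟩ := exA56; exact ⟨N, h1, h2, key _ N h2, h3⟩
  · obtain ⟨N, h1, h2, -, -, h3⟩ := exB172; exact ⟨N, h1, h2, key _ N h2, h3⟩
  · obtain ⟨N, h1, h2, -, -, h3⟩ := exB172d; exact ⟨N, h1, h2, key _ N h2, h3⟩

theorem lk_has {α : Type} [Fintype α] {lab : α → ℕ} {M N : Matroid α} {D : Disp F3}
    (h : MRep lab M D) (hN : N ≤m M) {A : List (List ℕ)} (hA : A ∈ [F7m, F7md, P8])
    (hc : IsCopy N A) : Has NL D := by
  obtain ⟨L, hL, hrig, ρ, hs⟩ := lk_shows_three A hA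
  obtain ⟨φ, hφ, hr, hI⟩ := hc
  obtain ⟨E, U, hE, hU, hrep⟩ := h.minor hN
  obtain ⟨V, hV, hVI⟩ := exists_vecMatroid (K := F3) (cols A)
  have r1 := hs.rep hV hVI
  have r2 := hrep.copy hV hφ hr fun I => (hI I).trans (hVI I).symm
  have hψ : ∀ e : Fin A.length, Function.extend Fin.val (fun b => lab (φ b)) 0 e.1 = lab (φ e) :=
    fun e => Fin.val_injective.extend_apply _ _ e
  have him : ∀ I : Finset (Fin A.length), (I.image Fin.val).image
      (Function.extend Fin.val (fun b => lab (φ b)) 0) = I.image (fun b => lab (φ b)) := fun I => by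
    rw [image_image]
    exact image_congr fun e _ => hψ e
  refine ⟨L, hL, (hrig.minor (D := E.restrict U)
    (ψ := Function.extend Fin.val (fun b => lab (φ b)) 0) ?_ ?_ ?_).trans
      ((minor_restrict (hE.Z_eq ▸ hU)).trans hE.minor)⟩
  · intro i hi j hj e
    obtain ⟨a, -, rfl⟩ := (r1.gr i).1 hi
    obtain ⟨b, -, rfl⟩ := (r1.gr j).1 hj
    rw [hψ, hψ] at e
    exact congrArg _ (r2.inj e)
  · rw [hs.1, him]
    ext i
    simp [r2.gr, hV]
  · intro I hIZ
    obtain ⟨J, hJ, rfl⟩ := r1.pre hIZ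
    rw [him, ← r2.ind J hJ, r1.ind J hJ]

theorem lk_copy {α : Type} [Fintype α] [Nonempty α] {lab : α → ℕ} {M : Matroid α}
    {D : Disp F3} (h : MRep lab M D) (hD : LkExcl D) (hH : Has L5 D) :
    ∃ A ∈ [A49, A52, A56, B172, B172d], IsCopy M A := by
  obtain ⟨L, hL, E, ψ, ε, hE, he⟩ := hH
  obtain ⟨A, hA, ρ, hs⟩ := lk_shows_five L hL
  obtain ⟨V, hV, hVI, hVT, hVE⟩ := lk_five A hA
  have r1 := hs.rep hV hVI
  have hU : L.Z.image ψ ⊆ D.Z := image_subset_iff.2 fun i hi => hE.Z_eq ▸ he.mem i hi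
  have him : L.Z.image ψ = D.Z := by
    by_contra hne
    exact ((r1.excl_iff hVT).1 hVE).1 ((hD.2 E _ hE (hU.ssubset_of_ne hne)).minor
      (he.restrict_right fun i hi => mem_image_of_mem _ hi).minor)
  have hmem : ∀ e : Fin A.length, e.1 ∈ L.Z := fun e => r1.mem.2 (by simp [hV])
  have hex : ∀ e : Fin A.length, ∃ x ∈ M.E, lab x = ψ e := fun e =>
    (h.gr _).1 (hU (mem_image_of_mem _ (hmem e)))
  choose φ hφE hφ using hex
  refine ⟨A, hA, φ, fun a b e => Fin.ext (he.inj (hmem a) (hmem b) (by rw [← hφ, ← hφ, e])),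
    Set.Subset.antisymm (Set.range_subset_iff.2 hφE) fun x hx => ?_, fun I => ?_⟩
  · have := h.mem.2 hx
    rw [← him, mem_image] at this
    obtain ⟨i, hi, e⟩ := this
    obtain ⟨a, -, rfl⟩ := (r1.gr i).1 hi
    exact ⟨a, h.inj ((hφ a).trans e)⟩
  · classical
    lift I to Finset (Fin A.length) using Set.toFinite I
    rw [← hVI, r1.ind I (by simp [hV]), ← he.lk_indep (him.trans hE.Z_eq.symm)
      (r1.image_subset.2 (by simp [hV])), hE.lk_indep, ← coe_image,
      h.ind _ (by rw [coe_image]; exact Set.image_subset_iff.2 fun a _ => hφE a), image_image,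
      image_image]
    exact iff_of_eq (congrArg _ (image_congr fun a _ => hφ a))

/-- from displays to matroids. -/
theorem link (main : ∀ D : Disp F3, D.Conn3 → Has NL D → Free L5 D → D.Ray)
    {α : Type} [Fintype α] (M : Matroid α) (hT : Ternary M)
    (hN : ∃ N : Matroid α, N ≤m M ∧ ∃ A ∈ [F7m, F7md, P8], IsCopy N A) :
    ExcludedMinor M ↔ ∃ A ∈ [A49, A52, A56, B172, B172d], IsCopy M A := by
  obtain ⟨N, hNM, A0, hA0, hc0⟩ := hN
  have hpos : 0 < A0.length := (by decide : ∀ A ∈ [F7m, F7md, P8], 0 < A.length) A0 hA0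
  have : Nonempty α := ⟨hc0.choose ⟨0, hpos⟩⟩
  obtain ⟨D, h⟩ := lk_exists (lab := fun a => (Fintype.equivFin α a : ℕ)) hT
    (Fin.val_injective.comp (Fintype.equivFin α).injective)
  rw [h.excl_iff hT]
  constructor
  · intro hD
    by_cases hH : Has L5 D
    · exact lk_copy h hD hH
    refine absurd ?_ hD.1
    by_cases hC : D.Conn3
    · exact main D hC (lk_has h hNM hA0 hc0) fun L hL hm => hH ⟨L, hL, hm⟩
    · exact ray_of_not_conn3 hC fun U hU => hD.2 D U (Reach.refl D) hU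
  · rintro ⟨A, hA, φ, hφ, hr, hI⟩
    obtain ⟨V, hV, hVI, hVT, hVE⟩ := lk_five A hA
    exact ((h.copy hV hφ hr fun I => (hI I).trans (hVI I).symm).excl_iff hVT).1 hVE

end Pool.Agent.Lib.MP_c69b6d_co.F
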