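import Pool.Agent.Lib.MP_c69b6d_co.F.Linka
import Pool.Agent.Lib.MP_c69b6d_co.F.Data

/-! The displays of the non-Fano matroid, its dual and `P₈` are rigid. -/

namespace Pool.Agent.Lib.MP_c69b6d_co.F

open Finset Disp

/-- a display with a vertex adjacent to all rows is rigid. -/
theorem lk_rigid_of_col {L : Disp F3} {c : ℕ} (hc : c ∈ L.Z) (h1 : ∀ i ∈ L.B, L.S i c ≠ 0)
    (r : ℕ → ℕ) (h2 : ∀ j ∈ L.Z, j ∉ L.B → r j ∈ L.B ∧ L.S (r j) j ≠ 0) : L.LkRigid := by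
  intro σ hsq hcy
  refine ⟨fun k => if k ∈ L.B then σ k c else σ (r k) k * σ (r k) c, fun k hk => ?_,
    fun i hi j hj h => ?_⟩
  · by_cases hkB : k ∈ L.B
    · simp only [if_pos hkB]
      exact hsq k hkB c hc (h1 k hkB)
    · simp only [if_neg hkB]
      obtain ⟨a, b⟩ := h2 k hk hkB
      linear_combination (σ (r k) c * σ (r k) c) * hsq _ a k hk b + hsq _ a c hc (h1 _ a)
  · have hjB : j ∉ L.B := fun hh => h (L.bip i j ((mem_B.1 hi).2.trans (mem_B.1 hh).2.symm))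
    simp only [if_pos hi, if_neg hjB]
    obtain ⟨a, b⟩ := h2 j hj hjB
    have e1 := hcy i hi _ a j hj c hc h (h1 i hi) b (h1 _ a)
    have e2 := hsq _ a c hc (h1 _ a)
    linear_combination σ (r j) c * e1 - σ i j * e2

/-- a display with a row adjacent to all columns is rigid. -/
theorem lk_rigid_of_row {L : Disp F3} {c : ℕ} (hc : c ∈ L.B) (h1 : ∀ j ∈ L.Z, j ∉ L.B → L.S c j ≠ 0)
    (r : ℕ → ℕ) (h2 : ∀ i ∈ L.B, r i ∈ L.Z ∧ L.S i (r i) ≠ 0) : L.LkRigid := by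
  intro σ hsq hcy
  have hcol : ∀ i ∈ L.B, ∀ j, L.S i j ≠ 0 → j ∉ L.B := fun i hi j h hj =>
    h (L.bip i j ((mem_B.1 hi).2.trans (mem_B.1 hj).2.symm))
  refine ⟨fun k => if k ∈ L.B then σ k (r k) * σ c (r k) else σ c k, fun k hk => ?_,
    fun i hi j hj h => ?_⟩
  · by_cases hkB : k ∈ L.B
    · simp only [if_pos hkB]
      obtain ⟨a, b⟩ := h2 k hkB
      have e := hsq c hc _ a (h1 _ a (hcol k hkB _ b))
      linear_combination (σ c (r k) * σ c (r k)) * hsq k hkB _ a b + e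
    · simp only [if_neg hkB]
      exact hsq c hc k hk (h1 k hk hkB)
  · have hjB := hcol i hi j h
    simp only [if_pos hi, if_neg hjB]
    obtain ⟨a, b⟩ := h2 i hi
    have hr := h1 _ a (hcol i hi _ b)
    have e1 := hcy i hi c hc j hj _ a h b (h1 j hj hjB) hr
    have e2 := hsq c hc _ a hr
    linear_combination σ c (r i) * e1 - σ i j * e2

theorem lk_rigid_F7m : cF7m.toDisp.LkRigid :=
  lk_rigid_of_col (c := 6) (by decide +kernel) (by decide +kernel) (fun j => if j = 5 then 1 else 0)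
    (by decide +kernel)

theorem lk_rigid_F7md : cF7md.toDisp.LkRigid :=
  lk_rigid_of_row (c := 6) (by decide +kernel) (by decide +kernel) (fun i => if i = 5 then 1 else 0)
    (by decide +kernel)

theorem lk_rigid_P8 : cP8.toDisp.LkRigid := by
  intro σ hsq hcy
  have hB : ∀ i ∈ range 4, i ∈ cP8.toDisp.B := by decide +kernel
  have hZ : ∀ i ∈ range 4, i + 4 ∈ cP8.toDisp.Z := by decide +kernel
  have hS : ∀ i ∈ range 4, ∀ j ∈ range 4, i ≠ j → cP8.toDisp.S i (j + 4) ≠ 0 := by decide +kernel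
  have q : ∀ i j, i < 4 → j < 4 → i ≠ j → σ i (j + 4) * σ i (j + 4) = 1 := fun i j hi hj h =>
    hsq i (hB i (mem_range.2 hi)) _ (hZ j (mem_range.2 hj))
      (hS i (mem_range.2 hi) j (mem_range.2 hj) h)
  have c : ∀ i i' j j', i < 4 → i' < 4 → j < 4 → j' < 4 → i ≠ j → i ≠ j' → i' ≠ j → i' ≠ j' →
      σ i (j + 4) * σ i' (j' + 4) = σ i (j' + 4) * σ i' (j + 4) :=
    fun i i' j j' hi hi' hj hj' h1 h2 h3 h4 =>
      hcy i (hB i (mem_range.2 hi)) i' (hB i' (mem_range.2 hi')) _ (hZ j (mem_range.2 hj)) _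
        (hZ j' (mem_range.2 hj')) (hS i (mem_range.2 hi) j (mem_range.2 hj) h1)
        (hS i (mem_range.2 hi) j' (mem_range.2 hj') h2)
        (hS i' (mem_range.2 hi') j (mem_range.2 hj) h3)
        (hS i' (mem_range.2 hi') j' (mem_range.2 hj') h4)
  have q05 : σ 0 5 * σ 0 5 = 1 := q 0 1 (by omega) (by omega) (by omega)
  have q06 : σ 0 6 * σ 0 6 = 1 := q 0 2 (by omega) (by omega) (by omega)
  have q07 : σ 0 7 * σ 0 7 = 1 := q 0 3 (by omega) (by omega) (by omega)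
  have q14 : σ 1 4 * σ 1 4 = 1 := q 1 0 (by omega) (by omega) (by omega)
  have q16 : σ 1 6 * σ 1 6 = 1 := q 1 2 (by omega) (by omega) (by omega)
  have q27 : σ 2 7 * σ 2 7 = 1 := q 2 3 (by omega) (by omega) (by omega)
  have q35 : σ 3 5 * σ 3 5 = 1 := q 3 1 (by omega) (by omega) (by omega)
  have c1 : σ 0 6 * σ 1 7 = σ 0 7 * σ 1 6 := c 0 1 2 3 (by omega) (by omega) (by omega) (by omega)
    (by omega) (by omega) (by omega) (by omega)
  have c2 : σ 0 5 * σ 2 7 = σ 0 7 * σ 2 5 := c 0 2 1 3 (by omega) (by omega) (by omega) (by omega)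
    (by omega) (by omega) (by omega) (by omega)
  have c3 : σ 0 5 * σ 3 6 = σ 0 6 * σ 3 5 := c 0 3 1 2 (by omega) (by omega) (by omega) (by omega)
    (by omega) (by omega) (by omega) (by omega)
  have c4 : σ 1 4 * σ 2 7 = σ 1 7 * σ 2 4 := c 1 2 0 3 (by omega) (by omega) (by omega) (by omega)
    (by omega) (by omega) (by omega) (by omega)
  have c5 : σ 1 4 * σ 3 6 = σ 1 6 * σ 3 4 := c 1 3 0 2 (by omega) (by omega) (by omega) (by omega)
    (by omega) (by omega) (by omega) (by omega)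
  have k1 : ∀ a b c d : F3, a * a = 1 → a * b = c * d → b = d * a * c := by decide
  have k2 : ∀ a b : F3, a * a = 1 → b = b * a * a := by decide
  have k3 : ∀ a b : F3, a * a = 1 → b * b = 1 → a * b * (a * b) = 1 := by decide
  have e17 := k1 _ _ _ _ q06 c1
  have e25 := k1 _ _ _ _ q07 c2.symm
  have e36 := k1 _ _ _ _ q05 c3
  have q17 : σ 1 7 * σ 1 7 = 1 := q 1 3 (by omega) (by omega) (by omega)
  have e24 := k1 _ _ _ _ q17 c4.symm
  have e34 := k1 _ _ _ _ q16 c5.symm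
  refine ⟨fun k => [1, σ 1 6 * σ 0 6, σ 2 7 * σ 0 7, σ 3 5 * σ 0 5, σ 1 4 * (σ 1 6 * σ 0 6),
    σ 0 5, σ 0 6, σ 0 7].getD k 1, fun k hk => ?_, fun i hi j hj h => ?_⟩
  · have h8 : ∀ k ∈ cP8.toDisp.Z, k ∈ [0, 1, 2, 3, 4, 5, 6, 7] := by decide +kernel
    have := h8 k hk
    simp only [List.mem_cons, List.not_mem_nil, or_false] at this
    rcases this with rfl | rfl | rfl | rfl | rfl | rfl | rfl | rfl
    exacts [mul_one _, k3 _ _ q16 q06, k3 _ _ q27 q07, k3 _ _ q35 q05, k3 _ _ q14 (k3 _ _ q16 q06),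
      q05, q06, q07]
  · have h8 : ∀ i ∈ cP8.toDisp.B, ∀ j ∈ cP8.toDisp.Z, cP8.toDisp.S i j ≠ 0 → (i, j) ∈
        [(0, 5), (0, 6), (0, 7), (1, 4), (1, 6), (1, 7), (2, 4), (2, 5), (2, 7), (3, 4), (3, 5),
          (3, 6)] := by decide +kernel
    have := h8 i hi j hj h
    simp only [List.mem_cons, List.not_mem_nil, or_false, Prod.mk.injEq] at this
    rcases this with ⟨rfl, rfl⟩ | ⟨rfl, rfl⟩ | ⟨rfl, rfl⟩ | ⟨rfl, rfl⟩ | ⟨rfl, rfl⟩ | ⟨rfl, rfl⟩ |
      ⟨rfl, rfl⟩ | ⟨rfl, rfl⟩ | ⟨rfl, rfl⟩ | ⟨rfl, rfl⟩ | ⟨rfl, rfl⟩ | ⟨rfl, rfl⟩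
    · exact (one_mul _).symm
    · exact (one_mul _).symm
    · exact (one_mul _).symm
    · change σ 1 4 = σ 1 6 * σ 0 6 * (σ 1 4 * (σ 1 6 * σ 0 6))
      linear_combination (- σ 1 4) * k3 _ _ q16 q06
    · exact k2 _ _ q06
    · exact e17
    · change σ 2 4 = σ 2 7 * σ 0 7 * (σ 1 4 * (σ 1 6 * σ 0 6))
      rw [e24, e17]; ring
    · exact e25
    · exact k2 _ _ q07
    · change σ 3 4 = σ 3 5 * σ 0 5 * (σ 1 4 * (σ 1 6 * σ 0 6))
      rw [e34, e36]; ring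
    · exact k2 _ _ q05
    · exact e36

end Pool.Agent.Lib.MP_c69b6d_co.F
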