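import Pool.Agent.Lib.MP_c69b6d_co.F.Linkb
import Pool.Agent.Lib.MP_c69b6d_co.Dual

/-! Matroids represented by displays. -/

namespace Pool.Agent.Lib.MP_c69b6d_co.F

open Finset Disp Matroid

/-- the display `D` represents `M`, through the labelling `lab`. -/
structure MRep {α : Type} (lab : α → ℕ) (M : Matroid α) (D : Disp F3) : Prop where
  inj : Function.Injective lab
  gr : ∀ i, i ∈ D.Z ↔ ∃ e ∈ M.E, lab e = i
  ind : ∀ I : Finset α, (I : Set α) ⊆ M.E → (M.Indep (I : Set α) ↔ D.Indep (I.image lab))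

variable {α : Type} {lab : α → ℕ} {M : Matroid α} {D : Disp F3}

theorem MRep.mem (h : MRep lab M D) {e : α} : lab e ∈ D.Z ↔ e ∈ M.E := by
  rw [h.gr]
  exact ⟨fun ⟨x, hx, e⟩ => h.inj e ▸ hx, fun he => ⟨e, he, rfl⟩⟩

theorem MRep.image_subset (h : MRep lab M D) {I : Finset α} : I.image lab ⊆ D.Z ↔ (I : Set α) ⊆ M.E := by
  rw [image_subset_iff]
  exact ⟨fun hh x hx => h.mem.1 (hh x hx), fun hh x hx => h.mem.2 (hh hx)⟩

theorem MRep.pre [Fintype α] (h : MRep lab M D) {F : Finset ℕ} (hF : F ⊆ D.Z) :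
    ∃ I : Finset α, (I : Set α) ⊆ M.E ∧ I.image lab = F := by
  have e : (univ.filter (fun e => lab e ∈ F)).image lab = F := by
    ext i
    simp only [mem_image, mem_filter, mem_univ, true_and]
    constructor
    · rintro ⟨x, hx, rfl⟩; exact hx
    · intro hi
      obtain ⟨x, -, rfl⟩ := (h.gr i).1 (hF hi)
      exact ⟨x, hi, rfl⟩
  exact ⟨_, h.image_subset.1 (e.symm ▸ hF), e⟩

theorem MRep.reach (h : MRep lab M D) {E : Disp F3} (hr : D.Reach E) : MRep lab M E :=
  ⟨h.inj, fun i => by rw [hr.Z_eq, h.gr], fun I hI => by rw [hr.lk_indep, h.ind I hI]⟩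

theorem MRep.base [Fintype α] (h : MRep lab M D) (B : Finset α) :
    M.IsBase (B : Set α) ↔ D.Base (B.image lab) := by
  obtain ⟨B0, hB0, e0⟩ := h.pre (lk_B D)
  have hc : ∀ I : Finset α, M.Indep (I : Set α) → I.card ≤ D.B.card := fun I hI => by
    rw [← card_image_of_injective I h.inj]
    exact ((h.ind I hI.subset_ground).1 hI).lk_card (h.image_subset.2 hI.subset_ground)
  have hb : ∀ I : Finset α, M.Indep (I : Set α) → I.card = D.B.card → M.IsBase (I : Set α) := by
    intro I hI hcard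
    obtain ⟨B1, hB1, hIB⟩ := hI.exists_isBase_superset
    lift B1 to Finset α using Set.toFinite B1
    have := eq_of_subset_of_card_le (coe_subset.1 hIB) (hcard ▸ hc B1 hB1.indep)
    rwa [this]
  have h0 : M.IsBase (B0 : Set α) := hb B0 ((h.ind B0 hB0).2 (e0 ▸ indep_of_rows subset_rfl))
    (by rw [← e0, card_image_of_injective _ h.inj])
  rw [base_iff_indep, h.image_subset, card_image_of_injective _ h.inj]
  constructor
  · intro hB
    refine ⟨hB.subset_ground, ?_, (h.ind B hB.subset_ground).1 hB.indep⟩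
    have := hB.ncard_eq_ncard_of_isBase h0
    rw [Set.ncard_coe_finset, Set.ncard_coe_finset] at this
    rw [this, ← e0, card_image_of_injective _ h.inj]
  · rintro ⟨h1, h2, h3⟩
    exact hb B ((h.ind B h1).2 h3) h2

theorem MRep.restrict_of [Fintype α] (h : MRep lab M D) {N : Matroid α} {J : Finset α} {U : Finset ℕ}
    (hU : U ⊆ D.Z) (hJ : J.image lab = D.B \ U) (hE : ∀ e, e ∈ N.E ↔ lab e ∈ U)
    (hN : ∀ X ⊆ N.E, N.Indep X ↔ M.Indep (X ∪ J)) : MRep lab N (D.restrict U) := by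
  classical
  refine ⟨h.inj, fun i => ?_, fun I hI => ?_⟩
  · change i ∈ U ↔ _
    constructor
    · intro hi
      obtain ⟨x, -, rfl⟩ := (h.gr i).1 (hU hi)
      exact ⟨x, (hE x).2 hi, rfl⟩
    · rintro ⟨x, hx, rfl⟩
      exact (hE x).1 hx
  · have h1 : I.image lab ⊆ U := image_subset_iff.2 fun x hx => (hE x).1 (hI hx)
    rw [hN _ hI, lk_restrict hU h1, ← hJ, ← image_union, ← coe_union]
    refine h.ind _ (h.image_subset.1 ?_)
    rw [image_union, hJ]
    exact union_subset (h1.trans hU) (sdiff_subset.trans (lk_B D))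

theorem MRep.restrict [Fintype α] (h : MRep lab M D) {U : Finset ℕ} (hU : U ⊆ D.Z) :
    ∃ N : Matroid α, N ≤m M ∧ MRep lab N (D.restrict U) := by
  obtain ⟨J, hJ, eJ⟩ := h.pre (F := D.B \ U) (sdiff_subset.trans (lk_B D))
  have hJi : M.Indep (J : Set α) := (h.ind J hJ).2 (eJ ▸ indep_of_rows sdiff_subset)
  have hJU : ∀ x ∈ J, lab x ∉ U := fun x hx =>
    (mem_sdiff.1 (eJ ▸ mem_image_of_mem lab hx : lab x ∈ D.B \ U)).2
  have hE : ∀ e, e ∈ (M ／ (J : Set α) ＼ {e | lab e ∉ U}).E ↔ lab e ∈ U := fun e => by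
    simp only [delete_ground, contract_ground, Set.mem_sdiff, Set.mem_ofPred_eq, not_not, mem_coe]
    exact ⟨fun hh => hh.2, fun hh => ⟨⟨h.mem.1 (hU hh), fun hx => hJU e hx hh⟩, hh⟩⟩
  refine ⟨_, contract_delete_isMinor M J {e | lab e ∉ U}, h.restrict_of hU eJ hE fun X hX => ?_⟩
  rw [delete_indep_iff, hJi.contract_indep_iff]
  refine ⟨fun hh => hh.1.2, fun hh => ⟨⟨?_, hh⟩, ?_⟩⟩
  · exact Set.disjoint_left.2 fun x hx hxJ => hJU x hxJ ((hE x).1 (hX hx))
  · exact Set.disjoint_left.2 fun x hx hxU => hxU ((hE x).1 (hX hx))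

theorem MRep.minor [Fintype α] (h : MRep lab M D) {N : Matroid α} (hN : N ≤m M) :
    ∃ E U, D.Reach E ∧ U ⊆ D.Z ∧ MRep lab N (E.restrict U) := by
  classical
  obtain ⟨J, hJ, hX⟩ := minor_base hN
  obtain ⟨B0, hB0⟩ := N.exists_isBase
  lift J to Finset α using Set.toFinite J
  lift B0 to Finset α using Set.toFinite B0
  have hB : M.IsBase ((B0 ∪ J : Finset α) : Set α) := by
    rw [coe_union]; exact (hX _ hB0.subset_ground).1 hB0
  have hb := (h.base _).1 hB
  obtain ⟨E, hE, hEB⟩ := reach_base hb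
  have hr : D.Reach E := hE.reach (union_subset (sdiff_subset.trans hb.1)
    (sdiff_subset.trans (lk_B D)))
  have hU : N.E.toFinset.image lab ⊆ D.Z := h.image_subset.2 (by simpa using hN.subset)
  have hmem : ∀ e, e ∈ N.E ↔ lab e ∈ N.E.toFinset.image lab := fun e => by
    rw [h.inj.mem_finset_image, Set.mem_toFinset]
  refine ⟨E, _, hr, hU, (h.reach hr).restrict_of (J := J) (hr.Z_eq ▸ hU) ?_ hmem fun X hXE => ?_⟩
  · rw [hEB, ← image_sdiff _ _ h.inj]
    congr 1
    ext x
    simp only [mem_sdiff, mem_union, Set.mem_toFinset]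
    exact ⟨fun hx => ⟨Or.inr hx, Set.disjoint_left.1 hJ hx⟩,
      fun hx => hx.1.resolve_left fun hh => hx.2 (hB0.subset_ground hh)⟩
  · constructor
    · intro hi
      obtain ⟨B1, hB1, hXB⟩ := hi.exists_isBase_superset
      exact ((hX _ hB1.subset_ground).1 hB1).indep.subset (Set.union_subset_union_left _ hXB)
    · intro hi
      obtain ⟨B1, hB1, h1, h2⟩ := hi.exists_isBase_subset_union_isBase hB
      have h3 : B1 = (B1 ∩ N.E) ∪ J := by
        refine Set.Subset.antisymm (fun x hx => ?_)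
          (Set.union_subset Set.inter_subset_left (Set.subset_union_right.trans h1))
        by_cases hxJ : x ∈ J
        · exact Or.inr hxJ
        · refine Or.inl ⟨hx, ?_⟩
          rcases h2 hx with (hh | hh) | hh
          · exact hXE hh
          · exact absurd hh hxJ
          · exact hB0.subset_ground ((mem_union.1 hh).resolve_right hxJ)
      rw [h3, ← hX _ Set.inter_subset_right] at hB1
      exact hB1.indep.subset fun x hx => ⟨h1 (Or.inl hx), hXE hx⟩

theorem MRep.W_eq [Fintype α] (h : MRep lab M D) (y : ℕ → ℝ) :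
    D.W y = Pool.Agent.Lib.MP_c69b6d_co.W M (fun e => y (lab e)) ∅ := by
  classical
  unfold Disp.W Pool.Agent.Lib.MP_c69b6d_co.W
  rw [← sum_filter, ← sum_filter]
  symm
  refine sum_bij (fun B _ => B.image lab) ?_ ?_ ?_ ?_
  · intro B hB
    simp only [mem_filter, mem_univ, true_and, Set.empty_subset, and_true, mem_powerset] at hB ⊢
    exact ⟨h.image_subset.2 hB.subset_ground, (h.base B).1 hB⟩
  · intro B _ B' _ e
    exact image_injective h.inj e
  · intro F hF
    simp only [mem_filter, mem_powerset] at hF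
    obtain ⟨I, -, rfl⟩ := h.pre hF.1
    refine ⟨I, ?_, rfl⟩
    simp only [mem_filter, mem_univ, true_and, Set.empty_subset, and_true]
    exact (h.base I).2 hF.2
  · intro B _
    rw [prod_image h.inj.injOn]

theorem lk_shift [Fintype α] [DecidableEq α] (M : Matroid α) (y z : α → ℝ) {e f : α} (hef : e ≠ f)
    (s t : ℝ) (hz : ∀ x, z x = (if x = e then 1 + s else 1) * (if x = f then 1 + t else 1) * y x) :
    Pool.Agent.Lib.MP_c69b6d_co.W M z ∅ = Pool.Agent.Lib.MP_c69b6d_co.W M y ∅ +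
      s * Pool.Agent.Lib.MP_c69b6d_co.W M y {e} + t * Pool.Agent.Lib.MP_c69b6d_co.W M y {f} +
      s * t * Pool.Agent.Lib.MP_c69b6d_co.W M y {e, f} := by
  classical
  unfold Pool.Agent.Lib.MP_c69b6d_co.W
  simp only [mul_sum, ← sum_add_distrib]
  refine sum_congr rfl fun B _ => ?_
  simp only [hz, prod_mul_distrib, prod_ite_eq', Set.empty_subset, and_true,
    Set.singleton_subset_iff, Set.insert_subset_iff, mem_coe]
  by_cases h1 : M.IsBase (B : Set α) <;> by_cases h2 : e ∈ B <;> by_cases h3 : f ∈ B <;>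
    simp only [h1, h2, h3, true_and, and_true, and_false, false_and, if_true, if_false] <;> ring

theorem lk_iso {i : ℕ} {τ : ℕ → ℝ} : Iso {i} τ ↔ (∀ j, j ≠ i → τ j = 0) ∧ 0 ≤ τ i := by
  simp [Iso]

theorem MRep.shift [Fintype α] (h : MRep lab M D) {e f : α} (hef : e ≠ f) {y τ τ' : ℕ → ℝ}
    (hy : ∀ i, 0 < y i) (h1 : ∀ j, j ≠ lab e → τ j = 0) (h2 : ∀ j, j ≠ lab f → τ' j = 0) :
    D.W (y + τ) * D.W (y + τ') - D.W y * D.W (y + τ + τ') =
      (τ (lab e) / y (lab e)) * (τ' (lab f) / y (lab f)) *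
      (Pool.Agent.Lib.MP_c69b6d_co.W M (fun x => y (lab x)) {e} *
        Pool.Agent.Lib.MP_c69b6d_co.W M (fun x => y (lab x)) {f} -
      Pool.Agent.Lib.MP_c69b6d_co.W M (fun x => y (lab x)) {e, f} *
        Pool.Agent.Lib.MP_c69b6d_co.W M (fun x => y (lab x)) ∅) := by
  classical
  have ye := (hy (lab e)).ne'
  have yf := (hy (lab f)).ne'
  have a1 : ∀ x, x ≠ e → τ (lab x) = 0 := fun x hx => h1 _ fun hh => hx (h.inj hh)
  have a2 : ∀ x, x ≠ f → τ' (lab x) = 0 := fun x hx => h2 _ fun hh => hx (h.inj hh)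
  rw [h.W_eq, h.W_eq, h.W_eq, h.W_eq,
    lk_shift M (fun x => y (lab x)) (fun x => (y + τ) (lab x)) hef (τ (lab e) / y (lab e)) 0,
    lk_shift M (fun x => y (lab x)) (fun x => (y + τ') (lab x)) hef 0 (τ' (lab f) / y (lab f)),
    lk_shift M (fun x => y (lab x)) (fun x => (y + τ + τ') (lab x)) hef (τ (lab e) / y (lab e))
      (τ' (lab f) / y (lab f))]
  · ring
  · intro x
    by_cases hx : x = e
    · subst hx; simp [hef, a2 x hef]; field_simp
    · by_cases hx' : x = f
      · subst hx'; simp [hx, a1 x hx]; field_simp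
      · simp [hx, hx', a1 x hx, a2 x hx']
  · intro x
    by_cases hx' : x = f
    · subst hx'; simp; field_simp
    · simp [hx', a2 x hx']
  · intro x
    by_cases hx : x = e
    · subst hx; simp; field_simp
    · simp [hx, a1 x hx]

theorem MRep.ray_iff [Fintype α] (h : MRep lab M D) : D.Ray ↔ Rayleigh M := by
  classical
  constructor
  · intro hR y hy e he f hf hef
    have hy' : ∀ i, 0 < Function.extend lab y 1 i := fun i => by
      by_cases hi : ∃ a, lab a = i
      · obtain ⟨a, rfl⟩ := hi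
        rw [h.inj.extend_apply]; exact hy a
      · rw [Function.extend_apply' _ _ _ hi]; exact one_pos
    have p1 : ∀ (k i : ℕ), (0 : ℝ) ≤ (Pi.single k (1 : ℝ) : ℕ → ℝ) i := fun k i => by
      by_cases hh : i = k
      · subst hh; simp
      · simp [hh]
    have h1 := hR _ (h.mem.2 he) _ (h.mem.2 hf) (Function.extend lab y 1) (Pi.single (lab e) 1)
      (Pi.single (lab f) 1) (lk_iso.2 ⟨fun j hj => by simp [hj], by simp⟩)
      (lk_iso.2 ⟨fun j hj => by simp [hj], by simp⟩) (fun i => (hy' i).le)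
      (fun i => add_nonneg (hy' i).le (p1 _ i)) (fun i => add_nonneg (hy' i).le (p1 _ i))
      (fun i => add_nonneg (add_nonneg (hy' i).le (p1 _ i)) (p1 _ i))
    rw [← sub_nonneg, h.shift hef hy' (fun j hj => by simp [hj]) (fun j hj => by simp [hj])] at h1
    simp only [h.inj.extend_apply, Pi.single_eq_same] at h1
    exact (mul_nonneg_iff_of_pos_left (mul_pos (one_div_pos.2 (hy e)) (one_div_pos.2 (hy f)))).1 h1
  · intro hR i hi j hj
    by_cases hij : i = j
    · subst hij; exact QF_single D i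
    obtain ⟨e, he, rfl⟩ := (h.gr i).1 hi
    obtain ⟨f, hf, rfl⟩ := (h.gr j).1 hj
    have hef : e ≠ f := fun hh => hij (congrArg lab hh)
    refine QF.of_pos (W_continuous D) fun y τ τ' h1 h2 hy _ _ _ => ?_
    rw [lk_iso] at h1 h2
    rw [← sub_nonneg, h.shift hef hy h1.1 h2.1]
    exact mul_nonneg (mul_nonneg (div_nonneg h1.2 (hy _).le) (div_nonneg h2.2 (hy _).le))
      (hR _ (fun x => hy _) e he f hf hef)

/-- the excluded minor property, read on a display. -/
def LkExcl (D : Disp F3) : Prop :=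
  ¬ D.Ray ∧ ∀ E U, D.Reach E → U ⊂ D.Z → (E.restrict U).Ray

theorem MRep.excl_iff [Fintype α] (h : MRep lab M D) (hT : Ternary M) : ExcludedMinor M ↔ LkExcl D := by
  constructor
  · intro hM
    refine ⟨fun hR => hM.1 ⟨hT, h.ray_iff.1 hR⟩, fun E U hr hU => ?_⟩
    obtain ⟨N, hN, hrep⟩ := (h.reach hr).restrict (U := U) (hr.Z_eq ▸ hU.subset)
    refine hrep.ray_iff.2 (hM.2 N (isStrictMinor_iff_isMinor_ssubset.2 ⟨hN, hN.subset, ?_⟩)).2
    intro hs
    refine hU.not_subset fun i hi => ?_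
    obtain ⟨x, hx, rfl⟩ := (h.gr i).1 hi
    exact hrep.mem.2 (hs hx)
  · intro hD
    refine ⟨fun hh => hD.1 (h.ray_iff.2 hh.2), fun N hN => ⟨hT.minor hN.isMinor, ?_⟩⟩
    obtain ⟨E, U, hr, hU, hrep⟩ := h.minor hN.isMinor
    refine hrep.ray_iff.1 (hD.2 E U hr ⟨hU, fun hs => hN.ssubset.2 fun x hx => ?_⟩)
    exact hrep.mem.1 (hs (h.mem.2 hx))

end Pool.Agent.Lib.MP_c69b6d_co.F
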