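import Pool.Agent.Lib.MP_c69b6d_co.F.Sharpb

/-! Triangles, the discriminant, the wye-delta identity and the sharp duality. -/

namespace Pool.Agent.Lib.MP_c69b6d_co.F

open Finset Disp

/-- `P` has the shape of the generating polynomial of a matroid with the triangle `a, b, c`. -/
def TriForm (P : (ℕ → ℝ) → ℝ) (a b c : ℕ) (H2 Wa Wb Wc H0 : (ℕ → ℝ) → ℝ) : Prop :=
  (∀ y, P y = H2 y + Wa y * y a + Wb y * y b + Wc y * y c +
    H0 y * (y a * y b + y a * y c + y b * y c)) ∧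
  (∀ y z : ℕ → ℝ, (∀ i, i ≠ a → i ≠ b → i ≠ c → y i = z i) →
    H2 y = H2 z ∧ Wa y = Wa z ∧ Wb y = Wb z ∧ Wc y = Wc z ∧ H0 y = H0 z) ∧
  ∀ y : ℕ → ℝ, (∀ i, 0 ≤ y i) → 0 ≤ H2 y ∧ 0 ≤ Wa y ∧ 0 ≤ Wb y ∧ 0 ≤ Wc y ∧ 0 ≤ H0 y

theorem triForm_W {K : Type} [Field K] {D : Disp K} {a b c : ℕ} (hab : a ≠ b) (hac : a ≠ c)
    (hbc : b ≠ c) (h : D.Tri {a, b, c}) :
    ∃ H2 Wa Wb Wc H0, TriForm D.W a b c H2 Wa Wb Wc H0 := by
  have hT := Shp.tri_mem h
  let G : (Finset ℕ → Finset ℕ) → (ℕ → ℝ) → ℝ := fun f y =>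
    ∑ F ∈ (Shp.rest D.Z a b c).powerset, (∏ i ∈ F, y i) * Shp.ind D (f F)
  have G1 : ∀ f, ∀ y z : ℕ → ℝ, (∀ i, i ≠ a → i ≠ b → i ≠ c → y i = z i) → G f y = G f z := by
    intro f y z e
    refine sum_congr rfl fun F hF => ?_
    rw [prod_congr rfl fun i hi => ?_]
    have := Shp.mem_rest.1 (mem_powerset.1 hF hi)
    exact e i this.2.1 this.2.2.1 this.2.2.2
  have G2 : ∀ f, ∀ y : ℕ → ℝ, (∀ i, 0 ≤ y i) → 0 ≤ G f y := fun f y hy =>
    sum_nonneg fun F _ => mul_nonneg (prod_nonneg fun i _ => hy i) (Shp.ind_nonneg _ _)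
  refine ⟨G id, G (insert a), G (insert b), G (insert c), G (fun F => insert a (insert b F)),
    fun y => ?_, fun y z e => ⟨G1 _ y z e, G1 _ y z e, G1 _ y z e, G1 _ y z e, G1 _ y z e⟩,
    fun y hy => ⟨G2 _ y hy, G2 _ y hy, G2 _ y hy, G2 _ y hy, G2 _ y hy⟩⟩
  rw [Shp.W_three D hab hac hbc (hT (by simp)) (hT (by simp)) (hT (by simp))]
  simp only [G, sum_mul, ← sum_add_distrib, id]
  refine sum_congr rfl fun F hF => ?_
  have hF' := mem_powerset.1 hF
  have fa : a ∉ F := fun h => (Shp.mem_rest.1 (hF' h)).2.1 rfl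
  have fb : b ∉ F := fun h => (Shp.mem_rest.1 (hF' h)).2.2.1 rfl
  have fc : c ∉ F := fun h => (Shp.mem_rest.1 (hF' h)).2.2.2 rfl
  obtain ⟨k1, k2⟩ := Shp.tri_bases hab hac hbc h fa fb fc
  rw [Shp.ind_congr k1, Shp.ind_congr k2, Shp.ind_zero (Shp.tri_not_base
    (F := insert a (insert b (insert c F))) h (by intro i; simp only [mem_insert, mem_singleton]; tauto))]
  ring

theorem TriForm.tf {P : (ℕ → ℝ) → ℝ} {a b c : ℕ} {H2 Wa Wb Wc H0 : (ℕ → ℝ) → ℝ}
    (h : TriForm P a b c H2 Wa Wb Wc H0) {y z : ℕ → ℝ}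
    (e : ∀ i, i ≠ a → i ≠ b → i ≠ c → z i = y i) :
    P z = Shp.tf (H2 y) (Wa y) (Wb y) (Wc y) (H0 y) (z a) (z b) (z c) := by
  obtain ⟨e1, e2, e3, e4, e5⟩ := h.2.1 z y e
  rw [h.1 z, e1, e2, e3, e4, e5]; rfl

theorem qf_iff_disc {P : (ℕ → ℝ) → ℝ} {a b c : ℕ} (hab : a ≠ b) (hac : a ≠ c) (hbc : b ≠ c)
    {H2 Wa Wb Wc H0 : (ℕ → ℝ) → ℝ} (h : TriForm P a b c H2 Wa Wb Wc H0) :
    QF P {a, b, c} {a, b, c} ↔ ∀ y : ℕ → ℝ, (∀ i, 0 ≤ y i) →
      4 * H0 y * H2 y ≤ 2 * (Wa y * Wb y + Wa y * Wc y + Wb y * Wc y) -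
        (Wa y ^ 2 + Wb y ^ 2 + Wc y ^ 2) := by
  constructor
  · intro hq y hy
    obtain ⟨-, n1, n2, n3, -⟩ := h.2.2 y hy
    refine Shp.Q3.disc ?_ n1 n2 n3
    intro u v w p q r p' q' r' n s n' s' h1 h2 h3 h4 h5 h6 h7 h8 h9 h10 h11 h12
    let put : (ℕ → ℝ) → ℝ → ℝ → ℝ → ℕ → ℝ := fun x u v w i =>
      if i = a then u else if i = b then v else if i = c then w else x i
    have pa : ∀ x u v w, put x u v w a = u := fun x u v w => by simp [put]
    have pb : ∀ x u v w, put x u v w b = v := fun x u v w => by simp [put, hab.symm]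
    have pc : ∀ x u v w, put x u v w c = w := fun x u v w => by simp [put, hac.symm, hbc.symm]
    have po : ∀ x u v w i, i ≠ a → i ≠ b → i ≠ c → put x u v w i = x i :=
      fun x u v w i i1 i2 i3 => by simp [put, i1, i2, i3]
    have cs : ∀ {Q : ℕ → Prop}, Q a → Q b → Q c → (∀ i, i ≠ a → i ≠ b → i ≠ c → Q i) → ∀ i, Q i := by
      intro Q qa qb qc qo i
      by_cases i1 : i = a
      · rwa [i1]
      by_cases i2 : i = b
      · rwa [i2]
      by_cases i3 : i = c
      · rwa [i3]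
      exact qo i i1 i2 i3
    have k := hq (put y u v w) (put 0 p q r) (put 0 p' q' r')
      ((Shp.iso3 hab hac hbc).2 ⟨fun i i1 i2 i3 => po _ _ _ _ i i1 i2 i3, by rwa [pa, pb, pc],
        by rwa [pa, pb, pc]⟩)
      ((Shp.iso3 hab hac hbc).2 ⟨fun i i1 i2 i3 => po _ _ _ _ i i1 i2 i3, by rwa [pa, pb, pc],
        by rwa [pa, pb, pc]⟩)
      (cs (by rwa [pa]) (by rwa [pb]) (by rwa [pc])
        (fun i i1 i2 i3 => by rw [po _ _ _ _ i i1 i2 i3]; exact hy i))
      (cs (by rwa [pa, pa]) (by rwa [pb, pb]) (by rwa [pc, pc])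
        (fun i i1 i2 i3 => by simp only [po _ _ _ _ i i1 i2 i3]; simpa using hy i))
      (cs (by rwa [pa, pa]) (by rwa [pb, pb]) (by rwa [pc, pc])
        (fun i i1 i2 i3 => by simp only [po _ _ _ _ i i1 i2 i3]; simpa using hy i))
      (cs (by rwa [pa, pa, pa]) (by rwa [pb, pb, pb]) (by rwa [pc, pc, pc])
        (fun i i1 i2 i3 => by simp only [po _ _ _ _ i i1 i2 i3]; simpa using hy i))
    rw [h.tf (y := y) (fun i i1 i2 i3 => po _ _ _ _ i i1 i2 i3),
      h.tf (y := y) (z := put y u v w + put 0 p q r + put 0 p' q' r')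
        (fun i i1 i2 i3 => by simp [po _ _ _ _ i i1 i2 i3]),
      h.tf (y := y) (z := put y u v w + put 0 p q r)
        (fun i i1 i2 i3 => by simp [po _ _ _ _ i i1 i2 i3]),
      h.tf (y := y) (z := put y u v w + put 0 p' q' r')
        (fun i i1 i2 i3 => by simp [po _ _ _ _ i i1 i2 i3])] at k
    simpa only [Pi.add_apply, pa, pb, pc] using k
  · intro hd y τ τ' i1 i2 hy _ _ _
    obtain ⟨z1, n1, s1⟩ := (Shp.iso3 hab hac hbc).1 i1
    obtain ⟨z2, n2, s2⟩ := (Shp.iso3 hab hac hbc).1 i2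
    rw [h.tf (y := y) (z := y) (fun _ _ _ _ => rfl),
      h.tf (y := y) (z := y + τ + τ') (fun i j1 j2 j3 => by simp [z1 i j1 j2 j3, z2 i j1 j2 j3]),
      h.tf (y := y) (z := y + τ) (fun i j1 j2 j3 => by simp [z1 i j1 j2 j3]),
      h.tf (y := y) (z := y + τ') (fun i j1 j2 j3 => by simp [z2 i j1 j2 j3])]
    exact Shp.tri_ineq (hd y hy) n1 s1 n2 s2

/-- the wye-delta exchange on the triad `a, b, c`. -/
noncomputable def wye {K : Type} [Field K] (G : Disp K) (a b c : ℕ) : Disp K :=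
  (G.restrict (G.Z.erase a)).addEl a false (fun i => if i = a then 0 else G.S i b - G.S i c)

namespace Shp

variable {K : Type} [Field K]

theorem wye_Z {G : Disp K} {a : ℕ} (b c : ℕ) (ha : a ∈ G.Z) : (wye G a b c).Z = G.Z :=
  insert_erase ha

theorem wye_row (G : Disp K) (a b c i : ℕ) :
    (wye G a b c).row i = if i = a then false else G.row i := rfl

theorem wye_S (G : Disp K) {a i j : ℕ} (b c : ℕ) (hi : i ≠ a) (hj : j ≠ a) :
    (wye G a b c).S i j = G.S i j := by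
  simp [wye, addEl, Disp.restrict, hi, hj]

theorem wye_Sa (G : Disp K) {a b c i : ℕ} (hi : i ≠ a) (rb : G.row b = false)
    (rc : G.row c = false) : (wye G a b c).S i a = G.S i b - G.S i c := by
  by_cases r : G.row i = false
  · rw [G.bip i b (r.trans rb.symm), G.bip i c (r.trans rc.symm)]
    simp [wye, addEl, Disp.restrict, hi, r]
  · simp [wye, addEl, Disp.restrict, hi, r]

/-- the hypotheses of the wye-delta exchange. -/
structure Triad (G : Disp K) (a b c : ℕ) : Prop where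
  ha : a ∈ G.Z
  hb : b ∈ G.Z
  hc : c ∈ G.Z
  hbc : b ≠ c
  ra : G.row a = true
  sb : G.S a b = 1
  sc : G.S a c = 1
  h0 : ∀ j ∈ G.Z, j ≠ b → j ≠ c → G.S a j = 0

namespace Triad

variable {G : Disp K} {a b c : ℕ}

theorem hab (t : Triad G a b c) : a ≠ b := ne_of_S (by rw [t.sb]; exact one_ne_zero)

theorem hac (t : Triad G a b c) : a ≠ c := ne_of_S (by rw [t.sc]; exact one_ne_zero)

theorem rb (t : Triad G a b c) : G.row b = false := by
  have := row_ne_of_S (D := G) (x := a) (y := b) (by rw [t.sb]; exact one_ne_zero)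
  rw [t.ra] at this
  revert this; cases G.row b <;> simp

theorem rc (t : Triad G a b c) : G.row c = false := by
  have := row_ne_of_S (D := G) (x := a) (y := c) (by rw [t.sc]; exact one_ne_zero)
  rw [t.ra] at this
  revert this; cases G.row c <;> simp

/-- the value of a combination of rows at a column does not depend on the column entries. -/
theorem sum_split (t : Triad G a b c) {x x' : ℕ → K}
    (e : ∀ i, i ≠ a → i ≠ b → i ≠ c → x' i = x i) {j : ℕ} (hj : j ≠ a) (rj : G.row j = false) :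
    ∑ i ∈ G.Z, x i * G.S i j = x a * G.S a j + ∑ i ∈ G.Z, x' i * (wye G a b c).S i j := by
  rw [← add_sum_erase _ _ t.ha, ← add_sum_erase _ _ t.ha,
    (wye G a b c).bip a j (by simp [wye_row, hj, rj]), mul_zero, zero_add]
  congr 1
  refine sum_congr rfl fun i hi => ?_
  have ia := (mem_erase.1 hi).1
  rw [wye_S G b c ia hj]
  by_cases i2 : i = b
  · rw [i2, G.bip b j (t.rb.trans rj.symm)]; simp
  by_cases i3 : i = c
  · rw [i3, G.bip c j (t.rc.trans rj.symm)]; simp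
  rw [e i ia i2 i3]

theorem sum_a (t : Triad G a b c) (x' : ℕ → K) :
    ∑ i ∈ G.Z, x' i * (wye G a b c).S i a =
      ∑ i ∈ G.Z, x' i * (wye G a b c).S i b - ∑ i ∈ G.Z, x' i * (wye G a b c).S i c := by
  rw [← sum_sub_distrib]
  refine sum_congr rfl fun i _ => ?_
  by_cases ia : i = a
  · rw [ia, (wye G a b c).bip a a rfl,
      (wye G a b c).bip a b (by simp [wye_row, t.hab.symm, t.rb]),
      (wye G a b c).bip a c (by simp [wye_row, t.hac.symm, t.rc])]
    simp
  · rw [wye_Sa G ia t.rb t.rc, wye_S G b c ia t.hab.symm, wye_S G b c ia t.hac.symm]; ring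

theorem code_iff (t : Triad G a b c) {x x' : ℕ → K}
    (e : ∀ i, i ≠ a → i ≠ b → i ≠ c → x' i = x i) (eb : x b = x' b + x a)
    (ec : x c = x' c + x a) :
    (x ∈ G.code ∧ x' a = x' b - x' c) ↔ x' ∈ (wye G a b c).code := by
  have val : ∀ j ∈ G.Z, j ≠ a → x j = x' j + x a * G.S a j := by
    intro j hj ja
    by_cases j2 : j = b
    · rw [j2, t.sb, mul_one, eb]
    by_cases j3 : j = c
    · rw [j3, t.sc, mul_one, ec]
    rw [t.h0 j hj j2 j3, e j ja j2 j3]; simp
  have out : ∀ i, i ∉ G.Z → x' i = x i := fun i hi =>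
    e i (fun h => hi (h ▸ t.ha)) (fun h => hi (h ▸ t.hb)) (fun h => hi (h ▸ t.hc))
  rw [mem_code, mem_code, wye_Z b c t.ha]
  constructor
  · rintro ⟨⟨h1, h2⟩, h3⟩
    have k : ∀ j ∈ G.Z, j ≠ a → G.row j = false →
        x' j = ∑ i ∈ G.Z, x' i * (wye G a b c).S i j := by
      intro j hj ja rj
      have := h2 j hj rj
      rw [t.sum_split e ja rj, val j hj ja] at this
      linear_combination this
    refine ⟨fun i hi => (out i hi).trans (h1 i hi), fun j hj rj => ?_⟩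
    by_cases ja : j = a
    · rw [ja, t.sum_a, ← k b t.hb t.hab.symm t.rb, ← k c t.hc t.hac.symm t.rc, h3]
    · exact k j hj ja (by simpa [wye_row, ja] using rj)
  · rintro ⟨h1, h2⟩
    refine ⟨⟨fun i hi => (out i hi).symm.trans (h1 i hi), fun j hj rj => ?_⟩, ?_⟩
    · have ja : j ≠ a := by
        rintro rfl; rw [t.ra] at rj; exact absurd rj (by decide)
      rw [t.sum_split e ja rj, val j hj ja, ← h2 j hj (by simp [wye_row, ja, rj])]
      ring
    · rw [h2 a t.ha (by simp [wye_row]), t.sum_a, ← h2 b t.hb (by simp [wye_row, t.hab.symm, t.rb]),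
        ← h2 c t.hc (by simp [wye_row, t.hac.symm, t.rc])]

theorem card_B (t : Triad G a b c) : G.B.card = (wye G a b c).B.card + 1 := by
  have : (wye G a b c).B = G.B.erase a := by
    ext i
    rw [mem_erase, mem_B, mem_B, wye_Z b c t.ha, wye_row]
    by_cases ia : i = a <;> simp [ia]
  rw [this, card_erase_add_one (mem_B.2 ⟨t.ha, t.ra⟩)]

theorem transfer (t : Triad G a b c) {F : Finset ℕ} (fa : a ∉ F) (fb : b ∉ F) (fc : c ∉ F)
    {p q : K → K → K → Prop} (h1 : ∀ x y z, p x y z → q (y - z) (y - x) (z - x))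
    (h2 : ∀ x, p x x x → x = 0) (h3 : ∀ y z, q (y - z) y z → ∃ s, p s (y + s) (z + s)) :
    (∀ w ∈ G.code, (∀ i ∈ F, w i = 0) → p (w a) (w b) (w c) → w = 0) ↔
      ∀ w ∈ (wye G a b c).code, (∀ i ∈ F, w i = 0) → q (w a) (w b) (w c) → w = 0 := by
  have hab := t.hab
  have hac := t.hac
  have hbc := t.hbc
  have nF : ∀ i ∈ F, i ≠ a ∧ i ≠ b ∧ i ≠ c := fun i hi =>
    ⟨fun h => fa (h ▸ hi), fun h => fb (h ▸ hi), fun h => fc (h ▸ hi)⟩
  constructor
  · intro H w hw w0 hq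
    have wa : w a = w b - w c := ((t.code_iff (x' := w)
      (x := fun i => if i = a then 0 else w i) (fun i i1 _ _ => by simp [i1])
      (by simp [hab.symm]) (by simp [hac.symm])).2 hw).2
    rw [wa] at hq
    obtain ⟨s, hs⟩ := h3 _ _ hq
    let x : ℕ → K := fun i => if i = a then s else if i = b then w b + s else
      if i = c then w c + s else w i
    have xa : x a = s := by simp [x]
    have xb : x b = w b + s := by simp [x, hab.symm]
    have xc : x c = w c + s := by simp [x, hac.symm, hbc.symm]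
    have xo : ∀ i, i ≠ a → i ≠ b → i ≠ c → w i = x i := fun i i1 i2 i3 => by simp [x, i1, i2, i3]
    have hx := ((t.code_iff xo (by rw [xa, xb]) (by rw [xa, xc])).2 hw).1
    have x0 := H x hx (fun i hi => by
      rw [← xo i (nF i hi).1 (nF i hi).2.1 (nF i hi).2.2]; exact w0 i hi)
      (by rwa [xa, xb, xc])
    have s0 : s = 0 := by rw [← xa, x0]; rfl
    have b0 : w b = 0 := by have := xb; rw [x0, s0] at this; simpa using this.symm
    have c0 : w c = 0 := by have := xc; rw [x0, s0] at this; simpa using this.symm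
    funext i
    by_cases i1 : i = a
    · rw [i1, wa, b0, c0]; simp
    by_cases i2 : i = b
    · rw [i2, b0]; rfl
    by_cases i3 : i = c
    · rw [i3, c0]; rfl
    rw [xo i i1 i2 i3, x0]
  · intro H w hw w0 hp
    let x : ℕ → K := fun i => if i = a then w b - w c else if i = b then w b - w a else
      if i = c then w c - w a else w i
    have xa : x a = w b - w c := by simp [x]
    have xb : x b = w b - w a := by simp [x, hab.symm]
    have xc : x c = w c - w a := by simp [x, hac.symm, hbc.symm]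
    have xo : ∀ i, i ≠ a → i ≠ b → i ≠ c → x i = w i := fun i i1 i2 i3 => by simp [x, i1, i2, i3]
    have hx := (t.code_iff xo (by rw [xb]; ring) (by rw [xc]; ring)).1
      ⟨hw, by rw [xa, xb, xc]; ring⟩
    have x0 := H x hx (fun i hi => by
      rw [xo i (nF i hi).1 (nF i hi).2.1 (nF i hi).2.2]; exact w0 i hi)
      (by rw [xa, xb, xc]; exact h1 _ _ _ hp)
    have b0 : w b = w a := by have := xb; rw [x0] at this; exact (sub_eq_zero.1 this.symm)
    have c0 : w c = w a := by have := xc; rw [x0] at this; exact (sub_eq_zero.1 this.symm)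
    rw [b0, c0] at hp
    have a0 := h2 _ hp
    funext i
    by_cases i1 : i = a
    · rw [i1, a0]; rfl
    by_cases i2 : i = b
    · rw [i2, b0, a0]; rfl
    by_cases i3 : i = c
    · rw [i3, c0, a0]; rfl
    rw [← xo i i1 i2 i3, x0]

theorem base_iff (t : Triad G a b c) {F A A' : Finset ℕ} (fa : a ∉ F) (fb : b ∉ F) (fc : c ∉ F)
    (hA : A ⊆ G.Z) (hA' : A' ⊆ G.Z) (hcard : A.card = A'.card + 1)
    {p q : K → K → K → Prop}
    (eA : ∀ w : ℕ → K, (∀ i ∈ A, w i = 0) ↔ (∀ i ∈ F, w i = 0) ∧ p (w a) (w b) (w c))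
    (eA' : ∀ w : ℕ → K, (∀ i ∈ A', w i = 0) ↔ (∀ i ∈ F, w i = 0) ∧ q (w a) (w b) (w c))
    (h1 : ∀ x y z, p x y z → q (y - z) (y - x) (z - x))
    (h2 : ∀ x, p x x x → x = 0) (h3 : ∀ y z, q (y - z) y z → ∃ s, p s (y + s) (z + s)) :
    G.Base A ↔ (wye G a b c).Base A' := by
  have k := t.transfer fa fb fc h1 h2 h3
  unfold Base
  rw [wye_Z b c t.ha, t.card_B, hcard]
  simp only [eA, eA', and_imp, hA, hA', true_and, add_left_inj]
  rw [k]

theorem tri (t : Triad G a b c) : (wye G a b c).Tri {a, b, c} := by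
  have hab := t.hab
  have hac := t.hac
  have hbc := t.hbc
  refine ⟨by rw [card_insert_of_notMem (by simp [hab, hac]), card_pair hbc],
    fun i => if i = a then 1 else if i = b then -1 else if i = c then 1 else 0, ?_, ?_⟩
  · rw [mem_flip_code, wye_Z b c t.ha]
    constructor
    · intro i hi
      have i1 : i ≠ a := fun h => hi (h ▸ t.ha)
      have i2 : i ≠ b := fun h => hi (h ▸ t.hb)
      have i3 : i ≠ c := fun h => hi (h ▸ t.hc)
      simp [i1, i2, i3]
    · intro i _ ri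
      have i1 : i ≠ a := by rintro rfl; simp [wye_row] at ri
      rw [wye_row, if_neg i1] at ri
      have i2 : i ≠ b := by rintro rfl; rw [t.rb] at ri; exact absurd ri (by decide)
      have i3 : i ≠ c := by rintro rfl; rw [t.rc] at ri; exact absurd ri (by decide)
      have hT : ({a, b, c} : Finset ℕ) ⊆ G.Z := by
        intro j hj
        simp only [mem_insert, mem_singleton] at hj
        rcases hj with rfl | rfl | rfl
        exacts [t.ha, t.hb, t.hc]
      rw [← sum_subset hT (fun j _ hj => by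
        simp only [mem_insert, mem_singleton, not_or] at hj
        simp [hj.1, hj.2.1, hj.2.2]), sum_insert (by simp [hab, hac]), sum_pair hbc,
        (wye G a b c).skew a i, wye_Sa G i1 t.rb t.rc, wye_S G b c hab.symm i1,
        wye_S G b c hac.symm i1, G.skew b i, G.skew c i]
      simp only [i1, i2, i3, hab.symm, hac.symm, hbc.symm, if_true, if_false]
      ring
  · intro i
    by_cases i1 : i = a
    · simp [i1]
    by_cases i2 : i = b
    · simp [i2, hab.symm]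
    by_cases i3 : i = c
    · simp [i3, hac.symm, hbc.symm]
    simp [i1, i2, i3]

theorem tri_keep (t : Triad G a b c) {T : Finset ℕ} (h : G.Tri T) (ha : a ∉ T) :
    (wye G a b c).Tri T := by
  obtain ⟨h3, d, hd, hs⟩ := h
  refine ⟨h3, d, ?_, hs⟩
  rw [mem_flip_code] at hd ⊢
  rw [wye_Z b c t.ha]
  refine ⟨hd.1, fun i hi ri => ?_⟩
  have i1 : i ≠ a := by rintro rfl; simp [wye_row] at ri
  rw [wye_row, if_neg i1] at ri
  rw [hd.2 i hi ri]
  refine sum_congr rfl fun j _ => ?_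
  by_cases j1 : j = a
  · have : d a = 0 := by
      by_contra hn; exact ha ((hs a).1 hn)
    rw [j1, this]; simp
  · rw [wye_S G b c j1 i1]

theorem not_base (t : Triad G a b c) {F : Finset ℕ} (fa : a ∉ F) (fb : b ∉ F) (fc : c ∉ F) :
    ¬ G.Base F := by
  rintro ⟨h1, -, h3⟩
  have k := h3 _ (row_word t.ha t.ra) (fun i hi => by
    have i1 : i ≠ a := fun h => fa (h ▸ hi)
    simp [i1, h1 hi, t.h0 i (h1 hi) (fun h => fb (h ▸ hi)) (fun h => fc (h ▸ hi))])
  have := congrFun k a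
  simp at this

theorem inds (t : Triad G a b c) {F : Finset ℕ} (fZ : F ⊆ G.Z) (fa : a ∉ F) (fb : b ∉ F)
    (fc : c ∉ F) :
    (G.Base (insert a F) ↔ (wye G a b c).Base F) ∧ (G.Base (insert b F) ↔ (wye G a b c).Base F) ∧
    (G.Base (insert c F) ↔ (wye G a b c).Base F) ∧
    (G.Base (insert a (insert b F)) ↔ (wye G a b c).Base (insert b F)) ∧
    (G.Base (insert a (insert c F)) ↔ (wye G a b c).Base (insert c F)) ∧
    (G.Base (insert b (insert c F)) ↔ (wye G a b c).Base (insert a F)) ∧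
    (G.Base (insert a (insert b (insert c F))) ↔ (wye G a b c).Base (insert b (insert c F))) := by
  have hab := t.hab
  have hac := t.hac
  have hbc := t.hbc
  have ha := t.ha
  have fab : a ∉ insert b F := by simp [hab, fa]
  have fac : a ∉ insert c F := by simp [hac, fa]
  have fbc : b ∉ insert c F := by simp [hbc, fb]
  have fabc : a ∉ insert b (insert c F) := by simp [hab, hac, fa]
  have za := insert_subset ha fZ
  have zb := insert_subset t.hb fZ
  have zc := insert_subset t.hc fZ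
  have zbc := insert_subset t.hb zc
  refine ⟨?_, ?_, ?_, ?_, ?_, ?_, ?_⟩
  · exact t.base_iff fa fb fc za fZ (card_insert_of_notMem fa) (p := fun x _ _ => x = 0)
      (q := fun _ _ _ => True) (fun w => by rw [forall_mem_insert, and_comm])
      (fun w => by simp) (fun _ _ _ _ => trivial) (fun _ h => h) (fun _ _ _ => ⟨0, rfl⟩)
  · exact t.base_iff fa fb fc zb fZ (card_insert_of_notMem fb) (p := fun _ x _ => x = 0)
      (q := fun _ _ _ => True) (fun w => by rw [forall_mem_insert, and_comm])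
      (fun w => by simp) (fun _ _ _ _ => trivial) (fun _ h => h)
      (fun u _ _ => ⟨-u, by simp⟩)
  · exact t.base_iff fa fb fc zc fZ (card_insert_of_notMem fc) (p := fun _ _ x => x = 0)
      (q := fun _ _ _ => True) (fun w => by rw [forall_mem_insert, and_comm])
      (fun w => by simp) (fun _ _ _ _ => trivial) (fun _ h => h)
      (fun _ u _ => ⟨-u, by simp⟩)
  · exact t.base_iff fa fb fc (insert_subset ha zb) zb (card_insert_of_notMem fab)
      (p := fun x u _ => x = 0 ∧ u = 0) (q := fun _ u _ => u = 0)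
      (fun w => by rw [forall_mem_insert, forall_mem_insert, ← and_assoc, and_comm])
      (fun w => by rw [forall_mem_insert, and_comm])
      (fun _ _ _ h => by simp [h.1, h.2]) (fun _ h => h.1)
      (fun _ _ h => ⟨0, rfl, by simpa using h⟩)
  · exact t.base_iff fa fb fc (insert_subset ha zc) zc (card_insert_of_notMem fac)
      (p := fun x _ u => x = 0 ∧ u = 0) (q := fun _ _ u => u = 0)
      (fun w => by rw [forall_mem_insert, forall_mem_insert, ← and_assoc, and_comm])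
      (fun w => by rw [forall_mem_insert, and_comm])
      (fun _ _ _ h => by simp [h.1, h.2]) (fun _ h => h.1)
      (fun _ _ h => ⟨0, rfl, by simpa using h⟩)
  · exact t.base_iff fa fb fc zbc za
      (by rw [card_insert_of_notMem fbc, card_insert_of_notMem fc, card_insert_of_notMem fa])
      (p := fun _ x u => x = 0 ∧ u = 0) (q := fun u _ _ => u = 0)
      (fun w => by rw [forall_mem_insert, forall_mem_insert, ← and_assoc, and_comm])
      (fun w => by rw [forall_mem_insert, and_comm])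
      (fun _ _ _ h => by simp [h.1, h.2]) (fun _ h => h.1)
      (fun u v h => ⟨-u, by simp, by linear_combination -h⟩)
  · exact t.base_iff fa fb fc (insert_subset ha zbc) zbc (card_insert_of_notMem fabc)
      (p := fun x u v => x = 0 ∧ u = 0 ∧ v = 0) (q := fun _ u v => u = 0 ∧ v = 0)
      (fun w => by
        rw [forall_mem_insert, forall_mem_insert, forall_mem_insert]
        exact ⟨fun h => ⟨h.2.2.2, h.1, h.2.1, h.2.2.1⟩, fun h => ⟨h.2.1, h.2.2.1, h.2.2.2, h.1⟩⟩)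
      (fun w => by rw [forall_mem_insert, forall_mem_insert, ← and_assoc, and_comm])
      (fun _ _ _ h => by simp [h.1, h.2.1, h.2.2]) (fun _ h => h.1)
      (fun _ _ h => ⟨0, rfl, by simpa using h⟩)

end Triad

theorem wye_alg {p i0 ia ib ic iab u v w : ℝ} (hy : u + v + w ≠ 0) :
    p * (0 + i0 * u + i0 * v + i0 * w + ib * (u * v) + ic * (u * w) + ia * (v * w) +
      iab * (u * v * w)) = (u + v + w) * (p * (i0 + ia * (v * w / (u + v + w)) +
        ib * (u * v / (u + v + w)) + ic * (u * w / (u + v + w)) +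
        iab * (v * w / (u + v + w) * (u * v / (u + v + w))) +
        iab * (v * w / (u + v + w) * (u * w / (u + v + w))) +
        iab * (u * v / (u + v + w) * (u * w / (u + v + w))) +
        0 * (v * w / (u + v + w) * (u * v / (u + v + w)) * (u * w / (u + v + w))))) := by
  field_simp
  ring

end Shp

theorem W_wye {K : Type} [Field K] {G : Disp K} {a b c : ℕ} (ha : a ∈ G.Z) (hb : b ∈ G.Z)
    (hc : c ∈ G.Z) (hbc : b ≠ c) (ra : G.row a = true) (sb : G.S a b = 1) (sc : G.S a c = 1)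
    (h0 : ∀ j ∈ G.Z, j ≠ b → j ≠ c → G.S a j = 0) {y : ℕ → ℝ} (hy : y a + y b + y c ≠ 0) :
    G.W y = (y a + y b + y c) * (wye G a b c).W (fun i =>
      if i = a then y b * y c / (y a + y b + y c) else
      if i = b then y a * y b / (y a + y b + y c) else
      if i = c then y a * y c / (y a + y b + y c) else y i) := by
  have t : Shp.Triad G a b c := ⟨ha, hb, hc, hbc, ra, sb, sc, h0⟩
  have hab := t.hab
  have hac := t.hac
  have hZ := Shp.wye_Z b c ha
  generalize hz : (fun i => if i = a then y b * y c / (y a + y b + y c) else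
      if i = b then y a * y b / (y a + y b + y c) else
      if i = c then y a * y c / (y a + y b + y c) else y i) = z
  have za : z a = y b * y c / (y a + y b + y c) := by rw [← hz]; simp
  have zb : z b = y a * y b / (y a + y b + y c) := by rw [← hz]; simp [hab.symm]
  have zc : z c = y a * y c / (y a + y b + y c) := by rw [← hz]; simp [hac.symm, hbc.symm]
  have zo : ∀ i, i ≠ a → i ≠ b → i ≠ c → z i = y i := fun i i1 i2 i3 => by
    rw [← hz]; simp [i1, i2, i3]
  rw [Shp.W_three G hab hac hbc ha hb hc, Shp.W_three (wye G a b c) hab hac hbc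
    (by rwa [hZ]) (by rwa [hZ]) (by rwa [hZ]), hZ, mul_sum]
  refine sum_congr rfl fun F hF => ?_
  have hF' := mem_powerset.1 hF
  have fZ : F ⊆ G.Z := fun i h => (Shp.mem_rest.1 (hF' h)).1
  have fa : a ∉ F := fun h => (Shp.mem_rest.1 (hF' h)).2.1 rfl
  have fb : b ∉ F := fun h => (Shp.mem_rest.1 (hF' h)).2.2.1 rfl
  have fc : c ∉ F := fun h => (Shp.mem_rest.1 (hF' h)).2.2.2 rfl
  have e0 : ∏ i ∈ F, z i = ∏ i ∈ F, y i := by
    refine prod_congr rfl fun i hi => ?_
    have := Shp.mem_rest.1 (hF' hi)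
    exact zo i this.2.1 this.2.2.1 this.2.2.2
  obtain ⟨k1, k2, k3, k4, k5, k6, k7⟩ := t.inds fZ fa fb fc
  obtain ⟨m1, m2⟩ := Shp.tri_bases hab hac hbc t.tri fa fb fc
  have n3 : ¬ (wye G a b c).Base (insert a (insert b (insert c F))) :=
    Shp.tri_not_base t.tri (insert_subset_insert _ (insert_subset_insert _
      (singleton_subset_iff.2 (mem_insert_self _ _))))
  rw [e0, Shp.ind_zero (t.not_base fa fb fc), Shp.ind_congr k1, Shp.ind_congr k2,
    Shp.ind_congr k3, Shp.ind_congr k4, Shp.ind_congr k5, Shp.ind_congr k6, Shp.ind_congr k7,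
    Shp.ind_congr m1, Shp.ind_congr m2, Shp.ind_zero n3, za, zb, zc]
  exact Shp.wye_alg hy

/-- successive wye-delta exchanges, each after a change of display and signs. -/
inductive Wyes : List (ℕ × ℕ × ℕ) → Disp F3 → Disp F3 → Prop
  | nil (G : Disp F3) : Wyes [] G G
  | cons (a b c : ℕ) (l : List (ℕ × ℕ × ℕ)) (G G1 G2 H : Disp F3) (ε : ℕ → F3) : G.Reach G1 →
      (∀ i, ε i * ε i = 1) → Same (G1.scale ε) G2 → a ∈ G2.Z → b ∈ G2.Z → c ∈ G2.Z → b ≠ c →
      G2.row a = true → G2.S a b = 1 → G2.S a c = 1 →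
      (∀ j ∈ G2.Z, j ≠ b → j ≠ c → G2.S a j = 0) →
      Wyes l (wye G2 a b c) H → Wyes ((a, b, c) :: l) G H

namespace Shp

/-- the set of a triple. -/
def tset (t : ℕ × ℕ × ℕ) : Finset ℕ := {t.1, t.2.1, t.2.2}

/-- the sum over a triple. -/
def sg (y : ℕ → ℝ) (t : ℕ × ℕ × ℕ) : ℝ := y t.1 + y t.2.1 + y t.2.2

/-- the substitution of one wye-delta exchange. -/
noncomputable def ph (t : ℕ × ℕ × ℕ) (y : ℕ → ℝ) : ℕ → ℝ := fun i =>
  if i = t.1 then y t.2.1 * y t.2.2 / (y t.1 + y t.2.1 + y t.2.2) else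
  if i = t.2.1 then y t.1 * y t.2.1 / (y t.1 + y t.2.1 + y t.2.2) else
  if i = t.2.2 then y t.1 * y t.2.2 / (y t.1 + y t.2.1 + y t.2.2) else y i

/-- the substitution of a list of exchanges. -/
noncomputable def Ph : List (ℕ × ℕ × ℕ) → (ℕ → ℝ) → ℕ → ℝ
  | [], y => y
  | t :: l, y => Ph l (ph t y)

theorem ph_pos (t : ℕ × ℕ × ℕ) {y : ℕ → ℝ} (hy : ∀ i, 0 < y i) (i : ℕ) : 0 < ph t y i := by
  have h1 := hy t.1
  have h2 := hy t.2.1
  have h3 := hy t.2.2
  unfold ph
  split_ifs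
  · positivity
  · positivity
  · positivity
  · exact hy i

theorem Ph_pos (l : List (ℕ × ℕ × ℕ)) : ∀ {y : ℕ → ℝ}, (∀ i, 0 < y i) → ∀ i, 0 < Ph l y i := by
  induction l with
  | nil => intro y hy i; exact hy i
  | cons t l ih => intro y hy i; exact ih (ph_pos t hy) i

theorem ph_out {t : ℕ × ℕ × ℕ} {i : ℕ} (h : i ∉ tset t) (y : ℕ → ℝ) : ph t y i = y i := by
  simp only [tset, mem_insert, mem_singleton, not_or] at h
  simp [ph, h.1, h.2.1, h.2.2]

theorem sg_loc {t : ℕ × ℕ × ℕ} {y z : ℕ → ℝ} (h : ∀ j ∈ tset t, y j = z j) : sg y t = sg z t := by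
  unfold sg
  rw [h t.1 (by simp [tset]), h t.2.1 (by simp [tset]), h t.2.2 (by simp [tset])]

theorem ph_loc {t : ℕ × ℕ × ℕ} {y z : ℕ → ℝ} (h : ∀ j ∈ tset t, y j = z j) {i : ℕ}
    (hi : i ∈ tset t) : ph t y i = ph t z i := by
  unfold ph
  rw [h t.1 (by simp [tset]), h t.2.1 (by simp [tset]), h t.2.2 (by simp [tset]), h i hi]

theorem Ph_out (l : List (ℕ × ℕ × ℕ)) {i : ℕ} :
    (∀ t ∈ l, i ∉ tset t) → ∀ y : ℕ → ℝ, Ph l y i = y i := by
  induction l with
  | nil => intro _ y; rfl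
  | cons t l ih =>
    intro h y
    rw [Ph, ih (fun s hs => h s (List.mem_cons_of_mem _ hs)), ph_out (h t List.mem_cons_self)]

theorem Ph_in (l : List (ℕ × ℕ × ℕ)) : (l.map tset).Pairwise Disjoint → ∀ t ∈ l, ∀ i ∈ tset t,
    ∀ y : ℕ → ℝ, Ph l y i = ph t y i := by
  induction l with
  | nil => intro _ t ht; simp at ht
  | cons s l ih =>
    intro hd t ht i hi y
    rw [List.map_cons, List.pairwise_cons] at hd
    have hd1 : ∀ t ∈ l, Disjoint (tset s) (tset t) := fun t ht =>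
      hd.1 _ (List.mem_map_of_mem ht)
    rw [Ph]
    rcases List.mem_cons.1 ht with rfl | ht
    · exact Ph_out l (fun u hu => disjoint_left.1 (hd1 u hu) hi) _
    · rw [ih hd.2 t ht i hi]
      exact ph_loc (fun j hj => ph_out (disjoint_right.1 (hd1 t ht) hj) y) hi

theorem Ph_loc {l : List (ℕ × ℕ × ℕ)} (hd : (l.map tset).Pairwise Disjoint) {y z : ℕ → ℝ} {i : ℕ}
    (h : y i = z i) (h' : ∀ t ∈ l, i ∈ tset t → ∀ j ∈ tset t, y j = z j) :
    Ph l y i = Ph l z i := by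
  by_cases k : ∃ t ∈ l, i ∈ tset t
  · obtain ⟨t, ht, hi⟩ := k
    rw [Ph_in l hd t ht i hi, Ph_in l hd t ht i hi]
    exact ph_loc (h' t ht hi) hi
  · have k' : ∀ t ∈ l, i ∉ tset t := fun t ht hi => k ⟨t, ht, hi⟩
    rw [Ph_out l k', Ph_out l k', h]

theorem wyes_W {l : List (ℕ × ℕ × ℕ)} {G H : Disp F3} (hw : Wyes l G H) :
    (l.map tset).Pairwise Disjoint → ∀ y : ℕ → ℝ, (∀ i, 0 < y i) →
      G.W y = (l.map (sg y)).prod * H.W (Ph l y) := by
  induction hw with
  | nil G => intro _ y _; simp [Ph]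
  | cons a b c l G G1 G2 H ε hr hε hs ha hb hc hbc ra sb sc h0 _ ih =>
    intro hd y hy
    rw [List.map_cons, List.pairwise_cons] at hd
    have hσ : y a + y b + y c ≠ 0 := (add_pos (add_pos (hy a) (hy b)) (hy c)).ne'
    have e1 : G.W = G2.W := by rw [hs.W_eq, W_scale _ hε, hr.W_eq]
    have e2 : G2.W y = (y a + y b + y c) * (wye G2 a b c).W (ph (a, b, c) y) :=
      W_wye ha hb hc hbc ra sb sc h0 hσ
    have e3 : l.map (sg (ph (a, b, c) y)) = l.map (sg y) := by
      refine List.map_congr_left fun t ht => sg_loc fun j hj => ph_out ?_ y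
      exact disjoint_right.1 (hd.1 _ (List.mem_map_of_mem ht)) hj
    rw [e1, e2, ih hd.2 _ (ph_pos _ hy), e3, List.map_cons, List.prod_cons, Ph, mul_assoc]
    rfl

theorem tri_move {G G1 G2 : Disp F3} {ε : ℕ → F3} (hr : G.Reach G1) (hε : ∀ i, ε i * ε i = 1)
    (hs : Same (G1.scale ε) G2) {T : Finset ℕ} (h : G.Tri T) : G2.Tri T := by
  obtain ⟨h3, d, hd, hT⟩ := h
  refine ⟨h3, fun i => ε i * d i, ?_, fun i => ?_⟩
  · rw [hs.flip.code_eq, flip_scale, mem_code_scale hε, hr.flip_code_eq]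
    have : (fun i => ε i * (ε i * d i)) = d := by
      funext i; rw [← mul_assoc, hε, one_mul]
    rwa [this]
  · have : ε i ≠ 0 := by
      intro e; have := hε i; rw [e, mul_zero] at this; exact zero_ne_one this
    rw [← hT i]
    simp [this]

theorem wyes_tri {l : List (ℕ × ℕ × ℕ)} {G H : Disp F3} (hw : Wyes l G H) :
    H.Z = G.Z ∧ (∀ T, G.Tri T → (∀ t ∈ l, t.1 ∉ T) → H.Tri T) ∧
      ((l.map tset).Pairwise Disjoint → ∀ t ∈ l, H.Tri (tset t) ∧ t.1 ≠ t.2.1 ∧ t.1 ≠ t.2.2 ∧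
        t.2.1 ≠ t.2.2) := by
  induction hw with
  | nil G => exact ⟨rfl, fun T h _ => h, fun _ t ht => by simp at ht⟩
  | cons a b c l G G1 G2 H ε hr hε hs ha hb hc hbc ra sb sc h0 _ ih =>
    have t : Triad G2 a b c := ⟨ha, hb, hc, hbc, ra, sb, sc, h0⟩
    obtain ⟨i1, i2, i3⟩ := ih
    refine ⟨?_, fun T hT h => ?_, fun hd s hs' => ?_⟩
    · rw [i1, wye_Z b c ha, hs.1]; exact hr.Z_eq
    · exact i2 T (t.tri_keep (tri_move hr hε hs hT) (h (a, b, c) List.mem_cons_self))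
        (fun s hs' => h s (List.mem_cons_of_mem _ hs'))
    · rw [List.map_cons, List.pairwise_cons] at hd
      rcases List.mem_cons.1 hs' with rfl | hs'
      · refine ⟨i2 _ t.tri fun u hu => ?_, t.hab, t.hac, hbc⟩
        exact disjoint_right.1 (hd.1 _ (List.mem_map_of_mem hu)) (by simp [tset])
      · exact i3 hd.2 s hs'

theorem sg_four {y τ τ' : ℕ → ℝ} {B B' : Finset ℕ} (h : ∀ i, i ∉ B → τ i = 0)
    (h' : ∀ i, i ∉ B' → τ' i = 0) (l : List (ℕ × ℕ × ℕ)) :
    (∀ t ∈ l, Disjoint (tset t) B ∨ Disjoint (tset t) B') →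
    (l.map (sg fun i => (y i)⁻¹)).prod * (l.map (sg fun i => ((y + τ + τ') i)⁻¹)).prod =
      (l.map (sg fun i => ((y + τ) i)⁻¹)).prod * (l.map (sg fun i => ((y + τ') i)⁻¹)).prod := by
  induction l with
  | nil => intro _; simp
  | cons t l ih =>
    intro hl
    have k := ih fun s hs => hl s (List.mem_cons_of_mem _ hs)
    simp only [List.map_cons, List.prod_cons]
    have e : sg (fun i => (y i)⁻¹) t * sg (fun i => ((y + τ + τ') i)⁻¹) t =
        sg (fun i => ((y + τ) i)⁻¹) t * sg (fun i => ((y + τ') i)⁻¹) t := by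
      rcases hl t List.mem_cons_self with d | d
      · rw [sg_loc (y := fun i => ((y + τ + τ') i)⁻¹) (z := fun i => ((y + τ') i)⁻¹)
          (fun j hj => by simp [h j (disjoint_left.1 d hj)]),
          sg_loc (y := fun i => ((y + τ) i)⁻¹) (z := fun i => (y i)⁻¹)
          (fun j hj => by simp [h j (disjoint_left.1 d hj)])]
      · rw [sg_loc (y := fun i => ((y + τ + τ') i)⁻¹) (z := fun i => ((y + τ) i)⁻¹)
          (fun j hj => by simp [h' j (disjoint_left.1 d hj)]),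
          sg_loc (y := fun i => ((y + τ') i)⁻¹) (z := fun i => (y i)⁻¹)
          (fun j hj => by simp [h' j (disjoint_left.1 d hj)]), mul_comm]
    calc _ = (sg (fun i => (y i)⁻¹) t * sg (fun i => ((y + τ + τ') i)⁻¹) t) *
          ((l.map (sg fun i => (y i)⁻¹)).prod * (l.map (sg fun i => ((y + τ + τ') i)⁻¹)).prod) := by
          ring
      _ = _ := by rw [e, k]; ring

theorem sg_one {y z : ℕ → ℝ} {t : ℕ × ℕ × ℕ} (h : ∀ i, i ∉ tset t → y i = z i)
    (l : List (ℕ × ℕ × ℕ)) : (l.map tset).Pairwise Disjoint → t ∈ l →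
    (l.map (sg y)).prod * sg z t = (l.map (sg z)).prod * sg y t := by
  induction l with
  | nil => intro _ ht; simp at ht
  | cons s l ih =>
    intro hd ht
    rw [List.map_cons, List.pairwise_cons] at hd
    have hd1 : ∀ t ∈ l, Disjoint (tset s) (tset t) := fun t ht =>
      hd.1 _ (List.mem_map_of_mem ht)
    simp only [List.map_cons, List.prod_cons]
    rcases List.mem_cons.1 ht with rfl | ht
    · have : l.map (sg y) = l.map (sg z) :=
        List.map_congr_left fun u hu => sg_loc fun j hj => h j (disjoint_right.1 (hd1 u hu) hj)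
      rw [this]; ring
    · rw [sg_loc (y := y) (z := z) (fun j hj => h j (disjoint_left.1 (hd1 t ht) hj)), mul_assoc,
        ih hd.2 ht, mul_assoc]

theorem sg_pos {y : ℕ → ℝ} (hy : ∀ i, 0 < y i) (l : List (ℕ × ℕ × ℕ)) :
    0 < (l.map (sg y)).prod := by
  refine List.prod_pos fun x hx => ?_
  obtain ⟨t, -, rfl⟩ := List.mem_map.1 hx
  exact add_pos (add_pos (hy _) (hy _)) (hy _)

/-- the blocks: a triple of the list or a single element outside all triples. -/
def Blk (l : List (ℕ × ℕ × ℕ)) (B : Finset ℕ) : Prop :=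
  (∃ e, B = {e} ∧ ∀ t ∈ l, e ∉ tset t) ∨ ∃ t ∈ l, B = tset t

theorem pair_cases {l : List (ℕ × ℕ × ℕ)} (hd : (l.map tset).Pairwise Disjoint) {s t : ℕ × ℕ × ℕ}
    (hs : s ∈ l) (ht : t ∈ l) : tset s = tset t ∨ Disjoint (tset s) (tset t) := by
  induction l with
  | nil => simp at hs
  | cons u l ih =>
    rw [List.map_cons, List.pairwise_cons] at hd
    rcases List.mem_cons.1 hs with e1 | h1
    · rcases List.mem_cons.1 ht with e2 | h2
      · exact Or.inl (by rw [e1, e2])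
      · exact Or.inr (e1 ▸ hd.1 _ (List.mem_map_of_mem h2))
    · rcases List.mem_cons.1 ht with e2 | h2
      · exact Or.inr (e2 ▸ (hd.1 _ (List.mem_map_of_mem h1)).symm)
      · exact ih hd.2 h1 h2

theorem Blk.cases {l : List (ℕ × ℕ × ℕ)} (hd : (l.map tset).Pairwise Disjoint) {B : Finset ℕ}
    (h : Blk l B) {t : ℕ × ℕ × ℕ} (ht : t ∈ l) : tset t = B ∨ Disjoint (tset t) B := by
  rcases h with ⟨e, rfl, he⟩ | ⟨s, hs, rfl⟩
  · exact Or.inr (disjoint_singleton_right.2 (he t ht))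
  · exact pair_cases hd ht hs

theorem Blk.two {l : List (ℕ × ℕ × ℕ)} (hd : (l.map tset).Pairwise Disjoint) {B B' : Finset ℕ}
    (h : Blk l B) (h' : Blk l B') : B = B' ∨ Disjoint B B' := by
  rcases h with ⟨e, rfl, he⟩ | ⟨s, hs, rfl⟩
  · rcases h' with ⟨e', rfl, -⟩ | ⟨s, hs, rfl⟩
    · by_cases k : e = e'
      · exact Or.inl (by rw [k])
      · exact Or.inr (disjoint_singleton.2 k)
    · exact Or.inr (disjoint_singleton_left.2 (he s hs))
  · exact h'.cases hd hs

theorem Blk.loc_out {l : List (ℕ × ℕ × ℕ)} (hd : (l.map tset).Pairwise Disjoint) {B : Finset ℕ}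
    (h : Blk l B) {y z : ℕ → ℝ} (e : ∀ i, i ∉ B → y i = z i) {i : ℕ} (hi : i ∉ B) :
    Ph l y i = Ph l z i := by
  refine Ph_loc hd (e i hi) fun t ht it j hj => e j ?_
  rcases h.cases hd ht with k | k
  · exact absurd (k ▸ it) hi
  · exact disjoint_left.1 k hj

theorem ph_inv {a b c : ℕ} (hab : a ≠ b) (hac : a ≠ c) (hbc : b ≠ c) {y : ℕ → ℝ}
    (hy : ∀ i, 0 < y i) :
    ph (a, b, c) (fun i => (y i)⁻¹) a = y a / (y a * y b + y a * y c + y b * y c) ∧
    ph (a, b, c) (fun i => (y i)⁻¹) b = y c / (y a * y b + y a * y c + y b * y c) ∧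
    ph (a, b, c) (fun i => (y i)⁻¹) c = y b / (y a * y b + y a * y c + y b * y c) := by
  have h1 := hy a
  have h2 := hy b
  have h3 := hy c
  simp only [ph, if_true, hab.symm, hac.symm, hbc.symm, if_false]
  refine ⟨?_, ?_, ?_⟩ <;> (field_simp; ring)

theorem Blk.iso {l : List (ℕ × ℕ × ℕ)} (hd : (l.map tset).Pairwise Disjoint)
    (hn : ∀ t ∈ l, t.1 ≠ t.2.1 ∧ t.1 ≠ t.2.2 ∧ t.2.1 ≠ t.2.2) {B : Finset ℕ} (h : Blk l B)
    {y τ : ℕ → ℝ} (hτ : Iso B τ) (hy : ∀ i, 0 < y i) (hy' : ∀ i, 0 < (y + τ) i) :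
    Iso B (Ph l (fun i => (y i)⁻¹) - Ph l (fun i => ((y + τ) i)⁻¹)) := by
  have out : ∀ i, i ∉ B → (Ph l (fun i => (y i)⁻¹) - Ph l (fun i => ((y + τ) i)⁻¹)) i = 0 := by
    intro i hi
    rw [Pi.sub_apply, h.loc_out hd (y := fun i => (y i)⁻¹) (z := fun i => ((y + τ) i)⁻¹)
      (fun j hj => by simp [hτ.1 j hj]) hi, sub_self]
  rcases h with ⟨e, rfl, he⟩ | ⟨⟨a, b, c⟩, hs, rfl⟩
  · refine ⟨out, by simp, ?_⟩
    have h0 : 0 ≤ τ e := by simpa using hτ.2.2
    rw [sum_singleton, Pi.sub_apply, Ph_out l he, Ph_out l he, sub_nonneg]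
    exact inv_anti₀ (hy e) (by simpa using h0)
  · obtain ⟨hab, hac, hbc⟩ := hn _ hs
    simp only at hab hac hbc
    obtain ⟨-, n, s⟩ := (iso3 hab hac hbc).1 hτ
    refine (iso3 hab hac hbc).2 ⟨fun i i1 i2 i3 => out i (by simp [tset, i1, i2, i3]), ?_⟩
    obtain ⟨p1, p2, p3⟩ := ph_inv hab hac hbc hy
    obtain ⟨q1, q2, q3⟩ := ph_inv hab hac hbc hy'
    simp only [Pi.sub_apply]
    rw [Ph_in l hd _ hs a (by simp [tset]), Ph_in l hd _ hs a (by simp [tset]),
      Ph_in l hd _ hs b (by simp [tset]), Ph_in l hd _ hs b (by simp [tset]),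
      Ph_in l hd _ hs c (by simp [tset]), Ph_in l hd _ hs c (by simp [tset]),
      p1, p2, p3, q1, q2, q3]
    exact inv_iso (hy a) (hy b) (hy c) (hy' a) (hy' b) (hy' c) n s

theorem W_inv {D H : Disp F3} {l : List (ℕ × ℕ × ℕ)} (hw : Wyes l D.flip H)
    (hd : (l.map tset).Pairwise Disjoint) {y : ℕ → ℝ} (hy : ∀ i, 0 < y i) :
    D.W y = (∏ i ∈ D.Z, y i) * (l.map (sg fun i => (y i)⁻¹)).prod *
      H.W (Ph l fun i => (y i)⁻¹) := by
  rw [W_flip D (fun i _ => (hy i).ne'), wyes_W hw hd _ (fun i => inv_pos.2 (hy i)), mul_assoc]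

theorem qf_two {D H : Disp F3} {l : List (ℕ × ℕ × ℕ)} (hw : Wyes l D.flip H)
    (hd : (l.map tset).Pairwise Disjoint) {B B' : Finset ℕ} (h : Blk l B) (h' : Blk l B')
    (hBB : Disjoint B B') (hq : QF H.W B B') : QF D.W B B' := by
  refine QF.of_pos D.W_continuous ?_
  intro y τ τ' i1 i2 p0 p1 p2 p3
  have hn : ∀ t ∈ l, t.1 ≠ t.2.1 ∧ t.1 ≠ t.2.2 ∧ t.2.1 ≠ t.2.2 :=
    fun t ht => ((wyes_tri hw).2.2 hd t ht).2
  have p1' : ∀ i, 0 < (y + τ) i := p1
  have p2' : ∀ i, 0 < (y + τ') i := p2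
  have p3' : ∀ i, 0 < (y + τ + τ') i := p3
  have e : y + τ' + τ = y + τ + τ' := add_right_comm _ _ _
  have j1 := h.iso hd hn i1 p2' (by rwa [e])
  have j2 := h'.iso hd hn i2 p1' p3'
  rw [e] at j1
  set u0 := Ph l (fun i => (y i)⁻¹) with hu0
  set u1 := Ph l (fun i => ((y + τ) i)⁻¹) with hu1
  set u2 := Ph l (fun i => ((y + τ') i)⁻¹) with hu2
  set u3 := Ph l (fun i => ((y + τ + τ') i)⁻¹) with hu3
  have q0 : ∀ i, 0 < u0 i := Ph_pos l fun i => inv_pos.2 (p0 i)
  have q1 : ∀ i, 0 < u1 i := Ph_pos l fun i => inv_pos.2 (p1' i)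
  have q2 : ∀ i, 0 < u2 i := Ph_pos l fun i => inv_pos.2 (p2' i)
  have q3 : ∀ i, 0 < u3 i := Ph_pos l fun i => inv_pos.2 (p3' i)
  have par : u3 + (u2 - u3) + (u1 - u3) = u0 := by
    funext i
    simp only [Pi.add_apply, Pi.sub_apply]
    by_cases hi : i ∈ B
    · have hi' : i ∉ B' := disjoint_left.1 hBB hi
      have a1 : u0 i = u2 i := h'.loc_out hd (fun j hj => by simp [i2.1 j hj]) hi'
      have a2 : u1 i = u3 i := h'.loc_out hd (fun j hj => by simp [i2.1 j hj]) hi'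
      rw [a1, a2]; ring
    · have a1 : u0 i = u1 i := h.loc_out hd (fun j hj => by simp [i1.1 j hj]) hi
      have a2 : u2 i = u3 i := h.loc_out hd (fun j hj => by simp [i1.1 j hj]) hi
      rw [a1, a2]; ring
  have k := hq u3 (u2 - u3) (u1 - u3) j1 j2 (fun i => (q3 i).le)
    (fun i => by simpa using (q2 i).le) (fun i => by simpa using (q1 i).le)
    (fun i => by have := congrFun par i; simp only [Pi.add_apply] at this; rw [this]; exact (q0 i).le)
  rw [par, add_sub_cancel, add_sub_cancel] at k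
  have c1 : (∏ i ∈ D.Z, y i) * ∏ i ∈ D.Z, (y + τ + τ') i =
      (∏ i ∈ D.Z, (y + τ) i) * ∏ i ∈ D.Z, (y + τ') i := by
    rw [← prod_mul_distrib, ← prod_mul_distrib]
    refine prod_congr rfl fun i _ => ?_
    by_cases hi : i ∈ B
    · simp [i2.1 i (disjoint_left.1 hBB hi), mul_comm]
    · simp [i1.1 i hi]
  have c2 := sg_four (y := y) i1.1 i2.1 l (fun t ht => by
    rcases h.cases hd ht with k | k
    · exact Or.inr (k ▸ hBB)
    · exact Or.inl k)
  have c3 : 0 < (∏ i ∈ D.Z, (y + τ) i) * ∏ i ∈ D.Z, (y + τ') i :=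
    mul_pos (prod_pos fun i _ => p1' i) (prod_pos fun i _ => p2' i)
  have c4 := mul_pos (sg_pos (fun i => inv_pos.2 (p1' i)) l) (sg_pos (fun i => inv_pos.2 (p2' i)) l)
  rw [W_inv hw hd p0, W_inv hw hd p1', W_inv hw hd p2', W_inv hw hd p3', ← hu0, ← hu1, ← hu2, ← hu3]
  calc _ = ((∏ i ∈ D.Z, y i) * ∏ i ∈ D.Z, (y + τ + τ') i) *
        ((l.map (sg fun i => (y i)⁻¹)).prod * (l.map (sg fun i => ((y + τ + τ') i)⁻¹)).prod) *
        (H.W u3 * H.W u0) := by ring
    _ ≤ ((∏ i ∈ D.Z, (y + τ) i) * ∏ i ∈ D.Z, (y + τ') i) *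
        ((l.map (sg fun i => ((y + τ) i)⁻¹)).prod * (l.map (sg fun i => ((y + τ') i)⁻¹)).prod) *
        (H.W u2 * H.W u1) := by
        rw [c1, c2]; exact mul_le_mul_of_nonneg_left k (mul_pos c3 c4).le
    _ = _ := by ring

theorem qf_same {D H : Disp F3} {l : List (ℕ × ℕ × ℕ)} (hw : Wyes l D.flip H)
    (hd : (l.map tset).Pairwise Disjoint) {t : ℕ × ℕ × ℕ} (ht : t ∈ l)
    (hq : QF H.W (tset t) (tset t)) : QF D.W (tset t) (tset t) := by
  obtain ⟨a, b, c⟩ := t
  obtain ⟨hZ, -, k⟩ := wyes_tri hw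
  obtain ⟨hT, hab, hac, hbc⟩ := k hd _ ht
  simp only at hab hac hbc
  have hTZ : ({a, b, c} : Finset ℕ) ⊆ D.Z := fun i hi => by
    have := tri_mem hT hi
    rwa [hZ] at this
  obtain ⟨H2, Wa, Wb, Wc, H0, tf'⟩ := triForm_W hab hac hbc hT
  have disc := (qf_iff_disc hab hac hbc tf').1 hq
  have blk : Blk l (tset (a, b, c)) := Or.inr ⟨_, ht, rfl⟩
  refine QF.of_pos D.W_continuous ?_
  intro y τ τ' i1 i2 p0 p1 p2 p3
  obtain ⟨z1, n1, s1⟩ := (iso3 hab hac hbc).1 i1
  obtain ⟨z2, n2, s2⟩ := (iso3 hab hac hbc).1 i2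
  set u := Ph l (fun i => (y i)⁻¹) with hu
  have hdisc := disc u fun i => (Ph_pos l (fun i => inv_pos.2 (p0 i)) i).le
  set κ := (∏ i ∈ D.Z, y i) * (l.map (sg fun i => (y i)⁻¹)).prod /
    (y a * y b + y a * y c + y b * y c) with hκ
  have key : ∀ z : ℕ → ℝ, (∀ i, 0 < z i) → (∀ i, i ≠ a → i ≠ b → i ≠ c → z i = y i) →
      D.W z = κ * tf (H0 u) (Wa u) (Wc u) (Wb u) (H2 u) (z a) (z b) (z c) := by
    intro z hz e
    have e' : ∀ i, i ∉ tset (a, b, c) → z i = y i := fun i hi => by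
      simp only [tset, mem_insert, mem_singleton, not_or] at hi
      exact e i hi.1 hi.2.1 hi.2.2
    obtain ⟨q1, q2, q3⟩ := ph_inv hab hac hbc hz
    have f1 := sg_one (y := fun i => (z i)⁻¹) (z := fun i => (y i)⁻¹)
      (fun i hi => by rw [e' i hi]) l hd ht
    have f2 : ∀ x : ℕ → ℝ, ∏ i ∈ D.Z, x i = (∏ i ∈ D.Z \ {a, b, c}, x i) * (x a * (x b * x c)) := by
      intro x
      rw [← prod_sdiff hTZ, prod_insert (by simp [hab, hac]), prod_pair hbc]
    have f3 : ∏ i ∈ D.Z \ {a, b, c}, z i = ∏ i ∈ D.Z \ {a, b, c}, y i :=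
      prod_congr rfl fun i hi => e' i (mem_sdiff.1 hi).2
    rw [W_inv hw hd hz, tf'.tf (y := u) (fun i j1 j2 j3 => blk.loc_out hd
      (fun j hj => by rw [e' j hj]) (by simp [tset, j1, j2, j3])),
      Ph_in l hd _ ht a (by simp [tset]), Ph_in l hd _ ht b (by simp [tset]),
      Ph_in l hd _ ht c (by simp [tset]), q1, q2, q3, hκ, f2 z, f2 y, f3]
    have g1 := hz a
    have g2 := hz b
    have g3 := hz c
    have g4 := p0 a
    have g5 := p0 b
    have g6 := p0 c
    have f4 : (l.map (sg fun i => (z i)⁻¹)).prod = (l.map (sg fun i => (y i)⁻¹)).prod *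
        ((z a)⁻¹ + (z b)⁻¹ + (z c)⁻¹) / ((y a)⁻¹ + (y b)⁻¹ + (y c)⁻¹) := by
      rw [eq_div_iff (by positivity)]
      exact f1
    rw [f4]
    unfold tf
    field_simp
    ring
  rw [key y p0 (fun _ _ _ _ => rfl),
    key (y + τ + τ') p3 (fun i j1 j2 j3 => by simp [z1 i j1 j2 j3, z2 i j1 j2 j3]),
    key (y + τ) p1 (fun i j1 j2 j3 => by simp [z1 i j1 j2 j3]),
    key (y + τ') p2 (fun i j1 j2 j3 => by simp [z2 i j1 j2 j3])]
  have m := tri_ineq (H2 := H0 u) (Wa := Wa u) (Wb := Wc u) (Wc := Wb u) (H0 := H2 u)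
    (u := y a) (v := y b) (w := y c) (by linarith) n1 s1 n2 s2
  simp only [Pi.add_apply]
  have m2 := mul_le_mul_of_nonneg_left m (mul_self_nonneg κ)
  linarith

theorem obj_blk {l : List (ℕ × ℕ × ℕ)} {Z T : Finset ℕ} (h : Obj Z (l.map tset) T) :
    ∃ B, T ⊆ B ∧ Blk l B ∧ Obj Z (l.map tset) B := by
  rcases h with ⟨e, he, rfl⟩ | h
  · by_cases k : ∃ t ∈ l, e ∈ tset t
    · obtain ⟨t, ht, hi⟩ := k
      exact ⟨tset t, singleton_subset_iff.2 hi, Or.inr ⟨t, ht, rfl⟩,
        Or.inr (List.mem_map_of_mem ht)⟩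
    · exact ⟨{e}, Subset.refl _, Or.inl ⟨e, rfl, fun t ht hi => k ⟨t, ht, hi⟩⟩,
        Or.inl ⟨e, he, rfl⟩⟩
  · obtain ⟨t, ht, rfl⟩ := List.mem_map.1 h
    exact ⟨tset t, Subset.refl _, Or.inr ⟨t, ht, rfl⟩, Or.inr h⟩

end Shp

/-- the sharp duality: `H` arises from the dual of `D` by wye-delta exchanges on pairwise disjoint
triangles of `D`. -/
theorem cl_sharp {D H : Disp F3} {l : List (ℕ × ℕ × ℕ)} (hw : Wyes l D.flip H)
    (hd : (l.map fun t => ({t.1, t.2.1, t.2.2} : Finset ℕ)).Pairwise Disjoint)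
    (h : Cl H.W D.Z (l.map fun t => ({t.1, t.2.1, t.2.2} : Finset ℕ))) :
    Cl D.W D.Z (l.map fun t => ({t.1, t.2.1, t.2.2} : Finset ℕ)) := by
  have hd' : (l.map Shp.tset).Pairwise Disjoint := hd
  intro T T' oT oT' _
  obtain ⟨B, sB, bB, oB⟩ := Shp.obj_blk (l := l) oT
  obtain ⟨B', sB', bB', oB'⟩ := Shp.obj_blk (l := l) oT'
  refine QF.mono ?_ sB sB'
  rcases bB.two hd' bB' with rfl | k
  · rcases bB with ⟨e, rfl, -⟩ | ⟨t, ht, rfl⟩
    · exact QF_single D e
    · exact Shp.qf_same hw hd' ht (h _ _ oB oB (Or.inl rfl))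
  · refine Shp.qf_two hw hd' bB bB' k (h _ _ oB oB' (Or.inr ?_))
    rw [disjoint_iff_inter_eq_empty.1 k]; simp

end Pool.Agent.Lib.MP_c69b6d_co.F
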