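import Pool.Agent.Lib.MP_c69b6d_co.F.Reda
import Pool.Agent.Lib.MP_c69b6d_co.F.Sharp

/-! From the polynomial obligations to the inequalities `QF`. -/

namespace Pool.Agent.Lib.MP_c69b6d_co.F

open Finset

def OblEE (n : ℕ) (L : List ℕ) (e f : ℕ) : Prop :=
  ∀ y : ℕ → ℝ, (∀ i, 0 ≤ y i) → 0 ≤ Dl n L e f y

/-- `t1, t2, t3` behave as a triangle in the list `L`. -/
def triOK (n : ℕ) (L : List ℕ) (t1 t2 t3 : ℕ) : Bool :=
  let m := 2 ^ t1 ||| 2 ^ t2 ||| 2 ^ t3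
  let f := fun V => (L.filter fun S => S &&& m == V).map fun S => S ^^^ V
  decide (t1 < n) && decide (t2 < n) && decide (t3 < n) && t1 != t2 && t1 != t3 && t2 != t3 &&
    f m == [] && f (2 ^ t1 ||| 2 ^ t2) == f (2 ^ t1 ||| 2 ^ t3) &&
    f (2 ^ t1 ||| 2 ^ t2) == f (2 ^ t2 ||| 2 ^ t3)

/-- the image of a mask under `g`. -/
def imMask (n : ℕ) (g : ℕ → ℕ) (S : ℕ) : ℕ :=
  (List.range n).foldr (fun i r => if S.testBit i then 2 ^ g i ||| r else r) 0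

/-- `g` permutes `range n` and the list `L`. -/
def AutOf (n : ℕ) (L : List ℕ) (g : ℕ → ℕ) : Prop :=
  (∀ i < n, g i < n) ∧ (∀ i < n, ∀ j < n, g i = g j → i = j) ∧ (L.map (imMask n g)).Perm L

/-- the bit set of a list added to `acc`; `none` if an entry is repeated. -/
def bitSet : List ℕ → ℕ → Option ℕ
  | [], acc => some acc
  | S :: L, acc => bif acc.testBit S then none else bitSet L (2 ^ S ||| acc)

theorem bitSet_spec {L : List ℕ} {acc r : ℕ} (h : bitSet L acc = some r) :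
    L.Nodup ∧ (∀ S ∈ L, acc.testBit S = false) ∧
      ∀ S, r.testBit S = true ↔ (S ∈ L ∨ acc.testBit S = true) := by
  induction L generalizing acc with
  | nil =>
    simp only [bitSet, Option.some.injEq] at h
    simp [h]
  | cons T L ih =>
    unfold bitSet at h
    cases hT : acc.testBit T
    · rw [hT, cond_false] at h
      obtain ⟨h1, h2, h3⟩ := ih h
      refine ⟨List.nodup_cons.2 ⟨fun hm => ?_, h1⟩, fun S hS => ?_, fun S => ?_⟩
      · simpa using h2 T hm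
      · rcases List.mem_cons.1 hS with rfl | hS
        · exact hT
        · have := h2 S hS
          rw [Nat.testBit_or, Bool.or_eq_false_iff] at this
          exact this.2
      · rw [h3, Nat.testBit_or, Nat.testBit_two_pow, List.mem_cons, Bool.or_eq_true,
          decide_eq_true_iff, eq_comm (a := T)]
        tauto
    · rw [hT, cond_true] at h
      exact absurd h (by simp)

/-- the image of the mask `S` under the list of images `g`. -/
def imL : List ℕ → ℕ → ℕ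
  | [], _ => 0
  | a :: g, S => bif S.testBit 0 then 2 ^ a ||| imL g (S >>> 1) else imL g (S >>> 1)

theorem testBit_imL (g : List ℕ) (S j : ℕ) :
    (imL g S).testBit j = true ↔ ∃ i < g.length, S.testBit i = true ∧ g.getD i 0 = j := by
  induction g generalizing S with
  | nil => simp [imL]
  | cons a g ih =>
    unfold imL
    rw [List.length_cons, Nat.exists_lt_succ_left]
    have e : ∀ i, (S >>> 1).testBit i = S.testBit (i + 1) := fun i => by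
      rw [Nat.testBit_shiftRight, add_comm]
    cases h : S.testBit 0
    · rw [cond_false, ih]; simp [e]
    · rw [cond_true, Nat.testBit_or, Bool.or_eq_true, ih, Nat.testBit_two_pow]; simp [e]

theorem testBit_imMask (n : ℕ) (g : ℕ → ℕ) (S j : ℕ) :
    (imMask n g S).testBit j = true ↔ ∃ i < n, S.testBit i = true ∧ g i = j := by
  unfold imMask
  simp only [← List.mem_range]
  induction List.range n with
  | nil => simp
  | cons a l ih =>
    rw [List.foldr_cons]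
    split_ifs with h
    · rw [Nat.testBit_or, Bool.or_eq_true, ih, Nat.testBit_two_pow]; simp [h]
    · rw [ih]; simp [h]

/-- a fast test for `AutOf`; `g` is the list of the images. -/
def autOK (n : ℕ) (L : List ℕ) (g : List ℕ) : Bool :=
  g.length == n && g.all (fun a => decide (a < n)) && (bitSet g 0).isSome &&
    (match bitSet L 0, bitSet (L.map (imL g)) 0 with
      | some a, some b => a == b
      | _, _ => false)

theorem autOf_of_ok {n : ℕ} {L g : List ℕ} (h : autOK n L g = true) :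
    AutOf n L (fun i => g.getD i 0) := by
  unfold autOK at h
  simp only [Bool.and_eq_true, beq_iff_eq, List.all_eq_true, decide_eq_true_iff,
    Option.isSome_iff_exists] at h
  obtain ⟨⟨⟨rfl, h2⟩, r, h3⟩, h4⟩ := h
  refine ⟨fun i hi => ?_, fun i hi j hj e => ?_, ?_⟩
  · beta_reduce
    rw [List.getD_eq_getElem _ _ hi]
    exact h2 _ (List.getElem_mem hi)
  · beta_reduce at e
    rw [List.getD_eq_getElem _ _ hi, List.getD_eq_getElem _ _ hj] at e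
    exact (List.Nodup.getElem_inj_iff (bitSet_spec h3).1).1 e
  · have e : imMask g.length (fun i => g.getD i 0) = imL g := by
      funext S
      refine Nat.eq_of_testBit_eq fun j => Bool.eq_iff_iff.2 ?_
      rw [testBit_imMask, testBit_imL]
    rw [e]
    cases ha : bitSet L 0 with
    | none => simp [ha] at h4
    | some a =>
      cases hb : bitSet (L.map (imL g)) 0 with
      | none => simp [ha, hb] at h4
      | some b =>
        simp only [ha, hb, beq_iff_eq] at h4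
        subst h4
        obtain ⟨a1, -, a3⟩ := bitSet_spec ha
        obtain ⟨b1, -, b3⟩ := bitSet_spec hb
        refine (List.perm_ext_iff_of_nodup b1 a1).2 fun S => ?_
        have := (a3 S).symm.trans (b3 S)
        simpa using this.symm

theorem AutOf.WL_eq {n : ℕ} {L : List ℕ} {g : ℕ → ℕ} (hg : AutOf n L g) (y : ℕ → ℝ) :
    WL n L y = WL n L (fun i => y (g i)) := by
  obtain ⟨h1, h2, h3⟩ := hg
  have e : WL n L y = WL n (L.map (imMask n g)) y := (List.Perm.sum_eq (h3.map _)).symm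
  rw [e, F.WL_eq, F.WL_eq, List.map_map]
  congr 1
  refine List.map_congr_left fun S _ => ?_
  have hinj : Set.InjOn g (range n : Finset ℕ) := fun i hi j hj =>
    h2 i (by simpa using hi) j (by simpa using hj)
  have him : (range n).image g = range n := by
    refine eq_of_subset_of_card_le (fun j hj => ?_) (by rw [card_image_of_injOn hinj])
    obtain ⟨i, hi, rfl⟩ := mem_image.1 hj
    exact mem_range.2 (h1 i (mem_range.1 hi))
  change mon n (imMask n g S) y = _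
  unfold mon
  conv_lhs => rw [← him]
  rw [prod_image hinj]
  refine prod_congr rfl fun i hi => ?_
  have : (imMask n g S).testBit (g i) = S.testBit i := by
    refine Bool.eq_iff_iff.2 ?_
    rw [testBit_imMask]
    exact ⟨fun ⟨k, hk, hS, e⟩ => h2 k hk i (mem_range.1 hi) e ▸ hS,
      fun h => ⟨i, mem_range.1 hi, h, rfl⟩⟩
  rw [this]

theorem AutOf.upd {n : ℕ} {L : List ℕ} {g : ℕ → ℕ} (hg : AutOf n L g) {i : ℕ} (hi : i < n)
    (y : ℕ → ℝ) (a : ℝ) {k : ℕ} (hk : k < n) :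
    Function.update y (g i) a (g k) = Function.update (fun i => y (g i)) i a k := by
  by_cases e : k = i
  · subst e; simp
  · rw [Function.update_of_ne e, Function.update_of_ne fun e' => e (hg.2.1 k hk i hi e')]

theorem D1_congr (n : ℕ) (L : List ℕ) (i : ℕ) {y z : ℕ → ℝ} (h : ∀ k < n, y k = z k) :
    D1 n L i y = D1 n L i z := by
  have : ∀ a, WL n L (Function.update y i a) = WL n L (Function.update z i a) := fun a =>
    WL_congr _ _ fun k hk => by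
      by_cases e : k = i
      · subst e; simp
      · simp [Function.update_of_ne e, h k hk]
  unfold D1
  rw [this, this]

theorem AutOf.D1_eq {n : ℕ} {L : List ℕ} {g : ℕ → ℕ} (hg : AutOf n L g) {i : ℕ} (hi : i < n)
    (y : ℕ → ℝ) : D1 n L (g i) y = D1 n L i (fun i => y (g i)) := by
  unfold D1
  rw [hg.WL_eq (Function.update y (g i) 1), hg.WL_eq (Function.update y (g i) 0),
    WL_congr n L fun k hk => hg.upd hi y 1 hk, WL_congr n L fun k hk => hg.upd hi y 0 hk]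

theorem AutOf.Dl_eq {n : ℕ} {L : List ℕ} {g : ℕ → ℕ} (hg : AutOf n L g) {i j : ℕ} (hi : i < n)
    (hj : j < n) (y : ℕ → ℝ) : Dl n L (g i) (g j) y = Dl n L i j (fun i => y (g i)) := by
  rw [F.Dl_eq L hi hj, F.Dl_eq L (hg.1 i hi) (hg.1 j hj), hg.D1_eq hi, hg.D1_eq hj, hg.WL_eq y]
  congr 2
  unfold D2
  by_cases e : i = j
  · simp [e]
  · rw [if_neg e, if_neg fun e' => e (hg.2.1 i hi j hj e'), hg.D1_eq hi, hg.D1_eq hi,
      D1_congr n L i fun k hk => hg.upd hj y 1 hk, D1_congr n L i fun k hk => hg.upd hj y 0 hk]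

theorem OblEE.symm {n : ℕ} {L : List ℕ} {e f : ℕ} (h : OblEE n L e f) : OblEE n L f e :=
  fun y hy => Dl_symm n L e f y ▸ h y hy

theorem OblTE.swap {n : ℕ} {L : List ℕ} {t1 t2 t3 e : ℕ} (h : OblTE n L t1 t2 t3 e) :
    OblTE n L t1 t3 t2 e := by
  intro y b c hy hb hc h1 h2
  refine (h y c b hy hc hb h1 h2).trans_eq ?_
  unfold isoC; ring

theorem OblTT.swap {n : ℕ} {L : List ℕ} {t1 t2 t3 s1 s2 s3 : ℕ} (h : OblTT n L t1 t2 t3 s1 s2 s3) :
    OblTT n L t1 t3 t2 s1 s2 s3 := by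
  intro y b c b' c' hy hb hc hb' hc' h1 h2
  refine (h y c b b' c' hy hc hb hb' hc' h1 h2).trans_eq ?_
  unfold isoC; ring

theorem OblTT.symm {n : ℕ} {L : List ℕ} {t1 t2 t3 s1 s2 s3 : ℕ} (h : OblTT n L t1 t2 t3 s1 s2 s3) :
    OblTT n L s1 s2 s3 t1 t2 t3 := by
  intro y b c b' c' hy hb hc hb' hc' h1 h2
  refine (h y b' c' b c hy hb' hc' hb hc h2 h1).trans_eq ?_
  unfold isoC
  beta_reduce
  rw [Dl_symm n L t1 s1, Dl_symm n L t1 s2, Dl_symm n L t1 s3, Dl_symm n L t2 s1,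
    Dl_symm n L t2 s2, Dl_symm n L t2 s3, Dl_symm n L t3 s1, Dl_symm n L t3 s2,
    Dl_symm n L t3 s3]
  ring

theorem OblEE.aut {n : ℕ} {L : List ℕ} {g : ℕ → ℕ} (hg : AutOf n L g) {e f : ℕ} (he : e < n)
    (hf : f < n) (h : OblEE n L e f) : OblEE n L (g e) (g f) := by
  intro y hy
  rw [hg.Dl_eq he hf]
  exact h _ fun i => hy _

theorem OblTE.aut {n : ℕ} {L : List ℕ} {g : ℕ → ℕ} (hg : AutOf n L g) {t1 t2 t3 e : ℕ}
    (h1 : t1 < n) (h2 : t2 < n) (h3 : t3 < n) (he : e < n) (h : OblTE n L t1 t2 t3 e) :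
    OblTE n L (g t1) (g t2) (g t3) (g e) := by
  intro y b c hy hb hc e1 e2
  refine (h (fun i => y (g i)) b c (fun i => hy _) hb hc e1 e2).trans_eq ?_
  unfold isoC
  beta_reduce
  rw [hg.Dl_eq h1 he, hg.Dl_eq h2 he, hg.Dl_eq h3 he]

theorem OblTT.aut {n : ℕ} {L : List ℕ} {g : ℕ → ℕ} (hg : AutOf n L g) {t1 t2 t3 s1 s2 s3 : ℕ}
    (h1 : t1 < n) (h2 : t2 < n) (h3 : t3 < n) (h4 : s1 < n) (h5 : s2 < n) (h6 : s3 < n)
    (h : OblTT n L t1 t2 t3 s1 s2 s3) : OblTT n L (g t1) (g t2) (g t3) (g s1) (g s2) (g s3) := by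
  intro y b c b' c' hy hb hc hb' hc' e1 e2
  refine (h (fun i => y (g i)) b c b' c' (fun i => hy _) hb hc hb' hc' e1 e2).trans_eq ?_
  unfold isoC
  beta_reduce
  rw [hg.Dl_eq h1 h4, hg.Dl_eq h2 h4, hg.Dl_eq h3 h4, hg.Dl_eq h1 h5, hg.Dl_eq h2 h5,
    hg.Dl_eq h3 h5, hg.Dl_eq h1 h6, hg.Dl_eq h2 h6, hg.Dl_eq h3 h6]

theorem Iso.aut {n : ℕ} {L : List ℕ} {g : ℕ → ℕ} (hg : AutOf n L g) {T : Finset ℕ}
    (hT : T ⊆ range n) {τ : ℕ → ℝ} (h : Iso (T.image g) τ) :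
    Iso T (fun i => if i < n then τ (g i) else 0) := by
  have hinj : Set.InjOn g T := fun i hi j hj =>
    hg.2.1 i (mem_range.1 (hT hi)) j (mem_range.1 (hT hj))
  obtain ⟨h1, h2, h3⟩ := h
  rw [sum_image hinj] at h2 h3
  rw [sum_image hinj] at h2
  have e1 : ∑ i ∈ T, (if i < n then τ (g i) else 0) = ∑ i ∈ T, τ (g i) :=
    sum_congr rfl fun i hi => if_pos (mem_range.1 (hT hi))
  have e2 : ∑ i ∈ T, (if i < n then τ (g i) else 0) ^ 2 = ∑ i ∈ T, τ (g i) ^ 2 :=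
    sum_congr rfl fun i hi => by rw [if_pos (mem_range.1 (hT hi))]
  refine ⟨fun i hi => ?_, by rw [e1, e2, h2], by rw [e1]; exact h3⟩
  beta_reduce
  split_ifs with hn
  · refine h1 _ fun hm => hi ?_
    obtain ⟨k, hk, e⟩ := mem_image.1 hm
    exact hg.2.1 k (mem_range.1 (hT hk)) i hn e ▸ hk
  · rfl

theorem QF.aut {n : ℕ} {L : List ℕ} {g : ℕ → ℕ} (hg : AutOf n L g) {T T' : Finset ℕ}
    (hT : T ⊆ range n) (hT' : T' ⊆ range n) (h : QF (WL n L) T T') :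
    QF (WL n L) (T.image g) (T'.image g) := by
  intro y τ τ' i1 i2 c0 c1 c2 c3
  have := h (fun i => y (g i)) _ _ (i1.aut hg hT) (i2.aut hg hT') (fun i => c0 _)
    (fun i => by split_ifs <;> simp [c0, c1]) (fun i => by split_ifs <;> simp [c0, c2])
    (fun i => by split_ifs <;> simp [c0, c3])
  rw [hg.WL_eq y, hg.WL_eq (y + τ), hg.WL_eq (y + τ'), hg.WL_eq (y + τ + τ')]
  refine (le_of_eq ?_).trans (this.trans_eq ?_)
  · congr 1
    exact WL_congr _ _ fun i hi => by simp [hi]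
  · congr 1 <;> exact WL_congr _ _ fun i hi => by simp [hi]

theorem qf_of_Gf {n : ℕ} {L : List ℕ} {T T' : Finset ℕ}
    (a : ∀ τ, Iso T τ → AffDir (WL n L) τ) (a' : ∀ τ, Iso T' τ → AffDir (WL n L) τ)
    (h : ∀ y τ τ', Iso T τ → Iso T' τ' → (∀ i, 0 ≤ y i) → 0 ≤ Gf n L τ τ' y) :
    QF (WL n L) T T' := by
  intro y τ τ' i1 i2 c0 _ _ _
  have := h y τ τ' i1 i2 c0
  rw [Gf_eq (a τ i1) (a' τ' i2)] at this
  linarith

theorem Iso.affDir_single (n : ℕ) (L : List ℕ) {e : ℕ} {τ : ℕ → ℝ} (h : Iso {e} τ) :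
    AffDir (WL n L) τ := F.affDir_single n L (e := e) fun i hi => h.1 i (by simpa using hi)

theorem Iso.single_nonneg {e : ℕ} {τ : ℕ → ℝ} (h : Iso {e} τ) : 0 ≤ τ e := by
  simpa using h.2.2

theorem Gf_supp {n : ℕ} (L : List ℕ) {T T' : Finset ℕ} (hT : T ⊆ range n) (hT' : T' ⊆ range n)
    {τ τ' : ℕ → ℝ} (h : ∀ i, i ∉ T → τ i = 0) (h' : ∀ i, i ∉ T' → τ' i = 0) (y : ℕ → ℝ) :
    Gf n L τ τ' y = ∑ i ∈ T, τ i * ∑ j ∈ T', τ' j * Dl n L i j y := by
  unfold Gf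
  rw [← sum_subset hT (fun i _ hi => by simp [h i hi])]
  refine sum_congr rfl fun i _ => ?_
  rw [← sum_subset hT' (fun j _ hj => by simp [h' j hj]), mul_sum]
  exact sum_congr rfl fun j _ => by ring

theorem qf_self (n : ℕ) (L : List ℕ) (e : ℕ) : QF (WL n L) {e} {e} := by
  refine qf_of_Gf (fun _ h => h.affDir_single n L) (fun _ h => h.affDir_single n L)
    fun y τ τ' i1 i2 _ => sum_nonneg fun i _ => sum_nonneg fun j _ => ?_
  by_cases hi : i = e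
  · by_cases hj : j = e
    · subst hi hj
      refine mul_nonneg (mul_nonneg i1.single_nonneg i2.single_nonneg) ?_
      unfold Dl
      rw [if_pos rfl]
      positivity
    · simp [i2.1 j (by simpa using hj)]
  · simp [i1.1 i (by simpa using hi)]

theorem qf_EE {n : ℕ} {L : List ℕ} {e f : ℕ} (he : e < n) (hf : f < n) (hef : e ≠ f)
    (h : OblEE n L e f) : QF (WL n L) {e} {f} := by
  refine qf_of_Gf (fun _ h => h.affDir_single n L) (fun _ h => h.affDir_single n L)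
    fun y τ τ' i1 i2 hy => ?_
  rw [Gf_supp L (by simpa using he) (by simpa using hf) i1.1 i2.1, sum_singleton, sum_singleton]
  exact mul_nonneg i1.single_nonneg (mul_nonneg i2.single_nonneg (h y hy))

theorem triOK_spec {n : ℕ} {L : List ℕ} {t1 t2 t3 : ℕ} (ht : triOK n L t1 t2 t3 = true) :
    t1 < n ∧ t2 < n ∧ t3 < n ∧ t1 ≠ t2 ∧ t1 ≠ t3 ∧ t2 ≠ t3 ∧
    TriForm (WL n L) t1 t2 t3 (sm2 n L (2 ^ t1 ||| 2 ^ t2 ||| 2 ^ t3) 0)
      (sm2 n L (2 ^ t1 ||| 2 ^ t2 ||| 2 ^ t3) (2 ^ t1))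
      (sm2 n L (2 ^ t1 ||| 2 ^ t2 ||| 2 ^ t3) (2 ^ t2))
      (sm2 n L (2 ^ t1 ||| 2 ^ t2 ||| 2 ^ t3) (2 ^ t3))
      (sm2 n L (2 ^ t1 ||| 2 ^ t2 ||| 2 ^ t3) (2 ^ t1 ||| 2 ^ t2)) := by
  unfold triOK at ht
  simp only [Bool.and_eq_true, decide_eq_true_iff, bne_iff_ne, beq_iff_eq] at ht
  obtain ⟨⟨⟨⟨⟨⟨⟨⟨h1, h2⟩, h3⟩, h12⟩, h13⟩, h23⟩, e0⟩, e1⟩, e2⟩ := ht
  refine ⟨h1, h2, h3, h12, h13, h23, fun y => ?_, fun y z h => ?_, fun y hy => ?_⟩
  · rw [split3 L h1 h2 h3 h12 h13 h23 y]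
    have a0 : sm2 n L (2 ^ t1 ||| 2 ^ t2 ||| 2 ^ t3) (2 ^ t1 ||| 2 ^ t2 ||| 2 ^ t3) y = 0 := by
      unfold sm2; rw [e0]; rfl
    have a1 : sm2 n L (2 ^ t1 ||| 2 ^ t2 ||| 2 ^ t3) (2 ^ t1 ||| 2 ^ t3) y =
        sm2 n L (2 ^ t1 ||| 2 ^ t2 ||| 2 ^ t3) (2 ^ t1 ||| 2 ^ t2) y := by
      unfold sm2; rw [e1]
    have a2 : sm2 n L (2 ^ t1 ||| 2 ^ t2 ||| 2 ^ t3) (2 ^ t2 ||| 2 ^ t3) y =
        sm2 n L (2 ^ t1 ||| 2 ^ t2 ||| 2 ^ t3) (2 ^ t1 ||| 2 ^ t2) y := by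
      unfold sm2; rw [e2]
    rw [a0, a1, a2]; ring
  · have c : ∀ V, sm2 n L (2 ^ t1 ||| 2 ^ t2 ||| 2 ^ t3) V y =
        sm2 n L (2 ^ t1 ||| 2 ^ t2 ||| 2 ^ t3) V z := fun V =>
      sm2_congr _ _ _ _ fun i hi => h i (by rintro rfl; simp at hi) (by rintro rfl; simp at hi)
        (by rintro rfl; simp at hi)
    exact ⟨c _, c _, c _, c _, c _⟩
  · exact ⟨sm2_nonneg _ _ _ _ hy, sm2_nonneg _ _ _ _ hy, sm2_nonneg _ _ _ _ hy,
      sm2_nonneg _ _ _ _ hy, sm2_nonneg _ _ _ _ hy⟩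

theorem iso3_iff {a b c : ℕ} (hab : a ≠ b) (hac : a ≠ c) (hbc : b ≠ c) {τ : ℕ → ℝ} :
    Iso {a, b, c} τ ↔ (∀ i, i ≠ a → i ≠ b → i ≠ c → τ i = 0) ∧
      τ a * τ b + τ a * τ c + τ b * τ c = 0 ∧ 0 ≤ τ a + τ b + τ c := by
  unfold Iso
  have hm : a ∉ ({b, c} : Finset ℕ) := by simp [hab, hac]
  rw [sum_insert hm, sum_insert hm, sum_pair hbc, sum_pair hbc]
  refine and_congr (by simp) (and_congr ⟨fun h => ?_, fun h => ?_⟩ (by rw [add_assoc]))
  · linarith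
  · linarith

theorem TriForm.affDir {P : (ℕ → ℝ) → ℝ} {a b c : ℕ} (hab : a ≠ b) (hac : a ≠ c) (hbc : b ≠ c)
    {H2 Wa Wb Wc H0 : (ℕ → ℝ) → ℝ} (h : TriForm P a b c H2 Wa Wb Wc H0) {τ : ℕ → ℝ}
    (hτ : Iso {a, b, c} τ) : AffDir P τ := by
  obtain ⟨h0, h1, -⟩ := (iso3_iff hab hac hbc).1 hτ
  intro y s
  obtain ⟨a1, a2, a3, a4, a5⟩ := h.2.1 (y + s • τ) y fun i i1 i2 i3 => by simp [h0 i i1 i2 i3]
  obtain ⟨b1, b2, b3, b4, b5⟩ := h.2.1 (y + τ) y fun i i1 i2 i3 => by simp [h0 i i1 i2 i3]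
  rw [h.1 (y + s • τ), h.1 (y + τ), h.1 y, a1, a2, a3, a4, a5, b1, b2, b3, b4, b5]
  simp only [Pi.add_apply, Pi.smul_apply, smul_eq_mul]
  linear_combination (H0 y * (s ^ 2 - s)) * h1

theorem nonneg_of_strict {g1 g2 g3 : ℝ}
    (h : ∀ a b c : ℝ, a * b + a * c + b * c = 0 → 0 ≤ a + b + c → a < 0 →
      0 ≤ a * g1 + b * g2 + c * g3) : 0 ≤ g2 := by
  have t : Filter.Tendsto (fun ε : ℝ => -ε * g1 + (1 + ε) * g2 + ε * (1 + ε) * g3)
      (nhdsWithin 0 (Set.Ioi 0)) (nhds (-0 * g1 + (1 + 0) * g2 + 0 * (1 + 0) * g3)) :=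
    (Continuous.tendsto (by fun_prop) 0).mono_left nhdsWithin_le_nhds
  have := ge_of_tendsto t (eventually_nhdsWithin_of_forall fun ε (hε : 0 < ε) =>
    h (-ε) (1 + ε) (ε * (1 + ε)) (by ring) (by nlinarith) (by linarith))
  simpa using this

/-- reduction to directions with a negative entry. -/
theorem iso_strict {a b c : ℕ} (hab : a ≠ b) (hac : a ≠ c) (hbc : b ≠ c) (g : ℕ → ℝ)
    (h : ∀ σ, Iso {a, b, c} σ → (σ a < 0 ∨ σ b < 0 ∨ σ c < 0) → 0 ≤ ∑ i ∈ {a, b, c}, σ i * g i)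
    {τ : ℕ → ℝ} (hτ : Iso {a, b, c} τ) : 0 ≤ ∑ i ∈ {a, b, c}, τ i * g i := by
  by_cases hn : τ a < 0 ∨ τ b < 0 ∨ τ c < 0
  · exact h τ hτ hn
  have k : ∀ x y z : ℝ, x * y + x * z + y * z = 0 → 0 ≤ x + y + z → (x < 0 ∨ y < 0 ∨ z < 0) →
      0 ≤ x * g a + y * g b + z * g c := by
    intro x y z e1 e2 e3
    have hba := hab.symm
    have hca := hac.symm
    have hcb := hbc.symm
    have := h (fun i => if i = a then x else if i = b then y else if i = c then z else 0)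
      ((iso3_iff hab hac hbc).2 ⟨fun i i1 i2 i3 => by simp [i1, i2, i3], by simpa [hba, hca, hcb],
        by simpa [hba, hca, hcb]⟩) (by simpa [hba, hca, hcb])
    rw [sum_insert (by simp [hab, hac]), sum_pair hbc] at this
    simpa [hba, hca, hcb, add_assoc] using this
  have gb : 0 ≤ g b := nonneg_of_strict fun x y z e1 e2 e3 => k x y z e1 e2 (Or.inl e3)
  have gc : 0 ≤ g c := nonneg_of_strict (g1 := g a) (g3 := g b) fun x y z e1 e2 e3 =>
    (k x z y (by linarith) (by linarith) (Or.inl e3)).trans_eq (by ring)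
  have ga : 0 ≤ g a := nonneg_of_strict (g1 := g b) (g3 := g c) fun x y z e1 e2 e3 =>
    (k y x z (by linarith) (by linarith) (Or.inr (Or.inl e3))).trans_eq (by ring)
  simp only [not_or, not_lt] at hn
  rw [sum_insert (by simp [hab, hac]), sum_pair hbc]
  have := mul_nonneg hn.1 ga
  have := mul_nonneg hn.2.1 gb
  have := mul_nonneg hn.2.2 gc
  linarith

/-- a strict isotropic direction in the form `isoC`. -/
theorem iso_neg {a b c : ℕ} (hab : a ≠ b) (hac : a ≠ c) (hbc : b ≠ c) {τ : ℕ → ℝ}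
    (hτ : Iso {a, b, c} τ) (hn : τ a < 0) :
    0 < τ b ∧ 0 < τ c ∧ (∀ i, i ≠ a → 0 ≤ τ i) ∧
      ∀ g : ℕ → ℝ, isoC (τ c) (τ b) a b c g = (τ b + τ c) * ∑ i ∈ {a, b, c}, τ i * g i := by
  obtain ⟨h0, h1, h2⟩ := (iso3_iff hab hac hbc).1 hτ
  have hs : 0 < τ b + τ c := by linarith
  have hp : 0 < τ b * τ c := by nlinarith
  have hb : 0 < τ b := by
    by_contra hb
    have : τ c < 0 := by nlinarith
    linarith
  have hc : 0 < τ c := by nlinarith
  refine ⟨hb, hc, fun i hi => ?_, fun g => ?_⟩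
  · by_cases i2 : i = b
    · exact i2 ▸ hb.le
    · by_cases i3 : i = c
      · exact i3 ▸ hc.le
      · exact (h0 i hi i2 i3).ge
  · rw [sum_insert (by simp [hab, hac]), sum_pair hbc]
    unfold isoC
    linear_combination (-g a) * h1

/-- move along `τ` until the coordinate `a` vanishes. -/
theorem move_zero {a : ℕ} {τ y : ℕ → ℝ} (hn : τ a < 0) (hp : ∀ i, i ≠ a → 0 ≤ τ i)
    (hy : ∀ i, 0 ≤ y i) : ∃ s : ℝ, (∀ i, 0 ≤ (y + s • τ) i) ∧ (y + s • τ) a = 0 := by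
  have hs : 0 ≤ y a / -τ a := div_nonneg (hy a) (by linarith)
  have e : (y + (y a / -τ a) • τ) a = 0 := by
    have := hn.ne
    simp only [Pi.add_apply, Pi.smul_apply, smul_eq_mul]
    field_simp
    ring
  refine ⟨y a / -τ a, fun i => ?_, e⟩
  by_cases hi : i = a
  · exact hi ▸ e.ge
  · exact add_nonneg (hy i) (mul_nonneg hs (hp i hi))

theorem Gf_TE {n : ℕ} {L : List ℕ} {t1 t2 t3 e : ℕ} (hT : ({t1, t2, t3} : Finset ℕ) ⊆ range n)
    (h12 : t1 ≠ t2) (h13 : t1 ≠ t3) (h23 : t2 ≠ t3) (he : e < n)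
    (h1 : e ∉ ({t1, t2, t3} : Finset ℕ)) (o : OblTE n L t1 t2 t3 e) {τ τ' y : ℕ → ℝ}
    (i1 : Iso {t1, t2, t3} τ) (a1 : AffDir (WL n L) τ) (i2 : Iso {e} τ') (hn : τ t1 < 0)
    (hy : ∀ i, 0 ≤ y i) : 0 ≤ Gf n L τ τ' y := by
  have a2 := i2.affDir_single n L
  have he' : ({e} : Finset ℕ) ⊆ range n := by simpa using he
  rcases i2.single_nonneg.eq_or_lt with h0 | h0
  · rw [Gf_supp L hT he' i1.1 i2.1]
    simp [← h0]
  obtain ⟨p2, p3, p, q⟩ := iso_neg h12 h13 h23 i1 hn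
  obtain ⟨s, hs, es⟩ := move_zero hn p hy
  obtain ⟨t, ht, et⟩ := move_zero (τ := -τ') (a := e) (by simpa using h0)
    (fun i hi => by simp [i2.1 i (by simpa using hi)]) hs
  rw [smul_neg, ← neg_smul] at ht et
  rw [← Gf_move a1 a2 y s, ← Gf_move' a1 a2 _ (-t), Gf_supp L hT he' i1.1 i2.1]
  have := o _ _ _ ht p3.le p2.le (by
    rw [Pi.add_apply, es, Pi.smul_apply, i2.1 t1 (by
      intro h; rw [mem_singleton] at h; exact h1 (by simp [← h]))]; simp) et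
  rw [q] at this
  have := mul_nonneg h0.le (nonneg_of_mul_nonneg_right this (by linarith) |> fun h => h)
  refine this.trans_eq ?_
  rw [mul_sum]
  exact sum_congr rfl fun i _ => by rw [sum_singleton]; ring

theorem Gf_TT {n : ℕ} {L : List ℕ} {t1 t2 t3 s1 s2 s3 : ℕ}
    (hT : ({t1, t2, t3} : Finset ℕ) ⊆ range n) (hS : ({s1, s2, s3} : Finset ℕ) ⊆ range n)
    (h12 : t1 ≠ t2) (h13 : t1 ≠ t3) (h23 : t2 ≠ t3) (k12 : s1 ≠ s2) (k13 : s1 ≠ s3)
    (k23 : s2 ≠ s3) (hc : (({t1, t2, t3} : Finset ℕ) ∩ {s1, s2, s3}).card ≤ 1)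
    (o : OblTT n L t1 t2 t3 s1 s2 s3) {τ τ' y : ℕ → ℝ}
    (i1 : Iso {t1, t2, t3} τ) (a1 : AffDir (WL n L) τ) (i2 : Iso {s1, s2, s3} τ')
    (a2 : AffDir (WL n L) τ') (hn : τ t1 < 0) (hn' : τ' s1 < 0)
    (hy : ∀ i, 0 ≤ y i) : 0 ≤ Gf n L τ τ' y := by
  obtain ⟨p2, p3, p, q⟩ := iso_neg h12 h13 h23 i1 hn
  obtain ⟨p2', p3', p', q'⟩ := iso_neg k12 k13 k23 i2 hn'
  have key : ∀ z : ℕ → ℝ, (∀ i, 0 ≤ z i) → z t1 = 0 → z s1 = 0 → 0 ≤ Gf n L τ τ' z := by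
    intro z hz e1 e2
    have := o z _ _ _ _ hz p3.le p2.le p3'.le p2'.le e1 e2
    simp only [q, q'] at this
    have h1 := nonneg_of_mul_nonneg_right this (by linarith)
    rw [Gf_supp L hT hS i1.1 i2.1]
    refine nonneg_of_mul_nonneg_right (a := τ' s2 + τ' s3) (h1.trans_eq ?_) (by linarith)
    rw [mul_sum _ _ (τ' s2 + τ' s3)]
    exact sum_congr rfl fun i _ => by ring
  by_cases e : t1 = s1
  · obtain ⟨s, hs, es⟩ := move_zero hn p hy
    rw [← Gf_move a1 a2 y s]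
    exact key _ hs es (e ▸ es)
  by_cases m : t1 ∈ ({s1, s2, s3} : Finset ℕ)
  · have m' : s1 ∉ ({t1, t2, t3} : Finset ℕ) := fun m' =>
      e (card_le_one.1 hc t1 (mem_inter.2 ⟨by simp, m⟩) s1 (mem_inter.2 ⟨m', by simp⟩))
    obtain ⟨t, ht, et⟩ := move_zero hn' p' hy
    obtain ⟨s, hs, es⟩ := move_zero hn p ht
    rw [← Gf_move' a1 a2 y t, ← Gf_move a1 a2 _ s]
    exact key _ hs es (by rw [Pi.add_apply, et, Pi.smul_apply, i1.1 s1 m']; simp)
  · obtain ⟨s, hs, es⟩ := move_zero hn p hy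
    obtain ⟨t, ht, et⟩ := move_zero hn' p' hs
    rw [← Gf_move a1 a2 y s, ← Gf_move' a1 a2 _ t]
    exact key _ ht (by rw [Pi.add_apply, es, Pi.smul_apply, i2.1 t1 m]; simp) et

theorem qf_TE {n : ℕ} {L : List ℕ} {t1 t2 t3 e : ℕ} (ht : triOK n L t1 t2 t3 = true) (he : e < n)
    (h1 : e ≠ t1) (h2 : e ≠ t2) (h3 : e ≠ t3) (o1 : OblTE n L t1 t2 t3 e)
    (o2 : OblTE n L t2 t1 t3 e) (o3 : OblTE n L t3 t1 t2 e) : QF (WL n L) {t1, t2, t3} {e} := by
  obtain ⟨l1, l2, l3, h12, h13, h23, tf⟩ := triOK_spec ht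
  have hT : ({t1, t2, t3} : Finset ℕ) ⊆ range n := by simp [insert_subset_iff, l1, l2, l3]
  have he' : ({e} : Finset ℕ) ⊆ range n := by simpa using he
  have r2 : ({t1, t2, t3} : Finset ℕ) = {t2, t1, t3} := insert_comm _ _ _
  have r3 : ({t1, t2, t3} : Finset ℕ) = {t3, t1, t2} := by
    rw [pair_comm t2 t3]; exact insert_comm _ _ _
  have hm : e ∉ ({t1, t2, t3} : Finset ℕ) := by simp [h1, h2, h3]
  refine qf_of_Gf (fun _ h => tf.affDir h12 h13 h23 h) (fun _ h => h.affDir_single n L)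
    fun y τ τ' i1 i2 hy => ?_
  rw [Gf_supp L hT he' i1.1 i2.1]
  refine iso_strict h12 h13 h23 _ (fun σ j1 hn => ?_) i1
  rw [← Gf_supp L hT he' j1.1 i2.1]
  have a1 := tf.affDir h12 h13 h23 j1
  rcases hn with hn | hn | hn
  · exact Gf_TE hT h12 h13 h23 he hm o1 j1 a1 i2 hn hy
  · exact Gf_TE (r2 ▸ hT) h12.symm h23 h13 he (r2 ▸ hm) o2 (r2 ▸ j1) a1 i2 hn hy
  · exact Gf_TE (r3 ▸ hT) h13.symm h23.symm h12 he (r3 ▸ hm) o3 (r3 ▸ j1) a1 i2 hn hy

theorem qf_TT {n : ℕ} {L : List ℕ} {t1 t2 t3 s1 s2 s3 : ℕ} (ht : triOK n L t1 t2 t3 = true)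
    (hs : triOK n L s1 s2 s3 = true) (hc : (({t1, t2, t3} : Finset ℕ) ∩ {s1, s2, s3}).card ≤ 1)
    (o : ∀ p ∈ [(t1, t2, t3), (t2, t1, t3), (t3, t1, t2)],
      ∀ q ∈ [(s1, s2, s3), (s2, s1, s3), (s3, s1, s2)], OblTT n L p.1 p.2.1 p.2.2 q.1 q.2.1 q.2.2) :
    QF (WL n L) {t1, t2, t3} {s1, s2, s3} := by
  obtain ⟨l1, l2, l3, h12, h13, h23, tf⟩ := triOK_spec ht
  obtain ⟨m1, m2, m3, k12, k13, k23, sf⟩ := triOK_spec hs
  have hT : ({t1, t2, t3} : Finset ℕ) ⊆ range n := by simp [insert_subset_iff, l1, l2, l3]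
  have hS : ({s1, s2, s3} : Finset ℕ) ⊆ range n := by simp [insert_subset_iff, m1, m2, m3]
  have rot : ∀ {a b c : ℕ}, a ≠ b → a ≠ c → b ≠ c → ∀ σ : ℕ → ℝ, (σ a < 0 ∨ σ b < 0 ∨ σ c < 0) →
      ∃ p ∈ [(a, b, c), (b, a, c), (c, a, b)], ({a, b, c} : Finset ℕ) = {p.1, p.2.1, p.2.2} ∧
        p.1 ≠ p.2.1 ∧ p.1 ≠ p.2.2 ∧ p.2.1 ≠ p.2.2 ∧ σ p.1 < 0 := by
    intro a b c hab hac hbc σ hn
    rcases hn with hn | hn | hn
    · exact ⟨(a, b, c), by simp, rfl, hab, hac, hbc, hn⟩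
    · exact ⟨(b, a, c), by simp, insert_comm _ _ _, hab.symm, hbc, hac, hn⟩
    · exact ⟨(c, a, b), by simp, by rw [pair_comm b c]; exact insert_comm _ _ _, hac.symm,
        hbc.symm, hab, hn⟩
  refine qf_of_Gf (fun _ h => tf.affDir h12 h13 h23 h) (fun _ h => sf.affDir k12 k13 k23 h)
    fun y τ τ' i1 i2 hy => ?_
  rw [Gf_supp L hT hS i1.1 i2.1]
  refine iso_strict h12 h13 h23 _ (fun σ j1 hn => ?_) i1
  rw [← Gf_supp L hT hS j1.1 i2.1, Gf_symm, Gf_supp L hS hT i2.1 j1.1]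
  refine iso_strict k12 k13 k23 _ (fun σ' j2 hn' => ?_) i2
  rw [← Gf_supp L hS hT j2.1 j1.1, Gf_symm]
  have a1 := tf.affDir h12 h13 h23 j1
  have a2 := sf.affDir k12 k13 k23 j2
  obtain ⟨p, hp, ep, p1, p2, p3, pn⟩ := rot h12 h13 h23 σ hn
  obtain ⟨q, hq, eq, q1, q2, q3, qn⟩ := rot k12 k13 k23 σ' hn'
  rw [ep] at hT j1 hc
  rw [eq] at hS j2 hc
  exact Gf_TT hT hS p1 p2 p3 q1 q2 q3 hc (o p hp q hq) j1 a1 j2 a2 pn qn hy

theorem qf_D {n : ℕ} {L : List ℕ} {t1 t2 t3 : ℕ} (ht : triOK n L t1 t2 t3 = true)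
    (o : OblD n L t1 t2 t3) : QF (WL n L) {t1, t2, t3} {t1, t2, t3} := by
  obtain ⟨-, -, -, h12, h13, h23, tf⟩ := triOK_spec ht
  exact (qf_iff_disc h12 h13 h23 tf).2 o

theorem AutOf.comp {n : ℕ} {L : List ℕ} {g h : ℕ → ℕ} (hg : AutOf n L g) (hh : AutOf n L h) :
    AutOf n L (fun i => g (h i)) := by
  refine ⟨fun i hi => hg.1 _ (hh.1 i hi),
    fun i hi j hj e => hh.2.1 i hi j hj (hg.2.1 _ (hh.1 i hi) _ (hh.1 j hj) e), ?_⟩
  have e : imMask n (fun i => g (h i)) = imMask n g ∘ imMask n h := by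
    funext S
    refine Nat.eq_of_testBit_eq fun j => Bool.eq_iff_iff.2 ?_
    simp only [Function.comp, testBit_imMask]
    exact ⟨fun ⟨i, hi, hS, e⟩ => ⟨h i, hh.1 i hi, ⟨i, hi, hS, rfl⟩, e⟩,
      fun ⟨k, _, ⟨i, hi, hS, e⟩, e'⟩ => ⟨i, hi, hS, by rw [e, e']⟩⟩
  rw [e, ← List.map_map]
  exact (hh.2.2.map _).trans hg.2.2

theorem AutOf.congr {n : ℕ} {L : List ℕ} {g h : ℕ → ℕ} (hg : AutOf n L g)
    (e : ∀ i < n, h i = g i) : AutOf n L h := by
  refine ⟨fun i hi => e i hi ▸ hg.1 i hi,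
    fun i hi j hj e' => hg.2.1 i hi j hj (by rw [← e i hi, ← e j hj, e']), ?_⟩
  have e' : imMask n h = imMask n g := by
    funext S
    refine Nat.eq_of_testBit_eq fun j => Bool.eq_iff_iff.2 ?_
    simp only [testBit_imMask]
    exact exists_congr fun i => and_congr_right fun hi => by rw [e i hi]
  rw [e']
  exact hg.2.2

instance (T T' : Finset ℕ) : Decidable (Compat T T') := by unfold Compat; infer_instance

/-- assembly: every compatible pair of marks lies in an image of a pair in `Q`. -/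
theorem cl_of_cover {n : ℕ} {L : List ℕ} {𝒯 : List (Finset ℕ)} (Q : List (Finset ℕ × Finset ℕ))
    (G : List (ℕ → ℕ)) (hG : ∀ g ∈ G, AutOf n L g)
    (hQ : ∀ p ∈ Q, p.1 ⊆ range n ∧ p.2 ⊆ range n ∧ QF (WL n L) p.1 p.2)
    (cover : ∀ T ∈ (List.range n).map (fun e => ({e} : Finset ℕ)) ++ 𝒯,
      ∀ T' ∈ (List.range n).map (fun e => ({e} : Finset ℕ)) ++ 𝒯, Compat T T' →
      (T = T' ∧ T.card = 1) ∨ ∃ g ∈ G, ∃ p ∈ Q, (T ⊆ p.1.image g ∧ T' ⊆ p.2.image g) ∨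
        (T ⊆ p.2.image g ∧ T' ⊆ p.1.image g)) : Cl (WL n L) (range n) 𝒯 := by
  have ob : ∀ T, Obj (range n) 𝒯 T →
      T ∈ (List.range n).map (fun e => ({e} : Finset ℕ)) ++ 𝒯 := by
    rintro T (⟨e, he, rfl⟩ | h)
    · exact List.mem_append_left _ (List.mem_map.2 ⟨e, by simpa using he, rfl⟩)
    · exact List.mem_append_right _ h
  intro T T' o1 o2 hc
  rcases cover T (ob T o1) T' (ob T' o2) hc with ⟨rfl, h⟩ | ⟨g, hg, p, hp, h⟩
  · obtain ⟨e, rfl⟩ := card_eq_one.1 h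
    exact qf_self n L e
  · obtain ⟨q1, q2, q3⟩ := hQ p hp
    have := q3.aut (hG g hg) q1 q2
    rcases h with ⟨h1, h2⟩ | ⟨h1, h2⟩
    · exact this.mono h1 h2
    · exact this.symm.mono h1 h2

end Pool.Agent.Lib.MP_c69b6d_co.F
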