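import Pool.Agent.Lib.MP_c69b6d_co.F.M0a
import Pool.Agent.Lib.MP_c69b6d_co.F.Red

/-! The master matroid number 0. -/

namespace Pool.Agent.Lib.MP_c69b6d_co.F

set_option maxRecDepth 100000

theorem a0_0 : AutOf 9 mB0 (fun i => [0, 1, 4, 3, 2, 6, 5, 8, 7].getD i 0) :=
  autOf_of_ok (by decide +kernel)

theorem a0_1 : AutOf 9 mB0 (fun i => [2, 6, 0, 8, 4, 5, 1, 7, 3].getD i 0) :=
  autOf_of_ok (by decide +kernel)

theorem a0_2 : AutOf 9 mB0 (fun i => [4, 5, 0, 7, 2, 6, 1, 8, 3].getD i 0) :=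
  autOf_of_ok (by decide +kernel)

theorem a0_3 : AutOf 9 mB0 (fun i => [5, 4, 2, 7, 1, 0, 6, 3, 8].getD i 0) :=
  autOf_of_ok (by decide +kernel)

theorem a0_4 : AutOf 9 mB0 (fun i => [6, 2, 4, 8, 1, 0, 5, 3, 7].getD i 0) :=
  autOf_of_ok (by decide +kernel)

theorem a0_5 : AutOf 9 mB0 (fun i => [0, 1, 6, 3, 5, 4, 2, 7, 8].getD i 0) :=
  autOf_of_ok (by decide +kernel)

theorem a0_6 : AutOf 9 mB0 (fun i => [1, 0, 2, 3, 5, 4, 6, 7, 8].getD i 0) :=
  autOf_of_ok (by decide +kernel)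

theorem a0_7 : AutOf 9 mB0 (fun i => [5, 4, 6, 7, 0, 1, 2, 3, 8].getD i 0) :=
  autOf_of_ok (by decide +kernel)

theorem a0_8 : AutOf 9 mB0 (fun i => [1, 0, 6, 3, 4, 5, 2, 7, 8].getD i 0) :=
  autOf_of_ok (by decide +kernel)

theorem q0_0 : QF (WL 9 mB0) {0, 7, 8} {0, 7, 8} :=
  qf_D (by decide +kernel) oD0_0_7_8

theorem q0_1 : QF (WL 9 mB0) {1, 7, 8} {0} :=
  qf_TE (by decide +kernel) (by decide) (by decide) (by decide) (by decide)
    oTE0_1_7_8_0
    oTE0_7_1_8_0
    (oTE0_7_1_8_0.aut a0_0 (by decide) (by decide) (by decide) (by decide))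

theorem q0_2 : QF (WL 9 mB0) {2, 3, 7} {0, 7, 8} :=
  qf_TT (by decide +kernel) (by decide +kernel) (by decide) (by
    intro p hp q hq
    simp only [List.mem_cons, List.not_mem_nil, or_false] at hp hq
    rcases hp with rfl | rfl | rfl <;> rcases hq with rfl | rfl | rfl
    · exact oTT0_2_3_7_0_7_8
    · exact (oTT0_7_2_3_0_7_8.aut a0_1 (by decide) (by decide) (by decide) (by decide) (by decide) (by decide)).symm.swap
    · exact (oTT0_3_2_7_0_7_8.aut a0_1 (by decide) (by decide) (by decide) (by decide) (by decide) (by decide)).symm.swap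
    · exact oTT0_3_2_7_0_7_8
    · exact oTT0_3_2_7_7_0_8
    · exact (oTT0_3_4_8_7_0_8.aut a0_0 (by decide) (by decide) (by decide) (by decide) (by decide) (by decide))
    · exact oTT0_7_2_3_0_7_8
    · exact oTT0_7_2_3_7_0_8
    · exact (oTT0_3_2_7_7_0_8.aut a0_1 (by decide) (by decide) (by decide) (by decide) (by decide) (by decide)).symm)

theorem q0_3 : QF (WL 9 mB0) {3, 4, 8} {0, 7, 8} :=
  qf_TT (by decide +kernel) (by decide +kernel) (by decide) (by
    intro p hp q hq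
    simp only [List.mem_cons, List.not_mem_nil, or_false] at hp hq
    rcases hp with rfl | rfl | rfl <;> rcases hq with rfl | rfl | rfl
    · exact (oTT0_3_2_7_0_7_8.aut a0_0 (by decide) (by decide) (by decide) (by decide) (by decide) (by decide)).symm.swap.symm
    · exact oTT0_3_4_8_7_0_8
    · exact (oTT0_3_2_7_7_0_8.aut a0_0 (by decide) (by decide) (by decide) (by decide) (by decide) (by decide))
    · exact (oTT0_2_3_7_0_7_8.aut a0_0 (by decide) (by decide) (by decide) (by decide) (by decide) (by decide)).symm.swap.symm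
    · exact (oTT0_3_2_7_0_7_8.aut a0_2 (by decide) (by decide) (by decide) (by decide) (by decide) (by decide)).symm.swap
    · exact (oTT0_7_2_3_0_7_8.aut a0_2 (by decide) (by decide) (by decide) (by decide) (by decide) (by decide)).symm.swap
    · exact (oTT0_7_2_3_0_7_8.aut a0_0 (by decide) (by decide) (by decide) (by decide) (by decide) (by decide)).swap.symm.swap.symm
    · exact (oTT0_3_2_7_7_0_8.aut a0_2 (by decide) (by decide) (by decide) (by decide) (by decide) (by decide)).symm.swap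
    · exact (oTT0_7_2_3_7_0_8.aut a0_0 (by decide) (by decide) (by decide) (by decide) (by decide) (by decide)).swap)

theorem master0 : Master0 := by
  refine cl_of_cover [({0, 7, 8}, {0, 7, 8}), ({1, 7, 8}, {0}), ({2, 3, 7}, {0, 7, 8}), ({3, 4, 8}, {0, 7, 8})]
    [fun i => [0, 1, 4, 3, 2, 6, 5, 8, 7].getD i 0,
     fun i => [5, 4, 2, 7, 1, 0, 6, 3, 8].getD i 0,
     fun i => [6, 2, 4, 8, 1, 0, 5, 3, 7].getD i 0,
     fun i => [0, 1, 6, 3, 5, 4, 2, 7, 8].getD i 0,
     fun i => [4, 5, 0, 7, 2, 6, 1, 8, 3].getD i 0,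
     fun i => [1, 0, 2, 3, 5, 4, 6, 7, 8].getD i 0,
     fun i => [5, 4, 6, 7, 0, 1, 2, 3, 8].getD i 0,
     fun i => [1, 0, 6, 3, 4, 5, 2, 7, 8].getD i 0,
     fun i => [2, 6, 0, 8, 4, 5, 1, 7, 3].getD i 0] ?_ ?_ ?_
  · intro g hg
    simp only [List.mem_cons, List.not_mem_nil, or_false] at hg
    rcases hg with rfl | rfl | rfl | rfl | rfl | rfl | rfl | rfl | rfl
    exacts [a0_0, a0_3, a0_4, a0_5, a0_2, a0_6, a0_7, a0_8, a0_1]
  · intro p hp
    simp only [List.mem_cons, List.not_mem_nil, or_false] at hp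
    rcases hp with rfl | rfl | rfl | rfl
    exacts [⟨by decide, by decide, q0_0⟩, ⟨by decide, by decide, q0_1⟩, ⟨by decide, by decide, q0_2⟩, ⟨by decide, by decide, q0_3⟩]
  · decide +kernel

end Pool.Agent.Lib.MP_c69b6d_co.F
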