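import Pool.Agent.Lib.MP_c69b6d_co.F.Red
import Pool.Agent.Lib.MP_c69b6d_co.F.M1s

/-! The master matroid number 1. -/

namespace Pool.Agent.Lib.MP_c69b6d_co.F

set_option maxRecDepth 100000

theorem a1_0 : AutOf 9 mB1 (fun i => [8, 1, 4, 3, 2, 5, 6, 7, 0].getD i 0) :=
  autOf_of_ok (by decide +kernel)

theorem a1_1 : AutOf 9 mB1 (fun i => [2, 1, 0, 3, 8, 5, 7, 6, 4].getD i 0) :=
  autOf_of_ok (by decide +kernel)

theorem a1_2 : AutOf 9 mB1 (fun i => [8, 6, 2, 7, 4, 5, 1, 3, 0].getD i 0) :=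
  autOf_of_ok (by decide +kernel)

theorem a1_3 : AutOf 9 mB1 (fun i => [0, 6, 4, 7, 2, 5, 1, 3, 8].getD i 0) :=
  autOf_of_ok (by decide +kernel)

theorem a1_4 : AutOf 9 mB1 (fun i => [4, 1, 8, 3, 0, 5, 7, 6, 2].getD i 0) :=
  autOf_of_ok (by decide +kernel)

theorem a1_5 : AutOf 9 mB1 (fun i => [4, 6, 0, 7, 8, 5, 3, 1, 2].getD i 0) :=
  autOf_of_ok (by decide +kernel)

theorem a1_6 : AutOf 9 mB1 (fun i => [0, 3, 2, 1, 4, 5, 7, 6, 8].getD i 0) :=
  autOf_of_ok (by decide +kernel)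

theorem a1_7 : AutOf 9 mB1 (fun i => [4, 7, 0, 6, 8, 5, 1, 3, 2].getD i 0) :=
  autOf_of_ok (by decide +kernel)

theorem a1_8 : AutOf 9 mB1 (fun i => [2, 3, 0, 1, 8, 5, 6, 7, 4].getD i 0) :=
  autOf_of_ok (by decide +kernel)

theorem a1_9 : AutOf 9 mB1 (fun i => [0, 7, 4, 6, 2, 5, 3, 1, 8].getD i 0) :=
  autOf_of_ok (by decide +kernel)

theorem q1_0 : QF (WL 9 mB1) {0, 5, 8} {0, 5, 8} :=
  qf_D (by decide +kernel) oD1_0_5_8

theorem q1_1 : QF (WL 9 mB1) {3} {1} :=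
  qf_EE (by decide) (by decide) (by decide) oEE1_3_1

theorem q1_2 : QF (WL 9 mB1) {6} {1} :=
  qf_EE (by decide) (by decide) (by decide) oEE1_6_1

theorem q1_3 : QF (WL 9 mB1) {0, 5, 8} {1} :=
  qf_TE (by decide +kernel) (by decide) (by decide) (by decide) (by decide)
    oTE1_0_5_8_1
    oTE1_5_0_8_1
    (oTE1_0_5_8_1.aut a1_0 (by decide) (by decide) (by decide) (by decide)).swap

theorem q1_4 : QF (WL 9 mB1) {2, 4, 5} {0, 5, 8} :=
  qf_TT (by decide +kernel) (by decide +kernel) (by decide) (by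
    intro p hp q hq
    simp only [List.mem_cons, List.not_mem_nil, or_false] at hp hq
    rcases hp with rfl | rfl | rfl <;> rcases hq with rfl | rfl | rfl
    · exact oTT1_2_4_5_0_5_8
    · exact (oTT1_5_2_4_0_5_8.aut a1_1 (by decide) (by decide) (by decide) (by decide) (by decide) (by decide)).symm.swap
    · exact (oTT1_2_4_5_0_5_8.aut a1_2 (by decide) (by decide) (by decide) (by decide) (by decide) (by decide)).symm.swap.symm
    · exact (oTT1_2_4_5_0_5_8.aut a1_3 (by decide) (by decide) (by decide) (by decide) (by decide) (by decide))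
    · exact (oTT1_5_2_4_0_5_8.aut a1_4 (by decide) (by decide) (by decide) (by decide) (by decide) (by decide)).swap.symm.swap
    · exact (oTT1_2_4_5_0_5_8.aut a1_0 (by decide) (by decide) (by decide) (by decide) (by decide) (by decide)).symm.swap.symm
    · exact oTT1_5_2_4_0_5_8
    · exact oTT1_5_2_4_5_0_8
    · exact (oTT1_5_2_4_0_5_8.aut a1_0 (by decide) (by decide) (by decide) (by decide) (by decide) (by decide)).swap.symm.swap.symm)

theorem master1 : Master1 := by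
  refine cl_of_cover [({0, 5, 8}, {0, 5, 8}), ({3}, {1}), ({6}, {1}), ({0, 5, 8}, {1}), ({2, 4, 5}, {0, 5, 8})]
    [fun i => [8, 1, 4, 3, 2, 5, 6, 7, 0].getD i 0,
     fun i => [4, 6, 0, 7, 8, 5, 3, 1, 2].getD i 0,
     fun i => [0, 3, 2, 1, 4, 5, 7, 6, 8].getD i 0,
     fun i => [4, 7, 0, 6, 8, 5, 1, 3, 2].getD i 0,
     fun i => [2, 1, 0, 3, 8, 5, 7, 6, 4].getD i 0,
     fun i => [0, 6, 4, 7, 2, 5, 1, 3, 8].getD i 0,
     fun i => [2, 3, 0, 1, 8, 5, 6, 7, 4].getD i 0,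
     fun i => [0, 7, 4, 6, 2, 5, 3, 1, 8].getD i 0] ?_ ?_ ?_
  · intro g hg
    simp only [List.mem_cons, List.not_mem_nil, or_false] at hg
    rcases hg with rfl | rfl | rfl | rfl | rfl | rfl | rfl | rfl
    exacts [a1_0, a1_5, a1_6, a1_7, a1_1, a1_3, a1_8, a1_9]
  · intro p hp
    simp only [List.mem_cons, List.not_mem_nil, or_false] at hp
    rcases hp with rfl | rfl | rfl | rfl | rfl
    exacts [⟨by decide, by decide, q1_0⟩, ⟨by decide, by decide, q1_1⟩, ⟨by decide, by decide, q1_2⟩, ⟨by decide, by decide, q1_3⟩, ⟨by decide, by decide, q1_4⟩]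
  · decide +kernel

end Pool.Agent.Lib.MP_c69b6d_co.F
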