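import Pool.Agent.Lib.MP_c69b6d_co.F.M10a
import Pool.Agent.Lib.MP_c69b6d_co.F.Red

/-! The master matroid number 10. -/

namespace Pool.Agent.Lib.MP_c69b6d_co.F

open Finset

set_option maxRecDepth 100000

/-- two automorphisms. -/
def g10 (b : Bool) : List ℕ :=
  if b then [4, 7, 3, 5, 9, 10, 6, 8, 2, 1, 11, 0] else [1, 11, 4, 2, 7, 9, 8, 10, 6, 0, 5, 3]

theorem aut10 (b : Bool) : AutOf 12 mB10 (fun i => (g10 b).getD i 0) := by
  cases b
  · exact autOf_of_ok (by decide +kernel)
  · exact autOf_of_ok (by decide +kernel)

/-- the image of the first pair under a word in the two automorphisms. -/
def act10 : List Bool → ℕ × ℕ
  | [] => (1, 0)
  | b :: w => ((g10 b).getD (act10 w).1 0, (g10 b).getD (act10 w).2 0)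

theorem rep10 (w : List Bool) :
    (act10 w).1 < 12 ∧ (act10 w).2 < 12 ∧ OblEE 12 mB10 (act10 w).1 (act10 w).2 := by
  induction w with
  | nil => exact ⟨by decide, by decide, m10o⟩
  | cons b w ih =>
    exact ⟨(aut10 b).1 _ ih.1, (aut10 b).1 _ ih.2.1, OblEE.aut (aut10 b) ih.1 ih.2.1 ih.2.2⟩

/-- one word for each pair. -/
def w10 : List (List Bool) :=
  [[], [false], [true], [false, false], [true, false], [false, true], [true, true], [false, false, false], [true, false, false], [false, true, false], [true, true, false], [false, false, true], [true, false, true], [false, true, true], [true, true, true], [false, false, false, false], [true, false, false, false], [false, true, false, false], [true, true, false, false], [false, false, true, false], [true, false, true, false], [false, true, true, false], [true, true, true, false], [false, false, false, true], [true, false, false, true], [false, true, false, true], [true, true, false, true], [false, false, true, true], [true, false, true, true], [false, true, true, true], [true, true, true, true], [true, false, false, false, false], [false, false, true, false, false], [true, false, true, false, false], [false, true, true, false, false], [true, true, true, false, false], [true, false, false, true, false], [false, true, false, true, false],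 [true, true, false, true, false], [false, false, true, true, false], [true, false, true, true, false], [false, true, true, true, false], [true, true, true, true, false], [false, false, false, false, true], [false, false, true, false, true], [true, false, true, false, true], [false, true, true, false, true], [true, true, true, false, true], [false, false, false, true, true], [true, false, false, true, true], [false, true, false, true, true], [true, true, false, true, true], [false, true, true, true, true], [true, true, true, true, true], [true, true, false, false, false, false], [false, false, true, true, false, false], [false, true, true, true, false, false], [false, false, true, false, true, false], [false, true, true, false, true, false], [true, false, false, true, true, false], [true, true, false, true, true, false], [true, false, true, true, true, false], [true, true, false, true, false, true], [true, false, true, true, false, true], [false, false, false, false, true, true], [false, false, true, true, true, true]]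

theorem cover10 : ∀ e < 12, ∀ f < 12, e = f ∨ ∃ p ∈ w10.map act10,
    (p.1 = e ∧ p.2 = f) ∨ (p.1 = f ∧ p.2 = e) := by
  decide +kernel

theorem master10 : Master10 := by
  rintro T T' (⟨e, he, rfl⟩ | h) (⟨f, hf, rfl⟩ | h') -
  · rw [mem_range] at he hf
    by_cases hef : e = f
    · subst hef; exact qf_self _ _ _
    · refine qf_EE he hf hef ?_
      obtain h | ⟨p, hp, h⟩ := cover10 e he f hf
      · exact absurd h hef
      · obtain ⟨w, -, rfl⟩ := List.mem_map.1 hp
        rcases h with ⟨rfl, rfl⟩ | ⟨rfl, rfl⟩
        · exact (rep10 w).2.2
        · exact (rep10 w).2.2.symm
  · exact absurd h' List.not_mem_nil
  · exact absurd h List.not_mem_nil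
  · exact absurd h List.not_mem_nil

end Pool.Agent.Lib.MP_c69b6d_co.F
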