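import Pool.Agent.Lib.MP_c69b6d_co.F.M4g

/-! The certificate for the pair obligation of the master matroid 10 (thirty squares, one for each block of the Steiner system on the ten remaining points). -/

namespace Pool.Agent.Lib.MP_c69b6d_co.F

set_option maxRecDepth 100000

theorem m10o : ∀ y : ℕ → ℝ, (∀ i, 0 ≤ y i) → 0 ≤ Dl 12 mB10 1 0 y :=
  H.oblEE_G (H.of_chkG (d := 12) (c := 3) (h := 9) (ms := [(7, 0)]) (As := [])
    (bs := [(0, 90, 0xea0e90e48e44e30e0cdc0da0d60d18d14d0cce0cb0ca8ca4c8cc4cc2cc1cbc0b84b44b30b28b18ac4ab0a70a64a54a4ca38a349e09d09c89c499895893891c8d88ac8747907847607487287146d06c86b069869466865864c5e059457056856455453451c4d84ac4743c43a83a439438c36833832c2d82ac2741d81ac1740f80f40ec0dc0bc07c, [(0, 0x100824c901000101200000201001004008009000201000200840000201000200049),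
      (0, 0x201048000200209324000060200020041000200201001001000001020200048009),
      (0, 0x990c208008004000009000108008040200200200040800048001000201040000241),
      (0, 0x8008001040200208200009000008040001324201020000800208200100009008201),
      (0, 0x9001040000240048201009000000001048248200200201048000024924),
      (0, 0x41240000048000041000201040200004849800100260000008004008009001048),
      (0, 0x24261001204000049000300000040200200041004008001001001048000040009008),
      (0, 0x9000000240048024849840000004001040048048000000048000800040200041240),
      (0, 0x240921260001000048009000800008009200048000108000040048000000209200),
      (0, 0x1200000001209000000048240120900849008000000009208000041240004240000),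
      (0, 0x8001040040000000000041041208201000000009200240041200120804309840000),
      (0, 0x4800000104120024000000004104800000004100120412404c208009001300000),
      (0, 0x201008208048001208208000000000000120804041008309240208848000000),
      (0, 0x8208040240000024804240041260040240049000000000009041260000000),
      (0, 0x920801008201009009208308201008248008241061000000000000000)]),
    (0, 90, 0xf80f40f20f10f08f04e88e50e24d88d50d24cd0cc4c94c70c68c58c54c38b88b50b24ae0ac8aa8a98a94a8ca68a1c9b09a499496896494c93492c8e88d48b489c87886c7887507246e06c46a466463863462c61c5c85c45b05a859858c54c5384e44d44cc4b847843c3e03d03b037035835434c31c2f02e82e429c25c23c1f01cc1b81b416c15c, [(0, 0x240000248200000001200000200240200248200000920109100000201041000809),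
      (0, 0x8040001200040049041000124004044040000201001001008001000041008041101),
      (0, 0x8001209064800800048000000048060008000001040208004041040040200208001),
      (0, 0x208209040124100000200240001001300008040008000208220001200200208001),
      (0, 0x9000000001208208001001001008041041040000008041008000924048800244),
      (0, 0x48240000200200001001000001201009200024900001201204009000240100048),
      (0, 0x9000240000048000000048008040001009224900000240020048000048021200048),
      (0, 0x8200000008040008200240000240008041040009009000001008924000801061008),
      (0, 0x1008001201000209000008200920808220000040200040048001201000008048220),
      (0, 0x100100024000900000800800900004020024000026400480080924000004100c040),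
      (0, 0x1200048009000001324004048000109000000008208040000240000208100241200),
      (0, 0x4104800000104120092080000820084800120000000900024004800020c001200),
      (0, 0x804020101248240841049200000000000100000001241240000209049000000000),
      (0, 0x20020804009209060000000049208200004009208240000000000248209000000000),
      (0, 0x4100100800000004048241241249000000809049049208240000000000000000000)])])
    (by decide) trivial (by decide +kernel))

end Pool.Agent.Lib.MP_c69b6d_co.F
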