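import Pool.Agent.Lib.MP_c69b6d_co.F.M11x
import Pool.Agent.Lib.MP_c69b6d_co.F.Red

/-! The master matroid number 11. -/

namespace Pool.Agent.Lib.MP_c69b6d_co.F

open Finset

set_option maxRecDepth 100000

/-- two automorphisms. -/
def g11 (b : Bool) : List ℕ :=
  if b then [5, 6, 0, 3, 8, 10, 4, 11, 1, 7, 12, 2, 9] else [11, 1, 7, 5, 9, 12, 0, 4, 3, 2, 8, 10, 6]

theorem aut11 (b : Bool) : AutOf 13 mB11 (fun i => (g11 b).getD i 0) := by
  cases b
  · exact autOf_of_ok (by decide +kernel)
  · exact autOf_of_ok (by decide +kernel)

/-- the image of the first pair under a word in the two automorphisms. -/
def act11 : List Bool → ℕ × ℕ
  | [] => (1, 0)
  | b :: w => ((g11 b).getD (act11 w).1 0, (g11 b).getD (act11 w).2 0)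

theorem rep11 (w : List Bool) :
    (act11 w).1 < 13 ∧ (act11 w).2 < 13 ∧ OblEE 13 mB11 (act11 w).1 (act11 w).2 := by
  induction w with
  | nil => exact ⟨by decide, by decide, m11o⟩
  | cons b w ih =>
    exact ⟨(aut11 b).1 _ ih.1, (aut11 b).1 _ ih.2.1, OblEE.aut (aut11 b) ih.1 ih.2.1 ih.2.2⟩

/-- one word for each pair. -/
def w11 : List (List Bool) :=
  [[], [false], [true], [false, false], [true, false], [false, true], [true, true], [false, false, false], [true, false, false], [false, true, false], [true, true, false], [false, false, true], [true, false, true], [false, true, true], [true, true, true], [false, false, false, false], [true, false, false, false], [false, true, false, false], [true, true, false, false], [false, false, true, false], [true, false, true, false], [false, true, true, false], [true, true, true, false], [false, false, false, true], [true, false, false, true], [false, true, false, true], [true, true, false, true], [false, false, true, true], [true, false, true, true], [false, true, true, true], [true, true, true, true], [false, false, false, false, false], [true, true, false, false, false], [false, false, true, false, false], [true, false, true, false, false], [false, true, true, false, false], [true, true, true, false, false], [false, false, false, true, false], [true, false, false, true, false], [false,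 true, false, true, false], [true, true, false, true, false], [true, false, true, true, false], [false, true, true, true, false], [false, false, false, false, true], [true, false, false, false, true], [false, true, false, false, true], [true, true, false, false, true], [false, false, true, false, true], [true, false, true, false, true], [false, true, true, false, true], [true, true, true, false, true], [false, false, false, true, true], [true, false, false, true, true], [false, true, false, true, true], [false, false, true, true, true], [true, false, true, true, true], [false, true, true, true, true], [false, false, false, false, false, false], [true, false, false, false, false, false], [false, false, false, true, false, false], [true, false, false, true, false, false], [false, true, false, true, false, false], [true, true, false, true, false, false], [true, false, false, false, true, false], [false, true, false, false, true, false], [false, false, true, false, true, false], [false, true, false, true, true, false], [true, false, true, true, true, false], [false, false, false, false, false, true], [true, false, true, false, false, true], [false, true, true, false, false, true], [false, true, false, true, false, true], [false, false, false, false, true, true], [true, true, false, false, true, true], [true, false, false, true, true, true],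 [true, true, false, true, true, true], [true, false, false, false, false, false, false], [true, false, true, false, true, false, true]]

theorem cover11 : ∀ e < 13, ∀ f < 13, e = f ∨ ∃ p ∈ w11.map act11,
    (p.1 = e ∧ p.2 = f) ∨ (p.1 = f ∧ p.2 = e) := by
  decide +kernel

theorem master11 : Master11 := by
  rintro T T' (⟨e, he, rfl⟩ | h) (⟨f, hf, rfl⟩ | h') -
  · rw [mem_range] at he hf
    by_cases hef : e = f
    · subst hef; exact qf_self _ _ _
    · refine qf_EE he hf hef ?_
      obtain h | ⟨p, hp, h⟩ := cover11 e he f hf
      · exact absurd h hef
      · obtain ⟨w, -, rfl⟩ := List.mem_map.1 hp
        rcases h with ⟨rfl, rfl⟩ | ⟨rfl, rfl⟩
        · exact (rep11 w).2.2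
        · exact (rep11 w).2.2.symm
  · exact absurd h' List.not_mem_nil
  · exact absurd h List.not_mem_nil
  · exact absurd h List.not_mem_nil

end Pool.Agent.Lib.MP_c69b6d_co.F
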