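import Pool.Agent.Lib.MP_c69b6d_co.F.M4g

/-! The certificate for the pair obligation of the master matroid 11: the nine points off the line
through the pair form a three by three grid, the squares are the entries of the doubly centred
cofactor matrix. -/

namespace Pool.Agent.Lib.MP_c69b6d_co.F

set_option maxRecDepth 100000

theorem m11o : ∀ y : ℕ → ℝ, (∀ i, 0 ≤ y i) → 0 ≤ Dl 13 mB11 1 0 y :=
  H.oblEE_G (H.of_chkG (d := 13) (c := 4) (h := 11) (ms := [(35, 0)]) (As := [])
    (bs := [(0, 18, 0x30011008204011800840408140084041009004101800a004802100c0014, [(0, 0x373112432431448212),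
      (0, 0x842442423131173312),
      (0, 0x342113722184143243),
      (0, 0x243143182424713312),
      (0, 0x312473133124442812),
      (0, 0x212148432137412343),
      (0, 0x248412133721413243),
      (0, 0x313742128421142343),
      (0, 0x213413423434112278)])])
    (by decide) trivial (by decide +kernel))

end Pool.Agent.Lib.MP_c69b6d_co.F
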