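import Pool.Agent.Lib.MP_c69b6d_co.F.M12e
import Pool.Agent.Lib.MP_c69b6d_co.F.Red

/-! The master matroid number 12 (the Veronese surface of the projective plane of order 3). -/

namespace Pool.Agent.Lib.MP_c69b6d_co.F

open Finset

set_option maxRecDepth 100000

namespace M12

theorem Dl_congr (n : ℕ) (L : List ℕ) (i j : ℕ) {y z : ℕ → ℝ} (h : ∀ k < n, y k = z k) :
    Dl n L i j y = Dl n L i j z := by
  unfold Dl sm2
  simp only [fun L' => WL_congr n L' h]

theorem WL_cont (n : ℕ) (L : List ℕ) (y : ℕ → ℝ) :
    Continuous fun x : ℝ => WL n L fun i => y i + x := by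
  unfold WL
  refine continuous_list_sum _ fun S _ => continuous_finsetProd _ fun i _ => ?_
  split_ifs <;> fun_prop

theorem Dl_cont (n : ℕ) (L : List ℕ) (i j : ℕ) (y : ℕ → ℝ) :
    Continuous fun x : ℝ => Dl n L i j fun i => y i + x := by
  unfold Dl sm2
  split_ifs
  · exact (WL_cont _ _ _).pow 2
  · exact ((WL_cont _ _ _).mul (WL_cont _ _ _)).sub ((WL_cont _ _ _).mul (WL_cont _ _ _))

/-- a permutation of thirteen points as a map on the natural numbers. -/
def ext (σ : Equiv.Perm (Fin 13)) (i : ℕ) : ℕ := if h : i < 13 then (σ ⟨i, h⟩ : ℕ) else i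

theorem ext_fin (σ : Equiv.Perm (Fin 13)) (i : Fin 13) : ext σ i = σ i := dif_pos i.2

theorem ext_mul (σ τ : Equiv.Perm (Fin 13)) (i : ℕ) : ext (σ * τ) i = ext σ (ext τ i) := by
  by_cases h : i < 13
  · rw [ext, dif_pos h, ext_fin τ ⟨i, h⟩, ext_fin]; rfl
  · simp [ext, h]

theorem ext_one (i : ℕ) : ext 1 i = i := by
  unfold ext; split_ifs <;> rfl

/-- the permutations which fix the Rayleigh difference. -/
def HH (L : List ℕ) : Subgroup (Equiv.Perm (Fin 13)) where
  carrier := {σ | ∀ y : ℕ → ℝ, (Dl 13 L 0 1 fun i => y (ext σ i)) = Dl 13 L 0 1 y}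
  one_mem' := fun y => by simp only [ext_one]
  mul_mem' := fun {σ τ} hσ hτ y => by
    simp only [ext_mul]
    exact (hτ fun i => y (ext σ i)).trans (hσ y)
  inv_mem' := fun {σ} hσ y => by
    rw [← hσ fun i => y (ext σ⁻¹ i)]
    simp only [← ext_mul, inv_mul_cancel, ext_one]

noncomputable instance (L : List ℕ) : Fintype (HH L) := Fintype.ofFinite _

/-- the symmetrised monomials are invariant under `g`. -/
def Inv (L : List ℕ) (g : ℕ → ℕ) : Prop :=
  ∀ (e : ℕ → ℕ) (y : ℕ → ℝ), ∑ σ : HH L, monoE (fun j => e (g j)) (fun i => y (ext σ i)) =
    ∑ σ : HH L, monoE e fun i => y (ext σ i)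

theorem Inv.comp {L : List ℕ} {g h : ℕ → ℕ} (hg : Inv L g) (hh : Inv L h) :
    Inv L fun i => g (h i) := fun e y => (hh (fun j => e (g j)) y).trans (hg e y)

theorem Inv.iter {L : List ℕ} {g : ℕ → ℕ} (hg : Inv L g) (k : ℕ) : Inv L g^[k] := by
  induction k with
  | zero => exact fun _ _ => rfl
  | succ k ih => exact ih.comp hg

theorem inv_of_aut {L : List ℕ} {g : ℕ → ℕ} (hg : AutOf 13 L g)
    (h : (g 0 = 0 ∧ g 1 = 1) ∨ (g 0 = 1 ∧ g 1 = 0)) : Inv L g := by
  let τ : Equiv.Perm (Fin 13) := Equiv.ofBijective (fun i => ⟨g i, hg.1 i i.2⟩)
    (Finite.injective_iff_bijective.1 fun i j e =>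
      Fin.ext (hg.2.1 i i.2 j j.2 (congrArg Fin.val e)))
  have e1 : ∀ i < 13, ext τ i = g i := fun i hi => dif_pos hi
  have hτ : τ ∈ HH L := fun y => by
    rw [Dl_congr 13 L 0 1 (z := fun i => y (g i)) fun k hk => by rw [e1 k hk],
      ← hg.Dl_eq (by norm_num) (by norm_num)]
    rcases h with ⟨a, b⟩ | ⟨a, b⟩
    · rw [a, b]
    · rw [a, b, Dl_symm]
  intro e y
  rw [← Equiv.sum_comp (Equiv.mulRight (⟨τ, hτ⟩ : HH L))]
  refine sum_congr rfl fun σ _ => ?_
  unfold monoE
  rw [prod_range, prod_range, ← Equiv.prod_comp τ fun i : Fin 13 => y (ext σ i) ^ e i]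
  refine prod_congr rfl fun i _ => ?_
  have e2 : ext ((Equiv.mulRight (⟨τ, hτ⟩ : HH L) σ : HH L) : Equiv.Perm (Fin 13)) i =
      ext σ (τ i) := by
    rw [← ext_fin τ, ← ext_mul]; rfl
  beta_reduce
  rw [e2]
  rfl

theorem autc : AutOf 13 mB12 gc := autOf_of_ok (by decide +kernel)

theorem auts : AutOf 13 mB12 gs := autOf_of_ok (by decide +kernel)

theorem autw : AutOf 13 mB12 gw := autOf_of_ok (by decide +kernel)

theorem inv_gp (h : ℕ) : Inv mB12 (gp h) := by
  have c := inv_of_aut autc (Or.inl ⟨rfl, rfl⟩)
  have s := inv_of_aut auts (Or.inl ⟨rfl, rfl⟩)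
  have w := inv_of_aut autw (Or.inr ⟨rfl, rfl⟩)
  exact (c.iter _).comp ((s.iter _).comp (((w.comp (c.comp w)).iter _).comp
    (((w.comp (s.comp w)).iter _).comp (w.iter _))))

theorem lens : (sel3 1 mB12).length * (sel3 2 mB12).length < 2 ^ 17 ∧
    (sel3 3 mB12).length * (sel3 0 mB12).length < 2 ^ 17 ∧ wsD dat0 < 512 ∧ wsD dat1 < 512 ∧
    wsD dat2 < 512 ∧ 3 ^ 11 * ((576 + 8) * 2 ^ 17) + ms0.length * (ms0.length * 2 ^ 25) +
      ms1.length * (ms1.length * 2 ^ 25) + ms2.length * (ms2.length * 2 ^ 25) < 2 ^ 44 := by
  decide +kernel

theorem sym_nonneg (C : Ctx) : 0 ≤ ∑ σ, ((576 : ℕ) * (C.Y σ 2 * C.Y σ 3) +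
    (8 : ℕ) * (C.Y σ 2 * C.Y σ 11)) * Dl 13 mB12 0 1 (C.Y σ) := by
  obtain ⟨l1, l2, w0, w1, w2, hb⟩ := lens
  have hM : 0 < 1055 := by norm_num
  have h0 := runD_spec (C := C) (TB := cTB) hM 576 8 (k := 11) le_rfl mB12 hsD l1 l2
  have r0 := run0
  rw [Bool.and_eq_true] at r0
  rw [Nat.eq_of_beq_eq_true r0.1, Nat.eq_of_beq_eq_true r0.2] at h0
  have h1 := runB_spec hM 12 ms0 dat0 w0 h0
  have h2 := runB_spec hM 2124 ms1 dat1 w1 h1
  have h3 := runB_spec hM 2076 ms2 dat2 w2 h2
  exact h3.final hb run1

theorem dl_pos (y : ℕ → ℝ) (hy : ∀ i, 0 < y i) : 0 ≤ Dl 13 mB12 0 1 y := by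
  have h := sym_nonneg ⟨HH mB12, inferInstance, fun σ i => y (ext σ i), fun σ i => (hy _).le,
    fun h e => inv_gp h e y⟩
  have e : ∀ σ : HH mB12, (Dl 13 mB12 0 1 fun i => y (ext σ i)) = Dl 13 mB12 0 1 y :=
    fun σ => σ.2 y
  simp only [e, ← sum_mul] at h
  refine nonneg_of_mul_nonneg_right h (sum_pos (fun σ _ => ?_) ⟨1, mem_univ _⟩)
  have h1 := hy (ext σ 2)
  have h2 := hy (ext σ 3)
  have h3 := hy (ext σ 11)
  positivity

theorem obl : OblEE 13 mB12 0 1 := by
  intro y hy
  have h2 : Filter.Tendsto (fun x : ℝ => Dl 13 mB12 0 1 fun i => y i + x)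
      (nhdsWithin 0 (Set.Ioi 0)) (nhds (Dl 13 mB12 0 1 fun i => y i + 0)) :=
    ((Dl_cont 13 mB12 0 1 y).tendsto 0).mono_left nhdsWithin_le_nhds
  have h3 := ge_of_tendsto h2 (eventually_nhdsWithin_of_forall fun x hx =>
    dl_pos _ fun i => add_pos_of_nonneg_of_pos (hy i) hx)
  simpa only [add_zero] using h3

/-- an automorphism which moves the first pair. -/
def gz (i : ℕ) : ℕ := [2, 8, 7, 0, 1, 3, 9, 10, 11, 12, 6, 5, 4].getD i 0

theorem autz : AutOf 13 mB12 gz := autOf_of_ok (by decide +kernel)

/-- the image of the first pair under a word in two automorphisms. -/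
def act : List Bool → ℕ × ℕ
  | [] => (0, 1)
  | b :: w => (cond b gz gc (act w).1, cond b gz gc (act w).2)

theorem rep (w : List Bool) :
    (act w).1 < 13 ∧ (act w).2 < 13 ∧ OblEE 13 mB12 (act w).1 (act w).2 := by
  induction w with
  | nil => exact ⟨by decide, by decide, obl⟩
  | cons b w ih =>
    have : AutOf 13 mB12 (cond b gz gc) := by
      cases b
      · exact autc
      · exact autz
    exact ⟨this.1 _ ih.1, this.1 _ ih.2.1, OblEE.aut this ih.1 ih.2.1 ih.2.2⟩

/-- one word for each pair. -/
def words : List (List Bool) :=
  [[], [true], [false, true], [true, true], [false, false, true], [true, false, true], [false,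
    true, true], [true, true, true], [true, false, false, true], [false, true, false, true],
    [true, true, false, true], [false, false, true, true], [true, false, true, true], [false,
    true, true, true], [true, true, true, true], [false, true, false, false, true], [true, true,
    false, false, true], [false, false, true, false, true], [true, false, true, false, true],
    [false, true, true, false, true], [true, true, true, false, true], [true, false, false,
    true, true], [false, true, false, true, true], [true, true, false, true, true], [false,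
    false, true, true, true], [true, false, true, true, true], [false, true, true, true, true],
    [true, true, true, true, true], [false, true, true, false, false, true], [true, true, true,
    false, false, true], [true, false, false, true, false, true], [false, true, false, true,
    false, true], [true, true, false, true, false, true], [false, false, true, true, false,
    true], [false, true, true, true, false, true], [true, true, true, true, false, true],
    [false, true, false, false, true, true], [false, false, true, false, true, true], [true,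
    false, true, false, true, true], [false, true, true, false, true, true], [true, true, true,
    false, true, true], [true, false, false, true, true, true], [false, true, false, true, true,
    true], [true, true, false, true, true, true], [false, false, true, true, true, true], [true,
    false, true, true, true, true], [true, true, true, true, true, true], [false, false, true,
    true, false, false, true], [true, false, true, true, false, false, true], [false, true,
    false, false, true, false, true], [true, true, false, false, true, false, true], [false,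
    false, true, false, true, false, true], [true, false, false, true, true, false, true],
    [false, false, true, true, true, false, true], [false, true, true, true, true, false, true],
    [true, true, true, true, true, false, true], [true, false, true, false, false, true, true],
    [false, true, false, true, false, true, true], [true, true, false, true, false, true, true],
    [false, false, true, true, false, true, true], [true, false, true, true, false, true, true],
    [false, true, true, true, false, true, true], [true, true, true, true, false, true, true],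
    [false, true, false, false, true, true, true], [false, false, true, false, true, true,
    true], [true, true, true, false, true, true, true], [true, false, false, true, true, true,
    true], [true, true, true, true, true, true, true], [true, false, false, true, true, false,
    false, true], [false, true, false, true, true, false, false, true], [true, true, true,
    false, false, true, false, true], [true, false, false, true, false, true, false, true],
    [true, true, false, false, true, true, false, true], [false, true, true, true, true, true,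
    false, true], [false, false, true, false, true, false, true, true], [false, true, true,
    false, true, false, true, true], [true, false, true, true, true, false, true, true], [true,
    true, true, true, true, true, true, true]]

theorem cover : ∀ e < 13, ∀ f < 13, e = f ∨ ∃ p ∈ words.map act,
    (p.1 = e ∧ p.2 = f) ∨ (p.1 = f ∧ p.2 = e) := by
  decide +kernel

end M12

theorem master12 : Master12 := by
  rintro T T' (⟨e, he, rfl⟩ | h) (⟨f, hf, rfl⟩ | h') -
  · rw [mem_range] at he hf
    by_cases hef : e = f
    · subst hef; exact qf_self _ _ _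
    · refine qf_EE he hf hef ?_
      obtain h | ⟨p, hp, h⟩ := M12.cover e he f hf
      · exact absurd h hef
      · obtain ⟨w, -, rfl⟩ := List.mem_map.1 hp
        rcases h with ⟨rfl, rfl⟩ | ⟨rfl, rfl⟩
        · exact (M12.rep w).2.2
        · exact (M12.rep w).2.2.symm
  · exact absurd h' List.not_mem_nil
  · exact absurd h List.not_mem_nil
  · exact absurd h List.not_mem_nil

end Pool.Agent.Lib.MP_c69b6d_co.F
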