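import Pool.Agent.Lib.MP_c69b6d_co.F.Reda

/-! A checker for sums of squares modulo a group of symmetries: packed numbers and routing. -/

namespace Pool.Agent.Lib.MP_c69b6d_co.F.M12

open Finset

/-- the number with digits `f 0, ..., f (n - 1)` in base `B`. -/
def pk (B : ℕ) (f : ℕ → ℕ) : ℕ → ℕ
  | 0 => 0
  | n + 1 => pk B f n + f n * B ^ n

theorem pk_congr {B n : ℕ} {f g : ℕ → ℕ} (h : ∀ i < n, f i = g i) : pk B f n = pk B g n := by
  induction n with
  | zero => rfl
  | succ n ih => rw [pk, pk, ih fun i hi => h i (by omega), h n (by omega)]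

theorem pk_lt {B n : ℕ} {f : ℕ → ℕ} (h : ∀ i < n, f i < B) : pk B f n < B ^ n := by
  induction n with
  | zero => simp [pk]
  | succ n ih =>
    have h1 := ih fun i hi => h i (by omega)
    have h2 : (f n + 1) * B ^ n ≤ B * B ^ n := Nat.mul_le_mul_right _ (h n (by omega))
    rw [pk, pow_succ, mul_comm (B ^ n)]
    rw [add_mul, one_mul] at h2
    omega

theorem pk_len (B : ℕ) (f : ℕ → ℕ) (m n : ℕ) :
    pk B f (m + n) = pk B f m + B ^ m * pk B (fun i => f (m + i)) n := by
  induction n with
  | zero => simp [pk]
  | succ n ih => rw [← add_assoc, pk, pk, ih, pow_add]; ring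

theorem pk_div {B m : ℕ} {f : ℕ → ℕ} (h : ∀ i < m, f i < B) (hB : 0 < B) (n : ℕ) :
    pk B f (m + n) / B ^ m = pk B (fun i => f (m + i)) n := by
  rw [pk_len, Nat.add_mul_div_left _ _ (pow_pos hB _), Nat.div_eq_of_lt (pk_lt h), zero_add]

theorem pk_mod {B m : ℕ} {f : ℕ → ℕ} (h : ∀ i < m, f i < B) (n : ℕ) :
    pk B f (m + n) % B ^ m = pk B f m := by
  rw [pk_len, Nat.add_mul_mod_self_left, Nat.mod_eq_of_lt (pk_lt h)]

theorem pk_head {B n : ℕ} {f : ℕ → ℕ} (h : f 0 < B) :
    pk B f (n + 1) % B = f 0 ∧ pk B f (n + 1) / B = pk B (fun i => f (i + 1)) n := by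
  have h1 := pk_mod (m := 1) (f := f) (B := B) (fun i hi => by
    obtain rfl : i = 0 := by omega
    exact h) n
  have h2 := pk_div (m := 1) (f := f) (B := B) (fun i hi => by
    obtain rfl : i = 0 := by omega
    exact h) (by omega) n
  simp only [pow_one, add_comm 1] at h1 h2
  exact ⟨by simpa [pk] using h1, h2⟩

theorem pk_digit {B n i : ℕ} {f : ℕ → ℕ} (h : ∀ i < n, f i < B) (hi : i < n) :
    pk B f n / B ^ i % B = f i := by
  obtain ⟨k, rfl⟩ : ∃ k, n = i + (k + 1) := ⟨n - i - 1, by omega⟩
  rw [pk_div (fun j hj => h j (by omega)) (by have := h i hi; omega)]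
  exact (pk_head (f := fun j => f (i + j)) (h i hi)).1

theorem pk_lin (B c : ℕ) (f g : ℕ → ℕ) (n : ℕ) :
    pk B (fun i => f i + c * g i) n = pk B f n + c * pk B g n := by
  induction n with
  | zero => rfl
  | succ n ih => rw [pk, pk, pk, ih]; ring

theorem pk_zero (B n : ℕ) : pk B (fun _ => 0) n = 0 := by
  induction n with
  | zero => rfl
  | succ n ih => simp [pk, ih]

theorem pk_one (B : ℕ) {s n : ℕ} (h : s < n) :
    pk B (fun i => if i = s then 1 else 0) n = B ^ s := by
  induction n with
  | zero => omega
  | succ n ih =>
    rw [pk]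
    by_cases e : n = s
    · subst e
      rw [pk_congr (g := fun _ => 0) (fun i hi => if_neg (by omega)), pk_zero]; simp
    · rw [ih (by omega), if_neg e]; simp

theorem land_pow (x k m : ℕ) (h : m = 2 ^ k - 1) : Nat.land x m = x % 2 ^ k := by
  subst h; exact Nat.and_two_pow_sub_one_eq_mod x k

theorem shr_mul (x a k : ℕ) : Nat.shiftRight x (Nat.mul k a) = x / (2 ^ k) ^ a := by
  rw [← pow_mul]; exact Nat.shiftRight_eq_div_pow x _

theorem shr_eq (x k : ℕ) : Nat.shiftRight x k = x / 2 ^ k := Nat.shiftRight_eq_div_pow x _

theorem shl_eq (x k : ℕ) : Nat.shiftLeft x k = x * 2 ^ k := Nat.shiftLeft_eq x _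

/-- three generators of the stabiliser of the pair `0, 1`. -/
def gc (i : ℕ) : ℕ := [0, 1, 2, 8, 3, 10, 5, 12, 4, 7, 6, 11, 9].getD i 0
def gs (i : ℕ) : ℕ := [0, 1, 11, 3, 4, 12, 7, 6, 8, 10, 9, 2, 5].getD i 0
def gw (i : ℕ) : ℕ := [1, 0, 2, 3, 5, 4, 6, 10, 12, 9, 7, 11, 8].getD i 0

/-- the elements of the stabiliser. -/
def gp (h j : ℕ) : ℕ :=
  gc^[h % 3] (gs^[h / 3 % 2] ((fun i => gw (gc (gw i)))^[h / 6 % 3]
    ((fun i => gw (gs (gw i)))^[h / 18 % 2] (gw^[h / 36 % 2] j))))

/-- the codes of the 72 images of an exponent vector. -/
def Img (e : ℕ → ℕ) : ℕ := pk (2 ^ 26) (fun h => pk 4 (fun j => e (gp h j)) 13) 72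

theorem Img_lin (e e' : ℕ → ℕ) (c : ℕ) : Img (fun i => e i + c * e' i) = Img e + c * Img e' := by
  unfold Img
  rw [← pk_lin]
  exact pk_congr fun h _ => pk_lin _ _ _ _ _

theorem Img_add (e e' : ℕ → ℕ) : Img (e + e') = Img e + Img e' := by
  have := Img_lin e e' 1
  simp only [one_mul] at this
  exact this

noncomputable def monoE (e : ℕ → ℕ) (y : ℕ → ℝ) : ℝ := ∏ i ∈ range 13, y i ^ e i

theorem monoE_add (e e' : ℕ → ℕ) (y : ℕ → ℝ) : monoE (e + e') y = monoE e y * monoE e' y := by
  simp [monoE, pow_add, prod_mul_distrib]

theorem monoE_nonneg (e : ℕ → ℕ) {y : ℕ → ℝ} (h : ∀ i, 0 ≤ y i) : 0 ≤ monoE e y :=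
  prod_nonneg fun i _ => pow_nonneg (h i) _

/-- a unit vector. -/
def dl (i : ℕ) : ℕ → ℕ := fun j => if j = i then 1 else 0

theorem monoE_dl {i : ℕ} (hi : i < 13) (y : ℕ → ℝ) : monoE (dl i) y = y i := by
  unfold monoE dl
  rw [prod_eq_single_of_mem i (mem_range.2 hi) fun j _ hj => by simp [hj]]
  simp

/-- a finite family of points which is invariant under the group. -/
structure Ctx where
  ι : Type
  fin : Fintype ι
  Y : ι → ℕ → ℝ
  pos : ∀ σ i, 0 ≤ Y σ i
  inv : ∀ h e, ∑ σ, monoE (fun j => e (gp h j)) (Y σ) = ∑ σ, monoE e (Y σ)

attribute [instance] Ctx.fin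

noncomputable def Ctx.E (C : Ctx) (e : ℕ → ℕ) : ℝ := ∑ σ, monoE e (C.Y σ)

theorem Ctx.E_nonneg (C : Ctx) (e : ℕ → ℕ) : 0 ≤ C.E e :=
  sum_nonneg fun σ _ => monoE_nonneg e (C.pos σ)

noncomputable def Ctx.EC (C : Ctx) (c : ℕ) : ℝ := C.E fun j => c / 4 ^ j % 4

theorem Ctx.ex_top (C : Ctx) (N : ℕ) : ∃ x : ℝ, 0 ≤ x ∧ ∀ c < N, C.EC c ≤ x :=
  ⟨∑ c ∈ range N, C.EC c, sum_nonneg fun _ _ => C.E_nonneg _, fun _ h =>
    single_le_sum (f := fun c => C.EC c) (fun _ _ => C.E_nonneg _) (mem_range.2 h)⟩

/-- the value of a slot. -/
noncomputable def Ctx.Es (C : Ctx) (M TB s : ℕ) : ℝ :=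
  if s < M then C.EC (TB / (2 ^ 26) ^ s % 2 ^ 26)
  else if s = M then (C.ex_top (2 ^ 26)).choose else 0

theorem Ctx.Es_nonneg (C : Ctx) (M TB s : ℕ) : 0 ≤ C.Es M TB s := by
  unfold Ctx.Es
  split_ifs
  · exact C.E_nonneg _
  · exact (C.ex_top _).choose_spec.1
  · exact le_rfl

/-- the slot of the image number `h`, or `bad` if this image is not in the table. -/
noncomputable def slot (M TB bad img h : ℕ) : ℕ :=
  (fun c => (fun s => Bool.rec (motive := fun _ => ℕ) bad s
      (Nat.beq (Nat.land (Nat.shiftRight TB (Nat.mul 26 s)) 67108863) c)) (Nat.mod c M))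
    (Nat.land (Nat.shiftRight img (Nat.mul 26 h)) 67108863)

theorem slot_cases (M TB bad img h : ℕ) : slot M TB bad img h = bad ∨
    (slot M TB bad img h = img / (2 ^ 26) ^ h % 2 ^ 26 % M ∧
      TB / (2 ^ 26) ^ (slot M TB bad img h) % 2 ^ 26 = img / (2 ^ 26) ^ h % 2 ^ 26) := by
  have e : ∀ x a, Nat.land (Nat.shiftRight x (Nat.mul 26 a)) 67108863 =
      x / (2 ^ 26) ^ a % 2 ^ 26 := fun x a => by
    rw [land_pow _ 26 _ (by norm_num), shr_mul]
  have e2 : ∀ (b : Bool) (s : ℕ), Bool.rec (motive := fun _ => ℕ) bad s b = bad ∨
      (b = true ∧ Bool.rec (motive := fun _ => ℕ) bad s b = s) := fun b s => by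
    cases b
    · exact Or.inl rfl
    · exact Or.inr ⟨rfl, rfl⟩
  unfold slot
  beta_reduce
  rw [e img h, e TB]
  generalize img / (2 ^ 26) ^ h % 2 ^ 26 = c
  rcases e2 (Nat.beq (TB / (2 ^ 26) ^ (Nat.mod c M) % 2 ^ 26) c) (Nat.mod c M) with h1 | ⟨h1, h2⟩
  · exact Or.inl h1
  · rw [h2]
    exact Or.inr ⟨rfl, Nat.eq_of_beq_eq_true h1⟩

theorem code_lt {e : ℕ → ℕ} (he : ∀ i, e i < 4) : pk 4 e 13 < 2 ^ 26 :=
  (pk_lt fun j _ => he j).trans_eq (by norm_num)

theorem Img_digit {e : ℕ → ℕ} (he : ∀ i, e i < 4) {h : ℕ} (hh : h < 72) :
    Img e / (2 ^ 26) ^ h % 2 ^ 26 = pk 4 (fun j => e (gp h j)) 13 := by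
  unfold Img
  exact pk_digit (f := fun h => pk 4 (fun j => e (gp h j)) 13)
    (fun h _ => code_lt fun _ => he _) hh

theorem slot_spec (C : Ctx) {M : ℕ} (hM : 0 < M) (TB : ℕ) {e : ℕ → ℕ} (he : ∀ i, e i ≤ 3) {h : ℕ}
    (hh : h < 72) : ∃ c < 2 ^ 26, C.EC c = C.E e ∧ ∀ bad, slot M TB bad (Img e) h = bad ∨
      (slot M TB bad (Img e) h < M ∧ C.Es M TB (slot M TB bad (Img e) h) = C.EC c) := by
  have h4 : ∀ i, e i < 4 := fun i => Nat.lt_succ_of_le (he _)
  refine ⟨pk 4 (fun j => e (gp h j)) 13, code_lt fun _ => h4 _, ?_, fun bad => ?_⟩
  · unfold Ctx.EC Ctx.E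
    rw [← C.inv h e]
    refine sum_congr rfl fun σ _ => prod_congr rfl fun j hj => ?_
    beta_reduce
    rw [pk_digit (f := fun j => e (gp h j)) (fun j _ => h4 _) (mem_range.1 hj)]
  · have := slot_cases M TB bad (Img e) h
    rw [Img_digit h4 hh] at this
    generalize slot M TB bad (Img e) h = s at this
    generalize pk 4 (fun j => e (gp h j)) 13 = c at this
    rcases this with h1 | ⟨h1, h2⟩
    · exact Or.inl h1
    · have hs : s < M := h1 ▸ Nat.mod_lt _ hM
      refine Or.inr ⟨hs, ?_⟩
      unfold Ctx.Es
      rw [if_pos hs, h2]

/-- the two accumulators `p`, `n` have digits at most `bd` and value at most `v`. -/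
def Good (C : Ctx) (M TB p n bd : ℕ) (v : ℝ) : Prop :=
  ∃ f g : ℕ → ℕ, p = pk (2 ^ 44) f (M + 2) ∧ n = pk (2 ^ 44) g (M + 2) ∧ (∀ s, f s ≤ bd) ∧
    (∀ s, g s ≤ bd) ∧ ∑ s ∈ range (M + 2), ((f s : ℝ) - g s) * C.Es M TB s ≤ v

variable {C : Ctx} {M TB : ℕ}

theorem Good.mono {p n bd bd' : ℕ} {v v' : ℝ} (h : Good C M TB p n bd v) (h1 : bd ≤ bd')
    (h2 : v ≤ v') : Good C M TB p n bd' v' := by
  obtain ⟨f, g, a, b, c, d, e⟩ := h
  exact ⟨f, g, a, b, fun s => (c s).trans h1, fun s => (d s).trans h1, e.trans h2⟩

theorem Good.zero : Good C M TB 0 0 0 0 :=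
  ⟨fun _ => 0, fun _ => 0, (pk_zero _ _).symm, (pk_zero _ _).symm, fun _ => le_rfl,
    fun _ => le_rfl, by simp⟩

theorem sum_dl {n s : ℕ} (hs : s < n) (x : ℕ) (f : ℕ → ℕ) (E : ℕ → ℝ) :
    ∑ i ∈ range n, ((f i + x * (if i = s then 1 else 0) : ℕ) : ℝ) * E i =
      ∑ i ∈ range n, (f i : ℝ) * E i + x * E s := by
  push_cast
  simp only [add_mul, sum_add_distrib]
  congr 1
  rw [sum_eq_single_of_mem s (mem_range.2 hs) fun j _ hj => by simp [hj]]
  simp

/-- add `x` in the slot. -/
noncomputable def put (M TB bad acc x δ img h : ℕ) : ℕ :=
  Nat.add acc (Nat.shiftLeft x (Nat.add (Nat.mul 44 (slot M TB bad img h)) δ))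

theorem put_eq (f : ℕ → ℕ) {bad x δ img h : ℕ} (hs : slot M TB bad img h < M + 2) :
    put M TB bad (pk (2 ^ 44) f (M + 2)) x δ img h =
      pk (2 ^ 44) (fun i => f i + (x * 2 ^ δ) * (if i = slot M TB bad img h then 1 else 0))
        (M + 2) := by
  rw [pk_lin, pk_one _ hs, put, shl_eq, ← pow_mul]
  simp only [Nat.add_eq, Nat.mul_eq, pow_add]
  ring

theorem Good.addP {p n bd : ℕ} {v : ℝ} (h : Good C M TB p n bd v) (hM : 0 < M) {e : ℕ → ℕ}
    (he : ∀ i, e i ≤ 3) {k : ℕ} (hk : k < 72) (x δ : ℕ) :
    Good C M TB (put M TB (Nat.succ M) p x δ (Img e) k) n (bd + x * 2 ^ δ)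
      (v + (x * 2 ^ δ : ℕ) * C.E e) := by
  obtain ⟨f, g, rfl, b, c, d, h⟩ := h
  obtain ⟨c0, -, h1, h2⟩ := slot_spec C hM TB he hk
  have h3 : slot M TB (Nat.succ M) (Img e) k < M + 2 := by rcases h2 (Nat.succ M) with h | h <;> omega
  have h4 : C.Es M TB (slot M TB (Nat.succ M) (Img e) k) ≤ C.E e := by
    rcases h2 (Nat.succ M) with h | h
    · rw [h, Ctx.Es, if_neg (by omega), if_neg (by omega)]; exact C.E_nonneg e
    · rw [h.2, h1]
  refine ⟨_, g, put_eq f h3, b, fun s => ?_, fun s => (d s).trans (by omega), ?_⟩
  · have := c s
    split_ifs <;> omega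
  · simp only [sub_mul, sum_sub_distrib] at h ⊢
    rw [sum_dl h3]
    have := mul_le_mul_of_nonneg_left h4 (Nat.cast_nonneg (x * 2 ^ δ))
    linarith

theorem Good.addN {p n bd : ℕ} {v : ℝ} (h : Good C M TB p n bd v) (hM : 0 < M) {e : ℕ → ℕ}
    (he : ∀ i, e i ≤ 3) {k : ℕ} (hk : k < 72) (x δ : ℕ) :
    Good C M TB p (put M TB M n x δ (Img e) k) (bd + x * 2 ^ δ)
      (v - (x * 2 ^ δ : ℕ) * C.E e) := by
  obtain ⟨f, g, a, rfl, c, d, h⟩ := h
  obtain ⟨c0, h0, h1, h2⟩ := slot_spec C hM TB he hk
  have h3 : slot M TB M (Img e) k < M + 2 := by rcases h2 M with h | h <;> omega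
  have h4 : C.E e ≤ C.Es M TB (slot M TB M (Img e) k) := by
    rcases h2 M with h | h
    · rw [h, Ctx.Es, if_neg (by omega), if_pos rfl, ← h1]
      exact (C.ex_top _).choose_spec.2 _ h0
    · rw [h.2, h1]
  refine ⟨f, _, a, put_eq g h3, fun s => (c s).trans (by omega), fun s => ?_, ?_⟩
  · have := d s
    split_ifs <;> omega
  · simp only [sub_mul, sum_sub_distrib] at h ⊢
    rw [sum_dl h3]
    have := mul_le_mul_of_nonneg_left h4 (Nat.cast_nonneg (x * 2 ^ δ))
    linarith

/-- compare the digits. -/
noncomputable def chk (n : ℕ) : ℕ → ℕ → Bool :=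
  Nat.rec (motive := fun _ => ℕ → ℕ → Bool) (fun _ _ => true)
    (fun _ r p q => Bool.rec (motive := fun _ => Bool) false
      (r (Nat.shiftRight p 44) (Nat.shiftRight q 44))
      (Nat.ble (Nat.land q 17592186044415) (Nat.land p 17592186044415))) n

theorem chk_spec {n : ℕ} {f g : ℕ → ℕ} (hf : ∀ s, f s < 2 ^ 44) (hg : ∀ s, g s < 2 ^ 44)
    (h : chk n (pk (2 ^ 44) f n) (pk (2 ^ 44) g n) = true) : ∀ s < n, g s ≤ f s := by
  induction n generalizing f g with
  | zero => intro s hs; omega
  | succ n ih =>
    have e : ∀ p q, chk (n + 1) p q = Bool.rec (motive := fun _ => Bool) false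
      (chk n (Nat.shiftRight p 44) (Nat.shiftRight q 44))
      (Nat.ble (Nat.land q 17592186044415) (Nat.land p 17592186044415)) := fun _ _ => rfl
    rw [e, land_pow _ 44 _ (by norm_num), land_pow _ 44 _ (by norm_num), shr_eq, shr_eq,
      (pk_head (hf 0)).1, (pk_head (hf 0)).2, (pk_head (hg 0)).1, (pk_head (hg 0)).2] at h
    cases hb : Nat.ble (g 0) (f 0)
    · rw [hb] at h; exact absurd h (by simp)
    · rw [hb] at h
      intro s hs
      cases s with
      | zero => exact Nat.le_of_ble_eq_true hb
      | succ s => exact ih (fun s => hf _) (fun s => hg _) h s (by omega)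

theorem Good.final {p n bd : ℕ} {v : ℝ} (h : Good C M TB p n bd v) (hb : bd < 2 ^ 44)
    (hc : chk (M + 2) p n = true) : 0 ≤ v := by
  obtain ⟨f, g, rfl, rfl, c, d, h⟩ := h
  have := chk_spec (fun s => (c s).trans_lt hb) (fun s => (d s).trans_lt hb) hc
  refine le_trans (sum_nonneg fun s hs => mul_nonneg (sub_nonneg.2 ?_) (C.Es_nonneg _ _ _)) h
  exact_mod_cast this s (mem_range.1 hs)

/-- the state: hints and two accumulators. -/
structure St where
  hs : ℕ
  p : ℕ
  n : ℕ

/-- build a state and evaluate the accumulators. -/
noncomputable def mkF (hs p n : ℕ) : St :=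
  Bool.rec (motive := fun _ => St) (St.mk hs p n) (St.mk hs p n) (Nat.ble p n)

theorem mkF_eq (hs p n : ℕ) : mkF hs p n = ⟨hs, p, n⟩ := by
  unfold mkF; cases Nat.ble p n <;> rfl

/-- the packed images of the thirteen variables. -/
def ivL : List ℕ := [0x1000000400000100000040000010000004000001000000400000100000040000010000004000001000000400000100000040000010000004000001000000400000100000040000010000004000001000000400000100000040000010000004000001000000400000100000040000010000004000000400000100000040000010000004000001000000400000100000040000010000004000001000000400000100000040000010000004000001000000400000100000040000010000004000001000000400000100000040000010000004000001000000400000100000040000010000004000001,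
  0x400000100000040000010000004000001000000400000100000040000010000004000001000000400000100000040000010000004000001000000400000100000040000010000004000001000000400000100000040000010000004000001000000400000100000040000010000004000001000001000000400000100000040000010000004000001000000400000100000040000010000004000001000000400000100000040000010000004000001000000400000100000040000010000004000001000000400000100000040000010000004000001000000400000100000040000010000004,
  0x4000001000000404000001000000400000000004000001000000404000001000000400000000004000001000000404000001000000400000100000040000010000000000100000040000010100000040000010000000000100000040000010100000040000010000000000100000040000010000004000001000000404000001000000400000000004000001000000404000001000000400000000004000001000000404000001000000400000100000040000010000000000100000040000010100000040000010000000000100000040000010100000040000010000000000100000040000010,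
  0x40000004000000400001000000100000010000000400000400000004000010000010000000100000100100000000001000004004000000000040010000010000000400000400000400000010000001000000100000004000040000004000000100400000000040000001010000000001000000040001000004000040000000040000100001000000000400010000000010000010000400000000400000040001000000001000001000040000000040010000000400040000000400000010001000000040000000100000010001000000004000000400004000000010000001000100000000400000040,
  0x4000010000001000000100000400000040000000040000100000100000001000004000004000000010000040040000000000400001001000000004000004000004000000100000100000100000000040000400000040000001000010000001000000010100000000010000000404000000000400400000000400001000010000000010000040000000100000100004000000004000004000100000000010000010000400000000400000400010000400000004000000100010000000100000004000000100010000000040000004000400000001000000010001000000004000000400040000000100,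
  0x400000400000004000004004000000000040000100100000000001001000000100000010000040000004000000400000010000010000000100001000000100000004010000000001000000040400000000040000001000400000400000010000010000010000000400000040000004000000100000400010000000010000001000040000000040000040001000000001000040000100001000000001000004000040000000010000400000000400040000000100000010000100000000400000040004000000010000001000400000010001000000010000000400040000001000000004000000400,
  0x40000100000100000000400001001000000000010000040040000000100000400000040000004000010000001000000001000004000004000000040000400000040000000404000000000400000010100000000010000100000100000100000004000004000004000000001000010000001000000100000100004000000000400000400010000000010000010000400010000000010000040000400000000400001000000004000004000100000000100010000000040000000400040000000100000010001000000004010000000100000004000400000004000000100000004000400000001000,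
  0x10000040040000000001000004000004000004000010000001000000000400001001000000000040000100000100000100000400000040000000010100000000010000001000010000001000004000004000004000000000404000000000400000040000400000040000100000100000100000000010000010000400000004000004000100000400000000400001000000000400000400010000000100000100004000010000000010000040000000010001000000004000004000400000001000400000004000000100000000400040000000100000100010000000040010000000100000004000,
  0x10000001000004000000400000040000100000001000000010000040000040000000400001000400000000004000010010000000000100000400040000001000001000001000000040000040000000400000010000100000010000000400004000000100000004040000000004000000101000000010000100000000100000400004000000004000040000000040000040001000000001000001000004000000004000004000100000000100000100001000100000001000000040004000000040000000400000040004000000010000001000100000000040000004000400000001000000100010000,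
  0x400000000004000010000040000000400001000010000001000004000010000000000100000400001000000010000040000400000040000100000000100000004040000000010000000400004000040000001000001000000004000000101000000000400000010000100001000000040000040000004000000004000004001000000001000001000010000100000000100000100000000100000100040000000040000040000400004000000004000000040000004000400000010000001000100000001000100000001000000001000000100010000000400000040004000000040004000000040000,
  0x1000000010000040010000000000100000400400000000004000010000400000040000100000010000001000004000000040000000400001000000400000010000100000004000000101000000000100000004040000001000000040000040000040000001000001000000010000000400004000040000000040000040000100000000100000100004000000004000004000400004000000004000010000100000000100001000000001000001000000400000040004000000001000000100010000000040000004000400000040004000000040000001000100000001000000010000001000100000,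
  0x100000040000010000000000100000040000010100000040000010000000000100000040000010100000040000010000000000100000040000010000004000001000000404000001000000400000000004000001000000404000001000000400000000004000001000000404000001000000400000100000040000010000000000100000040000010100000040000010000000000100000040000010100000040000010000000000100000040000010000004000001000000404000001000000400000000004000001000000404000001000000400000000004000001000000404000001000000400000,
  0x100100000000001000010000010000000100040000004000000400000004004000000000040000400000400000004001000000100000010000400000000040000001000040000004000000100010000010000000400010000000001000000040001000000100000004000400000400000010000000040001000000001000010000400000000400001000004000040000000001000040000000040000400010000000010000040000100001000000004000000010000001001000000004000000400010000000400040000000100000000400000040040000000100000010000400000010001000000]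

def ivf (i : ℕ) : ℕ := ivL.getD i 0

theorem ivf_eq : ∀ i < 13, ivf i = Img (dl i) := by decide +kernel

/-- the packed images of the monomial with mask `S`. -/
noncomputable def imgN (S k : ℕ) : ℕ :=
  Nat.rec (motive := fun _ => ℕ) 0 (fun k r => Bool.rec (motive := fun _ => ℕ) r
    (Nat.add r (ivf k)) (Nat.beq (Nat.land (Nat.shiftRight S k) 1) 1)) k

theorem imgN_spec (S : ℕ) {k : ℕ} (hk : k ≤ 13) :
    ∃ e : ℕ → ℕ, (∀ i, e i ≤ 1) ∧ (∀ i, k ≤ i → e i = 0) ∧ imgN S k = Img e := by
  induction k with
  | zero => exact ⟨fun _ => 0, fun _ => zero_le_one, fun _ _ => rfl, by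
      simp [imgN, Img, pk_zero]⟩
  | succ k ih =>
    obtain ⟨e, h1, h2, h3⟩ := ih (by omega)
    have e0 : imgN S (k + 1) = Bool.rec (motive := fun _ => ℕ) (imgN S k)
      (Nat.add (imgN S k) (ivf k)) (Nat.beq (Nat.land (Nat.shiftRight S k) 1) 1) := rfl
    rw [e0]
    cases Nat.beq (Nat.land (Nat.shiftRight S k) 1) 1
    · exact ⟨e, h1, fun i hi => h2 i (by omega), h3⟩
    · refine ⟨e + dl k, fun i => ?_, fun i hi => ?_, ?_⟩
      · simp only [Pi.add_apply, dl]
        split_ifs with h
        · rw [h2 i (by omega)]
        · simpa using h1 i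
      · simp only [Pi.add_apply, dl]
        rw [h2 i (by omega), if_neg (by omega)]
      · rw [Img_add, ← h3, ← ivf_eq k (by omega)]; rfl

end Pool.Agent.Lib.MP_c69b6d_co.F.M12
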