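import Pool.Agent.Lib.MP_c69b6d_co.F.M12a

/-! A checker for sums of squares modulo a group of symmetries: the Gram matrices. -/

namespace Pool.Agent.Lib.MP_c69b6d_co.F.M12

open Finset

variable {C : Ctx} {M TB : ℕ}

/-- subtract one entry `x - H` of a Gram matrix. -/
noncomputable def ent (M TB δ img H x hs p n : ℕ) (k : ℕ → ℕ → ℕ → St) : St :=
  Bool.rec (motive := fun _ => St)
    (Bool.rec (motive := fun _ => St)
      (k (Nat.div hs 72) p (put M TB M n (Nat.sub x H) δ img (Nat.mod hs 72)))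
      (k (Nat.div hs 72) (put M TB (Nat.succ M) p (Nat.sub H x) δ img (Nat.mod hs 72)) n)
      (Nat.ble x H))
    (k hs p n) (Nat.beq x H)

theorem ent_spec (hM : 0 < M) {e : ℕ → ℕ} (he : ∀ i, e i ≤ 3) (δ : ℕ) {H x b : ℕ} (hH : H ≤ b)
    (hx : x ≤ b) (hs : ℕ) {p n bd : ℕ} {v : ℝ} (h : Good C M TB p n bd v) :
    ∃ hs' p' n', (∀ k, ent M TB δ (Img e) H x hs p n k = k hs' p' n') ∧
      Good C M TB p' n' (bd + b * 2 ^ δ) (v - 2 ^ δ * (((x : ℝ) - H) * C.E e)) := by
  have hk : Nat.mod hs 72 < 72 := Nat.mod_lt _ (by norm_num)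
  unfold ent
  cases h1 : Nat.beq x H
  · cases h2 : Nat.ble x H
    · have h3 : H ≤ x := by
        have := Nat.not_le_of_not_ble_eq_true (n := x) (m := H) (by simp [h2])
        omega
      refine ⟨_, _, _, fun _ => rfl, (h.addN hM he hk (Nat.sub x H) δ).mono ?_ (le_of_eq ?_)⟩
      · exact Nat.add_le_add_left (Nat.mul_le_mul_right _ ((Nat.sub_le _ _).trans hx)) _
      · rw [Nat.sub_eq]; push_cast [Nat.cast_sub h3]; ring
    · have h3 : x ≤ H := Nat.le_of_ble_eq_true h2
      refine ⟨_, _, _, fun _ => rfl, (h.addP hM he hk (Nat.sub H x) δ).mono ?_ (le_of_eq ?_)⟩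
      · exact Nat.add_le_add_left (Nat.mul_le_mul_right _ ((Nat.sub_le _ _).trans hH)) _
      · rw [Nat.sub_eq]; push_cast [Nat.cast_sub h3]; ring
  · refine ⟨_, _, _, fun _ => rfl, h.mono (Nat.le_add_right _ _) (le_of_eq ?_)⟩
    rw [Nat.eq_of_beq_eq_true h1]; ring

/-- subtract the off diagonal entries of a row. -/
noncomputable def rowL (M TB aT H : ℕ) (l : List ℕ) : ℕ → ℕ → ℕ → ℕ → St :=
  List.rec (motive := fun _ => ℕ → ℕ → ℕ → ℕ → St) (fun _ hs p n => mkF hs p n)
    (fun b _ r Z hs p n => ent M TB 1 (Nat.add aT b) H (Nat.land Z 16777215) hs p n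
      (r (Nat.shiftRight Z 24))) l

noncomputable def rsum (C : Ctx) (a : ℕ → ℕ) (X : ℕ → ℝ) : List (ℕ → ℕ) → ℕ → ℝ
  | [], _ => 0
  | e :: es, j => X j * C.E (a + e) + rsum C a X es (j + 1)

theorem rowL_spec (hM : 0 < M) {a : ℕ → ℕ} (ha : ∀ i, a i ≤ 2) {H : ℕ} (hH : H < 2 ^ 24)
    {f : ℕ → ℕ} (hf : ∀ i, f i < 2 ^ 24) (es : List (ℕ → ℕ)) (hes : ∀ e ∈ es, ∀ i, e i ≤ 1)
    (j hs : ℕ) {p n bd : ℕ} {v : ℝ} (h : Good C M TB p n bd v) :
    Good C M TB
      (rowL M TB (Img a) H (es.map Img) (pk (2 ^ 24) (fun i => f (j + i)) es.length) hs p n).p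
      (rowL M TB (Img a) H (es.map Img) (pk (2 ^ 24) (fun i => f (j + i)) es.length) hs p n).n
      (bd + es.length * 2 ^ 25) (v - 2 * rsum C a (fun i => (f i : ℝ) - H) es j) := by
  induction es generalizing j hs p n bd v with
  | nil =>
    have e : ∀ Z, rowL M TB (Img a) H (([] : List (ℕ → ℕ)).map Img) Z hs p n = mkF hs p n :=
      fun _ => rfl
    rw [e, mkF_eq]
    simpa [rsum] using h
  | cons e es ih =>
    have e0 : ∀ Z, rowL M TB (Img a) H ((e :: es).map Img) Z hs p n =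
        ent M TB 1 (Nat.add (Img a) (Img e)) H (Nat.land Z 16777215) hs p n
          (rowL M TB (Img a) H (es.map Img) (Nat.shiftRight Z 24)) := fun _ => rfl
    have e1 := pk_head (n := es.length) (f := fun i => f (j + i)) (hf _)
    have he : ∀ i, (a + e) i ≤ 3 := fun i =>
      Nat.add_le_add (ha i) (hes e List.mem_cons_self i)
    obtain ⟨hs', p', n', h1, h2⟩ := ent_spec hM he 1 hH.le (hf j).le hs h
    rw [e0, land_pow _ 24 _ (by norm_num), shr_eq, List.length_cons, e1.1, e1.2, Nat.add_eq,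
      ← Img_add, add_zero, h1]
    have := ih (fun e he => hes e (List.mem_cons_of_mem _ he)) (j + 1) hs' h2
    have e2 : (fun i => f (j + 1 + i)) = fun i => f (j + (i + 1)) := by
      funext i; congr 1; omega
    rw [e2] at this
    refine this.mono (le_of_eq (by ring)) (le_of_eq ?_)
    simp only [rsum]; ring

/-- a weighted square: the weight and the packed coefficients `128 + c` and `128 - c`. -/
structure Sq where
  w : ℕ
  U : ℕ
  V : ℕ

def SqOK (t : ℕ) (q : Sq) : Prop :=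
  ∃ F G : ℕ → ℕ, q.U = pk (2 ^ 24) F (t + 1) ∧ q.V = pk (2 ^ 24) G (t + 1) ∧ F 0 = 1 ∧ G 0 = 1 ∧
    (∀ i, F i ≤ 256) ∧ (∀ i, G i ≤ 256) ∧ ∀ b < t, F (b + 1) + G (b + 1) = 256

noncomputable def Sq.Q (q : Sq) (b : ℕ) : ℝ := ((q.U / (2 ^ 24) ^ (b + 1) % 2 ^ 24 : ℕ) : ℝ) - 128

/-- add the multiple of the square `w, U, V` given by the digit `u`. -/
noncomputable def acc1 (w U V u r : ℕ) : ℕ :=
  Bool.rec (motive := fun _ => ℕ)
    (Bool.rec (motive := fun _ => ℕ) (Nat.add r (Nat.mul (Nat.mul w (Nat.sub 128 u)) V))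
      (Nat.add r (Nat.mul (Nat.mul w (Nat.sub u 128)) U)) (Nat.ble 128 u))
    r (Nat.beq u 128)

/-- a packed row of the Gram matrix. -/
noncomputable def accL (sh : ℕ) (A : List Sq) : ℕ :=
  List.rec (motive := fun _ => ℕ) 0 (fun q _ r => Sq.rec (motive := fun _ => ℕ)
    (fun w U V => acc1 w U V (Nat.land (Nat.shiftRight U sh) 16777215) r) q) A

def wsum (A : List Sq) : ℕ := (A.map Sq.w).sum

theorem accL_spec {t a : ℕ} (ha : a < t) (A : List Sq) (hA : ∀ q ∈ A, SqOK t q) :
    ∃ f : ℕ → ℕ, accL (Nat.mul 24 (Nat.succ a)) A = pk (2 ^ 24) f (t + 1) ∧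
      (∀ i, f i ≤ 256 * f 0) ∧ f 0 ≤ 128 * wsum A ∧
      ∀ b < t, (f (b + 1) : ℝ) - (128 * f 0 : ℕ) =
        (A.map fun q : Sq => (q.w : ℝ) * q.Q a * q.Q b).sum := by
  induction A with
  | nil => exact ⟨fun _ => 0, (pk_zero _ _).symm, by simp, by simp, by simp⟩
  | cons q A ih =>
    obtain ⟨f, h1, h2, h3, h4⟩ := ih fun q hq => hA q (List.mem_cons_of_mem _ hq)
    obtain ⟨F, G, hU, hV, F0, G0, hF, hG, hFG⟩ := hA q List.mem_cons_self
    have hd : ∀ b < t, q.U / (2 ^ 24) ^ (b + 1) % 2 ^ 24 = F (b + 1) := fun b hb => by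
      rw [hU]
      exact pk_digit (fun i _ => (hF i).trans_lt (by norm_num)) (by omega)
    have hQ : ∀ b < t, q.Q b = F (b + 1) - 128 := fun b hb => by rw [Sq.Q, hd b hb]
    have e0 : accL (Nat.mul 24 (Nat.succ a)) (q :: A) = acc1 q.w q.U q.V
        (Nat.land (Nat.shiftRight q.U (Nat.mul 24 (Nat.succ a))) 16777215)
        (accL (Nat.mul 24 (Nat.succ a)) A) := rfl
    have hw : wsum (q :: A) = q.w + wsum A := by simp [wsum]
    rw [e0, land_pow _ 24 _ (by norm_num), shr_mul, Nat.succ_eq_add_one, hd a ha, hw]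
    rw [Nat.succ_eq_add_one] at h1
    rw [h1]
    unfold acc1
    have hu := hF (a + 1)
    cases b1 : Nat.beq (F (a + 1)) 128
    · cases b2 : Nat.ble 128 (F (a + 1))
      · have h5 : F (a + 1) ≤ 128 := by
          have := Nat.not_le_of_not_ble_eq_true (n := 128) (m := F (a + 1)) (by simp [b2])
          omega
        refine ⟨fun i => f i + q.w * (128 - F (a + 1)) * G i, ?_, fun i => ?_, ?_, fun b hb => ?_⟩
        · rw [pk_lin, ← hV]; rfl
        · have := Nat.mul_le_mul_left (q.w * (128 - F (a + 1))) (hG i)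
          have := h2 i
          simp only [G0]; omega
        · have := Nat.mul_le_mul_left q.w (Nat.sub_le 128 (F (a + 1)))
          simp only [G0]; omega
        · have h6 : (G (b + 1) : ℝ) = 256 - F (b + 1) := by
            have : ((F (b + 1) + G (b + 1) : ℕ) : ℝ) = (256 : ℕ) := by rw [hFG b hb]
            push_cast at this; linarith
          rw [List.map_cons, List.sum_cons, ← h4 b hb, hQ a ha, hQ b hb]
          simp only [G0]
          push_cast [Nat.cast_sub h5]
          rw [h6]; ring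
      · have h5 : 128 ≤ F (a + 1) := Nat.le_of_ble_eq_true b2
        refine ⟨fun i => f i + q.w * (F (a + 1) - 128) * F i, ?_, fun i => ?_, ?_, fun b hb => ?_⟩
        · rw [pk_lin, ← hU]; rfl
        · have := Nat.mul_le_mul_left (q.w * (F (a + 1) - 128)) (hF i)
          have := h2 i
          simp only [F0]; omega
        · have := Nat.mul_le_mul_left q.w (show F (a + 1) - 128 ≤ 128 by omega)
          simp only [F0]; omega
        · rw [List.map_cons, List.sum_cons, ← h4 b hb, hQ a ha, hQ b hb]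
          simp only [F0]
          push_cast [Nat.cast_sub h5]
          ring
    · refine ⟨f, rfl, h2, by omega, fun b hb => ?_⟩
      rw [List.map_cons, List.sum_cons, ← h4 b hb, hQ a ha, Nat.eq_of_beq_eq_true b1]
      simp

/-- widen the bytes of a number. -/
noncomputable def spread (n : ℕ) : ℕ → ℕ :=
  Nat.rec (motive := fun _ => ℕ → ℕ) (fun _ => 0)
    (fun _ r N => Nat.add (Nat.land N 255) (Nat.shiftLeft (r (Nat.shiftRight N 8)) 24)) n

theorem spread_eq (n N : ℕ) : spread n N = pk (2 ^ 24) (fun i => N / 256 ^ i % 256) n := by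
  induction n generalizing N with
  | zero => rfl
  | succ n ih =>
    have e : spread (n + 1) N =
      Nat.add (Nat.land N 255) (Nat.shiftLeft (spread n (Nat.shiftRight N 8)) 24) := rfl
    rw [e, ih, land_pow _ 8 _ (by norm_num), shr_eq, shl_eq, add_comm n 1, pk_len]
    simp only [pk, pow_zero, Nat.div_one, mul_one, zero_add, pow_one, Nat.add_eq, pow_add,
      Nat.div_div_eq_div_mul, mul_comm (2 ^ 24)]
    norm_num

/-- the square with weight `w` and coefficients `N` on the positions from `j` on. -/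
noncomputable def mkSq (t CM KK j w N : ℕ) : Sq :=
  (fun U => Sq.mk w U (Nat.sub KK U)) (Nat.add 1
    (Nat.shiftLeft (spread (Nat.sub t j) (Nat.xor N CM)) (Nat.mul 24 (Nat.succ j))))

def kk (t : ℕ) : ℕ := pk (2 ^ 24) (fun i => if i = 0 then 2 else 256) (t + 1)

theorem mkSq_ok {t j : ℕ} (h : j ≤ t) (CM w N : ℕ) : SqOK t (mkSq t CM (kk t) j w N) := by
  obtain ⟨m, rfl⟩ := Nat.exists_eq_add_of_le h
  set F : ℕ → ℕ := fun i => if i = 0 then 1 else if i ≤ j then 0 else
    Nat.xor N CM / 256 ^ (i - (j + 1)) % 256 with hF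
  have h1 : ∀ i, F i < 256 := fun i => by
    simp only [hF]
    split_ifs
    · norm_num
    · norm_num
    · exact Nat.mod_lt _ (by norm_num)
  have h2 : (mkSq (j + m) CM (kk (j + m)) j w N).U = pk (2 ^ 24) F (j + m + 1) := by
    change 1 + Nat.shiftLeft (spread (j + m - j) _) (24 * (j + 1)) = _
    rw [add_right_comm, pk_len, shl_eq, spread_eq, Nat.add_sub_cancel_left, pow_mul, mul_comm,
      pk_congr (f := F) (g := fun i => if i = 0 then 1 else 0) (n := j + 1) (fun i hi => by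
        simp only [hF]; split_ifs <;> omega), pk_one _ (Nat.succ_pos j), pow_zero]
    congr 2
    refine pk_congr fun i _ => ?_
    simp only [hF]
    rw [if_neg (by omega), if_neg (by omega), Nat.add_sub_cancel_left]
  refine ⟨F, fun i => if i = 0 then 1 else 256 - F i, h2, ?_, by simp [hF], by simp,
    fun i => (h1 i).le, fun i => ?_, fun b _ => ?_⟩
  · change kk (j + m) - (mkSq (j + m) CM (kk (j + m)) j w N).U = _
    rw [h2, kk, pk_congr (g := fun i => F i + 1 * if i = 0 then 1 else 256 - F i) (fun i _ => by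
      have := h1 i
      split_ifs with h0
      · simp [hF, h0]
      · omega), pk_lin, one_mul, Nat.add_sub_cancel_left]
  · beta_reduce
    split_ifs <;> omega
  · have := h1 (b + 1)
    simp only [Nat.add_eq_zero_iff, one_ne_zero, and_false, if_false]
    omega

/-- add a group of squares. -/
noncomputable def addG (t CM KK j : ℕ) (g : List (ℕ × ℕ)) (A : List Sq) : List Sq :=
  List.rec (motive := fun _ => List Sq) A (fun d _ r => mkSq t CM KK j d.1 d.2 :: r) g

noncomputable def lin (y : ℕ → ℝ) (q : Sq) : List (ℕ → ℕ) → ℕ → ℝ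
  | [], _ => 0
  | e :: es, j => q.Q j * monoE e y + lin y q es (j + 1)

noncomputable def FF (C : Ctx) (T : ℕ → ℕ) (A : List Sq) (es : List (ℕ → ℕ)) (j : ℕ) : ℝ :=
  ∑ σ, monoE T (C.Y σ) * (A.map fun q : Sq => (q.w : ℝ) * lin (C.Y σ) q es j ^ 2).sum

def wsG (g : List (ℕ × ℕ)) : ℕ := (g.map Prod.fst).sum

def wsD (dat : List (ℕ × List (ℕ × ℕ))) : ℕ := (dat.map fun d => wsG d.2).sum

theorem addG_spec {t j : ℕ} (h : j ≤ t) (CM : ℕ) (g : List (ℕ × ℕ)) {A : List Sq}
    (hA : ∀ q ∈ A, SqOK t q) : (∀ q ∈ addG t CM (kk t) j g A, SqOK t q) ∧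
      wsum (addG t CM (kk t) j g A) = wsG g + wsum A ∧
      ∀ T es i, FF C T A es i ≤ FF C T (addG t CM (kk t) j g A) es i := by
  induction g with
  | nil => exact ⟨hA, by simp [wsG, addG], fun _ _ _ => le_rfl⟩
  | cons d g ih =>
    have e : addG t CM (kk t) j (d :: g) A =
      mkSq t CM (kk t) j d.1 d.2 :: addG t CM (kk t) j g A := rfl
    rw [e]
    refine ⟨fun q hq => ?_, ?_, fun T es i => (ih.2.2 T es i).trans ?_⟩
    · rcases List.mem_cons.1 hq with rfl | hq
      · exact mkSq_ok h _ _ _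
      · exact ih.1 q hq
    · have := ih.2.1
      have e2 : (mkSq t CM (kk t) j d.1 d.2).w = d.1 := rfl
      simp only [wsum, wsG, List.map_cons, List.sum_cons, e2] at this ⊢
      omega
    · refine sum_le_sum fun σ _ => mul_le_mul_of_nonneg_left ?_ (monoE_nonneg _ (C.pos σ))
      rw [List.map_cons, List.sum_cons]
      exact le_add_of_nonneg_left (by positivity)

theorem rsum_eq (a' : ℕ → ℕ) {X : ℕ → ℝ} {t a : ℕ} {A : List Sq}
    (hX : ∀ b < t, X (b + 1) = (A.map fun q : Sq => (q.w : ℝ) * q.Q a * q.Q b).sum)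
    (es : List (ℕ → ℕ))
    (j : ℕ) (hj : j + es.length ≤ t) : rsum C a' X es (j + 1) =
      ∑ σ, monoE a' (C.Y σ) * (A.map fun q : Sq => (q.w : ℝ) * q.Q a * lin (C.Y σ) q es j).sum := by
  induction es generalizing j with
  | nil => simp [rsum, lin]
  | cons e es ih =>
    rw [List.length_cons] at hj
    rw [rsum, ih (j + 1) (by omega), hX j (by omega), Ctx.E, mul_sum, ← sum_add_distrib]
    refine sum_congr rfl fun σ _ => ?_
    simp only [lin, mul_add, List.sum_map_add, monoE_add, ← mul_assoc, List.sum_map_mul_right]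
    ring

/-- subtract a row of the Gram matrix. -/
noncomputable def row (M TB aT a : ℕ) (tl : List ℕ) (sh Acc hs p n : ℕ) : St :=
  (fun H Z => ent M TB 0 (Nat.add aT a) H (Nat.land Z 16777215) hs p n
    (rowL M TB aT H tl (Nat.shiftRight Z 24)))
    (Nat.mul 128 (Nat.land Acc 16777215)) (Nat.shiftRight Acc sh)

theorem row_spec (hM : 0 < M) {T e : ℕ → ℕ} (hT : ∀ i, T i ≤ 1) (es : List (ℕ → ℕ))
    (hes : ∀ e' ∈ e :: es, ∀ i, e' i ≤ 1) {t j : ℕ} (hj : j + (es.length + 1) = t) {A : List Sq}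
    (hA : ∀ q ∈ A, SqOK t q) (hw : 32768 * wsum A < 2 ^ 24) (hs : ℕ) {p n bd : ℕ} {v : ℝ}
    (h : Good C M TB p n bd v) :
    Good C M TB
      (row M TB (Nat.add (Img T) (Img e)) (Img e) (es.map Img) (Nat.mul 24 (Nat.succ j))
        (accL (Nat.mul 24 (Nat.succ j)) A) hs p n).p
      (row M TB (Nat.add (Img T) (Img e)) (Img e) (es.map Img) (Nat.mul 24 (Nat.succ j))
        (accL (Nat.mul 24 (Nat.succ j)) A) hs p n).n
      (bd + t * 2 ^ 25) (v - (FF C T A (e :: es) j - FF C T A es (j + 1))) := by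
  obtain ⟨f, h1, h2, h3, h4⟩ := accL_spec (show j < t by omega) A hA
  have hf : ∀ i, f i < 2 ^ 24 := fun i => by have := h2 i; omega
  have hH : 128 * f 0 < 2 ^ 24 := by omega
  have he := hes e List.mem_cons_self
  have ha : ∀ i, (T + e) i ≤ 2 := fun i => Nat.add_le_add (hT i) (he i)
  have ha3 : ∀ i, (T + e + e) i ≤ 3 := fun i => Nat.add_le_add (ha i) (he i)
  have e0 : t + 1 = (j + 1) + (es.length + 1) := by omega
  have e1 := pk_head (n := es.length) (f := fun i => f (j + 1 + i)) (hf _)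
  obtain ⟨hs', p', n', h5, h6⟩ := ent_spec hM ha3 0 hH.le (hf (j + 1)).le hs h
  have h7 := rowL_spec hM ha hH hf es (fun e he => hes e (List.mem_cons_of_mem _ he)) (j + 2) hs' h6
  have e2 : (fun i => f (j + 2 + i)) = fun i => f (j + 1 + (i + 1)) := by
    funext i; congr 1; omega
  rw [e2] at h7
  have e3 : row M TB (Nat.add (Img T) (Img e)) (Img e) (es.map Img) (Nat.mul 24 (Nat.succ j))
      (accL (Nat.mul 24 (Nat.succ j)) A) hs p n = rowL M TB (Img (T + e)) (128 * f 0) (es.map Img)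
        (pk (2 ^ 24) (fun i => f (j + 1 + (i + 1))) es.length) hs' p' n' := by
    unfold row
    beta_reduce
    rw [h1, land_pow _ 24 _ (by norm_num), land_pow _ 24 _ (by norm_num), shr_mul, shr_eq,
      (pk_head (hf 0)).1, e0, Nat.succ_eq_add_one, pk_div (fun i _ => hf i) (by norm_num), e1.1,
      e1.2, Nat.add_eq, Nat.add_eq, ← Img_add, ← Img_add, add_zero, Nat.mul_eq, h5]
  rw [e3]
  refine h7.mono ?_ (le_of_eq ?_)
  · rw [← hj]; omega
  · rw [rsum_eq (C := C) (T + e) (X := fun i => (f i : ℝ) - (128 * f 0 : ℕ)) h4 es (j + 1)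
      (by omega), h4 j (by omega), Ctx.E, FF, FF, ← sum_sub_distrib, pow_zero, one_mul, mul_sum,
      mul_sum, sub_sub, ← sum_add_distrib]
    congr 1
    refine sum_congr rfl fun σ _ => ?_
    have : ∀ q : Sq, q.w * lin (C.Y σ) q (e :: es) j ^ 2 =
        q.w * q.Q j * q.Q j * (monoE e (C.Y σ) * monoE e (C.Y σ)) +
        (q.w * q.Q j * lin (C.Y σ) q es (j + 1) * (2 * monoE e (C.Y σ)) +
        q.w * lin (C.Y σ) q es (j + 1) ^ 2) := fun q => by rw [lin]; ring
    simp only [this, List.sum_map_add, List.sum_map_mul_right, monoE_add]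
    ring

/-- subtract all rows of a Gram matrix. -/
noncomputable def blk (M TB T t CM KK : ℕ) (l : List ℕ) :
    ℕ → List Sq → List (ℕ × List (ℕ × ℕ)) → ℕ → ℕ → St :=
  List.rec (motive := fun _ => ℕ → List Sq → List (ℕ × List (ℕ × ℕ)) → ℕ → ℕ → St)
    (fun _ _ _ p n => St.mk 0 p n)
    (fun a tl r j A dat p n =>
      (fun A' => St.rec (motive := fun _ => St) (fun _ p' n' => r (Nat.succ j) A' dat.tail p' n')
        (row M TB (Nat.add T a) a tl (Nat.mul 24 (Nat.succ j)) (accL (Nat.mul 24 (Nat.succ j)) A')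
          (dat.headD (0, [])).1 p n))
      (addG t CM KK j (dat.headD (0, [])).2 A)) l

theorem blk_spec (hM : 0 < M) {T : ℕ → ℕ} (hT : ∀ i, T i ≤ 1) (t CM : ℕ) (es : List (ℕ → ℕ))
    (hes : ∀ e ∈ es, ∀ i, e i ≤ 1) {j : ℕ} (hj : j + es.length = t) {A : List Sq}
    (hA : ∀ q ∈ A, SqOK t q) (dat : List (ℕ × List (ℕ × ℕ)))
    (hw : 32768 * (wsD dat + wsum A) < 2 ^ 24) {p n bd : ℕ} {v : ℝ} (h : Good C M TB p n bd v) :
    Good C M TB (blk M TB (Img T) t CM (kk t) (es.map Img) j A dat p n).p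
      (blk M TB (Img T) t CM (kk t) (es.map Img) j A dat p n).n
      (bd + es.length * (t * 2 ^ 25)) (v - FF C T A es j) := by
  induction es generalizing j A dat p n bd v with
  | nil =>
    refine h.mono (Nat.le_add_right _ _) (le_of_eq ?_)
    simp [FF, lin]
  | cons e es ih =>
    rw [List.length_cons] at hj
    obtain ⟨g1, g2, g3⟩ := addG_spec (C := C) (show j ≤ t by omega) CM (dat.headD (0, [])).2 hA
    have e1 : wsD dat = wsG (dat.headD (0, [])).2 + wsD dat.tail := by
      cases dat <;> simp [wsD, wsG]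
    have h1 := row_spec hM hT es hes hj g1 (by omega) (dat.headD (0, [])).1 h
    have h2 := ih (fun e he => hes e (List.mem_cons_of_mem _ he)) (j := j + 1) (by omega) g1
      dat.tail (by omega) h1
    refine h2.mono (le_of_eq (by rw [List.length_cons]; ring)) ?_
    have := g3 T (e :: es) j
    linarith

/-- subtract the squares of one block. -/
noncomputable def runB (M TB T : ℕ) (ms : List ℕ) (dat : List (ℕ × List (ℕ × ℕ))) (p n : ℕ) : St :=
  blk M TB (imgN T 13) ms.length (Nat.mul 128 (Nat.div (Nat.pow 256 ms.length) 255))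
    (kk ms.length) (ms.map fun S => imgN S 13) 0 [] dat p n

theorem runB_spec (hM : 0 < M) (T : ℕ) (ms : List ℕ) (dat : List (ℕ × List (ℕ × ℕ)))
    (hw : wsD dat < 512) {p n bd : ℕ} {v : ℝ} (h : Good C M TB p n bd v) :
    Good C M TB (runB M TB T ms dat p n).p (runB M TB T ms dat p n).n
      (bd + ms.length * (ms.length * 2 ^ 25)) v := by
  obtain ⟨eT, h1, -, h2⟩ := imgN_spec T le_rfl
  have : ∃ es : List (ℕ → ℕ), (∀ e ∈ es, ∀ i, e i ≤ 1) ∧
      (ms.map fun S => imgN S 13) = es.map Img := by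
    induction ms with
    | nil => exact ⟨[], by simp, rfl⟩
    | cons S ms ih =>
      obtain ⟨es, a, b⟩ := ih
      obtain ⟨e, c, -, d⟩ := imgN_spec S le_rfl
      refine ⟨e :: es, fun e' he => ?_, by rw [List.map_cons, List.map_cons, b, d]⟩
      rcases List.mem_cons.1 he with rfl | he
      · exact c
      · exact a _ he
  obtain ⟨es, h3, h4⟩ := this
  have h5 : es.length = ms.length := by simpa using (congrArg List.length h4).symm
  unfold runB
  rw [h2, h4]
  refine (blk_spec hM h1 ms.length _ es h3 (by omega) (A := []) (by simp) dat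
    (by simp only [wsum, List.map_nil, List.sum_nil]; omega) h).mono (by rw [h5]) ?_
  simp [FF]

end Pool.Agent.Lib.MP_c69b6d_co.F.M12
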