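import Pool.Agent.Lib.MP_c69b6d_co.F.M12b

/-! A checker for sums of squares modulo a group of symmetries: the Rayleigh difference. -/

namespace Pool.Agent.Lib.MP_c69b6d_co.F.M12

open Finset

variable {C : Ctx} {M TB : ℕ}

/-- the bits `2, ..., k + 1` of `S` read in base three. -/
noncomputable def t3 (S k : ℕ) : ℕ :=
  Nat.rec (motive := fun _ => ℕ) 0 (fun k r =>
    Nat.add r (Nat.mul (Nat.land (Nat.shiftRight S (Nat.add k 2)) 1) (Nat.pow 3 k))) k

theorem t3_succ (S k : ℕ) :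
    t3 S (k + 1) = t3 S k + (if S.testBit (k + 2) then 1 else 0) * 3 ^ k := by
  have e : t3 S (k + 1) = t3 S k + Nat.land (Nat.shiftRight S (k + 2)) 1 * 3 ^ k := rfl
  rw [e, land_pow _ 1 _ (by norm_num), shr_eq, Nat.testBit_eq_decide_div_mod_eq]
  congr 2
  simp only [pow_one, decide_eq_true_eq]
  split_ifs <;> omega

theorem t3_lt (S k : ℕ) : 2 * t3 S k < 3 ^ k := by
  induction k with
  | zero => simp [t3]
  | succ k ih => rw [t3_succ, pow_succ]; split_ifs <;> omega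

noncomputable def mono3 (y : ℕ → ℝ) : ℕ → ℕ → ℝ
  | 0, _ => 1
  | k + 1, s => mono3 y k (s % 3 ^ k) * y (k + 2) ^ (s / 3 ^ k)

theorem mono3_succ (y : ℕ → ℝ) {k s : ℕ} (h : s < 3 ^ k) (r : ℕ) :
    mono3 y (k + 1) (s + r * 3 ^ k) = mono3 y k s * y (k + 2) ^ r := by
  rw [mono3, Nat.add_mul_mod_self_right, Nat.mod_eq_of_lt h,
    Nat.add_mul_div_right _ _ (by positivity), Nat.div_eq_of_lt h, zero_add]

noncomputable def monK (y : ℕ → ℝ) (S : ℕ) : ℕ → ℝ
  | 0 => 1
  | k + 1 => monK y S k * if S.testBit (k + 2) then y (k + 2) else 1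

theorem mono3_add (y : ℕ → ℝ) (S S' k : ℕ) :
    mono3 y k (t3 S k + t3 S' k) = monK y S k * monK y S' k := by
  induction k with
  | zero => simp [mono3, monK]
  | succ k ih =>
    have h1 := t3_lt S k
    have h2 := t3_lt S' k
    rw [t3_succ, t3_succ, add_add_add_comm, ← add_mul, mono3_succ y (by omega), ih, monK, monK]
    split_ifs <;> ring

theorem monK_eq (y : ℕ → ℝ) (S k : ℕ) : monK y S k = monO (k + 2) 3 S y := by
  induction k with
  | zero => simp [monK, monO, prod_range_succ, show (3 : ℕ).testBit 1 = true from rfl]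
  | succ k ih =>
    have : (3 : ℕ).testBit (k + 2) = false := Nat.testBit_lt_two_pow
      (lt_of_lt_of_le (by norm_num) (Nat.pow_le_pow_right (by norm_num) (Nat.le_add_left 2 k)))
    rw [monK, ih, monO, monO, show k + 1 + 2 = (k + 2) + 1 from rfl, prod_range_succ _ (k + 2),
      this]
    simp

/-- the polynomial whose coefficients are the digits of a number. -/
noncomputable def ev (y : ℕ → ℝ) (B : ℕ) : ℕ → ℕ → ℝ
  | 0, P => P
  | k + 1, P => ev y B k (P % B ^ 3 ^ k) + y (k + 2) * ev y B k (P / B ^ 3 ^ k % B ^ 3 ^ k) +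
      y (k + 2) ^ 2 * ev y B k (P / B ^ 3 ^ k / B ^ 3 ^ k)

theorem ev_pk (y : ℕ → ℝ) {B : ℕ} (k : ℕ) {f : ℕ → ℕ} (hf : ∀ s, f s < B) :
    ev y B k (pk B f (3 ^ k)) = ∑ s ∈ range (3 ^ k), (f s : ℝ) * mono3 y k s := by
  induction k generalizing f with
  | zero => simp [ev, pk, mono3]
  | succ k ih =>
    have hB : 0 < B := by have := hf 0; omega
    have e : 3 ^ (k + 1) = 3 ^ k + (3 ^ k + 3 ^ k) := by ring
    rw [e, ev, pk_mod fun i _ => hf i, pk_div (fun i _ => hf i) hB, pk_mod fun i _ => hf _,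
      pk_div (fun i _ => hf _) hB, ih hf, ih fun _ => hf _, ih fun _ => hf _, sum_range_add,
      sum_range_add, mul_sum, mul_sum, add_assoc]
    congr 1
    · refine sum_congr rfl fun s hs => ?_
      have := mono3_succ y (mem_range.1 hs) 0
      simp only [zero_mul, add_zero, pow_zero, mul_one] at this
      rw [this]
    · congr 1
      · refine sum_congr rfl fun s hs => ?_
        rw [show 3 ^ k + s = s + 1 * 3 ^ k by ring, mono3_succ y (mem_range.1 hs)]; ring
      · refine sum_congr rfl fun s hs => ?_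
        rw [show 3 ^ k + (3 ^ k + s) = s + 2 * 3 ^ k by ring, mono3_succ y (mem_range.1 hs)]; ring

theorem pk_of_list (B : ℕ) {n : ℕ} (S : List ℕ) (h : ∀ s ∈ S, s < n) :
    ∃ f : ℕ → ℕ, (∀ s, f s ≤ S.length) ∧ (S.map fun s => B ^ s).sum = pk B f n ∧
      ∀ g : ℕ → ℝ, (S.map g).sum = ∑ s ∈ range n, (f s : ℝ) * g s := by
  induction S with
  | nil => exact ⟨fun _ => 0, by simp, (pk_zero _ _).symm, by simp⟩
  | cons a S ih =>
    obtain ⟨f, h1, h2, h3⟩ := ih fun s hs => h s (List.mem_cons_of_mem _ hs)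
    have ha := h a List.mem_cons_self
    refine ⟨fun i => f i + 1 * if i = a then 1 else 0, fun s => ?_, ?_, fun g => ?_⟩
    · have := h1 s
      rw [List.length_cons]
      beta_reduce
      split_ifs <;> omega
    · rw [pk_lin, pk_one _ ha, List.map_cons, List.sum_cons, h2]; ring
    · rw [sum_dl ha, List.map_cons, List.sum_cons, h3]; simp [add_comm]

theorem sum_pairs {R : Type} [CommSemiring R] (k : ℕ) (g u : ℕ → R)
    (h : ∀ a b, g (t3 a k + t3 b k) = u a * u b) (A A' : List ℕ) :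
    ((A.flatMap fun a => A'.map fun b => t3 a k + t3 b k).map g).sum =
      (A.map u).sum * (A'.map u).sum := by
  induction A with
  | nil => simp
  | cons a A ih =>
    rw [List.flatMap_cons, List.map_append, List.sum_append, ih, List.map_cons, List.sum_cons,
      add_mul, List.map_map]
    congr 1
    rw [← List.sum_map_mul_left]
    congr 1
    exact List.map_congr_left fun b _ => h a b

theorem ev_mul (y : ℕ → ℝ) {B : ℕ} (k : ℕ) (A A' : List ℕ) (h : A.length * A'.length < B) :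
    (A.map fun a => B ^ t3 a k).sum * (A'.map fun a => B ^ t3 a k).sum < B ^ 3 ^ k ∧
      ev y B k ((A.map fun a => B ^ t3 a k).sum * (A'.map fun a => B ^ t3 a k).sum) =
        (A.map fun a => monK y a k).sum * (A'.map fun a => monK y a k).sum := by
  obtain ⟨f, h1, h2, h3⟩ := pk_of_list B (n := 3 ^ k)
    (A.flatMap fun a => A'.map fun b => t3 a k + t3 b k) (fun s hs => by
      obtain ⟨a, -, hs⟩ := List.mem_flatMap.1 hs
      obtain ⟨b, -, rfl⟩ := List.mem_map.1 hs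
      have := t3_lt a k
      have := t3_lt b k
      omega)
  have h4 : (A.flatMap fun a => A'.map fun b => t3 a k + t3 b k).length =
      A.length * A'.length := by simp [List.length_flatMap]
  have hf : ∀ s, f s < B := fun s => by have := h1 s; omega
  rw [← sum_pairs k (fun s => B ^ s) (fun a => B ^ t3 a k) (fun a b => pow_add _ _ _), h2,
    ← sum_pairs k (mono3 y k) (fun a => monK y a k) (fun a b => mono3_add y a b k), h3, ev_pk y k hf]
  exact ⟨pk_lt fun i _ => hf i, rfl⟩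

/-- the members `S` of `L` with `S &&& 3 = V`, as one number. -/
noncomputable def kron (k V : ℕ) (L : List ℕ) : ℕ :=
  List.rec (motive := fun _ => ℕ) 0 (fun S _ r => Bool.rec (motive := fun _ => ℕ) r
    (Nat.add r (Nat.shiftLeft 1 (Nat.mul 17 (t3 S k)))) (Nat.beq (Nat.land S 3) V)) L

def sel3 (V : ℕ) (L : List ℕ) : List ℕ := L.filter fun S => S &&& 3 == V

theorem kron_eq (k V : ℕ) (L : List ℕ) :
    kron k V L = ((sel3 V L).map fun a => (2 ^ 17) ^ t3 a k).sum := by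
  induction L with
  | nil => rfl
  | cons S L ih =>
    have e : kron k V (S :: L) = Bool.rec (motive := fun _ => ℕ) (kron k V L)
      (Nat.add (kron k V L) (Nat.shiftLeft 1 (Nat.mul 17 (t3 S k)))) (Nat.beq (S &&& 3) V) := rfl
    rw [e, ih, sel3, sel3, List.filter_cons]
    cases h : Nat.beq (S &&& 3) V
    · rw [if_neg (by simpa using Nat.ne_of_beq_eq_false h)]
    · rw [if_pos (by simpa using Nat.eq_of_beq_eq_true h), List.map_cons, List.sum_cons, shl_eq,
        one_mul, ← pow_mul, add_comm]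
      rfl

theorem sm2_sel (y : ℕ → ℝ) (k V : ℕ) (L : List ℕ) :
    ((sel3 V L).map fun a => monK y a k).sum = sm2 (k + 2) L 3 V y := by
  rw [sm2_eq]
  simp only [monK_eq]
  induction L with
  | nil => rfl
  | cons S L ih =>
    rw [sel3, List.filter_cons, List.map_cons, List.sum_cons, ← ih, sel3]
    by_cases h : S &&& 3 = V
    · rw [if_pos (by simpa using h), if_pos h, List.map_cons, List.sum_cons]
    · rw [if_neg (by simpa using h), if_neg h, zero_add]

/-- add the two multiples of one coefficient. -/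
noncomputable def put2 (M TB bad α β m1 m2 acc x img h : ℕ) : ℕ :=
  put M TB bad (put M TB bad acc (Nat.mul α x) 0 (Nat.add img m1) (Nat.mod h 72)) (Nat.mul β x) 0
    (Nat.add img m2) (Nat.div h 72)

noncomputable def leaf (M TB α β m1 m2 P N img hs p n : ℕ) : St :=
  Bool.rec (motive := fun _ => St)
    (mkF (Nat.div hs 5184)
      (put2 M TB (Nat.succ M) α β m1 m2 p (Nat.sub P N) img (Nat.mod hs 5184)) n)
    (mkF (Nat.div hs 5184) p (put2 M TB M α β m1 m2 n (Nat.sub N P) img (Nat.mod hs 5184)))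
    (Nat.ble P N)

/-- skip equal numbers. -/
noncomputable def sk (r : ℕ → ℕ → ℕ → ℕ → ℕ → ℕ → St) (P N img hs p n : ℕ) : St :=
  Bool.rec (motive := fun _ => St) (r P N img hs p n) (St.mk hs p n) (Nat.beq P N)

noncomputable def node (r : ℕ → ℕ → ℕ → ℕ → ℕ → ℕ → St) (s m v P N img hs p n : ℕ) : St :=
  St.rec (motive := fun _ => St) (fun hs1 p1 n1 =>
    St.rec (motive := fun _ => St) (fun hs2 p2 n2 =>
      sk r (Nat.shiftRight (Nat.shiftRight P s) s) (Nat.shiftRight (Nat.shiftRight N s) s)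
        (Nat.add (Nat.add img v) v) hs2 p2 n2)
      (sk r (Nat.land (Nat.shiftRight P s) m) (Nat.land (Nat.shiftRight N s) m) (Nat.add img v)
        hs1 p1 n1))
    (sk r (Nat.land P m) (Nat.land N m) img hs p n)

/-- add all terms of the difference of the polynomials given by `P` and `N`. -/
noncomputable def trav (M TB α β m1 m2 k : ℕ) : ℕ → ℕ → ℕ → ℕ → ℕ → ℕ → St :=
  Nat.rec (motive := fun _ => ℕ → ℕ → ℕ → ℕ → ℕ → ℕ → St) (leaf M TB α β m1 m2)
    (fun k r => node r (Nat.mul 17 (Nat.pow 3 k))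
      (Nat.sub (Nat.shiftLeft 1 (Nat.mul 17 (Nat.pow 3 k))) 1) (ivf (Nat.add k 2))) k

noncomputable def val (C : Ctx) (α β : ℕ) (m1 m2 : ℕ → ℕ) (k P N : ℕ) (e : ℕ → ℕ) : ℝ :=
  ∑ σ, monoE e (C.Y σ) * (α * monoE m1 (C.Y σ) + β * monoE m2 (C.Y σ)) *
    (ev (C.Y σ) (2 ^ 17) k P - ev (C.Y σ) (2 ^ 17) k N)

/-- the specification of a traversal. -/
def Spec (C : Ctx) (M TB α β : ℕ) (m1 m2 : ℕ → ℕ) (k : ℕ) (r : ℕ → ℕ → ℕ → ℕ → ℕ → ℕ → St) :
    Prop :=
  ∀ (P N : ℕ) (e : ℕ → ℕ) (hs p n bd : ℕ) (v : ℝ), P < (2 ^ 17) ^ 3 ^ k → N < (2 ^ 17) ^ 3 ^ k →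
    (∀ i, e i ≤ 2) → (∀ i < k + 2, e i = 0) → Good C M TB p n bd v →
    Good C M TB (r P N (Img e) hs p n).p (r P N (Img e) hs p n).n
      (bd + 3 ^ k * ((α + β) * 2 ^ 17)) (v + val C α β m1 m2 k P N e)

variable {α β : ℕ} {m1 m2 : ℕ → ℕ}

theorem Spec.sk {k : ℕ} {r : ℕ → ℕ → ℕ → ℕ → ℕ → ℕ → St} (h : Spec C M TB α β m1 m2 k r) :
    Spec C M TB α β m1 m2 k (sk r) := by
  intro P N e hs p n bd v h1 h2 h3 h4 h5
  unfold M12.sk
  cases hb : Nat.beq P N
  · exact h P N e hs p n bd v h1 h2 h3 h4 h5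
  · refine h5.mono (Nat.le_add_right _ _) (le_of_eq ?_)
    simp [val, Nat.eq_of_beq_eq_true hb]

theorem spec_leaf (hM : 0 < M) (h1 : ∀ i, m1 i ≤ 1) (h2 : ∀ i, m2 i ≤ 1) :
    Spec C M TB α β m1 m2 0 (leaf M TB α β (Img m1) (Img m2)) := by
  intro P N e hs p n bd v hP hN he _ h
  have a1 : ∀ i, (e + m1) i ≤ 3 := fun i => Nat.add_le_add (he i) (h1 i)
  have a2 : ∀ i, (e + m2) i ≤ 3 := fun i => Nat.add_le_add (he i) (h2 i)
  have k1 : Nat.mod (Nat.mod hs 5184) 72 < 72 := Nat.mod_lt _ (by norm_num)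
  have k2 : Nat.div (Nat.mod hs 5184) 72 < 72 :=
    Nat.div_lt_of_lt_mul (Nat.mod_lt _ (by norm_num))
  have hv : val C α β m1 m2 0 P N e =
      ((P : ℝ) - N) * (α * C.E (e + m1) + β * C.E (e + m2)) := by
    simp only [val, ev, Ctx.E, mul_sum, ← sum_add_distrib, monoE_add]
    exact sum_congr rfl fun σ _ => by ring
  simp only [pow_zero, pow_one] at hP hN
  unfold leaf put2
  rw [hv, Nat.add_eq, Nat.add_eq, ← Img_add, ← Img_add, mkF_eq, mkF_eq]
  cases hb : Nat.ble P N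
  · have h3 : N ≤ P := by
      have := Nat.not_le_of_not_ble_eq_true (n := P) (m := N) (by simp [hb])
      omega
    refine ((h.addP hM a1 k1 _ 0).addP hM a2 k2 _ 0).mono ?_ (le_of_eq ?_)
    · have := Nat.mul_le_mul_left (α + β) ((Nat.sub_le P N).trans hP.le)
      simp only [Nat.mul_eq, Nat.sub_eq, pow_zero, mul_one, one_mul, add_mul] at this ⊢
      omega
    · simp only [Nat.mul_eq, Nat.sub_eq]; push_cast [Nat.cast_sub h3]; ring
  · have h3 : P ≤ N := Nat.le_of_ble_eq_true hb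
    refine ((h.addN hM a1 k1 _ 0).addN hM a2 k2 _ 0).mono ?_ (le_of_eq ?_)
    · have := Nat.mul_le_mul_left (α + β) ((Nat.sub_le N P).trans hN.le)
      simp only [Nat.mul_eq, Nat.sub_eq, pow_zero, mul_one, one_mul, add_mul] at this ⊢
      omega
    · simp only [Nat.mul_eq, Nat.sub_eq]; push_cast [Nat.cast_sub h3]; ring

theorem Spec.node {k : ℕ} (hk : k < 11) {r : ℕ → ℕ → ℕ → ℕ → ℕ → ℕ → St}
    (h : Spec C M TB α β m1 m2 k r) {s m : ℕ} (hs : 2 ^ s = (2 ^ 17) ^ 3 ^ k) (hm : m = 2 ^ s - 1) :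
    Spec C M TB α β m1 m2 (k + 1) (node r s m (Img (dl (k + 2)))) := by
  intro P N e hs0 p n bd v hP hN he he0 h0
  have hX : 0 < (2 ^ 17) ^ 3 ^ k := by positivity
  have e3 : (2 ^ 17) ^ 3 ^ (k + 1) = (2 ^ 17) ^ 3 ^ k * ((2 ^ 17) ^ 3 ^ k * (2 ^ 17) ^ 3 ^ k) := by
    rw [← pow_add, ← pow_add]; congr 1; ring
  have hd : ∀ P, P < (2 ^ 17) ^ 3 ^ (k + 1) →
      P / (2 ^ 17) ^ 3 ^ k / (2 ^ 17) ^ 3 ^ k < (2 ^ 17) ^ 3 ^ k := fun P hP =>
    Nat.div_lt_of_lt_mul (Nat.div_lt_of_lt_mul (e3 ▸ hP))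
  have b1 : ∀ i, (e + dl (k + 2)) i ≤ 2 := fun i => by
    have := he i
    have := he0 i
    simp only [Pi.add_apply, dl]; split_ifs <;> omega
  have b2 : ∀ i, (e + dl (k + 2) + dl (k + 2)) i ≤ 2 := fun i => by
    have := he i
    have := he0 i
    simp only [Pi.add_apply, dl]; split_ifs <;> omega
  have c1 : ∀ i < k + 2, (e + dl (k + 2)) i = 0 := fun i hi => by
    have := he0 i
    simp only [Pi.add_apply, dl]; split_ifs <;> omega
  have c2 : ∀ i < k + 2, (e + dl (k + 2) + dl (k + 2)) i = 0 := fun i hi => by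
    have := he0 i
    simp only [Pi.add_apply, dl]; split_ifs <;> omega
  have g1 := h.sk _ _ e hs0 p n bd v (Nat.mod_lt P hX) (Nat.mod_lt N hX) he
    (fun i hi => he0 i (by omega)) h0
  have g2 := fun hs => h.sk _ _ _ hs _ _ _ _ (Nat.mod_lt (P / (2 ^ 17) ^ 3 ^ k) hX)
    (Nat.mod_lt (N / (2 ^ 17) ^ 3 ^ k) hX) b1 c1 g1
  have g3 := fun hs hs' => h.sk _ _ _ hs' _ _ _ _ (hd P hP) (hd N hN) b2 c2 (g2 hs)
  unfold M12.node
  simp only [land_pow _ s m hm, shr_eq, hs, Nat.add_eq, ← Img_add]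
  refine (g3 _ _).mono (le_of_eq (by ring)) (le_of_eq ?_)
  simp only [val, add_assoc, ← sum_add_distrib, ev, monoE_add, monoE_dl (show k + 2 < 13 by omega)]
  congr 1
  exact sum_congr rfl fun σ _ => by ring

theorem spec_trav (hM : 0 < M) (h1 : ∀ i, m1 i ≤ 1) (h2 : ∀ i, m2 i ≤ 1) {k : ℕ} (hk : k ≤ 11) :
    Spec C M TB α β m1 m2 k (trav M TB α β (Img m1) (Img m2) k) := by
  induction k with
  | zero => exact spec_leaf hM h1 h2
  | succ k ih =>
    have e : trav M TB α β (Img m1) (Img m2) (k + 1) = node (trav M TB α β (Img m1) (Img m2) k)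
      (17 * 3 ^ k) (Nat.shiftLeft 1 (17 * 3 ^ k) - 1) (ivf (k + 2)) := rfl
    rw [e, ivf_eq _ (by omega)]
    exact (ih (by omega)).node (by omega) (pow_mul _ _ _) (by rw [shl_eq, one_mul])

/-- the terms of the Rayleigh difference times the multiplier. -/
noncomputable def runD (M TB α β k : ℕ) (L : List ℕ) (hs : ℕ) : St :=
  trav M TB α β (Nat.add (ivf 2) (ivf 3)) (Nat.add (ivf 2) (ivf 11)) k
    (Nat.mul (kron k 1 L) (kron k 2 L)) (Nat.mul (kron k 3 L) (kron k 0 L)) 0 hs 0 0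

theorem runD_spec (hM : 0 < M) (α β : ℕ) {k : ℕ} (hk : k ≤ 11) (L : List ℕ) (hs : ℕ)
    (l1 : (sel3 1 L).length * (sel3 2 L).length < 2 ^ 17)
    (l2 : (sel3 3 L).length * (sel3 0 L).length < 2 ^ 17) :
    Good C M TB (runD M TB α β k L hs).p (runD M TB α β k L hs).n (3 ^ k * ((α + β) * 2 ^ 17))
      (∑ σ, (α * (C.Y σ 2 * C.Y σ 3) + β * (C.Y σ 2 * C.Y σ 11)) * Dl (k + 2) L 0 1 (C.Y σ)) := by
  have d : ∀ a b, a ≠ b → ∀ i, (dl a + dl b) i ≤ 1 := fun a b h i => by
    simp only [Pi.add_apply, dl]; split_ifs <;> omega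
  have z : Img (fun _ => 0) = 0 := by simp [Img, pk_zero]
  have := spec_trav (C := C) (TB := TB) (α := α) (β := β) hM (d 2 3 (by norm_num))
    (d 2 11 (by norm_num)) hk _ _ (fun _ => 0) hs 0 0 0 0 (ev_mul (fun _ => 0) k _ _ l1).1
    (ev_mul (fun _ => 0) k _ _ l2).1 (by simp) (by simp) Good.zero
  unfold runD
  rw [kron_eq, kron_eq, kron_eq, kron_eq, ivf_eq 2 (by norm_num), ivf_eq 3 (by norm_num),
    ivf_eq 11 (by norm_num), Nat.add_eq, Nat.add_eq, ← Img_add, ← Img_add, Nat.mul_eq, Nat.mul_eq]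
  rw [z] at this
  refine this.mono (le_of_eq (zero_add _)) (le_of_eq ?_)
  rw [zero_add, val]
  refine sum_congr rfl fun σ _ => ?_
  rw [(ev_mul _ k _ _ l1).2, (ev_mul _ k _ _ l2).2, sm2_sel, sm2_sel, sm2_sel, sm2_sel, monoE_add,
    monoE_add, monoE_dl (by norm_num), monoE_dl (by norm_num), monoE_dl (by norm_num), Dl,
    if_neg (by norm_num)]
  simp [monoE]

end Pool.Agent.Lib.MP_c69b6d_co.F.M12
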