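import Pool.Agent.Lib.MP_c69b6d_co.F.M13b
import Pool.Agent.Lib.MP_c69b6d_co.F.M13c
import Pool.Agent.Lib.MP_c69b6d_co.F.Red

/-! The master matroid number 13. -/

namespace Pool.Agent.Lib.MP_c69b6d_co.F

open Finset

set_option maxRecDepth 100000

/-- the automorphisms. -/
def g13 : List (List ℕ) := [[0, 1, 2, 3, 4, 5, 6, 7, 8, 9, 10, 11], [0, 1, 2, 8, 4, 5, 6, 7, 3, 10, 9, 11], [0, 6, 2, 3, 7, 5, 1, 4, 8, 9, 10, 11], [0, 4, 11, 3, 1, 5, 7, 6, 8, 10, 9, 2], [5, 1, 2, 9, 7, 0, 6, 4, 10, 3, 8, 11], [0, 6, 2, 8, 7, 5, 1, 4, 3, 10, 9, 11], [0, 4, 11, 8, 1, 5, 7, 6, 3, 9, 10, 2], [5, 1, 2, 10, 7, 0, 6, 4, 9, 8, 3, 11], [0, 7, 11, 3, 6, 5, 4, 1, 8, 10, 9, 2], [5, 6, 2, 9, 4, 0, 1, 7, 10, 3, 8, 11], [5, 7, 11, 9, 1, 0, 4, 6, 10, 8, 3, 2], [5, 4, 11, 10, 6, 0, 7, 1, 9, 3, 8, 2], [0, 7, 11, 8, 6, 5, 4, 1, 3, 9, 10, 2], [5, 6, 2, 10, 4, 0, 1, 7, 9, 8, 3, 11], [5, 7,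 11, 10, 1, 0, 4, 6, 9, 3, 8, 2], [5, 4, 11, 9, 6, 0, 7, 1, 10, 8, 3, 2]]

/-- representatives of the orbits of pairs. -/
def q13 : List (ℕ × ℕ) := [(1, 0), (2, 0), (3, 0), (5, 0), (9, 0), (2, 1), (3, 1), (4, 1), (6, 1), (11, 1), (3, 2), (11, 2), (8, 3), (9, 3)]

theorem aut13 : ∀ g ∈ g13, AutOf 12 mB13 (fun i => g.getD i 0) := by
  have h : g13.all (autOK 12 mB13) = true := by decide +kernel
  exact fun g hg => autOf_of_ok (List.all_eq_true.1 h g hg)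

theorem rep13 : ∀ p ∈ q13, p.1 < 12 ∧ p.2 < 12 ∧ OblEE 12 mB13 p.1 p.2 := by
  simp only [q13, List.forall_mem_cons, List.not_mem_nil, false_imp_iff, implies_true, and_true]
  exact ⟨⟨by decide, by decide, o13_1_0⟩,
    ⟨by decide, by decide, o13_2_0⟩,
    ⟨by decide, by decide, o13_3_0⟩,
    ⟨by decide, by decide, o13_5_0⟩,
    ⟨by decide, by decide, o13_9_0⟩,
    ⟨by decide, by decide, o13_2_1⟩,
    ⟨by decide, by decide, o13_3_1⟩,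
    ⟨by decide, by decide, o13_4_1⟩,
    ⟨by decide, by decide, o13_6_1⟩,
    ⟨by decide, by decide, o13_11_1⟩,
    ⟨by decide, by decide, o13_3_2⟩,
    ⟨by decide, by decide, o13_11_2⟩,
    ⟨by decide, by decide, o13_8_3⟩,
    ⟨by decide, by decide, o13_9_3⟩⟩

theorem cover13 : ∀ e < 12, ∀ f < 12, e = f ∨ ∃ g ∈ g13, ∃ p ∈ q13,
    (g.getD p.1 0 = e ∧ g.getD p.2 0 = f) ∨ (g.getD p.1 0 = f ∧ g.getD p.2 0 = e) := by
  decide +kernel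

theorem master13 : Master13 := by
  rintro T T' (⟨e, he, rfl⟩ | h) (⟨f, hf, rfl⟩ | h') -
  · rw [mem_range] at he hf
    by_cases hef : e = f
    · subst hef; exact qf_self _ _ _
    · refine qf_EE he hf hef ?_
      obtain h | ⟨g, hg, p, hp, h⟩ := cover13 e he f hf
      · exact absurd h hef
      · obtain ⟨h1, h2, h3⟩ := rep13 p hp
        have h4 := OblEE.aut (aut13 g hg) h1 h2 h3
        rcases h with ⟨rfl, rfl⟩ | ⟨rfl, rfl⟩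
        · exact h4
        · exact h4.symm
  · exact absurd h' List.not_mem_nil
  · exact absurd h List.not_mem_nil
  · exact absurd h List.not_mem_nil

end Pool.Agent.Lib.MP_c69b6d_co.F
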