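import Pool.Agent.Lib.MP_c69b6d_co.F.Masters

/-! The polynomial obligations for the master matroids. -/

namespace Pool.Agent.Lib.MP_c69b6d_co.F

/-- the members `S` of `L` with `S &&& U = V`, with the bits of `V` cleared. -/
noncomputable def sm2 (n : ℕ) (L : List ℕ) (U V : ℕ) (y : ℕ → ℝ) : ℝ :=
  WL n ((L.filter fun S => S &&& U == V).map fun S => S ^^^ V) y

/-- `∂_i P ∂_j P - P ∂_i ∂_j P` for `P = WL n L`. -/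
noncomputable def Dl (n : ℕ) (L : List ℕ) (i j : ℕ) (y : ℕ → ℝ) : ℝ :=
  if i = j then sm2 n L (2 ^ i) (2 ^ i) y ^ 2 else
    sm2 n L (2 ^ i ||| 2 ^ j) (2 ^ i) y * sm2 n L (2 ^ i ||| 2 ^ j) (2 ^ j) y -
      sm2 n L (2 ^ i ||| 2 ^ j) (2 ^ i ||| 2 ^ j) y * sm2 n L (2 ^ i ||| 2 ^ j) 0 y

/-- the isotropic combination with negative entry at `t1`. -/
noncomputable def isoC (b c : ℝ) (t1 t2 t3 : ℕ) (g : ℕ → ℝ) : ℝ :=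
  -(b * c) * g t1 + c * (b + c) * g t2 + b * (b + c) * g t3

def OblTE (n : ℕ) (L : List ℕ) (t1 t2 t3 e : ℕ) : Prop :=
  ∀ (y : ℕ → ℝ) (b c : ℝ), (∀ i, 0 ≤ y i) → 0 ≤ b → 0 ≤ c → y t1 = 0 → y e = 0 →
    0 ≤ isoC b c t1 t2 t3 (fun i => Dl n L i e y)

def OblTT (n : ℕ) (L : List ℕ) (t1 t2 t3 s1 s2 s3 : ℕ) : Prop :=
  ∀ (y : ℕ → ℝ) (b c b' c' : ℝ), (∀ i, 0 ≤ y i) → 0 ≤ b → 0 ≤ c → 0 ≤ b' → 0 ≤ c' →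
    y t1 = 0 → y s1 = 0 →
    0 ≤ isoC b c t1 t2 t3 (fun i => isoC b' c' s1 s2 s3 (fun j => Dl n L i j y))

def OblD (n : ℕ) (L : List ℕ) (t1 t2 t3 : ℕ) : Prop :=
  ∀ y : ℕ → ℝ, (∀ i, 0 ≤ y i) →
    let m := 2 ^ t1 ||| 2 ^ t2 ||| 2 ^ t3
    let W1 := sm2 n L m (2 ^ t1) y
    let W2 := sm2 n L m (2 ^ t2) y
    let W3 := sm2 n L m (2 ^ t3) y
    4 * sm2 n L m (2 ^ t1 ||| 2 ^ t2) y * sm2 n L m 0 y ≤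
      2 * (W1 * W2 + W1 * W3 + W2 * W3) - (W1 ^ 2 + W2 ^ 2 + W3 ^ 2)

end Pool.Agent.Lib.MP_c69b6d_co.F
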