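import Pool.Agent.Lib.MP_c69b6d_co.Fast
import Pool.Agent.Lib.MP_c69b6d_co.F.Obl

/-! The tree checker of `Fast` gives the obligation for a pair of elements. -/

namespace Pool.Agent.Lib.MP_c69b6d_co.F

theorem sum_sm2 (d : ℕ) (L : List ℕ) (U V : ℕ) (y : ℕ → ℝ) :
    (L.map (fun S => if S &&& U = V then
      wl ((List.range d).map (fun i => (y i, (1 : ℝ)))) (S ^^^ V) else 0)).sum = sm2 d L U V y := by
  have h : ∀ S, wl ((List.range d).map (fun i => (y i, (1 : ℝ)))) S =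
      ∏ i ∈ Finset.range d, if S.testBit i then y i else 1 := fun S => wl_eq d y (fun _ => 1) S
  simp only [h]
  unfold sm2 WL
  induction L with
  | nil => simp
  | cons S L ih =>
    simp only [List.map_cons, List.sum_cons, ih, List.filter_cons]
    by_cases h1 : S &&& U = V
    · simp [h1]
    · simp [h1]

theorem dl_of_rem {d : ℕ} {L : List ℕ} {e f K C : ℕ} {cs : List (ℕ × ℕ × ℕ × ℕ)} (hef : e ≠ f)
    (h : (rem d L (Nat.pow 2 e) (Nat.pow 2 f) K C cs).nonneg = true) :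
    ∀ y : ℕ → ℝ, (∀ i, 0 ≤ y i) → 0 ≤ Dl d L e f y := by
  intro y hy
  set l := (List.range d).map (fun i => (y i, (1 : ℝ))) with hl
  have hd : l.length = d := by simp [hl]
  have hl0 : ∀ w ∈ l, 0 ≤ w.1 ∧ 0 ≤ w.2 := by
    intro w hw
    obtain ⟨i, -, rfl⟩ := List.mem_map.1 hw
    exact ⟨hy i, zero_le_one⟩
  have h1 := ev3_nonneg l hl0 _ h
  unfold rem at h1
  rw [← hd] at h1
  have h2 := h1.trans (ev3_subq l hl0 _ _ _ _)
  simp only [ev3_fma, ev2f_bsel, ev3_z] at h2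
  have e0 : Nat.lor (Nat.pow 2 e) (Nat.pow 2 f) = 2 ^ e ||| 2 ^ f := rfl
  have e1 : Nat.pow 2 e = 2 ^ e := rfl
  have e2 : Nat.pow 2 f = 2 ^ f := rfl
  rw [e0, e1, e2, hl, sum_sm2, sum_sm2, sum_sm2, sum_sm2] at h2
  have h3 : ((Int.negSucc K : ℤ) : ℝ) = -((K : ℝ) + 1) := by simp [Int.negSucc_eq]
  have h4 : ((Int.ofNat (Nat.succ K) : ℤ) : ℝ) = (K : ℝ) + 1 := by simp
  rw [h3, h4] at h2
  have h5 : (0 : ℝ) < (K : ℝ) + 1 := by positivity
  unfold Dl
  rw [if_neg hef]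
  by_contra hc
  push Not at hc
  nlinarith

end Pool.Agent.Lib.MP_c69b6d_co.F
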