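import Pool.Agent.Lib.MP_c69b6d_co.F.M14a
import Pool.Agent.Lib.MP_c69b6d_co.F.Red

/-! The master matroid number 14. -/

namespace Pool.Agent.Lib.MP_c69b6d_co.F

set_option maxRecDepth 100000

theorem a14_0 : AutOf 12 mB14 (fun i => [0, 1, 2, 3, 4, 5, 6, 7, 8, 9, 10, 11].getD i 0) :=
  autOf_of_ok (by decide +kernel)

theorem a14_1 : AutOf 12 mB14 (fun i => [5, 9, 6, 11, 0, 2, 10, 4, 7, 3, 8, 1].getD i 0) :=
  autOf_of_ok (by decide +kernel)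

theorem a14_2 : AutOf 12 mB14 (fun i => [7, 1, 10, 3, 6, 5, 4, 0, 8, 11, 2, 9].getD i 0) :=
  autOf_of_ok (by decide +kernel)

theorem a14_3 : AutOf 12 mB14 (fun i => [4, 9, 8, 11, 10, 2, 0, 5, 7, 1, 6, 3].getD i 0) :=
  autOf_of_ok (by decide +kernel)

theorem a14_4 : AutOf 12 mB14 (fun i => [2, 3, 10, 1, 8, 4, 5, 0, 6, 11, 7, 9].getD i 0) :=
  autOf_of_ok (by decide +kernel)

theorem a14_5 : AutOf 12 mB14 (fun i => [6, 11, 8, 9, 2, 10, 7, 5, 0, 1, 4, 3].getD i 0) :=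
  autOf_of_ok (by decide +kernel)

theorem a14_6 : AutOf 12 mB14 (fun i => [10, 3, 2, 1, 5, 4, 8, 7, 6, 9, 0, 11].getD i 0) :=
  autOf_of_ok (by decide +kernel)

theorem a14_7 : AutOf 12 mB14 (fun i => [8, 9, 4, 11, 0, 2, 10, 6, 7, 3, 5, 1].getD i 0) :=
  autOf_of_ok (by decide +kernel)

theorem a14_8 : AutOf 12 mB14 (fun i => [7, 3, 0, 1, 5, 6, 8, 10, 4, 11, 2, 9].getD i 0) :=
  autOf_of_ok (by decide +kernel)

theorem a14_9 : AutOf 12 mB14 (fun i => [4, 11, 5, 9, 2, 10, 7, 8, 0, 1, 6, 3].getD i 0) :=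
  autOf_of_ok (by decide +kernel)

theorem a14_10 : AutOf 12 mB14 (fun i => [6, 9, 5, 11, 10, 2, 0, 8, 7, 1, 4, 3].getD i 0) :=
  autOf_of_ok (by decide +kernel)

theorem a14_11 : AutOf 12 mB14 (fun i => [5, 11, 4, 9, 2, 0, 7, 6, 10, 3, 8, 1].getD i 0) :=
  autOf_of_ok (by decide +kernel)

theorem a14_12 : AutOf 12 mB14 (fun i => [8, 11, 6, 9, 7, 10, 2, 4, 0, 3, 5, 1].getD i 0) :=
  autOf_of_ok (by decide +kernel)

theorem a14_13 : AutOf 12 mB14 (fun i => [0, 1, 2, 3, 6, 8, 4, 7, 5, 9, 10, 11].getD i 0) :=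
  autOf_of_ok (by decide +kernel)

theorem a14_14 : AutOf 12 mB14 (fun i => [10, 1, 7, 3, 4, 5, 6, 2, 8, 9, 0, 11].getD i 0) :=
  autOf_of_ok (by decide +kernel)

theorem a14_15 : AutOf 12 mB14 (fun i => [2, 1, 0, 3, 6, 5, 4, 10, 8, 11, 7, 9].getD i 0) :=
  autOf_of_ok (by decide +kernel)

theorem a14_16 : AutOf 12 mB14 (fun i => [10, 3, 2, 1, 8, 6, 5, 7, 4, 9, 0, 11].getD i 0) :=
  autOf_of_ok (by decide +kernel)

theorem a14_17 : AutOf 12 mB14 (fun i => [0, 3, 7, 1, 5, 4, 8, 2, 6, 9, 10, 11].getD i 0) :=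
  autOf_of_ok (by decide +kernel)

theorem a14_18 : AutOf 12 mB14 (fun i => [4, 11, 5, 9, 7, 0, 2, 8, 10, 1, 6, 3].getD i 0) :=
  autOf_of_ok (by decide +kernel)

theorem q14_0 : QF (WL 12 mB14) {1} {0} :=
  qf_EE (by decide) (by decide) (by decide) oEE14_1_0

theorem q14_1 : QF (WL 12 mB14) {2} {0} :=
  qf_EE (by decide) (by decide) (by decide) oEE14_2_0

theorem q14_2 : QF (WL 12 mB14) {4} {0} :=
  qf_EE (by decide) (by decide) (by decide) oEE14_4_0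

theorem q14_3 : QF (WL 12 mB14) {9} {0} :=
  qf_EE (by decide) (by decide) (by decide) oEE14_9_0

theorem q14_4 : QF (WL 12 mB14) {10} {0} :=
  qf_EE (by decide) (by decide) (by decide) oEE14_10_0

theorem q14_5 : QF (WL 12 mB14) {11} {0} :=
  qf_EE (by decide) (by decide) (by decide) oEE14_11_0

theorem q14_6 : QF (WL 12 mB14) {3} {1} :=
  qf_EE (by decide) (by decide) (by decide) oEE14_3_1

theorem q14_7 : QF (WL 12 mB14) {9} {1} :=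
  qf_EE (by decide) (by decide) (by decide) oEE14_9_1

theorem master14 : Master14 := by
  refine cl_of_cover [({1}, {0}), ({2}, {0}), ({4}, {0}), ({9}, {0}), ({10}, {0}), ({11}, {0}), ({3}, {1}), ({9}, {1})]
    [fun i => [0, 1, 2, 3, 4, 5, 6, 7, 8, 9, 10, 11].getD i 0,
     fun i => [5, 9, 6, 11, 0, 2, 10, 4, 7, 3, 8, 1].getD i 0,
     fun i => [7, 1, 10, 3, 6, 5, 4, 0, 8, 11, 2, 9].getD i 0,
     fun i => [4, 9, 8, 11, 10, 2, 0, 5, 7, 1, 6, 3].getD i 0,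
     fun i => [2, 3, 10, 1, 8, 4, 5, 0, 6, 11, 7, 9].getD i 0,
     fun i => [6, 11, 8, 9, 2, 10, 7, 5, 0, 1, 4, 3].getD i 0,
     fun i => [10, 3, 2, 1, 5, 4, 8, 7, 6, 9, 0, 11].getD i 0,
     fun i => [8, 9, 4, 11, 0, 2, 10, 6, 7, 3, 5, 1].getD i 0,
     fun i => [7, 3, 0, 1, 5, 6, 8, 10, 4, 11, 2, 9].getD i 0,
     fun i => [4, 11, 5, 9, 2, 10, 7, 8, 0, 1, 6, 3].getD i 0,
     fun i => [6, 9, 5, 11, 10, 2, 0, 8, 7, 1, 4, 3].getD i 0,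
     fun i => [5, 11, 4, 9, 2, 0, 7, 6, 10, 3, 8, 1].getD i 0,
     fun i => [8, 11, 6, 9, 7, 10, 2, 4, 0, 3, 5, 1].getD i 0,
     fun i => [0, 1, 2, 3, 6, 8, 4, 7, 5, 9, 10, 11].getD i 0,
     fun i => [10, 1, 7, 3, 4, 5, 6, 2, 8, 9, 0, 11].getD i 0,
     fun i => [2, 1, 0, 3, 6, 5, 4, 10, 8, 11, 7, 9].getD i 0,
     fun i => [10, 3, 2, 1, 8, 6, 5, 7, 4, 9, 0, 11].getD i 0,
     fun i => [0, 3, 7, 1, 5, 4, 8, 2, 6, 9, 10, 11].getD i 0,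
     fun i => [4, 11, 5, 9, 7, 0, 2, 8, 10, 1, 6, 3].getD i 0] ?_ ?_ ?_
  · intro g hg
    simp only [List.mem_cons, List.not_mem_nil, or_false] at hg
    rcases hg with rfl | rfl | rfl | rfl | rfl | rfl | rfl | rfl | rfl | rfl | rfl | rfl | rfl | rfl | rfl | rfl | rfl | rfl | rfl
    exacts [a14_0, a14_1, a14_2, a14_3, a14_4, a14_5, a14_6, a14_7, a14_8, a14_9, a14_10, a14_11, a14_12, a14_13, a14_14, a14_15, a14_16, a14_17, a14_18]
  · intro p hp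
    simp only [List.mem_cons, List.not_mem_nil, or_false] at hp
    rcases hp with rfl | rfl | rfl | rfl | rfl | rfl | rfl | rfl
    exacts [⟨by decide, by decide, q14_0⟩, ⟨by decide, by decide, q14_1⟩, ⟨by decide, by decide, q14_2⟩, ⟨by decide, by decide, q14_3⟩, ⟨by decide, by decide, q14_4⟩, ⟨by decide, by decide, q14_5⟩, ⟨by decide, by decide, q14_6⟩, ⟨by decide, by decide, q14_7⟩]
  · decide +kernel

end Pool.Agent.Lib.MP_c69b6d_co.F
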