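import Pool.Agent.Lib.MP_c69b6d_co.Fast
import Pool.Agent.Lib.MP_c69b6d_co.F.Obl

/-! A small checker for certificates of the obligations without multiplier. -/

namespace Pool.Agent.Lib.MP_c69b6d_co.F

open Finset

/-- the tree of the selected members of `L`, killed variables `Z`, extra monomial `x`. -/
noncomputable def bselX (n Z U V x : ℕ) (L : List ℕ) : P2 :=
  List.rec (motive := fun _ => P2) P2.z
    (fun S _ r => Bool.rec (motive := fun _ => P2) r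
      (Bool.rec (motive := fun _ => P2) r
        (insE 1 (Nat.add n 4)
          (Nat.add (Nat.mul (Nat.pow 2 n) x) (Nat.mod (Nat.xor S V) (Nat.pow 2 n))) r)
        (Nat.beq (Nat.land (Nat.mod (Nat.xor S V) (Nat.pow 2 n)) Z) 0))
      (Nat.beq (Nat.land S U) V)) L

/-- the monomial in the four extra variables. -/
noncomputable def exM (w : ℕ → ℝ) (x : ℕ) : ℝ := ∏ i ∈ range 4, if x.testBit i then w i else 1

/-- the list of variables. -/
noncomputable def vl (n : ℕ) (y w : ℕ → ℝ) : List (ℝ × ℝ) :=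
  (List.range (n + 4)).map (fun i => (if i < n then y i else w (i - n), (1 : ℝ)))

theorem vl_length (n : ℕ) (y w : ℕ → ℝ) : (vl n y w).length = n + 4 := by simp [vl]

theorem wl_vl (n : ℕ) (y w : ℕ → ℝ) (x m : ℕ) :
    wl (vl n y w) (2 ^ n * x + m % 2 ^ n) =
      exM w x * ∏ i ∈ range n, if m.testBit i then y i else 1 := by
  have h := wl_eq (n + 4) (fun i => if i < n then y i else w (i - n)) (fun _ => 1)
    (2 ^ n * x + m % 2 ^ n)
  unfold vl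
  rw [h, wf, prod_range_add, mul_comm]
  have hm : m % 2 ^ n < 2 ^ n := Nat.mod_lt _ (by positivity)
  congr 1
  · refine prod_congr rfl fun i _ => ?_
    rw [Nat.testBit_two_pow_mul_add _ hm]
    simp
  · refine prod_congr rfl fun i hi => ?_
    have hi' := mem_range.1 hi
    rw [Nat.testBit_two_pow_mul_add _ hm]
    simp [hi', Nat.testBit_mod_two_pow]

theorem prod_kill (n Z m : ℕ) (y : ℕ → ℝ) (hZ : ∀ i, Z.testBit i = true → y i = 0)
    (h : (m % 2 ^ n) &&& Z ≠ 0) : (∏ i ∈ range n, if m.testBit i then y i else 1) = 0 := by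
  obtain ⟨i, hi⟩ := Nat.exists_testBit_of_ne_zero h
  rw [Nat.testBit_and, Nat.testBit_mod_two_pow] at hi
  simp only [Bool.and_eq_true, decide_eq_true_eq] at hi
  exact prod_eq_zero (mem_range.2 hi.1.1) (by rw [if_pos hi.1.2, hZ i hi.2])

theorem ev2f_bselX (n Z U V x : ℕ) (L : List ℕ) (y w : ℕ → ℝ)
    (hZ : ∀ i, Z.testBit i = true → y i = 0) :
    ev2f (vl n y w) (bselX n Z U V x L) = exM w x * sm2 n L U V y := by
  unfold sm2 WL
  induction L with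
  | nil => simp [bselX, ev2f_z]
  | cons S L ih =>
    have e : bselX n Z U V x (S :: L) = Bool.rec (motive := fun _ => P2) (bselX n Z U V x L)
      (Bool.rec (motive := fun _ => P2) (bselX n Z U V x L)
        (insE 1 (n + 4) (2 ^ n * x + (S ^^^ V) % 2 ^ n) (bselX n Z U V x L))
        (Nat.beq (((S ^^^ V) % 2 ^ n) &&& Z) 0)) (Nat.beq (S &&& U) V) := rfl
    rw [e, List.filter_cons]
    cases h : Nat.beq (S &&& U) V
    · have : ¬ S &&& U = V := fun hh => by simp [hh] at h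
      simp only [beq_iff_eq, this, if_false]
      exact ih
    · have h1 := Nat.eq_of_beq_eq_true h
      simp only [beq_iff_eq, h1, if_true, List.map_cons, List.sum_cons]
      cases h2 : Nat.beq (((S ^^^ V) % 2 ^ n) &&& Z) 0
      · have h3 : ((S ^^^ V) % 2 ^ n) &&& Z ≠ 0 := fun hh => by simp [hh] at h2
        rw [prod_kill n Z _ y hZ h3, zero_add]
        exact ih
      · simp only
        rw [← vl_length n y w, ev2f_insE, ih, wl_vl]
        push_cast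
        ring

/-- a product `k * x1 * sm2 U1 V1 * x2 * sm2 U2 V2`. -/
structure Trm where
  k : ℤ
  U1 : ℕ
  V1 : ℕ
  x1 : ℕ
  U2 : ℕ
  V2 : ℕ
  x2 : ℕ

noncomputable def Trm.val (n : ℕ) (L : List ℕ) (y w : ℕ → ℝ) (t : Trm) : ℝ :=
  t.k * ((exM w t.x1 * sm2 n L t.U1 t.V1 y) * (exM w t.x2 * sm2 n L t.U2 t.V2 y))

noncomputable def tgt (n Z K : ℕ) (L : List ℕ) (ts : List Trm) : P3 :=
  List.rec (motive := fun _ => P3) P3.z
    (fun t _ r => fma (Int.mul (Int.ofNat (Nat.succ K)) t.k) (bselX n Z t.U1 t.V1 t.x1 L)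
      (bselX n Z t.U2 t.V2 t.x2 L) r) ts

theorem ev3_tgt (n Z K : ℕ) (L : List ℕ) (ts : List Trm) (y w : ℕ → ℝ)
    (hZ : ∀ i, Z.testBit i = true → y i = 0) :
    ev3 (vl n y w) (tgt n Z K L ts) = ((K : ℝ) + 1) * (ts.map (Trm.val n L y w)).sum := by
  induction ts with
  | nil => simp [tgt, ev3_z]
  | cons t ts ih =>
    have e : tgt n Z K L (t :: ts) = fma (((K + 1 : ℕ) : ℤ) * t.k) (bselX n Z t.U1 t.V1 t.x1 L)
      (bselX n Z t.U2 t.V2 t.x2 L) (tgt n Z K L ts) := rfl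
    rw [e, ev3_fma, ih, ev2f_bselX _ _ _ _ _ _ _ _ hZ, ev2f_bselX _ _ _ _ _ _ _ _ hZ,
      List.map_cons, List.sum_cons, Trm.val]
    push_cast
    ring

/-- the test. -/
noncomputable def chkX (n Z K C : ℕ) (L : List ℕ) (ts : List Trm)
    (cs : List (ℕ × ℕ × ℕ × ℕ)) : Bool :=
  (subq (Nat.add n 4) (Nat.pow 2 (Nat.add n 4)) C cs (tgt n Z K L ts)).nonneg

theorem sum_nonneg_of_chk {n Z K C : ℕ} {L : List ℕ} {ts : List Trm}
    {cs : List (ℕ × ℕ × ℕ × ℕ)} (h : chkX n Z K C L ts cs = true) (y w : ℕ → ℝ)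
    (hy : ∀ i, 0 ≤ y i) (hw : ∀ i, 0 ≤ w i) (hZ : ∀ i, Z.testBit i = true → y i = 0) :
    0 ≤ (ts.map (Trm.val n L y w)).sum := by
  have hl0 : ∀ p ∈ vl n y w, 0 ≤ p.1 ∧ 0 ≤ p.2 := by
    intro p hp
    obtain ⟨i, -, rfl⟩ := List.mem_map.1 hp
    refine ⟨?_, zero_le_one⟩
    simp only
    split_ifs
    exacts [hy _, hw _]
  have h1 := ev3_nonneg (vl n y w) hl0 _ h
  have e : Nat.add n 4 = (vl n y w).length := (vl_length n y w).symm
  rw [e] at h1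
  have h2 := h1.trans (ev3_subq _ hl0 _ _ _ _)
  rw [ev3_tgt _ _ _ _ _ _ _ hZ] at h2
  have h5 : (0 : ℝ) < (K : ℝ) + 1 := by positivity
  exact nonneg_of_mul_nonneg_right h2 h5 |> fun h => by
    by_contra hc
    push Not at hc
    nlinarith

/-- the products of `k * x1 * x2 * Dl i j`. -/
def dlT (k : ℤ) (x1 x2 i j : ℕ) : List Trm :=
  if i = j then [⟨k, 2 ^ i, 2 ^ i, x1, 2 ^ i, 2 ^ i, x2⟩] else
    [⟨k, 2 ^ i ||| 2 ^ j, 2 ^ i, x1, 2 ^ i ||| 2 ^ j, 2 ^ j, x2⟩,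
     ⟨-k, 2 ^ i ||| 2 ^ j, 2 ^ i ||| 2 ^ j, x1, 2 ^ i ||| 2 ^ j, 0, x2⟩]

theorem dlT_sum (n : ℕ) (L : List ℕ) (y w : ℕ → ℝ) (k : ℤ) (x1 x2 i j : ℕ) :
    ((dlT k x1 x2 i j).map (Trm.val n L y w)).sum = k * exM w x1 * exM w x2 * Dl n L i j y := by
  unfold dlT Dl
  split_ifs
  · simp only [List.map_cons, List.map_nil, List.sum_cons, List.sum_nil, Trm.val]; ring
  · simp only [List.map_cons, List.map_nil, List.sum_cons, List.sum_nil, Trm.val]; push_cast; ring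

/-- the extra variables. -/
def ex4 (b c b' c' : ℝ) : ℕ → ℝ := fun i => if i = 0 then b else if i = 1 then c else
  if i = 2 then b' else c'

theorem ex4_nonneg {b c b' c' : ℝ} (h1 : 0 ≤ b) (h2 : 0 ≤ c) (h3 : 0 ≤ b') (h4 : 0 ≤ c') (i : ℕ) :
    0 ≤ ex4 b c b' c' i := by
  unfold ex4; split_ifs <;> assumption

theorem exM_ex4 (b c b' c' : ℝ) (x : ℕ) : exM (ex4 b c b' c') x =
    (if x.testBit 0 then b else 1) * (if x.testBit 1 then c else 1) *
      (if x.testBit 2 then b' else 1) * (if x.testBit 3 then c' else 1) := by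
  simp [exM, prod_range_succ, ex4]

theorem kill2 {a b : ℕ} {y : ℕ → ℝ} (ha : y a = 0) (hb : y b = 0) (i : ℕ)
    (h : (2 ^ a ||| 2 ^ b).testBit i = true) : y i = 0 := by
  simp only [Nat.testBit_or, Nat.testBit_two_pow, Bool.or_eq_true, decide_eq_true_eq] at h
  rcases h with rfl | rfl
  exacts [ha, hb]

theorem ee_of_chk {n K C : ℕ} {L : List ℕ} {e f : ℕ} {cs : List (ℕ × ℕ × ℕ × ℕ)}
    (h : chkX n 0 K C L (dlT 1 0 0 e f) cs = true) :
    ∀ y : ℕ → ℝ, (∀ i, 0 ≤ y i) → 0 ≤ Dl n L e f y := by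
  intro y hy
  have := sum_nonneg_of_chk h y (ex4 0 0 0 0) hy
    (ex4_nonneg le_rfl le_rfl le_rfl le_rfl) (by simp)
  rw [dlT_sum, exM_ex4] at this
  simpa using this

def teT (t1 t2 t3 e : ℕ) : List Trm :=
  dlT (-1) 1 2 t1 e ++ (dlT 1 1 2 t2 e ++ (dlT 1 2 2 t2 e ++ (dlT 1 1 2 t3 e ++ dlT 1 1 1 t3 e)))

theorem te_of_chk {n K C : ℕ} {L : List ℕ} {t1 t2 t3 e : ℕ} {cs : List (ℕ × ℕ × ℕ × ℕ)}
    (h : chkX n (2 ^ t1 ||| 2 ^ e) K C L (teT t1 t2 t3 e) cs = true) : OblTE n L t1 t2 t3 e := by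
  intro y b c hy hb hc h1 h2
  have := sum_nonneg_of_chk h y (ex4 b c 0 0) hy (ex4_nonneg hb hc le_rfl le_rfl) (kill2 h1 h2)
  simp only [teT, List.map_append, List.sum_append, dlT_sum, exM_ex4] at this
  simp only [isoC]
  norm_num [Nat.testBit_succ] at this
  linarith

/-- the five monomials of an isotropic direction. -/
def tauT (t1 t2 t3 p q : ℕ) : List (ℤ × ℕ × ℕ × ℕ) :=
  [(-1, t1, p, q), (1, t2, p, q), (1, t2, q, q), (1, t3, p, q), (1, t3, p, p)]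

def ttT (t1 t2 t3 s1 s2 s3 : ℕ) : List Trm :=
  (tauT t1 t2 t3 1 2).flatMap fun u => (tauT s1 s2 s3 4 8).flatMap fun v =>
    dlT (u.1 * v.1) (u.2.2.1 + v.2.2.1) (u.2.2.2 + v.2.2.2) u.2.1 v.2.1

theorem tt_of_chk {n K C : ℕ} {L : List ℕ} {t1 t2 t3 s1 s2 s3 : ℕ}
    {cs : List (ℕ × ℕ × ℕ × ℕ)}
    (h : chkX n (2 ^ t1 ||| 2 ^ s1) K C L (ttT t1 t2 t3 s1 s2 s3) cs = true) :
    OblTT n L t1 t2 t3 s1 s2 s3 := by
  intro y b c b' c' hy hb hc hb' hc' h1 h2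
  have := sum_nonneg_of_chk h y (ex4 b c b' c') hy (ex4_nonneg hb hc hb' hc') (kill2 h1 h2)
  simp only [ttT, tauT, List.flatMap_cons, List.flatMap_nil, List.map_append, List.sum_append,
    dlT_sum, exM_ex4, List.map_nil, List.sum_nil] at this
  simp only [isoC]
  norm_num [Nat.testBit_succ] at this
  linarith

def dT (t1 t2 t3 : ℕ) : List Trm :=
  let m := 2 ^ t1 ||| 2 ^ t2 ||| 2 ^ t3
  [⟨2, m, 2 ^ t1, 0, m, 2 ^ t2, 0⟩, ⟨2, m, 2 ^ t1, 0, m, 2 ^ t3, 0⟩, ⟨2, m, 2 ^ t2, 0, m, 2 ^ t3, 0⟩,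
   ⟨-1, m, 2 ^ t1, 0, m, 2 ^ t1, 0⟩, ⟨-1, m, 2 ^ t2, 0, m, 2 ^ t2, 0⟩,
   ⟨-1, m, 2 ^ t3, 0, m, 2 ^ t3, 0⟩, ⟨-4, m, 2 ^ t1 ||| 2 ^ t2, 0, m, 0, 0⟩]

theorem d_of_chk {n K C : ℕ} {L : List ℕ} {t1 t2 t3 : ℕ} {cs : List (ℕ × ℕ × ℕ × ℕ)}
    (h : chkX n 0 K C L (dT t1 t2 t3) cs = true) : OblD n L t1 t2 t3 := by
  intro y hy
  have := sum_nonneg_of_chk h y (ex4 0 0 0 0) hy
    (ex4_nonneg le_rfl le_rfl le_rfl le_rfl) (by simp)
  simp only [dT, List.map_cons, List.map_nil, List.sum_cons, List.sum_nil, Trm.val, exM_ex4] at this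
  norm_num at this
  simp only
  linarith

end Pool.Agent.Lib.MP_c69b6d_co.F
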