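import Pool.Agent.Lib.MP_c69b6d_co.F.M1c

/-! A faster form of the checker of `M1c`: extra variables first, factors evaluated once. -/

namespace Pool.Agent.Lib.MP_c69b6d_co.F

open Finset

noncomputable def fN (n : ℕ) (k : ℕ → P3) : P3 :=
  Nat.rec (motive := fun _ => P3) (k 0) (fun m _ => k (Nat.succ m)) n

theorem fN_eq (n : ℕ) (k : ℕ → P3) : fN n k = k n := by cases n <;> rfl

noncomputable def fI (n : ℤ) (k : ℤ → P3) : P3 :=
  Int.rec (motive := fun _ => P3) (fun m => fN m (fun j => k (Int.ofNat j)))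
    (fun m => fN m (fun j => k (Int.negSucc j))) n

theorem fI_eq (n : ℤ) (k : ℤ → P3) : fI n k = k n := by
  cases n with
  | ofNat m => exact fN_eq m (fun j => k (Int.ofNat j))
  | negSucc m => exact fN_eq m (fun j => k (Int.negSucc j))

noncomputable def f2 (a : P2) : (P2 → P3) → P3 :=
  P2.rec (motive := fun _ => (P2 → P3) → P3) (fun k => k P2.z)
    (fun m k => fI m (fun j => k (P2.c j)))
    (fun _ _ r0 r1 k => r0 (fun a0 => r1 (fun a1 => k (P2.n a0 a1)))) a

theorem f2_eq (a : P2) (k : P2 → P3) : f2 a k = k a := by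
  induction a generalizing k with
  | z => rfl
  | c m => exact fI_eq m (fun j => k (P2.c j))
  | n a b iha ihb =>
    have : f2 (P2.n a b) k = f2 a (fun a0 => f2 b (fun a1 => k (P2.n a0 a1))) := rfl
    rw [this, iha, ihb]

noncomputable def bselY (n Z U V x : ℕ) (L : List ℕ) : P2 :=
  List.rec (motive := fun _ => P2) P2.z
    (fun S _ r => Bool.rec (motive := fun _ => P2) r
      (Bool.rec (motive := fun _ => P2) r
        (insE 1 (Nat.add 4 n)
          (Nat.add (Nat.mul 16 (Nat.mod (Nat.xor S V) (Nat.pow 2 n))) (Nat.mod x 16)) r)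
        (Nat.beq (Nat.land (Nat.mod (Nat.xor S V) (Nat.pow 2 n)) Z) 0))
      (Nat.beq (Nat.land S U) V)) L

noncomputable def vlY (n : ℕ) (y w : ℕ → ℝ) : List (ℝ × ℝ) :=
  (List.range (4 + n)).map (fun i => (if i < 4 then w i else y (i - 4), (1 : ℝ)))

theorem vlY_length (n : ℕ) (y w : ℕ → ℝ) : (vlY n y w).length = 4 + n := by simp [vlY]

theorem wl_vlY (n : ℕ) (y w : ℕ → ℝ) (x m : ℕ) :
    wl (vlY n y w) (16 * (m % 2 ^ n) + x % 16) =
      exM w x * ∏ i ∈ range n, if m.testBit i then y i else 1 := by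
  have h := wl_eq (4 + n) (fun i => if i < 4 then w i else y (i - 4)) (fun _ => 1)
    (2 ^ 4 * (m % 2 ^ n) + x % 2 ^ 4)
  unfold vlY
  rw [show 16 * (m % 2 ^ n) + x % 16 = 2 ^ 4 * (m % 2 ^ n) + x % 2 ^ 4 from rfl, h, wf,
    prod_range_add]
  have hm : x % 2 ^ 4 < 2 ^ 4 := Nat.mod_lt _ (by positivity)
  congr 1
  · refine prod_congr rfl fun i hi => ?_
    have hi' := mem_range.1 hi
    rw [Nat.testBit_two_pow_mul_add _ hm]
    simp only [hi', if_true, Nat.testBit_mod_two_pow, decide_true, Bool.true_and]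
  · refine prod_congr rfl fun i hi => ?_
    have hi' := mem_range.1 hi
    have h4 : ¬ 4 + i < 4 := by omega
    rw [Nat.testBit_two_pow_mul_add _ hm]
    simp only [h4, hi', if_false, Nat.add_sub_cancel_left, Nat.testBit_mod_two_pow, decide_true,
      Bool.true_and]

theorem ev2f_bselY (n Z U V x : ℕ) (L : List ℕ) (y w : ℕ → ℝ)
    (hZ : ∀ i, Z.testBit i = true → y i = 0) :
    ev2f (vlY n y w) (bselY n Z U V x L) = exM w x * sm2 n L U V y := by
  unfold sm2 WL
  induction L with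
  | nil => simp [bselY, ev2f_z]
  | cons S L ih =>
    have e : bselY n Z U V x (S :: L) = Bool.rec (motive := fun _ => P2) (bselY n Z U V x L)
      (Bool.rec (motive := fun _ => P2) (bselY n Z U V x L)
        (insE 1 (4 + n) (16 * ((S ^^^ V) % 2 ^ n) + x % 16) (bselY n Z U V x L))
        (Nat.beq (((S ^^^ V) % 2 ^ n) &&& Z) 0)) (Nat.beq (S &&& U) V) := rfl
    rw [e, List.filter_cons]
    cases h : Nat.beq (S &&& U) V
    · have : ¬ S &&& U = V := fun hh => by simp [hh] at h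
      simp only [beq_iff_eq, this, if_false]
      exact ih
    · have h1 := Nat.eq_of_beq_eq_true h
      simp only [beq_iff_eq, h1, if_true, List.map_cons, List.sum_cons]
      cases h2 : Nat.beq (((S ^^^ V) % 2 ^ n) &&& Z) 0
      · have h3 : ((S ^^^ V) % 2 ^ n) &&& Z ≠ 0 := fun hh => by simp [hh] at h2
        rw [prod_kill n Z _ y hZ h3, zero_add]
        exact ih
      · simp only
        rw [← vlY_length n y w, ev2f_insE, ih, wl_vlY]
        push_cast
        ring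

noncomputable def tgtY (n Z K : ℕ) (L : List ℕ) (ts : List Trm) : P3 :=
  List.rec (motive := fun _ => P3) P3.z
    (fun t _ r => f2 (bselY n Z t.U1 t.V1 t.x1 L) fun a => f2 (bselY n Z t.U2 t.V2 t.x2 L) fun b =>
      fI (Int.mul (Int.ofNat (Nat.succ K)) t.k) fun k => fma k a b r) ts

theorem ev3_tgtY (n Z K : ℕ) (L : List ℕ) (ts : List Trm) (y w : ℕ → ℝ)
    (hZ : ∀ i, Z.testBit i = true → y i = 0) :
    ev3 (vlY n y w) (tgtY n Z K L ts) = ((K : ℝ) + 1) * (ts.map (Trm.val n L y w)).sum := by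
  induction ts with
  | nil => simp [tgtY, ev3_z]
  | cons t ts ih =>
    have e : tgtY n Z K L (t :: ts) = f2 (bselY n Z t.U1 t.V1 t.x1 L) fun a =>
      f2 (bselY n Z t.U2 t.V2 t.x2 L) fun b =>
        fI (((K + 1 : ℕ) : ℤ) * t.k) fun k => fma k a b (tgtY n Z K L ts) := rfl
    rw [e, f2_eq, f2_eq, fI_eq, ev3_fma, ih, ev2f_bselY _ _ _ _ _ _ _ _ hZ,
      ev2f_bselY _ _ _ _ _ _ _ _ hZ, List.map_cons, List.sum_cons, Trm.val]
    push_cast
    ring

/-- subtract the packed squares, every factor being evaluated once. -/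
noncomputable def subY (d B C : ℕ) (cs : List (ℕ × ℕ × ℕ × ℕ)) (t : P3) : P3 :=
  List.rec (motive := fun _ => P3) t
    (fun s _ r => Bool.rec (motive := fun _ => P3)
      (f2 (unp d B C (fun S => Nat.lor S s.2.1) s.2.2.1 s.2.2.2) fun a =>
        f2 (unp d B C (fun S => Nat.xor (Nat.lor S s.2.1) s.2.1) s.2.2.1 s.2.2.2) fun b =>
          fI (Int.negSucc s.1) fun k => fma k a b r)
      (f2 (unp d B C (fun S => S) s.2.2.1 s.2.2.2) fun a => fI (Int.negSucc s.1) fun k =>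
        fI (Int.negSucc (Nat.succ (Nat.mul 2 s.1))) fun k2 => fsq k k2 a r) (Nat.beq s.2.1 0)) cs

theorem subY_eq (d B C : ℕ) (cs : List (ℕ × ℕ × ℕ × ℕ)) (t : P3) :
    subY d B C cs t = subq d B C cs t := by
  induction cs with
  | nil => rfl
  | cons s cs ih =>
    have e : subY d B C (s :: cs) t = Bool.rec (motive := fun _ => P3)
      (f2 (unp d B C (fun S => Nat.lor S s.2.1) s.2.2.1 s.2.2.2) fun a =>
        f2 (unp d B C (fun S => Nat.xor (Nat.lor S s.2.1) s.2.1) s.2.2.1 s.2.2.2) fun b =>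
          fI (Int.negSucc s.1) fun k => fma k a b (subY d B C cs t))
      (f2 (unp d B C (fun S => S) s.2.2.1 s.2.2.2) fun a => fI (Int.negSucc s.1) fun k =>
        fI (Int.negSucc (Nat.succ (Nat.mul 2 s.1))) fun k2 => fsq k k2 a (subY d B C cs t))
      (Nat.beq s.2.1 0) := rfl
    rw [e, f2_eq, f2_eq, f2_eq, fI_eq, fI_eq, fI_eq, ih]
    rfl

noncomputable def chkY (n Z K C : ℕ) (L : List ℕ) (ts : List Trm)
    (cs : List (ℕ × ℕ × ℕ × ℕ)) : Bool :=
  (subY (Nat.add 4 n) (Nat.pow 2 (Nat.add 4 n)) C cs (tgtY n Z K L ts)).nonneg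

theorem sum_nonneg_of_chkY {n Z K C : ℕ} {L : List ℕ} {ts : List Trm}
    {cs : List (ℕ × ℕ × ℕ × ℕ)} (h : chkY n Z K C L ts cs = true) (y w : ℕ → ℝ)
    (hy : ∀ i, 0 ≤ y i) (hw : ∀ i, 0 ≤ w i) (hZ : ∀ i, Z.testBit i = true → y i = 0) :
    0 ≤ (ts.map (Trm.val n L y w)).sum := by
  have hl0 : ∀ p ∈ vlY n y w, 0 ≤ p.1 ∧ 0 ≤ p.2 := by
    intro p hp
    obtain ⟨i, -, rfl⟩ := List.mem_map.1 hp
    refine ⟨?_, zero_le_one⟩
    simp only
    split_ifs
    exacts [hw _, hy _]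
  have h1 := ev3_nonneg (vlY n y w) hl0 _ h
  have e : Nat.add 4 n = (vlY n y w).length := (vlY_length n y w).symm
  rw [subY_eq, e] at h1
  have h2 := h1.trans (ev3_subq _ hl0 _ _ _ _)
  rw [ev3_tgtY _ _ _ _ _ _ _ hZ] at h2
  have h5 : (0 : ℝ) < (K : ℝ) + 1 := by positivity
  by_contra hc
  push Not at hc
  nlinarith

theorem ee_of_chkY {n K C : ℕ} {L : List ℕ} {e f : ℕ} {cs : List (ℕ × ℕ × ℕ × ℕ)}
    (h : chkY n 0 K C L (dlT 1 0 0 e f) cs = true) :
    ∀ y : ℕ → ℝ, (∀ i, 0 ≤ y i) → 0 ≤ Dl n L e f y := by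
  intro y hy
  have := sum_nonneg_of_chkY h y (ex4 0 0 0 0) hy
    (ex4_nonneg le_rfl le_rfl le_rfl le_rfl) (by simp)
  rw [dlT_sum, exM_ex4] at this
  simpa using this

theorem te_of_chkY {n K C : ℕ} {L : List ℕ} {t1 t2 t3 e : ℕ} {cs : List (ℕ × ℕ × ℕ × ℕ)}
    (h : chkY n (2 ^ t1 ||| 2 ^ e) K C L (teT t1 t2 t3 e) cs = true) : OblTE n L t1 t2 t3 e := by
  intro y b c hy hb hc h1 h2
  have := sum_nonneg_of_chkY h y (ex4 b c 0 0) hy (ex4_nonneg hb hc le_rfl le_rfl) (kill2 h1 h2)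
  simp only [teT, List.map_append, List.sum_append, dlT_sum, exM_ex4] at this
  simp only [isoC]
  norm_num [Nat.testBit_succ] at this
  linarith

theorem tt_of_chkY {n K C : ℕ} {L : List ℕ} {t1 t2 t3 s1 s2 s3 : ℕ}
    {cs : List (ℕ × ℕ × ℕ × ℕ)}
    (h : chkY n (2 ^ t1 ||| 2 ^ s1) K C L (ttT t1 t2 t3 s1 s2 s3) cs = true) :
    OblTT n L t1 t2 t3 s1 s2 s3 := by
  intro y b c b' c' hy hb hc hb' hc' h1 h2
  have := sum_nonneg_of_chkY h y (ex4 b c b' c') hy (ex4_nonneg hb hc hb' hc') (kill2 h1 h2)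
  simp only [ttT, tauT, List.flatMap_cons, List.flatMap_nil, List.map_append, List.sum_append,
    dlT_sum, exM_ex4, List.map_nil, List.sum_nil] at this
  simp only [isoC]
  norm_num [Nat.testBit_succ] at this
  linarith

theorem d_of_chkY {n K C : ℕ} {L : List ℕ} {t1 t2 t3 : ℕ} {cs : List (ℕ × ℕ × ℕ × ℕ)}
    (h : chkY n 0 K C L (dT t1 t2 t3) cs = true) : OblD n L t1 t2 t3 := by
  intro y hy
  have := sum_nonneg_of_chkY h y (ex4 0 0 0 0) hy
    (ex4_nonneg le_rfl le_rfl le_rfl le_rfl) (by simp)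
  simp only [dT, List.map_cons, List.map_nil, List.sum_cons, List.sum_nil, Trm.val, exM_ex4] at this
  norm_num at this
  simp only
  linarith

end Pool.Agent.Lib.MP_c69b6d_co.F
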