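import Pool.Agent.Lib.MP_c69b6d_co.F.Red
import Pool.Agent.Lib.MP_c69b6d_co.F.M2s

/-! The master matroid number 2. -/

namespace Pool.Agent.Lib.MP_c69b6d_co.F

set_option maxRecDepth 100000

theorem a2_0 : AutOf 9 mB2 (fun i => [0, 1, 2, 4, 3, 5, 7, 6, 8].getD i 0) :=
  autOf_of_ok (by decide +kernel)

theorem a2_1 : AutOf 9 mB2 (fun i => [1, 0, 8, 4, 3, 5, 6, 7, 2].getD i 0) :=
  autOf_of_ok (by decide +kernel)

theorem a2_2 : AutOf 9 mB2 (fun i => [2, 8, 0, 3, 4, 5, 6, 7, 1].getD i 0) :=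
  autOf_of_ok (by decide +kernel)

theorem a2_3 : AutOf 9 mB2 (fun i => [8, 2, 1, 4, 3, 5, 6, 7, 0].getD i 0) :=
  autOf_of_ok (by decide +kernel)

theorem a2_4 : AutOf 9 mB2 (fun i => [0, 1, 2, 3, 4, 5, 6, 7, 8].getD i 0) :=
  autOf_of_ok (by decide +kernel)

theorem a2_5 : AutOf 9 mB2 (fun i => [1, 0, 8, 3, 4, 5, 7, 6, 2].getD i 0) :=
  autOf_of_ok (by decide +kernel)

theorem a2_6 : AutOf 9 mB2 (fun i => [8, 2, 1, 3, 4, 5, 7, 6, 0].getD i 0) :=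
  autOf_of_ok (by decide +kernel)

theorem a2_7 : AutOf 9 mB2 (fun i => [2, 8, 0, 4, 3, 5, 7, 6, 1].getD i 0) :=
  autOf_of_ok (by decide +kernel)

theorem q2_0 : QF (WL 9 mB2) {3, 4, 5} {3, 4, 5} :=
  qf_D (by decide +kernel) oD2_3_4_5

theorem q2_1 : QF (WL 9 mB2) {1} {0} :=
  qf_EE (by decide) (by decide) (by decide) oEE2_1_0

theorem q2_2 : QF (WL 9 mB2) {2} {0} :=
  qf_EE (by decide) (by decide) (by decide) oEE2_2_0

theorem q2_3 : QF (WL 9 mB2) {6} {0} :=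
  qf_EE (by decide) (by decide) (by decide) oEE2_6_0

theorem q2_4 : QF (WL 9 mB2) {8} {0} :=
  qf_EE (by decide) (by decide) (by decide) oEE2_8_0

theorem q2_5 : QF (WL 9 mB2) {3, 4, 5} {0} :=
  qf_TE (by decide +kernel) (by decide) (by decide) (by decide) (by decide)
    oTE2_3_4_5_0
    (oTE2_3_4_5_0.aut a2_0 (by decide) (by decide) (by decide) (by decide))
    oTE2_5_3_4_0

theorem q2_6 : QF (WL 9 mB2) {7} {6} :=
  qf_EE (by decide) (by decide) (by decide) oEE2_7_6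

theorem q2_7 : QF (WL 9 mB2) {3, 4, 5} {6} :=
  qf_TE (by decide +kernel) (by decide) (by decide) (by decide) (by decide)
    oTE2_3_4_5_6
    (oTE2_3_4_5_6.aut a2_1 (by decide) (by decide) (by decide) (by decide))
    oTE2_5_3_4_6

theorem master2 : Master2 := by
  refine cl_of_cover [({3, 4, 5}, {3, 4, 5}), ({1}, {0}), ({2}, {0}), ({6}, {0}), ({8}, {0}), ({3, 4, 5}, {0}), ({7}, {6}), ({3, 4, 5}, {6})]
    [fun i => [1, 0, 8, 4, 3, 5, 6, 7, 2].getD i 0,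
     fun i => [0, 1, 2, 4, 3, 5, 7, 6, 8].getD i 0,
     fun i => [2, 8, 0, 3, 4, 5, 6, 7, 1].getD i 0,
     fun i => [8, 2, 1, 4, 3, 5, 6, 7, 0].getD i 0,
     fun i => [0, 1, 2, 3, 4, 5, 6, 7, 8].getD i 0,
     fun i => [1, 0, 8, 3, 4, 5, 7, 6, 2].getD i 0,
     fun i => [8, 2, 1, 3, 4, 5, 7, 6, 0].getD i 0,
     fun i => [2, 8, 0, 4, 3, 5, 7, 6, 1].getD i 0] ?_ ?_ ?_
  · intro g hg
    simp only [List.mem_cons, List.not_mem_nil, or_false] at hg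
    rcases hg with rfl | rfl | rfl | rfl | rfl | rfl | rfl | rfl
    exacts [a2_1, a2_0, a2_2, a2_3, a2_4, a2_5, a2_6, a2_7]
  · intro p hp
    simp only [List.mem_cons, List.not_mem_nil, or_false] at hp
    rcases hp with rfl | rfl | rfl | rfl | rfl | rfl | rfl | rfl
    exacts [⟨by decide, by decide, q2_0⟩, ⟨by decide, by decide, q2_1⟩, ⟨by decide, by decide, q2_2⟩, ⟨by decide, by decide, q2_3⟩, ⟨by decide, by decide, q2_4⟩, ⟨by decide, by decide, q2_5⟩, ⟨by decide, by decide, q2_6⟩, ⟨by decide, by decide, q2_7⟩]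
  · decide +kernel

end Pool.Agent.Lib.MP_c69b6d_co.F
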