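import Pool.Agent.Lib.MP_c69b6d_co.F.Red
import Pool.Agent.Lib.MP_c69b6d_co.F.M3a
import Pool.Agent.Lib.MP_c69b6d_co.F.M3b
import Pool.Agent.Lib.MP_c69b6d_co.F.M3c

/-! The master matroid number 3. -/

namespace Pool.Agent.Lib.MP_c69b6d_co.F

open Finset

/-- the automorphisms. -/
def m3G : List (List ℕ) := [[0, 1, 2, 3, 4, 5, 6, 7, 8, 9], [0, 1, 9, 3, 4, 6, 5, 8, 7, 2],
  [4, 1, 2, 3, 0, 7, 8, 5, 6, 9], [9, 3, 0, 1, 2, 7, 5, 8, 6, 4], [4, 1, 9, 3, 0, 8, 7, 6, 5, 2],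
  [9, 3, 4, 1, 2, 5, 7, 6, 8, 0], [2, 3, 0, 1, 9, 8, 6, 7, 5, 4], [2, 3, 4, 1, 9, 6, 8, 5, 7, 0]]

theorem m3_ok : ∀ g ∈ m3G, autOK 10 mB3 g = true := by decide +kernel

theorem m3_aut (g : List ℕ) (hg : g ∈ m3G) : AutOf 10 mB3 (fun i => g.getD i 0) :=
  autOf_of_ok (m3_ok g hg)

theorem m3_tri1 : triOK 10 mB3 0 1 4 = true := by decide +kernel

theorem m3_tri2 : triOK 10 mB3 2 3 9 = true := by decide +kernel

theorem m3_TT : QF (WL 10 mB3) {2, 3, 9} {0, 1, 4} := by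
  have g2 := m3_aut [0, 1, 9, 3, 4, 6, 5, 8, 7, 2] (by simp [m3G])
  have g3 := m3_aut [4, 1, 2, 3, 0, 7, 8, 5, 6, 9] (by simp [m3G])
  have g7 := m3_aut [2, 3, 0, 1, 9, 8, 6, 7, 5, 4] (by simp [m3G])
  have a1 : OblTT 10 mB3 2 3 9 0 1 4 := m3_A
  have a2 : OblTT 10 mB3 2 3 9 1 0 4 :=
    (OblTT.aut g7 (by norm_num) (by norm_num) (by norm_num) (by norm_num) (by norm_num)
      (by norm_num) m3_B : OblTT 10 mB3 1 0 4 2 3 9).symm
  have a3 : OblTT 10 mB3 2 3 9 4 0 1 :=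
    (OblTT.aut g3 (by norm_num) (by norm_num) (by norm_num) (by norm_num) (by norm_num)
      (by norm_num) m3_A : OblTT 10 mB3 2 3 9 4 1 0).symm.swap.symm
  have b3 : OblTT 10 mB3 3 2 9 4 0 1 :=
    (OblTT.aut g3 (by norm_num) (by norm_num) (by norm_num) (by norm_num) (by norm_num)
      (by norm_num) m3_B : OblTT 10 mB3 3 2 9 4 1 0).symm.swap.symm
  have c1 : OblTT 10 mB3 9 2 3 0 1 4 :=
    (OblTT.aut g2 (by norm_num) (by norm_num) (by norm_num) (by norm_num) (by norm_num)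
      (by norm_num) a1 : OblTT 10 mB3 9 3 2 0 1 4).swap
  have c2 : OblTT 10 mB3 9 2 3 1 0 4 :=
    (OblTT.aut g2 (by norm_num) (by norm_num) (by norm_num) (by norm_num) (by norm_num)
      (by norm_num) a2 : OblTT 10 mB3 9 3 2 1 0 4).swap
  have c3 : OblTT 10 mB3 9 2 3 4 0 1 :=
    (OblTT.aut g2 (by norm_num) (by norm_num) (by norm_num) (by norm_num) (by norm_num)
      (by norm_num) a3 : OblTT 10 mB3 9 3 2 4 0 1).swap
  refine qf_TT m3_tri2 m3_tri1 (by decide) ?_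
  intro p hp q hq
  simp only [List.mem_cons, List.not_mem_nil, or_false] at hp hq
  rcases hp with rfl | rfl | rfl <;> rcases hq with rfl | rfl | rfl
  exacts [a1, a2, a3, m3_B, m3_C, b3, c1, c2, c3]

theorem master3 : Master3 := by
  refine cl_of_cover [({0, 1, 4}, {0, 1, 4}), ({2, 3, 9}, {0, 1, 4}), ({0, 1, 4}, {5}),
    ({6}, {5}), ({8}, {5})] (m3G.map fun g i => g.getD i 0) ?_ ?_ ?_
  · intro g hg
    obtain ⟨l, hl, rfl⟩ := List.mem_map.1 hg
    exact m3_aut l hl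
  · intro p hp
    simp only [List.mem_cons, List.not_mem_nil, or_false] at hp
    rcases hp with rfl | rfl | rfl | rfl | rfl
    · exact ⟨by decide, by decide, qf_D m3_tri1 m3_D⟩
    · exact ⟨by decide, by decide, m3_TT⟩
    · exact ⟨by decide, by decide, qf_TE m3_tri1 (by norm_num) (by norm_num) (by norm_num)
        (by norm_num) m3_T014 m3_T104 m3_T401⟩
    · exact ⟨by decide, by decide, qf_EE (by norm_num) (by norm_num) (by norm_num) m3_E65⟩
    · exact ⟨by decide, by decide, qf_EE (by norm_num) (by norm_num) (by norm_num) m3_E85⟩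
  · decide +kernel

end Pool.Agent.Lib.MP_c69b6d_co.F
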