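import Pool.Agent.Lib.MP_c69b6d_co.F.Red
import Pool.Agent.Lib.MP_c69b6d_co.F.M4b

/-! The master matroid number 4. -/

namespace Pool.Agent.Lib.MP_c69b6d_co.F

open Finset

/-- the automorphisms. -/
def m4G : List (List ℕ) := [[0, 1, 2, 3, 4, 5, 6, 7, 8, 9],
  [0, 5, 2, 3, 9, 1, 6, 8, 7, 4],
  [0, 3, 4, 5, 9, 1, 8, 6, 7, 2],
  [0, 3, 9, 1, 4, 5, 7, 6, 8, 2],
  [1, 0, 6, 5, 8, 3, 2, 7, 4, 9],
  [5, 0, 6, 1, 7, 3, 2, 8, 9, 4],
  [1, 0, 8, 3, 6, 5, 4, 7, 2, 9],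
  [5, 0, 7, 3, 6, 1, 9, 8, 2, 4],
  [3, 0, 8, 1, 7, 5, 4, 6, 9, 2],
  [3, 0, 7, 5, 8, 1, 9, 6, 4, 2],
  [0, 1, 4, 5, 2, 3, 8, 7, 6, 9],
  [0, 5, 9, 1, 2, 3, 7, 8, 6, 4],
  [1, 3, 6, 5, 9, 0, 2, 4, 7, 8],
  [5, 3, 6, 1, 4, 0, 2, 9, 8, 7],
  [1, 5, 8, 3, 9, 0, 4, 2, 7, 6],
  [5, 1, 7, 3, 4, 0, 9, 2, 8, 6],
  [3, 5, 8, 1, 2, 0, 4, 9, 6, 7],
  [3, 1, 7, 5, 2, 0, 9, 4, 6, 8],
  [1, 5, 9, 0, 8, 3, 7, 2, 4, 6],
  [5, 1, 4, 0, 7, 3, 8, 2, 9, 6],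
  [1, 3, 9, 0, 6, 5, 7, 4, 2, 8],
  [5, 3, 4, 0, 6, 1, 8, 9, 2, 7],
  [3, 1, 2, 0, 7, 5, 6, 4, 9, 8],
  [3, 5, 2, 0, 8, 1, 6, 9, 4, 7]]

theorem m4_ok : ∀ g ∈ m4G, autOK 10 mB4 g = true := by decide +kernel

theorem m4_aut (g : List ℕ) (hg : g ∈ m4G) : AutOf 10 mB4 (fun i => g.getD i 0) :=
  autOf_of_ok (m4_ok g hg)

theorem m4_tri1 : triOK 10 mB4 0 1 7 = true := by decide +kernel

theorem m4_tri2 : triOK 10 mB4 0 3 6 = true := by decide +kernel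

theorem m4_tri3 : triOK 10 mB4 3 5 9 = true := by decide +kernel

theorem m4_TTA : QF (WL 10 mB4) {0, 3, 6} {0, 1, 7} := by
  refine qf_TT m4_tri2 m4_tri1 (by decide) ?_
  intro p hp q hq
  simp only [List.mem_cons, List.not_mem_nil, or_false] at hp hq
  rcases hp with rfl | rfl | rfl <;> rcases hq with rfl | rfl | rfl
  · exact m4o1
  · exact (OblTT.aut (m4_aut [0, 3, 9, 1, 4, 5, 7, 6, 8, 2] (by simp [m4G])) (by norm_num) (by norm_num) (by norm_num)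
      (by norm_num) (by norm_num) (by norm_num) m4o2 : OblTT 10 mB4 1 0 7 0 3 6).symm
  · exact (OblTT.aut (m4_aut [0, 3, 9, 1, 4, 5, 7, 6, 8, 2] (by simp [m4G])) (by norm_num) (by norm_num) (by norm_num)
      (by norm_num) (by norm_num) (by norm_num) m4o3 : OblTT 10 mB4 7 0 1 0 3 6).symm
  · exact m4o2
  · exact (OblTT.aut (m4_aut [1, 0, 6, 5, 8, 3, 2, 7, 4, 9] (by simp [m4G])) (by norm_num) (by norm_num) (by norm_num)
      (by norm_num) (by norm_num) (by norm_num) m4o5 : OblTT 10 mB4 3 0 6 1 0 7)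
  · exact (OblTT.aut (m4_aut [3, 0, 7, 5, 8, 1, 9, 6, 4, 2] (by simp [m4G])) (by norm_num) (by norm_num) (by norm_num)
      (by norm_num) (by norm_num) (by norm_num) m4o4 : OblTT 10 mB4 7 0 1 3 0 6).symm
  · exact m4o3
  · exact (OblTT.aut (m4_aut [1, 0, 6, 5, 8, 3, 2, 7, 4, 9] (by simp [m4G])) (by norm_num) (by norm_num) (by norm_num)
      (by norm_num) (by norm_num) (by norm_num) m4o4 : OblTT 10 mB4 6 0 3 1 0 7)
  · exact m4o8

theorem m4_TTB : QF (WL 10 mB4) {3, 5, 9} {0, 1, 7} := by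
  refine qf_TT m4_tri3 m4_tri1 (by decide) ?_
  intro p hp q hq
  simp only [List.mem_cons, List.not_mem_nil, or_false] at hp hq
  rcases hp with rfl | rfl | rfl <;> rcases hq with rfl | rfl | rfl
  · exact m4o6
  · exact (OblTT.aut (m4_aut [1, 0, 8, 3, 6, 5, 4, 7, 2, 9] (by simp [m4G])) (by norm_num) (by norm_num) (by norm_num)
      (by norm_num) (by norm_num) (by norm_num) m4o6 : OblTT 10 mB4 3 5 9 1 0 7)
  · exact (OblTT.aut (m4_aut [3, 5, 8, 1, 2, 0, 4, 9, 6, 7] (by simp [m4G])) (by norm_num) (by norm_num) (by norm_num)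
      (by norm_num) (by norm_num) (by norm_num) m4o7 : OblTT 10 mB4 7 1 0 3 5 9).symm.symm.swap.symm
  · exact (OblTT.aut (m4_aut [0, 1, 4, 5, 2, 3, 8, 7, 6, 9] (by simp [m4G])) (by norm_num) (by norm_num) (by norm_num)
      (by norm_num) (by norm_num) (by norm_num) m4o6 : OblTT 10 mB4 5 3 9 0 1 7)
  · exact (OblTT.aut (m4_aut [1, 0, 6, 5, 8, 3, 2, 7, 4, 9] (by simp [m4G])) (by norm_num) (by norm_num) (by norm_num)
      (by norm_num) (by norm_num) (by norm_num) m4o6 : OblTT 10 mB4 5 3 9 1 0 7)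
  · exact (OblTT.aut (m4_aut [5, 3, 6, 1, 4, 0, 2, 9, 8, 7] (by simp [m4G])) (by norm_num) (by norm_num) (by norm_num)
      (by norm_num) (by norm_num) (by norm_num) m4o7 : OblTT 10 mB4 7 1 0 5 3 9).symm.symm.swap.symm
  · exact m4o7
  · exact (OblTT.aut (m4_aut [1, 0, 6, 5, 8, 3, 2, 7, 4, 9] (by simp [m4G])) (by norm_num) (by norm_num) (by norm_num)
      (by norm_num) (by norm_num) (by norm_num) m4o7 : OblTT 10 mB4 9 5 3 1 0 7).swap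
  · exact m4o9

theorem master4 : Master4 := by
  refine cl_of_cover [({0, 1, 7}, {0, 1, 7}), ({0, 3, 6}, {0, 1, 7}), ({3, 5, 9}, {0, 1, 7})]
    (m4G.map fun g i => g.getD i 0) ?_ ?_ ?_
  · intro g hg
    obtain ⟨l, hl, rfl⟩ := List.mem_map.1 hg
    exact m4_aut l hl
  · intro p hp
    simp only [List.mem_cons, List.not_mem_nil, or_false] at hp
    rcases hp with rfl | rfl | rfl
    · exact ⟨by decide, by decide, qf_D m4_tri1 m4o0⟩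
    · exact ⟨by decide, by decide, m4_TTA⟩
    · exact ⟨by decide, by decide, m4_TTB⟩
  · decide +kernel

end Pool.Agent.Lib.MP_c69b6d_co.F
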