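import Pool.Agent.Lib.MP_c69b6d_co.F.Obl

/-! A checker for weighted sums of squares, on Horner trees. -/

namespace Pool.Agent.Lib.MP_c69b6d_co.F.H

open Finset

/-- `n a b` at level `i` is `a + x_i * b`, with `a` at level `i + 1` and `b` at level `i`. -/
inductive P where
  | z : P
  | c : ℤ → P
  | n : P → P → P

noncomputable def ev (v : ℕ → ℝ) : P → ℕ → ℝ
  | P.z, _ => 0
  | P.c k, _ => k
  | P.n a b, i => ev v a (i + 1) + v i * ev v b i

noncomputable def split (t : P) (k : P → P → P) : P :=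
  P.rec (motive := fun _ => P) (k P.z P.z) (fun m => k (P.c m) P.z) (fun a b _ _ => k a b) t

theorem split_spec (t : P) : ∃ a b, (∀ k, split t k = k a b) ∧
    ∀ v i, ev v t i = ev v a (i + 1) + v i * ev v b i := by
  cases t with
  | z => exact ⟨P.z, P.z, fun _ => rfl, fun v i => by simp [ev]⟩
  | c m => exact ⟨P.c m, P.z, fun _ => rfl, fun v i => by simp [ev]⟩
  | n a b => exact ⟨a, b, fun _ => rfl, fun v i => by simp [ev]⟩

noncomputable def addc (k : ℤ) (t : P) : P :=
  P.rec (motive := fun _ => P) (P.c k) (fun m => P.c (Int.add k m)) (fun _ b r _ => P.n r b) t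

theorem ev_addc (v : ℕ → ℝ) (k : ℤ) (t : P) (i : ℕ) : ev v (addc k t) i = k + ev v t i := by
  induction t generalizing i with
  | z => simp [addc, ev]
  | c m =>
    have : addc k (P.c m) = P.c (k + m) := rfl
    rw [this]; simp [ev]
  | n a b iha _ =>
    have : addc k (P.n a b) = P.n (addc k a) b := rfl
    rw [this]; simp only [ev, iha]; ring

/-- `t + k * q`. -/
noncomputable def axp (k : ℤ) (q : P) : P → P :=
  P.rec (motive := fun _ => P → P) (fun t => t) (fun m t => addc (Int.mul k m) t)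
    (fun _ _ r0 r1 t => split t (fun t0 t1 => P.n (r0 t0) (r1 t1))) q

theorem ev_axp (v : ℕ → ℝ) (k : ℤ) (q t : P) (i : ℕ) :
    ev v (axp k q t) i = k * ev v q i + ev v t i := by
  induction q generalizing t i with
  | z => simp [axp, ev]
  | c m =>
    have : axp k (P.c m) t = addc (k * m) t := rfl
    rw [this, ev_addc]; simp [ev]
  | n q0 q1 ih0 ih1 =>
    obtain ⟨t0, t1, h1, h2⟩ := split_spec t
    have : axp k (P.n q0 q1) t = split t (fun t0 t1 => P.n (axp k q0 t0) (axp k q1 t1)) := rfl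
    rw [this, h1, h2]; simp only [ev, ih0, ih1]; ring

/-- lift an operation from level `i + 1` to level `i`. -/
noncomputable def low (g : P → P → P) (q : P) : P → P :=
  P.rec (motive := fun _ => P → P) (fun t => t)
    (fun m t => split t (fun t0 t1 => P.n (g (P.c m) t0) t1))
    (fun q0 _ _ r1 t => split t (fun t0 t1 => P.n (g q0 t0) (r1 t1))) q

theorem ev_low (v : ℕ → ℝ) (g : P → P → P) (x : ℝ) (i : ℕ)
    (hg : ∀ q t, ev v (g q t) (i + 1) = x * ev v q (i + 1) + ev v t (i + 1)) (q t : P) :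
    ev v (low g q t) i = x * ev v q i + ev v t i := by
  induction q generalizing t with
  | z => simp [low, ev]
  | c m =>
    obtain ⟨t0, t1, h1, h2⟩ := split_spec t
    have : low g (P.c m) t = split t (fun t0 t1 => P.n (g (P.c m) t0) t1) := rfl
    rw [this, h1, h2]; simp only [ev, hg]; ring
  | n q0 q1 _ ih1 =>
    obtain ⟨t0, t1, h1, h2⟩ := split_spec t
    have : low g (P.n q0 q1) t = split t (fun t0 t1 => P.n (g q0 t0) (low g q1 t1)) := rfl
    rw [this, h1, h2]; simp only [ev, hg, ih1]; ring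

/-- `t + k * a * q`. -/
noncomputable def fma (k : ℤ) (a : P) : P → P → P :=
  P.rec (motive := fun _ => P → P → P) (fun _ t => t) (fun m q t => axp (Int.mul k m) q t)
    (fun a0 a1 r0 r1 q t => P.rec (motive := fun _ => P) t
      (fun m => axp (Int.mul k m) (P.n a0 a1) t)
      (fun _ _ _ _ => split (low r0 q t) (fun t0 t1 => P.n t0 (r1 q t1))) q) a

theorem ev_fma (v : ℕ → ℝ) (k : ℤ) (a q t : P) (i : ℕ) :
    ev v (fma k a q t) i = k * ev v a i * ev v q i + ev v t i := by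
  induction a generalizing q t i with
  | z => simp [fma, ev]
  | c m =>
    have : fma k (P.c m) q t = axp (k * m) q t := rfl
    rw [this, ev_axp]; simp [ev]
  | n a0 a1 ih0 ih1 =>
    cases q with
    | z => simp [fma, ev]
    | c m =>
      have : fma k (P.n a0 a1) (P.c m) t = axp (k * m) (P.n a0 a1) t := rfl
      rw [this, ev_axp]; simp only [ev]; push_cast; ring
    | n q0 q1 =>
      obtain ⟨t0, t1, h1, h2⟩ := split_spec (low (fma k a0) (P.n q0 q1) t)
      have : fma k (P.n a0 a1) (P.n q0 q1) t = split (low (fma k a0) (P.n q0 q1) t)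
        (fun t0 t1 => P.n t0 (fma k a1 (P.n q0 q1) t1)) := rfl
      have h3 := ev_low v (fma k a0) (k * ev v a0 (i + 1)) i (fun q t => ih0 q t (i + 1))
        (P.n q0 q1) t
      rw [h2] at h3
      rw [this, h1]
      have e1 : ev v (P.n t0 (fma k a1 (P.n q0 q1) t1)) i =
        ev v t0 (i + 1) + v i * ev v (fma k a1 (P.n q0 q1) t1) i := rfl
      have e2 : ev v (P.n a0 a1) i = ev v a0 (i + 1) + v i * ev v a1 i := rfl
      rw [e1, ih1, e2]
      linear_combination h3

/-- the square free monomial with mask `S`, `d` levels from level `i`. -/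
noncomputable def mon (v : ℕ → ℝ) : ℕ → ℕ → ℕ → ℝ
  | 0, _, _ => 1
  | d + 1, S, i => (if S % 2 = 1 then v i else 1) * mon v d (S / 2) (i + 1)

theorem mon_zero (v : ℕ → ℝ) (d i : ℕ) : mon v d 0 i = 1 := by
  induction d generalizing i with
  | zero => rfl
  | succ d ih => simp [mon, ih]

theorem mon_eq (v : ℕ → ℝ) (d S i : ℕ) :
    mon v d S i = ∏ j ∈ range d, if S.testBit j then v (i + j) else 1 := by
  induction d generalizing S i with
  | zero => simp [mon]
  | succ d ih =>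
    rw [mon, ih, prod_range_succ', mul_comm]
    congr 1
    · refine prod_congr rfl fun j _ => ?_
      rw [Nat.testBit_succ, add_assoc, add_comm 1 j]
    · simp [Nat.testBit_zero]

theorem mon_nonneg (v : ℕ → ℝ) (hv : ∀ i, 0 ≤ v i) (d S i : ℕ) : 0 ≤ mon v d S i := by
  rw [mon_eq]
  refine prod_nonneg fun j _ => ?_
  split_ifs
  · exact hv _
  · exact zero_le_one

/-- add `k` times the monomial with mask `S`. -/
noncomputable def ins (k : ℤ) (d : ℕ) : ℕ → P → P :=
  Nat.rec (motive := fun _ => ℕ → P → P) (fun _ t => addc k t)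
    (fun _ r S t => Bool.rec (motive := fun _ => P)
      (Bool.rec (motive := fun _ => P)
        (split t (fun t0 t1 => P.n (r (Nat.div S 2) t0) t1))
        (split t (fun t0 t1 => P.n t0 (split t1 (fun u0 u1 => P.n (r (Nat.div S 2) u0) u1))))
        (Nat.beq (Nat.mod S 2) 1))
      (addc k t) (Nat.beq S 0)) d

theorem ev_ins (v : ℕ → ℝ) (k : ℤ) (d S : ℕ) (t : P) (i : ℕ) :
    ev v (ins k d S t) i = k * mon v d S i + ev v t i := by
  induction d generalizing S t i with
  | zero =>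
    have : ins k 0 S t = addc k t := rfl
    rw [this, ev_addc]; simp [mon]
  | succ d ih =>
    have e : ins k (d + 1) S t = Bool.rec (motive := fun _ => P)
      (Bool.rec (motive := fun _ => P)
        (split t (fun t0 t1 => P.n (ins k d (S / 2) t0) t1))
        (split t (fun t0 t1 => P.n t0 (split t1 (fun u0 u1 => P.n (ins k d (S / 2) u0) u1))))
        (Nat.beq (S % 2) 1)) (addc k t) (Nat.beq S 0) := rfl
    rw [e]
    obtain ⟨t0, t1, h1, h2⟩ := split_spec t
    obtain ⟨u0, u1, h3, h4⟩ := split_spec t1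
    cases h0 : Nat.beq S 0
    · cases h5 : Nat.beq (S % 2) 1
      · have h6 : ¬ S % 2 = 1 := fun h => by simp [h] at h5
        simp only [h1, h2 v i, ev, ih, mon, if_neg h6]; ring
      · have h6 : S % 2 = 1 := Nat.eq_of_beq_eq_true h5
        simp only [h1, h3, h2 v i, h4 v i, ev, ih, mon, if_pos h6]; ring
    · have := Nat.eq_of_beq_eq_true h0
      subst this
      simp only [ev_addc, mon_zero, mul_one]

/-- the members `S` of `L` with `S &&& U = V`, bits of `V` cleared, which avoid `X`. -/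
noncomputable def bsel (d U V X : ℕ) (L : List ℕ) : P :=
  List.rec (motive := fun _ => P) P.z
    (fun S _ r => Bool.rec (motive := fun _ => P) r
      (Bool.rec (motive := fun _ => P) r (ins 1 d (Nat.xor S V) r)
        (Nat.beq (Nat.land (Nat.xor S V) X) 0)) (Nat.beq (Nat.land S U) V)) L

theorem ev_bsel (v y : ℕ → ℝ) (d U V X : ℕ) (L : List ℕ) (hy : ∀ j < d, v j = y j)
    (hX : ∀ j, X.testBit j = true → j < d ∧ y j = 0) : ev v (bsel d U V X L) 0 = sm2 d L U V y := by
  unfold sm2 WL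
  induction L with
  | nil => simp [bsel, ev]
  | cons S L ih =>
    have e : bsel d U V X (S :: L) = Bool.rec (motive := fun _ => P) (bsel d U V X L)
      (Bool.rec (motive := fun _ => P) (bsel d U V X L) (ins 1 d (S ^^^ V) (bsel d U V X L))
        (Nat.beq ((S ^^^ V) &&& X) 0)) (Nat.beq (S &&& U) V) := rfl
    rw [e, List.filter_cons]
    cases h : Nat.beq (S &&& U) V
    · have : ¬ S &&& U = V := fun hh => by simp [hh] at h
      simpa [this] using ih
    · have h1 := Nat.eq_of_beq_eq_true h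
      have h2 : (S &&& U == V) = true := by simp [h1]
      rw [if_pos h2, List.map_cons, List.map_cons, List.sum_cons, ← ih]
      cases h3 : Nat.beq ((S ^^^ V) &&& X) 0
      · have h4 : (S ^^^ V) &&& X ≠ 0 := fun hh => by simp [hh] at h3
        obtain ⟨j, hj⟩ := Nat.exists_testBit_of_ne_zero h4
        rw [Nat.testBit_and, Bool.and_eq_true] at hj
        obtain ⟨h5, h6⟩ := hX j hj.2
        rw [prod_eq_zero (i := j) (mem_range.2 h5) (by rw [if_pos hj.1, h6]), zero_add]
      · simp only [ev_ins, mon_eq, zero_add, Int.cast_one, one_mul]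
        congr 1
        exact prod_congr rfl fun j hj => by rw [hy j (mem_range.1 hj)]

/-- the tree of `Dl`. -/
noncomputable def dlT (d : ℕ) (L : List ℕ) (X i j : ℕ) : P :=
  Bool.rec (motive := fun _ => P)
    ((fun E F U => fma 1 (bsel d U E X L) (bsel d U F X L)
      (fma (-1) (bsel d U U X L) (bsel d U 0 X L) P.z))
      (Nat.pow 2 i) (Nat.pow 2 j) (Nat.lor (Nat.pow 2 i) (Nat.pow 2 j)))
    ((fun a => fma 1 a a P.z) (bsel d (Nat.pow 2 i) (Nat.pow 2 i) X L)) (Nat.beq i j)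

theorem ev_dlT (v y : ℕ → ℝ) (d : ℕ) (L : List ℕ) (X i j : ℕ) (hy : ∀ j < d, v j = y j)
    (hX : ∀ j, X.testBit j = true → j < d ∧ y j = 0) : ev v (dlT d L X i j) 0 = Dl d L i j y := by
  unfold dlT Dl
  cases h : Nat.beq i j
  · have h1 : i ≠ j := fun hh => by simp [hh] at h
    simp only [if_neg h1, ev_fma, ev_bsel v y d _ _ X L hy hX, ev]
    have e1 : Nat.pow 2 i = 2 ^ i := rfl
    have e2 : Nat.pow 2 j = 2 ^ j := rfl
    have e3 : Nat.lor (2 ^ i) (2 ^ j) = 2 ^ i ||| 2 ^ j := rfl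
    rw [e1, e2, e3]; push_cast; ring
  · have h1 := Nat.eq_of_beq_eq_true h
    simp only [if_pos h1, ev_fma, ev_bsel v y d _ _ X L hy hX, ev]
    have e1 : Nat.pow 2 i = 2 ^ i := rfl
    rw [e1]; push_cast; ring

/-- move a tree down by `d` levels. -/
noncomputable def dn (d : ℕ) (t : P) : P :=
  Nat.rec (motive := fun _ => P) t (fun _ r => P.n r P.z) d

theorem ev_dn (v : ℕ → ℝ) (d : ℕ) (t : P) (i : ℕ) : ev v (dn d t) i = ev v t (i + d) := by
  induction d generalizing i with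
  | zero => rfl
  | succ d ih =>
    have : dn (d + 1) t = P.n (dn d t) P.z := rfl
    rw [this]; simp only [ev, ih, mul_zero, add_zero]; congr 1; omega

/-- the tree of `isoC`, with `b, c` the variables `d, d + 1`. -/
noncomputable def isoT (d : ℕ) (g1 g2 g3 : P) : P :=
  fma 1 (dn d (P.n P.z (P.n (P.n P.z (P.c (-1))) P.z))) g1
    (fma 1 (dn d (P.n (P.n P.z (P.n P.z (P.c 1))) (P.n (P.n P.z (P.c 1)) P.z))) g2
      (fma 1 (dn d (P.n P.z (P.n (P.n P.z (P.c 1)) (P.c 1)))) g3 P.z))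

theorem ev_isoT (v : ℕ → ℝ) (d : ℕ) (g1 g2 g3 : P) : ev v (isoT d g1 g2 g3) 0 =
    -(v d * v (d + 1)) * ev v g1 0 + v (d + 1) * (v d + v (d + 1)) * ev v g2 0 +
      v d * (v d + v (d + 1)) * ev v g3 0 := by
  simp only [isoT, ev_fma, ev_dn, ev, zero_add]; push_cast; ring

noncomputable def nonneg (t : P) : Bool :=
  P.rec (motive := fun _ => Bool) true
    (fun k => Int.rec (motive := fun _ => Bool) (fun _ => true) (fun _ => false) k)
    (fun _ _ r0 r1 => Bool.rec (motive := fun _ => Bool) false r1 r0) t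

theorem ev_nonneg (v : ℕ → ℝ) (hv : ∀ i, 0 ≤ v i) (t : P) (i : ℕ) (h : nonneg t = true) :
    0 ≤ ev v t i := by
  induction t generalizing i with
  | z => simp [ev]
  | c k =>
    cases k with
    | ofNat m => simp [ev]
    | negSucc m => exact absurd h (by simp [nonneg])
  | n a b iha ihb =>
    have e : nonneg (P.n a b) = Bool.rec (motive := fun _ => Bool) false (nonneg b) (nonneg a) := rfl
    rw [e] at h
    cases h1 : nonneg a
    · rw [h1] at h; exact absurd h (by simp)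
    · rw [h1] at h
      exact add_nonneg (iha _ h1) (mul_nonneg (hv i) (ihb _ h))

/-- signed integer from its code. -/
noncomputable def sgn (c : ℕ) : ℤ :=
  Bool.rec (motive := fun _ => ℤ) (Int.ofNat (Nat.div c 2)) (Int.negSucc (Nat.div c 2))
    (Nat.beq (Nat.mod c 2) 1)

/-- unpack `cnt` terms (mask in base `B`, coefficient code in base `C`). -/
noncomputable def unp (d B C : ℕ) (cnt : ℕ) : ℕ → P :=
  Nat.rec (motive := fun _ => ℕ → P) (fun _ => P.z)
    (fun _ r N => ins (sgn (Nat.mod (Nat.div N B) C)) d (Nat.mod N B)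
      (r (Nat.div (Nat.div N B) C))) cnt

/-- subtract the packed squares `(weight - 1, T, cnt, N)`. -/
noncomputable def subq (d C : ℕ) (cs : List (ℕ × ℕ × ℕ × ℕ)) (t : P) : P :=
  List.rec (motive := fun _ => P) t
    (fun s _ r => (fun a => fma (Int.negSucc s.1) a (fma 1 (ins 1 d s.2.1 P.z) a P.z) r)
      (unp d (Nat.pow 2 d) C s.2.2.1 s.2.2.2)) cs

theorem ev_subq (v : ℕ → ℝ) (hv : ∀ i, 0 ≤ v i) (d C : ℕ) (cs : List (ℕ × ℕ × ℕ × ℕ)) (t : P) :
    ev v (subq d C cs t) 0 ≤ ev v t 0 := by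
  induction cs with
  | nil => exact le_rfl
  | cons s cs ih =>
    refine le_trans ?_ ih
    have e : subq d C (s :: cs) t = fma (Int.negSucc s.1) (unp d (Nat.pow 2 d) C s.2.2.1 s.2.2.2)
      (fma 1 (ins 1 d s.2.1 P.z) (unp d (Nat.pow 2 d) C s.2.2.1 s.2.2.2) P.z) (subq d C cs t) := rfl
    have hn : ((Int.negSucc s.1 : ℤ) : ℝ) ≤ 0 := by
      exact_mod_cast (Int.negSucc_lt_zero s.1).le
    rw [e]
    simp only [ev_fma, ev_ins, ev, Int.cast_one, one_mul, add_zero]
    have := mul_nonneg (neg_nonneg.2 hn) (mul_nonneg (mon_nonneg v hv d s.2.1 0)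
      (mul_self_nonneg (ev v (unp d (Nat.pow 2 d) C s.2.2.1 s.2.2.2) 0)))
    nlinarith

/-- the multiplier: a nonempty list of pairs `(coefficient - 1, mask)`. -/
noncomputable def mulT (d : ℕ) (ms : List (ℕ × ℕ)) : P :=
  List.rec (motive := fun _ => P) P.z (fun s _ r => ins (Int.ofNat (Nat.succ s.1)) d s.2 r) ms

theorem mulT_pos (v : ℕ → ℝ) (hv : ∀ i, 0 < v i) (d : ℕ) (ms : List (ℕ × ℕ)) :
    0 ≤ ev v (mulT d ms) 0 ∧ (ms ≠ [] → 0 < ev v (mulT d ms) 0) := by
  induction ms with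
  | nil => simp [mulT, ev]
  | cons s ms ih =>
    have e : mulT d (s :: ms) = ins (Int.ofNat (Nat.succ s.1)) d s.2 (mulT d ms) := rfl
    have h1 : 0 < mon v d s.2 0 := by
      rw [mon_eq]
      refine prod_pos fun j _ => ?_
      split_ifs
      · exact hv _
      · exact zero_lt_one
    have h2 : (0 : ℝ) < ((Int.ofNat (Nat.succ s.1) : ℤ) : ℝ) := by
      simp only [Int.ofNat_eq_natCast, Int.cast_natCast]; exact_mod_cast Nat.succ_pos _
    have h3 : 0 < ev v (mulT d (s :: ms)) 0 := by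
      rw [e, ev_ins]; exact add_pos_of_pos_of_nonneg (mul_pos h2 h1) ih.1
    exact ⟨h3.le, fun _ => h3⟩

theorem ev_cont (v : ℕ → ℝ) (t : P) (i : ℕ) :
    Continuous fun x : ℝ => ev (fun j => v j + x) t i := by
  induction t generalizing i with
  | z => exact continuous_const
  | c k => exact continuous_const
  | n a b iha ihb => exact (iha _).add ((continuous_const.add continuous_id).mul (ihb _))

/-- the test. -/
noncomputable def chk (d C : ℕ) (F : P) (ms : List (ℕ × ℕ)) (cs : List (ℕ × ℕ × ℕ × ℕ)) : Bool :=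
  nonneg (subq d C cs (fma 1 (mulT d ms) F P.z))

theorem of_chk {d C : ℕ} {F : P} {ms : List (ℕ × ℕ)} {cs : List (ℕ × ℕ × ℕ × ℕ)} (hm : ms ≠ [])
    (h : chk d C F ms cs = true) (v : ℕ → ℝ) (hv : ∀ i, 0 ≤ v i) : 0 ≤ ev v F 0 := by
  have key : ∀ x : ℝ, 0 < x → 0 ≤ ev (fun j => v j + x) F 0 := by
    intro x hx
    have hp : ∀ i, 0 < v i + x := fun i => add_pos_of_nonneg_of_pos (hv i) hx
    have h1 := (ev_nonneg _ (fun i => (hp i).le) _ 0 h).trans
      (ev_subq _ (fun i => (hp i).le) d C cs _)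
    simp only [ev_fma, ev, Int.cast_one, one_mul, add_zero] at h1
    exact nonneg_of_mul_nonneg_right h1 ((mulT_pos _ hp d ms).2 hm) |> fun h => h
  have h2 : Filter.Tendsto (fun x : ℝ => ev (fun j => v j + x) F 0) (nhdsWithin 0 (Set.Ioi 0))
      (nhds (ev (fun j => v j + 0) F 0)) :=
    ((ev_cont v F 0).tendsto 0).mono_left nhdsWithin_le_nhds
  have h3 := ge_of_tendsto h2 (eventually_nhdsWithin_of_forall fun x hx => key x hx)
  simpa using h3

theorem kill2 {n a b : ℕ} (ha : a < n) (hb : b < n) {y : ℕ → ℝ} (h1 : y a = 0) (h2 : y b = 0) :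
    ∀ j, (Nat.lor (Nat.pow 2 a) (Nat.pow 2 b)).testBit j = true → j < n ∧ y j = 0 := by
  intro j hj
  have e : Nat.lor (Nat.pow 2 a) (Nat.pow 2 b) = 2 ^ a ||| 2 ^ b := rfl
  rw [e, Nat.testBit_or, Nat.testBit_two_pow, Nat.testBit_two_pow] at hj
  simp only [Bool.or_eq_true, decide_eq_true_eq] at hj
  rcases hj with rfl | rfl
  · exact ⟨ha, h1⟩
  · exact ⟨hb, h2⟩

/-- the values of the variables. -/
noncomputable def vals (n : ℕ) (y : ℕ → ℝ) (b c b' c' : ℝ) (i : ℕ) : ℝ :=
  if i < n then y i else if i = n then b else if i = n + 1 then c else if i = n + 2 then b' else c'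

noncomputable def ttT (n : ℕ) (L : List ℕ) (t1 t2 t3 s1 s2 s3 : ℕ) : P :=
  (fun g : ℕ → P => isoT n (g t1) (g t2) (g t3))
    ((fun X i => isoT (Nat.add n 2) (dlT n L X i s1) (dlT n L X i s2) (dlT n L X i s3))
      (Nat.lor (Nat.pow 2 t1) (Nat.pow 2 s1)))

theorem oblTT_of {n : ℕ} {L : List ℕ} {t1 t2 t3 s1 s2 s3 C : ℕ} {ms : List (ℕ × ℕ)}
    {cs : List (ℕ × ℕ × ℕ × ℕ)} (h0 : t1 < n ∧ s1 < n ∧ ms ≠ [])
    (h : chk (n + 4) C (ttT n L t1 t2 t3 s1 s2 s3) ms cs = true) :
    OblTT n L t1 t2 t3 s1 s2 s3 := by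
  intro y b c b' c' hy hb hc hb' hc' h1 h2
  have hv : ∀ i, 0 ≤ vals n y b c b' c' i := by
    intro i; unfold vals; split_ifs <;> first | exact hy i | assumption
  have h3 := of_chk h0.2.2 h _ hv
  have h4 : ∀ j < n, vals n y b c b' c' j = y j := fun j hj => by simp [vals, hj]
  have e : Nat.add n 2 = n + 2 := rfl
  simp only [ttT, ev_isoT, ev_dlT _ y n L _ _ _ h4 (kill2 h0.1 h0.2.1 h1 h2), e] at h3
  have v0 : vals n y b c b' c' n = b := by simp [vals]
  have v1 : vals n y b c b' c' (n + 1) = c := by simp [vals]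
  have v2 : vals n y b c b' c' (n + 2) = b' := by simp [vals]
  have v3 : vals n y b c b' c' (n + 2 + 1) = c' := by
    unfold vals
    rw [if_neg (by omega), if_neg (by omega), if_neg (by omega), if_neg (by omega)]
  rw [v0, v1, v2, v3] at h3
  exact h3

noncomputable def teT (n : ℕ) (L : List ℕ) (t1 t2 t3 e : ℕ) : P :=
  (fun g : ℕ → P => isoT n (g t1) (g t2) (g t3))
    ((fun X i => dlT n L X i e) (Nat.lor (Nat.pow 2 t1) (Nat.pow 2 e)))

theorem oblTE_of {n : ℕ} {L : List ℕ} {t1 t2 t3 e C : ℕ} {ms : List (ℕ × ℕ)}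
    {cs : List (ℕ × ℕ × ℕ × ℕ)} (h0 : t1 < n ∧ e < n ∧ ms ≠ [])
    (h : chk (n + 4) C (teT n L t1 t2 t3 e) ms cs = true) : OblTE n L t1 t2 t3 e := by
  intro y b c hy hb hc h1 h2
  have hv : ∀ i, 0 ≤ vals n y b c 0 0 i := by
    intro i; unfold vals; split_ifs <;> first | exact hy i | assumption | exact le_rfl
  have h3 := of_chk h0.2.2 h _ hv
  have h4 : ∀ j < n, vals n y b c 0 0 j = y j := fun j hj => by simp [vals, hj]
  simp only [teT, ev_isoT, ev_dlT _ y n L _ _ _ h4 (kill2 h0.1 h0.2.1 h1 h2)] at h3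
  have v0 : vals n y b c 0 0 n = b := by simp [vals]
  have v1 : vals n y b c 0 0 (n + 1) = c := by simp [vals]
  rw [v0, v1] at h3
  exact h3

theorem oblEE_of {n : ℕ} {L : List ℕ} {e f C : ℕ} {ms : List (ℕ × ℕ)}
    {cs : List (ℕ × ℕ × ℕ × ℕ)} (h0 : ms ≠ []) (h : chk n C (dlT n L 0 e f) ms cs = true)
    (y : ℕ → ℝ) (hy : ∀ i, 0 ≤ y i) : 0 ≤ Dl n L e f y := by
  have h3 := of_chk h0 h _ hy
  rwa [ev_dlT y y n L 0 e f (fun _ _ => rfl) (by simp)] at h3

noncomputable def ddT (n : ℕ) (L : List ℕ) (t1 t2 t3 : ℕ) : P :=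
  (fun m => (fun a b c => fma (-4) (bsel n m (Nat.lor (Nat.pow 2 t1) (Nat.pow 2 t2)) 0 L)
      (bsel n m 0 0 L) (fma 2 a b (fma 2 a c (fma 2 b c
        (fma (-1) a a (fma (-1) b b (fma (-1) c c P.z)))))))
    (bsel n m (Nat.pow 2 t1) 0 L) (bsel n m (Nat.pow 2 t2) 0 L) (bsel n m (Nat.pow 2 t3) 0 L))
    (Nat.lor (Nat.lor (Nat.pow 2 t1) (Nat.pow 2 t2)) (Nat.pow 2 t3))

theorem oblD_of {n : ℕ} {L : List ℕ} {t1 t2 t3 C : ℕ} {ms : List (ℕ × ℕ)}
    {cs : List (ℕ × ℕ × ℕ × ℕ)} (h0 : ms ≠ []) (h : chk n C (ddT n L t1 t2 t3) ms cs = true) :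
    OblD n L t1 t2 t3 := by
  intro y hy
  have h3 := of_chk h0 h _ hy
  simp only [ddT, ev_fma, ev_bsel y y n _ _ 0 L (fun _ _ => rfl) (by simp), ev] at h3
  have e1 : Nat.pow 2 t1 = 2 ^ t1 := rfl
  have e2 : Nat.pow 2 t2 = 2 ^ t2 := rfl
  have e3 : Nat.pow 2 t3 = 2 ^ t3 := rfl
  have e4 : ∀ a b : ℕ, Nat.lor a b = a ||| b := fun _ _ => rfl
  rw [e1, e2, e3] at h3
  simp only [e4] at h3
  push_cast at h3
  simp only
  linarith

end Pool.Agent.Lib.MP_c69b6d_co.F.H
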