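import Pool.Agent.Lib.MP_c69b6d_co.F.M4a

/-! A checker for sums of squares which expands Gram matrices (rows packed into big numbers). -/

namespace Pool.Agent.Lib.MP_c69b6d_co.F.H

open Finset

/-- square free trees. -/
inductive S where
  | z : S
  | l : ℕ → ℕ → S
  | n0 : S → S
  | n1 : S → S
  | n2 : S → S → S

noncomputable def evS (v : ℕ → ℝ) (f : ℕ → ℕ → ℝ) : S → ℕ → ℝ
  | S.z, _ => 0
  | S.l s R, _ => f s R
  | S.n0 a, i => evS v f a (i + 1)
  | S.n1 b, i => v i * evS v f b (i + 1)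
  | S.n2 a b, i => evS v f a (i + 1) + v i * evS v f b (i + 1)

/-- all leaves are at depth `d` and satisfy `p`. -/
def WF (p : ℕ → ℕ → Prop) : S → ℕ → Prop
  | S.z, _ => True
  | S.l s R, d => d = 0 ∧ p s R
  | S.n0 a, d => ∃ e, d = e + 1 ∧ WF p a e
  | S.n1 b, d => ∃ e, d = e + 1 ∧ WF p b e
  | S.n2 a b, d => ∃ e, d = e + 1 ∧ WF p a e ∧ WF p b e

def Adds (v : ℕ → ℝ) (g : P → P) (i : ℕ) (x : ℝ) : Prop := ∀ t, ev v (g t) i = x + ev v t i

noncomputable def at0 (g : P → P) (t : P) : P :=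
  P.rec (motive := fun _ => P) (P.n (g P.z) P.z) (fun m => P.n (g (P.c m)) P.z)
    (fun a b _ _ => P.n (g a) b) t

noncomputable def up (g : P → P) (t : P) : P :=
  P.rec (motive := fun _ => P) (P.n P.z (g P.z)) (fun m => P.n (P.c m) (g P.z))
    (fun a b _ _ => P.n a (g b)) t

noncomputable def nd (g h : P → P) (t : P) : P :=
  P.rec (motive := fun _ => P) (P.n (g P.z) (h P.z)) (fun m => P.n (g (P.c m)) (h P.z))
    (fun a b _ _ => P.n (g a) (h b)) t

noncomputable def shT (T : List Bool) (k : List Bool → P → P) (t : P) : P :=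
  List.rec (motive := fun _ => P) (k [] t)
    (fun h tl _ => Bool.rec (motive := fun _ => P) (k tl t) (up (k tl) t) h) T

variable {v : ℕ → ℝ}

theorem Adds.nd {g h : P → P} {i : ℕ} {x y : ℝ} (hg : Adds v g (i + 1) x) (hh : Adds v h i y) :
    Adds v (nd g h) i (x + v i * y) := by
  intro t
  cases t with
  | z => show ev v (g P.z) (i + 1) + v i * ev v (h P.z) i = _; rw [hg, hh]; simp [ev]
  | c m => show ev v (g (P.c m)) (i + 1) + v i * ev v (h P.z) i = _; rw [hg, hh]; simp [ev]; ring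
  | n a b => show ev v (g a) (i + 1) + v i * ev v (h b) i = _; rw [hg, hh]; simp only [ev]; ring

theorem Adds.at0 {g : P → P} {i : ℕ} {x : ℝ} (hg : Adds v g (i + 1) x) : Adds v (at0 g) i x := by
  intro t
  cases t with
  | z => show ev v (g P.z) (i + 1) + v i * ev v P.z i = _; rw [hg]; simp [ev]
  | c m => show ev v (g (P.c m)) (i + 1) + v i * ev v P.z i = _; rw [hg]; simp [ev]
  | n a b => show ev v (g a) (i + 1) + v i * ev v b i = _; rw [hg]; simp only [ev]; ring

theorem Adds.up {h : P → P} {i : ℕ} {y : ℝ} (hh : Adds v h i y) : Adds v (up h) i (v i * y) := by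
  intro t
  cases t with
  | z => show ev v P.z (i + 1) + v i * ev v (h P.z) i = _; rw [hh]; simp [ev]
  | c m => show ev v (P.c m) (i + 1) + v i * ev v (h P.z) i = _; rw [hh]; simp [ev]; ring
  | n a b => show ev v a (i + 1) + v i * ev v (h b) i = _; rw [hh]; simp only [ev]; ring

theorem Adds.comp {g h : P → P} {i : ℕ} {x y : ℝ} (hg : Adds v g i x) (hh : Adds v h i y) :
    Adds v (fun u => g (h u)) i (x + y) := fun t => by
  show ev v (g (h t)) i = _
  rw [hg, hh]; ring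

theorem Adds.of_eq {g : P → P} {i : ℕ} {x y : ℝ} (hg : Adds v g i x) (e : x = y) :
    Adds v g i y := e ▸ hg

noncomputable def monL (v : ℕ → ℝ) : List Bool → ℕ → ℝ
  | [], _ => 1
  | h :: tl, i => (if h then v i else 1) * monL v tl (i + 1)

theorem monL_nonneg (hv : ∀ i, 0 ≤ v i) (T : List Bool) (i : ℕ) : 0 ≤ monL v T i := by
  induction T generalizing i with
  | nil => exact zero_le_one
  | cons h tl ih =>
    refine mul_nonneg ?_ (ih _)
    split_ifs
    · exact hv i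
    · exact zero_le_one

theorem Adds.shT {T : List Bool} {k : List Bool → P → P} {i e : ℕ} {x : ℝ}
    (hT : T.length ≤ e + 1)
    (hk : ∀ T' : List Bool, T'.length ≤ e → Adds v (k T') i (monL v T' (i + 1) * x)) :
    Adds v (shT T k) i (monL v T i * x) := by
  cases T with
  | nil => exact (hk [] (by simp)).of_eq (by simp [monL])
  | cons h tl =>
    have h1 := hk tl (by simpa using hT)
    cases h
    · exact h1.of_eq (by simp [monL])
    · exact h1.up.of_eq (by simp [monL]; ring)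

/-- add the product of two trees and of the monomial `T`; the leaves are combined by `lf`. -/
noncomputable def g2 (lf : ℕ → ℕ → ℤ) (a : S) : S → List Bool → P → P :=
  S.rec (motive := fun _ => S → List Bool → P → P) (fun _ _ t => t)
    (fun _ R b _ t => S.rec (motive := fun _ => P) t (fun s _ => addc (lf R s) t) (fun _ _ => t)
      (fun _ _ => t) (fun _ _ _ _ => t) b)
    (fun _ r0 b T t => S.rec (motive := fun _ => P) t (fun _ _ => t)
      (fun b0 _ => shT T (fun U => at0 (r0 b0 U)) t)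
      (fun b1 _ => shT T (fun U => up (at0 (r0 b1 U))) t)
      (fun b0 b1 _ _ => shT T (fun U => nd (r0 b0 U) (at0 (r0 b1 U))) t) b)
    (fun _ r1 b T t => S.rec (motive := fun _ => P) t (fun _ _ => t)
      (fun b0 _ => shT T (fun U => up (at0 (r1 b0 U))) t)
      (fun b1 _ => shT T (fun U => up (up (at0 (r1 b1 U)))) t)
      (fun b0 b1 _ _ => shT T (fun U => up (nd (r1 b0 U) (at0 (r1 b1 U)))) t) b)
    (fun _ _ r0 r1 b T t => S.rec (motive := fun _ => P) t (fun _ _ => t)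
      (fun b0 _ => shT T (fun U => nd (r0 b0 U) (at0 (r1 b0 U))) t)
      (fun b1 _ => shT T (fun U => up (nd (r0 b1 U) (at0 (r1 b1 U)))) t)
      (fun b0 b1 _ _ => shT T (fun U => nd (r0 b0 U)
        (nd (fun u => r0 b1 U (r1 b0 U u)) (at0 (r1 b1 U)))) t) b) a

/-- add the square of a tree times the monomial `T`. -/
noncomputable def gs (lf1 lf2 : ℕ → ℕ → ℤ) (a : S) : List Bool → P → P :=
  S.rec (motive := fun _ => List Bool → P → P) (fun _ t => t)
    (fun s R _ t => addc (lf1 R s) t)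
    (fun _ r0 T t => shT T (fun U => at0 (r0 U)) t)
    (fun _ r1 T t => shT T (fun U => up (up (at0 (r1 U)))) t)
    (fun a0 a1 r0 r1 T t => shT T (fun U => nd (r0 U) (nd (g2 lf2 a0 a1 U) (at0 (r1 U)))) t) a

section Bil

variable {ι : Type} (v : ℕ → ℝ) (cs : List ι) (w : ι → ℝ) (f g : ι → ℕ → ℕ → ℝ)

noncomputable def Bl (a : S) (i : ℕ) (b : S) (j : ℕ) : ℝ :=
  (cs.map fun c => w c * (evS v (f c) a i * evS v (g c) b j)).sum

theorem Bl_z1 (i b j) : Bl v cs w f g S.z i b j = 0 := by simp [Bl, evS]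
theorem Bl_z2 (a i j) : Bl v cs w f g a i S.z j = 0 := by simp [Bl, evS]
theorem Bl_01 (a i b j) : Bl v cs w f g (S.n0 a) i b j = Bl v cs w f g a (i + 1) b j := rfl
theorem Bl_02 (a i b j) : Bl v cs w f g a i (S.n0 b) j = Bl v cs w f g a i b (j + 1) := rfl
theorem Bl_11 (a i b j) : Bl v cs w f g (S.n1 a) i b j = v i * Bl v cs w f g a (i + 1) b j := by
  simp only [Bl, evS, ← List.sum_map_mul_left]; congr 2; funext c; ring
theorem Bl_12 (a i b j) : Bl v cs w f g a i (S.n1 b) j = v j * Bl v cs w f g a i b (j + 1) := by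
  simp only [Bl, evS, ← List.sum_map_mul_left]; congr 2; funext c; ring
theorem Bl_21 (a a' i b j) : Bl v cs w f g (S.n2 a a') i b j =
    Bl v cs w f g a (i + 1) b j + v i * Bl v cs w f g a' (i + 1) b j := by
  simp only [Bl, evS, ← List.sum_map_mul_left, ← List.sum_map_add]; congr 2; funext c; ring
theorem Bl_22 (a i b b' j) : Bl v cs w f g a i (S.n2 b b') j =
    Bl v cs w f g a i b (j + 1) + v j * Bl v cs w f g a i b' (j + 1) := by
  simp only [Bl, evS, ← List.sum_map_mul_left, ← List.sum_map_add]; congr 2; funext c; ring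
theorem Bl_symm (a i b j) : Bl v cs w f f a i b j = Bl v cs w f f b j a i := by
  simp only [Bl]; congr 2; funext c; ring

theorem adds_g2 (κ : ℝ) (lf : ℕ → ℕ → ℤ) (p q : ℕ → ℕ → Prop)
    (H : ∀ s R s' R', p s R → q s' R' →
      (lf R s' : ℝ) = κ * (cs.map fun c => w c * (f c s R * g c s' R')).sum)
    (a b : S) (T : List Bool) (d i : ℕ) (ha : WF p a d) (hb : WF q b d) (hT : T.length ≤ d) :
    Adds v (g2 lf a b T) i (monL v T i * (κ * Bl v cs w f g a i b i)) := by
  induction a generalizing b T d i with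
  | z => exact fun t => by rw [Bl_z1]; simp [g2]
  | l s R =>
    obtain ⟨rfl, h1⟩ := ha
    cases b with
    | z => exact fun t => by rw [Bl_z2]; simp [g2]
    | l s' R' =>
      intro t
      have : T = [] := List.length_eq_zero_iff.1 (by omega)
      subst this
      show ev v (addc (lf R s') t) i = _
      rw [ev_addc, H s R s' R' h1 hb.2]; simp [monL, Bl, evS]
    | n0 b => obtain ⟨e, h, -⟩ := hb; omega
    | n1 b => obtain ⟨e, h, -⟩ := hb; omega
    | n2 b b' => obtain ⟨e, h, -⟩ := hb; omega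
  | n0 a ih =>
    obtain ⟨e, rfl, h1⟩ := ha
    cases b with
    | z => exact fun t => by rw [Bl_z2]; simp [g2]
    | l s' R' => exact absurd hb.1 (by omega)
    | n0 b =>
      obtain ⟨e', h, h2⟩ := hb
      obtain rfl : e = e' := by omega
      exact Adds.shT hT fun U hU => ((ih b U e (i + 1) h1 h2 hU).at0).of_eq
        (by rw [Bl_01, Bl_02])
    | n1 b =>
      obtain ⟨e', h, h2⟩ := hb
      obtain rfl : e = e' := by omega
      exact Adds.shT hT fun U hU => ((ih b U e (i + 1) h1 h2 hU).at0.up).of_eq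
        (by rw [Bl_01, Bl_12]; ring)
    | n2 b b' =>
      obtain ⟨e', h, h2, h3⟩ := hb
      obtain rfl : e = e' := by omega
      exact Adds.shT hT fun U hU => ((ih b U e (i + 1) h1 h2 hU).nd
        (ih b' U e (i + 1) h1 h3 hU).at0).of_eq (by rw [Bl_01, Bl_22]; ring)
  | n1 a ih =>
    obtain ⟨e, rfl, h1⟩ := ha
    cases b with
    | z => exact fun t => by rw [Bl_z2]; simp [g2]
    | l s' R' => exact absurd hb.1 (by omega)
    | n0 b =>
      obtain ⟨e', h, h2⟩ := hb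
      obtain rfl : e = e' := by omega
      exact Adds.shT hT fun U hU => ((ih b U e (i + 1) h1 h2 hU).at0.up).of_eq
        (by rw [Bl_11, Bl_02]; ring)
    | n1 b =>
      obtain ⟨e', h, h2⟩ := hb
      obtain rfl : e = e' := by omega
      exact Adds.shT hT fun U hU => ((ih b U e (i + 1) h1 h2 hU).at0.up.up).of_eq
        (by rw [Bl_11, Bl_12]; ring)
    | n2 b b' =>
      obtain ⟨e', h, h2, h3⟩ := hb
      obtain rfl : e = e' := by omega
      exact Adds.shT hT fun U hU => (((ih b U e (i + 1) h1 h2 hU).nd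
        (ih b' U e (i + 1) h1 h3 hU).at0).up).of_eq (by rw [Bl_11, Bl_22]; ring)
  | n2 a a' ih ih' =>
    obtain ⟨e, rfl, h1, h4⟩ := ha
    cases b with
    | z => exact fun t => by rw [Bl_z2]; simp [g2]
    | l s' R' => exact absurd hb.1 (by omega)
    | n0 b =>
      obtain ⟨e', h, h2⟩ := hb
      obtain rfl : e = e' := by omega
      exact Adds.shT hT fun U hU => ((ih b U e (i + 1) h1 h2 hU).nd
        (ih' b U e (i + 1) h4 h2 hU).at0).of_eq (by rw [Bl_21, Bl_02, Bl_02]; ring)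
    | n1 b =>
      obtain ⟨e', h, h2⟩ := hb
      obtain rfl : e = e' := by omega
      exact Adds.shT hT fun U hU => (((ih b U e (i + 1) h1 h2 hU).nd
        (ih' b U e (i + 1) h4 h2 hU).at0).up).of_eq (by rw [Bl_21, Bl_12, Bl_12]; ring)
    | n2 b b' =>
      obtain ⟨e', h, h2, h3⟩ := hb
      obtain rfl : e = e' := by omega
      exact Adds.shT hT fun U hU => ((ih b U e (i + 1) h1 h2 hU).nd
        (((ih b' U e (i + 1) h1 h3 hU).comp (ih' b U e (i + 1) h4 h2 hU)).nd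
          (ih' b' U e (i + 1) h4 h3 hU).at0)).of_eq (by rw [Bl_21, Bl_22, Bl_22]; ring)

theorem adds_gs (κ : ℝ) (lf1 lf2 : ℕ → ℕ → ℤ) (p : ℕ → ℕ → Prop)
    (H1 : ∀ s R, p s R → (lf1 R s : ℝ) = κ * (cs.map fun c => w c * (f c s R * f c s R)).sum)
    (H2 : ∀ s R s' R', p s R → p s' R' →
      (lf2 R s' : ℝ) = 2 * κ * (cs.map fun c => w c * (f c s R * f c s' R')).sum)
    (a : S) (T : List Bool) (d i : ℕ) (ha : WF p a d) (hT : T.length ≤ d) :
    Adds v (gs lf1 lf2 a T) i (monL v T i * (κ * Bl v cs w f f a i a i)) := by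
  induction a generalizing T d i with
  | z => exact fun t => by rw [Bl_z1]; simp [gs]
  | l s R =>
    obtain ⟨rfl, h1⟩ := ha
    intro t
    have : T = [] := List.length_eq_zero_iff.1 (by omega)
    subst this
    show ev v (addc (lf1 R s) t) i = _
    rw [ev_addc, H1 s R h1]; simp [monL, Bl, evS]
  | n0 a ih =>
    obtain ⟨e, rfl, h1⟩ := ha
    exact Adds.shT hT fun U hU => ((ih U e (i + 1) h1 hU).at0).of_eq (by rw [Bl_01, Bl_02])
  | n1 a ih =>
    obtain ⟨e, rfl, h1⟩ := ha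
    exact Adds.shT hT fun U hU => ((ih U e (i + 1) h1 hU).at0.up.up).of_eq
      (by rw [Bl_11, Bl_12]; ring)
  | n2 a a' ih ih' =>
    obtain ⟨e, rfl, h1, h2⟩ := ha
    exact Adds.shT hT fun U hU => ((ih U e (i + 1) h1 hU).nd
      ((adds_g2 v cs w f f (2 * κ) lf2 p p H2 a a' U e (i + 1) h1 h2 hU).nd
        (ih' U e (i + 1) h2 hU).at0)).of_eq
      (by rw [Bl_21, Bl_22, Bl_22, Bl_symm v cs w f a' (i + 1) a (i + 1)]; ring)

end Bil

/-- apply `k` at the leaf position `m`. -/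
noncomputable def insG (k : S → S) (d : ℕ) : ℕ → S → S :=
  Nat.rec (motive := fun _ => ℕ → S → S) (fun _ t => k t)
    (fun _ r m t => Bool.rec (motive := fun _ => S)
      (S.rec (motive := fun _ => S) (S.n0 (r (Nat.div m 2) S.z))
        (fun _ _ => S.n0 (r (Nat.div m 2) S.z)) (fun a _ => S.n0 (r (Nat.div m 2) a))
        (fun b _ => S.n2 (r (Nat.div m 2) S.z) b) (fun a b _ _ => S.n2 (r (Nat.div m 2) a) b) t)
      (S.rec (motive := fun _ => S) (S.n1 (r (Nat.div m 2) S.z))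
        (fun _ _ => S.n1 (r (Nat.div m 2) S.z)) (fun a _ => S.n2 a (r (Nat.div m 2) S.z))
        (fun b _ => S.n1 (r (Nat.div m 2) b)) (fun a b _ _ => S.n2 a (r (Nat.div m 2) b)) t)
      (Nat.beq (Nat.mod m 2) 1)) d

theorem insG_spec (k : S → S) (p : ℕ → ℕ → Prop) (f : ℕ → ℕ → ℝ) (x : ℝ) (Q : Prop)
    (hk : ∀ t, WF p t 0 → WF p (k t) 0 ∧ (Q → ∀ i, evS v f (k t) i = x + evS v f t i))
    (d m : ℕ) (t : S) (ht : WF p t d) : WF p (insG k d m t) d ∧
      (Q → ∀ i, evS v f (insG k d m t) i = x * mon v d m i + evS v f t i) := by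
  induction d generalizing m t with
  | zero =>
    refine ⟨(hk t ht).1, fun q i => ?_⟩
    show evS v f (k t) i = _
    rw [(hk t ht).2 q]; simp [mon]
  | succ d ih =>
    have hz := ih (m / 2) S.z trivial
    cases h : Nat.beq (m % 2) 1
    · have h6 : ¬ m % 2 = 1 := fun hh => by simp [hh] at h
      have e : insG k (d + 1) m t = S.rec (motive := fun _ => S) (S.n0 (insG k d (m / 2) S.z))
        (fun _ _ => S.n0 (insG k d (m / 2) S.z)) (fun a _ => S.n0 (insG k d (m / 2) a))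
        (fun b _ => S.n2 (insG k d (m / 2) S.z) b)
        (fun a b _ _ => S.n2 (insG k d (m / 2) a) b) t := by
        show Bool.rec (motive := fun _ => S) _ _ (Nat.beq (m % 2) 1) = _
        rw [h]; rfl
      rw [e]
      cases t with
      | z => exact ⟨⟨d, rfl, hz.1⟩, fun q i => by simp [evS, hz.2 q, mon, h6]⟩
      | l s R => exact absurd ht.1 (by omega)
      | n0 a =>
        obtain ⟨e', h1, h2⟩ := ht
        obtain rfl : d = e' := by omega
        exact ⟨⟨d, rfl, (ih _ a h2).1⟩, fun q i => by simp [evS, (ih _ a h2).2 q, mon, h6]⟩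
      | n1 b =>
        obtain ⟨e', h1, h2⟩ := ht
        obtain rfl : d = e' := by omega
        exact ⟨⟨d, rfl, hz.1, h2⟩, fun q i => by simp [evS, hz.2 q, mon, h6]⟩
      | n2 a b =>
        obtain ⟨e', h1, h2, h3⟩ := ht
        obtain rfl : d = e' := by omega
        exact ⟨⟨d, rfl, (ih _ a h2).1, h3⟩, fun q i => by
          simp only [evS, (ih _ a h2).2 q, mon, if_neg h6]; ring⟩
    · have h6 : m % 2 = 1 := Nat.eq_of_beq_eq_true h
      have e : insG k (d + 1) m t = S.rec (motive := fun _ => S) (S.n1 (insG k d (m / 2) S.z))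
        (fun _ _ => S.n1 (insG k d (m / 2) S.z)) (fun a _ => S.n2 a (insG k d (m / 2) S.z))
        (fun b _ => S.n1 (insG k d (m / 2) b))
        (fun a b _ _ => S.n2 a (insG k d (m / 2) b)) t := by
        show Bool.rec (motive := fun _ => S) _ _ (Nat.beq (m % 2) 1) = _
        rw [h]; rfl
      rw [e]
      cases t with
      | z => exact ⟨⟨d, rfl, hz.1⟩, fun q i => by
          simp only [evS, hz.2 q, mon, if_pos h6]; ring⟩
      | l s R => exact absurd ht.1 (by omega)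
      | n0 a =>
        obtain ⟨e', h1, h2⟩ := ht
        obtain rfl : d = e' := by omega
        exact ⟨⟨d, rfl, h2, hz.1⟩, fun q i => by
          simp only [evS, hz.2 q, mon, if_pos h6]; ring⟩
      | n1 b =>
        obtain ⟨e', h1, h2⟩ := ht
        obtain rfl : d = e' := by omega
        exact ⟨⟨d, rfl, (ih _ b h2).1⟩, fun q i => by
          simp only [evS, (ih _ b h2).2 q, mon, if_pos h6]; ring⟩
      | n2 a b =>
        obtain ⟨e', h1, h2, h3⟩ := ht
        obtain rfl : d = e' := by omega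
        exact ⟨⟨d, rfl, h2, (ih _ b h3).1⟩, fun q i => by
          simp only [evS, (ih _ b h3).2 q, mon, if_pos h6]; ring⟩

noncomputable def cnt (t : S) : S :=
  S.rec (motive := fun _ => S) (S.l 1 1) (fun s R => S.l (Nat.succ s) (Nat.succ R))
    (fun _ _ => S.l 1 1) (fun _ _ => S.l 1 1) (fun _ _ _ _ => S.l 1 1) t

theorem cnt_spec (t : S) (ht : WF (fun s R => s = R) t 0) : WF (fun s R => s = R) (cnt t) 0 ∧
    (True → ∀ i, evS v (fun s _ => (s : ℝ)) (cnt t) i = 1 + evS v (fun s _ => (s : ℝ)) t i) := by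
  cases t with
  | z => exact ⟨⟨rfl, rfl⟩, fun _ i => by simp [cnt, evS]⟩
  | l s R => exact ⟨⟨rfl, congrArg Nat.succ ht.2⟩, fun _ i => by simp [cnt, evS]; ring⟩
  | n0 b => obtain ⟨e, h, -⟩ := ht; omega
  | n1 b => obtain ⟨e, h, -⟩ := ht; omega
  | n2 b b' => obtain ⟨e, h, -⟩ := ht; omega

/-- the members `S` of `L` with `S &&& U = V`, bits of `V` cleared, which avoid `X`. -/
noncomputable def bsS (d U V X : ℕ) (L : List ℕ) : S :=
  List.rec (motive := fun _ => S) S.z
    (fun m _ r => Bool.rec (motive := fun _ => S) r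
      (Bool.rec (motive := fun _ => S) r (insG cnt d (Nat.xor m V) r)
        (Nat.beq (Nat.land (Nat.xor m V) X) 0)) (Nat.beq (Nat.land m U) V)) L

theorem bsS_spec (d U V X : ℕ) (L : List ℕ) : WF (fun s R => s = R) (bsS d U V X L) d ∧
    evS v (fun s _ => (s : ℝ)) (bsS d U V X L) 0 = ev v (bsel d U V X L) 0 := by
  induction L with
  | nil => exact ⟨trivial, rfl⟩
  | cons m L ih =>
    have e : bsS d U V X (m :: L) = Bool.rec (motive := fun _ => S) (bsS d U V X L)
      (Bool.rec (motive := fun _ => S) (bsS d U V X L) (insG cnt d (m ^^^ V) (bsS d U V X L))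
        (Nat.beq ((m ^^^ V) &&& X) 0)) (Nat.beq (m &&& U) V) := rfl
    have e' : bsel d U V X (m :: L) = Bool.rec (motive := fun _ => P) (bsel d U V X L)
      (Bool.rec (motive := fun _ => P) (bsel d U V X L) (ins 1 d (m ^^^ V) (bsel d U V X L))
        (Nat.beq ((m ^^^ V) &&& X) 0)) (Nat.beq (m &&& U) V) := rfl
    rw [e, e']
    cases Nat.beq (m &&& U) V
    · exact ih
    · cases Nat.beq ((m ^^^ V) &&& X) 0
      · exact ih
      · have := insG_spec (v := v) cnt _ _ 1 True cnt_spec d (m ^^^ V) _ ih.1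
        exact ⟨this.1, by simp only [this.2 trivial, ev_ins, ih.2, Int.cast_one]⟩

/-- add `k` times a product of two selections. -/
noncomputable def prd (k : ℤ) (a b : S) (t : P) : P :=
  g2 (fun R s => Int.mul k (Int.ofNat (Nat.mul R s))) a b [] t

theorem ev_prd (k : ℤ) (d U V U' V' X : ℕ) (L : List ℕ) (t : P) :
    ev v (prd k (bsS d U V X L) (bsS d U' V' X L) t) 0 =
      k * ev v (bsel d U V X L) 0 * ev v (bsel d U' V' X L) 0 + ev v t 0 := by
  have h1 := bsS_spec (v := v) d U V X L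
  have h2 := bsS_spec (v := v) d U' V' X L
  have := adds_g2 v [()] (fun _ => 1) (fun _ s _ => (s : ℝ)) (fun _ s _ => (s : ℝ)) k
    (fun R s => Int.mul k (Int.ofNat (Nat.mul R s))) _ _ (by
      rintro s R s' R' (rfl : s = R) -
      simp) _ _ [] d 0 h1.1 h2.1 (by simp) t
  rw [prd, this]
  simp only [monL, Bl, List.map_cons, List.map_nil, List.sum_cons, List.sum_nil, h1.2, h2.2]
  ring

noncomputable def dlG (d : ℕ) (L : List ℕ) (X i j : ℕ) : P :=
  Bool.rec (motive := fun _ => P)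
    ((fun E F U => prd 1 (bsS d U E X L) (bsS d U F X L)
      (prd (-1) (bsS d U U X L) (bsS d U 0 X L) P.z))
      (Nat.pow 2 i) (Nat.pow 2 j) (Nat.lor (Nat.pow 2 i) (Nat.pow 2 j)))
    ((fun a => prd 1 a a P.z) (bsS d (Nat.pow 2 i) (Nat.pow 2 i) X L)) (Nat.beq i j)

theorem ev_dlG (d : ℕ) (L : List ℕ) (X i j : ℕ) : ev v (dlG d L X i j) 0 = ev v (dlT d L X i j) 0 := by
  unfold dlG dlT
  cases Nat.beq i j <;> simp only [ev_prd, ev_fma]

/-! ### packed rows -/

noncomputable def part (s : Bool) (x : ℕ) : ℕ :=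
  Bool.rec (motive := fun _ => ℕ)
    (Bool.rec (motive := fun _ => ℕ) (Nat.div x 2) 0 s)
    (Bool.rec (motive := fun _ => ℕ) 0 (Nat.succ (Nat.div x 2)) s) (Nat.beq (Nat.mod x 2) 1)

theorem sgn_cases (x : ℕ) : (Nat.beq (x % 2) 1 = false ∧ sgn x = ((x + 1) / 2 : ℕ) ∧
    part false x = (x + 1) / 2 ∧ part true x = 0) ∨
    (Nat.beq (x % 2) 1 = true ∧ sgn x = -((x + 1) / 2 : ℕ) ∧
      part false x = 0 ∧ part true x = (x + 1) / 2) := by
  have e1 : sgn x = Bool.rec (motive := fun _ => ℤ) (Int.ofNat (x / 2)) (Int.negSucc (x / 2))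
    (Nat.beq (x % 2) 1) := rfl
  have e2 : part false x = Bool.rec (motive := fun _ => ℕ) (x / 2) 0 (Nat.beq (x % 2) 1) := rfl
  have e3 : part true x = Bool.rec (motive := fun _ => ℕ) 0 (x / 2 + 1) (Nat.beq (x % 2) 1) := rfl
  rw [e1, e2, e3]
  cases h : Nat.beq (x % 2) 1
  · have h6 : ¬ x % 2 = 1 := fun hh => by simp [hh] at h
    have : (x + 1) / 2 = x / 2 := by omega
    left; rw [this]; exact ⟨rfl, rfl, rfl, rfl⟩
  · have h6 : x % 2 = 1 := Nat.eq_of_beq_eq_true h
    have : (x + 1) / 2 = x / 2 + 1 := by omega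
    right; rw [this]; exact ⟨rfl, rfl, rfl, rfl⟩

theorem sgn_zero : sgn 0 = 0 := rfl

theorem sgn_bound {x C : ℕ} (h : x < C) : 2 * |sgn x| ≤ C := by
  rcases sgn_cases x with ⟨-, e, -⟩ | ⟨-, e, -⟩ <;> rw [e]
  · rw [Nat.abs_cast]; omega
  · rw [abs_neg, Nat.abs_cast]; omega

noncomputable def pk (s : Bool) (B C n : ℕ) : ℕ → ℕ :=
  Nat.rec (motive := fun _ => ℕ → ℕ) (fun _ => 0)
    (fun _ r N => Bool.rec (motive := fun _ => ℕ)
      (Nat.add (part s (Nat.mod N C)) (Nat.mul B (r (Nat.div N C)))) 0 (Nat.beq N 0)) n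

theorem pk_spec (B C n N : ℕ) : (pk false B C n N : ℤ) - pk true B C n N =
    ∑ j ∈ range n, sgn (N / C ^ j % C) * (B : ℤ) ^ j := by
  induction n generalizing N with
  | zero => simp [pk]
  | succ n ih =>
    have e : ∀ s, pk s B C (n + 1) N = Bool.rec (motive := fun _ => ℕ)
      (part s (N % C) + B * pk s B C n (N / C)) 0 (Nat.beq N 0) := fun _ => rfl
    rw [e, e]
    cases h : Nat.beq N 0
    · rw [sum_range_succ']
      have h1 : ∑ j ∈ range n, sgn (N / C ^ (j + 1) % C) * (B : ℤ) ^ (j + 1) =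
          B * ((pk false B C n (N / C) : ℤ) - pk true B C n (N / C)) := by
        rw [ih, mul_sum]
        refine sum_congr rfl fun j _ => ?_
        rw [Nat.div_div_eq_div_mul, ← pow_succ']; ring
      rw [h1]
      simp only [pow_zero, Nat.div_one, mul_one]
      rcases sgn_cases (N % C) with ⟨-, e1, e2, e3⟩ | ⟨-, e1, e2, e3⟩ <;> rw [e1, e2, e3] <;>
        push_cast <;> ring
    · have := Nat.eq_of_beq_eq_true h
      subst this
      simp [sgn_zero]

/-- digit `i` in base `2 ^ c`. -/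
noncomputable def dig (c C N i : ℕ) : ℕ := Nat.mod (Nat.shiftRight N (Nat.mul c i)) C

theorem dig_eq (c N i : ℕ) : dig c (2 ^ c) N i = N / (2 ^ c) ^ i % 2 ^ c := by
  show (N >>> (c * i)) % 2 ^ c = _
  rw [Nat.shiftRight_eq_div_pow, pow_mul]

noncomputable def rowA (s : Bool) (c C i : ℕ) (l : List (ℕ × ℕ × ℕ × ℕ)) : ℕ :=
  List.rec (motive := fun _ => ℕ) 0
    (fun q _ r => (fun x => Bool.rec (motive := fun _ => ℕ)
      (Nat.add (Nat.mul (Nat.mul (Nat.succ q.1) (Nat.div (Nat.succ x) 2))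
        (Bool.rec (motive := fun _ => ℕ)
          (Bool.rec (motive := fun _ => ℕ) q.2.2.1 q.2.2.2 s)
          (Bool.rec (motive := fun _ => ℕ) q.2.2.2 q.2.2.1 s) (Nat.beq (Nat.mod x 2) 1))) r)
      r (Nat.beq x 0)) (dig c C q.2.1 i)) l

theorem rowA_spec (c C i : ℕ) (l : List (ℕ × ℕ × ℕ × ℕ)) :
    (rowA false c C i l : ℤ) - rowA true c C i l =
      (l.map fun q => ((q.1 + 1 : ℕ) : ℤ) * sgn (dig c C q.2.1 i) *
        ((q.2.2.1 : ℤ) - q.2.2.2)).sum := by
  induction l with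
  | nil => simp [rowA]
  | cons q l ih =>
    have e : ∀ s, rowA s c C i (q :: l) = Bool.rec (motive := fun _ => ℕ)
      ((q.1 + 1) * ((dig c C q.2.1 i + 1) / 2) *
        (Bool.rec (motive := fun _ => ℕ)
          (Bool.rec (motive := fun _ => ℕ) q.2.2.1 q.2.2.2 s)
          (Bool.rec (motive := fun _ => ℕ) q.2.2.2 q.2.2.1 s) (Nat.beq (dig c C q.2.1 i % 2) 1)) +
        rowA s c C i l) (rowA s c C i l) (Nat.beq (dig c C q.2.1 i) 0) := fun _ => rfl
    rw [e, e, List.map_cons, List.sum_cons, ← ih]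
    cases h : Nat.beq (dig c C q.2.1 i) 0
    · rcases sgn_cases (dig c C q.2.1 i) with ⟨e0, e1, -⟩ | ⟨e0, e1, -⟩ <;> rw [e0, e1] <;>
        push_cast <;> ring
    · rw [Nat.eq_of_beq_eq_true h, sgn_zero]; simp

noncomputable def ones (B n : ℕ) : ℕ :=
  Nat.rec (motive := fun _ => ℕ) 0 (fun _ r => Nat.succ (Nat.mul B r)) n

theorem ones_spec (B n : ℕ) : (ones B n : ℤ) = ∑ j ∈ range n, (B : ℤ) ^ j := by
  induction n with
  | zero => simp [ones]
  | succ n ih =>
    have e : ones B (n + 1) = B * ones B n + 1 := rfl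
    rw [e, sum_range_succ']; push_cast; rw [ih, mul_sum]
    simp only [pow_succ', pow_zero]

theorem digit_sum (B : ℕ) (n : ℕ) (a : ℕ → ℤ) (N : ℕ) (ha : ∀ j < n, 0 ≤ a j ∧ a j < B)
    (hN : (N : ℤ) = ∑ j ∈ range n, a j * (B : ℤ) ^ j) :
    ∀ j < n, ((N / B ^ j % B : ℕ) : ℤ) = a j := by
  induction n generalizing a N with
  | zero => intro j hj; omega
  | succ n ih =>
    rw [sum_range_succ'] at hN
    have h0 := ha 0 (by omega)
    have h1 : ∑ j ∈ range n, a (j + 1) * (B : ℤ) ^ (j + 1) =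
        B * ∑ j ∈ range n, a (j + 1) * (B : ℤ) ^ j := by
      rw [mul_sum]; exact sum_congr rfl fun j _ => by ring
    rw [h1, pow_zero, mul_one] at hN
    have hB : (0 : ℤ) < B := lt_of_le_of_lt h0.1 h0.2
    have h2 := (Int.ediv_emod_unique (a := (N : ℤ)) (r := a 0)
      (q := ∑ j ∈ range n, a (j + 1) * (B : ℤ) ^ j) hB).2 ⟨by rw [hN]; ring, h0.1, h0.2⟩
    intro j hj
    cases j with
    | zero => simpa using h2.2
    | succ j =>
      have := ih (fun j => a (j + 1)) (N / B) (fun j hj => ha (j + 1) (by omega))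
        (by rw [← h2.1]; simp) j (by omega)
      rw [← this, Nat.div_div_eq_div_mul, ← pow_succ']

/-- the Gram matrix. -/
noncomputable def gram (c : ℕ) (cs : List (ℕ × ℕ)) (i j : ℕ) : ℤ :=
  (cs.map fun q => ((q.1 + 1 : ℕ) : ℤ) *
    (sgn (dig c (2 ^ c) q.2 i) * sgn (dig c (2 ^ c) q.2 j))).sum

noncomputable def wsum (cs : List (ℕ × ℕ)) : ℕ :=
  List.rec (motive := fun _ => ℕ) 0 (fun q _ r => Nat.add (Nat.succ q.1) r) cs

theorem gram_bound (c : ℕ) (cs : List (ℕ × ℕ)) (i j : ℕ) :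
    4 * |gram c cs i j| ≤ (wsum cs * (2 ^ c * 2 ^ c) : ℕ) := by
  induction cs with
  | nil => simp [gram, wsum]
  | cons q cs ih =>
    have e : wsum (q :: cs) = q.1 + 1 + wsum cs := rfl
    have e2 : gram c (q :: cs) i j = ((q.1 + 1 : ℕ) : ℤ) *
      (sgn (dig c (2 ^ c) q.2 i) * sgn (dig c (2 ^ c) q.2 j)) + gram c cs i j := by simp [gram]
    have hp : 0 < 2 ^ c := by positivity
    have b1 := sgn_bound (x := dig c (2 ^ c) q.2 i) (C := 2 ^ c) (Nat.mod_lt _ hp)
    have b2 := sgn_bound (x := dig c (2 ^ c) q.2 j) (C := 2 ^ c) (Nat.mod_lt _ hp)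
    have b3 := mul_le_mul b1 b2 (by positivity) (by positivity)
    have b4 := mul_le_mul_of_nonneg_left b3 (show (0 : ℤ) ≤ ((q.1 + 1 : ℕ) : ℤ) by positivity)
    have b5 := abs_add_le (((q.1 + 1 : ℕ) : ℤ) *
      (sgn (dig c (2 ^ c) q.2 i) * sgn (dig c (2 ^ c) q.2 j))) (gram c cs i j)
    rw [abs_mul, abs_mul, Nat.abs_cast] at b5
    rw [e, e2]
    push_cast at ih b4 b5 ⊢
    nlinarith

noncomputable def pks (B C n : ℕ) (cs : List (ℕ × ℕ)) : List (ℕ × ℕ × ℕ × ℕ) :=
  List.rec (motive := fun _ => List (ℕ × ℕ × ℕ × ℕ)) []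
    (fun q _ r => (q.1, q.2, pk false B C n q.2, pk true B C n q.2) :: r) cs

noncomputable def rowR (c C off : ℕ) (l : List (ℕ × ℕ × ℕ × ℕ)) (i : ℕ) : ℕ :=
  Nat.sub (Nat.add off (rowA false c C i l)) (rowA true c C i l)

theorem pks_sum (B c n i : ℕ) (cs : List (ℕ × ℕ)) :
    ((pks B (2 ^ c) n cs).map fun q => ((q.1 + 1 : ℕ) : ℤ) * sgn (dig c (2 ^ c) q.2.1 i) *
      ((q.2.2.1 : ℤ) - q.2.2.2)).sum = ∑ j ∈ range n, gram c cs i j * (B : ℤ) ^ j := by
  induction cs with
  | nil => simp [pks, gram]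
  | cons q cs ih =>
    have e : pks B (2 ^ c) n (q :: cs) = (q.1, q.2, pk false B (2 ^ c) n q.2,
      pk true B (2 ^ c) n q.2) :: pks B (2 ^ c) n cs := rfl
    rw [e, List.map_cons, List.sum_cons, ih]
    simp only [pk_spec, gram, List.map_cons, List.sum_cons, add_mul, sum_add_distrib, mul_sum,
      dig_eq]
    congr 1
    exact sum_congr rfl fun j _ => by ring

theorem rowR_spec (c h n : ℕ) (cs : List (ℕ × ℕ)) (hb : wsum cs * (2 ^ c * 2 ^ c) < 2 ^ (h + 1))
    (i j : ℕ) (hj : j < n) :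
    (((rowR c (2 ^ c) (2 ^ h * ones (2 ^ (h + 1)) n) (pks (2 ^ (h + 1)) (2 ^ c) n cs) i) >>>
      ((h + 1) * j) % 2 ^ (h + 1) : ℕ) : ℤ) = gram c cs i j + 2 ^ h := by
  have hg : ∀ j, 0 ≤ gram c cs i j + 2 ^ h ∧ gram c cs i j + 2 ^ h < ((2 ^ (h + 1) : ℕ) : ℤ) := by
    intro j
    have h1 := gram_bound c cs i j
    have h2 : ((wsum cs * (2 ^ c * 2 ^ c) : ℕ) : ℤ) < ((2 ^ (h + 1) : ℕ) : ℤ) := by exact_mod_cast hb
    have h3 : ((2 ^ (h + 1) : ℕ) : ℤ) = 2 * 2 ^ h := by push_cast; ring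
    have h4 := le_abs_self (gram c cs i j)
    have h5 := neg_abs_le (gram c cs i j)
    have h6 := abs_nonneg (gram c cs i j)
    constructor <;> linarith
  have h1 := rowA_spec c (2 ^ c) i (pks (2 ^ (h + 1)) (2 ^ c) n cs)
  rw [pks_sum] at h1
  have h2 : ((2 ^ h * ones (2 ^ (h + 1)) n + rowA false c (2 ^ c) i
      (pks (2 ^ (h + 1)) (2 ^ c) n cs) : ℕ) : ℤ) - rowA true c (2 ^ c) i
      (pks (2 ^ (h + 1)) (2 ^ c) n cs) =
      ∑ j ∈ range n, (gram c cs i j + 2 ^ h) * ((2 ^ (h + 1) : ℕ) : ℤ) ^ j := by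
    rw [Nat.cast_add, Nat.cast_mul, ones_spec, add_sub_assoc, h1, mul_sum, ← sum_add_distrib]
    exact sum_congr rfl fun j _ => by push_cast; ring
  have h3 : 0 ≤ ∑ j ∈ range n, (gram c cs i j + 2 ^ h) * ((2 ^ (h + 1) : ℕ) : ℤ) ^ j :=
    sum_nonneg fun j _ => mul_nonneg (hg j).1 (by positivity)
  rw [Nat.shiftRight_eq_div_pow, pow_mul]
  refine digit_sum _ n (fun j => gram c cs i j + 2 ^ h) _ (fun j _ => hg j) ?_ j hj
  rw [← h2] at h3 ⊢
  show (((_ - _ : ℕ) : ℕ) : ℤ) = _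
  rw [Nat.cast_sub (by exact_mod_cast sub_nonneg.1 h3)]
  rfl

noncomputable def bits (d : ℕ) : ℕ → List Bool :=
  Nat.rec (motive := fun _ => ℕ → List Bool) (fun _ => [])
    (fun _ r T => Bool.rec (motive := fun _ => List Bool)
      (Nat.beq (Nat.mod T 2) 1 :: r (Nat.div T 2)) [] (Nat.beq T 0)) d

theorem bits_len (d T : ℕ) : (bits d T).length ≤ d := by
  induction d generalizing T with
  | zero => exact le_rfl
  | succ d ih =>
    have e : bits (d + 1) T = Bool.rec (motive := fun _ => List Bool)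
      (Nat.beq (T % 2) 1 :: bits d (T / 2)) [] (Nat.beq T 0) := rfl
    rw [e]
    cases Nat.beq T 0
    · simpa using ih _
    · simp

/-- the tree of the first `k` monomials, with the rows `R`. -/
noncomputable def shp (d b M : ℕ) (R : ℕ → ℕ) (k : ℕ) : S :=
  Nat.rec (motive := fun _ => S) S.z
    (fun i r => insG (fun _ => S.l (Nat.mul b i) (R i)) d (dig d (Nat.pow 2 d) M i) r) k

theorem shp_wf (d b M n : ℕ) (R : ℕ → ℕ) (k : ℕ) (hk : k ≤ n) :
    WF (fun s Q => ∃ i < n, s = b * i ∧ Q = R i) (shp d b M R k) d := by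
  induction k with
  | zero => trivial
  | succ k ih =>
    exact (insG_spec (v := fun _ => 0) (fun _ => S.l (b * k) (R k)) _ (fun _ _ => 0) 0 False
      (fun t _ => ⟨⟨rfl, k, hk, rfl, rfl⟩, False.elim⟩) d _ _ (ih (by omega))).1

/-- subtract one block `(T, n, masks, [(weight - 1, vector)])`. -/
noncomputable def blk (d c h : ℕ) (q : ℕ × ℕ × ℕ × List (ℕ × ℕ)) (t : P) : P :=
  (fun C H B => Bool.rec (motive := fun _ => P)
    (gs (fun R s => Int.subNatNat H (Nat.mod (Nat.shiftRight R s) B))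
      (fun R s => Int.subNatNat B (Nat.mul 2 (Nat.mod (Nat.shiftRight R s) B)))
      (shp d (Nat.succ h) q.2.2.1 (rowR c C (Nat.mul H (ones B q.2.1)) (pks B C q.2.1 q.2.2.2))
        q.2.1) (bits d q.1) t) t (Nat.ble B (Nat.mul (wsum q.2.2.2) (Nat.mul C C))))
    (Nat.pow 2 c) (Nat.pow 2 h) (Nat.pow 2 (Nat.succ h))

theorem ev_blk (hv : ∀ i, 0 ≤ v i) (d c h : ℕ) (q : ℕ × ℕ × ℕ × List (ℕ × ℕ)) (t : P) :
    ev v (blk d c h q t) 0 ≤ ev v t 0 := by
  obtain ⟨T, n, M, cs⟩ := q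
  have e : blk d c h (T, n, M, cs) t = Bool.rec (motive := fun _ => P)
    (gs (fun R s => Int.subNatNat (2 ^ h) (R >>> s % 2 ^ (h + 1)))
      (fun R s => Int.subNatNat (2 ^ (h + 1)) (2 * (R >>> s % 2 ^ (h + 1))))
      (shp d (h + 1) M (rowR c (2 ^ c) (2 ^ h * ones (2 ^ (h + 1)) n)
        (pks (2 ^ (h + 1)) (2 ^ c) n cs)) n) (bits d T) t) t
      (Nat.ble (2 ^ (h + 1)) (wsum cs * (2 ^ c * 2 ^ c))) := rfl
  rw [e]
  cases hb : Nat.ble (2 ^ (h + 1)) (wsum cs * (2 ^ c * 2 ^ c))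
  · have hb' : wsum cs * (2 ^ c * 2 ^ c) < 2 ^ (h + 1) := by
      by_contra hc
      rw [Nat.ble_eq_true_of_le (not_lt.1 hc)] at hb
      exact absurd hb (by simp)
    have key := rowR_spec c h n cs hb'
    have gr : ∀ i j, ((gram c cs i j : ℤ) : ℝ) = (cs.map fun q => ((q.1 + 1 : ℕ) : ℝ) *
        ((sgn (dig c (2 ^ c) q.2 ((h + 1) * i / (h + 1))) : ℝ) *
          (sgn (dig c (2 ^ c) q.2 ((h + 1) * j / (h + 1))) : ℝ))).sum := by
      intro i j
      rw [Nat.mul_div_cancel_left _ (Nat.succ_pos h), Nat.mul_div_cancel_left _ (Nat.succ_pos h),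
        gram, Int.cast_list_sum, List.map_map]
      congr 2; funext q; simp
    have := adds_gs v cs (fun q => ((q.1 + 1 : ℕ) : ℝ))
      (fun q s _ => (sgn (dig c (2 ^ c) q.2 (s / (h + 1))) : ℝ)) (-1)
      (fun R s => Int.subNatNat (2 ^ h) (R >>> s % 2 ^ (h + 1)))
      (fun R s => Int.subNatNat (2 ^ (h + 1)) (2 * (R >>> s % 2 ^ (h + 1)))) _
      (by
        rintro s R ⟨i, hi, rfl, rfl⟩
        rw [← gr, Int.subNatNat_eq_coe, key i i hi]; push_cast; ring)
      (by
        rintro s R s' R' ⟨i, hi, rfl, rfl⟩ ⟨j, hj, rfl, rfl⟩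
        rw [← gr, Int.subNatNat_eq_coe, Nat.cast_mul, key i j hj]; push_cast; ring)
      _ (bits d T) d 0 (shp_wf d (h + 1) M n _ n le_rfl) (bits_len d T) t
    simp only [this]
    have h1 : ∀ a : S, 0 ≤ Bl v cs (fun q => ((q.1 + 1 : ℕ) : ℝ))
        (fun q s _ => (sgn (dig c (2 ^ c) q.2 (s / (h + 1))) : ℝ))
        (fun q s _ => (sgn (dig c (2 ^ c) q.2 (s / (h + 1))) : ℝ)) a 0 a 0 := by
      intro a
      refine List.sum_nonneg fun x hx => ?_
      obtain ⟨q, -, rfl⟩ := List.mem_map.1 hx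
      exact mul_nonneg (by positivity) (mul_self_nonneg _)
    have h2 := mul_nonneg (monL_nonneg hv (bits d T) 0) (h1 (shp d (h + 1) M
      (rowR c (2 ^ c) (2 ^ h * ones (2 ^ (h + 1)) n) (pks (2 ^ (h + 1)) (2 ^ c) n cs)) n))
    linarith
  · exact le_rfl

noncomputable def blks (d c h : ℕ) (bs : List (ℕ × ℕ × ℕ × List (ℕ × ℕ))) (t : P) : P :=
  List.rec (motive := fun _ => P) t (fun q _ r => blk d c h q r) bs

theorem ev_blks (hv : ∀ i, 0 ≤ v i) (d c h : ℕ) (bs : List (ℕ × ℕ × ℕ × List (ℕ × ℕ))) (t : P) :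
    ev v (blks d c h bs t) 0 ≤ ev v t 0 := by
  induction bs with
  | nil => exact le_rfl
  | cons q bs ih => exact (ev_blk hv d c h q _).trans ih

/-! ### explicit intermediate polynomials -/

noncomputable def ups (e : ℕ) (g : P → P) : P → P :=
  Nat.rec (motive := fun _ => P → P) (at0 g) (fun _ r => up r) e

/-- add `k` times the monomial with exponents the base 4 digits of `E`. -/
noncomputable def ins4 (k : ℤ) (d : ℕ) : ℕ → P → P :=
  Nat.rec (motive := fun _ => ℕ → P → P) (fun _ t => addc k t)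
    (fun _ r E t => Bool.rec (motive := fun _ => P) (ups (Nat.mod E 4) (r (Nat.div E 4)) t)
      (addc k t) (Nat.beq E 0)) d

/-- `cnt` terms (exponents in base `B`, coefficient code in base `C`). -/
noncomputable def expl (d B C cnt : ℕ) : ℕ → P :=
  Nat.rec (motive := fun _ => ℕ → P) (fun _ => P.z)
    (fun _ r N => ins4 (sgn (Nat.mod (Nat.div N B) C)) d (Nat.mod N B)
      (r (Nat.div (Nat.div N B) C))) cnt

/-- an explicit polynomial, given in chunks `(cnt, N)`. -/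
noncomputable def xpl (d C : ℕ) (l : List (ℕ × ℕ)) : P :=
  List.rec (motive := fun _ => P) P.z
    (fun q _ r => axp 1 (expl d (Nat.pow 4 d) C q.1 q.2) r) l

def Pos (t : P) : Prop := ∀ v : ℕ → ℝ, (∀ i, 0 ≤ v i) → 0 ≤ ev v t 0

theorem pos_of {d c h : ℕ} {bs : List (ℕ × ℕ × ℕ × List (ℕ × ℕ))} {t : P}
    (H : nonneg (blks d c h bs t) = true) : Pos t :=
  fun v hv => (ev_nonneg v hv _ 0 H).trans (ev_blks hv d c h bs t)

noncomputable def subA (As : List P) (t : P) : P :=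
  List.rec (motive := fun _ => P) t (fun A _ r => axp (-1) A r) As

def AllPos : List P → Prop
  | [] => True
  | A :: As => Pos A ∧ AllPos As

theorem ev_subA (hv : ∀ i, 0 ≤ v i) (As : List P) (hA : AllPos As) (t : P) :
    ev v (subA As t) 0 ≤ ev v t 0 := by
  induction As with
  | nil => exact le_rfl
  | cons A As ih =>
    have e : subA (A :: As) t = axp (-1) A (subA As t) := rfl
    have := hA.1 v hv
    rw [e, ev_axp]; push_cast; linarith [ih hA.2]

/-- the test. -/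
noncomputable def chkG (d c h : ℕ) (F : P) (ms : List (ℕ × ℕ)) (As : List P)
    (bs : List (ℕ × ℕ × ℕ × List (ℕ × ℕ))) : Bool :=
  nonneg (blks d c h bs (subA As (fma 1 (mulT d ms) F P.z)))

theorem of_chkG {d c h : ℕ} {F : P} {ms : List (ℕ × ℕ)} {As : List P}
    {bs : List (ℕ × ℕ × ℕ × List (ℕ × ℕ))} (hm : ms ≠ []) (hA : AllPos As)
    (H : chkG d c h F ms As bs = true) : Pos F := by
  intro v hv
  have key : ∀ x : ℝ, 0 < x → 0 ≤ ev (fun j => v j + x) F 0 := by
    intro x hx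
    have hp : ∀ i, 0 < v i + x := fun i => add_pos_of_nonneg_of_pos (hv i) hx
    have h1 := (pos_of H _ (fun i => (hp i).le)).trans (ev_subA (fun i => (hp i).le) As hA _)
    simp only [ev_fma, ev, Int.cast_one, one_mul, add_zero] at h1
    exact nonneg_of_mul_nonneg_right h1 ((mulT_pos _ hp d ms).2 hm) |> fun h => h
  have h2 : Filter.Tendsto (fun x : ℝ => ev (fun j => v j + x) F 0) (nhdsWithin 0 (Set.Ioi 0))
      (nhds (ev (fun j => v j + 0) F 0)) :=
    ((ev_cont v F 0).tendsto 0).mono_left nhdsWithin_le_nhds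
  have h3 := ge_of_tendsto h2 (eventually_nhdsWithin_of_forall fun x hx => key x hx)
  simpa using h3

noncomputable def ttG (n : ℕ) (L : List ℕ) (t1 t2 t3 s1 s2 s3 : ℕ) : P :=
  (fun g : ℕ → P => isoT n (g t1) (g t2) (g t3))
    ((fun X i => isoT (Nat.add n 2) (dlG n L X i s1) (dlG n L X i s2) (dlG n L X i s3))
      (Nat.lor (Nat.pow 2 t1) (Nat.pow 2 s1)))

theorem oblTT_G {n : ℕ} {L : List ℕ} {t1 t2 t3 s1 s2 s3 : ℕ} (h0 : t1 < n ∧ s1 < n)
    (h : Pos (ttG n L t1 t2 t3 s1 s2 s3)) : OblTT n L t1 t2 t3 s1 s2 s3 := by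
  intro y b c b' c' hy hb hc hb' hc' h1 h2
  have hv : ∀ i, 0 ≤ vals n y b c b' c' i := by
    intro i; unfold vals; split_ifs <;> first | exact hy i | assumption
  have h3 := h _ hv
  have h4 : ∀ j < n, vals n y b c b' c' j = y j := fun j hj => by simp [vals, hj]
  have e : Nat.add n 2 = n + 2 := rfl
  simp only [ttG, ev_isoT, ev_dlG, ev_dlT _ y n L _ _ _ h4 (kill2 h0.1 h0.2 h1 h2), e] at h3
  have v0 : vals n y b c b' c' n = b := by simp [vals]
  have v1 : vals n y b c b' c' (n + 1) = c := by simp [vals]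
  have v2 : vals n y b c b' c' (n + 2) = b' := by simp [vals]
  have v3 : vals n y b c b' c' (n + 2 + 1) = c' := by
    unfold vals
    rw [if_neg (by omega), if_neg (by omega), if_neg (by omega), if_neg (by omega)]
  rw [v0, v1, v2, v3] at h3
  exact h3

noncomputable def teG (n : ℕ) (L : List ℕ) (t1 t2 t3 e : ℕ) : P :=
  (fun g : ℕ → P => isoT n (g t1) (g t2) (g t3))
    ((fun X i => dlG n L X i e) (Nat.lor (Nat.pow 2 t1) (Nat.pow 2 e)))

theorem oblTE_G {n : ℕ} {L : List ℕ} {t1 t2 t3 e : ℕ} (h0 : t1 < n ∧ e < n)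
    (h : Pos (teG n L t1 t2 t3 e)) : OblTE n L t1 t2 t3 e := by
  intro y b c hy hb hc h1 h2
  have hv : ∀ i, 0 ≤ vals n y b c 0 0 i := by
    intro i; unfold vals; split_ifs <;> first | exact hy i | assumption | exact le_rfl
  have h3 := h _ hv
  have h4 : ∀ j < n, vals n y b c 0 0 j = y j := fun j hj => by simp [vals, hj]
  simp only [teG, ev_isoT, ev_dlG, ev_dlT _ y n L _ _ _ h4 (kill2 h0.1 h0.2 h1 h2)] at h3
  have v0 : vals n y b c 0 0 n = b := by simp [vals]
  have v1 : vals n y b c 0 0 (n + 1) = c := by simp [vals]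
  rw [v0, v1] at h3
  exact h3

theorem oblEE_G {n : ℕ} {L : List ℕ} {e f : ℕ} (h : Pos (dlG n L 0 e f))
    (y : ℕ → ℝ) (hy : ∀ i, 0 ≤ y i) : 0 ≤ Dl n L e f y := by
  have h3 := h _ hy
  rwa [ev_dlG, ev_dlT y y n L 0 e f (fun _ _ => rfl) (by simp)] at h3

noncomputable def ddG (n : ℕ) (L : List ℕ) (t1 t2 t3 : ℕ) : P :=
  (fun m => (fun a b c => prd (-4) (bsS n m (Nat.lor (Nat.pow 2 t1) (Nat.pow 2 t2)) 0 L)
      (bsS n m 0 0 L) (prd 2 a b (prd 2 a c (prd 2 b c
        (prd (-1) a a (prd (-1) b b (prd (-1) c c P.z)))))))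
    (bsS n m (Nat.pow 2 t1) 0 L) (bsS n m (Nat.pow 2 t2) 0 L) (bsS n m (Nat.pow 2 t3) 0 L))
    (Nat.lor (Nat.lor (Nat.pow 2 t1) (Nat.pow 2 t2)) (Nat.pow 2 t3))

theorem oblD_G {n : ℕ} {L : List ℕ} {t1 t2 t3 : ℕ} (h : Pos (ddG n L t1 t2 t3)) :
    OblD n L t1 t2 t3 := by
  intro y hy
  have h3 := h _ hy
  simp only [ddG, ev_prd, ev_bsel y y n _ _ 0 L (fun _ _ => rfl) (by simp), ev] at h3
  have e1 : Nat.pow 2 t1 = 2 ^ t1 := rfl
  have e2 : Nat.pow 2 t2 = 2 ^ t2 := rfl
  have e3 : Nat.pow 2 t3 = 2 ^ t3 := rfl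
  have e4 : ∀ a b : ℕ, Nat.lor a b = a ||| b := fun _ _ => rfl
  rw [e1, e2, e3] at h3
  simp only [e4] at h3
  push_cast at h3
  simp only
  linarith

end Pool.Agent.Lib.MP_c69b6d_co.F.H
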