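import Pool.Agent.Lib.MP_c69b6d_co.F.M7a
import Pool.Agent.Lib.MP_c69b6d_co.F.Red

/-! The master matroid number 7. -/

namespace Pool.Agent.Lib.MP_c69b6d_co.F

open Finset

set_option maxRecDepth 100000

/-- the automorphisms. -/
def g7 : List (List ℕ) := [[0, 1, 2, 3, 4, 5, 6, 7, 8, 9], [3, 1, 2, 0, 4, 5, 6, 9, 8, 7], [7, 1, 2, 9, 4, 6, 5, 0, 8, 3], [7, 2, 1, 9, 4, 5, 6, 0, 8, 3], [0, 5, 6, 3, 4, 1, 2, 9, 8, 7], [9, 1, 2, 7, 4, 6, 5, 3, 8, 0], [9, 2, 1, 7, 4, 5, 6, 3, 8, 0], [3, 5, 6, 0, 4, 1, 2, 7, 8, 9], [0, 2, 1, 3, 4, 6, 5, 7, 8, 9], [9, 5, 6, 7, 4, 2, 1, 0, 8, 3], [9, 6, 5, 7, 4, 1, 2, 0, 8, 3], [7, 6, 5, 9, 4, 1, 2, 3, 8, 0], [7, 5, 6, 9, 4, 2, 1, 3, 8, 0], [3, 2, 1, 0, 4, 6, 5, 9, 8, 7], [0, 6, 5, 3, 4, 2, 1, 9, 8, 7], [3, 6, 5, 0, 4, 2, 1, 7, 8, 9]]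

/-- representatives of the orbits of pairs. -/
def q7 : List (ℕ × ℕ) := [(1, 0), (3, 0), (4, 0), (7, 0), (8, 0), (2, 1), (4, 1), (5, 1), (8, 1), (8, 4)]

theorem aut7 : ∀ g ∈ g7, AutOf 10 mB7 (fun i => g.getD i 0) := by
  have h : g7.all (autOK 10 mB7) = true := by decide +kernel
  exact fun g hg => autOf_of_ok (List.all_eq_true.1 h g hg)

theorem rep7 : ∀ p ∈ q7, p.1 < 10 ∧ p.2 < 10 ∧ OblEE 10 mB7 p.1 p.2 := by
  simp only [q7, List.forall_mem_cons, List.not_mem_nil, false_imp_iff, implies_true, and_true]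
  exact ⟨⟨by decide, by decide, m7o0⟩,
    ⟨by decide, by decide, m7o1⟩,
    ⟨by decide, by decide, m7o2⟩,
    ⟨by decide, by decide, m7o3⟩,
    ⟨by decide, by decide, m7o4⟩,
    ⟨by decide, by decide, m7o5⟩,
    ⟨by decide, by decide, m7o6⟩,
    ⟨by decide, by decide, m7o7⟩,
    ⟨by decide, by decide, m7o8⟩,
    ⟨by decide, by decide, m7o9⟩⟩

theorem cover7 : ∀ e < 10, ∀ f < 10, e = f ∨ ∃ g ∈ g7, ∃ p ∈ q7,
    (g.getD p.1 0 = e ∧ g.getD p.2 0 = f) ∨ (g.getD p.1 0 = f ∧ g.getD p.2 0 = e) := by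
  decide +kernel

theorem master7 : Master7 := by
  rintro T T' (⟨e, he, rfl⟩ | h) (⟨f, hf, rfl⟩ | h') -
  · rw [mem_range] at he hf
    by_cases hef : e = f
    · subst hef; exact qf_self _ _ _
    · refine qf_EE he hf hef ?_
      obtain h | ⟨g, hg, p, hp, h⟩ := cover7 e he f hf
      · exact absurd h hef
      · obtain ⟨h1, h2, h3⟩ := rep7 p hp
        have h4 := OblEE.aut (aut7 g hg) h1 h2 h3
        rcases h with ⟨rfl, rfl⟩ | ⟨rfl, rfl⟩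
        · exact h4
        · exact h4.symm
  · exact absurd h' List.not_mem_nil
  · exact absurd h List.not_mem_nil
  · exact absurd h List.not_mem_nil

end Pool.Agent.Lib.MP_c69b6d_co.F
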