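import Pool.Agent.Lib.MP_c69b6d_co.F.Red
import Pool.Agent.Lib.MP_c69b6d_co.F.M8d
import Pool.Agent.Lib.MP_c69b6d_co.F.M8e

/-! The eighth master. -/

namespace Pool.Agent.Lib.MP_c69b6d_co.F

set_option maxRecDepth 100000

def g8 : List (List ℕ) := [
    [0, 1, 2, 3, 4, 5, 6, 7, 8, 9, 10], [4, 1, 0, 2, 5, 3, 7, 10, 6, 8, 9],
    [6, 1, 0, 2, 5, 7, 3, 8, 4, 10, 9], [7, 1, 0, 2, 8, 3, 4, 9, 6, 5, 10],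
    [3, 1, 0, 2, 10, 7, 6, 9, 4, 5, 8], [5, 1, 0, 4, 8, 2, 10, 6, 7, 9, 3],
    [10, 1, 0, 3, 5, 2, 9, 4, 6, 8, 7], [8, 1, 0, 7, 5, 2, 9, 6, 4, 10, 3],
    [9, 1, 0, 7, 10, 2, 8, 3, 4, 5, 6], [2, 1, 3, 0, 5, 10, 6, 8, 9, 4, 7],
    [4, 1, 5, 0, 3, 6, 10, 9, 8, 2, 7], [6, 1, 5, 0, 7, 4, 8, 9, 10, 2, 3],
    [7, 1, 8, 0, 3, 6, 9, 10, 5, 2, 4], [3, 1, 10, 0, 7, 4, 9, 8, 5, 2, 6],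
    [5, 1, 8, 0, 2, 7, 6, 3, 9, 4, 10], [10, 1, 5, 0, 2, 6, 4, 7, 8, 3, 9],
    [9, 1, 10, 0, 2, 4, 3, 6, 5, 7, 8], [2, 1, 7, 0, 5, 8, 4, 10, 9, 6, 3],
    [4, 1, 7, 0, 3, 9, 2, 6, 8, 10, 5], [6, 1, 3, 0, 7, 9, 2, 4, 10, 8, 5],
    [8, 1, 9, 0, 2, 3, 7, 4, 10, 6, 5], [2, 1, 6, 0, 10, 5, 3, 9, 8, 4, 7],
    [4, 1, 10, 0, 6, 3, 5, 8, 9, 2, 7], [6, 1, 8, 0, 4, 7, 5, 10, 9, 2, 3],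
    [7, 1, 9, 0, 6, 3, 8, 5, 10, 2, 4], [3, 1, 9, 0, 4, 7, 10, 5, 8, 2, 6],
    [2, 1, 4, 0, 8, 5, 7, 9, 10, 6, 3], [5, 1, 2, 3, 10, 0, 8, 7, 6, 9, 4],
    [3, 1, 4, 5, 6, 0, 9, 7, 10, 8, 2], [7, 1, 6, 5, 4, 0, 9, 3, 8, 10, 2],
    [3, 1, 7, 8, 6, 0, 10, 4, 9, 5, 2], [2, 1, 10, 5, 6, 0, 7, 9, 4, 8, 3],
    [2, 1, 8, 5, 4, 0, 3, 9, 6, 10, 7], [2, 1, 9, 10, 4, 0, 6, 8, 3, 5, 7],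
    [9, 1, 4, 2, 3, 0, 8, 5, 7, 6, 10], [9, 1, 6, 2, 7, 0, 10, 5, 3, 4, 8],
    [10, 1, 7, 2, 3, 0, 5, 8, 4, 6, 9], [8, 1, 3, 2, 7, 0, 5, 10, 6, 4, 9],
    [3, 1, 5, 4, 2, 0, 9, 8, 10, 7, 6], [6, 1, 4, 10, 3, 0, 8, 7, 5, 9, 2],
    [7, 1, 5, 6, 2, 0, 9, 10, 8, 3, 4], [6, 1, 10, 4, 2, 0, 8, 9, 5, 7, 3],
    [4, 1, 8, 6, 2, 0, 10, 9, 5, 3, 7], [9, 1, 5, 6, 3, 0, 7, 4, 8, 2, 10],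
    [8, 1, 10, 4, 7, 0, 6, 3, 5, 2, 9]]

theorem g8_ok : g8.all (autOK 11 mB8) = true := by decide +kernel

theorem master8 : Master8 := by
  refine cl_of_cover [({1}, {0}), ({2}, {0})] (g8.map fun g i => g.getD i 0) ?_ ?_ ?_
  · intro g hg
    obtain ⟨l, hl, rfl⟩ := List.mem_map.1 hg
    exact autOf_of_ok (List.all_eq_true.1 g8_ok l hl)
  · intro p hp
    simp only [List.mem_cons, List.not_mem_nil, or_false] at hp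
    rcases hp with rfl | rfl
    exacts [⟨by decide, by decide, qf_EE (by decide) (by decide) (by decide) Kr.oblA⟩,
      ⟨by decide, by decide, qf_EE (by decide) (by decide) (by decide) Kr.oblB⟩]
  · decide +kernel

end Pool.Agent.Lib.MP_c69b6d_co.F
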