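import Pool.Agent.Lib.MP_c69b6d_co.F.Obl

/-! A fast checker for Gram matrix certificates, by Kronecker substitution. -/

namespace Pool.Agent.Lib.MP_c69b6d_co.F.Kr

open Finset

/-- the slot of the square free monomial `S`; `u` lists the variables in slot order. -/
noncomputable def key (u : List ℕ) (S : ℕ) : ℕ :=
  List.rec (motive := fun _ => ℕ) 0
    (fun v _ r => Nat.add (Nat.mod (Nat.shiftRight S v) 2) (Nat.mul 4 r)) u

noncomputable def mon : List ℝ → List ℕ → ℕ → ℝ
  | z :: zs, v :: u, S => (if S.testBit v then z else 1) * mon zs u S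
  | [], _, _ => 1
  | _ :: _, [], _ => 1

noncomputable def mv : List ℝ → ℕ → ℝ
  | [], _ => 1
  | z :: zs, k => z ^ (k % 4) * mv zs (k / 4)

theorem mv_zero (zs : List ℝ) : mv zs 0 = 1 := by
  induction zs with
  | nil => rfl
  | cons z zs ih => simp [mv, ih]

theorem mv_nonneg (zs : List ℝ) (h : ∀ z ∈ zs, 0 ≤ z) (k : ℕ) : 0 ≤ mv zs k := by
  induction zs generalizing k with
  | nil => simp [mv]
  | cons z zs ih =>
    exact mul_nonneg (pow_nonneg (h z (by simp)) _) (ih (fun w hw => h w (by simp [hw])) _)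

theorem mon_nonneg (zs : List ℝ) (h : ∀ z ∈ zs, 0 ≤ z) (u : List ℕ) (S : ℕ) : 0 ≤ mon zs u S := by
  induction zs generalizing u with
  | nil => simp [mon]
  | cons z zs ih =>
    cases u with
    | nil => simp [mon]
    | cons v u =>
      refine mul_nonneg ?_ (ih (fun w hw => h w (by simp [hw])) _)
      split_ifs
      · exact h z (by simp)
      · exact zero_le_one

theorem key_cons (v : ℕ) (u : List ℕ) (S : ℕ) :
    key (v :: u) S = (if S.testBit v then 1 else 0) + 4 * key u S := by
  have : key (v :: u) S = (S >>> v) % 2 + 4 * key u S := rfl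
  rw [this, Nat.testBit_eq_decide_div_mod_eq, Nat.shiftRight_eq_div_pow]
  rcases Nat.mod_two_eq_zero_or_one (S / 2 ^ v) with h | h <;> simp [h]

theorem mv_key (zs : List ℝ) (u : List ℕ) (a b c : ℕ) :
    mv zs (key u a + key u b + key u c) = mon zs u a * mon zs u b * mon zs u c := by
  induction zs generalizing u with
  | nil => simp [mv, mon]
  | cons z zs ih =>
    cases u with
    | nil =>
      have : ∀ S, key [] S = 0 := fun _ => rfl
      simp [this, mon, mv_zero]
    | cons v u =>
      simp only [key_cons, mv, mon]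
      have h : ∀ x y w : ℕ, x ≤ 1 → y ≤ 1 → w ≤ 1 →
          z ^ ((x + 4 * key u a + (y + 4 * key u b) + (w + 4 * key u c)) % 4) *
            mv zs ((x + 4 * key u a + (y + 4 * key u b) + (w + 4 * key u c)) / 4) =
          z ^ (x + y + w) * (mon zs u a * mon zs u b * mon zs u c) := by
        intro x y w hx hy hw
        rw [← ih u]
        congr 2 <;> omega
      rw [h _ _ _ (by split_ifs <;> simp) (by split_ifs <;> simp) (by split_ifs <;> simp)]
      split_ifs <;> ring

theorem mon_map (y : ℕ → ℝ) (u : List ℕ) (S : ℕ) :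
    mon (u.map y) u S = (u.map fun i => if S.testBit i then y i else 1).prod := by
  induction u with
  | nil => simp [mon]
  | cons v u ih => simp [mon, ih]

theorem mon_perm (y : ℕ → ℝ) {u : List ℕ} {n : ℕ} (h : u.Perm (List.range n)) (S : ℕ) :
    mon (u.map y) u S = ∏ i ∈ range n, if S.testBit i then y i else 1 := by
  rw [mon_map, (h.map _).prod_eq]; rfl

/-- `N` and `v` are the values of one polynomial with coefficients at most `n`. -/
def Rep (w : ℕ) (zs : List ℝ) (N : ℤ) (v : ℝ) (n : ℕ) : Prop :=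
  ∃ (C : ℕ → ℤ) (M0 : ℕ), (∀ k, |C k| ≤ n) ∧ ∀ M, M0 ≤ M →
    N = ∑ k ∈ range M, C k * 2 ^ (w * k) ∧ v = ∑ k ∈ range M, C k * mv zs k

variable {w : ℕ} {zs : List ℝ}

theorem Rep.zero : Rep w zs 0 0 0 := ⟨fun _ => 0, 0, by simp, by simp⟩

theorem Rep.add {N N' : ℤ} {v v' : ℝ} {n n' : ℕ} (h : Rep w zs N v n) (h' : Rep w zs N' v' n') :
    Rep w zs (N + N') (v + v') (n + n') := by
  obtain ⟨C, M, h1, h2⟩ := h
  obtain ⟨C', M', h1', h2'⟩ := h'
  refine ⟨fun k => C k + C' k, max M M', fun k => ?_, fun K hK => ?_⟩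
  · push_cast; exact (abs_add_le _ _).trans (add_le_add (h1 k) (h1' k))
  · obtain ⟨a, b⟩ := h2 K (le_trans (le_max_left _ _) hK)
    obtain ⟨a', b'⟩ := h2' K (le_trans (le_max_right _ _) hK)
    rw [a, a', b, b', ← sum_add_distrib, ← sum_add_distrib]
    exact ⟨sum_congr rfl fun k _ => by ring, sum_congr rfl fun k _ => by push_cast; ring⟩

theorem Rep.neg {N : ℤ} {v : ℝ} {n : ℕ} (h : Rep w zs N v n) : Rep w zs (-N) (-v) n := by
  obtain ⟨C, M, h1, h2⟩ := h
  refine ⟨fun k => - C k, M, fun k => by rw [abs_neg]; exact h1 k, fun K hK => ?_⟩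
  obtain ⟨a, b⟩ := h2 K hK
  rw [a, b, ← sum_neg_distrib, ← sum_neg_distrib]
  exact ⟨sum_congr rfl fun k _ => by ring, sum_congr rfl fun k _ => by push_cast; ring⟩

theorem Rep.single (c k : ℕ) : Rep w zs (c * 2 ^ (w * k)) (c * mv zs k) c := by
  refine ⟨fun j => if j = k then c else 0, k + 1, fun j => ?_, fun K hK => ?_⟩
  · beta_reduce; split_ifs <;> simp
  · have : k ∈ range K := mem_range.2 hK
    constructor
    · rw [sum_eq_single_of_mem k this (fun j _ hj => by simp [hj])]; simp
    · rw [sum_eq_single_of_mem k this (fun j _ hj => by simp [hj])]; simp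

theorem digits_zero (B : ℤ) (hB : 0 < B) (M : ℕ) (E : ℕ → ℤ) (h : ∀ k, |E k| < B)
    (h0 : ∑ k ∈ range M, E k * B ^ k = 0) : ∀ k < M, E k = 0 := by
  induction M generalizing E with
  | zero => simp
  | succ M ih =>
    rw [sum_range_succ'] at h0
    have e : ∑ k ∈ range M, E (k + 1) * B ^ (k + 1) = B * ∑ k ∈ range M, E (k + 1) * B ^ k := by
      rw [mul_sum]; exact sum_congr rfl fun k _ => by ring
    rw [e] at h0
    have h1 : E 0 = 0 := by
      refine Int.eq_zero_of_abs_lt_dvd (m := B) ⟨-∑ k ∈ range M, E (k + 1) * B ^ k, ?_⟩ (h 0)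
      linear_combination h0
    have h2 : ∑ k ∈ range M, E (k + 1) * B ^ k = 0 := by
      rw [h1] at h0
      simpa [hB.ne'] using h0
    intro k hk
    cases k with
    | zero => exact h1
    | succ k => exact ih (fun k => E (k + 1)) (fun k => h _) h2 k (by omega)

/-- `N` has `m` digits, all below one half of the base. -/
def Good (w : ℕ) (N : ℤ) (m : ℕ) : Prop :=
  ∃ D : ℕ → ℕ, (∀ k, 2 * D k < 2 ^ w) ∧ N = ∑ k ∈ range m, (D k : ℤ) * 2 ^ (w * k)

theorem Good.mono {N : ℤ} {m m' : ℕ} (h : Good w N m) (hm : m ≤ m') : Good w N m' := by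
  obtain ⟨D, h1, h2⟩ := h
  refine ⟨fun k => if k < m then D k else 0, fun k => ?_, ?_⟩
  · beta_reduce; split_ifs
    · exact h1 k
    · simp
  · rw [h2, ← sum_subset (range_subset_range.2 hm)]
    · exact sum_congr rfl fun k hk => by simp [mem_range.1 hk]
    · intro k _ hk; simp [mem_range.not.1 hk]

theorem Good.app {N N' : ℤ} {m m' : ℕ} (h : Good w N m) (h' : Good w N' m') :
    Good w (N + 2 ^ (w * m) * N') (m + m') := by
  obtain ⟨D, h1, h2⟩ := h
  obtain ⟨D', h1', h2'⟩ := h'
  refine ⟨fun k => if k < m then D k else D' (k - m), fun k => ?_, ?_⟩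
  · beta_reduce; split_ifs
    · exact h1 k
    · exact h1' _
  · rw [sum_range_add, h2, h2', mul_sum]
    congr 1
    · exact sum_congr rfl fun k hk => by simp [mem_range.1 hk]
    · refine sum_congr rfl fun k _ => ?_
      simp only [add_lt_iff_neg_left, not_lt_zero, if_false, add_tsub_cancel_left, mul_add, pow_add]
      ring

theorem Rep.nonneg {N : ℤ} {v : ℝ} {n m : ℕ} (h : Rep w zs N v n) (hn : 2 * n ≤ 2 ^ w)
    (hg : Good w N m) (hz : ∀ z ∈ zs, 0 ≤ z) : 0 ≤ v := by
  obtain ⟨C, M, h1, h2⟩ := h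
  obtain ⟨D, h3, h4⟩ := hg.mono (le_max_right M m)
  obtain ⟨h5, h6⟩ := h2 _ (le_max_left M m)
  have h7 := digits_zero (2 ^ w) (by positivity) (max M m) (fun k => C k - D k) (fun k => by
    have a1 := abs_le.1 (h1 k)
    have a2 : (2 : ℤ) * D k < 2 ^ w := by exact_mod_cast h3 k
    have a3 : (2 : ℤ) * n ≤ 2 ^ w := by exact_mod_cast hn
    have a4 : (0 : ℤ) ≤ D k := by positivity
    have a5 : (0 : ℤ) < 2 ^ w := by positivity
    rw [abs_lt]; constructor <;> linarith [a1.1, a1.2]) (by
    simp only [sub_mul, sum_sub_distrib, ← pow_mul]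
    rw [← h5, ← h4, sub_self])
  rw [h6]
  refine sum_nonneg fun k hk => mul_nonneg ?_ (mv_nonneg zs hz k)
  have := h7 k (mem_range.1 hk)
  have h8 : C k = D k := by linarith
  rw [h8]; positivity

/-- the mask of the top bits of `n` digits of `w + 1` bits. -/
noncomputable def mask (w n : ℕ) : ℕ :=
  Nat.rec (motive := fun _ => ℕ) 0
    (fun _ r => Nat.add (Nat.pow 2 w) (Nat.shiftLeft r (Nat.succ w))) n

theorem good_of_mask (w n d : ℕ) (h1 : d >>> ((w + 1) * n) = 0) (h2 : d &&& mask w n = 0) :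
    Good (w + 1) d n := by
  induction n generalizing d with
  | zero =>
    have : d = 0 := by simpa using h1
    exact ⟨fun _ => 0, by simp, by simp [this]⟩
  | succ n ih =>
    have e : mask w (n + 1) = 2 ^ w + mask w n <<< (w + 1) := rfl
    have e2 : mask w (n + 1) = 2 ^ (w + 1) * mask w n + 2 ^ w := by
      rw [e, Nat.shiftLeft_eq]; ring
    have hw : 2 ^ w < 2 ^ (w + 1) := Nat.pow_lt_pow_right (by norm_num) (by omega)
    have a1 : (d / 2 ^ (w + 1)) &&& mask w n = 0 := by
      have := congrArg (· / 2 ^ (w + 1)) h2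
      simp only [Nat.and_div_two_pow, Nat.zero_div] at this
      rwa [e2, Nat.mul_add_div (by positivity), Nat.div_eq_of_lt hw, add_zero] at this
    have a2 : (d / 2 ^ (w + 1)) >>> ((w + 1) * n) = 0 := by
      rw [Nat.shiftRight_eq_div_pow] at h1 ⊢
      rw [Nat.div_div_eq_div_mul, ← pow_add, ← h1]; congr 2; ring
    have a3 : d.testBit w = false := by
      have := congrArg (fun x => Nat.testBit x w) h2
      simp only [Nat.testBit_and, e2, Nat.zero_testBit,
        Nat.testBit_two_pow_mul_add _ hw, Nat.lt_succ_self, if_true, Nat.testBit_two_pow_self,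
        Bool.and_true] at this
      exact this
    have a4 : d % 2 ^ (w + 1) < 2 ^ w := by
      refine Nat.lt_pow_two_of_testBit _ fun i hi => ?_
      rw [Nat.testBit_mod_two_pow]
      rcases Nat.eq_or_lt_of_le hi with rfl | h
      · simp [a3]
      · simp [show ¬ i < w + 1 by omega]
    have g1 : Good (w + 1) ((d % 2 ^ (w + 1) : ℕ) : ℤ) 1 :=
      ⟨fun _ => d % 2 ^ (w + 1), fun _ => by
        show 2 * (d % 2 ^ (w + 1)) < 2 ^ (w + 1)
        rw [pow_succ' 2 w] at a4 ⊢; omega, by simp⟩
    have g2 := g1.app (ih _ a2 a1)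
    rw [add_comm 1 n, mul_one] at g2
    have e3 : (d : ℤ) = ((d % 2 ^ (w + 1) : ℕ) : ℤ) + 2 ^ (w + 1) * ((d / 2 ^ (w + 1) : ℕ) : ℤ) := by
      exact_mod_cast (Nat.mod_add_div d (2 ^ (w + 1))).symm
    rw [e3]; exact g2

inductive T
  | leaf : ℕ → T
  | node : T → T → T

def val (s : ℕ) : T → ℕ → ℕ
  | T.leaf x, _ => x
  | T.node l r, m => val s l (m / 2) + 2 ^ (s * m) * val s r (m / 2)

noncomputable def full (d : ℕ) : T :=
  Nat.rec (motive := fun _ => T) (T.leaf 0) (fun _ r => T.node r r) d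

theorem val_full (s d m : ℕ) : val s (full d) m = 0 := by
  induction d generalizing m with
  | zero => rfl
  | succ d ih =>
    have : full (d + 1) = T.node (full d) (full d) := rfl
    rw [this]; simp [val, ih]

/-- add `y` to the leaf number `h`. -/
noncomputable def insK (s : ℕ) (t : T) : ℕ → ℕ → ℕ → (T → Bool) → Bool :=
  T.rec (motive := fun _ => ℕ → ℕ → ℕ → (T → Bool) → Bool)
    (fun x _ h y k => Bool.rec (motive := fun _ => Bool)
      (k (T.leaf (Nat.add x (Nat.shiftLeft y (Nat.mul s h))))) (k (T.leaf (Nat.add x y)))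
      (Nat.beq h 0))
    (fun l r fl fr m h y k => Bool.rec (motive := fun _ => Bool)
      (fl (Nat.div m 2) h y (fun l' => k (T.node l' r)))
      (fr (Nat.div m 2) (Nat.sub h m) y (fun r' => k (T.node l r'))) (Nat.ble m h)) t

theorem insK_spec (s : ℕ) (t : T) (m h y : ℕ) :
    ∃ t', (∀ k, insK s t m h y k = k t') ∧ val s t' m = val s t m + y * 2 ^ (s * h) := by
  induction t generalizing m h with
  | leaf x =>
    cases hh : Nat.beq h 0
    · refine ⟨T.leaf (x + y <<< (s * h)), fun k => ?_, by simp [val, Nat.shiftLeft_eq]⟩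
      show Bool.rec (motive := fun _ => Bool) _ _ (Nat.beq h 0) = _
      rw [hh]; rfl
    · have := Nat.eq_of_beq_eq_true hh
      subst this
      exact ⟨T.leaf (x + y), fun k => rfl, by simp [val]⟩
  | node l r ihl ihr =>
    cases hh : Nat.ble m h
    · obtain ⟨l', h1, h2⟩ := ihl (m / 2) h
      refine ⟨T.node l' r, fun k => ?_, by simp only [val, h2]; ring⟩
      show Bool.rec (motive := fun _ => Bool) _ _ (Nat.ble m h) = _
      rw [hh]; exact h1 _
    · obtain ⟨r', h1, h2⟩ := ihr (m / 2) (h - m)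
      have h3 := Nat.le_of_ble_eq_true hh
      refine ⟨T.node l r', fun k => ?_, ?_⟩
      · show Bool.rec (motive := fun _ => Bool) _ _ (Nat.ble m h) = _
        rw [hh]; exact h1 _
      · simp only [val, h2]
        have : s * h = s * m + s * (h - m) := by rw [← mul_add]; congr 1; omega
        rw [this, pow_add]; ring

/-- the final test. -/
noncomputable def fin (s mk : ℕ) (p : T) : T → ℕ → Bool :=
  T.rec (motive := fun _ => T → ℕ → Bool)
    (fun x n _ => T.rec (motive := fun _ => Bool)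
      (fun y => Bool.rec (motive := fun _ => Bool) false
        (Bool.rec (motive := fun _ => Bool) false (Nat.beq (Nat.land (Nat.sub x y) mk) 0)
          (Nat.beq (Nat.shiftRight (Nat.sub x y) s) 0)) (Nat.ble y x))
      (fun _ _ _ _ => false) n)
    (fun _ _ fl fr n m => T.rec (motive := fun _ => Bool) (fun _ => false)
      (fun l' r' _ _ => Bool.rec (motive := fun _ => Bool) false
        (Bool.rec (motive := fun _ => Bool) false (fr r' (Nat.div m 2)) (fl l' (Nat.div m 2)))
        (Nat.ble 1 m)) n) p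

theorem bool_and {a b : Bool} (h : Bool.rec (motive := fun _ => Bool) false a b = true) :
    a = true ∧ b = true := by cases b <;> simp_all

theorem fin_spec (w M : ℕ) (p n : T) (m : ℕ)
    (h : fin ((w + 1) * M) (mask w M) p n m = true) :
    Good (w + 1) ((val ((w + 1) * M) p m : ℤ) - val ((w + 1) * M) n m) (M * max 1 (2 * m)) := by
  induction p generalizing n m with
  | leaf x =>
    cases n with
    | node _ _ => exact absurd h (by simp [fin])
    | leaf y =>
      obtain ⟨h1, h2⟩ := bool_and h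
      obtain ⟨h3, h4⟩ := bool_and h1
      have h5 := good_of_mask w M (x - y) (Nat.eq_of_beq_eq_true h4) (Nat.eq_of_beq_eq_true h3)
      rw [Nat.cast_sub (Nat.le_of_ble_eq_true h2)] at h5
      exact h5.mono (Nat.le_mul_of_pos_right _ (by omega))
  | node l r ihl ihr =>
    cases n with
    | leaf _ => exact absurd h (by simp [fin])
    | node l' r' =>
      obtain ⟨h1, h2⟩ := bool_and h
      obtain ⟨h3, h4⟩ := bool_and h1
      have h5 := Nat.le_of_ble_eq_true h2
      have h6 : M * max 1 (2 * (m / 2)) ≤ M * m := Nat.mul_le_mul_left _ (by omega)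
      have h7 := ((ihl l' (m / 2) h4).mono h6).app ((ihr r' (m / 2) h3).mono h6)
      have e : ((val ((w + 1) * M) (T.node l r) m : ℕ) : ℤ) - val ((w + 1) * M) (T.node l' r') m =
          (val ((w + 1) * M) l (m / 2) : ℤ) - val ((w + 1) * M) l' (m / 2) +
            2 ^ ((w + 1) * (M * m)) *
              ((val ((w + 1) * M) r (m / 2) : ℤ) - val ((w + 1) * M) r' (m / 2)) := by
        simp only [val, mul_assoc]; push_cast; ring
      rw [e]
      refine h7.mono ?_
      rw [← mul_add]; exact Nat.mul_le_mul_left _ (by omega)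

noncomputable def force (x : ℕ) (f : ℕ → Bool) : Bool :=
  Nat.rec (motive := fun _ => Bool) (f 0) (fun j _ => f (Nat.succ j)) x

theorem force_eq (x : ℕ) (f : ℕ → Bool) : force x f = f x := by cases x <;> rfl

end Pool.Agent.Lib.MP_c69b6d_co.F.Kr
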