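import Pool.Agent.Lib.MP_c69b6d_co.F.M8a

/-! The positivity test for Gram matrices. -/

namespace Pool.Agent.Lib.MP_c69b6d_co.F.Kr

/-- the signed integer with code `c`. -/
noncomputable def sg (c : ℕ) : ℤ :=
  Bool.rec (motive := fun _ => ℤ) (Int.ofNat (Nat.div c 2)) (Int.negOfNat (Nat.div c 2))
    (Nat.beq (Nat.mod c 2) 1)

/-- the sign with code `c`. -/
noncomputable def sn (c : ℕ) : ℝ := if c % 2 = 1 then -1 else 1

theorem sg_eq (c : ℕ) : (sg c : ℝ) = sn c * ((c / 2 : ℕ) : ℝ) := by
  unfold sg sn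
  cases h : Nat.beq (Nat.mod c 2) 1
  · have : ¬ c % 2 = 1 := fun hh => by
      have : Nat.mod c 2 = 1 := hh
      simp [this] at h
    rw [if_neg this, one_mul]; rfl
  · have : c % 2 = 1 := Nat.eq_of_beq_eq_true h
    rw [if_pos this]
    show ((Int.negOfNat (c / 2) : ℤ) : ℝ) = _
    rw [Int.negOfNat_eq, Int.cast_neg, neg_one_mul]; rfl

theorem sg_zero : sg 0 = 0 := rfl

theorem sn_add (a b : ℕ) : sn (a + b) = sn a * sn b := by
  unfold sn
  rcases Nat.mod_two_eq_zero_or_one a with h | h <;>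
    rcases Nat.mod_two_eq_zero_or_one b with h' | h' <;> simp [Nat.add_mod, h, h']

noncomputable def dotP (W : ℕ) : ℕ → List ℝ → ℝ
  | _, [] => 0
  | N, x :: xs => sg (N % W) * x + dotP W (N / W) xs

theorem dotP_zero (W : ℕ) (xs : List ℝ) : dotP W 0 xs = 0 := by
  induction xs with
  | nil => rfl
  | cons x xs ih => simp [dotP, sg_zero, ih]

/-- the quadratic form with packed rows. -/
noncomputable def Qf (W : ℕ) : List ℕ → List ℝ → ℝ
  | N :: rows, x :: xs => x * dotP W N (x :: xs) + Qf W rows xs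
  | [], _ => 0
  | _ :: _, [] => 0

noncomputable def dot (a : List ℤ) : List ℤ → ℤ :=
  List.rec (motive := fun _ => List ℤ → ℤ) (fun _ => Int.ofNat 0)
    (fun x _ r b => List.rec (motive := fun _ => ℤ) (Int.ofNat 0)
      (fun y b' _ => Int.add (Int.mul x y) (r b')) b) a

theorem dot_eq (a b : List ℤ) (K : ℕ) (h : a.length ≤ K) :
    (dot a b : ℝ) = ∑ k ∈ Finset.range K, (a.getD k 0 : ℝ) * (b.getD k 0 : ℝ) := by
  induction a generalizing b K with
  | nil =>
    have : dot [] b = 0 := rfl
    simp [this]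
  | cons x a ih =>
    cases b with
    | nil =>
      have : dot (x :: a) [] = 0 := rfl
      simp [this]
    | cons y b =>
      obtain ⟨K, rfl⟩ : ∃ J, K = J + 1 := ⟨K - 1, by simp at h; omega⟩
      have : dot (x :: a) (y :: b) = x * y + dot a b := rfl
      rw [this, Finset.sum_range_succ']
      push_cast
      rw [ih b K (by simpa using h)]
      simp [add_comm]

/-- the combination of the rows. -/
noncomputable def comb : List (List ℤ) → List ℝ → ℕ → ℝ
  | l :: Ls, x :: xs, k => x * (l.getD k 0 : ℝ) + comb Ls xs k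
  | [], _, _ => 0
  | _ :: _, [], _ => 0

noncomputable def sq : List (List ℤ) → List ℝ → ℝ
  | _ :: Ls, x :: xs => x ^ 2 + sq Ls xs
  | [], _ => 0
  | _ :: _, [] => 0

theorem sq_nonneg' (Ls : List (List ℤ)) (xs : List ℝ) : 0 ≤ sq Ls xs := by
  induction Ls generalizing xs with
  | nil => simp [sq]
  | cons l Ls ih =>
    cases xs with
    | nil => simp [sq]
    | cons x xs => exact add_nonneg (sq_nonneg x) (ih xs)

noncomputable def chkRow (W : ℕ) (c : ℤ) (δ : ℕ) (l : List ℤ) (Ls : List (List ℤ)) : ℕ → Bool :=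
  List.rec (motive := fun _ => ℕ → Bool) (fun N => Nat.beq N 0)
    (fun l' _ r N => Bool.rec (motive := fun _ => Bool) false (r (Nat.div N W))
      (Nat.ble (Int.natAbs (Int.sub (Int.mul c (sg (Nat.mod N W))) (dot l l'))) δ)) Ls

theorem chkRow_spec (W : ℕ) (c : ℤ) (δ : ℕ) (l : List ℤ) (K : ℕ) (hK : l.length ≤ K) (x : ℝ)
    (Ls : List (List ℤ)) (N : ℕ) (xs : List ℝ) (h : chkRow W c δ l Ls N = true) :
    2 * x * ∑ k ∈ Finset.range K, (l.getD k 0 : ℝ) * comb Ls xs k -
      δ * (Ls.length * x ^ 2 + sq Ls xs) ≤ 2 * x * (c * dotP W N xs) := by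
  induction Ls generalizing N xs with
  | nil =>
    have : N = 0 := Nat.eq_of_beq_eq_true h
    simp [this, dotP_zero, comb, sq]
  | cons l' Ls ih =>
    obtain ⟨h1, h2⟩ := bool_and h
    cases xs with
    | nil =>
      simp only [comb, sq, dotP, mul_zero, Finset.sum_const_zero, add_zero, zero_sub,
        Left.neg_nonpos_iff]
      positivity
    | cons z xs =>
      have h3 := ih (N / W) xs h1
      have h4 : ((c * sg (N % W) - dot l l').natAbs : ℤ) ≤ δ := by
        exact_mod_cast Nat.le_of_ble_eq_true h2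
      rw [Int.natCast_natAbs] at h4
      have h5 : |(c : ℝ) * sg (N % W) - dot l l'| ≤ δ := by exact_mod_cast h4
      rw [dot_eq l l' K hK] at h5
      obtain ⟨h6, h7⟩ := abs_le.1 h5
      simp only [comb, sq, dotP, mul_add, Finset.sum_add_distrib, List.length_cons]
      have e : ∑ k ∈ Finset.range K, (l.getD k 0 : ℝ) * (z * (l'.getD k 0 : ℝ)) =
          z * ∑ k ∈ Finset.range K, (l.getD k 0 : ℝ) * (l'.getD k 0 : ℝ) := by
        rw [Finset.mul_sum]; exact Finset.sum_congr rfl fun k _ => by ring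
      rw [e]
      push_cast
      simp only [mul_add] at h3
      nlinarith [mul_nonneg (sub_nonneg.2 h6) (sq_nonneg (x + z)),
        mul_nonneg (sub_nonneg.2 h7) (sq_nonneg (x - z))]

noncomputable def psd (W : ℕ) (c : ℤ) (δ : ℕ) (D : ℤ) (rows : List ℕ) : List (List ℤ) → Bool :=
  List.rec (motive := fun _ => List (List ℤ) → Bool)
    (fun Ls => List.rec (motive := fun _ => Bool) true (fun _ _ _ => false) Ls)
    (fun N _ r Ls => List.rec (motive := fun _ => Bool) false
      (fun l Ls' _ => Bool.rec (motive := fun _ => Bool) false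
        (Bool.rec (motive := fun _ => Bool) false (r Ls') (chkRow W c δ l Ls' (Nat.div N W)))
        (Int.rec (motive := fun _ => Bool) (fun _ => true) (fun _ => false)
          (Int.sub (Int.mul (Int.mul 2 c) (sg (Nat.mod N W))) (Int.add (dot l l) D)))) Ls) rows

theorem psd_spec (W : ℕ) (c : ℤ) (δ : ℕ) (D : ℤ) (K : ℕ) (rows : List ℕ) (Ls : List (List ℤ))
    (hK : ∀ l ∈ Ls, l.length ≤ K) (j : ℕ) (hj : ((Ls.length + j : ℕ) : ℝ) * δ ≤ D + δ) (xs : List ℝ)
    (h : psd W c δ D rows Ls = true) :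
    ∑ k ∈ Finset.range K, comb Ls xs k ^ 2 + j * δ * sq Ls xs ≤ 2 * c * Qf W rows xs := by
  induction rows generalizing Ls j xs with
  | nil =>
    cases Ls with
    | nil => simp [comb, sq, Qf]
    | cons _ _ => exact absurd h (by simp [psd])
  | cons N rows ih =>
    cases Ls with
    | nil => exact absurd h (by simp [psd])
    | cons l Ls =>
      cases xs with
      | nil => simp [comb, sq, Qf]
      | cons x xs =>
        obtain ⟨h1, h2⟩ := bool_and h
        obtain ⟨h3, h4⟩ := bool_and h1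
        have h5 := ih Ls (fun l' hl => hK l' (by simp [hl])) (j + 1)
          (by rw [List.length_cons] at hj; rwa [← add_assoc, add_right_comm]) xs h3
        have h6 := chkRow_spec W c δ l K (hK l (by simp)) x Ls (N / W) xs h4
        have h7 : 0 ≤ 2 * c * sg (N % W) - (dot l l + D) := by
          have : ∀ z : ℤ, Int.rec (motive := fun _ => Bool) (fun _ => true) (fun _ => false) z =
              true → 0 ≤ z := by
            intro z hz
            cases z with
            | ofNat n => exact Int.natCast_nonneg n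
            | negSucc n => exact absurd hz (by simp)
          exact this _ h2
        have h8 : (0 : ℝ) ≤ 2 * c * sg (N % W) - (dot l l + D) := by exact_mod_cast h7
        rw [dot_eq l l K (hK l (by simp))] at h8
        simp only [comb, sq, Qf, dotP]
        have e : ∑ k ∈ Finset.range K, (x * (l.getD k 0 : ℝ) + comb Ls xs k) ^ 2 =
            x ^ 2 * ∑ k ∈ Finset.range K, (l.getD k 0 : ℝ) * (l.getD k 0 : ℝ) +
            2 * x * ∑ k ∈ Finset.range K, (l.getD k 0 : ℝ) * comb Ls xs k +
            ∑ k ∈ Finset.range K, comb Ls xs k ^ 2 := by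
          rw [Finset.mul_sum, Finset.mul_sum, ← Finset.sum_add_distrib, ← Finset.sum_add_distrib]
          exact Finset.sum_congr rfl fun k _ => by ring
        rw [e]
        rw [List.length_cons] at hj
        push_cast at h5 hj
        nlinarith [mul_nonneg h8 (sq_nonneg x), mul_nonneg (sub_nonneg.2 hj) (sq_nonneg x)]

noncomputable def forceI (z : ℤ) (f : ℤ → Bool) : Bool :=
  Int.rec (motive := fun _ => Bool) (fun n => force n (fun n' => f (Int.ofNat n')))
    (fun n => force n (fun n' => f (Int.negSucc n'))) z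

theorem forceI_eq (z : ℤ) (f : ℤ → Bool) : forceI z f = f z := by
  cases z with
  | ofNat n => exact force_eq n (fun n' => f (Int.ofNat n'))
  | negSucc n => exact force_eq n (fun n' => f (Int.negSucc n'))

noncomputable def unpK (W cnt : ℕ) : ℕ → (List ℤ → Bool) → Bool :=
  Nat.rec (motive := fun _ => ℕ → (List ℤ → Bool) → Bool) (fun _ k => k [])
    (fun _ r N k => r (Nat.div N W) (fun l => forceI (sg (Nat.mod N W)) (fun z => k (z :: l)))) cnt

theorem unpK_spec (W cnt N : ℕ) : ∃ l, ∀ k, unpK W cnt N k = k l := by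
  induction cnt generalizing N with
  | zero => exact ⟨[], fun _ => rfl⟩
  | succ cnt ih =>
    obtain ⟨l, h⟩ := ih (N / W)
    exact ⟨sg (N % W) :: l, fun k => (h _).trans (forceI_eq _ _)⟩

noncomputable def unpAll (W : ℕ) (Ns : List ℕ) : (ℕ → List (List ℤ) → Bool) → Bool :=
  List.rec (motive := fun _ => (ℕ → List (List ℤ) → Bool) → Bool) (fun k => k 0 [])
    (fun N _ r k => r (fun n Ls => force (Nat.succ n) (fun n' =>
      unpK W n' N (fun l => k n' (l :: Ls))))) Ns

theorem unpAll_spec (W : ℕ) (Ns : List ℕ) :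
    ∃ Ls : List (List ℤ), ∀ k, unpAll W Ns k = k Ls.length Ls := by
  induction Ns with
  | nil => exact ⟨[], fun _ => rfl⟩
  | cons N Ns ih =>
    obtain ⟨Ls, h⟩ := ih
    obtain ⟨l, h'⟩ := unpK_spec W (Ls.length + 1) N
    exact ⟨l :: Ls, fun k => (h _).trans ((force_eq _ _).trans (h' _))⟩

/-- the test: `rows` are the rows of the form, `Ns` the rows of an approximate Cholesky factor. -/
noncomputable def psdOK (W c δ W' : ℕ) (rows Ns : List ℕ) : Bool :=
  unpAll W' Ns (fun n Ls => psd W (Int.ofNat (Nat.succ c)) δ (Int.ofNat (Nat.mul n δ)) rows Ls)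

theorem Qf_nonneg {W c δ W' : ℕ} {rows Ns : List ℕ} (h : psdOK W c δ W' rows Ns = true)
    (xs : List ℝ) : 0 ≤ Qf W rows xs := by
  obtain ⟨Ls, h1⟩ := unpAll_spec W' Ns
  unfold psdOK at h
  rw [h1] at h
  obtain ⟨K, hK⟩ : ∃ K, ∀ l ∈ Ls, l.length ≤ K :=
    ⟨(Ls.map List.length).sum, fun l hl =>
      List.single_le_sum (by simp) _ (List.mem_map_of_mem hl)⟩
  have h2 := psd_spec W _ δ _ K rows Ls hK 0 (by simp) xs h
  have h3 : (0 : ℝ) ≤ ∑ k ∈ Finset.range K, comb Ls xs k ^ 2 :=
    Finset.sum_nonneg fun k _ => sq_nonneg _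
  have h4 : ((Int.ofNat (Nat.succ c) : ℤ) : ℝ) = c + 1 := by simp
  rw [h4] at h2
  have h5 : (0 : ℝ) < 2 * ((c : ℝ) + 1) := by positivity
  simp only [Nat.cast_zero, zero_mul, add_zero] at h2
  exact nonneg_of_mul_nonneg_right (h3.trans h2) h5 |> fun h => h

end Pool.Agent.Lib.MP_c69b6d_co.F.Kr
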