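import Pool.Agent.Lib.MP_c69b6d_co.F.M8b

/-! The checker for `Dl` with a multiplier and Gram matrix certificates. -/

namespace Pool.Agent.Lib.MP_c69b6d_co.F.Kr

open Finset

/-- the state: two trees and a bound. -/
def Inv (w M m : ℕ) (zs : List ℝ) (p n : T) (b : ℕ) (v : ℝ) : Prop :=
  Rep w zs ((val (w * M) p m : ℤ) - val (w * M) n m) v b

abbrev Ct := T → T → ℕ → Bool

/-- `f` runs through states and adds `d` to the real value. -/
def Step (w M m : ℕ) (zs : List ℝ) (f : T → T → ℕ → Ct → Bool) (d : ℝ) : Prop :=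
  ∀ p n b, ∃ p' n' b', (∀ k, f p n b k = k p' n' b') ∧
    ∀ v, Inv w M m zs p n b v → Inv w M m zs p' n' b' (v + d)

variable {w M m : ℕ} {zs : List ℝ}

theorem Step.nil : Step w M m zs (fun p n b k => k p n b) 0 :=
  fun p n b => ⟨p, n, b, fun _ => rfl, fun v h => by simpa using h⟩

theorem Step.comp {f g : T → T → ℕ → Ct → Bool} {d e : ℝ} (hf : Step w M m zs f d)
    (hg : Step w M m zs g e) :
    Step w M m zs (fun p n b k => f p n b (fun p' n' b' => g p' n' b' k)) (d + e) := by
  intro p n b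
  obtain ⟨p1, n1, b1, h1, h2⟩ := hf p n b
  obtain ⟨p2, n2, b2, h3, h4⟩ := hg p1 n1 b1
  exact ⟨p2, n2, b2, fun k => (h1 _).trans (h3 _), fun v h => by
    rw [← add_assoc]; exact h4 _ (h2 _ h)⟩

theorem Step.congr {f g : T → T → ℕ → Ct → Bool} {d e : ℝ} (hf : Step w M m zs f d)
    (h : ∀ p n b k, g p n b k = f p n b k) (he : d = e) : Step w M m zs g e := by
  have : g = f := by funext p n b k; exact h p n b k
  rw [this, ← he]; exact hf

/-- add `y` at the slot `c`. -/
noncomputable def insC (w M m : ℕ) (t : T) (c y : ℕ) (k : T → Bool) : Bool :=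
  force (Nat.div c M) (fun h =>
    insK (Nat.mul w M) t m h (Nat.shiftLeft y (Nat.mul w (Nat.mod c M))) k)

theorem insC_spec (w M m : ℕ) (t : T) (c y : ℕ) : ∃ t', (∀ k, insC w M m t c y k = k t') ∧
    val (w * M) t' m = val (w * M) t m + y * 2 ^ (w * c) := by
  obtain ⟨t', h1, h2⟩ := insK_spec (w * M) t m (c / M) (y <<< (w * (c % M)))
  refine ⟨t', fun k => (force_eq _ _).trans (h1 k), ?_⟩
  rw [h2, Nat.shiftLeft_eq, mul_assoc, ← pow_add, mul_assoc, ← mul_add, Nat.mod_add_div]

/-- subtract `y` at the slot `c`, with the sign of `σ`. -/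
noncomputable def put (w M m σ c y : ℕ) (p n : T) (b : ℕ) (k : Ct) : Bool :=
  force (Nat.add b y) (fun b' => Bool.rec (motive := fun _ => Bool)
    (insC w M m n c y (fun n' => k p n' b')) (insC w M m p c y (fun p' => k p' n b'))
    (Nat.beq (Nat.mod σ 2) 1))

theorem put_step (σ c y : ℕ) :
    Step w M m zs (put w M m σ c y) (-(sn σ * y * mv zs c)) := by
  intro p n b
  cases h : Nat.beq (Nat.mod σ 2) 1
  · have h0 : ¬ σ % 2 = 1 := fun hh => by
      have : Nat.mod σ 2 = 1 := hh
      simp [this] at h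
    obtain ⟨n', h1, h2⟩ := insC_spec w M m n c y
    refine ⟨p, n', b + y, fun k => ?_, fun v hv => ?_⟩
    · unfold put; rw [force_eq, h]; exact h1 _
    · have := Rep.add hv (Rep.single y c).neg
      unfold Inv sn
      rw [h2, if_neg h0, one_mul]
      push_cast
      rwa [← sub_sub, sub_eq_add_neg (_ - _)]
  · have h0 : σ % 2 = 1 := Nat.eq_of_beq_eq_true h
    obtain ⟨p', h1, h2⟩ := insC_spec w M m p c y
    refine ⟨p', n, b + y, fun k => ?_, fun v hv => ?_⟩
    · unfold put; rw [force_eq, h]; exact h1 _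
    · have := Rep.add hv (Rep.single y c)
      unfold Inv sn
      rw [h2, if_pos h0]
      push_cast
      rwa [add_sub_right_comm, neg_one_mul, neg_mul, neg_neg]

noncomputable def l3 (w M m σ c y : ℕ) (vj : List ℕ) : T → T → ℕ → Ct → Bool :=
  List.rec (motive := fun _ => T → T → ℕ → Ct → Bool) (fun p n b k => k p n b)
    (fun a _ r p n b k => put w M m (Nat.add σ a) (Nat.add c (Nat.div a 2)) y p n b
      (fun p' n' b' => r p' n' b' k)) vj

theorem l3_step (σ c y : ℕ) (vj : List ℕ) : Step w M m zs (l3 w M m σ c y vj)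
    (-(sn σ * y * (vj.map fun a => sn a * mv zs (c + a / 2)).sum)) := by
  induction vj with
  | nil => exact Step.nil.congr (fun _ _ _ _ => rfl) (by simp)
  | cons a vj ih =>
    refine ((put_step (σ + a) (c + a / 2) y).comp ih).congr (fun _ _ _ _ => rfl) ?_
    rw [List.map_cons, List.sum_cons, sn_add]; ring

noncomputable def l2 (w M m t y : ℕ) (vj vi : List ℕ) : T → T → ℕ → Ct → Bool :=
  List.rec (motive := fun _ => T → T → ℕ → Ct → Bool) (fun p n b k => k p n b)
    (fun a _ r p n b k => force (Nat.add t (Nat.div a 2)) (fun c => force (Nat.add y a) (fun σ =>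
      l3 w M m σ c (Nat.div y 2) vj p n b (fun p' n' b' => r p' n' b' k)))) vi

theorem l2_step (t y : ℕ) (vj vi : List ℕ) : Step w M m zs (l2 w M m t y vj vi)
    (-(sg y * (vi.map fun a => sn a *
      (vj.map fun a' => sn a' * mv zs (t + a / 2 + a' / 2)).sum).sum)) := by
  induction vi with
  | nil => exact Step.nil.congr (fun _ _ _ _ => rfl) (by simp)
  | cons a vi ih =>
    refine ((l3_step (y + a) (t + a / 2) (y / 2) vj).comp ih).congr
      (fun p n b k => (force_eq (t + a / 2) (fun c => force (y + a) (fun σ =>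
        l3 w M m σ c (y / 2) vj p n b (fun p' n' b' => l2 w M m t y vj vi p' n' b' k)))).trans
        (force_eq (y + a) _)) ?_
    rw [List.map_cons, List.sum_cons, sn_add, sg_eq]; ring

/-- the code of a signed slot from the code of a signed mask. -/
noncomputable def kc (u : List ℕ) (c : ℕ) : ℕ :=
  Nat.add (Nat.mul 2 (key u (Nat.div c 2))) (Nat.mod c 2)

/-- the value of a signed sum of monomials. -/
noncomputable def xv (zs : List ℝ) (u v : List ℕ) : ℝ := (v.map fun c => sn c * mon zs u (c / 2)).sum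

theorem kc_sn (u : List ℕ) (c : ℕ) : sn (kc u c) = sn c := by
  have : kc u c = 2 * key u (c / 2) + c % 2 := rfl
  unfold sn
  rw [this, Nat.mul_add_mod, Nat.mod_mod]

theorem kc_div (u : List ℕ) (c : ℕ) : kc u c / 2 = key u (c / 2) := by
  have : kc u c = 2 * key u (c / 2) + c % 2 := rfl
  omega

theorem bil (u : List ℕ) (t : ℕ) (vi vj : List ℕ) :
    ((vi.map (kc u)).map fun a => sn a * ((vj.map (kc u)).map fun a' =>
      sn a' * mv zs (key u t + a / 2 + a' / 2)).sum).sum =
      mon zs u t * xv zs u vi * xv zs u vj := by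
  simp only [List.map_map, Function.comp_def, kc_sn, kc_div, mv_key, xv]
  rw [mul_assoc, ← List.sum_map_mul_right, ← List.sum_map_mul_left]
  congr 1
  refine List.map_congr_left fun a _ => ?_
  rw [← List.sum_map_mul_left, ← List.sum_map_mul_left, ← List.sum_map_mul_left]
  congr 1
  exact List.map_congr_left fun a' _ => by ring

noncomputable def l1 (w M m W t : ℕ) (vi : List ℕ) (vs : List (List ℕ)) :
    ℕ → T → T → ℕ → Ct → Bool :=
  List.rec (motive := fun _ => ℕ → T → T → ℕ → Ct → Bool) (fun _ p n b k => k p n b)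
    (fun vj _ r N p n b k => force (Nat.mod N W) (fun y => l2 w M m t y vj vi p n b
      (fun p' n' b' => r (Nat.div N W) p' n' b' k))) vs

theorem l1_step (W : ℕ) (u : List ℕ) (t : ℕ) (vi : List ℕ) (vs : List (List ℕ)) (N : ℕ) :
    Step w M m zs (l1 w M m W (key u t) (vi.map (kc u)) (vs.map (List.map (kc u))) N)
      (-(mon zs u t * (xv zs u vi * dotP W N (vs.map (xv zs u))))) := by
  induction vs generalizing N with
  | nil => exact Step.nil.congr (fun _ _ _ _ => rfl) (by simp [dotP])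
  | cons vj vs ih =>
    refine ((l2_step (key u t) (N % W) (vj.map (kc u)) (vi.map (kc u))).comp (ih (N / W))).congr
      (fun p n b k => force_eq (N % W) (fun y => l2 w M m (key u t) y (vj.map (kc u))
        (vi.map (kc u)) p n b (fun p' n' b' => l1 w M m W (key u t) (vi.map (kc u))
          (vs.map (List.map (kc u))) (N / W) p' n' b' k))) ?_
    rw [bil, List.map_cons, dotP]; ring

noncomputable def l0 (w M m W t : ℕ) (rows : List ℕ) :
    List (List ℕ) → T → T → ℕ → Ct → Bool :=
  List.rec (motive := fun _ => List (List ℕ) → T → T → ℕ → Ct → Bool) (fun _ p n b k => k p n b)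
    (fun N _ r vs p n b k => List.rec (motive := fun _ => Bool) (k p n b)
      (fun vi vs' _ => l1 w M m W t vi (vi :: vs') N p n b
        (fun p' n' b' => r vs' p' n' b' k)) vs) rows

theorem l0_step (W : ℕ) (u : List ℕ) (t : ℕ) (rows : List ℕ) (vs : List (List ℕ)) :
    Step w M m zs (l0 w M m W (key u t) rows (vs.map (List.map (kc u))))
      (-(mon zs u t * Qf W rows (vs.map (xv zs u)))) := by
  induction rows generalizing vs with
  | nil => exact Step.nil.congr (fun _ _ _ _ => rfl) (by simp [Qf])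
  | cons N rows ih =>
    cases vs with
    | nil => exact Step.nil.congr (fun _ _ _ _ => rfl) (by simp [Qf])
    | cons vi vs =>
      refine ((l1_step W u t vi (vi :: vs) N).comp (ih vs)).congr (fun _ _ _ _ => rfl) ?_
      simp only [List.map_cons, Qf]; ring

noncomputable def mapK (g : ℕ → ℕ) (l : List ℕ) : (List ℕ → Bool) → Bool :=
  List.rec (motive := fun _ => (List ℕ → Bool) → Bool) (fun k => k [])
    (fun c _ r k => r (fun l' => force (g c) (fun x => k (x :: l')))) l

theorem mapK_eq (g : ℕ → ℕ) (l : List ℕ) (k : List ℕ → Bool) : mapK g l k = k (l.map g) := by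
  induction l generalizing k with
  | nil => rfl
  | cons c l ih => exact (ih _).trans (force_eq _ _)

noncomputable def mapK2 (g : ℕ → ℕ) (l : List (List ℕ)) : (List (List ℕ) → Bool) → Bool :=
  List.rec (motive := fun _ => (List (List ℕ) → Bool) → Bool) (fun k => k [])
    (fun c _ r k => r (fun l' => mapK g c (fun x => k (x :: l')))) l

theorem mapK2_eq (g : ℕ → ℕ) (l : List (List ℕ)) (k : List (List ℕ) → Bool) :
    mapK2 g l k = k (l.map (List.map g)) := by
  induction l generalizing k with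
  | nil => rfl
  | cons c l ih => exact (ih _).trans (mapK_eq _ _ _)

/-- `f` runs through states and lowers the real value. -/
def Down (w M m : ℕ) (zs : List ℝ) (f : T → T → ℕ → Ct → Bool) : Prop :=
  ∃ d ≤ 0, Step w M m zs f d

/-- one block, for all slot orders in `us`. -/
noncomputable def blk (w M m W t : ℕ) (vs : List (List ℕ)) (rows : List ℕ) (us : List (List ℕ)) :
    T → T → ℕ → Ct → Bool :=
  List.rec (motive := fun _ => T → T → ℕ → Ct → Bool) (fun p n b k => k p n b)
    (fun u _ r p n b k => force (key u t) (fun t' => mapK2 (kc u) vs (fun ks =>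
      l0 w M m W t' rows ks p n b (fun p' n' b' => r p' n' b' k)))) us

theorem blk_down (hz : ∀ z ∈ zs, 0 ≤ z) (W t : ℕ) (vs : List (List ℕ)) (rows : List ℕ)
    (hq : ∀ xs, 0 ≤ Qf W rows xs) (us : List (List ℕ)) :
    Down w M m zs (blk w M m W t vs rows us) := by
  induction us with
  | nil => exact ⟨0, le_rfl, Step.nil⟩
  | cons u us ih =>
    obtain ⟨d, h1, h2⟩ := ih
    refine ⟨_, ?_, ((l0_step W u t rows vs).comp h2).congr
      (fun p n b k => (force_eq (key u t) (fun t' => mapK2 (kc u) vs (fun ks =>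
        l0 w M m W t' rows ks p n b (fun p' n' b' => blk w M m W t vs rows us p' n' b' k)))).trans
        (mapK2_eq _ _ _)) rfl⟩
    have := mul_nonneg (mon_nonneg zs hz u t) (hq (vs.map (xv zs u)))
    linarith

/-- all blocks `(T, basis, rows, slot orders)`. -/
noncomputable def blks (w M m W : ℕ) (bs : List (ℕ × List (List ℕ) × List ℕ × List (List ℕ))) :
    T → T → ℕ → Ct → Bool :=
  List.rec (motive := fun _ => T → T → ℕ → Ct → Bool) (fun p n b k => k p n b)
    (fun q _ r p n b k => blk w M m W q.1 q.2.1 q.2.2.1 q.2.2.2 p n b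
      (fun p' n' b' => r p' n' b' k)) bs

theorem blks_down (hz : ∀ z ∈ zs, 0 ≤ z) (W : ℕ)
    (bs : List (ℕ × List (List ℕ) × List ℕ × List (List ℕ)))
    (hq : ∀ q ∈ bs, ∀ xs, 0 ≤ Qf W q.2.2.1 xs) : Down w M m zs (blks w M m W bs) := by
  induction bs with
  | nil => exact ⟨0, le_rfl, Step.nil⟩
  | cons q bs ih =>
    obtain ⟨d, h1, h2⟩ := ih (fun q' h => hq q' (by simp [h]))
    obtain ⟨d', h3, h4⟩ := blk_down (w := w) (M := M) (m := m) hz W q.1 q.2.1 q.2.2.1
      (hq q (by simp)) q.2.2.2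
    exact ⟨_, add_nonpos h3 h1, (h4.comp h2).congr (fun _ _ _ _ => rfl) rfl⟩

/-- the value of a list of pairs `(coefficient, mask)` at the big point. -/
noncomputable def eL (w : ℕ) (u : List ℕ) (l : List (ℕ × ℕ)) : ℕ :=
  (l.map fun q => q.1 * 2 ^ (w * key u q.2)).sum

noncomputable def vL (zs : List ℝ) (u : List ℕ) (l : List (ℕ × ℕ)) : ℝ :=
  (l.map fun q => q.1 * mon zs u q.2).sum

noncomputable def nL (l : List (ℕ × ℕ)) : ℕ :=
  List.rec (motive := fun _ => ℕ) 0 (fun q _ r => Nat.add q.1 r) l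

theorem nL_cons (q : ℕ × ℕ) (l : List (ℕ × ℕ)) : nL (q :: l) = q.1 + nL l := rfl

theorem rep_triple (u : List ℕ) (l1 l2 l3 : List (ℕ × ℕ)) :
    Rep w zs ((eL w u l1 * (eL w u l2 * eL w u l3) : ℕ) : ℤ)
      (vL zs u l1 * (vL zs u l2 * vL zs u l3)) (nL l1 * (nL l2 * nL l3)) := by
  have k3 : ∀ a b : ℕ × ℕ, Rep w zs
      ((a.1 * 2 ^ (w * key u a.2) * (b.1 * 2 ^ (w * key u b.2) * eL w u l3) : ℕ) : ℤ)
      (a.1 * mon zs u a.2 * (b.1 * mon zs u b.2 * vL zs u l3)) (a.1 * (b.1 * nL l3)) := by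
    intro a b
    induction l3 with
    | nil => simpa [eL, vL, nL] using Rep.zero
    | cons c l ih =>
      have := (Rep.single (w := w) (zs := zs) (a.1 * (b.1 * c.1))
        (key u a.2 + key u b.2 + key u c.2)).add ih
      rw [mv_key] at this
      simp only [eL, vL, nL_cons, List.map_cons, List.sum_cons, mul_add, pow_add] at this ⊢
      push_cast at this ⊢
      refine (congrArg₂ (fun x y => Rep w zs x y _) ?_ ?_).mp this <;> ring
  have k2 : ∀ a : ℕ × ℕ, Rep w zs
      ((a.1 * 2 ^ (w * key u a.2) * (eL w u l2 * eL w u l3) : ℕ) : ℤ)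
      (a.1 * mon zs u a.2 * (vL zs u l2 * vL zs u l3)) (a.1 * (nL l2 * nL l3)) := by
    intro a
    induction l2 with
    | nil => simpa [eL, vL, nL] using Rep.zero
    | cons b l ih =>
      have := (k3 a b).add ih
      have e1 : eL w u (b :: l) = b.1 * 2 ^ (w * key u b.2) + eL w u l := by simp [eL]
      have e2 : vL zs u (b :: l) = b.1 * mon zs u b.2 + vL zs u l := by simp [vL]
      rw [e1, e2, nL_cons]
      simp only [add_mul, mul_add, Nat.cast_add]
      exact this
  induction l1 with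
  | nil => simpa [eL, vL, nL] using Rep.zero
  | cons a l ih =>
    have := (k2 a).add ih
    have e1 : eL w u (a :: l) = a.1 * 2 ^ (w * key u a.2) + eL w u l := by simp [eL]
    have e2 : vL zs u (a :: l) = a.1 * mon zs u a.2 + vL zs u l := by simp [vL]
    rw [e1, e2, nL_cons]
    simp only [add_mul, Nat.cast_add]
    exact this

noncomputable def bld (w M m : ℕ) (u : List ℕ) (l : List (ℕ × ℕ)) : T → (T → Bool) → Bool :=
  List.rec (motive := fun _ => T → (T → Bool) → Bool) (fun t k => k t)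
    (fun q _ r t k => force (key u q.2) (fun c => insC w M m t c q.1 (fun t' => r t' k))) l

theorem bld_spec (u : List ℕ) (l : List (ℕ × ℕ)) (t : T) : ∃ t', (∀ k, bld w M m u l t k = k t') ∧
    val (w * M) t' m = val (w * M) t m + eL w u l := by
  induction l generalizing t with
  | nil => exact ⟨t, fun _ => rfl, by simp [eL]⟩
  | cons q l ih =>
    obtain ⟨t1, h1, h2⟩ := insC_spec w M m t (key u q.2) q.1
    obtain ⟨t2, h3, h4⟩ := ih t1
    refine ⟨t2, fun k => (force_eq (key u q.2) (fun c => insC w M m t c q.1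
      (fun t' => bld w M m u l t' k))).trans ((h1 _).trans (h3 k)), ?_⟩
    rw [h4, h2]; simp [eL, add_assoc]

/-- the value of a list of pairs `(leaf number, leaf)`. -/
noncomputable def vl (s : ℕ) (l : List (ℕ × ℕ)) : ℕ := (l.map fun q => q.2 * 2 ^ (s * q.1)).sum

noncomputable def toL (t : T) : ℕ → ℕ → List (ℕ × ℕ) → (List (ℕ × ℕ) → Bool) → Bool :=
  T.rec (motive := fun _ => ℕ → ℕ → List (ℕ × ℕ) → (List (ℕ × ℕ) → Bool) → Bool)
    (fun x _ o a k => Nat.rec (motive := fun _ => Bool) (k a)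
      (fun j _ => force o (fun o' => k ((o', Nat.succ j) :: a))) x)
    (fun _ _ fl fr m o a k => fl (Nat.div m 2) o a
      (fun a' => fr (Nat.div m 2) (Nat.add o m) a' k)) t

theorem toL_spec (s : ℕ) (t : T) (m o : ℕ) (a : List (ℕ × ℕ)) : ∃ a',
    (∀ k, toL t m o a k = k a') ∧ vl s a' = vl s a + 2 ^ (s * o) * val s t m := by
  induction t generalizing m o a with
  | leaf x =>
    cases x with
    | zero => exact ⟨a, fun _ => rfl, by simp [val]⟩
    | succ j =>
      refine ⟨(o, j + 1) :: a, fun k => force_eq o (fun o' => k ((o', Nat.succ j) :: a)), ?_⟩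
      simp only [vl, val, List.map_cons, List.sum_cons]; ring
  | node l r ihl ihr =>
    obtain ⟨a1, h1, h2⟩ := ihl (m / 2) o a
    obtain ⟨a2, h3, h4⟩ := ihr (m / 2) (o + m) a1
    refine ⟨a2, fun k => (h1 _).trans (h3 _), ?_⟩
    rw [h4, h2, val, mul_add, pow_add]; ring

noncomputable def mul1 (s m h x : ℕ) (l : List (ℕ × ℕ)) : T → (T → Bool) → Bool :=
  List.rec (motive := fun _ => T → (T → Bool) → Bool) (fun t k => k t)
    (fun q _ r t k => force (Nat.add h q.1) (fun h' =>
      insK s t m h' (Nat.mul x q.2) (fun t' => r t' k))) l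

theorem mul1_spec (s m h x : ℕ) (l : List (ℕ × ℕ)) (t : T) : ∃ t',
    (∀ k, mul1 s m h x l t k = k t') ∧ val s t' m = val s t m + x * 2 ^ (s * h) * vl s l := by
  induction l generalizing t with
  | nil => exact ⟨t, fun _ => rfl, by simp [vl]⟩
  | cons q l ih =>
    obtain ⟨t1, h1, h2⟩ := insK_spec s t m (h + q.1) (x * q.2)
    obtain ⟨t2, h3, h4⟩ := ih t1
    refine ⟨t2, fun k => (force_eq (h + q.1) (fun h' => insK s t m h' (x * q.2)
      (fun t' => mul1 s m h x l t' k))).trans ((h1 _).trans (h3 k)), ?_⟩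
    rw [h4, h2]
    simp only [vl, List.map_cons, List.sum_cons, mul_add, pow_add]; ring

noncomputable def mul2 (s m : ℕ) (l l' : List (ℕ × ℕ)) : T → (T → Bool) → Bool :=
  List.rec (motive := fun _ => T → (T → Bool) → Bool) (fun t k => k t)
    (fun q _ r t k => mul1 s m q.1 q.2 l' t (fun t' => r t' k)) l

theorem mul2_spec (s m : ℕ) (l l' : List (ℕ × ℕ)) (t : T) : ∃ t',
    (∀ k, mul2 s m l l' t k = k t') ∧ val s t' m = val s t m + vl s l * vl s l' := by
  induction l generalizing t with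
  | nil => exact ⟨t, fun _ => rfl, by simp [vl]⟩
  | cons q l ih =>
    obtain ⟨t1, h1, h2⟩ := mul1_spec s m q.1 q.2 l' t
    obtain ⟨t2, h3, h4⟩ := ih t1
    refine ⟨t2, fun k => (h1 _).trans (h3 _), ?_⟩
    rw [h4, h2]
    simp only [vl, List.map_cons, List.sum_cons]; ring

/-- the leaves of the tree of a list of monomials. -/
noncomputable def lv (w M m d : ℕ) (u : List ℕ) (l : List (ℕ × ℕ))
    (k : List (ℕ × ℕ) → Bool) : Bool :=
  bld w M m u l (full d) (fun t => toL t m 0 [] k)

theorem lv_spec (d : ℕ) (u : List ℕ) (l : List (ℕ × ℕ)) : ∃ a,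
    (∀ k, lv w M m d u l k = k a) ∧ vl (w * M) a = eL w u l := by
  obtain ⟨t, h1, h2⟩ := bld_spec (w := w) (M := M) (m := m) u l (full d)
  obtain ⟨a, h3, h4⟩ := toL_spec (w * M) t m 0 []
  exact ⟨a, fun k => (h1 _).trans (h3 _), by simpa [vl, h2, val_full] using h4⟩

/-- the tree of a triple product. -/
noncomputable def tri (w M m d : ℕ) (u : List ℕ) (l1 l2 l3 : List (ℕ × ℕ)) (k : T → Bool) : Bool :=
  lv w M m d u l1 (fun a1 => lv w M m d u l2 (fun a2 => lv w M m d u l3 (fun a3 =>
    mul2 (Nat.mul w M) m a2 a3 (full d) (fun t => toL t m 0 [] (fun a =>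
      mul2 (Nat.mul w M) m a1 a (full d) k)))))

theorem tri_spec (d : ℕ) (u : List ℕ) (l1 l2 l3 : List (ℕ × ℕ)) : ∃ t,
    (∀ k, tri w M m d u l1 l2 l3 k = k t) ∧
      val (w * M) t m = eL w u l1 * (eL w u l2 * eL w u l3) := by
  obtain ⟨a1, h1, e1⟩ := lv_spec (w := w) (M := M) (m := m) d u l1
  obtain ⟨a2, h2, e2⟩ := lv_spec (w := w) (M := M) (m := m) d u l2
  obtain ⟨a3, h3, e3⟩ := lv_spec (w := w) (M := M) (m := m) d u l3
  obtain ⟨t, h4, e4⟩ := mul2_spec (w * M) m a2 a3 (full d)
  obtain ⟨a, h5, e5⟩ := toL_spec (w * M) t m 0 []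
  obtain ⟨t', h6, e6⟩ := mul2_spec (w * M) m a1 a (full d)
  refine ⟨t', fun k => (h1 _).trans ((h2 _).trans ((h3 _).trans ((h4 _).trans
    ((h5 _).trans (h6 _))))), ?_⟩
  rw [e6, e5, e4, e1, e2, e3]; simp [vl, val_full]

/-- the members `S` of `L` with `S &&& U = V`, with the bits of `V` cleared. -/
noncomputable def sel (U V : ℕ) (L : List ℕ) : List (ℕ × ℕ) :=
  List.rec (motive := fun _ => List (ℕ × ℕ)) []
    (fun S _ r => Bool.rec (motive := fun _ => List (ℕ × ℕ)) r ((1, Nat.xor S V) :: r)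
      (Nat.beq (Nat.land S U) V)) L

theorem vL_sel (y : ℕ → ℝ) {u : List ℕ} {n : ℕ} (h : u.Perm (List.range n)) (U V : ℕ)
    (L : List ℕ) : vL (u.map y) u (sel U V L) = sm2 n L U V y := by
  unfold sm2 WL
  induction L with
  | nil => simp [sel, vL]
  | cons S L ih =>
    have e : sel U V (S :: L) = Bool.rec (motive := fun _ => List (ℕ × ℕ)) (sel U V L)
      ((1, S ^^^ V) :: sel U V L) (Nat.beq (S &&& U) V) := rfl
    rw [e, List.filter_cons]
    cases h1 : Nat.beq (S &&& U) V
    · have : ¬ S &&& U = V := fun hh => by simp [hh] at h1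
      simpa [this] using ih
    · have h2 : (S &&& U == V) = true := by simp [Nat.eq_of_beq_eq_true h1]
      rw [if_pos h2, List.map_cons, List.map_cons, List.sum_cons, ← ih, ← mon_perm y h]
      simp [vL]

/-- the test for `p * Dl`. -/
noncomputable def chk (w M m d W : ℕ) (u L : List ℕ) (E F : ℕ) (ms : List (ℕ × ℕ))
    (bs : List (ℕ × List (List ℕ) × List ℕ × List (List ℕ))) : Bool :=
  tri (Nat.succ w) M m d u ms (sel (Nat.lor E F) E L) (sel (Nat.lor E F) F L) (fun p =>
    tri (Nat.succ w) M m d u ms (sel (Nat.lor E F) (Nat.lor E F) L) (sel (Nat.lor E F) 0 L)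
      (fun n => blks (Nat.succ w) M m W bs p n
        (Nat.add (Nat.mul (nL ms) (Nat.mul (nL (sel (Nat.lor E F) E L)) (nL (sel (Nat.lor E F) F L))))
          (Nat.mul (nL ms) (Nat.mul (nL (sel (Nat.lor E F) (Nat.lor E F) L))
            (nL (sel (Nat.lor E F) 0 L)))))
        (fun p' n' b => Bool.rec (motive := fun _ => Bool) false
          (force (mask w M) (fun mk => fin (Nat.mul (Nat.succ w) M) mk p' n' m))
          (Nat.ble b (Nat.pow 2 w)))))

theorem sm2_cont (n : ℕ) (L : List ℕ) (U V : ℕ) (y : ℕ → ℝ) :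
    Continuous fun x : ℝ => sm2 n L U V (fun j => y j + x) := by
  unfold sm2 WL
  refine continuous_list_sum _ fun S _ => continuous_finsetProd _ fun i _ => ?_
  split_ifs
  · exact continuous_const.add continuous_id
  · exact continuous_const

theorem oblEE_of {w M m d W n e f : ℕ} {u L : List ℕ} {ms : List (ℕ × ℕ)}
    {bs : List (ℕ × List (List ℕ) × List ℕ × List (List ℕ))} (hef : e ≠ f)
    (hu : u.Perm (List.range n)) (hm : ms ≠ [] ∧ ∀ q ∈ ms, 0 < q.1)
    (hq : ∀ q ∈ bs, ∀ xs, 0 ≤ Qf W q.2.2.1 xs)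
    (h : chk w M m d W u L (Nat.pow 2 e) (Nat.pow 2 f) ms bs = true)
    (y : ℕ → ℝ) (hy : ∀ i, 0 ≤ y i) : 0 ≤ Dl n L e f y := by
  have key0 : ∀ y : ℕ → ℝ, (∀ i, 0 < y i) → 0 ≤ Dl n L e f y := by
    intro y hy
    have hz : ∀ z ∈ u.map y, 0 ≤ z := by
      intro z hz
      obtain ⟨i, -, rfl⟩ := List.mem_map.1 hz
      exact (hy i).le
    have e0 : Nat.lor (Nat.pow 2 e) (Nat.pow 2 f) = 2 ^ e ||| 2 ^ f := rfl
    have e1 : Nat.pow 2 e = 2 ^ e := rfl
    have e2 : Nat.pow 2 f = 2 ^ f := rfl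
    unfold chk at h
    rw [e0, e1, e2] at h
    obtain ⟨p, h1, h2⟩ := tri_spec (w := w + 1) (M := M) (m := m) d u ms
      (sel (2 ^ e ||| 2 ^ f) (2 ^ e) L) (sel (2 ^ e ||| 2 ^ f) (2 ^ f) L)
    obtain ⟨q, h3, h4⟩ := tri_spec (w := w + 1) (M := M) (m := m) d u ms
      (sel (2 ^ e ||| 2 ^ f) (2 ^ e ||| 2 ^ f) L) (sel (2 ^ e ||| 2 ^ f) 0 L)
    obtain ⟨dd, h5, h6⟩ := blks_down (w := w + 1) (M := M) (m := m) hz W bs hq
    rw [h1, h3] at h
    obtain ⟨p', q', b', h7, h8⟩ := h6 p q _
    rw [h7] at h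
    obtain ⟨h9, h10⟩ := bool_and h
    rw [force_eq] at h9
    have h11 := h8 _ (by
      unfold Inv
      rw [h2, h4, sub_eq_add_neg]
      exact (rep_triple u _ _ _).add (rep_triple u _ _ _).neg)
    have h12 := Rep.nonneg h11 (by
      have : b' ≤ 2 ^ w := Nat.le_of_ble_eq_true h10
      rw [pow_succ]; omega) (fin_spec w M p' q' m h9) hz
    simp only [vL_sel y hu] at h12
    have h13 : 0 < vL (u.map y) u ms := by
      refine List.sum_pos _ (fun x hx => ?_) (by simpa using hm.1)
      obtain ⟨q, hq, rfl⟩ := List.mem_map.1 hx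
      refine mul_pos (by exact_mod_cast hm.2 q hq) ?_
      rw [mon_perm y hu]
      refine prod_pos fun i _ => ?_
      split_ifs
      · exact hy i
      · exact zero_lt_one
    unfold Dl
    rw [if_neg hef]
    refine nonneg_of_mul_nonneg_right ?_ h13 |> fun h => h
    linarith
  have hc : Continuous fun x : ℝ => Dl n L e f (fun j => y j + x) := by
    unfold Dl
    simp only [if_neg hef]
    exact ((sm2_cont _ _ _ _ _).mul (sm2_cont _ _ _ _ _)).sub
      ((sm2_cont _ _ _ _ _).mul (sm2_cont _ _ _ _ _))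
  have h2 : Filter.Tendsto (fun x : ℝ => Dl n L e f (fun j => y j + x))
      (nhdsWithin 0 (Set.Ioi 0)) (nhds (Dl n L e f (fun j => y j + 0))) :=
    (hc.tendsto 0).mono_left nhdsWithin_le_nhds
  have h3 := ge_of_tendsto h2 (eventually_nhdsWithin_of_forall fun x hx =>
    key0 _ fun i => add_pos_of_nonneg_of_pos (hy i) hx)
  simpa using h3

end Pool.Agent.Lib.MP_c69b6d_co.F.Kr
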