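import Pool.Agent.Lib.MP_c69b6d_co.F.Red
import Pool.Agent.Lib.MP_c69b6d_co.F.M9s

/-! The master matroid number 9. -/

namespace Pool.Agent.Lib.MP_c69b6d_co.F

set_option maxRecDepth 100000

theorem a9_0 : AutOf 12 mB9 (fun i => [2, 1, 4, 3, 0, 5, 10, 7, 8, 6, 9, 11].getD i 0) :=
  autOf_of_ok (by decide +kernel)

theorem a9_1 : AutOf 12 mB9 (fun i => [1, 4, 3, 0, 11, 5, 9, 7, 8, 10, 6, 2].getD i 0) :=
  autOf_of_ok (by decide +kernel)

theorem a9_2 : AutOf 12 mB9 (fun i => [3, 0, 11, 2, 1, 5, 10, 7, 8, 6, 9, 4].getD i 0) :=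
  autOf_of_ok (by decide +kernel)

theorem a9_3 : AutOf 12 mB9 (fun i => [2, 3, 4, 11, 0, 5, 9, 7, 8, 10, 6, 1].getD i 0) :=
  autOf_of_ok (by decide +kernel)

theorem a9_4 : AutOf 12 mB9 (fun i => [3, 4, 11, 0, 1, 5, 6, 7, 8, 9, 10, 2].getD i 0) :=
  autOf_of_ok (by decide +kernel)

theorem a9_5 : AutOf 12 mB9 (fun i => [0, 11, 2, 1, 4, 5, 9, 7, 8, 10, 6, 3].getD i 0) :=
  autOf_of_ok (by decide +kernel)

theorem a9_6 : AutOf 12 mB9 (fun i => [2, 11, 4, 1, 0, 5, 6, 7, 8, 9, 10, 3].getD i 0) :=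
  autOf_of_ok (by decide +kernel)

theorem a9_7 : AutOf 12 mB9 (fun i => [11, 4, 1, 0, 3, 5, 10, 7, 8, 6, 9, 2].getD i 0) :=
  autOf_of_ok (by decide +kernel)

theorem a9_8 : AutOf 12 mB9 (fun i => [5, 0, 7, 2, 8, 1, 6, 3, 11, 9, 10, 4].getD i 0) :=
  autOf_of_ok (by decide +kernel)

theorem a9_9 : AutOf 12 mB9 (fun i => [6, 0, 9, 2, 10, 1, 5, 3, 11, 7, 8, 4].getD i 0) :=
  autOf_of_ok (by decide +kernel)

theorem a9_10 : AutOf 12 mB9 (fun i => [1, 5, 3, 7, 11, 0, 6, 2, 4, 9, 10, 8].getD i 0) :=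
  autOf_of_ok (by decide +kernel)

theorem a9_11 : AutOf 12 mB9 (fun i => [6, 1, 9, 3, 10, 0, 5, 2, 4, 7, 8, 11].getD i 0) :=
  autOf_of_ok (by decide +kernel)

theorem a9_12 : AutOf 12 mB9 (fun i => [5, 6, 7, 9, 8, 0, 1, 2, 4, 3, 11, 10].getD i 0) :=
  autOf_of_ok (by decide +kernel)

theorem q9_0 : QF (WL 12 mB9) {0, 2, 4} {0, 2, 4} :=
  qf_D (by decide +kernel) oD9_0_2_4

theorem q9_1 : QF (WL 12 mB9) {1, 3, 11} {0, 2, 4} :=
  qf_TT (by decide +kernel) (by decide +kernel) (by decide) (by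
    intro p hp q hq
    simp only [List.mem_cons, List.not_mem_nil, or_false] at hp hq
    rcases hp with rfl | rfl | rfl <;> rcases hq with rfl | rfl | rfl
    · exact oTT9_1_3_11_0_2_4
    · exact (oTT9_1_3_11_0_2_4.aut a9_0 (by decide) (by decide) (by decide) (by decide) (by decide) (by decide)).symm.swap.symm
    · exact (oTT9_1_3_11_0_2_4.aut a9_1 (by decide) (by decide) (by decide) (by decide) (by decide) (by decide)).symm
    · exact (oTT9_1_3_11_0_2_4.aut a9_2 (by decide) (by decide) (by decide) (by decide) (by decide) (by decide)).symm.swap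
    · exact (oTT9_1_3_11_0_2_4.aut a9_3 (by decide) (by decide) (by decide) (by decide) (by decide) (by decide)).swap.symm.swap.symm
    · exact (oTT9_1_3_11_0_2_4.aut a9_4 (by decide) (by decide) (by decide) (by decide) (by decide) (by decide)).symm.swap
    · exact (oTT9_1_3_11_0_2_4.aut a9_5 (by decide) (by decide) (by decide) (by decide) (by decide) (by decide))
    · exact (oTT9_1_3_11_0_2_4.aut a9_6 (by decide) (by decide) (by decide) (by decide) (by decide) (by decide)).symm.swap.symm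
    · exact (oTT9_1_3_11_0_2_4.aut a9_7 (by decide) (by decide) (by decide) (by decide) (by decide) (by decide)).symm)

theorem master9 : Master9 := by
  refine cl_of_cover [({0, 2, 4}, {0, 2, 4}), ({1, 3, 11}, {0, 2, 4})]
    [fun i => [0, 11, 2, 1, 4, 5, 9, 7, 8, 10, 6, 3].getD i 0,
     fun i => [5, 0, 7, 2, 8, 1, 6, 3, 11, 9, 10, 4].getD i 0,
     fun i => [6, 0, 9, 2, 10, 1, 5, 3, 11, 7, 8, 4].getD i 0,
     fun i => [1, 5, 3, 7, 11, 0, 6, 2, 4, 9, 10, 8].getD i 0,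
     fun i => [6, 1, 9, 3, 10, 0, 5, 2, 4, 7, 8, 11].getD i 0,
     fun i => [5, 6, 7, 9, 8, 0, 1, 2, 4, 3, 11, 10].getD i 0] ?_ ?_ ?_
  · intro g hg
    simp only [List.mem_cons, List.not_mem_nil, or_false] at hg
    rcases hg with rfl | rfl | rfl | rfl | rfl | rfl
    exacts [a9_5, a9_8, a9_9, a9_10, a9_11, a9_12]
  · intro p hp
    simp only [List.mem_cons, List.not_mem_nil, or_false] at hp
    rcases hp with rfl | rfl
    exacts [⟨by decide, by decide, q9_0⟩, ⟨by decide, by decide, q9_1⟩]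
  · decide +kernel

end Pool.Agent.Lib.MP_c69b6d_co.F
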