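import Pool.Agent.Lib.MP_c69b6d_co.F.CkN
import Pool.Agent.Lib.MP_c69b6d_co.F.FinB
import Pool.Agent.Lib.MP_c69b6d_co.F.Masters

/-! From the masters to all states. -/

namespace Pool.Agent.Lib.MP_c69b6d_co.F

open Finset Disp CD

set_option maxRecDepth 100000

theorem clP_of {n j : ℕ} {L : List ℕ} {𝒯 : List (Finset ℕ)} (hb : blB n (tsS.get j).C L = true)
    (hT : (ttS.get j).map fs = 𝒯) (h : Cl (WL n L) (range n) 𝒯) : ClP (tsS.get j).C (ttS.get j) := by
  obtain ⟨h1, h2⟩ := bl_sound hb
  unfold ClP
  rw [h1, h2, hT]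
  exact h

theorem st0 (h : Master0) : ClP (tsS.get 0).C (ttS.get 0) :=
  clP_of (n := 9) (L := mB0) (by decide +kernel) (by decide +kernel) h

theorem st1 (h : Master1) : ClP (tsS.get 1).C (ttS.get 1) :=
  clP_of (n := 9) (L := mB1) (by decide +kernel) (by decide +kernel) h

theorem st2 (h : Master2) : ClP (tsS.get 2).C (ttS.get 2) :=
  clP_of (n := 9) (L := mB2) (by decide +kernel) (by decide +kernel) h

theorem st3 (h : Master3) : ClP (tsS.get 3).C (ttS.get 3) :=
  clP_of (n := 10) (L := mB3) (by decide +kernel) (by decide +kernel) h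

theorem st4 (h : Master4) : ClP (tsS.get 4).C (ttS.get 4) :=
  clP_of (n := 10) (L := mB4) (by decide +kernel) (by decide +kernel) h

theorem st7 (h : Master7) : ClP (tsS.get 5).C (ttS.get 5) :=
  clP_of (n := 10) (L := mB7) (by decide +kernel) (by decide +kernel) h

theorem st8 (h : Master8) : ClP (tsS.get 6).C (ttS.get 6) :=
  clP_of (n := 11) (L := mB8) (by decide +kernel) (by decide +kernel) h

theorem st9 (h : Master9) : ClP (tsS.get 7).C (ttS.get 7) :=
  clP_of (n := 12) (L := mB9) (by decide +kernel) (by decide +kernel) h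

theorem st10 (h : Master10) : ClP (tsS.get 8).C (ttS.get 8) :=
  clP_of (n := 12) (L := mB10) (by decide +kernel) (by decide +kernel) h

theorem st11 (h : Master11) : ClP (tsS.get 9).C (ttS.get 9) :=
  clP_of (n := 13) (L := mB11) (by decide +kernel) (by decide +kernel) h

theorem st12 (h : Master12) : ClP (tsS.get 10).C (ttS.get 10) :=
  clP_of (n := 13) (L := mB12) (by decide +kernel) (by decide +kernel) h

theorem st13 (h : Master13) : ClP (tsS.get 11).C (ttS.get 11) :=
  clP_of (n := 12) (L := mB13) (by decide +kernel) (by decide +kernel) h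

theorem st14 (h : Master14) : ClP (tsS.get 12).C (ttS.get 12) :=
  clP_of (n := 12) (L := mB14) (by decide +kernel) (by decide +kernel) h

theorem states_of (h0 : Master0) (h1 : Master1) (h2 : Master2) (h3 : Master3) (h4 : Master4) (h7 : Master7) (h8 : Master8)
    (h9 : Master9) (h10 : Master10) (h11 : Master11) (h12 : Master12) (h13 : Master13) (h14 : Master14) : States := by
  refine st_sound tsS_ok (lo := 13) (fun j hj => ?_)
    (AllIn.of progs_ok (b := 254) (by rw [progs_len]; rfl))
  interval_cases j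
  exacts [st0 h0, st1 h1, st2 h2, st3 h3, st4 h4, st7 h7, st8 h8, st9 h9, st10 h10, st11 h11, st12 h12, st13 h13, st14 h14]

end Pool.Agent.Lib.MP_c69b6d_co.F
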