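import Pool.Agent.Lib.MP_c69b6d_co.F.FinC
import Pool.Agent.Lib.MP_c69b6d_co.F.Mst
import Pool.Agent.Lib.MP_c69b6d_co.F.M0
import Pool.Agent.Lib.MP_c69b6d_co.F.M1
import Pool.Agent.Lib.MP_c69b6d_co.F.M2
import Pool.Agent.Lib.MP_c69b6d_co.F.M3
import Pool.Agent.Lib.MP_c69b6d_co.F.M4
import Pool.Agent.Lib.MP_c69b6d_co.F.M7
import Pool.Agent.Lib.MP_c69b6d_co.F.M8
import Pool.Agent.Lib.MP_c69b6d_co.F.M9
import Pool.Agent.Lib.MP_c69b6d_co.F.M10
import Pool.Agent.Lib.MP_c69b6d_co.F.M11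
import Pool.Agent.Lib.MP_c69b6d_co.F.M12
import Pool.Agent.Lib.MP_c69b6d_co.F.M13
import Pool.Agent.Lib.MP_c69b6d_co.F.M14

/-! The main theorem for displays with a member of `NL` as a minor. -/

namespace Pool.Agent.Lib.MP_c69b6d_co.F

open Disp

theorem states : States :=
  states_of master0 master1 master2 master3 master4 master7 master8 master9 master10 master11
    master12 master13 master14

theorem main (D : Disp F3) (h3 : D.Conn3) (hN : Has NL D) (hF : Free L5 D) : D.Ray :=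
  main_of states D h3 hN hF

end Pool.Agent.Lib.MP_c69b6d_co.F
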