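import Pool.Agent.Lib.MP_c69b6d_co.F.Obl

/-! Multiaffine calculus for `WL`. -/

namespace Pool.Agent.Lib.MP_c69b6d_co.F

open Finset

/-- the monomial of a mask. -/
noncomputable def mon (n S : ℕ) (y : ℕ → ℝ) : ℝ := ∏ i ∈ range n, if S.testBit i then y i else 1

/-- the monomial of a mask outside `U`. -/
noncomputable def monO (n U S : ℕ) (y : ℕ → ℝ) : ℝ :=
  ∏ i ∈ range n, if (S.testBit i && !U.testBit i) then y i else 1

theorem WL_eq (n : ℕ) (L : List ℕ) (y : ℕ → ℝ) : WL n L y = (L.map fun S => mon n S y).sum := rfl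

theorem WL_congr (n : ℕ) (L : List ℕ) {y z : ℕ → ℝ} (h : ∀ i < n, y i = z i) :
    WL n L y = WL n L z := by
  unfold WL
  congr 1
  refine List.map_congr_left fun S _ => prod_congr rfl fun i hi => ?_
  rw [h i (mem_range.1 hi)]

theorem sm2_eq (n : ℕ) (L : List ℕ) (U V : ℕ) (y : ℕ → ℝ) :
    sm2 n L U V y = (L.map fun S => if S &&& U = V then monO n U S y else 0).sum := by
  unfold sm2
  induction L with
  | nil => rfl
  | cons S L ih =>
    rw [List.filter_cons]
    by_cases h : S &&& U = V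
    · have h' : (S &&& U == V) = true := by simpa using h
      rw [if_pos h', List.map_cons, List.map_cons, List.sum_cons, if_pos h,
        ← ih, WL_eq, List.map_cons, List.sum_cons, ← WL_eq]
      congr 1
      unfold mon monO
      refine prod_congr rfl fun i _ => ?_
      rw [← h, Nat.testBit_xor, Nat.testBit_and]
      cases S.testBit i <;> cases U.testBit i <;> rfl
    · have h' : (S &&& U == V) = false := by simpa using h
      simp only [h', List.map_cons, List.sum_cons, h, if_false, zero_add]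
      exact ih

theorem sm2_congr (n : ℕ) (L : List ℕ) (U V : ℕ) {y z : ℕ → ℝ}
    (h : ∀ i, U.testBit i = false → y i = z i) : sm2 n L U V y = sm2 n L U V z := by
  rw [sm2_eq, sm2_eq]
  congr 1
  refine List.map_congr_left fun S _ => ?_
  split_ifs
  · refine prod_congr rfl fun i _ => ?_
    cases hU : U.testBit i
    · rw [h i hU]
    · simp
  · rfl

theorem sm2_nonneg (n : ℕ) (L : List ℕ) (U V : ℕ) {y : ℕ → ℝ} (h : ∀ i, 0 ≤ y i) :
    0 ≤ sm2 n L U V y := by
  rw [sm2_eq]
  refine List.sum_nonneg fun x hx => ?_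
  obtain ⟨S, -, rfl⟩ := List.mem_map.1 hx
  split_ifs
  · refine prod_nonneg fun i _ => ?_
    split_ifs
    · exact h i
    · exact zero_le_one
  · exact le_rfl

theorem cond_iff {A : Finset ℕ} {U V : ℕ} (hU : ∀ i, U.testBit i = decide (i ∈ A))
    (hV : ∀ i, i ∉ A → V.testBit i = false) (S : ℕ) :
    S &&& U = V ↔ ∀ i ∈ A, S.testBit i = V.testBit i := by
  constructor
  · rintro rfl i hi
    simp [Nat.testBit_and, hU, hi]
  · intro h
    refine Nat.eq_of_testBit_eq fun i => ?_
    rw [Nat.testBit_and, hU]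
    by_cases hi : i ∈ A
    · simp [hi, h i hi]
    · simp [hi, hV i hi]

theorem mon_split {n : ℕ} {A : Finset ℕ} (hA : A ⊆ range n) {U : ℕ}
    (hU : ∀ i, U.testBit i = decide (i ∈ A)) (S : ℕ) (y : ℕ → ℝ) :
    mon n S y = (∏ i ∈ A, if S.testBit i then y i else 1) * monO n U S y := by
  unfold mon monO
  rw [prod_subset hA (f := fun i => if i ∈ A then (if S.testBit i then y i else 1) else 1)
    (fun i _ hi => by simp [hi]) |>.symm.trans (prod_congr rfl fun i hi => by simp [hi]) |>.symm,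
    ← prod_mul_distrib]
  refine prod_congr rfl fun i _ => ?_
  rw [hU]
  by_cases hi : i ∈ A <;> simp [hi]

theorem sum_map_add2 (L : List ℕ) (f g : ℕ → ℝ) (a : ℝ) :
    (L.map fun S => f S + a * g S).sum = (L.map f).sum + a * (L.map g).sum := by
  rw [List.sum_map_add, List.sum_map_mul_left]

theorem split1 {n : ℕ} (L : List ℕ) {i : ℕ} (hi : i < n) (y : ℕ → ℝ) :
    WL n L y = sm2 n L (2 ^ i) 0 y + y i * sm2 n L (2 ^ i) (2 ^ i) y := by
  have hU : ∀ k, (2 ^ i).testBit k = decide (k ∈ ({i} : Finset ℕ)) := by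
    intro k; simp [Nat.testBit_two_pow, eq_comm]
  rw [sm2_eq, sm2_eq, ← sum_map_add2, WL_eq]
  congr 1
  refine List.map_congr_left fun S _ => ?_
  rw [mon_split (A := {i}) (by simpa using hi) hU]
  simp only [cond_iff hU (V := 0) (by simp), cond_iff hU (V := 2 ^ i) (by simp +contextual [hU])]
  cases h : S.testBit i <;> simp [h]

theorem split2 {n : ℕ} (L : List ℕ) {i j : ℕ} (hi : i < n) (hj : j < n) (hij : i ≠ j)
    (y : ℕ → ℝ) :
    WL n L y = sm2 n L (2 ^ i ||| 2 ^ j) 0 y + y i * sm2 n L (2 ^ i ||| 2 ^ j) (2 ^ i) y +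
      y j * sm2 n L (2 ^ i ||| 2 ^ j) (2 ^ j) y +
      y i * y j * sm2 n L (2 ^ i ||| 2 ^ j) (2 ^ i ||| 2 ^ j) y := by
  have hU : ∀ k, (2 ^ i ||| 2 ^ j).testBit k = decide (k ∈ ({i, j} : Finset ℕ)) := by
    intro k; simp [Nat.testBit_two_pow, eq_comm]
  simp only [sm2_eq, ← sum_map_add2, WL_eq]
  congr 1
  refine List.map_congr_left fun S _ => ?_
  rw [mon_split (A := {i, j}) (by simp [insert_subset_iff, hi, hj]) hU, prod_pair hij]
  simp only [cond_iff hU (V := 0) (by simp),
    cond_iff hU (V := 2 ^ i) (by simp +contextual [eq_comm]),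
    cond_iff hU (V := 2 ^ j) (by simp +contextual [eq_comm]),
    cond_iff hU (V := 2 ^ i ||| 2 ^ j) (by simp +contextual [hU])]
  have hji := hij.symm
  cases h : S.testBit i <;> cases h' : S.testBit j <;>
    simp [h, h', Nat.testBit_two_pow, hij, hji]

theorem split3 {n : ℕ} (L : List ℕ) {i j k : ℕ} (hi : i < n) (hj : j < n) (hk : k < n)
    (hij : i ≠ j) (hik : i ≠ k) (hjk : j ≠ k) (y : ℕ → ℝ) :
    WL n L y = sm2 n L (2 ^ i ||| 2 ^ j ||| 2 ^ k) 0 y +
      y i * sm2 n L (2 ^ i ||| 2 ^ j ||| 2 ^ k) (2 ^ i) y +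
      y j * sm2 n L (2 ^ i ||| 2 ^ j ||| 2 ^ k) (2 ^ j) y +
      y k * sm2 n L (2 ^ i ||| 2 ^ j ||| 2 ^ k) (2 ^ k) y +
      y i * y j * sm2 n L (2 ^ i ||| 2 ^ j ||| 2 ^ k) (2 ^ i ||| 2 ^ j) y +
      y i * y k * sm2 n L (2 ^ i ||| 2 ^ j ||| 2 ^ k) (2 ^ i ||| 2 ^ k) y +
      y j * y k * sm2 n L (2 ^ i ||| 2 ^ j ||| 2 ^ k) (2 ^ j ||| 2 ^ k) y +
      y i * y j * y k * sm2 n L (2 ^ i ||| 2 ^ j ||| 2 ^ k) (2 ^ i ||| 2 ^ j ||| 2 ^ k) y := by
  have hU : ∀ l, (2 ^ i ||| 2 ^ j ||| 2 ^ k).testBit l =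
      decide (l ∈ ({i, j, k} : Finset ℕ)) := by
    intro l; simp [Nat.testBit_two_pow, eq_comm, Bool.or_assoc]
  simp only [sm2_eq, ← sum_map_add2, WL_eq]
  congr 1
  refine List.map_congr_left fun S _ => ?_
  rw [mon_split (A := {i, j, k}) (by simp [insert_subset_iff, hi, hj, hk]) hU,
    prod_insert (by simp [hij, hik]), prod_pair hjk]
  simp only [cond_iff hU (V := 0) (by simp),
    cond_iff hU (V := 2 ^ i) (by simp +contextual [eq_comm]),
    cond_iff hU (V := 2 ^ j) (by simp +contextual [eq_comm]),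
    cond_iff hU (V := 2 ^ k) (by simp +contextual [eq_comm]),
    cond_iff hU (V := 2 ^ i ||| 2 ^ j) (by simp +contextual [eq_comm]),
    cond_iff hU (V := 2 ^ i ||| 2 ^ k) (by simp +contextual [eq_comm]),
    cond_iff hU (V := 2 ^ j ||| 2 ^ k) (by simp +contextual [eq_comm]),
    cond_iff hU (V := 2 ^ i ||| 2 ^ j ||| 2 ^ k) (by simp +contextual [hU])]
  have hji := hij.symm
  have hki := hik.symm
  have hkj := hjk.symm
  cases h : S.testBit i <;> cases h' : S.testBit j <;> cases h'' : S.testBit k <;>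
    simp [h, h', h'', Nat.testBit_two_pow, hij, hji, hik, hki, hjk, hkj, mul_assoc]

/-- first difference. -/
noncomputable def D1 (n : ℕ) (L : List ℕ) (i : ℕ) (y : ℕ → ℝ) : ℝ :=
  WL n L (Function.update y i 1) - WL n L (Function.update y i 0)

/-- second difference. -/
noncomputable def D2 (n : ℕ) (L : List ℕ) (i j : ℕ) (y : ℕ → ℝ) : ℝ :=
  if i = j then 0 else D1 n L i (Function.update y j 1) - D1 n L i (Function.update y j 0)

theorem Dl_eq {n : ℕ} (L : List ℕ) {i j : ℕ} (hi : i < n) (hj : j < n) (y : ℕ → ℝ) :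
    Dl n L i j y = D1 n L i y * D1 n L j y - WL n L y * D2 n L i j y := by
  unfold Dl D2
  split_ifs with hij
  · subst hij
    have c : ∀ V a, sm2 n L (2 ^ i) V (Function.update y i a) = sm2 n L (2 ^ i) V y :=
      fun V a => sm2_congr _ _ _ _ fun k hk => Function.update_of_ne
        (by rintro rfl; simp at hk) _ _
    unfold D1
    rw [split1 L hi (Function.update y i 1), split1 L hi (Function.update y i 0)]
    simp only [c, Function.update_self]
    ring
  · have hji : j ≠ i := fun h => hij h.symm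
    have c : ∀ V a (z : ℕ → ℝ), sm2 n L (2 ^ i ||| 2 ^ j) V (Function.update z i a) =
        sm2 n L (2 ^ i ||| 2 ^ j) V z :=
      fun V a z => sm2_congr _ _ _ _ fun k hk => Function.update_of_ne
        (by rintro rfl; simp at hk) _ _
    have c' : ∀ V a (z : ℕ → ℝ), sm2 n L (2 ^ i ||| 2 ^ j) V (Function.update z j a) =
        sm2 n L (2 ^ i ||| 2 ^ j) V z :=
      fun V a z => sm2_congr _ _ _ _ fun k hk => Function.update_of_ne
        (by rintro rfl; simp at hk) _ _
    unfold D1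
    simp only [split2 L hi hj hij, c, c', Function.update_self, Function.update_of_ne hij,
      Function.update_of_ne hji]
    ring

theorem Dl_symm (n : ℕ) (L : List ℕ) (i j : ℕ) (y : ℕ → ℝ) : Dl n L i j y = Dl n L j i y := by
  unfold Dl
  by_cases h : i = j
  · subst h; rfl
  · rw [if_neg h, if_neg (fun e => h e.symm), Nat.lor_comm (2 ^ j), mul_comm]

theorem mon_deriv (n S : ℕ) (y τ : ℕ → ℝ) :
    HasDerivAt (fun s : ℝ => mon n S (y + s • τ))
      (∑ i ∈ range n, τ i * (mon n S (Function.update y i 1) - mon n S (Function.update y i 0)))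
      0 := by
  have h := HasDerivAt.fun_finsetProd (u := range n) (x := (0 : ℝ))
    (f := fun i (s : ℝ) => if S.testBit i then (y + s • τ) i else 1)
    (f' := fun i => if S.testBit i then τ i else 0) (fun i _ => by
      split_ifs
      · simpa using ((hasDerivAt_id (0 : ℝ)).mul_const (τ i)).const_add (y i)
      · exact hasDerivAt_const _ _)
  refine h.congr_deriv (sum_congr rfl fun i hi => ?_)
  unfold mon
  rw [← mul_prod_erase _ _ hi, ← mul_prod_erase _ _ hi]
  have e : ∀ a : ℝ, (∏ k ∈ (range n).erase i, if S.testBit k then Function.update y i a k else 1) =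
      ∏ k ∈ (range n).erase i, if S.testBit k then y k else 1 :=
    fun a => prod_congr rfl fun k hk => by rw [Function.update_of_ne (ne_of_mem_erase hk)]
  rw [e, e]
  cases S.testBit i <;> simp [mul_comm]

theorem WL_deriv (n : ℕ) (L : List ℕ) (y τ : ℕ → ℝ) :
    HasDerivAt (fun s : ℝ => WL n L (y + s • τ)) (∑ i ∈ range n, τ i * D1 n L i y) 0 := by
  unfold D1
  induction L with
  | nil => simpa [WL] using hasDerivAt_const (0 : ℝ) (0 : ℝ)
  | cons S L ih =>
    simp only [WL_eq, List.map_cons, List.sum_cons] at ih ⊢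
    refine ((mon_deriv n S y τ).add ih).congr_deriv ?_
    rw [← sum_add_distrib]
    exact sum_congr rfl fun i _ => by ring

theorem D1_deriv (n : ℕ) (L : List ℕ) (j : ℕ) (y τ : ℕ → ℝ) :
    HasDerivAt (fun s : ℝ => D1 n L j (y + s • τ)) (∑ i ∈ range n, τ i * D2 n L i j y) 0 := by
  have e : ∀ (a s : ℝ), Function.update (y + s • τ) j a =
      Function.update y j a + s • Function.update τ j 0 := by
    intro a s; funext k
    by_cases h : k = j
    · subst h; simp
    · simp [Function.update_of_ne h]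
  unfold D1
  simp only [e]
  refine ((WL_deriv n L _ _).sub (WL_deriv n L _ _)).congr_deriv ?_
  rw [← sum_sub_distrib]
  refine sum_congr rfl fun i _ => ?_
  unfold D2
  split_ifs with h
  · subst h; simp
  · rw [Function.update_of_ne h]; ring

/-- `P` is affine in the direction `τ`. -/
def AffDir (P : (ℕ → ℝ) → ℝ) (τ : ℕ → ℝ) : Prop :=
  ∀ (y : ℕ → ℝ) (s : ℝ), P (y + s • τ) = P y + s * (P (y + τ) - P y)

theorem slope_eq {φ : ℝ → ℝ} {a b c : ℝ} (h : HasDerivAt φ c 0) (e : ∀ s, φ s = a + s * b) :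
    b = c := by
  have : φ = fun s => a + s * b := funext e
  subst this
  have h2 : HasDerivAt (fun s : ℝ => a + s * b) b 0 := by
    simpa using ((hasDerivAt_id (0 : ℝ)).mul_const b).const_add a
  exact h2.unique h

/-- the bilinear form of the Rayleigh differences. -/
noncomputable def Gf (n : ℕ) (L : List ℕ) (τ τ' y : ℕ → ℝ) : ℝ :=
  ∑ i ∈ range n, ∑ j ∈ range n, τ i * τ' j * Dl n L i j y

theorem Gf_eq {n : ℕ} {L : List ℕ} {τ τ' : ℕ → ℝ} (h : AffDir (WL n L) τ)
    (h' : AffDir (WL n L) τ') (y : ℕ → ℝ) :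
    Gf n L τ τ' y = WL n L (y + τ) * WL n L (y + τ') - WL n L y * WL n L (y + τ + τ') := by
  have hB := slope_eq (WL_deriv n L y τ) (h y)
  have hC : ∀ z, WL n L (z + τ') - WL n L z = ∑ j ∈ range n, τ' j * D1 n L j z :=
    fun z => slope_eq (WL_deriv n L z τ') (h' z)
  have hd : HasDerivAt (fun s : ℝ => ∑ j ∈ range n, τ' j * D1 n L j (y + s • τ))
      (∑ j ∈ range n, τ' j * ∑ i ∈ range n, τ i * D2 n L i j y) 0 :=
    HasDerivAt.fun_sum fun j _ => (D1_deriv n L j y τ).const_mul _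
  have hD := slope_eq hd (a := WL n L (y + τ') - WL n L y)
    (b := WL n L (y + τ + τ') - WL n L (y + τ') - WL n L (y + τ) + WL n L y) (fun s => by
      rw [← hC, add_right_comm, h (y + τ'), h y, add_right_comm y τ' τ]; ring)
  have : Gf n L τ τ' y = (∑ i ∈ range n, τ i * D1 n L i y) * (∑ j ∈ range n, τ' j * D1 n L j y) -
      WL n L y * ∑ j ∈ range n, τ' j * ∑ i ∈ range n, τ i * D2 n L i j y := by
    simp only [mul_sum]
    rw [sum_comm (f := fun j i => WL n L y * (τ' j * (τ i * D2 n L i j y)))]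
    simp only [sum_mul]
    rw [sum_comm, ← sum_sub_distrib]
    refine sum_congr rfl fun i hi => ?_
    rw [← sum_sub_distrib]
    refine sum_congr rfl fun j hj => ?_
    rw [Dl_eq L (mem_range.1 hi) (mem_range.1 hj)]
    ring
  rw [this, ← hB, ← hC, ← hD]
  ring

theorem Gf_symm (n : ℕ) (L : List ℕ) (τ τ' y : ℕ → ℝ) : Gf n L τ τ' y = Gf n L τ' τ y := by
  unfold Gf
  rw [sum_comm]
  refine sum_congr rfl fun i _ => sum_congr rfl fun j _ => ?_
  rw [Dl_symm]; ring

theorem Gf_move {n : ℕ} {L : List ℕ} {τ τ' : ℕ → ℝ} (h : AffDir (WL n L) τ)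
    (h' : AffDir (WL n L) τ') (y : ℕ → ℝ) (s : ℝ) :
    Gf n L τ τ' (y + s • τ) = Gf n L τ τ' y := by
  rw [Gf_eq h h', Gf_eq h h']
  have e1 : y + s • τ + τ = y + (s + 1) • τ := by rw [add_smul, one_smul, add_assoc]
  rw [e1, add_right_comm y (s • τ) τ', add_right_comm y ((s + 1) • τ) τ', h y, h y, h (y + τ'),
    h (y + τ'), add_right_comm y τ' τ]
  ring

theorem Gf_move' {n : ℕ} {L : List ℕ} {τ τ' : ℕ → ℝ} (h : AffDir (WL n L) τ)
    (h' : AffDir (WL n L) τ') (y : ℕ → ℝ) (s : ℝ) :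
    Gf n L τ τ' (y + s • τ') = Gf n L τ τ' y := by
  rw [Gf_symm, Gf_move h' h, Gf_symm]

theorem affDir_single (n : ℕ) (L : List ℕ) {e : ℕ} {τ : ℕ → ℝ} (h : ∀ i, i ≠ e → τ i = 0) :
    AffDir (WL n L) τ := by
  intro y s
  by_cases he : e < n
  · have c : ∀ V (z : ℕ → ℝ), (∀ i, i ≠ e → z i = 0) →
        sm2 n L (2 ^ e) V (y + z) = sm2 n L (2 ^ e) V y :=
      fun V z hz => sm2_congr _ _ _ _ fun k hk => by
        rw [Pi.add_apply, hz k (by rintro rfl; simp at hk), add_zero]
    rw [split1 L he (y + s • τ), split1 L he (y + τ), split1 L he y, c _ _ h, c _ _ h,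
      c _ (s • τ) (fun i hi => by simp [h i hi]), c _ (s • τ) (fun i hi => by simp [h i hi])]
    simp only [Pi.add_apply, Pi.smul_apply, smul_eq_mul]
    ring
  · have c : ∀ z : ℕ → ℝ, (∀ i, i ≠ e → z i = 0) → WL n L (y + z) = WL n L y :=
      fun z hz => WL_congr _ _ fun k hk => by
        rw [Pi.add_apply, hz k (by rintro rfl; exact he hk), add_zero]
    rw [c _ h, c (s • τ) (fun i hi => by simp [h i hi])]
    ring

end Pool.Agent.Lib.MP_c69b6d_co.F
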