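import Pool.Agent.Lib.MP_c69b6d_co.F.Sharp

/-! The delta-wye rule: real inequalities and the transfer of `QF`. -/

namespace Pool.Agent.Lib.MP_c69b6d_co.F

open Finset Disp

namespace Rul

/-- the generating polynomial after gluing `K4` along the triangle. -/
def kf (H2 Wa Wb Wc H0 p q r A B C : ℝ) : ℝ :=
  (p + q + r) * H2 + Wa * (q * r + (p + q + r) * A) + Wb * (p * q + (p + q + r) * B) +
    Wc * (p * r + (p + q + r) * C) + H0 * (p * q * r + q * r * (B + C) + p * q * (A + C) +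
      p * r * (A + B) + (p + q + r) * (A * B + A * C + B * C))

theorem kf_eq (H2 Wa Wb Wc H0 : ℝ) {p q r : ℝ} (A B C : ℝ) (h : p + q + r ≠ 0) :
    (p + q + r) * Shp.tf H2 Wa Wb Wc H0 (q * r / (p + q + r) + A) (p * q / (p + q + r) + B)
      (p * r / (p + q + r) + C) = kf H2 Wa Wb Wc H0 p q r A B C := by
  unfold kf Shp.tf
  field_simp
  ring

/-- the polarised first order term. -/
noncomputable def kb (H2 Wa Wb Wc H0 p q r a b c a' b' c' : ℝ) : ℝ :=
  H2 * ((a + b + c) * (a' + b' + c')) +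
    Wa * (((a + b + c) * (q * c' + r * b') + (a' + b' + c') * (q * c + r * b) -
      (p + q + r) * (b * c' + b' * c)) / 2) +
    Wb * (((a + b + c) * (p * b' + q * a') + (a' + b' + c') * (p * b + q * a) -
      (p + q + r) * (a * b' + a' * b)) / 2) +
    Wc * (((a + b + c) * (p * c' + r * a') + (a' + b' + c') * (p * c + r * a) -
      (p + q + r) * (a * c' + a' * c)) / 2) +
    H0 * (q * r * (a * a') + p * r * (b * b') + p * q * (c * c'))

theorem kf_ineq {H2 Wa Wb Wc H0 : ℝ}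
    (hd : 4 * H0 * H2 ≤ 2 * (Wa * Wb + Wa * Wc + Wb * Wc) - (Wa ^ 2 + Wb ^ 2 + Wc ^ 2))
    (p q r a b c a' b' c' : ℝ) :
    kf H2 Wa Wb Wc H0 p q r 0 0 0 *
      kf H2 Wa Wb Wc H0 (p + a * (a + b + c) + a' * (a' + b' + c'))
        (q + b * (a + b + c) + b' * (a' + b' + c')) (r + c * (a + b + c) + c' * (a' + b' + c'))
        (-(b * c) + -(b' * c')) (-(a * b) + -(a' * b')) (-(a * c) + -(a' * c')) ≤
    kf H2 Wa Wb Wc H0 (p + a * (a + b + c)) (q + b * (a + b + c)) (r + c * (a + b + c))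
        (-(b * c)) (-(a * b)) (-(a * c)) *
      kf H2 Wa Wb Wc H0 (p + a' * (a' + b' + c')) (q + b' * (a' + b' + c'))
        (r + c' * (a' + b' + c')) (-(b' * c')) (-(a' * b')) (-(a' * c')) := by
  have e1 : ∀ a b c : ℝ, kf H2 Wa Wb Wc H0 (p + a * (a + b + c)) (q + b * (a + b + c))
      (r + c * (a + b + c)) (-(b * c)) (-(a * b)) (-(a * c)) =
      kf H2 Wa Wb Wc H0 p q r 0 0 0 + kb H2 Wa Wb Wc H0 p q r a b c a b c := by
    intro a b c; unfold kf kb; ring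
  have key : (kf H2 Wa Wb Wc H0 p q r 0 0 0 + kb H2 Wa Wb Wc H0 p q r a b c a b c) *
      (kf H2 Wa Wb Wc H0 p q r 0 0 0 + kb H2 Wa Wb Wc H0 p q r a' b' c' a' b' c') -
      kf H2 Wa Wb Wc H0 p q r 0 0 0 *
      kf H2 Wa Wb Wc H0 (p + a * (a + b + c) + a' * (a' + b' + c'))
        (q + b * (a + b + c) + b' * (a' + b' + c')) (r + c * (a + b + c) + c' * (a' + b' + c'))
        (-(b * c) + -(b' * c')) (-(a * b) + -(a' * b')) (-(a * c) + -(a' * c')) =
      kb H2 Wa Wb Wc H0 p q r a b c a' b' c' ^ 2 +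
        (2 * (Wa * Wb + Wa * Wc + Wb * Wc) - (Wa ^ 2 + Wb ^ 2 + Wc ^ 2) - 4 * H0 * H2) / 4 *
          (a * (b' * r - c' * q) - b * (a' * r - c' * p) + c * (a' * q - b' * p)) ^ 2 := by
    unfold kf kb; ring
  rw [e1, e1]
  have h1 : 0 ≤ (2 * (Wa * Wb + Wa * Wc + Wb * Wc) - (Wa ^ 2 + Wb ^ 2 + Wc ^ 2) - 4 * H0 * H2) / 4 *
      (a * (b' * r - c' * q) - b * (a' * r - c' * p) + c * (a' * q - b' * p)) ^ 2 :=
    mul_nonneg (by linarith) (sq_nonneg _)
  have h2 := sq_nonneg (kb H2 Wa Wb Wc H0 p q r a b c a' b' c')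
  linarith

/-- an isotropic vector comes from a rank one matrix. -/
theorem iso_root {x y z : ℝ} (h : x * y + x * z + y * z = 0) (s : 0 ≤ x + y + z) :
    ∃ u v : ℝ, y = u * (u + v) ∧ z = v * (u + v) ∧ x = -(u * v) := by
  have k : ∀ {x y z : ℝ}, x * y + x * z + y * z = 0 → 0 ≤ x + y + z → 0 ≤ x + y := by
    intro x y z h s
    rcases s.eq_or_lt with e | s
    · obtain ⟨rfl, rfl, rfl⟩ := Shp.null_zero h e.symm
      simp
    · refine le_of_mul_le_mul_left ?_ s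
      nlinarith [sq_nonneg (x + y), sq_nonneg x, sq_nonneg y]
  have h1 : 0 ≤ x + y := k h s
  have h2 : 0 ≤ x + z := k (x := x) (y := z) (z := y) (by linarith) (by linarith)
  have e1 := Real.mul_self_sqrt h1
  have e2 := Real.mul_self_sqrt h2
  set u := Real.sqrt (x + y)
  set v := Real.sqrt (x + z)
  have e3 : (x - u * v) * (x + u * v) = 0 := by
    have : (u * v) * (u * v) = (x + y) * (x + z) := by rw [← e1, ← e2]; ring
    linear_combination -this - h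
  rcases mul_eq_zero.1 e3 with e | e
  · exact ⟨u, -v, by linear_combination -e1 - e, by linear_combination -e2 - e,
      by linear_combination e⟩
  · exact ⟨u, v, by linear_combination -e1 - e, by linear_combination -e2 - e,
      by linear_combination e⟩

/-- the Schur complement of a rank one update is a rank one update. -/
theorem schur_iso {p q r a b c : ℝ} (h : 0 < p + q + r) :
    let s := a + b + c
    let p' := p + a * s
    let q' := q + b * s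
    let r' := r + c * s
    let x := q' * r' / (p' + q' + r') - q * r / (p + q + r) + -(b * c)
    let y := p' * q' / (p' + q' + r') - p * q / (p + q + r) + -(a * b)
    let z := p' * r' / (p' + q' + r') - p * r / (p + q + r) + -(a * c)
    x * y + x * z + y * z = 0 ∧ 0 ≤ x + y + z := by
  intro s p' q' r' x y z
  have e0 : p' + q' + r' = p + q + r + s ^ 2 := by simp only [p', q', r', s]; ring
  have h' : 0 < p + q + r + s ^ 2 := by positivity
  obtain ⟨k, hk⟩ : ∃ k, k = 1 / ((p + q + r) * (p + q + r + s ^ 2)) := ⟨_, rfl⟩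
  have k0 : 0 ≤ k := by rw [hk]; positivity
  obtain ⟨A, hA⟩ : ∃ A, A = (p + q + r) * a - p * s := ⟨_, rfl⟩
  obtain ⟨B, hB⟩ : ∃ B, B = (p + q + r) * b - q * s := ⟨_, rfl⟩
  obtain ⟨C, hC⟩ : ∃ C, C = (p + q + r) * c - r * s := ⟨_, rfl⟩
  have hs : C = -A - B := by rw [hA, hB, hC]; simp only [s]; ring
  have ex : x = -(k * (B * C)) := by
    simp only [x]; rw [e0, hk, hB, hC]; simp only [q', r']; field_simp; ring
  have ey : y = -(k * (A * B)) := by
    simp only [y]; rw [e0, hk, hA, hB]; simp only [q', p']; field_simp; ring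
  have ez : z = -(k * (A * C)) := by
    simp only [z]; rw [e0, hk, hA, hC]; simp only [p', r']; field_simp; ring
  rw [ex, ey, ez, hs]
  refine ⟨by ring, ?_⟩
  have : -(k * (B * (-A - B))) + -(k * (A * B)) + -(k * (A * (-A - B))) =
      k * ((A ^ 2 + B ^ 2 + (A + B) ^ 2) / 2) := by ring
  rw [this]; positivity

/-- overwrite three coordinates. -/
def put (a b c : ℕ) (x : ℕ → ℝ) (u v w : ℝ) : ℕ → ℝ :=
  fun i => if i = a then u else if i = b then v else if i = c then w else x i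

section
variable {a b c : ℕ}

theorem put_a (x : ℕ → ℝ) (u v w : ℝ) : put a b c x u v w a = u := by simp [put]

theorem put_b (hab : a ≠ b) (x : ℕ → ℝ) (u v w : ℝ) : put a b c x u v w b = v := by
  simp [put, hab.symm]

theorem put_c (hac : a ≠ c) (hbc : b ≠ c) (x : ℕ → ℝ) (u v w : ℝ) : put a b c x u v w c = w := by
  simp [put, hac.symm, hbc.symm]

theorem put_o (x : ℕ → ℝ) (u v w : ℝ) {i : ℕ} (h1 : i ≠ a) (h2 : i ≠ b) (h3 : i ≠ c) :
    put a b c x u v w i = x i := by simp [put, h1, h2, h3]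

theorem cs3 (a b c : ℕ) {Q : ℕ → Prop} (qa : Q a) (qb : Q b) (qc : Q c)
    (qo : ∀ i, i ≠ a → i ≠ b → i ≠ c → Q i) (i : ℕ) : Q i := by
  by_cases i1 : i = a
  · rwa [i1]
  by_cases i2 : i = b
  · rwa [i2]
  by_cases i3 : i = c
  · rwa [i3]
  exact qo i i1 i2 i3

/-- the star-triangle substitution. -/
noncomputable def sub (a b c : ℕ) (y : ℕ → ℝ) : ℕ → ℝ :=
  put a b c y (y b * y c / (y a + y b + y c)) (y a * y b / (y a + y b + y c))
    (y a * y c / (y a + y b + y c))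

/-- `τ` is a rank one move on the `K4` side. -/
def Mv (P : (ℕ → ℝ) → ℝ) (a b c : ℕ) (τ : ℕ → ℝ) : Prop :=
  ∃ u v w : ℝ, τ a = u * (u + v + w) ∧ τ b = v * (u + v + w) ∧ τ c = w * (u + v + w) ∧
    ∀ (z : ℕ → ℝ) (A B C : ℝ), P (put a b c (z + τ) A B C) =
      P (put a b c z (A + -(v * w)) (B + -(u * v)) (C + -(u * w)))

theorem tf_put {P : (ℕ → ℝ) → ℝ} (hab : a ≠ b) (hac : a ≠ c) (hbc : b ≠ c)
    {H2 Wa Wb Wc H0 : (ℕ → ℝ) → ℝ} (h : TriForm P a b c H2 Wa Wb Wc H0) (y : ℕ → ℝ) (A B C : ℝ) :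
    P (put a b c y A B C) = Shp.tf (H2 y) (Wa y) (Wb y) (Wc y) (H0 y) A B C := by
  rw [h.tf (y := y) (fun i i1 i2 i3 => put_o _ _ _ _ i1 i2 i3), put_a, put_b hab, put_c hac hbc]

/-- both moves on the `K4` side. -/
theorem in_in {P Q : (ℕ → ℝ) → ℝ} (hab : a ≠ b) (hac : a ≠ c) (hbc : b ≠ c)
    {H2 Wa Wb Wc H0 : (ℕ → ℝ) → ℝ} (h : TriForm P a b c H2 Wa Wb Wc H0)
    (hQ : ∀ y, y a + y b + y c ≠ 0 → Q y = (y a + y b + y c) * P (sub a b c y))
    (hq : QF P {a, b, c} {a, b, c}) {T T' : Finset ℕ} (hT : ∀ τ, Iso T τ → Mv P a b c τ)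
    (hT' : ∀ τ, Iso T' τ → Mv P a b c τ) : QFpos Q T T' := by
  intro y τ τ' i1 i2 p0 p1 p2 p3
  obtain ⟨u, v, w, ea, eb, ec, e⟩ := hT τ i1
  obtain ⟨u', v', w', ea', eb', ec', e'⟩ := hT' τ' i2
  have hd := (qf_iff_disc hab hac hbc h).1 hq y (fun i => (p0 i).le)
  have n0 : y a + y b + y c ≠ 0 := (add_pos (add_pos (p0 a) (p0 b)) (p0 c)).ne'
  have n1 : (y + τ) a + (y + τ) b + (y + τ) c ≠ 0 := (add_pos (add_pos (p1 a) (p1 b)) (p1 c)).ne'
  have n2 : (y + τ') a + (y + τ') b + (y + τ') c ≠ 0 :=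
    (add_pos (add_pos (p2 a) (p2 b)) (p2 c)).ne'
  have n3 : (y + τ + τ') a + (y + τ + τ') b + (y + τ + τ') c ≠ 0 :=
    (add_pos (add_pos (p3 a) (p3 b)) (p3 c)).ne'
  have k := kf_ineq hd (y a) (y b) (y c) u v w u' v' w'
  have q0 : Q y = kf (H2 y) (Wa y) (Wb y) (Wc y) (H0 y) (y a) (y b) (y c) 0 0 0 := by
    rw [hQ y n0, sub, tf_put hab hac hbc h, ← kf_eq _ _ _ _ _ _ _ _ n0]; simp
  have q1 : Q (y + τ) = kf (H2 y) (Wa y) (Wb y) (Wc y) (H0 y) ((y + τ) a) ((y + τ) b) ((y + τ) c)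
      (-(v * w)) (-(u * v)) (-(u * w)) := by
    rw [hQ _ n1, sub, e, tf_put hab hac hbc h, kf_eq _ _ _ _ _ _ _ _ n1]
  have q2 : Q (y + τ') = kf (H2 y) (Wa y) (Wb y) (Wc y) (H0 y) ((y + τ') a) ((y + τ') b)
      ((y + τ') c) (-(v' * w')) (-(u' * v')) (-(u' * w')) := by
    rw [hQ _ n2, sub, e', tf_put hab hac hbc h, kf_eq _ _ _ _ _ _ _ _ n2]
  have q3 : Q (y + τ + τ') = kf (H2 y) (Wa y) (Wb y) (Wc y) (H0 y) ((y + τ + τ') a)
      ((y + τ + τ') b) ((y + τ + τ') c) (-(v * w) + -(v' * w')) (-(u * v) + -(u' * v'))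
      (-(u * w) + -(u' * w')) := by
    rw [hQ _ n3, sub, e', e, tf_put hab hac hbc h, ← kf_eq _ _ _ _ _ _ _ _ n3]
    simp only [add_assoc, add_comm (-(v' * w')), add_comm (-(u' * v')), add_comm (-(u' * w'))]
  rw [q0, q1, q2, q3]
  simp only [Pi.add_apply, ea, eb, ec, ea', eb', ec']
  exact k

theorem sub_add {y τ : ℕ → ℝ} (hab : a ≠ b) (hac : a ≠ c) (hbc : b ≠ c) (ta : τ a = 0)
    (tb : τ b = 0) (tc : τ c = 0) : sub a b c (y + τ) = sub a b c y + τ := by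
  funext i
  refine cs3 a b c (Q := fun i => sub a b c (y + τ) i = (sub a b c y + τ) i) ?_ ?_ ?_ ?_ i
  · simp [sub, put_a, ta, tb, tc]
  · simp [sub, put_b hab, ta, tb, tc]
  · simp [sub, put_c hac hbc, ta, tb, tc]
  · intro i i1 i2 i3; simp [sub, put_o _ _ _ _ i1 i2 i3]

theorem sub_pos {y : ℕ → ℝ} (hab : a ≠ b) (hac : a ≠ c) (hbc : b ≠ c) (hy : ∀ i, 0 < y i) :
    ∀ i, 0 < sub a b c y i := by
  have pa := hy a
  have pb := hy b
  have pc := hy c
  refine cs3 a b c ?_ ?_ ?_ ?_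
  · rw [sub, put_a]; positivity
  · rw [sub, put_b hab]; positivity
  · rw [sub, put_c hac hbc]; positivity
  · intro i i1 i2 i3; rw [sub, put_o _ _ _ _ i1 i2 i3]; exact hy i

/-- both moves outside. -/
theorem out_out {P Q : (ℕ → ℝ) → ℝ} (hab : a ≠ b) (hac : a ≠ c) (hbc : b ≠ c)
    (hQ : ∀ y, y a + y b + y c ≠ 0 → Q y = (y a + y b + y c) * P (sub a b c y))
    {T T' : Finset ℕ} (ta : a ∉ T) (tb : b ∉ T) (tc : c ∉ T) (ta' : a ∉ T') (tb' : b ∉ T')
    (tc' : c ∉ T') (hq : QF P T T') : QFpos Q T T' := by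
  intro y τ τ' i1 i2 p0 p1 p2 p3
  have za := i1.1 a ta
  have zb := i1.1 b tb
  have zc := i1.1 c tc
  have za' := i2.1 a ta'
  have zb' := i2.1 b tb'
  have zc' := i2.1 c tc'
  have n0 : 0 < y a + y b + y c := add_pos (add_pos (p0 a) (p0 b)) (p0 c)
  have s1 := sub_add (y := y) hab hac hbc za zb zc
  have s2 := sub_add (y := y) hab hac hbc za' zb' zc'
  have s3 := sub_add (y := y + τ) hab hac hbc za' zb' zc'
  rw [s1] at s3
  have k := hq (sub a b c y) τ τ' i1 i2 (fun i => (sub_pos hab hac hbc p0 i).le)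
    (fun i => by have := sub_pos (y := y + τ) hab hac hbc p1 i; rw [s1] at this; exact this.le)
    (fun i => by have := sub_pos (y := y + τ') hab hac hbc p2 i; rw [s2] at this; exact this.le)
    (fun i => by
      have := sub_pos (y := y + τ + τ') hab hac hbc p3 i; rw [s3] at this; exact this.le)
  rw [hQ y n0.ne', hQ (y + τ) (by simpa [za, zb, zc] using n0.ne'),
    hQ (y + τ') (by simpa [za', zb', zc'] using n0.ne'),
    hQ (y + τ + τ') (by simpa [za, zb, zc, za', zb', zc'] using n0.ne'), s1, s2, s3]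
  simp only [Pi.add_apply, za, zb, zc, za', zb', zc', add_zero]
  have := mul_le_mul_of_nonneg_left k (mul_pos n0 n0).le
  linarith

theorem tf_affine (H2 Wa Wb Wc H0 A B C t : ℝ) {x y z : ℝ} (h : x * y + x * z + y * z = 0) :
    Shp.tf H2 Wa Wb Wc H0 (A + t * x) (B + t * y) (C + t * z) =
      Shp.tf H2 Wa Wb Wc H0 A B C +
        t * (Shp.tf H2 Wa Wb Wc H0 (A + x) (B + y) (C + z) - Shp.tf H2 Wa Wb Wc H0 A B C) := by
  unfold Shp.tf
  linear_combination (H0 * (t ^ 2 - t)) * h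

theorem small {A B C : ℝ} (hA : 0 < A) (hB : 0 < B) (hC : 0 < C) (x y z : ℝ) :
    ∃ t, 0 < t ∧ 0 ≤ A + t * x ∧ 0 ≤ B + t * y ∧ 0 ≤ C + t * z := by
  have k : ∀ {A : ℝ}, 0 < A → ∀ x : ℝ, ∀ᶠ t in nhdsWithin (0 : ℝ) (Set.Ioi 0), 0 ≤ A + t * x := by
    intro A hA x
    have : ContinuousAt (fun t : ℝ => A + t * x) 0 := by fun_prop
    have h2 := this.eventually (lt_mem_nhds (show 0 < A + 0 * x by simpa using hA))
    exact (h2.mono fun t ht => ht.le).filter_mono nhdsWithin_le_nhds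
  obtain ⟨t, ht⟩ := (((k hA x).and ((k hB y).and (k hC z))).and self_mem_nhdsWithin).exists
  exact ⟨t, ht.2, ht.1.1, ht.1.2.1, ht.1.2.2⟩

/-- one move outside, one move on the `K4` side. -/
theorem out_in {P Q : (ℕ → ℝ) → ℝ} (hab : a ≠ b) (hac : a ≠ c) (hbc : b ≠ c)
    {H2 Wa Wb Wc H0 : (ℕ → ℝ) → ℝ} (h : TriForm P a b c H2 Wa Wb Wc H0)
    (hQ : ∀ y, y a + y b + y c ≠ 0 → Q y = (y a + y b + y c) * P (sub a b c y))
    {T T' : Finset ℕ} (ta : a ∉ T) (tb : b ∉ T) (tc : c ∉ T) (hq : QF P T {a, b, c})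
    (hT' : ∀ τ, Iso T' τ → Mv P a b c τ) : QFpos Q T T' := by
  intro y τ τ' i1 i2 p0 p1 p2 p3
  have za := i1.1 a ta
  have zb := i1.1 b tb
  have zc := i1.1 c tc
  obtain ⟨u, v, w, ea, eb, ec, e⟩ := hT' τ' i2
  have n0 : 0 < y a + y b + y c := add_pos (add_pos (p0 a) (p0 b)) (p0 c)
  have n2 : 0 < (y + τ') a + (y + τ') b + (y + τ') c := add_pos (add_pos (p2 a) (p2 b)) (p2 c)
  obtain ⟨hiso, hsum⟩ := schur_iso (a := u) (b := v) (c := w) n0
  rw [← ea, ← eb, ← ec] at hiso hsum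
  obtain ⟨A, hA⟩ : ∃ A, A = y b * y c / (y a + y b + y c) := ⟨_, rfl⟩
  obtain ⟨B, hB⟩ : ∃ B, B = y a * y b / (y a + y b + y c) := ⟨_, rfl⟩
  obtain ⟨C, hC⟩ : ∃ C, C = y a * y c / (y a + y b + y c) := ⟨_, rfl⟩
  have pa := p0 a
  have pb := p0 b
  have pc := p0 c
  have A0 : 0 < A := by rw [hA]; positivity
  have B0 : 0 < B := by rw [hB]; positivity
  have C0 : 0 < C := by rw [hC]; positivity
  rw [← hA, ← hB, ← hC] at hiso hsum
  obtain ⟨x1, h1⟩ : ∃ x, x = (y b + τ' b) * (y c + τ' c) /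
    (y a + τ' a + (y b + τ' b) + (y c + τ' c)) - A + -(v * w) := ⟨_, rfl⟩
  obtain ⟨x2, h2⟩ : ∃ x, x = (y a + τ' a) * (y b + τ' b) /
    (y a + τ' a + (y b + τ' b) + (y c + τ' c)) - B + -(u * v) := ⟨_, rfl⟩
  obtain ⟨x3, h3⟩ : ∃ x, x = (y a + τ' a) * (y c + τ' c) /
    (y a + τ' a + (y b + τ' b) + (y c + τ' c)) - C + -(u * w) := ⟨_, rfl⟩
  rw [← h1, ← h2, ← h3] at hiso hsum
  obtain ⟨t, t0, t1, t2, t3⟩ := small A0 B0 C0 x1 x2 x3
  have iδ : Iso {a, b, c} (put a b c 0 (t * x1) (t * x2) (t * x3)) := by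
    refine (Shp.iso3 hab hac hbc).2 ⟨fun i i1 i2 i3 => put_o _ _ _ _ i1 i2 i3, ?_, ?_⟩
    · rw [put_a, put_b hab, put_c hac hbc]; linear_combination t ^ 2 * hiso
    · rw [put_a, put_b hab, put_c hac hbc]
      have := mul_nonneg t0.le hsum
      linarith
  have f1 : put a b c y A B C + τ = put a b c (y + τ) A B C := by
    funext i
    refine cs3 a b c (Q := fun i => (put a b c y A B C + τ) i = put a b c (y + τ) A B C i)
      ?_ ?_ ?_ ?_ i
    · simp [put_a, za]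
    · simp [put_b hab, zb]
    · simp [put_c hac hbc, zc]
    · intro i i1 i2 i3; simp [put_o _ _ _ _ i1 i2 i3]
  have f2 : ∀ z, put a b c z A B C + put a b c 0 (t * x1) (t * x2) (t * x3) =
      put a b c z (A + t * x1) (B + t * x2) (C + t * x3) := by
    intro z
    funext i
    refine cs3 a b c (Q := fun i => (put a b c z A B C + put a b c 0 (t * x1) (t * x2) (t * x3)) i =
      put a b c z (A + t * x1) (B + t * x2) (C + t * x3) i) ?_ ?_ ?_ ?_ i
    · simp [put_a]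
    · simp [put_b hab]
    · simp [put_c hac hbc]
    · intro i i1 i2 i3; simp [put_o _ _ _ _ i1 i2 i3]
  have nn : ∀ (z : ℕ → ℝ) (A B C : ℝ), (∀ i, 0 < z i) → 0 ≤ A → 0 ≤ B → 0 ≤ C →
      ∀ i, 0 ≤ put a b c z A B C i := by
    intro z A B C hz a0 b0 c0
    refine cs3 a b c (by rwa [put_a]) (by rwa [put_b hab]) (by rwa [put_c hac hbc]) ?_
    intro i i1 i2 i3
    rw [put_o _ _ _ _ i1 i2 i3]; exact (hz i).le
  have k := hq (put a b c y A B C) τ _ i1 iδ (nn y A B C p0 A0.le B0.le C0.le)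
    (fun i => by have := nn (y + τ) A B C p1 A0.le B0.le C0.le i; rwa [← f1] at this)
    (fun i => by have := nn y _ _ _ p0 t1 t2 t3 i; rwa [← f2] at this)
    (fun i => by have := nn (y + τ) _ _ _ p1 t1 t2 t3 i; rwa [← f2, ← f1] at this)
  rw [f1, f2, f2, tf_put hab hac hbc h, tf_put hab hac hbc h, tf_put hab hac hbc h,
    tf_put hab hac hbc h, tf_affine _ _ _ _ _ _ _ _ _ hiso, tf_affine _ _ _ _ _ _ _ _ _ hiso] at k
  have q0 : Q y = (y a + y b + y c) * Shp.tf (H2 y) (Wa y) (Wb y) (Wc y) (H0 y) A B C := by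
    rw [hQ y n0.ne', sub, tf_put hab hac hbc h, hA, hB, hC]
  have q1 : Q (y + τ) = (y a + y b + y c) * Shp.tf (H2 (y + τ)) (Wa (y + τ)) (Wb (y + τ))
      (Wc (y + τ)) (H0 (y + τ)) A B C := by
    rw [hQ (y + τ) (by simpa [za, zb, zc] using n0.ne'), sub, tf_put hab hac hbc h, hA, hB, hC]
    simp only [Pi.add_apply, za, zb, zc, add_zero]
  have q2 : Q (y + τ') = ((y + τ') a + (y + τ') b + (y + τ') c) *
      Shp.tf (H2 y) (Wa y) (Wb y) (Wc y) (H0 y) (A + x1) (B + x2) (C + x3) := by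
    rw [hQ _ n2.ne', sub, e, tf_put hab hac hbc h, h1, h2, h3]
    simp only [Pi.add_apply, ← add_assoc, add_sub_cancel]
  have q3 : Q (y + τ + τ') = ((y + τ') a + (y + τ') b + (y + τ') c) *
      Shp.tf (H2 (y + τ)) (Wa (y + τ)) (Wb (y + τ)) (Wc (y + τ)) (H0 (y + τ))
        (A + x1) (B + x2) (C + x3) := by
    rw [hQ (y + τ + τ') (by simpa [za, zb, zc] using n2.ne'), sub, e, tf_put hab hac hbc h,
      h1, h2, h3]
    simp only [Pi.add_apply, za, zb, zc, add_zero, ← add_assoc, add_sub_cancel]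
  rw [q0, q1, q2, q3]
  generalize Shp.tf (H2 y) (Wa y) (Wb y) (Wc y) (H0 y) A B C = g0 at *
  generalize Shp.tf (H2 y) (Wa y) (Wb y) (Wc y) (H0 y) (A + x1) (B + x2) (C + x3) = g2 at *
  generalize Shp.tf (H2 (y + τ)) (Wa (y + τ)) (Wb (y + τ)) (Wc (y + τ)) (H0 (y + τ)) A B C = g1
    at *
  generalize Shp.tf (H2 (y + τ)) (Wa (y + τ)) (Wb (y + τ)) (Wc (y + τ)) (H0 (y + τ))
    (A + x1) (B + x2) (C + x3) = g3 at *
  have k2 : g0 * g3 ≤ g1 * g2 := by
    refine le_of_mul_le_mul_left ?_ t0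
    linarith
  have := mul_le_mul_of_nonneg_left k2 (mul_pos n0 n2).le
  linarith

/-- a move supported on the triad and one further element `x` which can be shifted. -/
theorem mv_of {P : (ℕ → ℝ) → ℝ} {τ : ℕ → ℝ} {x t : ℕ} (xa : x ≠ a) (xb : x ≠ b) (xc : x ≠ c)
    (hP : ∀ y s, P (y + Pi.single x s - Pi.single t s) = P y) (z : ℕ → ℝ) {A B C A' B' C' : ℝ}
    (h0 : ∀ i, i ≠ a → i ≠ b → i ≠ c → i ≠ x → τ i = 0)
    (h1 : ∀ i, i = a ∨ i = b ∨ i = c →
      put a b c z A B C i = put a b c z A' B' C' i - (Pi.single t (τ x) : ℕ → ℝ) i)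
    (ht : t = a ∨ t = b ∨ t = c) :
    P (put a b c (z + τ) A B C) = P (put a b c z A' B' C') := by
  rw [← hP (put a b c z A' B' C') (τ x)]
  refine congrArg P (funext fun i => ?_)
  by_cases hi : i = a ∨ i = b ∨ i = c
  · have e1 : put a b c (z + τ) A B C i = put a b c z A B C i := by
      unfold put; split_ifs <;> first | rfl | tauto
    have e2 : i ≠ x := by rintro rfl; tauto
    rw [e1, h1 i hi]; simp [Pi.single_eq_of_ne e2]
  · simp only [not_or] at hi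
    have e2 : i ≠ t := by rintro rfl; tauto
    simp only [Pi.add_apply, Pi.sub_apply, put_o _ _ _ _ hi.1 hi.2.1 hi.2.2, Pi.single_eq_of_ne e2]
    by_cases e3 : i = x
    · subst e3; simp
    · simp [Pi.single_eq_of_ne e3, h0 i hi.1 hi.2.1 hi.2.2 e3]

theorem mv_a {P : (ℕ → ℝ) → ℝ} (hab : a ≠ b) (hac : a ≠ c) (hbc : b ≠ c) {x : ℕ} (xa : x ≠ a)
    (xb : x ≠ b) (xc : x ≠ c) (hP : ∀ y s, P (y + Pi.single x s - Pi.single a s) = P y)
    (τ : ℕ → ℝ) (h : Iso {x, b, c} τ) : Mv P a b c τ := by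
  obtain ⟨k1, k2, k3⟩ := (Shp.iso3 xb xc hbc).1 h
  obtain ⟨u, v, e1, e2, e3⟩ := iso_root k2 k3
  refine ⟨0, u, v, by rw [k1 a xa.symm hab hac]; ring, by rw [e1]; ring, by rw [e2]; ring,
    fun z A B C => mv_of xa xb xc hP z (fun i _ i2 i3 i4 => k1 i i4 i2 i3) ?_ (Or.inl rfl)⟩
  rintro i (rfl | rfl | rfl)
  · simp [put_a, e3]
  · simp [put_b hab, Pi.single_eq_of_ne hab.symm]
  · simp [put_c hac hbc, Pi.single_eq_of_ne hac.symm]

theorem mv_b {P : (ℕ → ℝ) → ℝ} (hab : a ≠ b) (hac : a ≠ c) (hbc : b ≠ c) {x : ℕ} (xa : x ≠ a)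
    (xb : x ≠ b) (xc : x ≠ c) (hP : ∀ y s, P (y + Pi.single x s - Pi.single b s) = P y)
    (τ : ℕ → ℝ) (h : Iso {x, a, b} τ) : Mv P a b c τ := by
  obtain ⟨k1, k2, k3⟩ := (Shp.iso3 xa xb hab).1 h
  obtain ⟨u, v, e1, e2, e3⟩ := iso_root k2 k3
  refine ⟨u, v, 0, by rw [e1]; ring, by rw [e2]; ring, by rw [k1 c xc.symm hac.symm hbc.symm]; ring,
    fun z A B C => mv_of xa xb xc hP z (fun i i1 i2 _ i4 => k1 i i4 i1 i2) ?_ (Or.inr (Or.inl rfl))⟩
  rintro i (rfl | rfl | rfl)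
  · simp [put_a, Pi.single_eq_of_ne hab]
  · simp [put_b hab, e3]
  · simp [put_c hac hbc, Pi.single_eq_of_ne hbc.symm]

theorem mv_c {P : (ℕ → ℝ) → ℝ} (hab : a ≠ b) (hac : a ≠ c) (hbc : b ≠ c) {x : ℕ} (xa : x ≠ a)
    (xb : x ≠ b) (xc : x ≠ c) (hP : ∀ y s, P (y + Pi.single x s - Pi.single c s) = P y)
    (τ : ℕ → ℝ) (h : Iso {x, a, c} τ) : Mv P a b c τ := by
  obtain ⟨k1, k2, k3⟩ := (Shp.iso3 xa xc hac).1 h
  obtain ⟨u, v, e1, e2, e3⟩ := iso_root k2 k3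
  refine ⟨u, 0, v, by rw [e1]; ring, by rw [k1 b xb.symm hab.symm hbc]; ring, by rw [e2]; ring,
    fun z A B C => mv_of xa xb xc hP z (fun i i1 _ i3 i4 => k1 i i4 i1 i3) ?_ (Or.inr (Or.inr rfl))⟩
  rintro i (rfl | rfl | rfl)
  · simp [put_a, Pi.single_eq_of_ne hac]
  · simp [put_b hab, Pi.single_eq_of_ne hbc]
  · simp [put_c hac hbc, e3]

theorem mv_single {P : (ℕ → ℝ) → ℝ} (hab : a ≠ b) (hac : a ≠ c) (hbc : b ≠ c) {e : ℕ}
    (he : e = a ∨ e = b ∨ e = c) (τ : ℕ → ℝ) (h : Iso {e} τ) : Mv P a b c τ := by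
  obtain ⟨k1, -, k3⟩ := h
  rw [sum_singleton] at k3
  simp only [mem_singleton] at k1
  have e1 := Real.mul_self_sqrt k3
  have e2 : ∀ (z : ℕ → ℝ) (A B C : ℝ), put a b c (z + τ) A B C = put a b c z A B C := by
    intro z A B C
    funext i
    unfold put
    split_ifs with i1 i2 i3
    · rfl
    · rfl
    · rfl
    · rw [Pi.add_apply, k1 i (by rintro rfl; tauto), add_zero]
  rcases he with rfl | rfl | rfl
  · exact ⟨√(τ e), 0, 0, by rw [add_zero, add_zero, e1], by rw [k1 b hab.symm]; ring,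
      by rw [k1 c hac.symm]; ring, fun z A B C => by rw [e2]; simp⟩
  · exact ⟨0, √(τ e), 0, by rw [k1 a hab]; ring, by rw [add_zero, zero_add, e1],
      by rw [k1 c hbc.symm]; ring, fun z A B C => by rw [e2]; simp⟩
  · exact ⟨0, 0, √(τ e), by rw [k1 a hac]; ring, by rw [k1 b hbc]; ring,
      by rw [zero_add, zero_add, e1], fun z A B C => by rw [e2]; simp⟩

end

end Rul

end Pool.Agent.Lib.MP_c69b6d_co.F
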