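import Pool.Agent.Lib.MP_c69b6d_co.F.Data

/-! Stage B: the field with four elements and the definitions used for the proof that a ternary
display without a member of `NL` as a minor is also representable over that field. -/

namespace Pool.Agent.Lib.MP_c69b6d_co.F

open Finset

/-- the field with four elements `0, 1, a, b`, where `b = a * a = a + 1`. -/
inductive F4 : Type
  | o : F4
  | e : F4
  | a : F4
  | b : F4
  deriving DecidableEq

namespace F4

instance : Fintype F4 := ⟨{o, e, a, b}, by intro x; cases x <;> simp⟩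

def add : F4 → F4 → F4
  | o, y => y
  | x, o => x
  | e, e => o
  | e, a => b
  | e, b => a
  | a, e => b
  | a, a => o
  | a, b => e
  | b, e => a
  | b, a => e
  | b, b => o

def mul : F4 → F4 → F4
  | o, _ => o
  | _, o => o
  | e, y => y
  | x, e => x
  | a, a => b
  | a, b => e
  | b, a => e
  | b, b => a

def inv : F4 → F4
  | o => o
  | e => e
  | a => b
  | b => a

instance : Zero F4 := ⟨o⟩
instance : One F4 := ⟨e⟩
instance : Add F4 := ⟨add⟩
instance : Mul F4 := ⟨mul⟩
instance : Neg F4 := ⟨fun x => x⟩
instance : Inv F4 := ⟨inv⟩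

instance : CommRing F4 where
  add_assoc := by decide
  zero_add := by decide
  add_zero := by decide
  add_comm := by decide
  neg_add_cancel := by decide
  left_distrib := by decide
  right_distrib := by decide
  zero_mul := by decide
  mul_zero := by decide
  mul_assoc := by decide
  one_mul := by decide
  mul_one := by decide
  mul_comm := by decide
  nsmul := nsmulRec
  zsmul := zsmulRec

instance : Field F4 where
  inv := inv
  exists_pair_ne := ⟨0, 1, by decide⟩
  mul_inv_cancel := by decide
  inv_zero := by decide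
  nnqsmul := _
  nnqsmul_def := fun _ _ => rfl
  qsmul := _
  qsmul_def := fun _ _ => rfl

theorem neg_eq (x : F4) : -x = x := rfl

theorem sub_eq (x y : F4) : x - y = x + y := by rw [sub_eq_add_neg, neg_eq]

theorem div_eq (x y : F4) : x / y = x * y⁻¹ := div_eq_mul_inv x y

/-- the conjugation `x ↦ x * x`. -/
def cj : F4 →+* F4 where
  toFun := fun x => x * x
  map_one' := by decide
  map_mul' := by decide
  map_zero' := by decide
  map_add' := by decide

theorem cj_apply (x : F4) : cj x = x * x := rfl

end F4

namespace Disp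

variable {K K' : Type} [Field K] [Field K']

/-- the image of a display under a field homomorphism. -/
def map (D : Disp K) (f : K →+* K') : Disp K' :=
  { Z := D.Z, row := D.row, S := fun i j => f (D.S i j)
    skew := fun i j => by rw [D.skew i j, map_neg]
    bip := fun i j h => by rw [D.bip i j h, map_zero] }

/-- `D` and `H` show the same rows and have the same bases on `U`. -/
structure Val (D : Disp K) (H : Disp K') (U : Finset ℕ) : Prop where
  row : ∀ i ∈ U, H.row i = D.row i
  base : ∀ F, (H.restrict U).Base F ↔ (D.restrict U).Base F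

/-- `D` is also representable over the field with four elements. -/
def SR (D : Disp F3) : Prop := ∃ H : Disp F4, Val D H D.Z

/-- the part of `D` on `U` is not binary. -/
def Nb (D : Disp K) (U : Finset ℕ) : Prop := ¬ NoW4 (D.restrict U) U

/-- `G` is obtained from `H` on `U` by rescaling and possibly conjugation. -/
def Eqv (H G : Disp F4) (U : Finset ℕ) : Prop :=
  ∃ ε : ℕ → F4, (∀ i, ε i ≠ 0) ∧
    ((∀ i ∈ U, ∀ j ∈ U, G.S i j = ε i * ε j * H.S i j) ∨
      ∀ i ∈ U, ∀ j ∈ U, G.S i j = ε i * ε j * F4.cj (H.S i j))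

/-- the part of `D` on `U` has at most one representation over the field with four elements. -/
def Uniq (D : Disp F3) (U : Finset ℕ) : Prop :=
  ∀ H G : Disp F4, Val D H U → Val D G U → Eqv H G U

/-- the row `w` is supported on the set `T` of two or three columns, which span a plane. -/
structure Cfg (M : Disp K) (w a b : ℕ) (T : Finset ℕ) : Prop where
  mw : w ∈ M.Z
  rw : M.row w = true
  sub : T ⊆ M.Z
  cols : ∀ t ∈ T, M.row t = false
  ma : a ∈ T
  mb : b ∈ T
  card : T.card ≤ 3
  supp : ∀ j ∈ M.Z, M.S w j ≠ 0 ↔ j ∈ T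
  span : ∀ t ∈ T, t ≠ a → t ≠ b → ∃ α β : K, α ≠ 0 ∧ β ≠ 0 ∧
    ∀ i ∈ M.Z, M.S i t = α * M.S i a + β * M.S i b
  ind : ∃ i ∈ M.Z, ∃ i' ∈ M.Z, i ≠ w ∧ i' ≠ w ∧ M.S i a * M.S i' b ≠ M.S i b * M.S i' a

/-- contract the row `w` and add, under the same label, the point of the line through `a, b` which
the row `w` kills. -/
def yd (M : Disp K) (w a b : ℕ) : Disp K :=
  M.addEl w false (fun i => M.S i a * M.S w b - M.S i b * M.S w a)

/-- a deletion pair `u, v` with a 3-connected non-binary core `N`. -/
structure Pair (E : Disp F3) (u v : ℕ) (N : Finset ℕ) : Prop where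
  mu : u ∈ E.Z
  mv : v ∈ E.Z
  ne : u ≠ v
  ru : E.row u = false
  rv : E.row v = false
  cu : (E.restrict (E.Z.erase u)).Conn3
  cv : (E.restrict (E.Z.erase v)).Conn3
  sub : N ⊆ (E.Z.erase u).erase v
  cN : (E.restrict N).Conn3
  nb : E.Nb N
  deg : ∀ r ∈ (E.Z.erase u).erase v, r ∉ N → E.row r = true ∧ E.Deg N r

end Disp

open Disp

/-- the main lemma. -/
def MLStmt : Prop :=
  ∀ (D : Disp F3) (H : Disp F4) (u v : ℕ), Free NL D → u ∈ D.Z → v ∈ D.Z → u ≠ v →
    D.row u = false → D.row v = false →
    (D.restrict (D.Z.erase u)).Conn3 → (D.restrict (D.Z.erase v)).Conn3 →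
    D.Nb ((D.Z.erase u).erase v) → Val D H (D.Z.erase u) → Val D H (D.Z.erase v) → Val D H D.Z

end Pool.Agent.Lib.MP_c69b6d_co.F
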