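import Pool.Agent.Lib.MP_c69b6d_co.F.SB0
import Pool.Agent.Lib.MP_c69b6d_co.F.Lam

/-! Stage B: basic facts on `Val` and `SR`. -/

namespace Pool.Agent.Lib.MP_c69b6d_co.F

open Finset

namespace Disp

variable {K K' K'' : Type} [Field K] [Field K'] [Field K'']

theorem Val.refl (D : Disp K) (U : Finset ℕ) : Val D D U := ⟨fun _ _ => rfl, fun _ => Iff.rfl⟩

theorem Val.symm {D : Disp K} {H : Disp K'} {U : Finset ℕ} (h : Val D H U) : Val H D U :=
  ⟨fun i hi => (h.row i hi).symm, fun F => (h.base F).symm⟩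

theorem Val.trans {D : Disp K} {H : Disp K'} {G : Disp K''} {U : Finset ℕ} (h : Val D H U)
    (h' : Val H G U) : Val D G U :=
  ⟨fun i hi => (h'.row i hi).trans (h.row i hi), fun F => (h'.base F).trans (h.base F)⟩

theorem SB1.pivot_B {D : Disp K} {i j : ℕ} (hj : j ∈ D.Z) (ri : D.row i = true)
    (rj : D.row j = false) (h : D.S i j ≠ 0) : (D.pivot i j).B = insert j (D.B.erase i) := by
  have hij := ne_of_S h
  ext k
  simp only [mem_B, pivot_Z, pivot_row h, mem_insert, mem_erase]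
  by_cases h1 : k = i
  · subst h1; simp [ri, hij]
  · by_cases h2 : k = j
    · subst h2; simp [rj, hj]
    · simp [h1, h2]

/-- a set on which the word of the row `i` vanishes is not a base. -/
theorem SB1.not_base {D : Disp K} {i : ℕ} (hi : i ∈ D.Z) (ri : D.row i = true) {F : Finset ℕ}
    (h0 : i ∉ F) (h : ∀ j ∈ F, D.S i j = 0) : ¬ D.Base F := by
  intro hb
  have := hb.2.2 _ (row_word hi ri) (fun k hk => by
    have hki : k ≠ i := fun e => h0 (e ▸ hk)
    simp [hki, h k hk])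
  have h1 := congrFun this i
  simp at h1

/-- exchange of a row `i` for a column `j`. -/
theorem base_swap {D : Disp K} {i j : ℕ} (hi : i ∈ D.Z) (hj : j ∈ D.Z) (ri : D.row i = true)
    (rj : D.row j = false) : D.Base (insert j (D.B.erase i)) ↔ D.S i j ≠ 0 := by
  have hij : i ≠ j := fun e => by rw [e, rj] at ri; exact absurd ri (by simp)
  constructor
  · intro hb h0
    refine SB1.not_base hi ri (by simp [hij]) (fun k hk => ?_) hb
    rcases mem_insert.1 hk with rfl | hk
    · exact h0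
    · exact D.bip _ _ (ri.trans (mem_B.1 (mem_erase.1 hk).2).2.symm)
  · intro h
    have hr : D.Reach (D.pivot i j) := ReachIn.single hi hj
    rw [← hr.base_iff, ← SB1.pivot_B hj ri rj h]
    exact base_B _

theorem SB1.swap2 {D : Disp K} {x y u v : ℕ} (hx : x ∈ D.Z) (hy : y ∈ D.Z) (hu : u ∈ D.Z)
    (hv : v ∈ D.Z) (hxy : x ≠ y) (huv : u ≠ v) (rx : D.row x = true) (ry : D.row y = true)
    (ru : D.row u = false) (rv : D.row v = false) (h : D.S x u ≠ 0) :
    D.Base (insert u (insert v ((D.B.erase x).erase y))) ↔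
      D.S x u * D.S y v ≠ D.S x v * D.S y u := by
  have hyu : y ≠ u := fun e => by rw [e, ru] at ry; exact absurd ry (by simp)
  have hvx : v ≠ x := fun e => by rw [← e, rv] at rx; exact absurd rx (by simp)
  have hr : D.Reach (D.pivot x u) := ReachIn.single hx hu
  have r1 : (D.pivot x u).row y = true := by rw [pivot_row h]; simp [hxy.symm, hyu, ry]
  have r2 : (D.pivot x u).row v = false := by rw [pivot_row h]; simp [huv.symm, hvx, rv]
  have key := base_swap (D := D.pivot x u) (by simpa using hy) (by simpa using hv) r1 r2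
  rw [hr.base_iff, SB1.pivot_B hu rx ru h, pivot_S_gen h hxy.symm hyu hvx huv.symm,
    D.bip y x (ry.trans rx.symm), erase_insert_of_ne hyu.symm, Finset.insert_comm] at key
  rw [key]
  have e : D.S y v - D.S y u * D.S x v / D.S x u - 0 * D.S u v / D.S u x =
      (D.S x u * D.S y v - D.S x v * D.S y u) / D.S x u := by
    field_simp
    ring
  rw [e, div_ne_zero_iff, sub_ne_zero]
  exact ⟨fun a => a.1, fun a => ⟨a, h⟩⟩

/-- exchange of two rows for two columns. -/
theorem base_swap2 {D : Disp K} {x y u v : ℕ} (hx : x ∈ D.Z) (hy : y ∈ D.Z) (hu : u ∈ D.Z)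
    (hv : v ∈ D.Z) (hxy : x ≠ y) (huv : u ≠ v) (rx : D.row x = true) (ry : D.row y = true)
    (ru : D.row u = false) (rv : D.row v = false) :
    D.Base (insert u (insert v ((D.B.erase x).erase y))) ↔
      D.S x u * D.S y v ≠ D.S x v * D.S y u := by
  by_cases h1 : D.S x u = 0
  · by_cases h2 : D.S x v = 0
    · have hxu : x ≠ u := fun e => by rw [e, ru] at rx; exact absurd rx (by simp)
      have hxv : x ≠ v := fun e => by rw [e, rv] at rx; exact absurd rx (by simp)
      refine iff_of_false (SB1.not_base hx rx (by simp [hxu, hxv]) fun k hk => ?_) (by simp [h1, h2])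
      rcases mem_insert.1 hk with rfl | hk
      · exact h1
      · rcases mem_insert.1 hk with rfl | hk
        · exact h2
        · exact D.bip _ _ (rx.trans (mem_B.1 (mem_erase.1 (mem_erase.1 hk).2).2).2.symm)
    · rw [Finset.insert_comm, SB1.swap2 hx hy hv hu hxy huv.symm rx ry rv ru h2]
      exact ne_comm
  · exact SB1.swap2 hx hy hu hv hxy huv rx ry ru rv h1

theorem SB1.B_eq {D : Disp K} {H : Disp K'} {U : Finset ℕ} (h : ∀ i ∈ U, H.row i = D.row i) :
    (H.restrict U).B = (D.restrict U).B :=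
  filter_congr fun i hi => by
    show H.row i = true ↔ D.row i = true
    rw [h i hi]

theorem SB1.supp {D : Disp K} {H : Disp K'} {U : Finset ℕ} (h : Val D H U) {i j : ℕ} (hi : i ∈ U)
    (hj : j ∈ U) (ri : D.row i = true) (rj : D.row j = false) : H.S i j = 0 ↔ D.S i j = 0 := by
  have a := base_swap (D := D.restrict U) hi hj ri rj
  have b := base_swap (D := H.restrict U) hi hj ((h.row i hi).trans ri) ((h.row j hj).trans rj)
  rw [SB1.B_eq h.row, h.base, a] at b
  exact (not_iff_not.1 b).symm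

theorem Val.supp {D : Disp K} {H : Disp K'} {U : Finset ℕ} (h : Val D H U) {i j : ℕ} (hi : i ∈ U)
    (hj : j ∈ U) : H.S i j = 0 ↔ D.S i j = 0 := by
  by_cases e : D.row i = D.row j
  · exact iff_of_true (H.bip i j (by rw [h.row i hi, h.row j hj, e])) (D.bip i j e)
  · cases ri : D.row i
    · have rj : D.row j = true := by
        cases rj : D.row j
        · exact absurd (ri.trans rj.symm) e
        · rfl
      rw [H.skew, D.skew, neg_eq_zero, neg_eq_zero]
      exact SB1.supp h hj hi rj ri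
    · have rj : D.row j = false := by
        cases rj : D.row j
        · rfl
        · exact absurd (ri.trans rj.symm) e
      exact SB1.supp h hi hj ri rj

theorem Val.pivot {D : Disp K} {H : Disp K'} {U : Finset ℕ} (h : Val D H U) {x y : ℕ}
    (hx : x ∈ U) (hy : y ∈ U) : Val (D.pivot x y) (H.pivot x y) U := by
  by_cases h0 : D.S x y = 0
  · rw [pivot_of_zero h0, pivot_of_zero ((h.supp hx hy).2 h0)]; exact h
  · have h1 : H.S x y ≠ 0 := fun e => h0 ((h.supp hx hy).1 e)
    refine ⟨fun i hi => by rw [pivot_row h0, pivot_row h1, h.row i hi], fun F => ?_⟩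
    have a : (D.restrict U).Reach ((D.restrict U).pivot x y) := ReachIn.single hx hy
    have b : (H.restrict U).Reach ((H.restrict U).pivot x y) := ReachIn.single hx hy
    rw [restrict_pivot, restrict_pivot, a.base_iff, b.base_iff, h.base]

theorem SB1.inv_base {U : Finset ℕ} (P : Disp K → Disp K' → Prop)
    (h1 : ∀ D H, P D H → ∀ i ∈ U, H.row i = D.row i)
    (h2 : ∀ D H x y, P D H → x ∈ U → y ∈ U → D.S x y ≠ 0 → P (D.pivot x y) (H.pivot x y))
    {D : Disp K} {H : Disp K'} (h : P D H) {F : Finset ℕ} (hF : (D.restrict U).Base F) :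
    (H.restrict U).Base F := by
  obtain ⟨E, hr, hB⟩ := reach_base hF
  have hr' : ReachIn U (D.restrict U) E := hr.mono (union_subset (sdiff_subset.trans hF.1)
    (sdiff_subset.trans (filter_subset _ _)))
  obtain ⟨G, hG, rfl⟩ := hr'.lift
  obtain ⟨H', hH, hP⟩ := hG.ind (P := fun G => ∃ H', ReachIn U H H' ∧ P G H')
    ⟨H, ReachIn.refl _ _, h⟩
    fun G x y hx hy h0 _ ⟨H', a, b⟩ =>
      ⟨H'.pivot x y, a.trans (ReachIn.single hx hy), h2 _ _ _ _ b hx hy h0⟩
  have b : (H.restrict U).Reach (H'.restrict U) := hH.restrict U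
  rw [← b.base_iff, ← hB, ← SB1.B_eq (h1 _ _ hP)]
  exact base_B _

/-- a relation which forces equal supports and survives joint pivots forces equal bases. -/
theorem Val.of_inv {U : Finset ℕ} (P : Disp K → Disp K' → Prop)
    (h1 : ∀ D H, P D H → (∀ i ∈ U, H.row i = D.row i) ∧
      ∀ i ∈ U, ∀ j ∈ U, (H.S i j = 0 ↔ D.S i j = 0))
    (h2 : ∀ D H x y, P D H → x ∈ U → y ∈ U → D.S x y ≠ 0 → P (D.pivot x y) (H.pivot x y))
    {D : Disp K} {H : Disp K'} (h : P D H) : Val D H U :=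
  ⟨(h1 D H h).1, fun _ =>
    ⟨fun hb => SB1.inv_base (fun H D => P D H) (fun H D a i hi => ((h1 D H a).1 i hi).symm)
      (fun H D x y a hx hy h0 => h2 D H x y a hx hy fun e => h0 (((h1 D H a).2 x hx y hy).2 e))
      h hb,
    fun hb => SB1.inv_base P (fun D H a => (h1 D H a).1) h2 h hb⟩⟩

theorem Val.mono {D : Disp K} {H : Disp K'} {U V : Finset ℕ} (h : Val D H U) (hV : V ⊆ U) :
    Val D H V :=
  Val.of_inv (fun D H => Val D H U)
    (fun _ _ a => ⟨fun i hi => a.row i (hV hi), fun _ hi _ hj => a.supp (hV hi) (hV hj)⟩)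
    (fun _ _ _ _ a hx hy _ => a.pivot (hV hx) (hV hy)) h

theorem Val.reachIn {D E : Disp K} {H : Disp K'} {U V : Finset ℕ} (h : Val D H U) (hV : V ⊆ U)
    (hr : ReachIn V D E) : ∃ G, ReachIn V H G ∧ Val E G U :=
  hr.ind (P := fun E => ∃ G, ReachIn V H G ∧ Val E G U) ⟨H, ReachIn.refl _ _, h⟩
    fun _ x y hx hy _ _ ⟨G, a, b⟩ =>
      ⟨G.pivot x y, a.trans (ReachIn.single hx hy), b.pivot (hV hx) (hV hy)⟩

theorem SB1.det2 {D : Disp K} {H : Disp K'} {U : Finset ℕ} (h : Val D H U) {r s c d : ℕ}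
    (hr : r ∈ U) (hs : s ∈ U) (hc : c ∈ U) (hd : d ∈ U) (rr : D.row r = true)
    (rs : D.row s = true) (rc : D.row c = false) (rd : D.row d = false) :
    H.S r c * H.S s d = H.S r d * H.S s c ↔ D.S r c * D.S s d = D.S r d * D.S s c := by
  by_cases e1 : r = s
  · subst e1; exact iff_of_true (mul_comm _ _) (mul_comm _ _)
  by_cases e2 : c = d
  · subst e2; exact iff_of_true rfl rfl
  have a := base_swap2 (D := D.restrict U) hr hs hc hd e1 e2 rr rs rc rd
  have b := base_swap2 (D := H.restrict U) hr hs hc hd e1 e2 ((h.row _ hr).trans rr)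
    ((h.row _ hs).trans rs) ((h.row _ hc).trans rc) ((h.row _ hd).trans rd)
  rw [SB1.B_eq h.row, h.base, a] at b
  exact (not_iff_not.1 b).symm

/-- two by two determinants vanish together (for any four indices in `U`). -/
theorem Val.det2 {D : Disp K} {H : Disp K'} {U : Finset ℕ} (h : Val D H U) {r s c d : ℕ}
    (hr : r ∈ U) (hs : s ∈ U) (hc : c ∈ U) (hd : d ∈ U) :
    H.S r c * H.S s d = H.S r d * H.S s c ↔ D.S r c * D.S s d = D.S r d * D.S s c := by
  have p1 : H.S r c * H.S s d = 0 ↔ D.S r c * D.S s d = 0 := by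
    rw [mul_eq_zero, mul_eq_zero, h.supp hr hc, h.supp hs hd]
  have p2 : H.S r d * H.S s c = 0 ↔ D.S r d * D.S s c = 0 := by
    rw [mul_eq_zero, mul_eq_zero, h.supp hr hd, h.supp hs hc]
  by_cases z1 : D.S r c * D.S s d = 0
  · rw [z1, p1.2 z1, eq_comm, p2, eq_comm]
  by_cases z2 : D.S r d * D.S s c = 0
  · rw [z2, p2.2 z2, p1]
  have n1 := row_ne_of_S (left_ne_zero_of_mul z1)
  have n2 := row_ne_of_S (left_ne_zero_of_mul z2)
  have n3 := row_ne_of_S (right_ne_zero_of_mul z2)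
  have k1 : ∀ a b : Bool, a ≠ b → a = true → b = false := by decide
  have k2 : ∀ a b : Bool, a ≠ b → b = false → a = true := by decide
  have k3 : ∀ a b : Bool, a ≠ b → a = false → b = true := by decide
  have k4 : ∀ a b : Bool, a ≠ b → b = true → a = false := by decide
  cases rr : D.row r
  · have rc := k3 _ _ n1 rr
    have := SB1.det2 h hc hd hr hs rc (k3 _ _ n2 rr) rr (k4 _ _ n3 rc)
    rw [H.skew c r, H.skew d s, H.skew c s, H.skew d r, D.skew c r, D.skew d s, D.skew c s,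
      D.skew d r] at this
    simp only [neg_mul_neg] at this
    rw [mul_comm (H.S r d), mul_comm (D.S r d)]
    exact this
  · have rc := k1 _ _ n1 rr
    exact SB1.det2 h hr hs hc hd rr (k2 _ _ n3 rc) rc (k1 _ _ n2 rr)

theorem Val.W4 {D : Disp K} {H : Disp K'} {U : Finset ℕ} (h : Val D H U) {r s c d : ℕ}
    (hr : r ∈ U) (hs : s ∈ U) (hc : c ∈ U) (hd : d ∈ U) : H.W4 r s c d ↔ D.W4 r s c d := by
  unfold Disp.W4
  simp only [ne_eq, h.supp hr hc, h.supp hr hd, h.supp hs hc, h.supp hs hd, h.det2 hr hs hc hd]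

theorem SB1.nb_iff {D : Disp K} {U : Finset ℕ} : D.Nb U ↔
    ∃ E r s c d, ReachIn U D E ∧ r ∈ U ∧ s ∈ U ∧ c ∈ U ∧ d ∈ U ∧ E.W4 r s c d := by
  constructor
  · intro h
    by_contra hn
    refine h fun E hE r hr s hs c hc d hd hw => hn ?_
    obtain ⟨G, hG, rfl⟩ := hE.lift
    exact ⟨G, r, s, c, d, hG, hr, hs, hc, hd, hw⟩
  · rintro ⟨E, r, s, c, d, hE, hr, hs, hc, hd, hw⟩ h
    exact h (E.restrict U) (hE.restrict U) r hr s hs c hc d hd hw

theorem SB1.nb {D : Disp K} {H : Disp K'} {U : Finset ℕ} (h : Val D H U) (hn : D.Nb U) :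
    H.Nb U := by
  obtain ⟨E, r, s, c, d, hE, hr, hs, hc, hd, hw⟩ := SB1.nb_iff.1 hn
  obtain ⟨G, hG, hv⟩ := h.reachIn subset_rfl hE
  exact SB1.nb_iff.2 ⟨G, r, s, c, d, hG, hr, hs, hc, hd, (hv.W4 hr hs hc hd).2 hw⟩

theorem Val.nb {D : Disp K} {H : Disp K'} {U : Finset ℕ} (h : Val D H U) : H.Nb U ↔ D.Nb U :=
  ⟨SB1.nb h.symm, SB1.nb h⟩

theorem Val.of_agree {D E : Disp K} {U : Finset ℕ} (h : Agree D E U) : Val D E U :=
  ⟨h.1, fun F => h.same.base_iff F⟩

theorem map_pivot (D : Disp K) (f : K →+* K') (x y : ℕ) :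
    (D.pivot x y).map f = (D.map f).pivot x y := by
  by_cases h : D.S x y = 0
  · rw [pivot_of_zero h, pivot_of_zero (D := D.map f) (by simp [map, h])]
  · have h' : (D.map f).S x y ≠ 0 := (map_ne_zero f).2 h
    refine ext' (by simp [map]) (funext fun i => ?_) (funext fun i => funext fun j => ?_)
    · rw [pivot_row h']; exact pivot_row h i
    · rw [pivot_S h']
      simp only [map, pivot_S h, pS]
      split_ifs <;> simp

theorem val_map (D : Disp K) (f : K →+* K') (U : Finset ℕ) : Val D (D.map f) U :=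
  Val.of_inv (fun D H => H = D.map f)
    (fun _ _ a => by subst a; exact ⟨fun _ _ => rfl, fun _ _ _ _ => map_eq_zero f⟩)
    (fun _ _ _ _ a _ _ _ => by subst a; exact (map_pivot _ _ _ _).symm) rfl

/-- rescaling by arbitrary units commutes with a pivot up to inverting two factors. -/
theorem scale_pivot' (D : Disp K) {ε : ℕ → K} (hε : ∀ i, ε i ≠ 0) {x y : ℕ} (h : D.S x y ≠ 0) :
    (D.scale ε).pivot x y =
      (D.pivot x y).scale (fun i => if i = x ∨ i = y then (ε i)⁻¹ else ε i) := by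
  have h' : (D.scale ε).S x y ≠ 0 := mul_ne_zero (mul_ne_zero (hε x) (hε y)) h
  have h2 := S_ne_symm h
  have hxy := ne_of_S h
  have hyx := hxy.symm
  have hx := hε x
  have hy := hε y
  refine ext' (by simp [scale]) (funext fun i => ?_) (funext fun i => funext fun j => ?_)
  · rw [pivot_row h']; exact (pivot_row h i).symm
  · rw [pivot_S h']
    simp only [scale, pivot_S h, pS]
    by_cases h1 : i = x
    · subst h1
      by_cases h4 : j = y
      · subst h4; simp only [true_or, or_true, if_true]; field_simp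
      · by_cases h3 : j = i
        · subst h3; simp [h4]
        · simp only [h3, h4, true_or, or_self, if_true, if_false]; field_simp
    · by_cases h5 : i = y
      · subst h5
        by_cases h3 : j = x
        · subst h3; simp only [h1, true_or, or_true, if_true, if_false]; field_simp
        · by_cases h4 : j = i
          · subst h4; simp [h3]
          · simp only [h1, h3, h4, or_true, or_self, if_true, if_false]; field_simp
      · by_cases h3 : j = x
        · subst h3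
          simp only [h1, h5, true_or, or_self, if_true, if_false]; field_simp
        · by_cases h4 : j = y
          · subst h4
            simp only [h1, h5, h3, or_true, or_self, if_true, if_false]; field_simp
          · simp only [h1, h5, h3, h4, or_self, if_false]; field_simp

theorem val_scale (D : Disp K) {ε : ℕ → K} (hε : ∀ i, ε i ≠ 0) (U : Finset ℕ) :
    Val D (D.scale ε) U :=
  Val.of_inv (fun D H => ∃ ε : ℕ → K, (∀ i, ε i ≠ 0) ∧ H = D.scale ε)
    (fun _ _ ⟨ε, a, b⟩ => by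
      subst b
      exact ⟨fun _ _ => rfl, fun i _ j _ => by simp [scale, a i, a j]⟩)
    (fun _ _ x y ⟨ε, a, b⟩ _ _ h0 => by
      subst b
      refine ⟨_, fun i => ?_, scale_pivot' _ a h0⟩
      split_ifs
      · exact inv_ne_zero (a i)
      · exact a i)
    ⟨ε, hε, rfl⟩

theorem Val.flip {D : Disp K} {H : Disp K'} {U : Finset ℕ} (h : Val D H U) :
    Val D.flip H.flip U :=
  Val.of_inv (fun D H => Val D.flip H.flip U)
    (fun _ _ a => ⟨fun i hi => Bool.not_inj (a.row i hi), fun _ hi _ hj => a.supp hi hj⟩)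
    (fun _ _ _ _ a hx hy _ => by rw [flip_pivot, flip_pivot]; exact a.pivot hx hy)
    (by simpa using h)

theorem val_restrict {D : Disp K} {H : Disp K'} {U V W : Finset ℕ} :
    Val (D.restrict V) (H.restrict W) U ↔ Val D H U :=
  ⟨fun h => ⟨h.row, h.base⟩, fun h => ⟨h.row, h.base⟩⟩

theorem SB1.indep {D : Disp K} {H : Disp K'} {U I : Finset ℕ} (h : Val D H U) (hI : I ⊆ U)
    (hi : (D.restrict U).Indep I) : (H.restrict U).Indep I := by
  obtain ⟨E, hr, hB⟩ := reach_rows (D := D.restrict U) hI hi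
  have hr' : ReachIn U (D.restrict U) E := hr.mono (union_subset (sdiff_subset.trans hI)
    (sdiff_subset.trans (filter_subset _ _)))
  obtain ⟨G, hG, rfl⟩ := hr'.lift
  obtain ⟨H', hH, hv⟩ := h.reachIn subset_rfl hG
  have b : (H.restrict U).Reach (H'.restrict U) := hH.restrict U
  rw [← SB1.B_eq hv.row] at hB
  have := indep_of_rows hB
  unfold Indep at this ⊢
  rw [← b.flip_code_eq]
  exact this

theorem Val.indep {D : Disp K} {H : Disp K'} {U I : Finset ℕ} (h : Val D H U) (hI : I ⊆ U) :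
    (H.restrict U).Indep I ↔ (D.restrict U).Indep I :=
  ⟨SB1.indep h.symm hI, SB1.indep h hI⟩

/-- the pull-back of a display along a map of labels. -/
def comap (H : Disp K) (Z : Finset ℕ) (φ : ℕ → ℕ) : Disp K :=
  { Z := Z, row := fun i => H.row (φ i), S := fun i j => H.S (φ i) (φ j)
    skew := fun _ _ => H.skew _ _
    bip := fun _ _ h => H.bip _ _ h }

theorem SB1.comap_base (D : Disp K) {U : Finset ℕ} (Z : Finset ℕ) {φ : ℕ → ℕ}
    (hφ : Set.InjOn φ U) {F : Finset ℕ} (hF : F ⊆ U) :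
    (D.restrict (U.image φ)).Base (F.image φ) ↔ ((D.comap Z φ).restrict U).Base F := by
  have he : Emb ((D.comap Z φ).restrict U) (D.restrict (U.image φ)) φ (fun _ => 1) :=
    ⟨hφ, fun i hi => mem_image_of_mem φ hi, fun _ _ => rfl, fun _ _ => mul_one 1,
      fun i _ j _ => by
        show D.S (φ i) (φ j) = 1 * 1 * D.S (φ i) (φ j)
        ring⟩
  exact he.base_iff card_image_le hF

/-- transport of `Val` along an injective map of labels. -/
theorem val_comap {D : Disp K} {H : Disp K'} {U Z Z' : Finset ℕ} {φ : ℕ → ℕ}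
    (hφ : Set.InjOn φ U) : Val (D.comap Z φ) (H.comap Z' φ) U ↔ Val D H (U.image φ) := by
  constructor
  · intro h
    refine ⟨fun i hi => ?_, fun F => ?_⟩
    · obtain ⟨k, hk, rfl⟩ := mem_image.1 hi
      exact h.row k hk
    · by_cases hF : F ⊆ U.image φ
      · obtain ⟨F', hF', rfl⟩ := subset_image_iff.1 hF
        rw [SB1.comap_base H Z' hφ hF', SB1.comap_base D Z hφ hF', h.base]
      · exact iff_of_false (fun a => hF a.1) (fun a => hF a.1)
  · intro h
    refine ⟨fun i hi => h.row _ (mem_image_of_mem φ hi), fun F => ?_⟩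
    by_cases hF : F ⊆ U
    · rw [← SB1.comap_base H Z' hφ hF, ← SB1.comap_base D Z hφ hF, h.base]
    · exact iff_of_false (fun a => hF a.1) (fun a => hF a.1)

theorem SB1.val_emb {L D : Disp K} {φ : ℕ → ℕ} {ε : ℕ → K} (he : Emb L D φ ε)
    {U : Finset ℕ} (hU : U ⊆ L.Z) (Z : Finset ℕ) : Val L (D.comap Z φ) U := by
  have h1 : ∀ i, (if i ∈ L.Z then ε i else 1) ≠ 0 := fun i => by
    split_ifs with hi
    · exact he.ne hi
    · exact one_ne_zero
  refine (val_scale L h1 U).trans (Val.of_agree ⟨fun i hi => he.row i (hU hi), fun i hi j hj => ?_⟩)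
  show D.S (φ i) (φ j) = (if i ∈ L.Z then ε i else 1) * (if j ∈ L.Z then ε j else 1) * L.S i j
  rw [if_pos (hU hi), if_pos (hU hj), he.ent i (hU hi) j (hU hj)]

theorem Val.emb {L D : Disp K} {H : Disp K'} {φ : ℕ → ℕ} {ε : ℕ → K} (he : Emb L D φ ε)
    {U : Finset ℕ} (hU : U ⊆ L.Z) (Z : Finset ℕ) :
    Val L (H.comap Z φ) U ↔ Val D H (U.image φ) := by
  have h1 := SB1.val_emb he hU Z
  rw [← val_comap (Z := Z) (Z' := Z) (he.inj.mono (coe_subset.2 hU))]
  exact ⟨fun a => h1.symm.trans a, fun a => h1.trans a⟩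

theorem SR.reach {D E : Disp F3} (h : D.SR) (hr : D.Reach E) : E.SR := by
  obtain ⟨H, hH⟩ := h
  obtain ⟨G, -, hG⟩ := hH.reachIn subset_rfl hr
  exact ⟨G, by rw [hr.Z_eq]; exact hG⟩

theorem SR.flip {D : Disp F3} (h : D.SR) : D.flip.SR := by
  obtain ⟨H, hH⟩ := h
  exact ⟨H.flip, hH.flip⟩

theorem SR.minor {L D : Disp F3} (h : D.SR) (hm : Minor L D) : L.SR := by
  obtain ⟨E, φ, ε, hr, he⟩ := hm
  obtain ⟨H, hH⟩ := h.reach hr
  refine ⟨H.comap L.Z φ, (Val.emb he subset_rfl _).2 (hH.mono fun i hi => ?_)⟩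
  obtain ⟨k, hk, rfl⟩ := mem_image.1 hi
  exact he.mem k hk

theorem Nb.mono {D : Disp K} {U V : Finset ℕ} (h : D.Nb U) (hV : U ⊆ V) : D.Nb V := by
  obtain ⟨E, r, s, c, d, hE, hr, hs, hc, hd, hw⟩ := SB1.nb_iff.1 h
  exact SB1.nb_iff.2 ⟨E, r, s, c, d, hE.mono hV, hV hr, hV hs, hV hc, hV hd, hw⟩

theorem Nb.reachIn {D E : Disp K} {U V : Finset ℕ} (h : D.Nb U) (hV : V ⊆ U)
    (hr : ReachIn V D E) : E.Nb U := by
  obtain ⟨G, r, s, c, d, hE, h1, hs, hc, hd, hw⟩ := SB1.nb_iff.1 h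
  exact SB1.nb_iff.2 ⟨G, r, s, c, d, (hr.mono hV).symm.trans hE, h1, hs, hc, hd, hw⟩

theorem Nb.flip {D : Disp K} {U : Finset ℕ} (h : D.Nb U) : D.flip.Nb U := by
  obtain ⟨G, r, s, c, d, hE, h1, hs, hc, hd, hw⟩ := SB1.nb_iff.1 h
  exact SB1.nb_iff.2 ⟨G.flip, r, s, c, d, hE.flip, h1, hs, hc, hd, hw⟩

theorem Nb.agree {D E : Disp K} {U : Finset ℕ} (h : D.Nb U) (ha : Agree D E U) : E.Nb U :=
  (Val.of_agree ha).nb.2 h

theorem SB1.W4_emb {L D : Disp K} {φ : ℕ → ℕ} {ε : ℕ → K} (he : Emb L D φ ε) {r s c d : ℕ}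
    (hr : r ∈ L.Z) (hs : s ∈ L.Z) (hc : c ∈ L.Z) (hd : d ∈ L.Z) :
    D.W4 (φ r) (φ s) (φ c) (φ d) ↔ L.W4 r s c d :=
  (SB1.val_emb he subset_rfl L.Z).W4 hr hs hc hd

theorem Nb.emb {L D : Disp K} {φ : ℕ → ℕ} {ε : ℕ → K} (he : Emb L D φ ε) {U : Finset ℕ}
    (hU : U ⊆ L.Z) : L.Nb U ↔ D.Nb (U.image φ) := by
  constructor
  · intro h
    obtain ⟨L', r, s, c, d, hE, hr, hs, hc, hd, hw⟩ := SB1.nb_iff.1 h
    obtain ⟨D', hD, he'⟩ := he.reachIn hU hE
    have hU' : U ⊆ L'.Z := by rw [hE.Z_eq]; exact hU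
    exact SB1.nb_iff.2 ⟨D', φ r, φ s, φ c, φ d, hD, mem_image_of_mem φ hr, mem_image_of_mem φ hs,
      mem_image_of_mem φ hc, mem_image_of_mem φ hd,
      (SB1.W4_emb he' (hU' hr) (hU' hs) (hU' hc) (hU' hd)).2 hw⟩
  · intro h
    obtain ⟨D', r, s, c, d, hE, hr, hs, hc, hd, hw⟩ := SB1.nb_iff.1 h
    obtain ⟨r', hr', rfl⟩ := mem_image.1 hr
    obtain ⟨s', hs', rfl⟩ := mem_image.1 hs
    obtain ⟨c', hc', rfl⟩ := mem_image.1 hc
    obtain ⟨d', hd', rfl⟩ := mem_image.1 hd
    obtain ⟨L', hL, he'⟩ := he.reachIn_back hU hE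
    have hU' : U ⊆ L'.Z := by rw [hL.Z_eq]; exact hU
    exact SB1.nb_iff.2 ⟨L', r', s', c', d', hL, hr', hs', hc', hd',
      (SB1.W4_emb he' (hU' hr') (hU' hs') (hU' hc') (hU' hd')).1 hw⟩

theorem W4.nb {D : Disp K} {U : Finset ℕ} {r s c d : ℕ} (h : D.W4 r s c d) (hr : r ∈ U)
    (hs : s ∈ U) (hc : c ∈ U) (hd : d ∈ U) : D.Nb U :=
  SB1.nb_iff.2 ⟨D, r, s, c, d, ReachIn.refl _ _, hr, hs, hc, hd, h⟩

theorem SB1.W4_ne {D : Disp K} {r s c d : ℕ} (h : D.W4 r s c d) : r ≠ s ∧ c ≠ d :=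
  ⟨fun e => by subst e; exact h.2.2.2.2 (mul_comm _ _), fun e => by subst e; exact h.2.2.2.2 rfl⟩

theorem SB1.W4_swap {D : Disp K} {r s c d : ℕ} (h : D.W4 r s c d) : D.W4 c d r s := by
  obtain ⟨h1, h2, h3, h4, h5⟩ := h
  refine ⟨S_ne_symm h1, S_ne_symm h3, S_ne_symm h2, S_ne_symm h4, ?_⟩
  rw [D.skew c r, D.skew d s, D.skew c s, D.skew d r, neg_mul_neg, neg_mul_neg,
    mul_comm (D.S s c)]
  exact h5

/-- a non-binary part shows a `W4` with rows `r, s` after pivots. -/
theorem Nb.exists {D : Disp K} {U : Finset ℕ} (h : D.Nb U) :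
    ∃ E r s c d, ReachIn U D E ∧ r ∈ U ∧ s ∈ U ∧ c ∈ U ∧ d ∈ U ∧ E.row r = true ∧
      E.row s = true ∧ E.row c = false ∧ E.row d = false ∧ r ≠ s ∧ c ≠ d ∧ E.W4 r s c d := by
  obtain ⟨E, r, s, c, d, hE, hr, hs, hc, hd, hw⟩ := SB1.nb_iff.1 h
  have n1 := row_ne_of_S hw.1
  have n2 := row_ne_of_S hw.2.1
  have n3 := row_ne_of_S hw.2.2.1
  have k1 : ∀ a b : Bool, a ≠ b → a = true → b = false := by decide
  have k2 : ∀ a b : Bool, a ≠ b → b = false → a = true := by decide
  have k3 : ∀ a b : Bool, a ≠ b → a = false → b = true := by decide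
  have k4 : ∀ a b : Bool, a ≠ b → b = true → a = false := by decide
  have hne := SB1.W4_ne hw
  cases rr : E.row r
  · have rc := k3 _ _ n1 rr
    exact ⟨E, c, d, r, s, hE, hc, hd, hr, hs, rc, k3 _ _ n2 rr, rr, k4 _ _ n3 rc, hne.2, hne.1,
      SB1.W4_swap hw⟩
  · have rc := k1 _ _ n1 rr
    exact ⟨E, r, s, c, d, hE, hr, hs, hc, hd, rr, k2 _ _ n3 rc, rc, k1 _ _ n2 rr, hne.1, hne.2, hw⟩

theorem W4.conn3 {D : Disp K} {r s c d : ℕ} (h : D.W4 r s c d) :
    (D.restrict {r, s, c, d}).Conn3 ∧ ({r, s, c, d} : Finset ℕ).card = 4 := by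
  obtain ⟨hrs, hcd⟩ := SB1.W4_ne h
  obtain ⟨h1, h2, h3, h4, h5⟩ := h
  have n1 := row_ne_of_S h1
  have n2 := row_ne_of_S h2
  have n3 := row_ne_of_S h3
  have k : ∀ a b c : Bool, a ≠ c → b ≠ c → a = b := by decide
  have z1 : D.S r s = 0 := D.bip _ _ (k _ _ _ n1 n3)
  have z2 : D.S c d = 0 := D.bip _ _ (k _ _ _ n1.symm n2.symm)
  have z3 : D.S s r = 0 := by rw [D.skew, z1, neg_zero]
  have z4 : D.S d c = 0 := by rw [D.skew, z2, neg_zero]
  have e1 := D.skew c r
  have e2 := D.skew d r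
  have e3 := D.skew c s
  have e4 := D.skew d s
  have h6 : D.S r c * D.S s d ≠ D.S s c * D.S r d := by rwa [mul_comm (D.S s c)]
  have h7 : D.S s d * D.S r c ≠ D.S r d * D.S s c := by rwa [mul_comm (D.S s d)]
  have h8 : D.S s d * D.S r c ≠ D.S s c * D.S r d := by rwa [mul_comm (D.S s d)]
  have hrc := ne_of_S h1
  have hrd := ne_of_S h2
  have hsc := ne_of_S h3
  have hsd := ne_of_S h4
  refine ⟨fun X hX => ⟨fun ⟨i, hi⟩ ⟨j, hj⟩ => ?_, fun a b => ?_⟩, ?_⟩
  · by_contra hl
    have h0 : D.lam X ({r, s, c, d} \ X) = 0 := by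
      have : (D.restrict {r, s, c, d}).lam X ((D.restrict {r, s, c, d}).Z \ X) = 0 := by omega
      exact this
    have hz := lam_eq_zero_iff.1 h0
    have step : ∀ u v, v ∈ ({r, s, c, d} : Finset ℕ) → D.S u v ≠ 0 → u ∈ X → v ∈ X :=
      fun u v hv hS hu => by
        by_contra hn
        exact hS (hz u hu v (mem_sdiff.2 ⟨hv, hn⟩))
    have a1 : r ∈ X → c ∈ X := step r c (by simp) h1
    have a2 : r ∈ X → d ∈ X := step r d (by simp) h2
    have a3 : s ∈ X → c ∈ X := step s c (by simp) h3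
    have a4 : c ∈ X → r ∈ X := step c r (by simp) (S_ne_symm h1)
    have a5 : d ∈ X → r ∈ X := step d r (by simp) (S_ne_symm h2)
    have a6 : c ∈ X → s ∈ X := step c s (by simp) (S_ne_symm h3)
    have hi' : i ∈ ({r, s, c, d} : Finset ℕ) := hX hi
    have hj' : j ∈ ({r, s, c, d} : Finset ℕ) := (mem_sdiff.1 hj).1
    have hj2 := (mem_sdiff.1 hj).2
    have hr : r ∈ X := by
      simp only [mem_insert, mem_singleton] at hi'
      rcases hi' with rfl | rfl | rfl | rfl
      · exact hi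
      · exact a4 (a3 hi)
      · exact a4 hi
      · exact a5 hi
    simp only [mem_insert, mem_singleton] at hj'
    rcases hj' with rfl | rfl | rfl | rfl
    · exact hj2 hr
    · exact hj2 (a6 (a1 hr))
    · exact hj2 (a1 hr)
    · exact hj2 (a2 hr)
  · by_contra hl
    have h0 : D.lam X ({r, s, c, d} \ X) ≤ 1 := by
      have : (D.restrict {r, s, c, d}).lam X ((D.restrict {r, s, c, d}).Z \ X) ≤ 1 := by omega
      exact this
    obtain ⟨i, hi, i', hi', hii⟩ := one_lt_card.1 a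
    obtain ⟨j, hj, j', hj', hjj⟩ := one_lt_card.1 b
    have hd := det_two_of_lam h0 hi hi' hj hj'
    have m1 : i ∈ ({r, s, c, d} : Finset ℕ) := hX hi
    have m2 : i' ∈ ({r, s, c, d} : Finset ℕ) := hX hi'
    have m3 : j ∈ ({r, s, c, d} : Finset ℕ) := (mem_sdiff.1 hj).1
    have m4 : j' ∈ ({r, s, c, d} : Finset ℕ) := (mem_sdiff.1 hj').1
    have q1 : i ≠ j := fun e => (mem_sdiff.1 hj).2 (e ▸ hi)
    have q2 : i ≠ j' := fun e => (mem_sdiff.1 hj').2 (e ▸ hi)
    have q3 : i' ≠ j := fun e => (mem_sdiff.1 hj).2 (e ▸ hi')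
    have q4 : i' ≠ j' := fun e => (mem_sdiff.1 hj').2 (e ▸ hi')
    clear hi hi' hj hj' a b hl h0 hX
    simp only [mem_insert, mem_singleton] at m1 m2 m3 m4
    rcases m1 with m1 | m1 | m1 | m1 <;> rcases m2 with m2 | m2 | m2 | m2 <;>
      first
      | exact hii (m1.trans m2.symm)
      | (rcases m3 with m3 | m3 | m3 | m3 <;>
          first
          | exact q1 (m1.trans m3.symm)
          | exact q3 (m2.trans m3.symm)
          | (rcases m4 with m4 | m4 | m4 | m4 <;>
              first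
              | exact q2 (m1.trans m4.symm)
              | exact q4 (m2.trans m4.symm)
              | exact hjj (m3.trans m4.symm)
              | (rw [m1, m2, m3, m4] at hd
                 simp [z1, z2, z3, z4, e1, e2, e3, e4, h1, h2, h3, h4, h5, h6, h7, h8, h5.symm,
                   h6.symm, h7.symm, h8.symm] at hd)))
  · rw [card_insert_of_notMem (by simp [hrs, hrc, hrd]), card_insert_of_notMem (by simp [hsc, hsd]),
      card_pair hcd]

theorem Nb.card {D : Disp K} {U : Finset ℕ} (h : D.Nb U) : 4 ≤ U.card := by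
  obtain ⟨E, r, s, c, d, -, hr, hs, hc, hd, hw⟩ := SB1.nb_iff.1 h
  rw [← hw.conn3.2]
  refine card_le_card fun i hi => ?_
  simp only [mem_insert, mem_singleton] at hi
  rcases hi with rfl | rfl | rfl | rfl <;> assumption

end Disp

end Pool.Agent.Lib.MP_c69b6d_co.F
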