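import Pool.Agent.Lib.MP_c69b6d_co.F.SB0

/-! Stage B: the states used in the proof of the main lemma. -/

namespace Pool.Agent.Lib.MP_c69b6d_co.F

open Finset Disp

/-- the hypotheses of the main lemma which survive pivots away from `u, v`. -/
structure St (D : Disp F3) (H : Disp F4) (u v : ℕ) : Prop where
  free : Free NL D
  hZ : H.Z = D.Z
  mu : u ∈ D.Z
  mv : v ∈ D.Z
  ne : u ≠ v
  ru : D.row u = false
  rv : D.row v = false
  cu : (D.restrict (D.Z.erase u)).Conn3
  cv : (D.restrict (D.Z.erase v)).Conn3
  vu : Val D H (D.Z.erase u)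
  vv : Val D H (D.Z.erase v)

/-- the ground set without `u, v`. -/
def core (D : Disp F3) (u v : ℕ) : Finset ℕ := (D.Z.erase u).erase v

/-- the determinants on `x, y` and `u, v` do not vanish together. -/
def Inc (D : Disp F3) (H : Disp F4) (x y u v : ℕ) : Prop :=
  ¬ (H.S x u * H.S y v = H.S x v * H.S y u ↔ D.S x u * D.S y v = D.S x v * D.S y u)

/-- a state with two incriminating rows. -/
structure StI (D : Disp F3) (H : Disp F4) (x y u v : ℕ) : Prop where
  st : St D H u v
  mx : x ∈ core D u v
  my : y ∈ core D u v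
  ne : x ≠ y
  rx : D.row x = true
  ry : D.row y = true
  inc : Inc D H x y u v

end Pool.Agent.Lib.MP_c69b6d_co.F
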