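import Pool.Agent.Lib.MP_c69b6d_co.F.SB2
import Pool.Agent.Lib.MP_c69b6d_co.F.CkD

/-! Stage B: the checker for the main lemma (definitions).  An entry of a joint display is coded by
a residue modulo `7`: the residue `3 ^ k` stands for the pair `((-1) ^ k, a ^ k)`.  The labels `2`
and `3` are reserved for the deletion pair. -/

namespace Pool.Agent.Lib.MP_c69b6d_co.F

open Finset Disp

namespace ML

noncomputable def notB (a : Bool) : Bool := Bool.rec (motive := fun _ => Bool) true false a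

noncomputable def impB (a b : Bool) : Bool := Bool.rec (motive := fun _ => Bool) true b a

noncomputable def eqB (a b : Bool) : Bool := Bool.rec (motive := fun _ => Bool) (notB b) b a

/-- the ternary part of a code, as `0, 1, 2`. -/
def p3 (a : ℕ) : ℕ := Nat.land (Nat.shiftRight 10644 (Nat.mul 2 a)) 3

/-- the quaternary part of a code, as `0, 1, 2, 3`. -/
def p4 (a : ℕ) : ℕ := Nat.land (Nat.shiftRight 7860 (Nat.mul 2 a)) 3

def d3 (a : ℕ) : F3 := (p3 a : ℕ)

def d4 (a : ℕ) : F4 :=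
  if p4 a = 0 then F4.o else if p4 a = 1 then F4.e else if p4 a = 2 then F4.a else F4.b

def mul7 (a b : ℕ) : ℕ := Nat.mod (Nat.mul a b) 7

def inv7 (a : ℕ) : ℕ := Nat.mod (Nat.pow a 5) 7

def neg7 (a : ℕ) : ℕ := Nat.mod (Nat.mul a 6) 7

def sub7 (a t : ℕ) : ℕ := Nat.mod (Nat.add a (Nat.mul t 6)) 7

/-- the difference `a - t` of two codes is again the code of a pair. -/
noncomputable def ok7 (a t : ℕ) : Bool :=
  orB (Nat.beq a 0) (orB (Nat.beq t 0) (tb 42 (mul7 t (inv7 a))))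

/-- a code for the difference of the ternary parts. -/
def sub3 (a t : ℕ) : ℕ :=
  Nat.land (Nat.shiftRight 1552 (Nat.mul 4 (Nat.mod (Nat.add (p3 a) (Nat.mul 2 (p3 t))) 3))) 7

def pos (i j : ℕ) : ℕ := Nat.mul 3 (Nat.add (Nat.mul 16 i) j)

def raw (M i j : ℕ) : ℕ := Nat.land (Nat.shiftRight M (pos i j)) 7

/-- the code stored for the row `i` and the column `j`. -/
def lane (M i j : ℕ) : ℕ := Nat.mod (raw M i j) 7

/-- the code of the entry `S i j`. -/
noncomputable def sk (rm M i j : ℕ) : ℕ :=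
  cnd (tb rm i) (cnd (tb rm j) 0 (lane M i j)) (cnd (tb rm j) (neg7 (lane M j i)) 0)

/-- the display over `K` read from the packed data through `d`. -/
def toK {K : Type} [Field K] (d : ℕ → K) (zm rm M : ℕ) : Disp K where
  Z := fs zm
  row := fun i => rm.testBit i
  S := fun i j => if rm.testBit i = rm.testBit j then 0
    else if rm.testBit i then d (lane M i j) else - d (lane M j i)
  skew := by
    intro i j
    cases h1 : rm.testBit i <;> cases h2 : rm.testBit j <;> simp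
  bip := by
    intro i j h
    simp [h]

/-- the packed joint display is found in `D, H` along `φ`. -/
structure Mt (zm rm M : ℕ) (D : Disp F3) (H : Disp F4) (φ : ℕ → ℕ) (ε : ℕ → F3) : Prop where
  lt : zm < 65536
  e3 : Emb (toK d3 zm rm M) D φ ε
  e4 : Emb (toK d4 zm rm M) H φ (fun _ => 1)

/-- joint pivots inside `U`. -/
def JR (U : Finset ℕ) (D : Disp F3) (H : Disp F4) (D' : Disp F3) (H' : Disp F4) : Prop :=
  Relation.ReflTransGen (fun a b : Disp F3 × Disp F4 => ∃ x ∈ U, ∃ y ∈ U, a.1.S x y ≠ 0 ∧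
    b = (a.1.pivot x y, a.2.pivot x y)) (D, H) (D', H')

/-- all members of a mask. -/
noncomputable def allM (m : ℕ) (f : ℕ → Bool) : Bool := allLt 16 (fun i => impB (tb m i) (f i))

/-- the union of the values `f i` for `i` in a mask. -/
noncomputable def orM (m : ℕ) (f : ℕ → ℕ) : ℕ :=
  Nat.rec (motive := fun _ => ℕ) 0 (fun i r => cnd (tb m i) (Nat.lor r (f i)) r) 16

/-- the mask of the rows and the mask of the columns. -/
def rws (zm rm : ℕ) : ℕ := Nat.land zm rm

def cls (zm rm : ℕ) : ℕ := Nat.xor zm (Nat.land zm rm)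

/-- the packed matrix with the codes `f i j`. -/
noncomputable def build (zm rm : ℕ) (f : ℕ → ℕ → ℕ) : ℕ :=
  orM (rws zm rm) (fun i => orM (cls zm rm) (fun j => Nat.shiftLeft (f i j) (pos i j)))

noncomputable def pvE (sub : ℕ → ℕ → ℕ) (M p q ia i j : ℕ) : ℕ :=
  cnd (Nat.beq i q) (cnd (Nat.beq j p) ia (mul7 (lane M p j) ia))
    (cnd (Nat.beq j p) (neg7 (mul7 (lane M i q) ia))
      (sub (lane M i j) (mul7 (mul7 (lane M i q) ia) (lane M p j))))

def pvR (rm p q : ℕ) : ℕ := Nat.xor rm (Nat.lor (bit p) (bit q))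

/-- the pivot on the row `p` and the column `q`. -/
noncomputable def pv (sub : ℕ → ℕ → ℕ) (zm rm M p q : ℕ) : ℕ :=
  build zm (pvR rm p q) (pvE sub M p q (inv7 (lane M p q)))

noncomputable def pvPre (zm U rm M p q : ℕ) : Bool :=
  andB (tb (Nat.land U (rws zm rm)) p) (andB (tb (Nat.land U (cls zm rm)) q)
    (notB (Nat.beq (lane M p q) 0)))

noncomputable def pvOK1 (zm rm M p q ia : ℕ) : Bool :=
  allM (Nat.xor (rws zm rm) (bit p)) (fun i => allM (Nat.xor (cls zm rm) (bit q)) (fun j =>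
    ok7 (lane M i j) (mul7 (mul7 (lane M i q) ia) (lane M p j))))

noncomputable def pvOK (zm rm M p q : ℕ) : Bool := pvOK1 zm rm M p q (inv7 (lane M p q))

noncomputable def pvs1 (zm U : ℕ) (r : ℕ → ℕ → ℕ → Bool) (rm M N p q : ℕ) : Bool :=
  andB (pvPre zm U rm M p q) (andB (pvOK zm rm M p q)
    (r (pvR rm p q) (pv sub7 zm rm M p q) (Nat.shiftRight N 8)))

/-- `n` joint pivots inside the mask `U`, then `k`. -/
noncomputable def pvs (zm U n : ℕ) (k : ℕ → ℕ → ℕ → Bool) : ℕ → ℕ → ℕ → Bool :=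
  Nat.rec (motive := fun _ => ℕ → ℕ → ℕ → Bool) k
    (fun _ r rm M N => pvs1 zm U r rm M N (Nat.land N 15) (Nat.land (Nat.shiftRight N 4) 15)) n

noncomputable def pvt1 (zm : ℕ) (r : ℕ → ℕ → ℕ → Bool) (rm M N p q : ℕ) : Bool :=
  andB (pvPre zm zm rm M p q) (r (pvR rm p q) (pv sub3 zm rm M p q) (Nat.shiftRight N 8))

/-- `n` pivots of the ternary part, then `k`. -/
noncomputable def pvt (zm n : ℕ) (k : ℕ → ℕ → ℕ → Bool) : ℕ → ℕ → ℕ → Bool :=
  Nat.rec (motive := fun _ => ℕ → ℕ → ℕ → Bool) k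
    (fun _ r rm M N => pvt1 zm r rm M N (Nat.land N 15) (Nat.land (Nat.shiftRight N 4) 15)) n

/-- the number of pivots is read from the lowest three bits. -/
noncomputable def pvsN (zm U : ℕ) (k : ℕ → ℕ → ℕ → Bool) (rm M N : ℕ) : Bool :=
  pvs zm U (Nat.land N 7) k rm M (Nat.shiftRight N 3)

noncomputable def pvtN (zm : ℕ) (k : ℕ → ℕ → ℕ → Bool) (rm M N : ℕ) : Bool :=
  pvt zm (Nat.land N 7) k rm M (Nat.shiftRight N 3)

/-- a seed: packed display, the two sides `A, B`, the elements `O` outside the ground set. -/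
structure Nd where
  zm : ℕ
  rm : ℕ
  M : ℕ
  A : ℕ
  B : ℕ
  O : ℕ
  k : ℕ

noncomputable def nth (l : List Nd) : ℕ → Nd :=
  List.rec (motive := fun _ => ℕ → Nd) (fun _ => ⟨0, 0, 0, 0, 0, 0, 0⟩)
    (fun a _ r n => Nat.rec (motive := fun _ => Nd) a (fun m _ => r m) n) l

/-- the map and the factors coded by `F`. -/
def psi (F i : ℕ) : ℕ := Nat.land (Nat.shiftRight F (Nat.mul 7 i)) 15

def scf (F i : ℕ) : ℕ := Nat.mod (Nat.land (Nat.shiftRight F (Nat.add (Nat.mul 7 i) 4)) 7) 7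

/-- the image of a mask. -/
noncomputable def img (F m : ℕ) : ℕ := orM m (fun i => bit (psi F i))

/-- `T` is found in the packed display along `psi F`, up to factors and possibly conjugation;
the codes are compared through `nm`. -/
noncomputable def mtB (nm : ℕ → ℕ) (T : Nd) (zm rm M F : ℕ) (cj : Bool) : Bool :=
  andB (Nat.blt T.zm 65536) (allM T.zm (fun i => andB (tb zm (psi F i))
    (andB (eqB (tb rm (psi F i)) (tb T.rm i)) (andB (notB (Nat.beq (scf F i) 0))
    (andB (allLt i (fun j => impB (tb T.zm j) (notB (Nat.beq (psi F j) (psi F i)))))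
    (impB (tb T.rm i) (allM (cls T.zm T.rm) (fun j =>
      Nat.beq (nm (lane M (psi F i) (psi F j)))
        (nm (mul7 (mul7 (scf F i) (scf F j))
          (cnd cj (inv7 (lane T.M i j)) (lane T.M i j))))))))))))

/-- the pair `2, 3` is mapped onto itself. -/
noncomputable def uvB (F : ℕ) : Bool :=
  orB (andB (Nat.beq (psi F 2) 2) (Nat.beq (psi F 3) 3))
    (andB (Nat.beq (psi F 2) 3) (Nat.beq (psi F 3) 2))

/-- the mask without `2, 3`. -/
def cor (zm : ℕ) : ℕ := Nat.land zm 65523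

def nib (N i : ℕ) : ℕ := Nat.land (Nat.shiftRight N (Nat.mul 4 i)) 15

/-- the determinant on `r, s` and `c, d` vanishes in the part read by `p`. -/
noncomputable def detB (p : ℕ → ℕ) (rm M r s c d : ℕ) : Bool :=
  Nat.beq (p (mul7 (sk rm M r c) (sk rm M s d))) (p (mul7 (sk rm M r d) (sk rm M s c)))

def msk4 (r s c d : ℕ) : ℕ := Nat.lor (Nat.lor (bit r) (bit s)) (Nat.lor (bit c) (bit d))

noncomputable def inv1 (zm rm M r s c d : ℕ) : Bool :=
  andB (Nat.beq (Nat.land (msk4 r s c d) zm) (msk4 r s c d))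
    (andB (notB (Nat.beq (Nat.land (msk4 r s c d) 12) 12))
      (notB (eqB (detB p3 rm M r s c d) (detB p4 rm M r s c d))))

/-- leaf: the quaternary part is not valid. -/
noncomputable def invL (zm rm M N : ℕ) : Bool :=
  pvsN zm (cor zm) (fun rm M N => inv1 zm rm M (nib N 0) (nib N 1) (nib N 2) (nib N 3)) rm M N

/-- the three members of `NL`. -/
def tNL : List Nd :=
  [⟨127, 7, 0x49000000000048200000000041200, 0, 0, 0, 0⟩,
   ⟨127, 120, 0x1b60000000001b0000000000186000000000036000000000000000000000000000000000000,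
     0, 0, 0, 0⟩,
   ⟨255, 15, 0x4e000000000209000000000241000000000c48000, 0, 0, 0, 0⟩]

/-- leaf: a member of `NL` is a minor. -/
noncomputable def badL (zm rm M N : ℕ) : Bool :=
  andB (Nat.blt (Nat.land N 3) 3)
    (pvtN zm (fun rm M F => mtB p3 (nth tNL (Nat.land N 3)) zm rm M F false) rm M
      (Nat.shiftRight N 2))

/-- leaf: one of the first `b` seeds is found. -/
noncomputable def deadL (tab : List Nd) (b zm rm M N : ℕ) : Bool :=
  andB (Nat.blt (Nat.land N 63) b)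
    (pvsN zm (cor zm) (fun rm M F => andB (uvB F)
      (mtB (fun a => a) (nth tab (Nat.land N 63)) zm rm M F (tb N 6))) rm M (Nat.shiftRight N 7))

/-- the common leaves. -/
noncomputable def comL (tab : List Nd) (b zm rm M op N : ℕ) : Bool :=
  cnd (Nat.beq op 0) (invL zm rm M N) (cnd (Nat.beq op 1) (badL zm rm M N)
    (andB (Nat.beq op 2) (deadL tab b zm rm M N)))

/-- a witness for `k < lam X Y`, `k ≤ 1`. -/
noncomputable def gtL (k X Y rm M N : ℕ) : Bool :=
  andB (tb X (nib N 0)) (andB (tb Y (nib N 2))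
    (cnd (Nat.beq k 0) (notB (Nat.beq (sk rm M (nib N 0) (nib N 2)) 0))
      (andB (Nat.beq k 1) (andB (tb X (nib N 1)) (andB (tb Y (nib N 3))
        (notB (detB p3 rm M (nib N 0) (nib N 1) (nib N 2) (nib N 3))))))))

/-- on `X` the vector of `n` is the multiple by the code `c` of the vector of `y ∈ Y`. -/
noncomputable def spanL (X Y rm M n y c : ℕ) : Bool :=
  andB (tb Y y) (allM X (fun i => Nat.beq (p3 (sk rm M i n)) (p3 (mul7 c (sk rm M i y)))))

/-- the changing part of a state: old elements `z0`, the elements `z1` whose entries with the new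
element `n` are known (together with `n`), rows, entries. -/
structure Dy where
  z0 : ℕ
  z1 : ℕ
  rm : ℕ
  M : ℕ
  n : ℕ

/-- start the enumeration of a new element `n` on the side `r`. -/
noncomputable def start (zm rm M n : ℕ) (r : Bool) : Dy :=
  cnd r ⟨zm, Nat.lor (rws zm rm) (bit n), Nat.lor (rws zm rm) (bit n), M, n⟩
    ⟨zm, Nat.lor (cls zm rm) (bit n), rws zm rm, M, n⟩

noncomputable def full (s : Dy) : Bool := Nat.beq s.z1 (Nat.lor s.z0 (bit s.n))

noncomputable def posN (s : Dy) (i : ℕ) : ℕ := cnd (tb s.rm s.n) (pos s.n i) (pos i s.n)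

noncomputable def selOK (s : Dy) (i : ℕ) : Bool :=
  andB (tb s.z0 i) (andB (notB (tb s.z1 i)) (andB (notB (eqB (tb s.rm i) (tb s.rm s.n)))
    (Nat.beq (Nat.land (Nat.shiftRight s.M (posN s i)) 7) 0)))

/-- the entry between `n` and `i` gets the code `e`. -/
noncomputable def setE (s : Dy) (i e : ℕ) : Dy :=
  ⟨s.z0, Nat.lor s.z1 (bit i), s.rm, Nat.lor s.M (Nat.shiftLeft e (posN s i)), s.n⟩

noncomputable def nulB (s : Dy) : Bool := allM s.z1 (fun i => Nat.beq (sk s.rm s.M i s.n) 0)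

noncomputable def nul1B (s : Dy) (i : ℕ) : Bool := allM s.z0 (fun j => Nat.beq (sk s.rm s.M j i) 0)

/-- certificates. -/
inductive Ct : Type
  | lf : ℕ → Ct
  | sel : ℕ → Ct → Ct → Ct → Ct → Ct → Ct → Ct → Ct
  | sel0 : ℕ → Ct → Ct → Ct
  | sel1 : ℕ → Ct → Ct → Ct
  | nxt : ℕ → Ct → Ct → Ct

/-- the checker, for a type `α` of contexts with leaves `leaf` and steps `nx`, `nxa`. -/
noncomputable def chk {α : Type} (leaf : α → Dy → ℕ → Bool) (nx : α → Dy → ℕ → Bool)
    (nxa : α → Dy → α) (t : Ct) : α → Dy → Bool :=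
  Ct.rec (motive := fun _ => α → Dy → Bool) (fun N a s => leaf a s N)
    (fun i _ _ _ _ _ _ _ f0 f1 f2 f3 f4 f5 f6 a s => andB (selOK s i)
      (andB (f0 a (setE s i 0)) (andB (f1 a (setE s i 1)) (andB (f2 a (setE s i 2))
      (andB (f3 a (setE s i 3)) (andB (f4 a (setE s i 4)) (andB (f5 a (setE s i 5))
        (f6 a (setE s i 6)))))))))
    (fun i _ _ f0 f1 a s => andB (selOK s i) (andB (nulB s)
      (andB (f0 a (setE s i 0)) (f1 a (setE s i 1)))))
    (fun i _ _ f0 f1 a s => andB (selOK s i) (andB (nul1B s i)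
      (andB (f0 a (setE s i 0)) (f1 a (setE s i 1)))))
    (fun N _ _ f0 f1 a s => andB (full s) (andB (Nat.blt (Nat.succ s.n) 16) (andB (nx a s N)
      (andB (f0 (nxa a s) (start s.z1 s.rm s.M (Nat.succ s.n) true))
        (f1 (nxa a s) (start s.z1 s.rm s.M (Nat.succ s.n) false)))))) t

/-- the meaning of the changing part. -/
structure Bs (s : Dy) (D : Disp F3) (H : Disp F4) (φ : ℕ → ℕ) (ε : ℕ → F3) : Prop where
  st : St D H (φ 2) (φ 3)
  m0 : Mt s.z0 s.rm s.M D H φ ε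
  m1 : Mt s.z1 s.rm s.M D H φ ε
  h2 : 2 ∈ fs s.z0
  h3 : 3 ∈ fs s.z0
  n1 : s.n ∈ fs s.z1
  lt : ∀ i ∈ fs s.z0, i < s.n
  sub : fs s.z1 ⊆ insert s.n (fs s.z0)
  inj : ∀ i ∈ fs s.z0, φ i ≠ φ s.n

/-! ### walks -/

/-- the context of a walk: the level `k`, the previous side `A0`, the sides `A, B`, and `O`. -/
structure Wk where
  k : ℕ
  A0 : ℕ
  A : ℕ
  B : ℕ
  O : ℕ

/-- the ground set of the walk. -/
def gr (D : Disp F3) (φ : ℕ → ℕ) (O : ℕ) : Disp F3 := D.restrict (D.Z \ (fs O).image φ)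

/-- `t` starts a shortest blocking walk, and does not block the previous side. -/
structure BlkAt (G : Disp F3) (k : ℕ) (X0 X Y : Finset ℕ) (m t : ℕ) : Prop where
  sX : X ⊆ G.Z
  sY : Y ⊆ G.Z
  disj : Disjoint X Y
  lam : G.lam X Y = k
  gt : k < G.lam X (insert t Y)
  le : G.lam X0 (insert t Y) ≤ k
  tail : Tail G k X Y m t
  min : ∀ m' < m, ¬ G.Blocking k X Y m'

/-- no state contains the seed. -/
def Dead (T : Nd) : Prop :=
  ∀ D H φ ε, St D H (φ 2) (φ 3) → Mt T.zm T.rm T.M D H φ ε → False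

/-- no state contains the seed with a blocking walk of length `m + 1`. -/
def NoBlk (T : Nd) (m : ℕ) : Prop :=
  ∀ D H φ ε, St D H (φ 2) (φ 3) → Mt T.zm T.rm T.M D H φ ε →
    ¬ (gr D φ T.O).Blocking T.k ((fs T.A).image φ) ((fs T.B).image φ) m

/-- `lam X Y ≤ k`, `k ≤ 1`, with a nonzero entry `a, b` if `k = 1`. -/
noncomputable def leL (k X Y rm M a b : ℕ) : Bool :=
  cnd (Nat.beq k 0) (allM X (fun i => allM Y (fun j => Nat.beq (sk rm M i j) 0)))
    (andB (Nat.beq k 1) (andB (tb X a) (andB (tb Y b) (andB (notB (Nat.beq (sk rm M a b) 0))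
      (allM X (fun i => allM Y (fun j => detB p3 rm M a i b j)))))))

noncomputable def cnt (m : ℕ) : ℕ :=
  Nat.rec (motive := fun _ => ℕ) 0 (fun i r => cnd (tb m i) (Nat.succ r) r) 16

/-- a seed is well formed. -/
noncomputable def Nd.ok (T : Nd) (a b : ℕ) : Bool :=
  andB (Nat.blt T.zm 65536) (andB (Nat.beq (Nat.lor T.A (Nat.lor T.B T.O)) T.zm)
    (andB (Nat.beq (Nat.land T.A T.B) 0) (andB (Nat.beq (Nat.land (Nat.lor T.A T.B) T.O) 0)
    (andB (Nat.beq (Nat.land T.zm 12) 12) (andB (Nat.ble 5 (cnt T.zm))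
    (andB (Nat.blt T.k (cnt T.A)) (andB (Nat.blt T.k (cnt T.B))
    (andB (orB (andB (Nat.beq T.O 12) (Nat.beq T.k 0))
      (andB (orB (Nat.beq T.O 4) (Nat.beq T.O 8)) (Nat.beq T.k 1)))
    (leL T.k T.A T.B T.rm T.M a b)))))))))

def Nd.OK (T : Nd) : Prop := ∃ a b, T.ok a b = true

noncomputable def sh3 (T : Nd) (a : Wk) (zz X z : ℕ) (fl cj : Bool) (W rm M F : ℕ) : Bool :=
  andB (uvB F) (andB (mtB (fun a => a) T zz rm M F cj) (andB (Nat.beq T.k a.k)
    (andB (Nat.beq (img F T.O) a.O) (andB (Nat.beq (img F (cnd fl T.B T.A)) X)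
    (andB (Nat.beq (img F (cnd fl T.A T.B)) a.B) (gtL a.k X (Nat.lor a.B (bit z)) rm M W))))))

noncomputable def sh2 (T : Nd) (a : Wk) (n zz rz Mz X : ℕ) (fl cj : Bool) (W N : ℕ) : Bool :=
  andB (Nat.beq (Nat.land X (Nat.lor a.A (bit n))) X)
    (pvsN zz (cor (Nat.lor a.A (bit n))) (pvsN zz (cor (Nat.lor X a.B))
      (sh3 T a zz X (Nat.succ n) fl cj W)) rz Mz N)

/-- the display with the test element `n + 1`, a unit vector at `n`. -/
noncomputable def zDy (s : Dy) : Dy :=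
  setE (cnd (tb s.rm s.n) ⟨s.z1, Nat.lor s.z1 (bit (Nat.succ s.n)), rws s.z1 s.rm, s.M, Nat.succ s.n⟩
    ⟨s.z1, Nat.lor s.z1 (bit (Nat.succ s.n)), Nat.lor (rws s.z1 s.rm) (bit (Nat.succ s.n)), s.M,
      Nat.succ s.n⟩) s.n 1

/-- the entries of the label `n` with the old elements are still blank. -/
noncomputable def blank (zm M n : ℕ) : Bool :=
  allM zm (fun i => andB (Nat.beq (raw M i n) 0) (Nat.beq (raw M n i) 0))

/-- leaf: the walk can be shortened (index 6 bits, two flags, `y` 4 bits, `c` 3 bits, mask 16 bits,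
witness 16 bits, pivots, pivots, map). -/
noncomputable def shL (tab : List Nd) (b' : ℕ) (a : Wk) (s : Dy) (N : ℕ) : Bool :=
  andB (full s) (andB (Nat.blt (Nat.succ s.n) 16) (andB (blank s.z1 s.M (Nat.succ s.n))
    (andB (Nat.blt (Nat.land N 63) b')
    (andB (spanL a.B a.A s.rm s.M s.n (nib N 2) (Nat.land (Nat.shiftRight N 12) 7))
      (sh2 (nth tab (Nat.land N 63)) a s.n (zDy s).z1 (zDy s).rm (zDy s).M
        (Nat.land (Nat.shiftRight N 15) 65535) (tb N 6) (tb N 7)
        (Nat.land (Nat.shiftRight N 31) 65535) (Nat.shiftRight N 47))))))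

noncomputable def leafW1 (tab : List Nd) (b b' : ℕ) (a : Wk) (s : Dy) (op N : ℕ) : Bool :=
  cnd (Nat.beq op 3) (gtL a.k (Nat.land a.A0 s.z1) (Nat.lor (bit s.n) (Nat.land a.B s.z1)) s.rm s.M N)
    (cnd (Nat.beq op 4) (andB (Nat.beq (Nat.land a.A s.z1) a.A)
        (spanL a.A a.B s.rm s.M s.n (nib N 0) (nib N 1)))
      (cnd (Nat.beq op 5) (shL tab b' a s N) (comL tab b s.z1 s.rm s.M op N)))

noncomputable def leafW (tab : List Nd) (b b' : ℕ) (a : Wk) (s : Dy) (N : ℕ) : Bool :=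
  leafW1 tab b b' a s (Nat.land N 7) (Nat.shiftRight N 3)

noncomputable def nxW (a : Wk) (s : Dy) (N : ℕ) : Bool :=
  spanL a.B a.A s.rm s.M s.n (nib N 0) (nib N 1)

def nxaW (a : Wk) (s : Dy) : Wk := ⟨a.k, a.A, Nat.lor a.A (bit s.n), a.B, a.O⟩

/-- the meaning of the context of a walk. -/
structure QW (N : ℕ) (a : Wk) (z0 n : ℕ) (D : Disp F3) (φ : ℕ → ℕ) : Prop where
  cov : fs z0 = fs a.A ∪ fs a.B ∪ fs a.O
  oo : fs a.O ⊆ {2, 3}
  a0 : fs a.A0 ⊆ fs a.A
  blk : ∃ m ≤ N, BlkAt (gr D φ a.O) a.k ((fs a.A0).image φ) ((fs a.A).image φ)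
    ((fs a.B).image φ) m (φ n)

/-- the check of a seed with `n` labels. -/
noncomputable def ndB (tab : List Nd) (b b' i n : ℕ) (t0 t1 : Ct) : Bool :=
  andB (Nat.beq (Nat.shiftRight (nth tab i).zm n) 0) (andB (Nat.blt n 16)
    (andB (chk (leafW tab b b') nxW nxaW t0
      ⟨(nth tab i).k, 0, (nth tab i).A, (nth tab i).B, (nth tab i).O⟩
      (start (nth tab i).zm (nth tab i).rm (nth tab i).M n true))
    (chk (leafW tab b b') nxW nxaW t1
      ⟨(nth tab i).k, 0, (nth tab i).A, (nth tab i).B, (nth tab i).O⟩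
      (start (nth tab i).zm (nth tab i).rm (nth tab i).M n false))))

/-! ### the first displays -/

/-- the context of the first displays: `4, 5` are incriminating, `6, 7` are the columns and `r, s`
the rows of a `W4`; the labels are `2, …, m - 1`. -/
structure In where
  m : ℕ
  r : ℕ
  s : ℕ

noncomputable def leafI1 (tab : List Nd) (b : ℕ) (a : In) (s : Dy) (op N : ℕ) : Bool :=
  cnd (Nat.beq op 3) (notB (eqB (tb s.rm s.n) (tb 816 s.n)))
    (cnd (Nat.beq op 4) (andB (Nat.beq (Nat.land s.z1 60) 60)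
        (eqB (detB p3 s.rm s.M 4 5 2 3) (detB p4 s.rm s.M 4 5 2 3)))
      (cnd (Nat.beq op 5) (andB (orB (Nat.beq (nib N 0) a.r) (Nat.beq (nib N 0) a.s))
          (andB (orB (Nat.beq (nib N 1) 6) (Nat.beq (nib N 1) 7)) (andB (tb s.z1 (nib N 0))
          (andB (tb s.z1 (nib N 1)) (Nat.beq (sk s.rm s.M (nib N 0) (nib N 1)) 0)))))
        (cnd (Nat.beq op 6) (andB (Nat.beq (Nat.land s.z1 (msk4 a.r a.s 6 7)) (msk4 a.r a.s 6 7))
            (detB p3 s.rm s.M a.r a.s 6 7))
          (comL tab b s.z1 s.rm s.M op N))))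

noncomputable def leafI (tab : List Nd) (b : ℕ) (a : In) (s : Dy) (N : ℕ) : Bool :=
  leafI1 tab b a s (Nat.land N 7) (Nat.shiftRight N 3)

def nxI (a : In) (s : Dy) (_ : ℕ) : Bool := Nat.blt (Nat.succ s.n) a.m

/-- the meaning of the context of the first displays. -/
structure QI (a : In) (n : ℕ) (D : Disp F3) (H : Disp F4) (φ : ℕ → ℕ) : Prop where
  lt : n < a.m
  inj : Set.InjOn φ (Set.Ico 2 a.m)
  mem : ∀ i, 2 ≤ i → i < a.m → φ i ∈ D.Z ∧ D.row (φ i) = Nat.testBit 816 i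
  inc : Inc D H (φ 4) (φ 5) (φ 2) (φ 3)
  w4 : D.W4 (φ a.r) (φ a.s) (φ 6) (φ 7)

/-- the check of the first displays. -/
noncomputable def inB (tab : List Nd) (b : ℕ) (a : In) (t : Ct) : Bool :=
  chk (leafI tab b) nxI (fun a _ => a) t a (start 12 0 0 4 true)

end ML

end Pool.Agent.Lib.MP_c69b6d_co.F
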