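import Pool.Agent.Lib.MP_c69b6d_co.F.SB1
import Pool.Agent.Lib.MP_c69b6d_co.F.SB2

/-! Stage B: moves on states and the incriminating pair. -/

namespace Pool.Agent.Lib.MP_c69b6d_co.F

open Finset Disp

variable {D : Disp F3} {H : Disp F4} {x y u v : ℕ}

theorem mem_core {i : ℕ} : i ∈ core D u v ↔ i ≠ v ∧ i ≠ u ∧ i ∈ D.Z := by
  unfold core; rw [mem_erase, mem_erase]

theorem core_comm (D : Disp F3) (u v : ℕ) : core D u v = core D v u := erase_right_comm

theorem core_sub (D : Disp F3) (u v : ℕ) : core D u v ⊆ D.Z :=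
  fun _ hi => (mem_core.1 hi).2.2

theorem core_sub_left (D : Disp F3) (u v : ℕ) : core D u v ⊆ D.Z.erase u := erase_subset _ _

theorem core_sub_right (D : Disp F3) (u v : ℕ) : core D u v ⊆ D.Z.erase v :=
  core_comm D v u ▸ core_sub_left D v u

theorem core_pivot (D : Disp F3) (i j u v : ℕ) : core (D.pivot i j) u v = core D u v := by
  unfold core; rw [pivot_Z]

theorem core_reachIn {U : Finset ℕ} {E : Disp F3} (h : ReachIn U D E) (u v : ℕ) :
    core E u v = core D u v := by
  unfold core; rw [h.Z_eq]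

theorem St.symm (h : St D H u v) : St D H v u :=
  ⟨h.free, h.hZ, h.mv, h.mu, h.ne.symm, h.rv, h.ru, h.cv, h.cu, h.vv, h.vu⟩

theorem St.row (h : St D H u v) {i : ℕ} (hi : i ∈ D.Z) : H.row i = D.row i := by
  by_cases e : i = u
  · exact h.vv.row i (mem_erase.2 ⟨e ▸ h.ne, hi⟩)
  · exact h.vu.row i (mem_erase.2 ⟨e, hi⟩)

theorem St.supp (h : St D H u v) {i j : ℕ} (hi : i ∈ D.Z) (hj : j ∈ D.Z) :
    H.S i j = 0 ↔ D.S i j = 0 := by
  by_cases a : i ≠ u ∧ j ≠ u
  · exact h.vu.supp (mem_erase.2 ⟨a.1, hi⟩) (mem_erase.2 ⟨a.2, hj⟩)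
  by_cases b : i ≠ v ∧ j ≠ v
  · exact h.vv.supp (mem_erase.2 ⟨b.1, hi⟩) (mem_erase.2 ⟨b.2, hj⟩)
  have hne := h.ne
  have e : D.row i = D.row j := by
    have k : (i = u ∨ i = v) ∧ (j = u ∨ j = v) := by omega
    have k' : ∀ t, t = u ∨ t = v → D.row t = false := by
      rintro t (rfl | rfl)
      · exact h.ru
      · exact h.rv
    rw [k' i k.1, k' j k.2]
  have e' : H.row i = H.row j := by rw [h.row hi, h.row hj, e]
  exact iff_of_true (H.bip i j e') (D.bip i j e)

theorem St.val_core (h : St D H u v) : Val D H (core D u v) := h.vu.mono (core_sub_left D u v)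

theorem St.B_eq (h : St D H u v) : H.B = D.B := by
  ext i
  rw [mem_B, mem_B, h.hZ]
  exact and_congr_right fun hi => by rw [h.row hi]

theorem St.pivot (h : St D H u v) {i j : ℕ} (hi : i ∈ core D u v) (hj : j ∈ core D u v) :
    St (D.pivot i j) (H.pivot i j) u v := by
  have r : ReachIn (core D u v) D (D.pivot i j) := ReachIn.single hi hj
  have nu : u ∉ core D u v := fun k => (mem_core.1 k).2.1 rfl
  have nv : v ∉ core D u v := fun k => (mem_core.1 k).1 rfl
  refine ⟨h.free.minor (r.reach (core_sub D u v)).minor, by rw [pivot_Z, pivot_Z, h.hZ],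
    by rw [pivot_Z]; exact h.mu, by rw [pivot_Z]; exact h.mv, h.ne,
    (r.row_eq nu).trans h.ru, (r.row_eq nv).trans h.rv, ?_, ?_, ?_, ?_⟩
  · rw [pivot_Z]
    exact h.cu.reach ((r.restrict _).reach (core_sub_left D u v))
  · rw [pivot_Z]
    exact h.cv.reach ((r.restrict _).reach (core_sub_right D u v))
  · rw [pivot_Z]
    exact h.vu.pivot (core_sub_left D u v hi) (core_sub_left D u v hj)
  · rw [pivot_Z]
    exact h.vv.pivot (core_sub_right D u v hi) (core_sub_right D u v hj)

theorem St.scale (h : St D H u v) {ε : ℕ → F4} (hε : ∀ i, ε i ≠ 0) : St D (H.scale ε) u v :=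
  ⟨h.free, h.hZ, h.mu, h.mv, h.ne, h.ru, h.rv, h.cu, h.cv, h.vu.trans (val_scale H hε _),
    h.vv.trans (val_scale H hε _)⟩

theorem St.map (h : St D H u v) (f : F4 →+* F4) : St D (H.map f) u v :=
  ⟨h.free, h.hZ, h.mu, h.mv, h.ne, h.ru, h.rv, h.cu, h.cv, h.vu.trans (val_map H f _),
    h.vv.trans (val_map H f _)⟩

/-- joint pivots along a path in the core. -/
theorem St.reachIn (h : St D H u v) {E : Disp F3} (hr : ReachIn (core D u v) D E) :
    ∃ G, St E G u v ∧ ReachIn (core D u v) H G :=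
  hr.ind (P := fun E => ∃ G, St E G u v ∧ ReachIn (core D u v) H G) ⟨H, h, ReachIn.refl _ _⟩
    fun _ i j hi hj _ hE ⟨G, h1, h2⟩ =>
      ⟨G.pivot i j, h1.pivot ((core_reachIn hE u v).symm ▸ hi) ((core_reachIn hE u v).symm ▸ hj),
        h2.trans (ReachIn.single hi hj)⟩

theorem St.conn_aux (h : St D H u v) {X Y : Finset ℕ} (hZ : X ∪ Y = core D u v)
    (hd : Disjoint X Y) (hX : X.Nonempty) (hY : 2 ≤ Y.card) : 1 ≤ D.lam X Y := by
  have sX : X ⊆ core D u v := hZ ▸ subset_union_left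
  have sY : Y ⊆ core D u v := hZ ▸ subset_union_right
  have vX : v ∉ X := fun k => (mem_core.1 (sX k)).1 rfl
  have e : D.Z.erase u \ insert v X = Y := by
    ext i
    rw [mem_sdiff, mem_insert, mem_erase]
    have k1 : i ∈ X ∨ i ∈ Y ↔ i ≠ v ∧ i ≠ u ∧ i ∈ D.Z := by rw [← mem_union, hZ, mem_core]
    have k2 : i ∈ X → i ∉ Y := fun k => disjoint_left.1 hd k
    tauto
  have k := (h.cu (insert v X) (insert_subset (mem_erase.2 ⟨h.ne.symm, h.mv⟩)
    (sX.trans (core_sub_left D u v)))).2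
  have c : 2 ≤ (insert v X).card := by
    rw [card_insert_of_notMem vX]; have := hX.card_pos; omega
  change 2 ≤ (insert v X).card → 2 ≤ (D.Z.erase u \ insert v X).card →
    2 ≤ D.lam (insert v X) (D.Z.erase u \ insert v X) at k
  rw [e] at k
  have k3 := k c hY
  have k4 := D.lam_insert_le X Y v
  omega

/-- the core is connected. -/
theorem St.conn (h : St D H u v) (h4 : 3 ≤ (core D u v).card) {X Y : Finset ℕ}
    (hZ : X ∪ Y = core D u v) (hd : Disjoint X Y) (hX : X.Nonempty) (hY : Y.Nonempty) :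
    1 ≤ D.lam X Y := by
  by_cases c : 2 ≤ Y.card
  · exact h.conn_aux hZ hd hX c
  · rw [← hZ, card_union_of_disjoint hd] at h4
    rw [lam_symm]
    exact h.conn_aux (by rw [union_comm, hZ]) hd.symm hY (by omega)

section generic

variable {K : Type} [Field K]

theorem indep_mono {M : Disp K} {I J : Finset ℕ} (h : M.Indep J) (hI : I ⊆ J) : M.Indep I :=
  fun d hd h0 => h d hd fun i hi => h0 i fun k => hi (hI k)

/-- deleting columns outside `I` does not change the independence of `I`. -/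
theorem indep_restrict {M : Disp K} {U I : Finset ℕ} (hU : U ⊆ M.Z) (hI : I ⊆ U)
    (hc : ∀ i ∈ M.Z, i ∉ U → M.row i = false) : (M.restrict U).Indep I ↔ M.Indep I := by
  refine ⟨fun h d hd h0 => h d ?_ h0, fun h d hd h0 => h d ?_ h0⟩
  · exact mem_code_restrict_of_supp (D := M.flip) hU hd fun i hi => h0 i fun k => hi (hI k)
  · exact mem_code_of_restrict (D := M.flip) hU
      (fun i hi k => by change (!M.row i) = true; rw [hc i hi k]; rfl) hd

/-- bases which avoid the column `u`. -/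
theorem base_del_col {M : Disp K} {u : ℕ} (ru : M.row u = false) {F : Finset ℕ} (hF : u ∉ F) :
    (M.restrict (M.Z.erase u)).Base F ↔ M.Base F := by
  have eB : (M.restrict (M.Z.erase u)).B = M.B := by
    ext i
    rw [mem_B, mem_B]
    change i ∈ M.Z.erase u ∧ M.row i = true ↔ _
    rw [mem_erase]
    refine ⟨fun k => ⟨k.1.2, k.2⟩, fun k => ⟨⟨?_, k.1⟩, k.2⟩⟩
    rintro rfl
    rw [ru] at k
    exact Bool.false_ne_true k.2
  have hc : ∀ i ∈ M.Z, i ∉ M.Z.erase u → M.row i = false := fun i hi k => by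
    by_cases e : i = u
    · rw [e, ru]
    · exact absurd (mem_erase.2 ⟨e, hi⟩) k
  rw [base_iff_indep, base_iff_indep, eB]
  change F ⊆ M.Z.erase u ∧ _ ↔ _
  constructor
  · rintro ⟨a, b, c⟩
    exact ⟨a.trans (erase_subset _ _), b, (indep_restrict (erase_subset _ _) a hc).1 c⟩
  · rintro ⟨a, b, c⟩
    have a' : F ⊆ M.Z.erase u := subset_erase.2 ⟨a, hF⟩
    exact ⟨a', b, (indep_restrict (erase_subset _ _) a' hc).2 c⟩

end generic

theorem St.base_of_notMem (h : St D H u v) {F : Finset ℕ} (hF : u ∉ F) :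
    H.Base F ↔ D.Base F := by
  rw [← base_del_col h.ru hF, ← base_del_col ((h.row h.mu).trans h.ru) hF, h.hZ]
  exact h.vu.base F

theorem St.col_of_notMem (h : St D H u v) {i : ℕ} (hi : i ∈ D.Z) (hc : i ∉ core D u v) :
    D.row i = false := by
  rw [mem_core] at hc
  by_cases e : i = v
  · rw [e, h.rv]
  · by_cases e' : i = u
    · rw [e', h.ru]
    · exact absurd ⟨e, e', hi⟩ hc

/-- step A0: an invalid state can be moved to a state with an incriminating pair. -/
theorem St.exists_inc (h : St D H u v) (hv : ¬ Val D H D.Z) :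
    ∃ D' H' x y, StI D' H' x y u v ∧ ReachIn (core D u v) D D' := by
  obtain ⟨F, hF⟩ : ∃ F, ¬ (H.Base F ↔ D.Base F) := by
    by_contra hc
    refine hv ⟨fun i hi => h.row hi, fun F => ?_⟩
    have e : H.restrict D.Z = H := by rw [← h.hZ]; rfl
    rw [e]
    exact not_not.1 fun k => hc ⟨F, k⟩
  have uF : u ∈ F := by by_contra k; exact hF (h.base_of_notMem k)
  have vF : v ∈ F := by by_contra k; exact hF (h.symm.base_of_notMem k)
  have one : D.Base F ∨ H.Base F := by tauto
  have FZ : F ⊆ D.Z := one.elim (fun k => k.1) fun k => h.hZ ▸ k.1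
  have Fc : F.card = D.B.card := one.elim (fun k => k.2.1) fun k => h.B_eq ▸ k.2.1
  have IF : (F.erase u).erase v ⊆ F := (erase_subset _ _).trans (erase_subset _ _)
  have IC : (F.erase u).erase v ⊆ core D u v := erase_subset_erase _ (erase_subset_erase _ FZ)
  have ind : (D.restrict (core D u v)).Indep ((F.erase u).erase v) := by
    rcases one with k | k
    · exact (indep_restrict (core_sub D u v) IC fun i hi hc => h.col_of_notMem hi hc).2
        (indep_mono (base_iff_indep.1 k).2.2 IF)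
    · refine (h.val_core.indep IC).1 ((indep_restrict (h.hZ ▸ core_sub D u v) IC
        fun i hi hc => ?_).2 (indep_mono (base_iff_indep.1 k).2.2 IF))
      rw [h.hZ] at hi
      rw [h.row hi, h.col_of_notMem hi hc]
  obtain ⟨E, r0, sE⟩ := reach_rows (D := D.restrict (core D u v)) IC ind
  obtain ⟨D', r1, rfl⟩ := (r0.mono (V := core D u v) (union_subset (sdiff_subset.trans IC)
    (sdiff_subset.trans (filter_subset _ _)))).lift
  obtain ⟨H', st, r2⟩ := h.reachIn r1
  have R1 : D.Reach D' := r1.reach (core_sub D u v)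
  have R2 : H.Reach H' := r2.reach (h.hZ ▸ core_sub D u v)
  have sB : (F.erase u).erase v ⊆ D'.B := fun i hi =>
    mem_B.2 ⟨R1.Z_eq ▸ FZ (IF hi), (mem_B.1 (sE hi)).2⟩
  have vF' : v ∈ F.erase u := mem_erase.2 ⟨h.ne.symm, vF⟩
  have c2 : (D'.B \ (F.erase u).erase v).card = 2 := by
    have k1 := card_erase_add_one uF
    have k2 := card_erase_add_one vF'
    rw [card_sdiff_of_subset sB, R1.card_B]
    omega
  obtain ⟨x, y, hxy, e⟩ := card_eq_two.1 c2
  have xm : x ∈ D'.B \ (F.erase u).erase v := e ▸ mem_insert_self _ _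
  have ym : y ∈ D'.B \ (F.erase u).erase v := e ▸ mem_insert_of_mem (mem_singleton_self _)
  obtain ⟨xZ, rx⟩ := mem_B.1 (mem_sdiff.1 xm).1
  obtain ⟨yZ, ry⟩ := mem_B.1 (mem_sdiff.1 ym).1
  have eI : (D'.B.erase x).erase y = (F.erase u).erase v := by
    ext i
    have k1 : i ∈ D'.B ∧ i ∉ (F.erase u).erase v ↔ i = x ∨ i = y := by
      rw [← mem_sdiff, e, mem_insert, mem_singleton]
    have k2 := @sB i
    rw [mem_erase (a := i) (b := y), mem_erase (a := i) (b := x)]
    tauto
  have eF : insert u (insert v ((D'.B.erase x).erase y)) = F := by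
    rw [eI, insert_erase vF', insert_erase uF]
  have cm : ∀ i ∈ D'.Z, D'.row i = true → i ∈ core D' u v := fun i hi ri => by
    by_contra k
    rw [st.col_of_notMem hi k] at ri
    exact Bool.false_ne_true ri
  refine ⟨D', H', x, y, ⟨st, cm x xZ rx, cm y yZ ry, hxy, rx, ry, fun k => hF ?_⟩, r1⟩
  have b1 := base_swap2 xZ yZ st.mu st.mv hxy st.ne rx ry st.ru st.rv
  have b2 := base_swap2 (D := H') (st.hZ ▸ xZ) (st.hZ ▸ yZ) (st.hZ ▸ st.mu) (st.hZ ▸ st.mv) hxy
    st.ne ((st.row xZ).trans rx) ((st.row yZ).trans ry) ((st.row st.mu).trans st.ru)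
    ((st.row st.mv).trans st.rv)
  rw [st.B_eq, eF] at b2
  rw [eF] at b1
  rw [← R1.base_iff, ← R2.base_iff, b1, b2]
  exact not_congr k

end Pool.Agent.Lib.MP_c69b6d_co.F
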