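import Pool.Agent.Lib.MP_c69b6d_co.F.SBA

/-! Stage B: a displayed `W4` next to an incriminating pair. -/

namespace Pool.Agent.Lib.MP_c69b6d_co.F

open Finset Disp

namespace SBAw

/-- the value of a step. -/
def g (H : Disp F4) (a b : ℕ) : F4 := if H.row a = true then H.S a b else (H.S a b)⁻¹

/-- the value of the walk from `a` through `t` to `b`. -/
def wv (H : Disp F4) : ℕ → List ℕ → ℕ → F4
  | a, [], b => g H a b
  | a, c :: t, b => g H a c * wv H c t b

variable {H : Disp F4}

theorem S_symm (H : Disp F4) (a b : ℕ) : H.S a b = H.S b a := by rw [H.skew, F4.neg_eq]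

theorem g_ne {a b : ℕ} : g H a b ≠ 0 ↔ H.S a b ≠ 0 := by
  unfold g; split_ifs
  · rfl
  · exact inv_eq_zero.not

theorem g_symm (H : Disp F4) (a b : ℕ) : g H b a = (g H a b)⁻¹ := by
  unfold g
  by_cases e : H.row a = H.row b
  · rw [H.bip a b e, H.bip b a e.symm]; simp
  · rw [S_symm H b a]
    cases ha : H.row a <;> cases hb : H.row b <;> simp_all

theorem g_mul {a b : ℕ} (h : H.S a b ≠ 0) : g H a b * g H b a = 1 := by
  rw [g_symm H a b]; exact mul_inv_cancel₀ (g_ne.2 h)

theorem g_row {a b : ℕ} (h : g H a b ≠ 0) : H.row b = !H.row a := by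
  have := row_ne_of_S (g_ne.1 h)
  revert this; cases H.row a <;> cases H.row b <;> simp

theorem wv_append (a : ℕ) (p : List ℕ) (c : ℕ) (q : List ℕ) (b : ℕ) :
    wv H a (p ++ c :: q) b = wv H a p c * wv H c q b := by
  induction p generalizing a with
  | nil => rfl
  | cons d p ih => simp only [List.cons_append, wv, ih, mul_assoc]

theorem wv_snoc (a : ℕ) (p : List ℕ) (c b : ℕ) : wv H a (p ++ [c]) b = wv H a p c * g H c b :=
  wv_append a p c [] b

theorem wv_reverse (a : ℕ) (t : List ℕ) (b : ℕ) : wv H b t.reverse a = (wv H a t b)⁻¹ := by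
  induction t generalizing a with
  | nil => exact g_symm H a b
  | cons c t ih => rw [List.reverse_cons, wv_snoc, ih, g_symm H a c, wv, mul_inv, mul_comm]

theorem wv_rot (a : ℕ) (p : List ℕ) (c : ℕ) (q : List ℕ) :
    wv H c (q ++ a :: p) c = wv H a (p ++ c :: q) a := by
  rw [wv_append, wv_append, mul_comm]

/-- `0/1` displays stay `0/1`. -/
theorem not_nb {G : Disp F4} {L : Finset ℕ} (h : ∀ i ∈ L, ∀ j ∈ L, G.S i j = 0 ∨ G.S i j = 1) :
    ¬ G.Nb L := by
  intro hn
  obtain ⟨E, r, s, c, d, hE, hr, hs, hc, hd, hw⟩ := SB1.nb_iff.1 hn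
  have k : ∀ i ∈ L, ∀ j ∈ L, E.S i j = 0 ∨ E.S i j = 1 := by
    refine hE.ind (P := fun E => ∀ i ∈ L, ∀ j ∈ L, E.S i j = 0 ∨ E.S i j = 1) h ?_
    intro E x y hx hy h0 _ ih i hi j hj
    have e1 : E.S x y = 1 := (ih x hx y hy).resolve_left h0
    have e2 : E.S y x = 1 := by rw [S_symm, e1]
    have k2 : ∀ a b c d e : F4, (a = 0 ∨ a = 1) → (b = 0 ∨ b = 1) → (c = 0 ∨ c = 1) →
        (d = 0 ∨ d = 1) → (e = 0 ∨ e = 1) → a - b * c - d * e = 0 ∨ a - b * c - d * e = 1 := by
      decide
    rw [pivot_S h0]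
    unfold pS
    rw [e1, e2]
    simp only [div_one, F4.neg_eq]
    split_ifs
    · exact Or.inr rfl
    · exact Or.inl rfl
    · exact ih y hy j hj
    · exact Or.inr rfl
    · exact Or.inl rfl
    · exact ih x hx j hj
    · exact ih y hy i hi
    · exact ih x hx i hi
    · exact k2 _ _ _ _ _ (ih i hi j hj) (ih i hi y hy) (ih x hx j hj) (ih i hi x hx) (ih y hy j hj)
  obtain ⟨h1, h2, h3, h4, h5⟩ := hw
  rw [(k r hr c hc).resolve_left h1, (k r hr d hd).resolve_left h2,
    (k s hs c hc).resolve_left h3, (k s hs d hd).resolve_left h4] at h5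
  exact h5 rfl

/-- there is a walk in `L` from `a` to `b` with value `w`. -/
def Rw (H : Disp F4) (L : Finset ℕ) (a b : ℕ) (w : F4) : Prop :=
  (a = b ∧ w = 1) ∨ ∃ t : List ℕ, (∀ z ∈ t, z ∈ L) ∧ wv H a t b = w ∧ w ≠ 0

theorem Rw.ne {L : Finset ℕ} {a b : ℕ} {w : F4} (h : Rw H L a b w) : w ≠ 0 := by
  rcases h with ⟨-, rfl⟩ | ⟨t, -, -, h⟩
  · exact one_ne_zero
  · exact h

theorem Rw.ext {L : Finset ℕ} {a b c : ℕ} {w : F4} (h : Rw H L a b w) (hb : b ∈ L)
    (hc : H.S b c ≠ 0) : Rw H L a c (w * g H b c) := by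
  rcases h with ⟨rfl, rfl⟩ | ⟨t, ht, rfl, h⟩
  · exact Or.inr ⟨[], by simp, by rw [one_mul]; rfl, by rw [one_mul]; exact g_ne.2 hc⟩
  · refine Or.inr ⟨t ++ [b], fun z hz => ?_, wv_snoc _ _ _ _, mul_ne_zero h (g_ne.2 hc)⟩
    rcases List.mem_append.1 hz with k | k
    · exact ht z k
    · rw [List.mem_singleton.1 k]; exact hb

theorem Rw.uniq {L : Finset ℕ}
    (hc : ∀ a ∈ L, ∀ t : List ℕ, (∀ z ∈ t, z ∈ L) → wv H a t a ≠ 0 → wv H a t a = 1)
    {a b : ℕ} (ha : a ∈ L) (hb : b ∈ L) {w w' : F4} (h : Rw H L a b w) (h' : Rw H L a b w') :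
    w = w' := by
  rcases h with ⟨rfl, rfl⟩ | ⟨t, ht, rfl, h⟩
  · rcases h' with ⟨-, rfl⟩ | ⟨t', ht', rfl, h'⟩
    · rfl
    · exact (hc a ha t' ht' h').symm
  · rcases h' with ⟨rfl, rfl⟩ | ⟨t', ht', rfl, h'⟩
    · exact hc a ha t ht h
    · have e : wv H a (t ++ b :: t'.reverse) a = wv H a t b * (wv H a t' b)⁻¹ := by
        rw [wv_append, wv_reverse]
      have k := hc a ha (t ++ b :: t'.reverse) (fun z hz => by
        rcases List.mem_append.1 hz with k | k
        · exact ht z k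
        · rcases List.mem_cons.1 k with k | k
          · rw [k]; exact hb
          · exact ht' z (List.mem_reverse.1 k)) (by rw [e]; exact mul_ne_zero h (inv_ne_zero h'))
      rw [e] at k
      exact (mul_inv_eq_one₀ h').1 k

theorem exists_bad {L : Finset ℕ} (hn : H.Nb L) :
    ∃ a ∈ L, ∃ t : List ℕ, (∀ z ∈ t, z ∈ L) ∧ wv H a t a ≠ 0 ∧ wv H a t a ≠ 1 := by
  classical
  by_contra hc
  have hc' : ∀ a ∈ L, ∀ t : List ℕ, (∀ z ∈ t, z ∈ L) → wv H a t a ≠ 0 → wv H a t a = 1 :=
    fun a ha t ht h0 => by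
      by_contra h1
      exact hc ⟨a, ha, t, ht, h0, h1⟩
  have ex : ∀ i, ∃ r, (i ∈ L → r ∈ L) ∧ ∃ w, Rw H L r i w :=
    fun i => ⟨i, id, 1, Or.inl ⟨rfl, rfl⟩⟩
  have sp := fun i => Nat.find_spec (ex i)
  have le : ∀ i ∈ L, ∀ j ∈ L, H.S i j ≠ 0 → Nat.find (ex j) ≤ Nat.find (ex i) := by
    intro i hi j _ h0
    obtain ⟨h1, w, hw⟩ := sp i
    exact Nat.find_min' _ ⟨fun _ => h1 hi, _, hw.ext hi h0⟩
  choose φ hφ using fun i => (sp i).2
  have st : ∀ i ∈ L, ∀ j ∈ L, H.S i j ≠ 0 → φ j = φ i * g H i j := by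
    intro i hi j hj h0
    have e : Nat.find (ex j) = Nat.find (ex i) :=
      le_antisymm (le i hi j hj h0) (le j hj i hi (S_ne_symm h0))
    have k := hφ j
    rw [e] at k
    exact Rw.uniq hc' ((sp i).1 hi) hj k ((hφ i).ext hi h0)
  have hε : ∀ i, (if H.row i = true then φ i else (φ i)⁻¹) ≠ 0 := fun i => by
    split_ifs
    · exact (hφ i).ne
    · exact inv_ne_zero (hφ i).ne
  refine not_nb (G := H.scale fun i => if H.row i = true then φ i else (φ i)⁻¹) ?_
    ((val_scale H hε L).nb.2 hn)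
  intro i hi j hj
  change (if H.row i = true then φ i else (φ i)⁻¹) * (if H.row j = true then φ j else (φ j)⁻¹) *
    H.S i j = 0 ∨ (if H.row i = true then φ i else (φ i)⁻¹) *
      (if H.row j = true then φ j else (φ j)⁻¹) * H.S i j = 1
  by_cases h0 : H.S i j = 0
  · left; rw [h0, mul_zero]
  · right
    have hr := g_row (g_ne.2 h0)
    have hi0 := (hφ i).ne
    rw [st i hi j hj h0, hr]
    unfold g
    cases H.row i
    · simp only [Bool.false_eq_true, if_false, Bool.not_false, if_true]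
      field_simp
    · simp only [Bool.false_eq_true, if_false, Bool.not_true, if_true]
      field_simp

variable {D : Disp F3} {x y u v : ℕ}

theorem swap (h : StI D H x y u v) : StI D H y x u v := by
  refine ⟨h.st, h.my, h.mx, h.ne.symm, h.ry, h.rx, fun k => h.inc ?_⟩
  rw [mul_comm (H.S y u), mul_comm (H.S y v), mul_comm (D.S y u), mul_comm (D.S y v)] at k
  rw [eq_comm, eq_comm (a := D.S x u * D.S y v)]
  exact k

theorem det_a {K : Type} [Field K] {M : Disp K} {x y j u v : ℕ} (h0 : M.S x j ≠ 0)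
    (hyx : y ≠ x) (hyj : y ≠ j) (hux : u ≠ x) (huj : u ≠ j) (hvx : v ≠ x) (hvj : v ≠ j)
    (hz : M.S y x = 0) :
    (M.pivot x j).S j u * (M.pivot x j).S y v = (M.pivot x j).S j v * (M.pivot x j).S y u ↔
      M.S x u * M.S y v = M.S x v * M.S y u := by
  have hjx : j ≠ x := (ne_of_S h0).symm
  have e1 : (M.pivot x j).S j u = M.S x u / M.S x j := by
    rw [pivot_S h0]; simp [pS, hjx, hux, huj]
  have e2 : (M.pivot x j).S j v = M.S x v / M.S x j := by
    rw [pivot_S h0]; simp [pS, hjx, hvx, hvj]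
  rw [e1, e2, pivot_S_gen h0 hyx hyj hvx hvj, pivot_S_gen h0 hyx hyj hux huj, hz,
    ← sub_eq_zero, ← sub_eq_zero (a := M.S x u * M.S y v)]
  have e : M.S x u / M.S x j * (M.S y v - M.S y j * M.S x v / M.S x j - 0 * M.S j v / M.S j x) -
      M.S x v / M.S x j * (M.S y u - M.S y j * M.S x u / M.S x j - 0 * M.S j u / M.S j x) =
      (M.S x u * M.S y v - M.S x v * M.S y u) / M.S x j := by
    field_simp
    ring
  rw [e, div_eq_zero_iff]
  exact or_iff_left h0

theorem ent_b {K : Type} [Field K] {M : Disp K} {i j x u : ℕ} (h0 : M.S i j ≠ 0)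
    (hxi : x ≠ i) (hxj : x ≠ j) (hui : u ≠ i) (huj : u ≠ j) (h1 : M.S x j = 0)
    (h2 : M.S x i = 0) : (M.pivot i j).S x u = M.S x u := by
  rw [pivot_S_gen h0 hxi hxj hui huj, h1, h2]; simp

/-- the pivot on `i, j` keeps an incriminating pair. -/
def Al (D : Disp F3) (H : Disp F4) (u v i j : ℕ) : Prop :=
  ∃ x y, StI (D.pivot i j) (H.pivot i j) x y u v

theorem Al.symm {i j : ℕ} (h : Al D H u v i j) : Al D H u v j i := by
  unfold Al; rw [pivot_comm D, pivot_comm H]; exact h

theorem al_a (h : StI D H x y u v) {j : ℕ} (hj : j ∈ core D u v) (h0 : H.S x j ≠ 0) :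
    Al D H u v x j := by
  have mx := mem_core.1 h.mx
  have my := mem_core.1 h.my
  have mj := mem_core.1 hj
  have d0 : D.S x j ≠ 0 := fun k => h0 ((h.st.supp mx.2.2 mj.2.2).2 k)
  have rj : D.row j = false := by
    have := row_ne_of_S d0
    rw [h.rx] at this
    revert this; cases D.row j <;> simp
  have hyj : y ≠ j := fun e => by have := h.ry; rw [e, rj] at this; exact absurd this (by simp)
  have dz : D.S y x = 0 := D.bip _ _ (h.ry.trans h.rx.symm)
  have hz : H.S y x = 0 := (h.st.supp my.2.2 mx.2.2).2 dz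
  refine ⟨j, y, h.st.pivot h.mx hj, by rw [core_pivot]; exact hj, by rw [core_pivot]; exact h.my,
    hyj.symm, ?_, ?_, ?_⟩
  · rw [pivot_row d0, if_pos (Or.inr rfl), rj]; rfl
  · rw [pivot_row d0, if_neg (not_or.2 ⟨h.ne.symm, hyj⟩)]; exact h.ry
  · unfold Inc
    rw [det_a h0 h.ne.symm hyj mx.2.1.symm mj.2.1.symm mx.1.symm mj.1.symm hz,
      det_a d0 h.ne.symm hyj mx.2.1.symm mj.2.1.symm mx.1.symm mj.1.symm dz]
    exact h.inc

theorem al_b (h : StI D H x y u v) {i j : ℕ} (hi : i ∈ core D u v) (hj : j ∈ core D u v)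
    (rj : H.row j = false) (h0 : H.S i j ≠ 0) (hx : H.S x j = 0) (hy : H.S y j = 0) :
    Al D H u v i j := by
  have mx := mem_core.1 h.mx
  have my := mem_core.1 h.my
  have mi := mem_core.1 hi
  have mj := mem_core.1 hj
  have d0 : D.S i j ≠ 0 := fun k => h0 ((h.st.supp mi.2.2 mj.2.2).2 k)
  have rj' : D.row j = false := (h.st.row mj.2.2).symm.trans rj
  have ri : D.row i = true := by
    have := row_ne_of_S d0
    rw [rj'] at this
    revert this; cases D.row i <;> simp
  have hxi : x ≠ i := fun e => h0 (e ▸ hx)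
  have hyi : y ≠ i := fun e => h0 (e ▸ hy)
  have hxj : x ≠ j := fun e => by have := h.rx; rw [e, rj'] at this; exact absurd this (by simp)
  have hyj : y ≠ j := fun e => by have := h.ry; rw [e, rj'] at this; exact absurd this (by simp)
  have dx : D.S x i = 0 := D.bip _ _ (h.rx.trans ri.symm)
  have dy : D.S y i = 0 := D.bip _ _ (h.ry.trans ri.symm)
  have hx' : H.S x i = 0 := (h.st.supp mx.2.2 mi.2.2).2 dx
  have hy' : H.S y i = 0 := (h.st.supp my.2.2 mi.2.2).2 dy
  have dx' : D.S x j = 0 := (h.st.supp mx.2.2 mj.2.2).1 hx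
  have dy' : D.S y j = 0 := (h.st.supp my.2.2 mj.2.2).1 hy
  refine ⟨x, y, h.st.pivot hi hj, by rw [core_pivot]; exact h.mx, by rw [core_pivot]; exact h.my,
    h.ne, ?_, ?_, ?_⟩
  · rw [pivot_row d0, if_neg (not_or.2 ⟨hxi, hxj⟩)]; exact h.rx
  · rw [pivot_row d0, if_neg (not_or.2 ⟨hyi, hyj⟩)]; exact h.ry
  · unfold Inc
    rw [ent_b h0 hxi hxj mi.2.1.symm mj.2.1.symm hx hx', ent_b h0 hxi hxj mi.1.symm mj.1.symm hx hx',
      ent_b h0 hyi hyj mi.2.1.symm mj.2.1.symm hy hy', ent_b h0 hyi hyj mi.1.symm mj.1.symm hy hy',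
      ent_b d0 hxi hxj mi.2.1.symm mj.2.1.symm dx' dx, ent_b d0 hxi hxj mi.1.symm mj.1.symm dx' dx,
      ent_b d0 hyi hyj mi.2.1.symm mj.2.1.symm dy' dy, ent_b d0 hyi hyj mi.1.symm mj.1.symm dy' dy]
    exact h.inc

theorem g_piv {a j b c : ℕ} (h0 : H.S a j ≠ 0) (hba : b ≠ a) (hbj : b ≠ j) (hca : c ≠ a)
    (hcj : c ≠ j) (h1 : H.S j b = 0 ∨ H.S a c = 0) (h2 : H.S a b = 0 ∨ H.S j c = 0) :
    g (H.pivot a j) b c = g H b c := by
  have e : (H.pivot a j).S b c = H.S b c := by
    rw [pivot_S_gen h0 hba hbj hca hcj, S_symm H b j, S_symm H b a, mul_eq_zero.2 h1,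
      mul_eq_zero.2 h2]
    simp
  unfold g
  rw [e, pivot_row h0, if_neg (not_or.2 ⟨hba, hbj⟩)]

theorem wv_piv {a j m : ℕ} (h0 : H.S a j ≠ 0) (hma : m ≠ a) (hmj : m ≠ j) (jm : H.S j m = 0)
    (s : List ℕ) (hs : ∀ z ∈ s, z ≠ a ∧ z ≠ j ∧ H.S a z = 0 ∧ H.S j z = 0) (k : ℕ) (hka : k ≠ a)
    (hkj : k ≠ j) (ak : H.S a k = 0) (hk : s = [] → H.S j k = 0) :
    wv (H.pivot a j) k s m = wv H k s m := by
  induction s generalizing k with
  | nil => exact g_piv h0 hka hkj hma hmj (Or.inl (hk rfl)) (Or.inl ak)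
  | cons c s ih =>
    obtain ⟨c1, c2, c3, c4⟩ := hs c (List.mem_cons_self ..)
    rw [wv, wv, g_piv h0 hka hkj c1 c2 (Or.inr c3) (Or.inl ak),
      ih (fun z hz => hs z (List.mem_cons_of_mem _ hz)) c c1 c2 c3 (fun _ => c4)]

theorem g_new {a j m k : ℕ} (h0 : H.S a j ≠ 0) (hma : m ≠ a) (hmj : m ≠ j) (hka : k ≠ a)
    (hkj : k ≠ j) (jm : H.S j m = 0) (mk : H.S m k = 0) (h1 : g H m a ≠ 0) :
    g (H.pivot a j) m k = g H m a * g H a j * g H j k := by
  have e : (H.pivot a j).S m k = H.S m a * H.S j k / H.S a j := by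
    rw [pivot_S_gen h0 hma hmj hka hkj, S_symm H m j, jm, mk, S_symm H j a]
    simp [F4.neg_eq]
  have r1 := g_row h1
  have r2 := g_row (g_ne.2 h0)
  unfold g
  rw [e, pivot_row h0, if_neg (not_or.2 ⟨hma, hmj⟩), r2, r1]
  cases H.row m
  · simp only [Bool.false_eq_true, if_false, Bool.not_false, if_true, Bool.not_true]
    rw [inv_div, div_eq_mul_inv, mul_inv]; ring
  · simp only [Bool.false_eq_true, if_false, Bool.not_false, if_true, Bool.not_true]
    rw [div_eq_mul_inv]; ring

/-- no state has a closed walk with fewer than `n` inner vertices and value `≠ 0, 1`. -/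
def Min (u v n : ℕ) : Prop :=
  ∀ (D : Disp F3) (H : Disp F4) (x y a : ℕ) (t : List ℕ), StI D H x y u v → a ∈ core D u v →
    (∀ z ∈ t, z ∈ core D u v) → t.length < n → wv H a t a ≠ 0 → wv H a t a = 1

/-- a closed walk with `n` inner vertices and value `≠ 0, 1`. -/
structure Bad (D : Disp F3) (H : Disp F4) (u v n a : ℕ) (t : List ℕ) : Prop where
  ma : a ∈ core D u v
  mt : ∀ z ∈ t, z ∈ core D u v
  len : t.length = n
  n0 : wv H a t a ≠ 0
  n1 : wv H a t a ≠ 1

variable {n a : ℕ} {t : List ℕ}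

theorem Bad.rot {p q : List ℕ} {c : ℕ} (h : Bad D H u v n a (p ++ c :: q)) :
    Bad D H u v n c (q ++ a :: p) := by
  refine ⟨h.mt c (by simp), fun z hz => ?_, ?_, by rw [wv_rot]; exact h.n0,
    by rw [wv_rot]; exact h.n1⟩
  · rcases List.mem_append.1 hz with k | k
    · exact h.mt z (by simp [k])
    · rcases List.mem_cons.1 k with k | k
      · rw [k]; exact h.ma
      · exact h.mt z (by simp [k])
  · rw [← h.len]; simp only [List.length_append, List.length_cons]; omega

theorem Bad.norep (s : StI D H x y u v) (hm : Min u v n) (h : Bad D H u v n a t) : a ∉ t := by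
  intro ha
  obtain ⟨p, q, rfl⟩ := List.append_of_mem ha
  have l := h.len
  simp only [List.length_append, List.length_cons] at l
  have n0 := h.n0
  have n1 := h.n1
  rw [wv_append] at n0 n1
  rw [hm D H x y a p s h.ma (fun z hz => h.mt z (by simp [hz])) (by omega) (left_ne_zero_of_mul n0),
    hm D H x y a q s h.ma (fun z hz => h.mt z (by simp [hz])) (by omega) (right_ne_zero_of_mul n0)]
    at n1
  exact n1 (mul_one 1)

theorem Bad.nochord (s : StI D H x y u v) (hm : Min u v n) {p q : List ℕ} {c : ℕ}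
    (h : Bad D H u v n a (p ++ c :: q)) (hp : p ≠ []) (hq : q ≠ []) : H.S a c = 0 := by
  by_contra h0
  have l := h.len
  simp only [List.length_append, List.length_cons] at l
  have lp := List.length_pos_iff.2 hp
  have lq := List.length_pos_iff.2 hq
  have n0 := h.n0
  have n1 := h.n1
  rw [wv_append] at n0 n1
  have k1 := hm D H x y a (p ++ [c]) s h.ma (fun z hz => h.mt z (by
      rcases List.mem_append.1 hz with k | k
      · simp [k]
      · simp [List.mem_singleton.1 k])) (by simp only [List.length_append, List.length_singleton]; omega)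
    (by rw [wv_snoc]; exact mul_ne_zero (left_ne_zero_of_mul n0) (g_ne.2 (S_ne_symm h0)))
  have k2 := hm D H x y a (c :: q) s h.ma (fun z hz => h.mt z (List.mem_append_right _ hz))
    (by simp only [List.length_cons]; omega)
    (by rw [wv]; exact mul_ne_zero (g_ne.2 h0) (right_ne_zero_of_mul n0))
  rw [wv_snoc] at k1
  rw [wv] at k2
  apply n1
  calc _ = wv H a p c * wv H c q a * (g H a c * g H c a) := by rw [g_mul h0, mul_one]
    _ = (wv H a p c * g H c a) * (g H a c * wv H c q a) := by ring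
    _ = 1 := by rw [k1, k2, mul_one]

theorem Bad.not_al (s : StI D H x y u v) (hm : Min u v n) (h4 : 4 ≤ n) {j : ℕ}
    (h : Bad D H u v n a (j :: t)) : ¬ Al D H u v a j := by
  rintro ⟨x', y', s'⟩
  have l := h.len
  obtain ⟨k, r, m, rfl, hr⟩ : ∃ k r m, t = k :: r ++ [m] ∧ r ≠ [] := by
    rcases t with _ | ⟨k, t⟩
    · simp at l; omega
    · rcases List.eq_nil_or_concat t with rfl | ⟨r, m, rfl⟩
      · simp at l; omega
      · refine ⟨k, r, m, by simp, ?_⟩
        rintro rfl
        simp at l; omega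
  have e0 : wv H a (j :: (k :: r ++ [m])) a = g H a j * (g H j k * (wv H k r m * g H m a)) := by
    rw [List.cons_append, wv, wv, wv_snoc]
  have n0 := h.n0
  have n1 := h.n1
  rw [e0] at n0 n1
  have h0 : H.S a j ≠ 0 := g_ne.1 (left_ne_zero_of_mul n0)
  have h1 : g H m a ≠ 0 := right_ne_zero_of_mul (right_ne_zero_of_mul (right_ne_zero_of_mul n0))
  have hj : Bad D H u v n j ((k :: r ++ [m]) ++ a :: []) := Bad.rot (p := []) h
  have hmm : Bad D H u v n m ([] ++ a :: (j :: k :: r)) :=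
    Bad.rot (p := j :: k :: r) (q := []) (by simpa using h)
  have na := h.norep s hm
  have nj := hj.norep s hm
  have ca : ∀ z ∈ k :: r, H.S a z = 0 := fun z hz => by
    obtain ⟨p, q, e⟩ := List.append_of_mem hz
    have h' : Bad D H u v n a ((j :: p) ++ z :: (q ++ [m])) := by
      have : (j :: p) ++ z :: (q ++ [m]) = j :: (k :: r ++ [m]) := by rw [e]; simp
      rw [this]; exact h
    exact h'.nochord s hm (by simp) (by simp)
  have cj : ∀ z ∈ r ++ [m], H.S j z = 0 := fun z hz => by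
    obtain ⟨p, q, e⟩ := List.append_of_mem hz
    have h' : Bad D H u v n j ((k :: p) ++ z :: (q ++ [a])) := by
      have : (k :: p) ++ z :: (q ++ [a]) = (k :: r ++ [m]) ++ a :: [] := by
        rw [List.cons_append (a := k) (as := r), e]; simp
      rw [this]; exact hj
    exact h'.nochord s hm (by simp) (by simp)
  have mk : H.S m k = 0 := Bad.nochord (p := [a, j]) s hm hmm (by simp) hr
  have hma : m ≠ a := fun e => na (by simp [← e])
  have hmj : m ≠ j := fun e => nj (by simp [← e])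
  have hka : k ≠ a := fun e => na (by simp [← e])
  have hkj : k ≠ j := fun e => nj (by simp [← e])
  have jm : H.S j m = 0 := cj m (by simp)
  have e1 : wv (H.pivot a j) m (k :: r) m = g H a j * (g H j k * (wv H k r m * g H m a)) := by
    rw [wv, g_new h0 hma hmj hka hkj jm mk h1, wv_piv h0 hma hmj jm r (fun z hz =>
      ⟨fun e => na (by simp [← e, hz]), fun e => nj (by simp [← e, hz]),
        ca z (List.mem_cons_of_mem _ hz), cj z (List.mem_append_left _ hz)⟩) k hka hkj
      (ca k (List.mem_cons_self ..)) (fun e => absurd e hr)]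
    ring
  apply n1
  rw [← e1]
  refine hm _ _ x' y' m (k :: r) s' ?_ (fun z hz => ?_) ?_ (by rw [e1]; exact n0)
  · rw [core_pivot]; exact hmm.ma
  · rw [core_pivot]; exact hmm.mt z (by
      rw [List.nil_append]; exact List.mem_cons_of_mem _ (List.mem_cons_of_mem _ hz))
  · simp only [List.length_append, List.length_cons, List.length_nil] at l ⊢; omega

theorem Bad.ne_x (s : StI D H x y u v) (hm : Min u v n) (h4 : 4 ≤ n) (h : Bad D H u v n x t) :
    False := by
  rcases t with _ | ⟨j, t⟩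
  · have := h.len; simp at this; omega
  · exact h.not_al s hm h4
      (al_a s (h.mt j (List.mem_cons_self ..)) (g_ne.1 (left_ne_zero_of_mul h.n0)))

theorem Bad.adj (s : StI D H x y u v) (hm : Min u v n) (h4 : 4 ≤ n) (h : Bad D H u v n a t)
    (ra : H.row a = false) : H.S x a ≠ 0 ∨ H.S y a ≠ 0 := by
  rcases t with _ | ⟨j, t⟩
  · have := h.len; simp at this; omega
  · by_contra hc
    rw [not_or, not_not, not_not] at hc
    exact h.not_al s hm h4 (al_b s (h.mt j (List.mem_cons_self ..)) h.ma ra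
      (S_ne_symm (g_ne.1 (left_ne_zero_of_mul h.n0))) hc.1 hc.2).symm

theorem Bad.two (s : StI D H x y u v) (hm : Min u v n) (h4 : 4 ≤ n) {p q : List ℕ} {c : ℕ}
    (h : Bad D H u v n a (p ++ c :: q)) (r : H.row a = H.row c) (ha : H.S x a ≠ 0)
    (hc : H.S x c ≠ 0) : False := by
  have n0 := h.n0
  have n1 := h.n1
  rw [wv_append] at n0 n1
  have hp : p ≠ [] := by
    rintro rfl
    exact g_ne.1 (left_ne_zero_of_mul n0) (H.bip _ _ r)
  have hq : q ≠ [] := by
    rintro rfl
    exact g_ne.1 (right_ne_zero_of_mul n0) (H.bip _ _ r.symm)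
  have l := h.len
  simp only [List.length_append, List.length_cons] at l
  have lp := List.length_pos_iff.2 hp
  have lq := List.length_pos_iff.2 hq
  have hm' : ∀ t : List ℕ, (∀ z ∈ t, z ∈ core D u v) → t.length ≤ n → wv H x t x ≠ 0 →
      wv H x t x = 1 := fun t ht hl h0 => by
    rcases hl.lt_or_eq with k | k
    · exact hm D H x y x t s s.mx ht k h0
    · by_contra h1
      exact Bad.ne_x s hm h4 ⟨s.mx, ht, k, h0, h1⟩
  have mc : c ∈ core D u v := h.mt c (by simp)
  have e1 : wv H x (a :: (p ++ [c])) x = g H x a * (wv H a p c * g H c x) := by rw [wv, wv_snoc]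
  have e2 : wv H x (c :: (q ++ [a])) x = g H x c * (wv H c q a * g H a x) := by rw [wv, wv_snoc]
  have k1 := hm' (a :: (p ++ [c])) (fun z hz => by
      simp only [List.mem_cons, List.mem_append, List.not_mem_nil, or_false] at hz
      rcases hz with k | k | k
      · rw [k]; exact h.ma
      · exact h.mt z (by simp [k])
      · rw [k]; exact mc)
    (by simp only [List.length_append, List.length_cons, List.length_nil]; omega)
    (by
      rw [e1]
      exact mul_ne_zero (g_ne.2 ha) (mul_ne_zero (left_ne_zero_of_mul n0) (g_ne.2 (S_ne_symm hc))))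
  have k2 := hm' (c :: (q ++ [a])) (fun z hz => by
      simp only [List.mem_cons, List.mem_append, List.not_mem_nil, or_false] at hz
      rcases hz with k | k | k
      · rw [k]; exact mc
      · exact h.mt z (by simp [k])
      · rw [k]; exact h.ma)
    (by simp only [List.length_append, List.length_cons, List.length_nil]; omega)
    (by
      rw [e2]
      exact mul_ne_zero (g_ne.2 hc) (mul_ne_zero (right_ne_zero_of_mul n0) (g_ne.2 (S_ne_symm ha))))
  rw [e1] at k1
  rw [e2] at k2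
  apply n1
  calc _ = wv H a p c * wv H c q a * (g H x a * g H a x) * (g H x c * g H c x) := by
        rw [g_mul ha, g_mul hc, mul_one, mul_one]
    _ = g H x a * (wv H a p c * g H c x) * (g H x c * (wv H c q a * g H a x)) := by ring
    _ = 1 := by rw [k1, k2, mul_one]

theorem Bad.col (s : StI D H x y u v) (hm : Min u v n) (h4 : 4 ≤ n) (h : Bad D H u v n a t)
    (ra : H.row a = false) : False := by
  have l := h.len
  obtain ⟨j, k, j', k', r, rfl⟩ : ∃ j k j' k' r, t = j :: k :: j' :: k' :: r := by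
    rcases t with _ | ⟨j, _ | ⟨k, _ | ⟨j', _ | ⟨k', r⟩⟩⟩⟩
    · simp at l; omega
    · simp at l; omega
    · simp at l; omega
    · simp at l; omega
    · exact ⟨_, _, _, _, _, rfl⟩
  have n0 := h.n0
  rw [wv, wv, wv, wv] at n0
  have r1 := g_row (left_ne_zero_of_mul n0)
  have n0 := right_ne_zero_of_mul n0
  have r2 := g_row (left_ne_zero_of_mul n0)
  have n0 := right_ne_zero_of_mul n0
  have r3 := g_row (left_ne_zero_of_mul n0)
  have n0 := right_ne_zero_of_mul n0
  have r4 := g_row (left_ne_zero_of_mul n0)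
  have rk : H.row k = false := by rw [r2, r1, ra]; rfl
  have rk' : H.row k' = false := by rw [r4, r3, rk]; rfl
  have h1 : Bad D H u v n a ([j] ++ k :: (j' :: k' :: r)) := h
  have h2 : Bad D H u v n a ([j, k, j'] ++ k' :: r) := h
  have h3 : Bad D H u v n k ([j'] ++ k' :: (r ++ a :: [j])) := h1.rot
  have a1 := h.adj s hm h4 ra
  have a2 := h3.adj s hm h4 rk
  have a3 := h2.rot.adj s hm h4 rk'
  have s' := swap s
  rcases a1 with a1 | a1 <;> rcases a2 with a2 | a2 <;> rcases a3 with a3 | a3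
  · exact h1.two s hm h4 (ra.trans rk.symm) a1 a2
  · exact h1.two s hm h4 (ra.trans rk.symm) a1 a2
  · exact h2.two s hm h4 (ra.trans rk'.symm) a1 a3
  · exact h3.two s' hm h4 (rk.trans rk'.symm) a2 a3
  · exact h3.two s hm h4 (rk.trans rk'.symm) a2 a3
  · exact h2.two s' hm h4 (ra.trans rk'.symm) a1 a3
  · exact h1.two s' hm h4 (ra.trans rk.symm) a1 a2
  · exact h1.two s' hm h4 (ra.trans rk.symm) a1 a2

theorem Bad.big (s : StI D H x y u v) (hm : Min u v n) (h4 : 4 ≤ n) (h : Bad D H u v n a t) :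
    False := by
  cases ra : H.row a
  · exact h.col s hm h4 ra
  · rcases t with _ | ⟨j, t⟩
    · have := h.len; simp at this; omega
    · have r1 := g_row (left_ne_zero_of_mul h.n0)
      exact (Bad.rot (p := []) h).col s hm h4 (by rw [r1, ra]; rfl)

/-- the goal of step A1. -/
def Goal (u v : ℕ) : Prop :=
  ∃ D' H' x' y' r s c d, StI D' H' x' y' u v ∧ r ∈ core D' u v ∧ s ∈ core D' u v ∧
    c ∈ core D' u v ∧ d ∈ core D' u v ∧ D'.row r = true ∧ D'.row s = true ∧ D'.row c = false ∧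
    D'.row d = false ∧ D'.W4 r s c d

theorem Bad.four (s : StI D H x y u v) {j k m : ℕ} (h : Bad D H u v n a [j, k, m])
    (ra : H.row a = true) : Goal u v := by
  have n0 := h.n0
  have n1 := h.n1
  rw [wv, wv, wv, wv] at n0 n1
  have g1 := left_ne_zero_of_mul n0
  have n0 := right_ne_zero_of_mul n0
  have g2 := left_ne_zero_of_mul n0
  have n0 := right_ne_zero_of_mul n0
  have g3 := left_ne_zero_of_mul n0
  have g4 := right_ne_zero_of_mul n0
  have rj : H.row j = false := by rw [g_row g1, ra]; rfl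
  have rk : H.row k = true := by rw [g_row g2, rj]; rfl
  have rm : H.row m = false := by rw [g_row g3, rk]; rfl
  have mj := h.mt j (by simp)
  have mk := h.mt k (by simp)
  have mm := h.mt m (by simp)
  have row : ∀ z ∈ core D u v, D.row z = H.row z := fun z hz => (s.st.row (core_sub D u v hz)).symm
  refine ⟨D, H, x, y, a, k, j, m, s, h.ma, mk, mj, mm, (row a h.ma).trans ra, (row k mk).trans rk,
    (row j mj).trans rj, (row m mm).trans rm, (s.st.val_core.W4 h.ma mk mj mm).1
      ⟨g_ne.1 g1, S_ne_symm (g_ne.1 g4), S_ne_symm (g_ne.1 g2), g_ne.1 g3, fun e => n1 ?_⟩⟩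
  have z2 := g_ne.1 g2
  have z4 := g_ne.1 g4
  unfold g
  rw [ra, rj, rk, rm]
  simp only [Bool.false_eq_true, if_false, if_true]
  rw [S_symm H a m, S_symm H k j] at e
  field_simp
  exact e.trans (mul_comm _ _)

theorem goal (s : StI D H x y u v) (hm : Min u v n) (h : Bad D H u v n a t) : Goal u v := by
  rcases t with _ | ⟨j, _ | ⟨k, _ | ⟨m, _ | ⟨k', r⟩⟩⟩⟩
  · exact absurd (H.bip a a rfl) (g_ne.1 h.n0)
  · exact absurd (g_mul (g_ne.1 (left_ne_zero_of_mul h.n0))) h.n1
  · exfalso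
    have n0 := h.n0
    rw [wv, wv, wv] at n0
    have r1 := g_row (left_ne_zero_of_mul n0)
    have r2 := g_row (left_ne_zero_of_mul (right_ne_zero_of_mul n0))
    have r3 := g_row (right_ne_zero_of_mul (right_ne_zero_of_mul n0))
    rw [r2, r1] at r3
    revert r3; cases H.row a <;> simp
  · cases ra : H.row a
    · have r1 := g_row (left_ne_zero_of_mul h.n0)
      exact (Bad.rot (p := []) h).four s (by rw [r1, ra]; rfl)
    · exact h.four s ra
  · exact (h.big s hm (by rw [← h.len]; simp)).elim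

theorem goal' (n : ℕ) : Goal u v ∨ Min u v n := by
  induction n with
  | zero => exact Or.inr fun _ _ _ _ _ _ _ _ _ h => absurd h (Nat.not_lt_zero _)
  | succ n ih =>
    rcases ih with ih | ih
    · exact Or.inl ih
    · by_cases hg : Goal u v
      · exact Or.inl hg
      · refine Or.inr fun D H x y a t s ma mt hl h0 => ?_
        rcases (Nat.lt_succ_iff.1 hl).lt_or_eq with k | k
        · exact ih D H x y a t s ma mt k h0
        · by_contra h1
          exact hg (goal s ih ⟨ma, mt, k, h0, h1⟩)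

end SBAw

variable {D : Disp F3} {H : Disp F4} {x y u v : ℕ}

/-- step A1: moreover a `W4` can be displayed in the core. -/
theorem StI.exists_W4 (h : StI D H x y u v) (hn : D.Nb (core D u v)) :
    ∃ D' H' x' y' r s c d, StI D' H' x' y' u v ∧ r ∈ core D' u v ∧ s ∈ core D' u v ∧
      c ∈ core D' u v ∧ d ∈ core D' u v ∧ D'.row r = true ∧ D'.row s = true ∧ D'.row c = false ∧
      D'.row d = false ∧ D'.W4 r s c d := by
  obtain ⟨a, ha, t, ht, h0, h1⟩ := SBAw.exists_bad (h.st.val_core.nb.2 hn)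
  rcases SBAw.goal' (u := u) (v := v) (t.length + 1) with k | k
  · exact k
  · exact absurd (k D H x y a t h ha ht (Nat.lt_succ_self _) h0) h1

/-- reduction of the main lemma. -/
theorem ml_of (dead : ∀ (D : Disp F3) (H : Disp F4) (x y u v r s c d : ℕ), StI D H x y u v →
      r ∈ core D u v → s ∈ core D u v → c ∈ core D u v → d ∈ core D u v → D.row r = true →
      D.row s = true → D.row c = false → D.row d = false → D.W4 r s c d → False) : MLStmt := by
  intro D H u v hF hu hv huv ru rv cu cv nb vu vv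
  by_contra hc
  have st : St D (H.restrict D.Z) u v := ⟨hF, rfl, hu, hv, huv, ru, rv, cu, cv,
    (val_restrict (D := D) (H := H) (V := D.Z) (W := D.Z)).2 vu,
    (val_restrict (D := D) (H := H) (V := D.Z) (W := D.Z)).2 vv⟩
  obtain ⟨D1, H1, x, y, h1, r1⟩ := st.exists_inc
    (fun h => hc ((val_restrict (D := D) (H := H) (V := D.Z) (W := D.Z)).1 h))
  have nb1 : D1.Nb (core D1 u v) := by
    have : core D1 u v = core D u v := by unfold core; rw [r1.Z_eq]
    rw [this]; exact Nb.reachIn nb Subset.rfl r1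
  obtain ⟨D2, H2, x', y', r, s, c, d, h2, a1, a2, a3, a4, a5, a6, a7, a8, a9⟩ := h1.exists_W4 nb1
  exact dead D2 H2 x' y' u v r s c d h2 a1 a2 a3 a4 a5 a6 a7 a8 a9

end Pool.Agent.Lib.MP_c69b6d_co.F
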