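import Pool.Agent.Lib.MP_c69b6d_co.F.SB3
import Pool.Agent.Lib.MP_c69b6d_co.F.Ck0
import Pool.Agent.Lib.MP_c69b6d_co.F.Api2

/-! Stage B checker: codes, masks, packed matrices, pivots. -/

namespace Pool.Agent.Lib.MP_c69b6d_co.F

open Finset Disp

namespace ML

theorem notB_iff {a : Bool} : notB a = true ↔ a = false := by cases a <;> simp [notB]

theorem impB_iff {a b : Bool} : impB a b = true ↔ (a = true → b = true) := by
  cases a <;> simp [impB]

theorem eqB_iff {a b : Bool} : eqB a b = true ↔ a = b := by cases a <;> cases b <;> simp [eqB, notB]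

theorem mul7_lt (a b : ℕ) : mul7 a b < 7 := Nat.mod_lt _ (by decide)

theorem inv7_lt (a : ℕ) : inv7 a < 7 := Nat.mod_lt _ (by decide)

theorem neg7_lt (a : ℕ) : neg7 a < 7 := Nat.mod_lt _ (by decide)

theorem lane_lt (M i j : ℕ) : lane M i j < 7 := Nat.mod_lt _ (by decide)

theorem sk_lt (rm M i j : ℕ) : sk rm M i j < 7 := by
  have h1 := lane_lt M i j
  have h2 := neg7_lt (lane M j i)
  unfold sk
  cases tb rm i <;> cases tb rm j <;> simp only [cnd_true, cnd_false] <;> omega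

theorem scf_lt (F i : ℕ) : scf F i < 7 := Nat.mod_lt _ (by decide)

theorem psi_lt (F i : ℕ) : psi F i < 16 := Nat.lt_succ_of_le Nat.and_le_right

theorem nib_lt (N i : ℕ) : nib N i < 16 := Nat.lt_succ_of_le Nat.and_le_right

theorem d3_mul7 {a b : ℕ} (ha : a < 7) (hb : b < 7) : d3 (mul7 a b) = d3 a * d3 b :=
  (by decide +kernel : ∀ a < 7, ∀ b < 7, d3 (mul7 a b) = d3 a * d3 b) a ha b hb

theorem d4_mul7 {a b : ℕ} (ha : a < 7) (hb : b < 7) : d4 (mul7 a b) = d4 a * d4 b :=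
  (by decide +kernel : ∀ a < 7, ∀ b < 7, d4 (mul7 a b) = d4 a * d4 b) a ha b hb

theorem mul7_mod (a b : ℕ) : mul7 a b = mul7 (a % 7) b := (Nat.mod_mul_mod a b 7).symm

theorem d3_inv7 {a : ℕ} (ha : a < 7) : d3 (inv7 a) = (d3 a)⁻¹ := by
  have k : ∀ a < 7, (d3 a = 0 ∧ d3 (inv7 a) = 0) ∨ d3 (inv7 a) * d3 a = 1 := by decide +kernel
  rcases k a ha with ⟨h1, h2⟩ | h
  · rw [h1, h2, inv_zero]
  · exact eq_inv_of_mul_eq_one_left h

theorem d4_inv7 {a : ℕ} (ha : a < 7) : d4 (inv7 a) = (d4 a)⁻¹ :=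
  (by decide +kernel : ∀ a < 7, d4 (inv7 a) = (d4 a)⁻¹) a ha

theorem d3_inv7' {a : ℕ} (ha : a < 7) : d3 (inv7 a) = d3 a :=
  (by decide +kernel : ∀ a < 7, d3 (inv7 a) = d3 a) a ha

theorem d4_inv7' {a : ℕ} (ha : a < 7) : d4 (inv7 a) = F4.cj (d4 a) :=
  (by decide +kernel : ∀ a < 7, d4 (inv7 a) = F4.cj (d4 a)) a ha

theorem d3_neg7 {a : ℕ} (ha : a < 7) : d3 (neg7 a) = - d3 a :=
  (by decide +kernel : ∀ a < 7, d3 (neg7 a) = - d3 a) a ha

theorem d4_neg7 {a : ℕ} (ha : a < 7) : d4 (neg7 a) = - d4 a :=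
  (by decide +kernel : ∀ a < 7, d4 (neg7 a) = - d4 a) a ha

theorem d3_eq_zero {a : ℕ} (ha : a < 7) : d3 a = 0 ↔ a = 0 :=
  (by decide +kernel : ∀ a < 7, d3 a = 0 ↔ a = 0) a ha

theorem d4_eq_zero {a : ℕ} (ha : a < 7) : d4 a = 0 ↔ a = 0 :=
  (by decide +kernel : ∀ a < 7, d4 a = 0 ↔ a = 0) a ha

theorem d3_eq_iff {a b : ℕ} (ha : a < 7) (hb : b < 7) : d3 a = d3 b ↔ p3 a = p3 b :=
  (by decide +kernel : ∀ a < 7, ∀ b < 7, d3 a = d3 b ↔ p3 a = p3 b) a ha b hb

theorem d4_eq_iff {a b : ℕ} (ha : a < 7) (hb : b < 7) : d4 a = d4 b ↔ p4 a = p4 b :=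
  (by decide +kernel : ∀ a < 7, ∀ b < 7, d4 a = d4 b ↔ p4 a = p4 b) a ha b hb

theorem d3_sq {a : ℕ} (ha : a < 7) (h0 : a ≠ 0) : d3 a * d3 a = 1 :=
  (by decide +kernel : ∀ a < 7, a ≠ 0 → d3 a * d3 a = 1) a ha h0

theorem exists_cd (x : F3) (y : F4) (h : y = 0 ↔ x = 0) : ∃ e < 7, d3 e = x ∧ d4 e = y := by
  revert x y
  decide +kernel

theorem allM_iff {m : ℕ} {f : ℕ → Bool} :
    allM m f = true ↔ ∀ i < 16, m.testBit i = true → f i = true := by
  unfold allM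
  simp only [allLt_iff, impB_iff, tb_eq]

theorem sbca_orM (m : ℕ) (f : ℕ → ℕ) (k n : ℕ) :
    (Nat.rec (motive := fun _ => ℕ) 0 (fun i r => cnd (tb m i) (Nat.lor r (f i)) r) n).testBit k
      = true ↔ ∃ i < n, m.testBit i = true ∧ (f i).testBit k = true := by
  induction n with
  | zero => simp
  | succ n ih =>
    rw [Nat.exists_lt_succ_right, ← ih]
    change (cnd (tb m n) (Nat.lor _ (f n)) _).testBit k = true ↔ _
    rw [tb_eq]
    cases m.testBit n
    · simp [cnd_false]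
    · rw [cnd_true]
      change Nat.testBit (_ ||| _) k = true ↔ _
      simp [Nat.testBit_or]

theorem testBit_orM (m : ℕ) (f : ℕ → ℕ) (k : ℕ) :
    (orM m f).testBit k = true ↔ ∃ i < 16, m.testBit i = true ∧ (f i).testBit k = true := sbca_orM m f k 16

theorem mem_fs16 {m i : ℕ} (hm : m < 65536) : i ∈ fs m ↔ i < 16 ∧ m.testBit i = true := by
  rw [mem_fs]
  exact and_congr_left fun h => iff_of_true ((ck_lt (n := 16) hm h).trans (by decide))
    (ck_lt (n := 16) hm h)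

theorem sbca_lor (a b i : ℕ) : (Nat.lor a b).testBit i = (a.testBit i || b.testBit i) :=
  Nat.testBit_or a b i

theorem sbca_land (a b i : ℕ) : (Nat.land a b).testBit i = (a.testBit i && b.testBit i) :=
  Nat.testBit_and a b i

theorem sbca_xor (a b i : ℕ) : (Nat.xor a b).testBit i = (a.testBit i ^^ b.testBit i) :=
  Nat.testBit_xor a b i

theorem testBit_rws (zm rm i : ℕ) : (rws zm rm).testBit i = (zm.testBit i && rm.testBit i) :=
  sbca_land zm rm i

theorem testBit_cls (zm rm i : ℕ) : (cls zm rm).testBit i = (zm.testBit i && !rm.testBit i) := by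
  unfold cls
  rw [sbca_xor, sbca_land]
  cases zm.testBit i <;> cases rm.testBit i <;> rfl

theorem fs_lor (a b : ℕ) : fs (Nat.lor a b) = fs a ∪ fs b := by
  ext i
  rw [mem_union, mem_fs, mem_fs, mem_fs, sbca_lor, Bool.or_eq_true, and_or_left]

theorem fs_land (a b : ℕ) : fs (Nat.land a b) = fs a ∩ fs b := by
  ext i
  rw [mem_inter, mem_fs, mem_fs, mem_fs, sbca_land, Bool.and_eq_true]
  tauto

theorem fs_bit {i : ℕ} (hi : i < 32) : fs (bit i) = {i} := by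
  ext j
  rw [mem_fs, testBit_bit, decide_eq_true_iff, mem_singleton]
  omega

theorem mem_cor {zm i : ℕ} : i ∈ fs (cor zm) ↔ i ∈ fs zm ∧ i < 16 ∧ i ≠ 2 ∧ i ≠ 3 := by
  have k : ∀ i < 32, Nat.testBit 65523 i = true ↔ i < 16 ∧ i ≠ 2 ∧ i ≠ 3 := by decide +kernel
  unfold cor
  rw [fs_land, mem_inter]
  refine and_congr_right fun h => ?_
  rw [mem_fs, k i (mem_fs.1 h).1]
  exact and_iff_right (mem_fs.1 h).1

theorem mem_rws {zm rm i : ℕ} : i ∈ fs (rws zm rm) ↔ i ∈ fs zm ∧ rm.testBit i = true := by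
  rw [mem_fs, mem_fs, testBit_rws, Bool.and_eq_true, and_assoc]

theorem mem_cls {zm rm i : ℕ} : i ∈ fs (cls zm rm) ↔ i ∈ fs zm ∧ rm.testBit i = false := by
  rw [mem_fs, mem_fs, testBit_cls, Bool.and_eq_true, and_assoc, Bool.not_eq_true']

theorem fs_img {F m : ℕ} (hm : m < 65536) : fs (img F m) = (fs m).image (psi F) := by
  ext i
  unfold img
  rw [mem_fs, testBit_orM, mem_image]
  simp only [testBit_bit, decide_eq_true_iff, mem_fs16 hm, and_assoc]
  refine and_iff_right_of_imp ?_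
  rintro ⟨j, _, _, rfl⟩
  exact (psi_lt F j).trans (by decide)

theorem cnt_eq {m : ℕ} (hm : m < 65536) : cnt m = (fs m).card := by
  have k : ∀ n, Nat.rec (motive := fun _ => ℕ) 0 (fun i r => cnd (tb m i) (Nat.succ r) r) n =
      ((range n).filter fun i => m.testBit i = true).card := by
    intro n
    induction n with
    | zero => rfl
    | succ n ih =>
      change cnd (tb m n) (Nat.succ _) _ = _
      rw [ih, range_add_one, filter_insert, tb_eq]
      cases m.testBit n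
      · simp [cnd_false]
      · rw [cnd_true, if_pos rfl, card_insert_of_notMem (by simp)]
  rw [show fs m = (range 16).filter fun i => m.testBit i = true from
    Finset.ext fun i => by rw [mem_fs16 hm, mem_filter, mem_range]]
  exact k 16

theorem pos_eq (i j : ℕ) : pos i j = 3 * (16 * i + j) := rfl

theorem testBit_raw (M i j k : ℕ) :
    (raw M i j).testBit k = true ↔ k < 3 ∧ M.testBit (pos i j + k) = true := by
  change ((M >>> pos i j) &&& (2 ^ 3 - 1)).testBit k = true ↔ _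
  rw [Nat.testBit_and, Nat.testBit_shiftRight, Nat.testBit_two_pow_sub_one, Bool.and_eq_true,
    decide_eq_true_iff, and_comm]

theorem sbca_shl (e p k : ℕ) :
    (Nat.shiftLeft e p).testBit k = true ↔ p ≤ k ∧ e.testBit (k - p) = true := by
  change (e <<< p).testBit k = true ↔ _
  rw [Nat.testBit_shiftLeft, Bool.and_eq_true, decide_eq_true_iff]

theorem raw_build {zm rm : ℕ} {f : ℕ → ℕ → ℕ} (hf : ∀ i j, f i j < 8) {i j : ℕ} (hi : i < 16)
    (hj : j < 16) (h1 : (rws zm rm).testBit i = true) (h2 : (cls zm rm).testBit j = true) :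
    raw (build zm rm f) i j = f i j := by
  refine Nat.eq_of_testBit_eq fun k => Bool.eq_iff_iff.2 ?_
  unfold build
  rw [testBit_raw, testBit_orM]
  simp only [testBit_orM, sbca_shl]
  constructor
  · rintro ⟨hk, a, -, -, b, hb, -, h3, h4⟩
    have h5 := ck_lt (n := 3) (hf a b) h4
    rw [pos_eq, pos_eq] at h3 h4 h5
    obtain ⟨rfl, rfl⟩ : a = i ∧ b = j := by omega
    rwa [Nat.add_sub_cancel_left] at h4
  · intro h
    exact ⟨ck_lt (n := 3) (hf i j) h, i, hi, h1, j, hj, h2, Nat.le_add_right _ _,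
      by rwa [Nat.add_sub_cancel_left]⟩

/-- writing a code into a blank place. -/
theorem raw_set {M e i j i' j' : ℕ} (he : e < 8) (hj : j < 16) (hj' : j' < 16)
    (h0 : raw M i j = 0) : raw (Nat.lor M (Nat.shiftLeft e (pos i j))) i' j' =
      if i' = i ∧ j' = j then e else raw M i' j' := by
  refine Nat.eq_of_testBit_eq fun k => Bool.eq_iff_iff.2 ?_
  rw [testBit_raw, sbca_lor, Bool.or_eq_true, sbca_shl]
  split_ifs with hc
  · obtain ⟨rfl, rfl⟩ := hc
    have h1 := testBit_raw M i' j' k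
    rw [h0, Nat.zero_testBit] at h1
    rw [Nat.add_sub_cancel_left]
    constructor
    · rintro ⟨hk, h | h⟩
      · exact absurd (h1.2 ⟨hk, h⟩) Bool.false_ne_true
      · exact h.2
    · exact fun h => ⟨ck_lt (n := 3) he h, Or.inr ⟨Nat.le_add_right _ _, h⟩⟩
  · rw [testBit_raw]
    refine and_congr_right fun hk => or_iff_left ?_
    rintro ⟨h3, h4⟩
    have h5 := ck_lt (n := 3) he h4
    rw [pos_eq, pos_eq] at h3 h5
    omega

theorem sbca_toK {K : Type} [Field K] (d : ℕ → K) (h0 : d 0 = 0)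
    (hn : ∀ a < 7, d (neg7 a) = - d a) (zm rm M i j : ℕ) :
    (toK d zm rm M).S i j = d (sk rm M i j) := by
  have h := hn _ (lane_lt M j i)
  unfold sk toK
  rw [tb_eq, tb_eq]
  cases h1 : rm.testBit i <;> cases h2 : rm.testBit j <;>
    simp [cnd_true, cnd_false, h0, h, h1, h2]

theorem toK3_S (zm rm M i j : ℕ) : (toK d3 zm rm M).S i j = d3 (sk rm M i j) := sbca_toK d3 rfl (fun _ => d3_neg7) zm rm M i j

theorem toK4_S (zm rm M i j : ℕ) : (toK d4 zm rm M).S i j = d4 (sk rm M i j) := sbca_toK d4 rfl (fun _ => d4_neg7) zm rm M i j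

variable {zm rm M : ℕ} {D : Disp F3} {H : Disp F4} {φ : ℕ → ℕ} {ε : ℕ → F3}

theorem Mt.S3 (h : Mt zm rm M D H φ ε) {i j : ℕ} (hi : i ∈ fs zm) (hj : j ∈ fs zm) :
    D.S (φ i) (φ j) = ε i * ε j * d3 (sk rm M i j) := by
  rw [h.e3.ent i hi j hj, toK3_S]

theorem Mt.S4 (h : Mt zm rm M D H φ ε) {i j : ℕ} (hi : i ∈ fs zm) (hj : j ∈ fs zm) :
    H.S (φ i) (φ j) = d4 (sk rm M i j) := by
  rw [h.e4.ent i hi j hj, toK4_S, one_mul, one_mul]

theorem emb_det3 (h : Emb (toK d3 zm rm M) D φ ε) {r s c d : ℕ} (hr : r ∈ fs zm) (hs : s ∈ fs zm)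
    (hc : c ∈ fs zm) (hd : d ∈ fs zm) : detB p3 rm M r s c d = true ↔
      D.S (φ r) (φ c) * D.S (φ s) (φ d) = D.S (φ r) (φ d) * D.S (φ s) (φ c) := by
  have h0 : ε r * ε s * ε c * ε d ≠ 0 :=
    mul_ne_zero (mul_ne_zero (mul_ne_zero (h.ne hr) (h.ne hs)) (h.ne hc)) (h.ne hd)
  unfold detB
  rw [Nat.beq_eq, ← d3_eq_iff (mul7_lt _ _) (mul7_lt _ _), d3_mul7 (sk_lt _ _ _ _) (sk_lt _ _ _ _),
    d3_mul7 (sk_lt _ _ _ _) (sk_lt _ _ _ _), h.ent r hr c hc, h.ent s hs d hd, h.ent r hr d hd,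
    h.ent s hs c hc, toK3_S, toK3_S, toK3_S, toK3_S, ← mul_right_inj' h0]
  exact iff_of_eq (by congr 1 <;> ring)

theorem Mt.det4 (h : Mt zm rm M D H φ ε) {r s c d : ℕ} (hr : r ∈ fs zm) (hs : s ∈ fs zm)
    (hc : c ∈ fs zm) (hd : d ∈ fs zm) : detB p4 rm M r s c d = true ↔
      H.S (φ r) (φ c) * H.S (φ s) (φ d) = H.S (φ r) (φ d) * H.S (φ s) (φ c) := by
  unfold detB
  rw [Nat.beq_eq, ← d4_eq_iff (mul7_lt _ _) (mul7_lt _ _), d4_mul7 (sk_lt _ _ _ _) (sk_lt _ _ _ _),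
    d4_mul7 (sk_lt _ _ _ _) (sk_lt _ _ _ _), h.S4 hr hc, h.S4 hs hd, h.S4 hr hd, h.S4 hs hc]

theorem sbca_congr {K : Type} [Field K] {d : ℕ → K} {E E' : Disp K} {δ δ' : ℕ → K}
    (h : Emb (toK d zm rm M) E φ δ) {zm' rm' M' : ℕ} {φ' : ℕ → ℕ} (hz : fs zm' ⊆ fs zm)
    (hr : ∀ i ∈ fs zm', rm'.testBit i = rm.testBit i)
    (hM : ∀ i ∈ fs zm', ∀ j ∈ fs zm', lane M' i j = lane M i j)
    (hφ : ∀ i ∈ fs zm', φ' i = φ i) (hε : ∀ i ∈ fs zm', δ' i = δ i)
    (m : ∀ i ∈ fs zm', φ i ∈ E'.Z) (a : Agree E E' ((fs zm').image φ)) :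
    Emb (toK d zm' rm' M') E' φ' δ' := by
  refine ⟨fun i hi j hj e => h.inj (hz hi) (hz hj) (by rwa [hφ i hi, hφ j hj] at e),
    fun i hi => by rw [hφ i hi]; exact m i hi, fun i hi => ?_,
    fun i hi => by rw [hε i hi]; exact h.sq i (hz hi), fun i hi j hj => ?_⟩
  · rw [hφ i hi, a.1 _ (mem_image_of_mem φ hi), h.row i (hz hi)]
    exact (hr i hi).symm
  · rw [hφ i hi, hφ j hj, hε i hi, hε j hj,
      a.2 _ (mem_image_of_mem φ hi) _ (mem_image_of_mem φ hj), h.ent i (hz hi) j (hz hj)]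
    simp only [toK, hr i hi, hr j hj, hM i hi j hj, hM j hj i hi]

/-- change of the mask, of the packed data off the new mask, of the displays off the image, and
of the maps off the new mask. -/
theorem Mt.congr (h : Mt zm rm M D H φ ε) {zm' rm' M' : ℕ} {D' : Disp F3} {H' : Disp F4}
    {φ' : ℕ → ℕ} {ε' : ℕ → F3} (hlt : zm' < 65536) (hz : fs zm' ⊆ fs zm)
    (hr : ∀ i ∈ fs zm', rm'.testBit i = rm.testBit i)
    (hM : ∀ i ∈ fs zm', ∀ j ∈ fs zm', lane M' i j = lane M i j)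
    (hφ : ∀ i ∈ fs zm', φ' i = φ i) (hε : ∀ i ∈ fs zm', ε' i = ε i)
    (m3 : ∀ i ∈ fs zm', φ i ∈ D'.Z) (m4 : ∀ i ∈ fs zm', φ i ∈ H'.Z)
    (a3 : Agree D D' ((fs zm').image φ)) (a4 : Agree H H' ((fs zm').image φ)) :
    Mt zm' rm' M' D' H' φ' ε' :=
  ⟨hlt, sbca_congr h.e3 hz hr hM hφ hε m3 a3, sbca_congr h.e4 hz hr hM hφ (fun _ _ => rfl) m4 a4⟩

theorem JR.refl (U : Finset ℕ) (D : Disp F3) (H : Disp F4) : JR U D H D H :=
  Relation.ReflTransGen.refl

theorem JR.trans {U : Finset ℕ} {D1 D2 : Disp F3} {H1 H2 : Disp F4} (h : JR U D H D1 H1)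
    (h' : JR U D1 H1 D2 H2) : JR U D H D2 H2 := Relation.ReflTransGen.trans h h'

theorem JR.single {U : Finset ℕ} {x y : ℕ} (hx : x ∈ U) (hy : y ∈ U) (h : D.S x y ≠ 0) :
    JR U D H (D.pivot x y) (H.pivot x y) :=
  Relation.ReflTransGen.single ⟨x, hx, y, hy, h, rfl⟩

theorem JR.ind {U : Finset ℕ} {D' : Disp F3} {H' : Disp F4} {P : Disp F3 → Disp F4 → Prop}
    (h : JR U D H D' H') (h0 : P D H)
    (h1 : ∀ E G x y, x ∈ U → y ∈ U → E.S x y ≠ 0 → P E G → P (E.pivot x y) (G.pivot x y)) :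
    P D' H' := by
  have k : ∀ b : Disp F3 × Disp F4, Relation.ReflTransGen
      (fun a b : Disp F3 × Disp F4 => ∃ x ∈ U, ∃ y ∈ U, a.1.S x y ≠ 0 ∧
        b = (a.1.pivot x y, a.2.pivot x y)) (D, H) b → P b.1 b.2 := by
    intro b hb
    induction hb with
    | refl => exact h0
    | tail _ h2 ih =>
      obtain ⟨x, hx, y, hy, h3, rfl⟩ := h2
      exact h1 _ _ x y hx hy h3 ih
  exact k (D', H') h

theorem JR.mono {U V : Finset ℕ} {D' : Disp F3} {H' : Disp F4} (h : JR U D H D' H') (hU : U ⊆ V) :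
    JR V D H D' H' :=
  h.ind (P := fun E G => JR V D H E G) (JR.refl _ _ _) fun _ _ _ _ hx hy h0 ih =>
    ih.trans (JR.single (hU hx) (hU hy) h0)

theorem JR.reachIn {U : Finset ℕ} {D' : Disp F3} {H' : Disp F4} (h : JR U D H D' H') :
    ReachIn U D D' :=
  h.ind (P := fun E _ => ReachIn U D E) (ReachIn.refl _ _) fun _ _ _ _ hx hy _ ih =>
    ih.trans (ReachIn.single hx hy)

theorem JR.Z4 {U : Finset ℕ} {D' : Disp F3} {H' : Disp F4} (h : JR U D H D' H') :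
    H'.Z = H.Z :=
  h.ind (P := fun _ G => G.Z = H.Z) rfl fun _ _ _ _ _ _ _ ih => by rw [pivot_Z, ih]

theorem JR.agree {U X : Finset ℕ} {D' E : Disp F3} {H' G : Disp F4} (h : JR U D H D' H')
    (hU : U ⊆ X) (a3 : Agree D E X) (a4 : Agree H G X) :
    ∃ E' G', JR U E G E' G' ∧ Agree D' E' X ∧ Agree H' G' X :=
  h.ind (P := fun D' H' => ∃ E' G', JR U E G E' G' ∧ Agree D' E' X ∧ Agree H' G' X)
    ⟨E, G, JR.refl _ _ _, a3, a4⟩ fun _ _ x y hx hy h0 ⟨E', G', h1, h2, h3⟩ =>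
      ⟨E'.pivot x y, G'.pivot x y,
        h1.trans (JR.single hx hy (by rw [h2.2 x (hU hx) y (hU hy)]; exact h0)),
        h2.pivot (hU hx) (hU hy), h3.pivot (hU hx) (hU hy)⟩

theorem sbca_agree {K : Type} [Field K] {E G : Disp K} {X : Finset ℕ}
    (h1 : ∀ i ∈ X, G.row i = E.row i)
    (h2 : ∀ i ∈ X, ∀ j ∈ X, E.row i = true → E.row j = false → G.S i j = E.S i j) :
    Agree E G X := by
  refine ⟨h1, fun i hi j hj => ?_⟩
  by_cases e : E.row i = E.row j
  · rw [E.bip i j e, G.bip i j (by rw [h1 i hi, h1 j hj, e])]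
  · cases a : E.row i <;> cases b : E.row j
    · exact absurd (a.trans b.symm) e
    · rw [G.skew, E.skew, h2 j hj i hi b a]
    · exact h2 i hi j hj a b
    · exact absurd (a.trans b.symm) e

theorem testBit_pvR (rm : ℕ) {p q : ℕ} (i : ℕ) :
    (pvR rm p q).testBit i = if i = p ∨ i = q then !rm.testBit i else rm.testBit i := by
  unfold pvR
  rw [sbca_xor, sbca_lor, testBit_bit, testBit_bit]
  by_cases h : i = p ∨ i = q
  · rw [if_pos h, show (decide (p = i) || decide (q = i)) = true by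
      rcases h with rfl | rfl <;> simp, Bool.xor_true]
  · rw [if_neg h, decide_eq_false fun e : p = i => h (Or.inl e.symm),
      decide_eq_false fun e : q = i => h (Or.inr e.symm), Bool.or_false, Bool.xor_false]

theorem sbca_pvE (sub : ℕ → ℕ → ℕ) (M p q ia i j : ℕ) : pvE sub M p q ia i j =
    if i = q then (if j = p then ia else mul7 (lane M p j) ia)
    else if j = p then neg7 (mul7 (lane M i q) ia)
    else sub (lane M i j) (mul7 (mul7 (lane M i q) ia) (lane M p j)) := by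
  unfold pvE
  simp only [cnd_eq, Nat.beq_eq]

/-- one pivot of the packed display. -/
theorem sbca_pivot {K : Type} [Field K] {d : ℕ → K}
    (hm : ∀ a < 7, ∀ b < 7, d (mul7 a b) = d a * d b) (hn : ∀ a < 7, d (neg7 a) = - d a)
    (hv : ∀ a < 7, d (inv7 a) = (d a)⁻¹) {sub : ℕ → ℕ → ℕ} (h7 : ∀ a t, sub a t < 7)
    (hlt : zm < 65536) {p q : ℕ} (hp : p ∈ fs zm) (hq : q ∈ fs zm) (rp : rm.testBit p = true)
    (rq : rm.testBit q = false) (h0 : d (lane M p q) ≠ 0)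
    (hs : ∀ i ∈ fs zm, ∀ j ∈ fs zm, rm.testBit i = true → rm.testBit j = false → i ≠ p → j ≠ q →
      d (sub (lane M i j) (mul7 (mul7 (lane M i q) (inv7 (lane M p q))) (lane M p j))) =
        d (lane M i j) - d (mul7 (mul7 (lane M i q) (inv7 (lane M p q))) (lane M p j)))
    {E : Disp K} {δ : ℕ → K} (h : Emb (toK d zm rm M) E φ δ) :
    Emb (toK d zm (pvR rm p q) (pv sub zm rm M p q)) (E.pivot (φ p) (φ q)) φ δ := by
  have rc : ∀ r M i j, Nat.testBit r i = true → Nat.testBit r j = false →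
      (toK d zm r M).S i j = d (lane M i j) := fun r M i j a b => by simp [toK, a, b]
  have cr : ∀ r M i j, Nat.testBit r i = false → Nat.testBit r j = true →
      (toK d zm r M).S i j = - d (lane M j i) := fun r M i j a b => by simp [toK, a, b]
  have s0 : (toK d zm rm M).S p q ≠ 0 := by rw [rc _ _ _ _ rp rq]; exact h0
  have pq : p ≠ q := ne_of_S s0
  have ag : Agree (toK d zm (pvR rm p q) (pv sub zm rm M p q)) ((toK d zm rm M).pivot p q)
      (fs zm) := by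
    refine sbca_agree (fun i _ => by rw [pivot_row s0]; exact (testBit_pvR rm i).symm)
      fun i hi j hj ri rj => ?_
    change (pvR rm p q).testBit i = true at ri
    change (pvR rm p q).testBit j = false at rj
    have l7 : ∀ i j, pvE sub M p q (inv7 (lane M p q)) i j < 7 := fun i j => by
      rw [sbca_pvE]
      split_ifs
      exacts [inv7_lt _, mul7_lt _ _, neg7_lt _, h7 _ _]
    have e : lane (pv sub zm rm M p q) i j = pvE sub M p q (inv7 (lane M p q)) i j := by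
      unfold lane pv
      rw [raw_build (fun i j => (l7 i j).trans (by decide)) ((mem_fs16 hlt).1 hi).1
        ((mem_fs16 hlt).1 hj).1 (by rw [testBit_rws, ri, (mem_fs.1 hi).2]; rfl)
        (by rw [testBit_cls, rj, (mem_fs.1 hj).2]; rfl)]
      exact Nat.mod_eq_of_lt (l7 i j)
    rw [rc _ _ _ _ ri rj, e, sbca_pvE, pivot_S s0]
    rw [testBit_pvR] at ri rj
    have ip : i ≠ p := fun e => by simp [e, rp] at ri
    have jq : j ≠ q := fun e => by simp [e, rq] at rj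
    have v := hv _ (lane_lt M p q)
    unfold pS
    by_cases iq : i = q <;> by_cases jp : j = p <;>
      simp only [ip, jq, iq, jp, pq, pq.symm, if_true, if_false, or_self, or_true, true_or] at ri rj ⊢
    · rw [cr _ _ _ _ rq rp, v, neg_div_neg_eq, one_div]
    · rw [rc _ _ _ _ rp rj, rc _ _ _ _ rp rq, hm _ (lane_lt _ _ _) _ (inv7_lt _), v, div_eq_mul_inv]
    · rw [cr _ _ _ _ rq ri, cr _ _ _ _ rq rp, hn _ (mul7_lt _ _), hm _ (lane_lt _ _ _) _ (inv7_lt _),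
        v, neg_div_neg_eq, div_eq_mul_inv]
    · rw [hs i hi j hj ri rj ip jq, (toK d zm rm M).bip i p (ri.trans rp.symm), rc _ _ _ _ ri rj,
        rc _ _ _ _ ri rq, rc _ _ _ _ rp rj, rc _ _ _ _ rp rq, hm _ (mul7_lt _ _) _ (lane_lt _ _ _),
        hm _ (lane_lt _ _ _) _ (inv7_lt _), v]
      ring
  have k := h.pivot hp hq
  have z : ∀ i ∈ fs zm, i ∈ ((toK d zm rm M).pivot p q).Z := fun i hi => by rw [pivot_Z]; exact hi
  exact ⟨fun i hi j hj => k.inj (z i hi) (z j hj), fun i hi => k.mem i (z i hi),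
    fun i hi => (k.row i (z i hi)).trans (ag.1 i hi), fun i hi => k.sq i (z i hi),
    fun i hi j hj => by rw [k.ent i (z i hi) j (z j hj), ag.2 i hi j hj]⟩

theorem sbca_pre {U p q : ℕ} (hp : p < 16) (hq : q < 16) (h : pvPre zm U rm M p q = true) :
    p ∈ fs U ∩ fs zm ∧ q ∈ fs U ∩ fs zm ∧ rm.testBit p = true ∧ rm.testBit q = false ∧
      lane M p q ≠ 0 := by
  unfold pvPre at h
  simp only [andB_iff, notB_iff, tb_eq, sbca_land, testBit_rws, testBit_cls, Bool.and_eq_true,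
    Bool.not_eq_true'] at h
  obtain ⟨⟨a1, a2, a3⟩, ⟨b1, b2, b3⟩, c⟩ := h
  have p' : p < 32 := by omega
  have q' : q < 32 := by omega
  refine ⟨mem_inter.2 ⟨mem_fs.2 ⟨p', a1⟩, mem_fs.2 ⟨p', a2⟩⟩,
    mem_inter.2 ⟨mem_fs.2 ⟨q', b1⟩, mem_fs.2 ⟨q', b2⟩⟩, a3, b3, fun e => ?_⟩
  rw [e] at c
  exact Bool.false_ne_true c.symm

theorem sbca_ok (hlt : zm < 65536) {p q : ℕ} (h : pvOK zm rm M p q = true) :
    ∀ i ∈ fs zm, ∀ j ∈ fs zm, rm.testBit i = true → rm.testBit j = false → i ≠ p → j ≠ q →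
      ok7 (lane M i j) (mul7 (mul7 (lane M i q) (inv7 (lane M p q))) (lane M p j)) = true := by
  intro i hi j hj ri rj ip jq
  obtain ⟨i1, i2⟩ := (mem_fs16 hlt).1 hi
  obtain ⟨j1, j2⟩ := (mem_fs16 hlt).1 hj
  unfold pvOK pvOK1 at h
  refine allM_iff.1 (allM_iff.1 h i i1 ?_) j j1 ?_
  · rw [sbca_xor, testBit_rws, testBit_bit, i2, ri, decide_eq_false ip.symm]; rfl
  · rw [sbca_xor, testBit_cls, testBit_bit, j2, rj, decide_eq_false jq.symm]; rfl

theorem sbca_pvs {U : ℕ} {k : ℕ → ℕ → ℕ → Bool} (n : ℕ) {N : ℕ} (h : Mt zm rm M D H φ ε)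
    (ok : pvs zm U n k rm M N = true) :
    ∃ rm' M' N' D' H', JR ((fs U ∩ fs zm).image φ) D H D' H' ∧ Mt zm rm' M' D' H' φ ε ∧
      k rm' M' N' = true := by
  have t : ∀ a < 7, ∀ t < 7, ok7 a t = true →
      d3 (sub7 a t) = d3 a - d3 t ∧ d4 (sub7 a t) = d4 a - d4 t := by decide +kernel
  induction n generalizing rm M N D H with
  | zero => exact ⟨rm, M, N, D, H, JR.refl _ _ _, h, ok⟩
  | succ n ih =>
    obtain ⟨h1, h2⟩ := andB_iff.1 ok
    obtain ⟨h2, h3⟩ := andB_iff.1 h2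
    obtain ⟨hp, hq, rp, rq, h0⟩ := sbca_pre (Nat.lt_succ_of_le Nat.and_le_right)
      (Nat.lt_succ_of_le Nat.and_le_right) h1
    have h4 := sbca_ok h.lt h2
    have p' := (mem_inter.1 hp).2
    have q' := (mem_inter.1 hq).2
    have z3 := mt (d3_eq_zero (lane_lt _ _ _)).1 h0
    obtain ⟨rm', M', N', D', H', k1, k2⟩ := ih ⟨h.lt,
      sbca_pivot (fun _ a _ b => d3_mul7 a b) (fun _ => d3_neg7) (fun _ => d3_inv7)
        (fun _ _ => Nat.mod_lt _ (by decide)) h.lt p' q' rp rq z3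
        (fun i hi j hj a b c e => (t _ (lane_lt _ _ _) _ (mul7_lt _ _) (h4 i hi j hj a b c e)).1)
        h.e3,
      sbca_pivot (fun _ a _ b => d4_mul7 a b) (fun _ => d4_neg7) (fun _ => d4_inv7)
        (fun _ _ => Nat.mod_lt _ (by decide)) h.lt p' q' rp rq
        (mt (d4_eq_zero (lane_lt _ _ _)).1 h0)
        (fun i hi j hj a b c e => (t _ (lane_lt _ _ _) _ (mul7_lt _ _) (h4 i hi j hj a b c e)).2)
        h.e4⟩ h3
    refine ⟨rm', M', N', D', H',
      (JR.single (mem_image_of_mem φ hp) (mem_image_of_mem φ hq) ?_).trans k1, k2⟩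
    rw [h.e3.ent _ p' _ q']
    refine mul_ne_zero (mul_ne_zero (h.e3.ne p') (h.e3.ne q')) ?_
    simpa only [toK, rp, rq, if_true, Bool.true_eq_false, if_false] using z3

theorem sbca_pvt {k : ℕ → ℕ → ℕ → Bool} (hlt : zm < 65536) (n : ℕ) {N : ℕ}
    (h : Emb (toK d3 zm rm M) D φ ε) (ok : pvt zm n k rm M N = true) :
    ∃ rm' M' N' D', D.Reach D' ∧ Emb (toK d3 zm rm' M') D' φ ε ∧ k rm' M' N' = true := by
  have t : ∀ a < 7, ∀ t < 7, d3 (sub3 a t) = d3 a - d3 t := by decide +kernel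
  have t7 : ∀ a t, sub3 a t < 7 := fun a t =>
    (by decide +kernel : ∀ k < 3, Nat.land (Nat.shiftRight 1552 (Nat.mul 4 k)) 7 < 7) _
      (Nat.mod_lt _ (by decide))
  induction n generalizing rm M N D with
  | zero => exact ⟨rm, M, N, D, Reach.refl _, h, ok⟩
  | succ n ih =>
    obtain ⟨h1, h3⟩ := andB_iff.1 ok
    obtain ⟨hp, hq, rp, rq, h0⟩ := sbca_pre (Nat.lt_succ_of_le Nat.and_le_right)
      (Nat.lt_succ_of_le Nat.and_le_right) h1
    have p' := (mem_inter.1 hp).2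
    have q' := (mem_inter.1 hq).2
    obtain ⟨rm', M', N', D', k1, k2⟩ := ih
      (sbca_pivot (fun _ a _ b => d3_mul7 a b) (fun _ => d3_neg7) (fun _ => d3_inv7) t7 hlt p' q'
        rp rq (mt (d3_eq_zero (lane_lt _ _ _)).1 h0)
        (fun i _ j _ _ _ _ _ => t _ (lane_lt _ _ _) _ (mul7_lt _ _)) h) h3
    exact ⟨rm', M', N', D',
      Reach.trans (ReachIn.single (h.mem _ p') (h.mem _ q')) k1, k2⟩

theorem pvsN_sound {U N : ℕ} {k : ℕ → ℕ → ℕ → Bool} (h : Mt zm rm M D H φ ε)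
    (ok : pvsN zm U k rm M N = true) :
    ∃ rm' M' N' D' H', JR ((fs U ∩ fs zm).image φ) D H D' H' ∧ Mt zm rm' M' D' H' φ ε ∧
      k rm' M' N' = true := sbca_pvs _ h ok

theorem pvtN_sound {N : ℕ} {k : ℕ → ℕ → ℕ → Bool} (hlt : zm < 65536)
    (h : Emb (toK d3 zm rm M) D φ ε) (ok : pvtN zm k rm M N = true) :
    ∃ rm' M' N' D', D.Reach D' ∧ Emb (toK d3 zm rm' M') D' φ ε ∧ k rm' M' N' = true := sbca_pvt hlt _ h ok

end ML

end Pool.Agent.Lib.MP_c69b6d_co.F
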