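import Pool.Agent.Lib.MP_c69b6d_co.F.SBCa
import Pool.Agent.Lib.MP_c69b6d_co.F.SBA

/-! Stage B checker: matching and the common leaves. -/

namespace Pool.Agent.Lib.MP_c69b6d_co.F

open Finset Disp

namespace ML

variable {zm rm M : ℕ} {D : Disp F3} {H : Disp F4} {φ : ℕ → ℕ} {ε : ℕ → F3}

theorem JR.st {u v : ℕ} {U : Finset ℕ} {D' : Disp F3} {H' : Disp F4} (h : JR U D H D' H')
    (hU : U ⊆ core D u v) (st : St D H u v) : St D' H' u v := by
  have key : ∀ b : Disp F3 × Disp F4, Relation.ReflTransGen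
      (fun a b : Disp F3 × Disp F4 => ∃ x ∈ U, ∃ y ∈ U, a.1.S x y ≠ 0 ∧
        b = (a.1.pivot x y, a.2.pivot x y)) (D, H) b →
      St b.1 b.2 u v ∧ core b.1 u v = core D u v := by
    intro b hb
    induction hb with
    | refl => exact ⟨st, rfl⟩
    | tail _ h2 ih =>
      obtain ⟨x, hx, y, hy, -, rfl⟩ := h2
      exact ⟨ih.1.pivot (ih.2.symm ▸ hU hx) (ih.2.symm ▸ hU hy), (core_pivot _ _ _ _ _).trans ih.2⟩
  exact (key _ h).1

namespace SBCbAux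

theorem beq_false {a b : ℕ} (h : notB (Nat.beq a b) = true) : a ≠ b :=
  Nat.ne_of_beq_eq_false (notB_iff.1 h)

theorem mem_of_tb {X a : ℕ} (h : tb X a = true) (ha : a < 16) : a ∈ fs X :=
  mem_fs.2 ⟨by omega, tb_eq X a ▸ h⟩

theorem mtB_spec {nm : ℕ → ℕ} {T : Nd} {F : ℕ} {cj : Bool}
    (ok : mtB nm T zm rm M F cj = true) : T.zm < 65536 ∧ Set.InjOn (psi F) (fs T.zm) ∧
      ∀ i ∈ fs T.zm, psi F i ∈ fs zm ∧ rm.testBit (psi F i) = T.rm.testBit i ∧ scf F i ≠ 0 ∧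
        (T.rm.testBit i = true → ∀ j ∈ fs T.zm, T.rm.testBit j = false →
          nm (lane M (psi F i) (psi F j)) = nm (mul7 (mul7 (scf F i) (scf F j))
            (cnd cj (inv7 (lane T.M i j)) (lane T.M i j)))) := by
  obtain ⟨h0, h1⟩ := andB_iff.1 ok
  have hlt : T.zm < 65536 := Nat.blt_eq.mp h0
  have h2 := allM_iff.1 h1
  have k : ∀ i ∈ fs T.zm, ∀ j ∈ fs T.zm, j < i → psi F j ≠ psi F i := fun i hi j hj hji => by
    obtain ⟨a, b⟩ := (mem_fs16 hlt).1 hi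
    have c := (andB_iff.1 (andB_iff.1 (andB_iff.1 (andB_iff.1 (h2 i a b)).2).2).2).1
    exact beq_false (impB_iff.1 (allLt_iff.1 c j hji) (tb_eq T.zm j ▸ (mem_fs.1 hj).2))
  refine ⟨hlt, fun i hi j hj e => ?_, fun i hi => ?_⟩
  · rcases lt_trichotomy i j with l | l | l
    · exact absurd e (k j hj i hi l)
    · exact l
    · exact absurd e.symm (k i hi j hj l)
  · obtain ⟨a, b⟩ := (mem_fs16 hlt).1 hi
    obtain ⟨c1, c⟩ := andB_iff.1 (h2 i a b)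
    obtain ⟨c2, c⟩ := andB_iff.1 c
    obtain ⟨c3, c⟩ := andB_iff.1 c
    obtain ⟨-, c5⟩ := andB_iff.1 c
    refine ⟨mem_of_tb c1 (psi_lt F i), ?_, beq_false c3, fun ri j hj rj => ?_⟩
    · rw [← tb_eq, ← tb_eq]; exact eqB_iff.1 c2
    · exact Nat.eq_of_beq_eq_true (allM_iff.1 (impB_iff.1 c5 (tb_eq T.rm i ▸ ri)) j
        ((mem_fs16 hlt).1 hj).1 (mem_fs.1 (mem_cls.2 ⟨hj, rj⟩)).2)

theorem ent_of {K : Type} [Field K] {d : ℕ → K} {f : K →+* K} {c : ℕ → K} {ψ : ℕ → ℕ}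
    {z r N : ℕ} (hr : ∀ i ∈ fs z, rm.testBit (ψ i) = r.testBit i)
    (he : ∀ i ∈ fs z, r.testBit i = true → ∀ j ∈ fs z, r.testBit j = false →
      d (lane M (ψ i) (ψ j)) = c i * c j * f (d (lane N i j))) {i j : ℕ} (hi : i ∈ fs z)
    (hj : j ∈ fs z) :
    (toK d zm rm M).S (ψ i) (ψ j) = c i * c j * f ((toK d z r N).S i j) := by
  simp only [toK, hr i hi, hr j hj]
  cases ri : r.testBit i <;> cases rj : r.testBit j
  · simp
  · simp [he j hj rj i hi ri, mul_comm (c j)]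
  · simp [he i hi ri j hj rj]
  · simp

theorem cnd_lt (cj : Bool) (N i j : ℕ) : cnd cj (inv7 (lane N i j)) (lane N i j) < 7 := by
  cases cj
  · exact lane_lt _ _ _
  · exact inv7_lt _

theorem emb3 {nm : ℕ → ℕ} (hnm : ∀ a b, nm a = nm b → d3 a = d3 b) {T : Nd} {F : ℕ} {cj : Bool}
    (ok : mtB nm T zm rm M F cj = true) :
    Emb (toK d3 T.zm T.rm T.M) (toK d3 zm rm M) (psi F) (fun i => d3 (scf F i)) := by
  obtain ⟨-, h1, h2⟩ := mtB_spec ok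
  refine ⟨h1, fun i hi => (h2 i hi).1, fun i hi => (h2 i hi).2.1,
    fun i hi => d3_sq (scf_lt F i) (h2 i hi).2.2.1, fun i hi j hj => ?_⟩
  refine ent_of (f := RingHom.id F3) (c := fun i => d3 (scf F i)) (fun i hi => (h2 i hi).2.1)
    (fun i hi ri j hj rj => ?_) hi hj
  rw [hnm _ _ ((h2 i hi).2.2.2 ri j hj rj), d3_mul7 (mul7_lt _ _) (cnd_lt _ _ _ _),
    d3_mul7 (scf_lt _ _) (scf_lt _ _), RingHom.id_apply]
  cases cj
  · rfl
  · rw [cnd_true, d3_inv7' (lane_lt _ _ _)]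

theorem emb_of {L D : Disp F3} {φ : ℕ → ℕ} {ε : ℕ → F3}
    (h : ∀ i ∈ L.Z, φ i ∈ D.Z ∧ D.row (φ i) = L.row i ∧ ε i * ε i = 1 ∧ ∀ j ∈ L.Z,
      (φ i = φ j → i = j) ∧ D.S (φ i) (φ j) = ε i * ε j * L.S i j) : Emb L D φ ε :=
  ⟨fun i hi j hj => ((h i hi).2.2.2 j hj).1, fun i hi => (h i hi).1, fun i hi => (h i hi).2.1,
    fun i hi => (h i hi).2.2.1, fun i hi j hj => ((h i hi).2.2.2 j hj).2⟩

theorem land12 {m : ℕ} (h2 : m.testBit 2 = true) (h3 : m.testBit 3 = true) :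
    Nat.land m 12 = 12 := by
  refine Nat.eq_of_testBit_eq fun k => ?_
  change (m &&& (2 ^ 2 ||| 2 ^ 3)).testBit k = (2 ^ 2 ||| 2 ^ 3).testBit k
  rw [Nat.testBit_and, Nat.testBit_or, Nat.testBit_two_pow, Nat.testBit_two_pow]
  by_cases e2 : 2 = k
  · subst e2; rw [h2]; rfl
  · by_cases e3 : 3 = k
    · subst e3; rw [h3]; rfl
    · simp [e2, e3]

theorem fs_msk4 {r s c d : ℕ} (hr : r < 16) (hs : s < 16) (hc : c < 16) (hd : d < 16) :
    fs (msk4 r s c d) = {r, s, c, d} := by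
  unfold msk4
  rw [fs_lor, fs_lor, fs_lor, fs_bit (by omega), fs_bit (by omega), fs_bit (by omega),
    fs_bit (by omega)]
  ext i
  simp only [mem_union, mem_singleton, mem_insert, or_assoc]

theorem S_ne (zm : ℕ) {a b : ℕ} (h : notB (Nat.beq (sk rm M a b) 0) = true) :
    (toK d3 zm rm M).S a b ≠ 0 := by
  rw [toK3_S]
  exact fun e => beq_false h ((d3_eq_zero (sk_lt _ _ _ _)).1 e)

theorem emb_id (zm rm M : ℕ) : Emb (toK d3 zm rm M) (toK d3 zm rm M) id (fun _ => 1) :=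
  emb_of_agree subset_rfl (Agree.refl _ _)

end SBCbAux

open SBCbAux

theorem mtB_sound3 {T : Nd} {F : ℕ} (h : Emb (toK d3 zm rm M) D φ ε)
    (ok : mtB p3 T zm rm M F false = true) :
    ∃ ε', Emb (toK d3 T.zm T.rm T.M) D (fun i => φ (psi F i)) ε' :=
  ⟨_, (emb3 (fun _ _ e => congrArg (fun n : ℕ => (n : F3)) e) ok).comp h⟩

/-- after rescaling and possibly conjugating `H` the seed is found exactly. -/
theorem mtB_sound {T : Nd} {F : ℕ} {cj : Bool} (h : Mt zm rm M D H φ ε)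
    (ok : mtB (fun a => a) T zm rm M F cj = true) :
    ∃ (δ : ℕ → F4) (f : F4 →+* F4) (ε' : ℕ → F3), (∀ i, δ i ≠ 0) ∧
      Mt T.zm T.rm T.M D ((H.scale δ).map f) (fun i => φ (psi F i)) ε' := by
  have e3 := (emb3 (fun _ _ e => congrArg d3 e) ok).comp h.e3
  obtain ⟨h0, -, h2⟩ := mtB_spec ok
  have hc : ∀ i ∈ fs T.zm, d4 (scf F i) ≠ 0 := fun i hi e =>
    (h2 i hi).2.2.1 ((d4_eq_zero (scf_lt F i)).1 e)
  obtain ⟨f, hf, hff⟩ : ∃ f : F4 →+* F4, (∀ a < 7, d4 (cnd cj (inv7 a) a) = f (d4 a)) ∧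
      ∀ x, f (f x) = x := by
    cases cj
    · exact ⟨RingHom.id F4, fun _ _ => rfl, fun _ => rfl⟩
    · exact ⟨F4.cj, fun a ha => d4_inv7' ha, by decide⟩
  have hδ : ∀ i ∈ fs T.zm, ∏ k ∈ fs T.zm with φ (psi F k) = φ (psi F i), (d4 (scf F k))⁻¹ =
      (d4 (scf F i))⁻¹ := fun i hi =>
    prod_eq_single_of_mem i (mem_filter.2 ⟨hi, rfl⟩) fun k hk hne =>
      absurd (e3.inj (mem_filter.1 hk).1 hi (mem_filter.1 hk).2) hne
  refine ⟨fun x => ∏ k ∈ fs T.zm with φ (psi F k) = x, (d4 (scf F k))⁻¹, f, _,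
    fun x => prod_ne_zero_iff.2 fun k hk => inv_ne_zero (hc k (mem_filter.1 hk).1), h0, e3,
    e3.inj, fun i hi => h.e4.mem _ (h2 i hi).1,
    fun i hi => (h.e4.row _ (h2 i hi).1).trans (h2 i hi).2.1, fun _ _ => mul_one 1,
    fun i hi j hj => ?_⟩
  have e := ent_of (zm := zm) (M := M) (d := d4) (f := f) (c := fun i => d4 (scf F i))
    (N := T.M) (fun i hi => (h2 i hi).2.1) (fun i hi ri j hj rj => by
      rw [(h2 i hi).2.2.2 ri j hj rj, d4_mul7 (mul7_lt _ _) (cnd_lt _ _ _ _),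
        d4_mul7 (scf_lt _ _) (scf_lt _ _), hf _ (lane_lt _ _ _)]) hi hj
  change f ((∏ k ∈ fs T.zm with φ (psi F k) = φ (psi F i), (d4 (scf F k))⁻¹) *
    (∏ k ∈ fs T.zm with φ (psi F k) = φ (psi F j), (d4 (scf F k))⁻¹) *
    H.S (φ (psi F i)) (φ (psi F j))) = _
  rw [hδ i hi, hδ j hj, h.e4.ent _ (h2 i hi).1 _ (h2 j hj).1, e, one_mul, one_mul, one_mul,
    ← mul_assoc, mul_mul_mul_comm, inv_mul_cancel₀ (hc i hi), inv_mul_cancel₀ (hc j hj),
    one_mul, one_mul, hff]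

theorem st_uv {F : ℕ} (st : St D H (φ 2) (φ 3)) (ok : uvB F = true) :
    St D H (φ (psi F 2)) (φ (psi F 3)) := by
  rcases orB_iff.1 ok with k | k <;> obtain ⟨a, b⟩ := andB_iff.1 k <;>
    rw [Nat.eq_of_beq_eq_true a, Nat.eq_of_beq_eq_true b]
  · exact st
  · exact st.symm

theorem tNL_has : ∀ k < 3, Has NL (toK d3 (nth tNL k).zm (nth tNL k).rm (nth tNL k).M) := by
  intro k hk
  interval_cases k
  · exact ⟨cF7m.toDisp, by simp [NL],
      (emb_of (φ := id) (ε := fun _ => 1) (by decide +kernel)).minor⟩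
  · exact ⟨cF7md.toDisp, by simp [NL],
      (emb_of (φ := id) (ε := fun _ => 1) (by decide +kernel)).minor⟩
  · exact ⟨cP8.toDisp, by simp [NL],
      (emb_of (φ := id) (ε := fun _ => 1) (by decide +kernel)).minor⟩

/-- the labels other than `2, 3` are sent into the core. -/
def Sep (zm : ℕ) (φ : ℕ → ℕ) : Prop :=
  ∀ i ∈ fs zm, (i ≠ 2 → φ i ≠ φ 2) ∧ (i ≠ 3 → φ i ≠ φ 3)

theorem cor_sub (h : Mt zm rm M D H φ ε) (hs : Sep zm φ) {U : ℕ} (hU : fs U ⊆ fs zm) :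
    (fs (cor U) ∩ fs zm).image φ ⊆ core D (φ 2) (φ 3) := by
  intro x hx
  obtain ⟨i, hi, rfl⟩ := mem_image.1 hx
  obtain ⟨a, -, b, c⟩ := mem_cor.1 (mem_inter.1 hi).1
  exact mem_core.2 ⟨(hs i (hU a)).2 c, (hs i (hU a)).1 b, h.e3.mem i (hU a)⟩

theorem SBCbAux.inv1_sound {r s c d : ℕ} (st : St D H (φ 2) (φ 3)) (h : Mt zm rm M D H φ ε)
    (hs : Sep zm φ) (lr : r < 16) (ls : s < 16) (lc : c < 16) (ld : d < 16)
    (ok : inv1 zm rm M r s c d = true) : False := by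
  obtain ⟨k1, k⟩ := andB_iff.1 ok
  obtain ⟨k2, k3⟩ := andB_iff.1 k
  have e := fs_msk4 lr ls lc ld
  have sub : ({r, s, c, d} : Finset ℕ) ⊆ fs zm := by
    rw [← e, ← Nat.eq_of_beq_eq_true k1, fs_land]
    exact inter_subset_right
  have mr : r ∈ ({r, s, c, d} : Finset ℕ) := by simp
  have ms : s ∈ ({r, s, c, d} : Finset ℕ) := by simp
  have mc : c ∈ ({r, s, c, d} : Finset ℕ) := by simp
  have md : d ∈ ({r, s, c, d} : Finset ℕ) := by simp
  have key : ∀ U, Val D H U → (∀ i ∈ ({r, s, c, d} : Finset ℕ), φ i ∈ U) → False := by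
    intro U hv hU
    have e2 : detB p3 rm M r s c d = detB p4 rm M r s c d := by
      rw [Bool.eq_iff_iff, emb_det3 h.e3 (sub mr) (sub ms) (sub mc) (sub md),
        h.det4 (sub mr) (sub ms) (sub mc) (sub md)]
      exact (hv.det2 (hU r mr) (hU s ms) (hU c mc) (hU d md)).symm
    have := notB_iff.1 k3
    rw [eqB_iff.2 e2] at this
    exact Bool.noConfusion this
  by_cases a2 : 2 ∈ ({r, s, c, d} : Finset ℕ)
  · by_cases a3 : 3 ∈ ({r, s, c, d} : Finset ℕ)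
    · rw [← e] at a2 a3
      exact beq_false k2 (land12 (mem_fs.1 a2).2 (mem_fs.1 a3).2)
    · exact key _ st.vv fun i hi =>
        mem_erase.2 ⟨(hs i (sub hi)).2 fun k => a3 (k ▸ hi), h.e3.mem i (sub hi)⟩
  · exact key _ st.vu fun i hi =>
      mem_erase.2 ⟨(hs i (sub hi)).1 fun k => a2 (k ▸ hi), h.e3.mem i (sub hi)⟩

theorem comL_sound {tab : List Nd} {b op N : ℕ} (hd : ∀ i < b, Dead (nth tab i))
    (st : St D H (φ 2) (φ 3)) (h : Mt zm rm M D H φ ε) (hs : Sep zm φ)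
    (ok : comL tab b zm rm M op N = true) : False := by
  unfold comL at ok
  rw [cnd_eq, cnd_eq] at ok
  split_ifs at ok
  · obtain ⟨rm', M', N', D', H', jr, mt, k⟩ := pvsN_sound h ok
    exact inv1_sound (jr.st (cor_sub h hs subset_rfl) st) mt hs (nib_lt _ _) (nib_lt _ _)
      (nib_lt _ _) (nib_lt _ _) k
  · obtain ⟨k0, k1⟩ := andB_iff.1 ok
    obtain ⟨rm', M', N', D', r, em, k⟩ := pvtN_sound h.lt h.e3 k1
    obtain ⟨ε', e⟩ := mtB_sound3 em k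
    obtain ⟨L, hL, hm⟩ := (tNL_has _ (Nat.blt_eq.mp k0)).minor ⟨D', _, _, r, e⟩
    exact st.free L hL hm
  · obtain ⟨k0, k1⟩ := andB_iff.1 (andB_iff.1 ok).2
    obtain ⟨rm', M', N', D', H', jr, mt, k⟩ := pvsN_sound h k1
    obtain ⟨k2, k3⟩ := andB_iff.1 k
    obtain ⟨δ, f, ε', hδ, mt'⟩ := mtB_sound mt k3
    exact hd _ (Nat.blt_eq.mp k0) _ _ _ _
      (st_uv (((jr.st (cor_sub h hs subset_rfl) st).scale hδ).map f) k2) mt'

theorem Bs.sep {s : Dy} (h : Bs s D H φ ε) : Sep s.z1 φ := by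
  intro i hi
  rcases mem_insert.1 (h.sub hi) with e | e
  · rw [e]
    exact ⟨fun _ => (h.inj 2 h.h2).symm, fun _ => (h.inj 3 h.h3).symm⟩
  · exact ⟨fun a k => a (h.m0.e3.inj e h.h2 k), fun a k => a (h.m0.e3.inj e h.h3 k)⟩

theorem gtL_sound {k X Y N : ℕ} (h : Emb (toK d3 zm rm M) D φ ε) (hX : fs X ⊆ fs zm)
    (hY : fs Y ⊆ fs zm) (ok : gtL k X Y rm M N = true) :
    k < D.lam ((fs X).image φ) ((fs Y).image φ) := by
  obtain ⟨a, ok⟩ := andB_iff.1 ok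
  obtain ⟨c, ok⟩ := andB_iff.1 ok
  have ma := mem_of_tb a (nib_lt _ _)
  have mc := mem_of_tb c (nib_lt _ _)
  rw [cnd_eq] at ok
  split_ifs at ok with k0
  · rw [h.lam_eq hX hY, Nat.eq_of_beq_eq_true k0]
    exact Nat.pos_of_ne_zero fun e => S_ne zm ok (lam_eq_zero_iff.1 e _ ma _ mc)
  · obtain ⟨k1, ok⟩ := andB_iff.1 ok
    obtain ⟨b, ok⟩ := andB_iff.1 ok
    obtain ⟨d, ok⟩ := andB_iff.1 ok
    have mb := mem_of_tb b (nib_lt _ _)
    have md := mem_of_tb d (nib_lt _ _)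
    rw [Nat.eq_of_beq_eq_true k1]
    by_contra hn
    have e := (emb_det3 h (hX ma) (hX mb) (hY mc) (hY md)).2 (det_two_of_lam (not_lt.1 hn)
      (mem_image_of_mem φ ma) (mem_image_of_mem φ mb) (mem_image_of_mem φ mc)
      (mem_image_of_mem φ md))
    rw [notB_iff.1 ok] at e
    exact Bool.noConfusion e

theorem leL_sound {k X Y a b : ℕ} (hlt : zm < 65536) (h : Emb (toK d3 zm rm M) D φ ε)
    (hX : fs X ⊆ fs zm) (hY : fs Y ⊆ fs zm) (hXl : X < 65536) (hYl : Y < 65536)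
    (ok : leL k X Y rm M a b = true) : D.lam ((fs X).image φ) ((fs Y).image φ) = k := by
  have all : ∀ {f : ℕ → ℕ → Bool}, allM X (fun i => allM Y (fun j => f i j)) = true →
      ∀ i ∈ fs X, ∀ j ∈ fs Y, f i j = true := fun hf i hi j hj =>
    allM_iff.1 (allM_iff.1 hf i ((mem_fs16 hlt).1 (hX hi)).1 (mem_fs.1 hi).2) j
      ((mem_fs16 hlt).1 (hY hj)).1 (mem_fs.1 hj).2
  unfold leL at ok
  rw [cnd_eq] at ok
  rw [h.lam_eq hX hY]
  split_ifs at ok with k0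
  · rw [Nat.eq_of_beq_eq_true k0]
    refine lam_eq_zero_iff.2 fun i hi j hj => ?_
    rw [toK3_S, Nat.eq_of_beq_eq_true (all ok i hi j hj)]
    rfl
  · obtain ⟨k1, ok⟩ := andB_iff.1 ok
    obtain ⟨ta, ok⟩ := andB_iff.1 ok
    obtain ⟨tb', ok⟩ := andB_iff.1 ok
    obtain ⟨nz, ok⟩ := andB_iff.1 ok
    have ma := mem_of_tb ta (ck_lt (n := 16) hXl (tb_eq X a ▸ ta))
    have mb := mem_of_tb tb' (ck_lt (n := 16) hYl (tb_eq Y b ▸ tb'))
    have ne := S_ne zm nz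
    rw [Nat.eq_of_beq_eq_true k1]
    refine le_antisymm (lam_le_one (fun i => (toK d3 zm rm M).S i b / (toK d3 zm rm M).S a b)
      (fun j => (toK d3 zm rm M).S a j) fun i hi j hj => ?_)
      (Nat.pos_of_ne_zero fun e => ne (lam_eq_zero_iff.1 e _ ma _ mb))
    have e := (emb_det3 (emb_id zm rm M) (hX ma) (hX hi) (hY mb) (hY hj)).1 (all ok i hi j hj)
    simp only [id] at e
    field_simp
    linear_combination e

theorem spanL_sound {s : Dy} (h : Bs s D H φ ε) {X Y y c : ℕ} (hX : fs X ⊆ fs s.z1)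
    (hX0 : fs X ⊆ fs s.z0) (hY : fs Y ⊆ fs s.z0) (hy : y < 32)
    (ok : spanL X Y s.rm s.M s.n y c = true) :
    D.lam ((fs X).image φ) (insert (φ s.n) ((fs Y).image φ)) ≤
      D.lam ((fs X).image φ) ((fs Y).image φ) := by
  obtain ⟨ty, ok⟩ := andB_iff.1 ok
  have my : y ∈ fs Y := mem_fs.2 ⟨hy, tb_eq Y y ▸ ty⟩
  refine lam_insert_le_iff.2 ⟨fun j => if j = φ y then ε s.n * ε y * d3 (c % 7) else 0,
    fun x hx => ?_⟩
  obtain ⟨i, hi, rfl⟩ := mem_image.1 hx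
  have e : d3 (sk s.rm s.M i s.n) = d3 (mul7 c (sk s.rm s.M i y)) :=
    congrArg (fun n : ℕ => (n : F3)) (Nat.eq_of_beq_eq_true
      (allM_iff.1 ok i ((mem_fs16 h.m1.lt).1 (hX hi)).1 (mem_fs.1 hi).2))
  simp only [ite_mul, zero_mul, sum_ite_eq', mem_image_of_mem φ my, if_true]
  rw [h.m1.S3 (hX hi) h.n1, h.m0.S3 (hX0 hi) (hY my), e, mul7_mod,
    d3_mul7 (Nat.mod_lt _ (by norm_num)) (sk_lt _ _ _ _)]
  linear_combination -(ε i * ε s.n * d3 (c % 7) * d3 (sk s.rm s.M i y)) * h.m0.e3.sq y (hY my)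

end ML

end Pool.Agent.Lib.MP_c69b6d_co.F
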