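import Pool.Agent.Lib.MP_c69b6d_co.F.SB3
import Pool.Agent.Lib.MP_c69b6d_co.F.Block

/-! Stage B checker: shortest blocking walks. -/

namespace Pool.Agent.Lib.MP_c69b6d_co.F

open Finset Disp

namespace ML

variable {G : Disp F3} {k m w : ℕ} {X0 X Y : Finset ℕ}

theorem blkAt_first (sX : X ⊆ G.Z) (sY : Y ⊆ G.Z) (hd : Disjoint X Y) (hl : G.lam X Y = k)
    (hb : G.Blocking k X Y m) (hmin : ∀ m' < m, ¬ G.Blocking k X Y m') :
    ∃ t, BlkAt G k ∅ X Y m t := by
  obtain ⟨t, h1, h2⟩ := hb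
  refine ⟨t, sX, sY, hd, hl, h1, ?_, h2, hmin⟩
  have : G.lam ∅ (insert t Y) = 0 := lam_eq_zero_iff.2 (by simp)
  omega

/-- the second element of the walk. -/
theorem BlkAt.second (h : BlkAt G k X0 X Y m w) (hw : G.lam (insert w X) Y ≤ k) :
    ∃ n t, m = n + 1 ∧ w ≠ t ∧ k < G.lam (insert w X) (insert t Y) ∧ Tail G k X Y n t ∧
      G.lam X (insert t Y) ≤ k := by
  have ht := h.tail
  have hm := h.min
  cases ht with
  | last _ _ _ _ l => omega
  | step n _ t _ _ _ hwt l ht =>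
    exact ⟨n, t, rfl, hwt, l, ht, not_lt.1 fun h' => hm n (Nat.lt_succ_self n) ⟨t, h', ht⟩⟩

theorem sbcc_back (h : BlkAt G k X0 X Y m w) (hw : G.lam (insert w X) Y ≤ k) {j q : ℕ}
    (ht : Tail G k (insert w X) Y j q) :
    (∃ j' ≤ j, Tail G k X Y j' q) ∨ ∃ j' ≤ j, Tail G k X Y j' w := by
  obtain ⟨w1, w2, w3⟩ := h.tail.mem
  induction ht with
  | last q a b c l =>
    refine Or.inl ⟨0, le_rfl, Tail.last q a (fun e => b (mem_insert_of_mem e)) c ?_⟩
    exact not_le.1 fun h' => not_le.2 l (lam_ins2_le h.lam.ge hw h')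
  | step j q q' a b c hq l ht ih =>
    rcases ih with ⟨j', hj, ht'⟩ | ⟨j', hj, ht'⟩
    · by_cases h1 : G.lam (insert w X) (insert q' Y) ≤ k
      · refine Or.inl ⟨j' + 1, by omega,
          Tail.step j' q q' a (fun e => b (mem_insert_of_mem e)) c hq ?_ ht'⟩
        exact not_le.1 fun h' => not_le.2 l (lam_ins2_le
          (h.lam.ge.trans (G.lam_mono Subset.rfl (subset_insert _ _))) h1 h')
      · refine Or.inr ⟨j' + 1, by omega, Tail.step j' w q' w1 w2 w3 ?_ (not_le.1 h1) ht'⟩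
        rintro rfl
        exact ht.mem.2.1 (mem_insert_self _ _)
    · exact Or.inr ⟨j', by omega, ht'⟩

/-- the first element joins `X`. -/
theorem BlkAt.next (h : BlkAt G k X0 X Y m w) (hw : G.lam (insert w X) Y ≤ k) :
    ∃ m' < m, ∃ t, BlkAt G k X (insert w X) Y m' t := by
  obtain ⟨n, t, rfl, hwt, l, ht, l'⟩ := h.second hw
  obtain ⟨w1, w2, w3⟩ := h.tail.mem
  have hd : Disjoint (insert w X) Y := disjoint_insert_left.2 ⟨w3, h.disj⟩
  have hk : k ≤ G.lam (insert w X) Y := h.lam.ge.trans (G.lam_mono (subset_insert _ _) Subset.rfl)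
  have hne : ∀ j < n + 1, ∀ q, Tail G k X Y j q → w ≠ q := by
    rintro j hj q hq rfl
    exact h.min j hj ⟨w, h.gt, hq⟩
  have hnm : ∀ j < n + 1, ∀ q, Tail G k X Y j q → q ∉ insert w X := by
    intro j hj q hq
    rw [mem_insert, not_or]
    exact ⟨(hne j hj q hq).symm, hq.mem.2.1⟩
  refine ⟨n, Nat.lt_succ_self n, t, insert_subset w1 h.sX, h.sY, hd, le_antisymm hw hk, l, l',
    ?_, ?_⟩
  · refine ht.transfer hd (subset_insert _ _) (ReachIn.refl _ _) Subset.rfl hk hw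
      (hnm n (Nat.lt_succ_self n) t ht) fun j hj q hq =>
        ⟨hnm j (by omega) q hq, not_lt.1 fun h' => ?_⟩
    exact h.min (j + 1) (by omega)
      ⟨w, h.gt, Tail.step j w q w1 w2 w3 (hne j (by omega) q hq) h' hq⟩
  · rintro j hj ⟨q, h1, h2⟩
    rcases sbcc_back h hw h2 with ⟨j', hj', h3⟩ | ⟨j', hj', h3⟩
    · exact h.min (j' + 1) (by omega)
        ⟨w, h.gt, Tail.step j' w q w1 w2 w3 (hne j' (by omega) q h3) h1 h3⟩
    · exact h.min j' (by omega) ⟨w, h.gt, h3⟩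

/-- shortening; `Gz` is `G` together with a test element `z` which vanishes on `X`. -/
theorem BlkAt.shorten (h : BlkAt G k X0 X Y m w) (hw : G.lam (insert w X) Y ≤ k)
    {Gz E1 E2 Ez1 Ez2 : Disp F3} {z : ℕ} {X' : Finset ℕ} (hz : z ∉ G.Z) (a0 : Agree Gz G G.Z)
    (h0 : ∀ i ∈ X, Gz.S i z = 0) (hX' : X' ⊆ insert w X)
    (r1 : ReachIn (insert w X) G E1) (r2 : ReachIn (X' ∪ Y) E1 E2)
    (rz1 : ReachIn (insert w X) Gz Ez1) (rz2 : ReachIn (X' ∪ Y) Ez1 Ez2)
    (a1 : Agree Ez1 E1 G.Z) (hk : k ≤ E2.lam X' Y) (ht : k < Ez2.lam X' (insert z Y)) :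
    ∃ m' < m, E2.Blocking k X' Y m' := by
  obtain ⟨n, t, rfl, hwt, l, htl, l'⟩ := h.second hw
  obtain ⟨w1, w2, w3⟩ := h.tail.mem
  obtain ⟨t1, t2, t3⟩ := htl.mem
  have x1 : insert w X ⊆ G.Z := insert_subset w1 h.sX
  have ty : insert t Y ⊆ G.Z := insert_subset t1 h.sY
  have hd : Disjoint (insert w X) Y := disjoint_insert_left.2 ⟨w3, h.disj⟩
  have d1 : Disjoint (insert w X) (insert t Y) := disj_ins h.disj w3 t2 hwt
  have zx : z ∉ insert w X := fun e => hz (x1 e)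
  have d2 : Disjoint (insert w X) (insert z (insert t Y)) := disjoint_insert_right.2 ⟨zx, d1⟩
  have d3 : Disjoint (insert w X) (insert z Y) := disjoint_insert_right.2 ⟨zx, hd⟩
  have d4 : Disjoint X' Y := hd.mono_left hX'
  have e0 : E2.lam X' Y = E1.lam X' Y := r2.lam_eq d4 Subset.rfl
  have e1 : E1.lam X' (insert t Y) = Ez1.lam X' (insert t Y) :=
    lam_congr fun i hi j hj => a1.2 i (x1 (hX' hi)) j (ty hj)
  have e3 : Ez2.lam X' (insert z Y) = Ez1.lam X' (insert z Y) :=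
    rz2.lam_eq (d3.mono_left hX') (union_subset_union Subset.rfl (subset_insert _ _))
  have e4 : Ez1.lam (insert w X) (insert t Y) = Gz.lam (insert w X) (insert t Y) :=
    rz1.lam_eq d1 subset_union_left
  have e5 : Ez1.lam (insert w X) (insert z (insert t Y)) =
      Gz.lam (insert w X) (insert z (insert t Y)) := rz1.lam_eq d2 subset_union_left
  have s := Ez1.lam_submod (insert w X) (insert z (insert t Y)) X' (insert t Y)
  rw [union_eq_left.2 hX', inter_eq_right.2 hX', inter_eq_right.2 (subset_insert _ _),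
    union_eq_left.2 (subset_insert _ _)] at s
  have m1 : Ez1.lam X' (insert z Y) ≤ Ez1.lam X' (insert z (insert t Y)) :=
    Ez1.lam_mono Subset.rfl (insert_subset_insert _ (subset_insert _ _))
  have q1 := Gz.lam_insert_le X (insert z (insert t Y)) w
  have q2 : Gz.lam X (insert z (insert t Y)) ≤ Gz.lam X (insert t Y) :=
    lam_insert_le_iff.2 ⟨0, fun i hi => by rw [h0 i hi]; simp⟩
  have q3 : G.lam X (insert t Y) = Gz.lam X (insert t Y) :=
    lam_congr fun i hi j hj => a0.2 i (h.sX hi) j (ty hj)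
  have q4 : G.lam (insert w X) (insert t Y) = Gz.lam (insert w X) (insert t Y) :=
    lam_congr fun i hi j hj => a0.2 i (x1 hi) j (ty hj)
  refine ⟨n, Nat.lt_succ_self n, Blocking.reachIn d4 Subset.rfl r2 ?_⟩
  exact Disp.shorten h.disj w1 w2 w3 h.gt htl (fun j hj => h.min j (by omega)) r1 hX' (by omega)
    (by omega)

end ML

end Pool.Agent.Lib.MP_c69b6d_co.F
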