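import Pool.Agent.Lib.MP_c69b6d_co.F.SBCb

/-! Stage B checker: the enumeration of a new element. -/

namespace Pool.Agent.Lib.MP_c69b6d_co.F

open Finset Disp

namespace ML

variable {D : Disp F3} {H : Disp F4} {φ : ℕ → ℕ} {ε : ℕ → F3}

namespace SBCdAux

theorem emb_mk {K : Type} [Field K] {d : ℕ → K} {z rm M : ℕ} {E : Disp K} {η : ℕ → K}
    (inj : Set.InjOn φ (fs z)) (mem : ∀ i ∈ fs z, φ i ∈ E.Z)
    (row : ∀ i ∈ fs z, E.row (φ i) = rm.testBit i) (sq : ∀ i ∈ fs z, η i * η i = 1)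
    (ent : ∀ i ∈ fs z, ∀ j ∈ fs z, rm.testBit i = true → rm.testBit j = false →
      E.S (φ i) (φ j) = η i * η j * d (lane M i j)) : Emb (toK d z rm M) E φ η := by
  refine ⟨inj, mem, row, sq, fun i hi j hj => ?_⟩
  change E.S (φ i) (φ j) = η i * η j * (if rm.testBit i = rm.testBit j then 0
    else if rm.testBit i then d (lane M i j) else - d (lane M j i))
  cases h1 : rm.testBit i <;> cases h2 : rm.testBit j
  · rw [E.bip _ _ (by rw [row i hi, row j hj, h1, h2])]; simp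
  · rw [E.skew, ent j hj i hi h2 h1]; simp [mul_comm]
  · rw [ent i hi j hj h1 h2]; simp
  · rw [E.bip _ _ (by rw [row i hi, row j hj, h1, h2])]; simp

theorem emb_ent {K : Type} [Field K] {d : ℕ → K} {z rm M : ℕ} {E : Disp K} {η : ℕ → K}
    (h : Emb (toK d z rm M) E φ η) {i j : ℕ} (hi : i ∈ fs z) (hj : j ∈ fs z)
    (h1 : rm.testBit i = true) (h2 : rm.testBit j = false) :
    E.S (φ i) (φ j) = η i * η j * d (lane M i j) := by
  rw [h.ent i hi j hj]
  change η i * η j * (if rm.testBit i = rm.testBit j then 0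
    else if rm.testBit i then d (lane M i j) else - d (lane M j i)) = _
  simp [h1, h2]

theorem lor_lt {a n : ℕ} (ha : a < 65536) (hn : n < 16) : Nat.lor a (bit n) < 65536 := by
  have h1 : bit n < 2 ^ 16 := by
    rw [bit_eq]; exact Nat.pow_lt_pow_right one_lt_two hn
  exact Nat.or_lt_two_pow (n := 16) ha h1

theorem lt16 {m i : ℕ} (hm : m < 65536) (hi : i ∈ fs m) : i < 16 :=
  ck_lt (n := 16) hm (mem_fs.1 hi).2

theorem mem_lor_bit {a n i : ℕ} (hn : n < 16) : i ∈ fs (Nat.lor a (bit n)) ↔ i = n ∨ i ∈ fs a := by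
  have e : (Nat.lor a (bit n)).testBit i = (a.testBit i || decide (n = i)) := by
    rw [← testBit_bit]; exact Nat.testBit_or _ _ _
  rw [mem_fs, mem_fs, e, Bool.or_eq_true, decide_eq_true_eq]
  constructor
  · rintro ⟨h1, h2 | h2⟩
    · exact Or.inr ⟨h1, h2⟩
    · exact Or.inl h2.symm
  · rintro (rfl | ⟨h1, h2⟩)
    · exact ⟨by omega, Or.inr rfl⟩
    · exact ⟨h1, Or.inl h2⟩

theorem tb_rws (zm rm i : ℕ) : (rws zm rm).testBit i = (zm.testBit i && rm.testBit i) :=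
  Nat.testBit_and _ _ _

theorem tb_cls (zm rm i : ℕ) : (cls zm rm).testBit i = (zm.testBit i && !rm.testBit i) := by
  have : (cls zm rm).testBit i = (zm.testBit i ^^ (zm &&& rm).testBit i) := Nat.testBit_xor _ _ _
  rw [this, Nat.testBit_and]
  cases zm.testBit i <;> cases rm.testBit i <;> rfl

theorem sub_lt {a b : ℕ} (hb : b < 65536) (h : ∀ i, a.testBit i = true → b.testBit i = true) :
    a < 65536 :=
  Nat.lt_pow_two_of_testBit (n := 16) a fun i hi => by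
    by_contra c
    have := ck_lt (n := 16) hb (h i (by simpa using c))
    omega

/-- the general form of the start. -/
theorem start_aux {zm rm M n t z1 rm' : ℕ} (st : St D H (φ 2) (φ 3)) (h : Mt zm rm M D H φ ε)
    (h2 : 2 ∈ fs zm) (h3 : 3 ∈ fs zm) (hlt : ∀ i ∈ fs zm, i < n) (ht : t ∈ D.Z)
    (hne : ∀ i ∈ fs zm, φ i ≠ t) (l1 : z1 < 65536) (hr : ∀ i ∈ fs zm, rm'.testBit i = rm.testBit i)
    (hz : ∀ i, i ∈ fs z1 ↔ i = n ∨ (i ∈ fs zm ∧ rm.testBit i = D.row t))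
    (hn : rm'.testBit n = D.row t) :
    Bs ⟨zm, z1, rm', M, n⟩ D H (Function.update φ n t) (Function.update ε n 1) := by
  have uφ : ∀ i ∈ fs zm, Function.update φ n t i = φ i := fun i hi =>
    Function.update_of_ne (hlt i hi).ne _ _
  have uε : ∀ i ∈ fs zm, Function.update ε n 1 i = ε i := fun i hi =>
    Function.update_of_ne (hlt i hi).ne _ _
  have side : ∀ i ∈ fs z1, rm'.testBit i = D.row t := by
    intro i hi
    rcases (hz i).1 hi with rfl | ⟨a, b⟩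
    · exact hn
    · rw [hr i a, b]
  have inj0 : Set.InjOn (Function.update φ n t) (fs zm) := fun i hi j hj e =>
    h.e3.inj hi hj (by rwa [uφ i hi, uφ j hj] at e)
  have inj1 : Set.InjOn (Function.update φ n t) (fs z1) := by
    intro i hi j hj e
    rcases (hz i).1 hi with rfl | ⟨a, -⟩ <;> rcases (hz j).1 hj with e' | ⟨b, -⟩
    · exact e'.symm
    · rw [Function.update_self, uφ j b] at e; exact absurd e.symm (hne j b)
    · rw [e', Function.update_self, uφ i a] at e; exact absurd e (hne i a)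
    · exact inj0 a b e
  have mem1 : ∀ i ∈ fs z1, Function.update φ n t i ∈ D.Z := by
    intro i hi
    rcases (hz i).1 hi with rfl | ⟨a, -⟩
    · rwa [Function.update_self]
    · rw [uφ i a]; exact h.e3.mem i a
  have row1 : ∀ i ∈ fs z1, D.row (Function.update φ n t i) = rm'.testBit i := by
    intro i hi
    rcases (hz i).1 hi with rfl | ⟨a, -⟩
    · rw [Function.update_self, hn]
    · rw [uφ i a, hr i a]; exact h.e3.row i a
  have no : ∀ i ∈ fs z1, ∀ j ∈ fs z1, rm'.testBit i = true → rm'.testBit j = false → False := by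
    intro i hi j hj a b
    rw [side i hi] at a; rw [side j hj, a] at b; exact absurd b (by decide)
  refine ⟨by rw [uφ 2 h2, uφ 3 h3]; exact st, ⟨h.lt, ?_, ?_⟩, ⟨l1, ?_, ?_⟩, h2, h3,
    (hz n).2 (Or.inl rfl), hlt, fun i hi => ?_, fun i hi => ?_⟩
  · refine emb_mk inj0 (fun i hi => ?_) (fun i hi => ?_) (fun i hi => ?_) fun i hi j hj a b => ?_
    · rw [uφ i hi]; exact h.e3.mem i hi
    · rw [uφ i hi, hr i hi]; exact h.e3.row i hi
    · rw [uε i hi]; exact h.e3.sq i hi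
    · rw [uφ i hi, uφ j hj, uε i hi, uε j hj]
      exact emb_ent h.e3 hi hj (hr i hi ▸ a) (hr j hj ▸ b)
  · refine emb_mk inj0 (fun i hi => ?_) (fun i hi => ?_) (fun i hi => mul_one _)
      fun i hi j hj a b => ?_
    · rw [uφ i hi]; exact h.e4.mem i hi
    · rw [uφ i hi, hr i hi]; exact h.e4.row i hi
    · rw [uφ i hi, uφ j hj]
      exact emb_ent h.e4 hi hj (hr i hi ▸ a) (hr j hj ▸ b)
  · refine emb_mk inj1 mem1 row1 (fun i hi => ?_) fun i hi j hj a b => (no i hi j hj a b).elim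
    rcases (hz i).1 hi with rfl | ⟨a, -⟩
    · rw [Function.update_self, mul_one]
    · rw [uε i a]; exact h.e3.sq i a
  · exact emb_mk inj1 (fun i hi => st.hZ ▸ mem1 i hi)
      (fun i hi => (st.row (mem1 i hi)).trans (row1 i hi)) (fun i hi => mul_one _)
      fun i hi j hj a b => (no i hi j hj a b).elim
  · rcases (hz i).1 hi with rfl | ⟨a, -⟩
    · exact mem_insert_self _ _
    · exact mem_insert_of_mem a
  · change Function.update φ n t i ≠ Function.update φ n t n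
    rw [uφ i hi, Function.update_self]; exact hne i hi

theorem sel_spec {s : Dy} {i : ℕ} (l0 : s.z0 < 65536) (ok : selOK s i = true) :
    i ∈ fs s.z0 ∧ ∃ a b, (a = s.n ∧ b = i ∨ a = i ∧ b = s.n) ∧ s.rm.testBit a = true ∧
      s.rm.testBit b = false ∧ posN s i = pos a b ∧ raw s.M a b = 0 := by
  obtain ⟨a1, ok⟩ := andB_iff.1 ok
  obtain ⟨-, ok⟩ := andB_iff.1 ok
  obtain ⟨a3, a4⟩ := andB_iff.1 ok
  rw [tb_eq] at a1
  have a5 := Nat.eq_of_beq_eq_true a4
  have hi := ck_lt (n := 16) l0 a1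
  refine ⟨mem_fs.2 ⟨by omega, a1⟩, ?_⟩
  rw [tb_eq, tb_eq] at a3
  unfold posN at a5 ⊢
  rw [tb_eq] at a5 ⊢
  cases h1 : s.rm.testBit s.n <;> cases h2 : s.rm.testBit i <;> rw [h1] at a5 <;>
    rw [h1, h2] at a3
  · exact absurd a3 (by decide)
  · exact ⟨i, s.n, Or.inr ⟨rfl, rfl⟩, h2, h1, rfl, a5⟩
  · exact ⟨s.n, i, Or.inl ⟨rfl, rfl⟩, h1, h2, rfl, a5⟩
  · exact absurd a3 (by decide)

/-- one field at a time. -/
theorem set_emb {K : Type} [Field K] {d : ℕ → K} {E : Disp K} {η : ℕ → K} {z0 z1 rm M n i a b e : ℕ}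
    (l0 : z0 < 65536) (l1 : z1 < 65536) (m0 : Emb (toK d z0 rm M) E φ η)
    (m1 : Emb (toK d z1 rm M) E φ η) (n1 : n ∈ fs z1) (lt : ∀ i ∈ fs z0, i < n)
    (sub : fs z1 ⊆ insert n (fs z0)) (inj : ∀ i ∈ fs z0, φ i ≠ φ n) (hi : i ∈ fs z0)
    (hab : a = n ∧ b = i ∨ a = i ∧ b = n) (ra : rm.testBit a = true) (rb : rm.testBit b = false)
    (h0 : raw M a b = 0) (he : e < 7)
    (ent : E.S (φ a) (φ b) = η a * η b * d e) :
    Emb (toK d z0 rm (Nat.lor M (Nat.shiftLeft e (pos a b)))) E φ η ∧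
      Emb (toK d (Nat.lor z1 (bit i)) rm (Nat.lor M (Nat.shiftLeft e (pos a b)))) E φ η := by
  have i16 := lt16 l0 hi
  have n16 := lt16 l1 n1
  have b16 : b < 16 := by rcases hab with ⟨-, rfl⟩ | ⟨-, rfl⟩ <;> assumption
  have ln : ∀ x y, y < 16 → lane (Nat.lor M (Nat.shiftLeft e (pos a b))) x y =
      if x = a ∧ y = b then e else lane M x y := by
    intro x y hy
    unfold lane
    rw [raw_set (by omega) b16 hy h0]
    split_ifs
    · exact Nat.mod_eq_of_lt he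
    · rfl
  have cs : ∀ x ∈ fs (Nat.lor z1 (bit i)), x = n ∨ x ∈ fs z0 := by
    intro x hx
    rcases (mem_lor_bit i16).1 hx with rfl | c
    · exact Or.inr hi
    · exact mem_insert.1 (sub c)
  have cs' : ∀ x ∈ fs (Nat.lor z1 (bit i)), x ∈ fs z1 ∨ x ∈ fs z0 := fun x hx =>
    (cs x hx).imp (fun c : x = n => c ▸ n1) id
  constructor
  · refine emb_mk m0.inj m0.mem m0.row m0.sq fun x hx y hy c1 c2 => ?_
    rw [ln x y (lt16 l0 hy), if_neg]
    · exact emb_ent m0 hx hy c1 c2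
    · rintro ⟨rfl, rfl⟩
      rcases hab with ⟨c, -⟩ | ⟨-, c⟩
      · exact (lt _ hx).ne c
      · exact (lt _ hy).ne c
  · refine emb_mk (fun x hx y hy c => ?_) (fun x hx => ?_) (fun x hx => ?_) (fun x hx => ?_)
      fun x hx y hy c1 c2 => ?_
    · rcases cs x hx with rfl | c1 <;> rcases cs y hy with c2 | c2
      · exact c2.symm
      · exact absurd c.symm (inj y c2)
      · rw [c2] at c; exact absurd c (inj x c1)
      · exact m0.inj c1 c2 c
    · exact (cs' x hx).elim (m1.mem x) (m0.mem x)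
    · exact (cs' x hx).elim (m1.row x) (m0.row x)
    · exact (cs' x hx).elim (m1.sq x) (m0.sq x)
    · rw [ln x y (lt16 (lor_lt l1 i16) hy)]
      split_ifs with c
      · rw [c.1, c.2]; exact ent
      · have k1 : x ≠ b := fun k => by rw [k, rb] at c1; exact absurd c1 (by decide)
        have k2 : y ≠ a := fun k => by rw [k, ra] at c2; exact absurd c2 (by decide)
        rcases (mem_lor_bit i16).1 hx with c3 | c3 <;> rcases (mem_lor_bit i16).1 hy with c4 | c4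
        · exact emb_ent m0 (c3 ▸ hi) (c4 ▸ hi) c1 c2
        · rcases mem_insert.1 (sub c4) with c5 | c5
          · exfalso; omega
          · exact emb_ent m0 (c3 ▸ hi) c5 c1 c2
        · rcases mem_insert.1 (sub c3) with c5 | c5
          · exfalso; omega
          · exact emb_ent m0 c5 (c4 ▸ hi) c1 c2
        · exact emb_ent m1 c3 c4 c1 c2

theorem set_of {s : Dy} (h : Bs s D H φ ε) {i a b e : ℕ} (hi : i ∈ fs s.z0)
    (hab : a = s.n ∧ b = i ∨ a = i ∧ b = s.n) (ra : s.rm.testBit a = true)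
    (rb : s.rm.testBit b = false) (hp : posN s i = pos a b) (h0 : raw s.M a b = 0) (he : e < 7)
    (e3 : D.S (φ a) (φ b) = ε a * ε b * d3 e) (e4 : H.S (φ a) (φ b) = d4 e) :
    Bs (setE s i e) D H φ ε := by
  obtain ⟨p0, p1⟩ := set_emb h.m0.lt h.m1.lt h.m0.e3 h.m1.e3 h.n1 h.lt h.sub h.inj hi hab ra rb
    h0 he e3
  obtain ⟨q0, q1⟩ := set_emb h.m0.lt h.m1.lt h.m0.e4 h.m1.e4 h.n1 h.lt h.sub h.inj hi hab ra rb
    h0 he (by rw [e4, mul_one, one_mul])
  have i16 := lt16 h.m0.lt hi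
  rw [← hp] at p0 p1 q0 q1
  refine ⟨h.st, ⟨h.m0.lt, p0, q0⟩, ⟨lor_lt h.m1.lt i16, p1, q1⟩, h.h2, h.h3,
    (mem_lor_bit i16).2 (Or.inr h.n1), h.lt, fun x hx => ?_, h.inj⟩
  rcases (mem_lor_bit i16).1 hx with rfl | c
  · exact mem_insert_of_mem hi
  · exact h.sub c

theorem mem_sq {s : Dy} (h : Bs s D H φ ε) {i a : ℕ} (hi : i ∈ fs s.z0) (ha : a = s.n ∨ a = i) :
    φ a ∈ D.Z ∧ ε a * ε a = 1 := by
  rcases ha with rfl | rfl
  · exact ⟨h.m1.e3.mem _ h.n1, h.m1.e3.sq _ h.n1⟩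
  · exact ⟨h.m0.e3.mem _ hi, h.m0.e3.sq _ hi⟩

/-- an element with no nonzero entry may be rescaled. -/
theorem emb_nul {K : Type} [Field K] {L E E' : Disp K} {η η' : ℕ → K} {n : ℕ}
    (h : Emb L E φ η) (hZ : E'.Z = E.Z) (hr : E'.row = E.row) (sq : ∀ i ∈ L.Z, η' i * η' i = 1)
    (hη : ∀ i ∈ L.Z, i ≠ n → η' i = η i) (h0 : n ∈ L.Z → ∀ i ∈ L.Z, L.S i n = 0)
    (hS : ∀ i ∈ L.Z, ∀ j ∈ L.Z, i ≠ n → j ≠ n → E'.S (φ i) (φ j) = E.S (φ i) (φ j))
    (hS0 : ∀ x y, E.S x y = 0 → E'.S x y = 0) : Emb L E' φ η' := by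
  refine ⟨h.inj, fun i hi => hZ ▸ h.mem i hi, fun i hi => hr ▸ h.row i hi, sq,
    fun i hi j hj => ?_⟩
  by_cases c : L.S i j = 0
  · rw [c, mul_zero]
    exact hS0 _ _ (by rw [h.ent i hi j hj, c, mul_zero])
  · have c1 : i ≠ n := by
      rintro rfl; exact c (by rw [L.skew, h0 hi j hj, neg_zero])
    have c2 : j ≠ n := by
      rintro rfl; exact c (h0 hj i hi)
    rw [hS i hi j hj c1 c2, hη i hi c1, hη j hj c2, h.ent i hi j hj]

theorem S_of_sk {K : Type} [Field K] {d : ℕ → K} (hd : d 0 = 0) {z rm M i j : ℕ}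
    (h : sk rm M i j = 0) : (toK d z rm M).S i j = 0 := by
  have k : ∀ a < 7, neg7 a = 0 → a = 0 := by decide
  change (if rm.testBit i = rm.testBit j then 0
    else if rm.testBit i then d (lane M i j) else - d (lane M j i)) = 0
  unfold sk at h
  rw [tb_eq, tb_eq] at h
  cases h1 : rm.testBit i <;> cases h2 : rm.testBit j <;> rw [h1, h2] at h
  · simp
  · have : lane M j i = 0 := k _ (Nat.mod_lt _ (by decide)) h
    simp [this, hd]
  · have : lane M i j = 0 := h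
    simp [this, hd]
  · simp

theorem rescale {s : Dy} (h : Bs s D H φ ε) {k : ℕ} (hk : k = s.n ∨ k ∈ fs s.z0)
    (h0 : k ∈ fs s.z0 → ∀ i ∈ fs s.z0, sk s.rm s.M i k = 0)
    (h1 : k ∈ fs s.z1 → ∀ i ∈ fs s.z1, sk s.rm s.M i k = 0) {σ : F3} (hσ : σ * σ = 1)
    {c : F4} (hc : c ≠ 0) :
    Bs s D (H.scale (Function.update 1 (φ k) c)) φ (Function.update ε k σ) := by
  have hδ : ∀ i, Function.update (1 : ℕ → F4) (φ k) c i ≠ 0 := by
    intro i
    by_cases e : i = φ k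
    · rw [e, Function.update_self]; exact hc
    · rw [Function.update_of_ne e]; exact one_ne_zero
  have key : ∀ z, Mt z s.rm s.M D H φ ε → (∀ i ∈ fs z, i ≠ k → φ i ≠ φ k) →
      (k ∈ fs z → ∀ i ∈ fs z, sk s.rm s.M i k = 0) →
      Mt z s.rm s.M D (H.scale (Function.update 1 (φ k) c)) φ (Function.update ε k σ) := by
    intro z m hne hz
    refine ⟨m.lt, emb_nul (n := k) m.e3 rfl rfl (fun i hi => ?_)
      (fun i _ e => Function.update_of_ne e _ _) (fun k i hi => S_of_sk rfl (hz k i hi))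
      (fun _ _ _ _ _ _ => rfl) fun _ _ e => e, emb_nul (n := k) m.e4 rfl rfl
      (fun _ _ => mul_one _) (fun _ _ _ => rfl) (fun k i hi => S_of_sk rfl (hz k i hi))
      (fun i hi j hj e1 e2 => ?_) fun x y e => ?_⟩
    · by_cases e : i = k
      · rw [e, Function.update_self]; exact hσ
      · rw [Function.update_of_ne e]; exact m.e3.sq i hi
    · change _ * _ * _ = _
      rw [Function.update_of_ne (hne i hi e1), Function.update_of_ne (hne j hj e2)]
      simp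
    · change _ * _ * _ = _
      rw [e, mul_zero]
  have inj : ∀ i, i = s.n ∨ i ∈ fs s.z0 → i ≠ k → φ i ≠ φ k := by
    intro i hi e c
    rcases hi with rfl | hi <;> rcases hk with c1 | c1
    · exact e c1.symm
    · exact h.inj k c1 c.symm
    · rw [c1] at c; exact h.inj i hi c
    · exact e (h.m0.e3.inj hi c1 c)
  exact ⟨h.st.scale hδ, key _ h.m0 (fun i hi => inj i (Or.inr hi)) h0,
    key _ h.m1 (fun i hi => inj i (mem_insert.1 (h.sub hi))) h1,
    h.h2, h.h3, h.n1, h.lt, h.sub, h.inj⟩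

theorem allM_sk {z rm M k : ℕ} (hz : z < 65536)
    (h : allM z (fun i => Nat.beq (sk rm M i k) 0) = true) : ∀ i ∈ fs z, sk rm M i k = 0 := by
  intro i hi
  unfold allM at h
  have := allLt_iff.1 h i (lt16 hz hi)
  rw [tb_eq, (mem_fs.1 hi).2] at this
  exact Nat.eq_of_beq_eq_true this

theorem sel_not {s : Dy} {i : ℕ} (ok : selOK s i = true) : i ∉ fs s.z1 := by
  obtain ⟨-, ok⟩ := andB_iff.1 ok
  obtain ⟨a2, -⟩ := andB_iff.1 ok
  intro c
  rw [tb_eq, (mem_fs.1 c).2] at a2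
  exact absurd a2 (by decide)

/-- rescale one end `k` of the new entry, `l` is the other end. -/
theorem set_scale {s : Dy} (h : Bs s D H φ ε) {i k l : ℕ} (ok : selOK s i = true)
    (hkl : k = s.n ∧ l = i ∨ k = i ∧ l = s.n)
    (h0 : k ∈ fs s.z0 → ∀ i ∈ fs s.z0, sk s.rm s.M i k = 0)
    (h1 : k ∈ fs s.z1 → ∀ i ∈ fs s.z1, sk s.rm s.M i k = 0) :
    Bs (setE s i 0) D H φ ε ∨
      ∃ (δ : ℕ → F4) (ε' : ℕ → F3), (∀ i, δ i ≠ 0) ∧ Bs (setE s i 1) D (H.scale δ) φ ε' := by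
  obtain ⟨hi, a, b, hab, ra, rb, hp, hr⟩ := sel_spec h.m0.lt ok
  obtain ⟨ma, -⟩ := mem_sq h hi (a := a) (hab.imp And.left And.left)
  obtain ⟨mb, -⟩ := mem_sq h hi (a := b) (hab.symm.imp And.right And.right)
  obtain ⟨-, si⟩ := mem_sq h hi (a := l) (hkl.symm.imp And.right And.right)
  by_cases c : D.S (φ a) (φ b) = 0
  · refine Or.inl (set_of h hi hab ra rb hp hr (by decide) ?_ ((h.st.supp ma mb).2 c))
    rw [c]; exact (mul_zero _).symm
  · have c4 : H.S (φ a) (φ b) ≠ 0 := fun k => c ((h.st.supp ma mb).1 k)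
    have k0 : ∀ x : F3, x ≠ 0 → x * x = 1 := by decide
    have hσ : (ε l * D.S (φ a) (φ b)) * (ε l * D.S (φ a) (φ b)) = 1 := by
      linear_combination (D.S (φ a) (φ b) * D.S (φ a) (φ b)) * si + k0 _ c
    have hB := rescale h (k := k) (hkl.imp And.left fun c : k = i ∧ l = s.n => c.1 ▸ hi)
      h0 h1 hσ (inv_ne_zero c4)
    have hn0 := (h.lt i hi).ne
    have hφ0 := h.inj i hi
    have hn : l ≠ k := by omega
    have hφ : φ l ≠ φ k := by
      rcases hkl with ⟨rfl, rfl⟩ | ⟨rfl, rfl⟩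
      · exact hφ0
      · exact hφ0.symm
    have hab' : a = k ∧ b = l ∨ a = l ∧ b = k := by omega
    refine Or.inr ⟨Function.update 1 (φ k) (H.S (φ a) (φ b))⁻¹, _, fun x => ?_,
      set_of hB hi hab ra rb hp hr (by decide) ?_ ?_⟩
    · by_cases e : x = φ k
      · rw [e, Function.update_self]; exact inv_ne_zero c4
      · rw [Function.update_of_ne e]; exact one_ne_zero
    · have e1 : d3 1 = 1 := by decide
      rcases hab' with ⟨rfl, rfl⟩ | ⟨rfl, rfl⟩
      · rw [Function.update_self, Function.update_of_ne hn, e1]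
        linear_combination (-D.S (φ a) (φ b)) * si
      · rw [Function.update_self, Function.update_of_ne hn, e1]
        linear_combination (-D.S (φ a) (φ b)) * si
    · have e1 : d4 1 = 1 := by decide
      change _ * _ * _ = _
      rcases hab' with ⟨rfl, rfl⟩ | ⟨rfl, rfl⟩
      · rw [Function.update_self, Function.update_of_ne hφ, e1, Pi.one_apply, mul_one,
          inv_mul_cancel₀ c4]
      · rw [Function.update_self, Function.update_of_ne hφ, e1, Pi.one_apply, one_mul,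
          inv_mul_cancel₀ c4]

end SBCdAux

open SBCdAux

theorem bs_start {zm rm M n t : ℕ} (st : St D H (φ 2) (φ 3)) (h : Mt zm rm M D H φ ε)
    (h2 : 2 ∈ fs zm) (h3 : 3 ∈ fs zm) (hn : n < 16) (hlt : ∀ i ∈ fs zm, i < n) (ht : t ∈ D.Z)
    (hne : ∀ i ∈ fs zm, φ i ≠ t) :
    Bs (start zm rm M n (D.row t)) D H (Function.update φ n t) (Function.update ε n 1) := by
  have n0 : zm.testBit n = false := by
    by_contra c
    exact lt_irrefl _ (hlt n (mem_fs.2 ⟨by omega, by simpa using c⟩))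
  have e : ∀ a i, (Nat.lor a (bit n)).testBit i = (a.testBit i || decide (n = i)) := by
    intro a i
    rw [← testBit_bit]; exact Nat.testBit_or _ _ _
  cases hr : D.row t
  · refine start_aux st h h2 h3 hlt ht hne (lor_lt (sub_lt h.lt fun i hi => ?_) hn)
      (fun i hi => ?_) (fun i => ?_) ?_
    · rw [tb_cls, Bool.and_eq_true] at hi; exact hi.1
    · rw [tb_rws, (mem_fs.1 hi).2, Bool.true_and]
    · rw [mem_lor_bit hn, hr, mem_fs, mem_fs, tb_cls]
      simp [and_assoc]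
    · rw [tb_rws, n0, hr, Bool.false_and]
  · refine start_aux st h h2 h3 hlt ht hne (lor_lt (sub_lt h.lt fun i hi => ?_) hn)
      (fun i hi => ?_) (fun i => ?_) ?_
    · rw [tb_rws, Bool.and_eq_true] at hi; exact hi.1
    · rw [e, tb_rws, (mem_fs.1 hi).2, Bool.true_and, decide_eq_false (hlt i hi).ne',
        Bool.or_false]
    · rw [mem_lor_bit hn, hr, mem_fs, mem_fs, tb_rws]
      simp [and_assoc]
    · rw [e, hr]; simp

theorem start_z0 (zm rm M n : ℕ) (r : Bool) : (start zm rm M n r).z0 = zm := by cases r <;> rfl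

theorem start_n (zm rm M n : ℕ) (r : Bool) : (start zm rm M n r).n = n := by cases r <;> rfl

theorem Bs.set {s : Dy} (h : Bs s D H φ ε) {i : ℕ} (ok : selOK s i = true) :
    ∃ e < 7, Bs (setE s i e) D H φ ε := by
  obtain ⟨hi, a, b, hab, ra, rb, hp, h0⟩ := sel_spec h.m0.lt ok
  obtain ⟨ma, sa⟩ := mem_sq h hi (a := a) (hab.imp And.left And.left)
  obtain ⟨mb, sb⟩ := mem_sq h hi (a := b) (hab.symm.imp And.right And.right)
  have k1 : ∀ x y : F3, x * x = 1 → y * y = 1 → ∀ z : F3,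
      (∃ e < 7, d3 e = x * y * z ∧ d4 e = 0) ∨ z ≠ 0 := by decide
  have k2 : ∀ x y : F3, x * x = 1 → y * y = 1 → ∀ z : F3, z ≠ 0 → ∀ w : F4, w ≠ 0 →
      ∃ e < 7, d3 e = x * y * z ∧ d4 e = w := by decide
  have k3 : ∃ e < 7, d3 e = ε a * ε b * D.S (φ a) (φ b) ∧ d4 e = H.S (φ a) (φ b) := by
    by_cases c : D.S (φ a) (φ b) = 0
    · rw [(h.st.supp ma mb).2 c]
      exact (k1 _ _ sa sb _).resolve_right (not_not.2 c)
    · exact k2 _ _ sa sb _ c _ fun k => c ((h.st.supp ma mb).1 k)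
  obtain ⟨e, he, e3, e4⟩ := k3
  refine ⟨e, he, set_of h hi hab ra rb hp h0 he ?_ e4.symm⟩
  rw [e3]
  linear_combination (-(ε b * ε b) * D.S (φ a) (φ b)) * sa - D.S (φ a) (φ b) * sb

theorem Bs.set0 {s : Dy} (h : Bs s D H φ ε) {i : ℕ} (ok : selOK s i = true)
    (h0 : nulB s = true) :
    Bs (setE s i 0) D H φ ε ∨
      ∃ (δ : ℕ → F4) (ε' : ℕ → F3), (∀ i, δ i ≠ 0) ∧ Bs (setE s i 1) D (H.scale δ) φ ε' :=
  set_scale h ok (Or.inl ⟨rfl, rfl⟩) (fun c => absurd (h.lt _ c) (lt_irrefl _))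
    fun _ => allM_sk h.m1.lt h0

theorem Bs.set1 {s : Dy} (h : Bs s D H φ ε) {i : ℕ} (ok : selOK s i = true)
    (h0 : nul1B s i = true) :
    Bs (setE s i 0) D H φ ε ∨
      ∃ (δ : ℕ → F4) (ε' : ℕ → F3), (∀ i, δ i ≠ 0) ∧ Bs (setE s i 1) D (H.scale δ) φ ε' :=
  set_scale h ok (Or.inr ⟨rfl, rfl⟩) (fun _ => allM_sk h.m0.lt h0)
    fun c => absurd c (sel_not ok)

theorem chk_sound {α : Type} {leaf nx : α → Dy → ℕ → Bool} {nxa : α → Dy → α}
    (Q : α → ℕ → ℕ → Disp F3 → Disp F4 → (ℕ → ℕ) → Prop)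
    (hsc : ∀ a z n D H φ (δ : ℕ → F4), (∀ i, δ i ≠ 0) → Q a z n D H φ → Q a z n D (H.scale δ) φ)
    (hleaf : ∀ a s N D H φ ε, leaf a s N = true → Bs s D H φ ε → Q a s.z0 s.n D H φ → False)
    (hnx : ∀ a s N D H φ ε, full s = true → s.n + 1 < 16 → nx a s N = true → Bs s D H φ ε →
      Q a s.z0 s.n D H φ → ∃ t ∈ D.Z, (∀ i ∈ fs s.z1, φ i ≠ t) ∧
        Q (nxa a s) s.z1 (s.n + 1) D H (Function.update φ (s.n + 1) t))
    (t : Ct) : ∀ a s D H φ ε, chk leaf nx nxa t a s = true → Bs s D H φ ε →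
      Q a s.z0 s.n D H φ → False := by
  induction t with
  | lf N => exact fun a s D H φ ε ok h q => hleaf a s N D H φ ε ok h q
  | sel i t0 t1 t2 t3 t4 t5 t6 i0 i1 i2 i3 i4 i5 i6 =>
    intro a s D H φ ε ok h q
    obtain ⟨o, ok⟩ := andB_iff.1 ok
    obtain ⟨o0, ok⟩ := andB_iff.1 ok
    obtain ⟨o1, ok⟩ := andB_iff.1 ok
    obtain ⟨o2, ok⟩ := andB_iff.1 ok
    obtain ⟨o3, ok⟩ := andB_iff.1 ok
    obtain ⟨o4, ok⟩ := andB_iff.1 ok
    obtain ⟨o5, o6⟩ := andB_iff.1 ok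
    obtain ⟨e, he, hb⟩ := h.set o
    interval_cases e
    exacts [i0 a _ D H φ ε o0 hb q, i1 a _ D H φ ε o1 hb q, i2 a _ D H φ ε o2 hb q,
      i3 a _ D H φ ε o3 hb q, i4 a _ D H φ ε o4 hb q, i5 a _ D H φ ε o5 hb q,
      i6 a _ D H φ ε o6 hb q]
  | sel0 i t0 t1 i0 i1 =>
    intro a s D H φ ε ok h q
    obtain ⟨o, ok⟩ := andB_iff.1 ok
    obtain ⟨o', ok⟩ := andB_iff.1 ok
    obtain ⟨o0, o1⟩ := andB_iff.1 ok
    rcases h.set0 o o' with hb | ⟨δ, ε', hδ, hb⟩
    · exact i0 a _ D H φ ε o0 hb q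
    · exact i1 a _ D _ φ ε' o1 hb (hsc _ _ _ _ _ _ δ hδ q)
  | sel1 i t0 t1 i0 i1 =>
    intro a s D H φ ε ok h q
    obtain ⟨o, ok⟩ := andB_iff.1 ok
    obtain ⟨o', ok⟩ := andB_iff.1 ok
    obtain ⟨o0, o1⟩ := andB_iff.1 ok
    rcases h.set1 o o' with hb | ⟨δ, ε', hδ, hb⟩
    · exact i0 a _ D H φ ε o0 hb q
    · exact i1 a _ D _ φ ε' o1 hb (hsc _ _ _ _ _ _ δ hδ q)
  | nxt N t0 t1 i0 i1 =>
    intro a s D H φ ε ok h q
    obtain ⟨o1, ok⟩ := andB_iff.1 ok
    obtain ⟨o2, ok⟩ := andB_iff.1 ok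
    obtain ⟨o3, ok⟩ := andB_iff.1 ok
    obtain ⟨o4, o5⟩ := andB_iff.1 ok
    have hn : s.n + 1 < 16 := Nat.blt_eq ▸ o2
    obtain ⟨t, ht, hne, q'⟩ := hnx a s N D H φ ε o1 hn o3 h q
    have hz : s.z1 = Nat.lor s.z0 (bit s.n) := Nat.eq_of_beq_eq_true o1
    have hs : ∀ i ∈ fs s.z0, i ∈ fs s.z1 := fun i hi =>
      hz ▸ (mem_lor_bit (by omega)).2 (Or.inr hi)
    have hb := bs_start h.st h.m1 (hs 2 h.h2) (hs 3 h.h3) hn (fun i hi => by
      rcases mem_insert.1 (h.sub hi) with c | c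
      · omega
      · have := h.lt i c
        omega) ht hne
    cases hr : D.row t <;> rw [hr] at hb
    · exact i1 _ _ D H _ _ o5 hb q'
    · exact i0 _ _ D H _ _ o4 hb q'

end ML

end Pool.Agent.Lib.MP_c69b6d_co.F
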