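import Pool.Agent.Lib.MP_c69b6d_co.F.SBCc
import Pool.Agent.Lib.MP_c69b6d_co.F.SBCd

/-! Stage B checker: walks and classes of seeds. -/

namespace Pool.Agent.Lib.MP_c69b6d_co.F

open Finset Disp

namespace ML

variable {D : Disp F3} {H : Disp F4} {φ : ℕ → ℕ} {ε : ℕ → F3}

theorem sbe_img {S : Finset ℕ} {n : ℕ} (t : ℕ) (h : n ∉ S) :
    S.image (Function.update φ n t) = S.image φ :=
  image_congr fun i hi => Function.update_of_ne (fun e : i = n => h (e ▸ hi)) _ _

theorem sbe_le_lor (a b : ℕ) : a ≤ Nat.lor a b := Nat.left_le_or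

theorem sbe_le_lor' (a b : ℕ) : b ≤ Nat.lor a b := Nat.right_le_or

theorem sbe_lor_lt {a b : ℕ} (ha : a < 65536) (hb : b < 65536) : Nat.lor a b < 65536 :=
  Nat.or_lt_two_pow (n := 16) ha hb

theorem sbe_bit_lt {i : ℕ} (hi : i < 16) : bit i < 65536 := by
  rw [bit_eq]; exact Nat.pow_lt_pow_right (by norm_num) hi

theorem sbe_fs0 : fs 0 = ∅ := by
  ext i; simp [mem_fs]

theorem sbe_disj {a b : ℕ} (h : Nat.land a b = 0) : Disjoint (fs a) (fs b) := by
  rw [disjoint_iff_inter_eq_empty, ← fs_land, h, sbe_fs0]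

/-- the content of `Nd.ok`. -/
structure OKP (T : Nd) (a b : ℕ) : Prop where
  lt : T.zm < 65536
  eq : Nat.lor T.A (Nat.lor T.B T.O) = T.zm
  ltA : T.A < 65536
  ltB : T.B < 65536
  ltO : T.O < 65536
  cov : fs T.zm = fs T.A ∪ fs T.B ∪ fs T.O
  dAB : Disjoint (fs T.A) (fs T.B)
  dO : Disjoint (fs T.A ∪ fs T.B) (fs T.O)
  h2 : 2 ∈ fs T.zm
  h3 : 3 ∈ fs T.zm
  c5 : 5 ≤ (fs T.zm).card
  cA : T.k < (fs T.A).card
  cB : T.k < (fs T.B).card
  oo : (fs T.O = {2, 3} ∧ T.k = 0) ∨ ((fs T.O = {2} ∨ fs T.O = {3}) ∧ T.k = 1)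
  le : leL T.k T.A T.B T.rm T.M a b = true

theorem okp {T : Nd} {a b : ℕ} (h : T.ok a b = true) : OKP T a b := by
  unfold Nd.ok at h
  simp only [andB_iff, orB_iff, Nat.beq_eq, Nat.blt_eq, Nat.ble_eq] at h
  obtain ⟨h1, h2, h3, h4, h5, h6, h7, h8, h9, h10⟩ := h
  have lA : T.A < 65536 := lt_of_le_of_lt (h2 ▸ sbe_le_lor _ _) h1
  have lBO : Nat.lor T.B T.O < 65536 := lt_of_le_of_lt (h2 ▸ sbe_le_lor' _ _) h1
  have lB : T.B < 65536 := lt_of_le_of_lt (sbe_le_lor _ _) lBO
  have lO : T.O < 65536 := lt_of_le_of_lt (sbe_le_lor' _ _) lBO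
  have e12 : fs 12 = {2, 3} := by decide
  have e4 : fs 4 = {2} := by decide
  have e8 : fs 8 = {3} := by decide
  have h23 : fs 12 ⊆ fs T.zm := by rw [← h5, fs_land]; exact inter_subset_left
  refine ⟨h1, h2, lA, lB, lO, ?_, sbe_disj h3, ?_, h23 (by rw [e12]; simp), h23 (by rw [e12]; simp),
    cnt_eq h1 ▸ h6, cnt_eq lA ▸ h7, cnt_eq lB ▸ h8, ?_, h10⟩
  · rw [← h2, fs_lor, fs_lor, union_assoc]
  · rw [← fs_lor]; exact sbe_disj h4
  · rcases h9 with ⟨e, k⟩ | ⟨e | e, k⟩
    · exact Or.inl ⟨e ▸ e12, k⟩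
    · exact Or.inr ⟨Or.inl (e ▸ e4), k⟩
    · exact Or.inr ⟨Or.inr (e ▸ e8), k⟩

theorem OKP.sA {T : Nd} {a b : ℕ} (h : OKP T a b) : fs T.A ⊆ fs T.zm := by
  rw [h.cov]; exact subset_union_left.trans subset_union_left

theorem OKP.sB {T : Nd} {a b : ℕ} (h : OKP T a b) : fs T.B ⊆ fs T.zm := by
  rw [h.cov]; exact subset_union_right.trans subset_union_left

theorem OKP.sO {T : Nd} {a b : ℕ} (h : OKP T a b) : fs T.O ⊆ fs T.zm := by
  rw [h.cov]; exact subset_union_right

theorem OKP.o23 {T : Nd} {a b : ℕ} (h : OKP T a b) : fs T.O ⊆ {2, 3} := by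
  rcases h.oo with ⟨e, _⟩ | ⟨e | e, _⟩ <;> rw [e] <;> simp

/-- the two sides of a seed inside a state. -/
theorem OKP.sides {T : Nd} {a b : ℕ} (h : OKP T a b) (e : Emb (toK d3 T.zm T.rm T.M) D φ ε) :
    (fs T.A).image φ ⊆ (gr D φ T.O).Z ∧ (fs T.B).image φ ⊆ (gr D φ T.O).Z ∧
      Disjoint ((fs T.A).image φ) ((fs T.B).image φ) ∧
      D.lam ((fs T.A).image φ) ((fs T.B).image φ) = T.k := by
  have inj : Set.InjOn φ (fs T.zm) := e.inj
  have key : ∀ S : Finset ℕ, S ⊆ fs T.A ∪ fs T.B → S.image φ ⊆ (gr D φ T.O).Z := by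
    intro S hS x hx
    obtain ⟨i, hi, rfl⟩ := mem_image.1 hx
    have hiz : i ∈ fs T.zm := union_subset h.sA h.sB (hS hi)
    refine mem_sdiff.2 ⟨e.mem i hiz, fun k => ?_⟩
    obtain ⟨j, hj, ej⟩ := mem_image.1 k
    have := inj (h.sO hj) hiz ej
    subst this
    exact disjoint_left.1 h.dO (hS hi) hj
  refine ⟨key _ subset_union_left, key _ subset_union_right, ?_,
    leL_sound h.lt e h.sA h.sB h.ltA h.ltB h.le⟩
  rw [disjoint_left]
  intro x hx hy
  obtain ⟨i, hi, rfl⟩ := mem_image.1 hx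
  obtain ⟨j, hj, ej⟩ := mem_image.1 hy
  have := inj (h.sB hj) (h.sA hi) ej
  subst this
  exact disjoint_left.1 h.dAB hi hj

theorem sbe_full {s : Dy} (hf : full s = true) (hn : s.n < 32) :
    fs s.z1 = insert s.n (fs s.z0) := by
  unfold full at hf
  rw [Nat.beq_eq] at hf
  rw [hf, fs_lor, fs_bit hn, union_comm, insert_eq]

theorem Bs.le {s : Dy} (h : Bs s D H φ ε) {i : ℕ} (hi : i ∈ fs s.z1) : i ≤ s.n := by
  rcases mem_insert.1 (h.sub hi) with e | e
  · exact e.le
  · exact (h.lt i e).le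

theorem QW.sA {N z0 n : ℕ} {a : Wk} (q : QW N a z0 n D φ) : fs a.A ⊆ fs z0 := by
  rw [q.cov]; exact subset_union_left.trans subset_union_left

theorem QW.sB {N z0 n : ℕ} {a : Wk} (q : QW N a z0 n D φ) : fs a.B ⊆ fs z0 := by
  rw [q.cov]; exact subset_union_right.trans subset_union_left

theorem QW.sO {N z0 n : ℕ} {a : Wk} (q : QW N a z0 n D φ) : fs a.O ⊆ fs z0 := by
  rw [q.cov]; exact subset_union_right

/-- the new element may join the side `A`. -/
theorem sbe_hw {N y c m : ℕ} {a : Wk} {s : Dy} (hf : full s = true) (h : Bs s D H φ ε)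
    (q : QW N a s.z0 s.n D φ) (hy : y < 32) (ok : spanL a.B a.A s.rm s.M s.n y c = true)
    (b : BlkAt (gr D φ a.O) a.k ((fs a.A0).image φ) ((fs a.A).image φ) ((fs a.B).image φ) m
      (φ s.n)) :
    (gr D φ a.O).lam (insert (φ s.n) ((fs a.A).image φ)) ((fs a.B).image φ) ≤ a.k := by
  have hz := sbe_full hf (mem_fs.1 h.n1).1
  have := spanL_sound h (hz ▸ q.sB.trans (subset_insert _ _)) q.sB q.sA hy ok
  rw [D.lam_symm, D.lam_symm ((fs a.B).image φ)] at this
  exact this.trans b.lam.le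

theorem zDy_z1 (s : Dy) :
    (zDy s).z1 = Nat.lor (Nat.lor s.z1 (bit (s.n + 1))) (bit s.n) := by
  unfold zDy; cases tb s.rm s.n <;> rfl

theorem zDy_true {s : Dy} (h : s.rm.testBit s.n = true) (hz : s.z1.testBit (s.n + 1) = false) :
    (zDy s).rm = rws s.z1 s.rm ∧
      (zDy s).M = Nat.lor s.M (Nat.shiftLeft 1 (pos s.n (s.n + 1))) := by
  unfold zDy
  rw [tb_eq, h, cnd_true]
  refine ⟨rfl, ?_⟩
  have : tb (rws s.z1 s.rm) (s.n + 1) = false := by
    rw [tb_eq]
    change (s.z1 &&& s.rm).testBit _ = false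
    rw [Nat.testBit_and, hz, Bool.false_and]
  change Nat.lor s.M (Nat.shiftLeft 1 (cnd (tb (rws s.z1 s.rm) (s.n + 1)) _ _)) = _
  rw [this, cnd_false]

theorem zDy_false {s : Dy} (h : s.rm.testBit s.n = false) :
    (zDy s).rm = Nat.lor (rws s.z1 s.rm) (bit (s.n + 1)) ∧
      (zDy s).M = Nat.lor s.M (Nat.shiftLeft 1 (pos (s.n + 1) s.n)) := by
  unfold zDy
  rw [tb_eq, h, cnd_false]
  refine ⟨rfl, ?_⟩
  have : tb (Nat.lor (rws s.z1 s.rm) (bit (s.n + 1))) (s.n + 1) = true := by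
    rw [tb_eq]
    change (rws s.z1 s.rm ||| bit (s.n + 1)).testBit _ = true
    rw [Nat.testBit_or, testBit_bit, decide_eq_true rfl, Bool.or_true]
  change Nat.lor s.M (Nat.shiftLeft 1
    (cnd (tb (Nat.lor (rws s.z1 s.rm) (bit (s.n + 1))) (s.n + 1)) _ _)) = _
  rw [this, cnd_true]

/-- rows and lanes of the display with the test element. -/
theorem zDy_spec {s : Dy} (n1 : s.n ∈ fs s.z1) (lt : s.z1 < 65536)
    (hle : ∀ i ∈ fs s.z1, i ≤ s.n) (hn : s.n + 1 < 16)
    (bl : blank s.z1 s.M (s.n + 1) = true) :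
    (∀ i ∈ fs s.z1, (zDy s).rm.testBit i = s.rm.testBit i) ∧
    (zDy s).rm.testBit (s.n + 1) = !s.rm.testBit s.n ∧
    (∀ i ∈ fs s.z1, ∀ j ∈ fs s.z1, lane (zDy s).M i j = lane s.M i j) ∧
    (s.rm.testBit s.n = true → ∀ i ∈ fs s.z1,
      lane (zDy s).M i (s.n + 1) = if i = s.n then 1 else 0) ∧
    (s.rm.testBit s.n = false → ∀ i ∈ fs s.z1,
      lane (zDy s).M (s.n + 1) i = if i = s.n then 1 else 0) := by
  have hz : s.z1.testBit (s.n + 1) = false := by
    cases e : s.z1.testBit (s.n + 1)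
    · rfl
    · have := hle _ (mem_fs.2 ⟨by omega, e⟩); omega
  have b0 : ∀ i ∈ fs s.z1, raw s.M i (s.n + 1) = 0 ∧ raw s.M (s.n + 1) i = 0 := by
    intro i hi
    obtain ⟨h1, h2⟩ := (mem_fs16 lt).1 hi
    have := allM_iff.1 bl i h1 h2
    simpa only [andB_iff, Nat.beq_eq] using this
  have l16 : ∀ i ∈ fs s.z1, i < 16 := fun i hi => ((mem_fs16 lt).1 hi).1
  have ne : ∀ i ∈ fs s.z1, i ≠ s.n + 1 := fun i hi e => by have := hle i hi; omega
  have rw1 : ∀ i ∈ fs s.z1, (rws s.z1 s.rm).testBit i = s.rm.testBit i := by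
    intro i hi
    change (s.z1 &&& s.rm).testBit _ = _
    rw [Nat.testBit_and, (mem_fs.1 hi).2, Bool.true_and]
  cases hr : s.rm.testBit s.n
  · obtain ⟨e1, e2⟩ := zDy_false hr
    have hraw := fun i' j' hj' => raw_set (M := s.M) (e := 1) (i := s.n + 1) (j := s.n) (i' := i')
      (j' := j') (by norm_num) (by omega) hj' (b0 _ n1).2
    rw [e1, e2]
    refine ⟨fun i hi => ?_, ?_, fun i hi j hj => ?_, fun k => (by cases k), fun _ i hi => ?_⟩
    · change (rws s.z1 s.rm ||| bit (s.n + 1)).testBit _ = _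
      rw [Nat.testBit_or, testBit_bit, decide_eq_false (ne i hi).symm, Bool.or_false, rw1 i hi]
    · change (rws s.z1 s.rm ||| bit (s.n + 1)).testBit _ = _
      rw [Nat.testBit_or, testBit_bit, decide_eq_true rfl, Bool.or_true]; rfl
    · unfold lane
      rw [hraw i j (l16 j hj), if_neg (fun k => ne i hi k.1)]
    · unfold lane
      rw [hraw _ i (l16 i hi), (b0 i hi).2]
      by_cases e : i = s.n <;> simp [e]
  · obtain ⟨e1, e2⟩ := zDy_true hr hz
    have hraw := fun i' j' hj' => raw_set (M := s.M) (e := 1) (i := s.n) (j := s.n + 1) (i' := i')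
      (j' := j') (by norm_num) hn hj' (b0 _ n1).1
    rw [e1, e2]
    refine ⟨rw1, ?_, fun i hi j hj => ?_, fun _ i hi => ?_, fun k => by cases k⟩
    · change (s.z1 &&& s.rm).testBit _ = _
      rw [Nat.testBit_and, hz, Bool.false_and]; rfl
    · unfold lane
      rw [hraw i j (l16 j hj), if_neg (fun k => ne j hj k.2)]
    · unfold lane
      rw [hraw i _ hn, (b0 i hi).1]
      by_cases e : i = s.n <;> simp [e]

theorem zDy_fs {s : Dy} (n1 : s.n ∈ fs s.z1) (hn : s.n + 1 < 16) :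
    fs (zDy s).z1 = insert (s.n + 1) (fs s.z1) := by
  rw [zDy_z1, fs_lor, fs_lor, fs_bit (by omega), fs_bit (by omega)]
  ext i
  simp only [mem_union, mem_singleton, mem_insert]
  constructor
  · rintro ((h | h) | h)
    · exact Or.inr h
    · exact Or.inl h
    · exact Or.inr (h ▸ n1)
  · rintro (h | h)
    · exact Or.inl (Or.inr h)
    · exact Or.inl (Or.inl h)

/-- the entries of the test element. -/
def zv {K : Type} [Field K] (w : ℕ) (r : Bool) (e : K) : ℕ → K :=
  fun i => if i = w then (if r = true then e else - e) else 0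

theorem emb_z {K : Type} [Field K] {d : ℕ → K} (d0 : d 0 = 0) (d1 : d 1 = 1) {E : Disp K}
    {η : ℕ → K} {s : Dy} (he : Emb (toK d s.z1 s.rm s.M) E φ η) (n1 : s.n ∈ fs s.z1)
    (lt : s.z1 < 65536) (hle : ∀ i ∈ fs s.z1, i ≤ s.n) (hn : s.n + 1 < 16)
    (bl : blank s.z1 s.M (s.n + 1) = true) {z : ℕ} (hz : z ∉ E.Z) :
    Emb (toK d (zDy s).z1 (zDy s).rm (zDy s).M)
      (E.addEl z (!s.rm.testBit s.n) (zv (φ s.n) (s.rm.testBit s.n) (η s.n)))
      (Function.update φ (s.n + 1) z) (Function.update η (s.n + 1) 1) := by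
  obtain ⟨a1, a2, a3, a4, a5⟩ := zDy_spec n1 lt hle hn bl
  have eZ : (toK d (zDy s).z1 (zDy s).rm (zDy s).M).Z = insert (s.n + 1) (fs s.z1) := zDy_fs n1 hn
  have ne : ∀ i ∈ fs s.z1, i ≠ s.n + 1 := fun i hi e => by have := hle i hi; omega
  have mem : ∀ i ∈ fs s.z1, φ i ∈ E.Z := he.mem
  have nz : ∀ i ∈ fs s.z1, φ i ≠ z := fun i hi e => hz (e ▸ mem i hi)
  have inj : Set.InjOn φ (fs s.z1) := he.inj
  have row : ∀ i ∈ fs s.z1, E.row (φ i) = s.rm.testBit i := he.row
  have col : ∀ i ∈ fs s.z1, (E.addEl z (!s.rm.testBit s.n)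
      (zv (φ s.n) (s.rm.testBit s.n) (η s.n))).S (φ i) z =
      η i * (toK d (zDy s).z1 (zDy s).rm (zDy s).M).S i (s.n + 1) := by
    intro i hi
    simp only [addEl, toK, nz i hi, if_false, if_true, row i hi, a1 i hi, a2, zv]
    by_cases e : i = s.n
    · subst e
      cases hr : s.rm.testBit s.n
      · simp [a5 hr _ hi, d1]
      · simp [a4 hr _ hi, d1]
    · have e' : φ i ≠ φ s.n := fun k => e (inj hi n1 k)
      cases hr : s.rm.testBit s.n
      · cases hr' : s.rm.testBit i <;> simp [a5 hr _ hi, e, e', d0]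
      · cases hr' : s.rm.testBit i <;> simp [a4 hr _ hi, e, e', d0]
  refine ⟨?_, ?_, ?_, ?_, ?_⟩
  · rw [eZ]
    intro i hi j hj e
    rcases mem_insert.1 hi with rfl | hi <;> rcases mem_insert.1 hj with rfl | hj
    · rfl
    · rw [Function.update_self, Function.update_of_ne (ne j hj)] at e
      exact absurd e.symm (nz j hj)
    · rw [Function.update_self, Function.update_of_ne (ne i hi)] at e
      exact absurd e (nz i hi)
    · rw [Function.update_of_ne (ne i hi), Function.update_of_ne (ne j hj)] at e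
      exact inj hi hj e
  · rw [eZ]
    intro i hi
    rcases mem_insert.1 hi with rfl | hi
    · rw [Function.update_self]; exact mem_insert_self _ _
    · rw [Function.update_of_ne (ne i hi)]; exact mem_insert_of_mem (mem i hi)
  · rw [eZ]
    intro i hi
    rcases mem_insert.1 hi with rfl | hi
    · rw [Function.update_self]; simp only [addEl, toK, if_true, a2]
    · rw [Function.update_of_ne (ne i hi)]
      simp only [addEl, toK, nz i hi, if_false, row i hi, a1 i hi]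
  · rw [eZ]
    intro i hi
    rcases mem_insert.1 hi with rfl | hi
    · rw [Function.update_self, one_mul]
    · rw [Function.update_of_ne (ne i hi)]; exact he.sq i hi
  · rw [eZ]
    intro i hi j hj
    rcases mem_insert.1 hi with rfl | hi <;> rcases mem_insert.1 hj with rfl | hj
    · rw [Disp.bip _ _ _ rfl, Disp.bip _ _ _ rfl, mul_zero]
    · rw [Function.update_self, Function.update_self, Function.update_of_ne (ne j hj),
        Function.update_of_ne (ne j hj), Disp.skew, col j hj,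
        (toK d (zDy s).z1 (zDy s).rm (zDy s).M).skew (s.n + 1) j]
      ring
    · rw [Function.update_self, Function.update_self, Function.update_of_ne (ne i hi),
        Function.update_of_ne (ne i hi), col i hi, mul_one]
    · rw [Function.update_of_ne (ne i hi), Function.update_of_ne (ne j hj),
        Function.update_of_ne (ne i hi), Function.update_of_ne (ne j hj),
        (agree_addEl E hz _ _).2 _ (mem i hi) _ (mem j hj), he.ent i hi j hj]
      simp only [toK, a1 i hi, a1 j hj, a3 i hi j hj, a3 j hj i hi]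

theorem shL_sound {tab : List Nd} {b' N c : ℕ} {a : Wk} {s : Dy}
    (hok : ∀ i < b', (nth tab i).OK) (ih : ∀ i < b', ∀ m < N, NoBlk (nth tab i) m)
    (ok : shL tab b' a s c = true) (h : Bs s D H φ ε) (q : QW N a s.z0 s.n D φ) : False := by
  unfold shL sh2 at ok
  simp only [andB_iff, Nat.beq_eq, Nat.blt_eq, Nat.succ_eq_add_one] at ok
  obtain ⟨hf, hn, bl, hi, sp, oX, o⟩ := ok
  obtain ⟨ta, tb', oka⟩ := hok _ hi
  have p := okp oka
  have ih' := ih _ hi
  generalize nth tab (Nat.land c 63) = T at *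
  generalize Nat.land (Nat.shiftRight c 15) 65535 = X at *
  obtain ⟨m, hm, bk⟩ := q.blk
  have hw := sbe_hw hf h q ((nib_lt _ _).trans (by norm_num)) sp bk
  have n32 : s.n < 32 := by omega
  have hz := sbe_full hf n32
  have s01 : fs s.z0 ⊆ fs s.z1 := hz ▸ subset_insert _ _
  have eA : fs (Nat.lor a.A (bit s.n)) = insert s.n (fs a.A) := by
    rw [fs_lor, fs_bit n32, union_comm, insert_eq]
  have sX : fs X ⊆ insert s.n (fs a.A) := by rw [← eA, ← oX, fs_land]; exact inter_subset_right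
  have sA1 : insert s.n (fs a.A) ⊆ fs s.z1 := insert_subset h.n1 (q.sA.trans s01)
  have sB1 : fs a.B ⊆ fs s.z1 := q.sB.trans s01
  have out : ∀ S : Finset ℕ, S ⊆ fs s.z1 → s.n + 1 ∉ S := fun S hS k => by
    have := h.le (hS k); omega
  obtain ⟨z, hzD⟩ := Infinite.exists_notMem_finset D.Z
  have hzH : z ∉ H.Z := h.st.hZ ▸ hzD
  have e3 := emb_z (d := d3) (by decide) (by decide) h.m1.e3 h.n1 h.m1.lt (fun i hi => h.le hi) hn
    bl hzD
  have e4 := emb_z (d := d4) (by decide) (by decide) h.m1.e4 h.n1 h.m1.lt (fun i hi => h.le hi) hn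
    bl hzH
  have e1 : Function.update (fun _ : ℕ => (1 : F4)) (s.n + 1) 1 = fun _ => 1 :=
    Function.update_eq_self (s.n + 1) (fun _ : ℕ => (1 : F4))
  rw [e1] at e4
  have ltz : (zDy s).z1 < 65536 := by
    rw [zDy_z1]
    exact sbe_lor_lt (sbe_lor_lt h.m1.lt (sbe_bit_lt hn)) (sbe_bit_lt (by omega))
  have mz : Mt (zDy s).z1 (zDy s).rm (zDy s).M _ _ _ _ := ⟨ltz, e3, e4⟩
  have ezz := zDy_fs h.n1 hn
  have aD := (agree_addEl D hzD (!s.rm.testBit s.n) (zv (φ s.n) (s.rm.testBit s.n) (ε s.n))).symm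
  have aH := (agree_addEl H hzD (!s.rm.testBit s.n) (zv (φ s.n) (s.rm.testBit s.n) 1)).symm
  have h0 : ∀ i ∈ (fs a.A).image φ,
      (D.addEl z (!s.rm.testBit s.n) (zv (φ s.n) (s.rm.testBit s.n) (ε s.n))).S i z = 0 := by
    intro i hi
    have h1 : i ≠ z := fun e => hzD (e ▸ (mem_sdiff.1 (bk.sX hi)).1)
    have h2 : i ≠ φ s.n := fun e => bk.tail.mem.2.1 (e ▸ hi)
    simp [addEl, zv, h1, h2]
  generalize D.addEl z (!s.rm.testBit s.n) (zv (φ s.n) (s.rm.testBit s.n) (ε s.n)) = Dz at *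
  generalize H.addEl z (!s.rm.testBit s.n) (zv (φ s.n) (s.rm.testBit s.n) 1) = Hz at *
  have hU : ∀ U : ℕ, fs U ⊆ fs s.z1 →
      (fs (cor U) ∩ fs (zDy s).z1).image (Function.update φ (s.n + 1) z) ⊆
        core D (φ 2) (φ 3) ∩ (fs U).image φ := by
    intro U hU x hx
    obtain ⟨i, hi, rfl⟩ := mem_image.1 hx
    have h1 := (mem_cor.1 (mem_inter.1 hi).1).1
    rw [Function.update_of_ne fun e : i = s.n + 1 => out _ hU (e ▸ h1)]
    exact mem_inter.2 ⟨cor_sub h.m1 h.sep hU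
      (mem_image_of_mem _ (mem_inter.2 ⟨(mem_inter.1 hi).1, hU h1⟩)), mem_image_of_mem _ h1⟩
  obtain ⟨rm1, M1, N1, Dz1, Hz1, j1, m1, o⟩ := pvsN_sound mz o
  obtain ⟨rm2, M2, F, Dz2, Hz2, j2, m2, o⟩ := pvsN_sound m1 o
  have u1 := hU _ (eA ▸ sA1)
  have u2 := hU (Nat.lor X a.B) (by rw [fs_lor]; exact union_subset (sX.trans sA1) sB1)
  rw [eA, image_insert] at u1
  rw [fs_lor, image_union] at u2
  have cZ := core_sub D (φ 2) (φ 3)
  obtain ⟨D1, H1, k1, a31, a41⟩ := j1.agree ((u1.trans inter_subset_left).trans cZ) aD aH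
  obtain ⟨D2, H2, k2, a32, a42⟩ := j2.agree ((u2.trans inter_subset_left).trans cZ) a31 a41
  have st1 := k1.st (u1.trans inter_subset_left) h.st
  have st2 := k2.st (by rw [core_reachIn k1.reachIn]; exact u2.trans inter_subset_left) st1
  have Z2 : D2.Z = D.Z := k2.reachIn.Z_eq.trans k1.reachIn.Z_eq
  unfold sh3 at o
  simp only [andB_iff, Nat.beq_eq] at o
  obtain ⟨uv, mt, ek, iO, iX, iB, gt⟩ := o
  obtain ⟨δ, f, ε', hδ, mT⟩ := mtB_sound m2 mt
  have fO : (fs T.O).image (psi F) = fs a.O := by rw [← fs_img p.ltO, iO]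
  have fAB : ((fs T.A).image (psi F) = fs X ∧ (fs T.B).image (psi F) = fs a.B) ∨
      ((fs T.B).image (psi F) = fs X ∧ (fs T.A).image (psi F) = fs a.B) := by
    rw [← fs_img p.ltA, ← fs_img p.ltB]
    cases hfl : tb c 6
    · rw [hfl, cnd_false] at iX iB; exact Or.inl ⟨by rw [iX], by rw [iB]⟩
    · rw [hfl, cnd_true] at iX iB; exact Or.inr ⟨by rw [iX], by rw [iB]⟩
  have sT : ∀ i ∈ fs T.zm, psi F i ∈ fs s.z1 := by
    intro i hi
    have h1 := mem_image_of_mem (psi F) hi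
    rw [p.cov, image_union, image_union, fO] at h1
    refine union_subset (union_subset ?_ ?_) (q.sO.trans s01) h1
    · rcases fAB with ⟨e, _⟩ | ⟨_, e⟩ <;> rw [e]
      · exact sX.trans sA1
      · exact sB1
    · rcases fAB with ⟨_, e⟩ | ⟨e, _⟩ <;> rw [e]
      · exact sB1
      · exact sX.trans sA1
  have eφ : ∀ i ∈ fs T.zm, φ (psi F i) = Function.update φ (s.n + 1) z (psi F i) := fun i hi =>
    (Function.update_of_ne (fun e : psi F i = s.n + 1 => out _ Subset.rfl (e ▸ sT i hi)) _ _).symm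
  have mD : ∀ i ∈ fs T.zm, Function.update φ (s.n + 1) z (psi F i) ∈ D.Z := fun i hi =>
    eφ i hi ▸ h.m1.e3.mem _ (sT i hi)
  have sI : (fs T.zm).image (fun i => Function.update φ (s.n + 1) z (psi F i)) ⊆ D.Z :=
    image_subset_iff.2 mD
  have mT' : Mt T.zm T.rm T.M D2 ((H2.scale δ).map f) (fun i => φ (psi F i)) ε' := by
    refine mT.congr mT.lt Subset.rfl (fun _ _ => rfl) (fun _ _ _ _ => rfl) eφ (fun _ _ => rfl)
      (fun i hi => Z2 ▸ mD i hi) (fun i hi => ?_) (a32.mono sI) ?_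
    · change _ ∈ H2.Z
      rw [st2.hZ, Z2]; exact mD i hi
    · refine ⟨fun i hi => a42.1 i (sI hi), fun i hi j hj => ?_⟩
      change f (δ i * δ j * H2.S i j) = f (δ i * δ j * Hz2.S i j)
      rw [a42.2 i (sI hi) j (sI hj)]
  have st' := st_uv ((st2.scale hδ).map f) uv
  have hl := (p.sides mT'.e3).2.2.2
  have im : ∀ S : Finset ℕ, S.image (fun i => φ (psi F i)) = (S.image (psi F)).image φ :=
    fun S => (image_image).symm
  have ht := gtL_sound m2.e3 (ezz ▸ (sX.trans sA1).trans (subset_insert _ _))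
    (by rw [ezz, fs_lor, fs_bit (by omega), union_comm, ← insert_eq]
        exact insert_subset_insert _ sB1) gt
  rw [fs_lor, fs_bit (by omega), union_comm, ← insert_eq, image_insert, Function.update_self,
    sbe_img z (out _ (sX.trans sA1)), sbe_img z (out _ sB1)] at ht
  have gZ : (gr D φ a.O).Z ⊆ D.Z := sdiff_subset
  have hk : a.k ≤ D2.lam ((fs X).image φ) ((fs a.B).image φ) := by
    rw [im, im] at hl
    rcases fAB with ⟨e, e'⟩ | ⟨e, e'⟩ <;> rw [e, e'] at hl
    · rw [hl, ek]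
    · rw [D2.lam_symm, hl, ek]
  obtain ⟨m', hm', hb⟩ := bk.shorten hw (Gz := Dz) (E1 := D1.restrict (gr D φ a.O).Z)
    (E2 := D2.restrict (gr D φ a.O).Z) (Ez1 := Dz1) (Ez2 := Dz2) (z := z)
    (X' := (fs X).image φ) (fun k => hzD (gZ k)) (aD.mono gZ) h0
    (by rw [← image_insert]; exact image_subset_image sX)
    ((k1.reachIn.mono (u1.trans inter_subset_right)).restrict _)
    ((k2.reachIn.mono (u2.trans inter_subset_right)).restrict _)
    (j1.reachIn.mono (u1.trans inter_subset_right))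
    (j2.reachIn.mono (u2.trans inter_subset_right)) (a31.mono gZ) hk ht
  refine ih' m' (by omega) D2 _ _ ε' st' mT' ?_
  have eG : gr D2 (fun i => φ (psi F i)) T.O = D2.restrict (gr D φ a.O).Z := by
    unfold gr; rw [im, fO, Z2]; rfl
  rw [eG, im, im, ek]
  rcases fAB with ⟨e, e'⟩ | ⟨e, e'⟩ <;> rw [e, e']
  · exact hb
  · exact hb.symm

theorem leafW_sound {tab : List Nd} {b b' N c : ℕ} {a : Wk} {s : Dy}
    (hd : ∀ i < b, Dead (nth tab i)) (hok : ∀ i < b', (nth tab i).OK)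
    (ih : ∀ i < b', ∀ m < N, NoBlk (nth tab i) m)
    (ok : leafW tab b b' a s c = true) (h : Bs s D H φ ε) (q : QW N a s.z0 s.n D φ) : False := by
  unfold leafW leafW1 at ok
  have hn : s.n < 32 := (mem_fs.1 h.n1).1
  obtain ⟨m, hm, bl⟩ := q.blk
  rw [cnd_eq] at ok
  split_ifs at ok with o3
  · have := gtL_sound h.m1.e3 (by rw [fs_land]; exact inter_subset_right)
      (by
        rw [fs_lor, fs_land, fs_bit hn]
        exact union_subset (singleton_subset_iff.2 h.n1) inter_subset_right) ok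
    refine absurd (this.trans_le ((D.lam_mono ?_ ?_).trans bl.le)) (lt_irrefl _)
    · rw [fs_land]; exact image_subset_image inter_subset_left
    · rw [fs_lor, fs_land, fs_bit hn, ← insert_eq, image_insert]
      exact insert_subset_insert _ (image_subset_image inter_subset_left)
  rw [cnd_eq] at ok
  split_ifs at ok with o4
  · obtain ⟨o1, o2⟩ := andB_iff.1 ok
    rw [Nat.beq_eq] at o1
    have hA : fs a.A ⊆ fs s.z1 := by rw [← o1, fs_land]; exact inter_subset_right
    have := spanL_sound h hA q.sA q.sB ((nib_lt _ _).trans (by norm_num)) o2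
    exact absurd (bl.gt.trans_le (this.trans bl.lam.le)) (lt_irrefl _)
  rw [cnd_eq] at ok
  split_ifs at ok with o5
  · exact shL_sound hok ih ok h q
  · exact comL_sound hd h.st h.m1 h.sep ok

theorem nxW_sound {N c : ℕ} {a : Wk} {s : Dy} (hf : full s = true) (hn : s.n + 1 < 16)
    (ok : nxW a s c = true) (h : Bs s D H φ ε) (q : QW N a s.z0 s.n D φ) :
    ∃ t ∈ D.Z, (∀ i ∈ fs s.z1, φ i ≠ t) ∧
      QW N (nxaW a s) s.z1 (s.n + 1) D (Function.update φ (s.n + 1) t) := by
  obtain ⟨m, hm, bl⟩ := q.blk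
  have n32 : s.n < 32 := by omega
  have hz := sbe_full hf n32
  obtain ⟨m', hm', t, bt⟩ := bl.next (sbe_hw hf h q ((nib_lt _ _).trans (by norm_num)) ok bl)
  obtain ⟨t1, t2, t3⟩ := bt.tail.mem
  obtain ⟨t0, t1⟩ := mem_sdiff.1 t1
  have eA : fs (Nat.lor a.A (bit s.n)) = insert s.n (fs a.A) := by
    rw [fs_lor, fs_bit n32, union_comm, insert_eq]
  have out : ∀ S : Finset ℕ, S ⊆ fs s.z1 → s.n + 1 ∉ S := fun S hS k => by
    have := h.le (hS k); omega
  have s01 : fs s.z0 ⊆ fs s.z1 := hz ▸ subset_insert _ _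
  refine ⟨t, t0, fun i hi e => ?_, ?_, q.oo, ?_, m', by omega, ?_⟩
  · rw [hz, q.cov] at hi
    subst e
    simp only [mem_insert, mem_union] at hi
    rcases hi with e | (e | e) | e
    · exact t2 (e ▸ mem_insert_self _ _)
    · exact t2 (mem_insert_of_mem (mem_image_of_mem _ e))
    · exact t3 (mem_image_of_mem _ e)
    · exact t1 (mem_image_of_mem _ e)
  · change fs s.z1 = fs (Nat.lor a.A (bit s.n)) ∪ fs a.B ∪ fs a.O
    rw [hz, eA, q.cov, insert_union, insert_union]
  · change fs a.A ⊆ fs (Nat.lor a.A (bit s.n))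
    rw [eA]; exact subset_insert _ _
  · change BlkAt (D.restrict (D.Z \ (fs a.O).image _)) a.k ((fs a.A).image _)
      ((fs (Nat.lor a.A (bit s.n))).image _) ((fs a.B).image _) m' _
    rw [sbe_img t (out _ (q.sO.trans s01)), sbe_img t (out _ (q.sA.trans s01)),
      sbe_img t (out _ (q.sB.trans s01)), eA,
      sbe_img t (out _ (insert_subset h.n1 (q.sA.trans s01))), Function.update_self, image_insert]
    exact bt

theorem Dead.noBlk {T : Nd} (h : Dead T) (m : ℕ) : NoBlk T m :=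
  fun D H φ ε st mt _ => h D H φ ε st mt

theorem sbe_two {G : Disp F3} (c : G.Conn3) {X Y : Finset ℕ} (hZ : X ∪ Y = G.Z)
    (hd : Disjoint X Y) (hX : 2 ≤ X.card) (hY : 2 ≤ Y.card) : 2 ≤ G.lam X Y := by
  have e : G.Z \ X = Y := by rw [← hZ, union_sdiff_left, hd.symm.sdiff_eq_left]
  have := (c X (hZ ▸ subset_union_left)).2 hX (e ▸ hY)
  rwa [e] at this

theorem dead_of_noBlk {T : Nd} (hok : T.OK) (h : ∀ m, NoBlk T m) : Dead T := by
  intro D H φ ε st mt
  obtain ⟨a, b, ok⟩ := hok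
  have p := okp ok
  obtain ⟨s1, s2, s3, s4⟩ := p.sides mt.e3
  have inj : Set.InjOn φ (fs T.zm) := mt.e3.inj
  have cA : T.k < ((fs T.A).image φ).card := by
    rw [card_image_of_injOn (inj.mono (coe_subset.2 p.sA))]; exact p.cA
  have cB : T.k < ((fs T.B).image φ).card := by
    rw [card_image_of_injOn (inj.mono (coe_subset.2 p.sB))]; exact p.cB
  rcases exists_blocking (D := gr D φ T.O) s1 s2 s3 s4 with ⟨X, Y, hZ, hd, hX, hY, hl⟩ | ⟨n, hb⟩
  swap
  · exact h n D H φ ε st mt hb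
  have cX := cA.trans_le (card_le_card hX)
  have cY := cB.trans_le (card_le_card hY)
  change X ∪ Y = D.Z \ (fs T.O).image φ at hZ
  change D.lam X Y ≤ T.k at hl
  rcases p.oo with ⟨e, k⟩ | ⟨e | e, k⟩
  · have eZ : D.Z \ (fs T.O).image φ = core D (φ 2) (φ 3) := by
      rw [e]; ext i; simp only [mem_core, mem_sdiff, image_insert, image_singleton, mem_insert,
        mem_singleton]; tauto
    have c3 : 3 ≤ (core D (φ 2) (φ 3)).card := by
      have h1 : (fs T.A ∪ fs T.B).image φ ⊆ core D (φ 2) (φ 3) := by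
        rw [← eZ, image_union]; exact union_subset s1 s2
      have h2 := card_le_card h1
      rw [card_image_of_injOn (inj.mono (coe_subset.2 (union_subset p.sA p.sB)))] at h2
      have h3 := card_union_le (fs T.A ∪ fs T.B) (fs T.O)
      rw [← p.cov, e] at h3
      have h4 : ({2, 3} : Finset ℕ).card = 2 := rfl
      have := p.c5
      omega
    have := st.conn c3 (hZ.trans eZ) hd (card_pos.1 (by omega)) (card_pos.1 (by omega))
    omega
  · rw [e, image_singleton, sdiff_singleton_eq_erase] at hZ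
    have : 2 ≤ D.lam X Y := sbe_two st.cu hZ hd (by omega) (by omega)
    omega
  · rw [e, image_singleton, sdiff_singleton_eq_erase] at hZ
    have : 2 ≤ D.lam X Y := sbe_two st.cv hZ hd (by omega) (by omega)
    omega

theorem ndB_sound {tab : List Nd} {b b' i n N : ℕ} {t0 t1 : Ct}
    (hd : ∀ i < b, Dead (nth tab i)) (hok : ∀ i < b', (nth tab i).OK)
    (ih : ∀ i < b', ∀ m < N, NoBlk (nth tab i) m) (hi : i < b')
    (ok : ndB tab b b' i n t0 t1 = true) : NoBlk (nth tab i) N := by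
  intro D H φ ε st mt hb
  obtain ⟨a, b0, oka⟩ := hok i hi
  have p := okp oka
  unfold ndB at ok
  simp only [andB_iff, Nat.beq_eq, Nat.blt_eq] at ok
  obtain ⟨o1, o2, o3, o4⟩ := ok
  have hmin := fun m hm => ih i hi m hm D H φ ε st mt
  generalize nth tab i = T at *
  obtain ⟨s1, s2, s3, s4⟩ := p.sides mt.e3
  obtain ⟨t, bt⟩ := blkAt_first (G := gr D φ T.O) s1 s2 s3 s4 hb hmin
  obtain ⟨t1', t2, t3⟩ := bt.tail.mem
  obtain ⟨t0', t1'⟩ := mem_sdiff.1 t1'
  have hlt : ∀ j ∈ fs T.zm, j < n := by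
    intro j hj
    by_contra k
    have h1 := (mem_fs.1 hj).2
    have h2 : (T.zm >>> n).testBit (j - n) = T.zm.testBit (n + (j - n)) := Nat.testBit_shiftRight _
    have h3 : T.zm >>> n = 0 := o1
    rw [h3, Nat.zero_testBit, show n + (j - n) = j by omega, h1] at h2
    cases h2
  have hne : ∀ j ∈ fs T.zm, φ j ≠ t := by
    intro j hj e
    subst e
    rw [p.cov] at hj
    simp only [mem_union] at hj
    rcases hj with (e | e) | e
    · exact t2 (mem_image_of_mem _ e)
    · exact t3 (mem_image_of_mem _ e)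
    · exact t1' (mem_image_of_mem _ e)
  have bs := bs_start st mt p.h2 p.h3 o2 hlt t0' hne
  have out : ∀ S : Finset ℕ, S ⊆ fs T.zm → n ∉ S := fun S hS k => lt_irrefl _ (hlt n (hS k))
  have q : QW N ⟨T.k, 0, T.A, T.B, T.O⟩ T.zm n D (Function.update φ n t) := by
    refine ⟨p.cov, p.o23, by rw [sbe_fs0]; exact empty_subset _, N, le_rfl, ?_⟩
    change BlkAt (D.restrict (D.Z \ (fs T.O).image _)) T.k ((fs 0).image _)
      ((fs T.A).image _) ((fs T.B).image _) N _
    rw [sbe_img t (out _ p.sO), sbe_img t (out _ p.sA), sbe_img t (out _ p.sB), sbe_fs0,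
      image_empty, Function.update_self]
    exact bt
  have key := chk_sound (leaf := leafW tab b b') (nx := nxW) (nxa := nxaW)
    (fun a z n D _ φ => QW N a z n D φ) (fun _ _ _ _ _ _ _ _ h => h)
    (fun a s c D H φ ε ok h q => leafW_sound hd hok ih ok h q)
    (fun a s c D H φ ε hf hn ok h q => nxW_sound hf hn ok h q)
  cases hr : D.row t
  · rw [hr] at bs
    exact key t1 _ _ D H _ _ o4 bs (by rw [start_z0, start_n]; exact q)
  · rw [hr] at bs
    exact key t0 _ _ D H _ _ o3 bs (by rw [start_z0, start_n]; exact q)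

/-- one round. -/
theorem round {tab : List Nd} {b b' : ℕ} (hd : ∀ i < b, Dead (nth tab i))
    (hok : ∀ i < b', (nth tab i).OK)
    (h : ∀ i, b ≤ i → i < b' → ∃ n t0 t1, ndB tab b b' i n t0 t1 = true) :
    ∀ i < b', Dead (nth tab i) := by
  have key : ∀ N, ∀ i < b', NoBlk (nth tab i) N := by
    intro N
    induction N using Nat.strong_induction_on with
    | _ N ih =>
    intro i hi
    by_cases hb : i < b
    · exact (hd i hb).noBlk N
    · obtain ⟨n, t0, t1, ok⟩ := h i (not_lt.1 hb) hi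
      exact ndB_sound hd hok (fun j hj m hm => ih m hm j hj) hi ok
  exact fun i hi => dead_of_noBlk (hok i hi) fun m => key m i hi

end ML

end Pool.Agent.Lib.MP_c69b6d_co.F
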