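import Pool.Agent.Lib.MP_c69b6d_co.F.SBCd

/-! Stage B checker: the first displays. -/

namespace Pool.Agent.Lib.MP_c69b6d_co.F

open Finset Disp

namespace ML

theorem sbcf_mem {z m i : ℕ} (hz : z < 65536) (h : Nat.land z m = m) (hi : m.testBit i = true) :
    i ∈ fs z := by
  have e : (z &&& m).testBit i = true := by
    have h' : z &&& m = m := h
    rw [h']; exact hi
  rw [Nat.testBit_and, Bool.and_eq_true] at e
  have hlt : i < 16 := ck_lt (n := 16) hz e.1
  exact mem_fs.2 ⟨by omega, e.1⟩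

theorem sbcf_mem' {z i : ℕ} (hz : z < 65536) (hi : tb z i = true) : i ∈ fs z := by
  rw [tb_eq] at hi
  have hlt : i < 16 := ck_lt (n := 16) hz hi
  exact mem_fs.2 ⟨by omega, hi⟩

theorem sbcf_msk4 (r s c d : ℕ) : (msk4 r s c d).testBit r = true ∧
    (msk4 r s c d).testBit s = true ∧ (msk4 r s c d).testBit c = true ∧
      (msk4 r s c d).testBit d = true := by
  have e : ∀ i, (msk4 r s c d).testBit i =
      ((decide (r = i) || decide (s = i)) || (decide (c = i) || decide (d = i))) := by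
    intro i
    change ((bit r ||| bit s) ||| (bit c ||| bit d)).testBit i = _
    rw [Nat.testBit_or, Nat.testBit_or, Nat.testBit_or, testBit_bit, testBit_bit, testBit_bit,
      testBit_bit]
  simp [e]

theorem sbcf_inc_scale {D : Disp F3} {H : Disp F4} {x y u v : ℕ} {δ : ℕ → F4}
    (hδ : ∀ i, δ i ≠ 0) (h : Inc D H x y u v) : Inc D (H.scale δ) x y u v := by
  intro h'
  apply h
  rw [← h']
  have hne : δ x * δ y * δ u * δ v ≠ 0 :=
    mul_ne_zero (mul_ne_zero (mul_ne_zero (hδ x) (hδ y)) (hδ u)) (hδ v)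
  change _ ↔ δ x * δ u * H.S x u * (δ y * δ v * H.S y v) = δ x * δ v * H.S x v * (δ y * δ u * H.S y u)
  have e1 : δ x * δ u * H.S x u * (δ y * δ v * H.S y v) =
      δ x * δ y * δ u * δ v * (H.S x u * H.S y v) := by ring
  have e2 : δ x * δ v * H.S x v * (δ y * δ u * H.S y u) =
      δ x * δ y * δ u * δ v * (H.S x v * H.S y u) := by ring
  rw [e1, e2, mul_right_inj' hne]

theorem sbcf_leaf {tab : List Nd} {b : ℕ} (hd : ∀ i < b, Dead (nth tab i)) {a : In} {s : Dy}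
    {op N : ℕ} {D : Disp F3} {H : Disp F4} {φ : ℕ → ℕ} {ε : ℕ → F3}
    (ok : leafI1 tab b a s op N = true) (h : Bs s D H φ ε) (q : QI a s.n D H φ) : False := by
  have hz := h.m1.lt
  unfold leafI1 at ok
  cases h3 : Nat.beq op 3
  swap
  · rw [h3, cnd_true, notB_iff] at ok
    have e : eqB (tb s.rm s.n) (tb 816 s.n) = true := by
      rw [eqB_iff, tb_eq, tb_eq]
      have h2 : 2 < s.n := h.lt 2 h.h2
      exact (h.m1.e3.row s.n h.n1).symm.trans (q.mem s.n h2.le q.lt).2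
    rw [e] at ok
    exact Bool.noConfusion ok
  rw [h3, cnd_false] at ok
  cases h4 : Nat.beq op 4
  swap
  · rw [h4, cnd_true, andB_iff, eqB_iff] at ok
    have hm := Nat.eq_of_beq_eq_true ok.1
    have m2 : 2 ∈ fs s.z1 := sbcf_mem hz hm (by decide)
    have m3 : 3 ∈ fs s.z1 := sbcf_mem hz hm (by decide)
    have m4 : 4 ∈ fs s.z1 := sbcf_mem hz hm (by decide)
    have m5 : 5 ∈ fs s.z1 := sbcf_mem hz hm (by decide)
    apply q.inc
    rw [← h.m1.det4 m4 m5 m2 m3, ← emb_det3 h.m1.e3 m4 m5 m2 m3, ok.2]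
  rw [h4, cnd_false] at ok
  cases h5 : Nat.beq op 5
  swap
  · rw [h5, cnd_true, andB_iff, andB_iff, andB_iff, andB_iff, orB_iff, orB_iff] at ok
    obtain ⟨o1, o2, o3, o4, o5⟩ := ok
    have e := h.m1.S3 (sbcf_mem' hz o3) (sbcf_mem' hz o4)
    rw [Nat.eq_of_beq_eq_true o5, (d3_eq_zero (by norm_num)).2 rfl, mul_zero] at e
    obtain ⟨w1, w2, w3, w4, _⟩ := q.w4
    rcases o1 with o1 | o1 <;> rcases o2 with o2 | o2 <;>
      rw [Nat.eq_of_beq_eq_true o1, Nat.eq_of_beq_eq_true o2] at e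
    · exact w1 e
    · exact w2 e
    · exact w3 e
    · exact w4 e
  rw [h5, cnd_false] at ok
  cases h6 : Nat.beq op 6
  swap
  · rw [h6, cnd_true, andB_iff] at ok
    have hm := Nat.eq_of_beq_eq_true ok.1
    obtain ⟨k1, k2, k3, k4⟩ := sbcf_msk4 a.r a.s 6 7
    exact q.w4.2.2.2.2 ((emb_det3 h.m1.e3 (sbcf_mem hz hm k1) (sbcf_mem hz hm k2)
      (sbcf_mem hz hm k3) (sbcf_mem hz hm k4)).1 ok.2)
  rw [h6, cnd_false] at ok
  exact comL_sound hd h.st h.m1 h.sep ok

theorem sbcf_fs12 : fs 12 = {2, 3} := by decide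

theorem sbcf_mt0 {D : Disp F3} {H : Disp F4} {φ : ℕ → ℕ} (st : St D H (φ 2) (φ 3)) :
    Mt 12 0 0 D H φ (fun _ => 1) := by
  have hm : ∀ i ∈ fs 12, φ i ∈ D.Z ∧ D.row (φ i) = false := by
    intro i hi
    rw [sbcf_fs12, mem_insert, mem_singleton] at hi
    rcases hi with rfl | rfl
    · exact ⟨st.mu, st.ru⟩
    · exact ⟨st.mv, st.rv⟩
  have hinj : Set.InjOn φ (fs 12) := by
    intro i hi j hj e
    rw [sbcf_fs12, coe_insert, coe_singleton] at hi hj
    rcases hi with rfl | rfl <;> rcases hj with rfl | rfl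
    · rfl
    · exact absurd e st.ne
    · exact absurd e.symm st.ne
    · rfl
  refine ⟨by norm_num, ⟨hinj, fun i hi => (hm i hi).1, fun i hi => ?_, fun _ _ => one_mul _,
    fun i hi j hj => ?_⟩, ⟨hinj, fun i hi => st.hZ ▸ (hm i hi).1, fun i hi => ?_,
    fun _ _ => one_mul _, fun i hi j hj => ?_⟩⟩
  · rw [(hm i hi).2]; exact (Nat.zero_testBit i).symm
  · rw [D.bip _ _ ((hm i hi).2.trans (hm j hj).2.symm)]
    simp [toK]
  · rw [st.row (hm i hi).1, (hm i hi).2]; exact (Nat.zero_testBit i).symm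
  · rw [H.bip _ _ (by rw [st.row (hm i hi).1, st.row (hm j hj).1, (hm i hi).2, (hm j hj).2])]
    simp [toK]

theorem inB_sound {tab : List Nd} {b : ℕ} {a : In} {t : Ct} (hd : ∀ i < b, Dead (nth tab i))
    (ok : inB tab b a t = true) {D : Disp F3} {H : Disp F4} {φ : ℕ → ℕ}
    (st : St D H (φ 2) (φ 3)) (q : QI a 4 D H φ) : False := by
  have h12 : ∀ i ∈ fs 12, 2 ≤ i ∧ i < 4 := by
    intro i hi
    rw [sbcf_fs12, mem_insert, mem_singleton] at hi
    omega
  have hlt := q.lt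
  have hb := bs_start (n := 4) (t := φ 4) st (sbcf_mt0 st) (by rw [sbcf_fs12]; simp)
    (by rw [sbcf_fs12]; simp) (by norm_num) (fun i hi => (h12 i hi).2)
    (q.mem 4 (by norm_num) hlt).1 (fun i hi e => by
      have k := h12 i hi
      have := q.inj (show i ∈ Set.Ico 2 a.m from ⟨k.1, by omega⟩)
        (show 4 ∈ Set.Ico 2 a.m from ⟨by norm_num, hlt⟩) e
      omega)
  have hr : D.row (φ 4) = true := (q.mem 4 (by norm_num) hlt).2
  rw [hr, Function.update_eq_self] at hb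
  refine chk_sound (fun a z n D H φ => (∀ i ∈ fs z, 2 ≤ i) ∧ QI a n D H φ) ?_ ?_ ?_ t a _ D H φ _
    ok hb ⟨fun i hi => (h12 i hi).1, q⟩
  · rintro a z n D H φ δ hδ ⟨q1, q2⟩
    exact ⟨q1, q2.lt, q2.inj, q2.mem, sbcf_inc_scale hδ q2.inc, q2.w4⟩
  · rintro a s N D H φ ε ok h ⟨_, q2⟩
    exact sbcf_leaf hd ok h q2
  · rintro a s N D H φ ε _ _ hnx h ⟨q1, q2⟩
    have hm : s.n + 1 < a.m := Nat.lt_of_succ_le (Nat.le_of_ble_eq_true hnx)
    have h2 : 2 < s.n := h.lt 2 h.h2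
    have hz : ∀ i ∈ fs s.z1, 2 ≤ i ∧ i ≤ s.n := by
      intro i hi
      rcases mem_insert.1 (h.sub hi) with e | e
      · omega
      · exact ⟨q1 i e, (h.lt i e).le⟩
    refine ⟨φ (s.n + 1), (q2.mem _ (by omega) hm).1, fun i hi e => ?_, fun i hi => (hz i hi).1, ?_⟩
    · have k := hz i hi
      have := q2.inj (show i ∈ Set.Ico 2 a.m from ⟨k.1, by omega⟩)
        (show s.n + 1 ∈ Set.Ico 2 a.m from ⟨by omega, hm⟩) e
      omega
    · rw [Function.update_eq_self]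
      exact ⟨hm, q2.inj, q2.mem, q2.inc, q2.w4⟩

theorem sbcf_inj (l : List ℕ) (h : l.Nodup) :
    Set.InjOn (fun i => l.getD (i - 2) 0) (Set.Ico 2 (l.length + 2)) := by
  intro i hi j hj e
  have k1 : i - 2 < l.length := by have := hi.1; have := hi.2; omega
  have k2 : j - 2 < l.length := by have := hj.1; have := hj.2; omega
  simp only [List.getD_eq_getElem l 0 k1, List.getD_eq_getElem l 0 k2] at e
  have := (List.Nodup.getElem_inj_iff h).1 e
  have := hi.1
  have := hj.1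
  omega

theorem sbcf_symm {D : Disp F3} {H : Disp F4} {x y u v : ℕ} (h : StI D H x y u v) :
    StI D H y x u v := by
  refine ⟨h.st, h.my, h.mx, h.ne.symm, h.ry, h.rx, fun h' => h.inc ?_⟩
  rw [mul_comm (H.S y u), mul_comm (H.S y v), mul_comm (D.S y u), mul_comm (D.S y v)] at h'
  exact ⟨fun e => (h'.1 e.symm).symm, fun e => (h'.2 e.symm).symm⟩

theorem sbcf_w4 {D : Disp F3} {r s c d : ℕ} (h : D.W4 r s c d) : D.W4 s r c d := by
  obtain ⟨h1, h2, h3, h4, h5⟩ := h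
  refine ⟨h3, h4, h1, h2, fun e => h5 ?_⟩
  rw [mul_comm (D.S r c), mul_comm (D.S r d)]
  exact e.symm

theorem sbcf_rc {D : Disp F3} {i j : ℕ} (hi : D.row i = true) (hj : D.row j = false) : i ≠ j := by
  rintro rfl
  rw [hi] at hj
  exact Bool.noConfusion hj

section

variable {tab : List Nd} {b : ℕ} {t : Ct} {D : Disp F3} {H : Disp F4} {x y u v r s c d : ℕ}

theorem sbcf_nd (h : StI D H x y u v) (mc : c ∈ core D u v) (md : d ∈ core D u v)
    (rc : D.row c = false) (rd : D.row d = false) (hcd : c ≠ d) :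
    [u, v, x, y, c, d].Nodup := by
  obtain ⟨a1, a1', -⟩ := mem_core.1 mc
  obtain ⟨a2, a2', -⟩ := mem_core.1 md
  obtain ⟨a3, a3', -⟩ := mem_core.1 h.mx
  obtain ⟨a4, a4', -⟩ := mem_core.1 h.my
  have b1 := sbcf_rc h.rx rc
  have b2 := sbcf_rc h.rx rd
  have b3 := sbcf_rc h.ry rc
  have b4 := sbcf_rc h.ry rd
  have c1 := h.st.ne
  have c2 := h.ne
  simp only [List.nodup_cons, List.mem_cons, List.not_mem_nil, List.nodup_nil, not_or,
    not_false_eq_true, and_true]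
  and_intros <;> first | assumption | (apply Ne.symm; assumption)

theorem sbcf_snoc {l : List ℕ} {a : ℕ} (h : l.Nodup) (ha : a ∉ l) : (l ++ [a]).Nodup :=
  List.nodup_append.2 ⟨h, List.nodup_singleton a, fun i hi j hj e => by
    rw [List.mem_singleton.1 hj] at e
    exact ha (e ▸ hi)⟩

theorem sbcf_case1 (hd : ∀ i < b, Dead (nth tab i)) (h1 : inB tab b ⟨8, 4, 5⟩ t = true)
    (h : StI D H x y u v) (mc : c ∈ core D u v) (md : d ∈ core D u v)
    (rc : D.row c = false) (rd : D.row d = false) (w : D.W4 x y c d) : False := by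
  refine inB_sound hd h1 (φ := fun i => [u, v, x, y, c, d].getD (i - 2) 0) h.st
    ⟨by norm_num, sbcf_inj _ (sbcf_nd h mc md rc rd (SB1.W4_ne w).2), ?_, h.inc, w⟩
  intro i k1 k2
  have k3 : i < 8 := k2
  interval_cases i
  · exact ⟨h.st.mu, h.st.ru⟩
  · exact ⟨h.st.mv, h.st.rv⟩
  · exact ⟨core_sub D u v h.mx, h.rx⟩
  · exact ⟨core_sub D u v h.my, h.ry⟩
  · exact ⟨core_sub D u v mc, rc⟩
  · exact ⟨core_sub D u v md, rd⟩

theorem sbcf_case2 (hd : ∀ i < b, Dead (nth tab i)) (h1 : inB tab b ⟨9, 4, 8⟩ t = true)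
    (h : StI D H x y u v) (ms : s ∈ core D u v) (mc : c ∈ core D u v) (md : d ∈ core D u v)
    (rs : D.row s = true) (rc : D.row c = false) (rd : D.row d = false) (hy : s ≠ y)
    (w : D.W4 x s c d) : False := by
  have nd : [u, v, x, y, c, d, s].Nodup := by
    have k := sbcf_nd h mc md rc rd (SB1.W4_ne w).2
    obtain ⟨a1, a1', -⟩ := mem_core.1 ms
    have a2 := (SB1.W4_ne w).1.symm
    have b1 := sbcf_rc rs rc
    have b2 := sbcf_rc rs rd
    exact sbcf_snoc k (by simp [a1, a1', a2, b1, b2, hy])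
  refine inB_sound hd h1 (φ := fun i => [u, v, x, y, c, d, s].getD (i - 2) 0) h.st
    ⟨by norm_num, sbcf_inj _ nd, ?_, h.inc, w⟩
  intro i k1 k2
  have k3 : i < 9 := k2
  interval_cases i
  · exact ⟨h.st.mu, h.st.ru⟩
  · exact ⟨h.st.mv, h.st.rv⟩
  · exact ⟨core_sub D u v h.mx, h.rx⟩
  · exact ⟨core_sub D u v h.my, h.ry⟩
  · exact ⟨core_sub D u v mc, rc⟩
  · exact ⟨core_sub D u v md, rd⟩
  · exact ⟨core_sub D u v ms, rs⟩

theorem sbcf_case3 (hd : ∀ i < b, Dead (nth tab i)) (h1 : inB tab b ⟨10, 8, 9⟩ t = true)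
    (h : StI D H x y u v) (mr : r ∈ core D u v) (ms : s ∈ core D u v) (mc : c ∈ core D u v)
    (md : d ∈ core D u v) (rr : D.row r = true) (rs : D.row s = true) (rc : D.row c = false)
    (rd : D.row d = false) (e1 : r ≠ x) (e2 : r ≠ y) (e3 : s ≠ x) (e4 : s ≠ y)
    (w : D.W4 r s c d) : False := by
  have nd : [u, v, x, y, c, d, r, s].Nodup := by
    have k := sbcf_nd h mc md rc rd (SB1.W4_ne w).2
    obtain ⟨a0, a0', -⟩ := mem_core.1 mr
    obtain ⟨a1, a1', -⟩ := mem_core.1 ms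
    have a2 := (SB1.W4_ne w).1.symm
    have b1 := sbcf_rc rs rc
    have b2 := sbcf_rc rs rd
    have b3 := sbcf_rc rr rc
    have b4 := sbcf_rc rr rd
    have k' : [u, v, x, y, c, d, r].Nodup := sbcf_snoc k (by simp [a0, a0', b3, b4, e1, e2])
    exact sbcf_snoc k' (by simp [a1, a1', a2, b1, b2, e3, e4])
  refine inB_sound hd h1 (φ := fun i => [u, v, x, y, c, d, r, s].getD (i - 2) 0) h.st
    ⟨by norm_num, sbcf_inj _ nd, ?_, h.inc, w⟩
  intro i k1 k2
  have k3 : i < 10 := k2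
  interval_cases i
  · exact ⟨h.st.mu, h.st.ru⟩
  · exact ⟨h.st.mv, h.st.rv⟩
  · exact ⟨core_sub D u v h.mx, h.rx⟩
  · exact ⟨core_sub D u v h.my, h.ry⟩
  · exact ⟨core_sub D u v mc, rc⟩
  · exact ⟨core_sub D u v md, rd⟩
  · exact ⟨core_sub D u v mr, rr⟩
  · exact ⟨core_sub D u v ms, rs⟩

end

theorem dead_of {tab : List Nd} {b : ℕ} {t1 t2 t3 : Ct} (hd : ∀ i < b, Dead (nth tab i))
    (h1 : inB tab b ⟨8, 4, 5⟩ t1 = true) (h2 : inB tab b ⟨9, 4, 8⟩ t2 = true)
    (h3 : inB tab b ⟨10, 8, 9⟩ t3 = true) (D : Disp F3) (H : Disp F4) (x y u v r s c d : ℕ)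
    (h : StI D H x y u v) (mr : r ∈ core D u v) (ms : s ∈ core D u v) (mc : c ∈ core D u v)
    (md : d ∈ core D u v) (rr : D.row r = true) (rs : D.row s = true) (rc : D.row c = false)
    (rd : D.row d = false) (w : D.W4 r s c d) : False := by
  by_cases e1 : r = x
  · subst e1
    by_cases e2 : s = y
    · subst e2
      exact sbcf_case1 hd h1 h mc md rc rd w
    · exact sbcf_case2 hd h2 h ms mc md rs rc rd e2 w
  by_cases e2 : r = y
  · subst e2
    by_cases e3 : s = x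
    · subst e3
      exact sbcf_case1 hd h1 h mc md rc rd (sbcf_w4 w)
    · exact sbcf_case2 hd h2 (sbcf_symm h) ms mc md rs rc rd e3 w
  by_cases e3 : s = x
  · subst e3
    exact sbcf_case2 hd h2 h mr mc md rr rc rd e2 (sbcf_w4 w)
  by_cases e4 : s = y
  · subst e4
    exact sbcf_case2 hd h2 (sbcf_symm h) mr mc md rr rc rd e1 (sbcf_w4 w)
  exact sbcf_case3 hd h3 h mr ms mc md rr rs rc rd e1 e2 e3 e4 w

end ML

end Pool.Agent.Lib.MP_c69b6d_co.F
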