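import Pool.Agent.Lib.MP_c69b6d_co.F.SBFc

/-! Stage B: `yd` creates no member of `NL`.  The statement `Cfg.free` is proved in `SBFc`. -/
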