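import Pool.Agent.Lib.MP_c69b6d_co.F.Api2

/-! Stage B: minors described on the level of codes. -/

namespace Pool.Agent.Lib.MP_c69b6d_co.F

open Finset Disp

namespace SBFAux

variable {K : Type} [Field K]

/-- the code of `L` is obtained from the set of words `C` by shortening on `X` and pulling back
along `φ` (with signs). -/
structure CM (L : Disp K) (C : Set (ℕ → K)) (φ : ℕ → ℕ) (ε : ℕ → K) (X : Finset ℕ) : Prop where
  inj : Set.InjOn φ L.Z
  nX : ∀ i ∈ L.Z, φ i ∉ X
  sq : ∀ i ∈ L.Z, ε i * ε i = 1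
  pull : ∀ c' ∈ C, (∀ i ∈ X, c' i = 0) → (fun i => if i ∈ L.Z then ε i * c' (φ i) else 0) ∈ L.code
  push : ∀ c ∈ L.code, ∃ c' ∈ C, (∀ i ∈ X, c' i = 0) ∧ ∀ i ∈ L.Z, c' (φ i) = ε i * c i

theorem cm_of_minor {L D : Disp K} (h : Minor L D) :
    ∃ φ ε X, CM L (D.code : Set (ℕ → K)) φ ε X := by
  obtain ⟨E, φ, ε, hr, he⟩ := h
  refine ⟨φ, ε, E.B \ L.Z.image φ, he.inj, fun i hi h => (mem_sdiff.1 h).2 (mem_image_of_mem φ hi),
    he.sq, fun c hc h0 => ?_, fun c hc => ?_⟩
  · exact he.code_pull (by rw [hr.code_eq]; exact hc) fun j hj hn => h0 j (mem_sdiff.2 ⟨hj, hn⟩)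
  · obtain ⟨c', h1, h2, h3⟩ := he.code_push hc
    exact ⟨c', by rw [hr.code_eq] at h1; exact h1,
      fun i hi => h2 i (mem_sdiff.1 hi).1 (mem_sdiff.1 hi).2, h3⟩

/-- a basis of minimal cost. -/
theorem greedy (D : Disp K) (f : ℕ → ℕ) : ∃ E, D.Reach E ∧ ∀ i ∈ D.Z, ∀ j ∈ D.Z,
    E.row i = true → E.row j = false → f j < f i → E.S i j = 0 := by
  induction hn : ∑ i ∈ D.B, f i using Nat.strong_induction_on generalizing D with
  | _ n ih =>
    by_cases h : ∀ i ∈ D.Z, ∀ j ∈ D.Z, D.row i = true → D.row j = false → f j < f i → D.S i j = 0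
    · exact ⟨D, Reach.refl D, h⟩
    · push Not at h
      obtain ⟨x, hx, y, hy, rx, ry, hf, hs⟩ := h
      have hxy : x ≠ y := ne_of_S hs
      have hxB : x ∈ D.B := mem_B.2 ⟨hx, rx⟩
      have hyB : y ∉ D.B.erase x := fun h => by
        have := (mem_B.1 (mem_erase.1 h).2).2
        rw [ry] at this
        cases this
      have hB : (D.pivot x y).B = insert y (D.B.erase x) := by
        ext i
        rw [mem_insert, mem_erase, mem_B, mem_B, pivot_Z, pivot_row hs]
        by_cases h1 : i = y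
        · simp [h1, hy, ry]
        · by_cases h2 : i = x <;> simp [h1, h2, rx, hxy]
      have hr : D.Reach (D.pivot x y) := ReachIn.single hx hy
      obtain ⟨E, h1, h2⟩ := ih _ (by
        rw [hB, sum_insert hyB, ← hn, ← add_sum_erase _ _ hxB]
        omega) (D.pivot x y) rfl
      exact ⟨E, hr.trans h1, by simpa using h2⟩

theorem minor_of_cm {L D : Disp K} {φ : ℕ → ℕ} {ε : ℕ → K} {X : Finset ℕ}
    (h : CM L (D.code : Set (ℕ → K)) φ ε X) (hm : ∀ i ∈ L.Z, φ i ∈ D.Z) : Minor L D := by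
  obtain ⟨E, hr, hE⟩ := greedy D
    (fun i => if i ∈ X then 0 else if i ∈ L.Z.image φ then 1 else 2)
  have hZ := hr.Z_eq
  have hU : L.Z.image φ ⊆ E.Z := by rw [hZ]; exact image_subset_iff.2 hm
  have hUX : ∀ j ∈ L.Z.image φ, j ∉ X := fun j hj => by
    obtain ⟨i, hi, rfl⟩ := mem_image.1 hj
    exact h.nX i hi
  obtain ⟨G, hG, heG⟩ := emb_of_code (L := L) (D := E.restrict (L.Z.image φ)) (φ := φ) (ε := ε)
    h.inj rfl h.sq fun c => by
      constructor
      · intro hc
        obtain ⟨c', h1, h2, h3⟩ := h.push c hc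
        have h1' : c' ∈ E.code := by rw [hr.code_eq]; exact h1
        obtain ⟨d, d1, d2⟩ := exists_code E (fun i => if i ∈ L.Z.image φ then c' i else 0)
        have key : ∀ j ∈ L.Z.image φ, d j = c' j := fun j hj => by
          cases rj : E.row j
          · rw [d1.2 j (hU hj) rj, h1'.2 j (hU hj) rj]
            refine sum_congr rfl fun i hi => ?_
            cases ri : E.row i
            · rw [E.bip i j (ri.trans rj.symm), mul_zero, mul_zero]
            · rw [d2 i (mem_B.2 ⟨hi, ri⟩)]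
              by_cases hiU : i ∈ L.Z.image φ
              · rw [if_pos hiU]
              · rw [if_neg hiU]
                by_cases hiX : i ∈ X
                · rw [h2 i hiX]
                · rw [hE i (hZ ▸ hi) j (hZ ▸ hU hj) ri rj (by
                    rw [if_neg hiX, if_neg hiU, if_neg (hUX j hj), if_pos hj]
                    omega), mul_zero, mul_zero]
          · rw [d2 j (mem_B.2 ⟨hU hj, rj⟩), if_pos hj]
        refine ⟨_, (mem_code_restrict hU).2 ⟨d, d1, fun i hi hn => by rw [d2 i hi, if_neg hn], rfl⟩,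
          funext fun i => ?_⟩
        by_cases hi : i ∈ L.Z
        · have hi' := mem_image_of_mem φ hi
          simp only [hi, hi', if_true]
          rw [key _ hi', h3 i hi]
          linear_combination (-c i) * h.sq i hi
        · rw [if_neg hi]
          exact hc.1 i hi
      · rintro ⟨c', h1, rfl⟩
        obtain ⟨d, d1, d2, rfl⟩ := (mem_code_restrict hU).1 h1
        have h0 : ∀ j ∈ X, d j = 0 := fun j hj => by
          by_cases hjZ : j ∈ E.Z
          · have hjU : j ∉ L.Z.image φ := fun e => hUX j e hj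
            cases rj : E.row j
            · rw [d1.2 j hjZ rj]
              refine sum_eq_zero fun i hi => ?_
              cases ri : E.row i
              · rw [E.bip i j (ri.trans rj.symm), mul_zero]
              · by_cases hiU : i ∈ L.Z.image φ
                · rw [hE i (hZ ▸ hi) j (hZ ▸ hjZ) ri rj (by
                    rw [if_pos hj, if_neg (hUX i hiU), if_pos hiU]
                    omega), mul_zero]
                · rw [d2 i (mem_B.2 ⟨hi, ri⟩) hiU, zero_mul]
            · exact d2 j (mem_B.2 ⟨hjZ, rj⟩) hjU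
          · exact d1.1 j hjZ
        have := h.pull d (by rw [← hr.code_eq]; exact d1) h0
        have e : (fun i => if i ∈ L.Z then ε i * (if φ i ∈ L.Z.image φ then d (φ i) else 0) else 0) =
            fun i => if i ∈ L.Z then ε i * d (φ i) else 0 := funext fun i => by
          by_cases hi : i ∈ L.Z
          · simp only [hi, mem_image_of_mem φ hi, if_true]
          · simp only [hi, if_false]
        rw [e]
        exact this
  exact (Minor.trans ⟨G, φ, ε, hG, heG⟩ (minor_restrict hU)).trans hr.minor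

variable {L : Disp K} {C C0 : Set (ℕ → K)} {φ : ℕ → ℕ} {ε : ℕ → K} {X : Finset ℕ}

/-- a redundant element of `X` can be dropped. -/
theorem CM.erase (h : CM L C φ ε X) {z : ℕ}
    (hz : ∀ c ∈ C, (∀ i ∈ X.erase z, c i = 0) → c z = 0) : CM L C φ ε (X.erase z) := by
  refine ⟨h.inj, fun i hi e => h.nX i hi (mem_of_mem_erase e), h.sq, fun c hc h0 => ?_,
    fun c hc => ?_⟩
  · refine h.pull c hc fun i hi => ?_
    by_cases e : i = z
    · rw [e]; exact hz c hc h0
    · exact h0 i (mem_erase.2 ⟨e, hi⟩)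
  · obtain ⟨c', h1, h2, h3⟩ := h.push c hc
    exact ⟨c', h1, fun i hi => h2 i (mem_of_mem_erase hi), h3⟩

/-- composition with a relabelling. -/
theorem CM.transfer (h : CM L C0 φ ε X) (ρ : ℕ → ℕ) (σ : ℕ → K) (y : ℕ) (W : Set ℕ)
    (hX : ∀ j ∈ X, j ∈ W) (hU : ∀ i ∈ L.Z, φ i ∈ W) (hρ : Set.InjOn ρ W) (hy : ∀ j ∈ W, ρ j ≠ y)
    (hσ : ∀ j, σ j * σ j = 1)
    (h1 : ∀ c ∈ C, c y = 0 → ∃ c0 ∈ C0, ∀ j ∈ W, c (ρ j) = σ j * c0 j)
    (h2 : ∀ c0 ∈ C0, ∃ c ∈ C, c y = 0 ∧ ∀ j ∈ W, c (ρ j) = σ j * c0 j) :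
    CM L C (fun i => ρ (φ i)) (fun i => ε i * σ (φ i)) (insert y (X.image ρ)) := by
  refine ⟨fun i hi j hj e => h.inj hi hj (hρ (hU i hi) (hU j hj) e), fun i hi e => ?_,
    fun i hi => ?_, fun c hc h0 => ?_, fun c hc => ?_⟩
  · rcases mem_insert.1 e with e | e
    · exact hy _ (hU i hi) e
    · obtain ⟨j, hj, e⟩ := mem_image.1 e
      exact h.nX i hi (hρ (hX j hj) (hU i hi) e ▸ hj)
  · linear_combination (σ (φ i) * σ (φ i)) * h.sq i hi + hσ (φ i)
  · obtain ⟨c0, a1, a2⟩ := h1 c hc (h0 y (mem_insert_self _ _))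
    have := h.pull c0 a1 fun j hj => by
      have e := a2 j (hX j hj)
      rw [h0 _ (mem_insert_of_mem (mem_image_of_mem ρ hj))] at e
      linear_combination (-σ j) * e - c0 j * hσ j
    have e : (fun i => if i ∈ L.Z then ε i * σ (φ i) * c (ρ (φ i)) else 0) =
        fun i => if i ∈ L.Z then ε i * c0 (φ i) else 0 := funext fun i => by
      by_cases hi : i ∈ L.Z
      · simp only [hi, if_true]
        rw [a2 _ (hU i hi)]
        linear_combination (ε i * c0 (φ i)) * hσ (φ i)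
      · simp only [hi, if_false]
    rw [e]
    exact this
  · obtain ⟨c0, a1, a2, a3⟩ := h.push c hc
    obtain ⟨c', b1, b2, b3⟩ := h2 c0 a1
    refine ⟨c', b1, fun j hj => ?_, fun i hi => ?_⟩
    · rcases mem_insert.1 hj with rfl | hj
      · exact b2
      · obtain ⟨k, hk, rfl⟩ := mem_image.1 hj
        rw [b3 k (hX k hk), a2 k hk, mul_zero]
    · rw [b3 _ (hU i hi), a3 i hi]; ring

/-- two elements of `L` can be separated by a word. -/
def Sep (L : Disp K) : Prop := ∀ i ∈ L.Z, ∀ j ∈ L.Z, ∃ c ∈ L.code, c i ≠ 0 ∧ (j ≠ i → c j = 0)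

theorem CM.ne (h : CM L C φ ε X) {i : ℕ} (hi : i ∈ L.Z) : ε i ≠ 0 :=
  left_ne_zero_of_mul_eq_one (h.sq i hi)

theorem CM.sep (h : CM L C φ ε X) (hL : Sep L) {p q : ℕ} (hp : p ∈ L.Z.image φ) (hqp : q ≠ p)
    (hq : q ∈ L.Z.image φ ∨ q ∈ X) : ∃ c ∈ C, (∀ i ∈ X, c i = 0) ∧ c q = 0 ∧ c p ≠ 0 := by
  obtain ⟨i, hi, rfl⟩ := mem_image.1 hp
  rcases hq with hq | hq
  · obtain ⟨j, hj, rfl⟩ := mem_image.1 hq
    obtain ⟨c, a1, a2, a3⟩ := hL i hi j hj
    obtain ⟨c', b1, b2, b3⟩ := h.push c a1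
    refine ⟨c', b1, b2, ?_, ?_⟩
    · rw [b3 j hj, a3 fun e => hqp (by rw [e]), mul_zero]
    · rw [b3 i hi]; exact mul_ne_zero (h.ne hi) a2
  · obtain ⟨c, a1, a2, -⟩ := hL i hi i hi
    obtain ⟨c', b1, b2, b3⟩ := h.push c a1
    exact ⟨c', b1, b2, b2 q hq, by rw [b3 i hi]; exact mul_ne_zero (h.ne hi) a2⟩

theorem CM.mem {D : Disp K} (h : CM L (D.code : Set (ℕ → K)) φ ε X) (hL : Sep L) :
    ∀ i ∈ L.Z, φ i ∈ D.Z := by
  intro i hi
  obtain ⟨c, a1, a2, -⟩ := hL i hi i hi
  obtain ⟨c', b1, -, b3⟩ := h.push c a1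
  by_contra hn
  have := b1.1 _ hn
  rw [b3 i hi] at this
  exact mul_ne_zero (h.ne hi) a2 this

/-- the position of a line with at least three points. -/
theorem CM.line (h : CM L C φ ε X) (hL : Sep L) {Q : Finset ℕ} (h3 : 3 ≤ Q.card)
    (hQ : ∀ c ∈ C, ∀ x ∈ Q, ∀ y ∈ Q, x ≠ y → c x = 0 → c y = 0 → ∀ z ∈ Q, c z = 0) :
    Q ⊆ L.Z.image φ ∨ (∃ x ∈ Q, x ∉ L.Z.image φ ∧ x ∉ X) ∨ Q ⊆ X := by
  by_contra hc
  push Not at hc
  obtain ⟨a1, a2, a3⟩ := hc
  obtain ⟨x, hx, hxU⟩ := not_subset.1 a1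
  obtain ⟨p, hp, hpX⟩ := not_subset.1 a3
  have hxX := a2 x hx hxU
  have hpU : p ∈ L.Z.image φ := by
    by_contra e
    exact hpX (a2 p hp e)
  obtain ⟨q, hq⟩ : ((Q.erase x).erase p).Nonempty := by
    have := pred_card_le_card_erase (s := Q) (a := x)
    have := pred_card_le_card_erase (s := Q.erase x) (a := p)
    exact card_pos.1 (by omega)
  obtain ⟨q1, hq⟩ := mem_erase.1 hq
  obtain ⟨q2, hq⟩ := mem_erase.1 hq
  obtain ⟨c, b1, b2, b3, b4⟩ := h.sep hL hpU q1 (by
    by_cases e : q ∈ L.Z.image φ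
    · exact Or.inl e
    · exact Or.inr (a2 q hq e))
  exact b4 (hQ c b1 q hq x hx q2 b3 (b2 x hxX) p hp)

/-- the words obtained by shortening at `w` and writing a new coordinate there. -/
def YC (C : Set (ℕ → K)) (w a b : ℕ) (s α β : K) : Set (ℕ → K) :=
  {c0 | ∃ c ∈ C, c w = 0 ∧ c0 w = s * (β * c a - α * c b) ∧ ∀ j, j ≠ w → c0 j = c j}

theorem YC_swap (C : Set (ℕ → K)) (w a b : ℕ) (s α β : K) :
    YC C w a b s α β = YC C w b a (-s) β α := by
  ext c0
  refine exists_congr fun c => and_congr_right fun _ => and_congr_right fun _ =>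
    and_congr_left fun _ => ?_
  rw [show -s * (α * c b - β * c a) = s * (β * c a - α * c b) by ring]

theorem upd_mem {c : ℕ → K} (hc : c ∈ C) {w : ℕ} (h0 : c w = 0) (a b : ℕ) (s α β : K) :
    Function.update c w (s * (β * c a - α * c b)) ∈ YC C w a b s α β :=
  ⟨c, hc, h0, Function.update_self _ _ _, fun _ hj => Function.update_of_ne hj _ _⟩

theorem CM.del_w {w a b : ℕ} {s α β : K} (h : CM L (YC C w a b s α β) φ ε X)
    (hU : w ∉ L.Z.image φ) (hX : w ∉ X) : ∃ φ' ε' X', CM L C φ' ε' X' := by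
  refine ⟨_, _, _, h.transfer id (fun _ => 1) w {j | j ≠ w} (fun j hj e => hX (e ▸ hj))
    (fun i hi e => hU (e ▸ mem_image_of_mem φ hi)) (Set.injOn_id _) (fun j hj => hj)
    (fun _ => mul_one _) (fun c hc h0 => ⟨_, upd_mem hc h0 a b s α β, fun j hj => ?_⟩) ?_⟩
  · rw [Function.update_of_ne hj, one_mul, id]
  · rintro c0 ⟨c, a1, a2, -, a4⟩
    exact ⟨c, a1, a2, fun j hj => by rw [a4 j hj, one_mul, id]⟩

theorem CM.del_b {M : Submodule K (ℕ → K)} {w a b : ℕ} {s : K} {r : ℕ → K} (hr : r ∈ M)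
    (hw : r w = 1) (ha : r a * r a = 1) (hs : s * s = 1) (hab : a ≠ b) (haw : a ≠ w) (hbw : b ≠ w)
    (h : CM L (YC (M : Set (ℕ → K)) w a b s (r a) (r b)) φ ε X)
    (h0 : ∀ j, j ∈ L.Z.image φ ∨ j ∈ X → j ≠ a → j ≠ b → j ≠ w → r j = 0)
    (hU : b ∉ L.Z.image φ) (hX : b ∉ X) : ∃ φ' ε' X', CM L (M : Set (ℕ → K)) φ' ε' X' := by
  have hb : ∀ j, j ∈ L.Z.image φ ∨ j ∈ X → j ≠ b := fun j hj e => by
    rw [e] at hj
    exact hj.elim hU hX
  refine ⟨_, _, _, h.transfer (fun j => if j = a then w else if j = w then b else j)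
    (fun j => if j = a then - r a else if j = w then - (s * r a) else 1) a
    {j | j ∈ L.Z.image φ ∨ j ∈ X} (fun j hj => Or.inr hj)
    (fun i hi => Or.inl (mem_image_of_mem φ hi)) ?_ ?_ ?_ ?_ ?_⟩
  · intro i hi j hj e
    have := hb i hi
    have := hb j hj
    simp only at e
    split_ifs at e <;> omega
  · intro j _
    split_ifs <;> omega
  · intro j
    split_ifs
    · linear_combination ha
    · linear_combination (r a * r a) * hs + ha
    · exact mul_one _
  · intro c hc ca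
    have m : c - c w • r ∈ M := M.sub_mem hc (M.smul_mem _ hr)
    refine ⟨_, upd_mem m (by simp [hw]) a b s (r a) (r b), fun j hj => ?_⟩
    by_cases e1 : j = a
    · rw [if_pos e1, if_pos e1, e1, Function.update_of_ne haw]
      simp only [Pi.sub_apply, Pi.smul_apply, smul_eq_mul, ca]
      linear_combination (-c w) * ha
    · by_cases e2 : j = w
      · rw [if_neg e1, if_neg e1, if_pos e2, if_pos e2, e2, Function.update_self]
        simp only [Pi.sub_apply, Pi.smul_apply, smul_eq_mul, ca]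
        linear_combination (- c b * r a * r a) * hs - c b * ha
      · rw [if_neg e1, if_neg e1, if_neg e2, if_neg e2, Function.update_of_ne e2]
        simp [h0 j hj e1 (hb j hj) e2]
  · rintro c0 ⟨c, a1, a2, a3, a4⟩
    refine ⟨c - (r a * c a) • r, M.sub_mem a1 (M.smul_mem _ hr), ?_, fun j hj => ?_⟩
    · simp only [Pi.sub_apply, Pi.smul_apply, smul_eq_mul]
      linear_combination (- c a) * ha
    · by_cases e1 : j = a
      · rw [if_pos e1, if_pos e1, e1, a4 a haw]
        simp only [Pi.sub_apply, Pi.smul_apply, smul_eq_mul, a2, hw]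
        ring
      · by_cases e2 : j = w
        · rw [if_neg e1, if_neg e1, if_pos e2, if_pos e2, e2, a3]
          simp only [Pi.sub_apply, Pi.smul_apply, smul_eq_mul]
          linear_combination (r a * r b * c a - r a * r a * c b) * hs - c b * ha
        · rw [if_neg e1, if_neg e1, if_neg e2, if_neg e2, a4 j e2]
          simp [h0 j hj e1 (hb j hj) e2]

end SBFAux

end Pool.Agent.Lib.MP_c69b6d_co.F
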