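import Pool.Agent.Lib.MP_c69b6d_co.F.SB0
import Pool.Agent.Lib.MP_c69b6d_co.F.SBFa

/-! Stage B: finite facts on the codes of the members of `NL`. -/

namespace Pool.Agent.Lib.MP_c69b6d_co.F

open Finset Disp

namespace SBFAux

def w7 (x y z : F3) (j : ℕ) : F3 := [x, y, z, x + y, x + z, y + z, x + y + z].getD j 0

def w7d (x y z u : F3) (j : ℕ) : F3 :=
  [-(x + y + u), -(x + z + u), -(y + z + u), x, y, z, u].getD j 0

def w8 (x y z u : F3) (j : ℕ) : F3 :=
  [x, y, z, u, y + z - u, x + z + u, x + y + u, y + z - x].getD j 0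

theorem Z7 : cF7m.toDisp.Z = range 7 := by decide +kernel
theorem Z7d : cF7md.toDisp.Z = range 7 := by decide +kernel
theorem Z8 : cP8.toDisp.Z = range 8 := by decide +kernel
theorem B7 : cF7m.toDisp.B = {0, 1, 2} := by decide +kernel
theorem B7d : cF7md.toDisp.B = {3, 4, 5, 6} := by decide +kernel

theorem w7_mem (x y z : F3) : w7 x y z ∈ cF7m.toDisp.code := by
  refine mem_code.2 ⟨fun i hi => ?_, ?_⟩
  · rw [Z7, mem_range] at hi
    exact List.getD_eq_default _ _ (by simpa using hi)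
  · rw [Z7]
    revert x y z
    decide +kernel

theorem w7d_mem (x y z u : F3) : w7d x y z u ∈ cF7md.toDisp.code := by
  refine mem_code.2 ⟨fun i hi => ?_, ?_⟩
  · rw [Z7d, mem_range] at hi
    exact List.getD_eq_default _ _ (by simpa using hi)
  · rw [Z7d]
    revert x y z u
    decide +kernel

theorem w8_mem (x y z u : F3) : w8 x y z u ∈ cP8.toDisp.code := by
  refine mem_code.2 ⟨fun i hi => ?_, ?_⟩
  · rw [Z8, mem_range] at hi
    exact List.getD_eq_default _ _ (by simpa using hi)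
  · rw [Z8]
    revert x y z u
    decide +kernel

theorem eq_w7 {c : ℕ → F3} (hc : c ∈ cF7m.toDisp.code) : c = w7 (c 0) (c 1) (c 2) := by
  refine sub_eq_zero.1 (code_zero (Submodule.sub_mem _ hc (w7_mem _ _ _)) fun i hi => ?_)
  rw [B7] at hi
  simp only [mem_insert, mem_singleton] at hi
  rcases hi with rfl | rfl | rfl <;> simp [w7]

theorem eq_w7d {c : ℕ → F3} (hc : c ∈ cF7md.toDisp.code) : c = w7d (c 3) (c 4) (c 5) (c 6) := by
  refine sub_eq_zero.1 (code_zero (Submodule.sub_mem _ hc (w7d_mem _ _ _ _)) fun i hi => ?_)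
  rw [B7d] at hi
  simp only [mem_insert, mem_singleton] at hi
  rcases hi with rfl | rfl | rfl | rfl <;> simp [w7d]

/-- the members of `S` are supports of words of `L`. -/
def Sup (L : Disp F3) (S : List ℕ) : Prop :=
  ∀ s ∈ S, ∃ c ∈ L.code, ∀ i ∈ L.Z, (c i = 0 ↔ s.testBit i = false)

def S7 : List ℕ := [106, 45, 51, 116, 30, 89, 103, 79, 87]

def S7d : List ℕ := [11, 21, 38, 76, 82, 97, 30, 45, 51, 57, 58, 60, 71, 89, 106, 116, 120]

def S8 : List ℕ := [142, 23, 153, 43, 180, 77, 210, 225, 102, 120, 167, 173, 179, 186, 61, 62, 199,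
  203, 213, 91, 220, 94, 234, 236, 115, 117]

theorem sup7 : Sup cF7m.toDisp S7 := by
  have k : ∀ s ∈ S7, ∃ x y z : F3, ∀ i ∈ range 7, (w7 x y z i = 0 ↔ s.testBit i = false) := by
    decide +kernel
  intro s hs
  obtain ⟨x, y, z, h⟩ := k s hs
  exact ⟨_, w7_mem x y z, Z7 ▸ h⟩

theorem sup7d : Sup cF7md.toDisp S7d := by
  have k : ∀ s ∈ S7d, ∃ x y z u : F3, ∀ i ∈ range 7,
      (w7d x y z u i = 0 ↔ s.testBit i = false) := by decide +kernel
  intro s hs
  obtain ⟨x, y, z, u, h⟩ := k s hs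
  exact ⟨_, w7d_mem x y z u, Z7d ▸ h⟩

theorem sup8 : Sup cP8.toDisp S8 := by
  have k : ∀ s ∈ S8, ∃ x y z u : F3, ∀ i ∈ range 8,
      (w8 x y z u i = 0 ↔ s.testBit i = false) := by decide +kernel
  intro s hs
  obtain ⟨x, y, z, u, h⟩ := k s hs
  exact ⟨_, w8_mem x y z u, Z8 ▸ h⟩

/-- three elements can be separated by a word. -/
def Sep3 (L : Disp F3) : Prop := ∀ i ∈ L.Z, ∀ j ∈ L.Z, ∀ k ∈ L.Z, ∃ c ∈ L.code, c i ≠ 0 ∧
  (j ≠ i → c j = 0) ∧ (k ≠ i → c k = 0)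

theorem Sep3.sep {L : Disp F3} (h : Sep3 L) : Sep L := fun i hi j hj => by
  obtain ⟨c, a1, a2, a3, -⟩ := h i hi j hj j hj
  exact ⟨c, a1, a2, a3⟩

theorem Sup.sep3 {L : Disp F3} {S : List ℕ} {n : ℕ} (h : Sup L S) (hZ : L.Z = range n)
    (k : ∀ i ∈ range n, ∀ j ∈ range n, ∀ l ∈ range n, S.any (fun s => s.testBit i &&
      (j == i || !s.testBit j) && (l == i || !s.testBit l)) = true) : Sep3 L := by
  intro i hi j hj l hl
  obtain ⟨s, hs, e⟩ := List.any_eq_true.1 (k i (hZ ▸ hi) j (hZ ▸ hj) l (hZ ▸ hl))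
  obtain ⟨c, a1, a2⟩ := h s hs
  simp only [Bool.and_eq_true, Bool.or_eq_true, beq_iff_eq, Bool.not_eq_true'] at e
  refine ⟨c, a1, fun z => ?_, fun z => (a2 j hj).2 (e.1.2.resolve_left z),
    fun z => (a2 l hl).2 (e.2.resolve_left z)⟩
  have := (a2 i hi).1 z
  rw [e.1.1] at this
  cases this

theorem sep7 : Sep cF7m.toDisp := by
  have k : ∀ i ∈ range 7, ∀ j ∈ range 7, S7.any (fun s => s.testBit i &&
      (j == i || !s.testBit j)) = true := by decide +kernel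
  intro i hi j hj
  obtain ⟨s, hs, e⟩ := List.any_eq_true.1 (k i (Z7 ▸ hi) j (Z7 ▸ hj))
  obtain ⟨c, a1, a2⟩ := sup7 s hs
  simp only [Bool.and_eq_true, Bool.or_eq_true, beq_iff_eq, Bool.not_eq_true'] at e
  refine ⟨c, a1, fun z => ?_, fun z => (a2 j hj).2 (e.2.resolve_left z)⟩
  have := (a2 i hi).1 z
  rw [e.1] at this
  cases this

theorem sep7d : Sep3 cF7md.toDisp := sup7d.sep3 Z7d (by decide +kernel)

theorem sep8 : Sep3 cP8.toDisp := sup8.sep3 Z8 (by decide +kernel)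

theorem four7 {a b t w : ℕ} (ha : a ∈ cF7m.toDisp.Z) (hb : b ∈ cF7m.toDisp.Z)
    (ht : t ∈ cF7m.toDisp.Z) (hw : w ∈ cF7m.toDisp.Z) (h1 : t ≠ a) (h2 : t ≠ b) (h3 : w ≠ a)
    (h4 : w ≠ b) (h5 : w ≠ t) :
    ∃ c ∈ cF7m.toDisp.code, c a = 0 ∧ c b = 0 ∧ ¬ (c t = 0 ∧ c w = 0) := by
  have k : ∀ a ∈ range 7, ∀ b ∈ range 7, ∀ t ∈ range 7, ∀ w ∈ range 7,
      (t == a || t == b || w == a || w == b || w == t || S7.any (fun s => !s.testBit a &&
        !s.testBit b && (s.testBit t || s.testBit w))) = true := by decide +kernel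
  have := k a (Z7 ▸ ha) b (Z7 ▸ hb) t (Z7 ▸ ht) w (Z7 ▸ hw)
  simp only [Bool.or_eq_true, beq_iff_eq, h1, h2, h3, h4, h5, false_or] at this
  obtain ⟨s, hs, e⟩ := List.any_eq_true.1 this
  obtain ⟨c, a1, a2⟩ := sup7 s hs
  simp only [Bool.and_eq_true, Bool.or_eq_true, Bool.not_eq_true'] at e
  refine ⟨c, a1, (a2 a ha).2 e.1.1, (a2 b hb).2 e.1.2, fun z => ?_⟩
  have e1 := (a2 t ht).1 z.1
  have e2 := (a2 w hw).1 z.2
  rw [e1, e2] at e
  simp at e

theorem NL_cases {N : Disp F3} (h : N ∈ NL) : N = cF7m.toDisp ∨ Sep3 N := by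
  simp only [NL, List.mem_cons, List.not_mem_nil, or_false] at h
  rcases h with rfl | rfl | rfl
  · exact Or.inl rfl
  · exact Or.inr sep7d
  · exact Or.inr sep8

theorem NL_sep {N : Disp F3} (h : N ∈ NL) : Sep N := by
  rcases NL_cases h with rfl | h
  · exact sep7
  · exact h.sep

/-- the words of the exchange of the triangle `a, b, w` of the non-Fano matroid for a triad. -/
def gw (a b w : ℕ) (A B x y z k : F3) (j : ℕ) : F3 :=
  if j = w then k else w7 x y z j + k * (if j = a then A else if j = b then B else 0)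

def ps (e i : ℕ) : ℕ := (e >>> (4 * i)) % 8

def dl (e i : ℕ) : F3 := if e.testBit (4 * i + 3) then -1 else 1

def tbl : List ℕ := [95335568, 95302800, 94290848, 94258080, 220630065, 95290545, 219702450,
  93383730, 111772995, 245990723, 240198704, 248587312, 76469153, 76436385, 99259440, 224533680,
  239084849, 247473457, 238032194, 246420802]

theorem tbl_perm : ∀ e ∈ tbl, ∀ i ∈ range 7, ps e i ∈ range 7 ∧ dl e i * dl e i = 1 ∧
    ∀ j ∈ range 7, ps e i = ps e j → i = j := by decide +kernel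

/-- the signed and permuted word. -/
def vw (e a b w : ℕ) (A B x y z k : F3) (i : ℕ) : F3 := dl e i * gw a b w A B x y z k (ps e i)

theorem w7_lin (x y z : F3) (j : ℕ) : w7 x y z j = x * w7 1 0 0 j + y * w7 0 1 0 j + z * w7 0 0 1 j := by
  by_cases h : j < 7
  · interval_cases j <;> simp [w7]
  · simp only [w7]
    rw [List.getD_eq_default _ _ (by simpa using h), List.getD_eq_default _ _ (by simpa using h),
      List.getD_eq_default _ _ (by simpa using h), List.getD_eq_default _ _ (by simpa using h)]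
    simp

theorem vw_lin (e a b w : ℕ) (A B x y z k : F3) (i : ℕ) : vw e a b w A B x y z k i =
    x * vw e a b w A B 1 0 0 0 i + y * vw e a b w A B 0 1 0 0 i + z * vw e a b w A B 0 0 1 0 i +
      k * vw e a b w A B 0 0 0 1 i := by
  simp only [vw, gw]
  rw [w7_lin x y z, w7_lin 0 0 0]
  split_ifs <;> ring

/-- the equations of the code of the dual of the non-Fano matroid. -/
def Eqs (v : ℕ → F3) : Prop :=
  v 0 = -(v 3 + v 4 + v 6) ∧ v 1 = -(v 3 + v 5 + v 6) ∧ v 2 = -(v 4 + v 5 + v 6)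

instance (v : ℕ → F3) : Decidable (Eqs v) := by unfold Eqs; infer_instance

/-- prescribed values on the rows. -/
def Hit (v : F3 → F3 → F3 → F3 → ℕ → F3) (p q r s : F3) : Prop :=
  ∃ x y z k : F3, v x y z k 3 = p ∧ v x y z k 4 = q ∧ v x y z k 5 = r ∧ v x y z k 6 = s

instance (v : F3 → F3 → F3 → F3 → ℕ → F3) (p q r s : F3) : Decidable (Hit v p q r s) := by
  unfold Hit; infer_instance

theorem tbl_ok0 : ∀ a ∈ range 7, ∀ b ∈ range 7, ∀ w ∈ range 7, a ≠ b → a ≠ w → b ≠ w →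
    ∀ A ∈ [(1 : F3), -1], ∀ B ∈ [(1 : F3), -1], ∀ s ∈ [(1 : F3), -1],
    w7 1 0 0 w = s * (B * w7 1 0 0 a - A * w7 1 0 0 b) →
    w7 0 1 0 w = s * (B * w7 0 1 0 a - A * w7 0 1 0 b) →
    w7 0 0 1 w = s * (B * w7 0 0 1 a - A * w7 0 0 1 b) → ∃ e ∈ tbl,
      Eqs (vw e a b w A B 0 0 0 1) ∧ Eqs (vw e a b w A B 1 0 0 0) ∧ Eqs (vw e a b w A B 0 1 0 0) ∧
      Eqs (vw e a b w A B 0 0 1 0) ∧ Hit (vw e a b w A B) 1 0 0 0 ∧ Hit (vw e a b w A B) 0 1 0 0 ∧
      Hit (vw e a b w A B) 0 0 1 0 ∧ Hit (vw e a b w A B) 0 0 0 1 := by decide +kernel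

theorem tbl_ok {a b w : ℕ} (ha : a ∈ range 7) (hb : b ∈ range 7) (hw : w ∈ range 7) (h1 : a ≠ b)
    (h2 : a ≠ w) (h3 : b ≠ w) {A B s : F3} (hA : A ≠ 0) (hB : B ≠ 0) (hs : s ≠ 0)
    (h : ∀ c ∈ cF7m.toDisp.code, c w = s * (B * c a - A * c b)) : ∃ e ∈ tbl,
      (∀ x y z k, Eqs (vw e a b w A B x y z k)) ∧ ∀ p q r u, Hit (vw e a b w A B) p q r u := by
  have k : ∀ x : F3, x ≠ 0 → x ∈ [(1 : F3), -1] := by decide
  obtain ⟨e, he, e4, e1, e2, e3, ⟨x1, y1, z1, k1, p1⟩, ⟨x2, y2, z2, k2, p2⟩, ⟨x3, y3, z3, k3, p3⟩,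
    ⟨x4, y4, z4, k4, p4⟩⟩ := tbl_ok0 a ha b hb w hw h1 h2 h3 A (k A hA) B (k B hB) s (k s hs)
      (h _ (w7_mem _ _ _)) (h _ (w7_mem _ _ _)) (h _ (w7_mem _ _ _))
  refine ⟨e, he, fun x y z k => ?_, fun p q r u => ⟨p * x1 + q * x2 + r * x3 + u * x4,
    p * y1 + q * y2 + r * y3 + u * y4, p * z1 + q * z2 + r * z3 + u * z4,
    p * k1 + q * k2 + r * k3 + u * k4, ?_⟩⟩
  · unfold Eqs
    rw [vw_lin e a b w A B x y z k 0, vw_lin e a b w A B x y z k 1, vw_lin e a b w A B x y z k 2,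
      vw_lin e a b w A B x y z k 3, vw_lin e a b w A B x y z k 4, vw_lin e a b w A B x y z k 5,
      vw_lin e a b w A B x y z k 6]
    refine ⟨?_, ?_, ?_⟩
    · linear_combination x * e1.1 + y * e2.1 + z * e3.1 + k * e4.1
    · linear_combination x * e1.2.1 + y * e2.2.1 + z * e3.2.1 + k * e4.2.1
    · linear_combination x * e1.2.2 + y * e2.2.2 + z * e3.2.2 + k * e4.2.2
  · have l : ∀ i, vw e a b w A B (p * x1 + q * x2 + r * x3 + u * x4)
        (p * y1 + q * y2 + r * y3 + u * y4) (p * z1 + q * z2 + r * z3 + u * z4)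
        (p * k1 + q * k2 + r * k3 + u * k4) i = p * vw e a b w A B x1 y1 z1 k1 i +
        q * vw e a b w A B x2 y2 z2 k2 i + r * vw e a b w A B x3 y3 z3 k3 i +
        u * vw e a b w A B x4 y4 z4 k4 i := fun i => by
      rw [vw_lin, vw_lin e a b w A B x1, vw_lin e a b w A B x2, vw_lin e a b w A B x3,
        vw_lin e a b w A B x4]
      ring
    rw [l, l, l, l, p1.1, p1.2.1, p1.2.2.1, p1.2.2.2, p2.1, p2.2.1, p2.2.2.1, p2.2.2.2,
      p3.1, p3.2.1, p3.2.2.1, p3.2.2.2, p4.1, p4.2.1, p4.2.2.1, p4.2.2.2]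
    simp

theorem mem_of_eqs {v : ℕ → F3} (h : Eqs v) :
    (fun i => if i ∈ range 7 then v i else 0) = w7d (v 3) (v 4) (v 5) (v 6) := by
  funext i
  by_cases hi : i < 7
  · rw [if_pos (mem_range.2 hi)]
    interval_cases i <;> simp [w7d, h.1, h.2.1, h.2.2]
  · rw [if_neg (mt mem_range.1 hi)]
    exact (List.getD_eq_default _ _ (by simpa using hi)).symm

end SBFAux

end Pool.Agent.Lib.MP_c69b6d_co.F
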