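import Pool.Agent.Lib.MP_c69b6d_co.F.SBFb

/-! Stage B: `yd` creates no member of `NL` (proof). -/

namespace Pool.Agent.Lib.MP_c69b6d_co.F

open Finset Disp

namespace SBFAux

variable {φ : ℕ → ℕ} {ε : ℕ → F3} {X : Finset ℕ} {M : Submodule F3 (ℕ → F3)} {w a b : ℕ} {s : F3}
  {r : ℕ → F3}

theorem sq3 {s : F3} (h : s ≠ 0) : s * s = 1 := by
  revert s
  decide

theorem YC_rel {C : Set (ℕ → F3)} {α β : F3} {c : ℕ → F3} (hc : c ∈ YC C w a b s α β)
    (haw : a ≠ w) (hbw : b ≠ w) : c w = s * (β * c a - α * c b) := by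
  obtain ⟨c1, -, -, a3, a4⟩ := hc
  rw [a3, a4 a haw, a4 b hbw]

theorem tri_case (hr : r ∈ M) (hw : r w = 1) (ha : r a ≠ 0) (hb : r b ≠ 0) (hs : s ≠ 0)
    (hab : a ≠ b) (haw : a ≠ w) (hbw : b ≠ w)
    (h : CM cF7m.toDisp (YC (M : Set (ℕ → F3)) w a b s (r a) (r b)) φ ε X)
    (h0 : ∀ j, j ∈ cF7m.toDisp.Z.image φ ∨ j ∈ X → j ≠ a → j ≠ b → j ≠ w → r j = 0)
    {a' b' w' : ℕ} (ma : a' ∈ cF7m.toDisp.Z) (mb : b' ∈ cF7m.toDisp.Z) (mw : w' ∈ cF7m.toDisp.Z)
    (ea : φ a' = a) (eb : φ b' = b) (ew : φ w' = w) :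
    ∃ φ' ε', CM cF7md.toDisp (M : Set (ℕ → F3)) φ' ε' X := by
  have n1 : a' ≠ b' := fun e => hab (by rw [← ea, ← eb, e])
  have n2 : a' ≠ w' := fun e => haw (by rw [← ea, ← ew, e])
  have n3 : b' ≠ w' := fun e => hbw (by rw [← eb, ← ew, e])
  obtain ⟨e, he, t1, t2⟩ := tbl_ok (Z7 ▸ ma) (Z7 ▸ mb) (Z7 ▸ mw) n1 n2 n3
    (A := ε a' * r a) (B := ε b' * r b) (s := ε w' * s * ε a' * ε b')
    (mul_ne_zero (h.ne ma) ha) (mul_ne_zero (h.ne mb) hb)
    (mul_ne_zero (mul_ne_zero (mul_ne_zero (h.ne mw) hs) (h.ne ma)) (h.ne mb)) fun c hc => by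
      obtain ⟨c0, a1, -, a3⟩ := h.push c hc
      have := YC_rel a1 haw hbw
      rw [← ea, ← eb, ← ew, a3 _ ma, a3 _ mb, a3 _ mw, ea, eb] at this
      linear_combination ε w' * this - c w' * h.sq _ mw - (ε w' * s * ε a' * r b * c a') * h.sq _ mb
        + (ε w' * s * ε b' * r a * c b') * h.sq _ ma
  have rX : ∀ j ∈ X, r j = 0 ∧ j ≠ w := fun j hj =>
    ⟨h0 j (Or.inr hj) (fun e => h.nX _ ma (by rw [ea, ← e]; exact hj))
      (fun e => h.nX _ mb (by rw [eb, ← e]; exact hj))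
      (fun e => h.nX _ mw (by rw [ew, ← e]; exact hj)),
      fun e => h.nX _ mw (by rw [ew, ← e]; exact hj)⟩
  have rU : ∀ j ∈ cF7m.toDisp.Z, j ≠ w' → φ j ≠ w ∧
      ε j * r (φ j) = if j = a' then ε a' * r a else if j = b' then ε b' * r b else 0 := by
    intro j hj hjw
    have q : φ j ≠ w := fun e => hjw (h.inj hj mw (e.trans ew.symm))
    refine ⟨q, ?_⟩
    split_ifs with e1 e2
    · rw [e1, ea]
    · rw [e2, eb]
    · rw [h0 _ (Or.inl (mem_image_of_mem φ hj)) (fun e => e1 (h.inj hj ma (e.trans ea.symm)))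
        (fun e => e2 (h.inj hj mb (e.trans eb.symm))) q, mul_zero]
  have K1 : ∀ c ∈ M, (∀ i ∈ X, c i = 0) → ∃ x y z, ∀ j ∈ cF7m.toDisp.Z,
      (if j = w' then 1 else ε j) * c (φ j) =
        gw a' b' w' (ε a' * r a) (ε b' * r b) x y z (c w) j := by
    intro c hc cX
    have m : c - c w • r ∈ M := M.sub_mem hc (M.smul_mem _ hr)
    have q := h.pull _ (upd_mem m (by simp [hw]) a b s (r a) (r b)) fun j hj => by
      rw [Function.update_of_ne (rX j hj).2]
      simp [cX j hj, (rX j hj).1]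
    obtain ⟨x, y, z, this⟩ : ∃ x y z, _ = w7 x y z := ⟨_, _, _, eq_w7 q⟩
    refine ⟨x, y, z, fun j hj => ?_⟩
    unfold gw
    by_cases e1 : j = w'
    · rw [if_pos e1, if_pos e1, e1, ew, one_mul]
    · rw [if_neg e1, if_neg e1, ← congrFun this j, ← (rU j hj e1).2, if_pos hj,
        Function.update_of_ne (rU j hj e1).1]
      simp only [Pi.sub_apply, Pi.smul_apply, smul_eq_mul]
      ring
  have K2 : ∀ x y z k, ∃ c ∈ M, (∀ i ∈ X, c i = 0) ∧ ∀ j ∈ cF7m.toDisp.Z,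
      (if j = w' then 1 else ε j) * c (φ j) =
        gw a' b' w' (ε a' * r a) (ε b' * r b) x y z k j := by
    intro x y z k
    obtain ⟨c0, ⟨c, a1, a2, -, a4⟩, b2, b3⟩ := h.push _ (w7_mem x y z)
    refine ⟨c + k • r, M.add_mem a1 (M.smul_mem _ hr), fun i hi => ?_, fun j hj => ?_⟩
    · simp [← a4 i (rX i hi).2, b2 i hi, (rX i hi).1]
    · unfold gw
      by_cases e1 : j = w'
      · rw [if_pos e1, if_pos e1, e1, ew, one_mul]
        simp [a2, hw]
      · rw [if_neg e1, if_neg e1, ← (rU j hj e1).2]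
        simp only [Pi.add_apply, Pi.smul_apply, smul_eq_mul]
        rw [← a4 _ (rU j hj e1).1, b3 j hj]
        linear_combination w7 x y z j * h.sq j hj
  have pm : ∀ i ∈ cF7md.toDisp.Z, ps e i ∈ cF7m.toDisp.Z := fun i hi =>
    Z7 ▸ (tbl_perm e he i (Z7d ▸ hi)).1
  have sq : ∀ i ∈ cF7md.toDisp.Z, dl e i * (if ps e i = w' then 1 else ε (ps e i)) *
      (dl e i * (if ps e i = w' then 1 else ε (ps e i))) = 1 := fun i hi => by
    have d := (tbl_perm e he i (Z7d ▸ hi)).2.1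
    split_ifs
    · linear_combination d
    · linear_combination (dl e i * dl e i) * h.sq _ (pm i hi) + d
  refine ⟨fun i => φ (ps e i), fun i => dl e i * (if ps e i = w' then 1 else ε (ps e i)),
    fun i hi j hj e' => ?_, fun i hi => h.nX _ (pm i hi), sq, fun c hc cX => ?_, fun c hc => ?_⟩
  · exact (tbl_perm e he i (Z7d ▸ hi)).2.2 j (Z7d ▸ hj) (h.inj (pm i hi) (pm j hj) e')
  · obtain ⟨x, y, z, k⟩ := K1 c hc cX
    have q := mem_of_eqs (t1 x y z (c w))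
    have q' : (fun i => if i ∈ cF7md.toDisp.Z then dl e i * (if ps e i = w' then 1 else ε (ps e i))
        * c (φ (ps e i)) else 0) = fun i => if i ∈ range 7 then
          vw e a' b' w' (ε a' * r a) (ε b' * r b) x y z (c w) i else 0 := funext fun i => by
      rw [← Z7d]
      by_cases hi : i ∈ cF7md.toDisp.Z
      · rw [if_pos hi, if_pos hi, mul_assoc, k _ (pm i hi), vw]
      · rw [if_neg hi, if_neg hi]
    rw [q', q]
    exact w7d_mem _ _ _ _
  · obtain ⟨x, y, z, k, p3, p4, p5, p6⟩ := t2 (c 3) (c 4) (c 5) (c 6)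
    obtain ⟨c', a1, a2, a3⟩ := K2 x y z k
    refine ⟨c', a1, a2, fun i hi => ?_⟩
    have q := congrFun (mem_of_eqs (t1 x y z k)) i
    rw [p3, p4, p5, p6, ← eq_w7d hc, if_pos (Z7d ▸ hi), vw, ← a3 _ (pm i hi)] at q
    linear_combination (dl e i * (if ps e i = w' then 1 else ε (ps e i))) * q -
      c' (φ (ps e i)) * sq i hi

theorem y2 {N : Disp F3} (hN : N ∈ NL) (hr : r ∈ M) (hw : r w = 1) (ha : r a ≠ 0) (hb : r b ≠ 0)
    (hs : s ≠ 0) (hab : a ≠ b) (haw : a ≠ w) (hbw : b ≠ w)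
    (h : CM N (YC (M : Set (ℕ → F3)) w a b s (r a) (r b)) φ ε X)
    (h0 : ∀ j, j ∈ N.Z.image φ ∨ j ∈ X → j ≠ a → j ≠ b → j ≠ w → r j = 0) :
    ∃ N' ∈ NL, ∃ φ' ε' X', CM N' (M : Set (ℕ → F3)) φ' ε' X' := by
  have key : ∀ s α β x y z : F3, s ≠ 0 → α ≠ 0 → β ≠ 0 → z = s * (β * x - α * y) →
      (x = 0 ∧ y = 0) ∨ (x = 0 ∧ z = 0) ∨ (y = 0 ∧ z = 0) → x = 0 ∧ y = 0 ∧ z = 0 := by
    intro s α β x y z hs ha hb e
    rintro (⟨rfl, rfl⟩ | ⟨rfl, rfl⟩ | ⟨rfl, rfl⟩)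
    · simpa using e
    · simpa [hs, ha] using e
    · simpa [hs, hb] using e
  have hQ : ∀ c ∈ YC (M : Set (ℕ → F3)) w a b s (r a) (r b), ∀ x ∈ ({a, b, w} : Finset ℕ),
      ∀ y ∈ ({a, b, w} : Finset ℕ), x ≠ y → c x = 0 → c y = 0 →
      ∀ z ∈ ({a, b, w} : Finset ℕ), c z = 0 := by
    intro c hc x hx y hy hxy cx cy z hz
    have k := key _ _ _ _ _ _ hs ha hb (YC_rel hc haw hbw) (by
      simp only [mem_insert, mem_singleton] at hx hy
      rcases hx with rfl | rfl | rfl <;> rcases hy with rfl | rfl | rfl <;> tauto)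
    simp only [mem_insert, mem_singleton] at hz
    rcases hz with rfl | rfl | rfl <;> tauto
  have ma : a ∈ ({a, b, w} : Finset ℕ) := by simp
  have mb : b ∈ ({a, b, w} : Finset ℕ) := by simp
  have mw : w ∈ ({a, b, w} : Finset ℕ) := by simp
  rcases h.line (NL_sep hN) (Q := {a, b, w}) (by rw [card_eq_three.2 ⟨a, b, w, hab, haw, hbw, rfl⟩])
    hQ with hU | ⟨x, hx, h1, h2⟩ | hX
  · obtain ⟨a', ma', ea⟩ := mem_image.1 (hU ma)
    obtain ⟨b', mb', eb⟩ := mem_image.1 (hU mb)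
    obtain ⟨w', mw', ew⟩ := mem_image.1 (hU mw)
    rcases NL_cases hN with rfl | h3
    · obtain ⟨φ', ε', h'⟩ := tri_case hr hw ha hb hs hab haw hbw h h0 ma' mb' mw' ea eb ew
      exact ⟨_, by simp [NL], φ', ε', X, h'⟩
    · exfalso
      obtain ⟨c, a1, a2, a3, a4⟩ := h3 w' mw' a' ma' b' mb'
      obtain ⟨c0, b1, -, b3⟩ := h.push c a1
      have := hQ c0 b1 a ma b mb hab
        (by rw [← ea, b3 _ ma', a3 fun e => haw (by rw [← ea, ← ew, e]), mul_zero])
        (by rw [← eb, b3 _ mb', a4 fun e => hbw (by rw [← eb, ← ew, e]), mul_zero]) w mw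
      rw [← ew, b3 _ mw'] at this
      exact mul_ne_zero (h.ne mw') a2 this
  · simp only [mem_insert, mem_singleton] at hx
    rcases hx with rfl | rfl | rfl
    · rw [YC_swap] at h
      exact ⟨N, hN, h.del_b hr hw (sq3 hb) (sq3 (neg_ne_zero.2 hs)) hab.symm hbw haw
        (fun j hj e1 e2 e3 => h0 j hj e2 e1 e3) h1 h2⟩
    · exact ⟨N, hN, h.del_b hr hw (sq3 ha) (sq3 hs) hab haw hbw h0 h1 h2⟩
    · exact ⟨N, hN, h.del_w h1 h2⟩
  · refine ⟨N, hN, (h.erase (z := w) fun c hc c0 => hQ c hc a ma b mb hab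
      (c0 a (mem_erase.2 ⟨haw, hX ma⟩)) (c0 b (mem_erase.2 ⟨hbw, hX mb⟩)) w mw).del_w
      (fun e => ?_) (notMem_erase _ _)⟩
    obtain ⟨i, hi, e⟩ := mem_image.1 e
    exact h.nX i hi (e ▸ hX mw)

theorem yd_code {D : Disp F3} {T : Finset ℕ} (h : Cfg D w a b T) :
    ((yd D w a b).code : Set (ℕ → F3)) =
      YC (D.code : Set (ℕ → F3)) w a b 1 (D.S w a) (D.S w b) := by
  have hZ : (yd D w a b).Z = D.Z := insert_eq_of_mem h.mw
  have ra := h.cols a h.ma
  have rb := h.cols b h.mb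
  have e1 : ∀ c c0 : ℕ → F3, c w = 0 → (∀ j, j ≠ w → c0 j = c j) → ∀ j, j ≠ w → D.row j = false →
      ∑ i ∈ D.Z, c0 i * (yd D w a b).S i j = ∑ i ∈ D.Z, c i * D.S i j := by
    intro c c0 a1 a2 j hj rj
    refine sum_congr rfl fun i _ => ?_
    by_cases e : i = w
    · simp [yd, addEl, e, rj, a1]
    · simp [yd, addEl, e, hj, a2 i e]
  have e2 : ∀ c c0 : ℕ → F3, c ∈ D.code → c w = 0 → (∀ j, j ≠ w → c0 j = c j) →
      ∑ i ∈ D.Z, c0 i * (yd D w a b).S i w = 1 * (D.S w b * c a - D.S w a * c b) := by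
    intro c c0 hc a1 a2
    rw [hc.2 a (h.sub h.ma) ra, hc.2 b (h.sub h.mb) rb, one_mul, mul_sum, mul_sum,
      ← sum_sub_distrib]
    refine sum_congr rfl fun i _ => ?_
    by_cases e : i = w
    · simp [yd, addEl, e, a1]
    · cases ri : D.row i
      · simp [yd, addEl, e, ri, D.bip i a (ri.trans ra.symm), D.bip i b (ri.trans rb.symm)]
      · simp only [yd, addEl, e, ri, a2 i e, if_true, if_false, Bool.true_eq_false]
        ring
  have rw' : (yd D w a b).row w = false := by simp [yd, addEl]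
  have rj : ∀ j, j ≠ w → (yd D w a b).row j = D.row j := fun j hj => by simp [yd, addEl, hj]
  have nw : ∀ j, D.row j = false → j ≠ w := fun j hj e => by
    rw [e, h.rw] at hj
    cases hj
  ext c0
  constructor
  · intro hc
    have hc : c0 ∈ (yd D w a b).code := hc
    rw [mem_code, hZ] at hc
    have a1 : Function.update c0 w 0 w = 0 := Function.update_self _ _ _
    have a2 : ∀ j, j ≠ w → c0 j = Function.update c0 w 0 j := fun j hj =>
      (Function.update_of_ne hj _ _).symm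
    have m : Function.update c0 w 0 ∈ D.code := by
      refine mem_code.2 ⟨fun i hi => ?_, fun j hj r => ?_⟩
      · rw [← a2 i fun e => hi (e ▸ h.mw)]
        exact hc.1 i hi
      · rw [← a2 j (nw j r), ← e1 _ c0 a1 a2 j (nw j r) r]
        exact hc.2 j hj ((rj j (nw j r)).trans r)
    exact ⟨_, m, a1, by rw [← e2 _ c0 m a1 a2]; exact hc.2 w h.mw rw', a2⟩
  · rintro ⟨c, m, a1, a3, a2⟩
    have m : c ∈ D.code := m
    show c0 ∈ (yd D w a b).code
    rw [mem_code, hZ]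
    refine ⟨fun i hi => ?_, fun j hj r => ?_⟩
    · rw [a2 i fun e => hi (e ▸ h.mw)]
      exact m.1 i hi
    · by_cases e : j = w
      · rw [e, e2 c c0 m a1 a2, a3]
      · rw [rj j e] at r
        rw [e1 c c0 a1 a2 j e r, a2 j e]
        exact m.2 j hj r

theorem YC_congr {C : Set (ℕ → F3)} {a' b' : ℕ} {s' α β α' β' : F3}
    (h : ∀ c ∈ C, s * (β * c a - α * c b) = s' * (β' * c a' - α' * c b')) :
    YC C w a b s α β = YC C w a' b' s' α' β' := by
  ext c0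
  refine exists_congr fun c => and_congr_right fun hc => and_congr_right fun _ =>
    and_congr_left fun _ => ?_
  rw [h c hc]

theorem y3 {N : Disp F3} (hN : N ∈ NL) (hr : r ∈ M) (hw : r w = 1) (ha : r a ≠ 0) (hb : r b ≠ 0)
    {t : ℕ} (ht : r t ≠ 0) (hab : a ≠ b) (haw : a ≠ w) (hbw : b ≠ w) (hta : t ≠ a) (htb : t ≠ b)
    (htw : t ≠ w) {p q : F3} (hp : p ≠ 0) (hq : q ≠ 0) (hM : ∀ c ∈ M, c t = p * c a + q * c b)
    (h : CM N (YC (M : Set (ℕ → F3)) w a b 1 (r a) (r b)) φ ε X)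
    (h0 : ∀ j, j ≠ a → j ≠ b → j ≠ t → j ≠ w → r j = 0) :
    ∃ N' ∈ NL, ∃ φ' ε' X', CM N' (M : Set (ℕ → F3)) φ' ε' X' := by
  have hrt := hM r hr
  have key : ∀ α β p q x y : F3, α ≠ 0 → β ≠ 0 → p ≠ 0 → q ≠ 0 → p * α + q * β ≠ 0 →
      (x = 0 ∧ y = 0) ∨ (x = 0 ∧ p * x + q * y = 0) ∨ (y = 0 ∧ p * x + q * y = 0) ∨
      (x = 0 ∧ 1 * (β * x - α * y) = 0) ∨ (y = 0 ∧ 1 * (β * x - α * y) = 0) ∨
      (p * x + q * y = 0 ∧ 1 * (β * x - α * y) = 0) → x = 0 ∧ y = 0 := by decide +kernel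
  have hQ : ∀ c ∈ YC (M : Set (ℕ → F3)) w a b 1 (r a) (r b), ∀ x ∈ ({a, b, t, w} : Finset ℕ),
      ∀ y ∈ ({a, b, t, w} : Finset ℕ), x ≠ y → c x = 0 → c y = 0 →
      ∀ z ∈ ({a, b, t, w} : Finset ℕ), c z = 0 := by
    intro c hc x hx y hy hxy cx cy z hz
    have e1 := YC_rel hc haw hbw
    have e2 : c t = p * c a + q * c b := by
      obtain ⟨c1, a1, -, -, a4⟩ := hc
      rw [a4 t htw, a4 a haw, a4 b hbw]
      exact hM c1 a1
    have k := key (r a) (r b) p q (c a) (c b) ha hb hp hq (hrt ▸ ht) (by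
      rw [← e1, ← e2]
      simp only [mem_insert, mem_singleton] at hx hy
      rcases hx with rfl | rfl | rfl | rfl <;> rcases hy with rfl | rfl | rfl | rfl <;> tauto)
    simp only [mem_insert, mem_singleton] at hz
    rcases hz with rfl | rfl | rfl | rfl
    · exact k.1
    · exact k.2
    · rw [e2, k.1, k.2]; simp
    · rw [e1, k.1, k.2]; simp
  have ma : a ∈ ({a, b, t, w} : Finset ℕ) := by simp
  have mb : b ∈ ({a, b, t, w} : Finset ℕ) := by simp
  have mt : t ∈ ({a, b, t, w} : Finset ℕ) := by simp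
  have mw : w ∈ ({a, b, t, w} : Finset ℕ) := by simp
  rcases h.line (NL_sep hN) (Q := {a, b, t, w}) (by
    have : ({a, b, w} : Finset ℕ) ⊆ {a, b, t, w} := by
      intro x; simp only [mem_insert, mem_singleton]; tauto
    exact (card_eq_three.2 ⟨a, b, w, hab, haw, hbw, rfl⟩).ge.trans (card_le_card this))
    hQ with hU | ⟨x, hx, h1, h2⟩ | hX
  · exfalso
    obtain ⟨a', ma', ea⟩ := mem_image.1 (hU ma)
    obtain ⟨b', mb', eb⟩ := mem_image.1 (hU mb)
    obtain ⟨t', mt', et⟩ := mem_image.1 (hU mt)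
    obtain ⟨w', mw', ew⟩ := mem_image.1 (hU mw)
    have : ∃ c ∈ N.code, c a' = 0 ∧ c b' = 0 ∧ ¬ (c t' = 0 ∧ c w' = 0) := by
      rcases NL_cases hN with rfl | h3
      · exact four7 ma' mb' mt' mw' (fun e => hta (by rw [← ea, ← et, e]))
          (fun e => htb (by rw [← eb, ← et, e])) (fun e => haw (by rw [← ea, ← ew, e]))
          (fun e => hbw (by rw [← eb, ← ew, e])) (fun e => htw (by rw [← et, ← ew, e]))
      · obtain ⟨c, a1, a2, a3, a4⟩ := h3 w' mw' a' ma' b' mb'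
        exact ⟨c, a1, a3 fun e => haw (by rw [← ea, ← ew, e]),
          a4 fun e => hbw (by rw [← eb, ← ew, e]), fun e => a2 e.2⟩
    obtain ⟨c, a1, a2, a3, a4⟩ := this
    obtain ⟨c0, b1, -, b3⟩ := h.push c a1
    have k := hQ c0 b1 a ma b mb hab (by rw [← ea, b3 _ ma', a2, mul_zero])
      (by rw [← eb, b3 _ mb', a3, mul_zero])
    have k1 := k t mt
    have k2 := k w mw
    rw [← et, b3 _ mt'] at k1
    rw [← ew, b3 _ mw'] at k2
    exact a4 ⟨(mul_eq_zero.1 k1).resolve_left (h.ne mt'), (mul_eq_zero.1 k2).resolve_left (h.ne mw')⟩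
  · have hx' : ∀ j, j ∈ N.Z.image φ ∨ j ∈ X → j ≠ x := fun j hj e => by
      rw [e] at hj
      exact hj.elim h1 h2
    simp only [mem_insert, mem_singleton] at hx
    rcases hx with rfl | rfl | rfl | rfl
    · rw [YC_congr (a' := t) (b' := b) (s' := p) (α' := r t) (β' := r b) fun c hc => by
        rw [hM c hc, hrt]
        linear_combination (r x * c b - r b * c x) * sq3 hp] at h
      exact y2 hN hr hw ht hb hp htb htw hbw h fun j hj e1 e2 e3 => h0 j (hx' j hj) e2 e1 e3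
    · rw [YC_congr (a' := a) (b' := t) (s' := q) (α' := r a) (β' := r t) fun c hc => by
        rw [hM c hc, hrt]
        linear_combination (r a * c x - r x * c a) * sq3 hq] at h
      exact y2 hN hr hw ha ht hq hta.symm haw htw h fun j hj e1 e2 e3 => h0 j e1 (hx' j hj) e2 e3
    · exact y2 hN hr hw ha hb one_ne_zero hab haw hbw h
        fun j hj e1 e2 e3 => h0 j e1 e2 (hx' j hj) e3
    · exact ⟨N, hN, h.del_w h1 h2⟩
  · refine ⟨N, hN, (h.erase (z := w) fun c hc c0 => hQ c hc a ma b mb hab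
      (c0 a (mem_erase.2 ⟨haw, hX ma⟩)) (c0 b (mem_erase.2 ⟨hbw, hX mb⟩)) w mw).del_w
      (fun e => ?_) (notMem_erase _ _)⟩
    obtain ⟨i, hi, e⟩ := mem_image.1 e
    exact h.nX i hi (e ▸ hX mw)

end SBFAux

namespace Disp

open SBFAux

theorem Cfg.free {M : Disp F3} {w a b : ℕ} {T : Finset ℕ} (h : Cfg M w a b T)
    (hF : Free NL M) : Free NL (yd M w a b) := by
  intro N hN hm
  obtain ⟨φ, ε, X, hc⟩ := cm_of_minor hm
  rw [yd_code h] at hc
  suffices k : ∃ N' ∈ NL, ∃ φ' ε' X', CM N' (M.code : Set (ℕ → F3)) φ' ε' X' by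
    obtain ⟨N', hN', φ', ε', X', k⟩ := k
    exact hF N' hN' (minor_of_cm k (k.mem (NL_sep hN')))
  have nw : ∀ j ∈ T, j ≠ w := fun j hj e => by
    have := h.cols j hj
    rw [e, h.rw] at this
    cases this
  have hab : a ≠ b := by
    obtain ⟨i, -, i', -, -, -, e⟩ := h.ind
    rintro rfl
    exact e rfl
  obtain ⟨r, hr, hw, hT, h0⟩ : ∃ r ∈ M.code, r w = 1 ∧ (∀ j ∈ T, r j = M.S w j) ∧
      ∀ j, j ≠ w → j ∉ T → r j = 0 := by
    refine ⟨_, row_word h.mw h.rw, if_pos rfl, fun j hj => ?_, fun j hj hn => ?_⟩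
    · simp only [nw j hj, h.sub hj, if_true, if_false]
    · simp only [hj, if_false]
      split_ifs with e
      · by_contra k
        exact hn ((h.supp j e).1 k)
      · rfl
  have nz : ∀ j ∈ T, r j ≠ 0 := fun j hj => by
    rw [hT j hj]
    exact (h.supp j (h.sub hj)).2 hj
  rw [← hT a h.ma, ← hT b h.mb] at hc
  by_cases h3 : ∃ t ∈ T, t ≠ a ∧ t ≠ b
  · obtain ⟨t, ht, hta, htb⟩ := h3
    obtain ⟨p, q, hp, hq, e⟩ := h.span t ht hta htb
    have hT3 : ({a, b, t} : Finset ℕ) = T := by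
      refine eq_of_subset_of_card_le ?_ ?_
      · intro x hx
        simp only [mem_insert, mem_singleton] at hx
        rcases hx with rfl | rfl | rfl
        · exact h.ma
        · exact h.mb
        · exact ht
      · rw [card_eq_three.2 ⟨a, b, t, hab, hta.symm, htb.symm, rfl⟩]
        exact h.card
    refine y3 hN hr hw (nz a h.ma) (nz b h.mb) (nz t ht) hab (nw a h.ma) (nw b h.mb) hta htb
      (nw t ht) hp hq (fun c hc => ?_) hc fun j e1 e2 e3 e4 => h0 j e4 ?_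
    · rw [hc.2 a (h.sub h.ma) (h.cols a h.ma), hc.2 b (h.sub h.mb) (h.cols b h.mb),
        hc.2 t (h.sub ht) (h.cols t ht), mul_sum, mul_sum, ← sum_add_distrib]
      refine sum_congr rfl fun i hi => ?_
      rw [e i hi]
      ring
    · rw [← hT3]
      simp [e1, e2, e3]
  · push Not at h3
    exact y2 hN hr hw (nz a h.ma) (nz b h.mb) one_ne_zero hab (nw a h.ma) (nw b h.mb) hc
      fun j _ e1 e2 e3 => h0 j e3 fun e => e2 (h3 j e e1)

end Disp

end Pool.Agent.Lib.MP_c69b6d_co.F
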