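import Pool.Agent.Lib.MP_c69b6d_co.F.SB1

/-! Stage B: representability passes from `yd M w a b` to `M`. -/

namespace Pool.Agent.Lib.MP_c69b6d_co.F

open Finset

namespace Disp

variable {K : Type} [Field K]

theorem Cfg.yd_Z {M : Disp K} {w a b : ℕ} {T : Finset ℕ} (h : Cfg M w a b T) :
    (yd M w a b).Z = M.Z := insert_eq_of_mem h.mw

namespace SBL

variable {M : Disp K} {w a b : ℕ} {T : Finset ℕ}

theorem yd_row (i : ℕ) : (yd M w a b).row i = if i = w then false else M.row i := rfl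

theorem yd_S {i j : ℕ} (hi : i ≠ w) (hj : j ≠ w) : (yd M w a b).S i j = M.S i j := by
  simp [yd, addEl, hi, hj]

theorem yd_Sw (h : Cfg M w a b T) {i : ℕ} (hi : i ≠ w) :
    (yd M w a b).S i w = M.S i a * M.S w b - M.S i b * M.S w a := by
  simp only [yd, addEl, hi, if_true, if_false]
  split_ifs with hr
  · rw [M.bip i a (hr.trans (h.cols a h.ma).symm), M.bip i b (hr.trans (h.cols b h.mb).symm)]
    simp
  · rfl

theorem yd_wS {j : ℕ} (hj : M.row j = false) : (yd M w a b).S w j = 0 := by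
  simp [yd, addEl, hj]

theorem ne_w (h : Cfg M w a b T) {j : ℕ} (hj : M.row j = false) : j ≠ w := fun e => by
  rw [e, h.rw] at hj; cases hj

theorem w_notMem (h : Cfg M w a b T) : w ∉ T := fun hw => ne_w h (h.cols w hw) rfl

theorem a_ne_b (h : Cfg M w a b T) : a ≠ b := fun e => by
  obtain ⟨i, -, i', -, -, -, h1⟩ := h.ind
  exact h1 (by rw [e])

theorem yd_B (h : Cfg M w a b T) : (yd M w a b).B = M.B.erase w := by
  ext i
  rw [mem_erase, mem_B, mem_B, h.yd_Z, yd_row]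
  by_cases hi : i = w <;> simp [hi]

theorem card_yd (h : Cfg M w a b T) : (yd M w a b).B.card + 1 = M.B.card := by
  rw [yd_B h, card_erase_add_one (mem_B.2 ⟨h.mw, h.rw⟩)]

/-- the combination of the rows other than `w`. -/
def sg (M : Disp K) (w : ℕ) (c : ℕ → K) (j : ℕ) : K := ∑ i ∈ M.Z.erase w, c i * M.S i j

theorem sg_congr {c c' : ℕ → K} {j : ℕ} (hj : M.row j = false)
    (e : ∀ i ∈ M.Z, i ≠ w → M.row i = true → c i = c' i) : sg M w c j = sg M w c' j :=
  sum_congr rfl fun i hi => by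
    cases hr : M.row i
    · rw [M.bip i j (hr.trans hj.symm), mul_zero, mul_zero]
    · rw [e i (mem_erase.1 hi).2 (mem_erase.1 hi).1 hr]

theorem mem_M (h : Cfg M w a b T) {c : ℕ → K} : c ∈ M.code ↔ (∀ i, i ∉ M.Z → c i = 0) ∧
    ∀ j ∈ M.Z, M.row j = false → c j = c w * M.S w j + sg M w c j := by
  rw [mem_code]
  refine and_congr Iff.rfl (forall₃_congr fun j _ _ => ?_)
  rw [sg, add_sum_erase M.Z (fun i => c i * M.S i j) h.mw]

theorem mem_yd (h : Cfg M w a b T) {c : ℕ → K} : c ∈ (yd M w a b).code ↔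
    (∀ i, i ∉ M.Z → c i = 0) ∧ c w = M.S w b * sg M w c a - M.S w a * sg M w c b ∧
      ∀ j ∈ M.Z, M.row j = false → c j = sg M w c j := by
  have e1 : ∀ j, M.row j = false → ∑ i ∈ M.Z, c i * (yd M w a b).S i j = sg M w c j := by
    intro j hj
    rw [← add_sum_erase M.Z (fun i => c i * (yd M w a b).S i j) h.mw, yd_wS hj, mul_zero, zero_add]
    exact sum_congr rfl fun i hi => by rw [yd_S (mem_erase.1 hi).1 (ne_w h hj)]
  have e2 : ∑ i ∈ M.Z, c i * (yd M w a b).S i w =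
      M.S w b * sg M w c a - M.S w a * sg M w c b := by
    rw [← add_sum_erase M.Z (fun i => c i * (yd M w a b).S i w) h.mw, Disp.bip _ w w rfl, mul_zero,
      zero_add, sg, sg, mul_sum, mul_sum, ← sum_sub_distrib]
    exact sum_congr rfl fun i hi => by rw [yd_Sw h (mem_erase.1 hi).1]; ring
  rw [mem_code, h.yd_Z]
  refine and_congr Iff.rfl ⟨fun H => ⟨?_, fun j hj hr => ?_⟩, fun H j hj hr => ?_⟩
  · rw [← e2]; exact H w h.mw (by simp [yd_row])
  · rw [← e1 j hr]; exact H j hj (by simp [yd_row, hr])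
  · by_cases e : j = w
    · rw [e, e2]; exact H.1
    · have hr' : M.row j = false := by simpa [yd_row, e] using hr
      rw [e1 j hr']; exact H.2 j hj hr'

theorem up (h : Cfg M w a b T) {c0 : ℕ → K} (hc : c0 ∈ (yd M w a b).code) (μ : K) :
    ∃ c ∈ M.code, c w = μ ∧ ∀ j ∈ M.Z, j ≠ w → c j = c0 j + μ * M.S w j := by
  obtain ⟨c1, -, c3⟩ := (mem_yd h).1 hc
  refine ⟨fun j => if j = w then μ else if j ∈ M.Z then c0 j + μ * M.S w j else 0,
    (mem_M h).2 ⟨fun i hi => ?_, fun j hj hr => ?_⟩, by simp, fun j hj e => by simp [hj, e]⟩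
  · have : i ≠ w := fun e => hi (e ▸ h.mw)
    simp [this, hi]
  · rw [sg_congr (c' := c0) hr fun i hi e hr' => by
      simp [e, hi, M.bip w i (h.rw.trans hr'.symm)], ← c3 j hj hr]
    simp only [ne_w h hr, hj, if_true, if_false]
    ring

theorem down (h : Cfg M w a b T) {c : ℕ → K} (hc : c ∈ M.code) :
    ∃ c0 ∈ (yd M w a b).code, c0 w = M.S w b * c a - M.S w a * c b ∧
      ∀ j ∈ M.Z, j ≠ w → c0 j = c j - c w * M.S w j := by
  obtain ⟨c1, c2⟩ := (mem_M h).1 hc
  have e : ∀ j, M.row j = false → sg M w (fun j => if j = w then M.S w b * c a - M.S w a * c b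
      else if j ∈ M.Z then c j - c w * M.S w j else 0) j = sg M w c j := fun j hr =>
    sg_congr hr fun i hi e hr' => by simp [e, hi, M.bip w i (h.rw.trans hr'.symm)]
  refine ⟨fun j => if j = w then M.S w b * c a - M.S w a * c b
      else if j ∈ M.Z then c j - c w * M.S w j else 0,
    (mem_yd h).2 ⟨fun i hi => ?_, ?_, fun j hj hr => ?_⟩, by simp, fun j hj e => by simp [hj, e]⟩
  · have : i ≠ w := fun e => hi (e ▸ h.mw)
    simp [this, hi]
  · rw [e a (h.cols a h.ma), e b (h.cols b h.mb)]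
    have a1 := c2 a (h.sub h.ma) (h.cols a h.ma)
    have a2 := c2 b (h.sub h.mb) (h.cols b h.mb)
    simp only [if_true]
    linear_combination M.S w b * a1 - M.S w a * a2
  · rw [e j hr]
    simp only [ne_w h hr, hj, if_true, if_false]
    linear_combination c2 j hj hr

theorem zero_of (c : ℕ → K) (hc : c ∈ M.code) (h : ∀ j ∈ M.Z, c j = 0) : c = 0 :=
  funext fun j => by
    by_cases hj : j ∈ M.Z
    · exact h j hj
    · exact hc.1 j hj

/-- a word of `yd` which vanishes off `w` vanishes. -/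
theorem zero_yd (h : Cfg M w a b T) {c0 : ℕ → K} (hc : c0 ∈ (yd M w a b).code)
    (h0 : ∀ j ∈ M.Z, j ≠ w → c0 j = 0) : c0 = 0 :=
  code_zero hc fun i hi => by
    rw [yd_B h] at hi
    exact h0 i (mem_B.1 (mem_erase.1 hi).2).1 (mem_erase.1 hi).1

theorem code_span (h : Cfg M w a b T) {t : ℕ} (ht : t ∈ T) {α β : K}
    (e : ∀ i ∈ M.Z, M.S i t = α * M.S i a + β * M.S i b) {c : ℕ → K} (hc : c ∈ M.code) :
    c t = α * c a + β * c b := by
  rw [hc.2 t (h.sub ht) (h.cols t ht), hc.2 a (h.sub h.ma) (h.cols a h.ma),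
    hc.2 b (h.sub h.mb) (h.cols b h.mb), mul_sum, mul_sum, ← sum_add_distrib]
  exact sum_congr rfl fun i hi => by rw [e i hi]; ring

theorem S_zero (h : Cfg M w a b T) {j : ℕ} (hj : j ∈ M.Z) (hT : j ∉ T) : M.S w j = 0 := by
  by_contra e
  exact hT ((h.supp j hj).1 e)

theorem S_ne (h : Cfg M w a b T) {j : ℕ} (hT : j ∈ T) : M.S w j ≠ 0 := (h.supp j (h.sub hT)).2 hT

theorem third (h : Cfg M w a b T) {t t' : ℕ} (ht : t ∈ T) (ht' : t' ∈ T) (h1 : t ≠ a) (h2 : t ≠ b)
    (h3 : t' ≠ a) (h4 : t' ≠ b) : t = t' := by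
  by_contra e
  have h5 := a_ne_b h
  have : ({a, b, t, t'} : Finset ℕ) ⊆ T := by
    intro x hx
    simp only [mem_insert, mem_singleton] at hx
    rcases hx with rfl | rfl | rfl | rfl
    exacts [h.ma, h.mb, ht, ht']
  have h6 := card_le_card this
  rw [card_insert_of_notMem (by simp [h5, h1.symm, h3.symm]),
    card_insert_of_notMem (by simp [h2.symm, h4.symm]), card_pair e] at h6
  have := h.card
  omega

/-- a word which vanishes at two elements of `T` vanishes at `a` and `b`. -/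
theorem two_zero (h : Cfg M w a b T) {c : ℕ → K} (hc : c ∈ M.code) {t t' : ℕ} (ht : t ∈ T)
    (ht' : t' ∈ T) (e : t ≠ t') (c1 : c t = 0) (c2 : c t' = 0) : c a = 0 ∧ c b = 0 := by
  have k : ∀ t ∈ T, t ≠ a → t ≠ b → c t = 0 → (c a = 0 ↔ c b = 0) := by
    intro t ht h1 h2 h3
    obtain ⟨α, β, a1, a2, a3⟩ := h.span t ht h1 h2
    have := code_span h ht a3 hc
    rw [h3] at this
    constructor <;> intro h4 <;> rw [h4] at this
    · simpa [a2] using this
    · simpa [a1] using this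
  by_cases h1 : t = a
  · subst h1
    by_cases h4 : t' = b
    · exact ⟨c1, h4 ▸ c2⟩
    · exact ⟨c1, (k t' ht' e.symm h4 c2).1 c1⟩
  · by_cases h2 : t = b
    · subst h2
      by_cases h3 : t' = a
      · exact ⟨h3 ▸ c2, c1⟩
      · exact ⟨(k t' ht' h3 e.symm c2).2 c1, c1⟩
    · by_cases h3 : t' = a
      · subst h3; exact ⟨c2, (k t ht h1 h2 c1).1 c2⟩
      · by_cases h4 : t' = b
        · subst h4; exact ⟨(k t ht h1 h2 c1).2 c2, c2⟩
        · exact absurd (third h ht ht' h1 h2 h3 h4) e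

theorem base_w (h : Cfg M w a b T) {F : Finset ℕ} (hw : w ∈ F) :
    M.Base F ↔ (yd M w a b).Base (F.erase w) := by
  have hc := card_yd h
  have hF := card_erase_add_one hw
  refine ⟨fun ⟨b1, b2, b3⟩ => ⟨h.yd_Z ▸ (erase_subset _ _).trans b1, by omega, fun c0 hc0 h0 => ?_⟩,
    fun ⟨b1, b2, b3⟩ => ?_⟩
  · obtain ⟨c, c1, c2, c3⟩ := up h hc0 0
    have := b3 c c1 fun i hi => by
      by_cases e : i = w
      · rw [e, c2]
      · rw [c3 i (b1 hi) e, h0 i (mem_erase.2 ⟨e, hi⟩)]; simp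
    subst this
    exact zero_yd h hc0 fun j hj e => by simpa using (c3 j hj e).symm
  · rw [h.yd_Z] at b1
    have b4 : F ⊆ M.Z := fun i hi => by
      by_cases e : i = w
      · exact e ▸ h.mw
      · exact b1 (mem_erase.2 ⟨e, hi⟩)
    refine ⟨b4, by omega, fun c hc h0 => ?_⟩
    obtain ⟨c0, c1, -, c3⟩ := down h hc
    have := b3 c0 c1 fun i hi => by
      obtain ⟨e, hi⟩ := mem_erase.1 hi
      rw [c3 i (b4 hi) e, h0 i hi, h0 w hw]; simp
    subst this
    refine zero_of c hc fun j hj => ?_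
    by_cases e : j = w
    · rw [e, h0 w hw]
    · simpa [h0 w hw] using (c3 j hj e).symm

theorem not_base0 (h : Cfg M w a b T) {F : Finset ℕ} (hw : w ∉ F) (h0 : (F ∩ T).card = 0) :
    ¬ M.Base F := fun ⟨b1, _, b3⟩ => by
  have := b3 _ (row_word h.mw h.rw) fun i hi => by
    have e : i ≠ w := fun e => hw (e ▸ hi)
    have hT : i ∉ T := fun hT => by
      have := mem_inter.2 ⟨hi, hT⟩
      rw [card_eq_zero.1 h0] at this
      simp at this
    simp [e, S_zero h (b1 hi) hT]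
  simpa using congrFun this w

theorem back (h : Cfg M w a b T) {c : ℕ → K} (hc : c ∈ M.code) {t : ℕ} (ht : t ∈ T) (h0 : c t = 0)
    (e : ∀ j ∈ M.Z, j ≠ w → 0 = c j - c w * M.S w j) : c = 0 := by
  have e1 := e t (h.sub ht) (ne_w h (h.cols t ht))
  have e2 : c w = 0 := by simpa [h0, S_ne h ht] using e1
  refine zero_of c hc fun j hj => ?_
  by_cases e3 : j = w
  · rw [e3, e2]
  · simpa [e2] using (e j hj e3).symm

theorem base1 (h : Cfg M w a b T) {F : Finset ℕ} (hw : w ∉ F) (hF : F ⊆ M.Z)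
    (h1 : (F ∩ T).card = 1) : M.Base F ↔ (yd M w a b).Base (F \ T) := by
  have hc := card_yd h
  have hF' := card_sdiff_add_card_inter F T
  obtain ⟨t, ht⟩ := card_eq_one.1 h1
  have t1 : t ∈ F ∩ T := by rw [ht]; simp
  obtain ⟨t1, t2⟩ := mem_inter.1 t1
  have ne : ∀ i ∈ F, i ≠ w := fun i hi e => hw (e ▸ hi)
  refine ⟨fun ⟨_, b2, b3⟩ => ⟨h.yd_Z ▸ sdiff_subset.trans hF, by omega, fun c0 hc0 h0 => ?_⟩,
    fun ⟨_, b2, b3⟩ => ⟨hF, by omega, fun c hc h0 => ?_⟩⟩
  · obtain ⟨c, c1, c2, c3⟩ := up h hc0 (-c0 t / M.S w t)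
    have := b3 c c1 fun i hi => by
      rw [c3 i (hF hi) (ne i hi)]
      by_cases hT : i ∈ T
      · have : i ∈ F ∩ T := mem_inter.2 ⟨hi, hT⟩
        rw [ht, mem_singleton] at this
        rw [this, div_mul_cancel₀ _ (S_ne h t2)]
        ring
      · rw [h0 i (mem_sdiff.2 ⟨hi, hT⟩), S_zero h (hF hi) hT]; simp
    subst this
    refine zero_yd h hc0 fun j hj e => ?_
    have := c3 j hj e
    rw [← c2] at this
    simpa using this.symm
  · obtain ⟨c0, c1, -, c3⟩ := down h hc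
    have := b3 c0 c1 fun i hi => by
      obtain ⟨hi, hT⟩ := mem_sdiff.1 hi
      rw [c3 i (hF hi) (ne i hi), h0 i hi, S_zero h (hF hi) hT]; simp
    subst this
    exact back h hc t2 (h0 t t1) c3

theorem base2 (h : Cfg M w a b T) {F : Finset ℕ} (hw : w ∉ F) (hF : F ⊆ M.Z)
    (h1 : (F ∩ T).card = 2) : M.Base F ↔ (yd M w a b).Base (insert w (F \ T)) := by
  have hc := card_yd h
  have hF' := card_sdiff_add_card_inter F T
  have hF2 := card_insert_of_notMem (s := F \ T) (a := w) fun e => hw (mem_sdiff.1 e).1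
  obtain ⟨t, t', e, ht⟩ := card_eq_two.1 h1
  have t1 : t ∈ F ∩ T := by rw [ht]; simp
  have t2 : t' ∈ F ∩ T := by rw [ht]; simp
  rw [mem_inter] at t1 t2
  have ne : ∀ i ∈ F, i ≠ w := fun i hi e => hw (e ▸ hi)
  refine ⟨fun ⟨_, b2, b3⟩ => ⟨h.yd_Z ▸ insert_subset h.mw (sdiff_subset.trans hF), by omega,
    fun c0 hc0 h0 => ?_⟩, fun ⟨_, b2, b3⟩ => ⟨hF, by omega, fun c hc h0 => ?_⟩⟩
  · obtain ⟨c, c1, c2, c3⟩ := up h hc0 (-c0 a / M.S w a)
    have sa := S_ne h h.ma
    have ca : c a = 0 := by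
      rw [c3 a (h.sub h.ma) (ne_w h (h.cols a h.ma)), div_mul_cancel₀ _ sa]; ring
    have cb : c b = 0 := by
      obtain ⟨-, d2, d3⟩ := (mem_yd h).1 hc0
      rw [h0 w (mem_insert_self _ _), ← d3 a (h.sub h.ma) (h.cols a h.ma),
        ← d3 b (h.sub h.mb) (h.cols b h.mb)] at d2
      rw [c3 b (h.sub h.mb) (ne_w h (h.cols b h.mb))]
      field_simp
      linear_combination d2
    have := b3 c c1 fun i hi => by
      by_cases hT : i ∈ T
      · by_cases e1 : i = a
        · rw [e1, ca]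
        · by_cases e2 : i = b
          · rw [e2, cb]
          · obtain ⟨α, β, -, -, a3⟩ := h.span i hT e1 e2
            rw [code_span h hT a3 c1, ca, cb]; simp
      · rw [c3 i (hF hi) (ne i hi), h0 i (mem_insert_of_mem (mem_sdiff.2 ⟨hi, hT⟩)),
          S_zero h (hF hi) hT]; simp
    subst this
    refine zero_yd h hc0 fun j hj e => ?_
    have := c3 j hj e
    rw [← c2] at this
    simpa using this.symm
  · obtain ⟨c0, c1, c2, c3⟩ := down h hc
    obtain ⟨ca, cb⟩ := two_zero h hc t1.2 t2.2 e (h0 t t1.1) (h0 t' t2.1)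
    have := b3 c0 c1 fun i hi => by
      rcases mem_insert.1 hi with rfl | hi
      · rw [c2, ca, cb]; simp
      · obtain ⟨hi, hT⟩ := mem_sdiff.1 hi
        rw [c3 i (hF hi) (ne i hi), h0 i hi, S_zero h (hF hi) hT]; simp
    subst this
    exact back h hc h.ma ca c3

/-- independence of a set of columns. -/
theorem indep_cols {D : Disp K} {J : Finset ℕ} (hJ : J ⊆ D.Z) (hc : ∀ j ∈ J, D.row j = false) :
    D.Indep J ↔ ∀ d : ℕ → K, (∀ i ∈ D.Z, ∑ j ∈ J, d j * D.S i j = 0) → ∀ j ∈ J, d j = 0 := by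
  have key : ∀ d : ℕ → K, (∀ i, i ∉ J → d i = 0) → ∀ i,
      ∑ j ∈ D.Z, d j * D.S j i = -∑ j ∈ J, d j * D.S i j := by
    intro d hd i
    rw [← sum_subset hJ fun j _ hj => by rw [hd j hj, zero_mul], ← sum_neg_distrib]
    exact sum_congr rfl fun j _ => by rw [D.skew j i]; ring
  refine ⟨fun h d hd j hj => ?_, fun h d hd h0 => ?_⟩
  · have h0 : ∀ i, i ∉ J → (fun i => if i ∈ J then d i else 0) i = 0 := fun i hi => if_neg hi
    have := h (fun i => if i ∈ J then d i else 0) (mem_flip_code.2 ⟨fun i hi =>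
      h0 i fun e => hi (hJ e), fun i hi hr => by
        have e : i ∉ J := fun e => by rw [hc i e] at hr; cases hr
        rw [key _ h0, if_neg e, sum_congr rfl fun j hj => by rw [if_pos hj], hd i hi, neg_zero]⟩) h0
    simpa [hj] using congrFun this j
  · have := h d fun i hi => by
      cases hr : D.row i
      · exact sum_eq_zero fun j hj => by rw [D.bip i j (hr.trans (hc j hj).symm), mul_zero]
      · have e : i ∉ J := fun e => by rw [hc i e] at hr; cases hr
        have := (mem_flip_code.1 hd).2 i hi hr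
        rw [key d h0, h0 i e] at this
        exact neg_eq_zero.1 this.symm
    funext j
    by_cases hj : j ∈ J
    · exact this j hj
    · exact h0 j hj

theorem indep2 {D : Disp K} {x y : ℕ} (hx : x ∈ D.Z) (hy : y ∈ D.Z) (rx : D.row x = false)
    (ry : D.row y = false) (e : x ≠ y) : D.Indep {x, y} ↔
      ∀ p q : K, (∀ i ∈ D.Z, p * D.S i x + q * D.S i y = 0) → p = 0 ∧ q = 0 := by
  rw [indep_cols (insert_subset hx (singleton_subset_iff.2 hy)) (by simp [rx, ry])]
  simp only [sum_pair e]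
  refine ⟨fun h p q hpq => ?_, fun h d hd => by simpa using h _ _ hd⟩
  simpa [e.symm] using h (fun j => if j = x then p else q) (by simpa [e.symm] using hpq)

theorem indep3 {D : Disp K} {x y z : ℕ} (hx : x ∈ D.Z) (hy : y ∈ D.Z) (hz : z ∈ D.Z)
    (rx : D.row x = false) (ry : D.row y = false) (rz : D.row z = false) (e1 : x ≠ y) (e2 : x ≠ z)
    (e3 : y ≠ z) : D.Indep {x, y, z} ↔ ∀ p q r : K,
      (∀ i ∈ D.Z, p * D.S i x + (q * D.S i y + r * D.S i z) = 0) → p = 0 ∧ q = 0 ∧ r = 0 := by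
  rw [indep_cols (insert_subset hx (insert_subset hy (singleton_subset_iff.2 hz)))
    (by simp [rx, ry, rz])]
  simp only [sum_insert (show x ∉ ({y, z} : Finset ℕ) by simp [e1, e2]), sum_pair e3]
  refine ⟨fun h p q r hpq => ?_, fun h d hd => by simpa using h _ _ _ hd⟩
  simpa [e1.symm, e2.symm, e3.symm] using h (fun j => if j = x then p else if j = y then q else r)
    (by simpa [e1.symm, e2.symm, e3.symm] using hpq)

theorem not_base3 (h : Cfg M w a b T) {F : Finset ℕ} (h3 : 3 ≤ (F ∩ T).card) : ¬ M.Base F := by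
  intro hb
  have e : F ∩ T = T := eq_of_subset_of_card_le inter_subset_right (h.card.trans h3)
  have hT : T ⊆ F := inter_eq_right.1 e
  rw [e] at h3
  obtain ⟨t, ht, ht'⟩ := exists_mem_notMem_of_card_lt_card (s := {a, b}) (t := T)
    (lt_of_le_of_lt card_le_two h3)
  simp only [mem_insert, mem_singleton, not_or] at ht'
  obtain ⟨α, β, -, -, a3⟩ := h.span t ht ht'.1 ht'.2
  have hI : M.Indep {a, b, t} := fun d hd h0 => (base_iff_indep.1 hb).2.2 d hd fun i hi =>
    h0 i fun e => hi (hT (insert_subset h.ma (insert_subset h.mb (singleton_subset_iff.2 ht)) e))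
  have := (indep3 (h.sub h.ma) (h.sub h.mb) (h.sub ht) (h.cols a h.ma) (h.cols b h.mb)
    (h.cols t ht) (a_ne_b h) (Ne.symm ht'.1) (Ne.symm ht'.2)).1 hI α β (-1)
      fun i hi => by rw [a3 i hi]; ring
  simp at this

/-- the bases of `M` are determined by those of `yd M w a b`. -/
theorem base_iff {K' : Type} [Field K'] {H : Disp K'} (h : Cfg M w a b T) (h' : Cfg H w a b T)
    (hZ : H.Z = M.Z) (e : ∀ F, (yd H w a b).Base F ↔ (yd M w a b).Base F) (F : Finset ℕ) :
    H.Base F ↔ M.Base F := by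
  by_cases hF : F ⊆ M.Z
  swap
  · exact iff_of_false (fun b => hF (hZ ▸ b.1)) fun b => hF b.1
  by_cases hw : w ∈ F
  · rw [base_w h hw, base_w h' hw, e]
  rcases (by omega : (F ∩ T).card = 0 ∨ (F ∩ T).card = 1 ∨ (F ∩ T).card = 2 ∨ 3 ≤ (F ∩ T).card)
    with c | c | c | c
  · exact iff_of_false (not_base0 h' hw c) (not_base0 h hw c)
  · rw [base1 h hw hF c, base1 h' hw (hZ ▸ hF) c, e]
  · rw [base2 h hw hF c, base2 h' hw (hZ ▸ hF) c, e]
  · exact iff_of_false (not_base3 h' c) (not_base3 h c)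

variable {K' : Type} [Field K']

theorem pair_tr {D : Disp K} {H : Disp K'} (hv : Val D H D.Z) {x y : ℕ} (hx : x ∈ D.Z)
    (hy : y ∈ D.Z) (rx : D.row x = false) (ry : D.row y = false) (e : x ≠ y)
    (hi : ∀ p q : K, (∀ i ∈ D.Z, p * D.S i x + q * D.S i y = 0) → p = 0 ∧ q = 0) :
    ∀ p q : K', (∀ i ∈ D.Z, p * H.S i x + q * H.S i y = 0) → p = 0 ∧ q = 0 :=
  (indep2 (D := H.restrict D.Z) hx hy ((hv.row x hx).trans rx) ((hv.row y hy).trans ry) e).1
    ((hv.indep (insert_subset hx (singleton_subset_iff.2 hy))).2 ((indep2 hx hy rx ry e).2 hi))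

/-- a triangle of columns is a triangle in every valid display. -/
theorem tri_tr {D : Disp K} {H : Disp K'} (hv : Val D H D.Z) {x y z : ℕ} (hx : x ∈ D.Z)
    (hy : y ∈ D.Z) (hz : z ∈ D.Z) (rx : D.row x = false) (ry : D.row y = false)
    (rz : D.row z = false) (e1 : x ≠ y) (e2 : x ≠ z) (e3 : y ≠ z)
    (hi : ∀ p q : K, (∀ i ∈ D.Z, p * D.S i x + q * D.S i y = 0) → p = 0 ∧ q = 0)
    {α β : K} (a1 : α ≠ 0) (a2 : β ≠ 0) (a3 : ∀ i ∈ D.Z, D.S i z = α * D.S i x + β * D.S i y) :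
    ∃ α' β' : K', α' ≠ 0 ∧ β' ≠ 0 ∧ ∀ i ∈ D.Z, H.S i z = α' * H.S i x + β' * H.S i y := by
  have i1 := pair_tr hv hx hy rx ry e1 hi
  have i2 := pair_tr hv hx hz rx rz e2 fun p q hpq => by
    obtain ⟨b1, b2⟩ := hi (p + q * α) (q * β) fun i hi => by
      linear_combination hpq i hi - q * a3 i hi
    have b3 : q = 0 := by simpa [a2] using b2
    exact ⟨by simpa [b3] using b1, b3⟩
  have i3 := pair_tr hv hy hz ry rz e3 fun p q hpq => by
    obtain ⟨b1, b2⟩ := hi (q * α) (p + q * β) fun i hi => by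
      linear_combination hpq i hi - q * a3 i hi
    have b3 : q = 0 := by simpa [a1] using b1
    exact ⟨by simpa [b3] using b2, b3⟩
  have n1 : ¬ D.Indep {x, y, z} := fun hI => by
    have := (indep3 hx hy hz rx ry rz e1 e2 e3).1 hI α β (-1) fun i hi => by rw [a3 i hi]; ring
    simp at this
  have n2 : ¬ (H.restrict D.Z).Indep {x, y, z} := fun hI => n1
    ((hv.indep (insert_subset hx (insert_subset hy (singleton_subset_iff.2 hz)))).1 hI)
  rw [indep3 (D := H.restrict D.Z) hx hy hz ((hv.row x hx).trans rx) ((hv.row y hy).trans ry)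
    ((hv.row z hz).trans rz) e1 e2 e3] at n2
  push Not at n2
  obtain ⟨p, q, r, n3, n4⟩ := n2
  have n5 : ∀ i ∈ D.Z, p * H.S i x + (q * H.S i y + r * H.S i z) = 0 := n3
  have hr : r ≠ 0 := fun e => by
    obtain ⟨b1, b2⟩ := i1 p q fun i hi => by simpa [e] using n5 i hi
    exact n4 b1 b2 e
  have hq : q ≠ 0 := fun e => hr (i2 p r fun i hi => by simpa [e] using n5 i hi).2
  have hp : p ≠ 0 := fun e => hr (i3 q r fun i hi => by simpa [e] using n5 i hi).2
  refine ⟨-p / r, -q / r, by simp [hp, hr], by simp [hq, hr], fun i hi => ?_⟩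
  field_simp
  linear_combination n5 i hi

/-- lifting a valid display of `yd M w a b`. -/
theorem lift (h : Cfg M w a b T) {H0 : Disp K'} (hv : Val (yd M w a b) H0 (yd M w a b).Z) :
    ∃ H : Disp K', Val M H M.Z := by
  have hZ := h.yd_Z
  have ab := a_ne_b h
  have mem : ∀ t ∈ T, t ∈ (yd M w a b).Z := fun t ht => hZ ▸ h.sub ht
  have nw : ∀ t ∈ T, t ≠ w := fun t ht => ne_w h (h.cols t ht)
  have col : ∀ t ∈ T, (yd M w a b).row t = false := fun t ht => by simp [yd_row, h.cols t ht]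
  have mw : w ∈ (yd M w a b).Z := hZ ▸ h.mw
  have cw : (yd M w a b).row w = false := by simp [yd_row]
  have hi : ∀ p q : K, (∀ i ∈ (yd M w a b).Z, p * (yd M w a b).S i a + q * (yd M w a b).S i b = 0) →
      p = 0 ∧ q = 0 := by
    intro p q hpq
    obtain ⟨i, i1, i', i2, i3, i4, i5⟩ := h.ind
    have b1 := hpq i (hZ ▸ i1)
    have b2 := hpq i' (hZ ▸ i2)
    rw [yd_S i3 (nw a h.ma), yd_S i3 (nw b h.mb)] at b1
    rw [yd_S i4 (nw a h.ma), yd_S i4 (nw b h.mb)] at b2
    have b3 := sub_ne_zero.2 i5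
    exact ⟨(mul_eq_zero.1 (by linear_combination M.S i' b * b1 - M.S i b * b2)).resolve_right b3,
      (mul_eq_zero.1 (by linear_combination M.S i a * b2 - M.S i' a * b1)).resolve_right b3⟩
  have ew : ∀ i ∈ (yd M w a b).Z, (yd M w a b).S i w =
      M.S w b * (yd M w a b).S i a + -M.S w a * (yd M w a b).S i b := fun i _ => by
    by_cases e : i = w
    · rw [e, Disp.bip _ w w rfl, yd_wS (h.cols a h.ma), yd_wS (h.cols b h.mb)]; simp
    · rw [yd_Sw h e, yd_S e (nw a h.ma), yd_S e (nw b h.mb)]; ring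
  obtain ⟨lb, la, l1, l2, l3⟩ := tri_tr hv (mem a h.ma) (mem b h.mb) mw (col a h.ma) (col b h.mb) cw
    ab (nw a h.ma) (nw b h.mb) hi (S_ne h h.mb) (neg_ne_zero.2 (S_ne h h.ma)) ew
  have ex : ∀ t, ∃ α' β' : K', t ∈ T → t ≠ a → t ≠ b → α' ≠ 0 ∧ β' ≠ 0 ∧
      (∀ i ∈ (yd M w a b).Z, H0.S i t = α' * H0.S i a + β' * H0.S i b) ∧
        α' * -la + β' * lb ≠ 0 := by
    intro t
    by_cases ht : t ∈ T ∧ t ≠ a ∧ t ≠ b
    swap
    · exact ⟨0, 0, fun a1 a2 a3 => absurd ⟨a1, a2, a3⟩ ht⟩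
    obtain ⟨t1, t2, t3⟩ := ht
    obtain ⟨α, β, a1, a2, a3⟩ := h.span t t1 t2 t3
    have et : ∀ i ∈ (yd M w a b).Z, (yd M w a b).S i t =
        α * (yd M w a b).S i a + β * (yd M w a b).S i b := fun i hi => by
      by_cases e : i = w
      · rw [e, yd_wS (h.cols t t1), yd_wS (h.cols a h.ma), yd_wS (h.cols b h.mb)]; simp
      · rw [yd_S e (nw t t1), yd_S e (nw a h.ma), yd_S e (nw b h.mb), a3 i (hZ ▸ hi)]
    obtain ⟨α', β', b1, b2, b3⟩ := tri_tr hv (mem a h.ma) (mem b h.mb) (mem t t1) (col a h.ma)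
      (col b h.mb) (col t t1) ab t2.symm t3.symm hi a1 a2 et
    refine ⟨α', β', fun _ _ _ => ⟨b1, b2, b3, fun e => l1 ?_⟩⟩
    refine (pair_tr hv (mem t t1) mw (col t t1) cw (nw t t1) (fun p q hpq => ?_) lb (-α')
      fun i hi => ?_).1
    · obtain ⟨c1, c2⟩ := hi (p * α + q * M.S w b) (p * β - q * M.S w a) fun i hi => by
        linear_combination hpq i hi - p * et i hi - q * ew i hi
      have c3 : p * M.S w t = 0 := by
        rw [a3 w h.mw]; linear_combination M.S w a * c1 + M.S w b * c2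
      have c4 : p = 0 := (mul_eq_zero.1 c3).resolve_right (S_ne h t1)
      exact ⟨c4, by simpa [c4, S_ne h h.mb] using c1⟩
    · rw [b3 i hi, l3 i hi]; linear_combination H0.S i b * e
  choose α β hαβ using ex
  rw [hZ] at hv l3 hαβ
  obtain ⟨l, hl⟩ : ∃ l : ℕ → K', ∀ j, l j = if j = a then -la else if j = b then lb else
    if j ∈ T then α j * -la + β j * lb else 0 := ⟨_, fun _ => rfl⟩
  have la' : l a = -la := by simp [hl]
  have lb' : l b = lb := by simp [hl, ab.symm]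
  obtain ⟨H, hH⟩ : ∃ H, H = (H0.restrict M.Z).addEl w true fun j => -l j := ⟨_, rfl⟩
  have HZ : H.Z = M.Z := by rw [hH]; exact insert_eq_of_mem h.mw
  have Hr : ∀ i, i ≠ w → H.row i = H0.row i := fun i e => by simp [hH, addEl, restrict, e]
  have Hw : H.row w = true := by simp [hH, addEl]
  have Hrow : ∀ i ∈ M.Z, H.row i = M.row i := fun i hi => by
    by_cases e : i = w
    · rw [e, Hw, h.rw]
    · rw [Hr i e, hv.row i hi, yd_row, if_neg e]
  have HS : ∀ i j, i ≠ w → j ≠ w → H.S i j = H0.S i j := fun i j e e' => by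
    simp [hH, addEl, restrict, e, e']
  have HwS : ∀ j ∈ M.Z, M.row j = false → H.S w j = l j := fun j hj hr => by
    have e := ne_w h hr
    have : H0.row j = false := by rw [← Hr j e, Hrow j hj, hr]
    simp [hH, addEl, restrict, e, this]
  have h' : Cfg H w a b T := by
    refine ⟨HZ ▸ h.mw, Hw, HZ ▸ h.sub, fun t ht => (Hrow t (h.sub ht)).trans (h.cols t ht), h.ma,
      h.mb, h.card, fun j hj => ?_, fun t t1 t2 t3 => ?_, ?_⟩
    · rw [HZ] at hj
      cases hr : M.row j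
      · rw [HwS j hj hr, hl]
        split_ifs with e1 e2 e3
        · simpa [e1, h.ma] using l2
        · simpa [e2, h.mb] using l1
        · simpa [e3] using (hαβ j e3 e1 e2).2.2.2
        · simp [e3]
      · rw [H.bip w j (Hw.trans ((Hrow j hj).trans hr).symm)]
        exact iff_of_false (by simp) fun e => by rw [h.cols j e] at hr; cases hr
    · obtain ⟨a1, a2, a3, -⟩ := hαβ t t1 t2 t3
      refine ⟨α t, β t, a1, a2, fun i hi => ?_⟩
      by_cases e : i = w
      · rw [e, HwS t (h.sub t1) (h.cols t t1), HwS a (h.sub h.ma) (h.cols a h.ma),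
          HwS b (h.sub h.mb) (h.cols b h.mb), la', lb', hl, if_neg t2, if_neg t3, if_pos t1]
      · rw [HS i t e (nw t t1), HS i a e (nw a h.ma), HS i b e (nw b h.mb), a3 i (HZ ▸ hi)]
    · obtain ⟨i, i1, i', i2, i3, i4, i5⟩ := h.ind
      refine ⟨i, HZ ▸ i1, i', HZ ▸ i2, i3, i4, fun e => i5 ?_⟩
      rw [HS i a i3 (nw a h.ma), HS i b i3 (nw b h.mb), HS i' a i4 (nw a h.ma),
        HS i' b i4 (nw b h.mb)] at e
      have := (hv.det2 i1 i2 (h.sub h.ma) (h.sub h.mb)).1 e
      rwa [yd_S i3 (nw a h.ma), yd_S i3 (nw b h.mb), yd_S i4 (nw a h.ma),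
        yd_S i4 (nw b h.mb)] at this
  have r0 : H0.row w = false := (hv.row w h.mw).trans cw
  have e1 : ∀ i ∈ M.Z, (yd H w a b).S i w = H0.S i w := fun i hi => by
    by_cases e : i = w
    · rw [e, Disp.bip _ w w rfl, Disp.bip _ w w rfl]
    · rw [yd_Sw h' e, HS i a e (nw a h.ma), HS i b e (nw b h.mb),
        HwS a (h.sub h.ma) (h.cols a h.ma), HwS b (h.sub h.mb) (h.cols b h.mb), la', lb', l3 i hi]
      ring
  have hs : Same (H0.restrict M.Z) (yd H w a b) := by
    refine ⟨h'.yd_Z.trans HZ, fun i _ => ?_, fun i hi j hj => ?_⟩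
    · rw [yd_row]
      split_ifs with e
      · rw [e]; exact r0.symm
      · exact Hr i e
    · by_cases e' : j = w
      · rw [e']; exact e1 i hi
      · by_cases e : i = w
        · rw [e, Disp.skew _ w j, e1 j hj]; exact (H0.skew w j).symm
        · rw [yd_S e e']; exact HS i j e e'
  refine ⟨H, Hrow, fun F => ?_⟩
  rw [restrict_self, ← HZ, restrict_self]
  refine base_iff h h' HZ (fun F => ?_) F
  rw [hs.base_iff, hv.base, ← hZ, restrict_self]

end SBL

theorem Cfg.yd_B {M : Disp K} {w a b : ℕ} {T : Finset ℕ} (h : Cfg M w a b T) :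
    (yd M w a b).B.card < M.B.card := by
  have := SBL.card_yd h
  omega

theorem Cfg.SR {M : Disp F3} {w a b : ℕ} {T : Finset ℕ} (h : Cfg M w a b T)
    (h0 : (yd M w a b).SR) : M.SR := by
  obtain ⟨H0, hv⟩ := h0
  exact SBL.lift h hv

end Disp

end Pool.Agent.Lib.MP_c69b6d_co.F
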