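import Pool.Agent.Lib.MP_c69b6d_co.F.SBN

/-! Stage B: existence of a deletion pair. -/

namespace Pool.Agent.Lib.MP_c69b6d_co.F

open Finset

namespace Disp

namespace SBP

/-- no nonzero word of weight at most `k`. -/
def NoW (D : Disp F3) (k : ℕ) : Prop :=
  ∀ c ∈ D.code, ∀ T : Finset ℕ, T.card ≤ k → (∀ i, i ∉ T → c i = 0) → c = 0

/-- the word of the row `i`. -/
def rwd (D : Disp F3) (i : ℕ) : ℕ → F3 :=
  fun j => if j = i then 1 else if j ∈ D.Z then D.S i j else 0

variable {D E : Disp F3} {k : ℕ}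

theorem NoW.reach (h : NoW D k) (hr : D.Reach E) : NoW E k := by
  unfold NoW; rw [hr.code_eq]; exact h

theorem NoW.supp (h : NoW D k) {c : ℕ → F3} (hc : c ∈ D.code) (h0 : c ≠ 0) {T : Finset ℕ}
    (hT : T.card ≤ k + 1) (hs : ∀ i, i ∉ T → c i = 0) : Supp c T := by
  intro i
  refine ⟨fun hi => by_contra fun hn => hi (hs i hn), fun hi e => h0 ?_⟩
  refine h c hc (T.erase i) (by rw [card_erase_of_mem hi]; omega) fun j hj => ?_
  by_cases hji : j = i
  · rw [hji, e]
  · exact hs j fun hj' => hj (mem_erase.2 ⟨hji, hj'⟩)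

theorem one_word {r : ℕ} (hr : r ∈ D.Z) (rr : D.row r = true) {T : Finset ℕ}
    (h : ∀ j ∈ D.Z, j ∉ T → D.S r j = 0) :
    ∃ c ∈ D.code, c ≠ 0 ∧ ∀ i, i ∉ insert r T → c i = 0 := by
  refine ⟨rwd D r, row_word hr rr, fun e => ?_, fun i hi => ?_⟩
  · have := congrFun e r
    simp [rwd] at this
  · rw [mem_insert, not_or] at hi
    simp only [rwd, if_neg hi.1]
    split_ifs with h1
    · exact h i h1 hi.2
    · rfl

theorem two_word {r r' : ℕ} (hr : r ∈ D.Z) (hr' : r' ∈ D.Z) (rr : D.row r = true)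
    (rr' : D.row r' = true) (hne : r ≠ r') {T : Finset ℕ} {s : F3}
    (h : ∀ j ∈ D.Z, j ∉ T → D.S r j = s * D.S r' j) :
    ∃ c ∈ D.code, c ≠ 0 ∧ ∀ i, i ∉ insert r (insert r' T) → c i = 0 := by
  refine ⟨rwd D r - s • rwd D r', D.code.sub_mem (row_word hr rr)
    (D.code.smul_mem s (row_word hr' rr')), fun e => ?_, fun i hi => ?_⟩
  · have := congrFun e r
    simp [rwd, hne, D.bip r' r (rr'.trans rr.symm)] at this
  · simp only [mem_insert, not_or] at hi
    simp only [rwd, Pi.sub_apply, Pi.smul_apply, smul_eq_mul, if_neg hi.1, if_neg hi.2.1]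
    split_ifs with h1
    · rw [h i h1 hi.2.2, sub_self]
    · simp

theorem NoW.one (hW : NoW D k) {r : ℕ} (hr : r ∈ D.Z) (rr : D.row r = true) {T : Finset ℕ}
    (hT : T.card + 1 ≤ k) (h : ∀ j ∈ D.Z, j ∉ T → D.S r j = 0) : False := by
  obtain ⟨c, hc, h0, hs⟩ := one_word hr rr h
  exact h0 (hW c hc _ ((card_insert_le _ _).trans hT) hs)

theorem NoW.two (hW : NoW D k) {r r' : ℕ} (hr : r ∈ D.Z) (hr' : r' ∈ D.Z) (rr : D.row r = true)
    (rr' : D.row r' = true) (hne : r ≠ r') {T : Finset ℕ} (hT : T.card + 2 ≤ k) {s : F3}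
    (h : ∀ j ∈ D.Z, j ∉ T → D.S r j = s * D.S r' j) : False := by
  obtain ⟨c, hc, h0, hs⟩ := two_word hr hr' rr rr' hne h
  have h1 := card_insert_le r (insert r' T)
  have h2 := card_insert_le r' T
  exact h0 (hW c hc _ (by omega) hs)

theorem NoW.three (hW : NoW D 3) {r1 r2 r3 : ℕ} (h1 : r1 ∈ D.Z) (h2 : r2 ∈ D.Z) (h3 : r3 ∈ D.Z)
    (k1 : D.row r1 = true) (k2 : D.row r2 = true) (k3 : D.row r3 = true) (n2 : r1 ≠ r2)
    (n3 : r1 ≠ r3) {s t : F3} (h : ∀ j ∈ D.Z, D.S r1 j + s * D.S r2 j + t * D.S r3 j = 0) :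
    False := by
  have := hW (rwd D r1 + s • rwd D r2 + t • rwd D r3) (D.code.add_mem (D.code.add_mem
    (row_word h1 k1) (D.code.smul_mem s (row_word h2 k2))) (D.code.smul_mem t (row_word h3 k3)))
    {r1, r2, r3} card_le_three fun i hi => by
      simp only [mem_insert, mem_singleton, not_or] at hi
      simp only [rwd, Pi.add_apply, Pi.smul_apply, smul_eq_mul, if_neg hi.1, if_neg hi.2.1,
        if_neg hi.2.2]
      split_ifs with h0
      · exact h i h0
      · simp
  have := congrFun this r1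
  simp [rwd, n2, n3, D.bip r2 r1 (k2.trans k1.symm), D.bip r3 r1 (k3.trans k1.symm)] at this

/-- two rows supported on the same three columns give a triad. -/
theorem NoW.two3 (hW : NoW D 3) {r r' : ℕ} (hr : r ∈ D.Z) (hr' : r' ∈ D.Z) (rr : D.row r = true)
    (rr' : D.row r' = true) (hne : r ≠ r') {x y z : ℕ}
    (h : ∀ j ∈ D.Z, j ≠ x → j ≠ y → j ≠ z → D.S r j = 0)
    (h' : ∀ j ∈ D.Z, j ≠ x → j ≠ y → j ≠ z → D.S r' j = 0) : False := by
  have key : ∀ a b c a' b' c' : F3, (a' = 0 ∨ b' = 0 ∨ c' = 0) ∨ ∃ s : F3,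
      (a = s * a' ∧ b = s * b') ∨ (a = s * a' ∧ c = s * c') ∨ (b = s * b' ∧ c = s * c') ∨
        (a = 0 ∨ b = 0 ∨ c = 0) := by decide
  have one : ∀ q, q ∈ D.Z → D.row q = true → (∀ j ∈ D.Z, j ≠ x → j ≠ y → j ≠ z → D.S q j = 0) →
      ¬ (D.S q x = 0 ∨ D.S q y = 0 ∨ D.S q z = 0) := by
    rintro q hq rq hh (e | e | e)
    · refine hW.one hq rq (T := {y, z}) (by have := card_le_two (a := y) (b := z); omega)
        fun j hj hn => ?_
      simp only [mem_insert, mem_singleton, not_or] at hn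
      by_cases e1 : j = x
      · rw [e1, e]
      · exact hh j hj e1 hn.1 hn.2
    · refine hW.one hq rq (T := {x, z}) (by have := card_le_two (a := x) (b := z); omega)
        fun j hj hn => ?_
      simp only [mem_insert, mem_singleton, not_or] at hn
      by_cases e1 : j = y
      · rw [e1, e]
      · exact hh j hj hn.1 e1 hn.2
    · refine hW.one hq rq (T := {x, y}) (by have := card_le_two (a := x) (b := y); omega)
        fun j hj hn => ?_
      simp only [mem_insert, mem_singleton, not_or] at hn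
      by_cases e1 : j = z
      · rw [e1, e]
      · exact hh j hj hn.1 hn.2 e1
  have two : ∀ (w : ℕ) (s : F3), (x = w ∨ D.S r x = s * D.S r' x) →
      (y = w ∨ D.S r y = s * D.S r' y) → (z = w ∨ D.S r z = s * D.S r' z) → False := by
    intro w s e1 e2 e3
    refine hW.two hr hr' rr rr' hne (T := {w}) (by simp) (s := s) fun j hj hn => ?_
    rw [mem_singleton] at hn
    by_cases a1 : j = x
    · subst a1; exact e1.resolve_left hn
    by_cases a2 : j = y
    · subst a2; exact e2.resolve_left hn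
    by_cases a3 : j = z
    · subst a3; exact e3.resolve_left hn
    rw [h j hj a1 a2 a3, h' j hj a1 a2 a3, mul_zero]
  rcases key (D.S r x) (D.S r y) (D.S r z) (D.S r' x) (D.S r' y) (D.S r' z) with
    e | ⟨s, e | e | e | e⟩
  · exact one r' hr' rr' h' e
  · exact two z s (.inr e.1) (.inr e.2) (.inl rfl)
  · exact two y s (.inr e.1) (.inl rfl) (.inr e.2)
  · exact two x s (.inl rfl) (.inr e.1) (.inr e.2)
  · exact one r hr rr h e

theorem noW_two (h : D.Conn3) (h4 : 4 ≤ D.Z.card) : NoW D 2 := by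
  have h1 : NoW D 1 := by
    intro c hc T hT hs
    by_contra h0
    obtain ⟨u, hu⟩ := Function.ne_iff.1 h0
    have hs' : ∀ i, i ≠ u → c i = 0 := fun i hi => hs i fun hi' =>
      hi (card_le_one.1 hT i hi' u (by_contra fun hn => hu (hs u hn)))
    have huZ : u ∈ D.Z := by_contra fun hn => hu (hc.1 u hn)
    cases ru : D.row u
    · refine h0 (code_zero hc fun i hi => hs' i ?_)
      rintro rfl
      rw [(mem_B.1 hi).2] at ru; cases ru
    · obtain ⟨j, hj, hne⟩ := h.exists_ne (by omega) huZ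
      have rj : D.row j = false := by
        have := row_ne_of_S hne
        rw [ru] at this
        simpa using this.symm
      have e := hc.2 j hj rj
      rw [hs' j (ne_of_S hne).symm, sum_eq_single_of_mem u huZ
        (fun i _ hi => by rw [hs' i hi, zero_mul])] at e
      exact mul_ne_zero hu hne e.symm
  intro c hc T hT hs
  by_contra h0
  have hS := h1.supp hc h0 hT hs
  have h2 : T.card = 2 := by
    by_contra hn
    exact h0 (h1 c hc T (by omega) hs)
  obtain ⟨u, v, huv, rfl⟩ := card_eq_two.1 h2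
  exact h.flip.not_par h4 u v ⟨huv, c, by rwa [flip_flip], hS⟩

/-- a degenerate row gives a short word. -/
theorem NoW.deg (hW : NoW D k) {U W : Finset ℕ} (hU : U ⊆ D.Z) (hk : W.card + 2 ≤ k) {r : ℕ}
    (hr : r ∈ D.Z) (hrU : r ∉ U) (rr : D.row r = true)
    (hc : ∀ j ∈ D.Z, D.row j = false → j ∈ U ∨ j ∈ W) (hd : D.Deg U r) : False := by
  obtain ⟨z, hz, α, ha⟩ := hd
  cases rz : D.row z
  · refine hW.one hr rr (T := insert z W) (by have := card_insert_le z W; omega) fun j hj hn => ?_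
    rw [mem_insert, not_or] at hn
    cases rj : D.row j
    · rw [ha j ((hc j hj rj).resolve_right hn.2) hn.1, D.bip z j (rz.trans rj.symm), mul_zero]
    · exact D.bip r j (rr.trans rj.symm)
  · refine hW.two hr (hU hz) rr rz (fun e => hrU (e ▸ hz)) hk (s := α) fun j hj hn => ?_
    cases rj : D.row j
    · refine ha j ((hc j hj rj).resolve_right hn) ?_
      rintro rfl
      rw [rz] at rj; cases rj
    · rw [D.bip r j (rr.trans rj.symm), D.bip z j (rz.trans rj.symm), mul_zero]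

theorem conn3_insert {U : Finset ℕ} (h : (E.restrict U).Conn3) (h4 : 4 ≤ U.card) {r : ℕ}
    (hr : r ∉ U) (hd : ¬ E.Deg U r) : (E.restrict (insert r U)).Conn3 := by
  set G := (E.restrict U).addEl r (E.row r) (fun i => E.S i r) with hG
  have hS : ∀ i j, G.S i j = E.S i j := by
    intro i j
    show (if i = r then (if j = r ∨ E.row j = E.row r then 0 else -E.S j r)
      else if j = r then (if E.row i = E.row r then 0 else E.S i r) else E.S i j) = E.S i j
    by_cases h1 : i = r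
    · rw [if_pos h1, h1]
      by_cases h2 : j = r ∨ E.row j = E.row r
      · rw [if_pos h2]
        exact (E.bip _ _ (h2.elim (fun e => by rw [e]) Eq.symm)).symm
      · rw [if_neg h2]; exact (E.skew r j).symm
    · rw [if_neg h1]
      by_cases h2 : j = r
      · rw [if_pos h2, h2]
        by_cases h3 : E.row i = E.row r
        · rw [if_pos h3]; exact (E.bip _ _ h3).symm
        · rw [if_neg h3]
      · rw [if_neg h2]
  have hR : ∀ i, G.row i = E.row i := by
    intro i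
    show (if i = r then E.row r else E.row i) = E.row i
    by_cases h1 : i = r
    · rw [if_pos h1, h1]
    · rw [if_neg h1]
  have h1 : G.Conn3 := h.addEl h4 hr fun ⟨z, hz, α, ha⟩ =>
    hd ⟨z, hz, α, fun j hj hjz => by rw [← hS, ← hS]; exact ha j hj hjz⟩
  exact (Conn3.emb (emb_of_agree (L := G) (D := E.restrict (insert r U)) (Subset.refl _)
    ⟨fun i _ => (hR i).symm, fun i _ j _ => (hS i j).symm⟩) le_rfl).1 h1

/-- a 3-connected non-binary part with a column outside. -/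
def Good (D : Disp F3) (p : Disp F3 × Finset ℕ) : Prop :=
  D.Reach p.1 ∧ p.2 ⊆ D.Z ∧ (p.1.restrict p.2).Conn3 ∧ p.1.Nb p.2 ∧
    ∃ x ∈ D.Z, x ∉ p.2 ∧ p.1.row x = false

theorem grow (h3 : D.Conn3) (h0 : ∃ p, Good D p) : ∃ (E : Disp F3) (v : ℕ) (N : Finset ℕ),
    D.Reach E ∧ v ∈ D.Z ∧ E.row v = false ∧ N ⊆ D.Z.erase v ∧ (E.restrict N).Conn3 ∧ E.Nb N ∧
      ∀ r ∈ D.Z.erase v, r ∉ N → E.row r = true ∧ E.Deg N r := by
  classical
  have hex : ∃ m, ∃ p, Good D p ∧ D.Z.card - p.2.card = m := by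
    obtain ⟨p, hp⟩ := h0; exact ⟨_, p, hp, rfl⟩
  obtain ⟨⟨E, U⟩, ⟨hr, hU, hc, hn, x, hx, hxU, rx⟩, hm⟩ := Nat.find_spec hex
  simp only at hr hU hc hn hxU rx hm
  have hmax : ∀ E' U', Good D (E', U') → U'.card ≤ U.card := by
    intro E' U' hg
    have h1 := Nat.find_min' hex ⟨(E', U'), hg, rfl⟩
    have h2 := card_le_card hg.2.1
    have h3 := card_le_card hU
    simp only at h1 h2
    omega
  have hZ := hr.Z_eq
  obtain ⟨G, φ, ε, hr', he, hcase⟩ := chain' (h3.reach hr) (hZ ▸ hU)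
    (fun e => hxU (by rw [e, hZ]; exact hx)) hc hn.card
  have hZ' : G.Z = D.Z := hr'.Z_eq.trans hZ
  set N := U.image φ with hN
  have hNZ : N ⊆ D.Z := fun j hj => by
    obtain ⟨i, hi, rfl⟩ := mem_image.1 hj
    exact hZ' ▸ he.mem i hi
  have hcard : N.card = U.card := card_image_of_injOn he.inj
  have hcN : (G.restrict N).Conn3 := (Conn3.emb (he.restrict_right (U := N)
    fun i hi => mem_image_of_mem φ hi) hcard.le).1 hc
  have hnN : G.Nb N := (Nb.emb he (Subset.refl _)).1 hn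
  have hrG := hr.trans hr'
  have hcol : ∃ y ∈ D.Z, y ∉ N ∧ G.row y = false := by
    by_contra hcon
    push Not at hcon
    have h1 : G.flip.B ⊆ (E.flip.B.erase x).image φ := by
      intro j hj
      obtain ⟨hj1, hj2⟩ := mem_B.1 hj
      have hj3 : G.row j = false := by simpa [flip] using hj2
      have hjN : j ∈ N := by_contra fun hh => hcon j (hZ' ▸ hj1) hh hj3
      obtain ⟨i, hi, rfl⟩ := mem_image.1 hjN
      refine mem_image_of_mem φ (mem_erase.2 ⟨fun e => hxU (e ▸ hi), mem_B.2 ⟨hZ ▸ hU hi, ?_⟩⟩)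
      have h4 : E.row i = false := (he.row i hi).symm.trans hj3
      simp [flip, h4]
    have h2 := (card_le_card h1).trans card_image_le
    have hxB : x ∈ E.flip.B := mem_B.2 ⟨hZ ▸ hx, by simp [flip, rx]⟩
    rw [card_erase_of_mem hxB, hr'.flip.card_B] at h2
    have := card_pos.2 ⟨x, hxB⟩
    omega
  have main : ∀ n ∈ D.Z, n ∉ N → (∀ y ∈ D.Z, y ∉ N → G.row y = false → y = n) →
      ∃ (E : Disp F3) (v : ℕ) (N : Finset ℕ), D.Reach E ∧ v ∈ D.Z ∧ E.row v = false ∧
      N ⊆ D.Z.erase v ∧ (E.restrict N).Conn3 ∧ E.Nb N ∧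
      ∀ r ∈ D.Z.erase v, r ∉ N → E.row r = true ∧ E.Deg N r := by
    intro n hn1 hn2 hall
    obtain ⟨y, hy, hyN, ry⟩ := hcol
    obtain rfl := hall y hy hyN ry
    refine ⟨G, y, N, hrG, hy, ry, fun j hj => mem_erase.2 ⟨fun e => hyN (e ▸ hj), hNZ hj⟩, hcN, hnN,
      fun r hr0 hrN => ?_⟩
    obtain ⟨hry, hrZ⟩ := mem_erase.1 hr0
    refine ⟨by_contra fun hh => hry (hall r hrZ hrN (by simpa using hh)), by_contra fun hd => ?_⟩
    have := hmax G (insert r N) ⟨hrG, insert_subset hrZ hNZ, conn3_insert hcN hnN.card hrN hd,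
      hnN.mono (subset_insert _ _), y, hy, by simp [hyN, hry.symm], ry⟩
    rw [card_insert_of_notMem hrN] at this
    omega
  rcases hcase with ⟨n, hn1, hn2, hc'⟩ | ⟨n, hn1, n', hn1', hn2, hn2', rn, rn', -, -, hc'⟩
  · refine main n (hZ' ▸ hn1) hn2 fun y hy hyN ry => by_contra fun hne => ?_
    have := hmax G (insert n N) ⟨hrG, insert_subset (hZ' ▸ hn1) hNZ, hc',
      hnN.mono (subset_insert _ _), y, hy, by simp [hyN, hne], ry⟩
    rw [card_insert_of_notMem hn2] at this
    omega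
  · refine main n (hZ' ▸ hn1) hn2 fun y hy hyN ry => by_contra fun hne => ?_
    have hne' : y ≠ n' := by
      rintro rfl
      rw [rn'] at ry; cases ry
    have := hmax G (insert n' (insert n N)) ⟨hrG,
      insert_subset (hZ' ▸ hn1') (insert_subset (hZ' ▸ hn1) hNZ), hc',
      hnN.mono ((subset_insert _ _).trans (subset_insert _ _)), y, hy,
      by simp [hyN, hne, hne'], ry⟩
    have h1 := card_le_card (subset_insert n' (insert n N))
    rw [card_insert_of_notMem hn2] at h1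
    omega

/-- a starting point for `grow`. -/
theorem start (hn : D.Nb D.Z) (h : ∀ (E : Disp F3) (r s c d : ℕ), D.Reach E → r ∈ D.Z → s ∈ D.Z →
      r ≠ s → E.row r = true → E.row s = true →
      (∀ j ∈ D.Z, E.row j = false → j = c ∨ j = d) → False) : ∃ p, Good D p := by
  obtain ⟨E, r, s, c, d, hr, h1, h2, h3, h4, k1, k2, -, -, hrs, -, hw⟩ := hn.exists
  refine ⟨(E, {r, s, c, d}), hr, ?_, hw.conn3.1, hw.nb (by simp) (by simp) (by simp) (by simp), ?_⟩
  · simp only [insert_subset_iff, singleton_subset_iff]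
    exact ⟨h1, h2, h3, h4⟩
  · by_contra hcon
    push Not at hcon
    refine h E r s c d hr h1 h2 hrs k1 k2 fun j hj rj => ?_
    have : j ∈ ({r, s, c, d} : Finset ℕ) := by_contra fun hh => hcon j hj hh rj
    simp only [mem_insert, mem_singleton] at this
    rcases this with rfl | rfl | e | e
    · rw [k1] at rj; cases rj
    · rw [k2] at rj; cases rj
    · exact .inl e
    · exact .inr e

/-- a word on `T + w` shows a configuration. -/
theorem cfg_of (h3 : D.Conn3) {T : Finset ℕ} {w a b : ℕ} (hT : T ⊆ D.Z) (hw : w ∉ T)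
    (ha : a ∈ T) (hb : b ∈ T) (hab : a ≠ b) (hc3 : T.card ≤ 3) (hZ : T.card + 3 ≤ D.Z.card)
    (hI : ∀ c ∈ D.code, (∀ i, i ∉ T → c i = 0) → c = 0) {c : ℕ → F3} (hc : c ∈ D.code)
    (hs : Supp c (insert w T))
    (hd : ∀ t ∈ T, t ≠ a → t ≠ b → ∃ d ∈ D.flip.code, Supp d T) :
    ∃ E, D.Reach E ∧ Cfg E w a b T := by
  obtain ⟨E, hr0, hdis⟩ := reach_cols (D := D) hT (by unfold Indep; rwa [flip_flip])
  have hr : D.Reach E := hr0.reach (union_subset (inter_subset_left.trans hT)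
    (sdiff_subset.trans sdiff_subset))
  have hZE := hr.Z_eq
  have hcw : c w ≠ 0 := (hs w).2 (mem_insert_self _ _)
  have hwZ : w ∈ E.Z := by_contra fun hn => hcw (hc.1 w (hZE ▸ hn))
  have hcE : c ∈ E.code := hr.code_eq ▸ hc
  have cols : ∀ t ∈ T, E.row t = false := fun t ht => by_contra fun hh =>
    disjoint_left.1 hdis ht (mem_B.2 ⟨hZE ▸ hT ht, by simpa using hh⟩)
  have hrow : ∀ i, i ≠ w → E.row i = true → c i = 0 := fun i hi ri => by_contra fun hh => by
    rcases mem_insert.1 ((hs i).1 hh) with e | e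
    · exact hi e
    · rw [cols i e] at ri; cases ri
  have rw' : E.row w = true := by_contra fun hh => hcw (congrFun (code_zero hcE fun i hi =>
    hrow i (fun e => hh (e ▸ (mem_B.1 hi).2)) (mem_B.1 hi).2) w)
  have supp : ∀ j ∈ E.Z, E.S w j ≠ 0 ↔ j ∈ T := by
    intro j hj
    cases rj : E.row j
    · have e := hcE.2 j hj rj
      rw [sum_row _ _ rj, sum_eq_single_of_mem w hwZ (fun i _ hi => by
        split_ifs with h1
        · rw [hrow i hi h1, zero_mul]
        · rw [zero_mul]), if_pos rw'] at e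
      have hjw : j ≠ w := fun e => by rw [e, rw'] at rj; cases rj
      have := hs j
      rw [e, mem_insert, mul_ne_zero_iff] at this
      simp only [hjw, false_or] at this
      exact ⟨fun hh => this.1 ⟨hcw, hh⟩, fun hh => (this.2 hh).2⟩
    · refine ⟨fun hh => absurd (E.bip w j (rw'.trans rj.symm)) hh, fun hh => ?_⟩
      rw [cols j hh] at rj; cases rj
  have span : ∀ t ∈ T, t ≠ a → t ≠ b → ∃ α β : F3, α ≠ 0 ∧ β ≠ 0 ∧
      ∀ i ∈ E.Z, E.S i t = α * E.S i a + β * E.S i b := by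
    intro t ht hta htb
    obtain ⟨d, hd1, hd2⟩ := hd t ht hta htb
    have hdE : d ∈ E.flip.code := hr.flip_code_eq ▸ hd1
    have hTe : T = {t, a, b} := by
      refine (eq_of_subset_of_card_le ?_ ?_).symm
      · simp only [insert_subset_iff, singleton_subset_iff]; exact ⟨ht, ha, hb⟩
      · rw [card_eq_three.2 ⟨t, a, b, hta, htb, hab, rfl⟩]; exact hc3
    have dt := (hd2 t).2 ht
    have da := (hd2 a).2 ha
    have db := (hd2 b).2 hb
    refine ⟨-(d a / d t), -(d b / d t), neg_ne_zero.2 (div_ne_zero da dt),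
      neg_ne_zero.2 (div_ne_zero db dt), fun i hi => ?_⟩
    cases ri : E.row i
    · rw [E.bip i t (ri.trans (cols t ht).symm), E.bip i a (ri.trans (cols a ha).symm),
        E.bip i b (ri.trans (cols b hb).symm)]; ring
    · have e := (mem_flip_code.1 hdE).2 i hi ri
      have hiT : i ∉ T := fun hh => by rw [cols i hh] at ri; cases ri
      have d0 : ∀ j, j ∉ T → d j = 0 := fun j hj => by_contra fun hh => hj ((hd2 j).1 hh)
      rw [d0 i hiT, sum_ext_of_supp (hZE ▸ hT) d0, hTe, sum_insert (by simp [hta, htb]),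
        sum_pair hab, E.skew t i, E.skew a i, E.skew b i] at e
      field_simp
      linear_combination e
  refine ⟨E, hr, hwZ, rw', hZE ▸ hT, cols, ha, hb, hc3, supp, span, ?_⟩
  by_contra hcon
  push Not at hcon
  have hX : insert w T ⊆ E.Z := insert_subset hwZ (hZE ▸ hT)
  have hcX : (insert w T).card = T.card + 1 := card_insert_of_notMem hw
  have h2T : 2 ≤ T.card := one_lt_card.2 ⟨a, ha, b, hb, hab⟩
  have h2 := ((h3.reach hr) _ hX).2 (by omega) (by rw [card_sdiff_of_subset hX, hZE]; omega)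
  have comb : ∀ t ∈ T, ∃ α β : F3, ∀ i ∈ E.Z, E.S t i = α * E.S i a + β * E.S i b := by
    intro t ht
    by_cases hta : t = a
    · exact ⟨-1, 0, fun i _ => by rw [hta, E.skew a i]; ring⟩
    by_cases htb : t = b
    · exact ⟨0, -1, fun i _ => by rw [htb, E.skew b i]; ring⟩
    obtain ⟨α, β, -, -, hh⟩ := span t ht hta htb
    exact ⟨-α, -β, fun i hi => by rw [E.skew t i, hh i hi]; ring⟩
  have h1 : E.lam (insert w T) (E.Z \ insert w T) ≤ 1 := by
    refine lam_le_one_of_det fun i hi i' hi' j hj j' hj' => ?_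
    simp only [mem_sdiff, mem_insert, not_or] at hj hj'
    have z1 : E.S w j = 0 := by_contra fun hh => hj.2.2 ((supp j hj.1).1 hh)
    have z2 : E.S w j' = 0 := by_contra fun hh => hj'.2.2 ((supp j' hj'.1).1 hh)
    rcases mem_insert.1 hi with rfl | hi
    · rw [z1, z2, zero_mul, zero_mul]
    rcases mem_insert.1 hi' with rfl | hi'
    · rw [z1, z2, mul_zero, mul_zero]
    obtain ⟨α, β, e1⟩ := comb i hi
    obtain ⟨α', β', e2⟩ := comb i' hi'
    have e3 := hcon j hj.1 j' hj'.1 hj.2.1 hj'.2.1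
    rw [e1 j hj.1, e1 j' hj'.1, e2 j hj.1, e2 j' hj'.1]
    linear_combination (α * β' - β * α') * e3
  omega

/-- a small side of a 2-separation of `E - v`. -/
theorem sep (hW : NoW E 3) (hW' : NoW E.flip 2) {u v : ℕ} {N X Y : Finset ℕ} (ru : E.row u = false)
    (rv : E.row v = false) (hvN : v ∉ N) (hNZ : N ⊆ E.Z) (cN : (E.restrict N).Conn3)
    (h4 : 4 ≤ N.card) (rows : ∀ r ∈ E.Z, r ≠ u → r ≠ v → r ∉ N → E.row r = true)
    (hX : X ⊆ E.Z) (hvX : v ∉ X) (hXY : ∀ j ∈ E.Z, j ≠ v → j ∉ X → j ∈ Y)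
    (hl : E.lam X Y ≤ 1) (h2 : 2 ≤ X.card) (h1 : (X ∩ N).card ≤ 1) :
    ∃ T : Finset ℕ, T ⊆ X ∧ T.card ≤ 3 ∧
      (∃ c ∈ E.code, c ≠ 0 ∧ ∀ i, i ∉ insert v T → c i = 0) ∧
      ∃ d ∈ E.flip.code, d ≠ 0 ∧ ∀ i, i ∉ T → d i = 0 := by
  have det : ∀ {i i' j j' : ℕ}, i ∈ X → i' ∈ X → j ∈ Y → j' ∈ Y →
      E.S i j * E.S i' j' = E.S i j' * E.S i' j := fun a b c d => det_two_of_lam hl a b c d
  have other : ∀ i ∈ X, ∀ j ∈ Y, E.S i j ≠ 0 → ∀ i' ∈ X, E.row i' ≠ E.row i →
      ∀ j' ∈ Y, E.S i' j' = 0 := by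
    intro i hi j hj hne i' hi' hr j' hj'
    have e := det hi hi' hj hj'
    have k : ∀ a b c : Bool, a ≠ b → c ≠ a → c = b := by decide
    rw [E.bip i' j (k _ _ _ (row_ne_of_S hne) hr), mul_zero] at e
    exact (mul_eq_zero.1 e).resolve_left hne
  have prop : ∀ i ∈ X, ∀ j ∈ Y, E.S i j ≠ 0 → ∀ i' ∈ X, ∃ s : F3,
      ∀ j' ∈ Y, E.S i' j' = s * E.S i j' := fun i hi j hj hne i' hi' =>
    ⟨E.S i' j / E.S i j, fun j' hj' => by
      have e := det hi hi' hj hj'
      field_simp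
      linear_combination e⟩
  have fr : ∀ {j : ℕ}, E.row j = false → E.flip.row j = true := fun h => by simp [flip, h]
  by_cases hA : ∃ z ∈ X, z ≠ u ∧ E.row z = false
  · obtain ⟨z, hz, hzu, rz⟩ := hA
    have inN : ∀ j ∈ X, j ≠ u → E.row j = false → j ∈ N := fun j hj hju rj => by_contra fun hn => by
      rw [rows j (hX hj) hju (fun e => hvX (e ▸ hj)) hn] at rj; cases rj
    have hzN := inN z hz hzu rz
    have uniq : ∀ j ∈ X, j ∈ N → j = z := fun j hj hjN =>
      card_le_one.1 h1 j (mem_inter.2 ⟨hj, hjN⟩) z (mem_inter.2 ⟨hz, hzN⟩)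
    obtain ⟨j0, hj0, hne⟩ := cN.exists_ne (show 2 ≤ N.card by omega) hzN
    have hne : E.S z j0 ≠ 0 := hne
    have hj0 : j0 ∈ N := hj0
    have hj0Y : j0 ∈ Y := hXY j0 (hNZ hj0) (fun e => hvN (e ▸ hj0))
      fun hh => ne_of_S hne (uniq j0 hh hj0).symm
    have van : ∀ r ∈ X, E.row r = true → ∀ j ∈ Y, E.S r j = 0 := fun r hr rr =>
      other z hz j0 hj0Y hne r hr (by rw [rr, rz]; decide)
    have sup : ∀ r ∈ X, E.row r = true → ∀ j ∈ E.Z, j ≠ z → j ≠ u → j ≠ v → E.S r j = 0 := by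
      intro r hr rr j hj a1 a2 a3
      by_cases hjX : j ∈ X
      · cases rj : E.row j
        · exact absurd (uniq j hjX (inN j hjX a2 rj)) a1
        · exact E.bip r j (rr.trans rj.symm)
      · exact van r hr rr j (hXY j hj a3 hjX)
    by_cases huX : u ∈ X
    · obtain ⟨α, hα⟩ := prop z hz j0 hj0Y hne u huX
      have hcol : ∀ R : Finset ℕ, (∀ j ∈ X, E.row j = true → j ∈ R) →
          ∀ j ∈ E.Z, j ∉ R → E.S u j = α * E.S z j := by
        intro R hR j hj hjR
        cases rj : E.row j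
        · rw [E.bip u j (ru.trans rj.symm), E.bip z j (rz.trans rj.symm), mul_zero]
        · refine hα j (hXY j hj ?_ fun hh => hjR (hR j hh rj))
          rintro rfl
          rw [rv] at rj; cases rj
      by_cases hr : ∃ r ∈ X, E.row r = true
      · obtain ⟨r, hr, rr⟩ := hr
        have hR : ∀ j ∈ X, E.row j = true → j ∈ ({r} : Finset ℕ) := fun j hj rj =>
          mem_singleton.2 (by_contra fun hn => hW.two3 (hX hj) (hX hr) rj rr hn
            (sup j hj rj) (sup r hr rr))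
        refine ⟨{u, z, r}, ?_, card_le_three, ?_,
          two_word (D := E.flip) (hX huX) (hX hz) (fr ru) (fr rz) hzu.symm (hcol _ hR)⟩
        · simp only [insert_subset_iff, singleton_subset_iff]; exact ⟨huX, hz, hr⟩
        · obtain ⟨c, hc, h0, hs⟩ := one_word (hX hr) rr (T := {z, u, v}) fun j hj hn => by
            simp only [mem_insert, mem_singleton, not_or] at hn
            exact sup r hr rr j hj hn.1 hn.2.1 hn.2.2
          refine ⟨c, hc, h0, fun i hi => hs i ?_⟩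
          simp only [mem_insert, mem_singleton, not_or] at hi ⊢
          exact ⟨hi.2.2.2, hi.2.2.1, hi.2.1, hi.1⟩
      · exact (hW'.two (hX huX) (hX hz) (fr ru) (fr rz) hzu.symm (T := ∅) (by simp)
          (hcol ∅ fun j hj rj => absurd ⟨j, hj, rj⟩ hr)).elim
    · obtain ⟨r, hr, hrz⟩ := exists_mem_ne (show 1 < X.card by omega) z
      have rr : E.row r = true := by_contra fun hh =>
        hrz (uniq r hr (inN r hr (fun e => huX (e ▸ hr)) (by simpa using hh)))
      refine (hW.one (hX hr) rr (T := {z, v}) (by have := card_le_two (a := z) (b := v); omega)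
        fun j hj hn => ?_).elim
      simp only [mem_insert, mem_singleton, not_or] at hn
      by_cases hju : j = u
      · exact van r hr rr j (hXY j hj hn.2 (hju ▸ huX))
      · exact sup r hr rr j hj hn.1 hju hn.2
  · have allr : ∀ j ∈ X, j ≠ u → E.row j = true := fun j hj hju =>
      by_contra fun hh => hA ⟨j, hj, hju, by simpa using hh⟩
    have nz : ∀ r ∈ X, r ≠ u → ∃ j ∈ Y, E.S r j ≠ 0 := by
      intro r hr hru
      by_contra hcon
      push Not at hcon
      refine hW.one (hX hr) (allr r hr hru) (T := {u, v})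
        (by have := card_le_two (a := u) (b := v); omega) fun j hj hn => ?_
      simp only [mem_insert, mem_singleton, not_or] at hn
      by_cases hjX : j ∈ X
      · exact E.bip r j ((allr r hr hru).trans (allr j hjX hn.1).symm)
      · exact hcon j (hXY j hj hn.2 hjX)
    have ext : ∀ r ∈ X, r ≠ u → ∀ r' ∈ X, r' ≠ u → ∀ s : F3, (∀ j ∈ Y, E.S r' j = s * E.S r j) →
        ∀ j ∈ E.Z, j ≠ v → (j ≠ u ∨ u ∉ X) → E.S r' j = s * E.S r j := by
      intro r hr hru r' hr' hru' s hs j hj hjv hju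
      by_cases hjX : j ∈ X
      · have hju' : j ≠ u := hju.elim id fun hh e => hh (e ▸ hjX)
        rw [E.bip r j ((allr r hr hru).trans (allr j hjX hju').symm),
          E.bip r' j ((allr r' hr' hru').trans (allr j hjX hju').symm), mul_zero]
      · exact hs j (hXY j hj hjv hjX)
    by_cases huX : u ∈ X
    · obtain ⟨r1, hr1, hu1⟩ := exists_mem_ne (show 1 < X.card by omega) u
      obtain ⟨j1, hj1, hne⟩ := nz r1 hr1 hu1
      have k1 := allr r1 hr1 hu1
      have hcol : ∀ R : Finset ℕ, (∀ j ∈ X, j ≠ u → j ∈ R) → ∀ j ∈ E.Z, j ∉ R → E.S u j = 0 := by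
        intro R hR j hj hjR
        cases rj : E.row j
        · exact E.bip u j (ru.trans rj.symm)
        · refine other r1 hr1 j1 hj1 hne u huX (by rw [ru, k1]; decide) j (hXY j hj ?_ fun hh =>
            hjR (hR j hh ?_))
          · rintro rfl
            rw [rv] at rj; cases rj
          · rintro rfl
            rw [ru] at rj; cases rj
      by_cases h2' : ∃ r2 ∈ X, r2 ≠ u ∧ r2 ≠ r1
      swap
      · refine (hW'.one (hX huX) (fr ru) (T := {r1}) (by simp) (hcol _ fun j hj hju => ?_)).elim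
        exact mem_singleton.2 (by_contra fun hh => h2' ⟨j, hj, hju, hh⟩)
      obtain ⟨r2, hr2, hu2, h21⟩ := h2'
      have k2 := allr r2 hr2 hu2
      obtain ⟨s, hs⟩ := prop r1 hr1 j1 hj1 hne r2 hr2
      have pair : ∀ r ∈ X, r ≠ u → ∀ r' ∈ X, r' ≠ u → r' ≠ r → ∀ s : F3,
          (∀ j ∈ Y, E.S r' j = s * E.S r j) →
          E.S r' u ≠ s * E.S r u ∧ E.S r' v ≠ s * E.S r v := by
        intro r hr hru r' hr' hru' hn s hs
        have h0 := ext r hr hru r' hr' hru' s hs
        constructor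
        · intro e
          refine hW.two (hX hr') (hX hr) (allr r' hr' hru') (allr r hr hru) hn (T := {v})
            (by simp) (s := s) fun j hj hjv => ?_
          by_cases hju : j = u
          · rw [hju, e]
          · exact h0 j hj (by simpa using hjv) (.inl hju)
        · intro e
          refine hW.two (hX hr') (hX hr) (allr r' hr' hru') (allr r hr hru) hn (T := {u})
            (by simp) (s := s) fun j hj hju => ?_
          by_cases hjv : j = v
          · rw [hjv, e]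
          · exact h0 j hj hjv (.inl (by simpa using hju))
      by_cases h3' : ∃ r3 ∈ X, r3 ≠ u ∧ r3 ≠ r1 ∧ r3 ≠ r2
      · exfalso
        obtain ⟨r3, hr3, hu3, h31, h32⟩ := h3'
        obtain ⟨t, ht⟩ := prop r1 hr1 j1 hj1 hne r3 hr3
        have s0 : s ≠ 0 := by
          rintro rfl
          obtain ⟨j, hj, hh⟩ := nz r2 hr2 hu2
          exact hh (by rw [hs j hj, zero_mul])
        have t0 : t ≠ 0 := by
          rintro rfl
          obtain ⟨j, hj, hh⟩ := nz r3 hr3 hu3
          exact hh (by rw [ht j hj, zero_mul])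
        have f1 : ∀ s t x : F3, s ≠ 0 → t * x = t * s * (s * x) := by decide
        have f2 : ∀ s t p1 p2 p3 : F3, s ≠ 0 → t ≠ 0 → p2 ≠ s * p1 → p3 ≠ t * p1 →
            p3 ≠ t * s * p2 → p1 + s * p2 + t * p3 = 0 := by decide
        have f3 : ∀ s t x : F3, s ≠ 0 → t ≠ 0 → x + s * (s * x) + t * (t * x) = 0 := by decide
        have p2 := pair r1 hr1 hu1 r2 hr2 hu2 h21 s hs
        have p3 := pair r1 hr1 hu1 r3 hr3 hu3 h31 t ht
        have p4 := pair r2 hr2 hu2 r3 hr3 hu3 h32 (t * s) fun j hj => by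
          rw [ht j hj, hs j hj]; exact f1 s t _ s0
        refine hW.three (hX hr1) (hX hr2) (hX hr3) k1 k2 (allr r3 hr3 hu3) h21.symm h31.symm
          (s := s) (t := t) fun j hj => ?_
        by_cases hju : j = u
        · rw [hju]; exact f2 _ _ _ _ _ s0 t0 p2.1 p3.1 p4.1
        by_cases hjv : j = v
        · rw [hjv]; exact f2 _ _ _ _ _ s0 t0 p2.2 p3.2 p4.2
        rw [ext r1 hr1 hu1 r2 hr2 hu2 s hs j hj hjv (.inl hju),
          ext r1 hr1 hu1 r3 hr3 hu3 t ht j hj hjv (.inl hju)]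
        exact f3 s t _ s0 t0
      · refine ⟨{u, r1, r2}, ?_, card_le_three, ?_,
          one_word (D := E.flip) (hX huX) (fr ru) (hcol _ fun j hj hju => ?_)⟩
        · simp only [insert_subset_iff, singleton_subset_iff]; exact ⟨huX, hr1, hr2⟩
        · obtain ⟨c, hc, h0, hs'⟩ := two_word (hX hr2) (hX hr1) k2 k1 h21 (T := {u, v}) (s := s)
            fun j hj hn => by
              simp only [mem_insert, mem_singleton, not_or] at hn
              exact ext r1 hr1 hu1 r2 hr2 hu2 s hs j hj hn.2 (.inl hn.1)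
          refine ⟨c, hc, h0, fun i hi => hs' i ?_⟩
          simp only [mem_insert, mem_singleton, not_or] at hi ⊢
          exact ⟨hi.2.2.2, hi.2.2.1, hi.2.1, hi.1⟩
        · simp only [mem_insert, mem_singleton]
          by_contra hh
          push Not at hh
          exact h3' ⟨j, hj, hju, hh.1, hh.2⟩
    · obtain ⟨r1, hr1, r2, hr2, h12⟩ := one_lt_card.1 (show 1 < X.card by omega)
      have hu1 : r1 ≠ u := fun e => huX (e ▸ hr1)
      have hu2 : r2 ≠ u := fun e => huX (e ▸ hr2)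
      obtain ⟨j1, hj1, hne⟩ := nz r1 hr1 hu1
      obtain ⟨s, hs⟩ := prop r1 hr1 j1 hj1 hne r2 hr2
      exact (hW.two (hX hr2) (hX hr1) (allr r2 hr2 hu2) (allr r1 hr1 hu1) h12.symm (T := {v})
        (by simp) (s := s) fun j hj hjv =>
          ext r1 hr1 hu1 r2 hr2 hu2 s hs j hj (by simpa using hjv) (.inr huX)).elim

/-- `E - v` is 3-connected unless a configuration appears. -/
theorem step3 (h3 : E.Conn3) (hW : NoW E 3) {u v : ℕ} {N : Finset ℕ} (hu : u ∈ E.Z) (hv : v ∈ E.Z)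
    (huv : u ≠ v) (ru : E.row u = false) (rv : E.row v = false) (sub : N ⊆ (E.Z.erase u).erase v)
    (cN : (E.restrict N).Conn3) (h4 : 4 ≤ N.card)
    (rows : ∀ r ∈ (E.Z.erase u).erase v, r ∉ N → E.row r = true) :
    (∃ G w a b T, E.Reach G ∧ Cfg G w a b T) ∨ (E.restrict (E.Z.erase v)).Conn3 := by
  have h6 : 6 ≤ E.Z.card := by
    have := card_le_card sub
    rw [card_erase_of_mem (mem_erase.2 ⟨huv.symm, hv⟩), card_erase_of_mem hu] at this
    omega
  have hW' : NoW E.flip 2 := noW_two h3.flip (show 4 ≤ E.Z.card by omega)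
  have hvN : v ∉ N := fun h => (mem_erase.1 (sub h)).1 rfl
  have hNv : N ⊆ E.Z.erase v := sub.trans (erase_subset_erase _ (erase_subset _ _))
  have hNZ : N ⊆ E.Z := hNv.trans (erase_subset _ _)
  by_contra hcon
  rw [not_or] at hcon
  obtain ⟨hno, hn3⟩ := hcon
  have side : ∀ X Y : Finset ℕ, X ⊆ E.Z.erase v → (∀ j ∈ E.Z, j ≠ v → j ∉ X → j ∈ Y) →
      E.lam X Y ≤ 1 → 2 ≤ X.card → (X ∩ N).card ≤ 1 → False := by
    intro X Y hX hXY hl h2 h1
    obtain ⟨T, hT, hT3, ⟨c, hc, c0, cs⟩, d, hd, d0, ds⟩ := sep hW hW' ru rv hvN hNZ cN h4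
      (fun r hr a b => rows r (mem_erase.2 ⟨b, mem_erase.2 ⟨a, hr⟩⟩)) (hX.trans (erase_subset _ _))
      (fun h => (mem_erase.1 (hX h)).1 rfl) hXY hl h2 h1
    have hT2 : 1 < T.card := by
      by_contra hh
      exact d0 (hW' d hd T (by omega) ds)
    obtain ⟨a, ha, b, hb, hab⟩ := one_lt_card.1 hT2
    obtain ⟨G, hr, hG⟩ := cfg_of h3 ((hT.trans hX).trans (erase_subset _ _))
      (fun h => (mem_erase.1 (hX (hT h))).1 rfl) ha hb hab hT3 (by omega)
      (fun c hc hs => hW c hc T hT3 hs) hc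
      (hW.supp hc c0 (by have := card_insert_le v T; omega) cs)
      (fun _ _ _ _ => ⟨d, hd, hW'.supp hd d0 hT3 ds⟩)
    exact hno ⟨G, v, a, b, T, hr, hG⟩
  have big : ∀ X ⊆ E.Z.erase v, 2 ≤ X.card → 2 ≤ (E.Z.erase v \ X).card →
      2 ≤ E.lam X (E.Z.erase v \ X) := by
    intro X hX a1 a2
    by_contra hh
    have hl : E.lam X (E.Z.erase v \ X) ≤ 1 := by omega
    by_cases b1 : (X ∩ N).card ≤ 1
    · exact side X _ hX (fun j hj hjv hjX => mem_sdiff.2 ⟨mem_erase.2 ⟨hjv, hj⟩, hjX⟩) hl a1 b1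
    by_cases b2 : ((E.Z.erase v \ X) ∩ N).card ≤ 1
    · refine side _ X sdiff_subset (fun j hj hjv hjX => by_contra fun h => hjX ?_)
        (by rwa [lam_symm]) a2 b2
      exact mem_sdiff.2 ⟨mem_erase.2 ⟨hjv, hj⟩, h⟩
    have e : N \ (X ∩ N) = (E.Z.erase v \ X) ∩ N := by
      ext j
      simp only [mem_sdiff, mem_inter, not_and]
      exact ⟨fun h => ⟨⟨hNv h.1, fun hh => h.2 hh h.1⟩, h.1⟩, fun h => ⟨h.2, fun hh _ => h.1.2 hh⟩⟩
    have b3 := (cN (X ∩ N) inter_subset_right).2 (by omega) (by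
      show 2 ≤ (N \ (X ∩ N)).card
      rw [e]; omega)
    have b4 : E.lam (X ∩ N) (N \ (X ∩ N)) ≤ E.lam X (E.Z.erase v \ X) :=
      lam_mono _ inter_subset_left (e ▸ inter_subset_left)
    have b5 : 2 ≤ E.lam (X ∩ N) (N \ (X ∩ N)) := b3
    omega
  have single : ∀ X Y : Finset ℕ, X ⊆ E.Z.erase v → (∀ j ∈ E.Z, j ≠ v → j ∉ X → j ∈ Y) →
      X.Nonempty → X.card ≤ 1 → E.lam X Y ≠ 0 := by
    rintro X Y hX hXY ⟨x, hx⟩ h1 h0
    have hz : ∀ j ∈ E.Z, j ≠ v → E.S x j = 0 := by
      intro j hj hjv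
      by_cases hjX : j ∈ X
      · rw [card_le_one.1 h1 j hjX x hx]; exact E.bip x x rfl
      · exact lam_eq_zero_iff.1 h0 x hx j (hXY j hj hjv hjX)
    have hxZ : x ∈ E.Z := (mem_erase.1 (hX hx)).2
    cases rx : E.row x
    · exact hW'.one hxZ (by simp [flip, rx]) (T := {v}) (by simp)
        fun j hj hn => hz j hj (by simpa using hn)
    · exact hW.one hxZ rx (T := {v}) (by simp) fun j hj hn => hz j hj (by simpa using hn)
  refine hn3 fun X hX => ⟨fun n1 n2 => ?_, big X hX⟩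
  show 1 ≤ E.lam X (E.Z.erase v \ X)
  have n2 : (E.Z.erase v \ X).Nonempty := n2
  by_cases a1 : X.card ≤ 1
  · exact Nat.one_le_iff_ne_zero.2 (single X _ hX
      (fun j hj hjv hjX => mem_sdiff.2 ⟨mem_erase.2 ⟨hjv, hj⟩, hjX⟩) n1 a1)
  by_cases a2 : (E.Z.erase v \ X).card ≤ 1
  · rw [lam_symm]
    refine Nat.one_le_iff_ne_zero.2 (single _ X sdiff_subset
      (fun j hj hjv hjX => by_contra fun h => hjX ?_) n2 a2)
    exact mem_sdiff.2 ⟨mem_erase.2 ⟨hjv, hj⟩, h⟩
  have := big X hX (by omega) (by omega)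
  omega

end SBP

open SBP in
theorem exists_pair {M : Disp F3} (h3 : M.Conn3) (hn : M.Nb M.Z) (h5 : 5 ≤ M.Z.card) :
    (∃ E w a b T, M.Reach E ∧ Cfg E w a b T) ∨ ∃ E u v N, M.Reach E ∧ Pair E u v N := by
  have hW2 : NoW M 2 := noW_two h3 (by omega)
  by_cases hW : NoW M 3
  swap
  · left
    unfold NoW at hW
    push Not at hW
    obtain ⟨c, hc, T, hT, hs, h0⟩ := hW
    have hS := hW2.supp hc h0 hT hs
    have hT3 : T.card = 3 := by
      by_contra hh
      exact h0 (hW2 c hc T (by omega) hs)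
    obtain ⟨w, a, b, hwa, hwb, hab, rfl⟩ := card_eq_three.1 hT3
    have hZ : ∀ i ∈ ({w, a, b} : Finset ℕ), i ∈ M.Z := fun i hi =>
      by_contra fun hh => (hS i).2 hi (hc.1 i hh)
    obtain ⟨E, hr, hE⟩ := cfg_of h3 (T := {a, b}) (w := w) (a := a) (b := b)
      (fun i hi => hZ i (mem_insert_of_mem hi)) (by simp [hwa, hwb]) (by simp) (by simp) hab
      (card_le_two.trans (by norm_num)) (by rw [card_pair hab]; omega)
      (fun c hc hs => hW2 c hc _ card_le_two hs) hc hS fun t ht hta htb => by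
        simp [hta, htb] at ht
    exact ⟨E, w, a, b, _, hr, hE⟩
  obtain ⟨E, u, N0, hr, hu, ru, hN0, cN0, nb0, deg0⟩ := grow h3 (start hn
    fun E r s c d hr h1 _ _ k1 _ hc => (hW.reach hr).one (hr.Z_eq ▸ h1) k1 (T := {c, d})
      (by have := card_le_two (a := c) (b := d); omega) fun j hj hn => by
        cases rj : E.row j
        · exact absurd (by simpa using hc j (hr.Z_eq ▸ hj) rj) hn
        · exact E.bip r j (k1.trans rj.symm))
  have hZ := hr.Z_eq
  have hWE := hW.reach hr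
  have hN : N0 = M.Z.erase u := by
    refine Subset.antisymm hN0 fun r hr0 => by_contra fun hrN => ?_
    obtain ⟨rr, hd⟩ := deg0 r hr0 hrN
    refine hWE.deg (U := N0) (W := {u}) (hZ ▸ hN0.trans (erase_subset _ _)) (by simp)
      (hZ ▸ (mem_erase.1 hr0).2) hrN rr (fun j hj rj => ?_) hd
    by_cases hju : j = u
    · exact .inr (mem_singleton.2 hju)
    · refine .inl (by_contra fun hjN => ?_)
      rw [(deg0 j (mem_erase.2 ⟨hju, hZ ▸ hj⟩) hjN).1] at rj; cases rj
  subst hN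
  have lift : ∀ E1, (E.restrict (M.Z.erase u)).Reach E1 →
      ∃ G, M.Reach G ∧ G.row u = false ∧ E1 = G.restrict (M.Z.erase u) := by
    intro E1 h1
    obtain ⟨G, g1, g2⟩ := ReachIn.lift h1
    exact ⟨G, hr.trans (g1.reach (hZ ▸ erase_subset _ _)),
      (g1.row_eq (notMem_erase u M.Z)).trans ru, g2⟩
  obtain ⟨E1, v, N, hr1, hv, rv, sub, cN, nb, deg⟩ := grow (D := E.restrict (M.Z.erase u)) cN0
    (start nb0 fun E1 r s c d hr1 h1 h2 hrs k1 k2 hc => by
      obtain ⟨G, g1, g2, rfl⟩ := lift E1 hr1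
      have hz : ∀ q, G.row q = true → ∀ j ∈ G.Z, j ≠ c → j ≠ d → j ≠ u → G.S q j = 0 := by
        intro q rq j hj a1 a2 a3
        cases rj : G.row j
        · exact ((hc j (mem_erase.2 ⟨a3, g1.Z_eq ▸ hj⟩) rj).elim a1 a2).elim
        · exact G.bip q j (rq.trans rj.symm)
      exact (hW.reach g1).two3 (g1.Z_eq ▸ (mem_erase.1 h1).2) (g1.Z_eq ▸ (mem_erase.1 h2).2)
        k1 k2 hrs (hz r k1) (hz s k2))
  have cu := Conn3.reach cN0 hr1
  obtain ⟨G, g1, g2, rfl⟩ := lift E1 hr1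
  have hGZ := g1.Z_eq
  obtain ⟨hvu, hvZ⟩ := mem_erase.1 hv
  have sub' : N ⊆ (G.Z.erase u).erase v := hGZ ▸ sub
  have deg' : ∀ r ∈ (G.Z.erase u).erase v, r ∉ N → G.row r = true ∧ G.Deg N r := hGZ ▸ deg
  rcases step3 (h3.reach g1) (hW.reach g1) (hGZ ▸ hu) (hGZ ▸ hvZ) hvu.symm g2 rv sub' cN nb.card
    (fun r h1 h2 => (deg' r h1 h2).1) with ⟨G', w, a, b, T, h1, h2⟩ | cv
  · exact .inl ⟨G', w, a, b, T, g1.trans h1, h2⟩
  · exact .inr ⟨G, u, v, N, g1, hGZ ▸ hu, hGZ ▸ hvZ, hvu.symm, g2, rv, hGZ ▸ cu, cv, sub', cN, nb,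
      deg'⟩

end Disp

end Pool.Agent.Lib.MP_c69b6d_co.F
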