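import Pool.Agent.Lib.MP_c69b6d_co.F.Api3
import Pool.Agent.Lib.MP_c69b6d_co.F.Lam

namespace Pool.Agent.Lib.MP_c69b6d_co.F

open Finset Disp

namespace TwoSum

variable {K : Type} [Field K]

theorem sum_powerset_union {X Y : Finset ℕ} (h : Disjoint X Y) (f : Finset ℕ → ℝ) :
    ∑ F ∈ (X ∪ Y).powerset, f F = ∑ F1 ∈ X.powerset, ∑ F2 ∈ Y.powerset, f (F1 ∪ F2) := by
  rw [← sum_product']
  symm
  have hd := disjoint_left.1 h
  refine sum_nbij' (fun p => p.1 ∪ p.2) (fun F => (F ∩ X, F ∩ Y)) ?_ ?_ ?_ ?_ ?_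
  · rintro ⟨a, b⟩ hp
    simp only [mem_product, mem_powerset] at hp ⊢
    exact union_subset_union hp.1 hp.2
  · intro F _
    simp only [mem_product, mem_powerset]
    exact ⟨inter_subset_right, inter_subset_right⟩
  · rintro ⟨a, b⟩ hp
    simp only [mem_product, mem_powerset] at hp
    refine Prod.ext ?_ ?_
    · ext i
      simp only [mem_inter, mem_union]
      constructor
      · rintro ⟨h1 | h1, h2⟩
        · exact h1
        · exact absurd (hp.2 h1) (hd h2)
      · intro h1; exact ⟨Or.inl h1, hp.1 h1⟩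
    · ext i
      simp only [mem_inter, mem_union]
      constructor
      · rintro ⟨h1 | h1, h2⟩
        · exact absurd h2 (hd (hp.1 h1))
        · exact h1
      · intro h1; exact ⟨Or.inr h1, hp.2 h1⟩
  · intro F hF
    simp only [mem_powerset] at hF
    rw [← inter_union_distrib_left]
    exact inter_eq_left.2 hF
  · intro p _; rfl

theorem indep_card_le {D : Disp K} {I : Finset ℕ} (hI : I ⊆ D.Z) (h : D.Indep I) :
    I.card ≤ D.B.card := by
  obtain ⟨E, hE, hs⟩ := reach_rows hI h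
  have hr : D.Reach E := hE.reach (union_subset (sdiff_subset.trans hI)
    (sdiff_subset.trans (filter_subset _ _)))
  rw [← hr.card_B]; exact card_le_card hs

theorem mem_fc {D : Disp K} {U : Finset ℕ} {d : ℕ → K} :
    d ∈ (D.restrict U).flip.code ↔ (∀ i, i ∉ U → d i = 0) ∧
      ∀ i ∈ U, D.row i = true → d i = ∑ j ∈ U, d j * D.S j i :=
  mem_flip_code (D := D.restrict U)

theorem B_restrict (D : Disp K) (U : Finset ℕ) :
    (D.restrict U).B = U.filter (fun i => D.row i = true) := rfl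

theorem base_restrict {D : Disp K} {U F : Finset ℕ} :
    (D.restrict U).Base F ↔ F ⊆ U ∧ F.card = (U.filter (fun i => D.row i = true)).card ∧
      (D.restrict U).Indep F := base_iff_indep (D := D.restrict U)

theorem indep_card_le' {D : Disp K} {U I : Finset ℕ} (hI : I ⊆ U) (h : (D.restrict U).Indep I) :
    I.card ≤ (U.filter (fun i => D.row i = true)).card :=
  indep_card_le (D := D.restrict U) hI h

/-! ### direct sums -/

/-- a direct sum decomposition. -/
structure S0 (D : Disp K) (X Y : Finset ℕ) : Prop where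
  hZ : D.Z = X ∪ Y
  disj : Disjoint X Y
  zero : ∀ i ∈ X, ∀ j ∈ Y, D.S i j = 0

theorem S0.symm {D : Disp K} {X Y : Finset ℕ} (h : S0 D X Y) : S0 D Y X :=
  ⟨by rw [h.hZ, union_comm], h.disj.symm, fun i hi j hj => by rw [D.skew, h.zero j hj i hi]; simp⟩

theorem S0.res {D : Disp K} {X Y : Finset ℕ} (h : S0 D X Y) {d : ℕ → K} (hd : d ∈ D.flip.code) :
    (fun i => if i ∈ X then d i else 0) ∈ (D.restrict X).flip.code := by
  rw [mem_fc]
  refine ⟨fun i hi => by simp [hi], fun i hi hr => ?_⟩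
  have h1 := (mem_flip_code.1 hd).2 i (by rw [h.hZ]; exact mem_union_left _ hi) hr
  rw [h.hZ, sum_union h.disj] at h1
  have h2 : ∑ j ∈ Y, d j * D.S j i = 0 :=
    sum_eq_zero fun j hj => by rw [h.symm.zero j hj i hi, mul_zero]
  simp only [hi, if_true]
  rw [h1, h2, add_zero]
  exact sum_congr rfl fun j hj => by simp [hj]

theorem S0.ext {D : Disp K} {X Y : Finset ℕ} (h : S0 D X Y) {d : ℕ → K}
    (hd : d ∈ (D.restrict X).flip.code) : d ∈ D.flip.code := by
  rw [mem_fc] at hd
  have hdis := disjoint_left.1 h.disj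
  rw [mem_flip_code, h.hZ]
  refine ⟨fun i hi => hd.1 i fun hx => hi (mem_union_left _ hx), fun i hi hr => ?_⟩
  rw [sum_union h.disj]
  have h2 : ∑ j ∈ Y, d j * D.S j i = 0 :=
    sum_eq_zero fun j hj => by rw [hd.1 j fun hx => hdis hx hj, zero_mul]
  rw [h2, add_zero]
  rcases mem_union.1 hi with hi | hi
  · exact hd.2 i hi hr
  · rw [hd.1 i fun hx => hdis hx hi]
    exact (sum_eq_zero fun j hj => by rw [h.zero j hj i hi, mul_zero]).symm

theorem S0.indep_left {D : Disp K} {X Y F1 F2 : Finset ℕ} (h : S0 D X Y)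
    (hI : D.Indep (F1 ∪ F2)) : (D.restrict X).Indep F1 :=
  fun d hd hs => hI d (h.ext hd) fun i hi => hs i fun hx => hi (mem_union_left _ hx)

theorem S0.indep_union {D : Disp K} {X Y F1 F2 : Finset ℕ} (h : S0 D X Y) (h1 : F1 ⊆ X)
    (h2 : F2 ⊆ Y) (i1 : (D.restrict X).Indep F1) (i2 : (D.restrict Y).Indep F2) :
    D.Indep (F1 ∪ F2) := by
  intro d hd hs
  have hdis := disjoint_left.1 h.disj
  have e1 := i1 _ (h.res hd) fun i hi => by
    by_cases hx : i ∈ X
    · simp only [hx, if_true]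
      refine hs i fun hu => ?_
      rcases mem_union.1 hu with hu | hu
      · exact hi hu
      · exact hdis hx (h2 hu)
    · simp [hx]
  have e2 := i2 _ (h.symm.res hd) fun i hi => by
    by_cases hx : i ∈ Y
    · simp only [hx, if_true]
      refine hs i fun hu => ?_
      rcases mem_union.1 hu with hu | hu
      · exact hdis (h1 hu) hx
      · exact hi hu
    · simp [hx]
  funext i
  by_cases hx : i ∈ X
  · simpa [hx] using congrFun e1 i
  · by_cases hy : i ∈ Y
    · simpa [hy] using congrFun e2 i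
    · exact (mem_flip_code.1 hd).1 i (by rw [h.hZ]; simp [hx, hy])

theorem S0.base_iff {D : Disp K} {X Y F1 F2 : Finset ℕ} (h : S0 D X Y) (h1 : F1 ⊆ X)
    (h2 : F2 ⊆ Y) :
    D.Base (F1 ∪ F2) ↔ (D.restrict X).Base F1 ∧ (D.restrict Y).Base F2 := by
  have hB : D.B.card = (X.filter (fun i => D.row i = true)).card +
      (Y.filter (fun i => D.row i = true)).card := by
    unfold Disp.B
    rw [h.hZ, filter_union, card_union_of_disjoint (disjoint_filter_filter h.disj)]
  have hc : (F1 ∪ F2).card = F1.card + F2.card :=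
    card_union_of_disjoint (h.disj.mono h1 h2)
  rw [base_iff_indep, base_restrict, base_restrict, hB, hc]
  constructor
  · rintro ⟨-, e, hI⟩
    have i1 := h.indep_left hI
    have i2 : (D.restrict Y).Indep F2 := h.symm.indep_left (F2 := F1) (by rwa [union_comm])
    have c1 := indep_card_le' h1 i1
    have c2 := indep_card_le' h2 i2
    exact ⟨⟨h1, by omega, i1⟩, h2, by omega, i2⟩
  · rintro ⟨⟨-, c1, i1⟩, -, c2, i2⟩
    exact ⟨by rw [h.hZ]; exact union_subset_union h1 h2, by omega, h.indep_union h1 h2 i1 i2⟩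

theorem S0.W_eq {D : Disp K} {X Y : Finset ℕ} (h : S0 D X Y) (y : ℕ → ℝ) :
    D.W y = (D.restrict X).W y * (D.restrict Y).W y := by
  classical
  unfold Disp.W
  rw [h.hZ, sum_powerset_union h.disj]
  change _ = (∑ F ∈ X.powerset, _) * ∑ F ∈ Y.powerset, _
  rw [sum_mul_sum]
  refine sum_congr rfl fun F1 h1 => sum_congr rfl fun F2 h2 => ?_
  rw [mem_powerset] at h1 h2
  have e := h.base_iff h1 h2
  by_cases b1 : (D.restrict X).Base F1 <;> by_cases b2 : (D.restrict Y).Base F2 <;>
    simp only [e, b1, b2, and_self, and_true, and_false, if_true, if_false,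
      mul_zero, zero_mul]
  exact prod_union (h.disj.mono h1 h2)

theorem iso_zero {e i : ℕ} {τ : ℕ → ℝ} (h : Iso {e} τ) (hi : i ≠ e) : τ i = 0 :=
  h.1 i (by simpa using hi)

theorem S0.qf_same {D : Disp K} {X Y : Finset ℕ} (h : S0 D X Y) {e f : ℕ} (he : e ∈ X)
    (hf : f ∈ X) (hq : QF (D.restrict X).W {e} {f}) : QF D.W {e} {f} := by
  intro y τ τ' i1 i2 p0 p1 p2 p3
  have hdis := disjoint_left.1 h.disj
  have z1 : ∀ i ∈ Y, τ i = 0 := fun i hi => iso_zero i1 fun e' => hdis he (e' ▸ hi)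
  have z2 : ∀ i ∈ Y, τ' i = 0 := fun i hi => iso_zero i2 fun e' => hdis hf (e' ▸ hi)
  have c1 : (D.restrict Y).W (y + τ) = (D.restrict Y).W y :=
    W_congr _ fun i hi => by simp [z1 i hi]
  have c2 : (D.restrict Y).W (y + τ') = (D.restrict Y).W y :=
    W_congr _ fun i hi => by simp [z2 i hi]
  have c3 : (D.restrict Y).W (y + τ + τ') = (D.restrict Y).W y :=
    W_congr _ fun i hi => by simp [z1 i hi, z2 i hi]
  have q := hq y τ τ' i1 i2 p0 p1 p2 p3
  simp only [h.W_eq, c1, c2, c3]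
  nlinarith [mul_le_mul_of_nonneg_right q (mul_self_nonneg ((D.restrict Y).W y))]

theorem S0.qf_cross {D : Disp K} {X Y : Finset ℕ} (h : S0 D X Y) {e f : ℕ} (he : e ∈ X)
    (hf : f ∈ Y) : QF D.W {e} {f} := by
  intro y τ τ' i1 i2 _ _ _ _
  have hdis := disjoint_left.1 h.disj
  have z1 : ∀ i ∈ Y, τ i = 0 := fun i hi => iso_zero i1 fun e' => hdis he (e' ▸ hi)
  have z2 : ∀ i ∈ X, τ' i = 0 := fun i hi => iso_zero i2 fun e' => hdis (e' ▸ hi) hf
  have c1 : (D.restrict Y).W (y + τ) = (D.restrict Y).W y :=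
    W_congr _ fun i hi => by simp [z1 i hi]
  have c2 : (D.restrict X).W (y + τ') = (D.restrict X).W y :=
    W_congr _ fun i hi => by simp [z2 i hi]
  have c3 : (D.restrict Y).W (y + τ + τ') = (D.restrict Y).W (y + τ') :=
    W_congr _ fun i hi => by simp [z1 i hi]
  have c4 : (D.restrict X).W (y + τ + τ') = (D.restrict X).W (y + τ) :=
    W_congr _ fun i hi => by simp [z2 i hi]
  simp only [h.W_eq, c1, c2, c3, c4]
  exact le_of_eq (by ring)

theorem S0.ray {D : Disp K} {X Y : Finset ℕ} (h : S0 D X Y) (r1 : (D.restrict X).Ray)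
    (r2 : (D.restrict Y).Ray) : D.Ray := by
  intro e he f hf
  rw [h.hZ] at he hf
  rcases mem_union.1 he with he | he <;> rcases mem_union.1 hf with hf | hf
  · exact h.qf_same he hf (r1 e he f hf)
  · exact h.qf_cross he hf
  · exact h.symm.qf_cross he hf
  · exact h.symm.qf_same he hf (r2 e he f hf)

/-! ### 2-sums -/

/-- a 2-sum decomposition with the row `a ∈ X` and the column `b ∈ Y` as markers. -/
structure S1 (D : Disp K) (X Y : Finset ℕ) (a b : ℕ) : Prop where
  hZ : D.Z = X ∪ Y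
  disj : Disjoint X Y
  ma : a ∈ X
  mb : b ∈ Y
  ra : D.row a = true
  rb : D.row b = false
  ne : D.S a b ≠ 0
  det : ∀ i ∈ X, ∀ j ∈ Y, D.S i j * D.S a b = D.S i b * D.S a j

section

variable {D : Disp K} {X Y : Finset ℕ} {a b : ℕ}

theorem S1.bX (h : S1 D X Y a b) : b ∉ X := fun hx => disjoint_left.1 h.disj hx h.mb

theorem S1.aY (h : S1 D X Y a b) : a ∉ Y := disjoint_left.1 h.disj h.ma

theorem S1.zero (h : S1 D X Y a b) {i j : ℕ} (hi : i ∈ X) (hj : j ∈ Y) (hr : D.row j = true) :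
    D.S i j = 0 := by
  have e := h.det i hi j hj
  rw [D.bip a j (h.ra.trans hr.symm), mul_zero] at e
  exact (mul_eq_zero.1 e).resolve_right h.ne

theorem S1.cross (h : S1 D X Y a b) (d : ℕ → K) {i : ℕ} (hi : i ∈ X) :
    ∑ j ∈ Y, d j * D.S j i = (-∑ j ∈ Y, d j * D.S j a) / D.S a b * D.S b i := by
  have hne := h.ne
  rw [div_mul_eq_mul_div, eq_div_iff hne, sum_mul, neg_mul, sum_mul, ← sum_neg_distrib]
  refine sum_congr rfl fun j hj => ?_
  have e := h.det i hi j hj
  rw [D.skew j i, D.skew j a, D.skew b i]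
  linear_combination (-d j) * e

theorem S1.res1 (h : S1 D X Y a b) {d : ℕ → K} (hd : d ∈ D.flip.code) :
    (fun i => if i ∈ X then d i else if i = b then (-∑ j ∈ Y, d j * D.S j a) / D.S a b else 0) ∈
      (D.restrict (insert b X)).flip.code := by
  rw [mem_fc]
  refine ⟨fun i hi => ?_, fun i hi hr => ?_⟩
  · rw [mem_insert, not_or] at hi
    simp [hi.1, hi.2]
  · have hx : i ∈ X := by
      rcases mem_insert.1 hi with rfl | hx
      · rw [h.rb] at hr; exact absurd hr (by simp)
      · exact hx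
    have h1 := (mem_flip_code.1 hd).2 i (by rw [h.hZ]; exact mem_union_left _ hx) hr
    rw [h.hZ, sum_union h.disj, h.cross d hx] at h1
    rw [sum_insert h.bX]
    simp only [hx, h.bX, if_true, if_false]
    rw [h1, add_comm]
    congr 1
    exact sum_congr rfl fun j hj => by simp [hj]

theorem S1.res2 (h : S1 D X Y a b) {d : ℕ → K} (hd : d ∈ D.flip.code) :
    (fun i => if i ∈ Y then d i else if i = a then ∑ j ∈ Y, d j * D.S j a else 0) ∈
      (D.restrict (insert a Y)).flip.code := by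
  rw [mem_fc]
  refine ⟨fun i hi => ?_, fun i hi hr => ?_⟩
  · rw [mem_insert, not_or] at hi
    simp [hi.1, hi.2]
  · rw [sum_insert h.aY, D.bip a i (h.ra.trans hr.symm), mul_zero, zero_add]
    have e : ∑ j ∈ Y, (if j ∈ Y then d j else if j = a then ∑ j ∈ Y, d j * D.S j a else 0) *
        D.S j i = ∑ j ∈ Y, d j * D.S j i := sum_congr rfl fun j hj => by simp [hj]
    rw [e]
    rcases mem_insert.1 hi with rfl | hy
    · simp [h.aY]
    · have h1 := (mem_flip_code.1 hd).2 i (by rw [h.hZ]; exact mem_union_right _ hy) hr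
      rw [h.hZ, sum_union h.disj] at h1
      have h2 : ∑ j ∈ X, d j * D.S j i = 0 :=
        sum_eq_zero fun j hj => by rw [h.zero hj hy hr, mul_zero]
      simp only [hy, if_true]
      rw [h1, h2, zero_add]

theorem S1.val_a (h : S1 D X Y a b) {d : ℕ → K} (hd : d ∈ (D.restrict (insert a Y)).flip.code) :
    d a = ∑ j ∈ Y, d j * D.S j a := by
  have e := (mem_fc.1 hd).2 a (mem_insert_self _ _) h.ra
  rwa [sum_insert h.aY, D.bip a a rfl, mul_zero, zero_add] at e

theorem S1.glue (h : S1 D X Y a b) {d1 d2 : ℕ → K}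
    (h1 : d1 ∈ (D.restrict (insert b X)).flip.code) (h2 : d2 ∈ (D.restrict (insert a Y)).flip.code)
    (e : d1 b * D.S a b = - d2 a) :
    (fun i => if i ∈ X then d1 i else if i ∈ Y then d2 i else 0) ∈ D.flip.code := by
  have hdis := disjoint_left.1 h.disj
  have ea := h.val_a h2
  rw [mem_fc] at h1 h2
  rw [mem_flip_code, h.hZ]
  refine ⟨fun i hi => ?_, fun i hi hr => ?_⟩
  · rw [mem_union, not_or] at hi
    simp [hi.1, hi.2]
  · rw [sum_union h.disj]
    have e1 : ∑ j ∈ X, (if j ∈ X then d1 j else if j ∈ Y then d2 j else 0) * D.S j i =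
        ∑ j ∈ X, d1 j * D.S j i := sum_congr rfl fun j hj => by simp [hj]
    have e2 : ∑ j ∈ Y, (if j ∈ X then d1 j else if j ∈ Y then d2 j else 0) * D.S j i =
        ∑ j ∈ Y, d2 j * D.S j i := sum_congr rfl fun j hj => by
      have : j ∉ X := fun hx => hdis hx hj
      simp [hj, this]
    rw [e1, e2]
    rcases mem_union.1 hi with hx | hy
    · simp only [hx, if_true]
      rw [h1.2 i (mem_insert_of_mem hx) hr, sum_insert h.bX, h.cross d2 hx, ← ea, ← e,
        mul_div_cancel_right₀ _ h.ne, add_comm]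
    · have hx : i ∉ X := fun hx => hdis hx hy
      simp only [hx, hy, if_true, if_false]
      have h3 : ∑ j ∈ X, d1 j * D.S j i = 0 :=
        sum_eq_zero fun j hj => by rw [h.zero hj hy hr, mul_zero]
      rw [h2.2 i (mem_insert_of_mem hy) hr, sum_insert h.aY, D.bip a i (h.ra.trans hr.symm), h3,
        mul_zero]

theorem S1.indep1 (h : S1 D X Y a b) {F1 F2 : Finset ℕ} (h1 : F1 ⊆ X)
    (hI : D.Indep (F1 ∪ F2)) : (D.restrict (insert b X)).Indep F1 := by
  intro d hd hs
  have hb : d b = 0 := hs b fun hx => h.bX (h1 hx)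
  have g := h.glue hd (Submodule.zero_mem _) (by simp [hb])
  have e := hI _ g fun i hi => by
    have : d i = 0 := hs i fun hx => hi (mem_union_left _ hx)
    simp [this]
  funext i
  by_cases hx : i ∈ X
  · simpa [hx] using congrFun e i
  · exact hs i fun hf => hx (h1 hf)

theorem S1.indep2 (h : S1 D X Y a b) {F1 F2 : Finset ℕ} (h2 : F2 ⊆ Y)
    (hI : D.Indep (F1 ∪ F2)) : (D.restrict (insert a Y)).Indep F2 := by
  intro d hd hs
  have hdis := disjoint_left.1 h.disj
  have ha : d a = 0 := hs a fun hx => h.aY (h2 hx)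
  have g := h.glue (Submodule.zero_mem _) hd (by simp [ha])
  have e := hI _ g fun i hi => by
    have : d i = 0 := hs i fun hx => hi (mem_union_right _ hx)
    simp [this]
  funext i
  by_cases hy : i ∈ Y
  · have hx : i ∉ X := fun hx => hdis hx hy
    simpa [hx, hy] using congrFun e i
  · exact hs i fun hf => hy (h2 hf)

theorem S1.indep_or (h : S1 D X Y a b) {F1 F2 : Finset ℕ} (h1 : F1 ⊆ X) (h2 : F2 ⊆ Y)
    (hI : D.Indep (F1 ∪ F2)) : (D.restrict (insert b X)).Indep (insert b F1) ∨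
      (D.restrict (insert a Y)).Indep (insert a F2) := by
  have hdis := disjoint_left.1 h.disj
  by_contra hc
  rw [not_or] at hc
  obtain ⟨c1, c2⟩ := hc
  unfold Disp.Indep at c1 c2
  push Not at c1 c2
  obtain ⟨d1, m1, s1, n1⟩ := c1
  obtain ⟨d2, m2, s2, n2⟩ := c2
  have b1 : d1 b ≠ 0 := fun e => n1 (h.indep1 h1 hI d1 m1 fun i hi => by
    by_cases hb : i = b
    · rw [hb, e]
    · exact s1 i (by simp [hb, hi]))
  have a2 : d2 a ≠ 0 := fun e => n2 (h.indep2 h2 hI d2 m2 fun i hi => by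
    by_cases ha : i = a
    · rw [ha, e]
    · exact s2 i (by simp [ha, hi]))
  have g := h.glue (Submodule.smul_mem _ (- d2 a) m1) (Submodule.smul_mem _ (d1 b * D.S a b) m2)
    (by simp only [Pi.smul_apply, smul_eq_mul]; ring)
  have e := hI _ g fun i hi => by
    rw [mem_union, not_or] at hi
    by_cases hx : i ∈ X
    · have : d1 i = 0 := s1 i (by
        rw [mem_insert, not_or]; exact ⟨fun e => h.bX (e ▸ hx), hi.1⟩)
      simp [hx, this]
    · by_cases hy : i ∈ Y
      · have : d2 i = 0 := s2 i (by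
          rw [mem_insert, not_or]; exact ⟨fun e => h.aY (e ▸ hy), hi.2⟩)
        simp [hx, hy, this]
      · simp [hx, hy]
  apply a2
  rw [h.val_a m2]
  refine sum_eq_zero fun j hj => ?_
  have hx : j ∉ X := fun hx => hdis hx hj
  have e2 := congrFun e j
  simp only [hx, hj, if_true, if_false, Pi.smul_apply, smul_eq_mul, Pi.zero_apply] at e2
  rw [(mul_eq_zero.1 e2).resolve_left (mul_ne_zero b1 h.ne), zero_mul]

theorem S1.zero_of (h : S1 D X Y a b) {d : ℕ → K} (hd : d ∈ D.flip.code) {u v : ℕ → K}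
    (e1 : (fun i => if i ∈ X then d i else u i) = 0) (e2 : (fun i => if i ∈ Y then d i else v i) = 0) :
    d = 0 := by
  funext i
  by_cases hx : i ∈ X
  · simpa [hx] using congrFun e1 i
  · by_cases hy : i ∈ Y
    · simpa [hy] using congrFun e2 i
    · exact (mem_flip_code.1 hd).1 i (by rw [h.hZ]; simp [hx, hy])

theorem S1.indep_of_left (h : S1 D X Y a b) {F1 F2 : Finset ℕ} (h1 : F1 ⊆ X) (h2 : F2 ⊆ Y)
    (i1 : (D.restrict (insert b X)).Indep F1) (i2 : (D.restrict (insert a Y)).Indep (insert a F2)) :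
    D.Indep (F1 ∪ F2) := by
  intro d hd hs
  have hdis := disjoint_left.1 h.disj
  have sx : ∀ i ∈ X, i ∉ F1 → d i = 0 := fun i hx hi => hs i fun hu => by
    rcases mem_union.1 hu with hu | hu
    · exact hi hu
    · exact hdis hx (h2 hu)
  have sy : ∀ i ∈ Y, i ∉ F2 → d i = 0 := fun i hy hi => hs i fun hu => by
    rcases mem_union.1 hu with hu | hu
    · exact hdis (h1 hu) hy
    · exact hi hu
  have e2 := i2 _ (h.res2 hd) fun i hi => by
    rw [mem_insert, not_or] at hi
    by_cases hy : i ∈ Y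
    · simp [hy, sy i hy hi.2]
    · simp [hy, hi.1]
  have t0 : ∑ j ∈ Y, d j * D.S j a = 0 := by simpa [h.aY] using congrFun e2 a
  have e1 := i1 _ (h.res1 hd) fun i hi => by
    by_cases hx : i ∈ X
    · simp [hx, sx i hx hi]
    · simp [hx, t0]
  exact h.zero_of hd e1 e2

theorem S1.indep_of_right (h : S1 D X Y a b) {F1 F2 : Finset ℕ} (h1 : F1 ⊆ X) (h2 : F2 ⊆ Y)
    (i1 : (D.restrict (insert b X)).Indep (insert b F1)) (i2 : (D.restrict (insert a Y)).Indep F2) :
    D.Indep (F1 ∪ F2) := by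
  intro d hd hs
  have hdis := disjoint_left.1 h.disj
  have sx : ∀ i ∈ X, i ∉ F1 → d i = 0 := fun i hx hi => hs i fun hu => by
    rcases mem_union.1 hu with hu | hu
    · exact hi hu
    · exact hdis hx (h2 hu)
  have sy : ∀ i ∈ Y, i ∉ F2 → d i = 0 := fun i hy hi => hs i fun hu => by
    rcases mem_union.1 hu with hu | hu
    · exact hdis (h1 hu) hy
    · exact hi hu
  have e1 := i1 _ (h.res1 hd) fun i hi => by
    rw [mem_insert, not_or] at hi
    by_cases hx : i ∈ X
    · simp [hx, sx i hx hi.2]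
    · simp [hx, hi.1]
  have t0 : ∑ j ∈ Y, d j * D.S j a = 0 := by
    have e := congrFun e1 b
    simp only [h.bX, if_false, if_true, Pi.zero_apply, div_eq_zero_iff, neg_eq_zero] at e
    exact e.resolve_right h.ne
  have e2 := i2 _ (h.res2 hd) fun i hi => by
    by_cases hy : i ∈ Y
    · simp [hy, sy i hy hi]
    · simp [hy, t0]
  exact h.zero_of hd e1 e2

theorem S1.base_iff (h : S1 D X Y a b) {F1 F2 : Finset ℕ} (h1 : F1 ⊆ X) (h2 : F2 ⊆ Y) :
    (D.Base (F1 ∪ F2) ↔ ((D.restrict (insert b X)).Base F1 ∧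
      (D.restrict (insert a Y)).Base (insert a F2)) ∨
      ((D.restrict (insert b X)).Base (insert b F1) ∧ (D.restrict (insert a Y)).Base F2)) ∧
    ¬ ((D.restrict (insert b X)).Base F1 ∧ (D.restrict (insert b X)).Base (insert b F1)) := by
  have hB : D.B.card = (X.filter (fun i => D.row i = true)).card +
      (Y.filter (fun i => D.row i = true)).card := by
    unfold Disp.B
    rw [h.hZ, filter_union, card_union_of_disjoint (disjoint_filter_filter h.disj)]
  have hc : (F1 ∪ F2).card = F1.card + F2.card :=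
    card_union_of_disjoint (h.disj.mono h1 h2)
  have f1 : ((insert b X).filter (fun i => D.row i = true)).card =
      (X.filter (fun i => D.row i = true)).card := by
    rw [filter_insert, if_neg (by rw [h.rb]; simp)]
  have f2 : ((insert a Y).filter (fun i => D.row i = true)).card =
      (Y.filter (fun i => D.row i = true)).card + 1 := by
    rw [filter_insert, if_pos h.ra, card_insert_of_notMem fun hm => h.aY (mem_filter.1 hm).1]
  have g1 : (insert b F1).card = F1.card + 1 := card_insert_of_notMem fun hm => h.bX (h1 hm)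
  have g2 : (insert a F2).card = F2.card + 1 := card_insert_of_notMem fun hm => h.aY (h2 hm)
  have s1 : F1 ⊆ insert b X := h1.trans (subset_insert _ _)
  have s2 : F2 ⊆ insert a Y := h2.trans (subset_insert _ _)
  have s1' : insert b F1 ⊆ insert b X := insert_subset_insert _ h1
  have s2' : insert a F2 ⊆ insert a Y := insert_subset_insert _ h2
  rw [base_iff_indep]
  simp only [base_restrict]
  rw [hB, hc, f1, f2, g1, g2]
  refine ⟨⟨?_, ?_⟩, ?_⟩
  · rintro ⟨-, e, hI⟩
    have i1 := h.indep1 h1 hI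
    have i2 := h.indep2 h2 hI
    have c1 := indep_card_le' s1 i1
    have c2 := indep_card_le' s2 i2
    rcases h.indep_or h1 h2 hI with j | j
    · have c3 := indep_card_le' s1' j
      exact Or.inr ⟨⟨s1', by omega, j⟩, s2, by omega, i2⟩
    · have c3 := indep_card_le' s2' j
      exact Or.inl ⟨⟨s1, by omega, i1⟩, s2', by omega, j⟩
  · have hs : F1 ∪ F2 ⊆ D.Z := by rw [h.hZ]; exact union_subset_union h1 h2
    rintro (⟨⟨-, c1, i1⟩, -, c2, i2⟩ | ⟨⟨-, c1, i1⟩, -, c2, i2⟩)
    · exact ⟨hs, by omega, h.indep_of_left h1 h2 i1 i2⟩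
    · exact ⟨hs, by omega, h.indep_of_right h1 h2 i1 i2⟩
  · rintro ⟨⟨-, c1, -⟩, -, c2, -⟩
    omega

theorem S1.W_eq (h : S1 D X Y a b) (y : ℕ → ℝ) :
    D.W y = (D.restrict (insert b X)).Wdel b y * (D.restrict (insert a Y)).Wcon a y +
      (D.restrict (insert b X)).Wcon b y * (D.restrict (insert a Y)).Wdel a y := by
  classical
  unfold Disp.W Disp.Wdel Disp.Wcon
  rw [h.hZ, sum_powerset_union h.disj]
  have z1 : (D.restrict (insert b X)).Z.erase b = X := erase_insert h.bX
  have z2 : (D.restrict (insert a Y)).Z.erase a = Y := erase_insert h.aY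
  rw [z1, z2, sum_mul_sum, sum_mul_sum, ← sum_add_distrib]
  refine sum_congr rfl fun F1 h1 => ?_
  rw [← sum_add_distrib]
  refine sum_congr rfl fun F2 h2 => ?_
  rw [mem_powerset] at h1 h2
  obtain ⟨e, ne⟩ := h.base_iff h1 h2
  have p : ∏ i ∈ F1 ∪ F2, y i = (∏ i ∈ F1, y i) * ∏ i ∈ F2, y i := prod_union (h.disj.mono h1 h2)
  rw [p]
  by_cases b1 : (D.restrict (insert b X)).Base F1
  · have b3 : ¬ (D.restrict (insert b X)).Base (insert b F1) := fun b3 => ne ⟨b1, b3⟩
    by_cases b2 : (D.restrict (insert a Y)).Base (insert a F2) <;> simp [e, b1, b2, b3]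
  · by_cases b3 : (D.restrict (insert b X)).Base (insert b F1) <;>
      by_cases b4 : (D.restrict (insert a Y)).Base F2 <;> simp [e, b1, b3, b4]

end

theorem W_update (E : Disp K) {n : ℕ} (hn : n ∈ E.Z) (y : ℕ → ℝ) (s : ℝ) :
    E.W (Function.update y n s) = E.Wdel n y + s * E.Wcon n y := by
  rw [W_split E hn, Function.update_self,
    Wdel_congr E n (z := y) fun i _ hi => Function.update_of_ne hi _ _,
    Wcon_congr E n (z := y) fun i _ hi => Function.update_of_ne hi _ _]

theorem update_add (y τ : ℕ → ℝ) {n : ℕ} (s : ℝ) (h : τ n = 0) :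
    Function.update y n s + τ = Function.update (y + τ) n s := by
  funext i
  by_cases hi : i = n
  · subst hi; simp [h]
  · simp [Function.update_of_ne hi]

theorem update_nonneg {y : ℕ → ℝ} (hy : ∀ i, 0 ≤ y i) (n : ℕ) {s : ℝ} (hs : 0 ≤ s) (i : ℕ) :
    0 ≤ Function.update y n s i := by
  by_cases hi : i = n
  · subst hi; simpa using hs
  · rw [Function.update_of_ne hi]; exact hy i

/-- both elements on the same side. -/
theorem key_same (E : Disp K) {n e f : ℕ} (hn : n ∈ E.Z) (he : n ≠ e) (hf : n ≠ f)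
    (hq : QF E.W {e} {f}) {y τ τ' : ℕ → ℝ} (i1 : Iso {e} τ) (i2 : Iso {f} τ')
    (p0 : ∀ i, 0 ≤ y i) (p1 : ∀ i, 0 ≤ y i + τ i) (p2 : ∀ i, 0 ≤ y i + τ' i)
    (p3 : ∀ i, 0 ≤ y i + τ i + τ' i) {α β : ℝ} (hα : 0 < α) (hβ : 0 ≤ β) :
    (E.Wdel n y * α + E.Wcon n y * β) *
        (E.Wdel n (y + τ + τ') * α + E.Wcon n (y + τ + τ') * β) ≤
      (E.Wdel n (y + τ) * α + E.Wcon n (y + τ) * β) *
        (E.Wdel n (y + τ') * α + E.Wcon n (y + τ') * β) := by
  have z1 := iso_zero i1 he
  have z2 := iso_zero i2 hf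
  have hs : 0 ≤ β / α := div_nonneg hβ hα.le
  have u1 := update_add y τ (β / α) z1
  have u2 := update_add y τ' (β / α) z2
  have u3 := update_add (y + τ) τ' (β / α) z2
  have q := hq (Function.update y n (β / α)) τ τ' i1 i2 (update_nonneg p0 n hs)
    (fun i => by
      have := update_nonneg (y := y + τ) p1 n hs i
      rwa [← u1] at this)
    (fun i => by
      have := update_nonneg (y := y + τ') p2 n hs i
      rwa [← u2] at this)
    (fun i => by
      have := update_nonneg (y := y + τ + τ') p3 n hs i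
      rwa [← u3, ← u1] at this)
  rw [u1, u2, u3] at q
  simp only [W_update E hn] at q
  have k : ∀ A B : ℝ, A * α + B * β = α * (A + β / α * B) := fun A B => by field_simp
  simp only [k]
  nlinarith [mul_le_mul_of_nonneg_left q (mul_self_nonneg α)]

/-- one element against the marker. -/
theorem key_cross (E : Disp K) {n e : ℕ} (hn : n ∈ E.Z) (he : n ≠ e)
    (hq : QF E.W {e} {n}) {y τ : ℕ → ℝ} (i1 : Iso {e} τ)
    (p0 : ∀ i, 0 ≤ y i) (p1 : ∀ i, 0 ≤ y i + τ i) :
    E.Wdel n y * E.Wcon n (y + τ) ≤ E.Wdel n (y + τ) * E.Wcon n y := by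
  have z1 := iso_zero i1 he
  have i2 : Iso {n} (Pi.single n (1 : ℝ)) :=
    ⟨fun i hi => Pi.single_eq_of_ne (by simpa using hi) _, by simp, by simp⟩
  have v : ∀ z : ℕ → ℝ, Function.update z n 0 + Pi.single n 1 = Function.update z n 1 := by
    intro z
    funext i
    by_cases hi : i = n
    · subst hi; simp
    · simp [Function.update_of_ne hi, Pi.single_eq_of_ne hi]
  have u1 := update_add y τ 0 z1
  have q := hq (Function.update y n 0) τ (Pi.single n 1) i1 i2 (update_nonneg p0 n le_rfl)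
    (fun i => by
      have := update_nonneg (y := y + τ) p1 n le_rfl i
      rwa [← u1] at this)
    (fun i => by
      have := update_nonneg p0 n zero_le_one i
      rwa [← v] at this)
    (fun i => by
      have := update_nonneg (y := y + τ) p1 n zero_le_one i
      rwa [← v, ← u1] at this)
  rw [u1, v, v] at q
  simp only [W_update E hn] at q
  nlinarith [q]

theorem Wcon_pos {E : Disp K} {n m : ℕ} (hn : n ∈ E.Z) (hm : m ∈ E.Z) (h : E.S n m ≠ 0)
    {y : ℕ → ℝ} (hy : ∀ i, 0 < y i) : 0 < E.Wcon n y := by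
  cases hr : E.row n
  · have r : E.Reach (E.pivot n m) := ReachIn.single hn hm
    rw [← r.Wcon_eq, Wcon_row (by rw [pivot_Z]; exact hn) (by rw [pivot_row h]; simp [hr])]
    exact W_pos _ hy
  · rw [Wcon_row hn hr]
    exact W_pos _ hy

theorem S1.ray {D : Disp K} {X Y : Finset ℕ} {a b : ℕ} (h : S1 D X Y a b)
    (r1 : (D.restrict (insert b X)).Ray) (r2 : (D.restrict (insert a Y)).Ray) : D.Ray := by
  have hdis := disjoint_left.1 h.disj
  have mb : b ∈ (D.restrict (insert b X)).Z := mem_insert_self _ _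
  have ma : a ∈ (D.restrict (insert a Y)).Z := mem_insert_self _ _
  have cX : ∀ {y z : ℕ → ℝ}, (∀ i ∈ X, y i = z i) →
      (D.restrict (insert b X)).Wdel b y = (D.restrict (insert b X)).Wdel b z ∧
      (D.restrict (insert b X)).Wcon b y = (D.restrict (insert b X)).Wcon b z := fun hyz =>
    ⟨Wdel_congr _ _ fun i hi hne => hyz i ((mem_insert.1 hi).resolve_left hne),
      Wcon_congr _ _ fun i hi hne => hyz i ((mem_insert.1 hi).resolve_left hne)⟩
  have cY : ∀ {y z : ℕ → ℝ}, (∀ i ∈ Y, y i = z i) →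
      (D.restrict (insert a Y)).Wdel a y = (D.restrict (insert a Y)).Wdel a z ∧
      (D.restrict (insert a Y)).Wcon a y = (D.restrict (insert a Y)).Wcon a z := fun hyz =>
    ⟨Wdel_congr _ _ fun i hi hne => hyz i ((mem_insert.1 hi).resolve_left hne),
      Wcon_congr _ _ fun i hi hne => hyz i ((mem_insert.1 hi).resolve_left hne)⟩
  have cross : ∀ e ∈ X, ∀ f ∈ Y, QF D.W {e} {f} := by
    intro e he f hf y τ τ' i1 i2 p0 p1 p2 _
    have z1 : ∀ i ∈ Y, τ i = 0 := fun i hi => iso_zero i1 fun e' => hdis he (e' ▸ hi)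
    have z2 : ∀ i ∈ X, τ' i = 0 := fun i hi => iso_zero i2 fun e' => hdis (e' ▸ hi) hf
    have c1 := cY (y := y + τ) (z := y) fun i hi => by simp [z1 i hi]
    have c2 := cX (y := y + τ') (z := y) fun i hi => by simp [z2 i hi]
    have c3 := cY (y := y + τ + τ') (z := y + τ') fun i hi => by simp [z1 i hi]
    have c4 := cX (y := y + τ + τ') (z := y + τ) fun i hi => by simp [z2 i hi]
    have k1 := key_cross _ mb (fun e' => h.bX (e' ▸ he)) (r1 e (mem_insert_of_mem he) b mb) i1 p0 p1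
    have k2 := key_cross _ ma (fun e' => h.aY (e' ▸ hf)) (r2 f (mem_insert_of_mem hf) a ma) i2 p0 p2
    simp only [h.W_eq, c1.1, c1.2, c2.1, c2.2, c3.1, c3.2, c4.1, c4.2]
    nlinarith [mul_nonneg (sub_nonneg.2 k1) (sub_nonneg.2 k2)]
  intro e he f hf
  rw [h.hZ] at he hf
  rcases mem_union.1 he with he | he <;> rcases mem_union.1 hf with hf | hf
  · refine QF.of_pos (W_continuous D) ?_
    intro y τ τ' i1 i2 p0 p1 p2 p3
    have z1 : ∀ i ∈ Y, τ i = 0 := fun i hi => iso_zero i1 fun e' => hdis he (e' ▸ hi)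
    have z2 : ∀ i ∈ Y, τ' i = 0 := fun i hi => iso_zero i2 fun e' => hdis hf (e' ▸ hi)
    have c1 := cY (y := y + τ) (z := y) fun i hi => by simp [z1 i hi]
    have c2 := cY (y := y + τ') (z := y) fun i hi => by simp [z2 i hi]
    have c3 := cY (y := y + τ + τ') (z := y) fun i hi => by simp [z1 i hi, z2 i hi]
    simp only [h.W_eq, c1.1, c1.2, c2.1, c2.2, c3.1, c3.2]
    exact key_same _ mb (fun e' => h.bX (e' ▸ he)) (fun e' => h.bX (e' ▸ hf))
      (r1 e (mem_insert_of_mem he) f (mem_insert_of_mem hf)) i1 i2 (fun i => (p0 i).le)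
      (fun i => (p1 i).le) (fun i => (p2 i).le) (fun i => (p3 i).le)
      (Wcon_pos ma (mem_insert_of_mem h.mb) h.ne p0) (Wdel_nonneg _ _ fun i => (p0 i).le)
  · exact cross e he f hf
  · exact (cross f hf e he).symm
  · refine QF.of_pos (W_continuous D) ?_
    intro y τ τ' i1 i2 p0 p1 p2 p3
    have z1 : ∀ i ∈ X, τ i = 0 := fun i hi => iso_zero i1 fun e' => hdis (e' ▸ hi) he
    have z2 : ∀ i ∈ X, τ' i = 0 := fun i hi => iso_zero i2 fun e' => hdis (e' ▸ hi) hf
    have c1 := cX (y := y + τ) (z := y) fun i hi => by simp [z1 i hi]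
    have c2 := cX (y := y + τ') (z := y) fun i hi => by simp [z2 i hi]
    have c3 := cX (y := y + τ + τ') (z := y) fun i hi => by simp [z1 i hi, z2 i hi]
    simp only [h.W_eq, c1.1, c1.2, c2.1, c2.2, c3.1, c3.2]
    have k := key_same _ ma (fun e' => h.aY (e' ▸ he)) (fun e' => h.aY (e' ▸ hf))
      (r2 e (mem_insert_of_mem he) f (mem_insert_of_mem hf)) i1 i2 (fun i => (p0 i).le)
      (fun i => (p1 i).le) (fun i => (p2 i).le) (fun i => (p3 i).le)
      (Wcon_pos mb (mem_insert_of_mem h.ma) (S_ne_symm h.ne) p0)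
      (Wdel_nonneg (D.restrict (insert b X)) b fun i => (p0 i).le)
    linarith [k]

theorem ssub_of {Z X Y : Finset ℕ} (hZ : Z = X ∪ Y) (hd : Disjoint X Y) (h2 : 2 ≤ Y.card)
    {b : ℕ} (hb : b ∈ Y) : insert b X ⊂ Z := by
  obtain ⟨c, hc, hcb⟩ := exists_mem_ne (by omega : 1 < Y.card) b
  refine ⟨?_, fun hs => ?_⟩
  · rw [hZ]; exact insert_subset (mem_union_right _ hb) subset_union_left
  · rcases mem_insert.1 (hs (by rw [hZ]; exact mem_union_right _ hc)) with e | e
    · exact hcb e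
    · exact disjoint_left.1 hd e hc

theorem ray_zero {D : Disp K} {X Y : Finset ℕ} (h : S0 D X Y) (hX : X.Nonempty) (hY : Y.Nonempty)
    (hm : ∀ U, U ⊂ D.Z → (D.restrict U).Ray) : D.Ray := by
  have k : ∀ {X Y : Finset ℕ}, S0 D X Y → Y.Nonempty → X ⊂ D.Z := by
    rintro X Y h ⟨c, hc⟩
    refine ⟨by rw [h.hZ]; exact subset_union_left, fun hs => ?_⟩
    exact disjoint_left.1 h.disj (hs (by rw [h.hZ]; exact mem_union_right _ hc)) hc
  exact h.ray (hm X (k h hY)) (hm Y (k h.symm hX))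

theorem ray_one {D : Disp K} {X Y : Finset ℕ} (hZ : D.Z = X ∪ Y) (hd : Disjoint X Y)
    (hX : 2 ≤ X.card) (hY : 2 ≤ Y.card) (hl : D.lam X Y ≤ 1) {a b : ℕ} (ha : a ∈ X) (hb : b ∈ Y)
    (hab : D.S a b ≠ 0) (ra : D.row a = true) (hm : ∀ U, U ⊂ D.Z → (D.restrict U).Ray) :
    D.Ray := by
  have rb : D.row b = false := by
    have := row_ne_of_S hab
    rw [ra] at this
    cases hb' : D.row b
    · rfl
    · exact absurd hb'.symm this
  have h : S1 D X Y a b :=
    ⟨hZ, hd, ha, hb, ra, rb, hab, fun i hi j hj => det_two_of_lam hl hi ha hj hb⟩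
  exact h.ray (hm _ (ssub_of hZ hd hY hb))
    (hm _ (ssub_of (by rw [hZ, union_comm]) hd.symm hX ha))

theorem main {D : Disp K} (h : ¬ D.Conn3) (hm : ∀ U, U ⊂ D.Z → (D.restrict U).Ray) : D.Ray := by
  unfold Disp.Conn3 at h
  push Not at h
  obtain ⟨X, hX, h⟩ := h
  have hZ : D.Z = X ∪ (D.Z \ X) := (union_sdiff_of_subset hX).symm
  have hd : Disjoint X (D.Z \ X) := disjoint_sdiff
  by_cases h0 : D.lam X (D.Z \ X) = 0
  · have s : S0 D X (D.Z \ X) := ⟨hZ, hd, lam_eq_zero_iff.1 h0⟩
    by_cases hne : X.Nonempty ∧ (D.Z \ X).Nonempty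
    · exact ray_zero s hne.1 hne.2 hm
    · obtain ⟨c1, c2, -⟩ := h fun a b => absurd ⟨a, b⟩ hne
      exact absurd ⟨card_pos.1 (by omega), card_pos.1 (by omega)⟩ hne
  · obtain ⟨c1, c2, c3⟩ := h fun _ _ => by omega
    rw [lam_eq_zero_iff] at h0
    push Not at h0
    obtain ⟨a, ha, b, hb, hab⟩ := h0
    cases ra : D.row a
    · have rb : D.row b = true := by
        have := row_ne_of_S hab
        rw [ra] at this
        cases hb' : D.row b
        · exact absurd hb'.symm this
        · rfl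
      exact ray_one (by rw [union_comm]; exact hZ) hd.symm c2 c1 (by rw [lam_symm]; omega) hb ha
        (S_ne_symm hab) rb hm
    · exact ray_one hZ hd c1 c2 (by omega) ha hb hab ra hm

end TwoSum

/-- the Rayleigh property passes to 1-sums and 2-sums. -/
theorem ray_of_not_conn3 {D : Disp F3} (h : ¬ D.Conn3)
    (hm : ∀ U, U ⊂ D.Z → (D.restrict U).Ray) : D.Ray := TwoSum.main h hm

end Pool.Agent.Lib.MP_c69b6d_co.F
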