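import Pool.Agent.Lib.MP_c69b6d_co.F.SB1
import Pool.Agent.Lib.MP_c69b6d_co.F.TwoSum

/-! Stage B: sums, the binary case, the base case, series extensions, gluing. -/

namespace Pool.Agent.Lib.MP_c69b6d_co.F

open Finset

namespace SBS

open Disp TwoSum

variable {K K' : Type} [Field K] [Field K']

/-- the display with prescribed entries between rows and columns. -/
def ofFun (Z : Finset ℕ) (row : ℕ → Bool) (f : ℕ → ℕ → K) : Disp K where
  Z := Z
  row := row
  S := fun i j => if row i = row j then 0 else if row i = true then f i j else - f j i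
  skew := by
    intro i j
    cases h1 : row i <;> cases h2 : row j <;> simp
  bip := by
    intro i j h
    simp [h]

theorem ofFun_rc {Z : Finset ℕ} {row : ℕ → Bool} {f : ℕ → ℕ → K} {i j : ℕ} (hi : row i = true)
    (hj : row j = false) : (ofFun Z row f).S i j = f i j := by simp [ofFun, hi, hj]

theorem ent_of {H : Disp K} {G : Disp K'} {U : Finset ℕ} (hr : ∀ i ∈ U, G.row i = H.row i)
    {ε : ℕ → K'} {σ : K →+* K'} (b : Bool) (h : ∀ i ∈ U, ∀ j ∈ U, H.row i = b → H.row j = !b →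
      G.S i j = ε i * ε j * σ (H.S i j)) : ∀ i ∈ U, ∀ j ∈ U, G.S i j = ε i * ε j * σ (H.S i j) := by
  intro i hi j hj
  by_cases e : H.row i = H.row j
  · rw [H.bip i j e, G.bip i j (by rw [hr i hi, hr j hj, e]), map_zero, mul_zero]
  · have k : ∀ x y b : Bool, x ≠ y → (x = b ∧ y = !b) ∨ (y = b ∧ x = !b) := by decide
    rcases k _ _ b e with ⟨e1, e2⟩ | ⟨e1, e2⟩
    · exact h i hi j hj e1 e2
    · rw [G.skew, H.skew, h j hj i hi e1 e2, map_neg]; ring

theorem agree_ofFun {H : Disp K} {Z V : Finset ℕ} {row : ℕ → Bool} {f : ℕ → ℕ → K}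
    (hr : ∀ i ∈ V, H.row i = row i)
    (h : ∀ i ∈ V, ∀ j ∈ V, row i = true → row j = false → f i j = H.S i j) :
    Agree H (ofFun Z row f) V := by
  refine ⟨fun i hi => (hr i hi).symm, fun i hi j hj => ?_⟩
  have := ent_of (H := H) (G := ofFun Z row f) (fun i hi => (hr i hi).symm) (ε := fun _ => 1)
    (σ := RingHom.id K) true (fun i hi j hj ri rj => by
      rw [hr i hi] at ri
      rw [hr j hj] at rj
      rw [ofFun_rc ri rj, h i hi j hj ri rj]; simp) i hi j hj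
  simpa using this

theorem val_res {D : Disp K} {H : Disp K'} {U V : Finset ℕ} :
    Val (D.restrict V) H U ↔ Val D H U := ⟨fun h => ⟨h.row, h.base⟩, fun h => ⟨h.row, h.base⟩⟩

theorem val_of_parts {D : Disp K} {H : Disp K'} {X Y : Finset ℕ} (hZ : D.Z = X ∪ Y)
    (hZ' : H.Z = D.Z) (hr : H.row = D.row)
    (h : ∀ F1 ⊆ X, ∀ F2 ⊆ Y, H.Base (F1 ∪ F2) ↔ D.Base (F1 ∪ F2)) : Val D H D.Z := by
  refine ⟨fun i _ => by rw [hr], fun F => ?_⟩
  rw [restrict_self, ← hZ', restrict_self]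
  by_cases hF : F ⊆ D.Z
  · have e : F = F ∩ X ∪ F ∩ Y := by rw [← inter_union_distrib_left, ← hZ, inter_eq_left.2 hF]
    rw [e]
    exact h _ inter_subset_right _ inter_subset_right
  · exact ⟨fun b => absurd (hZ' ▸ b.1) hF, fun b => absurd b.1 hF⟩

theorem sum0 {D : Disp K} {H1 H2 : Disp K'} {X Y : Finset ℕ} (h : S0 D X Y) (h1 : Val D H1 X)
    (h2 : Val D H2 Y) : ∃ H : Disp K', Val D H D.Z := by
  have hd := disjoint_left.1 h.disj
  let H := ofFun D.Z D.row fun i j =>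
    if i ∈ X ∧ j ∈ X then H1.S i j else if i ∈ Y ∧ j ∈ Y then H2.S i j else 0
  have v1 : Val D H X := h1.trans (Val.of_agree (agree_ofFun h1.row fun i hi j hj _ _ => by
    simp [hi, hj]))
  have v2 : Val D H Y := h2.trans (Val.of_agree (agree_ofFun h2.row fun i hi j hj _ _ => by
    have : i ∉ X := fun hx => hd hx hi
    simp [hi, hj, this]))
  have s : S0 H X Y := ⟨h.hZ, h.disj, fun i hi j hj => by
    have : j ∉ X := fun hx => hd hx hj
    simp [H, ofFun, this, hd hi]⟩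
  exact ⟨H, val_of_parts h.hZ rfl rfl fun F1 a F2 b => by
    rw [s.base_iff a b, h.base_iff a b, v1.base, v2.base]⟩

theorem sum1 {D : Disp K} {H1 H2 : Disp K'} {X Y : Finset ℕ} {a b : ℕ} (h : S1 D X Y a b)
    (h1 : Val D H1 (insert b X)) (h2 : Val D H2 (insert a Y)) : ∃ H : Disp K', Val D H D.Z := by
  have hd := disjoint_left.1 h.disj
  have hd' : ∀ i ∈ Y, i ∉ X := fun i hi hx => hd hx hi
  have n1 : H1.S a b ≠ 0 := mt (h1.supp (mem_insert_of_mem h.ma) (mem_insert_self _ _)).1 h.ne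
  have n2 : H2.S a b ≠ 0 := mt (h2.supp (mem_insert_self _ _) (mem_insert_of_mem h.mb)).1 h.ne
  let H := ofFun D.Z D.row fun i j =>
    if i ∈ X then (if j ∈ X then H1.S i j else H1.S i b * H2.S a j / H2.S a b)
    else if j ∈ X then 0 else H2.S i j
  have v1 : Val D H (insert b X) :=
    h1.trans (Val.of_agree (agree_ofFun h1.row fun i hi j hj ri _ => by
      have hx : i ∈ X := (mem_insert.1 hi).resolve_left fun e => by simp [e, h.rb] at ri
      rcases mem_insert.1 hj with rfl | hj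
      · simp [hx, h.bX, n2]
      · simp [hx, hj]))
  have v2 : Val D H (insert a Y) :=
    (h2.trans (val_scale H2 (ε := fun i => if i = a then H1.S a b / H2.S a b else 1)
      (fun i => by split_ifs <;> simp [n1, n2]) _)).trans
      (Val.of_agree (agree_ofFun h2.row fun i hi j hj _ rj => by
        have hy : j ∈ Y := (mem_insert.1 hj).resolve_left fun e => by simp [e, h.ra] at rj
        have hja : j ≠ a := fun e => h.aY (e ▸ hy)
        rcases mem_insert.1 hi with rfl | hi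
        · simp only [h.ma, hd' j hy, scale, hja, if_true, if_false]; ring
        · have hia : i ≠ a := fun e => h.aY (e ▸ hi)
          simp [hd' i hi, hd' j hy, scale, hia, hja]))
  have s : S1 H X Y a b := ⟨h.hZ, h.disj, h.ma, h.mb, h.ra, h.rb,
    mt (v1.supp (mem_insert_of_mem h.ma) (mem_insert_self _ _)).1 h.ne, fun i hi j hj => by
      cases ri : D.row i <;> cases rj : D.row j <;>
        simp [H, ofFun, ri, rj, h.ra, h.rb, hi, hd' j hj, h.ma, h.bX, n2]
      ring⟩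
  exact ⟨H, val_of_parts h.hZ rfl rfl fun F1 a F2 b => by
    rw [(s.base_iff a b).1, (h.base_iff a b).1, v1.base, v1.base, v2.base, v2.base]⟩

theorem cases_sum {D : Disp K} (h : ¬ D.Conn3) :
    (∃ X Y, S0 D X Y ∧ X.Nonempty ∧ Y.Nonempty) ∨
      ∃ X Y a b, S1 D X Y a b ∧ 2 ≤ X.card ∧ 2 ≤ Y.card := by
  unfold Disp.Conn3 at h
  push Not at h
  obtain ⟨X, hX, h⟩ := h
  have hZ : D.Z = X ∪ (D.Z \ X) := (union_sdiff_of_subset hX).symm
  have hd : Disjoint X (D.Z \ X) := disjoint_sdiff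
  by_cases h0 : D.lam X (D.Z \ X) = 0
  · refine Or.inl ⟨X, _, ⟨hZ, hd, lam_eq_zero_iff.1 h0⟩, ?_⟩
    by_contra hne
    obtain ⟨c1, c2, -⟩ := h fun a b => absurd ⟨a, b⟩ hne
    exact hne ⟨card_pos.1 (by omega), card_pos.1 (by omega)⟩
  · obtain ⟨c1, c2, c3⟩ := h fun _ _ => by omega
    rw [lam_eq_zero_iff] at h0
    push Not at h0
    obtain ⟨a, ha, b, hb, hab⟩ := h0
    have hr := row_ne_of_S hab
    have hl : D.lam X (D.Z \ X) ≤ 1 := by omega
    cases ra : D.row a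
    · exact Or.inr ⟨_, X, b, a, ⟨by rw [union_comm]; exact hZ, hd.symm, hb, ha,
        by simpa [ra] using hr, ra, S_ne_symm hab,
        fun i hi j hj => det_two_of_lam (by rwa [lam_symm]) hi hb hj ha⟩, c2, c1⟩
    · exact Or.inr ⟨X, _, a, b, ⟨hZ, hd, ha, hb, ra, by simpa [ra] using hr, hab,
        fun i hi j hj => det_two_of_lam hl hi ha hj hb⟩, c1, c2⟩

/-- the indicator of the nonzero elements. -/
def ind (x : F3) : F4 := if x = 0 then 0 else 1

theorem ind_div {s : F3} (hs : s ≠ 0) (x : F3) : ind (x / s) = ind x := by simp [ind, hs]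

theorem ind_neg (x : F3) : ind (-x) = ind x := by simp [ind]

theorem ind_piv {p q r s : F3} (hs : s ≠ 0)
    (h : ¬ (p ≠ 0 ∧ q ≠ 0 ∧ r ≠ 0 ∧ s ≠ 0 ∧ p * s ≠ q * r)) :
    ind (p - q * r / s) = ind p - ind q * ind r := by
  have e : s⁻¹ = s := inv_eq_of_mul_eq_one_right (by clear h; revert s; decide)
  rw [div_eq_mul_inv, e]
  clear e
  revert p q r s
  decide

theorem ind_pS {D : Disp F3} {H : Disp F4} {U : Finset ℕ}
    (h : ∀ i ∈ U, ∀ j ∈ U, H.S i j = ind (D.S i j))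
    (hw : ∀ r ∈ U, ∀ s ∈ U, ∀ c ∈ U, ∀ d ∈ U, ¬ D.W4 r s c d) {x y : ℕ} (hx : x ∈ U) (hy : y ∈ U)
    (h0 : D.S x y ≠ 0) {i j : ℕ} (hi : i ∈ U) (hj : j ∈ U) :
    pS H.S x y i j = ind (pS D.S x y i j) := by
  have h0' := S_ne_symm h0
  have e1 : ind (D.S x y) = 1 := if_neg h0
  have e2 : ind (D.S y x) = 1 := if_neg h0'
  have z : ind 0 = 0 := rfl
  have o : ind 1 = 1 := rfl
  unfold pS
  simp only [h _ hx _ hy, h _ hy _ hx, h _ hy _ hj, h _ hx _ hj, h _ hy _ hi, h _ hx _ hi,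
    h _ hi _ hj, h _ hi _ hx, h _ hi _ hy, e1, e2, div_one, F4.neg_eq, apply_ite ind, ind_div h0,
    ind_div h0', ind_neg, z, o]
  split_ifs <;> try rfl
  by_cases e : D.row i = D.row x
  · rw [D.bip i x e, z, zero_mul, zero_mul, zero_div, sub_zero, sub_zero,
      ind_piv h0 (hw i hi x hx j hj y hy)]
  · have k : ∀ a b c : Bool, a ≠ b → c ≠ a → c = b := by decide
    rw [D.bip i y (k _ _ _ (row_ne_of_S h0) e), z, zero_mul, zero_mul, zero_div, sub_zero,
      sub_zero, ind_piv h0' (hw i hi y hy j hj x hx)]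

theorem base_W4 {D : Disp K} {r s c d : ℕ} (h : D.W4 r s c d) (rr : D.row r = true)
    (rs : D.row s = true) (rc : D.row c = false) (rd : D.row d = false) (hrs : r ≠ s) (hcd : c ≠ d)
    (F : Finset ℕ) : (D.restrict {r, s, c, d}).Base F ↔ F ⊆ {r, s, c, d} ∧ F.card = 2 := by
  have eB : (D.restrict {r, s, c, d}).B = {r, s} := by
    simp [B_restrict, filter_insert, filter_singleton, rr, rs, rc, rd]
  have e1 : ({r, s} : Finset ℕ).erase r = {s} := erase_insert (by simpa using hrs)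
  have e2 : ({r, s} : Finset ℕ).erase s = {r} := by
    rw [pair_comm]; exact erase_insert (by simpa using hrs.symm)
  refine ⟨fun b => ⟨b.1, by rw [b.2.1, eB, card_pair hrs]⟩, fun ⟨h1, h2⟩ => ?_⟩
  have b0 := base_B (D.restrict {r, s, c, d})
  have b1 := (base_swap (D := D.restrict {r, s, c, d}) (i := r) (j := c)
    (by simp [Disp.restrict]) (by simp [Disp.restrict]) rr rc).2 h.1
  have b2 := (base_swap (D := D.restrict {r, s, c, d}) (i := r) (j := d)
    (by simp [Disp.restrict]) (by simp [Disp.restrict]) rr rd).2 h.2.1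
  have b3 := (base_swap (D := D.restrict {r, s, c, d}) (i := s) (j := c)
    (by simp [Disp.restrict]) (by simp [Disp.restrict]) rs rc).2 h.2.2.1
  have b4 := (base_swap (D := D.restrict {r, s, c, d}) (i := s) (j := d)
    (by simp [Disp.restrict]) (by simp [Disp.restrict]) rs rd).2 h.2.2.2.1
  have b5 := (base_swap2 (D := D.restrict {r, s, c, d}) (x := r) (y := s) (u := c) (v := d)
    (by simp [Disp.restrict]) (by simp [Disp.restrict]) (by simp [Disp.restrict])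
    (by simp [Disp.restrict]) hrs hcd rr rs rc rd).2 h.2.2.2.2
  rw [eB] at b0 b1 b2 b3 b4 b5
  rw [e1] at b1 b2 b5
  rw [e2] at b3 b4
  rw [erase_singleton, insert_empty_eq] at b5
  obtain ⟨x, y, hxy, rfl⟩ := card_eq_two.1 h2
  have hx := h1 (mem_insert_self x _)
  have hy := h1 (mem_insert_of_mem (mem_singleton_self y))
  simp only [mem_insert, mem_singleton] at hx hy
  rcases hx with rfl | rfl | rfl | rfl <;> rcases hy with rfl | rfl | rfl | rfl <;>
    first | exact absurd rfl hxy | assumption | (rw [pair_comm x y]; assumption)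

theorem hom_cases (σ : F4 →+* F4) : (∀ x, σ x = x) ∨ ∀ x, σ x = F4.cj x := by
  have e0 : σ F4.o = 0 := map_zero σ
  have e1 : σ F4.e = 1 := map_one σ
  have e2 : σ F4.b = σ F4.a + 1 := by rw [← e1, ← map_add]; rfl
  have e3 : σ F4.b = σ F4.a * σ F4.a := by rw [← map_mul]; rfl
  have k : ∀ t : F4, t + 1 = t * t → t = F4.a ∨ t = F4.b := by decide
  rcases k _ (e2.symm.trans e3) with e | e
  · exact Or.inl fun x => by cases x <;> simp only [e0, e1, e2, e] <;> rfl
  · exact Or.inr fun x => by cases x <;> simp only [e0, e1, e2, e] <;> rfl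

theorem hom_hom (σ : F4 →+* F4) (x : F4) : σ (σ x) = x := by
  rcases hom_cases σ with e | e
  · rw [e, e]
  · rw [e, e]; revert x; decide

theorem eqv_iff {H G : Disp F4} {U : Finset ℕ} : Eqv H G U ↔ ∃ (ε : ℕ → F4) (σ : F4 →+* F4),
    (∀ i, ε i ≠ 0) ∧ ∀ i ∈ U, ∀ j ∈ U, G.S i j = ε i * ε j * σ (H.S i j) := by
  constructor
  · rintro ⟨ε, h0, h | h⟩
    · exact ⟨ε, RingHom.id _, h0, h⟩
    · exact ⟨ε, F4.cj, h0, h⟩
  · rintro ⟨ε, σ, h0, h⟩
    rcases hom_cases σ with e | e <;> simp only [e] at h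
    · exact ⟨ε, h0, Or.inl h⟩
    · exact ⟨ε, h0, Or.inr h⟩

theorem eqv_pivot {H G : Disp F4} {U : Finset ℕ} (h : Eqv H G U)
    (hr : ∀ i ∈ U, G.row i = H.row i) {x y : ℕ} (hx : x ∈ U) (hy : y ∈ U) :
    Eqv (H.pivot x y) (G.pivot x y) U := by
  by_cases h0 : H.S x y = 0
  · obtain ⟨ε, σ, -, h1⟩ := eqv_iff.1 h
    rwa [pivot_of_zero h0, pivot_of_zero (by rw [h1 x hx y hy, h0, map_zero, mul_zero])]
  · obtain ⟨ε, σ, h1, h2⟩ := eqv_iff.1 h
    have a : Agree ((H.map σ).scale ε) G U := ⟨hr, h2⟩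
    have b := a.pivot hx hy
    rw [scale_pivot' _ h1 (show (H.map σ).S x y ≠ 0 from (map_ne_zero σ).2 h0), ← map_pivot] at b
    exact eqv_iff.2 ⟨_, σ, fun i => by split_ifs <;> simp [h1], b.2⟩

theorem cross {a b c d a' b' c' d' : F4} (h : a ≠ 0 ∧ b ≠ 0 ∧ c ≠ 0 ∧ d ≠ 0 ∧ a * d ≠ b * c)
    (h' : a' ≠ 0 ∧ b' ≠ 0 ∧ c' ≠ 0 ∧ d' ≠ 0 ∧ a' * d' ≠ b' * c') :
    ∃ σ : F4 →+* F4, a' * d' * (σ b * σ c) = b' * c' * (σ a * σ d) := by
  have k : ∀ p q p' q' : F4, p ≠ 0 → q ≠ 0 → p ≠ q → p' ≠ 0 → q' ≠ 0 → p' ≠ q' →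
      p' * q = q' * p ∨ p' * (q * q) = q' * (p * p) := by decide
  rcases k _ _ _ _ (mul_ne_zero h.1 h.2.2.2.1) (mul_ne_zero h.2.1 h.2.2.1) h.2.2.2.2
    (mul_ne_zero h'.1 h'.2.2.2.1) (mul_ne_zero h'.2.1 h'.2.2.1) h'.2.2.2.2 with e | e
  · exact ⟨RingHom.id _, e⟩
  · exact ⟨F4.cj, by rw [← map_mul, ← map_mul]; exact e⟩

end SBS

namespace Disp

open SBS TwoSum

theorem SR.of_not_conn3 {D : Disp F3} (h : ¬ D.Conn3)
    (ih : ∀ U, U ⊂ D.Z → (D.restrict U).SR) : D.SR := by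
  rcases cases_sum h with ⟨X, Y, s, hX, hY⟩ | ⟨X, Y, a, b, s, hX, hY⟩
  · have k : ∀ {X Y : Finset ℕ}, S0 D X Y → Y.Nonempty → X ⊂ D.Z := by
      rintro X Y h ⟨c, hc⟩
      refine ⟨by rw [h.hZ]; exact subset_union_left, fun hs => ?_⟩
      exact disjoint_left.1 h.disj (hs (by rw [h.hZ]; exact mem_union_right _ hc)) hc
    obtain ⟨H1, h1⟩ := ih X (k s hY)
    obtain ⟨H2, h2⟩ := ih Y (k s.symm hX)
    exact sum0 s (val_res.1 h1) (val_res.1 h2)
  · obtain ⟨H1, h1⟩ := ih _ (ssub_of s.hZ s.disj hY s.mb)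
    obtain ⟨H2, h2⟩ := ih _ (ssub_of (by rw [s.hZ, union_comm]) s.disj.symm hX s.ma)
    exact sum1 s (val_res.1 h1) (val_res.1 h2)

theorem SR.of_noW4 {D : Disp F3} (h : NoW4 D D.Z) : D.SR := by
  refine ⟨ofFun D.Z D.row fun i j => ind (D.S i j), Val.of_inv (fun E H => ReachIn D.Z D E ∧
    (∀ i ∈ D.Z, H.row i = E.row i) ∧ ∀ i ∈ D.Z, ∀ j ∈ D.Z, H.S i j = ind (E.S i j))
    (fun E H p => ⟨p.2.1, fun i hi j hj => by simp [p.2.2 i hi j hj, ind]⟩)
    (fun E H x y p hx hy h0 => ?_) ⟨ReachIn.refl _ _, fun _ _ => rfl, fun i _ j _ => ?_⟩⟩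
  · have h1 : H.S x y ≠ 0 := by simp [p.2.2 x hx y hy, ind, h0]
    refine ⟨p.1.trans (ReachIn.single hx hy), fun i hi => ?_, fun i hi j hj => ?_⟩
    · rw [pivot_row h0, pivot_row h1, p.2.1 i hi]
    · rw [pivot_S h0, pivot_S h1]
      exact ind_pS p.2.2 (h E p.1) hx hy h0 hi hj
  · simp only [ofFun, F4.neg_eq]
    split_ifs with e1 e2
    · rw [D.bip i j e1]; rfl
    · rfl
    · rw [D.skew j i, ind_neg]

theorem SR.of_four {D : Disp F3} (hn : D.Nb D.Z) (h4 : D.Z.card ≤ 4) : D.SR := by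
  obtain ⟨E, r, s, c, d, hE, mr, ms, mc, md, rr, rs, rc, rd, hrs, hcd, w⟩ := hn.exists
  have eZ : E.Z = {r, s, c, d} := by
    rw [hE.Z_eq]
    refine (eq_of_subset_of_card_le ?_ (by rw [w.conn3.2]; exact h4)).symm
    simp [insert_subset_iff, mr, ms, mc, md]
  refine SR.reach (D := E) ⟨ofFun E.Z E.row fun i j => if i = s ∧ j = d then F4.a else 1,
    fun _ _ => rfl, fun F => ?_⟩ (Reach.symm hE)
  rw [eZ, base_W4 w rr rs rc rd hrs hcd,
    base_W4 (D := ofFun _ _ _) ?_ rr rs rc rd hrs hcd]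
  simp only [W4, ofFun_rc rr rc, ofFun_rc rr rd, ofFun_rc rs rc, ofFun_rc rs rd, hrs, hcd,
    false_and, and_false, and_self, if_true, if_false]
  decide

theorem Eqv.val {D : Disp F3} {H G : Disp F4} {U : Finset ℕ} (h : Eqv H G U) (hv : Val D H U)
    (hr : ∀ i ∈ U, G.row i = H.row i) : Val D G U := by
  obtain ⟨ε, σ, h0, h1⟩ := eqv_iff.1 h
  exact ((hv.trans (val_map H σ U)).trans (val_scale _ h0 U)).trans (Val.of_agree ⟨hr, h1⟩)

theorem Eqv.trans {H G J : Disp F4} {U : Finset ℕ} (h : Eqv H G U) (h' : Eqv G J U) :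
    Eqv H J U := by
  obtain ⟨ε, σ, h0, h1⟩ := eqv_iff.1 h
  obtain ⟨δ, τ, h2, h3⟩ := eqv_iff.1 h'
  refine eqv_iff.2 ⟨fun i => δ i * τ (ε i), τ.comp σ,
    fun i => mul_ne_zero (h2 i) ((map_ne_zero τ).2 (h0 i)), fun i hi j hj => ?_⟩
  rw [h3 i hi j hj, h1 i hi j hj, map_mul, map_mul, RingHom.comp_apply]
  ring

theorem Eqv.symm {H G : Disp F4} {U : Finset ℕ} (h : Eqv H G U) : Eqv G H U := by
  obtain ⟨ε, σ, h0, h1⟩ := eqv_iff.1 h
  have h2 := fun i => (map_ne_zero σ).2 (h0 i)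
  refine eqv_iff.2 ⟨fun i => (σ (ε i))⁻¹, σ, fun i => inv_ne_zero (h2 i), fun i hi j hj => ?_⟩
  have := h2 i
  have := h2 j
  rw [h1 i hi j hj, map_mul, map_mul, hom_hom]
  field_simp

/-- an equivalence on `U` can be realised by a move on the whole display. -/
theorem Eqv.move {H G : Disp F4} {U : Finset ℕ} (h : Eqv H G U) :
    ∃ H' : Disp F4, H'.row = H.row ∧ (∀ V, Eqv H H' V) ∧
      ∀ i ∈ U, ∀ j ∈ U, H'.S i j = G.S i j := by
  obtain ⟨ε, σ, h0, h1⟩ := eqv_iff.1 h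
  exact ⟨(H.map σ).scale ε, rfl, fun V => eqv_iff.2 ⟨ε, σ, h0, fun _ _ _ _ => rfl⟩,
    fun i hi j hj => (h1 i hi j hj).symm⟩

theorem Uniq.of_W4 {D : Disp F3} {r s c d : ℕ} (h : D.W4 r s c d) : D.Uniq {r, s, c, d} := by
  intro H G hH hG
  have w := (hH.W4 (by simp) (by simp) (by simp) (by simp)).2 h
  have w' := (hG.W4 (by simp) (by simp) (by simp) (by simp)).2 h
  obtain ⟨σ, e⟩ := cross w w'
  have n1 := (map_ne_zero σ).2 w.1
  have n2 := (map_ne_zero σ).2 w.2.1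
  have n3 := (map_ne_zero σ).2 w.2.2.1
  have m1 := w'.1
  have m2 := w'.2.1
  have m3 := w'.2.2.1
  have hrs : s ≠ r := by rintro rfl; exact h.2.2.2.2 (mul_comm _ _)
  have hcd : d ≠ c := by rintro rfl; exact h.2.2.2.2 rfl
  have a1 := ne_of_S h.1
  have a2 := ne_of_S h.2.1
  have a3 := ne_of_S h.2.2.1
  have a4 := ne_of_S h.2.2.2.1
  have k : ∀ x y : Bool, x ≠ y → y = !x := by decide
  have r1 := k _ _ (row_ne_of_S w.1)
  have r2 := k _ _ (row_ne_of_S w.2.1)
  have r3 : H.row s = H.row r := by simpa [r1, eq_comm] using k _ _ (row_ne_of_S w.2.2.1)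
  refine eqv_iff.2 ⟨fun i => if i = c then G.S r c / σ (H.S r c) else
    if i = d then G.S r d / σ (H.S r d) else
    if i = s then G.S s c * σ (H.S r c) / (G.S r c * σ (H.S s c)) else 1, σ,
    fun i => by beta_reduce; split_ifs <;> simp [n1, n2, n3, m1, m2, m3],
    ent_of (fun i hi => (hG.row i hi).trans (hH.row i hi).symm) (H.row r) fun i hi j hj ri rj => ?_⟩
  simp only [mem_insert, mem_singleton] at hi hj
  rcases hi with rfl | rfl | rfl | rfl <;> rcases hj with rfl | rfl | rfl | rfl <;>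
    first | (exfalso; simp [r1, r2, r3] at ri rj; done) | skip
  all_goals simp only [a1, a2, a3, a4, hrs, hrs.symm, hcd, if_true, if_false]
  all_goals field_simp
  linear_combination e

theorem Uniq.reachIn {D E : Disp F3} {U : Finset ℕ} (h : D.Uniq U) (hr : ReachIn U D E) :
    E.Uniq U := by
  refine hr.ind (P := fun E => E.Uniq U) h fun E x y hx hy _ _ ih H G hH hG => ?_
  have a := hH.pivot hx hy
  have b := hG.pivot hx hy
  rw [pivot_pivot] at a b
  have := eqv_pivot (ih _ _ a b) (fun i hi => (b.row i hi).trans (a.row i hi).symm) hx hy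
  rwa [pivot_pivot, pivot_pivot] at this

theorem Uniq.flip {D : Disp F3} {U : Finset ℕ} (h : D.Uniq U) : D.flip.Uniq U := by
  intro H G hH hG
  have a := hH.flip
  have b := hG.flip
  rw [flip_flip] at a b
  exact h H.flip G.flip a b

theorem Uniq.emb {L D : Disp F3} {φ : ℕ → ℕ} {ε : ℕ → F3} (he : Emb L D φ ε) {U : Finset ℕ}
    (hU : U ⊆ L.Z) : L.Uniq U ↔ D.Uniq (U.image φ) := by
  have hψ : ∀ i ∈ U, Function.invFunOn φ U (φ i) = i := fun i hi =>
    (he.inj.mono hU).leftInvOn_invFunOn hi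
  constructor
  · intro h H G hH hG
    obtain ⟨δ, σ, h0, h1⟩ := eqv_iff.1 (h _ _ ((Val.emb he hU U).2 hH) ((Val.emb he hU U).2 hG))
    refine eqv_iff.2 ⟨fun k => δ (Function.invFunOn φ U k), σ, fun k => h0 _, fun k hk l hl => ?_⟩
    obtain ⟨i, hi, rfl⟩ := mem_image.1 hk
    obtain ⟨j, hj, rfl⟩ := mem_image.1 hl
    simp only [hψ i hi, hψ j hj]
    exact h1 i hi j hj
  · intro h H G hH hG
    have k : ∀ H : Disp F4, Val L H U →
        Val D (H.comap U (Function.invFunOn φ U)) (U.image φ) := fun H hH =>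
      (Val.emb he hU U).1 (hH.trans (Val.of_agree ⟨fun i hi => by simp only [comap, hψ i hi],
        fun i hi j hj => by simp only [comap, hψ i hi, hψ j hj]⟩))
    obtain ⟨δ, σ, h0, h1⟩ := eqv_iff.1 (h _ _ (k H hH) (k G hG))
    refine eqv_iff.2 ⟨fun i => δ (φ i), σ, fun i => h0 _, fun i hi j hj => ?_⟩
    simpa only [comap, hψ i hi, hψ j hj] using
      h1 _ (mem_image_of_mem φ hi) _ (mem_image_of_mem φ hj)

theorem uniq_restrict {D : Disp F3} {U V : Finset ℕ} : (D.restrict V).Uniq U ↔ D.Uniq U := by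
  simp only [Uniq, val_res]

/-- adding degenerate rows keeps uniqueness. -/
theorem Uniq.rows {D : Disp F3} {N L : Finset ℕ} (h : D.Uniq N) (hNL : N ⊆ L)
    (hd : ∀ r ∈ L, r ∉ N → D.row r = true ∧ D.Deg N r) : D.Uniq L := by
  intro H0 G hH0 hG
  obtain ⟨H, hr, he, hS⟩ := (h _ _ (hH0.mono hNL) (hG.mono hNL)).move
  have hH : Val D H L := (he L).val hH0 fun i _ => by rw [hr]
  refine (he L).trans ?_
  have key : ∀ r, ∃ μ : F4, μ ≠ 0 ∧ (r ∈ N → μ = 1) ∧
      (r ∈ L → ∀ j ∈ N, G.S r j = μ * H.S r j) := by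
    intro r
    by_cases hN : r ∈ N
    · exact ⟨1, one_ne_zero, fun _ => rfl, fun _ j hj => by rw [one_mul, hS r hN j hj]⟩
    by_cases hL : r ∈ L
    swap
    · exact ⟨1, one_ne_zero, fun _ => rfl, fun a => absurd a hL⟩
    by_cases h0 : ∀ j ∈ N, D.S r j = 0
    · exact ⟨1, one_ne_zero, fun _ => rfl, fun _ j hj => by
        rw [(hG.supp hL (hNL hj)).2 (h0 j hj), (hH.supp hL (hNL hj)).2 (h0 j hj), mul_zero]⟩
    push Not at h0
    obtain ⟨k, hk, h0⟩ := h0
    have n1 := mt (hG.supp hL (hNL hk)).1 h0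
    have n2 := mt (hH.supp hL (hNL hk)).1 h0
    refine ⟨G.S r k / H.S r k, div_ne_zero n1 n2, fun a => absurd a hN, fun _ j hj => ?_⟩
    obtain ⟨rr, z, hz, α, ha⟩ := hd r hL hN
    cases rz : D.row z
    · have a : ∀ j ∈ N, j ≠ z → D.S r j = 0 := fun j hj hjz => by
        cases rj : D.row j
        · rw [ha j hj hjz, D.bip z j (rz.trans rj.symm), mul_zero]
        · exact D.bip r j (rr.trans rj.symm)
      have hkz : k = z := by_contra fun e => h0 (a k hk e)
      by_cases hjz : j = z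
      · rw [hjz, ← hkz, div_mul_cancel₀ _ n2]
      · rw [(hG.supp hL (hNL hj)).2 (a j hj hjz), (hH.supp hL (hNL hj)).2 (a j hj hjz), mul_zero]
    · have a : ∀ j ∈ N, D.S r j = α * D.S z j := fun j hj => by
        by_cases hjz : j = z
        · rw [hjz, D.bip r z (rr.trans rz.symm), D.bip z z rfl, mul_zero]
        · exact ha j hj hjz
      have d : D.S r j * D.S z k = D.S r k * D.S z j := by rw [a j hj, a k hk]; ring
      have d1 := (hG.det2 hL (hNL hz) (hNL hj) (hNL hk)).2 d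
      have d2 := (hH.det2 hL (hNL hz) (hNL hj) (hNL hk)).2 d
      have n3 : G.S z k ≠ 0 := mt (hG.supp (hNL hz) (hNL hk)).1 fun e => h0 (by
        rw [a k hk, e, mul_zero])
      rw [hS z hz k hk, hS z hz j hj] at d2
      refine mul_right_cancel₀ n3 ?_
      rw [d1, mul_assoc, d2, ← mul_assoc, div_mul_cancel₀ _ n2]
  choose μ h0 h1 h2 using key
  refine ⟨μ, h0, Or.inl fun i hi j hj => ?_⟩
  by_cases hj' : j ∈ N
  · rw [h2 i hi j hj', h1 j hj', mul_one]
  by_cases hi' : i ∈ N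
  · rw [G.skew, H.skew, h2 j hj i hi', h1 i hi', one_mul, mul_neg]
  · have e := (hd i hi hi').1.trans (hd j hj hj').1.symm
    rw [(hG.supp hi hj).2 (D.bip i j e), (hH.supp hi hj).2 (D.bip i j e), mul_zero]

/-- gluing along a deletion pair. -/
theorem SR.glue (ml : MLStmt) {E : Disp F3} {u v : ℕ} {N : Finset ℕ} (hF : Free NL E)
    (hp : Pair E u v N) (hN : E.Uniq N) (h1 : (E.restrict (E.Z.erase u)).SR)
    (h2 : (E.restrict (E.Z.erase v)).SR) : E.SR := by
  obtain ⟨H0, a0⟩ := h1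
  obtain ⟨H2, a2⟩ := h2
  replace a0 : Val E H0 (E.Z.erase u) := val_res.1 a0
  replace a2 : Val E H2 (E.Z.erase v) := val_res.1 a2
  have s1 : (E.Z.erase u).erase v ⊆ E.Z.erase u := erase_subset _ _
  have s2 : (E.Z.erase u).erase v ⊆ E.Z.erase v := erase_subset_erase _ (erase_subset _ _)
  obtain ⟨H1, hr, he, hS⟩ := (hN.rows hp.sub hp.deg _ _ (a0.mono s1) (a2.mono s2)).move
  have a1 : Val E H1 (E.Z.erase u) := (he _).val a0 fun i _ => by rw [hr]
  have mv : v ∈ E.Z.erase u := mem_erase.2 ⟨hp.ne.symm, hp.mv⟩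
  have rv : H1.row v = false := (a1.row v mv).trans hp.rv
  have hrow : ∀ i ∈ E.Z.erase u, i ≠ v → H2.row i = H1.row i := fun i hi e =>
    (a2.row i (s2 (mem_erase.2 ⟨e, hi⟩))).trans (a1.row i hi).symm
  have hcol : ∀ i ∈ E.Z.erase u, i ≠ v →
      (H2.addEl v false fun i => H1.S i v).S i v = H1.S i v := fun i hi e => by
    simp only [addEl, e, if_true, if_false]
    split_ifs with r
    · exact (H1.bip i v (by rw [← hrow i hi e, r, rv])).symm
    · rfl
  refine ⟨H2.addEl v false fun i => H1.S i v, ml E _ u v hF hp.mu hp.mv hp.ne hp.ru hp.rv hp.cu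
    hp.cv (hp.nb.mono hp.sub) (a1.trans (Val.of_agree ⟨fun i hi => ?_, fun i hi j hj => ?_⟩))
    (a2.trans (Val.of_agree (agree_addEl H2 (notMem_erase _ _) _ _)))⟩
  · by_cases e : i = v
    · simp [addEl, e, rv]
    · simp [addEl, e, hrow i hi e]
  · by_cases e : i = v <;> by_cases e' : j = v
    · rw [e, e', Disp.bip _ v v rfl, H1.bip v v rfl]
    · rw [e, Disp.skew, hcol j hj e', ← H1.skew]
    · rw [e', hcol i hi e]
    · simp only [addEl, e, e', if_false]
      exact (hS i (mem_erase.2 ⟨e, hi⟩) j (mem_erase.2 ⟨e', hj⟩)).symm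

end Disp

end Pool.Agent.Lib.MP_c69b6d_co.F
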