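import Pool.Agent.Lib.MP_c69b6d_co.F.SBN
import Pool.Agent.Lib.MP_c69b6d_co.F.SBS

/-! Stage B: uniqueness of the representation over the field with four elements. -/

namespace Pool.Agent.Lib.MP_c69b6d_co.F

open Finset

namespace Disp

/-- a copy of the column `n` of `H` under the fresh label `m`, added to `G`. -/
theorem sbu_copy {K : Type} [Field K] {H G : Disp K} {L : Finset ℕ} {n m : ℕ} (hn : n ∉ L)
    (hm : m ∉ L) (rn : H.row n = false) (ha : Agree H G L) (Z : Finset ℕ) :
    Agree H ((G.addEl m false (fun i => H.S i n)).comap Z (Function.update id n m))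
      (insert n L) := by
  have up : ∀ i ∈ L, Function.update id n m i = i ∧ i ≠ m := fun i hi =>
    ⟨Function.update_of_ne (fun e : i = n => hn (e ▸ hi)) _ _, fun e => hm (e ▸ hi)⟩
  have col : ∀ i ∈ L, (G.addEl m false (fun i => H.S i n)).S i m = H.S i n := fun i hi => by
    simp only [addEl, (up i hi).2, if_true, if_false]
    split_ifs with h
    · exact (H.bip i n (by rw [← ha.1 i hi, h, rn])).symm
    · rfl
  constructor
  · intro i hi
    rcases mem_insert.1 hi with rfl | hi
    · simp [comap, addEl, rn]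
    · simp [comap, addEl, (up i hi).1, (up i hi).2, ha.1 i hi]
  · intro i hi j hj
    change (G.addEl m false (fun i => H.S i n)).S (Function.update id n m i)
      (Function.update id n m j) = H.S i j
    rcases mem_insert.1 hi with rfl | hi' <;> rcases mem_insert.1 hj with rfl | hj'
    · rw [bip _ _ _ rfl, bip _ _ _ rfl]
    · rw [Function.update_self, (up j hj').1, skew, col j hj', ← skew]
    · rw [Function.update_self, (up i hi').1, col i hi']
    · rw [(up i hi').1, (up j hj').1]
      simp [addEl, (up i hi').2, (up j hj').2, ha.2 i hi' j hj']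

/-- one more column. -/
theorem Uniq.col (ml : MLStmt) {E : Disp F3} {L : Finset ℕ} {n : ℕ} (hn : n ∉ L)
    (rn : E.row n = false) (hF : Free NL (E.restrict (insert n L)))
    (h3 : (E.restrict (insert n L)).Conn3) (hb : E.Nb L) (hu : E.Uniq L) :
    E.Uniq (insert n L) := by
  intro H G hH hG
  have hL : L ⊆ insert n L := subset_insert _ _
  have nZ : n ∈ insert n L := mem_insert_self _ _
  obtain ⟨H', r', e', s'⟩ := (hu H G (hH.mono hL) (hG.mono hL)).move
  have hH' : Val E H' (insert n L) := (e' _).val hH fun i _ => by rw [r']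
  obtain ⟨m, hm⟩ := Infinite.exists_notMem_finset (insert n L)
  have hmL : m ∉ L := fun h => hm (hL h)
  have hnm : n ≠ m := fun e => hm (e ▸ nZ)
  set D' : Disp F3 := (E.restrict (insert n L)).addEl m false (fun i => E.S i n) with hD'
  set H'' : Disp F4 := G.addEl m false (fun i => H'.S i n) with hH''
  have up : ∀ i ∈ L, Function.update id n m i = i := fun i hi =>
    Function.update_of_ne (fun e : i = n => hn (e ▸ hi)) _ _
  have aD : Agree E D' (insert n L) := agree_addEl (E.restrict (insert n L)) hm _ _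
  have aG : Agree G H'' (insert n L) := agree_addEl G hm _ _
  have cD : Agree E (D'.comap ∅ (Function.update id n m)) (insert n L) :=
    sbu_copy (G := E.restrict (insert n L)) hn hmL rn (Agree.refl E L) ∅
  have cH : Agree H' (H''.comap ∅ (Function.update id n m)) (insert n L) :=
    sbu_copy hn hmL ((hH'.row n nZ).trans rn) ⟨fun i hi =>
      (hG.row i (hL hi)).trans (hH'.row i (hL hi)).symm, fun i hi j hj => (s' i hi j hj).symm⟩ ∅
  have im : (insert n L).image (Function.update id n m) = insert m L := by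
    rw [image_insert, Function.update_self, image_congr (g := id) fun i hi => up i hi, image_id]
  have cd : (insert m L).card = (insert n L).card := by
    rw [card_insert_of_notMem hmL, card_insert_of_notMem hn]
  have inj : Set.InjOn (Function.update id n m) ((insert n L : Finset ℕ) : Set ℕ) :=
    card_image_iff.1 (by rw [im, cd])
  have he : Emb (E.restrict (insert n L)) (D'.restrict (insert m L)) (Function.update id n m)
      (fun _ => 1) :=
    ⟨inj, fun i hi => by
      change _ ∈ insert m L
      rw [← im]; exact mem_image_of_mem _ hi, cD.1, fun _ _ => one_mul 1,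
      fun i hi j hj => by rw [one_mul, one_mul]; exact cD.2 i hi j hj⟩
  have z0 : D'.Z = insert m (insert n L) := rfl
  have z1 : D'.Z.erase n = insert m L := by
    rw [z0, insert_comm, erase_insert (by simp [hn, hnm])]
  have z2 : D'.Z.erase m = insert n L := by rw [z0, erase_insert hm]
  have cE : ∀ i ∈ L, D'.S i m = E.S i n := fun i hi => by
    have := cD.2 i (hL hi) n nZ
    change D'.S _ _ = _ at this
    rwa [Function.update_self, up i hi] at this
  have cE' : ∀ i ∈ L, H''.S i m = H'.S i n := fun i hi => by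
    have := cH.2 i (hL hi) n nZ
    change H''.S _ _ = _ at this
    rwa [Function.update_self, up i hi] at this
  have hF' : Free NL D' := by
    refine hF.addEl_deg hm ⟨n, nZ, 1, fun j hj hjn => ?_⟩
    have hjL : j ∈ L := (mem_insert.1 hj).resolve_left hjn
    change D'.S m j = 1 * D'.S n j
    rw [one_mul, skew, cE j hjL, aD.2 n nZ j hj, ← skew]
  have hv : Val D' H'' D'.Z := by
    refine ml D' H'' n m hF' (mem_insert_of_mem nZ) (mem_insert_self _ _) hnm
      ((aD.1 n nZ).trans rn) (by simp [hD', addEl]) ?_ ?_ ?_ ?_ ?_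
    · rw [z1]; exact (Conn3.emb he cd.le).1 h3
    · rw [z2]
      exact (Conn3.emb (emb_of_agree (L := E.restrict (insert n L))
        (D := D'.restrict (insert n L)) subset_rfl aD) le_rfl).1 h3
    · rw [z1, erase_insert hmL]; exact hb.agree (aD.mono hL)
    · rw [z1]
      have h1 : Val (E.restrict (insert n L)) (H''.comap ∅ (Function.update id n m))
          (insert n L) :=
        (Val.of_agree (D := E.restrict (insert n L)) (E := E) (Agree.refl E _)).trans
          (hH'.trans (Val.of_agree cH))
      have h2 := (Val.emb he subset_rfl ∅).1 h1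
      change Val _ _ ((insert n L).image _) at h2
      rw [im] at h2
      exact (Val.of_agree (D := D') (E := D'.restrict (insert m L)) (Agree.refl D' _)).trans h2
    · rw [z2]; exact (Val.of_agree aD).symm.trans (hG.trans (Val.of_agree aG))
  have key : ∀ i ∈ L, ∀ j ∈ L, G.S i n * H'.S j n = H'.S i n * G.S j n := fun i hi j hj => by
    have := (hv.det2 (r := i) (s := j) (c := n) (d := m) (mem_insert_of_mem (hL hi))
      (mem_insert_of_mem (hL hj)) (mem_insert_of_mem nZ) (mem_insert_self _ _)).2 (by
        rw [cE i hi, cE j hj, aD.2 i (hL hi) n nZ, aD.2 j (hL hj) n nZ])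
    rwa [cE' i hi, cE' j hj, aG.2 i (hL hi) n nZ, aG.2 j (hL hj) n nZ] at this
  have sp : ∀ i ∈ L, (G.S i n = 0 ↔ H'.S i n = 0) := fun i hi =>
    (hG.supp (hL hi) nZ).trans (hH'.supp (hL hi) nZ).symm
  obtain ⟨t, ht, ht'⟩ : ∃ t : F4, t ≠ 0 ∧ ∀ i ∈ L, G.S i n = t * H'.S i n := by
    by_cases h0 : ∀ j ∈ L, H'.S j n = 0
    · exact ⟨1, one_ne_zero, fun i hi => by rw [(sp i hi).2 (h0 i hi), h0 i hi, mul_zero]⟩
    · push Not at h0
      obtain ⟨j, hj, h0⟩ := h0
      refine ⟨G.S j n / H'.S j n, div_ne_zero (fun e => h0 ((sp j hj).1 e)) h0, fun i hi => ?_⟩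
      rw [div_mul_eq_mul_div, eq_div_iff h0, key i hi j hj, mul_comm]
  refine (e' _).trans ⟨fun i => if i = n then t else 1, fun i => ?_, Or.inl fun i hi j hj => ?_⟩
  · beta_reduce
    split_ifs
    · exact ht
    · exact one_ne_zero
  · have ne : ∀ i ∈ L, i ≠ n := fun i hi e => hn (e ▸ hi)
    beta_reduce
    rcases mem_insert.1 hi with rfl | hi' <;> rcases mem_insert.1 hj with rfl | hj'
    · rw [bip _ _ _ rfl, bip _ _ _ rfl, mul_zero]
    · rw [if_pos rfl, if_neg (ne j hj'), G.skew, H'.skew, ht' j hj', mul_one, mul_neg]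
    · rw [if_pos rfl, if_neg (ne i hi'), ht' i hi', one_mul]
    · rw [if_neg (ne i hi'), if_neg (ne j hj'), s' i hi' j hj', one_mul, one_mul]

/-- one more element. -/
theorem Uniq.one (ml : MLStmt) {E : Disp F3} {L : Finset ℕ} {n : ℕ} (hn : n ∉ L)
    (hF : Free NL (E.restrict (insert n L))) (h3 : (E.restrict (insert n L)).Conn3) (hb : E.Nb L)
    (hu : E.Uniq L) : E.Uniq (insert n L) := by
  cases rn : E.row n
  · exact hu.col ml hn rn hF h3 hb
  · have := (Uniq.col ml (E := E.flip) hn (by simp [Disp.flip, rn]) hF.flip_NL h3.flip hb.flip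
      hu.flip).flip
    rwa [flip_flip] at this

theorem uniq_aux (ml : MLStmt) {D : Disp F3} (hF : Free NL D) (h3 : D.Conn3) :
    ∀ (k : ℕ) (E : Disp F3) (U : Finset ℕ), D.Z.card - U.card = k → D.Reach E → U ⊆ D.Z →
      (E.restrict U).Conn3 → E.Nb U → E.Uniq U → D.Uniq D.Z := by
  intro k
  induction k using Nat.strong_induction_on with
  | _ k ih =>
  intro E U hk hE hU hc hb hu
  by_cases hne : U = D.Z
  · subst hne
    exact hu.reachIn (ReachIn.symm hE)
  obtain ⟨E', φ, ε, hr, he, hcase⟩ := chain' (h3.reach hE) (hE.Z_eq ▸ hU) (hE.Z_eq ▸ hne) hc hb.card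
  have hE' := hE.trans hr
  have hZ := hE'.Z_eq
  have hu' : E'.Uniq (U.image φ) := (Uniq.emb he subset_rfl).1 (uniq_restrict.2 hu)
  have hb' : E'.Nb (U.image φ) := (Nb.emb he subset_rfl).1 hb
  have hs : U.image φ ⊆ E'.Z := image_subset_iff.2 he.mem
  have hcard : (U.image φ).card = U.card := card_image_of_injOn he.inj
  have fr : ∀ V, V ⊆ E'.Z → Free NL (E'.restrict V) := fun V hV =>
    hF.minor ((minor_restrict hV).trans hE'.minor)
  have fin : ∀ V, V ⊆ E'.Z → U.image φ ⊂ V → (E'.restrict V).Conn3 → E'.Uniq V → D.Uniq D.Z :=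
    fun V hV hUV hc' hu'' => by
      have h1 := card_lt_card hUV
      have h2 := card_le_card hV
      rw [hZ] at h2 hV
      exact ih _ (by omega) E' V rfl hE' hV hc' (hb'.mono hUV.subset) hu''
  rcases hcase with ⟨n, hn, hn', hc'⟩ | ⟨n, hn, n', hn', k1, k2, r1, r2, -, d2, hc'⟩
  · have hV := insert_subset hn hs
    exact fin _ hV (ssubset_insert hn') hc' (hu'.one ml hn' (fr _ hV) hc' hb')
  · have hnn : n ≠ n' := fun e => by rw [e, r2] at r1; cases r1
    have hV := insert_subset hn (insert_subset hn' hs)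
    rw [insert_comm] at hc'
    have h1 : E'.Uniq (insert n' (U.image φ)) := hu'.rows (subset_insert _ _) fun r hr hr' => by
      rw [(mem_insert.1 hr).resolve_right hr']
      exact ⟨r2, d2⟩
    have h2 : n ∉ insert n' (U.image φ) := by simp only [mem_insert, not_or]; exact ⟨hnn, k1⟩
    exact fin _ hV ((ssubset_insert k2).trans (ssubset_insert h2)) hc'
      (h1.col ml h2 r1 (fr _ hV) hc' (hb'.mono (subset_insert _ _)))

theorem uniq (ml : MLStmt) {D : Disp F3} (hF : Free NL D) (h3 : D.Conn3) (hb : D.Nb D.Z) :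
    D.Uniq D.Z := by
  obtain ⟨E, r, s, c, d, hE, hr, hs, hc, hd, -, -, -, -, -, -, hw⟩ := hb.exists
  refine uniq_aux ml hF h3 _ E {r, s, c, d} rfl hE ?_ hw.conn3.1
    (hw.nb (by simp) (by simp) (by simp) (by simp)) (Uniq.of_W4 hw)
  exact insert_subset hr (insert_subset hs (insert_subset hc (singleton_subset_iff.2 hd)))

end Disp

end Pool.Agent.Lib.MP_c69b6d_co.F
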