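import Pool.Agent.Lib.MP_c69b6d_co.F.SBR
import Pool.Agent.Lib.MP_c69b6d_co.F.SBL
import Pool.Agent.Lib.MP_c69b6d_co.F.SBF
import Pool.Agent.Lib.MP_c69b6d_co.F.SBP
import Pool.Agent.Lib.MP_c69b6d_co.F.SBU

/-! Stage B: the main induction. -/

namespace Pool.Agent.Lib.MP_c69b6d_co.F

open Finset Disp

theorem SR_of_free (ml : MLStmt) : ∀ (n m : ℕ) (D : Disp F3), D.Z.card = n → D.B.card = m →
    Free NL D → D.SR := by
  intro n
  induction n using Nat.strong_induction_on with
  | _ n ihn =>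
  intro m
  induction m using Nat.strong_induction_on with
  | _ m ihm =>
  intro D hn hm hF
  have small : ∀ E : Disp F3, D.Reach E → ∀ U, U ⊂ E.Z → (E.restrict U).SR := fun E hE U hU =>
    ihn U.card (by rw [← hn, ← hE.Z_eq]; exact card_lt_card hU) _ _ rfl rfl
      (hF.minor ((minor_restrict hU.subset).trans hE.minor))
  by_cases h3 : D.Conn3
  swap
  · exact SR.of_not_conn3 h3 (small D (Reach.refl D))
  by_cases hb : D.Nb D.Z
  swap
  · exact SR.of_noW4 (not_not.1 hb)
  by_cases h4 : D.Z.card ≤ 4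
  · exact SR.of_four hb h4
  rcases exists_pair h3 hb (by omega) with ⟨E, w, a, b, T, hE, hc⟩ | ⟨E, u, v, N, hE, hp⟩
  · have hFE : Free NL E := hF.minor hE.minor
    have := ihm _ (by rw [← hm, ← hE.card_B]; exact hc.yd_B) (yd E w a b)
      (by rw [hc.yd_Z, hE.Z_eq, hn]) rfl (hc.free hFE)
    exact (hc.SR this).reach hE.symm
  · have hFE : Free NL E := hF.minor hE.minor
    have hNZ : N ⊆ E.Z := hp.sub.trans ((erase_subset _ _).trans (erase_subset _ _))
    have hN : E.Uniq N := uniq_restrict.1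
      (uniq ml (D := E.restrict N) (hFE.minor (minor_restrict hNZ)) hp.cN hp.nb)
    exact (SR.glue ml hFE hp hN (small E hE _ (erase_ssubset hp.mu))
      (small E hE _ (erase_ssubset hp.mv))).reach hE.symm

theorem stageB_of (ml : MLStmt) (D : Disp F3) (hD : Free NL D) : D.Ray :=
  (SR_of_free ml _ _ D rfl rfl hD).ray

end Pool.Agent.Lib.MP_c69b6d_co.F
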