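import Pool.Agent.Lib.MP_c69b6d_co.F.Data
import Pool.Agent.Lib.MP_c69b6d_co.F.Clos

/-! Stage B: finite facts on `NL`, and 3-connectivity of `ext2` (proofs). -/

namespace Pool.Agent.Lib.MP_c69b6d_co.F

open Finset Disp ChainAux

namespace SBNAux

theorem conn3_of {D : Disp F3} (h : ∀ X ∈ D.Z.powerset,
    (X.Nonempty → (D.Z \ X).Nonempty → ∃ i ∈ X, ∃ j ∈ D.Z \ X, D.S i j ≠ 0) ∧
    (2 ≤ X.card → 2 ≤ (D.Z \ X).card → ∃ i ∈ X, ∃ i' ∈ X, ∃ j ∈ D.Z \ X, ∃ j' ∈ D.Z \ X,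
      D.S i j * D.S i' j' ≠ D.S i j' * D.S i' j)) : D.Conn3 := by
  intro X hX
  obtain ⟨h1, h2⟩ := h X (mem_powerset.2 hX)
  constructor
  · intro a b
    obtain ⟨i, hi, j, hj, e⟩ := h1 a b
    by_contra hc
    exact e (lam_eq_zero_iff.1 (by omega) i hi j hj)
  · intro a b
    obtain ⟨i, hi, i', hi', j, hj, j', hj', e⟩ := h2 a b
    by_contra hc
    exact e (det_two_of_lam (by omega) hi hi' hj hj')

theorem emb_of {L D : Disp F3} {φ : ℕ → ℕ} {ε : ℕ → F3}
    (h : ∀ i ∈ L.Z, φ i ∈ D.Z ∧ D.row (φ i) = L.row i ∧ ε i * ε i = 1 ∧ ∀ j ∈ L.Z,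
      (φ i = φ j → i = j) ∧ D.S (φ i) (φ j) = ε i * ε j * L.S i j) : Emb L D φ ε :=
  ⟨fun i hi j hj => ((h i hi).2.2.2 j hj).1, fun i hi => (h i hi).1, fun i hi => (h i hi).2.1,
    fun i hi => (h i hi).2.2.1, fun i hi j hj => ((h i hi).2.2.2 j hj).2⟩

theorem c1 : cF7m.toDisp.Conn3 := conn3_of (by decide +kernel)
theorem c2 : cF7md.toDisp.Conn3 := conn3_of (by decide +kernel)
theorem c3 : cP8.toDisp.Conn3 := conn3_of (by decide +kernel)

theorem f1 : Emb cF7md.toDisp cF7m.toDisp.flip id (fun _ => 1) := emb_of (by decide +kernel)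
theorem f2 : Emb cF7m.toDisp cF7md.toDisp.flip id (fun _ => 1) := emb_of (by decide +kernel)
theorem f3 : Emb cP8.toDisp cP8.toDisp.flip (fun i => (i + 4) % 8)
    (fun i => if i < 4 then -1 else 1) := emb_of (by decide +kernel)

theorem flip_addEl (D : Disp F3) (n : ℕ) (r : Bool) (v : ℕ → F3) :
    (D.addEl n r v).flip = D.flip.addEl n (!r) v := by
  have k : ∀ a b : Bool, ((!a) = (!b)) ↔ a = b := by decide
  refine Disp.ext' rfl (funext fun i => ?_) (funext fun i => funext fun j => ?_)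
  · by_cases h : i = n <;> simp [Disp.flip, addEl, h]
  · simp only [Disp.flip, addEl, k]

theorem loop_reach {G E : Disp F3} (h : G.Reach E) {n : ℕ} (h0 : ∀ j ∈ G.Z, G.S n j = 0) :
    E.row n = G.row n ∧ ∀ j ∈ G.Z, E.S n j = 0 := by
  refine ReachIn.ind (P := fun E => E.row n = G.row n ∧ ∀ j ∈ G.Z, E.S n j = 0) h ⟨rfl, h0⟩ ?_
  intro E x y hx hy hs _ ⟨p1, p2⟩
  have nx : n ≠ x := fun e => hs (e ▸ p2 y hy)
  have ny : n ≠ y := fun e => S_ne_symm hs (e ▸ p2 x hx)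
  refine ⟨(pivot_row_ne hs nx ny).trans p1, fun j hj => ?_⟩
  rw [pivot_S hs]
  simp [pS, nx, ny, p2 x hx, p2 y hy, p2 j hj, E.skew x n, E.skew y n]

theorem minor_col {N D : Disp F3} (hN : N.Conn3) (h4 : 4 ≤ N.Z.card) {n : ℕ} (hn : n ∉ D.Z)
    {v : ℕ → F3} (hd : Deg (D.addEl n false v) D.Z n) (hm : Minor N (D.addEl n false v)) :
    Minor N D := by
  have hZ : (D.addEl n false v).Z.erase n = D.Z := erase_insert hn
  have rn : (D.addEl n false v).row n = false := addEl_row_new D false v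
  have mn : n ∈ (D.addEl n false v).Z := mem_insert_self _ _
  have a : ∀ i ∈ D.Z, i ≠ n := fun i hi e => hn (e ▸ hi)
  suffices h : Minor N ((D.addEl n false v).restrict ((D.addEl n false v).Z.erase n)) by
    rw [hZ] at h
    have := (agree_addEl D hn false v).same
    rw [restrict_self] at this
    exact h.trans this.minor
  obtain ⟨z, hz, α, hα⟩ := (deg_iff hn).1 hd
  have mz : z ∈ (D.addEl n false v).Z := mem_insert_of_mem hz
  have sn : ∀ i ∈ D.Z, (D.addEl n false v).S i n =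
      if D.row i = false then 0 else α * cpy D z false i := fun i hi => by
    by_cases hr : D.row i = false
    · simp [addEl, a i hi, hr]
    · rw [if_neg hr, ← hα i hi hr]; simp [addEl, a i hi, hr]
  by_cases h0 : α = 0
  · obtain ⟨E, φ, ε, hr, he⟩ := hm
    obtain ⟨p1, p2⟩ := loop_reach hr (n := n) fun j hj => by
      rcases mem_insert.1 hj with rfl | hj
      · exact Disp.bip _ _ _ rfl
      · rw [Disp.skew, sn j hj, h0]; simp
    refine minor_del_col hr he (fun i hi e => ?_) rn (p1.trans rn)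
    obtain ⟨j, hj, hs⟩ := hN.exists_ne (by omega) hi
    have := he.ent i hi j hj
    rw [e, p2 _ (hr.Z_eq ▸ he.mem j hj)] at this
    exact mul_ne_zero (mul_ne_zero (he.ne hi) (he.ne hj)) hs this.symm
  refine minor_del_par hN h4 hm (u := z) ?_ rn
  cases hr : D.row z
  · refine (par_of_cols (a z hz).symm mn mz rn ((addEl_row_old D false v (a z hz)).trans hr) h0
      fun i hi => ?_).symm
    rcases mem_insert.1 hi with rfl | hi
    · rw [Disp.bip _ _ _ rfl, Disp.bip _ i z (by rw [rn, addEl_row_old D false v (a z hz), hr]),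
        mul_zero]
    · rw [sn i hi, addEl_S_old D false v (a i hi) (a z hz)]
      split_ifs with h
      · rw [D.bip i z (h.trans hr.symm), mul_zero]
      · simp [cpy, hr]
  · refine par_of_unit mz mn rn ?_ fun i hi hiz => ?_
    · rw [sn z hz]; simpa [cpy, hr] using h0
    · rcases mem_insert.1 hi with rfl | hi
      · exact Disp.bip _ _ _ rfl
      · rw [sn i hi]; simp [cpy, hr, hiz]

section two

variable {G : Disp F3} {U X Y : Finset ℕ} {v w x z z' : ℕ} {a b : F3}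

theorem two (hc : (G.restrict U).Conn3) (h4 : 4 ≤ U.card) {x y : ℕ} (hx : x ∈ U) (hy : y ∈ U)
    (hxy : x ≠ y) : ∃ j ∈ U, ∃ j' ∈ U, j ≠ x ∧ j ≠ y ∧ j' ≠ x ∧ j' ≠ y ∧
      G.S x j * G.S y j' ≠ G.S x j' * G.S y j := by
  have hsub : ({x, y} : Finset ℕ) ⊆ U := by
    intro i hi
    rcases mem_insert.1 hi with rfl | hi
    · exact hx
    · rw [mem_singleton.1 hi]; exact hy
  have hcard : ({x, y} : Finset ℕ).card = 2 := card_pair hxy
  have h2 := (hc {x, y} hsub).2 (by omega) (by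
    show 2 ≤ (U \ {x, y}).card
    rw [card_sdiff_of_subset hsub]; omega)
  by_contra hn
  push Not at hn
  have h1 : G.lam {x, y} (U \ {x, y}) ≤ 1 := by
    refine lam_le_one_of_det fun i hi i' hi' j hj j' hj' => ?_
    simp only [mem_sdiff, mem_insert, mem_singleton, not_or] at hi hi' hj hj'
    have e := hn j hj.1 j' hj'.1 hj.2.1 hj.2.2 hj'.2.1 hj'.2.2
    rcases hi with rfl | rfl <;> rcases hi' with rfl | rfl
    · ring
    · exact e
    · linear_combination -e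
    · ring
  exact absurd (h2.trans h1) (by norm_num)

theorem nbr (hc : (G.restrict U).Conn3) (h4 : 4 ≤ U.card) {x y : ℕ} (hx : x ∈ U) (hy : y ∈ U) :
    ∃ j ∈ U, j ≠ x ∧ j ≠ y ∧ G.S x j ≠ 0 := by
  have key : ∀ y ∈ U, x ≠ y → ∃ j ∈ U, j ≠ x ∧ j ≠ y ∧ G.S x j ≠ 0 := fun y hy hxy => by
    obtain ⟨j, hj, j', hj', a1, a2, a3, a4, e⟩ := two hc h4 hx hy hxy
    by_cases h : G.S x j = 0
    · exact ⟨j', hj', a3, a4, fun h' => e (by rw [h, h']; ring)⟩
    · exact ⟨j, hj, a1, a2, h⟩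
  by_cases hxy : x = y
  · obtain ⟨y', hy', hne⟩ := exists_mem_ne (show 1 < U.card by omega) x
    obtain ⟨j, hj, a1, _, e⟩ := key y' hy' hne.symm
    exact ⟨j, hj, a1, hxy ▸ a1, e⟩
  · exact key y hy hxy

theorem good (hc : (G.restrict U).Conn3) (h4 : 4 ≤ U.card) (h : At G U v z a) (hx : x ∈ U)
    (hY : ∀ j ∈ U, j ≠ x → j ∈ Y) : (∃ i ∈ Y, G.S v i ≠ 0) ∨ (z = x ∧ x ∉ Y) := by
  obtain ⟨_, _, hz, h1, ⟨ha, _⟩ | ⟨_, hs⟩⟩ := h
  · obtain ⟨j, hj, a1, a2, e⟩ := nbr hc h4 hz hx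
    exact Or.inl ⟨j, hY j hj a2, by rw [h1 j hj a1]; exact mul_ne_zero ha e⟩
  · by_cases hzY : z ∈ Y
    · exact Or.inl ⟨z, hzY, hs⟩
    · have : z = x := by
        by_contra e
        exact hzY (hY z hz e)
      exact Or.inr ⟨this, this ▸ hzY⟩

theorem caseB1 (hc : (G.restrict U).Conn3) (h4 : 4 ≤ U.card) (h : At G U v z a) (hx : x ∈ U)
    (hY : ∀ j ∈ U, j ≠ x → j ∈ Y) (hv : v ∈ X) (hxX : x ∈ X) (hne : z ≠ x)
    (hl : G.lam X Y ≤ 1) : False := by
  obtain ⟨_, _, hz, h1, ⟨ha, _⟩ | ⟨ha, hs⟩⟩ := h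
  · obtain ⟨j, hj, j', hj', a1, a2, a3, a4, e⟩ := two hc h4 hz hx hne
    have d := det_two_of_lam hl hv hxX (hY j hj a2) (hY j' hj' a4)
    rw [h1 j hj a1, h1 j' hj' a3] at d
    exact e (mul_left_cancel₀ ha (by linear_combination d))
  · obtain ⟨j, hj, a1, a2, e⟩ := nbr hc h4 hx hz
    have d := det_two_of_lam hl hv hxX (hY z hz hne) (hY j hj a1)
    rw [h1 j hj a2, ha, zero_mul, zero_mul] at d
    exact mul_ne_zero hs e d

theorem caseB (hc : (G.restrict U).Conn3) (h4 : 4 ≤ U.card) (h : At G U v z a)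
    (h' : At G U w z' b) (hzz : z ≠ z') (hs : G.S v w ≠ a * b * G.S z z') (hx : x ∈ U)
    (hY : ∀ j ∈ U, j ≠ x → j ∈ Y) (hv : v ∈ X) (hxX : x ∈ X) (hw : w ∈ Y)
    (hl : G.lam X Y ≤ 1) : False := by
  by_cases hne : z = x
  swap
  · exact caseB1 hc h4 h hx hY hv hxX hne hl
  subst hne
  obtain ⟨j, hj, a1, _, e⟩ := nbr hc h4 hx hx
  have d := det_two_of_lam hl hv hxX (hY j hj a1) hw
  rw [h.2.2.2.1 j hj a1, G.skew z w, h'.2.2.2.1 z hx hzz, G.skew z' z] at d
  exact hs (mul_right_cancel₀ e (by linear_combination -d))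

theorem small (hc : (G.restrict U).Conn3) (h4 : 4 ≤ U.card) (h : At G U v z a)
    (h' : At G U w z' b) (hzz : z ≠ z') (hs : G.S v w ≠ a * b * G.S z z')
    (hr : G.row v ≠ G.row w) (hXY : ∀ i, i ∈ X ∨ i ∈ Y ↔ i = w ∨ i = v ∨ i ∈ U)
    (hd : ∀ i ∈ X, i ∉ Y) (hx : x ∈ U) (hY : ∀ j ∈ U, j ≠ x → j ∈ Y) :
    (X.Nonempty → 1 ≤ G.lam X Y) ∧ (2 ≤ X.card → 2 ≤ G.lam X Y) := by
  have mX : ∀ i ∈ X, i = w ∨ i = v ∨ i = x := fun i hi => by
    rcases (hXY i).1 (Or.inl hi) with e | e | e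
    · exact Or.inl e
    · exact Or.inr (Or.inl e)
    · by_contra hn
      exact hd i hi (hY i e fun e' => hn (Or.inr (Or.inr e')))
  have xX : x ∉ Y → x ∈ X := fun e => ((hXY x).2 (Or.inr (Or.inr hx))).resolve_right e
  constructor
  · rintro ⟨i, hi⟩
    by_contra hn
    have h0 := lam_eq_zero_iff.1 (show G.lam X Y = 0 by omega)
    have nx : x ∉ X := fun e => by
      obtain ⟨j, hj, a1, _, e'⟩ := nbr hc h4 hx hx
      exact e' (h0 x e j (hY j hj a1))
    rcases mX i hi with rfl | rfl | rfl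
    · rcases good hc h4 h' hx hY with ⟨j, hj, e⟩ | ⟨_, e⟩
      · exact e (h0 _ hi j hj)
      · exact nx (xX e)
    · rcases good hc h4 h hx hY with ⟨j, hj, e⟩ | ⟨_, e⟩
      · exact e (h0 _ hi j hj)
      · exact nx (xX e)
    · exact nx hi
  · intro h2
    by_contra hn
    have hl : G.lam X Y ≤ 1 := by omega
    have hs' : G.S w v ≠ b * a * G.S z' z := fun e => hs (by
      rw [G.skew v w, e, G.skew z' z]; ring)
    have pr : ∀ p q, (∀ i ∈ X, i = p ∨ i = q) → q ∈ X := fun p q hpq => by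
      by_contra e
      have : X ⊆ {p} := fun i hi => mem_singleton.2 ((hpq i hi).resolve_right fun e' => e (e' ▸ hi))
      have := card_le_card this
      rw [card_singleton] at this
      omega
    by_cases hv : v ∈ X <;> by_cases hw : w ∈ X
    · rcases good hc h4 h hx hY with ⟨i, hi, e⟩ | ⟨e1, e2⟩
      · rcases good hc h4 h' hx hY with ⟨j, hj, e'⟩ | ⟨e1, e2⟩
        · have d := det_two_of_lam hl hv hw hi hj
          have r1 := row_ne_of_S e
          rw [G.bip w i (by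
            revert r1 hr; cases G.row v <;> cases G.row w <;> cases G.row i <;> simp), mul_zero] at d
          exact mul_ne_zero e e' d
        · exact caseB1 hc h4 h hx hY hv (xX e2) (e1 ▸ hzz) hl
      · exact caseB1 hc h4 h' hx hY hw (xX e2) (e1 ▸ hzz.symm) hl
    · exact caseB hc h4 h h' hzz hs hx hY hv (pr v x fun i hi =>
        (mX i hi).resolve_left fun e => hw (e ▸ hi)) (((hXY w).2 (Or.inl rfl)).resolve_left hw) hl
    · refine caseB hc h4 h' h hzz.symm hs' hx hY hw (pr w x fun i hi => ?_)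
        (((hXY v).2 (Or.inr (Or.inl rfl))).resolve_left hv) hl
      rcases mX i hi with e | e | e
      · exact Or.inl e
      · exact absurd (e ▸ hi) hv
      · exact Or.inr e
    · refine hv (pr x v fun i hi => ?_)
      rcases mX i hi with e | e | e
      · exact absurd (e ▸ hi) hw
      · exact Or.inr e
      · exact Or.inl e

theorem one_le (h4 : 4 ≤ U.card) {A : Finset ℕ} (hA : ¬ 2 ≤ A.card) :
    ∃ x ∈ U, ∀ j ∈ U, j ≠ x → j ∉ A := by
  by_cases h : ∃ x ∈ U, x ∈ A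
  · obtain ⟨x, hx, hxA⟩ := h
    exact ⟨x, hx, fun j _ hj e => hj (card_le_one.1 (by omega) j e x hxA)⟩
  · obtain ⟨x, hx⟩ := card_pos.1 (show 0 < U.card by omega)
    exact ⟨x, hx, fun j hj _ e => h ⟨j, hj, e⟩⟩

theorem conn3_two (hc : (G.restrict U).Conn3) (h4 : 4 ≤ U.card)
    (hZ : G.Z = insert w (insert v U)) (h : At G U v z a) (h' : At G U w z' b) (hzz : z ≠ z')
    (hs : G.S v w ≠ a * b * G.S z z') (hr : G.row v ≠ G.row w) : G.Conn3 := by
  intro X hX
  have mZ : ∀ i, i ∈ G.Z ↔ i = w ∨ i = v ∨ i ∈ U := fun i => by simp [hZ]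
  have hU : ∀ i ∈ U, i ∈ G.Z := fun i hi => (mZ i).2 (Or.inr (Or.inr hi))
  have hXY : ∀ i, i ∈ X ∨ i ∈ G.Z \ X ↔ i = w ∨ i = v ∨ i ∈ U := fun i => by
    rw [← mZ, mem_sdiff]
    exact ⟨fun e => e.elim (fun e => hX e) (fun e => e.1), fun e => (em _).imp id fun e' => ⟨e, e'⟩⟩
  by_cases hA : 2 ≤ (X ∩ U).card
  · by_cases hB : 2 ≤ (U \ (X ∩ U)).card
    · have h2 : 2 ≤ G.lam X (G.Z \ X) := ((hc (X ∩ U) inter_subset_right).2 hA hB).trans
        (lam_mono G inter_subset_left fun i hi => by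
          obtain ⟨i1, i2⟩ := mem_sdiff.1 hi
          exact mem_sdiff.2 ⟨hU i i1, fun e => i2 (mem_inter.2 ⟨e, i1⟩)⟩)
      exact ⟨fun _ _ => by omega, fun _ _ => h2⟩
    · obtain ⟨x, hx, hx'⟩ := one_le h4 hB
      have := small (X := G.Z \ X) (Y := X) hc h4 h h' hzz hs hr
        (fun i => by rw [or_comm]; exact hXY i) (fun i hi => (mem_sdiff.1 hi).2) hx
        (fun j hj e => by
          by_contra e'
          exact hx' j hj e (mem_sdiff.2 ⟨hj, fun e2 => e' (mem_inter.1 e2).1⟩))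
      rw [lam_symm] at this
      exact ⟨fun _ e => this.1 e, fun _ e => this.2 e⟩
  · obtain ⟨x, hx, hx'⟩ := one_le h4 hA
    have := small (X := X) (Y := G.Z \ X) hc h4 h h' hzz hs hr hXY
      (fun i hi e => (mem_sdiff.1 e).2 hi) hx
      (fun j hj e => mem_sdiff.2 ⟨hU j hj, fun e' => hx' j hj e (mem_inter.2 ⟨e', hj⟩)⟩)
    exact ⟨fun e _ => this.1 e, fun e _ => this.2 e⟩

end two

section ext

variable {L : Disp F3} {n n' z z' : ℕ} {c : F3}

theorem at1 (hn : n ∉ L.Z) (hn' : n' ∉ L.Z) (hnn : n ≠ n') (hz : z ∈ L.Z) :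
    At (ext2 L n n' z z' c) L.Z n z (if L.row z = false then 1 else 0) := by
  have a : ∀ i ∈ L.Z, i ≠ n := fun i hi e => hn (e ▸ hi)
  have a' : ∀ i ∈ L.Z, i ≠ n' := fun i hi e => hn' (e ▸ hi)
  refine ⟨by simp [clos_Z], hn, hz, fun j hj hjz => ?_, ?_⟩
  · rw [Disp.skew, clos_S_n hnn (a j hj) (a' j hj), clos_S (a z hz) (a' z hz) (a j hj) (a' j hj),
      L.skew z j]
    cases h1 : L.row z <;> cases h2 : L.row j <;> simp [cpy, h1, hjz]
    exact L.bip j z (h2.trans h1.symm)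
  · rw [clos_row_n hnn, clos_row (a z hz) (a' z hz), Disp.skew, clos_S_n hnn (a z hz) (a' z hz)]
    cases h1 : L.row z <;> simp [cpy, h1]

theorem at2 (hn : n ∉ L.Z) (hn' : n' ∉ L.Z) (hz' : z' ∈ L.Z) :
    At (ext2 L n n' z z' c) L.Z n' z' (if L.row z' = true then 1 else 0) := by
  have a : ∀ i ∈ L.Z, i ≠ n := fun i hi e => hn (e ▸ hi)
  have a' : ∀ i ∈ L.Z, i ≠ n' := fun i hi e => hn' (e ▸ hi)
  refine ⟨by simp [clos_Z], hn', hz', fun j hj hjz => ?_, ?_⟩
  · rw [Disp.skew, clos_S_n' (a j hj) (a' j hj), clos_S (a z' hz') (a' z' hz') (a j hj) (a' j hj),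
      L.skew z' j]
    cases h1 : L.row z' <;> cases h2 : L.row j <;> simp [cpy, h1, hjz]
    exact L.bip j z' (h2.trans h1.symm)
  · rw [clos_row_n', clos_row (a z' hz') (a' z' hz'), Disp.skew, clos_S_n' (a z' hz') (a' z' hz')]
    cases h1 : L.row z' <;> simp [cpy, h1]

theorem emb_ext (hn : n ∉ L.Z) (hn' : n' ∉ L.Z) : Emb L (ext2 L n n' z z' c) id (fun _ => 1) := by
  have a : ∀ i ∈ L.Z, i ≠ n := fun i hi e => hn (e ▸ hi)
  have a' : ∀ i ∈ L.Z, i ≠ n' := fun i hi e => hn' (e ▸ hi)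
  exact emb_of_agree (fun i hi => by simp [clos_Z, hi]) ⟨fun i hi => clos_row (a i hi) (a' i hi),
    fun i hi j hj => clos_S (a i hi) (a' i hi) (a j hj) (a' j hj)⟩

end ext

theorem conn3_img {G E : Disp F3} {φ : ℕ → ℕ} {ε : ℕ → F3} (he : Emb G E φ ε) (h : G.Conn3) :
    (E.restrict (G.Z.image φ)).Conn3 :=
  (Conn3.emb (he.restrict_right fun _ hi => mem_image_of_mem φ hi) card_image_le).1 h

theorem deg_img {G E : Disp F3} {φ : ℕ → ℕ} {ε : ℕ → F3} (he : Emb G E φ ε) {U : Finset ℕ}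
    (hU : U ⊆ G.Z) {v z : ℕ} {a : F3} (h : At G U v z a) :
    φ v ∉ U.image φ ∧ E.Deg (U.image φ) (φ v) := by
  obtain ⟨hv, hvU, hz, h1, _⟩ := h
  refine ⟨fun e => ?_, φ z, mem_image_of_mem φ hz, ε v * a * ε z, fun j hj hjz => ?_⟩
  · obtain ⟨i, hi, e⟩ := mem_image.1 e
    exact hvU (he.inj (hU hi) hv e ▸ hi)
  · obtain ⟨i, hi, rfl⟩ := mem_image.1 hj
    rw [he.ent v hv i (hU hi), he.ent z (hU hz) i (hU hi), h1 i hi fun e => hjz (by rw [e])]
    linear_combination -(ε v * a * ε i * G.S z i) * he.sq z (hU hz)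

end SBNAux

open SBNAux

namespace Disp

theorem NL_conn3 : ∀ N ∈ NL, N.Conn3 ∧ 4 ≤ N.Z.card := by
  intro N hN
  simp only [NL, List.mem_cons, List.not_mem_nil, or_false] at hN
  rcases hN with rfl | rfl | rfl
  · exact ⟨c1, by decide +kernel⟩
  · exact ⟨c2, by decide +kernel⟩
  · exact ⟨c3, by decide +kernel⟩

theorem NL_flip : ∀ N ∈ NL, Has NL N.flip := by
  intro N hN
  simp only [NL, List.mem_cons, List.not_mem_nil, or_false] at hN
  rcases hN with rfl | rfl | rfl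
  · exact ⟨_, by simp [NL], f1.minor⟩
  · exact ⟨_, by simp [NL], f2.minor⟩
  · exact ⟨_, by simp [NL], f3.minor⟩

theorem Free.flip_NL {D : Disp F3} (h : Free NL D) : Free NL D.flip := by
  intro N hN hm
  obtain ⟨N', hN', hm'⟩ := NL_flip N hN
  have := hm.flip
  rw [flip_flip] at this
  exact h N' hN' (hm'.trans this)

/-- adding a column parallel to an element, or a zero column, creates no member of `NL`. -/
theorem Free.addEl_deg {D : Disp F3} (h : Free NL D) {n : ℕ} (hn : n ∉ D.Z) {r : Bool}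
    {v : ℕ → F3} (hd : Deg (D.addEl n r v) D.Z n) : Free NL (D.addEl n r v) := by
  have key : ∀ D : Disp F3, Free NL D → n ∉ D.Z → Deg (D.addEl n false v) D.Z n →
      Free NL (D.addEl n false v) := fun D h hn hd N hN hm =>
    h N hN (minor_col (NL_conn3 N hN).1 (NL_conn3 N hN).2 hn hd hm)
  cases r
  · exact key D h hn hd
  · have e : D.flip.addEl n false v = (D.addEl n true v).flip := (flip_addEl D n true v).symm
    have := (key D.flip h.flip_NL hn (by rw [e]; exact hd)).flip_NL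
    rwa [e, flip_flip] at this

theorem Conn3.ext2 {L : Disp F3} (h : L.Conn3) (h4 : 4 ≤ L.Z.card) {n n' z z' : ℕ} {c : F3}
    (hn : n ∉ L.Z) (hn' : n' ∉ L.Z) (hnn : n ≠ n') (hz : z ∈ L.Z) (hz' : z' ∈ L.Z) (hzz : z ≠ z')
    (hc : c ≠ cons L z z') : (ext2 L n n' z z' c).Conn3 := by
  have he := emb_ext (z := z) (z' := z') (c := c) hn hn'
  refine conn3_two (U := L.Z) (by simpa using conn3_img he h) h4 clos_Z (at1 hn hn' hnn hz)
    (at2 hn hn' hz') hzz ?_ (by rw [clos_row_n hnn, clos_row_n']; simp)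
  have e := he.ent z hz z' hz'
  simp only [id, one_mul] at e
  rw [clos_S_nn hnn, e]
  refine fun e' => hc (e'.trans ?_)
  unfold cons
  cases L.row z <;> cases L.row z' <;> simp

/-- `chain` read inside the large display: a 3-connected part grows by one element, or by a
column `n` and a row `n'` which are both degenerate. -/
theorem chain' {D : Disp F3} {U : Finset ℕ} (hD : D.Conn3) (hU : U ⊆ D.Z) (hne : U ≠ D.Z)
    (hc : (D.restrict U).Conn3) (h4 : 4 ≤ U.card) :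
    ∃ (E : Disp F3) (φ : ℕ → ℕ) (ε : ℕ → F3), D.Reach E ∧ Emb (D.restrict U) E φ ε ∧
      ((∃ n ∈ E.Z, n ∉ U.image φ ∧ (E.restrict (insert n (U.image φ))).Conn3) ∨
        ∃ n ∈ E.Z, ∃ n' ∈ E.Z, n ∉ U.image φ ∧ n' ∉ U.image φ ∧ E.row n = false ∧
          E.row n' = true ∧ E.Deg (U.image φ) n ∧ E.Deg (U.image φ) n' ∧
          (E.restrict (insert n' (insert n (U.image φ)))).Conn3) := by
  obtain ⟨n, hn⟩ := Infinite.exists_notMem_finset U
  obtain ⟨n', hn'⟩ := Infinite.exists_notMem_finset (insert n U)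
  have hnn : n ≠ n' := fun e => hn' (e ▸ mem_insert_self _ _)
  replace hn' : n' ∉ U := fun e => hn' (mem_insert_of_mem e)
  rcases chain (L := D.restrict U) hc h4 hD (minor_restrict hU)
    (card_lt_card (Finset.ssubset_iff_subset_ne.2 ⟨hU, hne⟩)) hn hn' hnn with
    ⟨r, v, hd, E, φ, ε, hr, he⟩ | ⟨z, hz, z', hz', hzz, c, hcc, E, φ, ε, hr, he⟩
  · have h0 : Emb (D.restrict U) ((D.restrict U).addEl n r v) id (fun _ => 1) :=
      emb_of_agree (subset_insert _ _) (agree_addEl _ hn r v)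
    refine ⟨E, φ, _, hr, h0.comp he, Or.inl ⟨φ n, he.mem n (mem_insert_self _ _), fun e => ?_, ?_⟩⟩
    · obtain ⟨i, hi, e⟩ := mem_image.1 e
      exact hn (he.inj (mem_insert_of_mem hi) (mem_insert_self _ _) e ▸ hi)
    · rw [← image_insert]
      exact conn3_img he (Conn3.addEl hc h4 hn hd)
  · have h0 := emb_ext (L := D.restrict U) (z := z) (z' := z') (c := c) hn hn'
    have a1 := at1 (L := D.restrict U) (z' := z') (c := c) hn hn' hnn hz
    have a2 := at2 (L := D.restrict U) (z := z) (c := c) hn hn' hz'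
    have d1 := deg_img he h0.mem a1
    have d2 := deg_img he h0.mem a2
    refine ⟨E, φ, _, hr, h0.comp he, Or.inr ⟨φ n, he.mem n a1.1, φ n', he.mem n' a2.1, d1.1, d2.1,
      (he.row n a1.1).trans (clos_row_n hnn), (he.row n' a2.1).trans clos_row_n', d1.2, d2.2, ?_⟩⟩
    rw [← image_insert, ← image_insert]
    exact conn3_img he (Conn3.ext2 hc h4 hn hn' hnn hz hz' hzz hcc)

end Disp

end Pool.Agent.Lib.MP_c69b6d_co.F
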