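import Pool.Agent.Lib.MP_c69b6d_co.F.SB1
import Pool.Agent.Lib.MP_c69b6d_co.F.Chain
import Pool.Agent.Lib.MP_c69b6d_co.F.SBNa

/-! Stage B: finite facts on `NL`, and 3-connectivity of `ext2`.  All statements
(`NL_conn3`, `NL_flip`, `Free.flip_NL`, `Free.addEl_deg`, `Conn3.ext2`, `chain'`) are proved in
the file `SBNa`. -/
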