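import Pool.Agent.Lib.MP_c69b6d_co.F.Api3

/-! The Hermitian determinant formula for displays with entries of modulus zero or one. -/

namespace Pool.Agent.Lib.MP_c69b6d_co.F

open Finset Disp
open scoped ComplexConjugate

namespace SBR

section Mat

variable {ι : Type} [Fintype ι] [DecidableEq ι]

theorem det_congr_row {M N : Matrix ι ι ℂ} (a : ι → ℂ) (x : ι)
    (h : ∀ k l, N k l =
      M k l + a k * M x l + conj (a l) * M k x + a k * conj (a l) * M x x) :
    N.det = (1 + a x) * conj (1 + a x) * M.det := by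
  let T : Matrix ι ι ℂ :=
    1 + Matrix.replicateCol Unit a * Matrix.replicateRow Unit (Pi.single x (1 : ℂ))
  have hT : T.det = 1 + a x := by
    rw [Matrix.det_one_add_replicateCol_mul_replicateRow]; simp
  have hTe : ∀ k l, T k l = (if k = l then 1 else 0) + a k * (if l = x then 1 else 0) := by
    intro k l
    simp [T, Matrix.mul_apply, Matrix.one_apply, Pi.single_apply]
  have hTc : ∀ k l, T.conjTranspose k l =
      (if l = k then 1 else 0) + conj (a l) * (if k = x then 1 else 0) := by
    intro k l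
    rw [Matrix.conjTranspose_apply, hTe]
    split_ifs <;> simp
  have h1 : ∀ k l, (T * M) k l = M k l + a k * M x l := by
    intro k l
    simp [Matrix.mul_apply, hTe, add_mul, sum_add_distrib]
  have : N = T * M * T.conjTranspose := by
    ext k l
    rw [Matrix.mul_apply]
    simp only [hTc, h1, mul_add, sum_add_distrib, mul_ite, mul_one,
      mul_zero, sum_ite_eq, sum_ite_eq', mem_univ, if_true, h]
    ring
  rw [this, Matrix.det_mul, Matrix.det_mul, Matrix.det_conjTranspose, hT, Complex.star_def]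
  ring

/-- the bilinear form of the inverse matrix. -/
noncomputable def bf (H : Matrix ι ι ℂ) (u v : ι → ℂ) : ℂ :=
  ∑ l, (∑ k, conj (u k) * H⁻¹ k l) * v l

theorem det_two {H N : Matrix ι ι ℂ} (hH : H.det ≠ 0) (u v : ι → ℂ) (a d : ℂ)
    (h : ∀ k l, N k l = H k l + a * (u k * conj (u l)) + d * (v k * conj (v l))) :
    N.det = H.det * ((1 + a * bf H u u) * (1 + d * bf H v v) - a * d * (bf H u v * bf H v u)) := by
  let U : Matrix ι (Fin 2) ℂ := Matrix.of fun k i => ![u k, v k] i
  let V : Matrix (Fin 2) ι ℂ := Matrix.of fun i l => ![a * conj (u l), d * conj (v l)] i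
  have e : N = H + U * V := by
    ext k l
    simp [U, V, Matrix.mul_apply, Fin.sum_univ_two, h]
    ring
  have key : ∀ (p : ℂ) (z w : ι → ℂ),
      ∑ l, (∑ k, p * conj (z k) * H⁻¹ k l) * w l = p * bf H z w := by
    intro p z w
    simp only [bf, mul_sum, sum_mul]
    refine sum_congr rfl fun l _ => sum_congr rfl fun k _ => by ring
  rw [e, Matrix.det_add_mul U V (Ne.isUnit hH), Matrix.det_fin_two]
  simp only [Matrix.add_apply, Matrix.mul_apply, U, V, Matrix.of_apply, Matrix.cons_val_zero,
    Matrix.cons_val_one, Matrix.one_apply_eq, key]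
  rw [Matrix.one_apply_ne (by decide), Matrix.one_apply_ne (by decide)]
  ring

theorem bf_conj {H : Matrix ι ι ℂ} (hH : H.conjTranspose = H) (u v : ι → ℂ) :
    bf H v u = conj (bf H u v) := by
  have h1 : ∀ k l, H⁻¹ k l = conj (H⁻¹ l k) := by
    intro k l
    have := Matrix.conjTranspose_nonsing_inv H
    rw [hH] at this
    exact (congrFun (congrFun this k) l).symm
  simp only [bf, sum_mul, map_sum, map_mul, Complex.conj_conj]
  rw [sum_comm]
  refine sum_congr rfl fun l _ => sum_congr rfl fun k _ => ?_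
  rw [h1 l k]; ring

theorem herm_ineq {H N1 N2 N3 : Matrix ι ι ℂ} (hH : H.conjTranspose = H) (u v : ι → ℂ)
    {σ σ' : ℝ} (hσ : 0 ≤ σ) (hσ' : 0 ≤ σ')
    (h1 : ∀ k l, N1 k l = H k l + σ * (u k * conj (u l)))
    (h2 : ∀ k l, N2 k l = H k l + σ' * (v k * conj (v l)))
    (h3 : ∀ k l, N3 k l = H k l + σ * (u k * conj (u l)) + σ' * (v k * conj (v l)))
    {d0 d1 d2 d3 : ℝ} (e0 : H.det = d0) (e1 : N1.det = d1) (e2 : N2.det = d2) (e3 : N3.det = d3)
    (hd : d0 ≠ 0) : d0 * d3 ≤ d1 * d2 := by
  have hH0 : H.det ≠ 0 := by rw [e0]; exact_mod_cast hd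
  have k1 := det_two (N := N1) hH0 u v σ 0 (fun k l => by rw [h1]; ring)
  have k2 := det_two (N := N2) hH0 u v 0 σ' (fun k l => by rw [h2]; ring)
  have k3 := det_two (N := N3) hH0 u v σ σ' h3
  rw [bf_conj hH u v] at k3
  rw [e0] at k1 k2 k3
  rw [e1] at k1
  rw [e2] at k2
  rw [e3] at k3
  set c := bf H u v
  have k4 : ((d1 * d2 - d0 * d3 : ℝ) : ℂ) = ((d0 ^ 2 * σ * σ' * Complex.normSq c : ℝ) : ℂ) := by
    push_cast
    rw [k1, k2, k3, ← Complex.mul_conj]
    ring
  have k5 : d1 * d2 - d0 * d3 = d0 ^ 2 * σ * σ' * Complex.normSq c := by exact_mod_cast k4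
  have k6 : 0 ≤ d0 ^ 2 * σ * σ' * Complex.normSq c :=
    mul_nonneg (by positivity) (Complex.normSq_nonneg c)
  linarith

end Mat

/-- the row words of a complex display (zero off the rows). -/
noncomputable def cw (G : Disp ℂ) (k : ℕ) : ℕ → ℂ :=
  fun m => if k ∈ G.B then (if m = k then 1 else if m ∈ G.Z then G.S k m else 0) else 0

theorem cw_mem (G : Disp ℂ) (k : ℕ) : cw G k ∈ G.code := by
  by_cases h : k ∈ G.B
  · have := row_word (mem_B.1 h).1 (mem_B.1 h).2
    have e : cw G k = fun j => if j = k then 1 else if j ∈ G.Z then G.S k j else 0 := by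
      funext m; simp [cw, h]
    rw [e]; exact this
  · have e : cw G k = 0 := by
      funext m; simp [cw, h]
    rw [e]; exact G.code.zero_mem

theorem cw_row {G : Disp ℂ} {k m : ℕ} (hm : m ∈ G.B) : cw G k m = if m = k then 1 else 0 := by
  unfold cw
  by_cases e : m = k
  · subst e; simp [hm]
  · by_cases hk : k ∈ G.B
    · simp [e, hk, G.bip k m ((mem_B.1 hk).2.trans (mem_B.1 hm).2.symm)]
    · simp [e, hk]

theorem cw_of_not {G : Disp ℂ} {k : ℕ} (hk : k ∉ G.B) (m : ℕ) : cw G k m = 0 := by
  simp [cw, hk]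

theorem cw_col {G : Disp ℂ} {k m : ℕ} (hk : k ∈ G.B) (hm : m ∈ G.Z) (hr : G.row m = false) :
    cw G k m = G.S k m := by
  have : m ≠ k := by
    rintro rfl
    rw [(mem_B.1 hk).2] at hr
    exact absurd hr (by decide)
  simp [cw, hk, hm, this]

/-- the weighted Gram matrix of the row words, padded by the identity. -/
noncomputable def Gm (G : Disp ℂ) (U : Finset ℕ) (y : ℕ → ℝ) : Matrix U U ℂ :=
  Matrix.of fun k l => (if k = l ∧ (k : ℕ) ∉ G.B then 1 else 0) +
    ∑ m ∈ G.Z, (y m : ℂ) * (cw G k m * conj (cw G l m))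

theorem Gm_apply (G : Disp ℂ) (U : Finset ℕ) (y : ℕ → ℝ) (k l : U) :
    Gm G U y k l = (if k = l ∧ (k : ℕ) ∉ G.B then 1 else 0) +
      ∑ m ∈ G.Z, (y m : ℂ) * (cw G k m * conj (cw G l m)) := rfl

theorem det_Gm_pivot {G : Disp ℂ} {U : Finset ℕ} (hU : G.Z ⊆ U) {x y0 : ℕ} (hx : x ∈ G.Z)
    (hy : y0 ∈ G.Z) (rx : G.row x = true) (h : G.S x y0 ≠ 0) (y : ℕ → ℝ) :
    (Gm (G.pivot x y0) U y).det = (1 / G.S x y0) * conj (1 / G.S x y0) * (Gm G U y).det := by
  have ry : G.row y0 = false := by
    have := row_ne_of_S h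
    rw [rx] at this
    simpa using this.symm
  have hxy := ne_of_S h
  have hxB : x ∈ G.B := mem_B.2 ⟨hx, rx⟩
  have hyB : y0 ∉ G.B := fun e => by simp [(mem_B.1 e).2] at ry
  have hB : ∀ m, m ∈ (G.pivot x y0).B ↔ m = y0 ∨ (m ∈ G.B ∧ m ≠ x) := by
    intro m
    rw [mem_B, mem_B, pivot_Z, pivot_row h]
    by_cases e1 : m = x
    · subst e1; simp [rx, hxy]
    · by_cases e2 : m = y0
      · subst e2; simp [ry, hy]
      · simp [e1, e2]
  have hc : (G.pivot x y0).code = G.code := Reach.code_eq (D := G) (ReachIn.single hx hy)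
  let a : ℕ → ℂ := fun k => if k = x then 1 / G.S x y0 - 1 else
    if k ∈ G.B then - (G.S k y0 / G.S x y0) else 0
  let s : ℕ → ℕ := fun k => if k = x then y0 else if k = y0 then x else k
  have hs : ∀ k, s k ∈ (G.pivot x y0).B ↔ k ∈ G.B := by
    intro k
    rw [hB]
    by_cases e1 : k = x
    · subst e1; simp [s, hxB]
    · by_cases e2 : k = y0
      · subst e2; simp [s, e1, hyB, hxy]
      · simp [s, e1, e2]
  have hw : ∀ k, cw (G.pivot x y0) (s k) = cw G k + a k • cw G x := by
    intro k
    rw [← sub_eq_zero]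
    apply code_zero (D := G.pivot x y0)
    · refine Submodule.sub_mem _ (cw_mem _ _) ?_
      rw [hc]
      exact Submodule.add_mem _ (cw_mem _ _) (Submodule.smul_mem _ _ (cw_mem _ _))
    · intro m hm
      simp only [Pi.sub_apply, Pi.add_apply, Pi.smul_apply, smul_eq_mul]
      rw [cw_row hm]
      rcases (hB m).1 hm with rfl | ⟨h1, h2⟩
      · rw [cw_col hxB hy ry]
        by_cases e1 : k = x
        · subst e1
          rw [cw_col hxB hy ry]
          simp only [s, a, if_true]
          field_simp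
          ring
        · by_cases e3 : k ∈ G.B
          · have e2 : k ≠ m := fun e => hyB (e ▸ e3)
            rw [cw_col e3 hy ry]
            simp only [s, a, e1, e2, e3, e2.symm, if_true, if_false]
            field_simp
            ring
          · rw [cw_of_not e3]
            by_cases e2 : k = m
            · subst e2; simp [s, a, e1, e3]
            · simp [s, a, e1, e2, e3, Ne.symm e2]
      · rw [cw_row h1, cw_row h1]
        have h3 : m ≠ y0 := fun e => hyB (e ▸ h1)
        by_cases e1 : k = x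
        · subst e1; simp [s, h2, h3]
        · by_cases e2 : k = y0
          · subst e2; simp [s, e1, h2, h3]
          · simp [s, e1, e2, h2]
  let x' : U := ⟨x, hU hx⟩
  let y' : U := ⟨y0, hU hy⟩
  have hσ : ∀ k : U, ((Equiv.swap x' y' k : U) : ℕ) = s k := by
    intro k
    rw [Equiv.swap_apply_def]
    simp only [s, Subtype.ext_iff, x', y']
    split_ifs <;> rfl
  rw [← Matrix.det_submatrix_equiv_self (Equiv.swap x' y'),
    det_congr_row (M := Gm G U y) (fun k : U => a k) x']
  · simp [a, x']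
  · intro k l
    simp only [Matrix.submatrix_apply, Gm_apply, hσ, hw, hs, Equiv.apply_eq_iff_eq]
    have e1 : ¬ (x' = l ∧ (x' : ℕ) ∉ G.B) := fun e => e.2 hxB
    have e2 : ¬ (k = x' ∧ (k : ℕ) ∉ G.B) := fun e => e.2 (e.1 ▸ hxB)
    have e3 : ¬ (True ∧ (x' : ℕ) ∉ G.B) := fun e => e.2 hxB
    simp only [e1, e2, e3, if_false, zero_add, pivot_Z, mul_sum, Pi.add_apply, Pi.smul_apply,
      smul_eq_mul, add_assoc, ← sum_add_distrib]
    congr 1
    refine sum_congr rfl fun m _ => ?_
    simp only [x', map_add, map_mul]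
    ring

theorem Gm_col {G : Disp ℂ} (U : Finset ℕ) {n : ℕ} (hn : n ∈ G.Z) (rn : G.row n = false)
    {y y' : ℕ → ℝ} (h : ∀ m, m ≠ n → y' m = y m) (h0 : y n = 0 ∨ ∀ k ∈ G.Z, G.S k n = 0) :
    Gm G U y = Gm (G.restrict (G.Z.erase n)) U y' := by
  have hB : (G.restrict (G.Z.erase n)).B = G.B := by
    ext m
    rw [mem_B, mem_B]
    change m ∈ G.Z.erase n ∧ G.row m = true ↔ _
    rw [mem_erase]
    constructor
    · exact fun h => ⟨h.1.2, h.2⟩
    · refine fun h' => ⟨⟨?_, h'.1⟩, h'.2⟩
      intro e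
      rw [← e, h'.2] at rn
      exact absurd rn (by decide)
  have hw : ∀ k, ∀ m ∈ G.Z.erase n, cw (G.restrict (G.Z.erase n)) k m = cw G k m := by
    intro k m hm
    unfold cw
    rw [hB]
    change (if k ∈ G.B then (if m = k then 1 else if m ∈ G.Z.erase n then G.S k m else 0)
      else 0) = _
    simp only [hm, (mem_erase.1 hm).2, if_true]
  ext k l
  rw [Gm_apply, Gm_apply, hB, ← add_sum_erase _ _ hn]
  have e0 : (y n : ℂ) * (cw G k n * conj (cw G l n)) = 0 := by
    rcases h0 with h0 | h0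
    · simp [h0]
    · by_cases hk : (k : ℕ) ∈ G.B
      · rw [cw_col hk hn rn, h0 k (mem_B.1 hk).1]; simp
      · rw [cw_of_not hk]; simp
  rw [e0, zero_add]
  congr 1
  refine sum_congr rfl fun m hm => ?_
  rw [hw k m hm, hw l m hm, h m (mem_erase.1 hm).1]

theorem det_Gm_row {G : Disp ℂ} {U : Finset ℕ} (hU : G.Z ⊆ U) {n : ℕ} (hn : n ∈ G.Z)
    (rn : G.row n = true) (y : ℕ → ℝ) :
    (Gm G U y).det = (Gm G U (Function.update y n 0)).det +
      (y n : ℂ) * (Gm (G.restrict (G.Z.erase n)) U y).det := by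
  have hnB : n ∈ G.B := mem_B.2 ⟨hn, rn⟩
  let n' : U := ⟨n, hU hn⟩
  set A := Gm G U (Function.update y n 0) with hA
  have hAe : ∀ k l : U, A k l = (if k = l ∧ (k : ℕ) ∉ G.B then 1 else 0) +
      ∑ m ∈ G.Z.erase n, (y m : ℂ) * (cw G k m * conj (cw G l m)) := by
    intro k l
    rw [hA, Gm_apply, ← add_sum_erase _ _ hn]
    simp only [Function.update_self, Complex.ofReal_zero, zero_mul, zero_add]
    congr 1
    refine sum_congr rfl fun m hm => ?_
    rw [Function.update_of_ne (mem_erase.1 hm).1]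
  have hd : ∀ k : U, ((n : ℕ) = k) ↔ k = n' := by
    intro k
    simp only [n', Subtype.ext_iff]
    exact eq_comm
  have e1 : Gm G U y = A.updateRow n' (A n' + (y n : ℂ) • Pi.single n' 1) := by
    ext k l
    rw [Gm_apply, ← add_sum_erase _ _ hn, cw_row hnB, cw_row hnB, Matrix.updateRow_apply]
    simp only [hd]
    by_cases e : k = n'
    · subst e
      simp only [if_true, Pi.add_apply, Pi.smul_apply, smul_eq_mul, hAe, Pi.single_apply,
        apply_ite conj, map_one, map_zero]
      ring
    · simp only [e, if_false, hAe]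
      ring
  have hB : ∀ m, m ∈ (G.restrict (G.Z.erase n)).B ↔ m ∈ G.B ∧ m ≠ n := by
    intro m
    rw [mem_B, mem_B]
    change m ∈ G.Z.erase n ∧ G.row m = true ↔ _
    rw [mem_erase]
    tauto
  have hw : ∀ k, k ≠ n → ∀ m ∈ G.Z.erase n, cw (G.restrict (G.Z.erase n)) k m = cw G k m := by
    intro k hk m hm
    unfold cw
    simp only [hB, hk, ne_eq, not_false_eq_true, and_true]
    change (if k ∈ G.B then (if m = k then 1 else if m ∈ G.Z.erase n then G.S k m else 0)
      else 0) = _
    simp only [hm, (mem_erase.1 hm).2, if_true]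
  have hw0 : ∀ m, cw (G.restrict (G.Z.erase n)) n m = 0 :=
    cw_of_not (fun e => ((hB n).1 e).2 rfl)
  set A' := Gm (G.restrict (G.Z.erase n)) U y with hA'
  have hn1 : ∀ l, A' n' l = if l = n' then 1 else 0 := by
    intro l
    rw [hA', Gm_apply]
    simp only [n', hw0, zero_mul, mul_zero, sum_const_zero, add_zero, hB]
    by_cases e : l = n'
    · subst e; simp [n']
    · have : ¬ (n' = l) := fun e' => e e'.symm
      simp only [n'] at this e
      simp [this, e]
  have e2 : (A.updateRow n' (Pi.single n' 1)).det = A'.det := by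
    apply Matrix.det_eq_of_forall_row_eq_smul_add_const
      (fun k => if k = n' then 0 else A k n') n' (by simp)
    intro k l
    rw [Matrix.updateRow_apply, hn1 l]
    by_cases e : k = n'
    · subst e
      simp [hn1, Pi.single_apply]
    · have hk : (k : ℕ) ≠ n := fun e' => e (Subtype.ext e')
      simp only [e, if_false]
      by_cases e' : l = n'
      · subst e'
        rw [hA', Gm_apply]
        simp [n', hw0, e]
      · have hl : (l : ℕ) ≠ n := fun e'' => e' (Subtype.ext e'')
        rw [hA', Gm_apply, hAe]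
        simp only [e', if_false, mul_zero, add_zero, hB, hk, ne_eq, not_false_eq_true, and_true]
        congr 1
        refine sum_congr rfl fun m hm => ?_
        rw [hw k hk m hm, hw l hl m hm]
  rw [e1, Matrix.det_updateRow_add, Matrix.det_updateRow_smul, Matrix.updateRow_eq_self, e2]

/-- all entries of all reached displays have modulus `0` or `1`. -/
def Un (G : Disp ℂ) : Prop :=
  ∀ E, G.Reach E → ∀ i ∈ G.Z, ∀ j ∈ G.Z, E.S i j = 0 ∨ ‖E.S i j‖ = 1

theorem Un.pivot {G : Disp ℂ} (h : Un G) {x y : ℕ} (hx : x ∈ G.Z) (hy : y ∈ G.Z) :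
    Un (G.pivot x y) := by
  intro E hE i hi j hj
  rw [pivot_Z] at hi hj
  exact h E (Reach.trans (ReachIn.single hx hy) hE) i hi j hj

theorem Un.restrict {G : Disp ℂ} (h : Un G) {V : Finset ℕ} (hV : V ⊆ G.Z) :
    Un (G.restrict V) := by
  intro E hE i hi j hj
  obtain ⟨E', h1, rfl⟩ := ReachIn.lift hE
  exact h E' (h1.reach hV) i (hV hi) j (hV hj)

theorem Un.unit {G : Disp ℂ} (h : Un G) {x y : ℕ} (hx : x ∈ G.Z) (hy : y ∈ G.Z)
    (h0 : G.S x y ≠ 0) : (1 / G.S x y) * conj (1 / G.S x y) = 1 := by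
  have h1 := (h G (Reach.refl G) x hx y hy).resolve_left h0
  rw [Complex.mul_conj, Complex.normSq_eq_norm_sq, norm_div, h1]
  simp

/-- the determinant formula for the generating polynomial. -/
theorem W_eq_det {U : Finset ℕ} {R : Disp ℂ} (hU : R.Z ⊆ U) (reg : Un R) (y : ℕ → ℝ) :
    (Gm R U y).det = (R.W y : ℂ) := by
  induction' hN : R.Z.card with N ih generalizing R y
  · have h0 : R.Z = ∅ := card_eq_zero.1 hN
    rw [W_empty h0]
    have : Gm R U y = 1 := by
      ext k l
      rw [Gm_apply, Matrix.one_apply]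
      simp [Disp.B, h0]
    rw [this, Matrix.det_one]
    simp
  · obtain ⟨n, hn⟩ : R.Z.Nonempty := card_pos.1 (by omega)
    have res : ∀ R' : Disp ℂ, R'.Z = R.Z → Un R' → ∀ y,
        (Gm (R'.restrict (R'.Z.erase n)) U y).det = ((R'.restrict (R'.Z.erase n)).W y : ℂ) := by
      intro R' hZ reg' y
      apply ih (R := R'.restrict (R'.Z.erase n))
      · exact (erase_subset _ _).trans (hZ ▸ hU)
      · exact reg'.restrict (erase_subset _ _)
      · change (R'.Z.erase n).card = N
        rw [hZ, card_erase_of_mem hn]; omega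
    have main : ∀ R0 R1 : Disp ℂ, R0.Z = R.Z → R1.Z = R.Z → Un R0 → Un R1 →
        R0.row n = false → R1.row n = true → R0.Reach R1 →
        (∀ y, (Gm R1 U y).det = (Gm R0 U y).det) → (Gm R1 U y).det = (R1.W y : ℂ) := by
      intro R0 R1 z0 z1 g0 g1 r0 r1 hr hd
      have n0 : n ∈ R0.Z := z0 ▸ hn
      have n1 : n ∈ R1.Z := z1 ▸ hn
      rw [W_split R1 n1, Wcon_row n1 r1, hr.Wdel_eq, Wdel_col n0 r0,
        det_Gm_row (G := R1) (z1 ▸ hU) n1 r1, hd,
        Gm_col (G := R0) U n0 r0 (y := Function.update y n 0) (y' := y)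
          (fun m hm => (Function.update_of_ne hm _ _).symm) (Or.inl (by simp)),
        res R0 z0 g0, res R1 z1 g1]
      push_cast
      rfl
    by_cases h : ∃ j ∈ R.Z, R.S n j ≠ 0
    · obtain ⟨j, hj, h⟩ := h
      have hp : (R.pivot n j).row n = !R.row n := by rw [pivot_row h]; simp
      have hr : R.Reach (R.pivot n j) := ReachIn.single hn hj
      have hd : ∀ y, (Gm (R.pivot n j) U y).det = (Gm R U y).det := by
        intro y
        cases rn : R.row n
        · have h2 := S_ne_symm h
          have rj : R.row j = true := by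
            have := row_ne_of_S h
            rw [rn] at this
            simpa using this.symm
          rw [pivot_comm, det_Gm_pivot hU hj hn rj h2, reg.unit hj hn h2, one_mul]
        · rw [det_Gm_pivot hU hn hj rn h, reg.unit hn hj h, one_mul]
      cases rn : R.row n
      · rw [← hr.W_eq, ← hd]
        exact main R (R.pivot n j) rfl (pivot_Z _ _ _) reg (reg.pivot hn hj) rn
          (by rw [hp, rn]; rfl) hr hd
      · exact main (R.pivot n j) R (pivot_Z _ _ _) rfl (reg.pivot hn hj) reg
          (by rw [hp, rn]; rfl) rn hr.symm (fun y => (hd y).symm)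
    · push Not at h
      cases rn : R.row n
      · rw [W_split R hn, Wcon_loop hn rn h, Wdel_col hn rn,
          Gm_col (G := R) U hn rn (y := y) (y' := y) (fun _ _ => rfl)
            (Or.inr fun k hk => by rw [R.skew, h k hk]; simp), res R rfl reg]
        simp
      · rw [W_split R hn, Wdel_coloop hn rn h, Wcon_row hn rn, det_Gm_row (G := R) hU hn rn,
          res R rfl reg]
        have hnB : n ∈ R.B := mem_B.2 ⟨hn, rn⟩
        rw [Matrix.det_eq_zero_of_row_eq_zero (A := Gm R U (Function.update y n 0)) ⟨n, hU hn⟩]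
        · simp
        · intro l
          rw [Gm_apply]
          simp only [hnB, not_true_eq_false, and_false, if_false, zero_add]
          refine sum_eq_zero fun m hm => ?_
          by_cases e : m = n
          · subst e; simp
          · have : cw R n m = 0 := by simp [cw, e, h m hm]
            simp [this]

theorem Gm_herm (G : Disp ℂ) (U : Finset ℕ) (y : ℕ → ℝ) :
    (Gm G U y).conjTranspose = Gm G U y := by
  ext k l
  rw [Matrix.conjTranspose_apply, Gm_apply, Gm_apply, Complex.star_def, map_add, map_sum]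
  congr 1
  · by_cases e : k = l
    · subst e; split_ifs <;> simp
    · simp [e, Ne.symm e]
  · refine sum_congr rfl fun m _ => ?_
    simp only [map_mul, Complex.conj_ofReal, Complex.conj_conj]
    ring

theorem Gm_add (G : Disp ℂ) (U : Finset ℕ) (y : ℕ → ℝ) {τ : ℕ → ℝ} {e : ℕ} (he : e ∈ G.Z)
    (hτ : ∀ i, i ∉ ({e} : Finset ℕ) → τ i = 0) (k l : U) :
    Gm G U (y + τ) k l = Gm G U y k l + (τ e : ℂ) * (cw G k e * conj (cw G l e)) := by
  rw [Gm_apply, Gm_apply, add_assoc]
  congr 1
  rw [← sum_eq_single_of_mem e he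
    (f := fun m => (τ m : ℂ) * (cw G k m * conj (cw G l m)))
    (fun m _ hm => by rw [hτ m (by simpa using hm)]; simp), ← sum_add_distrib]
  refine sum_congr rfl fun m _ => ?_
  simp only [Pi.add_apply]
  push_cast
  ring

theorem Un.ray {G : Disp ℂ} (h : Un G) : G.Ray := by
  intro e he f hf
  refine QF.of_pos G.W_continuous fun y τ τ' h1 h2 hy _ _ _ => ?_
  have hd := fun z => W_eq_det (Subset.refl G.Z) h z
  refine herm_ineq (Gm_herm G G.Z y) (fun k => cw G k e) (fun k => cw G k f)
    (σ := τ e) (σ' := τ' f) (by simpa using h1.2.2) (by simpa using h2.2.2)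
    (Gm_add G _ y he h1.1) (Gm_add G _ y hf h2.1) (fun k l => ?_) (hd y) (hd _) (hd _) (hd _)
    (G.W_pos hy).ne'
  rw [Gm_add G _ _ hf h2.1, Gm_add G _ y he h1.1]

end SBR

end Pool.Agent.Lib.MP_c69b6d_co.F
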