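import Pool.Agent.Lib.MP_c69b6d_co.F.SB1
import Pool.Agent.Lib.MP_c69b6d_co.F.Api3
import Pool.Agent.Lib.MP_c69b6d_co.F.SBRa

/-! Stage B: representability over both fields gives the Rayleigh property. -/

namespace Pool.Agent.Lib.MP_c69b6d_co.F

open Finset

namespace SBR

open Disp

/-- the lift to the Eisenstein integers, in the basis `1, ζ` with `ζ * ζ = ζ - 1`. -/
def lz (x : F3) (y : F4) : ℤ × ℤ :=
  if x = 0 then (0, 0) else if x = 1 then
    (match y with | .o => (0, 0) | .e => (1, 0) | .a => (0, -1) | .b => (-1, 1))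
  else (match y with | .o => (0, 0) | .e => (-1, 0) | .a => (0, 1) | .b => (1, -1))

/-- multiplication of Eisenstein integers. -/
def mz (u v : ℤ × ℤ) : ℤ × ℤ := (u.1 * v.1 - u.2 * v.2, u.1 * v.2 + u.2 * v.1 + u.2 * v.2)

/-- a primitive sixth root of unity. -/
noncomputable def ze : ℂ := ⟨1 / 2, √3 / 2⟩

theorem ze_sq : ze * ze = ze - 1 := by
  have h : √3 * √3 = (3 : ℝ) := Real.mul_self_sqrt (by norm_num)
  apply Complex.ext <;> simp [ze]
  · linarith
  · ring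

/-- evaluation of an Eisenstein integer. -/
noncomputable def ev (u : ℤ × ℤ) : ℂ := u.1 + u.2 * ze

theorem ev_mz (u v : ℤ × ℤ) : ev (mz u v) = ev u * ev v := by
  simp only [ev, mz]
  push_cast
  linear_combination (-(u.2 * v.2 : ℂ)) * ze_sq

theorem ev_sub (u v : ℤ × ℤ) : ev (u - v) = ev u - ev v := by
  simp only [ev, Prod.fst_sub, Prod.snd_sub]
  push_cast
  ring

theorem ev_neg (u : ℤ × ℤ) : ev (-u) = -ev u := by
  simp only [ev, Prod.fst_neg, Prod.snd_neg]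
  push_cast
  ring

theorem normSq_ev (u : ℤ × ℤ) :
    Complex.normSq (ev u) = ((u.1 * u.1 + u.1 * u.2 + u.2 * u.2 : ℤ) : ℝ) := by
  have h : √3 * √3 = (3 : ℝ) := Real.mul_self_sqrt (by norm_num)
  simp [ev, ze, Complex.normSq_apply]
  linear_combination ((u.2 : ℝ) * u.2 / 4) * h

/-- the lift to the complex numbers. -/
noncomputable def lc (x : F3) (y : F4) : ℂ := ev (lz x y)

theorem lc_norm {x : F3} {y : F4} (hx : x ≠ 0) (hy : y ≠ 0) : ‖lc x y‖ = 1 := by
  have h : ∀ (x : F3) (y : F4), x ≠ 0 → y ≠ 0 →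
      (lz x y).1 * (lz x y).1 + (lz x y).1 * (lz x y).2 + (lz x y).2 * (lz x y).2 = 1 := by decide
  have h1 := normSq_ev (lz x y)
  rw [h x y hx hy, Complex.normSq_eq_norm_sq] at h1
  have h2 : ‖lc x y‖ ^ 2 = 1 := by simpa [lc] using h1
  exact (pow_eq_one_iff_of_nonneg (norm_nonneg _) two_ne_zero).1 h2

theorem lc_ne {x : F3} {y : F4} (hx : x ≠ 0) (hy : y ≠ 0) : lc x y ≠ 0 := by
  intro e
  have := lc_norm hx hy
  rw [e] at this
  simp at this

theorem lc_zero (y : F4) : lc 0 y = 0 := by simp [lc, lz, ev]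

theorem lc_one : lc 1 1 = 1 := by
  have : lz 1 1 = (1, 0) := by decide
  simp [lc, this, ev]

theorem lc_neg (x : F3) (y : F4) : lc (-x) (-y) = -lc x y := by
  have h : ∀ (x : F3) (y : F4), lz (-x) (-y) = -lz x y := by decide
  rw [lc, h, ev_neg, lc]

theorem lc_mul (x x' : F3) (y y' : F4) : lc (x * x') (y * y') = lc x y * lc x' y' := by
  have h : ∀ (x x' : F3) (y y' : F4), lz (x * x') (y * y') = mz (lz x y) (lz x' y') := by decide
  rw [lc, h, ev_mz, lc, lc]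

theorem lc_div (x : F3) (y : F4) {x' : F3} {y' : F4} (hx : x' ≠ 0) (hy : y' ≠ 0) :
    lc (x / x') (y / y') = lc x y / lc x' y' := by
  rw [eq_div_iff (lc_ne hx hy), ← lc_mul, div_mul_cancel₀ _ hx, div_mul_cancel₀ _ hy]

theorem lc_sub {s t : F3} {s' t' : F4} (h1 : s' = 0 ↔ s = 0) (h2 : t' = 0 ↔ t = 0)
    (h3 : s' - t' = 0 ↔ s - t = 0) : lc (s - t) (s' - t') = lc s s' - lc t t' := by
  have h : ∀ (s t : F3) (s' t' : F4), (s' = 0 ↔ s = 0) → (t' = 0 ↔ t = 0) →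
      (s' + t' = 0 ↔ s - t = 0) → lz (s - t) (s' + t') = lz s s' - lz t t' := by decide
  rw [F4.sub_eq] at h3 ⊢
  rw [lc, h s t s' t' h1 h2 h3, ev_sub, lc, lc]

/-- the invariant of joint pivots. -/
def Inv (U : Finset ℕ) (D : Disp F3) (G : Disp ℂ) : Prop :=
  ∃ H : Disp F4, Val D H U ∧ (∀ i ∈ U, G.row i = D.row i) ∧
    ∀ i ∈ U, ∀ j ∈ U, G.S i j = lc (D.S i j) (H.S i j)

theorem Inv.supp {U : Finset ℕ} {D : Disp F3} {G : Disp ℂ} (h : Inv U D G) {i j : ℕ}
    (hi : i ∈ U) (hj : j ∈ U) : (G.S i j = 0 ↔ D.S i j = 0) ∧ (G.S i j = 0 ∨ ‖G.S i j‖ = 1) := by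
  obtain ⟨H, hV, -, hS⟩ := h
  rw [hS i hi j hj]
  by_cases e : D.S i j = 0
  · simp [e, lc_zero]
  · have e' : H.S i j ≠ 0 := fun e' => e ((hV.supp hi hj).1 e')
    exact ⟨by simp [e, lc_ne e e'], Or.inr (lc_norm e e')⟩

theorem Inv.pivot {U : Finset ℕ} {D : Disp F3} {G : Disp ℂ} (h : Inv U D G) {x y : ℕ}
    (hx : x ∈ U) (hy : y ∈ U) (h0 : D.S x y ≠ 0) : Inv U (D.pivot x y) (G.pivot x y) := by
  have g0 : G.S x y ≠ 0 := fun e => h0 ((h.supp hx hy).1.1 e)
  obtain ⟨H, hV, hr, hS⟩ := h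
  have k0 : H.S x y ≠ 0 := fun e => h0 ((hV.supp hx hy).1 e)
  have h0' := S_ne_symm h0
  have k0' := S_ne_symm k0
  have hP := hV.pivot hx hy
  refine ⟨H.pivot x y, hP, fun i hi => ?_, fun i hi j hj => ?_⟩
  · rw [pivot_row g0, pivot_row h0, hr i hi]
  · have hs := hP.supp hi hj
    rw [pivot_S h0, pivot_S k0] at hs
    rw [pivot_S g0, pivot_S h0, pivot_S k0]
    unfold pS at hs ⊢
    split_ifs at hs ⊢
    · rw [lc_div _ _ h0 k0, lc_neg, lc_one, hS x hx y hy]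
    · rw [lc_zero]
    · rw [lc_div _ _ h0' k0', hS y hy j hj, hS y hy x hx]
    · rw [lc_div _ _ h0' k0', lc_neg, lc_one, hS y hy x hx]
    · rw [lc_zero]
    · rw [lc_div _ _ h0 k0, hS x hx j hj, hS x hx y hy]
    · rw [lc_neg, lc_div _ _ h0' k0', hS y hy i hi, hS y hy x hx]
    · rw [lc_neg, lc_div _ _ h0 k0, hS x hx i hi, hS x hx y hy]
    · have hrow := row_ne_of_S h0
      have k3 : ∀ a b c : Bool, a ≠ b → c ≠ a → c = b := by decide
      by_cases hix : D.row i = D.row x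
      · have z1 := D.bip i x hix
        have z2 : H.S i x = 0 := (hV.supp hi hx).2 z1
        have z3 : G.S i x = 0 := by rw [hS i hi x hx, z1, lc_zero]
        rw [z1, z2] at hs
        rw [z1, z2, z3]
        simp only [zero_mul, zero_div, sub_zero] at hs ⊢
        rw [lc_sub (hV.supp hi hj) _ hs, lc_div _ _ h0 k0, lc_mul, hS i hi j hj, hS i hi y hy,
          hS x hx j hj, hS x hx y hy]
        simp only [div_eq_zero_iff, mul_eq_zero, hV.supp hi hy, hV.supp hx hj, hV.supp hx hy]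
      · have z1 := D.bip i y (k3 _ _ _ hrow hix)
        have z2 : H.S i y = 0 := (hV.supp hi hy).2 z1
        have z3 : G.S i y = 0 := by rw [hS i hi y hy, z1, lc_zero]
        rw [z1, z2] at hs
        rw [z1, z2, z3]
        simp only [zero_mul, zero_div, sub_zero] at hs ⊢
        rw [lc_sub (hV.supp hi hj) _ hs, lc_div _ _ h0' k0', lc_mul, hS i hi j hj, hS i hi x hx,
          hS y hy j hj, hS y hy x hx]
        simp only [div_eq_zero_iff, mul_eq_zero, hV.supp hi hx, hV.supp hy hj, hV.supp hy hx]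

/-- the lifted display. -/
noncomputable def ld (D : Disp F3) (H : Disp F4) : Disp ℂ :=
  { Z := D.Z, row := D.row, S := fun i j => lc (D.S i j) (H.S i j)
    skew := fun i j => by rw [D.skew i j, H.skew i j, lc_neg]
    bip := fun i j h => by rw [D.bip i j h, lc_zero] }

end SBR

namespace Disp

/-- all entries of all reached displays have modulus `0` or `1`. -/
def Uni (G : Disp ℂ) : Prop :=
  ∀ E, G.Reach E → ∀ i ∈ G.Z, ∀ j ∈ G.Z, E.S i j = 0 ∨ ‖E.S i j‖ = 1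

/-- the lift to sixth roots of unity. -/
theorem SR.lift {D : Disp F3} (h : D.SR) : ∃ G : Disp ℂ, G.Z = D.Z ∧ Val D G D.Z ∧ G.Uni := by
  obtain ⟨H, hH⟩ := h
  have h0 : SBR.Inv D.Z D (SBR.ld D H) := ⟨H, hH, fun _ _ => rfl, fun _ _ _ _ => rfl⟩
  refine ⟨SBR.ld D H, rfl, Val.of_inv (SBR.Inv D.Z) (fun D' G' h => ?_)
    (fun D' G' x y h hx hy hs => h.pivot hx hy hs) h0, fun E hE => ?_⟩
  · exact ⟨h.choose_spec.2.1, fun i hi j hj => (h.supp hi hj).1⟩
  · have : ∃ D', SBR.Inv D.Z D' E := by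
      refine ReachIn.ind (P := fun E => ∃ D', SBR.Inv D.Z D' E) hE ⟨D, h0⟩ ?_
      rintro E x y hx hy hs - ⟨D', h'⟩
      exact ⟨_, h'.pivot hx hy fun e => hs ((h'.supp hx hy).1.2 e)⟩
    obtain ⟨D', h'⟩ := this
    exact fun i hi j hj => (h'.supp hi hj).2

theorem Uni.ray {G : Disp ℂ} (h : G.Uni) : G.Ray := SBR.Un.ray h

theorem SR.ray {D : Disp F3} (h : D.SR) : D.Ray := by
  obtain ⟨G, hZ, hV, hU⟩ := h.lift
  have hB : ∀ F, G.Base F ↔ D.Base F := fun F => by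
    have := hV.base F
    rwa [restrict_self, ← hZ, restrict_self] at this
  have hW : D.W = G.W := by
    funext y
    unfold W
    rw [hZ]
    refine sum_congr rfl fun F _ => ?_
    by_cases e : D.Base F
    · rw [if_pos e, if_pos ((hB F).2 e)]
    · rw [if_neg e, if_neg fun e' => e ((hB F).1 e')]
  intro e he f hf
  rw [hW]
  exact hU.ray e (hZ ▸ he) f (hZ ▸ hf)

end Disp

end Pool.Agent.Lib.MP_c69b6d_co.F
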