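import Pool.Agent.Lib.MP_c69b6d_co.F.SB3

/-! Stage B: the table of seeds. -/

namespace Pool.Agent.Lib.MP_c69b6d_co.F

namespace ML

set_option maxRecDepth 100000

def tab : List Nd :=
  [⟨127, 19, 0xc80400000000000000000000000000000000d8440000000048240, 112, 11, 4, 1⟩,
   ⟨511, 51, 0x3780200000001780200000000000000000000000000000000040440000000200240, 304, 203, 4, 1⟩,
   ⟨511, 51, 0x3200000000005ac0040000000000000000000000000000000040440000001200240, 416, 91, 4, 1⟩,
   ⟨511, 51, 0x5200040000005ac0040000000000000000000000000000000040440000001200240, 416, 91, 4, 1⟩,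
   ⟨127, 19, 0xc8200000000000000000000000000000000000440000000048240, 113, 2, 12, 0⟩,
   ⟨127, 19, 0x148200000000000000000000000000000000000440000000048240, 113, 2, 12, 0⟩,
   ⟨127, 19, 0xc80000000000000000000000000000000000d8440000000048240, 112, 11, 4, 1⟩,
   ⟨255, 51, 0x6402000000002402000000000000000000000000000000000c0440000000040240, 176, 75, 4, 1⟩,
   ⟨1023, 115, 0x1b00020000000b000200000003c00200000000000000000000000000000000200440000001000240, 608, 411, 4, 1⟩,
   ⟨1023, 115, 0x19000200000009000200000003c00200000000000000000000000000000000200440000001000240, 608, 411, 4, 1⟩,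
   ⟨127, 19, 0xc8000000000000000000000000000000000000440000000048240, 113, 2, 12, 0⟩,
   ⟨127, 19, 0xc8000000000000000000000000000000000000c40000000048240, 113, 2, 12, 0⟩,
   ⟨255, 51, 0x6c0200000000640200000000000000000000000000000000000440000000200240, 241, 2, 12, 0⟩,
   ⟨255, 51, 0x2c0200000000240200000000000000000000000000000000000440000000200240, 241, 2, 12, 0⟩,
   ⟨255, 51, 0x2c0200000000240200000000000000000000000000000000000c40000000200240, 241, 2, 12, 0⟩,
   ⟨255, 51, 0x640000000000240000000000000000000000000000000000000440000000000240, 240, 3, 12, 0⟩,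
   ⟨255, 51, 0x240200000000640000000000000000000000000000000000000440000000000240, 240, 3, 12, 0⟩,
   ⟨255, 51, 0x240640000000640000000000000000000000000000000000000440000000000240, 240, 3, 12, 0⟩,
   ⟨255, 51, 0x640000000000240000000000000000000000000000000000000c40000000000240, 240, 3, 12, 0⟩,
   ⟨255, 51, 0x240200000000640000000000000000000000000000000000000c40000000000240, 240, 3, 12, 0⟩]

theorem tab_ok0 : (nth tab 0).ok 6 1 = true := by decide +kernel

theorem tab_ok1 : (nth tab 1).ok 5 7 = true := by decide +kernel

theorem tab_ok2 : (nth tab 2).ok 8 4 = true := by decide +kernel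

theorem tab_ok3 : (nth tab 3).ok 8 4 = true := by decide +kernel

theorem tab_ok4 : (nth tab 4).ok 0 0 = true := by decide +kernel

theorem tab_ok5 : (nth tab 5).ok 0 0 = true := by decide +kernel

theorem tab_ok6 : (nth tab 6).ok 6 1 = true := by decide +kernel

theorem tab_ok7 : (nth tab 7).ok 5 6 = true := by decide +kernel

theorem tab_ok8 : (nth tab 8).ok 6 8 = true := by decide +kernel

theorem tab_ok9 : (nth tab 9).ok 6 8 = true := by decide +kernel

theorem tab_ok10 : (nth tab 10).ok 0 0 = true := by decide +kernel

theorem tab_ok11 : (nth tab 11).ok 0 0 = true := by decide +kernel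

theorem tab_ok12 : (nth tab 12).ok 0 0 = true := by decide +kernel

theorem tab_ok13 : (nth tab 13).ok 0 0 = true := by decide +kernel

theorem tab_ok14 : (nth tab 14).ok 0 0 = true := by decide +kernel

theorem tab_ok15 : (nth tab 15).ok 0 0 = true := by decide +kernel

theorem tab_ok16 : (nth tab 16).ok 0 0 = true := by decide +kernel

theorem tab_ok17 : (nth tab 17).ok 0 0 = true := by decide +kernel

theorem tab_ok18 : (nth tab 18).ok 0 0 = true := by decide +kernel

theorem tab_ok19 : (nth tab 19).ok 0 0 = true := by decide +kernel

end ML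

end Pool.Agent.Lib.MP_c69b6d_co.F
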