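import Pool.Agent.Lib.MP_c69b6d_co.F.SBT0
import Pool.Agent.Lib.MP_c69b6d_co.F.Ck0

/-! Stage B: splitting of the largest certificate. -/

namespace Pool.Agent.Lib.MP_c69b6d_co.F

namespace ML

set_option maxRecDepth 100000

noncomputable def cI (t : Ct) (s : Dy) : Bool :=
  chk (leafI tab 20) nxI (fun a _ => a) t ⟨10, 8, 9⟩ s

theorem cI_sel {i : ℕ} {c0 c1 c2 c3 c4 c5 c6 : Ct} {s s0 s1 s2 s3 s4 s5 s6 : Dy}
    (h : selOK s i = true) (e0 : setE s i 0 = s0) (e1 : setE s i 1 = s1) (e2 : setE s i 2 = s2)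
    (e3 : setE s i 3 = s3) (e4 : setE s i 4 = s4) (e5 : setE s i 5 = s5) (e6 : setE s i 6 = s6)
    (h0 : cI c0 s0 = true) (h1 : cI c1 s1 = true) (h2 : cI c2 s2 = true) (h3 : cI c3 s3 = true)
    (h4 : cI c4 s4 = true) (h5 : cI c5 s5 = true) (h6 : cI c6 s6 = true) :
    cI (.sel i c0 c1 c2 c3 c4 c5 c6) s = true := by
  subst e0 e1 e2 e3 e4 e5 e6
  exact andB_iff.2 ⟨h, andB_iff.2 ⟨h0, andB_iff.2 ⟨h1, andB_iff.2 ⟨h2, andB_iff.2 ⟨h3,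
    andB_iff.2 ⟨h4, andB_iff.2 ⟨h5, h6⟩⟩⟩⟩⟩⟩⟩

theorem cI_sel0 {i : ℕ} {c0 c1 : Ct} {s s0 s1 : Dy} (h : andB (selOK s i) (nulB s) = true)
    (e0 : setE s i 0 = s0) (e1 : setE s i 1 = s1) (h0 : cI c0 s0 = true) (h1 : cI c1 s1 = true) :
    cI (.sel0 i c0 c1) s = true := by
  subst e0 e1
  exact andB_iff.2 ⟨(andB_iff.1 h).1, andB_iff.2 ⟨(andB_iff.1 h).2, andB_iff.2 ⟨h0, h1⟩⟩⟩

theorem cI_sel1 {i : ℕ} {c0 c1 : Ct} {s s0 s1 : Dy} (h : andB (selOK s i) (nul1B s i) = true)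
    (e0 : setE s i 0 = s0) (e1 : setE s i 1 = s1) (h0 : cI c0 s0 = true) (h1 : cI c1 s1 = true) :
    cI (.sel1 i c0 c1) s = true := by
  subst e0 e1
  exact andB_iff.2 ⟨(andB_iff.1 h).1, andB_iff.2 ⟨(andB_iff.1 h).2, andB_iff.2 ⟨h0, h1⟩⟩⟩

theorem cI_nxt {N : ℕ} {c0 c1 : Ct} {s s0 s1 : Dy}
    (h : andB (full s) (andB (Nat.blt (Nat.succ s.n) 16) (nxI ⟨10, 8, 9⟩ s N)) = true)
    (e0 : start s.z1 s.rm s.M (Nat.succ s.n) true = s0)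
    (e1 : start s.z1 s.rm s.M (Nat.succ s.n) false = s1)
    (h0 : cI c0 s0 = true) (h1 : cI c1 s1 = true) : cI (.nxt N c0 c1) s = true := by
  subst e0 e1
  exact andB_iff.2 ⟨(andB_iff.1 h).1, andB_iff.2 ⟨(andB_iff.1 (andB_iff.1 h).2).1,
    andB_iff.2 ⟨(andB_iff.1 (andB_iff.1 h).2).2, andB_iff.2 ⟨h0, h1⟩⟩⟩⟩

end ML

end Pool.Agent.Lib.MP_c69b6d_co.F
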