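import Pool.Agent.Lib.MP_c69b6d_co.F.SBT3a
import Pool.Agent.Lib.MP_c69b6d_co.F.SBT3b
import Pool.Agent.Lib.MP_c69b6d_co.F.SBT3c
import Pool.Agent.Lib.MP_c69b6d_co.F.SBT3d
import Pool.Agent.Lib.MP_c69b6d_co.F.SBT3e
import Pool.Agent.Lib.MP_c69b6d_co.F.SBT3f
import Pool.Agent.Lib.MP_c69b6d_co.F.SBT3g
import Pool.Agent.Lib.MP_c69b6d_co.F.SBT3h

/-! Stage B: the largest certificate. -/

namespace Pool.Agent.Lib.MP_c69b6d_co.F

namespace ML

set_option maxRecDepth 100000

noncomputable def cj24 : Ct := .sel 2 cj25 cj26 cj27 cj28 cj29 cj30 cj31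

theorem tj24 : cI cj24 ⟨252, 496, 304, 0x240000000000000000000000000000000000000440000000000240000000000000000000000000000000000000000000000000, 8⟩ = true :=
  cI_sel (by decide +kernel) rfl rfl rfl rfl rfl rfl rfl tj25 tj26 tj27 tj28 tj29 tj30 tj31

noncomputable def cj22 : Ct := .sel1 7 cj23 cj24

theorem tj22 : cI cj22 ⟨252, 368, 304, 0x40000000000000000000000000000000000000440000000000240000000000000000000000000000000000000000000000000, 8⟩ = true :=
  cI_sel1 (by decide +kernel) rfl rfl tj23 tj24

noncomputable def cj20 : Ct := .sel0 6 cj21 cj22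

theorem tj20 : cI cj20 ⟨252, 304, 304, 0x440000000000240000000000000000000000000000000000000000000000000, 8⟩ = true :=
  cI_sel0 (by decide +kernel) rfl rfl tj21 tj22

noncomputable def cj19 : Ct := .nxt 0 cj20 cj32

theorem tj19 : cI cj19 ⟨124, 252, 48, 0x440000000000240000000000000000000000000000000000000000000000000, 7⟩ = true :=
  cI_nxt (by decide +kernel) rfl rfl tj20 tj32

noncomputable def cj36 : Ct := .sel 7 cj37 cj38 cj39 cj40 cj41 cj42 cj43

theorem tj36 : cI cj36 ⟨252, 368, 304, 0x40000000000000000000000000000000000200440000000000240000000000000000000000000000000000000000000000000, 8⟩ = true :=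
  cI_sel (by decide +kernel) rfl rfl rfl rfl rfl rfl rfl tj37 tj38 tj39 tj40 tj41 tj42 tj43

noncomputable def cj34 : Ct := .sel0 6 cj35 cj36

theorem tj34 : cI cj34 ⟨252, 304, 304, 0x200440000000000240000000000000000000000000000000000000000000000000, 8⟩ = true :=
  cI_sel0 (by decide +kernel) rfl rfl tj35 tj36

noncomputable def cj33 : Ct := .nxt 0 cj34 cj44

theorem tj33 : cI cj33 ⟨124, 252, 48, 0x200440000000000240000000000000000000000000000000000000000000000000, 7⟩ = true :=
  cI_nxt (by decide +kernel) rfl rfl tj34 tj44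

noncomputable def cj18 : Ct := .sel0 5 cj19 cj33

theorem tj18 : cI cj18 ⟨124, 220, 48, 0x440000000000240000000000000000000000000000000000000000000000000, 7⟩ = true :=
  cI_sel0 (by decide +kernel) rfl rfl tj19 tj33

noncomputable def cj49 : Ct := .sel 7 cj50 cj51 cj52 cj53 cj54 cj55 cj56

theorem tj49 : cI cj49 ⟨252, 368, 304, 0x40000000000000000000000000000000000000440000000200240000000000000000000000000000000000000000000000000, 8⟩ = true :=
  cI_sel (by decide +kernel) rfl rfl rfl rfl rfl rfl rfl tj50 tj51 tj52 tj53 tj54 tj55 tj56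

noncomputable def cj47 : Ct := .sel0 6 cj48 cj49

theorem tj47 : cI cj47 ⟨252, 304, 304, 0x440000000200240000000000000000000000000000000000000000000000000, 8⟩ = true :=
  cI_sel0 (by decide +kernel) rfl rfl tj48 tj49

noncomputable def cj46 : Ct := .nxt 0 cj47 cj57

theorem tj46 : cI cj46 ⟨124, 252, 48, 0x440000000200240000000000000000000000000000000000000000000000000, 7⟩ = true :=
  cI_nxt (by decide +kernel) rfl rfl tj47 tj57

noncomputable def cj63 : Ct := .sel 7 cj64 cj65 cj66 cj67 cj68 cj69 cj70

theorem tj63 : cI cj63 ⟨252, 368, 304, 0x40000000000000000000000000000000000600440000000200240000000000000000000000000000000000000000000000000, 8⟩ = true :=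
  cI_sel (by decide +kernel) rfl rfl rfl rfl rfl rfl rfl tj64 tj65 tj66 tj67 tj68 tj69 tj70

noncomputable def cj61 : Ct := .sel0 6 cj62 cj63

theorem tj61 : cI cj61 ⟨252, 304, 304, 0x600440000000200240000000000000000000000000000000000000000000000000, 8⟩ = true :=
  cI_sel0 (by decide +kernel) rfl rfl tj62 tj63

noncomputable def cj60 : Ct := .nxt 0 cj61 cj71

theorem tj60 : cI cj60 ⟨124, 252, 48, 0x600440000000200240000000000000000000000000000000000000000000000000, 7⟩ = true :=
  cI_nxt (by decide +kernel) rfl rfl tj61 tj71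

noncomputable def cj45 : Ct := .sel 5 cj46 cj58 cj59 cj60 cj72 cj73 cj74

theorem tj45 : cI cj45 ⟨124, 220, 48, 0x440000000200240000000000000000000000000000000000000000000000000, 7⟩ = true :=
  cI_sel (by decide +kernel) rfl rfl rfl rfl rfl rfl rfl tj46 tj58 tj59 tj60 tj72 tj73 tj74

noncomputable def cj17 : Ct := .sel0 4 cj18 cj45

theorem tj17 : cI cj17 ⟨124, 204, 48, 0x440000000000240000000000000000000000000000000000000000000000000, 7⟩ = true :=
  cI_sel0 (by decide +kernel) rfl rfl tj18 tj45

noncomputable def cj15 : Ct := .nxt 0 cj16 cj17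

theorem tj15 : cI cj15 ⟨60, 124, 48, 0x440000000000240000000000000000000000000000000000000000000000000, 6⟩ = true :=
  cI_nxt (by decide +kernel) rfl rfl tj16 tj17

noncomputable def cj78 : Ct := .sel0 5 cj79 cj80

theorem tj78 : cI cj78 ⟨124, 220, 48, 0x40440000000000240000000000000000000000000000000000000000000000000, 7⟩ = true :=
  cI_sel0 (by decide +kernel) rfl rfl tj79 tj80

noncomputable def cj77 : Ct := .sel0 4 cj78 cj81

theorem tj77 : cI cj77 ⟨124, 204, 48, 0x40440000000000240000000000000000000000000000000000000000000000000, 7⟩ = true :=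
  cI_sel0 (by decide +kernel) rfl rfl tj78 tj81

noncomputable def cj75 : Ct := .nxt 0 cj76 cj77

theorem tj75 : cI cj75 ⟨60, 124, 48, 0x40440000000000240000000000000000000000000000000000000000000000000, 6⟩ = true :=
  cI_nxt (by decide +kernel) rfl rfl tj76 tj77

noncomputable def cj14 : Ct := .sel0 5 cj15 cj75

theorem tj14 : cI cj14 ⟨60, 92, 48, 0x440000000000240000000000000000000000000000000000000000000000000, 6⟩ = true :=
  cI_sel0 (by decide +kernel) rfl rfl tj15 tj75

noncomputable def cj86 : Ct := .sel0 5 cj87 cj88

theorem tj86 : cI cj86 ⟨124, 220, 48, 0x440000000040240000000000000000000000000000000000000000000000000, 7⟩ = true :=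
  cI_sel0 (by decide +kernel) rfl rfl tj87 tj88

noncomputable def cj85 : Ct := .sel0 4 cj86 cj89

theorem tj85 : cI cj85 ⟨124, 204, 48, 0x440000000040240000000000000000000000000000000000000000000000000, 7⟩ = true :=
  cI_sel0 (by decide +kernel) rfl rfl tj86 tj89

noncomputable def cj83 : Ct := .nxt 0 cj84 cj85

theorem tj83 : cI cj83 ⟨60, 124, 48, 0x440000000040240000000000000000000000000000000000000000000000000, 6⟩ = true :=
  cI_nxt (by decide +kernel) rfl rfl tj84 tj85

noncomputable def cj94 : Ct := .sel0 4 cj95 cj96

theorem tj94 : cI cj94 ⟨124, 204, 48, 0xc0440000000040240000000000000000000000000000000000000000000000000, 7⟩ = true :=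
  cI_sel0 (by decide +kernel) rfl rfl tj95 tj96

noncomputable def cj92 : Ct := .nxt 0 cj93 cj94

theorem tj92 : cI cj92 ⟨60, 124, 48, 0xc0440000000040240000000000000000000000000000000000000000000000000, 6⟩ = true :=
  cI_nxt (by decide +kernel) rfl rfl tj93 tj94

noncomputable def cj82 : Ct := .sel 5 cj83 cj90 cj91 cj92 cj97 cj98 cj99

theorem tj82 : cI cj82 ⟨60, 92, 48, 0x440000000040240000000000000000000000000000000000000000000000000, 6⟩ = true :=
  cI_sel (by decide +kernel) rfl rfl rfl rfl rfl rfl rfl tj83 tj90 tj91 tj92 tj97 tj98 tj99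

noncomputable def cj13 : Ct := .sel0 4 cj14 cj82

theorem tj13 : cI cj13 ⟨60, 76, 48, 0x440000000000240000000000000000000000000000000000000000000000000, 6⟩ = true :=
  cI_sel0 (by decide +kernel) rfl rfl tj14 tj82

noncomputable def cj11 : Ct := .nxt 0 cj12 cj13

theorem tj11 : cI cj11 ⟨28, 60, 48, 0x440000000000240000000000000000000000000000000000000000000000000, 5⟩ = true :=
  cI_nxt (by decide +kernel) rfl rfl tj12 tj13

noncomputable def cj114 : Ct := .sel 2 cj115 cj116 cj117 cj118 cj119 cj120 cj121

theorem tj114 : cI cj114 ⟨252, 496, 304, 0x240000000000000000000000000000000000000840000000000240000000000000000000000000000000000000000000000000, 8⟩ = true :=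
  cI_sel (by decide +kernel) rfl rfl rfl rfl rfl rfl rfl tj115 tj116 tj117 tj118 tj119 tj120 tj121

noncomputable def cj112 : Ct := .sel1 7 cj113 cj114

theorem tj112 : cI cj112 ⟨252, 368, 304, 0x40000000000000000000000000000000000000840000000000240000000000000000000000000000000000000000000000000, 8⟩ = true :=
  cI_sel1 (by decide +kernel) rfl rfl tj113 tj114

noncomputable def cj110 : Ct := .sel0 6 cj111 cj112

theorem tj110 : cI cj110 ⟨252, 304, 304, 0x840000000000240000000000000000000000000000000000000000000000000, 8⟩ = true :=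
  cI_sel0 (by decide +kernel) rfl rfl tj111 tj112

noncomputable def cj109 : Ct := .nxt 0 cj110 cj122

theorem tj109 : cI cj109 ⟨124, 252, 48, 0x840000000000240000000000000000000000000000000000000000000000000, 7⟩ = true :=
  cI_nxt (by decide +kernel) rfl rfl tj110 tj122

noncomputable def cj126 : Ct := .sel 7 cj127 cj128 cj129 cj130 cj131 cj132 cj133

theorem tj126 : cI cj126 ⟨252, 368, 304, 0x40000000000000000000000000000000000200840000000000240000000000000000000000000000000000000000000000000, 8⟩ = true :=
  cI_sel (by decide +kernel) rfl rfl rfl rfl rfl rfl rfl tj127 tj128 tj129 tj130 tj131 tj132 tj133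

noncomputable def cj124 : Ct := .sel0 6 cj125 cj126

theorem tj124 : cI cj124 ⟨252, 304, 304, 0x200840000000000240000000000000000000000000000000000000000000000000, 8⟩ = true :=
  cI_sel0 (by decide +kernel) rfl rfl tj125 tj126

noncomputable def cj123 : Ct := .nxt 0 cj124 cj134

theorem tj123 : cI cj123 ⟨124, 252, 48, 0x200840000000000240000000000000000000000000000000000000000000000000, 7⟩ = true :=
  cI_nxt (by decide +kernel) rfl rfl tj124 tj134

noncomputable def cj108 : Ct := .sel0 5 cj109 cj123

theorem tj108 : cI cj108 ⟨124, 220, 48, 0x840000000000240000000000000000000000000000000000000000000000000, 7⟩ = true :=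
  cI_sel0 (by decide +kernel) rfl rfl tj109 tj123

noncomputable def cj139 : Ct := .sel 7 cj140 cj141 cj142 cj143 cj144 cj145 cj146

theorem tj139 : cI cj139 ⟨252, 368, 304, 0x40000000000000000000000000000000000000840000000200240000000000000000000000000000000000000000000000000, 8⟩ = true :=
  cI_sel (by decide +kernel) rfl rfl rfl rfl rfl rfl rfl tj140 tj141 tj142 tj143 tj144 tj145 tj146

noncomputable def cj137 : Ct := .sel0 6 cj138 cj139

theorem tj137 : cI cj137 ⟨252, 304, 304, 0x840000000200240000000000000000000000000000000000000000000000000, 8⟩ = true :=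
  cI_sel0 (by decide +kernel) rfl rfl tj138 tj139

noncomputable def cj136 : Ct := .nxt 0 cj137 cj147

theorem tj136 : cI cj136 ⟨124, 252, 48, 0x840000000200240000000000000000000000000000000000000000000000000, 7⟩ = true :=
  cI_nxt (by decide +kernel) rfl rfl tj137 tj147

noncomputable def cj155 : Ct := .sel 7 cj156 cj157 cj158 cj159 cj160 cj161 cj162

theorem tj155 : cI cj155 ⟨252, 368, 304, 0x40000000000000000000000000000000000a00840000000200240000000000000000000000000000000000000000000000000, 8⟩ = true :=
  cI_sel (by decide +kernel) rfl rfl rfl rfl rfl rfl rfl tj156 tj157 tj158 tj159 tj160 tj161 tj162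

noncomputable def cj153 : Ct := .sel0 6 cj154 cj155

theorem tj153 : cI cj153 ⟨252, 304, 304, 0xa00840000000200240000000000000000000000000000000000000000000000000, 8⟩ = true :=
  cI_sel0 (by decide +kernel) rfl rfl tj154 tj155

noncomputable def cj152 : Ct := .nxt 0 cj153 cj163

theorem tj152 : cI cj152 ⟨124, 252, 48, 0xa00840000000200240000000000000000000000000000000000000000000000000, 7⟩ = true :=
  cI_nxt (by decide +kernel) rfl rfl tj153 tj163

noncomputable def cj135 : Ct := .sel 5 cj136 cj148 cj149 cj150 cj151 cj152 cj164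

theorem tj135 : cI cj135 ⟨124, 220, 48, 0x840000000200240000000000000000000000000000000000000000000000000, 7⟩ = true :=
  cI_sel (by decide +kernel) rfl rfl rfl rfl rfl rfl rfl tj136 tj148 tj149 tj150 tj151 tj152 tj164

noncomputable def cj107 : Ct := .sel0 4 cj108 cj135

theorem tj107 : cI cj107 ⟨124, 204, 48, 0x840000000000240000000000000000000000000000000000000000000000000, 7⟩ = true :=
  cI_sel0 (by decide +kernel) rfl rfl tj108 tj135

noncomputable def cj105 : Ct := .nxt 0 cj106 cj107

theorem tj105 : cI cj105 ⟨60, 124, 48, 0x840000000000240000000000000000000000000000000000000000000000000, 6⟩ = true :=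
  cI_nxt (by decide +kernel) rfl rfl tj106 tj107

noncomputable def cj168 : Ct := .sel0 5 cj169 cj170

theorem tj168 : cI cj168 ⟨124, 220, 48, 0x40840000000000240000000000000000000000000000000000000000000000000, 7⟩ = true :=
  cI_sel0 (by decide +kernel) rfl rfl tj169 tj170

noncomputable def cj167 : Ct := .sel0 4 cj168 cj171

theorem tj167 : cI cj167 ⟨124, 204, 48, 0x40840000000000240000000000000000000000000000000000000000000000000, 7⟩ = true :=
  cI_sel0 (by decide +kernel) rfl rfl tj168 tj171

noncomputable def cj165 : Ct := .nxt 0 cj166 cj167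

theorem tj165 : cI cj165 ⟨60, 124, 48, 0x40840000000000240000000000000000000000000000000000000000000000000, 6⟩ = true :=
  cI_nxt (by decide +kernel) rfl rfl tj166 tj167

noncomputable def cj104 : Ct := .sel0 5 cj105 cj165

theorem tj104 : cI cj104 ⟨60, 92, 48, 0x840000000000240000000000000000000000000000000000000000000000000, 6⟩ = true :=
  cI_sel0 (by decide +kernel) rfl rfl tj105 tj165

noncomputable def cj176 : Ct := .sel0 5 cj177 cj178

theorem tj176 : cI cj176 ⟨124, 220, 48, 0x840000000040240000000000000000000000000000000000000000000000000, 7⟩ = true :=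
  cI_sel0 (by decide +kernel) rfl rfl tj177 tj178

noncomputable def cj175 : Ct := .sel0 4 cj176 cj179

theorem tj175 : cI cj175 ⟨124, 204, 48, 0x840000000040240000000000000000000000000000000000000000000000000, 7⟩ = true :=
  cI_sel0 (by decide +kernel) rfl rfl tj176 tj179

noncomputable def cj173 : Ct := .nxt 0 cj174 cj175

theorem tj173 : cI cj173 ⟨60, 124, 48, 0x840000000040240000000000000000000000000000000000000000000000000, 6⟩ = true :=
  cI_nxt (by decide +kernel) rfl rfl tj174 tj175

noncomputable def cj186 : Ct := .sel0 4 cj187 cj188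

theorem tj186 : cI cj186 ⟨124, 204, 48, 0x140840000000040240000000000000000000000000000000000000000000000000, 7⟩ = true :=
  cI_sel0 (by decide +kernel) rfl rfl tj187 tj188

noncomputable def cj184 : Ct := .nxt 0 cj185 cj186

theorem tj184 : cI cj184 ⟨60, 124, 48, 0x140840000000040240000000000000000000000000000000000000000000000000, 6⟩ = true :=
  cI_nxt (by decide +kernel) rfl rfl tj185 tj186

noncomputable def cj172 : Ct := .sel 5 cj173 cj180 cj181 cj182 cj183 cj184 cj189

theorem tj172 : cI cj172 ⟨60, 92, 48, 0x840000000040240000000000000000000000000000000000000000000000000, 6⟩ = true :=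
  cI_sel (by decide +kernel) rfl rfl rfl rfl rfl rfl rfl tj173 tj180 tj181 tj182 tj183 tj184 tj189

noncomputable def cj103 : Ct := .sel0 4 cj104 cj172

theorem tj103 : cI cj103 ⟨60, 76, 48, 0x840000000000240000000000000000000000000000000000000000000000000, 6⟩ = true :=
  cI_sel0 (by decide +kernel) rfl rfl tj104 tj172

noncomputable def cj101 : Ct := .nxt 0 cj102 cj103

theorem tj101 : cI cj101 ⟨28, 60, 48, 0x840000000000240000000000000000000000000000000000000000000000000, 5⟩ = true :=
  cI_nxt (by decide +kernel) rfl rfl tj102 tj103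

noncomputable def cj204 : Ct := .sel 2 cj205 cj206 cj207 cj208 cj209 cj210 cj211

theorem tj204 : cI cj204 ⟨252, 496, 304, 0x240000000000000000000000000000000000000c40000000000240000000000000000000000000000000000000000000000000, 8⟩ = true :=
  cI_sel (by decide +kernel) rfl rfl rfl rfl rfl rfl rfl tj205 tj206 tj207 tj208 tj209 tj210 tj211

noncomputable def cj202 : Ct := .sel1 7 cj203 cj204

theorem tj202 : cI cj202 ⟨252, 368, 304, 0x40000000000000000000000000000000000000c40000000000240000000000000000000000000000000000000000000000000, 8⟩ = true :=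
  cI_sel1 (by decide +kernel) rfl rfl tj203 tj204

noncomputable def cj200 : Ct := .sel0 6 cj201 cj202

theorem tj200 : cI cj200 ⟨252, 304, 304, 0xc40000000000240000000000000000000000000000000000000000000000000, 8⟩ = true :=
  cI_sel0 (by decide +kernel) rfl rfl tj201 tj202

noncomputable def cj199 : Ct := .nxt 0 cj200 cj212

theorem tj199 : cI cj199 ⟨124, 252, 48, 0xc40000000000240000000000000000000000000000000000000000000000000, 7⟩ = true :=
  cI_nxt (by decide +kernel) rfl rfl tj200 tj212

noncomputable def cj216 : Ct := .sel 7 cj217 cj218 cj219 cj220 cj221 cj222 cj223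

theorem tj216 : cI cj216 ⟨252, 368, 304, 0x40000000000000000000000000000000000200c40000000000240000000000000000000000000000000000000000000000000, 8⟩ = true :=
  cI_sel (by decide +kernel) rfl rfl rfl rfl rfl rfl rfl tj217 tj218 tj219 tj220 tj221 tj222 tj223

noncomputable def cj214 : Ct := .sel0 6 cj215 cj216

theorem tj214 : cI cj214 ⟨252, 304, 304, 0x200c40000000000240000000000000000000000000000000000000000000000000, 8⟩ = true :=
  cI_sel0 (by decide +kernel) rfl rfl tj215 tj216

noncomputable def cj213 : Ct := .nxt 0 cj214 cj224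

theorem tj213 : cI cj213 ⟨124, 252, 48, 0x200c40000000000240000000000000000000000000000000000000000000000000, 7⟩ = true :=
  cI_nxt (by decide +kernel) rfl rfl tj214 tj224

noncomputable def cj198 : Ct := .sel0 5 cj199 cj213

theorem tj198 : cI cj198 ⟨124, 220, 48, 0xc40000000000240000000000000000000000000000000000000000000000000, 7⟩ = true :=
  cI_sel0 (by decide +kernel) rfl rfl tj199 tj213

noncomputable def cj229 : Ct := .sel 7 cj230 cj231 cj232 cj233 cj234 cj235 cj236

theorem tj229 : cI cj229 ⟨252, 368, 304, 0x40000000000000000000000000000000000000c40000000200240000000000000000000000000000000000000000000000000, 8⟩ = true :=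
  cI_sel (by decide +kernel) rfl rfl rfl rfl rfl rfl rfl tj230 tj231 tj232 tj233 tj234 tj235 tj236

noncomputable def cj227 : Ct := .sel0 6 cj228 cj229

theorem tj227 : cI cj227 ⟨252, 304, 304, 0xc40000000200240000000000000000000000000000000000000000000000000, 8⟩ = true :=
  cI_sel0 (by decide +kernel) rfl rfl tj228 tj229

noncomputable def cj226 : Ct := .nxt 0 cj227 cj237

theorem tj226 : cI cj226 ⟨124, 252, 48, 0xc40000000200240000000000000000000000000000000000000000000000000, 7⟩ = true :=
  cI_nxt (by decide +kernel) rfl rfl tj227 tj237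

noncomputable def cj225 : Ct := .sel 5 cj226 cj238 cj239 cj240 cj241 cj242 cj243

theorem tj225 : cI cj225 ⟨124, 220, 48, 0xc40000000200240000000000000000000000000000000000000000000000000, 7⟩ = true :=
  cI_sel (by decide +kernel) rfl rfl rfl rfl rfl rfl rfl tj226 tj238 tj239 tj240 tj241 tj242 tj243

noncomputable def cj197 : Ct := .sel0 4 cj198 cj225

theorem tj197 : cI cj197 ⟨124, 204, 48, 0xc40000000000240000000000000000000000000000000000000000000000000, 7⟩ = true :=
  cI_sel0 (by decide +kernel) rfl rfl tj198 tj225

noncomputable def cj195 : Ct := .nxt 0 cj196 cj197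

theorem tj195 : cI cj195 ⟨60, 124, 48, 0xc40000000000240000000000000000000000000000000000000000000000000, 6⟩ = true :=
  cI_nxt (by decide +kernel) rfl rfl tj196 tj197

noncomputable def cj247 : Ct := .sel0 5 cj248 cj249

theorem tj247 : cI cj247 ⟨124, 220, 48, 0x40c40000000000240000000000000000000000000000000000000000000000000, 7⟩ = true :=
  cI_sel0 (by decide +kernel) rfl rfl tj248 tj249

noncomputable def cj246 : Ct := .sel0 4 cj247 cj250

theorem tj246 : cI cj246 ⟨124, 204, 48, 0x40c40000000000240000000000000000000000000000000000000000000000000, 7⟩ = true :=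
  cI_sel0 (by decide +kernel) rfl rfl tj247 tj250

noncomputable def cj244 : Ct := .nxt 0 cj245 cj246

theorem tj244 : cI cj244 ⟨60, 124, 48, 0x40c40000000000240000000000000000000000000000000000000000000000000, 6⟩ = true :=
  cI_nxt (by decide +kernel) rfl rfl tj245 tj246

noncomputable def cj194 : Ct := .sel0 5 cj195 cj244

theorem tj194 : cI cj194 ⟨60, 92, 48, 0xc40000000000240000000000000000000000000000000000000000000000000, 6⟩ = true :=
  cI_sel0 (by decide +kernel) rfl rfl tj195 tj244

noncomputable def cj255 : Ct := .sel0 5 cj256 cj257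

theorem tj255 : cI cj255 ⟨124, 220, 48, 0xc40000000040240000000000000000000000000000000000000000000000000, 7⟩ = true :=
  cI_sel0 (by decide +kernel) rfl rfl tj256 tj257

noncomputable def cj254 : Ct := .sel0 4 cj255 cj258

theorem tj254 : cI cj254 ⟨124, 204, 48, 0xc40000000040240000000000000000000000000000000000000000000000000, 7⟩ = true :=
  cI_sel0 (by decide +kernel) rfl rfl tj255 tj258

noncomputable def cj252 : Ct := .nxt 0 cj253 cj254

theorem tj252 : cI cj252 ⟨60, 124, 48, 0xc40000000040240000000000000000000000000000000000000000000000000, 6⟩ = true :=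
  cI_nxt (by decide +kernel) rfl rfl tj253 tj254

noncomputable def cj251 : Ct := .sel 5 cj252 cj259 cj260 cj261 cj262 cj263 cj264

theorem tj251 : cI cj251 ⟨60, 92, 48, 0xc40000000040240000000000000000000000000000000000000000000000000, 6⟩ = true :=
  cI_sel (by decide +kernel) rfl rfl rfl rfl rfl rfl rfl tj252 tj259 tj260 tj261 tj262 tj263 tj264

noncomputable def cj193 : Ct := .sel0 4 cj194 cj251

theorem tj193 : cI cj193 ⟨60, 76, 48, 0xc40000000000240000000000000000000000000000000000000000000000000, 6⟩ = true :=
  cI_sel0 (by decide +kernel) rfl rfl tj194 tj251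

noncomputable def cj191 : Ct := .nxt 0 cj192 cj193

theorem tj191 : cI cj191 ⟨28, 60, 48, 0xc40000000000240000000000000000000000000000000000000000000000000, 5⟩ = true :=
  cI_nxt (by decide +kernel) rfl rfl tj192 tj193

noncomputable def cj8 : Ct := .sel 3 cj9 cj10 cj11 cj100 cj101 cj190 cj191

theorem tj8 : cI cj8 ⟨28, 52, 48, 0x40000000000240000000000000000000000000000000000000000000000000, 5⟩ = true :=
  cI_sel (by decide +kernel) rfl rfl rfl rfl rfl rfl rfl tj9 tj10 tj11 tj100 tj101 tj190 tj191

noncomputable def cj6 : Ct := .sel0 2 cj7 cj8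

theorem tj6 : cI cj6 ⟨28, 48, 48, 0x240000000000000000000000000000000000000000000000000, 5⟩ = true :=
  cI_sel0 (by decide +kernel) rfl rfl tj7 tj8

noncomputable def cj5 : Ct := .nxt 0 cj6 cj265

theorem tj5 : cI cj5 ⟨12, 28, 16, 0x240000000000000000000000000000000000000000000000000, 4⟩ = true :=
  cI_nxt (by decide +kernel) rfl rfl tj6 tj265

noncomputable def cj3 : Ct := .sel1 3 cj4 cj5

theorem tj3 : cI cj3 ⟨12, 20, 16, 0x40000000000000000000000000000000000000000000000000, 4⟩ = true :=
  cI_sel1 (by decide +kernel) rfl rfl tj4 tj5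

noncomputable def cj1 : Ct := .sel0 2 cj2 cj3

theorem tj1 : cI cj1 ⟨12, 16, 16, 0x0, 4⟩ = true :=
  cI_sel0 (by decide +kernel) rfl rfl tj2 tj3

theorem in10 : inB tab 20 ⟨10, 8, 9⟩ cj1 = true := tj1

end ML

end Pool.Agent.Lib.MP_c69b6d_co.F
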