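import Pool.Agent.Lib.MP_c69b6d_co.F.Api3

/-! Real inequalities for the Lorentzian form `e2` in three variables. -/

namespace Pool.Agent.Lib.MP_c69b6d_co.F

open Finset

namespace Shp

theorem null_zero {a b c : ℝ} (h : a * b + a * c + b * c = 0) (s : a + b + c = 0) :
    a = 0 ∧ b = 0 ∧ c = 0 := by
  have h1 : a ^ 2 + b ^ 2 + c ^ 2 = 0 := by
    have : a ^ 2 + b ^ 2 + c ^ 2 = (a + b + c) ^ 2 - 2 * (a * b + a * c + b * c) := by ring
    rw [this, s, h]; ring
  refine ⟨?_, ?_, ?_⟩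
  · have : a ^ 2 = 0 := by nlinarith [sq_nonneg a, sq_nonneg b, sq_nonneg c]
    exact pow_eq_zero_iff (two_ne_zero) |>.1 this
  · have : b ^ 2 = 0 := by nlinarith [sq_nonneg a, sq_nonneg b, sq_nonneg c]
    exact pow_eq_zero_iff (two_ne_zero) |>.1 this
  · have : c ^ 2 = 0 := by nlinarith [sq_nonneg a, sq_nonneg b, sq_nonneg c]
    exact pow_eq_zero_iff (two_ne_zero) |>.1 this

theorem null_sq {a b c a' b' c' : ℝ} (h : a * b + a * c + b * c = 0)
    (h' : a' * b' + a' * c' + b' * c' = 0) :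
    2 * ((a + b + c) * (a' + b' + c')) * (a * (b' + c') + b * (a' + c') + c * (a' + b')) =
      ((a' + b' + c') * a - (a + b + c) * a') ^ 2 + ((a' + b' + c') * b - (a + b + c) * b') ^ 2 +
        ((a' + b' + c') * c - (a + b + c) * c') ^ 2 := by
  linear_combination (2 * (a' + b' + c') ^ 2) * h + (2 * (a + b + c) ^ 2) * h'

theorem null_r {a b c a' b' c' : ℝ} (h : a * b + a * c + b * c = 0) (s : 0 ≤ a + b + c)
    (h' : a' * b' + a' * c' + b' * c' = 0) (s' : 0 ≤ a' + b' + c') :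
    0 ≤ a * (b' + c') + b * (a' + c') + c * (a' + b') := by
  rcases s.eq_or_lt with e | s
  · obtain ⟨rfl, rfl, rfl⟩ := null_zero h e.symm
    simp
  rcases s'.eq_or_lt with e | s'
  · obtain ⟨rfl, rfl, rfl⟩ := null_zero h' e.symm
    simp
  have k := null_sq h h'
  have hp : 0 < 2 * ((a + b + c) * (a' + b' + c')) := by positivity
  refine le_of_mul_le_mul_left ?_ hp
  rw [k, mul_zero]; positivity

theorem gram {g1 g2 g3 a b c a' b' c' : ℝ} (h : a * b + a * c + b * c = 0) (s : 0 ≤ a + b + c)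
    (h' : a' * b' + a' * c' + b' * c' = 0) (s' : 0 ≤ a' + b' + c') :
    (g1 * g2 + g1 * g3 + g2 * g3) * (a * (b' + c') + b * (a' + c') + c * (a' + b')) ≤
      (g1 * (b + c) + g2 * (a + c) + g3 * (a + b)) *
        (g1 * (b' + c') + g2 * (a' + c') + g3 * (a' + b')) := by
  have hr := null_r h s h' s'
  set e := g1 * g2 + g1 * g3 + g2 * g3 with he
  set r := a * (b' + c') + b * (a' + c') + c * (a' + b') with hrd
  set p := g1 * (b + c) + g2 * (a + c) + g3 * (a + b) with hp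
  set q := g1 * (b' + c') + g2 * (a' + c') + g3 * (a' + b') with hq
  rcases hr.eq_or_lt with e0 | hr
  · rw [← e0, mul_zero]
    rcases s.eq_or_lt with e1 | s
    · obtain ⟨rfl, rfl, rfl⟩ := null_zero h e1.symm
      simp [hp]
    rcases s'.eq_or_lt with e1 | s'
    · obtain ⟨rfl, rfl, rfl⟩ := null_zero h' e1.symm
      simp [hq]
    have k := null_sq h h'
    rw [← hrd, ← e0, mul_zero] at k
    have k1 : (a' + b' + c') * a - (a + b + c) * a' = 0 := by
      apply pow_eq_zero_iff (two_ne_zero) |>.1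
      nlinarith [sq_nonneg ((a' + b' + c') * a - (a + b + c) * a'),
        sq_nonneg ((a' + b' + c') * b - (a + b + c) * b'),
        sq_nonneg ((a' + b' + c') * c - (a + b + c) * c')]
    have k2 : (a' + b' + c') * b - (a + b + c) * b' = 0 := by
      apply pow_eq_zero_iff (two_ne_zero) |>.1
      nlinarith [sq_nonneg ((a' + b' + c') * a - (a + b + c) * a'),
        sq_nonneg ((a' + b' + c') * b - (a + b + c) * b'),
        sq_nonneg ((a' + b' + c') * c - (a + b + c) * c')]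
    have k3 : (a' + b' + c') * c - (a + b + c) * c' = 0 := by
      apply pow_eq_zero_iff (two_ne_zero) |>.1
      nlinarith [sq_nonneg ((a' + b' + c') * a - (a + b + c) * a'),
        sq_nonneg ((a' + b' + c') * b - (a + b + c) * b'),
        sq_nonneg ((a' + b' + c') * c - (a + b + c) * c')]
    have k4 : (a' + b' + c') * (p * q) = (a + b + c) * q ^ 2 := by
      have : (a' + b' + c') * p = (a + b + c) * q := by
        rw [hp, hq]
        linear_combination (g2 + g3) * k1 + (g1 + g3) * k2 + (g1 + g2) * k3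
      linear_combination q * this
    refine le_of_mul_le_mul_left ?_ s'
    rw [k4, mul_zero]; positivity
  · have key : r * (p * q - e * r) =
        (g1 * (b * c' - c * b') - g2 * (a * c' - c * a') + g3 * (a * b' - b * a')) ^ 2 := by
      rw [he, hrd, hp, hq]
      linear_combination
        ((g1 * (b' + c') + g2 * (a' + c') + g3 * (a' + b')) ^ 2) * h +
        ((g1 * (b + c) + g2 * (a + c) + g3 * (a + b)) ^ 2 -
          4 * (g1 * g2 + g1 * g3 + g2 * g3) * (a * b + a * c + b * c)) * h'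
    have : 0 ≤ p * q - e * r := by
      refine le_of_mul_le_mul_left ?_ hr
      rw [key, mul_zero]; positivity
    linarith

/-- the shape of a generating polynomial on a triangle. -/
def tf (H2 Wa Wb Wc H0 u v w : ℝ) : ℝ :=
  H2 + Wa * u + Wb * v + Wc * w + H0 * (u * v + u * w + v * w)

theorem tri_ineq {H2 Wa Wb Wc H0 u v w a b c a' b' c' : ℝ}
    (hd : 4 * H0 * H2 ≤ 2 * (Wa * Wb + Wa * Wc + Wb * Wc) - (Wa ^ 2 + Wb ^ 2 + Wc ^ 2))
    (h : a * b + a * c + b * c = 0) (s : 0 ≤ a + b + c)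
    (h' : a' * b' + a' * c' + b' * c' = 0) (s' : 0 ≤ a' + b' + c') :
    tf H2 Wa Wb Wc H0 u v w * tf H2 Wa Wb Wc H0 (u + a + a') (v + b + b') (w + c + c') ≤
      tf H2 Wa Wb Wc H0 (u + a) (v + b) (w + c) * tf H2 Wa Wb Wc H0 (u + a') (v + b') (w + c') := by
  have hr := null_r h s h' s'
  have hg := gram (g1 := H0 * u + (Wb + Wc - Wa) / 2) (g2 := H0 * v + (Wa + Wc - Wb) / 2)
    (g3 := H0 * w + (Wa + Wb - Wc) / 2) h s h' s'
  set g1 := H0 * u + (Wb + Wc - Wa) / 2 with hg1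
  set g2 := H0 * v + (Wa + Wc - Wb) / 2 with hg2
  set g3 := H0 * w + (Wa + Wb - Wc) / 2 with hg3
  set r := a * (b' + c') + b * (a' + c') + c * (a' + b') with hrd
  set p := g1 * (b + c) + g2 * (a + c) + g3 * (a + b) with hp
  set q := g1 * (b' + c') + g2 * (a' + c') + g3 * (a' + b') with hq
  set f := tf H2 Wa Wb Wc H0 u v w with hf
  have e1 : tf H2 Wa Wb Wc H0 (u + a) (v + b) (w + c) = f + p := by
    rw [hf, hp, hg1, hg2, hg3]; unfold tf; linear_combination H0 * h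
  have e2 : tf H2 Wa Wb Wc H0 (u + a') (v + b') (w + c') = f + q := by
    rw [hf, hq, hg1, hg2, hg3]; unfold tf; linear_combination H0 * h'
  have e3 : tf H2 Wa Wb Wc H0 (u + a + a') (v + b + b') (w + c + c') = f + p + q + H0 * r := by
    rw [hf, hp, hq, hrd, hg1, hg2, hg3]; unfold tf; linear_combination H0 * h + H0 * h'
  have e4 : H0 * f = (g1 * g2 + g1 * g3 + g2 * g3) -
      (2 * (Wa * Wb + Wa * Wc + Wb * Wc) - (Wa ^ 2 + Wb ^ 2 + Wc ^ 2) - 4 * H0 * H2) / 4 := by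
    rw [hf, hg1, hg2, hg3]; unfold tf; ring
  have e5 : 0 ≤ (2 * (Wa * Wb + Wa * Wc + Wb * Wc) - (Wa ^ 2 + Wb ^ 2 + Wc ^ 2) - 4 * H0 * H2) / 4
      * r := mul_nonneg (by linarith) hr
  rw [e1, e2, e3]
  have e6 : f * (f + p + q + H0 * r) = f * f + f * p + f * q + (H0 * f) * r := by ring
  rw [e6, e4]
  nlinarith

/-- the inequality for all isotropic moves. -/
def Q3 (H2 Wa Wb Wc H0 : ℝ) : Prop :=
  ∀ u v w a b c a' b' c' : ℝ, a * b + a * c + b * c = 0 → 0 ≤ a + b + c →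
    a' * b' + a' * c' + b' * c' = 0 → 0 ≤ a' + b' + c' → 0 ≤ u → 0 ≤ v → 0 ≤ w →
    0 ≤ u + a → 0 ≤ v + b → 0 ≤ w + c → 0 ≤ u + a' → 0 ≤ v + b' → 0 ≤ w + c' →
    0 ≤ u + a + a' → 0 ≤ v + b + b' → 0 ≤ w + c + c' →
    tf H2 Wa Wb Wc H0 u v w * tf H2 Wa Wb Wc H0 (u + a + a') (v + b + b') (w + c + c') ≤
      tf H2 Wa Wb Wc H0 (u + a) (v + b) (w + c) * tf H2 Wa Wb Wc H0 (u + a') (v + b') (w + c')

theorem Q3.swap12 {H2 Wa Wb Wc H0 : ℝ} (h : Q3 H2 Wa Wb Wc H0) : Q3 H2 Wb Wa Wc H0 := by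
  intro u v w a b c a' b' c' n s n' s' h1 h2 h3 h4 h5 h6 h7 h8 h9 h10 h11 h12
  have := h v u w b a c b' a' c' (by linarith) (by linarith) (by linarith) (by linarith)
    h2 h1 h3 h5 h4 h6 h8 h7 h9 h11 h10 h12
  unfold tf at this ⊢
  linarith

theorem Q3.swap13 {H2 Wa Wb Wc H0 : ℝ} (h : Q3 H2 Wa Wb Wc H0) : Q3 H2 Wc Wb Wa H0 := by
  intro u v w a b c a' b' c' n s n' s' h1 h2 h3 h4 h5 h6 h7 h8 h9 h10 h11 h12
  have := h w v u c b a c' b' a' (by linarith) (by linarith) (by linarith) (by linarith)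
    h3 h2 h1 h6 h5 h4 h9 h8 h7 h12 h11 h10
  unfold tf at this ⊢
  linarith

theorem Q3.one {H2 Wa Wb Wc H0 : ℝ} (h : Q3 H2 Wa Wb Wc H0) (hb : Wb ≤ Wa + Wc)
    (hc : Wc ≤ Wa + Wb) (ha : 0 < Wa) :
    4 * H0 * H2 ≤ 2 * (Wa * Wb + Wa * Wc + Wb * Wc) - (Wa ^ 2 + Wb ^ 2 + Wc ^ 2) := by
  obtain ⟨β, hβ⟩ : ∃ β, β = (Wa + Wc - Wb) / 2 := ⟨_, rfl⟩
  obtain ⟨γ, hγ⟩ : ∃ γ, γ = (Wa + Wb - Wc) / 2 := ⟨_, rfl⟩
  have b0 : 0 ≤ β := by linarith
  have c0 : 0 ≤ γ := by linarith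
  have hs : Wa = β + γ := by linarith
  have bc : 0 ≤ β * γ := mul_nonneg b0 c0
  have k := h (β * γ) 0 0 1 0 0 (-(β * γ)) (β * Wa) (γ * Wa) (by ring) (by norm_num)
    (by rw [hs]; ring) (by rw [hs]; nlinarith [sq_nonneg β, sq_nonneg γ]) bc le_rfl le_rfl
    (by linarith) (by norm_num) (by norm_num) (by linarith) (by positivity) (by positivity)
    (by linarith) (by positivity) (by positivity)
  have e : tf H2 Wa Wb Wc H0 (β * γ + 1) (0 + 0) (0 + 0) *
      tf H2 Wa Wb Wc H0 (β * γ + -(β * γ)) (0 + β * Wa) (0 + γ * Wa) -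
      tf H2 Wa Wb Wc H0 (β * γ) 0 0 *
      tf H2 Wa Wb Wc H0 (β * γ + 1 + -(β * γ)) (0 + 0 + β * Wa) (0 + 0 + γ * Wa) =
      Wa ^ 2 / 4 * (2 * (Wa * Wb + Wa * Wc + Wb * Wc) - (Wa ^ 2 + Wb ^ 2 + Wc ^ 2) -
        4 * H0 * H2) := by
    unfold tf; rw [hβ, hγ]; ring
  have hp : 0 < Wa ^ 2 / 4 := by positivity
  have : 0 ≤ 2 * (Wa * Wb + Wa * Wc + Wb * Wc) - (Wa ^ 2 + Wb ^ 2 + Wc ^ 2) - 4 * H0 * H2 := by
    refine le_of_mul_le_mul_left ?_ hp
    rw [← e, mul_zero]; linarith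
  linarith

theorem Q3.disc {H2 Wa Wb Wc H0 : ℝ} (h : Q3 H2 Wa Wb Wc H0) (ha : 0 ≤ Wa) (hb : 0 ≤ Wb)
    (hc : 0 ≤ Wc) :
    4 * H0 * H2 ≤ 2 * (Wa * Wb + Wa * Wc + Wb * Wc) - (Wa ^ 2 + Wb ^ 2 + Wc ^ 2) := by
  have A : Wb ≤ Wa + Wc → Wc ≤ Wa + Wb → 0 < Wa →
      4 * H0 * H2 ≤ 2 * (Wa * Wb + Wa * Wc + Wb * Wc) - (Wa ^ 2 + Wb ^ 2 + Wc ^ 2) := h.one
  have B : Wa ≤ Wb + Wc → Wc ≤ Wb + Wa → 0 < Wb →
      4 * H0 * H2 ≤ 2 * (Wa * Wb + Wa * Wc + Wb * Wc) - (Wa ^ 2 + Wb ^ 2 + Wc ^ 2) :=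
    fun h1 h2 h3 => by have := h.swap12.one h1 h2 h3; linarith
  have C : Wb ≤ Wc + Wa → Wa ≤ Wc + Wb → 0 < Wc →
      4 * H0 * H2 ≤ 2 * (Wa * Wb + Wa * Wc + Wb * Wc) - (Wa ^ 2 + Wb ^ 2 + Wc ^ 2) :=
    fun h1 h2 h3 => by have := h.swap13.one h1 h2 h3; linarith
  by_cases h1 : Wb + Wc < Wa
  · exact A (by linarith) (by linarith) (by linarith)
  by_cases h2 : Wa + Wc < Wb
  · exact B (by linarith) (by linarith) (by linarith)
  by_cases h3 : Wa + Wb < Wc
  · exact C (by linarith) (by linarith) (by linarith)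
  rcases ha.eq_or_lt with ea | ha
  · rcases hb.eq_or_lt with eb | hb
    · have ec : Wc = 0 := by linarith
      subst ea eb ec
      have k := h 0 0 0 1 0 0 0 1 0 (by norm_num) (by norm_num) (by norm_num) (by norm_num)
        le_rfl le_rfl le_rfl (by norm_num) (by norm_num) (by norm_num) (by norm_num) (by norm_num)
        (by norm_num) (by norm_num) (by norm_num) (by norm_num)
      unfold tf at k
      nlinarith
    · exact B (by linarith) (by linarith) hb
  · exact A (by linarith) (by linarith) ha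

theorem iso3 {a b c : ℕ} (hab : a ≠ b) (hac : a ≠ c) (hbc : b ≠ c) {τ : ℕ → ℝ} :
    Iso {a, b, c} τ ↔ (∀ i, i ≠ a → i ≠ b → i ≠ c → τ i = 0) ∧
      τ a * τ b + τ a * τ c + τ b * τ c = 0 ∧ 0 ≤ τ a + τ b + τ c := by
  have h1 : a ∉ ({b, c} : Finset ℕ) := by simp [hab, hac]
  unfold Iso
  rw [sum_insert h1, sum_insert h1, sum_pair hbc, sum_pair hbc]
  constructor
  · rintro ⟨k1, k2, k3⟩
    exact ⟨fun i i1 i2 i3 => k1 i (by simp [i1, i2, i3]), by linarith, by linarith⟩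
  · rintro ⟨k1, k2, k3⟩
    refine ⟨fun i hi => ?_, by linarith, by linarith⟩
    simp only [mem_insert, mem_singleton, not_or] at hi
    exact k1 i hi.1 hi.2.1 hi.2.2

/-- the inversion maps isotropic moves to reversed isotropic moves. -/
theorem inv_iso {u v w a b c : ℝ} (hu : 0 < u) (hv : 0 < v) (hw : 0 < w) (hu' : 0 < u + a)
    (hv' : 0 < v + b) (hw' : 0 < w + c) (h : a * b + a * c + b * c = 0) (s : 0 ≤ a + b + c) :
    let E := u * v + u * w + v * w
    let E' := (u + a) * (v + b) + (u + a) * (w + c) + (v + b) * (w + c)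
    (u / E - (u + a) / E') * (w / E - (w + c) / E') + (u / E - (u + a) / E') *
      (v / E - (v + b) / E') + (w / E - (w + c) / E') * (v / E - (v + b) / E') = 0 ∧
    0 ≤ (u / E - (u + a) / E') + (w / E - (w + c) / E') + (v / E - (v + b) / E') := by
  intro E E'
  have hE : 0 < E := by positivity
  have hE' : 0 < E' := by positivity
  constructor
  · have : (u / E - (u + a) / E') * (w / E - (w + c) / E') + (u / E - (u + a) / E') *
      (v / E - (v + b) / E') + (w / E - (w + c) / E') * (v / E - (v + b) / E') =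
        (E * E' ^ 2 + E' * E ^ 2 - E * E' * (u * (v + b + (w + c)) + v * (u + a + (w + c)) +
          w * (u + a + (v + b)))) / (E ^ 2 * E' ^ 2) := by
      field_simp
      simp only [E, E']
      ring
    rw [this]
    have : E * E' ^ 2 + E' * E ^ 2 - E * E' * (u * (v + b + (w + c)) + v * (u + a + (w + c)) +
          w * (u + a + (v + b))) = E * E' * (a * b + a * c + b * c) := by
      simp only [E, E']; ring
    rw [this, h]; simp
  · have : (u / E - (u + a) / E') + (w / E - (w + c) / E') + (v / E - (v + b) / E') =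
        ((u + v + w) * E' - (u + v + w + (a + b + c)) * E) / (E * E') := by
      field_simp
      ring
    rw [this]
    apply div_nonneg _ (by positivity)
    rcases s.eq_or_lt with e | s
    · obtain ⟨rfl, rfl, rfl⟩ := null_zero h e.symm
      simp [E, E']
    · refine le_of_mul_le_mul_left ?_ (mul_pos two_pos s)
      have : 2 * (a + b + c) * ((u + v + w) * E' - (u + v + w + (a + b + c)) * E) =
          ((u + v + w) * a - (a + b + c) * u) ^ 2 + ((u + v + w) * b - (a + b + c) * v) ^ 2 +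
            ((u + v + w) * c - (a + b + c) * w) ^ 2 := by
        simp only [E, E']
        linear_combination (2 * (u + v + w) ^ 2 + 2 * (a + b + c) * (u + v + w)) * h
      rw [this, mul_zero]; positivity

end Shp

end Pool.Agent.Lib.MP_c69b6d_co.F
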