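import Pool.Agent.Lib.MP_c69b6d_co.F.Sharpa

/-! Splitting the generating polynomial along three elements; the codes of a wye-delta pair. -/

namespace Pool.Agent.Lib.MP_c69b6d_co.F

open Finset Disp

namespace Shp

variable {K : Type} [Field K]

open Classical in
/-- the indicator of a base. -/
noncomputable def ind (D : Disp K) (F : Finset ℕ) : ℝ := if D.Base F then 1 else 0

theorem ind_nonneg (D : Disp K) (F : Finset ℕ) : 0 ≤ ind D F := by
  unfold ind; split_ifs <;> norm_num

theorem ind_congr {D E : Disp K} {F G : Finset ℕ} (h : D.Base F ↔ E.Base G) :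
    ind D F = ind E G := by
  unfold ind; by_cases k : E.Base G
  · rw [if_pos k, if_pos (h.2 k)]
  · rw [if_neg k, if_neg (fun k' => k (h.1 k'))]

theorem ind_zero {D : Disp K} {F : Finset ℕ} (h : ¬ D.Base F) : ind D F = 0 := by
  unfold ind; rw [if_neg h]

/-- the ground set without `a, b, c`. -/
def rest (Z : Finset ℕ) (a b c : ℕ) : Finset ℕ := ((Z.erase a).erase b).erase c

theorem mem_rest {Z : Finset ℕ} {a b c i : ℕ} :
    i ∈ rest Z a b c ↔ i ∈ Z ∧ i ≠ a ∧ i ≠ b ∧ i ≠ c := by
  unfold rest; simp only [mem_erase]; tauto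

theorem W_three (D : Disp K) {a b c : ℕ} (hab : a ≠ b) (hac : a ≠ c) (hbc : b ≠ c)
    (ha : a ∈ D.Z) (hb : b ∈ D.Z) (hc : c ∈ D.Z) (y : ℕ → ℝ) :
    D.W y = ∑ F ∈ (rest D.Z a b c).powerset, (∏ i ∈ F, y i) *
      (ind D F + ind D (insert a F) * y a + ind D (insert b F) * y b + ind D (insert c F) * y c +
        ind D (insert a (insert b F)) * (y a * y b) + ind D (insert a (insert c F)) * (y a * y c) +
        ind D (insert b (insert c F)) * (y b * y c) +
        ind D (insert a (insert b (insert c F))) * (y a * y b * y c)) := by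
  have hZ : D.Z = insert a (insert b (insert c (rest D.Z a b c))) := by
    ext i
    simp only [mem_insert, mem_rest]
    constructor
    · intro h; tauto
    · rintro (rfl | rfl | rfl | h)
      exacts [ha, hb, hc, h.1]
  have nc : c ∉ rest D.Z a b c := by simp [mem_rest]
  have nb : b ∉ insert c (rest D.Z a b c) := by simp [mem_rest, hbc]
  have na : a ∉ insert b (insert c (rest D.Z a b c)) := by simp [mem_rest, hab, hac]
  have e : D.W y = ∑ F ∈ D.Z.powerset, ind D F * ∏ i ∈ F, y i := by
    unfold Disp.W ind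
    refine sum_congr rfl fun F _ => ?_
    split_ifs <;> simp
  rw [e]
  conv_lhs => rw [hZ]
  rw [sum_powerset_insert na, sum_powerset_insert nb, sum_powerset_insert nb,
    sum_powerset_insert nc, sum_powerset_insert nc, sum_powerset_insert nc,
    sum_powerset_insert nc]
  simp only [← sum_add_distrib]
  refine sum_congr rfl fun F hF => ?_
  have hF' := mem_powerset.1 hF
  have fa : a ∉ F := fun h => (mem_rest.1 (hF' h)).2.1 rfl
  have fb : b ∉ F := fun h => (mem_rest.1 (hF' h)).2.2.1 rfl
  have fc : c ∉ F := fun h => (mem_rest.1 (hF' h)).2.2.2 rfl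
  have fab : a ∉ insert b F := by simp [hab, fa]
  have fac : a ∉ insert c F := by simp [hac, fa]
  have fbc : b ∉ insert c F := by simp [hbc, fb]
  have fabc : a ∉ insert b (insert c F) := by simp [hab, hac, fa]
  rw [prod_insert fabc, prod_insert fab, prod_insert fac, prod_insert fbc, prod_insert fa,
    prod_insert fb, prod_insert fc]
  ring

theorem tri_mem {D : Disp K} {T : Finset ℕ} (h : D.Tri T) : T ⊆ D.Z := by
  obtain ⟨-, d, hd, hs⟩ := h
  intro i hi
  by_contra hn
  exact (hs i).2 hi ((mem_flip_code.1 hd).1 i hn)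

theorem tri_rel {D : Disp K} {a b c : ℕ} (hab : a ≠ b) (hac : a ≠ c) (hbc : b ≠ c)
    (h : D.Tri {a, b, c}) : ∃ α β γ : K, α ≠ 0 ∧ β ≠ 0 ∧ γ ≠ 0 ∧
      ∀ w ∈ D.code, w a * α + w b * β + w c * γ = 0 := by
  have hT := tri_mem h
  obtain ⟨-, d, hd, hs⟩ := h
  refine ⟨d a, d b, d c, (hs a).2 (by simp), (hs b).2 (by simp), (hs c).2 (by simp),
    fun w hw => ?_⟩
  have h1 : a ∉ ({b, c} : Finset ℕ) := by simp [hab, hac]
  have k := orth hw hd
  rw [← sum_subset hT (fun i _ hi => by
    have : d i = 0 := by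
      by_contra hn; exact hi ((hs i).1 hn)
    rw [this, mul_zero]), sum_insert h1, sum_pair hbc] at k
  linear_combination k

theorem tri_not_base {D : Disp K} {T F : Finset ℕ} (h : D.Tri T) (hF : T ⊆ F) : ¬ D.Base F := by
  obtain ⟨h3, d, hd, hs⟩ := h
  intro hB
  have k := (base_iff_indep.1 hB).2.2 d hd (fun i hi => by
    by_contra hn; exact hi (hF ((hs i).1 hn)))
  obtain ⟨i, hi⟩ : T.Nonempty := card_pos.1 (by omega)
  exact (hs i).2 hi (by rw [k]; rfl)

theorem base_exch {D : Disp K} {a b c : ℕ} {F : Finset ℕ} (hc : c ∈ D.Z) (hab : a ≠ b)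
    (hac : a ≠ c) (fa : a ∉ F) (fb : b ∉ F) (fc : c ∉ F) {α β γ : K} (hβ : β ≠ 0)
    (h : ∀ w ∈ D.code, w a * α + w b * β + w c * γ = 0) (hB : D.Base (insert a (insert b F))) :
    D.Base (insert a (insert c F)) := by
  obtain ⟨h1, h2, h3⟩ := hB
  refine ⟨?_, ?_, fun w hw h0 => h3 w hw ?_⟩
  · intro i hi
    simp only [mem_insert] at hi
    rcases hi with rfl | rfl | hi
    · exact h1 (by simp)
    · exact hc
    · exact h1 (by simp [hi])
  · rw [← h2, card_insert_of_notMem (by simp [hac, fa]), card_insert_of_notMem fc,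
      card_insert_of_notMem (by simp [hab, fa]), card_insert_of_notMem fb]
  · intro i hi
    simp only [mem_insert] at hi
    rcases hi with rfl | rfl | hi
    · exact h0 _ (by simp)
    · have k := h w hw
      rw [h0 a (by simp), h0 c (by simp)] at k
      simpa [hβ] using k
    · exact h0 _ (by simp [hi])

theorem tri_bases {D : Disp K} {a b c : ℕ} (hab : a ≠ b) (hac : a ≠ c) (hbc : b ≠ c)
    (h : D.Tri {a, b, c}) {F : Finset ℕ} (fa : a ∉ F) (fb : b ∉ F) (fc : c ∉ F) :
    (D.Base (insert a (insert c F)) ↔ D.Base (insert a (insert b F))) ∧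
      (D.Base (insert b (insert c F)) ↔ D.Base (insert a (insert b F))) := by
  have hT := tri_mem h
  have ha : a ∈ D.Z := hT (by simp)
  have hb : b ∈ D.Z := hT (by simp)
  have hc : c ∈ D.Z := hT (by simp)
  obtain ⟨α, β, γ, hα, hβ, hγ, k⟩ := tri_rel hab hac hbc h
  refine ⟨⟨fun hB => ?_, fun hB => ?_⟩, ⟨fun hB => ?_, fun hB => ?_⟩⟩
  · exact base_exch (α := α) (γ := β) hb hac hab fa fc fb hγ
      (fun w hw => by linear_combination k w hw) hB
  · exact base_exch hc hab hac fa fb fc hβ k hB
  · rw [Finset.insert_comm]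
    exact base_exch (α := β) (γ := α) ha hbc hab.symm fb fc fa hγ
      (fun w hw => by linear_combination k w hw) hB
  · rw [Finset.insert_comm] at hB
    exact base_exch (α := β) (γ := γ) hc hab.symm hbc fb fa fc hα
      (fun w hw => by linear_combination k w hw) hB

end Shp

end Pool.Agent.Lib.MP_c69b6d_co.F
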