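import Pool.Agent.Lib.MP_c69b6d_co.F.SBM
import Pool.Agent.Lib.MP_c69b6d_co.F.SBAw
import Pool.Agent.Lib.MP_c69b6d_co.F.SBCe
import Pool.Agent.Lib.MP_c69b6d_co.F.SBCf
import Pool.Agent.Lib.MP_c69b6d_co.F.SBT1
import Pool.Agent.Lib.MP_c69b6d_co.F.SBT4

/-! Stage B: a ternary display without a member of `NL` as a minor has the Rayleigh property. -/

namespace Pool.Agent.Lib.MP_c69b6d_co.F

open Finset Disp

namespace ML

theorem tab_OK : ∀ i < 20, (nth tab i).OK := by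
  intro i hi
  interval_cases i
  · exact ⟨_, _, tab_ok0⟩
  · exact ⟨_, _, tab_ok1⟩
  · exact ⟨_, _, tab_ok2⟩
  · exact ⟨_, _, tab_ok3⟩
  · exact ⟨_, _, tab_ok4⟩
  · exact ⟨_, _, tab_ok5⟩
  · exact ⟨_, _, tab_ok6⟩
  · exact ⟨_, _, tab_ok7⟩
  · exact ⟨_, _, tab_ok8⟩
  · exact ⟨_, _, tab_ok9⟩
  · exact ⟨_, _, tab_ok10⟩
  · exact ⟨_, _, tab_ok11⟩
  · exact ⟨_, _, tab_ok12⟩
  · exact ⟨_, _, tab_ok13⟩
  · exact ⟨_, _, tab_ok14⟩
  · exact ⟨_, _, tab_ok15⟩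
  · exact ⟨_, _, tab_ok16⟩
  · exact ⟨_, _, tab_ok17⟩
  · exact ⟨_, _, tab_ok18⟩
  · exact ⟨_, _, tab_ok19⟩

theorem dead0 : ∀ i < 0, Dead (nth tab i) := fun _ h => absurd h (Nat.not_lt_zero _)

theorem dead4 : ∀ i < 4, Dead (nth tab i) := by
  refine round dead0 (fun i hi => tab_OK i (by omega)) fun i h1 h2 => ?_
  interval_cases i
  · exact ⟨_, _, _, nd0⟩
  · exact ⟨_, _, _, nd1⟩
  · exact ⟨_, _, _, nd2⟩
  · exact ⟨_, _, _, nd3⟩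

theorem dead10 : ∀ i < 10, Dead (nth tab i) := by
  refine round dead4 (fun i hi => tab_OK i (by omega)) fun i h1 h2 => ?_
  interval_cases i
  · exact ⟨_, _, _, nd4⟩
  · exact ⟨_, _, _, nd5⟩
  · exact ⟨_, _, _, nd6⟩
  · exact ⟨_, _, _, nd7⟩
  · exact ⟨_, _, _, nd8⟩
  · exact ⟨_, _, _, nd9⟩

theorem dead15 : ∀ i < 15, Dead (nth tab i) := by
  refine round dead10 (fun i hi => tab_OK i (by omega)) fun i h1 h2 => ?_
  interval_cases i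
  · exact ⟨_, _, _, nd10⟩
  · exact ⟨_, _, _, nd11⟩
  · exact ⟨_, _, _, nd12⟩
  · exact ⟨_, _, _, nd13⟩
  · exact ⟨_, _, _, nd14⟩

theorem dead20 : ∀ i < 20, Dead (nth tab i) := by
  refine round dead15 (fun i hi => tab_OK i (by omega)) fun i h1 h2 => ?_
  interval_cases i
  · exact ⟨_, _, _, nd15⟩
  · exact ⟨_, _, _, nd16⟩
  · exact ⟨_, _, _, nd17⟩
  · exact ⟨_, _, _, nd18⟩
  · exact ⟨_, _, _, nd19⟩

theorem ml : MLStmt := ml_of (dead_of dead20 in8 in9 in10)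

end ML

theorem SR_of_Free (D : Disp F3) (hD : Free NL D) : D.SR := SR_of_free ML.ml _ _ D rfl rfl hD

theorem stageB (D : Disp F3) (hD : Free NL D) : D.Ray := stageB_of ML.ml D hD

end Pool.Agent.Lib.MP_c69b6d_co.F
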