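import Pool.Agent.Lib.MP_c69b6d_co.F.ThmA
import Pool.Agent.Lib.MP_c69b6d_co.F.Lam

/-! The induction step, part a: the context, points on the guts line, mates. -/

namespace Pool.Agent.Lib.MP_c69b6d_co.F

open Finset Disp

namespace StepAux

theorem sq1 : ∀ s : F3, s ≠ 0 → s * s = 1 := by decide

/-- the first coordinates of the three tame points. -/
def al : Fin 3 → F3 := ![1, 0, 1]

/-- the second coordinates of the three tame points. -/
def be : Fin 3 → F3 := ![0, 1, -1]

theorem pt_cases : ∀ x y : F3, (x = 0 ∧ y = 0) ∨ (x = y) ∨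
    ∃ k : Fin 3, ∃ s : F3, s ≠ 0 ∧ x = s * al k ∧ y = s * be k := by decide

theorem albe_ind : ∀ k l : Fin 3, k ≠ l → al k * be l ≠ al l * be k := by decide

theorem albe_ne : ∀ k : Fin 3, ¬ (al k = 0 ∧ be k = 0) := by decide

theorem dep_cases : ∀ x y x' y' : F3, ¬ (x = 0 ∧ y = 0) → ¬ (x' = 0 ∧ y' = 0) →
    x * y' = x' * y → ∃ s : F3, s ≠ 0 ∧ x = s * x' ∧ y = s * y' := by decide

theorem span2 : ∀ k l : Fin 3, k ≠ l → ∀ x y : F3, ∃ u v : F3,
    x = u * al k + v * al l ∧ y = u * be k + v * be l := by decide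

theorem img3 (ν : Fin 3 → ℕ) : univ.image ν = {ν 0, ν 1, ν 2} := by
  ext i
  simp only [mem_image, mem_univ, true_and, mem_insert, mem_singleton]
  constructor
  · rintro ⟨k, rfl⟩
    fin_cases k <;> simp
  · rintro (h | h | h) <;> exact ⟨_, h.symm⟩

/-- the entry in the row `i` of the vector which represents the element `e`. -/
def vec (D : Disp F3) (i e : ℕ) : F3 := (if i = e then 1 else 0) + D.S i e

theorem sum_supp {d f : ℕ → F3} {Z T : Finset ℕ} (hT : T ⊆ Z) (hs : Supp d T) :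
    ∑ j ∈ Z, d j * f j = ∑ j ∈ T, d j * f j := by
  symm
  refine sum_subset hT fun j _ hj => ?_
  have : d j = 0 := by
    by_contra h
    exact hj ((hs j).1 h)
  rw [this, zero_mul]

theorem supp_sub {D : Disp F3} {d : ℕ → F3} {T : Finset ℕ} (hd : d ∈ D.flip.code)
    (hs : Supp d T) : T ⊆ D.Z := by
  intro i hi
  by_contra h
  exact (hs i).2 hi ((mem_flip_code.1 hd).1 i h)

theorem flip_rel {D : Disp F3} {d : ℕ → F3} {u v z : ℕ} (huv : u ≠ v) (huz : u ≠ z) (hvz : v ≠ z)
    (hd : d ∈ D.flip.code) (hs : Supp d {u, v, z}) {i : ℕ} (hi : i ∈ D.Z) (hr : D.row i = true) :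
    d u * vec D i u + d v * vec D i v + d z * vec D i z = 0 := by
  have h := (mem_flip_code.1 hd).2 i hi hr
  rw [sum_supp (supp_sub hd hs) hs, sum_insert (by simp [huv, huz]), sum_insert (by simp [hvz]),
    sum_singleton, D.skew u i, D.skew v i, D.skew z i] at h
  unfold vec
  by_cases h1 : i = u
  · subst h1
    simp only [if_true, huv, huz, if_false]
    linear_combination h
  · by_cases h2 : i = v
    · subst h2
      simp only [if_true, h1, hvz, if_false]
      linear_combination h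
    · by_cases h3 : i = z
      · subst h3
        simp only [if_true, h1, h2, if_false]
        linear_combination h
      · have : d i = 0 := by
          by_contra h0
          have := (hs i).1 h0
          simp [h1, h2, h3] at this
        simp only [h1, h2, h3, if_false]
        linear_combination h - this

theorem tri_par {D : Disp F3} {u v : ℕ} {T : Finset ℕ} (hp : D.Par u v) (ht : D.Tri T)
    (hu : u ∈ T) (hv : v ∉ T) : D.Tri (insert v (T.erase u)) := by
  obtain ⟨huv, e, he, hse⟩ := hp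
  obtain ⟨h3, d, hd, hsd⟩ := ht
  have eu : e u ≠ 0 := (hse u).2 (by simp)
  have ev : e v ≠ 0 := (hse v).2 (by simp)
  have du : d u ≠ 0 := (hsd u).2 hu
  have dv : d v = 0 := by
    by_contra h
    exact hv ((hsd v).1 h)
  refine ⟨?_, e u • d - d u • e, Submodule.sub_mem _ (Submodule.smul_mem _ _ hd)
    (Submodule.smul_mem _ _ he), fun i => ?_⟩
  · rw [card_insert_of_notMem (by simp [hv]), card_erase_of_mem hu, h3]
  · simp only [Pi.sub_apply, Pi.smul_apply, smul_eq_mul, mem_insert, mem_erase]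
    by_cases h1 : i = u
    · subst h1
      simp [mul_comm, huv]
    · by_cases h2 : i = v
      · subst h2
        simp [dv, du, ev]
      · have : e i = 0 := by
          by_contra h
          have := (hse i).1 h
          simp [h1, h2] at this
        simp only [this, mul_zero, sub_zero, ne_eq, mul_eq_zero, eu, false_or, h1, h2,
          not_false_eq_true, true_and]
        exact hsd i

theorem valid_par {𝓛 : List (Disp F3)} {D : Disp F3} {u v : ℕ} {T : Finset ℕ} (hp : D.Par u v)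
    (hv : v ∈ T) (hu : u ∉ T) (h : Valid 𝓛 D T) : Valid 𝓛 D (insert u (T.erase v)) := by
  obtain ⟨E, ε, hr, he⟩ := hp.swap_emb
  refine Valid.emb hr he ?_ ?_
  · intro i hi
    rcases mem_insert.1 hi with rfl | hi
    · exact hp.mem.1
    · exact h.subset (mem_of_mem_erase hi)
  · have : (insert u (T.erase v)).image (Equiv.swap u v) = T := by
      ext i
      simp only [mem_image, mem_insert, mem_erase]
      constructor
      · rintro ⟨j, rfl | ⟨h1, h2⟩, rfl⟩
        · simpa using hv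
        · rw [Equiv.swap_apply_of_ne_of_ne (by rintro rfl; exact hu h2) h1]
          exact h2
      · intro hi
        by_cases h1 : i = v
        · exact ⟨u, Or.inl rfl, by simp [h1]⟩
        · exact ⟨i, Or.inr ⟨h1, hi⟩, Equiv.swap_apply_of_ne_of_ne (by rintro rfl; exact hu hi) h1⟩
    rw [this]
    exact h

/-- the data of the induction step after the guts columns are moved and the three fresh columns
are added. -/
structure Ctx (𝓛 𝓝 : List (Disp F3)) (E R D : Disp F3) (X Y : Finset ℕ)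
    (a b c p t1 t2 t3 : ℕ) (ρ : Fin 3 → ℕ) : Prop where
  nf : NF E R X Y (fun i => E.S i b) (fun i => E.S i c) t1 t2 t3
  ma : a ∈ Y
  mb : b ∈ Y
  mc : c ∈ Y
  mp : p ∈ E.Z
  ra : E.row a = true
  rb : E.row b = false
  rc : E.row c = false
  rp : E.row p = false
  pe : ∀ i ∈ X, E.S i p = E.S i b - E.S i c
  bc : b ≠ c
  bp : b ≠ p
  cp : c ≠ p
  ab : E.S a b = 1
  ac : E.S a c = 1
  ap : E.S a p = 0
  reg : NoW4 R R.Z
  ng : ∀ j ∈ Y, E.row j = false → ∃ r ∈ Y, E.S r j ≠ 0
  hasN : ∃ X0, X0 ⊆ X ∧ p ∉ X0 ∧ Has 𝓝 (E.restrict (X0 ∪ {b, c, p}))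
  v4 : NoV4 𝓛 E X Y b c
  conn : E.Conn3
  free : Free 𝓛 E
  fresh : ∀ k, ρ k ∉ E.Z
  inj : Function.Injective ρ
  dZ : D.Z = E.Z ∪ univ.image ρ
  ag : Agree E D E.Z
  rr : ∀ k, D.row (ρ k) = false
  eX : ∀ k, ∀ i ∈ X, D.S i (ρ k) = al k * E.S i b + be k * E.S i c
  eY : ∀ k, ∀ i ∈ Y, D.S i (ρ k) = 0

/-- `z` lies on the guts line at the point `(α, β)`. -/
def Ln (E : Disp F3) (X : Finset ℕ) (b c z : ℕ) (α β : F3) : Prop :=
  ∀ i ∈ X, E.row i = true → vec E i z = α * E.S i b + β * E.S i c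

/-- `x` is an element of `X` at the `k`-th tame point. -/
def Mate (E : Disp F3) (X : Finset ℕ) (b c : ℕ) (k : Fin 3) (x : ℕ) : Prop :=
  x ∈ X ∧ ∃ s : F3, s ≠ 0 ∧ Ln E X b c x (s * al k) (s * be k)

/-- a choice of names for the three tame points. -/
def Naming (E : Disp F3) (X : Finset ℕ) (b c : ℕ) (ρ ν : Fin 3 → ℕ) : Prop :=
  ∀ k, ν k = ρ k ∨ Mate E X b c k (ν k)

variable {𝓛 𝓝 : List (Disp F3)} {E R D : Disp F3} {X Y : Finset ℕ} {a b c p t1 t2 t3 : ℕ}
  {ρ : Fin 3 → ℕ}

namespace Ctx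

variable (C : Ctx 𝓛 𝓝 E R D X Y a b c p t1 t2 t3 ρ)
include C

theorem XZ {i : ℕ} (h : i ∈ X) : i ∈ E.Z := by rw [C.nf.dZ]; exact mem_union_left _ h

theorem YZ {i : ℕ} (h : i ∈ Y) : i ∈ E.Z := by rw [C.nf.dZ]; exact mem_union_right _ h

theorem XY {i : ℕ} (h : i ∈ X) (h' : i ∈ Y) : False := disjoint_left.1 C.nf.disj h h'

theorem cases_Z {i : ℕ} (h : i ∈ E.Z) : i ∈ X ∨ i ∈ Y := by
  rw [C.nf.dZ] at h; exact mem_union.1 h

theorem rho_X (k : Fin 3) : ρ k ∉ X := fun h => C.fresh k (C.XZ h)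

theorem ZD {i : ℕ} (h : i ∈ E.Z) : i ∈ D.Z := by rw [C.dZ]; exact mem_union_left _ h

theorem rhoD (k : Fin 3) : ρ k ∈ D.Z := by
  rw [C.dZ]; exact mem_union_right _ (mem_image_of_mem _ (mem_univ _))

theorem cases_D {i : ℕ} (h : i ∈ D.Z) : i ∈ X ∨ i ∈ Y ∨ ∃ k, i = ρ k := by
  rw [C.dZ] at h
  rcases mem_union.1 h with h | h
  · rcases C.cases_Z h with h | h
    · exact Or.inl h
    · exact Or.inr (Or.inl h)
  · obtain ⟨k, _, rfl⟩ := mem_image.1 h
    exact Or.inr (Or.inr ⟨k, rfl⟩)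

theorem DS {i j : ℕ} (hi : i ∈ E.Z) (hj : j ∈ E.Z) : D.S i j = E.S i j := C.ag.2 i hi j hj

theorem Drow {i : ℕ} (hi : i ∈ E.Z) : D.row i = E.row i := C.ag.1 i hi

theorem ab' : a ≠ b := fun h => by have := C.ra; rw [h, C.rb] at this; cases this

theorem ac' : a ≠ c := fun h => by have := C.ra; rw [h, C.rc] at this; cases this

theorem ap' : a ≠ p := fun h => by have := C.ra; rw [h, C.rp] at this; cases this

theorem card4 : 4 ≤ E.Z.card := by
  have h : ({a, b, c, p} : Finset ℕ) ⊆ E.Z := by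
    intro i hi
    simp only [mem_insert, mem_singleton] at hi
    rcases hi with rfl | rfl | rfl | rfl
    exacts [C.YZ C.ma, C.YZ C.mb, C.YZ C.mc, C.mp]
  have h2 : ({a, b, c, p} : Finset ℕ).card = 4 := by
    rw [card_insert_of_notMem (by simp [C.ab', C.ac', C.ap']),
      card_insert_of_notMem (by simp [C.bc, C.bp]), card_insert_of_notMem (by simp [C.cp]),
      card_singleton]
  exact h2 ▸ card_le_card h

/-- a row of `Y` has type zero. -/
theorem ty_row {r : ℕ} (hr : r ∈ Y) (h : E.row r = true) : R.S t1 r = 0 ∧ R.S t2 r = 0 := by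
  have := C.nf.agree.1 r hr
  exact ⟨R.bip _ _ (by rw [C.nf.r1, this, h]), R.bip _ _ (by rw [C.nf.r2, this, h])⟩

theorem ent {i j : ℕ} (hi : i ∈ X) (hj : j ∈ Y) :
    E.S i j = E.S i b * R.S t1 j + E.S i c * R.S t2 j := C.nf.ent i hi j hj

theorem XYrow {i r : ℕ} (hi : i ∈ X) (hr : r ∈ Y) (h : E.row r = true) : E.S i r = 0 := by
  rw [C.ent hi hr, (C.ty_row hr h).1, (C.ty_row hr h).2]; simp

theorem qcol {i : ℕ} (h : E.row i = false) : E.S i b = 0 ∧ E.S i c = 0 :=
  ⟨E.bip _ _ (by rw [h, C.rb]), E.bip _ _ (by rw [h, C.rc])⟩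

theorem XcolY {x j : ℕ} (hx : x ∈ X) (h : E.row x = false) (hj : j ∈ Y) : E.S x j = 0 := by
  rw [C.ent hx hj, (C.qcol h).1, (C.qcol h).2]; simp

theorem YXcol {x j : ℕ} (hx : x ∈ X) (h : E.row x = false) (hj : j ∈ Y) : E.S j x = 0 := by
  rw [E.skew, C.XcolY hx h hj, neg_zero]

/-- the two columns `b, c` are independent on the rows of `X`. -/
theorem ind {α β : F3} (h : ∀ i ∈ X, E.row i = true → α * E.S i b + β * E.S i c = 0) :
    α = 0 ∧ β = 0 := by
  obtain ⟨x1, h1, x2, h2, hd⟩ := C.nf.ind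
  have key : ∀ i ∈ X, α * E.S i b + β * E.S i c = 0 := by
    intro i hi
    cases hr : E.row i
    · rw [(C.qcol hr).1, (C.qcol hr).2]; simp
    · exact h i hi hr
  have e1 := key x1 h1
  have e2 := key x2 h2
  have hd' : E.S x1 b * E.S x2 c - E.S x1 c * E.S x2 b ≠ 0 := by
    intro h0
    apply hd
    linear_combination h0
  constructor
  · apply mul_left_cancel₀ hd'
    linear_combination E.S x2 c * e1 - E.S x1 c * e2
  · apply mul_left_cancel₀ hd'
    linear_combination E.S x1 b * e2 - E.S x2 b * e1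

theorem g_ne (k : Fin 3) : ∃ i ∈ X, E.row i = true ∧ al k * E.S i b + be k * E.S i c ≠ 0 := by
  by_contra h
  push Not at h
  exact albe_ne k (C.ind h)

theorem ln_col {z : ℕ} {α β : F3} (h : Ln E X b c z α β) (hz : E.row z = false) :
    ∀ i ∈ X, E.S i z = α * E.S i b + β * E.S i c := by
  intro i hi
  cases hr : E.row i
  · rw [(C.qcol hr).1, (C.qcol hr).2, E.bip i z (by rw [hr, hz])]; simp
  · have := h i hi hr
    have hne : i ≠ z := fun e => by rw [e, hz] at hr; cases hr
    simpa [vec, hne] using this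

theorem ln_row {z : ℕ} {α β : F3} (h : Ln E X b c z α β) (hz : E.row z = true) :
    ∀ i ∈ X, α * E.S i b + β * E.S i c = if i = z then 1 else 0 := by
  intro i hi
  cases hr : E.row i
  · have hne : i ≠ z := fun e => by rw [e, hz] at hr; cases hr
    rw [(C.qcol hr).1, (C.qcol hr).2]; simp [hne]
  · have := h i hi hr
    rw [← this, vec, E.bip i z (by rw [hr, hz]), add_zero]

theorem ln_onLine {z : ℕ} {α β : F3} (hz : z ∈ X) (h : Ln E X b c z α β) :
    OnLine E X Y b c z α β := by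
  cases hr : E.row z
  · exact Or.inl ⟨hr, C.ln_col h hr, fun r hr' => C.YXcol hz hr hr'⟩
  · exact Or.inr ⟨hz, hr, fun i hi _ => C.ln_row h hr i hi⟩

theorem ln_ne {z : ℕ} {α β : F3} (hz : z ∈ X) (h : Ln E X b c z α β) : ¬ (α = 0 ∧ β = 0) := by
  rintro ⟨rfl, rfl⟩
  cases hr : E.row z
  · obtain ⟨j, hj, hne⟩ := C.conn.exists_ne (le_trans (by norm_num) C.card4) (C.XZ hz)
    rcases C.cases_Z hj with hj | hj
    · have := C.ln_col h hr j hj
      apply hne
      rw [E.skew, this]; simp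
    · exact hne (C.XcolY hz hr hj)
  · have := C.ln_row h hr z hz
    simp at this

/-- two distinct elements of `X` are at independent points. -/
theorem ln_indep {z z' : ℕ} {α β α' β' : F3} (hz : z ∈ X) (hz' : z' ∈ X) (hne : z ≠ z')
    (h : Ln E X b c z α β) (h' : Ln E X b c z' α' β') : α * β' ≠ α' * β := by
  intro hd
  obtain ⟨s, hs, rfl, rfl⟩ := dep_cases _ _ _ _ (C.ln_ne hz h) (C.ln_ne hz' h') hd
  have np := C.conn.not_par C.card4
  have unit : ∀ {u v : ℕ} {s α β : F3}, u ∈ X → v ∈ X → s ≠ 0 → E.row u = true →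
      E.row v = false → Ln E X b c u α β → Ln E X b c v (s * α) (s * β) → False := by
    intro u v s α β hu hv hs ru rv lu lv
    have e1 := C.ln_row lu ru
    have e2 := C.ln_col lv rv
    refine np u v (par_of_unit (C.XZ hu) (C.XZ hv) rv ?_ ?_)
    · have := e1 u hu
      rw [if_pos rfl] at this
      rw [e2 u hu]
      intro h0
      apply hs
      linear_combination h0 - s * this
    · intro i hi hiu
      rcases C.cases_Z hi with hi | hi
      · have := e1 i hi
        rw [if_neg hiu] at this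
        rw [e2 i hi]
        linear_combination s * this
      · exact C.YXcol hv rv hi
  cases r1 : E.row z <;> cases r2 : E.row z'
  · refine np z z' (par_of_cols hne (C.XZ hz) (C.XZ hz') r1 r2 hs fun i hi => ?_)
    rcases C.cases_Z hi with hi | hi
    · rw [C.ln_col h r1 i hi, C.ln_col h' r2 i hi]; ring
    · rw [C.YXcol hz r1 hi, C.YXcol hz' r2 hi, mul_zero]
  · exact unit hz' hz hs r2 r1 h' h
  · refine unit (s := s) hz hz' hs r1 r2 h ?_
    rw [← mul_assoc, ← mul_assoc, sq1 s hs, one_mul, one_mul]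
    exact h'
  · have e1 := C.ln_row h r1 z hz
    have e2 := C.ln_row h' r2 z hz
    rw [if_pos rfl] at e1
    rw [if_neg hne] at e2
    have : (1 : F3) = 0 := by linear_combination s * e2 - e1
    exact absurd this (by decide)

theorem mate_unique {k : Fin 3} {x x' : ℕ} (h : Mate E X b c k x) (h' : Mate E X b c k x') :
    x = x' := by
  by_contra hne
  obtain ⟨hx, s, _, l⟩ := h
  obtain ⟨hx', s', _, l'⟩ := h'
  exact C.ln_indep hx hx' hne l l' (by ring)

theorem ln_unique {z : ℕ} {α β α' β' : F3} (h : Ln E X b c z α β) (h' : Ln E X b c z α' β') :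
    α = α' ∧ β = β' := by
  have := C.ind (α := α - α') (β := β - β') fun i hi hr => by
    linear_combination h' i hi hr - h i hi hr
  exact ⟨sub_eq_zero.1 this.1, sub_eq_zero.1 this.2⟩

theorem mate_ne {k l : Fin 3} {x : ℕ} (h : Mate E X b c k x) (h' : Mate E X b c l x) : k = l := by
  by_contra hne
  obtain ⟨_, s, hs, l1⟩ := h
  obtain ⟨_, s', hs', l2⟩ := h'
  obtain ⟨e1, e2⟩ := C.ln_unique l1 l2
  apply albe_ind k l hne
  apply mul_left_cancel₀ hs
  linear_combination be l * e1 - al l * e2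

theorem naming_inj {ν : Fin 3 → ℕ} (h : Naming E X b c ρ ν) : Function.Injective ν := by
  intro k l e
  rcases h k with h1 | h1 <;> rcases h l with h2 | h2
  · exact C.inj (h1.symm.trans (e.trans h2))
  · exact absurd (h1 ▸ e ▸ h2.1 : ρ k ∈ X) (C.rho_X k)
  · exact absurd (h2 ▸ e ▸ h1.1 : ρ l ∈ X) (C.rho_X l)
  · exact C.mate_ne h1 (e ▸ h2)

theorem naming_D {ν : Fin 3 → ℕ} (h : Naming E X b c ρ ν) (k : Fin 3) : ν k ∈ D.Z := by
  rcases h k with h1 | h1
  · rw [h1]; exact C.rhoD k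
  · exact C.ZD (C.XZ h1.1)

theorem U_sub {ν : Fin 3 → ℕ} (h : Naming E X b c ρ ν) : X ∪ univ.image ν ⊆ D.Z := by
  intro i hi
  rcases mem_union.1 hi with hi | hi
  · exact C.ZD (C.XZ hi)
  · obtain ⟨k, _, rfl⟩ := mem_image.1 hi
    exact C.naming_D h k

/-- a mate is parallel to the fresh column. -/
theorem mate_par {k : Fin 3} {x : ℕ} (h : Mate E X b c k x) {U : Finset ℕ} (hU : U ⊆ D.Z)
    (hx : x ∈ U) (hk : ρ k ∈ U) : (D.restrict U).Par x (ρ k) := by
  obtain ⟨hX, s, hs, l⟩ := h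
  have hne : x ≠ ρ k := fun e => C.rho_X k (e ▸ hX)
  cases hr : E.row x
  · refine par_of_cols (D := D.restrict U) hne hx hk ((C.Drow (C.XZ hX)).trans hr) (C.rr k) hs
      fun i hi => ?_
    change D.S i x = s * D.S i (ρ k)
    rcases C.cases_D (hU hi) with hi | hi | ⟨l, rfl⟩
    · rw [C.DS (C.XZ hi) (C.XZ hX), C.eX k i hi, C.ln_col l hr i hi]; ring
    · rw [C.DS (C.YZ hi) (C.XZ hX), C.eY k i hi, C.YXcol hX hr hi, mul_zero]
    · rw [D.bip _ x (by rw [C.rr, C.Drow (C.XZ hX), hr]), D.bip _ (ρ k) (by rw [C.rr, C.rr]),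
        mul_zero]
  · have e := C.ln_row l hr
    refine par_of_unit (D := D.restrict U) hx hk (C.rr k) ?_ fun i hi hix => ?_
    · change D.S x (ρ k) ≠ 0
      rw [C.eX k x hX]
      intro h0
      have := e x hX
      rw [if_pos rfl] at this
      have h1 : (1 : F3) = 0 := by linear_combination s * h0 - this
      exact absurd h1 (by decide)
    · change D.S i (ρ k) = 0
      rcases C.cases_D (hU hi) with hi | hi | ⟨l, rfl⟩
      · rw [C.eX k i hi]
        have := e i hi
        rw [if_neg hix] at this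
        apply mul_left_cancel₀ hs
        linear_combination this
      · exact C.eY k i hi
      · exact D.bip _ _ (by rw [C.rr, C.rr])

theorem exists_full : ∃ n : Fin 3 → ℕ, Naming E X b c ρ n ∧
    ∀ k x, Mate E X b c k x → n k = x := by
  have : ∀ k, ∃ y, (y = ρ k ∨ Mate E X b c k y) ∧ ∀ x, Mate E X b c k x → y = x := by
    intro k
    by_cases h : ∃ x, Mate E X b c k x
    · obtain ⟨x, hx⟩ := h
      exact ⟨x, Or.inr hx, fun x' hx' => C.mate_unique hx hx'⟩
    · exact ⟨ρ k, Or.inl rfl, fun x hx => absurd ⟨x, hx⟩ h⟩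
  choose n h1 h2 using this
  exact ⟨n, h1, h2⟩

omit C in
/-- properties of namings pass to the full naming. -/
theorem chain_full {n : Fin 3 → ℕ} (hn : Naming E X b c ρ n)
    (hf : ∀ k x, Mate E X b c k x → n k = x) (P : (Fin 3 → ℕ) → Prop)
    (hP : ∀ ν k x, Naming E X b c ρ ν → ν k = ρ k → Mate E X b c k x → P ν →
      P (Function.update ν k x))
    {ν : Fin 3 → ℕ} (hν : Naming E X b c ρ ν) (h : P ν) : P n := by
  have st : ∀ ν k, Naming E X b c ρ ν → P ν →
      Naming E X b c ρ (Function.update ν k (n k)) ∧ P (Function.update ν k (n k)) := by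
    intro ν k hν h
    refine ⟨fun l => ?_, ?_⟩
    · by_cases e : l = k
      · subst e; rw [Function.update_self]; exact hn l
      · rw [Function.update_of_ne e]; exact hν l
    · by_cases e : n k = ν k
      · rw [e, Function.update_eq_self]; exact h
      · rcases hν k with h1 | h1
        · rcases hn k with h2 | h2
          · exact absurd (h2.trans h1.symm) e
          · exact hP ν k _ hν h1 h2 h
        · exact absurd (hf k _ h1) e
  obtain ⟨a1, a2⟩ := st ν 0 hν h
  obtain ⟨b1, b2⟩ := st _ 1 a1 a2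
  obtain ⟨_, c2⟩ := st _ 2 b1 b2
  have : Function.update (Function.update (Function.update ν 0 (n 0)) 1 (n 1)) 2 (n 2) = n := by
    funext k
    fin_cases k <;> simp
  rwa [this] at c2

end Ctx

end StepAux

end Pool.Agent.Lib.MP_c69b6d_co.F
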