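import Pool.Agent.Lib.MP_c69b6d_co.F.Stepa

/-! The induction step, part b: the simplified side is 3-connected. -/

namespace Pool.Agent.Lib.MP_c69b6d_co.F

open Finset Disp

namespace StepAux

theorem comb2 {A : Finset ℕ} {m1 m2 : ℕ} (h1 : m1 ∈ A) (h2 : m2 ∈ A) (c1 c2 : F3) :
    ∃ u : ℕ → F3, ∀ f : ℕ → F3, ∑ k ∈ A, u k * f k = c1 * f m1 + c2 * f m2 := by
  refine ⟨fun m => (if m = m1 then c1 else 0) + (if m = m2 then c2 else 0), fun f => ?_⟩
  simp only [add_mul, sum_add_distrib, ite_mul, zero_mul, sum_ite_eq', h1, h2, if_true]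

theorem third : ∀ k l m m' : Fin 3, k ≠ l → m ≠ k → m ≠ l → m' ≠ k → m' ≠ l → m = m' := by decide

theorem ln_of_row {E : Disp F3} {X : Finset ℕ} {b c z : ℕ} {α β : F3} (hz : E.row z = true)
    (h : ∀ i ∈ X, E.row i = true → α * E.S i b + β * E.S i c = if i = z then 1 else 0) :
    Ln E X b c z α β := by
  intro i hi hr
  rw [h i hi hr, vec, E.bip i z (by rw [hr, hz]), add_zero]

theorem ln_of_col {E : Disp F3} {X : Finset ℕ} {b c z : ℕ} {α β : F3} (hz : E.row z = false)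
    (h : ∀ i ∈ X, E.row i = true → E.S i z = α * E.S i b + β * E.S i c) :
    Ln E X b c z α β := by
  intro i hi hr
  have hne : i ≠ z := fun e => by rw [e, hz] at hr; cases hr
  rw [← h i hi hr, vec, if_neg hne, zero_add]

variable {𝓛 𝓝 : List (Disp F3)} {E R D : Disp F3} {X Y : Finset ℕ} {a b c p t1 t2 t3 : ℕ}
  {ρ : Fin 3 → ℕ}

namespace Ctx

variable (C : Ctx 𝓛 𝓝 E R D X Y a b c p t1 t2 t3 ρ)
include C

/-- away from the name, the `k`-th point is a multiple of the line of the name. -/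
theorem g_mult {ν : Fin 3 → ℕ} (hν : Naming E X b c ρ ν) (k : Fin 3) :
    ∃ γ : F3, ∀ j ∈ X, j ≠ ν k → al k * E.S j b + be k * E.S j c = γ * D.S (ν k) j := by
  rcases hν k with h | ⟨hx, s, hs, l⟩
  · refine ⟨-1, fun j hj _ => ?_⟩
    rw [h, D.skew, C.eX k j hj]; ring
  · cases hr : E.row (ν k)
    · refine ⟨-s, fun j hj _ => ?_⟩
      rw [C.DS (C.XZ hx) (C.XZ hj), E.skew (ν k) j, C.ln_col l hr j hj]
      linear_combination (-(al k * E.S j b + be k * E.S j c)) * sq1 s hs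
    · refine ⟨0, fun j hj hne => ?_⟩
      have := C.ln_row l hr j hj
      rw [if_neg hne] at this
      apply mul_left_cancel₀ hs
      linear_combination this

theorem lam_le {ν : Fin 3 → ℕ} (hν : Naming E X b c ρ ν) {A B0 : Finset ℕ} (hB : B0 ⊆ X)
    (hA : ∀ i ∈ X, i ∉ B0 → i ∈ A) (hd : ∀ i ∈ A, i ∉ B0) {k l : Fin 3} (hkl : k ≠ l)
    (hk : ν k ∈ A) (hl : ν l ∈ A) : E.lam B0 (E.Z \ B0) ≤ D.lam A B0 := by
  rw [lam_symm]
  refine lam_le_of_rows fun i hi => ?_
  obtain ⟨hi, hi'⟩ := mem_sdiff.1 hi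
  rcases C.cases_Z hi with hx | hy
  · obtain ⟨u, hu⟩ := comb2 (hA i hx hi') (hA i hx hi') 1 0
    refine ⟨u, fun j hj => ?_⟩
    rw [hu (fun m => D.S m j), C.DS hi (C.XZ (hB hj))]; ring
  · obtain ⟨u, v, e1, e2⟩ := span2 k l hkl (R.S t1 i) (R.S t2 i)
    obtain ⟨γ, hγ⟩ := C.g_mult hν k
    obtain ⟨δ, hδ⟩ := C.g_mult hν l
    obtain ⟨w, hw⟩ := comb2 hk hl (-(u * γ)) (-(v * δ))
    refine ⟨w, fun j hj => ?_⟩
    have h1 := hγ j (hB hj) (fun e => hd _ hk (e ▸ hj))
    have h2 := hδ j (hB hj) (fun e => hd _ hl (e ▸ hj))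
    rw [hw (fun m => D.S m j), E.skew i j, C.ent (hB hj) hy, e1, e2]
    linear_combination (-u) * h1 - v * h2

theorem side {n : Fin 3 → ℕ} (hn : Naming E X b c ρ n) (hf : ∀ k x, Mate E X b c k x → n k = x)
    {A B : Finset ℕ} (hc : ∀ i, i ∈ X ∪ univ.image n ↔ i ∈ A ∨ i ∈ B) (hd : ∀ i ∈ A, i ∉ B)
    {k l : Fin 3} (hkl : k ≠ l) (hk : n k ∈ A) (hl : n l ∈ A) :
    (B.Nonempty → 1 ≤ D.lam A B) ∧ (2 ≤ B.card → 2 ≤ D.lam A B) := by
  have hXA : ∀ i ∈ X, i ∉ B → i ∈ A := fun i hi hb =>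
    ((hc i).1 (mem_union_left _ hi)).resolve_right hb
  have key := C.lam_le hn (A := A) (B0 := B ∩ X) inter_subset_right
    (fun i hi hb => hXA i hi fun h => hb (mem_inter.2 ⟨h, hi⟩))
    (fun i hi hb => hd i hi (mem_inter.1 hb).1) hkl hk hl
  have mono : D.lam A (B ∩ X) ≤ D.lam A B := lam_mono D (Subset.refl _) inter_subset_left
  have big : 2 ≤ (E.Z \ (B ∩ X)).card := by
    have : ({b, c} : Finset ℕ) ⊆ E.Z \ (B ∩ X) := by
      intro i hi
      simp only [mem_insert, mem_singleton] at hi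
      rcases hi with rfl | rfl
      · exact mem_sdiff.2 ⟨C.YZ C.mb, fun h => C.XY (mem_inter.1 h).2 C.mb⟩
      · exact mem_sdiff.2 ⟨C.YZ C.mc, fun h => C.XY (mem_inter.1 h).2 C.mc⟩
    have h2 := card_le_card this
    rwa [card_pair C.bc] at h2
  obtain ⟨c1, c2⟩ := C.conn (B ∩ X) fun i hi => C.XZ (mem_inter.1 hi).2
  have out : ∀ z ∈ B, z ∉ X → ∃ m, m ≠ k ∧ m ≠ l ∧ n m = ρ m ∧ z = ρ m := by
    intro z hz hx
    rcases mem_union.1 ((hc z).2 (Or.inr hz)) with h | h
    · exact absurd h hx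
    · obtain ⟨m, _, rfl⟩ := mem_image.1 h
      refine ⟨m, fun e => hd _ hk (e ▸ hz), fun e => hd _ hl (e ▸ hz), ?_⟩
      rcases hn m with h | h
      · exact ⟨h, h⟩
      · exact absurd h.1 hx
  constructor
  · rintro ⟨z, hz⟩
    by_cases h0 : (B ∩ X).Nonempty
    · exact (c1 h0 (card_pos.1 (by omega))).trans (key.trans mono)
    · obtain ⟨m, -, -, -, rfl⟩ := out z hz fun hx => h0 ⟨z, mem_inter.2 ⟨hz, hx⟩⟩
      obtain ⟨i, hi, -, hne⟩ := C.g_ne m
      rw [Nat.one_le_iff_ne_zero, Ne, lam_eq_zero_iff]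
      intro h
      apply hne
      rw [← C.eX m i hi]
      exact h i (hXA i hi fun hb => h0 ⟨i, mem_inter.2 ⟨hb, hi⟩⟩) _ hz
  · intro h2
    by_cases h0 : 2 ≤ (B ∩ X).card
    · exact (c2 h0 big).trans (key.trans mono)
    by_contra hlt
    have hle : D.lam A B ≤ 1 := by omega
    have hs : (B \ X).card ≤ 1 := by
      rw [card_le_one]
      intro z hz z' hz'
      obtain ⟨m, m1, m2, -, rfl⟩ := out z (mem_sdiff.1 hz).1 (mem_sdiff.1 hz).2
      obtain ⟨m', m1', m2', -, rfl⟩ := out z' (mem_sdiff.1 hz').1 (mem_sdiff.1 hz').2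
      rw [third k l m m' hkl m1 m2 m1' m2']
    have hsum := card_sdiff_add_card_inter B X
    obtain ⟨x, hx⟩ : ∃ x, B ∩ X = {x} := card_eq_one.1 (by omega)
    obtain ⟨z, hz⟩ : (B \ X).Nonempty := card_pos.1 (by omega)
    obtain ⟨m, -, -, hm, rfl⟩ := out z (mem_sdiff.1 hz).1 (mem_sdiff.1 hz).2
    have hzB := (mem_sdiff.1 hz).1
    have hx' : x ∈ B ∩ X := by rw [hx]; exact mem_singleton_self x
    obtain ⟨xB, xX⟩ := mem_inter.1 hx'
    have inA : ∀ i ∈ X, i ≠ x → i ∈ A := fun i hi hne => hXA i hi fun hb => hne (by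
      have : i ∈ B ∩ X := mem_inter.2 ⟨hb, hi⟩
      rwa [hx, mem_singleton] at this)
    obtain ⟨i0, hi0, r0, hne⟩ := C.g_ne m
    have mate : Mate E X b c m x := by
      cases hr : E.row x
      · have n0 : i0 ≠ x := fun e => by rw [e, hr] at r0; cases r0
        have l : Ln E X b c x ((E.S i0 x * (al m * E.S i0 b + be m * E.S i0 c)) * al m)
            ((E.S i0 x * (al m * E.S i0 b + be m * E.S i0 c)) * be m) := by
          refine ln_of_col hr fun i hi ri => ?_
          have ni : i ≠ x := fun e => by rw [e, hr] at ri; cases ri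
          have := det_two_of_lam hle (inA i hi ni) (inA i0 hi0 n0) xB hzB
          rw [C.eX m i hi, C.eX m i0 hi0, C.DS (C.XZ hi) (C.XZ xX), C.DS (C.XZ hi0) (C.XZ xX)]
            at this
          linear_combination (al m * E.S i0 b + be m * E.S i0 c) * this - E.S i x * sq1 _ hne
        refine ⟨xX, _, fun h0 => C.ln_ne xX l ?_, l⟩
        rw [h0]; simp
      · have h1 : 1 ≤ D.lam A (B ∩ X) :=
          (c1 ⟨x, hx'⟩ (card_pos.1 (by omega))).trans key
        rw [Nat.one_le_iff_ne_zero, Ne, lam_eq_zero_iff, hx] at h1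
        push Not at h1
        obtain ⟨i', hi', j, hj, hij⟩ := h1
        rw [mem_singleton] at hj
        subst hj
        have ri' : D.row i' = false := by
          have := row_ne_of_S hij
          rw [C.Drow (C.XZ xX), hr] at this
          simpa using this
        have z0 : ∀ i ∈ X, i ≠ j → al m * E.S i b + be m * E.S i c = 0 := by
          intro i hi ni
          have := det_two_of_lam hle (inA i hi ni) hi' xB hzB
          rw [D.bip i' (ρ m) (by rw [ri', C.rr]), mul_zero, C.eX m i hi] at this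
          exact (mul_eq_zero.1 this.symm).resolve_right hij
        have e0 : i0 = j := by
          by_contra h
          exact hne (z0 i0 hi0 h)
        subst e0
        refine ⟨xX, _, hne, ln_of_row hr fun i hi _ => ?_⟩
        by_cases e : i = i0
        · subst e
          rw [if_pos rfl]
          linear_combination sq1 _ hne
        · rw [if_neg e]
          linear_combination (al m * E.S i0 b + be m * E.S i0 c) * z0 i hi e
    exact C.rho_X m (hm ▸ (hf m x mate).symm ▸ xX)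

theorem conn_full {n : Fin 3 → ℕ} (hn : Naming E X b c ρ n)
    (hf : ∀ k x, Mate E X b c k x → n k = x) : (D.restrict (X ∪ univ.image n)).Conn3 := by
  intro A hA
  change A ⊆ X ∪ univ.image n at hA
  change (A.Nonempty → ((X ∪ univ.image n) \ A).Nonempty →
    1 ≤ (D.restrict _).lam A ((X ∪ univ.image n) \ A)) ∧
    (2 ≤ A.card → 2 ≤ ((X ∪ univ.image n) \ A).card →
    2 ≤ (D.restrict _).lam A ((X ∪ univ.image n) \ A))
  rw [lam_restrict]
  have hc : ∀ i, i ∈ X ∪ univ.image n ↔ i ∈ A ∨ i ∈ (X ∪ univ.image n) \ A := by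
    intro i
    rw [mem_sdiff]
    constructor
    · intro h
      by_cases h' : i ∈ A
      · exact Or.inl h'
      · exact Or.inr ⟨h, h'⟩
    · rintro (h | h)
      · exact hA h
      · exact h.1
  have hm : ∀ k, n k ∉ A → n k ∈ (X ∪ univ.image n) \ A := fun k h =>
    mem_sdiff.2 ⟨mem_union_right _ (mem_image_of_mem _ (mem_univ _)), h⟩
  have c1 : ∀ k l : Fin 3, k ≠ l → n k ∈ A → n l ∈ A →
      (A.Nonempty → ((X ∪ univ.image n) \ A).Nonempty →
        1 ≤ D.lam A ((X ∪ univ.image n) \ A)) ∧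
      (2 ≤ A.card → 2 ≤ ((X ∪ univ.image n) \ A).card →
        2 ≤ D.lam A ((X ∪ univ.image n) \ A)) := by
    intro k l hkl hk hl
    obtain ⟨h1, h2⟩ := C.side hn hf hc (fun i hi h => (mem_sdiff.1 h).2 hi) hkl hk hl
    exact ⟨fun _ => h1, fun _ => h2⟩
  have c2 : ∀ k l : Fin 3, k ≠ l → n k ∉ A → n l ∉ A →
      (A.Nonempty → ((X ∪ univ.image n) \ A).Nonempty →
        1 ≤ D.lam A ((X ∪ univ.image n) \ A)) ∧
      (2 ≤ A.card → 2 ≤ ((X ∪ univ.image n) \ A).card →
        2 ≤ D.lam A ((X ∪ univ.image n) \ A)) := by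
    intro k l hkl hk hl
    obtain ⟨h1, h2⟩ := C.side hn hf (A := (X ∪ univ.image n) \ A) (B := A)
      (fun i => (hc i).trans or_comm) (fun i hi => (mem_sdiff.1 hi).2) hkl (hm k hk) (hm l hl)
    rw [lam_symm]
    exact ⟨fun h _ => h1 h, fun h _ => h2 h⟩
  by_cases h0 : n 0 ∈ A <;> by_cases h1 : n 1 ∈ A
  · exact c1 0 1 (by decide) h0 h1
  · by_cases h2 : n 2 ∈ A
    · exact c1 0 2 (by decide) h0 h2
    · exact c2 1 2 (by decide) h1 h2
  · by_cases h2 : n 2 ∈ A
    · exact c1 1 2 (by decide) h1 h2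
    · exact c2 0 2 (by decide) h0 h2
  · exact c2 0 1 (by decide) h0 h1

end Ctx

end StepAux

end Pool.Agent.Lib.MP_c69b6d_co.F
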