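import Pool.Agent.Lib.MP_c69b6d_co.F.Stepb

/-! The induction step, part c: the simplified side is a smaller display of the class. -/

namespace Pool.Agent.Lib.MP_c69b6d_co.F

open Finset Disp

namespace StepAux

/-- the map which sends the fresh columns to `b, c, p`. -/
noncomputable def phi (ρ : Fin 3 → ℕ) (b c p : ℕ) : ℕ → ℕ := Function.extend ρ ![b, c, p] id

theorem img_update {ν : Fin 3 → ℕ} (hν : Function.Injective ν) (k : Fin 3) (x : ℕ) :
    univ.image (Function.update ν k x) = insert x ((univ.image ν).erase (ν k)) := by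
  ext i
  simp only [mem_image, mem_univ, true_and, mem_insert, mem_erase]
  constructor
  · rintro ⟨l, rfl⟩
    by_cases e : l = k
    · subst e; rw [Function.update_self]; exact Or.inl rfl
    · rw [Function.update_of_ne e]; exact Or.inr ⟨fun h => e (hν h), l, rfl⟩
  · rintro (rfl | ⟨h, l, rfl⟩)
    · exact ⟨k, Function.update_self _ _ _⟩
    · exact ⟨l, Function.update_of_ne (fun e => h (by rw [e])) _ _⟩

theorem valid_sub {𝓛 : List (Disp F3)} {D : Disp F3} {U V T : Finset ℕ} (h : U ⊆ V) (hT : T ⊆ U)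
    (v : Valid 𝓛 (D.restrict V) T) : Valid 𝓛 (D.restrict U) T := by
  have e : Emb (D.restrict U) (D.restrict V) id (fun _ => 1) :=
    emb_of_agree h ⟨fun _ _ => rfl, fun _ _ _ _ => rfl⟩
  refine Valid.emb (Reach.refl _) e hT ?_
  rwa [image_id]

/-- a family of marks: a fixed subset of `X` or the set of names. -/
def Mk (X : Finset ℕ) (M : (Fin 3 → ℕ) → Finset ℕ) : Prop :=
  (∃ T, T ⊆ X ∧ ∀ ν, M ν = T) ∨ ∀ ν, M ν = univ.image ν

variable {𝓛 𝓝 : List (Disp F3)} {E R D : Disp F3} {X Y : Finset ℕ} {a b c p t1 t2 t3 : ℕ}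
  {ρ : Fin 3 → ℕ}

namespace Ctx

variable (C : Ctx 𝓛 𝓝 E R D X Y a b c p t1 t2 t3 ρ)
include C

theorem phi_rho (k : Fin 3) : phi ρ b c p (ρ k) = ![b, c, p] k := C.inj.extend_apply _ _ k

theorem phi_Z {i : ℕ} (h : i ∈ E.Z) : phi ρ b c p i = i := by
  unfold phi
  rw [Function.extend_apply']
  · rfl
  · rintro ⟨k, rfl⟩
    exact C.fresh k h

theorem psi_ent (k : Fin 3) {i : ℕ} (hi : i ∈ X) :
    E.S i (![b, c, p] k) = al k * E.S i b + be k * E.S i c := by
  fin_cases k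
  · simp [al, be]
  · simp [al, be]
  · have := C.pe i hi
    simp only [al, be]
    simp [this, sub_eq_add_neg]

theorem psi_row (k : Fin 3) : E.row (![b, c, p] k) = false := by
  fin_cases k
  exacts [C.rb, C.rc, C.rp]

theorem psi_Z (k : Fin 3) : ![b, c, p] k ∈ E.Z := by
  fin_cases k
  exacts [C.YZ C.mb, C.YZ C.mc, C.mp]

omit C in
theorem psi_mem (k : Fin 3) : ![b, c, p] k ∈ ({b, c, p} : Finset ℕ) := by
  fin_cases k <;> simp

theorem psi_inj : Function.Injective ![b, c, p] := by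
  have h1 := C.bc
  have h2 := C.bp
  have h3 := C.cp
  intro k l h
  fin_cases k <;> fin_cases l <;> simp_all

theorem psi_X {k : Fin 3} (h : ![b, c, p] k ∈ X) : k = 2 := by
  fin_cases k
  · exact (C.XY h C.mb).elim
  · exact (C.XY h C.mc).elim
  · rfl

theorem emb {U : Finset ℕ} (hU : U ⊆ X ∪ univ.image ρ) (hp : ρ 2 ∈ U → p ∉ U) :
    Emb (D.restrict U) E (phi ρ b c p) (fun _ => 1) := by
  have cs : ∀ i ∈ U, i ∈ X ∨ ∃ k, i = ρ k := by
    intro i hi
    rcases mem_union.1 (hU hi) with h | h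
    · exact Or.inl h
    · obtain ⟨k, _, rfl⟩ := mem_image.1 h
      exact Or.inr ⟨k, rfl⟩
  have mix : ∀ i ∈ U, i ∈ X → ∀ k, ρ k ∈ U → i ≠ ![b, c, p] k := by
    intro i hi hx k hk e
    have e2 := C.psi_X (e ▸ hx)
    subst e2
    exact hp hk (by simpa [e] using hi)
  refine ⟨?_, ?_, ?_, fun _ _ => one_mul _, ?_⟩
  · intro i hi j hj e
    rcases cs i hi with h | ⟨k, rfl⟩ <;> rcases cs j hj with h' | ⟨l, rfl⟩
    · rwa [C.phi_Z (C.XZ h), C.phi_Z (C.XZ h')] at e
    · rw [C.phi_Z (C.XZ h), C.phi_rho] at e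
      exact absurd e (mix i hi h l hj)
    · rw [C.phi_Z (C.XZ h'), C.phi_rho] at e
      exact absurd e.symm (mix j hj h' k hi)
    · rw [C.phi_rho, C.phi_rho] at e
      rw [C.psi_inj e]
  · intro i hi
    rcases cs i hi with h | ⟨k, rfl⟩
    · rw [C.phi_Z (C.XZ h)]; exact C.XZ h
    · rw [C.phi_rho]; exact C.psi_Z k
  · intro i hi
    change _ = D.row i
    rcases cs i hi with h | ⟨k, rfl⟩
    · rw [C.phi_Z (C.XZ h), C.Drow (C.XZ h)]
    · rw [C.phi_rho, C.psi_row, C.rr]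
  · intro i hi j hj
    change _ = 1 * 1 * D.S i j
    rw [one_mul, one_mul]
    rcases cs i hi with h | ⟨k, rfl⟩ <;> rcases cs j hj with h' | ⟨l, rfl⟩
    · rw [C.phi_Z (C.XZ h), C.phi_Z (C.XZ h'), C.DS (C.XZ h) (C.XZ h')]
    · rw [C.phi_Z (C.XZ h), C.phi_rho, C.eX l i h, C.psi_ent l h]
    · rw [C.phi_Z (C.XZ h'), C.phi_rho, D.skew, C.eX k j h', E.skew, C.psi_ent k h']
    · rw [C.phi_rho, C.phi_rho, E.bip _ _ (by rw [C.psi_row, C.psi_row]),
        D.bip _ _ (by rw [C.rr, C.rr])]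

theorem mate_p (h : p ∈ X) : Mate E X b c 2 p := by
  refine ⟨h, 1, one_ne_zero, ln_of_col C.rp fun i hi _ => ?_⟩
  rw [one_mul, one_mul]
  exact C.psi_ent 2 hi

omit C in
theorem U_sub' {ν : Fin 3 → ℕ} (hν : Naming E X b c ρ ν) :
    X ∪ univ.image ν ⊆ X ∪ univ.image ρ := by
  intro i hi
  rcases mem_union.1 hi with h | h
  · exact mem_union_left _ h
  · obtain ⟨k, _, rfl⟩ := mem_image.1 h
    rcases hν k with h | h
    · rw [h]; exact mem_union_right _ (mem_image_of_mem _ (mem_univ _))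
    · exact mem_union_left _ h.1

theorem emb_nu {ν : Fin 3 → ℕ} (hν : Naming E X b c ρ ν) (hp : p ∈ X → ν 2 = p) :
    Emb (D.restrict (X ∪ univ.image ν)) E (phi ρ b c p) (fun _ => 1) := by
  refine C.emb (U_sub' hν) fun h2 h => ?_
  have e : ν 2 = ρ 2 := by
    rcases mem_union.1 h2 with h2 | h2
    · exact absurd h2 (C.rho_X 2)
    · obtain ⟨l, _, hl⟩ := mem_image.1 h2
      rcases hν l with h3 | h3
      · have := C.inj (h3.symm.trans hl)
        subst this
        exact hl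
      · exact absurd (hl ▸ h3.1) (C.rho_X 2)
  have hx : p ∈ X := by
    rcases mem_union.1 h with h | h
    · exact h
    · obtain ⟨l, _, hl⟩ := mem_image.1 h
      rcases hν l with h3 | h3
      · exact absurd (h3 ▸ hl ▸ C.mp : ρ l ∈ E.Z) (C.fresh l)
      · exact hl ▸ h3.1
  exact C.fresh 2 (e ▸ (hp hx).symm ▸ C.mp)

theorem phi_mem {i : ℕ} (hi : i ∈ X ∪ univ.image ρ) : phi ρ b c p i ∈ X ∪ {b, c, p} := by
  rcases mem_union.1 hi with h | h
  · rw [C.phi_Z (C.XZ h)]; exact mem_union_left _ h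
  · obtain ⟨k, _, rfl⟩ := mem_image.1 h
    rw [C.phi_rho]; exact mem_union_right _ (psi_mem k)

theorem a_not : a ∉ X ∪ {b, c, p} := by
  simp only [mem_union, mem_insert, mem_singleton, not_or]
  exact ⟨fun h => C.XY h C.ma, C.ab', C.ac', C.ap'⟩

theorem sub_Z : X ∪ {b, c, p} ⊆ E.Z := by
  intro i hi
  simp only [mem_union, mem_insert, mem_singleton] at hi
  rcases hi with h | rfl | rfl | rfl
  exacts [C.XZ h, C.YZ C.mb, C.YZ C.mc, C.mp]

theorem card_lt {ν : Fin 3 → ℕ} (hν : Naming E X b c ρ ν) (hp : p ∈ X → ν 2 = p) :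
    (D.restrict (X ∪ univ.image ν)).Z.card < E.Z.card := by
  have h := ((C.emb_nu hν hp).restrict_right (U := X ∪ {b, c, p})
    fun i hi => C.phi_mem (U_sub' hν hi)).card_le
  refine lt_of_le_of_lt h (card_lt_card ⟨C.sub_Z, fun h' => C.a_not (h' (C.YZ C.ma))⟩)

theorem not_img {ν : Fin 3 → ℕ} (hν : Naming E X b c ρ ν) {k : Fin 3} (hk : ν k = ρ k) {x : ℕ}
    (hx : Mate E X b c k x) : x ∉ univ.image ν := by
  intro h
  obtain ⟨l, _, hl⟩ := mem_image.1 h
  rcases hν l with h3 | h3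
  · exact C.rho_X l (h3 ▸ hl ▸ hx.1)
  · have := C.mate_ne hx (hl ▸ h3)
    subst this
    exact C.rho_X k (hk ▸ h3.1)

theorem U_update {ν : Fin 3 → ℕ} (hν : Naming E X b c ρ ν) {k : Fin 3} (hk : ν k = ρ k) {x : ℕ}
    (hx : x ∈ X) :
    X ∪ univ.image (Function.update ν k x) = (X ∪ univ.image ν).erase (ρ k) := by
  rw [img_update (C.naming_inj hν), hk]
  ext i
  simp only [mem_union, mem_insert, mem_erase]
  constructor
  · rintro (h | rfl | ⟨h1, h2⟩)
    · exact ⟨fun e => C.rho_X k (e ▸ h), Or.inl h⟩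
    · exact ⟨fun e => C.rho_X k (e ▸ hx), Or.inl hx⟩
    · exact ⟨h1, Or.inr h2⟩
  · rintro ⟨h1, h | h⟩
    · exact Or.inl h
    · exact Or.inr (Or.inr ⟨h1, h⟩)

theorem par_nu {ν : Fin 3 → ℕ} (hν : Naming E X b c ρ ν) {k : Fin 3} (hk : ν k = ρ k) {x : ℕ}
    (hx : Mate E X b c k x) : (D.restrict (X ∪ univ.image ν)).Par x (ρ k) :=
  C.mate_par hx (C.U_sub hν) (mem_union_left _ hx.1)
    (hk ▸ mem_union_right _ (mem_image_of_mem _ (mem_univ _)))

theorem has_rho : Has 𝓝 (D.restrict (X ∪ univ.image ρ)) := by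
  obtain ⟨X0, h0, hp, hh⟩ := C.hasN
  have hU : X0 ∪ univ.image ρ ⊆ X ∪ univ.image ρ := union_subset_union h0 (Subset.refl _)
  have e := C.emb hU fun _ h => by
    rcases mem_union.1 h with h | h
    · exact hp h
    · obtain ⟨k, _, hk⟩ := mem_image.1 h
      exact C.fresh k (hk ▸ C.mp)
  have e2 := e.restrict_right (U := X0 ∪ {b, c, p}) fun i hi => by
    rcases mem_union.1 hi with h | h
    · rw [C.phi_Z (C.XZ (h0 h))]; exact mem_union_left _ h
    · obtain ⟨k, _, rfl⟩ := mem_image.1 h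
      rw [C.phi_rho]; exact mem_union_right _ (psi_mem k)
  have hc : (X0 ∪ {b, c, p}).card ≤ (X0 ∪ univ.image ρ).card := by
    refine le_trans (card_le_card ?_) (card_image_le (f := phi ρ b c p))
    intro i hi
    rcases mem_union.1 hi with h | h
    · exact mem_image.2 ⟨i, mem_union_left _ h, C.phi_Z (C.XZ (h0 h))⟩
    · have : ∃ k, ![b, c, p] k = i := by
        simp only [mem_insert, mem_singleton] at h
        rcases h with rfl | rfl | rfl
        exacts [⟨0, rfl⟩, ⟨1, rfl⟩, ⟨2, rfl⟩]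
      obtain ⟨k, rfl⟩ := this
      exact mem_image.2 ⟨ρ k, mem_union_right _ (mem_image_of_mem _ (mem_univ _)), C.phi_rho k⟩
  obtain ⟨ψ, δ, e3, -⟩ := e2.inv hc
  exact (hh.minor e3.minor).minor (minor_restrict (D := D.restrict (X ∪ univ.image ρ)) hU)

theorem has_full (hN : ∀ N ∈ 𝓝, N.Conn3 ∧ 4 ≤ N.Z.card) {n : Fin 3 → ℕ}
    (hn : Naming E X b c ρ n) (hf : ∀ k x, Mate E X b c k x → n k = x) :
    Has 𝓝 (D.restrict (X ∪ univ.image n)) := by
  refine chain_full hn hf (fun ν => Has 𝓝 (D.restrict (X ∪ univ.image ν))) ?_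
    (fun _ => Or.inl rfl) C.has_rho
  rintro ν k x hν hk hx ⟨N, hN', hm⟩
  refine ⟨N, hN', ?_⟩
  rw [C.U_update hν hk hx.1]
  exact minor_del_par (hN N hN').1 (hN N hN').2 hm (C.par_nu hν hk hx) (C.rr k)

theorem qf_full {n : Fin 3 → ℕ} (hn : Naming E X b c ρ n)
    (hf : ∀ k x, Mate E X b c k x → n k = x) {M M' : (Fin 3 → ℕ) → Finset ℕ} (hM : Mk X M)
    (hM' : Mk X M') (h : QF (D.restrict (X ∪ univ.image n)).W (M n) (M' n)) :
    QF (D.restrict (X ∪ univ.image ρ)).W (M ρ) (M' ρ) := by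
  refine chain_full hn hf (fun ν => QF (D.restrict (X ∪ univ.image ν)).W (M ν) (M' ν) →
    QF (D.restrict (X ∪ univ.image ρ)).W (M ρ) (M' ρ)) ?_ (fun _ => Or.inl rfl) id h
  intro ν k x hν hk hx ih h
  have key : ∀ M, Mk X M → (ρ k ∈ M ν → x ∉ M ν) ∧
      (if ρ k ∈ M ν then insert x ((M ν).erase (ρ k)) else M ν) = M (Function.update ν k x) := by
    rintro M (⟨T, hT, e⟩ | e)
    · have : ρ k ∉ T := fun h => C.rho_X k (hT h)
      rw [e, e, if_neg this]
      exact ⟨fun h => absurd h this, rfl⟩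
    · rw [e, e, if_pos (hk ▸ mem_image_of_mem _ (mem_univ _)), img_update (C.naming_inj hν), hk]
      exact ⟨fun _ => C.not_img hν hk hx, rfl⟩
  refine ih (QF_simp (C.par_nu hν hk hx) (C.rr k) (key M hM).1 (key M' hM').1 ?_)
  rw [(key M hM).2, (key M' hM').2]
  rw [C.U_update hν hk hx.1] at h
  exact h

theorem valid_star : Valid 𝓛 (E.restrict (X ∪ {b, c, p})) {b, c, p} := by
  have hsub : insert a (X ∪ {b, c, p}) ⊆ E.Z := insert_subset (C.YZ C.ma) C.sub_Z
  refine Or.inr ⟨E.restrict (insert a (X ∪ {b, c, p})), a, ⟨C.a_not, rfl, C.ra,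
    ⟨fun _ _ => rfl, fun _ _ _ _ => rfl⟩, b, c, p, C.bc, C.bp, C.cp, rfl, subset_union_right,
    ⟨_, row_word (D := E.restrict (insert a (X ∪ {b, c, p}))) (mem_insert_self _ _) C.ra, ?_⟩,
    fun i => if i = b then 1 else if i = c then -1 else if i = p then -1 else 0, ?_, ?_⟩,
    C.free.minor (minor_restrict hsub)⟩
  · intro j
    change (if j = a then (1 : F3) else if j ∈ insert a (X ∪ {b, c, p}) then E.S a j else 0) ≠ 0 ↔ _
    by_cases h1 : j = a
    · simp [h1]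
    by_cases h2 : j = b
    · subst h2; simp [h1, C.ab]
    by_cases h3 : j = c
    · subst h3; simp [h1, C.ac]
    by_cases h4 : j = p
    · subst h4; simp [h1, h2, h3, C.ap]
    by_cases h5 : j ∈ X
    · have : E.S a j = 0 := by rw [E.skew, C.XYrow h5 C.ma C.ra, neg_zero]
      simp [h1, h2, h3, this]
    · simp [h1, h2, h3, h4, h5]
  · have hs : Supp (fun i => if i = b then (1 : F3) else if i = c then -1 else
        if i = p then -1 else 0) {b, c, p} := by
      intro i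
      by_cases h2 : i = b
      · simp [h2]
      by_cases h3 : i = c
      · simp [h3, C.bc.symm]
      by_cases h4 : i = p
      · simp [h4, C.bp.symm, C.cp.symm]
      · simp [h2, h3, h4]
    have hT : ({b, c, p} : Finset ℕ) ⊆ insert a (X ∪ {b, c, p}) :=
      subset_union_right.trans (subset_insert _ _)
    refine mem_flip_code.2 ⟨fun i hi => ?_, fun i hi hr => ?_⟩
    · by_contra h
      exact hi (hT ((hs i).1 h))
    · change E.row i = true at hr
      change i ∈ insert a (X ∪ {b, c, p}) at hi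
      change _ = ∑ j ∈ insert a (X ∪ {b, c, p}), _ * E.S j i
      have n1 : i ≠ b := fun e => by rw [e, C.rb] at hr; cases hr
      have n2 : i ≠ c := fun e => by rw [e, C.rc] at hr; cases hr
      have n3 : i ≠ p := fun e => by rw [e, C.rp] at hr; cases hr
      rw [sum_supp hT hs, sum_insert (by simp [C.bc, C.bp]), sum_insert (by simp [C.cp]),
        sum_singleton, E.skew b i, E.skew c i, E.skew p i]
      simp only [n1, n2, n3, if_true, if_false, C.bc.symm, C.bp.symm, C.cp.symm]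
      simp only [mem_insert, mem_union, mem_singleton, n1, n2, n3, or_false] at hi
      rcases hi with rfl | hi
      · rw [C.ab, C.ac, C.ap]; ring
      · rw [C.pe i hi]; ring
  · intro i
    by_cases h2 : i = b
    · simp [h2]
    by_cases h3 : i = c
    · simp [h3, C.bc.symm]
    by_cases h4 : i = p
    · simp [h4, C.bp.symm, C.cp.symm]
    · simp [h2, h3, h4]

theorem valid_full {n : Fin 3 → ℕ} (hn : Naming E X b c ρ n)
    (hf : ∀ k x, Mate E X b c k x → n k = x) :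
    Valid 𝓛 (D.restrict (X ∪ univ.image n)) (univ.image n) := by
  obtain ⟨ν, hν, hp, hφ⟩ : ∃ ν, Naming E X b c ρ ν ∧ (p ∈ X → ν 2 = p) ∧
      ∀ k, phi ρ b c p (ν k) = ![b, c, p] k := by
    by_cases h : p ∈ X
    · refine ⟨Function.update ρ 2 p, fun k => ?_, fun _ => Function.update_self _ _ _, fun k => ?_⟩
      · by_cases e : k = 2
        · subst e; rw [Function.update_self]; exact Or.inr (C.mate_p h)
        · exact Or.inl (Function.update_of_ne e _ _)
      · by_cases e : k = 2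
        · subst e; rw [Function.update_self, C.phi_Z C.mp]; rfl
        · rw [Function.update_of_ne e, C.phi_rho]
    · exact ⟨ρ, fun _ => Or.inl rfl, fun h' => absurd h' h, C.phi_rho⟩
  refine chain_full hn hf (fun ν => Valid 𝓛 (D.restrict (X ∪ univ.image ν)) (univ.image ν)) ?_
    hν ?_
  · intro ν k x hν hk hx h
    have h2 := valid_par (C.par_nu hν hk hx) (hk ▸ mem_image_of_mem _ (mem_univ _))
      (C.not_img hν hk hx) h
    rw [← hk, ← img_update (C.naming_inj hν)] at h2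
    refine valid_sub ?_ subset_union_right h2
    rw [C.U_update hν hk hx.1]
    exact erase_subset _ _
  · refine Valid.emb (Reach.refl _) ((C.emb_nu hν hp).restrict_right (U := X ∪ {b, c, p})
      fun i hi => C.phi_mem (U_sub' hν hi)) subset_union_right ?_
    have : (univ.image ν).image (phi ρ b c p) = {b, c, p} := by
      rw [image_image, show phi ρ b c p ∘ ν = ![b, c, p] from funext hφ, img3]
      rfl
    rw [this]
    exact C.valid_star

theorem valid_X {ν : Fin 3 → ℕ} (hν : Naming E X b c ρ ν) (hp : p ∈ X → ν 2 = p) {T : Finset ℕ}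
    (hT : T ⊆ X) (h : Valid 𝓛 E T) : Valid 𝓛 (D.restrict (X ∪ univ.image ν)) T := by
  refine Valid.emb (Reach.refl _) (C.emb_nu hν hp) (hT.trans subset_union_left) ?_
  have : T.image (phi ρ b c p) = T := by
    rw [image_congr (f := phi ρ b c p) (g := id) fun i hi => C.phi_Z (C.XZ (hT hi)), image_id]
  rwa [this]

theorem concl_full (hN : ∀ N ∈ 𝓝, N.Conn3 ∧ 4 ≤ N.Z.card)
    (IH : ∀ D : Disp F3, D.Z.card < E.Z.card → D.Conn3 → Has 𝓝 D → Free 𝓛 D → D.Concl 𝓛)
    {n : Fin 3 → ℕ} (hn : Naming E X b c ρ n) (hf : ∀ k x, Mate E X b c k x → n k = x) :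
    (D.restrict (X ∪ univ.image n)).Concl 𝓛 :=
  have hp : p ∈ X → n 2 = p := fun h => hf 2 p (C.mate_p h)
  IH _ (C.card_lt hn hp) (C.conn_full hn hf) (C.has_full hN hn hf)
    (C.free.minor (C.emb_nu hn hp).minor)

theorem rho_q (k : Fin 3) {j : ℕ} (hj : j ∈ Y) : D.S (ρ k) j = 0 := by
  rw [D.skew, C.eY k j hj, neg_zero]

theorem nfD : NF D R (X ∪ univ.image ρ) Y (fun i => D.S i b) (fun i => D.S i c) t1 t2 t3 := by
  have nf := C.nf
  refine ⟨?_, ?_, nf.rZ, nf.n1, nf.n2, nf.n3, nf.n12, ?_, nf.r1, nf.r2, nf.s13, nf.s23, nf.s3,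
    ?_, ?_, ?_⟩
  · rw [C.dZ, nf.dZ, union_right_comm]
  · rw [disjoint_left]
    intro i hi hy
    rcases mem_union.1 hi with h | h
    · exact C.XY h hy
    · obtain ⟨k, _, rfl⟩ := mem_image.1 h
      exact C.fresh k (C.YZ hy)
  · exact (C.ag.mono fun i hi => C.YZ hi).symm.trans nf.agree
  · intro i hi j hj
    rcases mem_union.1 hi with h | h
    · rw [C.DS (C.XZ h) (C.YZ hj), C.DS (C.XZ h) (C.YZ C.mb), C.DS (C.XZ h) (C.YZ C.mc)]
      exact C.ent h hj
    · obtain ⟨k, _, rfl⟩ := mem_image.1 h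
      rw [C.rho_q k hj, C.rho_q k C.mb, C.rho_q k C.mc]; simp
  · intro i _ hr
    exact ⟨D.bip _ _ (by rw [hr, C.Drow (C.YZ C.mb), C.rb]),
      D.bip _ _ (by rw [hr, C.Drow (C.YZ C.mc), C.rc])⟩
  · obtain ⟨x1, h1, x2, h2, hd⟩ := nf.ind
    refine ⟨x1, mem_union_left _ h1, x2, mem_union_left _ h2, ?_⟩
    rw [C.DS (C.XZ h1) (C.YZ C.mb), C.DS (C.XZ h1) (C.YZ C.mc), C.DS (C.XZ h2) (C.YZ C.mb),
      C.DS (C.XZ h2) (C.YZ C.mc)]
    exact hd

theorem rhoE (k : Fin 3) {i : ℕ} (hi : i ∈ X ∪ univ.image ρ) :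
    D.S i (ρ k) = al k * D.S i b + be k * D.S i c := by
  rcases mem_union.1 hi with h | h
  · rw [C.DS (C.XZ h) (C.YZ C.mb), C.DS (C.XZ h) (C.YZ C.mc), C.eX k i h]
  · obtain ⟨l, _, rfl⟩ := mem_image.1 h
    rw [C.rho_q l C.mb, C.rho_q l C.mc, D.bip _ _ (by rw [C.rr, C.rr])]; simp

theorem rhoD' : Rho D (X ∪ univ.image ρ) (fun i => D.S i b) (fun i => D.S i c)
    (ρ 0) (ρ 1) (ρ 2) := by
  have m : ∀ k, ρ k ∈ X ∪ univ.image ρ := fun k =>
    mem_union_right _ (mem_image_of_mem _ (mem_univ _))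
  refine ⟨m 0, m 1, m 2, C.rr 0, C.rr 1, C.rr 2, fun i hi => ?_, fun i hi => ?_, fun i hi => ?_⟩
  · rw [C.rhoE 0 hi]; simp [al, be]
  · rw [C.rhoE 1 hi]; simp [al, be]
  · rw [C.rhoE 2 hi]; simp [al, be, sub_eq_add_neg]

section Final

variable {n : Fin 3 → ℕ} (hn : Naming E X b c ρ n) (hf : ∀ k x, Mate E X b c k x → n k = x)
  (hc : (D.restrict (X ∪ univ.image n)).Concl 𝓛)
include hn hf hc

theorem qf_XX {T T' : Finset ℕ} (hT : T ⊆ X) (hT' : T' ⊆ X) (v : Valid 𝓛 E T)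
    (v' : Valid 𝓛 E T') (h : Compat T T') : QF D.W T T' := by
  have hp : p ∈ X → n 2 = p := fun h => hf 2 p (C.mate_p h)
  refine thmA_XX C.nfD C.rhoD' C.reg (hT.trans subset_union_left) (hT'.trans subset_union_left) ?_
  exact C.qf_full hn hf (M := fun _ => T) (M' := fun _ => T') (Or.inl ⟨T, hT, fun _ => rfl⟩)
    (Or.inl ⟨T', hT', fun _ => rfl⟩) (hc T T' (C.valid_X hn hp hT v) (C.valid_X hn hp hT' v') h)

theorem qf_XY {T T' : Finset ℕ} (hT : T ⊆ X) (v : Valid 𝓛 E T) (h : Compat T (univ.image n))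
    (hT' : MarkY D Y (ρ 0) (ρ 1) (ρ 2) T') : QF D.W T T' := by
  have hp : p ∈ X → n 2 = p := fun h => hf 2 p (C.mate_p h)
  refine thmA_XY C.nfD C.rhoD' C.reg (hT.trans subset_union_left) hT' ?_
  rw [← img3]
  exact C.qf_full hn hf (M := fun _ => T) (M' := fun ν => univ.image ν)
    (Or.inl ⟨T, hT, fun _ => rfl⟩) (Or.inr fun _ => rfl)
    (hc T _ (C.valid_X hn hp hT v) (C.valid_full hn hf) h)

theorem qf_YY {T T' : Finset ℕ} (hT : MarkY D Y (ρ 0) (ρ 1) (ρ 2) T)
    (hT' : MarkY D Y (ρ 0) (ρ 1) (ρ 2) T') : QF D.W T T' := by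
  refine thmA_YY C.nfD C.rhoD' C.reg hT hT' ?_
  rw [← img3]
  exact C.qf_full hn hf (M := fun ν => univ.image ν) (M' := fun ν => univ.image ν)
    (Or.inr fun _ => rfl) (Or.inr fun _ => rfl)
    (hc _ _ (C.valid_full hn hf) (C.valid_full hn hf) (Or.inl rfl))

end Final

end Ctx

end StepAux

end Pool.Agent.Lib.MP_c69b6d_co.F
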