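import Pool.Agent.Lib.MP_c69b6d_co.F.Lam

namespace Pool.Agent.Lib.MP_c69b6d_co.F

open Finset Disp

/-- joint pivots inside `Y` preserve the normal form. -/
theorem Disp.NF.pivot {D R : Disp F3} {X Y : Finset ℕ} {q1 q2 : ℕ → F3} {t1 t2 t3 : ℕ}
    (nf : NF D R X Y q1 q2 t1 t2 t3) {x y : ℕ} (hx : x ∈ Y) (hy : y ∈ Y) :
    NF (D.pivot x y) (R.pivot x y) X Y q1 q2 t1 t2 t3 ∧ Agree D (D.pivot x y) X := by
  have exy : R.S x y = D.S x y := nf.agree.2 x hx y hy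
  have eyx : R.S y x = D.S y x := nf.agree.2 y hy x hx
  by_cases h : D.S x y = 0
  · rw [pivot_of_zero h, pivot_of_zero (exy.trans h)]
    exact ⟨nf, Agree.refl _ _⟩
  have hR : R.S x y ≠ 0 := exy ▸ h
  have nX : ∀ i ∈ X, i ≠ x ∧ i ≠ y := fun i hi =>
    ⟨fun e => disjoint_left.1 nf.disj hi (e ▸ hx), fun e => disjoint_left.1 nf.disj hi (e ▸ hy)⟩
  have nY : ∀ t, t ∉ Y → t ≠ x ∧ t ≠ y := fun t ht =>
    ⟨fun e => ht (e ▸ hx), fun e => ht (e ▸ hy)⟩
  obtain ⟨a1, a2⟩ := nY _ nf.n1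
  obtain ⟨b1, b2⟩ := nY _ nf.n2
  obtain ⟨c1, c2⟩ := nY _ nf.n3
  have z : ∀ k ∈ Y, R.row k = true → ∀ i ∈ X, D.S i k = 0 := fun k hk hr i hi => by
    rw [nf.ent i hi k hk, R.bip t1 k (nf.r1.trans hr.symm), R.bip t2 k (nf.r2.trans hr.symm)]
    simp
  refine ⟨⟨by rw [pivot_Z, nf.dZ], nf.disj, by rw [pivot_Z, nf.rZ], nf.n1, nf.n2, nf.n3, nf.n12,
    nf.agree.pivot hx hy, ?_, ?_, ?_, ?_, fun j hj => ?_, fun i hi j hj => ?_, fun i hi hr => ?_,
    nf.ind⟩, fun i hi => ?_, fun i hi j hj => ?_⟩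
  · rw [pivot_row hR]; simp [a1, a2, nf.r1]
  · rw [pivot_row hR]; simp [b1, b2, nf.r2]
  · rw [pivot_S_gen hR a1 a2 c1 c2, nf.s3 x hx, nf.s3 y hy, nf.s13]; simp
  · rw [pivot_S_gen hR b1 b2 c1 c2, nf.s3 x hx, nf.s3 y hy, nf.s23]; simp
  · rw [pivot_S hR]
    simp [pS, c1, c2, nf.s3 x hx, nf.s3 y hy, nf.s3 j hj]
  · obtain ⟨i1, i2⟩ := nX i hi
    rw [pivot_S h, pivot_S hR, pivot_S hR]
    simp only [pS, i1, i2, a1, a2, b1, b2, if_false]
    rw [← exy, ← eyx, ← nf.agree.2 x hx j hj, ← nf.agree.2 y hy j hj, D.skew y i, D.skew x i,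
      R.skew y t1, R.skew y t2, R.skew x t1, R.skew x t2, nf.ent i hi x hx, nf.ent i hi y hy,
      nf.ent i hi j hj]
    split_ifs <;> ring
  · rw [pivot_row h] at hr
    simp only [(nX i hi).1, (nX i hi).2, or_self, if_false] at hr
    exact nf.qrow i hi hr
  · rw [pivot_row h]; simp [(nX i hi).1, (nX i hi).2]
  · rw [pivot_S_gen h (nX i hi).1 (nX i hi).2 (nX j hj).1 (nX j hj).2, D.skew x j, D.skew y j]
    have hr := row_ne_of_S hR
    cases h1 : R.row x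
    · have h2 : R.row y = true := by rw [h1] at hr; simpa using hr
      rw [z y hy h2 i hi, z y hy h2 j hj]; simp
    · rw [z x hx h1 i hi, z x hx h1 j hj]; simp

namespace TameA

variable {D R E : Disp F3} {X Y U : Finset ℕ} {q1 q2 : ℕ → F3} {t1 t2 t3 : ℕ}

theorem lift (nf : NF D R X Y q1 q2 t1 t2 t3) (hU : U ⊆ Y) {R' : Disp F3} (h : ReachIn U R R') :
    ∃ D', ReachIn U D D' ∧ NF D' R' X Y q1 q2 t1 t2 t3 ∧ Agree D D' X :=
  h.ind (P := fun R' => ∃ D', ReachIn U D D' ∧ NF D' R' X Y q1 q2 t1 t2 t3 ∧ Agree D D' X)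
    ⟨D, ReachIn.refl _ _, nf, Agree.refl _ _⟩ fun _ x y hx hy _ _ ⟨D', h1, h2, h3⟩ =>
      ⟨D'.pivot x y, h1.trans (ReachIn.single hx hy), (h2.pivot (hU hx) (hU hy)).1,
        h3.trans (h2.pivot (hU hx) (hU hy)).2⟩

theorem bool_eq {a b c : Bool} (h1 : a ≠ b) (h2 : a ≠ c) : b = c := by
  revert a b c; decide

theorem col_of {t h : ℕ} (ht : E.row t = true) (hh : E.S t h ≠ 0) : E.row h = false := by
  have := row_ne_of_S hh
  rw [ht] at this; simpa using this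

/-- a column of the fourth type realises the fourth point. -/
theorem factA {V : Finset ℕ} {R' : Disp F3} (hr : ReachIn U R R') (hUV : U ⊆ V) (m1 : t1 ∈ V)
    (m2 : t2 ∈ V) (r1 : R'.row t1 = true) (r2 : R'.row t2 = true) {h : ℕ} (hh : h ∈ V)
    (h1 : R'.S t1 h ≠ 0) (h2 : R'.S t2 h = R'.S t1 h) : Real4 (R.restrict V) t1 t2 := by
  have e : (R'.restrict V).flip.code = (R.restrict V).flip.code :=
    Reach.flip_code_eq ((hr.restrict V).reach hUV)
  have c := col_of r1 h1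
  have n1 : t1 ≠ h := ne_of_S h1
  have n2 : t2 ≠ h := ne_of_S (h2 ▸ h1)
  have w := col_word (D := R'.restrict V) hh c
  unfold Real4
  rw [← e]
  set d : ℕ → F3 := fun i => if i = h then 1 else if i ∈ (R'.restrict V).Z then
    (R'.restrict V).S h i else 0 with hd
  have d1 : d t1 = R'.S h t1 := by simp only [hd, n1, if_false]; exact if_pos m1
  have d2 : d t2 = R'.S h t2 := by simp only [hd, n2, if_false]; exact if_pos m2
  have d3 : d t1 ≠ 0 := by rw [d1]; exact S_ne_symm h1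
  refine ⟨d, w, d3, by rw [d1, d2, R'.skew h t1, R'.skew h t2, h2], fun d' hd' z1 z2 => ?_⟩
  have k : d' - d' h • d = 0 := by
    refine code_zero (Submodule.sub_mem _ hd' (Submodule.smul_mem _ _ w)) fun i hi => ?_
    obtain ⟨i1, i2⟩ := mem_B.1 hi
    by_cases e : i = h
    · subst e; simp [hd]
    · have i3 : R'.row i = false := by simpa [Disp.flip, Disp.restrict] using i2
      have : d i = 0 := by
        simp only [hd, e, if_false]
        split_ifs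
        · exact R'.bip h i (c.trans i3.symm)
        · rfl
      simp [this, z2 i this]
  have k1 := congrFun k t1
  simp only [Pi.sub_apply, Pi.smul_apply, smul_eq_mul, z1, Pi.zero_apply, zero_sub, neg_eq_zero,
    mul_eq_zero, d3, or_false] at k1
  rwa [k1, zero_smul, sub_zero] at k

/-- walks from column to column. -/
inductive Wk (E : Disp F3) (U : Finset ℕ) (z : ℕ) : ℕ → ℕ → Prop
  | nil : Wk E U z 0 z
  | cons (n x r k : ℕ) : r ∈ U → k ∈ U → E.S r x ≠ 0 → E.S r k ≠ 0 → Wk E U z n k →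
      Wk E U z (n + 1) x

theorem Wk.snoc {z n x r j : ℕ} (h : Wk E U z n x) (hr : r ∈ U) (hj : j ∈ U) (h1 : E.S r z ≠ 0)
    (h2 : E.S r j ≠ 0) : Wk E U j (n + 1) x := by
  induction h with
  | nil => exact Wk.cons _ _ r j hr hj h1 h2 Wk.nil
  | cons n x r' k a b c d _ ih => exact Wk.cons _ _ r' k a b c d ih

theorem Wk.side {z n x : ℕ} (h : Wk E U z n x) : E.row z = E.row x := by
  induction h with
  | nil => rfl
  | cons n x r k _ _ c d _ ih => exact ih.trans (bool_eq (row_ne_of_S d) (row_ne_of_S c))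

theorem Wk.zero {z x : ℕ} (h : Wk E U z 0 x) : x = z := by cases h; rfl

theorem comp (E : Disp F3) {x : ℕ} (hx : x ∈ U) : ∃ K ⊆ U, x ∈ K ∧
    (∀ i ∈ K, ∀ j ∈ U, j ∉ K → E.S i j = 0) ∧
    ∀ i ∈ K, (∃ n, Wk E U i n x) ∨ E.row i ≠ E.row x := by
  classical
  refine ⟨U.filter fun i => (∃ n, Wk E U i n x) ∨ ∃ z n, Wk E U z n x ∧ E.S i z ≠ 0,
    filter_subset _ _, mem_filter.2 ⟨hx, Or.inl ⟨0, Wk.nil⟩⟩, fun i hi j hj hn => ?_,
    fun i hi => ?_⟩
  · by_contra h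
    refine hn (mem_filter.2 ⟨hj, ?_⟩)
    obtain ⟨h1, ⟨n, h2⟩ | ⟨z, n, h2, h3⟩⟩ := mem_filter.1 hi
    · exact Or.inr ⟨i, n, h2, S_ne_symm h⟩
    · exact Or.inl ⟨n + 1, h2.snoc h1 hj h3 h⟩
  · obtain ⟨-, h | ⟨z, n, h2, h3⟩⟩ := mem_filter.1 hi
    · exact Or.inl h
    · exact Or.inr (h2.side ▸ row_ne_of_S h3)

theorem ent_gen {r k r' x : ℕ} (h : E.S r k ≠ 0) (h1 : r' ≠ r) (h2 : E.row r' = E.row r)
    (h3 : x ≠ k) (h4 : E.row x = E.row k) :
    (E.pivot r k).S r' x = E.S r' x - E.S r' k * E.S r x / E.S r k := by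
  have hr := row_ne_of_S h
  rw [pivot_S_gen h h1 (fun e => hr (by rw [← h2, e])) (fun e => hr (by rw [← h4, e])) h3,
    E.bip r' r h2]
  simp

theorem ent_keep {r k r' x : ℕ} (h : E.S r k ≠ 0) (h1 : E.S r x = 0) (h2 : E.S r' x ≠ 0)
    (h4 : E.row x = E.row k) : (E.pivot r k).S r' x ≠ 0 := by
  rw [ent_gen (r' := r') (x := x) h (fun e => h2 (e ▸ h1)) (bool_eq (row_ne_of_S h2).symm
    (h4 ▸ (row_ne_of_S h).symm)) (fun e => h (e ▸ h1)) h4, h1]
  simpa using h2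

theorem keep {r k z n x : ℕ} (h : E.S r k ≠ 0) (hw : Wk E U z n x) :
    E.S r x = 0 → E.row x = E.row k →
    (∃ m < n, ∃ z' ∈ U, E.S r z' ≠ 0 ∧ Wk E U z m z') ∨ Wk (E.pivot r k) U z n x := by
  induction hw with
  | nil => exact fun _ _ => Or.inr Wk.nil
  | cons n x r' k' a b c d e ih =>
    intro h1 h2
    by_cases h3 : E.S r k' = 0
    · have h4 : E.row k' = E.row k := (bool_eq (row_ne_of_S d) (row_ne_of_S c)).trans h2
      rcases ih h3 h4 with ⟨m, h5, h6⟩ | h5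
      · exact Or.inl ⟨m, by omega, h6⟩
      · exact Or.inr (Wk.cons _ _ r' k' a b (ent_keep h h1 c h2) (ent_keep h h3 d h4) h5)
    · exact Or.inl ⟨n, by omega, k', b, h3, e⟩

theorem neutral {r k w : ℕ} (h : E.S r k ≠ 0) (h1 : E.row w = E.row r) (h2 : E.S w k = 0) :
    (E.pivot r k).row w = E.row w ∧ ∀ j, (E.pivot r k).S w j = E.S w j := by
  have n1 : w ≠ r := fun e => h (e ▸ h2)
  have n2 : w ≠ k := fun e => row_ne_of_S h (by rw [← h1, e])
  refine ⟨by rw [pivot_row h]; simp [n1, n2], fun j => ?_⟩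
  rw [pivot_S h]
  simp only [pS, n1, n2, if_false]
  rw [E.skew k w, E.skew r w, h2, E.bip w r h1]
  split_ifs with a b
  · rw [a, E.bip w r h1]; simp
  · rw [b, h2]; simp
  · simp

/-- shorten a walk by pivots which keep the rows in `W`. -/
theorem engine (W : Finset ℕ) {z : ℕ} (n : ℕ) : ∀ (E : Disp F3) (x : ℕ),
    (∀ w ∈ W, E.row w = true) → (∃ w ∈ W, E.S w z ≠ 0) → x ≠ z → Wk E U z n x →
    ∃ E', ReachIn U E E' ∧ (∀ w ∈ W, E'.row w = true ∧ ∀ j, E'.S w j = E.S w j) ∧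
      ∃ r ∈ U, ∃ z' ∈ U, ∃ m < n, E'.S r x ≠ 0 ∧ E'.S r z' ≠ 0 ∧ (∃ w ∈ W, E.S w z' ≠ 0) ∧
        Wk E' U z m z' := by
  induction n using Nat.strong_induction_on with
  | _ n ih =>
  intro E x hW hz hxz hw
  have sh : ∀ m < n, Wk E U z m x → ∃ E', ReachIn U E E' ∧
      (∀ w ∈ W, E'.row w = true ∧ ∀ j, E'.S w j = E.S w j) ∧
      ∃ r ∈ U, ∃ z' ∈ U, ∃ m < n, E'.S r x ≠ 0 ∧ E'.S r z' ≠ 0 ∧ (∃ w ∈ W, E.S w z' ≠ 0) ∧
        Wk E' U z m z' := fun m hm h => by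
    obtain ⟨E', a1, a2, r, a3, z', a4, m', a5, a6⟩ := ih m hm E x hW hz hxz h
    exact ⟨E', a1, a2, r, a3, z', a4, m', by omega, a6⟩
  have cz : E.row z = false := by
    obtain ⟨w, a, b⟩ := hz
    exact col_of (hW w a) b
  cases hw with
  | nil => exact absurd rfl hxz
  | cons n _ r k hr hk h1 h2 hw =>
  by_cases hn : ∃ w ∈ W, E.S w k ≠ 0
  · exact ⟨E, ReachIn.refl _ _, fun w a => ⟨hW w a, fun _ => rfl⟩, r, hr, k, hk, n, by omega, h1,
      h2, hn, hw⟩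
  have ck : E.row k = false := hw.side.symm.trans cz
  have cx : E.row x = E.row k := bool_eq (row_ne_of_S h1) (row_ne_of_S h2)
  have rr : E.row r = true := by
    have := row_ne_of_S h2
    rw [ck] at this; simpa using this
  cases hw with
  | nil => exact absurd hz hn
  | cons n _ r2 k2 hr2 hk2 h3 h4 hw =>
  by_cases c1 : E.S r2 x = 0
  swap
  · exact sh (n + 1) (by omega) (Wk.cons _ _ r2 k2 hr2 hk2 c1 h4 hw)
  by_cases c2 : E.S r k2 = 0
  swap
  · exact sh (n + 1) (by omega) (Wk.cons _ _ r k2 hr hk2 h1 c2 hw)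
  have ck2 : E.row k2 = E.row k := bool_eq (row_ne_of_S h4) (row_ne_of_S h3)
  rcases keep h2 hw c2 ck2 with ⟨m, a1, z', a2, a3, a4⟩ | a1
  · exact sh (m + 1) (by omega) (Wk.cons _ _ r z' hr a2 h1 a3 a4)
  have nt : ∀ w ∈ W, (E.pivot r k).row w = E.row w ∧ ∀ j, (E.pivot r k).S w j = E.S w j :=
    fun w a => neutral h2 ((hW w a).trans rr.symm) (by
      by_contra b; exact hn ⟨w, a, b⟩)
  have b1 : (E.pivot r k).S r2 x ≠ 0 := by
    rw [ent_gen (r' := r2) (x := x) h2 (fun e => h1 (e ▸ c1)) (bool_eq (row_ne_of_S h3).symm (row_ne_of_S h2).symm)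
      (fun e => h3 (e ▸ c1)) cx, c1, zero_sub, neg_ne_zero]
    exact div_ne_zero (mul_ne_zero h3 h1) h2
  obtain ⟨E', a2, a3, r', a4, z', a5, m, a6, a7, a8, ⟨w, a9, a10⟩, a11⟩ :=
    ih (n + 1) (by omega) (E.pivot r k) x (fun w a => (nt w a).1.trans (hW w a))
      (by obtain ⟨w, a, b⟩ := hz; exact ⟨w, a, by rwa [(nt w a).2]⟩) hxz
      (Wk.cons _ _ r2 k2 hr2 hk2 b1 (ent_keep h2 c2 h4 ck2) a1)
  exact ⟨E', (ReachIn.single hr hk).trans a2,
    fun w a => ⟨(a3 w a).1, fun j => ((a3 w a).2 j).trans ((nt w a).2 j)⟩, r', a4, z', a5, m,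
    by omega, a7, a8, ⟨w, a9, by rwa [(nt w a9).2] at a10⟩, a11⟩

theorem f3a : ∀ a b c d e f : F3, (a ≠ 0 ∨ b ≠ 0) → a * d = c * b → a * f = e * b →
    c * f = e * d := by decide

theorem f3b : ∀ a b c d e f : F3, (c ≠ 0 ∨ d ≠ 0) → a * d = c * b → a * f ≠ e * b →
    c * f ≠ e * d := by decide

/-- two columns of independent types with a common neighbour. -/
theorem abc1 (n : ℕ) : ∀ (E : Disp F3) (x z : ℕ), E.row t1 = true → E.row t2 = true → x ∈ U →
    Wk E U z n x → E.S t1 x * E.S t2 z ≠ E.S t1 z * E.S t2 x →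
    ∃ E', ReachIn U E E' ∧ (∀ j, E'.S t1 j = E.S t1 j ∧ E'.S t2 j = E.S t2 j) ∧
      ∃ a ∈ U, ∃ b ∈ U, ∃ c ∈ U, E'.S a b ≠ 0 ∧ E'.S a c ≠ 0 ∧
        E'.S t1 b * E'.S t2 c ≠ E'.S t1 c * E'.S t2 b := by
  induction n using Nat.strong_induction_on with
  | _ n ih =>
  intro E x z r1 r2 hx hw hi
  obtain ⟨E', a1, a2, r, a3, z', a4, m, a5, a6, a7, a8, a9⟩ := engine {t1, t2} n E x
    (by simp [r1, r2]) (by
      by_contra h
      simp only [mem_insert, mem_singleton, exists_eq_or_imp, exists_eq_left, not_or,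
        not_not] at h
      exact hi (by rw [h.1, h.2]; simp)) (fun e => hi (by rw [e])) hw
  simp only [mem_insert, mem_singleton, forall_eq_or_imp, forall_eq, exists_eq_or_imp,
    exists_eq_left] at a2 a8
  obtain ⟨⟨b1, b2⟩, b3, b4⟩ := a2
  by_cases h : E.S t1 x * E.S t2 z' = E.S t1 z' * E.S t2 x
  · obtain ⟨E2, c1, c2, c3⟩ := ih m a5 E' z' z b1 b3 a4 a9
      (by rw [b2, b2, b4, b4]; exact f3b _ _ _ _ _ _ a8 h hi)
    exact ⟨E2, a1.trans c1, fun j => ⟨(c2 j).1.trans (b2 j), (c2 j).2.trans (b4 j)⟩, c3⟩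
  · exact ⟨E', a1, fun j => ⟨b2 j, b4 j⟩, r, a3, x, hx, z', a4, a6, a7,
      by rwa [b2, b2, b4, b4]⟩

theorem abc2 {a b c : ℕ} (hr : ReachIn U R E) (n1 : t1 ∉ U) (n2 : t2 ∉ U) (r1 : E.row t1 = true)
    (r2 : E.row t2 = true) (ha : a ∈ U) (hb : b ∈ U) (hc : c ∈ U) (hab : R.S a b ≠ 0)
    (hac : R.S a c ≠ 0) (hbc : R.S t1 b * R.S t2 c ≠ R.S t1 c * R.S t2 b) :
    ∃ x ∈ U, ∃ z n, Wk E U z n x ∧ E.S t1 x * E.S t2 z ≠ E.S t1 z * E.S t2 x := by
  classical
  by_contra H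
  push Not at H
  have inv : ∀ K ⊆ U, ∀ T : Finset ℕ, Disjoint K T →
      E.lam K (U \ K ∪ T) = R.lam K (U \ K ∪ T) := fun K hK T hT =>
    hr.lam_eq (disjoint_union_right.2 ⟨disjoint_sdiff, hT⟩) fun i hi => by
      by_cases h : i ∈ K <;> simp [h, hi]
  have dT : ∀ K ⊆ U, Disjoint K {t1, t2} := fun K hK => by
    simp only [disjoint_insert_right, disjoint_singleton_right]
    exact ⟨fun h => n1 (hK h), fun h => n2 (hK h)⟩
  have key : ∀ x ∈ U, (E.S t1 x ≠ 0 ∨ E.S t2 x ≠ 0) → ∃ K ⊆ U, x ∈ K ∧ b ∉ K ∧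
      ∀ i ∈ K, ∀ j ∈ U, j ∉ K → E.S i j = 0 := fun x hx ht => by
    obtain ⟨K, hK, h1, h2, h3⟩ := comp E hx
    refine ⟨K, hK, h1, fun hbK => ?_, h2⟩
    have cx : E.row x = false := ht.elim (col_of r1) (col_of r2)
    have h4 : ∀ i ∈ K, E.S t1 x * E.S t2 i = E.S t1 i * E.S t2 x := fun i hi => by
      rcases h3 i hi with ⟨n, h⟩ | h
      · exact H x hx i n h
      · have : E.row i = true := by rw [cx] at h; simpa using h
        rw [E.bip t1 i (r1.trans this.symm), E.bip t2 i (r2.trans this.symm)]; simp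
    have h5 : R.lam K (U \ K ∪ ∅) = 0 := by
      rw [← inv K hK ∅ (disjoint_empty_right _), lam_eq_zero_iff]
      intro i hi j hj
      rw [union_empty, mem_sdiff] at hj
      exact h2 i hi j hj.1 hj.2
    rw [lam_eq_zero_iff] at h5
    have haK : a ∈ K := by
      by_contra h
      exact S_ne_symm hab (h5 b hbK a (by simp [ha, h]))
    have hcK : c ∈ K := by
      by_contra h
      exact hac (h5 a haK c (by simp [hc, h]))
    have h6 : R.lam K (U \ K ∪ {t1, t2}) ≤ 1 := by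
      rw [← inv K hK _ (dT K hK)]
      refine lam_le_one_of_det fun i hi i' hi' j hj j' hj' => ?_
      have h7 := f3a _ _ _ _ _ _ ht (h4 i hi) (h4 i' hi')
      rw [mem_union, mem_sdiff] at hj hj'
      rcases hj with hj | hj
      · rw [h2 i hi j hj.1 hj.2, h2 i' hi' j hj.1 hj.2]; simp
      rcases hj' with hj' | hj'
      · rw [h2 i hi j' hj'.1 hj'.2, h2 i' hi' j' hj'.1 hj'.2]; simp
      rw [E.skew i j, E.skew i' j', E.skew i j', E.skew i' j]
      simp only [mem_insert, mem_singleton] at hj hj'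
      rcases hj with rfl | rfl <;> rcases hj' with rfl | rfl
      · ring
      · linear_combination h7
      · linear_combination -h7
      · ring
    have h8 := det_two_of_lam h6 hbK hcK (j := t1) (j' := t2) (by simp) (by simp)
    rw [R.skew b, R.skew c, R.skew b, R.skew c] at h8
    exact hbc (by linear_combination h8)
  choose! Kf k1 k2 k3 k4 using key
  set N := U.filter fun j => ∀ x ∈ U, (E.S t1 x ≠ 0 ∨ E.S t2 x ≠ 0) → j ∉ Kf x with hN
  have hNU : N ⊆ U := filter_subset _ _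
  have h1 : R.lam N (U \ N ∪ {t1, t2}) = 0 := by
    rw [← inv N hNU _ (dT N hNU), lam_eq_zero_iff]
    intro i hi j hj
    obtain ⟨i1, i2⟩ := mem_filter.1 hi
    rw [E.skew, neg_eq_zero]
    rcases mem_union.1 hj with hj | hj
    · obtain ⟨j1, j2⟩ := mem_sdiff.1 hj
      simp only [hN, mem_filter, j1, true_and, not_forall, not_not] at j2
      obtain ⟨x, x1, x2, x3⟩ := j2
      exact k4 x x1 x2 j x3 i i1 (i2 x x1 x2)
    · by_contra h
      have h2 : E.S t1 i ≠ 0 ∨ E.S t2 i ≠ 0 := by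
        simp only [mem_insert, mem_singleton] at hj
        rcases hj with rfl | rfl
        · exact Or.inl h
        · exact Or.inr h
      exact i2 i i1 h2 (k2 i i1 h2)
  rw [lam_eq_zero_iff] at h1
  have hbN : b ∈ N := mem_filter.2 ⟨hb, k3⟩
  refine hbc ?_
  rw [R.skew t1 b, R.skew t2 b, h1 b hbN t1 (by simp), h1 b hbN t2 (by simp)]
  simp

/-- the data of the three fixed elements of the forbidden patterns. -/
def Dat (R : Disp F3) (t1 t2 a b c : ℕ) : Prop :=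
  R.S a b ≠ 0 ∧ R.S a c ≠ 0 ∧ R.S t1 b ≠ R.S t2 b ∧ R.S t1 c ≠ R.S t2 c ∧
    R.S t1 b * R.S t2 c ≠ R.S t1 c * R.S t2 b ∧
    R.S a b * R.S t1 c - R.S a c * R.S t1 b ≠ R.S a b * R.S t2 c - R.S a c * R.S t2 b

theorem lemV {a b c z : ℕ} (ha : a ∈ Y) (hb : b ∈ Y) (hc : c ∈ Y) (n : ℕ) :
    ∀ (E : Disp F3) (x : ℕ), E.row t1 = true → E.row t2 = true → E.row a = true → x ∈ Y →
      Dat E t1 t2 a b c → E.S t1 x ≠ 0 → E.S t2 x = E.S t1 x → E.S t1 z ≠ E.S t2 z →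
      Wk E Y z n x → ∃ E', ReachIn Y E E' ∧ VPat E' E' Y t1 t2 := by
  induction n using Nat.strong_induction_on with
  | _ n ih =>
  intro E x r1 r2 ra hx hd h1 h2 hz hw
  by_cases hax : E.S a x = 0
  swap
  · obtain ⟨d1, d2, d3, d4, d5, d6⟩ := hd
    exact ⟨E, ReachIn.refl _ _, a, ha, b, hb, c, hc, x, hx, d1, d2, d3, d4, d5, d6, h1, h2,
      Or.inl hax⟩
  obtain ⟨E', a1, a2, r, a3, z', a4, m, a5, a6, a7, a8, a9⟩ := engine {t1, t2, a} n E x
    (by simp [r1, r2, ra]) (by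
      by_contra h
      simp only [mem_insert, mem_singleton, exists_eq_or_imp, exists_eq_left, not_or,
        not_not] at h
      exact hz (by rw [h.1, h.2.1])) (fun e => hz (by rw [← e, h2])) hw
  simp only [mem_insert, mem_singleton, forall_eq_or_imp, forall_eq, exists_eq_or_imp,
    exists_eq_left] at a2 a8
  obtain ⟨⟨b1, b2⟩, ⟨b3, b4⟩, b5, b6⟩ := a2
  have hd' : Dat E' t1 t2 a b c := by
    unfold Dat at hd ⊢
    simpa only [b2, b4, b6] using hd
  by_cases h : E.S a z' ≠ 0 ∨ E.S t1 z' ≠ E.S t2 z'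
  · obtain ⟨d1, d2, d3, d4, d5, d6⟩ := hd'
    refine ⟨E', a1, a, ha, b, hb, c, hc, x, hx, d1, d2, d3, d4, d5, d6, by rwa [b2],
      by rw [b2, b4, h2], Or.inr ⟨r, a3, by rwa [b6], a6, ?_⟩⟩
    by_cases e1 : E'.S r b = 0
    · by_cases e2 : E'.S r c = 0
      · exact Or.inr (Or.inr ⟨z', a4, e1, e2, a7, by rwa [b6, b2, b4]⟩)
      · exact Or.inr (Or.inl e2)
    · exact Or.inl e1
  · rw [not_or, not_not, not_not] at h
    obtain ⟨E2, c1, c2⟩ := ih m a5 E' z' b1 b3 b5 a4 hd'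
      (by rw [b2]; rcases a8 with e | e | e
          exacts [e, h.2 ▸ e, absurd h.1 e])
      (by rw [b2, b4, h.2]) (by rwa [b2, b4]) a9
    exact ⟨E2, a1.trans c1, c2⟩

/-- the new column can be brought to the fourth type. -/
theorem fourth {y : ℕ} (n1 : t1 ∉ U) (n2 : t2 ∉ U) (r1 : R.row t1 = true) (r2 : R.row t2 = true)
    (hy : y ∉ U) (cy : R.row y = false) (h0 : ¬ Real4 (R.restrict (U ∪ {t1, t2})) t1 t2)
    (h1 : Real4 (R.restrict (insert y (U ∪ {t1, t2}))) t1 t2) :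
    ∃ R1, ReachIn U R R1 ∧ R1.S t1 y ≠ 0 ∧ R1.S t2 y = R1.S t1 y := by
  classical
  obtain ⟨d, hd, d1, d2, d3⟩ := h1
  set V := U ∪ {t1, t2} with hV
  have m1 : t1 ∈ V := by simp [hV]
  have m2 : t2 ∈ V := by simp [hV]
  have up : ∀ d' ∈ (R.restrict V).flip.code, d' ∈ (R.restrict (insert y V)).flip.code :=
    fun d' h => mem_code_of_restrict (D := (R.restrict (insert y V)).flip) (U := V)
      (subset_insert _ _) (fun i hi hn => by
        rcases mem_insert.1 hi with rfl | hi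
        · simp [Disp.flip, Disp.restrict, cy]
        · exact absurd hi hn) h
  have yV : y ∉ V := by
    simp only [hV, mem_union, mem_insert, mem_singleton, not_or]
    exact ⟨hy, fun e => by rw [e, r1] at cy; simp at cy, fun e => by rw [e, r2] at cy; simp at cy⟩
  have dy : d y ≠ 0 := fun e => h0 ⟨d, mem_code_restrict_of_supp
    (D := (R.restrict (insert y V)).flip) (U := V) (subset_insert _ _) hd (fun i hi => by
      by_cases h : i = y
      · rw [h, e]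
      · exact hd.1 i fun hh => (mem_insert.1 hh).elim h hi), d1, d2,
    fun d' h => d3 d' (up d' h)⟩
  set I := V.filter fun i => d i ≠ 0 with hI
  have ind : (R.restrict V).Indep I := fun d' h hs => by
    have k : d' - (d' t1 / d t1) • d = 0 := by
      refine d3 _ (Submodule.sub_mem _ (up d' h) (Submodule.smul_mem _ _ hd)) ?_ fun i hi => ?_
      · simp only [Pi.sub_apply, Pi.smul_apply, smul_eq_mul]
        rw [div_mul_cancel₀ _ d1, sub_self]
      · simp [hi, hs i (by simp [hI, hi])]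
    have k1 := congrFun k y
    simp only [Pi.sub_apply, Pi.smul_apply, smul_eq_mul, h.1 y yV, Pi.zero_apply, zero_sub,
      neg_eq_zero, mul_eq_zero, dy, or_false] at k1
    rwa [k1, zero_smul, sub_zero] at k
  obtain ⟨E1, e1, e2⟩ := reach_rows (D := R.restrict V) (filter_subset _ _) ind
  have t1I : t1 ∈ I := mem_filter.2 ⟨m1, d1⟩
  have t2I : t2 ∈ I := mem_filter.2 ⟨m2, d2 ▸ d1⟩
  have e3 : ReachIn U (R.restrict V) E1 := e1.mono fun i hi => by
    have a1 : t1 ∈ (R.restrict V).B := mem_B.2 ⟨m1, r1⟩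
    have a2 : t2 ∈ (R.restrict V).B := mem_B.2 ⟨m2, r2⟩
    have a3 : i ∈ V ∧ i ≠ t1 ∧ i ≠ t2 := by
      rcases mem_union.1 hi with h | h <;> obtain ⟨h1, h2⟩ := mem_sdiff.1 h
      · exact ⟨(mem_filter.1 h1).1, fun e => h2 (e ▸ a1), fun e => h2 (e ▸ a2)⟩
      · exact ⟨(mem_B.1 h1).1, fun e => h2 (e ▸ t1I), fun e => h2 (e ▸ t2I)⟩
    simpa [hV, a3.2.1, a3.2.2] using a3.1
  obtain ⟨R1, f1, rfl⟩ := e3.lift
  have e4 : d ∈ (R1.restrict (insert y V)).flip.code := by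
    rwa [Reach.flip_code_eq ((f1.restrict (insert y V)).reach
      (subset_union_left.trans (subset_insert _ _)))]
  have e5 : ∀ t ∈ I, d t = d y * R1.S y t := fun t ht => by
    have a1 := mem_B.1 (e2 ht)
    rw [(mem_flip_code.1 e4).2 t (mem_insert_of_mem a1.1) a1.2]
    refine sum_eq_single_of_mem y (mem_insert_self _ _) fun j hj hn => ?_
    by_cases h : d j = 0
    · rw [h, zero_mul]
    · have a2 := mem_B.1 (e2 (mem_filter.2 ⟨(mem_insert.1 hj).resolve_left hn, h⟩))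
      exact mul_eq_zero_of_right _ (R1.bip j t (a2.2.trans a1.2.symm))
  refine ⟨R1, f1, S_ne_symm fun e => d1 (by rw [e5 t1 t1I, e, mul_zero]), ?_⟩
  rw [R1.skew t1, R1.skew t2, mul_left_cancel₀ dy ((e5 t2 t2I).symm.trans (d2.trans (e5 t1 t1I)))]

theorem f3c : ∀ a b c d : F3, a * d ≠ c * b → ¬ (a ≠ 0 ∧ b = a) → a ≠ b := by decide

theorem f3d : ∀ p q a b c d : F3, p ≠ 0 → a * d ≠ c * b →
    ¬ (c - a * q / p ≠ 0 ∧ d - b * q / p = c - a * q / p) → p * c - q * a ≠ p * d - q * b := by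
  decide +kernel

theorem step {a b c y : ℕ} (hD : D.Conn3) (nf : NF D R X Y q1 q2 t1 t2 t3)
    (hU : U ⊆ Y) (ha : a ∈ U) (hb : b ∈ U) (hc : c ∈ U) (hab : D.S a b ≠ 0) (hac : D.S a c ≠ 0)
    (hbc : R.S t1 b * R.S t2 c ≠ R.S t1 c * R.S t2 b) (hyY : y ∈ Y) (hy : y ∉ U)
    (cy : R.row y = false) (hmin : 3 ≤ D.lam (insert y X) (Y.erase y))
    (hV : ∀ D' R', D.Reach D' → Agree D D' X → NF D' R' X Y q1 q2 t1 t2 t3 →
      ¬ VPat D' R' Y t1 t2) (h0 : ¬ Real4 (R.restrict (U ∪ {t1, t2})) t1 t2) :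
    ¬ Real4 (R.restrict (insert y (U ∪ {t1, t2}))) t1 t2 := by
  classical
  intro h1
  have n1 : t1 ∉ U := fun h => nf.n1 (hU h)
  have n2 : t2 ∉ U := fun h => nf.n2 (hU h)
  obtain ⟨R1, e1, y1, y2⟩ := fourth n1 n2 nf.r1 nf.r2 hy cy h0 h1
  have s1 : R1.row t1 = true := (e1.row_eq n1).trans nf.r1
  have s2 : R1.row t2 = true := (e1.row_eq n2).trans nf.r2
  obtain ⟨x, hx, z, n, hw, hi⟩ := abc2 e1 n1 n2 s1 s2 ha hb hc
    (by rwa [nf.agree.2 a (hU ha) b (hU hb)]) (by rwa [nf.agree.2 a (hU ha) c (hU hc)]) hbc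
  obtain ⟨R2, e2, e3, a', ha', b', hb', c', hc', d1, d2, d5⟩ := abc1 n R1 x z s1 s2 hx hw hi
  have e4 := e1.trans e2
  obtain ⟨D2, g1, nf2, g2⟩ := lift nf hU e4
  have FA : ∀ R', ReachIn U R R' → ∀ h ∈ U, ¬ (R'.S t1 h ≠ 0 ∧ R'.S t2 h = R'.S t1 h) :=
    fun R' hr h hh hn => h0 (factA hr subset_union_left (by simp) (by simp)
      ((hr.row_eq n1).trans nf.r1) ((hr.row_eq n2).trans nf.r2) (mem_union_left _ hh) hn.1 hn.2)
  have d3 := f3c _ _ _ _ d5 (FA R2 e4 b' hb')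
  have d4 := f3c _ _ _ _ (fun e => d5 e.symm) (FA R2 e4 c' hc')
  have cb : R2.row b' = false := by
    by_cases h : R2.S t1 b' = 0
    · exact col_of nf2.r2 fun e => d3 (h.trans e.symm)
    · exact col_of nf2.r1 h
  have ra : R2.row a' = true := by
    have := row_ne_of_S d1
    rw [cb] at this; simpa using this
  have dat : Dat R2 t1 t2 a' b' c' := by
    refine ⟨d1, d2, d3, d4, d5, f3d _ _ _ _ _ _ d1 d5 ?_⟩
    have nbc : c' ≠ b' := fun e => d5 (by rw [e])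
    have sc : R2.row c' = R2.row b' := bool_eq (row_ne_of_S d2) (row_ne_of_S d1)
    have := FA _ (e4.trans (ReachIn.single ha' hb')) c' hc'
    rwa [ent_gen (r' := t1) d1 (fun e => n1 (e ▸ ha')) (nf2.r1.trans ra.symm) nbc sc,
      ent_gen (r' := t2) d1 (fun e => n2 (e ▸ ha')) (nf2.r2.trans ra.symm) nbc sc] at this
  have y3 : R2.S t1 y ≠ 0 := by rwa [(e3 y).1]
  have y4 : R2.S t2 y = R2.S t1 y := by rw [(e3 y).1, (e3 y).2, y2]
  have cy2 := col_of nf2.r1 y3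
  have hDZ : Y ⊆ D.Z := by rw [nf.dZ]; exact subset_union_right
  have yX : y ∉ X := fun h => disjoint_left.1 nf.disj h hyY
  have hr : ∃ r ∈ Y, R2.S y r ≠ 0 := by
    by_contra h
    push Not at h
    have l1 : D2.lam (insert y X) (Y.erase y) = D.lam (insert y X) (Y.erase y) :=
      g1.lam_eq (by
        rw [disjoint_insert_left]
        exact ⟨notMem_erase _ _, nf.disj.mono_right (erase_subset _ _)⟩) fun i hi =>
        mem_union_right _ (mem_erase.2 ⟨fun e => hy (e ▸ hi), hU hi⟩)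
    have l2 : D2.lam (insert y X) (Y.erase y) ≤ 2 :=
      lam_le_two (fun i => if i = y then 0 else q1 i) (R2.S t1)
        (fun i => if i = y then 0 else q2 i) (R2.S t2) fun i hi j hj => by
        have hj' := mem_of_mem_erase hj
        rcases mem_insert.1 hi with rfl | hi
        · rw [← nf2.agree.2 i hyY j hj', h j hj']; simp
        · have : i ≠ y := fun e => yX (e ▸ hi)
          simp only [this, if_false]
          exact nf2.ent i hi j hj'
    omega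
  have hz : ∃ z n, Wk R2 Y z n y ∧ R2.S t1 z ≠ R2.S t2 z := by
    by_contra H
    push Not at H
    obtain ⟨K, hK, k1, k2, k3⟩ := comp R2 hyY
    obtain ⟨r, r1, r2⟩ := hr
    have rK : r ∈ K := by
      by_contra h
      exact r2 (k2 y k1 r r1 h)
    have k4 : ∀ i ∈ K, R2.S t2 i = R2.S t1 i := fun i hi => by
      rcases k3 i hi with ⟨n, h⟩ | h
      · exact (H i n h).symm
      · have : R2.row i = true := by rw [cy2] at h; simpa using h
        rw [R2.bip t1 i (nf2.r1.trans this.symm), R2.bip t2 i (nf2.r2.trans this.symm)]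
    have hD2 := hD.reach (g1.reach (hU.trans hDZ))
    obtain ⟨x1, m1, x2, m2, hx⟩ := nf.ind
    have xK : ∀ i ∈ X, i ∈ D2.Z \ K := fun i hi => mem_sdiff.2
      ⟨by rw [nf2.dZ]; exact mem_union_left _ hi, fun h => disjoint_left.1 nf.disj hi (hK h)⟩
    have l1 := (hD2 K (by rw [nf2.dZ]; exact hK.trans subset_union_right)).2
      (one_lt_card.2 ⟨y, k1, r, rK, ne_of_S r2⟩)
      (one_lt_card.2 ⟨x1, xK _ m1, x2, xK _ m2, fun e => hx (by rw [e])⟩)
    have l2 : D2.lam K (D2.Z \ K) ≤ 1 :=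
      lam_le_one (R2.S t1) (fun j => if j ∈ X then -(q1 j + q2 j) else 0) fun i hi j hj => by
        obtain ⟨j1, j2⟩ := mem_sdiff.1 hj
        split_ifs with h
        · rw [D2.skew, nf2.ent j h i (hK hi), k4 i hi]; ring
        · rw [nf2.dZ] at j1
          have j3 := (mem_union.1 j1).resolve_left h
          rw [← nf2.agree.2 i (hK hi) j j3, k2 i hi j j3 j2, mul_zero]
    omega
  obtain ⟨z', n', w1, w2⟩ := hz
  obtain ⟨R3, e5, vp⟩ := lemV (hU ha') (hU hb') (hU hc') n' R2 y nf2.r1 nf2.r2 ra hyY dat y3 y4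
    w2 w1
  obtain ⟨D3, g3, nf3, g4⟩ := lift nf subset_rfl ((e4.mono hU).trans e5)
  refine hV D3 R3 (g3.reach hDZ) g4 nf3 ?_
  obtain ⟨a, ha, b, hb, c, hc, h, hh, v⟩ := vp
  have ag := nf3.agree.2
  refine ⟨a, ha, b, hb, c, hc, h, hh, ?_⟩
  rw [← ag a ha b hb, ← ag a ha c hc, ← ag a ha h hh]
  obtain ⟨v1, v2, v3, v4, v5, v6, v7, v8, v9⟩ := v
  refine ⟨v1, v2, v3, v4, v5, v6, v7, v8, v9.imp_right fun ⟨r, hr, u1, u2, u3⟩ => ⟨r, hr, u1, ?_⟩⟩
  rw [← ag r hr h hh, ← ag r hr b hb, ← ag r hr c hc]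
  refine ⟨u2, u3.imp_right (Or.imp_right fun ⟨q, hq, u4⟩ => ⟨q, hq, ?_⟩)⟩
  rwa [← ag r hr q hq, ← ag a ha q hq]

end TameA

/-- tameness of the `Y` side. -/
theorem tame {D R : Disp F3} {X Y Y0 : Finset ℕ} {q1 q2 : ℕ → F3} {t1 t2 t3 a b c : ℕ}
    (hD : D.Conn3) (nf : NF D R X Y q1 q2 t1 t2 t3) (hY0 : Y0 ⊆ Y) (ha : a ∈ Y0) (hb : b ∈ Y0)
    (hc : c ∈ Y0) (hab : D.S a b ≠ 0) (hac : D.S a c ≠ 0)
    (hbc : R.S t1 b * R.S t2 c ≠ R.S t1 c * R.S t2 b)
    (hmin : ∀ h ∈ Y, h ∉ Y0 → 3 ≤ D.lam (insert h X) (Y.erase h))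
    (hrow : ¬ Real4 (R.restrict (Y0 ∪ Y.filter (fun i => D.row i = true) ∪ {t1, t2})) t1 t2)
    (hV : ∀ D' R', D.Reach D' → Agree D D' X → NF D' R' X Y q1 q2 t1 t2 t3 →
      ¬ VPat D' R' Y t1 t2) :
    ¬ Real4 (R.restrict (Y ∪ {t1, t2})) t1 t2 := by
  set U0 := Y0 ∪ Y.filter (fun i => D.row i = true) with hU0
  have h0 : U0 ⊆ Y := union_subset hY0 (filter_subset _ _)
  have key : ∀ P ⊆ Y, ¬ Real4 (R.restrict (P ∪ U0 ∪ {t1, t2})) t1 t2 := by
    intro P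
    induction P using Finset.induction_on with
    | empty => intro _; rwa [empty_union]
    | insert y P _ ih =>
      intro hP
      have hy := hP (mem_insert_self _ _)
      have hP' := (subset_insert _ _).trans hP
      rw [insert_union, insert_union]
      by_cases h : y ∈ P ∪ U0
      · rw [insert_eq_of_mem (mem_union_left _ h)]; exact ih hP'
      have h1 : ∀ i ∈ Y0, i ∈ P ∪ U0 := fun i hi => mem_union_right _ (mem_union_left _ hi)
      refine TameA.step hD nf (union_subset hP' h0) (h1 a ha) (h1 b hb) (h1 c hc) hab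
        hac hbc hy h ?_ (hmin y hy fun e => h (h1 y e)) hV (ih hP')
      rw [nf.agree.1 y hy]
      by_contra e
      exact h (mem_union_right _ (mem_union_right _ (mem_filter.2 ⟨hy, by simpa using e⟩)))
  have := key Y subset_rfl
  rwa [union_eq_left.2 h0] at this

end Pool.Agent.Lib.MP_c69b6d_co.F
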