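import Pool.Agent.Lib.MP_c69b6d_co.F.ThmAd

/-! Gluing a regular matroid along a triangle. -/

namespace Pool.Agent.Lib.MP_c69b6d_co.F

open Finset Disp

/-- a mark on the regular side. -/
def MarkY (D : Disp F3) (Y : Finset ℕ) (ρ1 ρ2 ρ3 : ℕ) (T : Finset ℕ) : Prop :=
  T ⊆ Y ∪ {ρ1, ρ2, ρ3} ∧ (T.card = 1 ∨ D.Tri T)

/-- the renaming of the triangle. -/
def ren3 (t1 t2 t3 a b c : ℕ) (i : ℕ) : ℕ :=
  if i = t1 then a else if i = t2 then b else if i = t3 then c else i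

section

variable {D R : Disp F3} {X Y : Finset ℕ} {q1 q2 : ℕ → F3} {t1 t2 t3 ρ1 ρ2 ρ3 : ℕ}

theorem ren3_vals (nf : NF D R X Y q1 q2 t1 t2 t3) (a b c : ℕ) :
    ren3 t1 t2 t3 a b c t1 = a ∧ ren3 t1 t2 t3 a b c t2 = b ∧ ren3 t1 t2 t3 a b c t3 = c ∧
      ∀ i ∈ Y, ren3 t1 t2 t3 a b c i = i := by
  refine ⟨by simp [ren3], by simp [ren3, nf.n12.symm],
    by simp [ren3, (nfa_n13 nf).symm, (nfa_n23 nf).symm], fun i hi => ?_⟩
  have a1 : i ≠ t1 := fun e => nf.n1 (e ▸ hi)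
  have a2 : i ≠ t2 := fun e => nf.n2 (e ▸ hi)
  have a3 : i ≠ t3 := fun e => nf.n3 (e ▸ hi)
  simp [ren3, a1, a2, a3]

theorem GD.ren_surj (g : GD D R X Y q1 q2 t1 t2 t3 ρ1 ρ2 ρ3) {x : ℕ}
    (hx : x ∈ Y ∪ {ρ1, ρ2, ρ3}) : ∃ i ∈ R.Z, ren3 t1 t2 t3 ρ1 ρ2 ρ3 i = x := by
  obtain ⟨v1, v2, v3, v4⟩ := ren3_vals g.nf ρ1 ρ2 ρ3
  simp only [mem_union, mem_insert, mem_singleton] at hx
  rcases hx with hx | rfl | rfl | rfl
  · exact ⟨x, (nfa_mem g.nf).2 (Or.inl hx), v4 x hx⟩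
  · exact ⟨t1, (nfa_mem g.nf).2 (by simp), v1⟩
  · exact ⟨t2, (nfa_mem g.nf).2 (by simp), v2⟩
  · exact ⟨t3, (nfa_mem g.nf).2 (by simp), v3⟩

theorem GD.ren_inj (g : GD D R X Y q1 q2 t1 t2 t3 ρ1 ρ2 ρ3) {i j : ℕ} (hi : i ∈ R.Z)
    (hj : j ∈ R.Z) (h : ren3 t1 t2 t3 ρ1 ρ2 ρ3 i = ren3 t1 t2 t3 ρ1 ρ2 ρ3 j) : i = j := by
  obtain ⟨v1, v2, v3, v4⟩ := ren3_vals g.nf ρ1 ρ2 ρ3
  have n12 := g.n12
  have n13 := g.n13
  have n23 := g.n23
  have k1 : ∀ i ∈ Y, ρ1 ≠ i := fun i hi => nfa_ne g.nf g.rho.m1 hi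
  have k2 : ∀ i ∈ Y, ρ2 ≠ i := fun i hi => nfa_ne g.nf g.rho.m2 hi
  have k3 : ∀ i ∈ Y, ρ3 ≠ i := fun i hi => nfa_ne g.nf g.rho.m3 hi
  rcases (nfa_mem g.nf).1 hi with hi | rfl | rfl | rfl <;>
    rcases (nfa_mem g.nf).1 hj with hj | rfl | rfl | rfl
  · rwa [v4 i hi, v4 j hj] at h
  · rw [v4 i hi, v1] at h; exact absurd h.symm (k1 i hi)
  · rw [v4 i hi, v2] at h; exact absurd h.symm (k2 i hi)
  · rw [v4 i hi, v3] at h; exact absurd h.symm (k3 i hi)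
  · rw [v4 j hj, v1] at h; exact absurd h (k1 j hj)
  · rfl
  · rw [v1, v2] at h; exact absurd h n12
  · rw [v1, v3] at h; exact absurd h n13
  · rw [v4 j hj, v2] at h; exact absurd h (k2 j hj)
  · rw [v1, v2] at h; exact absurd h.symm n12
  · rfl
  · rw [v2, v3] at h; exact absurd h n23
  · rw [v4 j hj, v3] at h; exact absurd h (k3 j hj)
  · rw [v1, v3] at h; exact absurd h.symm n13
  · rw [v2, v3] at h; exact absurd h.symm n23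
  · rfl

theorem GD.dual_word (g : GD D R X Y q1 q2 t1 t2 t3 ρ1 ρ2 ρ3) {d : ℕ → F3}
    (hd : d ∈ D.flip.code) (h0 : ∀ i ∈ X, i ≠ ρ1 → i ≠ ρ2 → i ≠ ρ3 → d i = 0) :
    (fun i => if i ∈ R.Z then d (ren3 t1 t2 t3 ρ1 ρ2 ρ3 i) else 0) ∈ R.flip.code := by
  have nf := g.nf
  obtain ⟨v1, v2, v3, v4⟩ := ren3_vals nf ρ1 ρ2 ρ3
  have n12 := nf.n12
  have n13 := nfa_n13 nf
  have n23 := nfa_n23 nf
  have m1 : t1 ∈ R.Z := (nfa_mem nf).2 (by simp)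
  have m2 : t2 ∈ R.Z := (nfa_mem nf).2 (by simp)
  have hD := (mem_flip_code.1 hd).2
  have sD : ∀ i, ∑ j ∈ D.Z, d j * D.S j i =
      d ρ1 * D.S ρ1 i + d ρ2 * D.S ρ2 i + d ρ3 * D.S ρ3 i + ∑ j ∈ Y, d j * D.S j i := by
    intro i
    rw [nf.dZ, sum_union nf.disj, sum_three g.rho.m1 g.rho.m2 g.rho.m3 g.n12 g.n13 g.n23
      fun m hm h1 h2 h3 => by rw [h0 m hm h1 h2 h3, zero_mul]]
  have sR : ∀ i, ∑ j ∈ R.Z, (if j ∈ R.Z then d (ren3 t1 t2 t3 ρ1 ρ2 ρ3 j) else 0) * R.S j i =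
      d ρ1 * R.S t1 i + d ρ2 * R.S t2 i + d ρ3 * R.S t3 i + ∑ j ∈ Y, d j * R.S j i := by
    intro i
    rw [sum_congr rfl fun j hj => by rw [if_pos hj], nf.rZ, sum_union (by
        simp [nf.n1, nf.n2, nf.n3]), sum_insert (by simp [n12, n13]), sum_insert (by simp [n23]),
      sum_singleton, v1, v2, v3, sum_congr rfl fun j hj => by rw [v4 j hj]]
    ring
  have key := nfa_ind nf (A := d ρ1 + d ρ3 - ∑ j ∈ Y, d j * R.S j t1)
    (B := d ρ2 - d ρ3 - ∑ j ∈ Y, d j * R.S j t2) fun i hi => by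
    cases ri : D.row i
    · obtain ⟨e1, e2⟩ := nf.qrow i hi ri
      simp [e1, e2]
    · have a1 : i ≠ ρ1 := fun e => by rw [e, g.rho.c1] at ri; exact absurd ri (by decide)
      have a2 : i ≠ ρ2 := fun e => by rw [e, g.rho.c2] at ri; exact absurd ri (by decide)
      have a3 : i ≠ ρ3 := fun e => by rw [e, g.rho.c3] at ri; exact absurd ri (by decide)
      have := hD i ((nfa_memD nf).2 (Or.inl hi)) ri
      rw [sD, h0 i hi a1 a2 a3, D.skew ρ1, D.skew ρ2, D.skew ρ3, g.rho.e1 i hi, g.rho.e2 i hi,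
        g.rho.e3 i hi] at this
      have e : ∑ j ∈ Y, d j * D.S j i =
          q1 i * ∑ j ∈ Y, d j * R.S j t1 + q2 i * ∑ j ∈ Y, d j * R.S j t2 := by
        rw [mul_sum, mul_sum, ← sum_add_distrib]
        refine sum_congr rfl fun j hj => ?_
        rw [D.skew j i, nf.ent i hi j hj, R.skew j t1, R.skew j t2]
        ring
      rw [e] at this
      linear_combination this
  rw [mem_flip_code]
  refine ⟨fun i hi => if_neg hi, fun i hi ri => ?_⟩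
  rw [sR, if_pos hi]
  rcases (nfa_mem nf).1 hi with hi | rfl | rfl | rfl
  · have rD : D.row i = true := (nf.agree.1 i hi).symm.trans ri
    have := hD i ((nfa_memD nf).2 (Or.inr hi)) rD
    rw [sD, nfa_row_zero nf g.rho.m1 hi ri, nfa_row_zero nf g.rho.m2 hi ri,
      nfa_row_zero nf g.rho.m3 hi ri] at this
    rw [v4 i hi, R.bip t1 i (nf.r1.trans ri.symm), R.bip t2 i (nf.r2.trans ri.symm),
      R.skew t3 i, nf.s3 i hi, this,
      sum_congr rfl fun j hj => by rw [← nf.agree.2 j hj i hi]]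
    ring
  · rw [v1, R.bip _ _ rfl, R.bip t2 _ (nf.r2.trans nf.r1.symm), R.skew t3, nf.s13]
    linear_combination key.1
  · rw [v2, R.bip _ _ rfl, R.bip t1 _ (nf.r1.trans nf.r2.symm), R.skew t3, nf.s23]
    linear_combination key.2
  · rw [nfa_r3 nf] at ri
    exact absurd ri (by decide)

theorem MarkY.zero (g : GD D R X Y q1 q2 t1 t2 t3 ρ1 ρ2 ρ3) {T : Finset ℕ}
    (hT : T ⊆ Y ∪ {ρ1, ρ2, ρ3}) {i : ℕ} (hi : i ∈ X) (h1 : i ≠ ρ1) (h2 : i ≠ ρ2) (h3 : i ≠ ρ3) :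
    i ∉ T := by
  intro h
  have := hT h
  simp only [mem_union, mem_insert, mem_singleton, h1, h2, h3, or_false] at this
  exact nfa_ne g.nf hi this rfl

theorem GD.mark (g : GD D R X Y q1 q2 t1 t2 t3 ρ1 ρ2 ρ3) {T : Finset ℕ}
    (hT : MarkY D Y ρ1 ρ2 ρ3 T) {τ : ℕ → ℝ} (hτ : Iso T τ) :
    RankOne R (fun i => τ (ren3 t1 t2 t3 ρ1 ρ2 ρ3 i)) := by
  obtain ⟨hs, h1 | ⟨h3, d, hd, hsup⟩⟩ := hT
  · obtain ⟨a, rfl⟩ := card_eq_one.1 h1
    obtain ⟨a', ha', ea⟩ := g.ren_surj (hs (mem_singleton_self a))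
    refine rankOne_single ha' (fun m hm e => hτ.1 _ fun h => e ?_) ?_
    · exact g.ren_inj hm ha' ((mem_singleton.1 h).trans ea.symm)
    · have := hτ.2.2
      rw [sum_singleton] at this
      simpa [ea] using this
  · obtain ⟨a, b, c, hab, hac, hbc, rfl⟩ := card_eq_three.1 h3
    obtain ⟨a', ha', ea⟩ := g.ren_surj (hs (show a ∈ ({a, b, c} : Finset ℕ) by simp))
    obtain ⟨b', hb', eb⟩ := g.ren_surj (hs (show b ∈ ({a, b, c} : Finset ℕ) by simp))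
    obtain ⟨c', hc', ec⟩ := g.ren_surj (hs (show c ∈ ({a, b, c} : Finset ℕ) by simp))
    have out : ∀ m ∈ R.Z, m ≠ a' → m ≠ b' → m ≠ c' →
        ren3 t1 t2 t3 ρ1 ρ2 ρ3 m ∉ ({a, b, c} : Finset ℕ) := by
      intro m hm h1 h2 h3 h
      simp only [mem_insert, mem_singleton] at h
      rcases h with h | h | h
      · exact h1 (g.ren_inj hm ha' (h.trans ea.symm))
      · exact h2 (g.ren_inj hm hb' (h.trans eb.symm))
      · exact h3 (g.ren_inj hm hc' (h.trans ec.symm))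
    have dz : ∀ i, i ∉ ({a, b, c} : Finset ℕ) → d i = 0 := fun i hi => by
      by_contra e
      exact hi ((hsup i).1 e)
    have s1 := hτ.2.1
    have s2 := hτ.2.2
    rw [sum_insert (by simp [hab, hac]), sum_insert (by simp [hbc]), sum_singleton] at s2
    rw [sum_insert (by simp [hab, hac]), sum_insert (by simp [hbc]), sum_singleton,
      sum_insert (by simp [hab, hac]), sum_insert (by simp [hbc]), sum_singleton] at s1
    refine rankOne_tri g.reg (a := a') (b := b') (c := c') ⟨ha', hb', hc', ?_, ?_, ?_,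
      g.dual_word hd fun i hi h1 h2 h3 => dz i (MarkY.zero g hs hi h1 h2 h3), ?_, ?_, ?_, ?_,
      fun m hm h1 h2 h3 => hτ.1 _ (out m hm h1 h2 h3), ?_, ?_⟩
    · rintro rfl; exact hab (ea.symm.trans eb)
    · rintro rfl; exact hac (ea.symm.trans ec)
    · rintro rfl; exact hbc (eb.symm.trans ec)
    · simp only [ha', if_true, ea]; exact (hsup a).2 (by simp)
    · simp only [hb', if_true, eb]; exact (hsup b).2 (by simp)
    · simp only [hc', if_true, ec]; exact (hsup c).2 (by simp)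
    · intro m h1 h2 h3
      by_cases hm : m ∈ R.Z
      · simp only [hm, if_true]; exact dz _ (out m hm h1 h2 h3)
      · simp only [hm, if_false]
    · simp only [ea, eb, ec]; linarith
    · simp only [ea, eb, ec]; linarith

theorem set3_add (t1 t2 t3 ρ1 ρ2 ρ3 : ℕ) (y τ : ℕ → ℝ) (u1 u2 u3 : ℝ) :
    set3 t1 t2 t3 y u1 u2 u3 + (fun i => τ (ren3 t1 t2 t3 ρ1 ρ2 ρ3 i)) =
      set3 t1 t2 t3 (y + τ) (u1 + τ ρ1) (u2 + τ ρ2) (u3 + τ ρ3) := by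
  funext i
  simp only [set3, ren3, Pi.add_apply]
  split_ifs <;> rfl

theorem add3_nonneg {a b c : ℕ} {y : ℕ → ℝ} {s1 s2 s3 : ℝ} (hy : ∀ i, 0 < y i) (h1 : 0 ≤ s1)
    (h2 : 0 ≤ s2) (h3 : 0 ≤ s3) (i : ℕ) : 0 ≤ add3 a b c y s1 s2 s3 i := by
  have := hy i
  simp only [add3]
  split_ifs <;> positivity

theorem add3_add (a b c : ℕ) (y τ : ℕ → ℝ) (s1 s2 s3 : ℝ) :
    add3 a b c (y + τ) s1 s2 s3 = add3 a b c y s1 s2 s3 + τ := by
  funext i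
  simp only [add3, Pi.add_apply]
  ring

theorem lin_zero {A B : ℝ} (h : ∀ ε : ℝ, ε ≠ 0 → 0 ≤ ε * ε * A + ε * B) : B = 0 ∧ 0 ≤ A := by
  have hB : B = 0 := by
    by_contra hB
    have h1 : 0 < |A| + 1 := by positivity
    have h2 := h (-B / (|A| + 1)) (div_ne_zero (neg_ne_zero.2 hB) h1.ne')
    have e : -B / (|A| + 1) * (-B / (|A| + 1)) * A + -B / (|A| + 1) * B =
        B * B * (A - (|A| + 1)) / ((|A| + 1) * (|A| + 1)) := by
      field_simp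
      ring
    rw [e] at h2
    have h3 : B * B * (A - (|A| + 1)) < 0 :=
      mul_neg_of_pos_of_neg (mul_self_pos.2 hB) (by linarith [le_abs_self A])
    have h4 := div_neg_of_neg_of_pos h3 (mul_pos h1 h1)
    linarith
  refine ⟨hB, ?_⟩
  have := h 1 one_ne_zero
  rw [hB] at this
  linarith

/-- a move on a mark of the regular side induces an isotropic move of the triangle. -/
theorem GD.move (g : GD D R X Y q1 q2 t1 t2 t3 ρ1 ρ2 ρ3) {y τ : ℕ → ℝ}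
    (hτ : RankOne R (fun i => τ (ren3 t1 t2 t3 ρ1 ρ2 ρ3 i))) {h h' δ1 δ2 δ3 γ1 γ2 γ3 : ℝ}
    (hh : 0 < h) (hh' : 0 < h')
    (k : ∀ u1 u2 u3, R.W (set3 t1 t2 t3 y u1 u2 u3) = h * e3 (u1 + δ1) (u2 + δ2) (u3 + δ3))
    (k' : ∀ u1 u2 u3, R.W (set3 t1 t2 t3 (y + τ) u1 u2 u3) =
      h' * e3 (u1 + γ1) (u2 + γ2) (u3 + γ3)) :
    e3 (τ ρ1 + γ1 - δ1) (τ ρ2 + γ2 - δ2) (τ ρ3 + γ3 - δ3) = 0 ∧
      0 ≤ (τ ρ1 + γ1 - δ1) + (τ ρ2 + γ2 - δ2) + (τ ρ3 + γ3 - δ3) := by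
  have nf := g.nf
  have n12 := nf.n12
  have n13 := nfa_n13 nf
  have n23 := nfa_n23 nf
  apply lin_zero
  intro ε hε
  have main : ∀ s1 s2 s3 : ℝ, RankOne R (set3 t1 t2 t3 0 s1 s2 s3) →
      e3 ε ε ε * e3 (ε + s1 + (τ ρ1 + γ1 - δ1)) (ε + s2 + (τ ρ2 + γ2 - δ2))
        (ε + s3 + (τ ρ3 + γ3 - δ3)) ≤ e3 (ε + s1) (ε + s2) (ε + s3) *
        e3 (ε + (τ ρ1 + γ1 - δ1)) (ε + (τ ρ2 + γ2 - δ2)) (ε + (τ ρ3 + γ3 - δ3)) := by
    intro s1 s2 s3 hs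
    have e0 : R.W (set3 t1 t2 t3 y (ε - δ1) (ε - δ2) (ε - δ3)) = h * e3 ε ε ε := by
      rw [k]; simp
    have e1 : set3 t1 t2 t3 y (ε - δ1) (ε - δ2) (ε - δ3) + set3 t1 t2 t3 0 s1 s2 s3 =
        set3 t1 t2 t3 y (ε + s1 - δ1) (ε + s2 - δ2) (ε + s3 - δ3) := by
      funext i
      simp only [set3, Pi.add_apply, Pi.zero_apply]
      split_ifs <;> ring
    have := W_ineq g.reg (z := set3 t1 t2 t3 y (ε - δ1) (ε - δ2) (ε - δ3)) hs hτ (by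
      rw [e0]
      have : 0 < ε * ε := mul_self_pos.2 hε
      simp only [e3]
      positivity)
    rw [e0, e1, set3_add, set3_add, k, k', k'] at this
    have hp := mul_pos hh hh'
    apply le_of_mul_le_mul_left _ hp
    simp only [e3] at this ⊢
    linarith
  have r1 := main 1 0 0 (rankOne_single (a := t1) ((nfa_mem nf).2 (by simp))
    (fun m _ e => by simp [set3, e]) (by simp [set3]))
  have r2 := main 0 1 0 (rankOne_single (a := t2) ((nfa_mem nf).2 (by simp))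
    (fun m _ e => by simp [set3, e]) (by simp [set3, n12.symm]))
  have r3 := main 0 0 1 (rankOne_single (a := t3) ((nfa_mem nf).2 (by simp))
    (fun m _ e => by simp [set3, e]) (by simp [set3, n13.symm, n23.symm]))
  simp only [e3] at r1 r2 r3 ⊢
  linarith

end

theorem thmA_XX {D R : Disp F3} {X Y : Finset ℕ} {q1 q2 : ℕ → F3} {t1 t2 t3 ρ1 ρ2 ρ3 : ℕ}
    (nf : NF D R X Y q1 q2 t1 t2 t3) (rho : Rho D X q1 q2 ρ1 ρ2 ρ3) (reg : NoW4 R R.Z)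
    {T T' : Finset ℕ} (hT : T ⊆ X) (hT' : T' ⊆ X) (h : QF (D.restrict X).W T T') :
    QF D.W T T' := by
  have g : GD D R X Y q1 q2 t1 t2 t3 ρ1 ρ2 ρ3 := ⟨nf, rho, reg⟩
  apply QF.of_pos (W_continuous D)
  intro y τ τ' hτ hτ' p0 p1 p2 p3
  obtain ⟨δ1, δ2, δ3, d1, d2, d3, k⟩ := g.star p0
  have z1 : ∀ i ∈ Y, τ i = 0 := fun i hi => hτ.1 i fun e => nfa_ne nf (hT e) hi rfl
  have z2 : ∀ i ∈ Y, τ' i = 0 := fun i hi => hτ'.1 i fun e => nfa_ne nf (hT' e) hi rfl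
  have p1' : ∀ i, 0 < (y + τ) i := p1
  have p2' : ∀ i, 0 < (y + τ') i := p2
  have p3' : ∀ i, 0 < (y + τ + τ') i := p3
  have c1 := add3_nonneg (a := ρ1) (b := ρ2) (c := ρ3) p1' d1 d2 d3
  have c2 := add3_nonneg (a := ρ1) (b := ρ2) (c := ρ3) p2' d1 d2 d3
  have c3 := add3_nonneg (a := ρ1) (b := ρ2) (c := ρ3) p3' d1 d2 d3
  rw [g.star2 p0 (fun _ _ => rfl) k, g.star2 p1' (fun i hi => by simp [z1 i hi]) k,
    g.star2 p2' (fun i hi => by simp [z2 i hi]) k,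
    g.star2 p3' (fun i hi => by simp [z1 i hi, z2 i hi]) k]
  simp only [add3_add] at c1 c2 c3 ⊢
  have := h _ τ τ' hτ hτ' (add3_nonneg p0 d1 d2 d3) c1 c2 c3
  have h0 := mul_self_nonneg ((R.restrict Y).W y)
  nlinarith [mul_le_mul_of_nonneg_left this h0]

theorem thmA_XY {D R : Disp F3} {X Y : Finset ℕ} {q1 q2 : ℕ → F3} {t1 t2 t3 ρ1 ρ2 ρ3 : ℕ}
    (nf : NF D R X Y q1 q2 t1 t2 t3) (rho : Rho D X q1 q2 ρ1 ρ2 ρ3) (reg : NoW4 R R.Z)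
    {T T' : Finset ℕ} (hT : T ⊆ X) (hT' : MarkY D Y ρ1 ρ2 ρ3 T')
    (h : QF (D.restrict X).W T {ρ1, ρ2, ρ3}) : QF D.W T T' := by
  have g : GD D R X Y q1 q2 t1 t2 t3 ρ1 ρ2 ρ3 := ⟨nf, rho, reg⟩
  have n12 := g.n12
  have n13 := g.n13
  have n23 := g.n23
  apply QF.of_pos (W_continuous D)
  intro y τ τ' hτ hτ' p0 p1 p2 p3
  have p1' : ∀ i, 0 < (y + τ) i := p1
  have p2' : ∀ i, 0 < (y + τ') i := p2
  have p3' : ∀ i, 0 < (y + τ + τ') i := p3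
  obtain ⟨δ1, δ2, δ3, d1, d2, d3, k⟩ := g.star p0
  obtain ⟨γ1, γ2, γ3, c1, c2, c3, k'⟩ := g.star p2'
  have hh : 0 < (R.restrict Y).W y := W_pos _ p0
  have hh' : 0 < (R.restrict Y).W (y + τ') := W_pos _ p2'
  obtain ⟨i1, i2⟩ := g.move (g.mark hT' hτ') hh hh' k k'
  have z1 : ∀ i ∈ Y, τ i = 0 := fun i hi => hτ.1 i fun e => nfa_ne nf (hT e) hi rfl
  set η := add3 ρ1 ρ2 ρ3 0 (τ' ρ1 + γ1 - δ1) (τ' ρ2 + γ2 - δ2) (τ' ρ3 + γ3 - δ3) with hη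
  have hiso : Iso {ρ1, ρ2, ρ3} η := by
    obtain ⟨a1, a2, a3⟩ := g.add3_apply 0 (τ' ρ1 + γ1 - δ1) (τ' ρ2 + γ2 - δ2) (τ' ρ3 + γ3 - δ3)
    refine ⟨fun i hi => ?_, ?_, ?_⟩
    · simp only [mem_insert, mem_singleton, not_or] at hi
      simp [hη, add3, hi.1, hi.2.1, hi.2.2]
    · rw [sum_insert (by simp [n12, n13]), sum_insert (by simp [n23]), sum_singleton,
        sum_insert (by simp [n12, n13]), sum_insert (by simp [n23]), sum_singleton, hη, a1, a2, a3]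
      simp only [e3] at i1
      simp only [Pi.zero_apply]
      linarith
    · rw [sum_insert (by simp [n12, n13]), sum_insert (by simp [n23]), sum_singleton, hη, a1, a2,
        a3]
      simp only [Pi.zero_apply]
      linarith
  have key : ∀ w : ℕ → ℝ, ∀ i, (i ≠ ρ1 → i ≠ ρ2 → i ≠ ρ3 → τ' i = 0) →
      add3 ρ1 ρ2 ρ3 (w + τ') γ1 γ2 γ3 i = (add3 ρ1 ρ2 ρ3 w δ1 δ2 δ3 + η) i := by
    intro w i hi
    simp only [hη, add3, Pi.add_apply, Pi.zero_apply]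
    by_cases a1 : i = ρ1
    · subst a1; simp [n12, n13]; ring
    · by_cases a2 : i = ρ2
      · subst a2; simp [a1, n23]; ring
      · by_cases a3 : i = ρ3
        · subst a3; simp [a1, a2]; ring
        · simp [a1, a2, a3, hi a1 a2 a3]
  have key2 : ∀ w : ℕ → ℝ, (∀ i, 0 < w i) → (∀ i, 0 < (w + τ') i) →
      ∀ i, 0 ≤ (add3 ρ1 ρ2 ρ3 w δ1 δ2 δ3 + η) i := by
    intro w w0 w1 i
    by_cases e : i ≠ ρ1 ∧ i ≠ ρ2 ∧ i ≠ ρ3
    · simp [hη, add3, e.1, e.2.1, e.2.2, (w0 i).le]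
    · rw [← key w i fun a1 a2 a3 => absurd ⟨a1, a2, a3⟩ e]
      exact add3_nonneg w1 c1 c2 c3 i
  have key3 : ∀ w : ℕ → ℝ, (D.restrict X).W (add3 ρ1 ρ2 ρ3 (w + τ') γ1 γ2 γ3) =
      (D.restrict X).W (add3 ρ1 ρ2 ρ3 w δ1 δ2 δ3 + η) := fun w =>
    W_congr _ fun i hi => key w i fun a1 a2 a3 => hτ'.1 i (MarkY.zero g hT'.1 hi a1 a2 a3)
  have b1 := add3_nonneg (a := ρ1) (b := ρ2) (c := ρ3) p1' d1 d2 d3
  have b2 := key2 y p0 p2'
  have b3 := key2 (y + τ) p1' p3'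
  rw [g.star2 p0 (fun _ _ => rfl) k, g.star2 p1' (fun i hi => by simp [z1 i hi]) k,
    g.star2 p2' (fun _ _ => rfl) k', g.star2 p3' (fun i hi => by simp [z1 i hi]) k', key3, key3]
  simp only [add3_add] at b1 b3 ⊢
  have := h _ τ η hτ hiso (add3_nonneg p0 d1 d2 d3) b1 b2 b3
  nlinarith [mul_le_mul_of_nonneg_left this (mul_pos hh hh').le]

theorem thmA_YY {D R : Disp F3} {X Y : Finset ℕ} {q1 q2 : ℕ → F3} {t1 t2 t3 ρ1 ρ2 ρ3 : ℕ}
    (nf : NF D R X Y q1 q2 t1 t2 t3) (rho : Rho D X q1 q2 ρ1 ρ2 ρ3) (reg : NoW4 R R.Z)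
    {T T' : Finset ℕ} (hT : MarkY D Y ρ1 ρ2 ρ3 T) (hT' : MarkY D Y ρ1 ρ2 ρ3 T')
    (h : QF (D.restrict X).W {ρ1, ρ2, ρ3} {ρ1, ρ2, ρ3}) : QF D.W T T' := by
  have g : GD D R X Y q1 q2 t1 t2 t3 ρ1 ρ2 ρ3 := ⟨nf, rho, reg⟩
  apply QF.of_pos (W_continuous D)
  intro y τ τ' hτ hτ' p0 p1 p2 p3
  have p1' : ∀ i, 0 < (y + τ) i := p1
  have p2' : ∀ i, 0 < (y + τ') i := p2
  have p3' : ∀ i, 0 < (y + τ + τ') i := p3
  obtain ⟨κ, m, ω1, ω2, ω3, hκ, hm, k⟩ := g.xform p0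
  have hm := hm h
  have hμ : Real.sqrt (m / κ) ^ 2 = m / κ := Real.sq_sqrt (by positivity)
  have corner : ∀ w : ℕ → ℝ, (∀ i, 0 < w i) → (∀ i ∈ X, i ≠ ρ1 → i ≠ ρ2 → i ≠ ρ3 → w i = y i) →
      (Hm R t1 t2 (Real.sqrt (m / κ))
        (set3 t1 t2 t3 w (w ρ1 + ω1) (w ρ2 + ω2) (w ρ3 + ω3))).det = (D.W w / κ : ℝ) := by
    intro w w0 w1
    have e := g.glue' k w1
    have q0 : 0 < D.W w := W_pos _ w0
    have q1 : 0 ≤ m * (R.restrict Y).W w := mul_nonneg hm (W_pos _ w0).le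
    rw [g.det_skew (fun i => (w0 i).le), hμ, e]
    · congr 1
      field_simp
    · intro e0
      rw [e0] at e
      linarith
  have z1 : ∀ i ∈ X, i ≠ ρ1 → i ≠ ρ2 → i ≠ ρ3 → τ i = 0 := fun i hi a1 a2 a3 =>
    hτ.1 i (MarkY.zero g hT.1 hi a1 a2 a3)
  have z2 : ∀ i ∈ X, i ≠ ρ1 → i ≠ ρ2 → i ≠ ρ3 → τ' i = 0 := fun i hi a1 a2 a3 =>
    hτ'.1 i (MarkY.zero g hT'.1 hi a1 a2 a3)
  have e0 := corner y p0 fun _ _ _ _ _ => rfl
  have e1 := corner (y + τ) p1' fun i hi a1 a2 a3 => by simp [z1 i hi a1 a2 a3]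
  have e2 := corner (y + τ') p2' fun i hi a1 a2 a3 => by simp [z2 i hi a1 a2 a3]
  have e4 := corner (y + τ + τ') p3' fun i hi a1 a2 a3 => by
    simp [z1 i hi a1 a2 a3, z2 i hi a1 a2 a3]
  have := Hm_ineq (g.mark hT hτ) (g.mark hT' hτ') e0 (d1 := D.W (y + τ) / κ)
    (d2 := D.W (y + τ') / κ) (d3 := D.W (y + τ + τ') / κ)
    (by rw [← e1, set3_add]; simp only [Pi.add_apply, add_right_comm])
    (by rw [← e2, set3_add]; simp only [Pi.add_apply, add_right_comm])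
    (by rw [← e4, set3_add, set3_add]; simp only [Pi.add_apply, add_right_comm])
    (div_pos (W_pos _ p0) hκ).ne'
  rw [div_mul_div_comm, div_mul_div_comm] at this
  exact (div_le_div_iff_of_pos_right (mul_pos hκ hκ)).1 this

end Pool.Agent.Lib.MP_c69b6d_co.F
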