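import Pool.Agent.Lib.MP_c69b6d_co.F.Api3

/-! Determinant lemmas, the real lift of a regular display and the determinant formula. -/

namespace Pool.Agent.Lib.MP_c69b6d_co.F

open Finset Disp

section Mat

variable {ι : Type} [Fintype ι] [DecidableEq ι]

theorem det_congr_row {M N : Matrix ι ι ℝ} (a : ι → ℝ) (x : ι)
    (h : ∀ k l, N k l = M k l + a k * M x l + a l * M k x + a k * a l * M x x) :
    N.det = (1 + a x) ^ 2 * M.det := by
  let T : Matrix ι ι ℝ :=
    1 + Matrix.replicateCol Unit a * Matrix.replicateRow Unit (Pi.single x (1 : ℝ))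
  have hT : T.det = 1 + a x := by
    rw [Matrix.det_one_add_replicateCol_mul_replicateRow]; simp
  have hTe : ∀ k l, T k l = (if k = l then 1 else 0) + a k * (if l = x then 1 else 0) := by
    intro k l
    simp [T, Matrix.mul_apply, Matrix.one_apply, Pi.single_apply]
  have h1 : ∀ k l, (T * M) k l = M k l + a k * M x l := by
    intro k l
    simp [Matrix.mul_apply, hTe, add_mul, sum_add_distrib]
  have : N = T * M * T.transpose := by
    ext k l
    rw [Matrix.mul_apply]
    simp only [Matrix.transpose_apply, hTe, h1, mul_add, sum_add_distrib, mul_ite, mul_one,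
      mul_zero, sum_ite_eq, sum_ite_eq', mem_univ, if_true, h]
    ring
  rw [this, Matrix.det_mul, Matrix.det_mul, Matrix.det_transpose, hT]; ring

/-- the bilinear form of the inverse matrix. -/
noncomputable def bf (H : Matrix ι ι ℂ) (u v : ι → ℂ) : ℂ := ∑ l, (∑ k, u k * H⁻¹ k l) * v l

theorem det_two {H N : Matrix ι ι ℂ} (hH : H.det ≠ 0) (u v : ι → ℂ) (a b c d : ℂ)
    (h : ∀ k l, N k l = H k l + a * u k * u l + b * u k * v l + c * v k * u l + d * v k * v l) :
    N.det = H.det * (1 + a * bf H u u + b * bf H v u + c * bf H u v + d * bf H v v +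
      (a * d - b * c) * (bf H u u * bf H v v - bf H u v * bf H v u)) := by
  let U : Matrix ι (Fin 2) ℂ := Matrix.of fun k i => ![u k, v k] i
  let V : Matrix (Fin 2) ι ℂ := Matrix.of fun i l => ![a * u l + b * v l, c * u l + d * v l] i
  have e : N = H + U * V := by
    ext k l
    simp [U, V, Matrix.mul_apply, Fin.sum_univ_two, h]
    ring
  have key : ∀ (p q : ℂ) (w : ι → ℂ),
      ∑ l, (∑ k, (p * u k + q * v k) * H⁻¹ k l) * w l = p * bf H u w + q * bf H v w := by
    intro p q w
    simp only [bf, mul_sum, ← sum_add_distrib, sum_mul]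
    refine sum_congr rfl fun l _ => sum_congr rfl fun k _ => by ring
  rw [e, Matrix.det_add_mul U V (Ne.isUnit hH), Matrix.det_fin_two]
  simp only [Matrix.add_apply, Matrix.mul_apply, U, V, Matrix.of_apply, Matrix.cons_val_zero,
    Matrix.cons_val_one, Matrix.one_apply_eq, key]
  rw [Matrix.one_apply_ne (by decide), Matrix.one_apply_ne (by decide)]
  ring

theorem bf_symm {H : Matrix ι ι ℂ} (hH : H.transpose = H) (u v : ι → ℂ) :
    bf H u v = bf H v u := by
  have h1 : ∀ k l, H⁻¹ k l = H⁻¹ l k := by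
    intro k l
    have := Matrix.transpose_nonsing_inv H
    rw [hH] at this
    exact (congrFun (congrFun this k) l).symm
  simp only [bf, sum_mul]
  rw [sum_comm]
  refine sum_congr rfl fun l _ => sum_congr rfl fun k _ => ?_
  rw [h1 l k]; ring

theorem bf_conj {H : Matrix ι ι ℂ} (hH : H.conjTranspose = H) (u v : ι → ℝ) :
    bf H (fun k => v k) (fun k => u k) = (starRingEnd ℂ) (bf H (fun k => u k) (fun k => v k)) := by
  have h1 : ∀ k l, H⁻¹ k l = (starRingEnd ℂ) (H⁻¹ l k) := by
    intro k l
    have := Matrix.conjTranspose_nonsing_inv H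
    rw [hH] at this
    exact (congrFun (congrFun this k) l).symm
  simp only [bf, sum_mul, map_sum, map_mul, Complex.conj_ofReal]
  rw [sum_comm]
  refine sum_congr rfl fun l _ => sum_congr rfl fun k _ => ?_
  rw [h1 l k]; ring

theorem herm_ineq {H N1 N2 N3 : Matrix ι ι ℂ} (hH : H.conjTranspose = H) (u v : ι → ℝ)
    {σ σ' : ℝ} (hσ : 0 ≤ σ) (hσ' : 0 ≤ σ')
    (h1 : ∀ k l, N1 k l = H k l + (σ * u k * u l : ℝ))
    (h2 : ∀ k l, N2 k l = H k l + (σ' * v k * v l : ℝ))
    (h3 : ∀ k l, N3 k l = H k l + (σ * u k * u l : ℝ) + (σ' * v k * v l : ℝ))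
    {d0 d1 d2 d3 : ℝ} (e0 : H.det = d0) (e1 : N1.det = d1) (e2 : N2.det = d2) (e3 : N3.det = d3)
    (hd : d0 ≠ 0) : d0 * d3 ≤ d1 * d2 := by
  have hH0 : H.det ≠ 0 := by rw [e0]; exact_mod_cast hd
  have k1 := det_two (N := N1) hH0 (fun k => u k) (fun k => v k) σ 0 0 0
    (fun k l => by rw [h1]; push_cast; ring)
  have k2 := det_two (N := N2) hH0 (fun k => u k) (fun k => v k) 0 0 0 σ'
    (fun k l => by rw [h2]; push_cast; ring)
  have k3 := det_two (N := N3) hH0 (fun k => u k) (fun k => v k) σ 0 0 σ'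
    (fun k l => by rw [h3]; push_cast; ring)
  rw [bf_conj hH u v] at k3
  rw [e0] at k1 k2 k3
  rw [e1] at k1
  rw [e2] at k2
  rw [e3] at k3
  set c := bf H (fun k => u k) (fun k => v k)
  have k4 : ((d1 * d2 - d0 * d3 : ℝ) : ℂ) = ((d0 ^ 2 * σ * σ' * Complex.normSq c : ℝ) : ℂ) := by
    push_cast
    rw [k1, k2, k3, ← Complex.mul_conj]
    ring
  have k5 : d1 * d2 - d0 * d3 = d0 ^ 2 * σ * σ' * Complex.normSq c := by exact_mod_cast k4
  have k6 : 0 ≤ d0 ^ 2 * σ * σ' * Complex.normSq c :=
    mul_nonneg (by positivity) (Complex.normSq_nonneg c)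
  linarith

end Mat

/-- the integer lift of an element of `F3`. -/
def lz (a : F3) : ℤ := if a = 1 then 1 else if a = -1 then -1 else 0

/-- the real lift of an element of `F3`. -/
def lf (a : F3) : ℝ := (lz a : ℝ)

theorem f3_sq {a : F3} (h : a ≠ 0) : a * a = 1 := by
  revert a; decide

theorem f3_div (a b : F3) : a / b = a * b := by
  by_cases h : b = 0
  · simp [h]
  · rw [div_eq_mul_inv, inv_eq_of_mul_eq_one_right (f3_sq h)]

@[simp] theorem lf_zero : lf 0 = 0 := by
  have : lz 0 = 0 := by decide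
  simp [lf, this]

@[simp] theorem lf_one : lf 1 = 1 := by
  have : lz 1 = 1 := by decide
  simp [lf, this]

@[simp] theorem lf_neg (a : F3) : lf (-a) = - lf a := by
  have : ∀ a : F3, lz (-a) = - lz a := by decide
  simp [lf, this]

theorem lf_mul (a b : F3) : lf (a * b) = lf a * lf b := by
  have : ∀ a b : F3, lz (a * b) = lz a * lz b := by decide
  simp [lf, this]

theorem lf_sq {a : F3} (h : a ≠ 0) : lf a * lf a = 1 := by
  rw [← lf_mul, f3_sq h, lf_one]

theorem lf_ne {a : F3} (h : a ≠ 0) : lf a ≠ 0 := by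
  intro e
  have := lf_sq h
  rw [e] at this
  simp at this

theorem lf_div (a b : F3) : lf (a / b) = lf a / lf b := by
  by_cases h : b = 0
  · simp [h]
  · rw [f3_div, lf_mul, eq_div_iff (lf_ne h), mul_assoc, lf_sq h, mul_one]

theorem lf_sub {a b : F3} (h : a = 0 ∨ b = 0 ∨ a = b) : lf (a - b) = lf a - lf b := by
  rcases h with h | h | h <;> simp [h]

/-- the real lift of a display. -/
def Disp.lift (R : Disp F3) : Disp ℝ :=
  { Z := R.Z, row := R.row, S := fun i j => lf (R.S i j)
    skew := fun i j => by rw [R.skew i j, lf_neg]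
    bip := fun i j h => by rw [R.bip i j h, lf_zero] }

theorem lift_pivot {R : Disp F3} (reg : NoW4 R R.Z) {x y : ℕ} (hx : x ∈ R.Z) (hy : y ∈ R.Z)
    (h : R.S x y ≠ 0) : Same (R.lift.pivot x y) (R.pivot x y).lift := by
  have h' : R.lift.S x y ≠ 0 := lf_ne h
  have w4 := reg R (ReachIn.refl _ _)
  refine ⟨by simp [Disp.lift], fun i _ => ?_, fun i hi j hj => ?_⟩
  · rw [pivot_row h']
    exact pivot_row h i
  · rw [pivot_Z] at hi hj
    rw [pivot_S h']
    change lf ((R.pivot x y).S i j) = pS (fun i j => lf (R.S i j)) x y i j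
    rw [pivot_S h]
    unfold pS
    split_ifs
    any_goals simp only [lf_div, lf_neg, lf_one, lf_zero]
    have hr := row_ne_of_S h
    have k3 : ∀ a b c : Bool, a ≠ b → c ≠ a → c = b := by decide
    by_cases hix : R.row i = R.row x
    · rw [R.bip i x hix]
      simp only [zero_mul, zero_div, sub_zero, lf_zero]
      rw [lf_sub, lf_div, lf_mul]
      by_contra hc
      push Not at hc
      obtain ⟨c1, c2, c3⟩ := hc
      refine w4 i hi x hx j hj y hy ⟨c1, ?_, ?_, h, ?_⟩
      · intro e; simp [e] at c2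
      · intro e; simp [e] at c2
      · intro e; apply c3; rw [← e]; field_simp
    · have hiy := k3 _ _ _ hr hix
      have h2 := S_ne_symm h
      rw [R.bip i y hiy]
      simp only [zero_mul, zero_div, sub_zero, lf_zero]
      rw [lf_sub, lf_div, lf_mul]
      by_contra hc
      push Not at hc
      obtain ⟨c1, c2, c3⟩ := hc
      refine w4 i hi y hy j hj x hx ⟨c1, ?_, ?_, h2, ?_⟩
      · intro e; simp [e] at c2
      · intro e; simp [e] at c2
      · intro e; apply c3; rw [← e]; field_simp

theorem noW4_pivot {R : Disp F3} (reg : NoW4 R R.Z) {x y : ℕ} (hx : x ∈ R.Z) (hy : y ∈ R.Z) :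
    NoW4 (R.pivot x y) (R.pivot x y).Z := by
  rw [pivot_Z]
  intro E hE r hr s hs c hc d hd
  rw [pivot_Z] at hr hs hc hd
  exact reg E ((ReachIn.single hx hy).trans hE) r hr s hs c hc d hd

theorem lift_code_pivot {R : Disp F3} (reg : NoW4 R R.Z) {x y : ℕ} (hx : x ∈ R.Z) (hy : y ∈ R.Z)
    (h : R.S x y ≠ 0) : (R.pivot x y).lift.code = R.lift.code := by
  rw [(lift_pivot reg hx hy h).code_eq]
  exact Reach.code_eq (D := R.lift) (ReachIn.single hx hy)

/-- the row words of a real display (zero off the rows). -/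
noncomputable def Disp.cw (G : Disp ℝ) (k : ℕ) : ℕ → ℝ :=
  fun m => if k ∈ G.B then (if m = k then 1 else if m ∈ G.Z then G.S k m else 0) else 0

theorem cw_mem (G : Disp ℝ) (k : ℕ) : G.cw k ∈ G.code := by
  by_cases h : k ∈ G.B
  · have := row_word (mem_B.1 h).1 (mem_B.1 h).2
    have e : G.cw k = fun j => if j = k then 1 else if j ∈ G.Z then G.S k j else 0 := by
      funext m; simp [Disp.cw, h]
    rw [e]; exact this
  · have e : G.cw k = 0 := by
      funext m; simp [Disp.cw, h]
    rw [e]; exact G.code.zero_mem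

theorem cw_row {G : Disp ℝ} {k m : ℕ} (hm : m ∈ G.B) : G.cw k m = if m = k then 1 else 0 := by
  unfold Disp.cw
  by_cases e : m = k
  · subst e; simp [hm]
  · by_cases hk : k ∈ G.B
    · simp [e, hk, G.bip k m ((mem_B.1 hk).2.trans (mem_B.1 hm).2.symm)]
    · simp [e, hk]

theorem cw_of_not {G : Disp ℝ} {k : ℕ} (hk : k ∉ G.B) (m : ℕ) : G.cw k m = 0 := by
  simp [Disp.cw, hk]

theorem cw_col {G : Disp ℝ} {k m : ℕ} (hk : k ∈ G.B) (hm : m ∈ G.Z) (hr : G.row m = false) :
    G.cw k m = G.S k m := by
  have : m ≠ k := by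
    rintro rfl
    rw [(mem_B.1 hk).2] at hr
    exact absurd hr (by decide)
  simp [Disp.cw, hk, hm, this]

/-- the weighted Gram matrix of the row words, padded by the identity. -/
noncomputable def Disp.Gm (G : Disp ℝ) (U : Finset ℕ) (y : ℕ → ℝ) : Matrix U U ℝ :=
  Matrix.of fun k l => (if k = l ∧ (k : ℕ) ∉ G.B then 1 else 0) +
    ∑ m ∈ G.Z, y m * (G.cw k m * G.cw l m)

theorem Gm_apply (G : Disp ℝ) (U : Finset ℕ) (y : ℕ → ℝ) (k l : U) :
    G.Gm U y k l = (if k = l ∧ (k : ℕ) ∉ G.B then 1 else 0) +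
      ∑ m ∈ G.Z, y m * (G.cw k m * G.cw l m) := rfl

theorem Gm_same {G G' : Disp ℝ} (h : Same G G') (U : Finset ℕ) (y : ℕ → ℝ) :
    G'.Gm U y = G.Gm U y := by
  have e : ∀ k m, G'.cw k m = G.cw k m := by
    intro k m
    unfold Disp.cw
    rw [h.B_eq, h.1]
    split_ifs with h1 h2 h3
    · rfl
    · exact h.2.2 k (mem_B.1 h1).1 m h3
    · rfl
    · rfl
  ext k l
  simp only [Gm_apply, h.B_eq, h.1, e]

theorem det_Gm_pivot {G : Disp ℝ} {U : Finset ℕ} (hU : G.Z ⊆ U) {x y0 : ℕ} (hx : x ∈ G.Z)
    (hy : y0 ∈ G.Z) (rx : G.row x = true) (h : G.S x y0 ≠ 0) (y : ℕ → ℝ) :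
    ((G.pivot x y0).Gm U y).det = (1 / G.S x y0) ^ 2 * (G.Gm U y).det := by
  have ry : G.row y0 = false := by
    have := row_ne_of_S h
    rw [rx] at this
    simpa using this.symm
  have hxy := ne_of_S h
  have hxB : x ∈ G.B := mem_B.2 ⟨hx, rx⟩
  have hyB : y0 ∉ G.B := fun e => by simp [(mem_B.1 e).2] at ry
  have hB : ∀ m, m ∈ (G.pivot x y0).B ↔ m = y0 ∨ (m ∈ G.B ∧ m ≠ x) := by
    intro m
    rw [mem_B, mem_B, pivot_Z, pivot_row h]
    by_cases e1 : m = x
    · subst e1; simp [rx, hxy]
    · by_cases e2 : m = y0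
      · subst e2; simp [ry, hy]
      · simp [e1, e2]
  have hc : (G.pivot x y0).code = G.code := Reach.code_eq (D := G) (ReachIn.single hx hy)
  let a : ℕ → ℝ := fun k => if k = x then 1 / G.S x y0 - 1 else
    if k ∈ G.B then - (G.S k y0 / G.S x y0) else 0
  let s : ℕ → ℕ := fun k => if k = x then y0 else if k = y0 then x else k
  have hs : ∀ k, s k ∈ (G.pivot x y0).B ↔ k ∈ G.B := by
    intro k
    rw [hB]
    by_cases e1 : k = x
    · subst e1; simp [s, hxB]
    · by_cases e2 : k = y0
      · subst e2; simp [s, e1, hyB, hxy]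
      · simp [s, e1, e2]
  have hw : ∀ k, (G.pivot x y0).cw (s k) = G.cw k + a k • G.cw x := by
    intro k
    rw [← sub_eq_zero]
    apply code_zero (D := G.pivot x y0)
    · refine Submodule.sub_mem _ (cw_mem _ _) ?_
      rw [hc]
      exact Submodule.add_mem _ (cw_mem _ _) (Submodule.smul_mem _ _ (cw_mem _ _))
    · intro m hm
      simp only [Pi.sub_apply, Pi.add_apply, Pi.smul_apply, smul_eq_mul]
      rw [cw_row hm]
      rcases (hB m).1 hm with rfl | ⟨h1, h2⟩
      · rw [cw_col hxB hy ry]
        by_cases e1 : k = x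
        · subst e1
          rw [cw_col hxB hy ry]
          simp only [s, a, if_true]
          field_simp
          ring
        · by_cases e3 : k ∈ G.B
          · have e2 : k ≠ m := fun e => hyB (e ▸ e3)
            rw [cw_col e3 hy ry]
            simp only [s, a, e1, e2, e3, e2.symm, if_true, if_false]
            field_simp
            ring
          · rw [cw_of_not e3]
            by_cases e2 : k = m
            · subst e2; simp [s, a, e1, e3]
            · simp [s, a, e1, e2, e3, Ne.symm e2]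
      · rw [cw_row h1, cw_row h1]
        have h3 : m ≠ y0 := fun e => hyB (e ▸ h1)
        by_cases e1 : k = x
        · subst e1; simp [s, h2, h3]
        · by_cases e2 : k = y0
          · subst e2; simp [s, e1, h2, h3]
          · simp [s, e1, e2, h2]
  let x' : U := ⟨x, hU hx⟩
  let y' : U := ⟨y0, hU hy⟩
  have hσ : ∀ k : U, ((Equiv.swap x' y' k : U) : ℕ) = s k := by
    intro k
    rw [Equiv.swap_apply_def]
    simp only [s, Subtype.ext_iff, x', y']
    split_ifs <;> rfl
  rw [← Matrix.det_submatrix_equiv_self (Equiv.swap x' y'),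
    det_congr_row (M := G.Gm U y) (fun k : U => a k) x']
  · simp [a, x']
  · intro k l
    simp only [Matrix.submatrix_apply, Gm_apply, hσ, hw, hs, Equiv.apply_eq_iff_eq]
    have e1 : ¬ (x' = l ∧ (x' : ℕ) ∉ G.B) := fun e => e.2 hxB
    have e2 : ¬ (k = x' ∧ (k : ℕ) ∉ G.B) := fun e => e.2 (e.1 ▸ hxB)
    have e3 : ¬ (True ∧ (x' : ℕ) ∉ G.B) := fun e => e.2 hxB
    simp only [e1, e2, e3, if_false, zero_add, pivot_Z, mul_sum, Pi.add_apply, Pi.smul_apply,
      smul_eq_mul, add_assoc, ← sum_add_distrib]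
    congr 1
    refine sum_congr rfl fun m _ => ?_
    simp only [x']
    ring

theorem Gm_col {G : Disp ℝ} (U : Finset ℕ) {n : ℕ} (hn : n ∈ G.Z) (rn : G.row n = false)
    {y y' : ℕ → ℝ} (h : ∀ m, m ≠ n → y' m = y m) (h0 : y n = 0 ∨ ∀ k ∈ G.Z, G.S k n = 0) :
    G.Gm U y = (G.restrict (G.Z.erase n)).Gm U y' := by
  have hB : (G.restrict (G.Z.erase n)).B = G.B := by
    ext m
    rw [mem_B, mem_B]
    change m ∈ G.Z.erase n ∧ G.row m = true ↔ _
    rw [mem_erase]
    constructor
    · exact fun h => ⟨h.1.2, h.2⟩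
    · refine fun h' => ⟨⟨?_, h'.1⟩, h'.2⟩
      intro e
      rw [← e, h'.2] at rn
      exact absurd rn (by decide)
  have hw : ∀ k, ∀ m ∈ G.Z.erase n, (G.restrict (G.Z.erase n)).cw k m = G.cw k m := by
    intro k m hm
    unfold Disp.cw
    rw [hB]
    change (if k ∈ G.B then (if m = k then 1 else if m ∈ G.Z.erase n then G.S k m else 0)
      else 0) = _
    simp only [hm, (mem_erase.1 hm).2, if_true]
  ext k l
  rw [Gm_apply, Gm_apply, hB, ← add_sum_erase _ _ hn]
  have e0 : y n * (G.cw k n * G.cw l n) = 0 := by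
    rcases h0 with h0 | h0
    · simp [h0]
    · by_cases hk : (k : ℕ) ∈ G.B
      · rw [cw_col hk hn rn, h0 k (mem_B.1 hk).1]; simp
      · rw [cw_of_not hk]; simp
  rw [e0, zero_add]
  congr 1
  refine sum_congr rfl fun m hm => ?_
  rw [hw k m hm, hw l m hm, h m (mem_erase.1 hm).1]

theorem det_Gm_row {G : Disp ℝ} {U : Finset ℕ} (hU : G.Z ⊆ U) {n : ℕ} (hn : n ∈ G.Z)
    (rn : G.row n = true) (y : ℕ → ℝ) :
    (G.Gm U y).det = (G.Gm U (Function.update y n 0)).det +
      y n * ((G.restrict (G.Z.erase n)).Gm U y).det := by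
  have hnB : n ∈ G.B := mem_B.2 ⟨hn, rn⟩
  let n' : U := ⟨n, hU hn⟩
  set A := G.Gm U (Function.update y n 0) with hA
  have hAe : ∀ k l : U, A k l = (if k = l ∧ (k : ℕ) ∉ G.B then 1 else 0) +
      ∑ m ∈ G.Z.erase n, y m * (G.cw k m * G.cw l m) := by
    intro k l
    rw [hA, Gm_apply, ← add_sum_erase _ _ hn]
    simp only [Function.update_self, zero_mul, zero_add]
    congr 1
    refine sum_congr rfl fun m hm => ?_
    rw [Function.update_of_ne (mem_erase.1 hm).1]
  have hd : ∀ k : U, ((n : ℕ) = k) ↔ k = n' := by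
    intro k
    simp only [n', Subtype.ext_iff]
    exact eq_comm
  have e1 : G.Gm U y = A.updateRow n' (A n' + y n • Pi.single n' 1) := by
    ext k l
    rw [Gm_apply, ← add_sum_erase _ _ hn, cw_row hnB, cw_row hnB, Matrix.updateRow_apply]
    simp only [hd]
    by_cases e : k = n'
    · subst e
      simp only [if_true, Pi.add_apply, Pi.smul_apply, smul_eq_mul, hAe, Pi.single_apply]
      ring
    · simp only [e, if_false, hAe]
      ring
  have hB : ∀ m, m ∈ (G.restrict (G.Z.erase n)).B ↔ m ∈ G.B ∧ m ≠ n := by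
    intro m
    rw [mem_B, mem_B]
    change m ∈ G.Z.erase n ∧ G.row m = true ↔ _
    rw [mem_erase]
    tauto
  have hw : ∀ k, k ≠ n → ∀ m ∈ G.Z.erase n, (G.restrict (G.Z.erase n)).cw k m = G.cw k m := by
    intro k hk m hm
    unfold Disp.cw
    simp only [hB, hk, ne_eq, not_false_eq_true, and_true]
    change (if k ∈ G.B then (if m = k then 1 else if m ∈ G.Z.erase n then G.S k m else 0)
      else 0) = _
    simp only [hm, (mem_erase.1 hm).2, if_true]
  have hw0 : ∀ m, (G.restrict (G.Z.erase n)).cw n m = 0 :=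
    cw_of_not (fun e => ((hB n).1 e).2 rfl)
  set A' := (G.restrict (G.Z.erase n)).Gm U y with hA'
  have hn1 : ∀ l, A' n' l = if l = n' then 1 else 0 := by
    intro l
    rw [hA', Gm_apply]
    simp only [n', hw0, zero_mul, mul_zero, sum_const_zero, add_zero, hB]
    by_cases e : l = n'
    · subst e; simp [n']
    · have : ¬ (n' = l) := fun e' => e e'.symm
      simp only [n'] at this e
      simp [this, e]
  have e2 : (A.updateRow n' (Pi.single n' 1)).det = A'.det := by
    apply Matrix.det_eq_of_forall_row_eq_smul_add_const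
      (fun k => if k = n' then 0 else A k n') n' (by simp)
    intro k l
    rw [Matrix.updateRow_apply, hn1 l]
    by_cases e : k = n'
    · subst e
      simp [hn1, Pi.single_apply]
    · have hk : (k : ℕ) ≠ n := fun e' => e (Subtype.ext e')
      simp only [e, if_false]
      by_cases e' : l = n'
      · subst e'
        rw [hA', Gm_apply]
        simp [n', hw0, e]
      · have hl : (l : ℕ) ≠ n := fun e'' => e' (Subtype.ext e'')
        rw [hA', Gm_apply, hAe]
        simp only [e', if_false, mul_zero, add_zero, hB, hk, ne_eq, not_false_eq_true, and_true]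
        congr 1
        refine sum_congr rfl fun m hm => ?_
        rw [hw k hk m hm, hw l hl m hm]
  rw [e1, Matrix.det_updateRow_add, Matrix.det_updateRow_smul, Matrix.updateRow_eq_self, e2]

/-- the determinant formula for the generating polynomial of a regular display. -/
theorem W_eq_det {U : Finset ℕ} {R : Disp F3} (hU : R.Z ⊆ U) (reg : NoW4 R R.Z) (y : ℕ → ℝ) :
    R.W y = (R.lift.Gm U y).det := by
  induction' hN : R.Z.card with N ih generalizing R y
  · have h0 : R.Z = ∅ := card_eq_zero.1 hN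
    rw [W_empty h0]
    have : R.lift.Gm U y = 1 := by
      ext k l
      have h1 : R.lift.Z = ∅ := h0
      rw [Gm_apply, Matrix.one_apply]
      simp [Disp.B, h1]
    rw [this, Matrix.det_one]
  · obtain ⟨n, hn⟩ : R.Z.Nonempty := card_pos.1 (by omega)
    have res : ∀ R' : Disp F3, R'.Z = R.Z → NoW4 R' R'.Z → ∀ y,
        (R'.restrict (R'.Z.erase n)).W y =
          ((R'.lift.restrict (R'.lift.Z.erase n)).Gm U y).det := by
      intro R' hZ reg' y
      apply ih (R := R'.restrict (R'.Z.erase n))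
      · exact (erase_subset _ _).trans (hZ ▸ hU)
      · exact reg'.restrict (erase_subset _ _)
      · change (R'.Z.erase n).card = N
        rw [hZ, card_erase_of_mem hn]; omega
    have main : ∀ R0 R1 : Disp F3, R0.Z = R.Z → R1.Z = R.Z → NoW4 R0 R0.Z → NoW4 R1 R1.Z →
        R0.row n = false → R1.row n = true → R0.Reach R1 →
        (∀ y, (R1.lift.Gm U y).det = (R0.lift.Gm U y).det) →
        R1.W y = (R1.lift.Gm U y).det := by
      intro R0 R1 z0 z1 g0 g1 r0 r1 hr hd
      have n0 : n ∈ R0.Z := z0 ▸ hn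
      have n1 : n ∈ R1.Z := z1 ▸ hn
      rw [W_split R1 n1, Wcon_row n1 r1, hr.Wdel_eq, Wdel_col n0 r0, res R0 z0 g0, res R1 z1 g1,
        det_Gm_row (G := R1.lift) (z1 ▸ hU) n1 r1, hd,
        Gm_col (G := R0.lift) U n0 r0 (y := Function.update y n 0) (y' := y)
          (fun m hm => (Function.update_of_ne hm _ _).symm) (Or.inl (by simp))]
    by_cases h : ∃ j ∈ R.Z, R.S n j ≠ 0
    · obtain ⟨j, hj, h⟩ := h
      have hp : (R.pivot n j).row n = !R.row n := by rw [pivot_row h]; simp
      have hr : R.Reach (R.pivot n j) := ReachIn.single hn hj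
      have hd : ∀ y, ((R.pivot n j).lift.Gm U y).det = (R.lift.Gm U y).det := by
        intro y
        rw [Gm_same (lift_pivot reg hn hj h)]
        cases rn : R.row n
        · have h2 := S_ne_symm h
          have rj : R.row j = true := by
            have := row_ne_of_S h
            rw [rn] at this
            simpa using this.symm
          rw [pivot_comm, det_Gm_pivot (G := R.lift) hU hj hn rj (lf_ne h2)]
          change (1 / lf (R.S j n)) ^ 2 * _ = _
          rw [div_pow, one_pow, sq, lf_sq h2]; simp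
        · rw [det_Gm_pivot (G := R.lift) hU hn hj rn (lf_ne h)]
          change (1 / lf (R.S n j)) ^ 2 * _ = _
          rw [div_pow, one_pow, sq, lf_sq h]; simp
      cases rn : R.row n
      · rw [← hr.W_eq, ← hd]
        exact main R (R.pivot n j) rfl (pivot_Z _ _ _) reg (noW4_pivot reg hn hj) rn
          (by rw [hp, rn]; rfl) hr hd
      · exact main (R.pivot n j) R (pivot_Z _ _ _) rfl (noW4_pivot reg hn hj) reg
          (by rw [hp, rn]; rfl) rn hr.symm (fun y => (hd y).symm)
    · push Not at h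
      cases rn : R.row n
      · rw [W_split R hn, Wcon_loop hn rn h, Wdel_col hn rn, res R rfl reg,
          Gm_col (G := R.lift) U hn rn (y := y) (y' := y) (fun _ _ => rfl)
            (Or.inr fun k hk => by
              change lf (R.S k n) = 0
              rw [R.skew, h k hk]; simp)]
        simp
      · rw [W_split R hn, Wdel_coloop hn rn h, Wcon_row hn rn, res R rfl reg,
          det_Gm_row (G := R.lift) hU hn rn]
        have hnB : n ∈ R.lift.B := mem_B.2 ⟨hn, rn⟩
        rw [Matrix.det_eq_zero_of_row_eq_zero (A := R.lift.Gm U (Function.update y n 0))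
          ⟨n, hU hn⟩]
        · simp
        · intro l
          rw [Gm_apply]
          simp only [hnB, not_true_eq_false, and_false, if_false, zero_add]
          refine sum_eq_zero fun m hm => ?_
          by_cases e : m = n
          · subst e; simp
          · have : R.lift.cw n m = 0 := by
              have h1 : R.lift.S n m = 0 := by
                change lf (R.S n m) = 0
                rw [h m hm]; simp
              simp [Disp.cw, e, h1]
            simp [this]

end Pool.Agent.Lib.MP_c69b6d_co.F
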