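import Pool.Agent.Lib.MP_c69b6d_co.F.ThmAa

/-! Isotropic moves on a triangle of a regular display are positive rank one updates. -/

namespace Pool.Agent.Lib.MP_c69b6d_co.F

open Finset Disp

/-- the quadratic form with weights `τ` is positive of rank at most one on the real code. -/
def RankOne (R : Disp F3) (τ : ℕ → ℝ) : Prop :=
  ∃ σ : ℝ, 0 ≤ σ ∧ ∃ f : (ℕ → ℝ) → ℝ, ∀ c ∈ R.lift.code, ∀ c' ∈ R.lift.code,
    ∑ m ∈ R.Z, τ m * (c m * c' m) = σ * f c * f c'

theorem rankOne_single {R : Disp F3} {a : ℕ} (ha : a ∈ R.Z) {τ : ℕ → ℝ}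
    (h : ∀ m ∈ R.Z, m ≠ a → τ m = 0) (h0 : 0 ≤ τ a) : RankOne R τ := by
  refine ⟨τ a, h0, fun c => c a, fun c _ c' _ => ?_⟩
  rw [sum_eq_single_of_mem a ha fun m hm e => by rw [h m hm e, zero_mul]]
  ring

theorem sum_three {M : Type} [AddCommMonoid M] {Z : Finset ℕ} {a b c : ℕ} (ha : a ∈ Z)
    (hb : b ∈ Z) (hc : c ∈ Z) (hab : a ≠ b) (hac : a ≠ c) (hbc : b ≠ c) {g : ℕ → M}
    (h : ∀ m ∈ Z, m ≠ a → m ≠ b → m ≠ c → g m = 0) : ∑ m ∈ Z, g m = g a + g b + g c := by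
  have e : ∑ m ∈ ({a, b, c} : Finset ℕ), g m = g a + g b + g c := by
    rw [sum_insert (by simp [hab, hac]), sum_insert (by simp [hbc]), sum_singleton, add_assoc]
  rw [← e]
  symm
  apply sum_subset
  · intro m hm
    simp only [mem_insert, mem_singleton] at hm
    rcases hm with rfl | rfl | rfl <;> assumption
  · intro m hm hm'
    simp only [mem_insert, mem_singleton, not_or] at hm'
    exact h m hm hm'.1 hm'.2.1 hm'.2.2

theorem iso_pair {a b c : ℝ} (h : a * b + a * c + b * c = 0) (h0 : 0 ≤ a + b + c) :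
    0 ≤ a + b := by
  by_contra hn
  push Not at hn
  have h1 : 0 < c := by linarith
  nlinarith [sq_nonneg (a - b), sq_nonneg (a + b)]

theorem iso_plane {a b c : ℝ} (h : a * b + a * c + b * c = 0) (h0 : 0 ≤ a + b + c) :
    ∃ σ α β : ℝ, 0 ≤ σ ∧ ∀ A B A' B' : ℝ, a * (A * A') + b * (B * B') + c * ((A + B) * (A' + B')) =
      σ * (α * A + β * B) * (α * A' + β * B') := by
  have h1 : 0 ≤ a + c := iso_pair (b := c) (c := b) (by linarith) (by linarith)
  rcases h1.eq_or_lt with h2 | h2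
  · have h3 : c = 0 := by
      have : c * c = 0 := by
        have : a = -c := by linarith
        subst this
        nlinarith
      exact mul_self_eq_zero.1 this
    have h4 : a = 0 := by linarith
    subst h3 h4
    exact ⟨b, 0, 1, by linarith, fun A B A' B' => by ring⟩
  · refine ⟨a + c, 1, c / (a + c), h1, fun A B A' B' => ?_⟩
    have h3 : b = - (a * c) / (a + c) := by
      field_simp
      linarith
    rw [h3]
    field_simp
    ring

/-- the data of a closed triangle. -/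
structure TriD (R : Disp F3) (a b c : ℕ) (d : ℕ → F3) (τ : ℕ → ℝ) : Prop where
  ma : a ∈ R.Z
  mb : b ∈ R.Z
  mc : c ∈ R.Z
  ab : a ≠ b
  ac : a ≠ c
  bc : b ≠ c
  dm : d ∈ R.flip.code
  da : d a ≠ 0
  db : d b ≠ 0
  dc : d c ≠ 0
  d0 : ∀ m, m ≠ a → m ≠ b → m ≠ c → d m = 0
  t0 : ∀ m ∈ R.Z, m ≠ a → m ≠ b → m ≠ c → τ m = 0
  iso : τ a * τ b + τ a * τ c + τ b * τ c = 0
  pos : 0 ≤ τ a + τ b + τ c

theorem TriD.swap {R : Disp F3} {a b c : ℕ} {d : ℕ → F3} {τ : ℕ → ℝ} (h : TriD R a b c d τ) :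
    TriD R b a c d τ :=
  ⟨h.mb, h.ma, h.mc, h.ab.symm, h.bc, h.ac, h.dm, h.db, h.da, h.dc,
    fun m h1 h2 h3 => h.d0 m h2 h1 h3, fun m hm h1 h2 h3 => h.t0 m hm h2 h1 h3,
    by linarith [h.iso], by linarith [h.pos]⟩

theorem TriD.rot {R : Disp F3} {a b c : ℕ} {d : ℕ → F3} {τ : ℕ → ℝ} (h : TriD R a b c d τ) :
    TriD R b c a d τ :=
  ⟨h.mb, h.mc, h.ma, h.bc, h.ab.symm, h.ac.symm, h.dm, h.db, h.dc, h.da,
    fun m h1 h2 h3 => h.d0 m h3 h1 h2, fun m hm h1 h2 h3 => h.t0 m hm h3 h1 h2,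
    by linarith [h.iso], by linarith [h.pos]⟩

theorem TriD.d_row {R : Disp F3} {a b c : ℕ} {d : ℕ → F3} {τ : ℕ → ℝ} (h : TriD R a b c d τ)
    (ra : R.row a = true) : d a = d b * R.S b a + d c * R.S c a := by
  rw [(mem_flip_code.1 h.dm).2 a h.ma ra,
    sum_three h.ma h.mb h.mc h.ab h.ac h.bc fun m _ h1 h2 h3 => by rw [h.d0 m h1 h2 h3, zero_mul],
    R.bip a a rfl]
  ring

theorem TriD.sum_eq {R : Disp F3} {a b c : ℕ} {d : ℕ → F3} {τ : ℕ → ℝ} (h : TriD R a b c d τ)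
    (w w' : ℕ → ℝ) : ∑ m ∈ R.Z, τ m * (w m * w' m) =
      τ a * (w a * w' a) + τ b * (w b * w' b) + τ c * (w c * w' c) :=
  sum_three h.ma h.mb h.mc h.ab h.ac h.bc fun m hm h1 h2 h3 => by rw [h.t0 m hm h1 h2 h3, zero_mul]

theorem TriD.c_col {R : Disp F3} {a b c : ℕ} {d : ℕ → F3} {τ : ℕ → ℝ} (h : TriD R a b c d τ)
    (rc : R.row c = false) (h0 : ∀ m ∈ R.Z, m ≠ a → m ≠ b → m ≠ c → R.S c m = 0)
    {w : ℕ → ℝ} (hw : w ∈ R.lift.code) : w c = w a * lf (R.S a c) + w b * lf (R.S b c) := by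
  rw [(mem_code.1 hw).2 c h.mc rc]
  change ∑ m ∈ R.Z, w m * lf (R.S m c) = _
  rw [sum_three h.ma h.mb h.mc h.ab h.ac h.bc fun m hm h1 h2 h3 => by
    rw [R.skew, h0 m hm h1 h2 h3]; simp, R.bip c c rfl]
  simp

theorem TriD.two_rows {R : Disp F3} {a b c : ℕ} {d : ℕ → F3} {τ : ℕ → ℝ} (h : TriD R a b c d τ)
    (ra : R.row a = true) (rb : R.row b = true) (rc : R.row c = false)
    (h0 : ∀ m ∈ R.Z, m ≠ a → m ≠ b → m ≠ c → R.S c m = 0) : RankOne R τ := by
  have hq : R.S a c ≠ 0 := by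
    intro e
    apply h.da
    rw [h.d_row ra, R.bip b a (rb.trans ra.symm), R.skew c a, e]; simp
  have hr : R.S b c ≠ 0 := by
    intro e
    apply h.db
    rw [h.swap.d_row rb, R.bip a b (ra.trans rb.symm), R.skew c b, e]; simp
  obtain ⟨σ, α, β, hσ, e⟩ := iso_plane h.iso h.pos
  refine ⟨σ, hσ, fun w => α * (w a * lf (R.S a c)) + β * (w b * lf (R.S b c)),
    fun w hw w' hw' => ?_⟩
  rw [h.sum_eq, ← e, h.c_col rc h0 hw, h.c_col rc h0 hw']
  linear_combination (-(τ a * w a * w' a)) * lf_sq hq - (τ b * w b * w' b) * lf_sq hr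

theorem TriD.one_row {R : Disp F3} {a b c : ℕ} {d : ℕ → F3} {τ : ℕ → ℝ} (h : TriD R a b c d τ)
    (ra : R.row a = true) (rb : R.row b = false) (rc : R.row c = false)
    (hb : ∀ m ∈ R.Z, m ≠ a → m ≠ b → m ≠ c → R.S b m = 0)
    (hc : ∀ m ∈ R.Z, m ≠ a → m ≠ b → m ≠ c → R.S c m = 0) : RankOne R τ := by
  have e1 : ∀ w ∈ R.lift.code, w c = w a * lf (R.S a c) := by
    intro w hw
    rw [h.c_col rc hc hw, R.bip b c (rb.trans rc.symm)]; simp
  have e2 : ∀ w ∈ R.lift.code, w b = w a * lf (R.S a b) := by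
    intro w hw
    rw [h.swap.rot.c_col rb (fun m hm h1 h2 h3 => hb m hm h1 h3 h2) hw,
      R.bip c b (rc.trans rb.symm)]
    simp
  refine ⟨τ a + lf (R.S a b) * lf (R.S a b) * τ b + lf (R.S a c) * lf (R.S a c) * τ c, ?_,
    fun w => w a, fun w hw w' hw' => ?_⟩
  · have p1 := iso_pair h.iso h.pos
    have p2 := iso_pair h.swap.rot.iso h.swap.rot.pos
    by_cases k1 : R.S a b = 0
    · by_cases k2 : R.S a c = 0
      · exfalso
        apply h.da
        rw [h.d_row ra, R.skew b a, R.skew c a, k1, k2]; simp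
      · rw [k1, lf_sq k2]; simpa using p2
    · by_cases k2 : R.S a c = 0
      · rw [k2, lf_sq k1]; simpa using p1
      · rw [lf_sq k1, lf_sq k2]; simpa using h.pos
  · rw [h.sum_eq, e1 w hw, e1 w' hw', e2 w hw, e2 w' hw']
    ring

theorem TriD.closed {R : Disp F3} {a b c : ℕ} {d : ℕ → F3} {τ : ℕ → ℝ} (h : TriD R a b c d τ)
    (h0 : ∀ j, (j = a ∨ j = b ∨ j = c) → R.row j = false →
      ∀ m ∈ R.Z, m ≠ a → m ≠ b → m ≠ c → R.S j m = 0) : RankOne R τ := by
  have ha := h0 a (Or.inl rfl)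
  have hb := h0 b (Or.inr (Or.inl rfl))
  have hc := h0 c (Or.inr (Or.inr rfl))
  cases ra : R.row a <;> cases rb : R.row b <;> cases rc : R.row c
  · refine ⟨0, le_rfl, fun _ => 0, fun w hw w' _ => ?_⟩
    have e1 := h.c_col rc (hc rc) hw
    have e2 := h.rot.c_col ra (fun m hm h1 h2 h3 => ha ra m hm h3 h1 h2) hw
    have e3 := h.rot.rot.c_col rb (fun m hm h1 h2 h3 => hb rb m hm h2 h3 h1) hw
    rw [R.bip a c (ra.trans rc.symm), R.bip b c (rb.trans rc.symm)] at e1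
    rw [R.bip b a (rb.trans ra.symm), R.bip c a (rc.trans ra.symm)] at e2
    rw [R.bip c b (rc.trans rb.symm), R.bip a b (ra.trans rb.symm)] at e3
    simp only [lf_zero, mul_zero, add_zero] at e1 e2 e3
    rw [h.sum_eq, e1, e2, e3]
    ring
  · exact h.rot.rot.one_row rc ra rb (fun m hm h1 h2 h3 => ha ra m hm h2 h3 h1)
      (fun m hm h1 h2 h3 => hb rb m hm h2 h3 h1)
  · exact h.rot.one_row rb rc ra (fun m hm h1 h2 h3 => hc rc m hm h3 h1 h2)
      (fun m hm h1 h2 h3 => ha ra m hm h3 h1 h2)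
  · exact h.rot.two_rows rb rc ra (fun m hm h1 h2 h3 => ha ra m hm h3 h1 h2)
  · exact h.one_row ra rb rc (hb rb) (hc rc)
  · exact h.rot.rot.two_rows rc ra rb (fun m hm h1 h2 h3 => hb rb m hm h2 h3 h1)
  · exact h.two_rows ra rb rc (hc rc)
  · exfalso
    apply h.da
    rw [h.d_row ra, R.bip b a (rb.trans ra.symm), R.bip c a (rc.trans ra.symm)]; simp

theorem rankOne_tri {R : Disp F3} (reg : NoW4 R R.Z) {a b c : ℕ} {d : ℕ → F3} {τ : ℕ → ℝ}
    (h : TriD R a b c d τ) : RankOne R τ := by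
  induction' hN : (({a, b, c} : Finset ℕ).filter (fun j => R.row j = false)).card
    using Nat.strong_induction_on with N ih generalizing R
  by_cases h0 : ∀ j, (j = a ∨ j = b ∨ j = c) → R.row j = false →
      ∀ m ∈ R.Z, m ≠ a → m ≠ b → m ≠ c → R.S j m = 0
  · exact h.closed h0
  · push Not at h0
    obtain ⟨j, hj, rj, m, hm, h1, h2, h3, hS⟩ := h0
    have hjZ : j ∈ R.Z := by
      rcases hj with rfl | rfl | rfl
      exacts [h.ma, h.mb, h.mc]
    have hr : R.Reach (R.pivot j m) := ReachIn.single hjZ hm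
    have h' : TriD (R.pivot j m) a b c d τ :=
      ⟨by simpa using h.ma, by simpa using h.mb, by simpa using h.mc, h.ab, h.ac, h.bc,
        by rw [hr.flip_code_eq]; exact h.dm, h.da, h.db, h.dc, h.d0, by simpa using h.t0, h.iso,
        h.pos⟩
    have hlt : (({a, b, c} : Finset ℕ).filter (fun i => (R.pivot j m).row i = false)).card < N := by
      rw [← hN]
      apply card_lt_card
      refine ⟨fun i hi => ?_, fun hs => ?_⟩
      · rw [mem_filter] at hi ⊢
        refine ⟨hi.1, ?_⟩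
        have hi2 := hi.2
        rw [pivot_row hS] at hi2
        by_cases e : i = j
        · rw [e]; exact rj
        · have e' : i ≠ m := by
            rintro rfl
            have := hi.1
            simp [h1, h2, h3] at this
          simpa [e, e'] using hi2
      · have hj' : j ∈ ({a, b, c} : Finset ℕ).filter (fun i => R.row i = false) := by
          rw [mem_filter]
          exact ⟨by simpa using hj, rj⟩
        have := (mem_filter.1 (hs hj')).2
        rw [pivot_row hS] at this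
        simp [rj] at this
    obtain ⟨σ, hσ, f, hf⟩ := ih _ hlt (noW4_pivot reg hjZ hm) h' rfl
    rw [lift_code_pivot reg hjZ hm hS, pivot_Z] at hf
    exact ⟨σ, hσ, f, hf⟩

end Pool.Agent.Lib.MP_c69b6d_co.F
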