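import Pool.Agent.Lib.MP_c69b6d_co.F.ThmAb

/-! The gluing formula. -/

namespace Pool.Agent.Lib.MP_c69b6d_co.F

open Finset Disp

/-- overwrite three coordinates. -/
def set3 (t1 t2 t3 : ℕ) (y : ℕ → ℝ) (u1 u2 u3 : ℝ) : ℕ → ℝ :=
  fun i => if i = t1 then u1 else if i = t2 then u2 else if i = t3 then u3 else y i

/-- shift three coordinates. -/
def add3 (a b c : ℕ) (y : ℕ → ℝ) (s1 s2 s3 : ℝ) : ℕ → ℝ :=
  fun i => y i + ((if i = a then s1 else 0) + (if i = b then s2 else 0) + (if i = c then s3 else 0))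

/-- the second elementary symmetric function of three reals. -/
def e3 (a b c : ℝ) : ℝ := a * b + a * c + b * c

/-- the data of a gluing. -/
structure GD (D R : Disp F3) (X Y : Finset ℕ) (q1 q2 : ℕ → F3) (t1 t2 t3 ρ1 ρ2 ρ3 : ℕ) :
    Prop where
  nf : NF D R X Y q1 q2 t1 t2 t3
  rho : Rho D X q1 q2 ρ1 ρ2 ρ3
  reg : NoW4 R R.Z

section

variable {D R : Disp F3} {X Y : Finset ℕ} {q1 q2 : ℕ → F3} {t1 t2 t3 ρ1 ρ2 ρ3 : ℕ}

theorem nfa_n13 (nf : NF D R X Y q1 q2 t1 t2 t3) : t1 ≠ t3 :=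
  ne_of_S (D := R) (by rw [nf.s13]; decide)

theorem nfa_n23 (nf : NF D R X Y q1 q2 t1 t2 t3) : t2 ≠ t3 :=
  ne_of_S (D := R) (by rw [nf.s23]; decide)

theorem nfa_r3 (nf : NF D R X Y q1 q2 t1 t2 t3) : R.row t3 = false := by
  have := row_ne_of_S (D := R) (x := t1) (y := t3) (by rw [nf.s13]; decide)
  rw [nf.r1] at this
  simpa using this.symm

theorem nfa_mem (nf : NF D R X Y q1 q2 t1 t2 t3) {i : ℕ} :
    i ∈ R.Z ↔ i ∈ Y ∨ i = t1 ∨ i = t2 ∨ i = t3 := by
  rw [nf.rZ, mem_union, mem_insert, mem_insert, mem_singleton]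

theorem nfa_memD (nf : NF D R X Y q1 q2 t1 t2 t3) {i : ℕ} : i ∈ D.Z ↔ i ∈ X ∨ i ∈ Y := by
  rw [nf.dZ]; simp

theorem nfa_ne (nf : NF D R X Y q1 q2 t1 t2 t3) {i j : ℕ} (hi : i ∈ X) (hj : j ∈ Y) : i ≠ j := by
  rintro rfl
  exact disjoint_left.1 nf.disj hi hj

theorem nfa_row_zero (nf : NF D R X Y q1 q2 t1 t2 t3) {i x : ℕ} (hi : i ∈ X) (hx : x ∈ Y)
    (rx : R.row x = true) : D.S i x = 0 := by
  rw [nf.ent i hi x hx, R.bip t1 x (nf.r1.trans rx.symm), R.bip t2 x (nf.r2.trans rx.symm)]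
  simp

theorem nfa_ind (nf : NF D R X Y q1 q2 t1 t2 t3) {A B : F3}
    (h : ∀ i ∈ X, q1 i * A + q2 i * B = 0) : A = 0 ∧ B = 0 := by
  obtain ⟨x1, h1, x2, h2, e⟩ := nf.ind
  have e' : q1 x1 * q2 x2 - q1 x2 * q2 x1 ≠ 0 := sub_ne_zero.2 e
  constructor
  · apply mul_left_cancel₀ e'
    linear_combination q2 x2 * h x1 h1 - q2 x1 * h x2 h2
  · apply mul_left_cancel₀ e'
    linear_combination q1 x1 * h x2 h2 - q1 x2 * h x1 h1

theorem GD.n12 (g : GD D R X Y q1 q2 t1 t2 t3 ρ1 ρ2 ρ3) : ρ1 ≠ ρ2 := by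
  intro e
  have := (nfa_ind g.nf (A := 1) (B := -1) fun i hi => by
    rw [← g.rho.e1 i hi, ← g.rho.e2 i hi, e]; ring).1
  exact absurd this (by decide)

theorem GD.n13 (g : GD D R X Y q1 q2 t1 t2 t3 ρ1 ρ2 ρ3) : ρ1 ≠ ρ3 := by
  intro e
  have := (nfa_ind g.nf (A := 0) (B := 1) fun i hi => by
    have h1 := g.rho.e1 i hi
    have h3 := g.rho.e3 i hi
    rw [← e, h1] at h3
    linear_combination h3).2
  exact absurd this (by decide)

theorem GD.n23 (g : GD D R X Y q1 q2 t1 t2 t3 ρ1 ρ2 ρ3) : ρ2 ≠ ρ3 := by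
  intro e
  have := (nfa_ind g.nf (A := 1) (B := -2) fun i hi => by
    have h1 := g.rho.e2 i hi
    have h3 := g.rho.e3 i hi
    rw [← e, h1] at h3
    linear_combination -h3).1
  exact absurd this (by decide)

theorem GD.restrict (g : GD D R X Y q1 q2 t1 t2 t3 ρ1 ρ2 ρ3) {n : ℕ} (hn : n ∈ Y) :
    GD (D.restrict (D.Z.erase n)) (R.restrict (R.Z.erase n)) X (Y.erase n) q1 q2 t1 t2 t3
      ρ1 ρ2 ρ3 := by
  have nf := g.nf
  refine ⟨⟨?_, ?_, ?_, ?_, ?_, ?_, nf.n12, nf.agree.mono (erase_subset _ _), nf.r1, nf.r2, nf.s13,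
    nf.s23, fun j hj => nf.s3 j (mem_of_mem_erase hj),
    fun i hi j hj => nf.ent i hi j (mem_of_mem_erase hj), nf.qrow, nf.ind⟩,
    ⟨g.rho.m1, g.rho.m2, g.rho.m3, g.rho.c1, g.rho.c2, g.rho.c3, g.rho.e1, g.rho.e2, g.rho.e3⟩,
    g.reg.restrict (erase_subset _ _)⟩
  · change D.Z.erase n = _
    ext i
    rw [mem_erase, nfa_memD nf, mem_union, mem_erase]
    constructor
    · rintro ⟨h1, h2 | h2⟩
      exacts [Or.inl h2, Or.inr ⟨h1, h2⟩]
    · rintro (h | h)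
      exacts [⟨nfa_ne nf h hn, Or.inl h⟩, ⟨h.1, Or.inr h.2⟩]
  · exact nf.disj.mono_right (erase_subset _ _)
  · change R.Z.erase n = _
    have a1 : t1 ≠ n := fun e => nf.n1 (e ▸ hn)
    have a2 : t2 ≠ n := fun e => nf.n2 (e ▸ hn)
    have a3 : t3 ≠ n := fun e => nf.n3 (e ▸ hn)
    ext i
    rw [mem_erase, nfa_mem nf, mem_union, mem_erase]
    simp only [mem_insert, mem_singleton]
    constructor
    · rintro ⟨h1, h2 | h2⟩
      exacts [Or.inl ⟨h1, h2⟩, Or.inr h2]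
    · rintro (h | h)
      · exact ⟨h.1, Or.inl h.2⟩
      · refine ⟨?_, Or.inr h⟩
        rcases h with rfl | rfl | rfl <;> assumption
  · exact fun h => nf.n1 (mem_of_mem_erase h)
  · exact fun h => nf.n2 (mem_of_mem_erase h)
  · exact fun h => nf.n3 (mem_of_mem_erase h)

theorem GD.pivot (g : GD D R X Y q1 q2 t1 t2 t3 ρ1 ρ2 ρ3) {x j : ℕ} (hx : x ∈ Y) (hj : j ∈ Y)
    (rx : R.row x = true) (h : R.S x j ≠ 0) :
    GD (D.pivot x j) (R.pivot x j) X Y q1 q2 t1 t2 t3 ρ1 ρ2 ρ3 ∧ Agree D (D.pivot x j) X := by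
  have nf := g.nf
  have hS : ∀ k ∈ Y, ∀ l ∈ Y, D.S k l = R.S k l := fun k hk l hl => (nf.agree.2 k hk l hl).symm
  have hD : D.S x j ≠ 0 := by rw [hS x hx j hj]; exact h
  have a1 : t1 ≠ x := fun e => nf.n1 (e ▸ hx)
  have a2 : t2 ≠ x := fun e => nf.n2 (e ▸ hx)
  have a3 : t3 ≠ x := fun e => nf.n3 (e ▸ hx)
  have b1 : t1 ≠ j := fun e => nf.n1 (e ▸ hj)
  have b2 : t2 ≠ j := fun e => nf.n2 (e ▸ hj)
  have b3 : t3 ≠ j := fun e => nf.n3 (e ▸ hj)
  have hag : Agree D (D.pivot x j) X := by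
    refine ⟨fun i hi => ?_, fun i hi k hk => ?_⟩
    · rw [pivot_row hD, if_neg (not_or.2 ⟨nfa_ne nf hi hx, nfa_ne nf hi hj⟩)]
    · rw [pivot_S_gen hD (nfa_ne nf hi hx) (nfa_ne nf hi hj) (nfa_ne nf hk hx) (nfa_ne nf hk hj),
        D.skew x k, nfa_row_zero nf hi hx rx, nfa_row_zero nf hk hx rx]
      simp
  refine ⟨⟨⟨?_, nf.disj, ?_, nf.n1, nf.n2, nf.n3, nf.n12, nf.agree.pivot hx hj, ?_, ?_, ?_, ?_,
    ?_, ?_, ?_, nf.ind⟩, ⟨g.rho.m1, g.rho.m2, g.rho.m3, ?_, ?_, ?_, ?_, ?_, ?_⟩, ?_⟩, hag⟩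
  · rw [pivot_Z, nf.dZ]
  · rw [pivot_Z, nf.rZ]
  · rw [pivot_row h, if_neg (not_or.2 ⟨a1, b1⟩), nf.r1]
  · rw [pivot_row h, if_neg (not_or.2 ⟨a2, b2⟩), nf.r2]
  · rw [pivot_S_gen h a1 b1 a3 b3, nf.s13, nf.s3 x hx, nf.s3 j hj]; simp
  · rw [pivot_S_gen h a2 b2 a3 b3, nf.s23, nf.s3 x hx, nf.s3 j hj]; simp
  · intro k hk
    rw [pivot_S h]
    simp only [pS, a3, b3, if_false, nf.s3 x hx, nf.s3 j hj, nf.s3 k hk]
    split_ifs <;> simp
  · intro i hi k hk
    rw [pivot_S hD, pivot_S h, pivot_S h]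
    simp only [pS, a1, a2, b1, b2, nfa_ne nf hi hx, nfa_ne nf hi hj, if_false]
    rw [D.skew j i, D.skew x i, R.skew j t1, R.skew j t2, R.skew x t1, R.skew x t2,
      nf.ent i hi k hk, nf.ent i hi j hj, nf.ent i hi x hx, hS j hj x hx, hS x hx j hj,
      hS x hx k hk, hS j hj k hk]
    split_ifs <;> ring
  · intro i hi hr
    exact nf.qrow i hi ((hag.1 i hi).symm.trans hr)
  · exact (hag.1 _ g.rho.m1).trans g.rho.c1
  · exact (hag.1 _ g.rho.m2).trans g.rho.c2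
  · exact (hag.1 _ g.rho.m3).trans g.rho.c3
  · exact fun i hi => (hag.2 i hi _ g.rho.m1).trans (g.rho.e1 i hi)
  · exact fun i hi => (hag.2 i hi _ g.rho.m2).trans (g.rho.e2 i hi)
  · exact fun i hi => (hag.2 i hi _ g.rho.m3).trans (g.rho.e3 i hi)
  · exact noW4_pivot g.reg ((nfa_mem nf).2 (Or.inl hx)) ((nfa_mem nf).2 (Or.inl hj))

theorem W_row_coloop {G : Disp F3} {n : ℕ} (hn : n ∈ G.Z) (rn : G.row n = true)
    (h : ∀ j ∈ G.Z, G.S n j = 0) (y : ℕ → ℝ) :
    G.W y = 0 * (G.restrict (G.Z.erase n)).W y + y n * (G.restrict (G.Z.erase n)).W y := by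
  rw [W_split G hn, Wdel_coloop hn rn h, Wcon_row hn rn]
  simp

theorem W_row_pivot {G : Disp F3} {n j : ℕ} (hn : n ∈ G.Z) (hj : j ∈ G.Z) (rn : G.row n = true)
    (h : G.S n j ≠ 0) (y : ℕ → ℝ) :
    G.W y = 1 * ((G.pivot n j).restrict ((G.pivot n j).Z.erase n)).W y +
      y n * (G.restrict (G.Z.erase n)).W y := by
  have hr : G.Reach (G.pivot n j) := ReachIn.single hn hj
  rw [W_split G hn, Wcon_row hn rn, ← hr.Wdel_eq,
    Wdel_col (D := G.pivot n j) (by simpa using hn) (by rw [pivot_row h]; simp [rn]), one_mul]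

theorem W_loop {G : Disp F3} {n : ℕ} (hn : n ∈ G.Z) (rn : G.row n = false)
    (h : ∀ j ∈ G.Z, G.S n j = 0) (y : ℕ → ℝ) : G.W y = (G.restrict (G.Z.erase n)).W y := by
  rw [W_split G hn, Wcon_loop hn rn h, Wdel_col hn rn]
  simp

theorem W_par {G : Disp F3} {u v : ℕ} (h : G.Par u v) (rv : G.row v = false) {y y' : ℕ → ℝ}
    (hy : ∀ i ∈ G.Z, i ≠ v → y' i = y i + if i = u then y v else 0) :
    G.W y = (G.restrict (G.Z.erase v)).W y' := by
  rw [h.W_del rv]
  apply W_congr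
  intro i hi
  have hi' := mem_erase.1 hi
  rw [hy i hi'.2 hi'.1]
  simp [Pi.single_apply, hi'.1]

theorem W_rows {G : Disp F3} (h : ∀ i ∈ G.Z, G.row i = true) (y : ℕ → ℝ) :
    G.W y = ∏ i ∈ G.Z, y i := by
  have hB : G.B = G.Z := filter_true_of_mem h
  unfold Disp.W
  rw [sum_eq_single_of_mem G.Z (mem_powerset_self _)]
  · rw [if_pos (hB ▸ base_B G)]
  · intro F hF e
    rw [if_neg]
    intro hb
    exact e (eq_of_subset_of_card_le hb.1 (by rw [hb.2.1, hB]))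

theorem GD.step_row (g : GD D R X Y q1 q2 t1 t2 t3 ρ1 ρ2 ρ3) {n : ℕ} (hn : n ∈ Y)
    (rn : R.row n = true) : ∃ (D0 R0 : Disp F3) (ε : ℝ), 0 ≤ ε ∧
      GD D0 R0 X (Y.erase n) q1 q2 t1 t2 t3 ρ1 ρ2 ρ3 ∧ (D0.restrict X).W = (D.restrict X).W ∧
      (∀ y, D.W y = ε * D0.W y + y n * (D.restrict (D.Z.erase n)).W y) ∧
      (∀ y, R.W y = ε * R0.W y + y n * (R.restrict (R.Z.erase n)).W y) ∧
      (∀ y, (R.restrict Y).W y = ε * (R0.restrict (Y.erase n)).W y +
        y n * (R.restrict (Y.erase n)).W y) := by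
  have nf := g.nf
  have hD : n ∈ D.Z := (nfa_memD nf).2 (Or.inr hn)
  have hR : n ∈ R.Z := (nfa_mem nf).2 (Or.inl hn)
  have rD : D.row n = true := (nf.agree.1 n hn).symm.trans rn
  by_cases h : ∃ j ∈ Y, R.S n j ≠ 0
  · obtain ⟨j, hj, h⟩ := h
    obtain ⟨g', ha⟩ := g.pivot hn hj rn h
    refine ⟨_, _, 1, zero_le_one, g'.restrict hn, ha.same.W_eq, fun y => ?_, fun y => ?_,
      fun y => ?_⟩
    · exact W_row_pivot hD ((nfa_memD nf).2 (Or.inr hj)) rD
        (by rw [← nf.agree.2 n hn j hj]; exact h) y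
    · exact W_row_pivot hR ((nfa_mem nf).2 (Or.inl hj)) rn h y
    · have := W_row_pivot (G := R.restrict Y) hn hj rn h y
      rw [← restrict_pivot] at this
      exact this
  · push Not at h
    refine ⟨_, _, 0, le_rfl, g.restrict hn, rfl, fun y => ?_, fun y => ?_, fun y => ?_⟩
    · refine W_row_coloop hD rD (fun j hj => ?_) y
      rcases (nfa_memD nf).1 hj with hj | hj
      · rw [D.skew, nfa_row_zero nf hj hn rn, neg_zero]
      · rw [← nf.agree.2 n hn j hj, h j hj]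
    · refine W_row_coloop hR rn (fun j hj => ?_) y
      rcases (nfa_mem nf).1 hj with hj | rfl | rfl | rfl
      · exact h j hj
      · exact R.bip _ _ (rn.trans nf.r1.symm)
      · exact R.bip _ _ (rn.trans nf.r2.symm)
      · exact nf.s3 n hn
    · exact W_row_coloop (G := R.restrict Y) hn rn h y

theorem GD.step_col (g : GD D R X Y q1 q2 t1 t2 t3 ρ1 ρ2 ρ3) {n : ℕ} (hn : n ∈ Y)
    (hc : ∀ j ∈ Y, R.row j = false) : ∃ δ1 δ2 δ3 : ℝ, 0 ≤ δ1 ∧ 0 ≤ δ2 ∧ 0 ≤ δ3 ∧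
      e3 δ1 δ2 δ3 = 0 ∧
      (∀ y, D.W y = (D.restrict (D.Z.erase n)).W (add3 ρ1 ρ2 ρ3 y (y n * δ1) (y n * δ2) (y n * δ3))) ∧
      (∀ y u1 u2 u3, R.W (set3 t1 t2 t3 y u1 u2 u3) = (R.restrict (R.Z.erase n)).W
        (set3 t1 t2 t3 y (u1 + y n * δ1) (u2 + y n * δ2) (u3 + y n * δ3))) ∧
      (∀ y, (R.restrict Y).W y = (R.restrict (Y.erase n)).W y) := by
  have nf := g.nf
  have hD : n ∈ D.Z := (nfa_memD nf).2 (Or.inr hn)
  have hR : n ∈ R.Z := (nfa_mem nf).2 (Or.inl hn)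
  have rn := hc n hn
  have cD : ∀ j ∈ Y, D.row j = false := fun j hj => (nf.agree.1 j hj).symm.trans (hc j hj)
  have rD := cD n hn
  have a1 : n ≠ t1 := fun e => nf.n1 (e ▸ hn)
  have a2 : n ≠ t2 := fun e => nf.n2 (e ▸ hn)
  have a3 : n ≠ t3 := fun e => nf.n3 (e ▸ hn)
  have n12 := nf.n12
  have n13 := nfa_n13 nf
  have n23 := nfa_n23 nf
  have r3 := nfa_r3 nf
  have m1 : t1 ∈ R.Z := (nfa_mem nf).2 (by simp)
  have m2 : t2 ∈ R.Z := (nfa_mem nf).2 (by simp)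
  have m3 : t3 ∈ R.Z := (nfa_mem nf).2 (by simp)
  have k3 : ∀ y, (R.restrict Y).W y = (R.restrict (Y.erase n)).W y := fun y =>
    W_loop (G := R.restrict Y) hn rn (fun j hj => R.bip n j (rn.trans (hc j hj).symm)) y
  have parD : ∀ ρ ∈ X, D.row ρ = false → ∀ s : F3, s ≠ 0 → (∀ i ∈ X, D.S i ρ = s * D.S i n) →
      D.Par ρ n := by
    intro ρ hρ rρ s hs h
    refine par_of_cols (nfa_ne nf hρ hn) ((nfa_memD nf).2 (Or.inl hρ)) hD rρ rD hs fun i hi => ?_
    rcases (nfa_memD nf).1 hi with hi | hi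
    · exact h i hi
    · rw [D.bip i ρ ((cD i hi).trans rρ.symm), D.bip i n ((cD i hi).trans rD.symm), mul_zero]
  have zR : ∀ i ∈ R.Z, i ≠ t1 → i ≠ t2 → R.S i n = 0 := by
    intro i hi h1 h2
    rcases (nfa_mem nf).1 hi with hi | rfl | rfl | rfl
    · exact R.bip i n ((hc i hi).trans rn.symm)
    · exact absurd rfl h1
    · exact absurd rfl h2
    · exact R.bip _ n (r3.trans rn.symm)
  by_cases ha : R.S t1 n = 0 <;> by_cases hb : R.S t2 n = 0
  · refine ⟨0, 0, 0, le_rfl, le_rfl, le_rfl, by simp [e3], fun y => ?_, fun y u1 u2 u3 => ?_, k3⟩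
    · rw [W_loop hD rD]
      · apply W_congr
        intro i _
        simp [add3]
      · intro j hj
        rcases (nfa_memD nf).1 hj with hj | hj
        · rw [D.skew, nf.ent j hj n hn, ha, hb]; simp
        · exact D.bip n j (rD.trans (cD j hj).symm)
    · rw [W_loop hR rn]
      · simp
      · intro j hj
        rw [R.skew]
        by_cases e1 : j = t1
        · rw [e1, ha, neg_zero]
        · by_cases e2 : j = t2
          · rw [e2, hb, neg_zero]
          · rw [zR j hj e1 e2, neg_zero]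
  · refine ⟨0, 1, 0, le_rfl, zero_le_one, le_rfl, by simp [e3], fun y => ?_,
      fun y u1 u2 u3 => ?_, k3⟩
    · refine W_par (parD ρ2 g.rho.m2 g.rho.c2 _ hb fun i hi => ?_) rD fun i _ _ => ?_
      · rw [g.rho.e2 i hi, nf.ent i hi n hn, ha]
        linear_combination (-q2 i) * f3_sq hb
      · simp [add3]
    · refine W_par (par_of_unit m2 hR rn hb fun i hi e => ?_) rn fun i _ _ => ?_
      · by_cases e1 : i = t1
        · rw [e1, ha]
        · exact zR i hi e1 e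
      · simp only [set3, a1, a2, a3, if_false]
        split_ifs with h1 h2 h3 <;> simp_all
  · refine ⟨1, 0, 0, zero_le_one, le_rfl, le_rfl, by simp [e3], fun y => ?_,
      fun y u1 u2 u3 => ?_, k3⟩
    · refine W_par (parD ρ1 g.rho.m1 g.rho.c1 _ ha fun i hi => ?_) rD fun i _ _ => ?_
      · rw [g.rho.e1 i hi, nf.ent i hi n hn, hb]
        linear_combination (-q1 i) * f3_sq ha
      · simp [add3]
    · refine W_par (par_of_unit m1 hR rn ha fun i hi e => ?_) rn fun i _ _ => ?_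
      · by_cases e1 : i = t2
        · rw [e1, hb]
        · exact zR i hi e e1
      · simp only [set3, a1, a2, a3, if_false]
        split_ifs with h1 h2 h3 <;> simp_all
  · have hab : R.S t2 n = - R.S t1 n := by
      by_contra hne
      refine g.reg R (ReachIn.refl _ _) t1 m1 t2 m2 n hR t3 m3 ⟨ha, ?_, hb, ?_, ?_⟩
      · rw [nf.s13]; decide
      · rw [nf.s23]; decide
      · rw [nf.s13, nf.s23]
        intro e
        apply hne
        linear_combination -e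
    refine ⟨0, 0, 1, le_rfl, le_rfl, zero_le_one, by simp [e3], fun y => ?_,
      fun y u1 u2 u3 => ?_, k3⟩
    · refine W_par (parD ρ3 g.rho.m3 g.rho.c3 _ ha fun i hi => ?_) rD fun i _ _ => ?_
      · rw [g.rho.e3 i hi, nf.ent i hi n hn, hab]
        linear_combination (q2 i - q1 i) * f3_sq ha
      · simp [add3]
    · refine W_par (par_of_cols a3.symm m3 hR r3 rn ha fun i hi => ?_) rn fun i _ _ => ?_
      · rcases (nfa_mem nf).1 hi with hi | rfl | rfl | rfl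
        · rw [nf.s3 i hi, R.bip i n ((hc i hi).trans rn.symm), mul_zero]
        · rw [nf.s13, f3_sq ha]
        · rw [nf.s23, hab]
          linear_combination f3_sq ha
        · rw [R.bip _ _ rfl, R.bip _ n (r3.trans rn.symm), mul_zero]
      · simp only [set3, a1, a2, a3, if_false]
        split_ifs with h1 h2 h3 <;> simp_all

theorem W_base (nf : NF D R X ∅ q1 q2 t1 t2 t3) (y : ℕ → ℝ) (u1 u2 u3 : ℝ) :
    R.W (set3 t1 t2 t3 y u1 u2 u3) = e3 u1 u2 u3 := by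
  have n12 := nf.n12
  have n13 := nfa_n13 nf
  have n23 := nfa_n23 nf
  have r3 := nfa_r3 nf
  have hZ : R.Z = {t1, t2, t3} := by rw [nf.rZ]; simp
  have m1 : t1 ∈ R.Z := by simp [hZ]
  have m3 : t3 ∈ R.Z := by simp [hZ]
  have h13 : R.S t1 t3 ≠ 0 := by rw [nf.s13]; decide
  have e1 : R.Z.erase t1 = {t2, t3} := by
    rw [hZ, erase_insert (by simp [n12, n13])]
  have e2 : ({t2, t3} : Finset ℕ).erase t3 = {t2} := by
    rw [pair_comm, erase_insert (by simp [n23.symm])]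
  rw [W_row_pivot m1 m3 nf.r1 h13, pivot_Z, e1, W_rows (G := (R.pivot t1 t3).restrict {t2, t3}),
    W_par (G := R.restrict {t2, t3}) (u := t2) (v := t3) (y' := fun _ => u2 + u3)]
  · rw [W_rows]
    · change 1 * ∏ i ∈ {t2, t3}, _ + _ * ∏ i ∈ ({t2, t3} : Finset ℕ).erase t3, _ = _
      rw [e2, prod_pair n23, prod_singleton]
      simp only [set3, e3, n12.symm, n13.symm, n23.symm, if_true, if_false]
      ring
    · intro i hi
      change i ∈ ({t2, t3} : Finset ℕ).erase t3 at hi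
      rw [e2, mem_singleton] at hi
      rw [hi]
      exact nf.r2
  · refine par_of_unit (D := R.restrict {t2, t3}) (by simp [Disp.restrict])
      (by simp [Disp.restrict]) r3 ?_ fun i hi e => ?_
    · change R.S t2 t3 ≠ 0
      rw [nf.s23]; decide
    · change i ∈ ({t2, t3} : Finset ℕ) at hi
      simp only [mem_insert, mem_singleton, e, false_or] at hi
      rw [hi]
      exact R.bip _ _ rfl
  · exact r3
  · intro i hi e
    change i ∈ ({t2, t3} : Finset ℕ) at hi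
    simp only [mem_insert, mem_singleton, e, or_false] at hi
    rw [hi]
    simp [set3, n12.symm, n13.symm, n23.symm]
  · intro i hi
    change i ∈ ({t2, t3} : Finset ℕ) at hi
    change (R.pivot t1 t3).row i = true
    rw [pivot_row h13]
    simp only [mem_insert, mem_singleton] at hi
    rcases hi with rfl | rfl
    · simp [n12.symm, n23, nf.r2]
    · simp [r3]

/-- the gluing formula. -/
theorem GD.glue (g : GD D R X Y q1 q2 t1 t2 t3 ρ1 ρ2 ρ3) (y : ℕ → ℝ) {κ m u1 u2 u3 : ℝ}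
    (h : ∀ s1 s2 s3, (D.restrict X).W (add3 ρ1 ρ2 ρ3 y s1 s2 s3) =
      κ * e3 (u1 + s1) (u2 + s2) (u3 + s3) - m) :
    D.W y = κ * R.W (set3 t1 t2 t3 y u1 u2 u3) - m * (R.restrict Y).W y := by
  induction' hN : Y.card with N ih generalizing D R Y y u1 u2 u3
  · have h0 : Y = ∅ := card_eq_zero.1 hN
    subst h0
    have hZ : D.Z = X := by rw [g.nf.dZ]; simp
    rw [W_base g.nf, W_empty (D := R.restrict ∅) rfl]
    have := h 0 0 0
    rw [← hZ, restrict_self] at this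
    simp only [add_zero] at this
    rw [mul_one, ← this]
    apply W_congr
    intro i _
    simp [add3]
  · by_cases hr : ∃ n ∈ Y, R.row n = true
    · obtain ⟨n, hn, rn⟩ := hr
      have hc : (Y.erase n).card = N := by rw [card_erase_of_mem hn]; omega
      obtain ⟨D0, R0, ε, -, g0, hX, e1, e2, e4⟩ := g.step_row hn rn
      have a1 : n ≠ t1 := fun e => g.nf.n1 (e ▸ hn)
      have a2 : n ≠ t2 := fun e => g.nf.n2 (e ▸ hn)
      have a3 : n ≠ t3 := fun e => g.nf.n3 (e ▸ hn)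
      have e5 : set3 t1 t2 t3 y u1 u2 u3 n = y n := by simp [set3, a1, a2, a3]
      rw [e1, e2, e4, ih g0 y (hX ▸ h) hc, ih (g.restrict hn) y h hc, e5]
      change _ = _ - m * (_ + y n * ((R.restrict (R.Z.erase n)).restrict (Y.erase n)).W y)
      ring
    · push Not at hr
      obtain ⟨n, hn⟩ : Y.Nonempty := card_pos.1 (by omega)
      have hc : (Y.erase n).card = N := by rw [card_erase_of_mem hn]; omega
      obtain ⟨δ1, δ2, δ3, -, -, -, -, e1, e2, e4⟩ :=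
        g.step_col hn fun j hj => by simpa using hr j hj
      have hY : ∀ i ∈ Y, add3 ρ1 ρ2 ρ3 y (y n * δ1) (y n * δ2) (y n * δ3) i = y i := by
        intro i hi
        simp [add3, (nfa_ne g.nf g.rho.m1 hi).symm, (nfa_ne g.nf g.rho.m2 hi).symm,
          (nfa_ne g.nf g.rho.m3 hi).symm]
      rw [e1, e2, e4, ih (g.restrict hn) _ (u1 := u1 + y n * δ1) (u2 := u2 + y n * δ2)
        (u3 := u3 + y n * δ3) _ hc]
      · congr 2
        · apply W_congr
          intro i hi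
          simp only [set3]
          split_ifs with h1 h2 h3
          any_goals rfl
          apply hY
          have := (nfa_mem g.nf).1 (mem_of_mem_erase hi)
          tauto
        · exact W_congr _ fun i hi => hY i (mem_of_mem_erase hi)
      · intro s1 s2 s3
        rw [add_assoc u1, add_assoc u2, add_assoc u3, ← h]
        apply W_congr
        intro i _
        simp only [add3]
        split_ifs <;> ring

/-- the shape of the polynomial of the regular side. -/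
theorem GD.shape (g : GD D R X Y q1 q2 t1 t2 t3 ρ1 ρ2 ρ3) {y : ℕ → ℝ} (hy : ∀ i, 0 ≤ y i) :
    ∃ h2 Q1 Q2 Q3 : ℝ, 0 ≤ Q1 ∧ 0 ≤ Q2 ∧ 0 ≤ Q3 ∧ ∀ u1 u2 u3,
      R.W (set3 t1 t2 t3 y u1 u2 u3) = h2 + (Q2 + Q3) * u1 + (Q1 + Q3) * u2 + (Q1 + Q2) * u3 +
        (R.restrict Y).W y * e3 u1 u2 u3 := by
  induction' hN : Y.card with N ih generalizing D R Y
  · have h0 : Y = ∅ := card_eq_zero.1 hN
    subst h0
    refine ⟨0, 0, 0, 0, le_rfl, le_rfl, le_rfl, fun u1 u2 u3 => ?_⟩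
    rw [W_base g.nf, W_empty (D := R.restrict ∅) rfl]
    ring
  · by_cases hr : ∃ n ∈ Y, R.row n = true
    · obtain ⟨n, hn, rn⟩ := hr
      have hc : (Y.erase n).card = N := by rw [card_erase_of_mem hn]; omega
      obtain ⟨D0, R0, ε, hε, g0, -, -, e2, e4⟩ := g.step_row hn rn
      have a1 : n ≠ t1 := fun e => g.nf.n1 (e ▸ hn)
      have a2 : n ≠ t2 := fun e => g.nf.n2 (e ▸ hn)
      have a3 : n ≠ t3 := fun e => g.nf.n3 (e ▸ hn)
      obtain ⟨h2, Q1, Q2, Q3, p1, p2, p3, k⟩ := ih g0 hc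
      obtain ⟨h2', Q1', Q2', Q3', p1', p2', p3', k'⟩ := ih (g.restrict hn) hc
      have hyn := hy n
      refine ⟨ε * h2 + y n * h2', ε * Q1 + y n * Q1', ε * Q2 + y n * Q2', ε * Q3 + y n * Q3',
        by positivity, by positivity, by positivity, fun u1 u2 u3 => ?_⟩
      have e5 : set3 t1 t2 t3 y u1 u2 u3 n = y n := by simp [set3, a1, a2, a3]
      rw [e2, e4, k, k', e5]
      change _ = _ + (_ + y n * ((R.restrict (R.Z.erase n)).restrict (Y.erase n)).W y) * _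
      ring
    · push Not at hr
      obtain ⟨n, hn⟩ : Y.Nonempty := card_pos.1 (by omega)
      have hc : (Y.erase n).card = N := by rw [card_erase_of_mem hn]; omega
      obtain ⟨δ1, δ2, δ3, d1, d2, d3, d4, -, e2, e4⟩ :=
        g.step_col hn fun j hj => by simpa using hr j hj
      obtain ⟨h2, Q1, Q2, Q3, p1, p2, p3, k⟩ := ih (g.restrict hn) hc
      have hyn := hy n
      have h0 : 0 ≤ (R.restrict (Y.erase n)).W y := W_nonneg _ hy
      refine ⟨h2 + y n * ((Q2 + Q3) * δ1 + (Q1 + Q3) * δ2 + (Q1 + Q2) * δ3),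
        Q1 + (R.restrict (Y.erase n)).W y * y n * δ1, Q2 + (R.restrict (Y.erase n)).W y * y n * δ2,
        Q3 + (R.restrict (Y.erase n)).W y * y n * δ3,
        by positivity, by positivity, by positivity, fun u1 u2 u3 => ?_⟩
      rw [e2, e4, k]
      change _ + (R.restrict (Y.erase n)).W y * _ = _
      simp only [e3] at d4 ⊢
      linear_combination (R.restrict (Y.erase n)).W y * y n ^ 2 * d4

end

end Pool.Agent.Lib.MP_c69b6d_co.F
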