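import Pool.Agent.Lib.MP_c69b6d_co.F.ThmAc
import Pool.Agent.Lib.MP_c69b6d_co.F.Sharp

/-! Consequences of the determinant formula, and the normal form of the other side. -/

namespace Pool.Agent.Lib.MP_c69b6d_co.F

open Finset Disp

/-- the Hermitian deformation of the Gram matrix. -/
noncomputable def Hm (R : Disp F3) (t1 t2 : ℕ) (μ : ℝ) (z : ℕ → ℝ) : Matrix R.Z R.Z ℂ :=
  Matrix.of fun k l => ((R.lift.Gm R.Z z k l : ℝ) : ℂ) + Complex.I * μ *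
    ((R.lift.cw k t1 * R.lift.cw l t2 - R.lift.cw k t2 * R.lift.cw l t1 : ℝ) : ℂ)

theorem Hm_apply (R : Disp F3) (t1 t2 : ℕ) (μ : ℝ) (z : ℕ → ℝ) (k l : R.Z) :
    Hm R t1 t2 μ z k l = ((R.lift.Gm R.Z z k l : ℝ) : ℂ) + Complex.I * μ *
      ((R.lift.cw k t1 * R.lift.cw l t2 - R.lift.cw k t2 * R.lift.cw l t1 : ℝ) : ℂ) := rfl

theorem Gm_symm (G : Disp ℝ) (U : Finset ℕ) (z : ℕ → ℝ) (k l : U) :
    G.Gm U z k l = G.Gm U z l k := by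
  rw [Gm_apply, Gm_apply]
  congr 1
  · by_cases e : k = l
    · subst e; rfl
    · have e' : ¬ l = k := fun h => e h.symm
      simp [e, e']
  · exact sum_congr rfl fun m _ => by ring

theorem Gm_add (G : Disp ℝ) (U : Finset ℕ) (z τ : ℕ → ℝ) (k l : U) :
    G.Gm U (z + τ) k l = G.Gm U z k l + ∑ m ∈ G.Z, τ m * (G.cw k m * G.cw l m) := by
  simp only [Gm_apply, Pi.add_apply, add_mul, sum_add_distrib, add_assoc]

theorem Hm_herm (R : Disp F3) (t1 t2 : ℕ) (μ : ℝ) (z : ℕ → ℝ) :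
    (Hm R t1 t2 μ z).conjTranspose = Hm R t1 t2 μ z := by
  ext k l
  rw [Matrix.conjTranspose_apply, Hm_apply, Hm_apply, Gm_symm _ _ _ l k]
  simp only [star_add, star_mul', Complex.star_def, Complex.conj_ofReal, Complex.conj_I]
  push_cast
  ring

theorem Hm_symm (R : Disp F3) (t1 t2 : ℕ) (z : ℕ → ℝ) :
    (Hm R t1 t2 0 z).transpose = Hm R t1 t2 0 z := by
  ext k l
  rw [Matrix.transpose_apply, Hm_apply, Hm_apply, Gm_symm _ _ _ l k]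
  simp

theorem det_Hm_zero {R : Disp F3} (reg : NoW4 R R.Z) (t1 t2 : ℕ) (z : ℕ → ℝ) :
    (Hm R t1 t2 0 z).det = (R.W z : ℝ) := by
  rw [W_eq_det (Subset.refl _) reg]
  have e : Hm R t1 t2 0 z = Complex.ofRealHom.mapMatrix (R.lift.Gm R.Z z) := by
    ext k l
    simp [Hm_apply]
  rw [e, ← RingHom.map_det]
  rfl

theorem Hm_ineq {R : Disp F3} {t1 t2 : ℕ} {μ : ℝ} {z τ τ' : ℕ → ℝ} (h : RankOne R τ)
    (h' : RankOne R τ') {d0 d1 d2 d3 : ℝ} (e0 : (Hm R t1 t2 μ z).det = d0)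
    (e1 : (Hm R t1 t2 μ (z + τ)).det = d1) (e2 : (Hm R t1 t2 μ (z + τ')).det = d2)
    (e3 : (Hm R t1 t2 μ (z + τ + τ')).det = d3) (hd : d0 ≠ 0) : d0 * d3 ≤ d1 * d2 := by
  obtain ⟨σ, hσ, f, hf⟩ := h
  obtain ⟨σ', hσ', f', hf'⟩ := h'
  have k1 : ∀ z (k l : R.Z), Hm R t1 t2 μ (z + τ) k l =
      Hm R t1 t2 μ z k l + (σ * f (R.lift.cw k) * f (R.lift.cw l) : ℝ) := by
    intro z k l
    rw [Hm_apply, Hm_apply, Gm_add, ← hf _ (cw_mem _ _) _ (cw_mem _ _)]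
    change ((_ + ∑ m ∈ R.Z, _ : ℝ) : ℂ) + _ = _
    push_cast
    ring
  have k2 : ∀ z (k l : R.Z), Hm R t1 t2 μ (z + τ') k l =
      Hm R t1 t2 μ z k l + (σ' * f' (R.lift.cw k) * f' (R.lift.cw l) : ℝ) := by
    intro z k l
    rw [Hm_apply, Hm_apply, Gm_add, ← hf' _ (cw_mem _ _) _ (cw_mem _ _)]
    change ((_ + ∑ m ∈ R.Z, _ : ℝ) : ℂ) + _ = _
    push_cast
    ring
  exact herm_ineq (Hm_herm R t1 t2 μ z) (fun k => f (R.lift.cw k)) (fun k => f' (R.lift.cw k))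
    hσ hσ' (k1 z) (k2 z) (fun k l => by rw [k2, k1]) e0 e1 e2 e3 hd

theorem W_ineq {R : Disp F3} (reg : NoW4 R R.Z) {z τ τ' : ℕ → ℝ} (h : RankOne R τ)
    (h' : RankOne R τ') (hd : R.W z ≠ 0) :
    R.W z * R.W (z + τ + τ') ≤ R.W (z + τ) * R.W (z + τ') :=
  Hm_ineq h h' (det_Hm_zero reg 0 0 _) (det_Hm_zero reg 0 0 _) (det_Hm_zero reg 0 0 _)
    (det_Hm_zero reg 0 0 _) hd

section

variable {D R : Disp F3} {X Y : Finset ℕ} {q1 q2 : ℕ → F3} {t1 t2 t3 ρ1 ρ2 ρ3 : ℕ}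

theorem cw_t3 (nf : NF D R X Y q1 q2 t1 t2 t3) (k : ℕ) :
    R.lift.cw k t3 = R.lift.cw k t1 - R.lift.cw k t2 := by
  have m1 : t1 ∈ R.lift.B := mem_B.2 ⟨(nfa_mem nf).2 (by simp), nf.r1⟩
  have m2 : t2 ∈ R.lift.B := mem_B.2 ⟨(nfa_mem nf).2 (by simp), nf.r2⟩
  have m3 : t3 ∈ R.Z := (nfa_mem nf).2 (by simp)
  by_cases hk : k ∈ R.lift.B
  · rw [cw_col hk m3 (nfa_r3 nf), cw_row m1, cw_row m2]
    change lf (R.S k t3) = _
    rcases (nfa_mem nf).1 (mem_B.1 hk).1 with h | rfl | rfl | rfl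
    · have a1 : t1 ≠ k := fun e => nf.n1 (e ▸ h)
      have a2 : t2 ≠ k := fun e => nf.n2 (e ▸ h)
      simp [nf.s3 k h, a1, a2]
    · simp [nf.s13, nf.n12.symm]
    · simp [nf.s23, nf.n12]
    · have := (mem_B.1 hk).2
      change R.row k = true at this
      rw [nfa_r3 nf] at this
      exact absurd this (by decide)
  · simp [cw_of_not hk]

theorem W_shift (nf : NF D R X Y q1 q2 t1 t2 t3) (reg : NoW4 R R.Z) {y : ℕ → ℝ} {u1 u2 u3 : ℝ}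
    (h : R.W (set3 t1 t2 t3 y u1 u2 u3) ≠ 0) : ∃ a b c : ℂ,
    (∀ s1 s2 s3 : ℝ, (R.W (set3 t1 t2 t3 y (u1 + s1) (u2 + s2) (u3 + s3)) : ℂ) =
      R.W (set3 t1 t2 t3 y u1 u2 u3) * (1 + (s1 + s3) * a - 2 * s3 * b + (s2 + s3) * c +
        (s1 * s2 + s1 * s3 + s2 * s3) * (a * c - b * b))) ∧
    ∀ μ : ℝ, (Hm R t1 t2 μ (set3 t1 t2 t3 y u1 u2 u3)).det =
      R.W (set3 t1 t2 t3 y u1 u2 u3) * (1 - μ ^ 2 * (a * c - b * b)) := by
  set z := set3 t1 t2 t3 y u1 u2 u3 with hz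
  have hH : (Hm R t1 t2 0 z).det ≠ 0 := by
    rw [det_Hm_zero reg]; exact_mod_cast h
  let p : R.Z → ℂ := fun k => (R.lift.cw k t1 : ℝ)
  let q : R.Z → ℂ := fun k => (R.lift.cw k t2 : ℝ)
  have hs := bf_symm (Hm_symm R t1 t2 z) q p
  refine ⟨bf (Hm R t1 t2 0 z) p p, bf (Hm R t1 t2 0 z) p q, bf (Hm R t1 t2 0 z) q q,
    fun s1 s2 s3 => ?_, fun μ => ?_⟩
  · have e : set3 t1 t2 t3 y (u1 + s1) (u2 + s2) (u3 + s3) = z + set3 t1 t2 t3 0 s1 s2 s3 := by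
      funext i
      simp only [hz, set3, Pi.add_apply, Pi.zero_apply]
      split_ifs <;> simp
    rw [← det_Hm_zero reg t1 t2, ← det_Hm_zero reg t1 t2,
      det_two hH p q (s1 + s3) (-s3) (-s3) (s2 + s3), hs]
    · ring
    · intro k l
      rw [e, Hm_apply, Hm_apply, Gm_add]
      change ((_ + ∑ m ∈ R.Z, _ : ℝ) : ℂ) + _ = _
      rw [sum_three ((nfa_mem nf).2 (by simp)) ((nfa_mem nf).2 (by simp))
        ((nfa_mem nf).2 (by simp)) nf.n12 (nfa_n13 nf) (nfa_n23 nf)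
        fun m _ h1 h2 h3 => by simp [set3, h1, h2, h3], cw_t3 nf, cw_t3 nf]
      simp only [set3, nf.n12.symm, (nfa_n13 nf).symm, (nfa_n23 nf).symm, if_true, if_false, p, q]
      push_cast
      ring
  · rw [← det_Hm_zero reg t1 t2, det_two hH p q 0 (Complex.I * μ) (-(Complex.I * μ)) 0, hs]
    · linear_combination (Hm R t1 t2 0 z).det * (μ : ℂ) ^ 2 *
        (bf (Hm R t1 t2 0 z) p p * bf (Hm R t1 t2 0 z) q q -
          bf (Hm R t1 t2 0 z) p q * bf (Hm R t1 t2 0 z) p q) * Complex.I_mul_I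
    · intro k l
      rw [Hm_apply, Hm_apply]
      simp only [p, q]
      push_cast
      ring

/-- the regular side is a shifted multiple of `e3`. -/
theorem GD.star (g : GD D R X Y q1 q2 t1 t2 t3 ρ1 ρ2 ρ3) {y : ℕ → ℝ} (hy : ∀ i, 0 < y i) :
    ∃ δ1 δ2 δ3 : ℝ, 0 ≤ δ1 ∧ 0 ≤ δ2 ∧ 0 ≤ δ3 ∧ ∀ u1 u2 u3,
      R.W (set3 t1 t2 t3 y u1 u2 u3) = (R.restrict Y).W y * e3 (u1 + δ1) (u2 + δ2) (u3 + δ3) := by
  obtain ⟨h2, Q1, Q2, Q3, p1, p2, p3, k⟩ := g.shape fun i => (hy i).le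
  have h0 : 0 < (R.restrict Y).W y := W_pos _ hy
  set h := (R.restrict Y).W y
  have k' : ∀ u1 u2 u3, R.W (set3 t1 t2 t3 y u1 u2 u3) =
      h * e3 (u1 + Q1 / h) (u2 + Q2 / h) (u3 + Q3 / h) + (h2 - e3 Q1 Q2 Q3 / h) := by
    intro u1 u2 u3
    rw [k]
    simp only [e3]
    field_simp
    ring
  set m := h2 - e3 Q1 Q2 Q3 / h
  have k2 : ∀ s1 s2 s3, R.W (set3 t1 t2 t3 y (-(Q1 / h) + s1) (-(Q2 / h) + s2) (-(Q3 / h) + s3)) =
      h * e3 s1 s2 s3 + m := by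
    intro s1 s2 s3
    rw [k']
    congr 3 <;> ring
  have hm : m = 0 := by
    by_contra hm
    have k0 : R.W (set3 t1 t2 t3 y (-(Q1 / h)) (-(Q2 / h)) (-(Q3 / h))) = m := by
      have := k2 0 0 0
      simpa [e3] using this
    obtain ⟨a, b, c, e, -⟩ := W_shift g.nf g.reg (k0 ▸ hm)
    have hm' : (m : ℂ) ≠ 0 := by exact_mod_cast hm
    have hh : (h : ℂ) ≠ 0 := by exact_mod_cast h0.ne'
    have f1 := e 1 0 0
    have f2 := e 0 1 0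
    have f3 := e 0 0 1
    have f4 := e 1 1 0
    rw [k2, k0] at f1 f2 f3 f4
    simp only [e3] at f1 f2 f3 f4
    push_cast at f1 f2 f3 f4
    have ha : a = 0 := mul_left_cancel₀ hm' (by linear_combination -f1)
    have hc : c = 0 := mul_left_cancel₀ hm' (by linear_combination -f2)
    subst ha hc
    have hb : b = 0 := mul_left_cancel₀ hm' (by linear_combination f3 / 2)
    subst hb
    apply hh
    linear_combination f4
  refine ⟨Q1 / h, Q2 / h, Q3 / h, by positivity, by positivity, by positivity,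
    fun u1 u2 u3 => ?_⟩
  rw [k', hm, add_zero]

theorem GD.det_skew (g : GD D R X Y q1 q2 t1 t2 t3 ρ1 ρ2 ρ3) {y : ℕ → ℝ} (hy : ∀ i, 0 ≤ y i)
    {u1 u2 u3 : ℝ} (h : R.W (set3 t1 t2 t3 y u1 u2 u3) ≠ 0) (μ : ℝ) :
    (Hm R t1 t2 μ (set3 t1 t2 t3 y u1 u2 u3)).det =
      (R.W (set3 t1 t2 t3 y u1 u2 u3) - μ ^ 2 * (R.restrict Y).W y : ℝ) := by
  obtain ⟨h2, Q1, Q2, Q3, -, -, -, k⟩ := g.shape hy
  obtain ⟨a, b, c, e, e'⟩ := W_shift g.nf g.reg h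
  have f1 := e 1 0 0
  have f2 := e 0 1 0
  have f4 := e 1 1 0
  rw [e']
  have f5 : R.W (set3 t1 t2 t3 y (u1 + 1) (u2 + 1) (u3 + 0)) -
      R.W (set3 t1 t2 t3 y (u1 + 1) (u2 + 0) (u3 + 0)) -
      R.W (set3 t1 t2 t3 y (u1 + 0) (u2 + 1) (u3 + 0)) + R.W (set3 t1 t2 t3 y u1 u2 u3) =
      (R.restrict Y).W y := by
    simp only [k, e3]
    ring
  rw [← f5]
  push_cast at f1 f2 f4 ⊢
  rw [f1, f2, f4]
  ring

theorem GD.tri (g : GD D R X Y q1 q2 t1 t2 t3 ρ1 ρ2 ρ3) : (D.restrict X).Tri {ρ1, ρ2, ρ3} := by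
  have n12 := g.n12
  have n13 := g.n13
  have n23 := g.n23
  refine ⟨card_eq_three.2 ⟨ρ1, ρ2, ρ3, n12, n13, n23, rfl⟩,
    fun i => if i = ρ1 then 1 else if i = ρ2 then -1 else if i = ρ3 then -1 else 0, ?_, ?_⟩
  · rw [mem_flip_code]
    refine ⟨fun i hi => ?_, fun i hi ri => ?_⟩
    · have a1 : i ≠ ρ1 := fun e => hi (e ▸ g.rho.m1)
      have a2 : i ≠ ρ2 := fun e => hi (e ▸ g.rho.m2)
      have a3 : i ≠ ρ3 := fun e => hi (e ▸ g.rho.m3)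
      simp [a1, a2, a3]
    · change D.row i = true at ri
      have a1 : i ≠ ρ1 := fun e => by rw [e, g.rho.c1] at ri; exact absurd ri (by decide)
      have a2 : i ≠ ρ2 := fun e => by rw [e, g.rho.c2] at ri; exact absurd ri (by decide)
      have a3 : i ≠ ρ3 := fun e => by rw [e, g.rho.c3] at ri; exact absurd ri (by decide)
      change _ = ∑ j ∈ X, _ * D.S j i
      rw [sum_three g.rho.m1 g.rho.m2 g.rho.m3 n12 n13 n23
        fun m _ h1 h2 h3 => by simp [h1, h2, h3], D.skew ρ1, D.skew ρ2, D.skew ρ3,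
        g.rho.e1 i hi, g.rho.e2 i hi, g.rho.e3 i hi]
      simp [a1, a2, a3, n12.symm, n13.symm, n23.symm]
  · intro i
    simp only [mem_insert, mem_singleton]
    split_ifs with h1 h2 h3
    · simp [h1]
    · simp [h2]
    · simp [h3]
    · simp [h1, h2, h3]

theorem GD.indep (g : GD D R X Y q1 q2 t1 t2 t3 ρ1 ρ2 ρ3) : (D.restrict X).Indep {ρ1, ρ2} := by
  intro d hd h0
  have z : ∀ i, i ≠ ρ1 → i ≠ ρ2 → d i = 0 := fun i h1 h2 => h0 i (by simp [h1, h2])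
  have key := nfa_ind g.nf (A := d ρ1) (B := d ρ2) fun i hi => by
    cases ri : D.row i
    · obtain ⟨e1, e2⟩ := g.nf.qrow i hi ri
      simp [e1, e2]
    · have a1 : i ≠ ρ1 := fun e => by rw [e, g.rho.c1] at ri; exact absurd ri (by decide)
      have a2 : i ≠ ρ2 := fun e => by rw [e, g.rho.c2] at ri; exact absurd ri (by decide)
      have := (mem_flip_code.1 hd).2 i hi ri
      change _ = ∑ j ∈ X, _ * D.S j i at this
      rw [sum_three g.rho.m1 g.rho.m2 g.rho.m3 g.n12 g.n13 g.n23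
        fun m _ h1 h2 _ => by simp [z m h1 h2], D.skew ρ1, D.skew ρ2,
        g.rho.e1 i hi, g.rho.e2 i hi, z i a1 a2, z ρ3 g.n13.symm g.n23.symm] at this
      linear_combination this
  funext i
  by_cases a1 : i = ρ1
  · rw [a1]; exact key.1
  · by_cases a2 : i = ρ2
    · rw [a2]; exact key.2
    · exact z i a1 a2

/-- the normal form of the other side. -/
theorem GD.xform (g : GD D R X Y q1 q2 t1 t2 t3 ρ1 ρ2 ρ3) {y : ℕ → ℝ} (hy : ∀ i, 0 < y i) :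
    ∃ κ m ω1 ω2 ω3 : ℝ, 0 < κ ∧ (QF (D.restrict X).W {ρ1, ρ2, ρ3} {ρ1, ρ2, ρ3} → 0 ≤ m) ∧
      ∀ y' : ℕ → ℝ, (∀ i ∈ X, i ≠ ρ1 → i ≠ ρ2 → i ≠ ρ3 → y' i = y i) →
        (D.restrict X).W y' = κ * e3 (y' ρ1 + ω1) (y' ρ2 + ω2) (y' ρ3 + ω3) - m := by
  have n12 := g.n12
  have n13 := g.n13
  have n23 := g.n23
  obtain ⟨H2, Wa, Wb, Wc, H0, tf⟩ := triForm_W n12 n13 n23 g.tri
  have k : ∀ s1 s2 s3, (D.restrict X).W (set3 ρ1 ρ2 ρ3 y s1 s2 s3) =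
      H2 y + Wa y * s1 + Wb y * s2 + Wc y * s3 + H0 y * e3 s1 s2 s3 := by
    intro s1 s2 s3
    obtain ⟨a1, a2, a3, a4, a5⟩ := tf.2.1 (set3 ρ1 ρ2 ρ3 y s1 s2 s3) y
      fun i h1 h2 h3 => by simp [set3, h1, h2, h3]
    rw [tf.1, a1, a2, a3, a4, a5]
    simp [set3, e3, n12.symm, n13.symm, n23.symm]
  have hκ : 0 < H0 y := by
    obtain ⟨E, hE, hB⟩ := reach_rows (D := D.restrict X) (I := {ρ1, ρ2})
      (by
        intro i hi
        simp only [mem_insert, mem_singleton] at hi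
        rcases hi with rfl | rfl
        exacts [g.rho.m1, g.rho.m2]) g.indep
    have hr : (D.restrict X).Reach E := hE.reach (union_subset
      (sdiff_subset.trans (by
        intro i hi
        simp only [mem_insert, mem_singleton] at hi
        rcases hi with rfl | rfl
        exacts [g.rho.m1, g.rho.m2])) (sdiff_subset.trans (filter_subset _ _)))
    have b1 := mem_B.1 (hB (show ρ1 ∈ ({ρ1, ρ2} : Finset ℕ) by simp))
    have b2 := mem_B.1 (hB (show ρ2 ∈ ({ρ1, ρ2} : Finset ℕ) by simp))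
    set E1 := E.restrict (E.Z.erase ρ1) with hE1
    have c2 : ρ2 ∈ E1.Z := mem_erase.2 ⟨n12.symm, b2.1⟩
    have s1 : ∀ s2, E.W (set3 ρ1 ρ2 ρ3 y 1 s2 (y ρ3)) - E.W (set3 ρ1 ρ2 ρ3 y 0 s2 (y ρ3)) =
        E1.W (set3 ρ1 ρ2 ρ3 y 1 s2 (y ρ3)) := by
      intro s2
      rw [W_split E b1.1, W_split E b1.1 (set3 ρ1 ρ2 ρ3 y 0 s2 (y ρ3)), Wcon_row b1.1 b1.2,
        Wdel_congr E ρ1 (y := set3 ρ1 ρ2 ρ3 y 1 s2 (y ρ3)) (z := set3 ρ1 ρ2 ρ3 y 0 s2 (y ρ3))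
          fun i _ h => by simp [set3, h]]
      simp [set3, hE1]
    have s2 : E1.W (set3 ρ1 ρ2 ρ3 y 1 1 (y ρ3)) - E1.W (set3 ρ1 ρ2 ρ3 y 1 0 (y ρ3)) =
        (E1.restrict (E1.Z.erase ρ2)).W (set3 ρ1 ρ2 ρ3 y 1 1 (y ρ3)) := by
      rw [W_split E1 c2, W_split E1 c2 (set3 ρ1 ρ2 ρ3 y 1 0 (y ρ3)), Wcon_row c2 b2.2,
        Wdel_congr E1 ρ2 (y := set3 ρ1 ρ2 ρ3 y 1 1 (y ρ3)) (z := set3 ρ1 ρ2 ρ3 y 1 0 (y ρ3))
          fun i _ h => by simp [set3, h]]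
      simp [set3, n12.symm]
    have s3 : 0 < (E1.restrict (E1.Z.erase ρ2)).W (set3 ρ1 ρ2 ρ3 y 1 1 (y ρ3)) := by
      apply W_pos
      intro i
      simp only [set3]
      split_ifs
      exacts [one_pos, one_pos, hy _, hy _]
    rw [← s2, ← s1, ← s1, hr.W_eq, k, k, k, k] at s3
    simp only [e3] at s3
    linarith
  refine ⟨H0 y, H0 y * e3 ((Wb y + Wc y - Wa y) / (2 * H0 y)) ((Wa y + Wc y - Wb y) / (2 * H0 y))
    ((Wa y + Wb y - Wc y) / (2 * H0 y)) - H2 y, (Wb y + Wc y - Wa y) / (2 * H0 y),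
    (Wa y + Wc y - Wb y) / (2 * H0 y), (Wa y + Wb y - Wc y) / (2 * H0 y), hκ, fun hq => ?_,
    fun y' hy' => ?_⟩
  · have := (qf_iff_disc n12 n13 n23 tf).1 hq y fun i => (hy i).le
    have e : H0 y * e3 ((Wb y + Wc y - Wa y) / (2 * H0 y)) ((Wa y + Wc y - Wb y) / (2 * H0 y))
        ((Wa y + Wb y - Wc y) / (2 * H0 y)) - H2 y =
        (2 * (Wa y * Wb y + Wa y * Wc y + Wb y * Wc y) - (Wa y ^ 2 + Wb y ^ 2 + Wc y ^ 2) -
          4 * H0 y * H2 y) / (4 * H0 y) := by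
      simp only [e3]
      field_simp
      ring
    rw [e]
    exact div_nonneg (by linarith) (by positivity)
  · rw [W_congr (D.restrict X) (z := set3 ρ1 ρ2 ρ3 y (y' ρ1) (y' ρ2) (y' ρ3)), k]
    · simp only [e3]
      field_simp
      ring
    · intro i hi
      simp only [set3]
      split_ifs with h1 h2 h3
      · rw [h1]
      · rw [h2]
      · rw [h3]
      · exact hy' i hi h1 h2 h3

theorem GD.add3_apply (g : GD D R X Y q1 q2 t1 t2 t3 ρ1 ρ2 ρ3) (y : ℕ → ℝ) (s1 s2 s3 : ℝ) :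
    add3 ρ1 ρ2 ρ3 y s1 s2 s3 ρ1 = y ρ1 + s1 ∧ add3 ρ1 ρ2 ρ3 y s1 s2 s3 ρ2 = y ρ2 + s2 ∧
      add3 ρ1 ρ2 ρ3 y s1 s2 s3 ρ3 = y ρ3 + s3 := by
  simp [add3, g.n12, g.n13, g.n23, g.n12.symm, g.n13.symm, g.n23.symm]

theorem GD.glue' (g : GD D R X Y q1 q2 t1 t2 t3 ρ1 ρ2 ρ3) {y y' : ℕ → ℝ} {κ m ω1 ω2 ω3 : ℝ}
    (h : ∀ y' : ℕ → ℝ, (∀ i ∈ X, i ≠ ρ1 → i ≠ ρ2 → i ≠ ρ3 → y' i = y i) →
      (D.restrict X).W y' = κ * e3 (y' ρ1 + ω1) (y' ρ2 + ω2) (y' ρ3 + ω3) - m)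
    (hy : ∀ i ∈ X, i ≠ ρ1 → i ≠ ρ2 → i ≠ ρ3 → y' i = y i) :
    D.W y' = κ * R.W (set3 t1 t2 t3 y' (y' ρ1 + ω1) (y' ρ2 + ω2) (y' ρ3 + ω3)) -
      m * (R.restrict Y).W y' := by
  apply g.glue
  intro s1 s2 s3
  obtain ⟨a1, a2, a3⟩ := g.add3_apply y' s1 s2 s3
  rw [h _ fun i hi h1 h2 h3 => by simp [add3, h1, h2, h3, hy i hi h1 h2 h3], a1, a2, a3]
  congr 3 <;> ring

/-- the formula for `W` as a shift of the polynomial of the other side. -/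
theorem GD.star2 (g : GD D R X Y q1 q2 t1 t2 t3 ρ1 ρ2 ρ3) {y y0 : ℕ → ℝ} (hy : ∀ i, 0 < y i)
    (h0 : ∀ i ∈ Y, y i = y0 i) {δ1 δ2 δ3 : ℝ} (h : ∀ u1 u2 u3,
      R.W (set3 t1 t2 t3 y0 u1 u2 u3) = (R.restrict Y).W y0 * e3 (u1 + δ1) (u2 + δ2) (u3 + δ3)) :
    D.W y = (R.restrict Y).W y0 * (D.restrict X).W (add3 ρ1 ρ2 ρ3 y δ1 δ2 δ3) := by
  obtain ⟨κ, m, ω1, ω2, ω3, -, -, k⟩ := g.xform hy
  obtain ⟨a1, a2, a3⟩ := g.add3_apply y δ1 δ2 δ3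
  rw [g.glue' k fun _ _ _ _ _ => rfl, W_congr (R.restrict Y) h0,
    W_congr R (z := set3 t1 t2 t3 y0 (y ρ1 + ω1) (y ρ2 + ω2) (y ρ3 + ω3)), h,
    k _ fun i _ h1 h2 h3 => by simp [add3, h1, h2, h3], a1, a2, a3]
  · simp only [e3]
    ring
  · intro i hi
    simp only [set3]
    split_ifs with h1 h2 h3
    any_goals rfl
    apply h0
    have := (nfa_mem g.nf).1 hi
    tauto

end

end Pool.Agent.Lib.MP_c69b6d_co.F
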